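import Mathlib

set_option autoImplicit false

namespace Pool.Agent.H83.Entang

open Set Cardinal

section abstract

variable {X T O I : Type}

/-- section of a code over a list of points -/
def sec (res : O → X → T) (C : Set (O × List T × T)) (l : List X) : Set X :=
  {u | ∀ ξ, (ξ, l.map (res ξ), res ξ u) ∈ C}

/-- points of `S` that see no other point of `S` in colour `e` -/
def bad (h : X → X → ZMod 2) (S : Set X) (e : ZMod 2) : Set X :=
  {a | a ∈ S ∧ ∀ u ∈ S, u ≠ a → h u a ≠ e}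

theorem bad_sub (h : X → X → ZMod 2) (hanti : ∀ u a, u ≠ a → h u a ≠ h a u) (S : Set X)
    (e : ZMod 2) : (bad h S e).Subsingleton := by
  intro a ha b hb
  by_contra hne
  have h1 := ha.2 b hb.1 (Ne.symm hne)
  have h2 := hb.2 a ha.1 hne
  have h3 := hanti a b hne
  revert h1 h2 h3
  generalize h a b = x
  generalize h b a = y
  clear ha hb
  revert x y e
  decide

theorem exists_seq [LinearOrder I] [WellFoundedLT I] (lam : Cardinal.{0}) (hl : ℵ₀ < lam)
    (hX : lam ≤ #X) (hI : ∀ α : I, #(Iio α) < lam) (res : O → X → T)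
    (rk : Set (O × List T × T) → I) (hrk : Function.Injective rk)
    (h : X → X → ZMod 2) (hanti : ∀ u a, u ≠ a → h u a ≠ h a u) :
    ∃ r : I → X, (∀ α β, β < α → r β ≠ r α) ∧ ∀ α C (l : List I) e, rk C < α → (∀ β ∈ l, β < α) →
      r α ∉ bad h (sec res C (l.map r)) e := by
  classical
  have step : ∀ (α : I) (S : Set X), #S < lam → ∃ x, x ∉ S ∧ ∀ C (l : List X) e, rk C < α →
      (∀ y ∈ l, y ∈ S) → x ∉ bad h (sec res C l) e := by
    intro α S hS
    let B : Set X := S ∪ ⋃ p : {C // rk C < α} × List S × ZMod 2,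
      bad h (sec res p.1.1 (p.2.1.map Subtype.val)) p.2.2
    have hB : #B < lam := by
      refine (mk_union_le _ _).trans_lt (add_lt_of_lt hl.le hS ?_)
      refine (mk_iUnion_le_sum_mk.trans (sum_le_sum _ (fun _ => 1) fun p => ?_)).trans_lt ?_
      · exact mk_le_one_iff_set_subsingleton.2 (bad_sub h hanti _ _)
      · rw [sum_const', mul_one, mk_prod, mk_prod, lift_id, lift_id, lift_id, lift_id]
        refine mul_lt_of_lt hl.le ?_ (mul_lt_of_lt hl.le ?_ ?_)
        · refine lt_of_le_of_lt ?_ (hI α)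
          exact mk_le_of_injective (f := fun C => ⟨rk C.1, C.2⟩) fun a b hab =>
            Subtype.ext (hrk (congrArg Subtype.val hab))
        · exact (mk_list_le_max _).trans_lt (max_lt hl hS)
        · exact (lt_aleph0_of_finite _).trans hl
    obtain ⟨x, hx⟩ : ∃ x, x ∉ B := by
      by_contra hc
      push Not at hc
      have : B = Set.univ := eq_univ_of_forall hc
      rw [this, mk_univ] at hB
      exact absurd hX (not_le.2 hB)
    refine ⟨x, fun hs => hx (Or.inl hs), fun C l e hC hl' hb => hx (Or.inr ?_)⟩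
    refine mem_iUnion.2 ⟨(⟨C, hC⟩, l.pmap Subtype.mk hl', e), ?_⟩
    simpa [List.map_pmap] using hb
  choose F hF1 hF2 using step
  have hne : Nonempty X := by
    rw [← mk_ne_zero_iff]
    exact ((aleph0_pos.trans hl).trans_le hX).ne'
  let G : (α : I) → ((β : I) → β < α → X) → X := fun α g =>
    if hs : #{b | ∃ β, ∃ hβ : β < α, g β hβ = b} < lam then F α _ hs else hne.some
  let r : I → X := (wellFounded_lt (α := I)).fix G
  have hr : ∀ α, r α = G α (fun β _ => r β) := fun α => WellFounded.fix_eq _ _ _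
  have himg : ∀ α, {b | ∃ β, ∃ _ : β < α, r β = b} = r '' Iio α := by
    intro α; ext b; simp
  have hs : ∀ α, #{b | ∃ β, ∃ _ : β < α, r β = b} < lam := fun α => by
    rw [himg]; exact mk_image_le.trans_lt (hI α)
  have hr' : ∀ α, r α = F α _ (hs α) := fun α => by
    rw [hr α]; simp only [G, dif_pos (hs α)]
  refine ⟨r, fun α β hβ he => ?_, fun α C l e hC hl' => ?_⟩
  · have := hF1 α _ (hs α)
    rw [← hr' α] at this
    exact this ⟨β, hβ, he⟩
  · have := hF2 α _ (hs α) C (l.map r) e hC (by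
      intro y hy
      obtain ⟨β, hβ, rfl⟩ := List.mem_map.1 hy
      exact ⟨β, hl' β hβ, rfl⟩)
    rwa [← hr' α] at this

theorem entangled [LinearOrder O] [Nonempty O] [LinearOrder I] [WellFoundedLT I]
    (μ : Cardinal.{0}) (hμ : ℵ₀ ≤ μ) (hO : #O ≤ μ) (hT : #T ≤ μ) (hX : 2 ^ μ ≤ #X)
    (hI : ∀ α : I, #(Iio α) < 2 ^ μ) (hIc : 2 ^ μ ≤ #I)
    (hbd : ∀ s : Set I, #s ≤ μ → ∃ α, ∀ β ∈ s, β < α)
    (res : O → X → T) (hmono : ∀ ξ η x y, ξ ≤ η → res η x = res η y → res ξ x = res ξ y)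
    (h : X → X → ZMod 2) (hanti : ∀ u a, u ≠ a → h u a ≠ h a u)
    (hloc : ∀ u a, u ≠ a → ∃ ξ, ∀ u', res ξ u' = res ξ u → h u' a = h u a) :
    ∃ r : I → X, ∀ (n : ℕ) (A : Set (ℕ → I)), (∀ a ∈ A, ∀ i j, i < j → j < n → a i < a j) →
      (∀ α, ∃ a ∈ A, ∀ i < n, α < a i) →
      ∃ a ∈ A, ∀ ε : ℕ → ZMod 2, ∃ b ∈ A, (∀ i < n, ∀ j < n, b i < a j) ∧
        (∀ i < n, h (r (b i)) (r (a i)) = ε i) ∧
        ∀ i < n, ∀ j < n, i ≠ j → h (r (b i)) (r (a j)) = h (r (a i)) (r (a j)) := by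
  classical
  have hmul : ∀ {a b : Cardinal.{0}}, a ≤ μ → b ≤ μ → a * b ≤ μ := fun ha hb =>
    (mul_le_mul' ha hb).trans (mul_eq_self hμ).le
  have hK : #(O × List T × T) ≤ μ := by
    rw [mk_prod, mk_prod, lift_id, lift_id, lift_id, lift_id]
    exact hmul hO (hmul ((mk_list_le_max _).trans (max_le hμ hT)) hT)
  obtain ⟨rk⟩ : Nonempty (Set (O × List T × T) ↪ I) := by
    rw [← Cardinal.le_def, mk_set]
    exact (power_le_power_left two_ne_zero hK).trans hIc
  obtain ⟨r, hr1, hr2⟩ := exists_seq (2 ^ μ) (hμ.trans_lt (cantor μ)) hX hI res rk rk.injective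
    h hanti
  refine ⟨r, fun n A hA hA' => ?_⟩
  let sat : List (ℕ × O × T) → (ℕ → I) → Prop := fun N b =>
    ∀ p ∈ N, res p.2.1 (r (b p.1)) = p.2.2
  let code : List (ℕ × O × T) → ℕ → Set (O × List T × T) := fun N j =>
    {q | ∃ b ∈ A, sat N b ∧
      q = (q.1, (List.range j).map (fun i => res q.1 (r (b i))), res q.1 (r (b j)))}
  have hIne : Nonempty I := by
    rw [← mk_ne_zero_iff]
    exact (((aleph0_pos.trans_le hμ).trans (cantor μ)).trans_le hIc).ne'
  have hw : ∀ N, ∃ w : ℕ → I, (∃ b ∈ A, sat N b) → w ∈ A ∧ sat N w := by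
    intro N
    by_cases hN : ∃ b ∈ A, sat N b
    · obtain ⟨b, hb⟩ := hN
      exact ⟨b, fun _ => hb⟩
    · exact ⟨fun _ => hIne.some, fun hc => absurd hc hN⟩
  choose w hw using hw
  have hL : #(List (ℕ × O × T) × ℕ) ≤ μ := by
    rw [mk_prod, lift_id, lift_id]
    refine hmul ((mk_list_le_max _).trans (max_le hμ ?_)) (by simpa using hμ)
    rw [mk_prod, mk_prod, lift_id, lift_id, lift_id, lift_id]
    exact hmul (by simpa using hμ) (hmul hO hT)
  obtain ⟨α₀, hα₀⟩ := hbd (range (fun p : List (ℕ × O × T) × ℕ => rk (code p.1 p.2)) ∪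
      range (fun p : List (ℕ × O × T) × ℕ => w p.1 p.2)) (by
    refine (mk_union_le _ _).trans ?_
    exact (add_le_add (mk_range_le.trans hL) (mk_range_le.trans hL)).trans (add_eq_self hμ).le)
  obtain ⟨a, haA, ha⟩ := hA' α₀
  refine ⟨a, haA, fun ε => ?_⟩
  have hane : ∀ i < n, ∀ j < n, i ≠ j → r (a i) ≠ r (a j) := by
    intro i hi j hj hij
    rcases lt_or_gt_of_ne hij with h' | h'
    · exact hr1 _ _ (hA a haA i j h' hj)
    · exact (hr1 _ _ (hA a haA j i h' hi)).symm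
  obtain ⟨N0, hN0a, hN0⟩ : ∃ N0, sat N0 a ∧ ∀ b, sat N0 b → ∀ i < n, ∀ j < n, i ≠ j →
      h (r (b i)) (r (a j)) = h (r (a i)) (r (a j)) := by
    choose! ξ hξ using hloc
    refine ⟨(List.range n ×ˢ List.range n).map fun p =>
      (p.1, ξ (r (a p.1)) (r (a p.2)), res (ξ (r (a p.1)) (r (a p.2))) (r (a p.1))), ?_, ?_⟩
    · intro p hp
      obtain ⟨q, -, rfl⟩ := List.mem_map.1 hp
      rfl
    · intro b hb i hi j hj hij
      refine hξ _ _ (hane i hi j hj hij) _ ?_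
      exact hb _ (List.mem_map.2 ⟨(i, j), by simp [hi, hj], rfl⟩)
  have key : ∀ k, k ≤ n → ∃ N, (∀ b, sat N b → sat N0 b) ∧
      (∀ b, sat N b → ∀ i, n - k ≤ i → i < n → h (r (b i)) (r (a i)) = ε i) ∧
      ∀ ξ, ∃ b ∈ A, sat N b ∧ ∀ i < n - k, res ξ (r (b i)) = res ξ (r (a i)) := by
    intro k
    induction k with
    | zero =>
      intro _
      exact ⟨N0, fun _ hb => hb, fun b _ i h1 h2 => by omega,
        fun ξ => ⟨a, haA, hN0a, fun _ _ => rfl⟩⟩
    | succ k ih =>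
      intro hk
      obtain ⟨N, hN1, hN2, hN3⟩ := ih (by omega)
      set j := n - (k + 1) with hj
      have hjn : j < n := by omega
      have hnb := hr2 (a j) (code N j) ((List.range j).map a) (ε j)
        ((hα₀ _ (Or.inl ⟨(N, j), rfl⟩)).trans (ha j hjn)) (by
          intro β hβ
          obtain ⟨i, hi, rfl⟩ := List.mem_map.1 hβ
          exact hA a haA i j (List.mem_range.1 hi) hjn)
      have hmem : r (a j) ∈ sec res (code N j) (((List.range j).map a).map r) := by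
        intro ξ
        obtain ⟨b, hbA, hb1, hb2⟩ := hN3 ξ
        refine ⟨b, hbA, hb1, ?_⟩
        simp only [List.map_map, Prod.mk.injEq, true_and]
        refine ⟨List.map_congr_left fun i hi => ?_, (hb2 j (by omega)).symm⟩
        have := List.mem_range.1 hi
        exact (hb2 i (by omega)).symm
      obtain ⟨u, hu, hua, hue⟩ : ∃ u ∈ sec res (code N j) (((List.range j).map a).map r),
          u ≠ r (a j) ∧ h u (r (a j)) = ε j := by
        by_contra hc
        push Not at hc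
        exact hnb ⟨hmem, hc⟩
      obtain ⟨η, hη⟩ := hloc u _ hua
      refine ⟨(j, η, res η u) :: N, fun b hb => hN1 b fun p hp => hb p (List.mem_cons_of_mem _ hp),
        fun b hb i h1 h2 => ?_, fun ξ => ?_⟩
      · rcases eq_or_lt_of_le h1 with rfl | h1'
        · rw [← hue]
          exact hη _ (hb _ List.mem_cons_self)
        · exact hN2 b (fun p hp => hb p (List.mem_cons_of_mem _ hp)) i (by omega) h2
      · obtain ⟨b, hbA, hb1, hb2⟩ := hu (max ξ η)
        simp only [List.map_map, Prod.mk.injEq, true_and] at hb2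
        refine ⟨b, hbA, ?_, fun i hi => ?_⟩
        · intro p hp
          rcases List.mem_cons.1 hp with rfl | hp
          · exact hmono _ _ _ _ (le_max_right ξ η) hb2.2.symm
          · exact hb1 p hp
        · have := List.map_inj_left.1 hb2.1 i (List.mem_range.2 hi)
          exact hmono _ _ _ _ (le_max_left ξ η) this.symm
  obtain ⟨N, hN1, hN2, hN3⟩ := key n le_rfl
  obtain ⟨b, hbA, hb, -⟩ := hN3 (Classical.arbitrary O)
  obtain ⟨hw1, hw2⟩ := hw N ⟨b, hbA, hb⟩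
  refine ⟨w N, hw1, fun i _ j hj => (hα₀ _ (Or.inr ⟨(N, i), rfl⟩)).trans (ha j hj),
    fun i hi => hN2 _ hw2 i (by omega) hi, hN0 _ (hN1 _ hw2)⟩

end abstract

open Classical in
/-- the lexicographic tournament on subsets of a well order -/
noncomputable def lexc {O : Type} [LinearOrder O] (u a : Set O) : ZMod 2 :=
  if ∃ δ, δ ∈ u ∧ δ ∉ a ∧ ∀ γ < δ, (γ ∈ u ↔ γ ∈ a) then 1 else 0

theorem lexc_eq {O : Type} [LinearOrder O] {u a : Set O} {δ : O} (h1 : ¬ (δ ∈ u ↔ δ ∈ a))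
    (h2 : ∀ γ < δ, (γ ∈ u ↔ γ ∈ a)) :
    (∃ δ, δ ∈ u ∧ δ ∉ a ∧ ∀ γ < δ, (γ ∈ u ↔ γ ∈ a)) ↔ δ ∈ u := by
  constructor
  · rintro ⟨δ', h3, h4, h5⟩
    rcases lt_trichotomy δ δ' with h | rfl | h
    · exact absurd (h5 δ h) h1
    · exact h3
    · exact absurd ((h2 δ' h).1 h3) h4
  · intro h
    exact ⟨δ, h, fun h' => h1 (iff_of_true h h'), h2⟩

theorem exists_first {O : Type} [LinearOrder O] [WellFoundedLT O] {u a : Set O} (h : u ≠ a) :
    ∃ δ, ¬ (δ ∈ u ↔ δ ∈ a) ∧ ∀ γ < δ, (γ ∈ u ↔ γ ∈ a) := by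
  have hne : {δ | ¬ (δ ∈ u ↔ δ ∈ a)}.Nonempty := by
    by_contra hc
    rw [not_nonempty_iff_eq_empty, eq_empty_iff_forall_notMem] at hc
    exact h (Set.ext fun δ => not_not.1 (hc δ))
  refine ⟨wellFounded_lt.min _ hne, wellFounded_lt.min_mem _ hne, fun γ hγ => ?_⟩
  by_contra hc
  exact wellFounded_lt.not_lt_min {δ | ¬ (δ ∈ u ↔ δ ∈ a)} hc hγ

/-- a colouring of pairs of a well order realising all patterns on unbounded families -/
theorem colouring (κ : Cardinal.{0}) : ∃ (μ : Cardinal.{0}) (I : Type) (_ : LinearOrder I),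
    κ ≤ μ ∧ ℵ₀ ≤ μ ∧ #I = 2 ^ μ ∧ (∀ α : I, #(Iic α) < 2 ^ μ) ∧
    (∀ s : Set I, #s ≤ μ → ∃ α, ∀ β ∈ s, β < α) ∧ ∃ c : I → I → ZMod 2,
    ∀ (n : ℕ) (A : Set (ℕ → I)), (∀ a ∈ A, ∀ i j, i < j → j < n → a i < a j) →
      (∀ α, ∃ a ∈ A, ∀ i < n, α < a i) →
      ∃ a ∈ A, ∀ ε : ℕ → ZMod 2, ∃ b ∈ A, (∀ i < n, ∀ j < n, b i < a j) ∧
        (∀ i < n, c (b i) (a i) = ε i) ∧
        ∀ i < n, ∀ j < n, i ≠ j → c (b i) (a j) = c (a i) (a j) := by
  classical
  set μ := ℶ_ (κ.ord + Ordinal.omega0) with hμdef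
  have hsl : IsStrongLimit μ := isStrongLimit_beth.2
    (Ordinal.isSuccLimit_add _ Ordinal.isSuccLimit_omega0).isSuccPrelimit
  have hμ : ℵ₀ ≤ μ := hsl.aleph0_le
  have hκ : κ ≤ μ := (le_beth_ord κ).trans (beth_mono le_self_add)
  let O := μ.ord.ToType
  have hO : #O = μ := mk_ord_toType μ
  let I := (2 ^ μ : Cardinal.{0}).ord.ToType
  have hI : #I = 2 ^ μ := mk_ord_toType _
  have h2 : ℵ₀ ≤ 2 ^ μ := hμ.trans (cantor μ).le
  have hIic : ∀ α : I, #(Iic α) < 2 ^ μ := fun α => by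
    rw [← Iio_insert, mk_insert self_notMem_Iio]
    exact add_one_lt_of_lt h2 (mk_Iio_toType_ord_lt α)
  have hOic : ∀ α : O, #(Iic α) < μ := fun α => by
    rw [← Iio_insert, mk_insert self_notMem_Iio]
    exact add_one_lt_of_lt hμ (mk_Iio_toType_ord_lt α)
  have hbd : ∀ s : Set I, #s ≤ μ → ∃ α, ∀ β ∈ s, β < α := by
    intro s hs
    by_contra hc
    push Not at hc
    have h1 : Order.cof I ≤ #s := Order.cof_le hc
    rw [Ordinal.cof_toType] at h1
    exact absurd (h1.trans hs) (not_le.2 (lt_cof_ord_power hμ one_lt_two))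
  have hOne : Nonempty O := by
    rw [← mk_ne_zero_iff, hO]; exact (aleph0_pos.trans_le hμ).ne'
  let T := ↥(⋃ ξ : O, 𝒫 (Iic ξ))
  have hT : #T ≤ μ := by
    refine mk_iUnion_le_sum_mk.trans ((sum_le_sum _ (fun _ => μ) fun ξ => ?_).trans ?_)
    · rw [mk_powerset]
      exact (hsl.isStrongPrelimit (hOic ξ)).le
    · rw [sum_const', hO, mul_eq_self hμ]
  let res : O → Set O → T := fun ξ x => ⟨x ∩ Iic ξ, mem_iUnion.2 ⟨ξ, inter_subset_right⟩⟩
  have hres : ∀ ξ x y, res ξ x = res ξ y ↔ ∀ γ ≤ ξ, (γ ∈ x ↔ γ ∈ y) := by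
    intro ξ x y
    rw [Subtype.ext_iff]
    simp only [res, Set.ext_iff, mem_inter_iff, mem_Iic]
    refine forall_congr' fun γ => ?_
    tauto
  obtain ⟨r, hr⟩ := entangled (X := Set O) (T := T) (O := O) (I := I) μ hμ hO.le hT
    (by rw [mk_set, hO]) (fun α => mk_Iio_toType_ord_lt α) hI.ge hbd res
    (fun ξ η x y hle hxy => (hres _ _ _).2 fun γ hγ => (hres _ _ _).1 hxy γ (hγ.trans hle))
    lexc (fun u a hua => by
      obtain ⟨δ, h1, h2⟩ := exists_first hua
      have e1 := lexc_eq h1 h2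
      have e2 := lexc_eq (u := a) (a := u) (δ := δ) (by tauto) (fun γ hγ => (h2 γ hγ).symm)
      simp only [lexc, e1, e2]
      by_cases hd : δ ∈ u
      · have : δ ∉ a := by tauto
        simp [hd, this]
      · have : δ ∈ a := by tauto
        simp [hd, this])
    (fun u a hua => by
      obtain ⟨δ, h1, h2⟩ := exists_first hua
      refine ⟨δ, fun u' hu' => ?_⟩
      have h3 := (hres _ _ _).1 hu'
      have e1 := lexc_eq h1 h2
      have e2 := lexc_eq (u := u') (a := a) (δ := δ) (by rw [h3 δ le_rfl]; exact h1)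
        (fun γ hγ => (h3 γ hγ.le).trans (h2 γ hγ))
      simp only [lexc, e1, e2, h3 δ le_rfl])
  exact ⟨μ, I, inferInstance, hκ, hμ, hI, hIic, hbd, fun α β => lexc (r α) (r β), hr⟩

end Pool.Agent.H83.Entang
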