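import Pool.Agent.H83.Closing

set_option autoImplicit false

namespace Pool.Agent.H83.Rec

open Set Filter Topology Cardinal

universe u

/-- transfinite recursion with an invariant of finite character -/
theorem build {ι α : Type u} (κ : Cardinal.{u}) (hι : #ι ≤ κ) (P : ι → α → Prop)
    (Inv : Set α → Prop) (hmono : ∀ S T, Inv S → T ⊆ S → Inv T)
    (hfin : ∀ S, (∀ T ⊆ S, T.Finite → Inv T) → Inv S) (h0 : Inv ∅)
    (step : ∀ (S : Set α) i, #S < κ → Inv S → ∃ a, P i a ∧ Inv (insert a S)) :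
    ∃ f : ι → α, (∀ i, P i (f i)) ∧ Inv (range f) := by
  classical
  obtain ⟨_, _, hord⟩ := exists_ord_eq_type_lt ι
  have hκ : ∀ i : ι, #(Iio i) < κ := fun i => (mk_Iio_lt i hord).trans_le hι
  have hne : ι → Nonempty α := fun i => by
    obtain ⟨a, -⟩ := step ∅ i (by simpa using (Cardinal.zero_le _).trans_lt (hκ i)) h0
    exact ⟨a⟩
  let F : (i : ι) → ((j : ι) → j < i → α) → α := fun i g =>
    if h : ∃ a, P i a ∧ Inv (insert a {b | ∃ j, ∃ hj : j < i, g j hj = b}) then h.choose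
    else (hne i).some
  let f : ι → α := (wellFounded_lt (α := ι)).fix F
  have hf : ∀ i, f i = F i (fun j _ => f j) := fun i => WellFounded.fix_eq _ _ _
  have himg : ∀ i, {b | ∃ j, ∃ _ : j < i, f j = b} = f '' Iio i := by
    intro i; ext b; simp
  have hlim : ∀ A : Set ι, (∀ j ∈ A, Inv (insert (f j) (f '' Iio j))) → Inv (f '' A) := by
    intro A hA
    refine hfin _ fun T hT hTf => ?_
    obtain ⟨T', hT', hT'f, rfl⟩ := hTf.exists_subset_finite_image_eq hT
    rcases T'.eq_empty_or_nonempty with rfl | hne'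
    · simpa using h0
    obtain ⟨m, hm, hmax⟩ := hT'f.exists_maximal hne'
    refine hmono _ _ (hA m (hT' hm)) ?_
    rintro _ ⟨j, hj, rfl⟩
    rcases lt_trichotomy j m with h | h | h
    · exact Or.inr ⟨j, h, rfl⟩
    · exact Or.inl (by rw [h])
    · exact absurd (hmax hj h.le) (not_le.2 h)
  have key : ∀ i, P i (f i) ∧ Inv (insert (f i) (f '' Iio i)) := by
    intro i
    induction i using WellFoundedLT.induction with
    | ind i ih =>
      have h := step (f '' Iio i) i (mk_image_le.trans_lt (hκ i)) (hlim _ fun j hj => (ih j hj).2)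
      rw [← himg] at h ⊢
      rw [hf i]
      simp only [F, dif_pos h]
      exact h.choose_spec
  exact ⟨f, fun i => (key i).1, by rw [← image_univ]; exact hlim _ fun j _ => (key j).2⟩

/-- transfinite system of distinct representatives -/
theorem sdr {ι α : Type u} (κ : Cardinal.{u}) (hι : #ι ≤ κ) (A : ι → Set α)
    (hA : ∀ i, κ ≤ #(A i)) : ∃ f : ι → α, (∀ i, f i ∈ A i) ∧ Function.Injective f := by
  obtain ⟨f, h1, h2⟩ := build (α := ι × α) κ hι (fun i a => a.1 = i ∧ a.2 ∈ A i)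
    (fun S => InjOn Prod.snd S) (fun S T h hT => h.mono hT)
    (fun S h a ha b hb hab => h {a, b} (by simp [insert_subset_iff, ha, hb]) (by simp)
      (by simp) (by simp) hab) (by simp) (fun S i hS hI => by
      obtain ⟨a, ha, ha'⟩ : ∃ a ∈ A i, a ∉ Prod.snd '' S := by
        by_contra h
        push Not at h
        exact absurd ((hA i).trans ((mk_le_mk_of_subset h).trans mk_image_le)) (not_le.2 hS)
      refine ⟨(i, a), ⟨rfl, ha⟩, ?_⟩
      rw [injOn_insert (fun h => ha' ⟨_, h, rfl⟩)]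
      exact ⟨hI, ha'⟩)
  refine ⟨fun i => (f i).2, fun i => (h1 i).2, fun i j hij => ?_⟩
  have := h2 (mem_range_self i) (mem_range_self j) hij
  rw [← (h1 i).1, ← (h1 j).1, this]

/-- covered by countably many level sets -/
def Small {Z J : Type} (ψ : J → Z → ℝ) (A : Set Z) : Prop :=
  ∃ T : Set (J × ℝ), T.Countable ∧ ∀ z ∈ A, ∃ p ∈ T, ψ p.1 z = p.2

theorem kernel {Z J : Type} [TopologicalSpace Z] [SecondCountableTopology Z] (ψ : J → Z → ℝ)
    {A : Set Z} (h : ¬ Small ψ A) : ∃ p ∈ A, ∀ V ∈ 𝓝 p, ¬ Small ψ (A ∩ V) := by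
  by_contra h'
  push Not at h'
  choose! V hV T hT1 hT2 using h'
  obtain ⟨t, ht, htc, hcov⟩ := TopologicalSpace.countable_cover_nhdsWithin (f := V) (s := A)
    fun x hx => mem_nhdsWithin_of_mem_nhds (hV x hx)
  refine h ⟨⋃ x ∈ t, T x, htc.biUnion fun x hx => hT1 x (ht hx), fun z hz => ?_⟩
  obtain ⟨x, hx, hzx⟩ := mem_iUnion₂.1 (hcov hz)
  obtain ⟨p, hp, hp'⟩ := hT2 x (ht hx) z ⟨hz, hzx⟩
  exact ⟨p, mem_biUnion hx hp, hp'⟩

theorem split {Z J : Type} [TopologicalSpace Z] [SecondCountableTopology Z] [RegularSpace Z]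
    (ψ : J → Z → ℝ) (hψ : ∀ j, Continuous (ψ j)) (F : Finset J) {A : Set Z} (hA : IsClosed A)
    (h : ¬ Small ψ A) : ∃ B : Bool → Set Z, (∀ b, B b ⊆ A ∧ IsClosed (B b) ∧ ¬ Small ψ (B b)) ∧
      ∀ j ∈ F, ∀ x ∈ B false, ∀ y ∈ B true, ψ j x ≠ ψ j y := by
  obtain ⟨p, -, hp⟩ := kernel ψ h
  have h1 : ¬ Small ψ (A ∩ {z | ∀ j ∈ F, ψ j p ≠ ψ j z}) := by
    rintro ⟨T, hT1, hT2⟩
    refine h ⟨T ∪ (fun j => (j, ψ j p)) '' F, hT1.union (F.countable_toSet.image _), fun z hz => ?_⟩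
    by_cases hz' : ∀ j ∈ F, ψ j p ≠ ψ j z
    · obtain ⟨q, hq, hq'⟩ := hT2 z ⟨hz, hz'⟩
      exact ⟨q, Or.inl hq, hq'⟩
    · push Not at hz'
      obtain ⟨j, hj, hj'⟩ := hz'
      exact ⟨(j, ψ j p), Or.inr ⟨j, hj, rfl⟩, hj'.symm⟩
  obtain ⟨q, hq0, hq⟩ := kernel ψ h1
  have ho : IsOpen (⋂ j ∈ F, {w : Z × Z | ψ j w.1 ≠ ψ j w.2}) :=
    isOpen_biInter_finset fun j _ =>
      isOpen_ne_fun ((hψ j).comp continuous_fst) ((hψ j).comp continuous_snd)
  obtain ⟨U, hU, V, hV, hUV⟩ := mem_nhds_prod_iff.1 (ho.mem_nhds (x := (p, q)) (by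
    simpa using hq0.2))
  obtain ⟨U', hU', hU'c, hU'U⟩ := exists_mem_nhds_isClosed_subset hU
  obtain ⟨V', hV', hV'c, hV'V⟩ := exists_mem_nhds_isClosed_subset hV
  refine ⟨fun b => if b then A ∩ V' else A ∩ U', ?_, ?_⟩
  · rintro (_ | _)
    · exact ⟨inter_subset_left, hA.inter hU'c, hp _ hU'⟩
    · refine ⟨inter_subset_left, hA.inter hV'c, fun ⟨T, hT1, hT2⟩ => hq _ hV' ⟨T, hT1, ?_⟩⟩
      exact fun z hz => hT2 z ⟨hz.1.1, hz.2⟩
  · intro j hj x hx y hy
    have := hUV (mk_mem_prod (hU'U hx.2) (hV'V hy.2))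
    simp only [mem_iInter] at this
    exact this j hj

/-- a compact set that is not small is not covered by fewer than continuum many level sets -/
theorem not_covered {Z J : Type} [TopologicalSpace Z] [SecondCountableTopology Z] [RegularSpace Z]
    [Countable J] (ψ : J → Z → ℝ) (hψ : ∀ j, Continuous (ψ j)) {K : Set Z} (hK : IsCompact K)
    (hKc : IsClosed K) (h : ¬ Small ψ K) (T : Set (J × ℝ)) (hT : #T < 𝔠) :
    ∃ z ∈ K, ∀ p ∈ T, ψ p.1 z ≠ p.2 := by
  obtain ⟨E, hE1, -, hE2⟩ := Closing.exists_exhaust (countable_univ (α := J))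
  choose sp hsp1 hsp2 using fun (n : ℕ) (A : {A : Set Z // IsClosed A ∧ ¬ Small ψ A}) =>
    split ψ hψ (E n) A.2.1 A.2.2
  let A : List Bool → {A : Set Z // IsClosed A ∧ ¬ Small ψ A} := fun s =>
    List.rec ⟨K, hKc, h⟩ (fun b s a => ⟨sp s.length a b, (hsp1 _ _ _).2⟩) s
  have hA : ∀ b s, (A (b :: s)).1 = sp s.length (A s) b := fun b s => rfl
  have hz : ∀ t : ℕ → Bool, (⋂ n, (A (PiNat.res t n)).1).Nonempty := by
    intro t
    refine IsCompact.nonempty_iInter_of_sequence_nonempty_isCompact_isClosed _ (fun n => ?_)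
      (fun n => ?_) hK (fun n => (A _).2.1)
    · rw [PiNat.res_succ, hA]; exact (hsp1 _ _ _).1
    · by_contra hn
      rw [not_nonempty_iff_eq_empty] at hn
      exact (A (PiNat.res t n)).2.2 ⟨∅, countable_empty, by simp [hn]⟩
  choose z hz using hz
  simp only [mem_iInter] at hz
  by_contra hcon
  push Not at hcon
  choose p hp1 hp2 using fun t => hcon (z t) (hz t 0)
  choose m hm using fun j => hE2 j (mem_univ _)
  have hinj : Function.Injective fun t : ℕ → Bool =>
      ((⟨p t, hp1 t⟩ : T), PiNat.res t (m (p t).1)) := by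
    intro t t' htt
    simp only [Prod.mk.injEq, Subtype.mk.injEq] at htt
    obtain ⟨e1, e2⟩ := htt
    rw [← e1, PiNat.res_eq_res] at e2
    by_contra hne
    have hn := PiNat.apply_firstDiff_ne hne
    set n := PiNat.firstDiff t t'
    have hmn : m (p t).1 ≤ n := by
      by_contra hlt
      exact hn (e2 (not_le.1 hlt))
    have hres : PiNat.res t' n = PiNat.res t n :=
      PiNat.res_eq_res.2 fun i hi => (PiNat.apply_eq_of_lt_firstDiff hi).symm
    have h1 := hz t (n + 1)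
    have h2 := hz t' (n + 1)
    rw [PiNat.res_succ, hA] at h1 h2
    rw [hres] at h2
    have h3 := hsp2 (PiNat.res t n).length (A (PiNat.res t n)) (p t).1
      (by rw [PiNat.res_length]; exact hE1 hmn (hm _))
    have h4 : ψ (p t).1 (z t) = ψ (p t).1 (z t') := by rw [hp2 t, e1, hp2 t']
    cases h5 : t n <;> cases h6 : t' n
    · exact hn (h5.trans h6.symm)
    · rw [h5] at h1; rw [h6] at h2; exact h3 _ h1 _ h2 h4
    · rw [h5] at h1; rw [h6] at h2; exact h3 _ h2 _ h1 h4.symm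
    · exact hn (h5.trans h6.symm)
  have := mk_le_of_injective hinj
  simp only [mk_pi, mk_fintype, Fintype.card_bool, Nat.cast_ofNat, prod_const, lift_ofNat,
    mk_eq_aleph0, lift_aleph0, two_power_aleph0, mk_prod, lift_id] at this
  exact absurd this (not_le.2 (mul_lt_of_lt aleph0_le_continuum hT aleph0_lt_continuum))

end Pool.Agent.H83.Rec
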