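import Mathlib
import Pool.Agent.H83.Rec

set_option autoImplicit false

namespace Pool.Agent.H83.BetaCard

open Set Filter Topology Cardinal

theorem exists_disjoint {K : Set (Ultrafilter ℕ)} (hK : K.Infinite) :
    ∃ (y : ℕ → Ultrafilter ℕ) (A : ℕ → Set ℕ), (∀ n, y n ∈ K) ∧ (∀ n, A n ∈ y n) ∧
      Pairwise (Function.onFun Disjoint A) := by
  haveI := hK.to_subtype
  obtain ⟨U, hinf, ho, hd⟩ := exists_seq_infinite_isOpen_pairwise_disjoint K
  choose y hy using fun n => (hinf n).nonempty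
  have : ∀ n, ∃ B : Set ℕ, B ∈ (y n).1 ∧ ∀ m, m ≠ n → B ∉ (y m).1 := fun n => by
    obtain ⟨O, hO, e⟩ := ho n
    obtain ⟨_, ⟨B, rfl⟩, hB, hsub⟩ := ultrafilterBasis_is_basis.exists_subset_of_mem_open
      (show (y n).1 ∈ O from (e ▸ hy n : y n ∈ Subtype.val ⁻¹' O)) hO
    exact ⟨B, hB, fun m hm h => disjoint_left.1 (hd hm) (hy m) (e ▸ hsub h)⟩
  choose B hB hB' using this
  refine ⟨fun n => (y n).1, disjointed B, fun n => (y n).2, fun n => ?_, disjoint_disjointed B⟩
  rw [disjointed_eq_inter_compl]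
  refine inter_mem (hB n) ((biInter_mem (finite_lt_nat n)).2 fun m hm => ?_)
  exact Ultrafilter.compl_mem_iff_notMem.2 (hB' m n (ne_of_gt hm))

/-- infinite closed subsets of `βℕ` have full cardinality -/
theorem mk_closed {K : Set (Ultrafilter ℕ)} (hK : K.Infinite) (hc : IsClosed K) :
    #(Ultrafilter ℕ) ≤ #K := by
  obtain ⟨y, A, hy, hA, hd⟩ := exists_disjoint hK
  have hmem : ∀ q : Ultrafilter ℕ, Ultrafilter.extend y q ∈ K := fun q =>
    hc.mem_of_tendsto (f := y) (b := q) (ultrafilter_extend_eq_iff.1 rfl) (Eventually.of_forall hy)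
  have key : ∀ (q : Ultrafilter ℕ) (B : Set ℕ), B ∈ q → (⋃ n ∈ B, A n) ∈ Ultrafilter.extend y q :=
    fun q B hB => by
      have := (ultrafilter_isClosed_basic (⋃ n ∈ B, A n)).mem_of_tendsto (f := y) (b := q)
        (ultrafilter_extend_eq_iff.1 rfl) (mem_of_superset hB fun n hn =>
          show (⋃ n ∈ B, A n) ∈ y n from
            mem_of_superset (hA n) (subset_biUnion_of_mem (u := A) hn))
      exact this
  refine mk_le_of_injective (f := fun q => (⟨_, hmem q⟩ : K)) fun p q h => ?_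
  have e : Ultrafilter.extend y p = Ultrafilter.extend y q := congrArg Subtype.val h
  refine Ultrafilter.eq_of_le fun B hB => ?_
  by_contra hn
  have h1 := key p _ (Ultrafilter.compl_mem_iff_notMem.2 hn)
  rw [e] at h1
  obtain ⟨k, h2, h3⟩ := Ultrafilter.nonempty_of_mem (inter_mem h1 (key q B hB))
  obtain ⟨a, ha, hka⟩ := mem_iUnion₂.1 h2
  obtain ⟨b, hb, hkb⟩ := mem_iUnion₂.1 h3
  exact disjoint_left.1 (hd (show a ≠ b from fun e => ha (e ▸ hb))) hka hkb

theorem mk_seq : #(ℕ → Ultrafilter ℕ) ≤ #(Ultrafilter ℕ) := by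
  classical
  obtain ⟨e, he⟩ := exists_surjective_nat (ℕ →₀ ℕ)
  have : ∀ p : ℕ → Ultrafilter ℕ, ∃ q : Ultrafilter ℕ, ∀ n, q.map (fun k => e k n) = p n := by
    intro p
    haveI : (comap (fun k => (e k : ℕ → ℕ)) (Filter.pi fun n => (p n : Filter ℕ))).NeBot := by
      refine comap_neBot fun t ht => ?_
      obtain ⟨I, hI, s, hs, hsub⟩ := mem_pi.1 ht
      choose a ha using fun n => Ultrafilter.nonempty_of_mem (hs n)
      obtain ⟨k, hk⟩ := he (Finsupp.onFinset hI.toFinset (fun n => if n ∈ I then a n else 0)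
        fun n hn => by
          by_contra h
          exact hn (if_neg (by simpa using h)))
      exact ⟨k, hsub fun n hn => by simp [hk, hn, ha]⟩
    obtain ⟨q, hq⟩ := Ultrafilter.exists_le
      (comap (fun k => (e k : ℕ → ℕ)) (Filter.pi fun n => (p n : Filter ℕ)))
    exact ⟨q, fun n => Ultrafilter.eq_of_le
      ((tendsto_eval_pi _ n).comp (tendsto_iff_comap.2 hq))⟩
  choose q hq using this
  exact mk_le_of_injective (f := q) fun a b h => funext fun n => by rw [← hq a, ← hq b, h]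

instance : Uncountable (Ultrafilter ℕ) := by
  rw [← aleph0_lt_mk_iff]
  refine lt_of_lt_of_le ?_ mk_seq
  have h2 : (2 : Cardinal) ≤ #(Ultrafilter ℕ) :=
    two_le_iff.2 ⟨pure 0, pure 1, fun h => zero_ne_one (Ultrafilter.pure_injective h)⟩
  simp only [mk_pi, prod_const, lift_id, mk_nat]
  exact (cantor ℵ₀).trans_le (power_le_power_right h2)

/-- a level function unbounded on every infinite closed set -/
theorem exists_level : ∃ l : Ultrafilter ℕ → ℕ, ∀ K : Set (Ultrafilter ℕ), K.Infinite →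
    IsClosed K → ∀ n, ∃ z ∈ K, l z = n := by
  classical
  have hinf : ℵ₀ ≤ #(Ultrafilter ℕ) := aleph0_le_mk _
  obtain ⟨f, hf, hinj⟩ := Rec.sdr (ι := {x : ℕ → Ultrafilter ℕ // Function.Injective x} × ℕ)
    #(Ultrafilter ℕ) (by
      simp only [mk_prod, lift_id, mk_nat]
      exact mul_le_of_le hinf ((mk_subtype_le _).trans mk_seq) hinf)
    (fun i => closure (range i.1.1))
    (fun i => mk_closed ((infinite_range_of_injective i.1.2).mono subset_closure) isClosed_closure)
  refine ⟨fun z => if h : ∃ i, f i = z then h.choose.2 else 0, fun K hK hc n => ?_⟩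
  let x : {x : ℕ → Ultrafilter ℕ // Function.Injective x} :=
    ⟨fun k => hK.natEmbedding K k, Subtype.val_injective.comp (hK.natEmbedding K).injective⟩
  refine ⟨f (x, n), hc.closure_subset_iff.2 (range_subset_iff.2 fun k => Subtype.prop _)
    (hf (x, n)), ?_⟩
  have h : ∃ i, f i = f (x, n) := ⟨_, rfl⟩
  simp only [dif_pos h]
  rw [hinj h.choose_spec]

end Pool.Agent.H83.BetaCard
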