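import Mathlib

set_option autoImplicit false

namespace Pool.Agent.H83.BetaN

open Set Filter Topology

theorem isOpen_pure {α : Type} (n : α) : IsOpen ({pure n} : Set (Ultrafilter α)) := by
  convert ultrafilter_isOpen_basic ({n} : Set α) using 1
  ext u
  simp only [mem_singleton_iff, mem_setOf_eq]
  exact ⟨fun h => h ▸ Ultrafilter.mem_pure.2 rfl, fun h => (Ultrafilter.eq_pure_of_finite_mem
    (finite_singleton n) h).elim fun _ hx => by rw [hx.2, mem_singleton_iff.1 hx.1]⟩

/-- the set of principal ultrafilters is a cozero set -/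
theorem exists_cozero : ∃ h : C(Ultrafilter ℕ, ℝ), {x | h x ≠ 0} = range pure := by
  let g : ℕ → unitInterval := fun n => ⟨1 / ((n : ℝ) + 1), by positivity, by
    rw [div_le_one (by positivity)]; linarith [Nat.cast_nonneg (α := ℝ) n]⟩
  refine ⟨⟨fun x => (Ultrafilter.extend g x).1,
    continuous_subtype_val.comp (continuous_ultrafilter_extend g)⟩, ?_⟩
  ext x
  simp only [ContinuousMap.coe_mk, mem_setOf_eq]
  constructor
  · intro hx
    rcases x.le_cofinite_or_eq_pure with h | ⟨n, rfl⟩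
    · refine (hx ?_).elim
      have : Ultrafilter.extend g x = 0 := by
        rw [ultrafilter_extend_eq_iff]
        have : Tendsto g atTop (𝓝 0) := by
          rw [tendsto_subtype_rng]; exact tendsto_one_div_add_atTop_nhds_zero_nat
        rw [← Nat.cofinite_eq_atTop] at this
        exact this.mono_left h
      rw [this]; rfl
    · exact ⟨n, rfl⟩
  · rintro ⟨n, rfl⟩
    rw [ultrafilter_extend_pure]
    simp only [g]
    positivity

/-- a zero set containing a free ultrafilter contains two of them -/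
theorem zero_two (h : C(Ultrafilter ℕ, ℝ)) (p : Ultrafilter ℕ) (hp : (p : Filter ℕ) ≤ atTop)
    (h0 : h p = 0) : ∃ q₁ q₂ : Ultrafilter ℕ, q₁ ≠ q₂ ∧ h q₁ = 0 ∧ h q₂ = 0 := by
  have ht : ∀ q : Ultrafilter ℕ, Tendsto (fun n => h (pure n)) q (𝓝 (h q)) := fun q =>
    (h.continuous.tendsto q).comp q.tendsto_pure_self
  have hfr : ∀ k : ℕ, ∃ᶠ n in atTop, |h (pure n)| < 1 / ((k : ℝ) + 1) := fun k => by
    have := (ht p).abs
    rw [h0, abs_zero] at this
    exact (this.eventually (gt_mem_nhds (by positivity))).frequently.filter_mono hp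
  obtain ⟨φ, hφ, hlt⟩ := extraction_forall_of_frequently hfr
  have hlim : Tendsto (fun k => h (pure (φ k))) atTop (𝓝 0) :=
    squeeze_zero_norm (fun k => (hlt k).le) tendsto_one_div_add_atTop_nhds_zero_nat
  have key : ∀ ψ : ℕ → ℕ, Tendsto ψ atTop atTop → h ((hyperfilter ℕ).map (φ ∘ ψ)) = 0 := by
    intro ψ hψ
    refine tendsto_nhds_unique (ht _) ?_
    rw [Ultrafilter.coe_map, tendsto_map'_iff]
    exact (hlim.comp hψ).mono_left (Nat.cofinite_eq_atTop ▸ hyperfilter_le_cofinite)
  refine ⟨_, _, ?_, key (fun k => 2 * k) (tendsto_atTop_mono (fun k => by simp; omega) tendsto_id),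
    key (fun k => 2 * k + 1) (tendsto_atTop_mono (fun k => by simp; omega) tendsto_id)⟩
  intro e
  have h1 : range (φ ∘ fun k => 2 * k) ∈ (hyperfilter ℕ).map (φ ∘ fun k => 2 * k) :=
    range_mem_map
  have h2 : range (φ ∘ fun k => 2 * k + 1) ∈ (hyperfilter ℕ).map (φ ∘ fun k => 2 * k + 1) :=
    range_mem_map
  rw [e] at h1
  obtain ⟨_, ⟨a, rfl⟩, b, hb⟩ := Ultrafilter.nonempty_of_mem (inter_mem h1 h2)
  have : 2 * b + 1 = 2 * a := hφ.injective hb
  omega

end Pool.Agent.H83.BetaN
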