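import Mathlib

set_option autoImplicit false

namespace Pool.Agent.H83.W1

open Set Cardinal

/-- the first uncountable ordinal as a type, without a topology -/
def W : Type := (ℵ_ 1).ord.ToType

noncomputable instance : LinearOrder W := inferInstanceAs (LinearOrder (ℵ_ 1).ord.ToType)
instance : WellFoundedLT W := inferInstanceAs (WellFoundedLT (ℵ_ 1).ord.ToType)

theorem mk_W : #W = ℵ_ 1 := mk_ord_toType _

instance : Uncountable W := by
  rw [← aleph0_lt_mk_iff, mk_W]; exact aleph0_lt_aleph_one

theorem countable_Iio (a : W) : (Iio a).Countable := by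
  rw [← le_aleph0_iff_set_countable, ← Order.lt_succ_iff, succ_aleph0]
  exact mk_Iio_toType_ord_lt (c := ℵ_ 1) a

theorem countable_Iic (a : W) : (Iic a).Countable := by
  rw [← Iio_insert]; exact (countable_Iio a).insert a

theorem exists_gt_of_countable {S : Set W} (hS : S.Countable) : ∃ b, ∀ a ∈ S, a < b := by
  by_contra h
  push Not at h
  refine not_countable_univ ((hS.biUnion fun a _ => countable_Iic a).mono fun b _ => ?_)
  obtain ⟨a, ha, hb⟩ := h b
  exact mem_biUnion ha hb

instance : NoMaxOrder W := ⟨fun a => by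
  obtain ⟨b, hb⟩ := exists_gt_of_countable (countable_singleton a)
  exact ⟨b, hb a rfl⟩⟩

theorem exists_seq_bound (f : ℕ → W) : ∃ b, ∀ n, f n < b := by
  obtain ⟨b, hb⟩ := exists_gt_of_countable (countable_range f)
  exact ⟨b, fun n => hb _ ⟨n, rfl⟩⟩

theorem exists_gt_mem {S : Set W} (hS : ¬ S.Countable) (a : W) : ∃ b ∈ S, a < b := by
  by_contra h
  push Not at h
  exact hS ((countable_Iic a).mono h)

theorem not_strictMono_real (u : W → ℝ) : ¬ StrictMono u := by
  intro hu
  have : ∀ a : W, ∃ q : ℚ, u a < q ∧ ∀ b, a < b → (q : ℝ) < u b := fun a => by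
    have hne : (Ioi a).Nonempty := nonempty_Ioi
    obtain ⟨q, h1, h2⟩ := exists_rat_btwn (hu (wellFounded_lt.min_mem _ hne))
    exact ⟨q, h1, fun b hb => h2.trans_le (hu.monotone (wellFounded_lt.min_le hb))⟩
  choose q h1 h2 using this
  have hq : StrictMono q := fun a b hab => by
    exact_mod_cast (h2 a b hab).trans (h1 b)
  exact not_countable (hq.injective.countable)

end Pool.Agent.H83.W1
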