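import Pool.Agent.H83.RvmSum
import Pool.Agent.H83.W1

set_option autoImplicit false

namespace Pool.Agent.H83.BorDim

open MeasureTheory Set Filter PiNat ProbabilityTheory
open scoped ENNReal NNReal Topology

/-- Cantor space -/
abbrev X : Type := ℕ → Bool

/-- the coin-tossing measure -/
noncomputable def lam : Measure X := Measure.infinitePi fun _ => uniformOn (univ : Set Bool)

instance : IsProbabilityMeasure lam := by unfold lam; infer_instance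

theorem lam_cyl (x : X) (n : ℕ) : lam (cylinder x n) = 2⁻¹ ^ n := by
  rw [cylinder_eq_pi, lam, Measure.infinitePi_pi _ fun _ _ => measurableSet_singleton _]
  simp only [uniformOn_univ]
  simp

theorem meas_cyl (x : X) (n : ℕ) : MeasurableSet (cylinder x n) :=
  (isOpen_cylinder (fun _ => Bool) x n).measurableSet

theorem cyl_eq {x y : X} {n : ℕ} (h : y ∈ cylinder x n) : cylinder y n = cylinder x n :=
  mem_cylinder_iff_eq.1 h

theorem countable_cyl : {s : Set X | ∃ (x : X) (n : ℕ), s = cylinder x n}.Countable := by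
  refine (countable_range fun z : List Bool × ℕ => {y : X | res y z.2 = z.1}).mono ?_
  rintro _ ⟨x, n, rfl⟩
  exact ⟨(res x n, n), (cylinder_eq_res x n).symm⟩

theorem isOpen_of_cyl {A : Set X} (h : ∀ y ∈ A, ∃ k, cylinder y k ⊆ A) : IsOpen A := by
  rw [isOpen_iff_forall_mem_open]
  intro y hy
  obtain ⟨k, hk⟩ := h y hy
  exact ⟨_, hk, isOpen_cylinder (fun _ => Bool) y k, self_mem_cylinder y k⟩

/-- covering lemma -/
theorem cover (α β : Measure X) (H : X → ℕ → Prop)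
    (h1 : ∀ y k z, H y k → z ∈ cylinder y k → H z k)
    (h2 : ∀ y k, H y k → α (cylinder y k) ≤ β (cylinder y k)) :
    α {y | ∃ k, H y k} ≤ β {y | ∃ k, H y k} := by
  classical
  let S : Set (Set X) := {s | ∃ y k, H y k ∧ (∀ j < k, ¬ H y j) ∧ s = cylinder y k}
  have hc : S.Countable := countable_cyl.mono (by rintro s ⟨y, k, _, _, h⟩; exact ⟨y, k, h⟩)
  have hd : S.Pairwise Disjoint := by
    rintro _ ⟨y, k, a1, a2, rfl⟩ _ ⟨y', k', b1, b2, rfl⟩ hne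
    rw [Set.disjoint_left]
    intro z hz hz'
    rcases lt_trichotomy k k' with h | rfl | h
    · exact b2 k h (h1 z k y' (h1 y k z a1 hz)
        ((mem_cylinder_comm _ _ _).1 (cylinder_anti y' h.le hz')))
    · exact hne ((cyl_eq hz).symm.trans (cyl_eq hz'))
    · exact a2 k' h (h1 z k' y (h1 y' k' z b1 hz')
        ((mem_cylinder_comm _ _ _).1 (cylinder_anti y h.le hz)))
  have hm : ∀ s ∈ S, MeasurableSet s := by rintro _ ⟨y, k, -, -, rfl⟩; exact meas_cyl y k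
  have he : {y | ∃ k, H y k} = ⋃₀ S := by
    ext y
    constructor
    · intro h
      exact ⟨_, ⟨y, Nat.find h, Nat.find_spec h, fun j hj => Nat.find_min h hj, rfl⟩,
        self_mem_cylinder _ _⟩
    · rintro ⟨_, ⟨z, k, a, -, rfl⟩, hy⟩
      exact ⟨k, h1 z k y a hy⟩
  rw [he, measure_sUnion hc hd hm, measure_sUnion hc hd hm]
  refine ENNReal.tsum_le_tsum ?_
  rintro ⟨_, y, k, a, -, rfl⟩
  exact h2 y k a

variable (θ : ℝ≥0∞)

/-- the closed set of a condition -/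
def PP (x : X) (n : ℕ) (μ : Measure X) : Set X :=
  {y | y ∈ cylinder x n ∧ ∀ k, n ≤ k → μ (cylinder y k) ≤ θ ^ k}

theorem isClosed_PP (x : X) (n : ℕ) (μ : Measure X) : IsClosed (PP θ x n μ) := by
  rw [← isOpen_compl_iff]
  refine isOpen_of_cyl fun y hy => ?_
  by_cases h : y ∈ cylinder x n
  · have : ∃ k, n ≤ k ∧ ¬ μ (cylinder y k) ≤ θ ^ k := by
      by_contra hc
      push Not at hc
      exact hy ⟨h, hc⟩
    obtain ⟨k, h1, h2⟩ := this
    exact ⟨k, fun z hz hz' => h2 (cyl_eq hz ▸ hz'.2 k h1)⟩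
  · exact ⟨n, fun z hz hz' => h (cyl_eq hz'.1 ▸ (mem_cylinder_comm _ _ _).1 hz)⟩

theorem PP_sub {x0 x : X} {n0 n : ℕ} {μ0 μ : Measure X} (hx : x ∈ cylinder x0 n0) (hn : n0 ≤ n)
    (hk : ∀ k, n0 ≤ k → k ≤ n → μ0 (cylinder x k) ≤ θ ^ k) (hμ : μ0 ≤ μ) :
    PP θ x n μ ⊆ PP θ x0 n0 μ0 := by
  intro y hy
  refine ⟨cyl_eq hx ▸ cylinder_anti x hn hy.1, fun k h => ?_⟩
  rcases le_total k n with h' | h'
  · rw [cyl_eq (cylinder_anti x h' hy.1)]; exact hk k h h'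
  · exact (hμ _).trans (hy.2 k h')

variable {θ}

theorem lemA (h1 : 2⁻¹ ≤ θ) (x : X) (n : ℕ) (μ : Measure X) :
    θ ^ n * lam (cylinder x n \ PP θ x n μ) ≤ 2⁻¹ ^ n * μ (cylinder x n) := by
  have := cover (θ ^ n • lam) ((2⁻¹ ^ n : ℝ≥0∞) • μ)
    (fun y k => y ∈ cylinder x n ∧ n ≤ k ∧ θ ^ k < μ (cylinder y k))
    (fun y k z ⟨a, b, c⟩ hz => ⟨cyl_eq a ▸ cylinder_anti y b hz, b, by rwa [cyl_eq hz]⟩)
    (fun y k ⟨a, b, c⟩ => by
      obtain ⟨d, rfl⟩ := Nat.exists_eq_add_of_le b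
      simp only [Measure.smul_apply, smul_eq_mul, lam_cyl]
      calc θ ^ n * 2⁻¹ ^ (n + d) = 2⁻¹ ^ n * (θ ^ n * 2⁻¹ ^ d) := by ring
        _ ≤ 2⁻¹ ^ n * (θ ^ n * θ ^ d) := by gcongr
        _ ≤ _ := by rw [← pow_add]; gcongr)
  simp only [Measure.smul_apply, smul_eq_mul] at this
  refine le_trans ?_ (this.trans ?_)
  · gcongr
    rintro y ⟨a, b⟩
    by_contra hc
    simp only [mem_ofPred_eq, not_exists, not_and, not_lt] at hc
    exact b ⟨a, fun k hk => hc k a hk⟩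
  · gcongr
    rintro y ⟨k, a, -⟩
    exact a

theorem lemA' (h1 : 2⁻¹ ≤ θ) (h2 : θ ≤ 1) {x : X} {n : ℕ} {μ : Measure X}
    (h : 2 * μ (cylinder x n) ≤ θ ^ n) : 2⁻¹ ^ (n + 1) ≤ lam (PP θ x n μ) := by
  have h0 : θ ^ n ≠ 0 := pow_ne_zero _ (ne_of_gt (lt_of_lt_of_le (by simp) h1))
  have ht : θ ^ n ≠ ⊤ := ENNReal.pow_ne_top (ne_top_of_le_ne_top ENNReal.one_ne_top h2)
  have a : lam (cylinder x n \ PP θ x n μ) ≤ 2⁻¹ ^ (n + 1) := by
    rw [← ENNReal.mul_le_mul_iff_right h0 ht]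
    refine (lemA h1 x n μ).trans ?_
    calc 2⁻¹ ^ n * μ (cylinder x n) = 2⁻¹ ^ n * (2⁻¹ * 2) * μ (cylinder x n) := by
          rw [ENNReal.inv_mul_cancel (by simp) (by simp), mul_one]
      _ = 2⁻¹ ^ (n + 1) * (2 * μ (cylinder x n)) := by ring
      _ ≤ 2⁻¹ ^ (n + 1) * θ ^ n := by gcongr
      _ = _ := mul_comm _ _
  have b : lam (cylinder x n) ≤ lam (PP θ x n μ) + lam (cylinder x n \ PP θ x n μ) :=
    (measure_mono (by intro y hy; by_cases h : y ∈ PP θ x n μ <;> simp [h, hy])).trans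
      (measure_union_le _ _)
  rw [lam_cyl] at b
  have c : (2⁻¹ : ℝ≥0∞) ^ n = 2⁻¹ ^ (n + 1) + 2⁻¹ ^ (n + 1) := by
    rw [pow_succ, ← mul_add, ENNReal.inv_two_add_inv_two, mul_one]
  rw [c] at b
  exact ENNReal.le_of_add_le_add_right (by simp) (b.trans (by gcongr))

theorem small_pow (h1 : 2⁻¹ < θ) (h2 : θ ≤ 1) {C ε : ℝ≥0∞} (hC : C ≠ ⊤) (hε : ε ≠ 0) :
    ∀ᶠ n in atTop, C * 2⁻¹ ^ n < ε * θ ^ n := by
  have h0 : θ ≠ 0 := ne_of_gt (lt_trans (by simp) h1)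
  have ht : θ ≠ ⊤ := ne_top_of_le_ne_top ENNReal.one_ne_top h2
  have hr : 2⁻¹ / θ < 1 := by rwa [ENNReal.div_lt_iff (Or.inl h0) (Or.inl ht), one_mul]
  have := ENNReal.Tendsto.const_mul (a := C) (ENNReal.tendsto_pow_atTop_nhds_zero_of_lt_one hr)
    (Or.inr hC)
  rw [mul_zero] at this
  filter_upwards [this.eventually (gt_mem_nhds (pos_iff_ne_zero.2 hε))] with n hn
  have e : C * 2⁻¹ ^ n = C * (2⁻¹ / θ) ^ n * θ ^ n := by
    rw [mul_assoc, ← mul_pow, ENNReal.div_mul_cancel h0 ht]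
  rw [e]
  exact ENNReal.mul_lt_mul_left (pow_ne_zero _ h0) (ENNReal.pow_ne_top ht) hn

theorem lemG (h1 : 2⁻¹ < θ) (h2 : θ ≤ 1) {μ : Measure X} (hμ : μ univ ≠ ⊤) {Z : Set X}
    (hZ : lam Z ≠ 0) (n0 : ℕ) : ∃ x ∈ Z, ∃ n, n0 ≤ n ∧ 8 * μ (cylinder x n) ≤ θ ^ n := by
  by_contra hc
  push Not at hc
  obtain ⟨n, hn, hn0⟩ := ((small_pow h1 h2 (C := 8 * μ univ) (ENNReal.mul_ne_top (by simp) hμ)
    hZ).and (eventually_ge_atTop n0)).exists
  have := cover (θ ^ n • lam) ((2⁻¹ ^ n * 8 : ℝ≥0∞) • μ)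
    (fun y k => k = n ∧ θ ^ n < 8 * μ (cylinder y n))
    (fun y k z ⟨a, b⟩ hz => ⟨a, by subst a; rwa [cyl_eq hz]⟩)
    (fun y k ⟨a, b⟩ => by
      subst a
      simp only [Measure.smul_apply, smul_eq_mul, lam_cyl]
      rw [mul_comm, mul_assoc]
      gcongr)
  simp only [Measure.smul_apply, smul_eq_mul] at this
  refine absurd hn (not_lt.2 ?_)
  calc lam Z * θ ^ n = θ ^ n * lam Z := mul_comm _ _
    _ ≤ _ := by
      gcongr
      exact fun y hy => ⟨n, rfl, hc y hy n hn0⟩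
    _ ≤ _ := this
    _ ≤ 2⁻¹ ^ n * 8 * μ univ := by gcongr; exact subset_univ _
    _ = _ := by ring

variable (θ)

/-- conditions -/
structure Cond where
  x : X
  n : ℕ
  μ : Measure X
  fin : μ univ ≠ ⊤
  sm : 8 * μ (cylinder x n) ≤ θ ^ n

variable {θ}

/-- the set of a condition -/
def Cond.P (c : Cond θ) : Set X := PP θ c.x c.n c.μ

theorem Cond.closed (c : Cond θ) : IsClosed c.P := isClosed_PP θ _ _ _

/-- nowhere dense -/
def ND (θ : ℝ≥0∞) (A : Set X) : Prop := ∀ c : Cond θ, ∃ c' : Cond θ, c'.P ⊆ c.P ∧ Disjoint c'.P A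

/-- meagre -/
def Mg (θ : ℝ≥0∞) (A : Set X) : Prop := ∃ f : ℕ → Set X, (∀ i, ND θ (f i)) ∧ A ⊆ ⋃ i, f i

theorem Mg.mono {A B : Set X} (h : Mg θ B) (hA : A ⊆ B) : Mg θ A := by
  obtain ⟨f, a, b⟩ := h
  exact ⟨f, a, hA.trans b⟩

theorem ND.mg {A : Set X} (h : ND θ A) : Mg θ A := ⟨fun _ => A, fun _ => h, subset_iUnion (fun _ => A) 0⟩

theorem mg_empty : Mg θ ∅ := ND.mg fun c => ⟨c, subset_rfl, disjoint_empty _⟩

theorem mg_iUnion {ι : Type*} [Countable ι] {A : ι → Set X} (h : ∀ i, Mg θ (A i)) :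
    Mg θ (⋃ i, A i) := by
  rcases isEmpty_or_nonempty ι with h0 | h0
  · simpa using mg_empty
  choose f hf1 hf2 using h
  obtain ⟨e, he⟩ := exists_surjective_nat (ι × ℕ)
  refine ⟨fun n => f (e n).1 (e n).2, fun n => hf1 _ _, iUnion_subset fun i y hy => ?_⟩
  obtain ⟨j, hj⟩ := mem_iUnion.1 (hf2 i hy)
  obtain ⟨n, hn⟩ := he (i, j)
  exact mem_iUnion.2 ⟨n, by rw [hn]; exact hj⟩

theorem Mg.union {A B : Set X} (hA : Mg θ A) (hB : Mg θ B) : Mg θ (A ∪ B) := by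
  rw [union_eq_iUnion]
  exact mg_iUnion fun b => by cases b <;> assumption

section
variable (h1 : 2⁻¹ < θ) (h2 : θ ≤ 1)
include h1 h2

theorem Cond.pos (c : Cond θ) : lam c.P ≠ 0 := by
  have := lemA' h1.le h2 (x := c.x) (n := c.n) (μ := c.μ) (le_trans (by gcongr; norm_num) c.sm)
  exact ne_of_gt (lt_of_lt_of_le (by simp [pos_iff_ne_zero]) this)

theorem ext (c : Cond θ) {μ : Measure X} (hμ : μ univ ≠ ⊤) {Z : Set X} (hZ : lam (c.P ∩ Z) ≠ 0)
    (n0 : ℕ) : ∃ c' : Cond θ, c'.P ⊆ c.P ∧ c'.x ∈ Z ∧ n0 ≤ c'.n ∧ μ ≤ c'.μ := by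
  have hf : (c.μ + μ) univ ≠ ⊤ := by simp [c.fin, hμ]
  obtain ⟨x, hx, n, hn, hs⟩ := lemG h1 h2 hf hZ (max n0 c.n)
  exact ⟨⟨x, n, c.μ + μ, hf, hs⟩, PP_sub θ hx.1.1 (le_of_max_le_right hn)
    (fun k a _ => hx.1.2 k a) (Measure.le_add_right le_rfl), hx.2, le_of_max_le_left hn,
    Measure.le_add_left le_rfl⟩

theorem compat (c d : Cond θ) (h : lam (c.P ∩ d.P) ≠ 0) : ∃ e : Cond θ, e.P ⊆ c.P ∧ e.P ⊆ d.P := by
  obtain ⟨e, a1, a2, a3, a4⟩ := ext h1 h2 c d.fin h d.n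
  exact ⟨e, a1, PP_sub θ a2.1 a3 (fun k a _ => a2.2 k a) a4⟩

theorem shrink (c : Cond θ) {F : Set X} (hF : IsClosed F) (h : lam (c.P \ F) ≠ 0) :
    ∃ e : Cond θ, e.P ⊆ c.P ∧ Disjoint e.P F := by
  have : ∃ n, lam (c.P ∩ {x | Disjoint F (cylinder x n)}) ≠ 0 := by
    by_contra hc
    push Not at hc
    refine h (measure_mono_null ?_ (measure_iUnion_null hc))
    intro x hx
    obtain ⟨n, hn⟩ := exists_disjoint_cylinder hF hx.2
    exact mem_iUnion.2 ⟨n, hx.1, hn⟩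
  obtain ⟨n, hn⟩ := this
  obtain ⟨e, a1, a2, a3, -⟩ := ext h1 h2 c (μ := 0) (by simp) hn n
  exact ⟨e, a1, (Disjoint.symm a2).mono_left fun y hy => cylinder_anti _ a3 hy.1⟩

theorem baire {A : Set X} (hA : Mg θ A) (c : Cond θ) : ∃ y ∈ c.P, y ∉ A := by
  obtain ⟨f, hf, hA⟩ := hA
  choose nx hn1 hn2 using hf
  let g : ℕ → Cond θ := fun n => Nat.rec c (fun n d => nx n d) n
  obtain ⟨y, hy⟩ := IsCompact.nonempty_iInter_of_sequence_nonempty_isCompact_isClosed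
    (fun n => (g n).P) (fun n => hn1 n (g n))
    (fun n => nonempty_of_measure_ne_zero ((g n).pos h1 h2)) (g 0).closed.isCompact
    (fun n => (g n).closed)
  rw [mem_iInter] at hy
  refine ⟨y, hy 0, fun h => ?_⟩
  obtain ⟨i, hi⟩ := mem_iUnion.1 (hA h)
  exact Set.disjoint_left.1 (hn2 i (g i)) (hy (i + 1)) hi

theorem local_mg {A : Set X} (h : ∀ c : Cond θ, ∃ c' : Cond θ, c'.P ⊆ c.P ∧ Mg θ (c'.P ∩ A)) :
    Mg θ A := by
  obtain ⟨F, -, ⟨hF1, hF2⟩, hF3⟩ := RvmSum.exists_max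
    (fun F : Set (Cond θ) => F.Countable ∧ ∀ c ∈ F, Mg θ (c.P ∩ A))
    (fun f _ hf => ⟨countable_iUnion fun n => (hf n).1, fun c hc => by
      obtain ⟨n, hn⟩ := mem_iUnion.1 hc
      exact (hf n).2 c hn⟩)
    (fun F => lam (⋃ c ∈ F, c.P)) (fun F G hFG => measure_mono (biUnion_subset_biUnion_left hFG))
    (fun F => prob_le_one) ∅ ⟨countable_empty, by simp⟩
  have := hF1.to_subtype
  have a : Mg θ (⋃ c : F, c.1.P ∩ A) := mg_iUnion fun c => hF2 c.1 c.2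
  have b : ND θ (⋃ c ∈ F, c.P)ᶜ := by
    intro r
    obtain ⟨r', b1, b2⟩ := h r
    have b3 := hF3 (insert r' F) (subset_insert _ _) ⟨hF1.insert _, by
      rintro c (rfl | hc)
      · exact b2
      · exact hF2 c hc⟩
    have hm : MeasurableSet (⋃ c ∈ F, c.P) :=
      MeasurableSet.biUnion hF1 fun c _ => c.closed.measurableSet
    have b4 : lam (r'.P \ ⋃ c ∈ F, c.P) = 0 := by
      rw [biUnion_insert, union_comm, ← union_diff_self,
        measure_union' disjoint_sdiff_right hm] at b3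
      by_contra hc
      exact absurd b3 (not_le.2 (ENNReal.lt_add_right (measure_ne_top _ _) hc))
    have b5 : ∃ q ∈ F, lam (r'.P ∩ q.P) ≠ 0 := by
      by_contra hc
      push Not at hc
      refine r'.pos h1 h2 (measure_mono_null ?_
        (measure_union_null b4 ((measure_biUnion_null_iff hF1).2 hc)))
      intro y hy
      by_cases hy' : y ∈ ⋃ c ∈ F, c.P
      · right
        simp only [mem_iUnion] at hy' ⊢
        obtain ⟨c, hc, hy'⟩ := hy'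
        exact ⟨c, hc, hy, hy'⟩
      · exact Or.inl ⟨hy, hy'⟩
    obtain ⟨q, hq, b6⟩ := b5
    obtain ⟨e, e1, e2⟩ := compat h1 h2 r' q b6
    exact ⟨e, e1.trans b1, disjoint_compl_right_iff_subset.2 (e2.trans (subset_biUnion_of_mem (u := fun c : Cond θ => c.P) hq))⟩
  refine (a.union b.mg).mono fun y hy => ?_
  by_cases hy' : y ∈ ⋃ c ∈ F, c.P
  · left
    simp only [mem_iUnion] at hy' ⊢
    obtain ⟨c, hc, hy'⟩ := hy'
    exact ⟨⟨c, hc⟩, hy', hy⟩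
  · exact Or.inr hy'

theorem dich {B : Set X}
    (h : ∀ c : Cond θ, ∃ c' : Cond θ, c'.P ⊆ c.P ∧ (Mg θ (c'.P ∩ B) ∨ Mg θ (c'.P \ B)))
    (c : Cond θ) : (∃ c' : Cond θ, c'.P ⊆ c.P ∧ Mg θ (c'.P \ B)) ∨ Mg θ (c.P ∩ B) := by
  by_contra hc
  push Not at hc
  refine hc.2 (local_mg h1 h2 fun r => ?_)
  by_cases h0 : lam (r.P ∩ c.P) = 0
  · obtain ⟨e, e1, e2⟩ := shrink h1 h2 r c.closed (fun h' => r.pos h1 h2 (measure_mono_null
      (fun y hy => by by_cases h : y ∈ c.P <;> simp [h, hy]) (measure_union_null h0 h')))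
    exact ⟨e, e1, mg_empty.mono fun y hy => Set.disjoint_left.1 e2 hy.1 hy.2.1⟩
  · obtain ⟨e, e1, e2⟩ := compat h1 h2 r c h0
    obtain ⟨e', a1, a2⟩ := h e
    rcases a2 with a2 | a2
    · exact ⟨e', a1.trans e1, a2.mono fun y hy => ⟨hy.1, hy.2.2⟩⟩
    · exact absurd a2 (hc.1 e' (a1.trans e2))

omit h1 h2 in
theorem borel_eq : (inferInstance : MeasurableSpace X) = MeasurableSpace.generateFrom
    {s : Set X | ∃ (x : X) (n : ℕ), s = cylinder x n} := by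
  rw [← (isTopologicalBasis_cylinders (fun _ => Bool)).borel_eq_generateFrom]
  exact BorelSpace.measurable_eq

theorem bp {B : Set X} (hB : MeasurableSet B) :
    ∀ c : Cond θ, ∃ c' : Cond θ, c'.P ⊆ c.P ∧ (Mg θ (c'.P ∩ B) ∨ Mg θ (c'.P \ B)) := by
  replace hB : MeasurableSet[MeasurableSpace.generateFrom
      {s : Set X | ∃ (x : X) (n : ℕ), s = cylinder x n}] B := borel_eq ▸ hB
  induction B, hB using MeasurableSpace.generateFrom_induction with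
  | hC t ht _ =>
    obtain ⟨x, n, rfl⟩ := ht
    intro c
    obtain ⟨e, a1, -, a3, -⟩ := ext h1 h2 c (μ := 0) (Z := univ) (by simp)
      (by simpa using c.pos h1 h2) n
    refine ⟨e, a1, ?_⟩
    by_cases h : e.x ∈ cylinder x n
    · exact Or.inr (mg_empty.mono fun y hy => hy.2 (cyl_eq h ▸ cylinder_anti _ a3 hy.1.1))
    · exact Or.inl (mg_empty.mono fun y hy => h
        (cyl_eq hy.2 ▸ (mem_cylinder_comm _ _ _).1 (cylinder_anti _ a3 hy.1.1)))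
  | empty => intro c; exact ⟨c, subset_rfl, Or.inl (by simpa using mg_empty)⟩
  | compl t _ ih =>
    intro c
    obtain ⟨e, a1, a2⟩ := ih c
    exact ⟨e, a1, by rw [diff_compl]; exact a2.symm⟩
  | iUnion f _ ih =>
    intro c
    by_cases h : ∃ i, ∃ c' : Cond θ, c'.P ⊆ c.P ∧ Mg θ (c'.P \ f i)
    · obtain ⟨i, e, a1, a2⟩ := h
      exact ⟨e, a1, Or.inr (a2.mono (diff_subset_diff_right (subset_iUnion f i)))⟩
    · refine ⟨c, subset_rfl, Or.inl ?_⟩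
      rw [inter_iUnion]
      exact mg_iUnion fun i => (dich h1 h2 (ih i) c).resolve_left fun h' => h ⟨i, h'⟩

theorem decide_lab {L : Type} [Countable L] (g : X → L) (hg : ∀ η, MeasurableSet (g ⁻¹' {η}))
    (c : Cond θ) : ∃ η, ∃ c' : Cond θ, c'.P ⊆ c.P ∧ Mg θ (c'.P \ g ⁻¹' {η}) := by
  by_contra hc
  have := mg_iUnion fun η => (dich h1 h2 (bp h1 h2 (hg η)) c).resolve_left fun h' => hc ⟨η, h'⟩
  obtain ⟨y, a, b⟩ := baire h1 h2 this c
  exact b (mem_iUnion.2 ⟨g y, a, rfl⟩)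

end

end Pool.Agent.H83.BorDim
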