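import Pool.Agent.H83.BorDim1

set_option autoImplicit false

namespace Pool.Agent.H83.BorDim

open MeasureTheory Set Filter PiNat
open scoped ENNReal NNReal Topology

variable {θ : ℝ≥0∞}

theorem greedy (h1 : 2⁻¹ < θ) (h2 : θ ≤ 1) {m : ℕ} (l : X → (Fin m → Bool))
    (hl : ∀ η, MeasurableSet (l ⁻¹' {η})) (x : X) (n : ℕ) (i : ℕ) :
    ∃ S : Finset (Fin m → Bool), ∃ ν : Measure X, S.card ≤ i ∧
      ν (cylinder x n ∩ l ⁻¹' S)ᶜ = 0 ∧ (∀ y k, n ≤ k → ν (cylinder y k) ≤ θ ^ k) ∧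
      (∀ A, MeasurableSet A → ν A ≤ i * 2 ^ (n + 1 + m) * lam A) ∧
      (θ ^ n ≤ 4 * ν univ ∨ i * θ ^ (n + 1 + m) ≤ 2 * ν univ) := by
  classical
  induction i with
  | zero => exact ⟨∅, 0, by simp, by simp, by simp, by simp, Or.inr (by simp)⟩
  | succ i ih =>
    obtain ⟨S, ν, a1, a2, a3, a4, a5⟩ := ih
    by_cases hd : θ ^ n ≤ 4 * ν univ
    · refine ⟨S, ν, by omega, a2, a3, fun A hA => (a4 A hA).trans ?_, Or.inl hd⟩
      gcongr
      exact Nat.le_succ i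
    have a5' := a5.resolve_left hd
    have hZ := lemA' h1.le h2 (x := x) (n := n) (μ := (2 : ℝ≥0∞) • ν) (by
      simp only [Measure.smul_apply, smul_eq_mul]
      refine le_trans ?_ (not_le.1 hd).le
      rw [← mul_assoc, show (2 : ℝ≥0∞) * 2 = 4 by norm_num]
      gcongr
      exact subset_univ _)
    set Z := PP θ x n ((2 : ℝ≥0∞) • ν) with hZdef
    obtain ⟨η, hη⟩ : ∃ η, 2⁻¹ ^ (n + 1 + m) ≤ lam (Z ∩ l ⁻¹' {η}) := by
      by_contra hc
      push Not at hc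
      have b1 : lam Z ≤ ∑ η, lam (Z ∩ l ⁻¹' {η}) := by
        refine le_trans (measure_mono ?_) (measure_iUnion_fintype_le _ _)
        exact fun y hy => mem_iUnion.2 ⟨l y, hy, rfl⟩
      have b2 := ENNReal.sum_lt_sum_of_nonempty Finset.univ_nonempty fun η _ => hc η
      have b3 : ∑ _η : Fin m → Bool, (2⁻¹ : ℝ≥0∞) ^ (n + 1 + m) = 2⁻¹ ^ (n + 1) := by
        simp only [Finset.sum_const, Finset.card_univ, Fintype.card_pi, Fintype.card_bool,
          Finset.prod_const, Fintype.card_fin, nsmul_eq_mul]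
        push_cast
        rw [pow_add _ (n + 1), mul_comm, mul_assoc, ← mul_pow,
          ENNReal.inv_mul_cancel (by simp) (by simp), one_pow, mul_one]
      rw [b3] at b2
      exact absurd (hZ.trans b1) (not_le.2 b2)
    set A := Z ∩ l ⁻¹' {η} with hA
    have hAm : MeasurableSet A := (isClosed_PP θ _ _ _).measurableSet.inter (hl η)
    have hA0 : lam A ≠ 0 := ne_of_gt (lt_of_lt_of_le (by simp [pos_iff_ne_zero]) hη)
    have hAt : lam A ≠ ⊤ := measure_ne_top _ _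
    set M := n + 1 + m with hM
    have hinv : (lam A)⁻¹ ≤ 2 ^ M := by
      refine (ENNReal.inv_le_inv.2 hη).trans ?_
      rw [← ENNReal.inv_pow, inv_inv]
    have h22 : (2 : ℝ≥0∞) * 2⁻¹ = 1 := ENNReal.mul_inv_cancel (by simp) (by simp)
    have happ : ∀ B, MeasurableSet B → (ν + (θ ^ M * (lam A)⁻¹ * 2⁻¹) • lam.restrict A) B =
        ν B + θ ^ M * (lam A)⁻¹ * 2⁻¹ * lam (B ∩ A) := by
      intro B hB
      simp [Measure.restrict_apply hB]
    refine ⟨insert η S, ν + (θ ^ M * (lam A)⁻¹ * 2⁻¹) • lam.restrict A,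
      (Finset.card_insert_le _ _).trans (by omega), ?_, fun y k hk => ?_, fun B hB => ?_,
      Or.inr ?_⟩
    · simp only [Measure.add_apply, Measure.smul_apply, smul_eq_mul, Measure.restrict_apply' hAm]
      have e1 : (cylinder x n ∩ l ⁻¹' ((insert η S : Finset _) : Set _))ᶜ ∩ A = ∅ := by
        refine eq_empty_of_forall_notMem ?_
        rintro y ⟨b1, b2⟩
        exact b1 ⟨b2.1.1, by simpa using Or.inl b2.2⟩
      rw [e1, measure_empty, mul_zero, add_zero]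
      refine measure_mono_null (compl_subset_compl.2 (inter_subset_inter_right _
        (preimage_mono ?_))) a2
      simp
    · rw [happ _ (meas_cyl y k)]
      rcases (cylinder y k ∩ A).eq_empty_or_nonempty with h0 | ⟨z, hz1, hz2⟩
      · rw [h0]; simpa using a3 y k hk
      · have c1 : 2 * ν (cylinder y k) ≤ θ ^ k := by
          have := hz2.1.2 k hk
          rwa [cyl_eq hz1] at this
        have c2 : θ ^ M * (lam A)⁻¹ * lam (cylinder y k ∩ A) ≤ θ ^ k := by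
          rcases le_total k M with h | h
          · calc θ ^ M * (lam A)⁻¹ * lam (cylinder y k ∩ A)
                ≤ θ ^ k * (lam A)⁻¹ * lam A := by
                  gcongr ?_ * _ * lam ?_
                  · exact pow_le_pow_right_of_le_one' h2 h
                  · exact inter_subset_right
              _ = θ ^ k := by rw [mul_assoc, ENNReal.inv_mul_cancel hA0 hAt, mul_one]
          · obtain ⟨d, rfl⟩ := Nat.exists_eq_add_of_le h
            calc θ ^ M * (lam A)⁻¹ * lam (cylinder y (M + d) ∩ A)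
                ≤ θ ^ M * 2 ^ M * lam (cylinder y (M + d)) := by
                  gcongr; exact inter_subset_left
              _ = θ ^ M * (2 * 2⁻¹) ^ M * 2⁻¹ ^ d := by rw [lam_cyl]; ring
              _ ≤ θ ^ M * 1 ^ M * θ ^ d := by rw [h22]; gcongr
              _ = _ := by ring
        rw [← ENNReal.mul_le_mul_iff_right (a := 2) (by simp) (by simp), mul_add, two_mul (θ ^ k)]
        refine add_le_add c1 (le_of_eq_of_le ?_ c2)
        calc 2 * (θ ^ M * (lam A)⁻¹ * 2⁻¹ * lam (cylinder y k ∩ A)) =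
            (2 * 2⁻¹) * (θ ^ M * (lam A)⁻¹ * lam (cylinder y k ∩ A)) := by ring
          _ = _ := by rw [h22, one_mul]
    · rw [happ _ hB]
      push_cast
      rw [add_mul, add_mul, one_mul]
      refine add_le_add (a4 B hB) ?_
      calc θ ^ M * (lam A)⁻¹ * 2⁻¹ * lam (B ∩ A) ≤ 1 ^ M * 2 ^ M * 1 * lam B := by
            gcongr
            · simp
            · exact inter_subset_left
        _ = _ := by simp
    · rw [happ _ MeasurableSet.univ, univ_inter]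
      push_cast
      rw [add_mul, mul_add, one_mul]
      refine add_le_add a5' (le_of_eq ?_)
      calc θ ^ M = θ ^ M * ((lam A)⁻¹ * lam A) * (2 * 2⁻¹) := by
            rw [h22, ENNReal.inv_mul_cancel hA0 hAt, mul_one, mul_one]
        _ = _ := by ring

/-- restriction to the first `m` coordinates -/
def rs (m : ℕ) (y : X) : Fin m → Bool := fun i => y i

/-- extension by `false` -/
def ex {m : ℕ} (t : Fin m → Bool) : X := fun i => if h : i < m then t ⟨i, h⟩ else false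

theorem rs_eq {m : ℕ} {y : X} {t : Fin m → Bool} : rs m y = t ↔ y ∈ cylinder (ex t) m := by
  constructor
  · rintro rfl i hi
    simp [ex, rs, hi]
  · intro h
    funext i
    have := h i i.2
    simpa [ex, rs] using this

theorem meas_rs {L : Type} {m : ℕ} (g : (Fin m → Bool) → L) (η : L) :
    MeasurableSet ((fun y => g (rs m y)) ⁻¹' {η}) := by
  refine (isOpen_of_cyl fun y hy => ⟨m, fun z hz => ?_⟩).measurableSet
  have : rs m z = rs m y := funext fun i => hz i i.2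
  simpa [this] using hy

theorem label (h1 : 2⁻¹ < θ) (h2 : θ ≤ 1) {m : ℕ} (g : X → (Fin m → Bool))
    (hg : ∀ η, MeasurableSet (g ⁻¹' {η})) (x : X) (N : ℕ) :
    ∃ η, ∀ μ : Measure X, μ univ ≠ ⊤ → 8 * 2 ^ m * μ (cylinder x N) ≤ θ ^ N →
      ∃ c' : Cond θ, c'.P ⊆ PP θ x N μ ∧ Mg θ (c'.P \ g ⁻¹' {η}) := by
  by_contra hc
  push Not at hc
  choose μ a1 a2 a3 using hc
  obtain ⟨η, c', b1, b2⟩ := decide_lab h1 h2 g hg ⟨x, N, ∑ η, μ η, by
    rw [Measure.finset_sum_apply]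
    exact ENNReal.sum_ne_top.2 fun η _ => a1 η, by
    rw [Measure.finset_sum_apply, ← ENNReal.mul_le_mul_iff_right (a := 2 ^ m) (by simp) (by simp),
      ← mul_assoc, Finset.mul_sum]
    refine (Finset.sum_le_sum fun η _ => (le_of_eq (by ring)).trans (a2 η)).trans (le_of_eq ?_)
    simp⟩
  refine a3 η c' (b1.trans ?_) b2
  exact fun y hy => ⟨hy.1, fun k hk => le_trans (by
    rw [Measure.finset_sum_apply]
    exact Finset.single_le_sum (f := fun η => μ η (cylinder y k)) (fun _ _ => zero_le)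
      (Finset.mem_univ η)) (hy.2 k hk)⟩

theorem stepS (h1 : 2⁻¹ < θ) (h2 : θ ≤ 1) {m : ℕ} (g : X → (Fin m → Bool))
    (hg : ∀ η, MeasurableSet (g ⁻¹' {η})) (x : X) (n : ℕ) :
    ∃ S : Finset (Fin m → Bool), S.card * θ ^ m ≤ 2 ∧
      ∀ μ : Measure X, μ univ ≠ ⊤ → 8 * μ (cylinder x n) ≤ θ ^ n →
      ∃ c' : Cond θ, c'.P ⊆ PP θ x n μ ∧ Mg θ (c'.P \ g ⁻¹' S) := by
  classical
  have h0 : θ ≠ 0 := ne_of_gt (lt_trans (by simp) h1)
  have ht : θ ≠ ⊤ := ne_top_of_le_ne_top ENNReal.one_ne_top h2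
  have hex : ∃ i : ℕ, 1 ≤ i * θ ^ m := by
    obtain ⟨i, hi⟩ := ENNReal.exists_nat_mul_gt (pow_ne_zero m h0) ENNReal.one_ne_top
    exact ⟨i, hi.le⟩
  have hi1 := Nat.find_spec hex
  have hi2 : (Nat.find hex : ℝ≥0∞) * θ ^ m ≤ 2 := by
    rcases Nat.eq_zero_or_eq_succ_pred (Nat.find hex) with h | h
    · rw [h]; simp
    · have := Nat.find_min hex (m := (Nat.find hex).pred) (by rw [h]; simp)
      rw [h]
      push_cast
      rw [add_mul, one_mul, ← one_add_one_eq_two]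
      exact add_le_add (not_le.1 this).le (pow_le_one' h2 _)
  generalize Nat.find hex = i at hi1 hi2
  obtain ⟨N, hN, hnN⟩ := ((small_pow h1 h2 (C := 8 * 2 ^ m * (i * 2 ^ (n + 1 + m))) (ε := 1)
    (by finiteness) one_ne_zero).and (eventually_ge_atTop n)).exists
  choose lb hlb using fun t : Fin N → Bool => label h1 h2 g hg (ex t) N
  obtain ⟨S, ν, a1, a2, a3, a4, a5⟩ := greedy h1 h2 (fun y => lb (rs N y)) (meas_rs lb) x n i
  have a6 : θ ^ n ≤ 4 * ν univ := by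
    rcases a5 with a5 | a5
    · exact a5
    · calc θ ^ n = θ ^ n * (2 * 2⁻¹) * 1 := by
            rw [ENNReal.mul_inv_cancel (by simp) (by simp), mul_one, mul_one]
        _ ≤ θ ^ n * (2 * θ) * (i * θ ^ m) := by gcongr
        _ = 2 * (i * θ ^ (n + 1 + m)) := by ring
        _ ≤ 2 * (2 * ν univ) := by gcongr
        _ = _ := by rw [← mul_assoc]; norm_num
  refine ⟨S, le_trans (by gcongr) hi2, fun μ hμ hs => ?_⟩
  have key : ∃ y ∈ cylinder x n, lb (rs N y) ∈ S ∧ (∀ k, n ≤ k → k ≤ N → μ (cylinder y k) ≤ θ ^ k) ∧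
      8 * 2 ^ m * μ (cylinder y N) ≤ θ ^ N := by
    by_contra hc
    push Not at hc
    have b1 := cover ν μ (fun y k => y ∈ cylinder x n ∧ n ≤ k ∧ ν (cylinder y k) ≤ μ (cylinder y k))
      (fun y k z ⟨a, b, c⟩ hz => ⟨cyl_eq a ▸ cylinder_anti y b hz, b, by rwa [cyl_eq hz]⟩)
      (fun y k h => h.2.2)
    have b2 : ν univ ≤ μ (cylinder x n) := by
      calc ν univ ≤ ν ((cylinder x n ∩ (fun y => lb (rs N y)) ⁻¹' S) ∪
            (cylinder x n ∩ (fun y => lb (rs N y)) ⁻¹' S)ᶜ) := by rw [union_compl_self]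
        _ ≤ _ := measure_union_le _ _
        _ = ν (cylinder x n ∩ (fun y => lb (rs N y)) ⁻¹' S) := by rw [a2, add_zero]
        _ ≤ _ := measure_mono ?_
        _ ≤ _ := b1
        _ ≤ _ := measure_mono (by rintro y ⟨k, a, -⟩; exact a)
      rintro y ⟨hy1, hy2⟩
      by_cases hk : ∀ k, n ≤ k → k ≤ N → μ (cylinder y k) ≤ θ ^ k
      · refine ⟨N, hy1, hnN, ?_⟩
        have c1 := hc y hy1 hy2 hk
        have c2 := a4 _ (meas_cyl y N)
        rw [lam_cyl] at c2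
        rw [one_mul] at hN
        rw [← ENNReal.mul_le_mul_iff_right (a := 8 * 2 ^ m) (by simp) (by finiteness)]
        refine le_trans ?_ (hN.trans c1).le
        rw [mul_assoc (8 * 2 ^ m)]
        gcongr
      · push Not at hk
        obtain ⟨k, k1, -, k3⟩ := hk
        exact ⟨k, hy1, k1, (a3 y k k1).trans k3.le⟩
    have b3 : θ ^ n + θ ^ n ≤ θ ^ n := by
      calc θ ^ n + θ ^ n ≤ 4 * μ (cylinder x n) + 4 * μ (cylinder x n) := by
            gcongr <;> exact a6.trans (by gcongr)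
        _ = 8 * μ (cylinder x n) := by rw [← add_mul]; norm_num
        _ ≤ _ := hs
    exact absurd b3 (not_le.2 (ENNReal.lt_add_right (ENNReal.pow_ne_top ht) (pow_ne_zero _ h0)))
  obtain ⟨y, y1, y2, y3, y4⟩ := key
  have e : cylinder y N = cylinder (ex (rs N y)) N := cyl_eq (rs_eq.1 rfl)
  obtain ⟨c', c1, c2⟩ := hlb (rs N y) μ hμ (e ▸ y4)
  refine ⟨c', c1.trans ?_, c2.mono (diff_subset_diff_right (preimage_mono (by simpa using y2)))⟩
  refine subset_trans ?_ (PP_sub θ y1 hnN y3 le_rfl)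
  intro z hz
  exact ⟨e ▸ hz.1, hz.2⟩

attribute [local instance] PiNat.metricSpace

theorem ediam_cyl (x : X) (m : ℕ) : Metric.ediam (cylinder x m) ≤ 2⁻¹ ^ m := by
  refine Metric.ediam_le fun y hy z hz => ?_
  have : dist y z ≤ (1 / 2) ^ m := mem_cylinder_iff_dist_le.1 (cyl_eq hz ▸ hy)
  rw [edist_dist]
  refine (ENNReal.ofReal_le_ofReal this).trans (le_of_eq ?_)
  rw [ENNReal.ofReal_pow (by norm_num), one_div, ENNReal.ofReal_inv_of_pos (by norm_num)]
  simp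

theorem pow_rpow (a : ℝ≥0∞) (m : ℕ) (d : ℝ) : (a ^ m) ^ d = (a ^ d) ^ m := by
  rw [← ENNReal.rpow_natCast, ← ENNReal.rpow_mul, mul_comm, ENNReal.rpow_mul, ENNReal.rpow_natCast]

theorem exists_Kd (h1 : 2⁻¹ < θ) (h2 : θ ≤ 1) {d : ℝ} (hd : 0 ≤ d) (hdθ : (2⁻¹ : ℝ≥0∞) ^ d < θ)
    {f : X → X} (hf : Measurable f) : ∃ K : Set X, μH[d] K ≠ ⊤ ∧ Mg θ (f ⁻¹' K)ᶜ := by
  have h0 : θ ≠ 0 := ne_of_gt (lt_trans (by simp) h1)
  have ht : θ ≠ ⊤ := ne_top_of_le_ne_top ENNReal.one_ne_top h2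
  have hr : (2⁻¹ : ℝ≥0∞) ^ d / θ < 1 := by
    rwa [ENNReal.div_lt_iff (Or.inl h0) (Or.inl ht), one_mul]
  have hm : ∀ j n : ℕ, ∃ m, j ≤ m ∧ ((2⁻¹ : ℝ≥0∞) ^ d / θ) ^ m ≤ (2⁻¹ * 2⁻¹) ^ n := by
    intro j n
    obtain ⟨m, a, b⟩ := (((ENNReal.tendsto_pow_atTop_nhds_zero_of_lt_one hr).eventually
      (gt_mem_nhds (a := (2⁻¹ * 2⁻¹ : ℝ≥0∞) ^ n) (by simp [pos_iff_ne_zero]))).and
      (eventually_ge_atTop j)).exists
    exact ⟨m, b, a.le⟩
  choose m hm1 hm2 using hm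
  choose S hS1 hS2 using fun (j n : ℕ) (t : Fin n → Bool) => stepS h1 h2 (m := m j n)
    (fun y => rs (m j n) (f y)) (fun η => hf (meas_rs id η)) (ex t) n
  let T : ∀ j : ℕ, (Σ n : ℕ, Σ t : Fin n → Bool, {η // η ∈ S j n t}) → Set X :=
    fun j i => cylinder (ex i.2.2.1) (m j i.1)
  refine ⟨⋂ j, ⋃ i, T j i, ?_, ?_⟩
  · have := Measure.hausdorffMeasure_le_liminf_tsum d (⋂ j, ⋃ i, T j i) (l := atTop)
      (fun j => (2⁻¹ : ℝ≥0∞) ^ j) (ENNReal.tendsto_pow_atTop_nhds_zero_of_lt_one (by simp)) T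
      (Eventually.of_forall fun j i => (ediam_cyl _ _).trans
        (pow_le_pow_right_of_le_one' (by simp) (hm1 j i.1)))
      (Eventually.of_forall fun j => iInter_subset _ j)
    refine ne_top_of_le_ne_top (b := 2 * 2) (by finiteness) (this.trans ?_)
    refine liminf_le_of_frequently_le' (Frequently.of_forall fun j => ?_)
    rw [ENNReal.tsum_sigma']
    calc _ ≤ ∑' n : ℕ, 2 * (2⁻¹ : ℝ≥0∞) ^ n := ENNReal.tsum_le_tsum fun n => ?_
      _ = 2 * 2 := by rw [ENNReal.tsum_mul_left, ENNReal.tsum_geometric_two]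
    rw [ENNReal.tsum_sigma', tsum_fintype]
    calc _ ≤ ∑ _t : Fin n → Bool, 2 * (2⁻¹ * 2⁻¹ : ℝ≥0∞) ^ n := Finset.sum_le_sum fun t _ => ?_
      _ = 2 * (2⁻¹ : ℝ≥0∞) ^ n * (2 * 2⁻¹) ^ n := by simp; ring
      _ = _ := by rw [ENNReal.mul_inv_cancel (by simp) (by simp), one_pow, mul_one]
    rw [tsum_fintype]
    calc _ ≤ ∑ _η : {η // η ∈ S j n t}, ((2⁻¹ : ℝ≥0∞) ^ d) ^ m j n :=
          Finset.sum_le_sum fun η _ => by
            rw [← pow_rpow]
            exact ENNReal.rpow_le_rpow (ediam_cyl _ _) hd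
      _ = (S j n t).card * θ ^ m j n * ((2⁻¹ : ℝ≥0∞) ^ d / θ) ^ m j n := by
          rw [mul_assoc, ← mul_pow, ENNReal.mul_div_cancel h0 ht]
          simp
      _ ≤ _ := mul_le_mul' (hS1 j n t) (hm2 j n)
  · rw [preimage_iInter, compl_iInter]
    refine mg_iUnion fun j => local_mg h1 h2 fun c => ?_
    have e : cylinder c.x c.n = cylinder (ex (rs c.n c.x)) c.n := cyl_eq (rs_eq.1 rfl)
    obtain ⟨c', c1, c2⟩ := hS2 j c.n (rs c.n c.x) c.μ c.fin (e ▸ c.sm)
    refine ⟨c', c1.trans fun z hz => ⟨e ▸ hz.1, hz.2⟩, c2.mono fun y hy => ⟨hy.1, fun h => hy.2 ?_⟩⟩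
    exact mem_iUnion.2 ⟨⟨c.n, rs c.n c.x, ⟨_, h⟩⟩, rs_eq.1 rfl⟩

theorem theta_bounds {s : ℝ} (hs0 : 0 ≤ s) (hs : s < 1) :
    2⁻¹ < (2⁻¹ : ℝ≥0∞) ^ s ∧ (2⁻¹ : ℝ≥0∞) ^ s ≤ 1 := by
  refine ⟨?_, ENNReal.rpow_le_one (by simp) hs0⟩
  have := ENNReal.rpow_lt_rpow_of_exponent_gt (x := 2⁻¹) (by simp) (by simp) hs
  simpa using this

theorem exists_K {s : ℝ≥0} (hs : s < 1) {f : X → X} (hf : Measurable f) :
    ∃ K : Set X, dimH K ≤ s ∧ Mg ((2⁻¹ : ℝ≥0∞) ^ (s : ℝ)) (f ⁻¹' K)ᶜ := by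
  obtain ⟨h1, h2⟩ := theta_bounds (s := s) s.2 (by exact_mod_cast hs)
  have := fun j : ℕ => exists_Kd h1 h2 (d := ((s + ((j : ℝ≥0) + 1)⁻¹ : ℝ≥0) : ℝ)) (by positivity)
    (ENNReal.rpow_lt_rpow_of_exponent_gt (by simp) (by simp) (by
      push_cast; exact lt_add_of_pos_right _ (by positivity))) hf
  choose K a b using this
  refine ⟨⋂ j, K j, ?_, ?_⟩
  · refine ENNReal.le_of_forall_pos_le_add fun ε hε _ => ?_
    obtain ⟨j, hj⟩ := exists_nat_one_div_lt (K := ℝ≥0) hε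
    refine (dimH_mono (iInter_subset K j)).trans ((dimH_le_of_hausdorffMeasure_ne_top (a j)).trans ?_)
    rw [one_div] at hj
    exact_mod_cast add_le_add le_rfl hj.le
  · rw [preimage_iInter, compl_iInter]
    exact mg_iUnion b

theorem cover_cyl {s : ℝ} (hs0 : 0 < s) (hs : s < 1) (t : Set X) {ε : ℝ≥0∞} (hε : ε ≠ 0) :
    ∃ (y : X) (k : ℕ), t ⊆ cylinder y k ∧
      ((2⁻¹ : ℝ≥0∞) ^ s) ^ k ≤ 2 * (⨆ _ : t.Nonempty, Metric.ediam t ^ s) + ε := by
  classical
  obtain ⟨h1, -⟩ := theta_bounds hs0.le hs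
  have hlt : (2⁻¹ : ℝ≥0∞) ^ s < 1 := ENNReal.rpow_lt_one (by simp) hs0
  obtain ⟨y, hy⟩ : ∃ y, t.Nonempty → y ∈ t := by
    rcases t.eq_empty_or_nonempty with h | ⟨y, hy⟩
    · exact ⟨fun _ => false, by simp [h]⟩
    · exact ⟨y, fun _ => hy⟩
  by_cases h : ∃ k, ¬ t ⊆ cylinder y (k + 1)
  · refine ⟨y, Nat.find h, ?_, ?_⟩
    · rcases Nat.eq_zero_or_eq_succ_pred (Nat.find h) with h' | h'
      · rw [h']; simp
      · have := Nat.find_min h (m := (Nat.find h).pred) (by rw [h']; simp)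
        rw [h']
        exact not_not.1 this
    · obtain ⟨z, hz1, hz2⟩ := not_subset.1 (Nat.find_spec h)
      have hne : t.Nonempty := ⟨z, hz1⟩
      rw [iSup_pos hne]
      refine le_trans ?_ le_self_add
      have b : (2⁻¹ : ℝ≥0∞) ^ (Nat.find h + 1) ≤ Metric.ediam t := by
        refine le_trans ?_ (Metric.edist_le_ediam_of_mem hz1 (hy hne))
        rw [mem_cylinder_iff_dist_le, not_le] at hz2
        rw [edist_dist]
        refine le_trans (le_of_eq ?_) (ENNReal.ofReal_le_ofReal hz2.le)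
        rw [ENNReal.ofReal_pow (by norm_num), one_div, ENNReal.ofReal_inv_of_pos (by norm_num)]
        simp
      have b2 := ENNReal.rpow_le_rpow b hs0.le
      rw [pow_rpow, pow_succ] at b2
      calc _ = ((2⁻¹ : ℝ≥0∞) ^ s) ^ Nat.find h * (2 * 2⁻¹) := by
            rw [ENNReal.mul_inv_cancel (by simp) (by simp), mul_one]
        _ = 2 * (((2⁻¹ : ℝ≥0∞) ^ s) ^ Nat.find h * 2⁻¹) := by ring
        _ ≤ 2 * (((2⁻¹ : ℝ≥0∞) ^ s) ^ Nat.find h * (2⁻¹ : ℝ≥0∞) ^ s) := by gcongr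
        _ ≤ _ := by gcongr
  · push Not at h
    obtain ⟨k, hk⟩ := ((ENNReal.tendsto_pow_atTop_nhds_zero_of_lt_one hlt).eventually
      (gt_mem_nhds (pos_iff_ne_zero.2 hε))).exists
    exact ⟨y, k, (h k).trans (cylinder_anti _ (Nat.le_succ k)), hk.le.trans le_add_self⟩

theorem null_nd {s : ℝ} (hs0 : 0 < s) (hs : s < 1) {N : Set X} (hN : μH[s] N = 0) :
    ND ((2⁻¹ : ℝ≥0∞) ^ s) N := by
  obtain ⟨h1, h2⟩ := theta_bounds hs0.le hs
  have hcc := fun t (ε : ℝ≥0∞) (hε : ε ≠ 0) => cover_cyl hs0 hs t hε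
  generalize (2⁻¹ : ℝ≥0∞) ^ s = θ at h1 h2 hcc ⊢
  intro c
  have hp := c.pos h1 h2
  have hq : lam c.P / 4 ≠ 0 := by simp [hp]
  rw [Measure.hausdorffMeasure_apply] at hN
  simp only [ENNReal.iSup_eq_zero] at hN
  have := hN 1 one_pos
  have h3 : (⨅ (t : ℕ → Set X) (_ : N ⊆ ⋃ n, t n) (_ : ∀ n, Metric.ediam (t n) ≤ 1),
      ∑' n, ⨆ _ : (t n).Nonempty, Metric.ediam (t n) ^ s) < lam c.P / 4 := by
    rw [this]; exact pos_iff_ne_zero.2 hq
  simp only [iInf_lt_iff] at h3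
  obtain ⟨t, t1, -, t2⟩ := h3
  obtain ⟨ε, hε1, hε2⟩ := ENNReal.exists_pos_sum_of_countable' hq ℕ
  choose y k a b using fun i => hcc (t i) _ (hε1 i).ne'
  have hsum : ∑' i, θ ^ k i < lam c.P := by
    refine (ENNReal.tsum_le_tsum b).trans_lt ?_
    rw [ENNReal.tsum_add, ENNReal.tsum_mul_left]
    calc _ < 2 * (lam c.P / 4) + lam c.P / 4 := by
          refine ENNReal.add_lt_add_of_le_of_lt (ne_top_of_le_ne_top
            (b := 2 * (lam c.P / 4)) (by finiteness) (by gcongr)) (by gcongr) hε2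
      _ ≤ 4 * (lam c.P / 4) := by
          rw [show (4 : ℝ≥0∞) * (lam c.P / 4) = 2 * (lam c.P / 4) + 2 * (lam c.P / 4) by
            rw [← add_mul]; norm_num]
          gcongr
          exact le_mul_of_one_le_left' (by norm_num)
      _ = _ := ENNReal.mul_div_cancel (by simp) (by simp)
  have hU : lam (⋃ i, cylinder (y i) (k i)) < lam c.P := by
    refine (measure_iUnion_le _).trans_lt (lt_of_le_of_lt (ENNReal.tsum_le_tsum fun i => ?_) hsum)
    rw [lam_cyl]; gcongr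
  have hZ : lam (c.P ∩ (⋃ i, cylinder (y i) (k i))ᶜ) ≠ 0 := by
    intro h0
    refine absurd hU (not_lt.2 ?_)
    calc lam c.P ≤ lam (c.P ∩ (⋃ i, cylinder (y i) (k i))ᶜ ∪ ⋃ i, cylinder (y i) (k i)) :=
          measure_mono fun z hz => by
            by_cases h : z ∈ ⋃ i, cylinder (y i) (k i)
            · exact Or.inr h
            · exact Or.inl ⟨hz, h⟩
      _ ≤ _ := measure_union_le _ _
      _ = _ := by rw [h0, zero_add]
  obtain ⟨e, e1, e2, -, e3⟩ := ext h1 h2 c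
    (μ := Measure.sum fun i => (2 * θ ^ k i) • Measure.dirac (y i)) (by
      rw [Measure.sum_apply _ MeasurableSet.univ]
      simp only [Measure.smul_apply, measure_univ, smul_eq_mul, mul_one, ENNReal.tsum_mul_left]
      exact ENNReal.mul_ne_top (by simp) (hsum.trans_le le_top).ne) hZ 0
  refine ⟨e, e1, Set.disjoint_left.2 fun z hz hzN => ?_⟩
  obtain ⟨i, hi⟩ := mem_iUnion.1 (t1 hzN)
  have hi' := a i hi
  rcases le_total (k i) e.n with h | h
  · exact e2 (mem_iUnion.2 ⟨i, cyl_eq hi' ▸ (mem_cylinder_comm _ _ _).1 (cylinder_anti _ h hz.1)⟩)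
  · have b1 := (e3 _).trans (hz.2 _ h)
    have b2 := (Measure.le_sum (fun i => (2 * θ ^ k i) • Measure.dirac (y i)) i _).trans b1
    rw [cyl_eq hi', Measure.smul_apply, Measure.dirac_apply_of_mem (self_mem_cylinder _ _),
      smul_eq_mul, mul_one, two_mul] at b2
    exact absurd b2 (not_le.2 (ENNReal.lt_add_right
      (ENNReal.pow_ne_top (ne_top_of_le_ne_top ENNReal.one_ne_top h2))
      (pow_ne_zero _ (ne_of_gt (lt_trans (by simp) h1)))))

open Cardinal in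
theorem card_meas : #{t : Set X | MeasurableSet t} ≤ 𝔠 := by
  have := MeasurableSpace.cardinal_measurableSet_le_continuum
    (s := {s : Set X | ∃ (x : X) (n : ℕ), s = cylinder x n})
    ((le_aleph0_iff_set_countable.2 countable_cyl).trans aleph0_le_continuum)
  rwa [← borel_eq] at this

open Cardinal in
theorem card_fun : #{f : X → X | Measurable f} ≤ 𝔠 := by
  have : #{f : X → X | Measurable f} ≤ #(ℕ → {t : Set X | MeasurableSet t}) := by
    refine mk_le_of_injective (f := fun f i => ⟨{x | f.1 x i = true},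
      ((measurable_pi_apply i).comp f.2) (measurableSet_singleton true)⟩) ?_
    intro f g h
    ext x i
    have := congrArg (fun F => x ∈ (F i).1) h
    simpa using this
  refine this.trans ?_
  rw [← power_def, mk_nat]
  exact (power_le_power_right card_meas).trans (le_of_eq continuum_power_aleph0)

open Cardinal in
theorem luzin (hCH : (𝔠 : Cardinal.{0}) = ℵ_ 1) (h1 : 2⁻¹ < θ) (h2 : θ ≤ 1) {ι : Type} (hι : #ι ≤ 𝔠)
    (M : ι → Set X) (hM : ∀ i, Mg θ (M i)) :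
    ∃ E : Set X, ∀ i, ¬ E ⊆ M i ∧ (E ∩ M i).Countable := by
  rw [hCH, ← W1.mk_W] at hι
  obtain ⟨e⟩ := (le_def _ _).1 hι
  have hc : ∀ i, {j | e j ≤ e i}.Countable := fun i =>
    (W1.countable_Iic (e i)).preimage e.injective
  have : ∀ i, ∃ y, ∀ j, e j ≤ e i → y ∉ M j := by
    intro i
    have := (hc i).to_subtype
    obtain ⟨y, -, hy⟩ := baire h1 h2 (mg_iUnion fun j : {j | e j ≤ e i} => hM j.1)
      ⟨fun _ => false, 0, 0, by simp, by simp⟩
    exact ⟨y, fun j hj h => hy (mem_iUnion.2 ⟨⟨j, hj⟩, h⟩)⟩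
  choose y hy using this
  refine ⟨range y, fun i => ⟨fun h => hy i i le_rfl (h ⟨i, rfl⟩), ((hc i).image y).mono ?_⟩⟩
  rintro _ ⟨⟨j, rfl⟩, h⟩
  refine ⟨j, ?_, rfl⟩
  by_contra hlt
  exact hy j i (not_le.1 hlt).le h

open Cardinal in
theorem main_open (hCH : (𝔠 : Cardinal.{0}) = ℵ_ 1) {s : ℝ≥0} (hs0 : 0 < s) (hs : s < 1) :
    ∃ E : Set X, (s : ℝ≥0∞) ≤ dimH E ∧ ∀ f : X → X, Measurable f → dimH (f '' E) ≤ s := by
  obtain ⟨h1, h2⟩ := theta_bounds (s := s) s.2 (by exact_mod_cast hs)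
  choose K hK1 hK2 using fun f : {f : X → X | Measurable f} => exists_K hs f.2
  obtain ⟨E, hE⟩ := luzin hCH h1 h2
    (ι := {f : X → X | Measurable f} ⊕ {t : Set X | MeasurableSet t ∧ μH[s] t = 0})
    (by
      rw [mk_sum, lift_id, lift_id]
      exact add_le_of_le aleph0_le_continuum card_fun
        ((mk_le_mk_of_subset fun t ht => ht.1).trans card_meas))
    (Sum.elim (fun f => (f.1 ⁻¹' K f)ᶜ) (fun t => t.1)) (by
      rintro (f | t)
      · exact hK2 f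
      · exact (null_nd (by exact_mod_cast hs0) (by exact_mod_cast hs) t.2.2).mg)
  refine ⟨E, le_dimH_of_hausdorffMeasure_ne_zero fun h0 => ?_, fun f hf => ?_⟩
  · exact (hE (Sum.inr ⟨toMeasurable μH[s] E, measurableSet_toMeasurable _ _, by
      rw [measure_toMeasurable, h0]⟩)).1 (subset_toMeasurable _ _)
  · have : (E ∩ (f ⁻¹' K ⟨f, hf⟩)ᶜ).Countable := (hE (Sum.inl ⟨f, hf⟩)).2
    refine (dimH_mono (t := K ⟨f, hf⟩ ∪ f '' (E ∩ (f ⁻¹' K ⟨f, hf⟩)ᶜ)) ?_).trans ?_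
    · rintro _ ⟨x, hx, rfl⟩
      by_cases h : f x ∈ K ⟨f, hf⟩
      · exact Or.inl h
      · exact Or.inr ⟨x, ⟨hx, h⟩, rfl⟩
    · rw [dimH_union, dimH_countable (this.image f)]
      exact max_le (hK1 _) zero_le

theorem dimH_univ_le : dimH (univ : Set X) ≤ 1 := by
  have := Measure.hausdorffMeasure_le_liminf_sum (1 : ℝ) (univ : Set X) (l := atTop)
    (fun j => (2⁻¹ : ℝ≥0∞) ^ j) (ENNReal.tendsto_pow_atTop_nhds_zero_of_lt_one (by simp))
    (fun j (t : Fin j → Bool) => cylinder (ex t) j)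
    (Eventually.of_forall fun j i => ediam_cyl _ _)
    (Eventually.of_forall fun j y _ => mem_iUnion.2 ⟨rs j y, rs_eq.1 rfl⟩)
  refine dimH_le_of_hausdorffMeasure_ne_top (d := 1) (ne_top_of_le_ne_top ENNReal.one_ne_top
    (this.trans (liminf_le_of_frequently_le' (Frequently.of_forall fun j => ?_))))
  calc _ ≤ ∑ _t : Fin j → Bool, (2⁻¹ : ℝ≥0∞) ^ j := Finset.sum_le_sum fun t _ => by
        rw [ENNReal.rpow_one]; exact ediam_cyl _ _
    _ = (2 * 2⁻¹) ^ j := by simp [mul_pow]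
    _ = 1 := by rw [ENNReal.mul_inv_cancel (by simp) (by simp), one_pow]

open Cardinal in
theorem main (hCH : (𝔠 : Cardinal.{0}) = ℵ_ 1) (s : ℝ≥0) (hs : s ≤ 1) :
    ∃ E : Set X, dimH E = s ∧ ∀ f : X → X, Measurable f → dimH (f '' E) ≤ s := by
  rcases eq_zero_or_pos s with rfl | hs0
  · exact ⟨∅, by simp, fun f _ => by simp⟩
  rcases hs.eq_or_lt with rfl | hs
  · refine ⟨univ, le_antisymm dimH_univ_le ?_, fun f _ => (dimH_mono (subset_univ _)).trans
      dimH_univ_le⟩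
    refine ENNReal.le_of_forall_nnreal_lt fun r hr => ?_
    rcases eq_zero_or_pos r with rfl | hr0
    · simp
    · obtain ⟨E, h, -⟩ := main_open hCH hr0 (by exact_mod_cast hr)
      exact h.trans (dimH_mono (subset_univ _))
  · obtain ⟨E, a, b⟩ := main_open hCH hs0 hs
    exact ⟨E, le_antisymm (by simpa using b id measurable_id) a, b⟩

end Pool.Agent.H83.BorDim
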