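import Mathlib

/-! Ranks of nodes of a graph and the lexicographic order of paths with repeated children. -/

set_option autoImplicit false

namespace Pool.Agent.H83.Cg

section big
variable {α β : Type}

def Big (r : α → α → Prop) (x : α) (o : Ordinal.{0}) : Prop := ∀ h : Acc r x, o ≤ h.rank

variable {r : α → α → Prop} {s : β → β → Prop}

theorem big_iff {x : α} {o : Ordinal.{0}} : Big r x o ↔ ∀ p < o, ∃ y, r y x ∧ Big r y p := by
  refine ⟨fun h p hp => ?_, fun h hx => le_of_forall_lt fun p hp => ?_⟩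
  · by_cases hx : Acc r x
    · have := hp.trans_le (h hx)
      rw [Acc.rank_eq, Ordinal.lt_iSup_iff] at this
      obtain ⟨⟨y, hy⟩, h2⟩ := this
      exact ⟨y, hy, fun _ => Order.lt_succ_iff.1 h2⟩
    · by_contra hc
      push Not at hc
      exact hx (Acc.intro x fun y hy => by_contra fun h2 => hc y hy fun h3 => absurd h3 h2)
  · obtain ⟨y, hy, h2⟩ := h p hp
    exact (h2 (hx.inv hy)).trans_lt (Acc.rank_lt_of_rel hx hy)

theorem Big.mono {x : α} {o p : Ordinal.{0}} (h : Big r x o) (hp : p ≤ o) : Big r x p :=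
  fun hx => hp.trans (h hx)

theorem acc_iff {x : α} : Acc r x ↔ ∃ o, ¬ Big r x o :=
  ⟨fun h => ⟨Order.succ h.rank, fun h2 => (Order.lt_succ _).not_ge (h2 h)⟩,
    fun ⟨_, h⟩ => by_contra fun h2 => h fun h3 => absurd h3 h2⟩

theorem sim (R : α → β → Prop) (h : ∀ x y x', R x y → r x' x → ∃ y', s y' y ∧ R x' y')
    (o : Ordinal.{0}) : ∀ {x y}, R x y → Big r x o → Big s y o := by
  induction o using Ordinal.induction with
  | _ o ih =>
    intro x y hxy hx
    refine big_iff.2 fun p hp => ?_
    obtain ⟨x', h1, h2⟩ := big_iff.1 hx p hp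
    obtain ⟨y', h3, h4⟩ := h x y x' hxy h1
    exact ⟨y', h3, ih p hp h4 h2⟩

def Le (r : α → α → Prop) (s : β → β → Prop) (x : α) (y : β) : Prop := ∀ o, Big r x o → Big s y o

theorem Le.acc {x : α} {y : β} (h : Le r s x y) (hy : Acc s y) : Acc r x :=
  acc_iff.2 ((acc_iff.1 hy).imp fun o h1 h2 => h1 (h o h2))

theorem le_of_big {x : α} {y : β} (hx : Acc r x) (h : Big s y hx.rank) : Le r s x y :=
  fun _ ho => h.mono (ho hx)

theorem Le.step {x x' : α} {y : β} (h : Le r s x y) (hx : r x' x) (ha : Acc r x') :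
    ∃ y', s y' y ∧ Le r s x' y' := by
  obtain ⟨y', h1, h2⟩ := big_iff.1 (h (Order.succ ha.rank) (big_iff.2 fun p hp =>
    ⟨x', hx, fun _ => Order.lt_succ_iff.1 hp⟩)) _ (Order.lt_succ _)
  exact ⟨y', h1, le_of_big ha h2⟩

theorem big_path {x : ℕ → α} (h : ∀ n, r (x (n + 1)) (x n)) : ¬ Acc r (x 0) := by
  have : ∀ a, Acc r a → ∀ n, x n ≠ a := by
    intro a ha
    induction ha with
    | intro a _ ih => exact fun n e => ih _ (e ▸ h n) (n + 1) rfl
  exact fun h => this _ h 0 rfl

theorem exists_path {a : α} (h : ¬ Acc r a) :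
    ∃ x : ℕ → α, x 0 = a ∧ ∀ n, r (x (n + 1)) (x n) := by
  have : ∀ y : {y // ¬ Acc r y}, ∃ z : {y // ¬ Acc r y}, r z.1 y.1 := fun y => by
    by_contra hc
    push Not at hc
    exact y.2 (Acc.intro _ fun z hz => by_contra fun h => hc ⟨z, h⟩ hz)
  choose f hf using this
  exact ⟨fun n => (f^[n] ⟨a, h⟩).1, rfl, fun n => by
    simp only [Function.iterate_succ_apply']; exact hf _⟩

end big

section paths
variable {V : Type} (E : V → V → Bool) (ch : ℕ → V)

def rel (x' x : V) : Prop := E x x' = true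

def valid (v : V) (l : List ℕ) : Bool :=
  ((v :: l.map fun n => ch n.unpair.1).zip (l.map fun n => ch n.unpair.1)).all fun p => E p.1 p.2

@[simp] theorem valid_nil (v : V) : valid E ch v [] = true := by simp [valid]

theorem valid_cons (v : V) (n : ℕ) (l : List ℕ) : valid E ch v (n :: l) = true ↔
    rel E (ch n.unpair.1) v ∧ valid E ch (ch n.unpair.1) l = true := by
  simp [valid, rel]

abbrev L (v : V) : Type := {l : List ℕ // valid E ch v l = true}

variable {E ch}

theorem wf_L {v : V} (h : Acc (rel E) v) : WellFoundedLT (L E ch v) := by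
  have : ∀ l, valid E ch v l = true → Acc (fun a b => valid E ch v a = true ∧ a < b) l := by
    induction h with
    | intro v _ ih =>
      have nil : Acc (fun a b => valid E ch v a = true ∧ a < b) [] :=
        Acc.intro _ fun a ha => absurd ha.2 (List.not_lt_nil a)
      have key : ∀ n t, valid E ch v (n :: t) = true →
          Acc (fun a b => valid E ch v a = true ∧ a < b) (n :: t) := by
        intro n
        induction n using Nat.strong_induction_on with
        | _ n ihn =>
          intro t ht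
          have h1 := ih _ ((valid_cons _ _ _ _ _).1 ht).1 t ((valid_cons _ _ _ _ _).1 ht).2
          clear ht
          induction h1 with
          | intro t _ iht =>
            refine Acc.intro _ fun a ha => ?_
            rcases a with _ | ⟨m, u⟩
            · exact nil
            rcases List.cons_lt_cons_iff.1 ha.2 with h | ⟨rfl, h⟩
            · exact ihn m h u ha.1
            · exact iht u ⟨((valid_cons _ _ _ _ _).1 ha.1).2, h⟩
      intro l hl
      rcases l with _ | ⟨n, t⟩
      exacts [nil, key n t hl]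
  exact ⟨⟨fun l => Subrelation.accessible
    (r := InvImage (fun a b => valid E ch v a = true ∧ a < b) Subtype.val)
    (fun {a b} h => And.intro a.2 h) (InvImage.accessible Subtype.val (this l.1 l.2))⟩⟩

theorem emb (hc : Function.Surjective ch) {v w : V} (hv : Acc (rel E) v)
    (h : Le (rel E) (rel E) v w) : ∃ f : L E ch v → L E ch w, StrictMono f := by
  obtain ⟨cd, hcd⟩ := hc.hasRightInverse
  have : ∀ x w, ∃ y, (∃ y, rel E y w ∧ Le (rel E) (rel E) x y) →
      rel E y w ∧ Le (rel E) (rel E) x y := fun x w => by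
    by_cases h : ∃ y, rel E y w ∧ Le (rel E) (rel E) x y
    exacts [⟨_, fun _ => h.choose_spec⟩, ⟨w, fun h' => absurd h' h⟩]
  choose Y hY using this
  let m : V → ℕ → ℕ := fun w n => Nat.rec (Nat.pair (cd (Y (ch (Nat.unpair 0).1) w)) 0)
    (fun n k => Nat.pair (cd (Y (ch (n + 1).unpair.1) w)) (k + 1)) n
  have m1 : ∀ w, StrictMono (m w) := fun w =>
    strictMono_nat_of_lt_succ fun n => Nat.right_le_pair _ _
  have m2 : ∀ w n, ch (m w n).unpair.1 = Y (ch n.unpair.1) w := fun w n => by
    cases n <;> simp only [m, Nat.rec_zero, Nat.unpair_pair, hcd _]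
  let f : List ℕ → V → List ℕ := fun l =>
    List.rec (fun _ => []) (fun n _ g w => m w n :: g (Y (ch n.unpair.1) w)) l
  have f1 : ∀ l v w, Acc (rel E) v → Le (rel E) (rel E) v w → valid E ch v l = true →
      valid E ch w (f l w) = true := by
    intro l
    induction l with
    | nil => exact fun _ _ _ _ _ => valid_nil _ _ _
    | cons n t ih =>
      intro v w hv h hl
      obtain ⟨h1, h2⟩ := (valid_cons _ _ _ _ _).1 hl
      obtain ⟨h3, h4⟩ := hY _ _ (h.step h1 (hv.inv h1))
      refine (valid_cons _ _ _ _ _).2 ?_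
      rw [m2]
      exact ⟨h3, ih _ _ (hv.inv h1) h4 h2⟩
  have f2 : ∀ l l' w, l < l' → f l w < f l' w := by
    intro l
    induction l with
    | nil =>
      rintro (_ | ⟨n, t⟩) w h
      exacts [absurd h (List.not_lt_nil _), List.nil_lt_cons _ _]
    | cons n t ih =>
      rintro (_ | ⟨n', t'⟩) w h
      · exact absurd h (List.not_lt_nil _)
      rcases List.cons_lt_cons_iff.1 h with h' | ⟨rfl, h'⟩
      exacts [List.cons_lt_cons_iff.2 (Or.inl (m1 w h')),
        List.cons_lt_cons_iff.2 (Or.inr ⟨rfl, ih _ _ h'⟩)]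
  exact ⟨fun l => ⟨f l.1 w, f1 _ _ _ hv h l.2⟩, fun a b h => f2 _ _ _ h⟩

theorem iso (hc : Function.Surjective ch) {v w : V} (hv : Acc (rel E) v) (hw : Acc (rel E) w)
    (h : Le (rel E) (rel E) v w) (h' : Le (rel E) (rel E) w v) :
    Nonempty (L E ch v ≃o L E ch w) := by
  haveI := wf_L (ch := ch) hv
  haveI := wf_L (ch := ch) hw
  obtain ⟨f, hf⟩ := emb hc hv h
  obtain ⟨g, hg⟩ := emb hc hw h'
  obtain ⟨e⟩ := Ordinal.type_eq.1 (le_antisymm
    (Ordinal.type_le_iff'.2 ⟨(OrderEmbedding.ofStrictMono f hf).ltEmbedding⟩)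
    (Ordinal.type_le_iff'.2 ⟨(OrderEmbedding.ofStrictMono g hg).ltEmbedding⟩))
  exact ⟨OrderIso.ofRelIsoLT e⟩

theorem le_of_emb (hc : Function.Surjective ch) {v w : V} (hv : Acc (rel E) v)
    (hw : Acc (rel E) w) {e : L E ch w → L E ch v} (he : StrictMono e) :
    Le (rel E) (rel E) w v := by
  intro o ho
  by_contra h
  obtain ⟨y, h1, h2⟩ := big_iff.1 ho hv.rank (not_le.1 fun h3 => h fun _ => h3)
  obtain ⟨f, hf⟩ := emb hc hv (le_of_big hv h2)
  obtain ⟨c, rfl⟩ := hc y
  haveI := wf_L (ch := ch) hw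
  let g : L E ch w → L E ch w := fun l => ⟨Nat.pair c 0 :: (f (e l)).1,
    (valid_cons _ _ _ _ _).2 (by rw [Nat.unpair_pair]; exact ⟨h1, (f (e l)).2⟩)⟩
  have hg : StrictMono g := fun a b h =>
    List.cons_lt_cons_iff.2 (Or.inr ⟨rfl, hf (he h)⟩)
  refine (hg.le_apply (x := ⟨[Nat.pair c 1], (valid_cons _ _ _ _ _).2 (by
    rw [Nat.unpair_pair]; exact ⟨h1, valid_nil _ _ _⟩)⟩)).not_gt ?_
  exact List.cons_lt_cons_iff.2 (Or.inl (Nat.pair_lt_pair_right _ zero_lt_one))

end paths

/-- the lexicographic order as a Boolean function -/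
def lexB (l l' : List ℕ) : Bool :=
  (l.zip l').foldr (fun p r => decide (p.1 < p.2) || (p.1 == p.2 && r)) (decide (l.length < l'.length))

theorem lexB_iff (l l' : List ℕ) : lexB l l' = true ↔ l < l' := by
  induction l generalizing l' with
  | nil => cases l' <;> simp [lexB]
  | cons a t ih =>
    rcases l' with _ | ⟨b, u⟩
    · simp [lexB]
    · rw [List.cons_lt_cons_iff, ← ih]; simp [lexB]

end Pool.Agent.H83.Cg
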