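import Pool.Agent.H83.Cg1
import Pool.Agent.H37.NF

/-! An invariant rank threshold for an effectively closed permutation group. -/

set_option autoImplicit false

namespace Pool.Agent.H83.Cg

open Pool.Agent.H37 Encodable

abbrev St : Type := (List ℕ × List ℕ) × List ℕ × List ℕ
abbrev Ch : Type := ℕ × List (List ℕ × List ℕ × List ℕ)
abbrev Qu : Type := (St × St × St × St) × ℕ × ℕ
abbrev Wn : Type := Bool × Ch × List ℕ × St

def ext (l l' : List ℕ) : Bool := l' == l ++ [l'.getD l.length 0]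

theorem ext_pre (z : ℕ → ℕ) (k : ℕ) : ext (pre z k) (pre z (k + 1)) = true := by
  unfold ext
  rw [length_pre, getD_pre _ k.lt_succ_self, ← pre_succ, beq_self_eq_true]

theorem ext_chain {l : ℕ → List ℕ} (h0 : l 0 = []) (h : ∀ n, ext (l n) (l (n + 1)) = true) :
    ∃ z, ∀ n, l n = pre z n := by
  refine ⟨fun n => (l (n + 1)).getD (l n).length 0, fun n => ?_⟩
  induction n with
  | zero => exact h0
  | succ n ih => rw [pre_succ, ← ih]; exact beq_iff_eq.1 (h n)

def root (c b : List ℕ) : St := ((c, b), [], [])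

def Maps (σ : ℕ → ℕ) (c b : List ℕ) : Prop := ∀ i < c.length, σ (c.getD i 0) = b.getD i 0

def dec (α : Type) [Encodable α] [Inhabited α] (n : ℕ) : α := (decode n).getD default

@[simp] theorem dec_enc {α : Type} [Encodable α] [Inhabited α] (a : α) : dec α (encode a) = a := by
  simp [dec]

section defs
variable (T : List ℕ → List ℕ → Bool)

def eS (x x' : St) : Bool :=
  x'.1 == x.1 && ext x.2.1 x'.2.1 && ext x.2.2 x'.2.2 && T x'.2.1 x'.2.2 &&
    (List.range x.1.1.length).all fun i => !decide (x.1.1.getD i 0 < x'.2.1.length) ||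
      x'.2.1.getD (x.1.1.getD i 0) 0 == x.1.2.getD i 0

def bad (c b : List ℕ) : Bool :=
  ((List.range (c.length / 2)).all fun i => c.getD i 0 == i && b.getD (c.length / 2 + i) 0 == i) &&
    !T (pre (fun i => b.getD i 0) (c.length / 2))
      (pre (fun i => c.getD (c.length / 2 + i) 0) (c.length / 2))

def iR (x y : St) : ℕ := Nat.pair 0 (encode (x, y))
def iF (x y : St) : ℕ := Nat.pair 1 (encode (x, y))
def iG (i j : ℕ) : ℕ := Nat.pair 2 (Nat.pair i j)
def iH (i j : ℕ) : ℕ := Nat.pair 3 (Nat.pair i j)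
def en (a : Ch) (i : ℕ) : List ℕ × List ℕ × List ℕ := a.2.getD i ([], [], [])
def iS (a : Ch) (i : ℕ) : ℕ :=
  iR (root (en a i).2.2 (en a i).2.1) (root (en a (i + 1)).1 (en a (i + 1)).2.1)

def test (a : Ch) (z : ℕ → ℕ) (q : Qu) : Bool :=
  (!(z (iR q.1.1 q.1.2.1) == 1 && eS T q.1.1 q.1.2.2.1 &&
      dec St (z (iF q.1.2.2.1 q.1.2.1)) == q.1.2.2.2) ||
    (eS T q.1.2.1 q.1.2.2.2 && z (iR q.1.2.2.1 q.1.2.2.2) == 1)) &&
  (!decide (q.2.1 < a.1) ||
    (T (pre (fun t => z (iG q.2.1 t)) q.2.2) (pre (fun t => z (iH q.2.1 t)) q.2.2) &&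
      z (iS a q.2.1) == 1 && (en a q.2.1).1.length == (en a q.2.1).2.2.length &&
      (!decide (q.2.2 < (en a q.2.1).2.2.length) ||
        z (iG q.2.1 ((en a q.2.1).2.2.getD q.2.2 0)) == (en a q.2.1).1.getD q.2.2 0))) &&
  bad T (en a a.1).1 (en a a.1).2.1

def use (a : Ch) (q : Qu) : ℕ :=
  iR q.1.1 q.1.2.1 + iF q.1.2.2.1 q.1.2.1 + iR q.1.2.2.1 q.1.2.2.2 + iG q.2.1 q.2.2 +
    iH q.2.1 q.2.2 + iS a q.2.1 + iG q.2.1 ((en a q.2.1).2.2.getD q.2.2 0) + 1

def okW (a : Ch) (zl : List ℕ) : Bool :=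
  (List.range zl.length).all fun m => !decide (use a (dec Qu m) ≤ zl.length) ||
    test T a (fun n => zl.getD n 0) (dec Qu m)

def eW (y y' : Wn) : Bool :=
  !y'.1 && bif y.1 then y'.2.2.1 == [] && y'.2.2.2 == root (en y'.2.1 0).1 (en y'.2.1 0).2.1
    else y'.2.1 == y.2.1 && ext y.2.2.1 y'.2.2.1 && eS T y.2.2.2 y'.2.2.2 && okW T y.2.1 y'.2.2.1

theorem test_congr (a : Ch) (q : Qu) {z z' : ℕ → ℕ} (h : ∀ n < use a q, z n = z' n) :
    test T a z q = test T a z' q := by
  have m : ∀ c i t j, t < j → Nat.pair c (Nat.pair i t) < Nat.pair c (Nat.pair i j) :=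
    fun c i t j h => Nat.pair_lt_pair_right _ (Nat.pair_lt_pair_right _ h)
  unfold use at h
  unfold test
  rw [h (iR q.1.1 q.1.2.1) (by omega), h (iF _ _) (by omega),
    h (iR q.1.2.2.1 q.1.2.2.2) (by omega), h (iS _ _) (by omega), h (iG _ _) (by omega),
    pre_congr (y := fun t => z' (iG q.2.1 t)) fun t ht => h _ (by
      have := m 2 q.2.1 t _ ht; unfold iG at *; omega),
    pre_congr (x := fun t => z (iH q.2.1 t)) (y := fun t => z' (iH q.2.1 t)) fun t ht => h _ (by
      have := m 3 q.2.1 t _ ht; unfold iH at *; omega)]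

theorem okW_of (a : Ch) {z : ℕ → ℕ} (h : ∀ q, test T a z q = true) (k : ℕ) :
    okW T a (pre z k) = true := by
  simp only [okW, List.all_eq_true, Bool.or_eq_true, Bool.not_eq_true', decide_eq_false_iff_not,
    length_pre]
  intro m _
  refine or_iff_not_imp_left.2 fun hu => ?_
  rw [test_congr T a _ (z' := z) fun n hn => getD_pre _ (by omega) _, h]

theorem of_okW (a : Ch) {z : ℕ → ℕ} (h : ∀ k, okW T a (pre z (k + 1)) = true) (q : Qu) :
    test T a z q = true := by
  have := h (encode q + use a q)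
  simp only [okW, List.all_eq_true, Bool.or_eq_true, Bool.not_eq_true', decide_eq_false_iff_not,
    length_pre] at this
  have := (this (encode q) (List.mem_range.2 (by omega))).resolve_left (by rw [dec_enc]; omega)
  rwa [dec_enc, test_congr T a _ (z' := z) fun n hn => getD_pre _ (by omega) _] at this

end defs

section comp
variable {α : Type} [Primcodable α] {T : List ℕ → List ℕ → Bool}

@[fun_prop] theorem ci_ext {l l' : α → List ℕ} (h : CI ∅ l) (h' : CI ∅ l') :
    CI ∅ fun a => ext (l a) (l' a) := by unfold ext; fun_prop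

@[fun_prop] theorem ci_dec {β : Type} [Primcodable β] [Inhabited β] {n : α → ℕ} (h : CI ∅ n) :
    CI ∅ fun a => dec β (n a) := by unfold dec; fun_prop

@[fun_prop] theorem ci_root {l l' : α → List ℕ} (h : CI ∅ l) (h' : CI ∅ l') :
    CI ∅ fun a => root (l a) (l' a) := by unfold root; fun_prop

@[fun_prop] theorem ci_en {l : α → Ch} {n : α → ℕ} (h : CI ∅ l) (h' : CI ∅ n) :
    CI ∅ fun a => en (l a) (n a) := by unfold en; fun_prop

theorem ci_eS (hT : Computable₂ T) {x y : α → St} (h : CI ∅ x) (h' : CI ∅ y) :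
    CI ∅ fun a => eS T (x a) (y a) := by
  have := CI.comp2 (O := ∅) hT (f := fun a => (y a).2.1) (g := fun a => (y a).2.2)
    (by fun_prop) (by fun_prop)
  unfold eS
  exact (CI.and (by fun_prop) this).and (by fun_prop)

theorem ci_okW (hT : Computable₂ T) : CI ∅ fun p : Ch × List ℕ => okW T p.1 p.2 := by
  have h0 : CI ∅ fun p : Ch × Qu => use p.1 p.2 := by unfold use iS iR iF iG iH; fun_prop
  have h1 : CI ∅ fun p : (Ch × List ℕ) × Qu => test T p.1.1 (fun n => p.1.2.getD n 0) p.2 := by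
    have e1 := ci_eS (α := (Ch × List ℕ) × Qu) hT (x := fun p => p.2.1.1)
      (y := fun p => p.2.1.2.2.1) (by fun_prop) (by fun_prop)
    have e2 := ci_eS (α := (Ch × List ℕ) × Qu) hT (x := fun p => p.2.1.2.1)
      (y := fun p => p.2.1.2.2.2) (by fun_prop) (by fun_prop)
    have e3 := CI.comp2 (O := ∅) (α := (Ch × List ℕ) × Qu) hT
      (f := fun p => pre (fun t => p.1.2.getD (iG p.2.2.1 t) 0) p.2.2.2)
      (g := fun p => pre (fun t => p.1.2.getD (iH p.2.2.1 t) 0) p.2.2.2)
      (by unfold iG; fun_prop) (by unfold iH; fun_prop)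
    have e4 : CI ∅ fun p : List ℕ × List ℕ => bad T p.1 p.2 := by
      have := CI.comp2 (O := ∅) (α := List ℕ × List ℕ) hT
        (f := fun p => pre (fun i => p.2.getD i 0) (p.1.length / 2))
        (g := fun p => pre (fun i => p.1.getD (p.1.length / 2 + i) 0) (p.1.length / 2))
        (by fun_prop) (by fun_prop)
      unfold bad
      exact CI.and (by fun_prop) this.not
    have e5 := e4.comp (g := fun p : (Ch × List ℕ) × Qu =>
      ((en p.1.1 p.1.1.1).1, (en p.1.1 p.1.1.1).2.1)) (by fun_prop)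
    unfold test
    refine ((CI.not ((CI.and ?_ e1).and ?_)).or (e2.and ?_)).and
      (CI.or ?_ (((e3.and ?_).and ?_).and ?_)) |>.and e5 <;>
    · (try unfold iS); (try unfold iR); (try unfold iF); (try unfold iG); fun_prop
  unfold okW
  refine CI.all (by fun_prop) (CI.or (CI.not (CI.le ?_ (by fun_prop))) ?_)
  · exact h0.comp (g := fun p : (Ch × List ℕ) × ℕ => (p.1.1, dec Qu p.2)) (by fun_prop)
  · exact h1.comp (g := fun p : (Ch × List ℕ) × ℕ => (p.1, dec Qu p.2)) (by fun_prop)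

theorem ci_eW (hT : Computable₂ T) {x y : α → Wn} (h : CI ∅ x) (h' : CI ∅ y) :
    CI ∅ fun a => eW T (x a) (y a) := by
  have e1 := ci_eS hT (x := fun a => (x a).2.2.2) (y := fun a => (y a).2.2.2)
    (by fun_prop) (by fun_prop)
  have e2 := (ci_okW hT).comp (g := fun a => ((x a).2.1, (y a).2.2.1)) (by fun_prop)
  unfold eW
  exact CI.and (by fun_prop) (CI.cond (by fun_prop) (by fun_prop)
    ((CI.and (by fun_prop) e1).and e2))

end comp

end Pool.Agent.H83.Cg
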