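import Pool.Agent.H83.Cg2

/-! The threshold and the invariant family of well-founded trees. -/

set_option autoImplicit false

namespace Pool.Agent.H83.Cg

open Pool.Agent.H37 Encodable

variable {G : Subgroup (Equiv.Perm ℕ)} {T : List ℕ → List ℕ → Bool}

def Pres (G : Subgroup (Equiv.Perm ℕ)) (T : List ℕ → List ℕ → Bool) : Prop :=
  ∀ f g : ℕ → ℕ, (∀ n : ℕ, T (pre f n) (pre g n) = true) ↔ ∃ σ ∈ G, (⇑σ = f ∧ ⇑σ.symm = g)

theorem acc_root (h : Pres G T) (c b : List ℕ) :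
    ¬ Acc (rel (eS T)) (root c b) ↔ ∃ σ ∈ G, Maps σ c b := by
  constructor
  · intro ha
    obtain ⟨x, h0, hx⟩ := exists_path ha
    simp only [rel, eS, Bool.and_eq_true, beq_iff_eq, List.all_eq_true, Bool.or_eq_true,
      Bool.not_eq_true', decide_eq_false_iff_not, List.mem_range] at hx
    obtain ⟨f, hf⟩ := ext_chain (l := fun n => (x n).2.1) (by rw [h0]; rfl) fun n => (hx n).1.1.1.2
    obtain ⟨g, hg⟩ := ext_chain (l := fun n => (x n).2.2) (by rw [h0]; rfl) fun n => (hx n).1.1.2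
    have h1 : ∀ n, (x n).1 = (c, b) := fun n => by
      induction n with
      | zero => rw [h0]; rfl
      | succ n ih => rw [(hx n).1.1.1.1, ih]
    obtain ⟨σ, h2, rfl, -⟩ := (h f g).1 fun n => by
      cases n with
      | zero => exact (h _ _).2 ⟨1, G.one_mem, rfl, rfl⟩ 0
      | succ n => rw [← hf, ← hg]; exact (hx n).1.2
    refine ⟨σ, h2, fun i hi => ?_⟩
    have := (hx (c.getD i 0)).2 i (by rw [h1]; exact hi)
    rw [h1, hf, length_pre] at this
    rw [← this.resolve_left (by simp), getD_pre _ (Nat.lt_succ_self _)]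
  · rintro ⟨σ, h1, h2⟩
    refine big_path (x := fun n => ((c, b), pre σ n, pre σ.symm n)) fun n => ?_
    simp only [rel, eS, Bool.and_eq_true, beq_iff_eq, List.all_eq_true, Bool.or_eq_true,
      Bool.not_eq_true', decide_eq_false_iff_not, List.mem_range, ext_pre, length_pre, true_and]
    exact ⟨(h _ _).2 ⟨σ, h1, rfl, rfl⟩ _, fun i hi => or_iff_not_imp_left.2 fun hn => by
      rw [getD_pre _ (not_not.1 hn), h2 i hi]⟩

theorem acc_bad (h : Pres G T) {c b : List ℕ} (hb : bad T c b = true) :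
    Acc (rel (eS T)) (root c b) := by
  by_contra hc
  obtain ⟨σ, h1, h2⟩ := (acc_root h c b).1 hc
  simp only [bad, Bool.and_eq_true, beq_iff_eq, List.all_eq_true, List.mem_range,
    Bool.not_eq_true'] at hb
  have := (h _ _).2 ⟨σ, h1, rfl, rfl⟩ (c.length / 2)
  rw [pre_congr (y := fun i => b.getD i 0) fun i hi => by
      rw [← h2 i (by omega), (hb.1 i hi).1],
    pre_congr (x := σ.symm) (y := fun i => c.getD (c.length / 2 + i) 0) fun i hi => by
      rw [Equiv.symm_apply_eq, h2 _ (by omega), (hb.1 i hi).2], hb.2] at this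
  exact Bool.noConfusion this

theorem exists_bad (h : Pres G T) {f : Equiv.Perm ℕ} (hf : f ∉ G) :
    ∃ c, bad T c (c.map f) = true := by
  obtain ⟨n, hn⟩ : ∃ n, T (pre f n) (pre f.symm n) ≠ true := by
    by_contra hc
    push Not at hc
    obtain ⟨σ, h1, h2, -⟩ := (h _ _).1 hc
    exact hf (DFunLike.coe_injective h2 ▸ h1)
  let c : ℕ → ℕ := fun i => if i < n then i else f.symm (i - n)
  have e : (pre c (2 * n)).map f = pre (fun i => f (c i)) (2 * n) := by simp [pre]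
  refine ⟨pre c (2 * n), ?_⟩
  simp only [bad, Bool.and_eq_true, beq_iff_eq, List.all_eq_true, List.mem_range,
    Bool.not_eq_true', length_pre, e, show 2 * n / 2 = n by omega]
  refine ⟨fun i hi => ?_, ?_⟩
  · rw [getD_pre _ (by omega), getD_pre _ (by omega)]
    simp [c, hi]
  · rw [pre_congr (y := f) fun i hi => by rw [getD_pre _ (by omega)]; simp [c, hi],
      pre_congr (x := fun i => (pre c (2 * n)).getD (n + i) 0) (y := f.symm) fun i hi => by
        rw [getD_pre _ (by omega)]; simp [c]]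
    simpa using hn

/-- pairs reachable from bad pairs by the group and by lowering the rank -/
def Cc (G : Subgroup (Equiv.Perm ℕ)) (T : List ℕ → List ℕ → Bool) (c b : List ℕ) : Prop :=
  ∃ (n : ℕ) (A : ℕ → List ℕ × List ℕ × List ℕ) (γ : ℕ → Equiv.Perm ℕ), (A 0).1 = c ∧
    (A 0).2.1 = b ∧ bad T (A n).1 (A n).2.1 = true ∧ ∀ i < n, γ i ∈ G ∧
      (A i).1 = (A i).2.2.map (γ i) ∧ Le (rel (eS T)) (rel (eS T)) (root (A i).2.2 (A i).2.1)
        (root (A (i + 1)).1 (A (i + 1)).2.1)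

theorem Cc.step {c b d e : List ℕ} (h : Cc G T c b) {g : Equiv.Perm ℕ} (hg : g ∈ G)
    (hl : Le (rel (eS T)) (rel (eS T)) (root d e) (root c b)) : Cc G T (d.map g) e := by
  obtain ⟨n, A, γ, rfl, rfl, h3, h4⟩ := h
  refine ⟨n + 1, fun i => Nat.casesOn i (d.map g, e, d) A, fun i => Nat.casesOn i g γ, rfl, rfl,
    h3, fun i hi => ?_⟩
  cases i with
  | zero => exact ⟨hg, rfl, hl⟩
  | succ i => exact h4 i (by omega)

def top : Wn := (true, (0, []), [], root [] [])

theorem acc_top (h : Pres G T) : Acc (rel (eW T)) top := by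
  by_contra hc
  obtain ⟨y, h0, hy⟩ := exists_path hc
  have f : ∀ n, (y (n + 1)).1 = false := fun n => by
    have := hy n
    simp only [rel, eW, Bool.and_eq_true, Bool.not_eq_true'] at this
    exact this.1
  have s0 := hy 0
  have s1 := fun n => hy (n + 1)
  simp only [rel, eW, h0, top, f, cond_true, cond_false, Bool.and_eq_true, beq_iff_eq,
    Bool.not_false, true_and] at s0 s1
  obtain ⟨z, hz⟩ := ext_chain (l := fun n => (y (n + 1)).2.2.1) s0.1 fun n => (s1 n).1.1.2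
  have ha : ∀ n, (y (n + 1)).2.1 = (y 1).2.1 := fun n => by
    induction n with
    | zero => rfl
    | succ n ih => rw [(s1 n).1.1.1, ih]
  set a := (y 1).2.1
  have ht := of_okW T a (z := z) fun k => by rw [← hz, ← ha k]; exact (s1 k).2
  simp only [test, Bool.and_eq_true, Bool.or_eq_true, Bool.not_eq_true', beq_iff_eq,
    decide_eq_false_iff_not, Bool.and_eq_false_imp, beq_eq_false_iff_ne, Prod.forall] at ht
  have key : ∀ i ≤ a.1, ¬ Acc (rel (eS T)) (root (en a i).1 (en a i).2.1) := by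
    intro i hi
    induction i with
    | zero =>
      have := big_path (r := rel (eS T)) (x := fun n => (y (n + 1)).2.2.2) fun n => (s1 n).1.2
      rwa [s0.2] at this
    | succ i ih =>
      have t := fun j => ((ht [] [] [] [] [] [] [] [] [] [] [] [] [] [] [] [] i j).1.2).resolve_left
        (by omega)
      obtain ⟨γ, g1, g2, -⟩ := (h _ _).1 fun j => (t j).1.1.1
      obtain ⟨σ, h1, h2⟩ := (acc_root h _ _).1 (ih (by omega))
      refine fun hc => (acc_root h (en a i).2.2 (en a i).2.1).2 ⟨σ * γ, G.mul_mem h1 g1,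
        fun j hj => ?_⟩ (Le.acc (fun o => sim (fun x y => z (iR x y) = 1) ?_ o (t 0).1.1.2) hc)
      · rw [← h2 j ((t 0).1.2 ▸ hj), ← ((t j).2).resolve_left (not_not.2 hj), Equiv.Perm.mul_apply,
          g2]
      · rintro ⟨⟨x1, x2⟩, x3, x4⟩ ⟨⟨y1, y2⟩, y3, y4⟩ ⟨⟨u1, u2⟩, u3, u4⟩ h3 h4
        rcases e : dec St (z (iF ((u1, u2), u3, u4) ((y1, y2), y3, y4))) with ⟨⟨v1, v2⟩, v3, v4⟩
        exact ⟨_, ((ht x1 x2 x3 x4 y1 y2 y3 y4 u1 u2 u3 u4 v1 v2 v3 v4 0 0).1.1).resolve_left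
          fun h5 => h5 ⟨h3, h4⟩ e⟩
  exact key _ le_rfl (acc_bad h (ht [] [] [] [] [] [] [] [] [] [] [] [] [] [] [] [] 0 0).2)

theorem Cc.le (h : Pres G T) {c b : List ℕ} (hc : Cc G T c b) : ∃ y, rel (eW T) y top ∧
    Le (rel (eS T)) (rel (eW T)) (root c b) y := by
  classical
  obtain ⟨n, A, γ, rfl, rfl, h3, h4⟩ := hc
  have : ∀ x y, ∃ y', (∃ y', rel (eS T) y' y ∧ Le (rel (eS T)) (rel (eS T)) x y') →
      rel (eS T) y' y ∧ Le (rel (eS T)) (rel (eS T)) x y' := fun x w => by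
    by_cases h : ∃ y, rel (eS T) y w ∧ Le (rel (eS T)) (rel (eS T)) x y
    exacts [⟨_, fun _ => h.choose_spec⟩, ⟨w, fun h' => absurd h' h⟩]
  choose Y hY using this
  have ac : ∀ k i, i + k = n → Acc (rel (eS T)) (root (A i).1 (A i).2.1) := by
    intro k
    induction k with
    | zero => rintro i rfl; exact acc_bad h h3
    | succ k ih =>
      intro i hi
      obtain ⟨g1, g2, g3⟩ := h4 i (by omega)
      by_contra hc
      obtain ⟨σ, h1, h2⟩ := (acc_root h _ _).1 hc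
      refine (acc_root h (A i).2.2 (A i).2.1).2 ⟨σ * γ i, G.mul_mem h1 g1, fun j hj => ?_⟩
        (g3.acc (ih _ (by omega)))
      rw [← h2 j (by rw [g2]; simpa using hj), g2]
      simp [List.getD_eq_getElem?_getD, List.getElem?_eq_getElem hj]
  let z : ℕ → ℕ := fun m =>
    if m.unpair.1 = 0 then
      (if Acc (rel (eS T)) (dec (St × St) m.unpair.2).1 ∧ Le (rel (eS T)) (rel (eS T))
        (dec (St × St) m.unpair.2).1 (dec (St × St) m.unpair.2).2 then 1 else 0)
    else if m.unpair.1 = 1 then encode (Y (dec (St × St) m.unpair.2).1 (dec (St × St) m.unpair.2).2)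
    else if m.unpair.1 = 2 then γ m.unpair.2.unpair.1 m.unpair.2.unpair.2
    else (γ m.unpair.2.unpair.1).symm m.unpair.2.unpair.2
  have z0 : ∀ x y, z (iR x y) = 1 ↔ Acc (rel (eS T)) x ∧ Le (rel (eS T)) (rel (eS T)) x y :=
    fun x y => by simp only [z, iR, Nat.unpair_pair, dec_enc, if_true]; simp
  have z1 : ∀ x y, dec St (z (iF x y)) = Y x y := fun x y => by
    simp only [z, iF, Nat.unpair_pair, dec_enc, one_ne_zero, if_true, if_false]
  have z2 : ∀ i j, z (iG i j) = γ i j := fun i j => by simp [z, iG]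
  have z3 : ∀ i j, z (iH i j) = (γ i).symm j := fun i j => by simp [z, iH]
  let a : Ch := (n, pre A (n + 1))
  have e : ∀ i ≤ n, en a i = A i := fun i hi => getD_pre _ (by omega) _
  have ht : ∀ q, test T a z q = true := by
    rintro ⟨⟨x, y, x', y'⟩, i, j⟩
    simp only [test, Bool.and_eq_true, Bool.or_eq_true, Bool.not_eq_true', beq_iff_eq,
      decide_eq_false_iff_not, Bool.and_eq_false_imp, beq_eq_false_iff_ne, z0, z1, z2, z3, iS]
    refine ⟨⟨or_iff_not_imp_left.2 fun h5 => ?_, or_iff_not_imp_left.2 fun hi => ?_⟩,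
      by rw [e _ le_rfl]; exact h3⟩
    · push Not at h5
      obtain ⟨⟨⟨h5, h6⟩, h7⟩, rfl⟩ := h5
      have := hY _ _ (h6.step h7 (h5.inv h7))
      exact ⟨this.1, h5.inv h7, this.2⟩
    · have hi : i < n := not_not.1 hi
      obtain ⟨g1, g2, g3⟩ := h4 i hi
      rw [e i hi.le, e (i + 1) hi]
      refine ⟨⟨⟨(h _ _).2 ⟨_, g1, rfl, rfl⟩ _, g3.acc (ac (n - (i + 1)) _ (by omega)), g3⟩,
        by rw [g2, List.length_map]⟩, or_iff_not_imp_left.2 fun hj => ?_⟩
      rw [g2]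
      simp [List.getD_eq_getElem?_getD, List.getElem?_eq_getElem (not_not.1 hj)]
  refine ⟨(false, a, [], root (A 0).1 (A 0).2.1), by simp [rel, eW, top, e], fun o =>
    sim (fun x y => ∃ k, y = (false, a, pre z k, x)) ?_ o ⟨0, rfl⟩⟩
  rintro x _ x' ⟨k, rfl⟩ hx
  refine ⟨_, ?_, k + 1, rfl⟩
  simp only [rel, eW, ext_pre, okW_of T a ht, show eS T x x' = true from hx]
  simp

theorem exists_thr (h : Pres G T) : ∃ (A : Wn) (hA : Acc (rel (eW T)) A), ∀ c b,
    Cc G T c b ↔ ¬ Big (rel (eS T)) (root c b) hA.rank := by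
  have ht := acc_top h
  have h1 : ht.rank ∈ {o | ∀ c b, Cc G T c b → ¬ Big (rel (eS T)) (root c b) o} := by
    intro c b hc hb
    obtain ⟨y, h1, h2⟩ := hc.le h
    exact (h2 _ hb (ht.inv h1)).not_gt (Acc.rank_lt_of_rel ht h1)
  obtain ⟨A, hA, e⟩ := Acc.mem_range_rank_of_le ht (csInf_le' h1)
  refine ⟨A, hA, fun c b => ⟨e ▸ csInf_mem ⟨_, h1⟩ c b, fun hb => ?_⟩⟩
  have ha := acc_iff.2 ⟨_, hb⟩
  have h5 : ha.rank < hA.rank := not_le.1 fun h3 => hb fun _ => h3
  have h2 := notMem_of_lt_csInf' (h5.trans_eq e)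
  simp only [Set.mem_setOf_eq, not_forall, not_not] at h2
  obtain ⟨c', b', h3, h4⟩ := h2
  simpa using h3.step G.one_mem (le_of_big ha h4)

abbrev Vn : Type := Bool × St × Wn

def eB (T : List ℕ → List ℕ → Bool) (A : Wn) (v v' : Vn) : Bool :=
  !v'.1 && bif v.1 then (v'.2.1 == v.2.1 && v'.2.2 == A) || (v'.2.1 == root [] [] && eW T A v'.2.2)
    else eS T v.2.1 v'.2.1 && eW T v.2.2 v'.2.2

theorem big_prod (A : Wn) (o : Ordinal.{0}) : ∀ (x : St) (y : Wn),
    Big (rel (eB T A)) (false, x, y) o ↔ Big (rel (eS T)) x o ∧ Big (rel (eW T)) y o := by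
  induction o using Ordinal.induction with
  | _ o ih =>
    intro x y
    rw [big_iff, big_iff, big_iff, ← forall₂_and]
    refine forall₂_congr fun p hp => ⟨?_, ?_⟩
    · rintro ⟨⟨t, x', y'⟩, h1, h2⟩
      simp only [rel, eB, Bool.and_eq_true, Bool.not_eq_true', cond_false] at h1
      obtain ⟨rfl, h3, h4⟩ := h1
      rw [ih p hp] at h2
      exact ⟨⟨x', h3, h2.1⟩, y', h4, h2.2⟩
    · rintro ⟨⟨x', h1, h2⟩, y', h3, h4⟩
      exact ⟨(false, x', y'), by simpa [rel, eB] using And.intro h1 h3, (ih p hp _ _).2 ⟨h2, h4⟩⟩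

theorem big_B (h : Pres G T) {A : Wn} (hA : Acc (rel (eW T)) A) (x : St) (o : Ordinal.{0}) :
    Big (rel (eB T A)) (true, x, A) o ↔
      ∀ p < o, p < hA.rank ∨ p ≤ hA.rank ∧ Big (rel (eS T)) x hA.rank := by
  rw [big_iff]
  refine forall₂_congr fun p _ => ⟨?_, ?_⟩
  · rintro ⟨⟨t, x', y'⟩, h1, h2⟩
    simp only [rel, eB, Bool.and_eq_true, Bool.not_eq_true', cond_true, Bool.or_eq_true,
      beq_iff_eq] at h1
    obtain ⟨rfl, h1⟩ := h1
    rw [big_prod] at h2
    rcases h1 with ⟨rfl, rfl⟩ | ⟨-, h1⟩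
    · rcases (h2.2 hA).eq_or_lt with e | e
      exacts [Or.inr ⟨e.le, e ▸ h2.1⟩, Or.inl e]
    · exact Or.inl ((h2.2 (hA.inv h1)).trans_lt (Acc.rank_lt_of_rel hA h1))
  · rintro (h1 | ⟨h1, h2⟩)
    · obtain ⟨y, h2, h3⟩ := big_iff.1 (fun _ => le_rfl : Big _ A hA.rank) p h1
      exact ⟨(false, root [] [], y), by simp [rel, eB, show eW T A y = true from h2],
        (big_prod _ _ _ _).2 ⟨fun h4 => absurd h4 ((acc_root h _ _).2
          ⟨1, G.one_mem, fun _ hi => absurd hi (Nat.not_lt_zero _)⟩), h3⟩⟩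
    · exact ⟨(false, x, A), by simp [rel, eB], (big_prod _ _ _ _).2 ⟨h2.mono h1, fun _ => h1⟩⟩

theorem exists_family (h : Pres G T) (hT : Computable₂ T) :
    ∃ (E : Vn → Vn → Bool) (B : List ℕ → List ℕ → Vn), CI ∅ (fun p : Vn × Vn => E p.1 p.2) ∧
      CI ∅ (fun p : List ℕ × List ℕ => B p.1 p.2) ∧ (∀ c b, Acc (rel E) (B c b)) ∧
      (∀ g ∈ G, ∀ c b, Le (rel E) (rel E) (B (c.map g) b) (B c b)) ∧
      ∀ f : Equiv.Perm ℕ, f ∉ G → ∃ c b, ¬ Le (rel E) (rel E) (B (c.map f) b) (B c b) := by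
  obtain ⟨A, hA, hC⟩ := exists_thr h
  refine ⟨eB T A, fun c b => (true, root c b, A), ?_, by fun_prop, fun c b => acc_iff.2
    ⟨Order.succ (Order.succ hA.rank), fun hb => ?_⟩, fun g hg c b o ho => ?_, fun f hf => ?_⟩
  · unfold eB
    exact CI.and (by fun_prop) (CI.cond (by fun_prop) (CI.or (by fun_prop) (CI.and (by fun_prop)
      (ci_eW hT (by fun_prop) (by fun_prop)))) (CI.and (ci_eS hT (by fun_prop) (by fun_prop))
      (ci_eW hT (by fun_prop) (by fun_prop))))
  · rcases (big_B h hA _ _).1 hb _ (Order.lt_succ _) with h1 | h1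
    exacts [(Order.le_succ _).not_gt h1, (Order.lt_succ _).not_ge h1.1]
  · rw [big_B h hA] at ho ⊢
    refine fun p hp => (ho p hp).imp_right fun h1 => ⟨h1.1, by_contra fun h2 => ?_⟩
    exact (hC _ _).1 (((hC _ _).2 h2).step hg fun _ => id) h1.2
  · obtain ⟨c, hc⟩ := exists_bad h hf
    refine ⟨c, c.map f, fun hl => ?_⟩
    have := (big_B h hA _ _).1 (hl (Order.succ hA.rank) ((big_B h hA _ _).2 fun p hp =>
      Or.inr ⟨Order.lt_succ_iff.1 hp, fun h4 => absurd h4 ((acc_root h _ _).2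
        ⟨1, G.one_mem, fun _ _ => rfl⟩)⟩)) _ (Order.lt_succ _)
    exact (hC _ _).1 ⟨0, fun _ => (c, c.map f, []), fun _ => 1, rfl, rfl, hc,
      fun _ hi => absurd hi (Nat.not_lt_zero _)⟩ (this.resolve_left (lt_irrefl _)).2

end Pool.Agent.H83.Cg
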