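import Pool.Agent.H83.Cg3

/-! The computable structure obtained by attaching rigid well-orders to tuples. -/

set_option autoImplicit false

namespace Pool.Agent.H83.Cg

open Pool.Agent.H37 Encodable

section iso
variable {V : Type} {E : V → V → Bool} {ch : ℕ → V}

def Iso (E : V → V → Bool) (ch : ℕ → V) (j : List ℕ → List ℕ) (v w : V) : Prop :=
  (∀ l, valid E ch v l = true → valid E ch w (j l) = true) ∧
  (∀ l l', valid E ch v l = true → valid E ch v l' = true → l < l' → j l < j l') ∧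
  ∀ l', valid E ch w l' = true → ∃ l, valid E ch v l = true ∧ j l = l'

noncomputable def Iso.ord {j : List ℕ → List ℕ} {v w : V} (h : Iso E ch j v w) :
    L E ch v ≃o L E ch w :=
  StrictMono.orderIsoOfSurjective (fun l => ⟨j l.1, h.1 _ l.2⟩) (fun a b => h.2.1 _ _ a.2 b.2)
    fun l => (h.2.2 _ l.2).elim fun x hx => ⟨⟨x, hx.1⟩, Subtype.ext hx.2⟩

theorem Iso.uniq {j j' : List ℕ → List ℕ} {v w : V} (hv : Acc (rel E) v) (h : Iso E ch j v w)
    (h' : Iso E ch j' v w) {l : List ℕ} (hl : valid E ch v l = true) : j l = j' l := by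
  haveI := wf_L (ch := ch) hv
  exact congrArg (fun e : L E ch v ≃o L E ch w => (e ⟨l, hl⟩).1) (Subsingleton.elim h.ord h'.ord)

theorem Iso.comp {j j' : List ℕ → List ℕ} {u v w : V} (h : Iso E ch j u v)
    (h' : Iso E ch j' v w) : Iso E ch (j' ∘ j) u w :=
  ⟨fun l hl => h'.1 _ (h.1 l hl), fun l l' h1 h2 h3 =>
    h'.2.1 _ _ (h.1 _ h1) (h.1 _ h2) (h.2.1 _ _ h1 h2 h3), fun l hl => by
      obtain ⟨a, h1, rfl⟩ := h'.2.2 l hl
      obtain ⟨b, h2, rfl⟩ := h.2.2 a h1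
      exact ⟨b, h2, rfl⟩⟩

theorem exists_iso {v w : V} (e : L E ch v ≃o L E ch w) : ∃ j, Iso E ch j v w :=
  ⟨fun l => if h : valid E ch v l = true then (e ⟨l, h⟩).1 else [], fun l hl => by
    simp only [dif_pos hl]; exact (e _).2, fun l l' h1 h2 h3 => by
    simp only [dif_pos h1, dif_pos h2]; exact e.strictMono h3, fun l hl =>
    ⟨(e.symm ⟨l, hl⟩).1, (e.symm _).2, by simp [dif_pos (e.symm ⟨l, hl⟩).2]⟩⟩

end iso

abbrev Tr : Type := List ℕ × List ℕ × List ℕ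

def tr (m : ℕ) : Tr := dec Tr (m / 2)
def cd (t : Tr) : ℕ := 2 * encode t + 1

@[simp] theorem tr_cd (t : Tr) : tr (cd t) = t := by
  rw [tr, cd, show (2 * encode t + 1) / 2 = encode t by omega, dec_enc]

theorem cd_odd (t : Tr) : cd t % 2 = 1 := by unfold cd; omega

variable (E : Vn → Vn → Bool) (B : List ℕ → List ℕ → Vn)

def gen (m : ℕ) : Bool :=
  m % 2 == 1 && encode (tr m) == m / 2 && valid E (dec Vn) (B (tr m).1 (tr m).2.1) (tr m).2.2

def RR (i : ℕ) (l : List ℕ) : Bool :=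
  bif i.unpair.1 == 0 then l == [l.getD 0 0] && l.getD 0 0 % 2 == 0 else
  bif i.unpair.1 == 1 then l == [l.getD 0 0, l.getD 1 0] && gen E B (l.getD 0 0) &&
    gen E B (l.getD 1 0) && (tr (l.getD 0 0)).1 == (tr (l.getD 1 0)).1 &&
    (tr (l.getD 0 0)).2.1 == (tr (l.getD 1 0)).2.1 &&
    lexB (tr (l.getD 0 0)).2.2 (tr (l.getD 1 0)).2.2 else
  bif i.unpair.1 == 2 then l == [i.unpair.2] && i.unpair.2 % 2 == 1 && !gen E B i.unpair.2 else
  gen E B (l.getD 0 0) && encode (tr (l.getD 0 0)).2.1 == i.unpair.2 &&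
    l == l.getD 0 0 :: (tr (l.getD 0 0)).1.map fun n => 2 * n

theorem ci_RR (hE : CI ∅ fun p : Vn × Vn => E p.1 p.2)
    (hB : CI ∅ fun p : List ℕ × List ℕ => B p.1 p.2) : Computable₂ (RR E B) := by
  have h0 : ∀ {α : Type} [Primcodable α] {f : α → ℕ}, CI ∅ f → CI ∅ fun a => tr (f a) :=
    fun h => by unfold tr; fun_prop
  have h1 : CI ∅ (gen E B) := by
    have e0 := h0 (CI.id' (α := ℕ))
    have e1 := hB.comp (g := fun m => ((tr m).1, (tr m).2.1)) (CI.mk e0.fst e0.snd.fst)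
    have e2 : CI ∅ fun m => (tr m).2.2.map fun n => dec Vn n.unpair.1 :=
      CI.map (by fun_prop) e0.snd.snd
    unfold gen valid
    exact (CI.and (by fun_prop) (CI.beq e0.encode (by fun_prop))).and
      (CI.all (CI.zip (CI.cons e1 e2) e2) (hE.comp CI.id'.snd))
  have a0 : CI ∅ fun p : ℕ × List ℕ => p.2.getD 0 0 := by fun_prop
  have a1 : CI ∅ fun p : ℕ × List ℕ => p.2.getD 1 0 := by fun_prop
  have a2 : CI ∅ fun p : List ℕ × List ℕ => lexB p.1 p.2 := by unfold lexB; fun_prop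
  refine CI.computable (f := fun p : ℕ × List ℕ => RR E B p.1 p.2) ?_
  unfold RR
  exact CI.cond (by fun_prop) (by fun_prop) (CI.cond (by fun_prop)
    ((((((by fun_prop : CI ∅ _).and (h1.comp a0)).and (h1.comp a1)).and
      (CI.beq (h0 a0).fst (h0 a1).fst)).and (CI.beq (h0 a0).snd.fst (h0 a1).snd.fst)).and
      (a2.comp (CI.mk (h0 a0).snd.snd (h0 a1).snd.snd)))
    (CI.cond (by fun_prop) (CI.and (by fun_prop) (h1.comp (by fun_prop)).not)
      (((h1.comp a0).and (CI.beq (h0 a0).snd.fst.encode (by fun_prop))).and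
        (CI.beq (by fun_prop) (CI.cons a0 (CI.map (by fun_prop) (h0 a0).fst))))))

variable {E B}

theorem gen_iff {m : ℕ} : gen E B m = true ↔
    ∃ c b l, valid E (dec Vn) (B c b) l = true ∧ m = cd (c, b, l) := by
  simp only [gen, Bool.and_eq_true, beq_iff_eq]
  refine ⟨fun h => ⟨_, _, _, h.2, ?_⟩, ?_⟩
  · show m = 2 * encode (tr m) + 1
    omega
  · rintro ⟨c, b, l, h, rfl⟩
    rw [tr_cd]
    exact ⟨⟨cd_odd _, by unfold cd; omega⟩, h⟩

theorem RR_iff {i : ℕ} {l : List ℕ} : RR E B i l = true ↔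
    (i.unpair.1 = 0 ∧ ∃ n, l = [2 * n]) ∨
    (i.unpair.1 = 1 ∧ ∃ c b u v, valid E (dec Vn) (B c b) u = true ∧
      valid E (dec Vn) (B c b) v = true ∧ u < v ∧ l = [cd (c, b, u), cd (c, b, v)]) ∨
    (i.unpair.1 = 2 ∧ l = [i.unpair.2] ∧ i.unpair.2 % 2 = 1 ∧ ¬ gen E B i.unpair.2 = true) ∨
    (2 < i.unpair.1 ∧ ∃ c b u, valid E (dec Vn) (B c b) u = true ∧ encode b = i.unpair.2 ∧
      l = cd (c, b, u) :: c.map fun n => 2 * n) := by
  unfold RR
  obtain h | h | h | h : i.unpair.1 = 0 ∨ i.unpair.1 = 1 ∨ i.unpair.1 = 2 ∨ 2 < i.unpair.1 := by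
    omega
  · simp only [h, beq_self_eq_true, cond_true, Bool.and_eq_true, beq_iff_eq]
    simp only [true_and, zero_ne_one, false_and, OfNat.zero_ne_ofNat, Nat.not_lt_zero, or_false]
    refine ⟨fun h => ⟨l.getD 0 0 / 2, h.1.trans (by congr 1; omega)⟩, ?_⟩
    rintro ⟨n, rfl⟩
    simp
  · simp only [h, beq_self_eq_true, cond_true, Bool.and_eq_true, beq_iff_eq, gen_iff, lexB_iff,
      show (1 == 0) = false from rfl, cond_false]
    simp only [true_and, one_ne_zero, false_and, OfNat.one_ne_ofNat, Nat.not_ofNat_lt_one,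
      or_false, false_or]
    constructor
    · rintro ⟨⟨⟨⟨⟨h0, c, b, u, h1, h2⟩, c', b', v, h3, h4⟩, h5⟩, h6⟩, h7⟩
      rw [h2, h4] at h0 h5 h6 h7
      simp only [tr_cd] at h5 h6 h7
      subst h5 h6
      exact ⟨c, b, u, v, h1, h3, h7, h0⟩
    · rintro ⟨c, b, u, v, h1, h2, h3, rfl⟩
      simp only [List.getD_cons_zero, List.getD_cons_succ, tr_cd, and_true, true_and, h3]
      exact ⟨⟨_, _, _, h1, rfl⟩, _, _, _, h2, rfl⟩
  · simp [h, and_assoc]
  · rw [beq_false_of_ne (by omega : i.unpair.1 ≠ 0), beq_false_of_ne (by omega : i.unpair.1 ≠ 1),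
      beq_false_of_ne (by omega : i.unpair.1 ≠ 2)]
    simp only [cond_false, Bool.and_eq_true, beq_iff_eq, gen_iff, show i.unpair.1 ≠ 0 by omega,
      show i.unpair.1 ≠ 1 by omega, show i.unpair.1 ≠ 2 by omega, false_and, false_or, h, true_and]
    constructor
    · rintro ⟨⟨⟨c, b, u, h1, h2⟩, h3⟩, h4⟩
      rw [h2, tr_cd] at h3 h4
      exact ⟨c, b, u, h1, h3, h4⟩
    · rintro ⟨c, b, u, h1, h2, rfl⟩
      simp only [List.getD_cons_zero, tr_cd, and_true, h2]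
      exact ⟨_, _, _, h1, rfl⟩

def Good (E : Vn → Vn → Bool) (B : List ℕ → List ℕ → Vn) (σ g : ℕ → ℕ) : Prop :=
  (∀ n, σ (2 * n) = 2 * g n) ∧ (∀ m, m % 2 = 1 → ¬ gen E B m = true → σ m = m) ∧
    ∀ c b, ∃ j, Iso E (dec Vn) j (B c b) (B (c.map g) b) ∧
      ∀ l, valid E (dec Vn) (B c b) l = true → σ (cd (c, b, l)) = cd (c.map g, b, j l)

theorem Good.fwd {σ g : ℕ → ℕ} (h : Good E B σ g) {i : ℕ} {l : List ℕ} (hl : RR E B i l = true) :
    RR E B i (l.map σ) = true := by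
  rw [RR_iff] at hl ⊢
  rcases hl with ⟨h0, n, rfl⟩ | ⟨h0, c, b, u, v, h1, h2, h3, rfl⟩ | ⟨h0, rfl, h1, h2⟩ |
    ⟨h0, c, b, u, h1, h2, rfl⟩
  · exact Or.inl ⟨h0, g n, by simp [h.1]⟩
  · obtain ⟨j, j1, j2⟩ := h.2.2 c b
    exact Or.inr (Or.inl ⟨h0, _, b, j u, j v, j1.1 _ h1, j1.1 _ h2, j1.2.1 _ _ h1 h2 h3,
      by simp [j2 _ h1, j2 _ h2]⟩)
  · exact Or.inr (Or.inr (Or.inl ⟨h0, by simp [h.2.1 _ h1 h2], h1, h2⟩))
  · obtain ⟨j, j1, j2⟩ := h.2.2 c b
    exact Or.inr (Or.inr (Or.inr ⟨h0, _, b, j u, j1.1 _ h1, h2, by simp [j2 _ h1, h.1]⟩))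

theorem Good.comp {σ g τ k : ℕ → ℕ} (h : Good E B σ g) (h' : Good E B τ k) :
    Good E B (τ ∘ σ) (k ∘ g) := by
  refine ⟨fun n => by simp [h.1, h'.1], fun m h1 h2 => by simp [h.2.1 m h1 h2, h'.2.1 m h1 h2],
    fun c b => ?_⟩
  obtain ⟨j, j1, j2⟩ := h.2.2 c b
  obtain ⟨j', j3, j4⟩ := h'.2.2 (c.map g) b
  rw [List.map_map] at j3 j4
  exact ⟨_, j1.comp j3, fun l hl => by rw [Function.comp_apply, j2 l hl, j4 _ (j1.1 l hl)]; rfl⟩

theorem good_id : Good E B id id :=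
  ⟨fun _ => rfl, fun _ _ _ => rfl, fun c b => ⟨id, by
    rw [List.map_id]; exact ⟨fun _ => id, fun _ _ _ _ => id, fun l hl => ⟨l, hl, rfl⟩⟩,
    fun l _ => by rw [List.map_id]; rfl⟩⟩

theorem good_loc (hA : ∀ c b, Acc (rel E) (B c b)) (m : ℕ) : ∃ k, ∀ σ g σ' g', Good E B σ g →
    Good E B σ' g' → (∀ n < k, g n = g' n) → σ m = σ' m := by
  refine ⟨m + (tr m).1.sum + 1, fun σ g σ' g' h h' e => ?_⟩
  rcases Nat.even_or_odd' m with ⟨n, rfl | hm⟩
  · rw [h.1, h'.1, e n (by omega)]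
  by_cases hg : gen E B m = true
  · obtain ⟨c, b, l, h1, rfl⟩ := gen_iff.1 hg
    obtain ⟨j, j1, j2⟩ := h.2.2 c b
    obtain ⟨j', j3, j4⟩ := h'.2.2 c b
    have : c.map g = c.map g' := List.map_congr_left fun n hn => e n (by
      have := List.single_le_sum (fun _ _ => Nat.zero_le _) n hn
      simp only [tr_cd]; omega)
    rw [j2 l h1, j4 l h1, ← this, j1.uniq (hA c b) (this ▸ j3) h1]
  · rw [h.2.1 m (by omega) hg, h'.2.1 m (by omega) hg]

theorem exists_good {g : ℕ → ℕ}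
    (h : ∀ c b, Nonempty (L E (dec Vn) (B c b) ≃o L E (dec Vn) (B (c.map g) b))) :
    ∃ σ, Good E B σ g := by
  choose j hj using fun c b => exists_iso (h c b).some
  refine ⟨fun m => if m % 2 = 0 then 2 * g (m / 2) else if gen E B m = true then
    cd ((tr m).1.map g, (tr m).2.1, j (tr m).1 (tr m).2.1 (tr m).2.2) else m, fun n => by simp,
    fun m h1 h2 => by beta_reduce; rw [if_neg (by omega), if_neg h2], fun c b => ⟨_, hj c b, fun l hl => ?_⟩⟩
  have := cd_odd (c, b, l)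
  beta_reduce
  rw [if_neg (by omega), if_pos (gen_iff.2 ⟨c, b, l, hl, rfl⟩), tr_cd]

theorem good_of_aut {σ : Equiv.Perm ℕ} (h : ∀ i l, RR E B i (l.map σ) = RR E B i l) :
    ∃ g : Equiv.Perm ℕ, Good E B σ g := by
  have ev : ∀ m, (∃ n, σ m = 2 * n) ↔ ∃ n, m = 2 * n := fun m => by
    have := Bool.eq_iff_iff.1 (h 0 [m])
    simpa [RR_iff] using this
  choose g hg using fun n => (ev (2 * n)).2 ⟨n, rfl⟩
  have g1 : Function.Bijective g := ⟨fun a b e => by
    have := σ.injective ((hg a).trans ((congrArg _ e).trans (hg b).symm)); omega, fun k => by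
    obtain ⟨n, hn⟩ := (ev (σ.symm (2 * k))).1 ⟨k, by simp⟩
    have := hg n
    rw [← hn, Equiv.apply_symm_apply] at this
    exact ⟨n, by omega⟩⟩
  have inj : ∀ c c' : List ℕ, (c.map fun n => 2 * n) = (c'.map fun n => 2 * n) → c = c' :=
    fun c c' => (List.map_inj_right fun a b e => by omega).1
  have r3 : ∀ c b x, RR E B (Nat.pair 3 (encode b)) (x :: List.map (fun n => 2 * n) c) = true ↔
      ∃ u, valid E (dec Vn) (B c b) u = true ∧ x = cd (c, b, u) := fun c b x => by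
    rw [RR_iff, Nat.unpair_pair]
    simp only [OfNat.ofNat_ne_zero, false_and, OfNat.ofNat_ne_one, Nat.succ_ne_self, false_or,
      Nat.lt_add_one, true_and, encode_inj, List.cons.injEq]
    refine ⟨?_, fun ⟨u, h1, h2⟩ => ⟨c, b, u, h1, rfl, h2, rfl⟩⟩
    rintro ⟨c', b', u, h1, rfl, h2, h3⟩
    obtain rfl := inj _ _ h3
    exact ⟨u, h1, h2⟩
  have key : ∀ c b x, (∃ u, valid E (dec Vn) (B (List.map g c) b) u = true ∧
      σ x = cd (c.map g, b, u)) ↔ ∃ u, valid E (dec Vn) (B c b) u = true ∧ x = cd (c, b, u) := by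
    intro c b x
    rw [← r3, ← r3, ← h _ (x :: _)]
    simp [hg, Function.comp_def]
  refine ⟨Equiv.ofBijective g g1, hg, fun m h1 h2 => ?_, fun c b => ?_⟩
  · have := Bool.eq_iff_iff.1 (h (Nat.pair 2 m) [m])
    simpa [RR_iff, h1, h2] using this
  · have j2 : ∀ l, valid E (dec Vn) (B c b) l = true →
        valid E (dec Vn) (B (c.map g) b) (tr (σ (cd (c, b, l)))).2.2 = true ∧
        σ (cd (c, b, l)) = cd (c.map g, b, (tr (σ (cd (c, b, l)))).2.2) := fun l hl => by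
      obtain ⟨u, h1, h2⟩ := (key c b _).2 ⟨l, hl, rfl⟩
      rw [h2, tr_cd]
      exact ⟨h1, rfl⟩
    refine ⟨fun l => (tr (σ (cd (c, b, l)))).2.2, ⟨fun l hl => (j2 l hl).1,
      fun u v h1 h2 h3 => ?_, fun u hu => ?_⟩, fun l hl => (j2 l hl).2⟩
    · have := (h (Nat.pair 1 0) [cd (c, b, u), cd (c, b, v)]).trans
        (RR_iff.2 (Or.inr (Or.inl ⟨by simp, c, b, u, v, h1, h2, h3, rfl⟩)))
      rw [RR_iff, Nat.unpair_pair] at this
      simp only [one_ne_zero, false_and, OfNat.one_ne_ofNat, Nat.not_ofNat_lt_one, or_false,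
        false_or, true_and, List.map_cons, List.map_nil, List.cons.injEq, and_true] at this
      obtain ⟨c', b', u', v', -, -, h4, h5, h6⟩ := this
      simp only [h5, h6, tr_cd, h4]
    · obtain ⟨l, h1, h2⟩ := (key c b (σ.symm (cd (c.map g, b, u)))).1 ⟨u, hu, by simp⟩
      exact ⟨l, h1, by simp only [← h2, Equiv.apply_symm_apply, tr_cd]⟩

end Pool.Agent.H83.Cg
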