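import Mathlib

set_option autoImplicit false

namespace Pool.Agent.H83.Closing

open Set

/-- a countable set is exhausted by a monotone sequence of finite sets -/
theorem exists_exhaust {Γ : Type*} {S : Set Γ} (hS : S.Countable) :
    ∃ T : ℕ → Finset Γ, Monotone T ∧ (∀ m, (T m : Set Γ) ⊆ S) ∧ ∀ γ ∈ S, ∃ m, γ ∈ T m := by
  classical
  rcases S.eq_empty_or_nonempty with rfl | hne
  · exact ⟨fun _ => ∅, monotone_const, by simp, by simp⟩
  obtain ⟨f, hf⟩ := hS.exists_eq_range hne
  refine ⟨fun m => (Finset.range (m + 1)).image f, ?_, ?_, ?_⟩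
  · intro a b hab
    exact Finset.image_subset_image (Finset.range_mono (by omega))
  · intro m γ hγ
    simp only [Finset.coe_image, mem_image] at hγ
    obtain ⟨i, -, rfl⟩ := hγ
    rw [hf]; exact mem_range_self i
  · intro γ hγ
    rw [hf] at hγ
    obtain ⟨i, rfl⟩ := hγ
    exact ⟨i, Finset.mem_image_of_mem f (by simp)⟩

/-- closing-off argument -/
theorem closingOff {α Γ : Type*} (supp : α → Set Γ) (P : Finset Γ → ℕ → α → Prop)
    (hP : ∀ F k, ∃ a, (supp a).Countable ∧ P F k a) :
    ∃ (a : ℕ → α) (F : ℕ → Finset Γ), Monotone F ∧ (∀ k, (supp (a k)).Countable) ∧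
      (∀ k, P (F k) k (a k)) ∧ (∀ j, ∀ γ ∈ supp (a j), ∃ k, γ ∈ F k) ∧
      (∀ k, ∀ γ ∈ F k, ∃ j, γ ∈ supp (a j)) := by
  classical
  choose g hg1 hg2 using hP
  choose T hT1 hT2 hT3 using fun F k => exists_exhaust (hg1 F k)
  let st : ℕ → (ℕ → Finset Γ) := fun n =>
    Nat.rec (fun _ => ∅) (fun k t => fun m => t m ∪ T (t k) k m) n
  have hs : ∀ k m, st (k + 1) m = st k m ∪ T (st k k) k m := fun k m => rfl
  have hm1 : ∀ k, Monotone (st k) := by
    intro k
    induction k with
    | zero => exact monotone_const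
    | succ k ih =>
      intro a b hab
      rw [hs, hs]
      exact Finset.union_subset_union (ih hab) (hT1 _ _ hab)
  have hm2 : ∀ m, Monotone (fun k => st k m) := by
    intro m
    refine monotone_nat_of_le_succ fun k => ?_
    rw [hs]; exact Finset.subset_union_left
  refine ⟨fun k => g (st k k) k, fun k => st k k, ?_, fun k => hg1 _ _, fun k => hg2 _ _, ?_, ?_⟩
  · intro a b hab
    exact (hm1 a hab).trans (hm2 b hab)
  · intro j γ hγ
    obtain ⟨m, hm⟩ := hT3 _ _ γ hγ
    refine ⟨max (j + 1) m, ?_⟩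
    have h1 : γ ∈ st (j + 1) m := by rw [hs]; exact Finset.mem_union_right _ hm
    have h2 : γ ∈ st (j + 1) (max (j + 1) m) := hm1 (j + 1) (le_max_right (j + 1) m) h1
    exact hm2 (max (j + 1) m) (le_max_left (j + 1) m) h2
  · have : ∀ k m, ∀ γ ∈ st k m, ∃ j, γ ∈ supp (g (st j j) j) := by
      intro k
      induction k with
      | zero => intro m γ h; exact absurd h (by simp [st])
      | succ k ih =>
        intro m γ h
        rw [hs, Finset.mem_union] at h
        rcases h with h | h
        · exact ih m γ h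
        · exact ⟨k, hT2 _ _ m h⟩
    intro k; exact this k k

end Pool.Agent.H83.Closing
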