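import Mathlib

set_option autoImplicit false

namespace Pool.Agent.H83.ColCof

open Set Filter Topology

/-- the plane of pairs of naturals -/
def X : Type := ℕ × ℕ

instance : Countable X := inferInstanceAs (Countable (ℕ × ℕ))

/-- a point of `X` -/
def pt (n m : ℕ) : X := (n, m)

instance : TopologicalSpace X where
  IsOpen U := U = ∅ ∨ ∀ n, {m | pt n m ∉ U}.Finite
  isOpen_univ := Or.inr fun n => by simp
  isOpen_inter := by
    rintro U V (rfl | hU) (rfl | hV)
    · simp
    · simp
    · simp
    · refine Or.inr fun n => ((hU n).union (hV n)).subset fun m hm => ?_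
      by_contra h
      simp only [mem_union, mem_setOf_eq, not_or, not_not] at h
      exact hm h
  isOpen_sUnion := by
    intro S hS
    by_cases h : ∃ U ∈ S, U ≠ ∅
    · obtain ⟨U, hU, hne⟩ := h
      refine Or.inr fun n => (((hS U hU).resolve_left hne) n).subset fun m hm h' => ?_
      exact hm ⟨U, hU, h'⟩
    · push Not at h
      exact Or.inl (sUnion_eq_empty.2 h)

theorem isOpen_iff (U : Set X) : IsOpen U ↔ U = ∅ ∨ ∀ n, {m | pt n m ∉ U}.Finite := Iff.rfl

theorem closed_of_finite {A : Set X} (h : ∀ n, {m | pt n m ∈ A}.Finite) : IsClosed A :=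
  ⟨Or.inr fun n => by simpa using h n⟩

instance : T1Space X := ⟨fun x => closed_of_finite fun n => by
  refine (finite_singleton (Prod.snd x)).subset fun m hm => ?_
  simp only [mem_singleton_iff, mem_setOf_eq] at hm ⊢
  rw [← hm]; rfl⟩

theorem tendsto_col (n : ℕ) (f : ℕ → ℕ) (hf : Function.Injective f) (p : X) :
    Tendsto (fun k => pt n (f k)) atTop (𝓝 p) := by
  rw [tendsto_nhds]
  intro U hU hp
  have h := (hU.resolve_left (by rintro rfl; exact hp)) n
  have := (h.preimage hf.injOn).compl_mem_cofinite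
  rw [Nat.cofinite_eq_atTop] at this
  filter_upwards [this] with k hk
  simpa using hk

instance : FrechetUrysohnSpace X := by
  refine ⟨fun A p hp => ?_⟩
  by_cases h : ∀ n, {m | pt n m ∈ A}.Finite
  · rw [(closed_of_finite h).closure_eq] at hp
    exact subset_seqClosure hp
  · push Not at h
    obtain ⟨n, hn⟩ := h
    exact ⟨fun k => pt n (hn.natEmbedding _ k), fun k => (hn.natEmbedding _ k).2,
      tendsto_col n _ (Subtype.val_injective.comp (hn.natEmbedding _).injective) p⟩

/-- the columns -/
def col (n : ℕ) : Set X := range (pt n)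

theorem dense_col (n : ℕ) : Dense (col n) := fun p =>
  mem_closure_of_tendsto (tendsto_col n id Function.injective_id p)
    (Eventually.of_forall fun k => mem_range_self _)

theorem pt_inj {n m n' m' : ℕ} (h : pt n m = pt n' m') : n = n' ∧ m = m' := Prod.ext_iff.1 h

theorem finite_of_discrete {n : ℕ} {F : Set X} (hd : DiscreteTopology F) :
    {m | pt n m ∈ F}.Finite := by
  by_contra h
  have h : {m | pt n m ∈ F}.Infinite := h
  obtain ⟨m, hm⟩ := h.nonempty
  obtain ⟨U, hU, hU'⟩ := isOpen_induced_iff.1 (isOpen_discrete ({⟨pt n m, hm⟩} : Set F))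
  have hmU : pt n m ∈ U := by
    have : (⟨pt n m, hm⟩ : F) ∈ ((↑) : F → X) ⁻¹' U := by rw [hU']; rfl
    exact this
  have h1 := (hU.resolve_left (by rintro rfl; exact hmU)) n
  refine h ((h1.union (finite_singleton m)).subset fun k hk => ?_)
  by_cases hkU : pt n k ∈ U
  · right
    have : (⟨pt n k, hk⟩ : F) ∈ ((↑) : F → X) ⁻¹' U := hkU
    rw [hU'] at this
    exact (pt_inj (congrArg Subtype.val this)).2
  · exact Or.inl hkU

theorem not_dense (F : ℕ → Set X) (hF : ∀ n, F n ⊆ col n) (hd : ∀ n, DiscreteTopology (F n)) :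
    ¬ Dense (⋃ n, F n) := by
  have hfin : ∀ n, {m | pt n m ∈ ⋃ n, F n}.Finite := by
    intro n
    refine (finite_of_discrete (n := n) (hd n)).subset fun m hm => ?_
    obtain ⟨k, hk⟩ := mem_iUnion.1 hm
    obtain ⟨j, hj⟩ := hF k hk
    obtain ⟨rfl, rfl⟩ := pt_inj hj
    exact hk
  intro h
  have := h.closure_eq
  rw [(closed_of_finite hfin).closure_eq] at this
  have h0 := hfin 0
  rw [this] at h0
  exact infinite_univ (by simpa using h0)

end Pool.Agent.H83.ColCof
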