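import Pool.Agent.H83.CsDefs

namespace Pool.Agent.H83.Cs

open Ordinal

theorem cnf_cons (a : ℕ) (l : List ℕ) (h : l ≠ []) : cnf (a :: l) = ω * cnf l + a := by
  cases l with
  | nil => exact absurd rfl h
  | cons b l => rfl

theorem cnf_pos (l : List ℕ) (h : l ≠ []) : 0 < cnf l := by
  induction l with
  | nil => exact absurd rfl h
  | cons a l ih =>
    by_cases hl : l = []
    · subst hl
      exact lt_of_lt_of_le zero_lt_one le_add_self
    · rw [cnf_cons a l hl]
      exact lt_of_lt_of_le (mul_pos omega0_pos (ih hl)) le_self_add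

theorem step_lt {x y : Ordinal.{0}} (h : x < y) (a b : ℕ) : ω * x + a < ω * y + b := by
  have h1 : ω * x + a < ω * x + ω := by
    rw [add_lt_add_iff_left]; exact natCast_lt_omega0 a
  have h2 : ω * x + ω = ω * (x + 1) := by rw [mul_add_one]
  have h3 : ω * (x + 1) ≤ ω * y := by
    gcongr; exact Order.add_one_le_of_lt h
  exact (h1.trans_le (h2.le.trans h3)).trans_le le_self_add

theorem cnf_lt (l : List ℕ) : cnf l < ω ^ (l.length : Ordinal) := by
  induction l with
  | nil => simp [cnf]
  | cons a l ih =>
    by_cases hl : l = []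
    · subst hl
      simp only [cnf, List.length_singleton, Nat.cast_one, opow_one]
      exact_mod_cast natCast_lt_omega0 (a + 1)
    · rw [cnf_cons a l hl]
      have := step_lt ih a 0
      rw [Nat.cast_zero, add_zero] at this
      refine this.trans_eq ?_
      rw [List.length_cons, add_comm, Nat.cast_add, Nat.cast_one, opow_add, opow_one]

theorem div_mod (x : Ordinal.{0}) (a : ℕ) : (ω * x + a) / ω = x ∧ (ω * x + a) % ω = a := by
  constructor
  · rw [mul_add_div _ omega0_ne_zero, div_eq_zero_of_lt (natCast_lt_omega0 a), add_zero]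
  · rw [mul_add_mod_self, mod_eq_of_lt (natCast_lt_omega0 a)]

theorem cnf_form (a : ℕ) (l : List ℕ) : ∃ c : ℕ, cnf (a :: l) = ω * cnf l + c ∧
    (l = [] → c = a + 1) ∧ (l ≠ [] → c = a) := by
  by_cases hl : l = []
  · subst hl
    exact ⟨a + 1, by simp [cnf], fun _ => rfl, fun h => absurd rfl h⟩
  · exact ⟨a, cnf_cons a l hl, fun h => absurd h hl, fun _ => rfl⟩

theorem cnf_inj : Function.Injective cnf := by
  intro l
  induction l with
  | nil =>
    intro l' h
    by_contra hl
    exact (cnf_pos l' (Ne.symm hl)).ne h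
  | cons a l ih =>
    intro l' h
    cases l' with
    | nil => exact absurd h (cnf_pos _ (by simp)).ne'
    | cons b l' =>
      obtain ⟨c, h1, h2, h3⟩ := cnf_form a l
      obtain ⟨d, h4, h5, h6⟩ := cnf_form b l'
      rw [h1, h4] at h
      have e1 : cnf l = cnf l' := by rw [← (div_mod (cnf l) c).1, h, (div_mod _ _).1]
      have e2 : (c : Ordinal) = d := by rw [← (div_mod (cnf l) c).2, h, (div_mod _ _).2]
      have e3 : c = d := by exact_mod_cast e2
      have e4 := ih e1
      subst e4
      by_cases hl : l = []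
      · have := h2 hl; have := h5 hl
        have : a = b := by omega
        rw [this]
      · rw [← h3 hl, ← h6 hl, e3]

theorem cnf_surj (n : ℕ) : ∀ x : Ordinal.{0}, x < ω ^ (n : Ordinal) → ∃ l, cnf l = x := by
  induction n with
  | zero => intro x hx; exact ⟨[], by simpa [cnf, eq_comm] using hx⟩
  | succ n ih =>
    intro x hx
    have h1 : x / ω < ω ^ (n : Ordinal) := by
      rw [div_lt omega0_ne_zero]
      rwa [add_comm, Nat.cast_add, Nat.cast_one, opow_add, opow_one] at hx
    obtain ⟨l, hl⟩ := ih _ h1
    obtain ⟨c, hc⟩ := lt_omega0.1 (mod_lt x omega0_ne_zero)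
    have e := div_add_mod x ω
    rw [hc, ← hl] at e
    by_cases h : l = []
    · subst h
      cases c with
      | zero => exact ⟨[], by simpa [cnf] using e⟩
      | succ c => exact ⟨[c], by simpa [cnf] using e⟩
    · exact ⟨c :: l, by rw [cnf_cons c l h, e]⟩

theorem rk_bij : Set.BijOn rk Set.univ (Set.Iio (ω ^ ω)) := by
  refine ⟨fun m _ => ?_, fun m _ m' _ h => ?_, fun x hx => ?_⟩
  · exact (cnf_lt _).trans ((opow_lt_opow_iff_right one_lt_omega0).2 (natCast_lt_omega0 _))
  · exact (Denumerable.eqv (List ℕ)).symm.injective (cnf_inj h)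
  · obtain ⟨c, hc, h⟩ := (lt_opow_of_isSuccLimit omega0_ne_zero isSuccLimit_omega0).1 hx
    obtain ⟨n, rfl⟩ := lt_omega0.1 hc
    obtain ⟨l, hl⟩ := cnf_surj n x h
    exact ⟨Encodable.encode l, trivial, by simp [rk, hl]⟩

theorem cnf_lt_of (a : List ℕ) : ∀ (b : List ℕ) (p : ℕ), a.length = b.length →
    a.getD p 0 < b.getD p 0 → (∀ q, p < q → a.getD q 0 = b.getD q 0) → cnf a < cnf b := by
  induction a with
  | nil =>
    intro b p hl h _
    have : b = [] := List.length_eq_zero_iff.1 hl.symm
    subst this; simp at h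
  | cons x a ih =>
    intro b p hl h1 h2
    cases b with
    | nil => simp at hl
    | cons y b =>
      have hl' : a.length = b.length := by simpa using hl
      obtain ⟨c, e1, e2, e3⟩ := cnf_form x a
      obtain ⟨d, e4, e5, e6⟩ := cnf_form y b
      rw [e1, e4]
      cases p with
      | zero =>
        have hab : a = b := List.ext_getElem hl' fun i hi hi' => by
          have := h2 (i + 1) (by omega)
          simpa [List.getD_eq_getElem?_getD, hi, hi'] using this
        subst hab
        have hxy : x < y := by simpa using h1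
        rw [add_lt_add_iff_left]
        have : c < d := by
          by_cases h : a = []
          · rw [e2 h, e5 h]; omega
          · rw [e3 h, e6 h]; omega
        exact_mod_cast this
      | succ p =>
        exact step_lt (ih b p hl' (by simpa using h1)
          (fun q hq => by simpa using h2 (q + 1) (by omega))) _ _

/-! Cones. -/

def inC (k : ℕ) (σ : List (Option ℕ)) (u : List ℕ) : Bool :=
  (List.range k).all fun i => (σ.getD i none).elim true fun v => u.getD i 0 == v

def dim (k : ℕ) (σ : List (Option ℕ)) : ℕ :=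
  (List.range k).countP fun i => (σ.getD i none).isNone

def setc (k : ℕ) (σ : List (Option ℕ)) (i v : ℕ) : List (Option ℕ) :=
  (List.range k).map fun j => if j = i then some v else σ.getD j none

def split (k : ℕ) (σ : List (Option ℕ)) (u : List ℕ) : List (List (Option ℕ)) :=
  (List.range k).flatMap fun i =>
    bif (σ.getD i none).isNone then (List.range (u.getD i 0)).map fun v => setc k σ i v else []

def refine1 (k : ℕ) (u : List ℕ) (C : List (List (Option ℕ))) : List (List (Option ℕ)) :=
  C.flatMap fun σ => bif inC k σ u then split k σ u else [σ]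

def cov (k : ℕ) (P : List (List ℕ × List ℕ)) : List (List (Option ℕ)) :=
  P.foldr (fun p C => refine1 k p.1 C) [[]]

def cnt (k : ℕ) (C : List (List (Option ℕ))) (d : ℕ) : ℕ := C.countP fun σ => dim k σ == d

def val (k : ℕ) (P : List (List ℕ × List ℕ)) : List ℕ :=
  Encodable.encode (k, P) :: ((List.range (k + 1)).map (cnt k (cov k P)) ++ [0])

theorem inC_iff (k : ℕ) (σ : List (Option ℕ)) (u : List ℕ) :
    inC k σ u = true ↔ ∀ i < k, ∀ v, σ.getD i none = some v → u.getD i 0 = v := by
  simp only [inC, List.all_eq_true, List.mem_range]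
  refine forall_congr' fun i => imp_congr_right fun _ => ?_
  cases σ.getD i none <;> simp

theorem setc_getD (k : ℕ) (σ : List (Option ℕ)) (i v j : ℕ) (hj : j < k) :
    (setc k σ i v).getD j none = if j = i then some v else σ.getD j none := by
  simp [setc, List.getD_eq_getElem?_getD, hj]

theorem mem_split (k : ℕ) (σ : List (Option ℕ)) (u : List ℕ) (τ : List (Option ℕ)) :
    τ ∈ split k σ u ↔ ∃ i < k, σ.getD i none = none ∧ ∃ v < u.getD i 0, τ = setc k σ i v := by
  simp only [split, List.mem_flatMap, List.mem_range]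
  refine exists_congr fun i => and_congr_right fun _ => ?_
  cases h : σ.getD i none <;> simp [eq_comm]

theorem dim_setc (k : ℕ) (σ : List (Option ℕ)) (i v : ℕ) (hi : i < k) (h : σ.getD i none = none) :
    dim k (setc k σ i v) < dim k σ := by
  unfold dim
  rw [List.countP_eq_length_filter, List.countP_eq_length_filter,
    ← List.toFinset_card_of_nodup (List.nodup_range.filter _),
    ← List.toFinset_card_of_nodup (List.nodup_range.filter _)]
  refine Finset.card_lt_card ⟨fun j hj => ?_, fun hs => ?_⟩
  · simp only [List.mem_toFinset, List.mem_filter, List.mem_range] at hj ⊢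
    refine ⟨hj.1, ?_⟩
    have := hj.2
    rw [setc_getD k σ i v j hj.1] at this
    split_ifs at this with h'
    · simp at this
    · exact this
  · have := @hs i (by simp only [List.mem_toFinset, List.mem_filter, List.mem_range]; exact ⟨hi, by rw [h]; rfl⟩)
    simp only [List.mem_toFinset, List.mem_filter, List.mem_range] at this
    rw [setc_getD k σ i v i hi] at this
    simp at this

theorem dim_le (k : ℕ) (σ : List (Option ℕ)) : dim k σ ≤ k :=
  List.countP_le_length.trans (by simp)

theorem cover (k : ℕ) (P : List (List ℕ × List ℕ)) (y : List ℕ)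
    (h : ∀ p ∈ P, ∃ i < k, y.getD i 0 < p.1.getD i 0) : ∃ σ ∈ cov k P, inC k σ y = true := by
  induction P with
  | nil => exact ⟨[], by simp [cov], by simp [inC_iff]⟩
  | cons p P ih =>
    obtain ⟨σ, hσ, hy⟩ := ih fun q hq => h q (List.mem_cons_of_mem _ hq)
    obtain ⟨i, hi, hlt⟩ := h p List.mem_cons_self
    change ∃ σ ∈ refine1 k p.1 (cov k P), inC k σ y = true
    simp only [refine1, List.mem_flatMap]
    cases hc : inC k σ p.1 with
    | false => exact ⟨σ, ⟨σ, hσ, by simp [hc]⟩, hy⟩
    | true =>
      have hn : σ.getD i none = none := by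
        cases e : σ.getD i none with
        | none => rfl
        | some v =>
          have h1 := (inC_iff _ _ _).1 hc i hi v e
          have h2 := (inC_iff _ _ _).1 hy i hi v e
          omega
      refine ⟨setc k σ i (y.getD i 0), ⟨σ, hσ, ?_⟩, (inC_iff _ _ _).2 fun j hj v hv => ?_⟩
      · simp only [hc, cond_true]
        exact (mem_split _ _ _ _).2 ⟨i, hi, hn, _, hlt, rfl⟩
      · rw [setc_getD k σ i _ j hj] at hv
        split_ifs at hv with e
        · subst e; simpa using hv
        · exact (inC_iff _ _ _).1 hy j hj v hv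

theorem cnt_split (k : ℕ) (σ : List (Option ℕ)) (u : List ℕ) (d : ℕ) (h : dim k σ ≤ d) :
    cnt k (split k σ u) d = 0 := by
  unfold cnt
  rw [List.countP_eq_zero]
  intro τ hτ
  obtain ⟨i, hi, hn, v, _, rfl⟩ := (mem_split _ _ _ _).1 hτ
  have := dim_setc k σ i v hi hn
  simp; omega

theorem cnt_refine (k : ℕ) (u : List ℕ) (d : ℕ) (C : List (List (Option ℕ)))
    (h : ∀ σ ∈ C, inC k σ u = true → dim k σ ≤ d) :
    cnt k (refine1 k u C) d + (C.countP fun σ => inC k σ u && dim k σ == d) = cnt k C d := by
  induction C with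
  | nil => simp [cnt, refine1]
  | cons σ C ih =>
    have ih' := ih fun τ hτ => h τ (List.mem_cons_of_mem _ hτ)
    have e : cnt k (refine1 k u (σ :: C)) d =
        cnt k (bif inC k σ u then split k σ u else [σ]) d + cnt k (refine1 k u C) d := by
      simp [cnt, refine1]
    rw [e]
    cases hc : inC k σ u with
    | false =>
      simp only [cnt, cond_false, List.countP_cons, hc, Bool.false_and, List.countP_nil] at ih' ⊢
      simp only [Bool.false_eq_true, if_false]
      omega
    | true =>
      rw [cond_true, cnt_split k σ u d (h σ List.mem_cons_self hc)]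
      simp only [cnt, List.countP_cons, hc, Bool.true_and] at ih' ⊢
      omega

theorem val_getD (k : ℕ) (P : List (List ℕ × List ℕ)) (q : ℕ) :
    (val k P).getD (q + 1) 0 = if q ≤ k then cnt k (cov k P) q else 0 := by
  simp only [val, List.getD_cons_succ]
  split_ifs with h
  · rw [List.getD_append _ _ _ _ (by simp; omega)]
    simp [List.getD_eq_getElem?_getD, Nat.lt_succ_of_le h]
  · rw [List.getD_append_right _ _ _ _ (by simp; omega)]
    cases (q - ((List.range (k + 1)).map (cnt k (cov k P))).length) <;> simp

theorem val_lt (k : ℕ) (P : List (List ℕ × List ℕ)) (u v : List ℕ)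
    (h : ∀ p ∈ P, ∃ i < k, u.getD i 0 < p.1.getD i 0) :
    cnf (val k ((u, v) :: P)) < cnf (val k P) := by
  classical
  obtain ⟨σ0, h0, h0'⟩ := cover k P u h
  obtain ⟨σ, hσ, hmax⟩ := ((cov k P).toFinset.filter fun σ => inC k σ u = true).exists_max_image
    (dim k) ⟨σ0, by simp [h0, h0']⟩
  simp only [Finset.mem_filter, List.mem_toFinset] at hσ hmax
  have hc : cov k ((u, v) :: P) = refine1 k u (cov k P) := rfl
  refine cnf_lt_of _ _ (dim k σ + 1) (by simp [val]) ?_ fun q hq => ?_
  · rw [val_getD, val_getD, if_pos (dim_le k σ), if_pos (dim_le k σ), hc]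
    have := cnt_refine k u (dim k σ) (cov k P) fun τ h1 h2 => hmax τ ⟨h1, h2⟩
    have h2 : 0 < (cov k P).countP fun τ => inC k τ u && dim k τ == dim k σ :=
      List.countP_pos_iff.2 ⟨σ, hσ.1, by simp [hσ.2]⟩
    omega
  · obtain ⟨q, rfl⟩ : ∃ q', q = q' + 1 := ⟨q - 1, by omega⟩
    rw [val_getD, val_getD, hc]
    have := cnt_refine k u q (cov k P) fun τ h1 h2 => (hmax τ ⟨h1, h2⟩).trans (by omega)
    have h2 : ((cov k P).countP fun τ => inC k τ u && dim k τ == q) = 0 := by
      rw [List.countP_eq_zero]
      intro τ hτ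
      simp only [Bool.and_eq_true, beq_iff_eq, not_and]
      intro h1
      have := hmax τ ⟨hτ, h1⟩
      omega
    split_ifs <;> omega

end Pool.Agent.H83.Cs
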