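import Pool.Agent.H83.Cs1

namespace Pool.Agent.H83.Cs

open Ordinal

@[simp] theorem add_val {k : ℕ} (u v : FC k) : (u + v).1 = u.1 + v.1 := rfl

theorem fc_comm {k : ℕ} (u v : FC k) : u + v = v + u := Subtype.ext (add_comm _ _)

theorem vec_ofFn {k : ℕ} (x : Fin k → ℕ) : vec k (List.ofFn x) = x := by
  funext i
  simp [vec, List.getD_eq_getElem?_getD]

def Val {S : Type} [Add S] {k : ℕ} (φ : FC k →ₙ+ S) (P : List (List ℕ × List ℕ)) : Prop :=
  ∀ p ∈ P, ∃ (hu : vec k p.1 ≠ 0) (hv : vec k p.2 ≠ 0),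
    toLex (vec k p.2) < toLex (vec k p.1) ∧ φ ⟨_, hu⟩ = φ ⟨_, hv⟩

def Good (S : Type) [Add S] (k : ℕ) (P : List (List ℕ × List ℕ)) : Prop :=
  ∃ φ : FC k →ₙ+ S, Function.Surjective φ ∧ Val φ P

theorem lex_iff {k : ℕ} (x y : Fin k → ℕ) :
    toLex x < toLex y ↔ ∃ i, (∀ j < i, x j = y j) ∧ x i < y i := Iff.rfl

theorem Good.iso {S T : Type} [Add S] [Add T] (e : S ≃+ T) {k : ℕ} {P : List (List ℕ × List ℕ)}
    (h : Good S k P) : Good T k P := by
  obtain ⟨φ, h1, h2⟩ := h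
  refine ⟨(e : S →ₙ+ T).comp φ, e.surjective.comp h1, fun p hp => ?_⟩
  obtain ⟨hu, hv, h3, h4⟩ := h2 p hp
  exact ⟨hu, hv, h3, congrArg e h4⟩

theorem hom_shift {S : Type} [Add S] {k : ℕ} (φ : FC k →ₙ+ S) (u v x y : FC k) (t : Fin k → ℕ)
    (h : φ u = φ v) (hx : x.1 = u.1 + t) (hy : y.1 = v.1 + t) : φ x = φ y := by
  by_cases ht : t = 0
  · subst ht
    rw [add_zero] at hx hy
    rw [Subtype.ext hx, Subtype.ext hy, h]
  · have e1 : x = u + ⟨t, ht⟩ := Subtype.ext hx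
    have e2 : y = v + ⟨t, ht⟩ := Subtype.ext hy
    rw [e1, e2, map_add, map_add, h]

theorem normal {S T : Type} [Add S] [Add T] {k : ℕ} (φ : FC k →ₙ+ S) (ψ : FC k →ₙ+ T)
    (P : List (List ℕ × List ℕ)) (h1 : Val φ P) (h2 : Val ψ P) (z : Lex (Fin k → ℕ)) :
    ∀ x : FC k, toLex x.1 = z → ∃ y : FC k, φ x = φ y ∧ ψ x = ψ y ∧
      ∀ p ∈ P, ∃ i, y.1 i < vec k p.1 i := by
  induction z using WellFoundedLT.induction with
  | ind z ih =>
    intro x hx
    by_cases h : ∀ p ∈ P, ∃ i, x.1 i < vec k p.1 i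
    · exact ⟨x, rfl, rfl, h⟩
    push Not at h
    obtain ⟨p, hp, hle⟩ := h
    obtain ⟨hu, hv, h3, h4⟩ := h1 p hp
    obtain ⟨_, _, -, h5⟩ := h2 p hp
    set t : Fin k → ℕ := fun i => x.1 i - vec k p.1 i with ht
    have ex : x.1 = vec k p.1 + t := funext fun i => by
      have := hle i
      simp only [ht, Pi.add_apply]; omega
    let y : FC k := ⟨vec k p.2 + t, fun h => hv (funext fun i =>
      (Nat.add_eq_zero_iff.1 (congrFun h i)).1)⟩
    have hlt : toLex y.1 < z := by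
      rw [← hx, ex, lex_iff]
      obtain ⟨i, h6, h7⟩ := (lex_iff _ _).1 h3
      exact ⟨i, fun j hj => by simp [y, h6 j hj], by simpa [y] using h7⟩
    obtain ⟨w, e1, e2, e3⟩ := ih _ hlt y rfl
    exact ⟨w, (hom_shift φ _ _ x y t h4 ex rfl).trans e1,
      (hom_shift ψ _ _ x y t h5 ex rfl).trans e2, e3⟩

theorem inj_of_min {S : Type} [Add S] {k : ℕ} (φ : FC k →ₙ+ S) (hs : Function.Surjective φ)
    (P : List (List ℕ × List ℕ)) (h1 : Val φ P)
    (hm : ∀ Q, Good S k Q → cnf (val k P) ≤ cnf (val k Q)) (x y : FC k) (e : φ x = φ y)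
    (hx : ∀ p ∈ P, ∃ i, x.1 i < vec k p.1 i) : ¬ toLex y.1 < toLex x.1 := by
  intro h
  have hg : Good S k ((List.ofFn x.1, List.ofFn y.1) :: P) := by
    refine ⟨φ, hs, fun p hp => ?_⟩
    rcases List.mem_cons.1 hp with rfl | hp
    · refine ⟨by rw [vec_ofFn]; exact x.2, by rw [vec_ofFn]; exact y.2, by
        rw [vec_ofFn, vec_ofFn]; exact h, ?_⟩
      have a1 : ∀ h', (⟨vec k (List.ofFn x.1), h'⟩ : FC k) = x := fun _ => Subtype.ext (vec_ofFn _)
      have a2 : ∀ h', (⟨vec k (List.ofFn y.1), h'⟩ : FC k) = y := fun _ => Subtype.ext (vec_ofFn _)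
      rw [a1, a2, e]
    · exact h1 p hp
  refine (hm _ hg).not_gt (val_lt k P _ _ fun p hp => ?_)
  obtain ⟨i, hi⟩ := hx p hp
  refine ⟨i, i.2, ?_⟩
  have := congrFun (vec_ofFn x.1) i
  unfold vec at this hi
  rw [this]; exact hi

theorem ker_le {S T : Type} [Add S] [Add T] {k : ℕ} (φ : FC k →ₙ+ S) (ψ : FC k →ₙ+ T)
    (hs : Function.Surjective φ) (P : List (List ℕ × List ℕ)) (h1 : Val φ P) (h2 : Val ψ P)
    (hm : ∀ Q, Good S k Q → cnf (val k P) ≤ cnf (val k Q)) (x y : FC k) (e : φ x = φ y) :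
    ψ x = ψ y := by
  obtain ⟨x', a1, a2, a3⟩ := normal φ ψ P h1 h2 _ x rfl
  obtain ⟨y', b1, b2, b3⟩ := normal φ ψ P h1 h2 _ y rfl
  have e' : φ x' = φ y' := a1.symm.trans (e.trans b1)
  have c1 := inj_of_min φ hs P h1 hm x' y' e' a3
  have c2 := inj_of_min φ hs P h1 hm y' x' e'.symm b3
  have : x' = y' := Subtype.ext (toLex.injective (le_antisymm (not_lt.1 c1) (not_lt.1 c2)))
  rw [a2, b2, this]

theorem iso_of_ker {A S T : Type} [Add A] [Add S] [Add T] (φ : A →ₙ+ S) (ψ : A →ₙ+ T)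
    (hs : Function.Surjective φ) (ht : Function.Surjective ψ)
    (h : ∀ x y, φ x = φ y ↔ ψ x = ψ y) : Nonempty (S ≃+ T) := by
  have a := Function.surjInv_eq hs
  have b := Function.surjInv_eq ht
  refine ⟨⟨⟨fun s => ψ (Function.surjInv hs s), fun t => φ (Function.surjInv ht t),
    fun s => ?_, fun t => ?_⟩, fun s s' => ?_⟩⟩
  · exact ((h _ _).2 (b _)).trans (a s)
  · exact ((h _ _).1 (a _)).trans (b t)
  · change ψ _ = ψ _ + ψ _
    rw [← map_add, ← h, map_add, a, a, a]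

theorem iso_of_min {S T : Type} [Add S] [Add T] {k : ℕ} (P : List (List ℕ × List ℕ))
    (h1 : Good S k P) (h2 : Good T k P)
    (hm : ∀ Q, Good S k Q → cnf (val k P) ≤ cnf (val k Q))
    (hm' : ∀ Q, Good T k Q → cnf (val k P) ≤ cnf (val k Q)) : Nonempty (S ≃+ T) := by
  obtain ⟨φ, a1, a2⟩ := h1
  obtain ⟨ψ, b1, b2⟩ := h2
  exact iso_of_ker φ ψ a1 b1 fun x y =>
    ⟨ker_le φ ψ a1 P a2 b2 hm x y, ker_le ψ φ b1 P b2 a2 hm' x y⟩

/-! Generators. -/

def gen {k : ℕ} (i : Fin k) : FC k := ⟨Pi.single i 1, fun h => by simpa using congrFun h i⟩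

theorem fc_ind {k : ℕ} (p : FC k → Prop) (h1 : ∀ i, p (gen i)) (h2 : ∀ u v, p u → p v → p (u + v))
    (x : FC k) : p x := by
  suffices H : ∀ n, ∀ x : FC k, ∑ i, x.1 i = n → p x from H _ x rfl
  intro n
  induction n using Nat.strong_induction_on with
  | _ n ih =>
    intro x hx
    obtain ⟨i, hi⟩ : ∃ i, x.1 i ≠ 0 := by
      by_contra h
      push Not at h
      exact x.2 (funext h)
    set t : Fin k → ℕ := x.1 - Pi.single i 1 with ht
    have ex : x.1 = Pi.single i 1 + t := funext fun j => by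
      simp only [ht, Pi.add_apply, Pi.sub_apply, Pi.single_apply]
      split_ifs with h
      · subst h; omega
      · omega
    by_cases h0 : t = 0
    · rw [h0, add_zero] at ex
      have : x = gen i := Subtype.ext ex
      rw [this]; exact h1 i
    · have : x = gen i + ⟨t, h0⟩ := Subtype.ext ex
      rw [this]
      refine h2 _ _ (h1 i) (ih _ ?_ _ rfl)
      rw [← hx, ex]
      simp only [Pi.add_apply, Finset.sum_add_distrib, Finset.sum_pi_single', Finset.mem_univ,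
        if_true]
      omega

def ev {k k' : ℕ} (w : Fin k' → FC k) : FC k' →ₙ+ FC k where
  toFun u := ⟨∑ i, u.1 i • (w i).1, fun h => u.2 (funext fun i => by
    have h1 := (Finset.sum_eq_zero_iff.1 h) i (Finset.mem_univ i)
    rcases smul_eq_zero.1 h1 with h2 | h2
    · exact h2
    · exact absurd h2 (w i).2)⟩
  map_add' u v := Subtype.ext (by simp [add_smul, Finset.sum_add_distrib])

theorem ev_val {k k' : ℕ} (w : Fin k' → FC k) (u : FC k') :
    (ev w u).1 = ∑ i, u.1 i • (w i).1 := rfl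

theorem ev_gen {k k' : ℕ} (w : Fin k' → FC k) (i : Fin k') : ev w (gen i) = w i := by
  refine Subtype.ext ?_
  rw [ev_val]
  simp [gen, Pi.single_apply]

def mk (k e : ℕ) : FC k →ₙ+ CS k e where
  toFun u := (u : (addConGen (Eqn k e)).Quotient)
  map_add' _ _ := rfl

theorem mk_surj (k e : ℕ) : Function.Surjective (mk k e) := fun q =>
  Quotient.inductionOn' q fun u => ⟨u, rfl⟩

theorem mk_eq (k e : ℕ) (u v : FC k) : mk k e u = mk k e v ↔ addConGen (Eqn k e) u v :=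
  AddCon.eq _

theorem good_nil (k e : ℕ) : Good (CS k e) k [] := ⟨mk k e, mk_surj k e, fun _ h => by simp at h⟩

theorem hom_form {k e k' : ℕ} (φ : FC k' →ₙ+ CS k e) :
    ∃ w : Fin k' → FC k, ∀ u, φ u = mk k e (ev w u) := by
  choose w hw using fun i => mk_surj k e (φ (gen i))
  refine ⟨w, fc_ind _ (fun i => by rw [ev_gen, hw]) fun u v hu hv => ?_⟩
  rw [map_add, map_add, map_add, hu, hv]

theorem surj_of_gen {k e k' : ℕ} (φ : FC k' →ₙ+ CS k e) (h : ∀ i, ∃ u, φ u = mk k e (gen i)) :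
    Function.Surjective φ := by
  intro q
  obtain ⟨x, rfl⟩ := mk_surj k e q
  refine fc_ind (fun x => ∃ u, φ u = mk k e x) h (fun u v ⟨a, ha⟩ ⟨b, hb⟩ => ?_) x
  exact ⟨a + b, by rw [map_add, map_add, ha, hb]⟩

/-! The congruence as a closure of rewriting steps. -/

def Rw {k : ℕ} (a b x y : Fin k → ℕ) : Prop := ∀ i, a i ≤ x i ∧ y i + a i = x i + b i

def St (k e : ℕ) (x y : Fin k → ℕ) : Prop :=
  ∃ m ∈ W e, vec k (Denumerable.ofNat (List ℕ) m.unpair.1) ≠ 0 ∧
    vec k (Denumerable.ofNat (List ℕ) m.unpair.2) ≠ 0 ∧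
    (Rw (vec k (Denumerable.ofNat (List ℕ) m.unpair.1))
        (vec k (Denumerable.ofNat (List ℕ) m.unpair.2)) x y ∨
      Rw (vec k (Denumerable.ofNat (List ℕ) m.unpair.1))
        (vec k (Denumerable.ofNat (List ℕ) m.unpair.2)) y x)

theorem St.symm {k e : ℕ} {x y : Fin k → ℕ} (h : St k e x y) : St k e y x := by
  obtain ⟨m, h1, h2, h3, h4⟩ := h
  exact ⟨m, h1, h2, h3, h4.symm⟩

theorem Rw.shift {k : ℕ} {a b x y : Fin k → ℕ} (h : Rw a b x y) (t : Fin k → ℕ) :
    Rw a b (x + t) (y + t) := fun i => by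
  have := h i
  simp only [Pi.add_apply]; omega

theorem St.shift {k e : ℕ} {x y : Fin k → ℕ} (h : St k e x y) (t : Fin k → ℕ) :
    St k e (x + t) (y + t) := by
  obtain ⟨m, h1, h2, h3, h4⟩ := h
  exact ⟨m, h1, h2, h3, h4.imp (·.shift t) (·.shift t)⟩

theorem Rw.form {k : ℕ} {a b x y : Fin k → ℕ} (h : Rw a b x y) :
    ∃ t, x = a + t ∧ y = b + t :=
  ⟨x - a, funext fun i => by have := h i; simp only [Pi.add_apply, Pi.sub_apply]; omega,
    funext fun i => by have := h i; simp only [Pi.add_apply, Pi.sub_apply]; omega⟩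

theorem St.ne {k e : ℕ} {x y : Fin k → ℕ} (h : St k e x y) : x ≠ 0 := by
  obtain ⟨m, h1, h2, h3, h4 | h4⟩ := h
  · obtain ⟨t, rfl, -⟩ := h4.form
    exact fun h => h2 (funext fun i => (Nat.add_eq_zero_iff.1 (congrFun h i)).1)
  · obtain ⟨t, -, rfl⟩ := h4.form
    exact fun h => h3 (funext fun i => (Nat.add_eq_zero_iff.1 (congrFun h i)).1)

theorem St.mk_eq {k e : ℕ} {x y : FC k} (h : St k e x.1 y.1) : mk k e x = mk k e y := by
  obtain ⟨m, h1, h2, h3, h4⟩ := h
  have h0 : mk k e ⟨_, h2⟩ = mk k e ⟨_, h3⟩ :=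
    (Cs.mk_eq k e _ _).2 (AddConGen.Rel.of _ _ ⟨m, h1, rfl, rfl⟩)
  rcases h4 with h4 | h4
  · obtain ⟨t, e1, e2⟩ := h4.form
    exact hom_shift _ _ _ _ _ t h0 e1 e2
  · obtain ⟨t, e1, e2⟩ := h4.form
    exact (hom_shift _ _ _ _ _ t h0 e1 e2).symm

theorem rtg_shift {k e : ℕ} {x y : Fin k → ℕ} (h : Relation.ReflTransGen (St k e) x y)
    (t : Fin k → ℕ) : Relation.ReflTransGen (St k e) (x + t) (y + t) := by
  induction h with
  | refl => exact .refl
  | tail _ h ih => exact ih.tail (h.shift t)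

theorem rtg_symm {k e : ℕ} {x y : Fin k → ℕ} (h : Relation.ReflTransGen (St k e) x y) :
    Relation.ReflTransGen (St k e) y x := by
  induction h with
  | refl => exact .refl
  | tail _ h ih => exact .head h.symm ih

theorem mk_iff (k e : ℕ) (u v : FC k) :
    mk k e u = mk k e v ↔ Relation.ReflTransGen (St k e) u.1 v.1 := by
  constructor
  · rw [mk_eq]
    intro h
    induction h with
    | of x y h =>
      obtain ⟨m, h1, h2, h3⟩ := h
      refine .single ⟨m, h1, h2 ▸ x.2, h3 ▸ y.2, Or.inl fun i => ?_⟩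
      rw [← h2, ← h3]
      exact ⟨le_rfl, add_comm _ _⟩
    | refl => exact .refl
    | symm _ ih => exact rtg_symm ih
    | trans _ _ ih ih' => exact ih.trans ih'
    | @add a b c d _ _ ih ih' =>
      refine (rtg_shift ih c.1).trans ?_
      have := rtg_shift ih' b.1
      rwa [add_comm c.1, add_comm d.1] at this
  · obtain ⟨v, hv⟩ := v
    intro h
    change Relation.ReflTransGen (St k e) u.1 v at h
    induction h with
    | refl => rfl
    | tail _ h ih => exact (ih h.ne).trans (St.mk_eq (x := ⟨_, h.ne⟩) (y := ⟨_, hv⟩) h)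

theorem chain_iff (k e : ℕ) (x y : List ℕ) :
    Relation.ReflTransGen (St k e) (vec k x) (vec k y) ↔ ∃ l : List (List ℕ),
      (∀ p ∈ (x :: l).zip l, St k e (vec k p.1) (vec k p.2)) ∧
        vec k (l.getLast?.getD x) = vec k y := by
  constructor
  · intro h
    generalize ha : vec k x = a at h
    induction h using Relation.ReflTransGen.head_induction_on generalizing x with
    | refl => exact ⟨[], by simp, by simpa using ha⟩
    | @head a c h _ ih =>
      obtain ⟨l, h1, h2⟩ := ih (List.ofFn c) (vec_ofFn c)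
      refine ⟨List.ofFn c :: l, fun p hp => ?_, ?_⟩
      · rw [List.zip_cons_cons] at hp
        rcases List.mem_cons.1 hp with rfl | hp
        · simpa [vec_ofFn, ha] using h
        · exact h1 p hp
      · rw [List.getLast?_cons]; exact h2
  · rintro ⟨l, h1, h2⟩
    induction l generalizing x with
    | nil => simp at h2; rw [h2]
    | cons z l ih =>
      rw [List.zip_cons_cons] at h1
      refine .head (h1 (x, z) List.mem_cons_self) (ih z (fun p hp => h1 p
        (List.mem_cons_of_mem _ hp)) ?_)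
      rw [List.getLast?_cons] at h2; exact h2

end Pool.Agent.H83.Cs
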