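import Pool.Agent.H83.Cs2
import Pool.Agent.H37.RE

namespace Pool.Agent.H83.Cs

open Ordinal Pool.Agent.H37 Nat.Partrec

def vnz (k : ℕ) (a : List ℕ) : Bool := (List.range k).any fun i => a.getD i 0 != 0

def veq (k : ℕ) (a b : List ℕ) : Bool := (List.range k).all fun i => a.getD i 0 == b.getD i 0

def vlt (k : ℕ) (a b : List ℕ) : Bool :=
  (List.range k).any fun i => veq i a b && decide (a.getD i 0 < b.getD i 0)

def vrw (k : ℕ) (a b x y : List ℕ) : Bool :=
  (List.range k).all fun i => decide (a.getD i 0 ≤ x.getD i 0) &&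
    (y.getD i 0 + a.getD i 0 == x.getD i 0 + b.getD i 0)

def veval (k k' : ℕ) (ws : List (List ℕ)) (u : List ℕ) : List ℕ :=
  (List.range k).map fun j => ((List.range k').map fun i => u.getD i 0 * (ws.getD i []).getD j 0).sum

def unit (k j : ℕ) : List ℕ := (List.range k).map fun i => bif i == j then 1 else 0

theorem vnz_iff (k : ℕ) (a : List ℕ) : vnz k a = true ↔ vec k a ≠ 0 := by
  simp only [vnz, List.any_eq_true, List.mem_range, bne_iff_ne, ne_eq, funext_iff, vec,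
    Pi.zero_apply, not_forall]
  exact ⟨fun ⟨i, h1, h2⟩ => ⟨⟨i, h1⟩, h2⟩, fun ⟨i, h⟩ => ⟨i, i.2, h⟩⟩

theorem veq_iff' (k : ℕ) (a b : List ℕ) : veq k a b = true ↔ ∀ i < k, a.getD i 0 = b.getD i 0 := by
  simp only [veq, List.all_eq_true, List.mem_range, beq_iff_eq]

theorem veq_iff (k : ℕ) (a b : List ℕ) : veq k a b = true ↔ vec k a = vec k b := by
  rw [veq_iff', funext_iff]
  exact ⟨fun h i => h i i.2, fun h i hi => h ⟨i, hi⟩⟩

theorem vlt_iff (k : ℕ) (a b : List ℕ) :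
    vlt k a b = true ↔ toLex (vec k a) < toLex (vec k b) := by
  rw [lex_iff]
  simp only [vlt, List.any_eq_true, List.mem_range, Bool.and_eq_true, veq_iff', decide_eq_true_eq]
  exact ⟨fun ⟨i, h1, h2, h3⟩ => ⟨⟨i, h1⟩, fun j hj => h2 j hj, h3⟩,
    fun ⟨i, h2, h3⟩ => ⟨i, i.2, fun j hj => h2 ⟨j, hj.trans i.2⟩ hj, h3⟩⟩

theorem vrw_iff (k : ℕ) (a b x y : List ℕ) :
    vrw k a b x y = true ↔ Rw (vec k a) (vec k b) (vec k x) (vec k y) := by
  simp only [vrw, List.all_eq_true, List.mem_range, Bool.and_eq_true, decide_eq_true_eq, beq_iff_eq]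
  exact ⟨fun h i => h i i.2, fun h i hi => h ⟨i, hi⟩⟩

theorem vec_unit (k : ℕ) (j : Fin k) : vec k (unit k j) = (gen j).1 := by
  funext i
  by_cases h : i = j
  · subst h; simp [vec, unit, gen, List.getD_eq_getElem?_getD]
  · have : (i : ℕ) ≠ j := fun e => h (Fin.ext e)
    have h2 : ((i : ℕ) == (j : ℕ)) = false := by simpa using this
    simp [vec, unit, gen, List.getD_eq_getElem?_getD, h, h2]

theorem vec_veval (k k' : ℕ) (ws : List (List ℕ)) (u : List ℕ) :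
    vec k (veval k k' ws u) = ∑ i : Fin k', vec k' u i • vec k (ws.getD i []) := by
  funext j
  have : vec k (veval k k' ws u) j =
      ((List.range k').map fun i => u.getD i 0 * (ws.getD i []).getD j 0).sum := by
    simp [vec, veval, List.getD_eq_getElem?_getD]
  rw [this, Finset.sum_apply]
  exact Finset.sum_range fun i => u.getD i 0 * (ws.getD i []).getD j 0

def StL (q : (ℕ × ℕ) × List ℕ × List ℕ) : Prop :=
  St q.1.1 q.1.2 (vec q.1.1 q.2.1) (vec q.1.1 q.2.2)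

theorem re_ex {α β : Type} [Primcodable α] [Primcodable β] {p : α × β → Prop} (hp : REPred p) :
    REPred fun a => ∃ b, p (a, b) := re_exists (p := fun a b => p (a, b)) hp

theorem W_re : REPred fun q : ℕ × ℕ => q.2 ∈ W q.1 := by
  refine re_of_nat (fun q s => (H37.ev q.1 q.2 s).isSome) (by fun_prop) fun q => ?_
  simp only [W, Set.mem_setOf_eq, Part.dom_iff_mem, ev_iff, Option.isSome_iff_exists]
  exact exists_comm

theorem StL_re : REPred StL := by
  have h1 : REPred fun q : ((ℕ × ℕ) × List ℕ × List ℕ) × ℕ => q.2 ∈ W q.1.1.2 :=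
    REPred.comp' W_re (g := fun q : ((ℕ × ℕ) × List ℕ × List ℕ) × ℕ => (q.1.1.2, q.2)) (by fun_prop)
  have h2 : REPred fun q : ((ℕ × ℕ) × List ℕ × List ℕ) × ℕ =>
      (vnz q.1.1.1 (Denumerable.ofNat (List ℕ) q.2.unpair.1) &&
        (vnz q.1.1.1 (Denumerable.ofNat (List ℕ) q.2.unpair.2) &&
        (vrw q.1.1.1 (Denumerable.ofNat (List ℕ) q.2.unpair.1)
          (Denumerable.ofNat (List ℕ) q.2.unpair.2) q.1.2.1 q.1.2.2 ||
        vrw q.1.1.1 (Denumerable.ofNat (List ℕ) q.2.unpair.1)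
          (Denumerable.ofNat (List ℕ) q.2.unpair.2) q.1.2.2 q.1.2.1))) = true :=
    re_of_bool _ (by unfold vnz vrw; fun_prop) fun _ => Iff.rfl
  refine (re_ex (re_and h1 h2)).of_eq fun q => ?_
  simp only [Bool.and_eq_true, Bool.or_eq_true, vnz_iff, vrw_iff]
  rfl

def CL (q : (ℕ × ℕ) × List ℕ × List ℕ) : Prop :=
  Relation.ReflTransGen (St q.1.1 q.1.2) (vec q.1.1 q.2.1) (vec q.1.1 q.2.2)

theorem CL_re : REPred CL := by
  have h1 : REPred fun q : ((ℕ × ℕ) × List ℕ × List ℕ) × List (List ℕ) =>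
      ∀ p ∈ (q.1.2.1 :: q.2).zip q.2, StL (q.1.1, p) :=
    re_forall_mem (p := fun (q : ((ℕ × ℕ) × List ℕ × List ℕ) × List (List ℕ)) p => StL (q.1.1, p))
      (REPred.comp' StL_re (g := fun q : (((ℕ × ℕ) × List ℕ × List ℕ) × List (List ℕ)) ×
        List ℕ × List ℕ => (q.1.1.1, q.2)) (by fun_prop)) (by fun_prop)
  have h2 : REPred fun q : ((ℕ × ℕ) × List ℕ × List ℕ) × List (List ℕ) =>
      veq q.1.1.1 (q.2.getLast?.getD q.1.2.1) q.1.2.2 = true :=
    re_of_bool _ (by unfold veq; fun_prop) fun _ => Iff.rfl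
  refine (re_ex (re_and h1 h2)).of_eq fun q => ?_
  simp only [veq_iff, CL, chain_iff]
  rfl

theorem good_iff (k e k' : ℕ) (P : List (List ℕ × List ℕ)) : Good (CS k e) k' P ↔
    ∃ ws : List (List ℕ), (∀ i ∈ List.range k', vnz k (ws.getD i []) = true) ∧
      (∀ j ∈ List.range k, ∃ z : List ℕ, vnz k' z = true ∧
        CL ((k, e), veval k k' ws z, unit k j)) ∧
      ∀ p ∈ P, (vnz k' p.1 && (vnz k' p.2 && vlt k' p.2 p.1)) = true ∧
        CL ((k, e), veval k k' ws p.1, veval k k' ws p.2) := by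
  simp only [Bool.and_eq_true, vnz_iff, vlt_iff, List.mem_range, CL, vec_veval]
  constructor
  · rintro ⟨φ, h1, h2⟩
    obtain ⟨w, hw⟩ := hom_form φ
    have e1 : ∀ i : Fin k', vec k ((List.ofFn fun i => List.ofFn (w i).1).getD i []) = (w i).1 := by
      intro i
      simp [List.getD_eq_getElem?_getD, vec_ofFn]
    refine ⟨List.ofFn fun i => List.ofFn (w i).1, fun i hi => ?_, fun j hj => ?_, fun p hp => ?_⟩
    · rw [e1 ⟨i, hi⟩]; exact (w _).2
    · obtain ⟨u, hu⟩ := h1 (mk k e (gen ⟨j, hj⟩))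
      refine ⟨List.ofFn u.1, by rw [vec_ofFn]; exact u.2, ?_⟩
      rw [hw, mk_iff, ev_val] at hu
      simp only [e1, vec_ofFn]
      rw [vec_unit k ⟨j, hj⟩]; exact hu
    · obtain ⟨hu, hv, h3, h4⟩ := h2 p hp
      refine ⟨⟨hu, hv, h3⟩, ?_⟩
      rw [hw, hw, mk_iff, ev_val, ev_val] at h4
      simp only [e1]; exact h4
  · rintro ⟨ws, h1, h2, h3⟩
    let w : Fin k' → FC k := fun i => ⟨vec k (ws.getD i []), h1 i i.2⟩
    refine ⟨(mk k e).comp (ev w), surj_of_gen _ fun j => ?_, fun p hp => ?_⟩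
    · obtain ⟨z, hz, h⟩ := h2 j j.2
      refine ⟨⟨_, hz⟩, (mk_iff k e _ _).2 ?_⟩
      rw [vec_unit] at h; exact h
    · obtain ⟨⟨hu, hv, h4⟩, h5⟩ := h3 p hp
      exact ⟨hu, hv, h4, (mk_iff k e _ _).2 h5⟩

abbrev GD : Type := (ℕ × ℕ) × ℕ × List (List ℕ × List ℕ)

theorem good_re : REPred fun q : GD => Good (CS q.1.1 q.1.2) q.2.1 q.2.2 := by
  have h1 : REPred fun q : GD × List (List ℕ) =>
      ∀ i ∈ List.range q.1.2.1, vnz q.1.1.1 (q.2.getD i []) = true :=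
    re_forall_mem (p := fun (q : GD × List (List ℕ)) i => vnz q.1.1.1 (q.2.getD i []) = true)
      (re_of_bool _ (by unfold vnz; fun_prop) fun _ => Iff.rfl) (by fun_prop)
  have h2 : REPred fun q : GD × List (List ℕ) => ∀ j ∈ List.range q.1.1.1, ∃ z : List ℕ,
      vnz q.1.2.1 z = true ∧ CL ((q.1.1.1, q.1.1.2), veval q.1.1.1 q.1.2.1 q.2 z, unit q.1.1.1 j) := by
    refine re_forall_mem (p := fun (q : GD × List (List ℕ)) j => ∃ z : List ℕ,
      vnz q.1.2.1 z = true ∧ CL ((q.1.1.1, q.1.1.2), veval q.1.1.1 q.1.2.1 q.2 z, unit q.1.1.1 j))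
      ?_ (by fun_prop)
    refine re_exists (p := fun (q : (GD × List (List ℕ)) × ℕ) (z : List ℕ) =>
      vnz q.1.1.2.1 z = true ∧
        CL ((q.1.1.1.1, q.1.1.1.2), veval q.1.1.1.1 q.1.1.2.1 q.1.2 z, unit q.1.1.1.1 q.2)) ?_
    refine re_and (re_of_bool _ (by unfold vnz; fun_prop) fun _ => Iff.rfl) ?_
    exact REPred.comp' CL_re (by unfold veval unit; fun_prop)
  have h3 : REPred fun q : GD × List (List ℕ) => ∀ p ∈ q.1.2.2,
      (vnz q.1.2.1 p.1 && (vnz q.1.2.1 p.2 && vlt q.1.2.1 p.2 p.1)) = true ∧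
      CL ((q.1.1.1, q.1.1.2), veval q.1.1.1 q.1.2.1 q.2 p.1, veval q.1.1.1 q.1.2.1 q.2 p.2) := by
    refine re_forall_mem (p := fun (q : GD × List (List ℕ)) (p : List ℕ × List ℕ) =>
      (vnz q.1.2.1 p.1 && (vnz q.1.2.1 p.2 && vlt q.1.2.1 p.2 p.1)) = true ∧
      CL ((q.1.1.1, q.1.1.2), veval q.1.1.1 q.1.2.1 q.2 p.1, veval q.1.1.1 q.1.2.1 q.2 p.2))
      ?_ (by fun_prop)
    refine re_and (re_of_bool _ (by unfold vnz vlt veq; fun_prop) fun _ => Iff.rfl) ?_
    exact REPred.comp' CL_re (by unfold veval; fun_prop)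
  refine (re_ex (re_and h1 (re_and h2 h3))).of_eq fun q => ?_
  rw [good_iff]

theorem val_ci : CI ∅ fun q : ℕ × List (List ℕ × List ℕ) => val q.1 q.2 := by
  unfold val cnt cov refine1 split setc dim inC
  fun_prop

def Tg (a m : ℕ) : Prop := ∃ d : ℕ × List (List ℕ × List ℕ),
  Good (CS (a.unpair.1 + 1) a.unpair.2) d.1 d.2 ∧ Encodable.encode (val d.1 d.2) = m

theorem Tg_re : REPred fun q : ℕ × ℕ => Tg q.1 q.2 := by
  refine re_exists (p := fun (q : ℕ × ℕ) (d : ℕ × List (List ℕ × List ℕ)) =>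
    Good (CS (q.1.unpair.1 + 1) q.1.unpair.2) d.1 d.2 ∧ Encodable.encode (val d.1 d.2) = q.2) ?_
  refine re_and (REPred.comp' good_re (g := fun q : (ℕ × ℕ) × ℕ × List (List ℕ × List ℕ) =>
    ((q.1.1.unpair.1 + 1, q.1.1.unpair.2), q.2)) (by fun_prop)) ?_
  refine re_of_bool (fun q => Encodable.encode (val q.2.1 q.2.2) == q.1.2) ?_ fun _ => by simp
  have := val_ci.comp (g := fun q : (ℕ × ℕ) × ℕ × List (List ℕ × List ℕ) => q.2) (by fun_prop)
  fun_prop

theorem exists_f : ∃ f : ℕ → ℕ, Computable f ∧ ∀ a m, m ∈ W (f a) ↔ Tg a m := by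
  have h : Partrec fun n : ℕ =>
      (Part.assert (Tg n.unpair.1 n.unpair.2) fun _ => Part.some ()).map fun _ => 0 :=
    Partrec.map (REPred.comp' Tg_re (g := fun n : ℕ => n.unpair) (by fun_prop))
      (Computable.const 0).to₂
  obtain ⟨c, hc⟩ := Code.exists_code.1 (Partrec.nat_iff.1 h)
  refine ⟨fun a => Encodable.encode (c.curry a), CI.computable (by fun_prop), fun a m => ?_⟩
  simp [W, Code.eval_curry, hc, Part.assert]

theorem main : ∃ f : ℕ → ℕ, Computable f ∧ ∀ a b, IsoCS a b ↔ EMin (f a) (f b) := by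
  obtain ⟨f, hf, h⟩ := exists_f
  have hne : ∀ a, (W (f a)).Nonempty := fun a => ⟨_, (h a _).2 ⟨(_, []), good_nil _ _, rfl⟩⟩
  refine ⟨f, hf, fun a b => ⟨fun ⟨e⟩ => Or.inr ?_, ?_⟩⟩
  · have hW : W (f a) = W (f b) := by
      ext m
      rw [h, h]
      exact exists_congr fun d => and_congr_left' ⟨Good.iso e, Good.iso e.symm⟩
    obtain ⟨m, hm, hmin⟩ := (InvImage.wf rk (wellFounded_lt (α := Ordinal.{0}))).has_min _ (hne a)
    refine ⟨m, hm, hW ▸ hm, fun x hx => not_lt.1 (hmin x hx), fun x hx => not_lt.1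
      (hmin x (hW ▸ hx))⟩
  · rintro (⟨h1, -⟩ | ⟨m, h1, h2, h3, h4⟩)
    · exact absurd h1 (hne a).ne_empty
    · obtain ⟨d, g1, rfl⟩ := (h _ _).1 h1
      obtain ⟨d', g2, e⟩ := (h _ _).1 h2
      have e' : d' = d := by
        have := Encodable.encode_injective e
        simp only [val, List.cons.injEq] at this
        exact Encodable.encode_injective this.1
      subst e'
      refine iso_of_min d'.2 g1 g2 (fun Q hQ => ?_) fun Q hQ => ?_
      · simpa [rk] using h3 _ ((h _ _).2 ⟨(d'.1, Q), hQ, rfl⟩)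
      · simpa [rk] using h4 _ ((h _ _).2 ⟨(d'.1, Q), hQ, rfl⟩)

end Pool.Agent.H83.Cs
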