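import Mathlib

/-! C.e. presentations of commutative semigroups and the relation `E_min(ω^ω)`. -/

namespace Pool.Agent.H83.Cs

open Ordinal

/-- The `e`-th c.e. set. -/
def W (e : ℕ) : Set ℕ := {x | ((Denumerable.ofNat Nat.Partrec.Code e).eval x).Dom}

/-- The free commutative semigroup on `k` generators: nonzero exponent vectors. -/
def FC (k : ℕ) : Type := {u : Fin k → ℕ // u ≠ 0}

instance (k : ℕ) : Add (FC k) :=
  ⟨fun u v => ⟨u.1 + v.1, fun h => u.2 (funext fun i => (Nat.add_eq_zero_iff.1 (congrFun h i)).1)⟩⟩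

/-- The exponent vector given by a list. -/
def vec (k : ℕ) (l : List ℕ) : Fin k → ℕ := fun i => l.getD i 0

/-- The equations listed in `W e`: `m` codes the pair of words whose exponent lists are coded by
the two components of `m` (codes with an empty side impose nothing). -/
def Eqn (k e : ℕ) (u v : FC k) : Prop :=
  ∃ m ∈ W e, u.1 = vec k (Denumerable.ofNat (List ℕ) m.unpair.1) ∧
    v.1 = vec k (Denumerable.ofNat (List ℕ) m.unpair.2)

/-- The commutative semigroup `⟨x_0, ..., x_{k-1} | W_e⟩`. -/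
abbrev CS (k e : ℕ) : Type := (addConGen (Eqn k e)).Quotient

/-- Isomorphism of presented semigroups; `a` codes `k = a.unpair.1 + 1` generators and the
c.e. set of index `a.unpair.2`. -/
def IsoCS (a b : ℕ) : Prop :=
  Nonempty (CS (a.unpair.1 + 1) a.unpair.2 ≃+ CS (b.unpair.1 + 1) b.unpair.2)

/-- Cantor normal form: `[a_0, ..., a_n]` denotes `ω^n (a_n + 1) + ... + ω a_1 + a_0`. -/
noncomputable def cnf : List ℕ → Ordinal.{0}
  | [] => 0
  | [a] => (a : Ordinal) + 1
  | a :: b :: l => ω * cnf (b :: l) + a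

/-- The ordinal below `ω^ω` coded by `m`. -/
noncomputable def rk (m : ℕ) : Ordinal.{0} := cnf (Denumerable.ofNat (List ℕ) m)

/-- `E_min(ω^ω)`: both sets empty, or both nonempty with the same least element. -/
def EMin (e i : ℕ) : Prop :=
  (W e = ∅ ∧ W i = ∅) ∨
    ∃ m, m ∈ W e ∧ m ∈ W i ∧ (∀ x ∈ W e, rk m ≤ rk x) ∧ ∀ x ∈ W i, rk m ≤ rk x

end Pool.Agent.H83.Cs
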