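import Mathlib

namespace Pool.Agent.H83.DivTop

open Filter Topology nonZeroDivisors Pointwise

/-- a submonoid of the group `Z^2 ⋊ Z` -/
@[ext] structure Mo where
  x : ℤ
  y : ℤ
  n : ℤ
  hx : 0 ≤ x
  hy : 0 ≤ y
  hxn : 0 ≤ x + n
  hyn : 0 ≤ y + n

instance : Mul Mo := ⟨fun g h =>
  ⟨g.x + (if g.n % 2 = 0 then h.x else h.y), g.y + (if g.n % 2 = 0 then h.y else h.x), g.n + h.n,
    by have := g.hx; have := h.hx; have := h.hy; split_ifs <;> omega,
    by have := g.hy; have := h.hx; have := h.hy; split_ifs <;> omega,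
    by have := g.hxn; have := h.hxn; have := h.hyn; split_ifs <;> omega,
    by have := g.hyn; have := h.hxn; have := h.hyn; split_ifs <;> omega⟩⟩

instance : One Mo := ⟨⟨0, 0, 0, le_rfl, le_rfl, le_rfl, le_rfl⟩⟩

@[simp] theorem mul_x (g h : Mo) : (g * h).x = g.x + (if g.n % 2 = 0 then h.x else h.y) := rfl
@[simp] theorem mul_y (g h : Mo) : (g * h).y = g.y + (if g.n % 2 = 0 then h.y else h.x) := rfl
@[simp] theorem mul_n (g h : Mo) : (g * h).n = g.n + h.n := rfl
@[simp] theorem one_x : (1 : Mo).x = 0 := rfl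
@[simp] theorem one_y : (1 : Mo).y = 0 := rfl
@[simp] theorem one_n : (1 : Mo).n = 0 := rfl

instance : Monoid Mo where
  mul_assoc a b c := by
    ext <;> simp only [mul_x, mul_y, mul_n] <;> (try split_ifs) <;> omega
  one_mul a := by ext <;> simp
  mul_one a := by ext <;> simp

instance : IsLeftCancelMul Mo where
  mul_left_cancel a b c h := by
    have h1 := congrArg Mo.x h
    have h2 := congrArg Mo.y h
    have h3 := congrArg Mo.n h
    simp only [mul_x, mul_y, mul_n] at h1 h2 h3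
    ext <;> split_ifs at h1 h2 <;> omega

noncomputable instance : LinearOrder Mo :=
  LinearOrder.lift' (fun g => toLex (g.n, toLex (g.x, g.y))) fun a b h => by
    simp only [EmbeddingLike.apply_eq_iff_eq, Prod.mk.injEq] at h
    ext <;> omega

theorem lt_iff (a b : Mo) :
    a < b ↔ a.n < b.n ∨ a.n = b.n ∧ (a.x < b.x ∨ a.x = b.x ∧ a.y < b.y) := by
  show toLex (a.n, toLex (a.x, a.y)) < toLex (b.n, toLex (b.x, b.y)) ↔ _
  simp [Prod.Lex.lt_iff]

instance : MulRightStrictMono Mo where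
  elim g a b h := by
    show a * g < b * g
    change a < b at h
    rw [lt_iff] at h ⊢
    simp only [mul_x, mul_y, mul_n]
    split_ifs <;> omega

theorem folner (S : Finset Mo) : ∃ F T : Finset Mo, T.card < 2 * F.card ∧
    ∀ f ∈ F, ∀ s ∈ S, f * s ∈ T := by
  classical
  obtain ⟨C, hC⟩ : ∃ C : ℕ, ∀ s ∈ S, s.x ≤ C ∧ s.y ≤ C ∧ s.n ≤ C ∧ -s.n ≤ C := by
    refine ⟨S.sup fun s => s.x.natAbs + s.y.natAbs + s.n.natAbs, fun s hs => ?_⟩
    have := Finset.le_sup (f := fun s : Mo => s.x.natAbs + s.y.natAbs + s.n.natAbs) hs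
    omega
  let e : ℕ × ℕ × ℕ → Mo := fun p => ⟨p.1, p.2.1, p.2.2, by omega, by omega, by omega, by omega⟩
  have he : Function.Injective e := fun p q h => by
    have h1 := congrArg Mo.x h
    have h2 := congrArg Mo.y h
    have h3 := congrArg Mo.n h
    simp only [e, Nat.cast_inj] at h1 h2 h3
    exact Prod.ext h1 (Prod.ext h2 h3)
  let B := Finset.range (10 * C + 1)
  let F := (B ×ˢ B ×ˢ B).image e
  refine ⟨F, F * S, ?_, fun f hf s hs => Finset.mul_mem_mul hf hs⟩
  have hF : F.card = (10 * C + 1) * ((10 * C + 1) * (10 * C + 1)) := by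
    simp [F, B, Finset.card_image_of_injective _ he]
  let B' : Finset ℤ := Finset.Ico (-(C : ℤ)) (11 * C + 1)
  have hB' : B'.card = 12 * C + 1 := by simp only [B', Int.card_Ico]; omega
  have hT : (F * S).card ≤ (B' ×ˢ B' ×ˢ B').card := by
    refine Finset.card_le_card_of_injOn (fun g => (g.x, g.y, g.n)) (fun g hg => ?_)
      (fun a _ b _ h => ?_)
    · obtain ⟨f, hf, s, hs, rfl⟩ := Finset.mem_mul.1 (Finset.mem_coe.1 hg)
      obtain ⟨p, hp, rfl⟩ := Finset.mem_image.1 hf
      simp only [B, Finset.mem_product, Finset.mem_range] at hp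
      have := hC s hs
      have := s.hx
      have := s.hy
      simp only [B', e, Finset.coe_product, Set.mem_prod, Finset.mem_coe, Finset.mem_Ico,
        mul_x, mul_y, mul_n]
      split_ifs <;> omega
    · simp only [Prod.mk.injEq] at h
      ext <;> omega
  rw [Finset.card_product, Finset.card_product, hB'] at hT
  rw [hF]
  nlinarith [Nat.zero_le C, Nat.zero_le (C * C), Nat.zero_le (C * C * C)]

variable (D : Type) [DivisionRing D]

theorem ore (r : MonoidAlgebra D Mo) (s : (MonoidAlgebra D Mo)⁰) :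
    ∃ (r' : MonoidAlgebra D Mo) (s' : (MonoidAlgebra D Mo)⁰), s' * r = r' * s := by
  classical
  obtain ⟨F, T, hc, hFT⟩ := folner (r.coeff.support ∪ s.1.coeff.support)
  let V := MonoidAlgebra.supported D D (F : Set Mo)
  let W := MonoidAlgebra.supported D D (T : Set Mo)
  have eV := MonoidAlgebra.supportedEquivFinsupp (R := D) (S := D) (F : Set Mo)
  have eW := MonoidAlgebra.supportedEquivFinsupp (R := D) (S := D) (T : Set Mo)
  have : Module.Finite D V := Module.Finite.equiv eV.symm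
  have : Module.Finite D W := Module.Finite.equiv eW.symm
  have hV : Module.finrank D V = F.card := by rw [eV.finrank_eq]; simp
  have hW : Module.finrank D W = T.card := by rw [eW.finrank_eq]; simp
  have hmul : ∀ (p : V) (z : MonoidAlgebra D Mo),
      z.coeff.support ⊆ r.coeff.support ∪ s.1.coeff.support → p.1 * z ∈ W := fun p z hz g hg => by
    obtain ⟨f, hf, u, hu, rfl⟩ :=
      Finset.mem_mul.1 (MonoidAlgebra.support_coeff_mul_subset _ _ (Finset.mem_coe.1 hg))
    exact hFT f (p.2 hf) u (hz hu)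
  let Φ : (V × V) →ₗ[D] W :=
    { toFun := fun p => ⟨p.1.1 * r - p.2.1 * s.1, sub_mem (hmul _ _ Finset.subset_union_left)
        (hmul _ _ Finset.subset_union_right)⟩
      map_add' := fun p q => by
        apply Subtype.ext
        simp only [Prod.fst_add, Prod.snd_add, Submodule.coe_add, add_mul]; abel
      map_smul' := fun c p => by
        apply Subtype.ext
        simp [smul_sub, smul_mul_assoc] }
  have hk := Φ.ker_ne_bot_of_finrank_lt (by rw [Module.finrank_prod, hV, hW]; omega)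
  obtain ⟨p, hp, hp0⟩ := Submodule.exists_mem_ne_zero_of_ne_bot hk
  have h1 : p.1.1 * r = p.2.1 * s.1 := sub_eq_zero.1 (congrArg Subtype.val hp)
  refine ⟨p.2.1, ⟨p.1.1, mem_nonZeroDivisors_of_ne_zero fun h => hp0 ?_⟩, h1⟩
  rw [h, zero_mul] at h1
  have h2 := (mul_eq_zero.1 h1.symm).resolve_right (nonZeroDivisors.coe_ne_zero s)
  exact Prod.ext (Subtype.ext h) (Subtype.ext h2)

def eps : Mo →* D where
  toFun g := if g.y = 0 ∧ g.n = 0 then 1 else 0
  map_one' := by simp
  map_mul' g h := by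
    have := g.hx; have := g.hy; have := g.hxn; have := g.hyn
    have := h.hx; have := h.hy; have := h.hxn; have := h.hyn
    by_cases h1 : g.y = 0 ∧ g.n = 0
    · by_cases h2 : h.y = 0 ∧ h.n = 0
      · simp [h1, h2]
      · rw [if_pos h1, if_neg h2, one_mul, if_neg]
        simp only [mul_y, mul_n]; split_ifs <;> omega
    · rw [if_neg h1, zero_mul, if_neg]
      simp only [mul_y, mul_n]; split_ifs <;> omega

/-- what one step of the tower provides -/
def Step (D E : Type) [DivisionRing D] [DivisionRing E] (ι : D →+* E) : Prop :=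
  ∃ (I : AddSubgroup E) (a b t : E), (∀ d, ∀ z ∈ I, ι d * z ∈ I ∧ z * ι d ∈ I) ∧
    (∀ z ∈ I, ∀ w ∈ I, z * w ∈ I) ∧ 1 ∉ I ∧ a ∈ I ∧ b ∈ I ∧ t - 1 ∈ I ∧ a * t⁻¹ * b = t

theorem step : ∃ (E : Type) (_ : DivisionRing E) (ι : D →+* E), Step D E ι := by
  let A := MonoidAlgebra D Mo
  obtain ⟨inst⟩ := (OreLocalization.nonempty_oreSet_iff_of_noZeroDivisors (S := A⁰)).2 (ore D)
  let j : A →+* OreLocalization A⁰ A := OreLocalization.numeratorRingHom
  have hj : Function.Injective j := OreLocalization.numeratorHom_inj inf_le_left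
  let ε : A →+* D := MonoidAlgebra.liftNCRingHom (RingHom.id D) (eps D) fun x g => by
    show Commute x (if _ then 1 else 0)
    split_ifs
    · exact Commute.one_right x
    · exact Commute.zero_right x
  let t0 : Mo := ⟨1, 0, 0, by omega, by omega, by omega, by omega⟩
  let t1 : Mo := ⟨0, 1, 0, by omega, by omega, by omega, by omega⟩
  let a : Mo := ⟨0, 0, 1, by omega, by omega, by omega, by omega⟩
  let b : Mo := ⟨1, 1, -1, by omega, by omega, by omega, by omega⟩
  let u : Mo →* OreLocalization A⁰ A := j.toMonoidHom.comp (MonoidAlgebra.of D Mo)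
  have hu : ∀ g, u g ≠ 0 := fun g h => by
    have : (MonoidAlgebra.of D Mo g : A) = 0 := hj (h.trans j.map_zero.symm)
    simp at this
  have hε : ∀ g, ε (MonoidAlgebra.of D Mo g) = if g.y = 0 ∧ g.n = 0 then 1 else 0 := fun g =>
    (MonoidAlgebra.liftNCRingHom_single _ _ _ g 1).trans (one_mul _)
  refine ⟨OreLocalization A⁰ A, inferInstance, j.comp MonoidAlgebra.singleOneRingHom,
    ε.toAddMonoidHom.ker.map j.toAddMonoidHom, u a, u b, u t0, ?_, ?_, ?_, ?_, ?_, ?_, ?_⟩
  · rintro d _ ⟨z, hz, rfl⟩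
    have hz' : ε z = 0 := hz
    exact ⟨⟨_ * z, by show ε _ = 0; rw [map_mul, hz', mul_zero], j.map_mul _ _⟩,
      ⟨z * _, by show ε _ = 0; rw [map_mul, hz', zero_mul], j.map_mul _ _⟩⟩
  · rintro _ ⟨z, hz, rfl⟩ _ ⟨w, -, rfl⟩
    have hz' : ε z = 0 := hz
    exact ⟨z * w, by show ε _ = 0; rw [map_mul, hz', zero_mul], j.map_mul _ _⟩
  · rintro ⟨z, hz, h⟩
    have hz' : ε z = 0 := hz
    have : z = 1 := hj (h.trans j.map_one.symm)
    rw [this, map_one] at hz'
    exact one_ne_zero hz'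
  · exact ⟨MonoidAlgebra.of D Mo a, by show ε _ = 0; rw [hε]; simp [a], rfl⟩
  · exact ⟨MonoidAlgebra.of D Mo b, by show ε _ = 0; rw [hε]; simp [b], rfl⟩
  · refine ⟨MonoidAlgebra.of D Mo t0 - 1, ?_, ?_⟩
    · show ε _ = 0
      rw [map_sub, map_one, hε]; simp [t0]
    · show j _ = _
      rw [map_sub, map_one]; rfl
  · have h1 : u a * u t0 = u t1 * u a := by
      rw [← map_mul, ← map_mul]; congr 1
    have h2 : u a * u b = u t1 * u t0 := by
      rw [← map_mul, ← map_mul]; congr 1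
    have h3 : u a * (u t0)⁻¹ = (u t1)⁻¹ * u a := by
      rw [eq_inv_mul_iff_mul_eq₀ (hu t1), ← mul_assoc, ← h1, mul_inv_cancel_right₀ (hu t0)]
    rw [h3, mul_assoc, h2, inv_mul_cancel_left₀ (hu t1)]

/-- the topological part -/
theorem abstract (K : Type) [DivisionRing K] (S : ℕ → AddSubgroup K) (J : ℕ → AddSubgroup K)
    (a b t : ℕ → K) (hS : Monotone S) (hcov : ∀ x, ∃ n, x ∈ S n) (hJS : ∀ n, J n ≤ S (n + 1))
    (h1 : ∀ n, ∀ x ∈ S n, ∀ z ∈ J n, x * z ∈ J n ∧ z * x ∈ J n)
    (h2 : ∀ n, ∀ z ∈ J n, ∀ w ∈ J n, z * w ∈ J n) (h3 : ∀ n, ∀ x ∈ S n, x ∈ J n → x = 0)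
    (ha : ∀ n, a n ∈ J n) (hb : ∀ n, b n ∈ J n) (ht : ∀ n, t n - 1 ∈ J n)
    (hr : ∀ n, a n * (t n)⁻¹ * b n = t n) :
    ∃ τ : TopologicalSpace K, @IsTopologicalRing K τ _ ∧ @T2Space K τ ∧
      ¬ ∃ σ : TopologicalSpace K, τ ≤ σ ∧ @IsTopologicalRing K σ _ ∧ @T2Space K σ ∧
        ∀ x : K, x ≠ 0 → @ContinuousAt K K σ σ (fun y => y⁻¹) x := by
  let W : ℕ → AddSubgroup K := fun m => ⨆ i : {i // m ≤ i}, J i
  have hJW : ∀ m i, m ≤ i → J i ≤ W m := fun m i h => le_iSup (fun i : {i // m ≤ i} => J i) ⟨i, h⟩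
  have hanti : Antitone W := fun m m' h => iSup_le fun i => hJW _ _ (h.trans i.2)
  have hl : ∀ x m, (∀ i, m ≤ i → ∀ z ∈ J i, x * z ∈ W m) → ∀ z ∈ W m, x * z ∈ W m :=
    fun x m h z hz => (iSup_le (a := (W m).comap (AddMonoidHom.mulLeft x))
      fun (i : {i // m ≤ i}) z hz => h i i.2 z hz) hz
  have hrr : ∀ x m, (∀ i, m ≤ i → ∀ z ∈ J i, z * x ∈ W m) → ∀ z ∈ W m, z * x ∈ W m :=
    fun x m h z hz => (iSup_le (a := (W m).comap (AddMonoidHom.mulRight x))
      fun (i : {i // m ≤ i}) z hz => h i i.2 z hz) hz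
  have hB : RingSubgroupsBasis W := by
    refine ⟨fun i j => ⟨max i j, le_inf (hanti (le_max_left _ _)) (hanti (le_max_right _ _))⟩,
      fun m => ⟨m, ?_⟩, fun x m => ?_, fun x m => ?_⟩
    · rintro _ ⟨z, hz, w, hw, rfl⟩
      refine hrr w m (fun i hi z hz => hl z m (fun j hj w hw => ?_) w hw) z hz
      rcases lt_trichotomy i j with h | rfl | h
      · exact hJW m j hj (h1 j z (hS h (hJS i hz)) w hw).1
      · exact hJW m i hi (h2 i z hz w hw)
      · exact hJW m i hi (h1 i w (hS h (hJS j hw)) z hz).2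
    · obtain ⟨n, hn⟩ := hcov x
      exact ⟨max m n, fun z hz => hanti (le_max_left m n) (hl x _ (fun i hi w hw =>
        hJW _ i hi (h1 i x (hS ((le_max_right m n).trans hi) hn) w hw).1) z hz)⟩
    · obtain ⟨n, hn⟩ := hcov x
      exact ⟨max m n, fun z hz => hanti (le_max_left m n) (hrr x _ (fun i hi w hw =>
        hJW _ i hi (h1 i x (hS ((le_max_right m n).trans hi) hn) w hw).2) z hz)⟩
  have hsep : ∀ n, ∀ x ∈ S n, x ∈ W n → x = 0 := by
    intro n
    let V : ℕ → AddSubgroup K := fun N => Nat.rec ⊥ (fun k U => U ⊔ J (n + k)) N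
    have hV : Monotone V := monotone_nat_of_le_succ fun k => le_sup_left
    have hVS : ∀ N, V N ≤ S (n + N) := fun N => by
      induction N with
      | zero => exact bot_le
      | succ k ih => exact sup_le (ih.trans (hS (by omega))) (hJS _)
    have hWV : W n ≤ ⨆ N, V N := iSup_le fun i => by
      obtain ⟨k, hk⟩ := Nat.exists_eq_add_of_le i.2
      refine le_trans ?_ (le_iSup V (k + 1))
      rw [hk]; exact le_sup_right
    have key : ∀ N, ∀ x ∈ S n, x ∈ V N → x = 0 := fun N => by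
      induction N with
      | zero => exact fun x _ hx => hx
      | succ k ih =>
        intro x hx hxV
        obtain ⟨y, hy, z, hz, rfl⟩ := AddSubgroup.mem_sup.1 hxV
        have hz0 : z = 0 := h3 _ z (by
          simpa using sub_mem (hS (Nat.le_add_right n k) hx) (hVS k hy)) hz
        subst hz0
        rw [add_zero] at hx ⊢
        exact ih y hx hy
    intro x hx hxW
    obtain ⟨N, hN⟩ := (AddSubgroup.mem_iSup_of_directed hV.directed_le).1 (hWV hxW)
    exact key N x hx hN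
  letI τ := hB.topology
  have hτ : IsTopologicalRing K := hB.toRingFilterBasis.isTopologicalRing
  refine ⟨τ, hτ, ?_, ?_⟩
  · refine IsTopologicalAddGroup.t2Space_of_zero_sep fun x hx => ?_
    obtain ⟨n, hn⟩ := hcov x
    exact ⟨W n, hB.hasBasis_nhds_zero.mem_of_mem trivial, fun h => hx (hsep n x hn h)⟩
  · rintro ⟨σ, hle, hσ, hT2, hinv⟩
    have lim : ∀ c : ℕ → K, (∀ n, c n ∈ J n) → Tendsto c atTop (@nhds K σ 0) := fun c hc => by
      refine Tendsto.mono_right ?_ (nhds_mono hle)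
      rw [hB.hasBasis_nhds_zero.tendsto_right_iff]
      exact fun m _ => eventually_atTop.2 ⟨m, fun i hi => hJW m i hi (hc i)⟩
    have la := lim a ha
    have lb := lim b hb
    have lt := lim _ ht
    clear lim
    letI := σ
    have lt' : Tendsto t atTop (𝓝 1) := by simpa using lt.add_const 1
    have li : Tendsto (fun n => (t n)⁻¹) atTop (𝓝 1⁻¹) := (hinv 1 one_ne_zero).tendsto.comp lt'
    have := (la.mul li).mul lb
    simp only [hr, mul_zero] at this
    exact one_ne_zero (tendsto_nhds_unique lt' this)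

/-- a bundled division ring -/
structure Bu where
  c : Type
  [i : DivisionRing c]

attribute [instance] Bu.i

noncomputable def nxt (B : Bu) : Bu := @Bu.mk (step B.c).choose (step B.c).choose_spec.choose

noncomputable def inc (B : Bu) : B.c →+* (nxt B).c := (step B.c).choose_spec.choose_spec.choose

theorem inc_spec (B : Bu) : Step B.c (nxt B).c (inc B) :=
  (step B.c).choose_spec.choose_spec.choose_spec

noncomputable def tw : ℕ → Bu := fun n => Nat.rec ⟨ℚ⟩ (fun _ B => nxt B) n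

noncomputable def tr (i j : ℕ) (h : i ≤ j) : (tw i).c →+* (tw j).c :=
  Nat.leRec (motive := fun j _ => (tw i).c →+* (tw j).c) (RingHom.id _)
    (fun k _ g => (inc (tw k)).comp g) h

theorem tr_self (i : ℕ) : tr i i le_rfl = RingHom.id _ := Nat.leRec_self _ _

theorem tr_succ (i j : ℕ) (h : i ≤ j) :
    tr i (j + 1) (h.trans (Nat.le_succ j)) = (inc (tw j)).comp (tr i j h) :=
  Nat.leRec_succ _ _ h

instance : DirectedSystem (fun n => (tw n).c) (fun i j h => tr i j h) where
  map_self i x := by rw [tr_self]; rfl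
  map_map k j i hij hjk x := by
    induction k, hjk using Nat.le_induction with
    | base => rw [tr_self]; rfl
    | succ k hk ih => rw [tr_succ j k hk, tr_succ i k (hij.trans hk)]; exact congrArg _ ih

theorem main : ∃ (K : Type) (_ : DivisionRing K) (τ : TopologicalSpace K),
    @IsTopologicalRing K τ _ ∧ @T2Space K τ ∧
      ¬ ∃ σ : TopologicalSpace K, τ ≤ σ ∧ @IsTopologicalRing K σ _ ∧ @T2Space K σ ∧
        ∀ x : K, x ≠ 0 → @ContinuousAt K K σ σ (fun y => y⁻¹) x := by
  let K := DirectLimit (fun n => (tw n).c) tr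
  let φ : ∀ n, (tw n).c →+* K := DirectLimit.Ring.of (fun n => (tw n).c) tr
  have hφ : ∀ i j h x, φ j (tr i j h x) = φ i x := fun i j h x =>
    DirectLimit.Ring.of_f (G := fun n => (tw n).c) (f := tr) h x
  have hφ1 : ∀ i x, φ (i + 1) (inc (tw i) x) = φ i x := fun i x => by
    rw [← hφ i (i + 1) (Nat.le_succ i) x, tr_succ i i le_rfl, tr_self]; rfl
  choose I a b t h1 h2 h3 ha hb ht hr using fun n => inc_spec (tw n)
  refine ⟨K, inferInstance, abstract K (fun n => (φ n).toAddMonoidHom.range)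
    (fun n => (I n).map (φ (n + 1)).toAddMonoidHom) (fun n => φ (n + 1) (a n))
    (fun n => φ (n + 1) (b n)) (fun n => φ (n + 1) (t n)) ?_ ?_ ?_ ?_ ?_ ?_
    (fun n => ⟨_, ha n, rfl⟩) (fun n => ⟨_, hb n, rfl⟩) (fun n => ⟨_, ht n, ?_⟩) fun n => ?_⟩
  · rintro i j h _ ⟨x, rfl⟩
    exact ⟨tr i j h x, hφ i j h x⟩
  · intro x
    induction x using DirectLimit.induction with
    | _ i x => exact ⟨i, x, rfl⟩
  · rintro n _ ⟨z, -, rfl⟩
    exact ⟨z, rfl⟩
  · rintro n _ ⟨x, rfl⟩ _ ⟨z, hz, rfl⟩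
    refine ⟨⟨_, (h1 n x z hz).1, ?_⟩, ⟨_, (h1 n x z hz).2, ?_⟩⟩
    · exact ((φ (n + 1)).map_mul _ _).trans (by rw [hφ1]; rfl)
    · exact ((φ (n + 1)).map_mul _ _).trans (by rw [hφ1]; rfl)
  · rintro n _ ⟨z, hz, rfl⟩ _ ⟨w, hw, rfl⟩
    exact ⟨_, h2 n z hz w hw, (φ (n + 1)).map_mul _ _⟩
  · rintro n _ ⟨x, rfl⟩ ⟨z, hz, h⟩
    have e : z = inc (tw n) x := (φ (n + 1)).injective (h.trans (hφ1 n x).symm)
    by_contra hx
    have hx0 : x ≠ 0 := fun h0 => hx (by rw [h0]; exact map_zero _)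
    have := (h1 n x⁻¹ z hz).1
    rw [e, ← map_mul, inv_mul_cancel₀ hx0, map_one] at this
    exact h3 n this
  · exact ((φ (n + 1)).map_sub _ _).trans (congrArg _ (φ (n + 1)).map_one)
  · rw [← map_inv₀, ← map_mul, ← map_mul]; exact congrArg _ (hr n)

end Pool.Agent.H83.DivTop
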