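import Mathlib

set_option autoImplicit false

namespace Pool.Agent.H83.EUId
open Finset Filter Topology
open scoped Classical

noncomputable def ms (s : Finset ℕ) (w : ℕ → ℝ) (A : Set ℕ) : ℝ := ∑ i ∈ s with i ∈ A, w i

variable {s : Finset ℕ} {w : ℕ → ℝ} {A B : Set ℕ}

theorem ms_nonneg (hw : ∀ i, 0 ≤ w i) : 0 ≤ ms s w A := sum_nonneg fun i _ => hw i

theorem ms_le (hw : ∀ i, 0 ≤ w i) {t : Finset ℕ} (h : ∀ i ∈ s, i ∈ A → i ∈ t ∧ i ∈ B) :
    ms s w A ≤ ms t w B :=
  sum_le_sum_of_subset_of_nonneg (fun i hi => mem_filter.2 (h i (mem_filter.1 hi).1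
    (mem_filter.1 hi).2)) fun i _ _ => hw i

theorem ms_biUnion (hw : ∀ i, 0 ≤ w i) (M : Finset ℕ) (C : ℕ → Set ℕ)
    (h : ∀ i ∈ s, i ∈ A → ∃ m ∈ M, i ∈ C m) : ms s w A ≤ ∑ m ∈ M, ms s w (C m) := by
  simp only [ms, sum_filter]
  rw [sum_comm]
  refine sum_le_sum fun i hi => ?_
  split_ifs with hA
  · obtain ⟨m, hm, hC⟩ := h i hi hA
    refine le_trans ?_ (single_le_sum (f := fun m => if i ∈ C m then w i else 0)
      (fun m _ => by split_ifs; exacts [hw i, le_rfl]) hm)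
    simp [hC]
  · exact sum_nonneg fun m _ => by split_ifs; exacts [hw i, le_rfl]

theorem far {s : ℕ → Finset ℕ} (hs : ∀ i, {j | i ∈ s j}.Finite) (N : ℕ) :
    ∀ᶠ j in atTop, ∀ i ∈ s j, N ≤ i := by
  rw [← Nat.cofinite_eq_atTop]
  refine (((Set.finite_lt_nat N).biUnion fun i _ => hs i).subset fun j hj => ?_ :
    {j | ¬ ∀ i ∈ s j, N ≤ i}.Finite)
  simp only [Set.mem_setOf_eq, not_forall, not_le] at hj
  obtain ⟨i, h1, h2⟩ := hj
  exact Set.mem_biUnion h2 h1

theorem unif (s t : ℕ → Finset ℕ) (a b : ℕ → ℕ → ℝ) (ha : ∀ j i, 0 ≤ a j i)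
    (hb : ∀ j i, 0 ≤ b j i) (hs : ∀ i, {j | i ∈ s j}.Finite)
    (h : ∀ A, Tendsto (fun j => ms (s j) (a j) A) atTop (𝓝 0) →
      Tendsto (fun j => ms (t j) (b j) A) atTop (𝓝 0)) {ε : ℝ} (hε : 0 < ε) :
    ∃ δ > 0, ∃ N, ∀ A : Set ℕ, (∀ i ∈ A, N ≤ i) → (∀ j, ms (s j) (a j) A ≤ δ) →
      ∀ k, ms (t k) (b k) A ≤ ε := by
  by_contra hc
  push Not at hc
  choose C h1 h2 k h3 using fun m : ℕ => hc ((1 / 2) ^ m) (by positivity) m
  let D : ℕ → Set ℕ := fun m => C m ∩ t (k m)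
  have e1 : Tendsto (fun j => ms (s j) (a j) (⋃ m, D m)) atTop (𝓝 0) := by
    rw [Metric.tendsto_nhds]
    intro η hη
    obtain ⟨M, hM⟩ := exists_pow_lt_of_lt_one (half_pos hη) (by norm_num : (1 / 2 : ℝ) < 1)
    filter_upwards [far hs (((range M).biUnion fun m => t (k m)).sup id + 1)] with j hj
    rw [Real.dist_eq, sub_zero, abs_of_nonneg (ms_nonneg (ha j))]
    refine lt_of_le_of_lt (ms_biUnion (ha j) (Ico M ((s j).sup id + M + 1)) C fun i hi hD => ?_) ?_
    · obtain ⟨m, hm1, hm2⟩ := Set.mem_iUnion.1 hD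
      refine ⟨m, mem_Ico.2 ⟨not_lt.1 fun hlt => ?_, ?_⟩, hm1⟩
      · have := le_sup (f := id) (mem_biUnion.2 ⟨m, mem_range.2 hlt, hm2⟩ :
          i ∈ (range M).biUnion fun m => t (k m))
        have := hj i hi
        simp only [id] at *
        omega
      · have := h1 m i hm1
        have := le_sup (f := id) hi
        simp only [id] at *
        omega
    · refine lt_of_le_of_lt ((sum_le_sum fun m _ => h2 m j).trans
        (geom_sum_Ico_le_of_lt_one (by norm_num) (by norm_num))) ?_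
      rw [div_lt_iff₀ (by norm_num)]
      linarith
  obtain ⟨K, hK⟩ := eventually_atTop.1 ((h _ e1).eventually (gt_mem_nhds hε))
  let m := ((range K).biUnion t).sup id + 1
  have h4 := h3 m
  by_cases hk : K ≤ k m
  · have := ms_le (s := t (k m)) (A := C m) (B := ⋃ m, D m) (hb (k m))
      fun i hi hC => ⟨hi, Set.mem_iUnion.2 ⟨m, hC, hi⟩⟩
    linarith [hK _ hk]
  · have : ms (t (k m)) (b (k m)) (C m) = 0 := sum_eq_zero fun i hi => by
      have h5 := le_sup (f := id) (mem_biUnion.2 ⟨k m, mem_range.2 (not_le.1 hk),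
        (mem_filter.1 hi).1⟩ : i ∈ (range K).biUnion t)
      have h6 := h1 m i (mem_filter.1 hi).2
      simp only [id, m] at *
      omega
    linarith

noncomputable def lev (f : ℕ → ℝ) (i : ℕ) : ℕ := Nat.log 2 ⌊∑ k ∈ range (i + 1), f k⌋₊

variable {f : ℕ → ℝ}

theorem lt_lev (i : ℕ) : ∑ k ∈ range (i + 1), f k < 2 ^ (lev f i + 1) := by
  have h := Nat.lt_pow_succ_log_self (b := 2) (by norm_num) ⌊∑ k ∈ range (i + 1), f k⌋₊
  exact (Nat.lt_floor_add_one _).trans_le (by exact_mod_cast h)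

theorem le_lev {i : ℕ} (h : 1 ≤ ∑ k ∈ range (i + 1), f k) :
    (2 : ℝ) ^ lev f i ≤ ∑ k ∈ range (i + 1), f k := by
  have h1 := Nat.pow_log_le_self 2 (Nat.floor_pos.2 h).ne'
  exact le_trans (by exact_mod_cast h1) (Nat.floor_le (by linarith))

theorem lev_mono (hf : ∀ i, 0 ≤ f i) : Monotone (lev f) := fun _ _ h =>
  Nat.log_mono_right (Nat.floor_mono (sum_le_sum_of_subset_of_nonneg
    (range_mono (Nat.succ_le_succ h)) fun i _ _ => hf i))

theorem fin_fib {g : ℕ → ℕ} (hg : Tendsto g atTop atTop) (k : ℕ) : {x | g x = k}.Finite := by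
  obtain ⟨N, hN⟩ := eventually_atTop.1 (hg.eventually_gt_atTop k)
  exact (Set.finite_lt_nat N).subset fun x hx => not_le.1 fun h => (hN x h).ne' hx

theorem tendsto_log : Tendsto (Nat.log 2) atTop atTop :=
  tendsto_atTop_atTop.2 fun k => ⟨2 ^ k, fun _ h => Nat.le_log_of_pow_le (by norm_num) h⟩

theorem exists_blocks (hF : Tendsto (fun n => ∑ i ∈ range n, f i) atTop atTop) :
    ∃ s : ℕ → Finset ℕ, ∀ i j, i ∈ s j ↔ lev f i = j :=
  ⟨fun j => (fin_fib (tendsto_log.comp (tendsto_nat_floor_atTop.comp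
    (hF.comp (tendsto_add_atTop_nat 1)))) j).toFinset, fun i j => by
      rw [Set.Finite.mem_toFinset]; rfl⟩

theorem block_le (hf : ∀ i, 0 ≤ f i) {s : ℕ → Finset ℕ} (hs : ∀ i j, i ∈ s j ↔ lev f i = j)
    {j : ℕ} (h : (s j).Nonempty) : ∃ i ∈ s j, ms (s j) f A ≤ ms (range (i + 1)) f A ∧
      ∑ k ∈ range (i + 1), f k < 2 ^ (j + 1) :=
  ⟨_, max'_mem _ h, ms_le hf fun i hi hA => ⟨mem_range.2 (Nat.lt_succ_of_le (le_max' _ _ hi)), hA⟩,
    by simpa only [(hs _ _).1 (max'_mem _ h)] using lt_lev (f := f) ((s j).max' h)⟩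

theorem ms_div (c : ℝ) : ms s (fun i => w i / c) A = ms s w A / c := by
  simp only [ms, sum_div]

theorem mass (hf : ∀ i, 0 ≤ f i) {s : ℕ → Finset ℕ} (hs : ∀ i j, i ∈ s j ↔ lev f i = j) (j : ℕ) :
    ∑ i ∈ s j, f i / 2 ^ j ≤ 2 := by
  rcases (s j).eq_empty_or_nonempty with h | h
  · simp [h]
  obtain ⟨i, -, h1, h2⟩ := block_le (A := Set.univ) hf hs h
  simp only [ms, Set.mem_univ, filter_true] at h1
  rw [← sum_div, div_le_iff₀ (by positivity)]
  rw [pow_succ] at h2
  linarith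

theorem eu_iff (hf : ∀ i, 0 ≤ f i) (hF : Tendsto (fun n => ∑ i ∈ range n, f i) atTop atTop)
    {s : ℕ → Finset ℕ} (hs : ∀ i j, i ∈ s j ↔ lev f i = j) :
    Tendsto (fun n => ms (range n) f A / ∑ i ∈ range n, f i) atTop (𝓝 0) ↔
      Tendsto (fun j => ms (s j) (fun i => f i / 2 ^ j) A) atTop (𝓝 0) := by
  simp only [ms_div]
  constructor
  · intro h
    rw [Metric.tendsto_nhds]
    intro ε hε
    obtain ⟨N, hN⟩ := eventually_atTop.1 ((h.eventually (gt_mem_nhds (half_pos hε))).and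
      (hF.eventually_gt_atTop 0))
    filter_upwards [far (s := s) (fun i => (Set.finite_singleton (lev f i)).subset
      fun j hj => ((hs i j).1 hj).symm) N] with j hj
    rw [Real.dist_eq, sub_zero, abs_of_nonneg (div_nonneg (ms_nonneg hf) (by positivity))]
    rcases (s j).eq_empty_or_nonempty with h0 | h0
    · simpa [h0, ms] using hε
    obtain ⟨i, hi, h1, h2⟩ := block_le (A := A) hf hs h0
    obtain ⟨h3, h4⟩ := hN (i + 1) (Nat.le_succ_of_le (hj i hi))
    rw [div_lt_iff₀ h4] at h3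
    rw [div_lt_iff₀ (by positivity)]
    rw [pow_succ] at h2
    nlinarith
  · intro h
    rw [← tendsto_add_atTop_iff_nat 1, Metric.tendsto_nhds]
    intro ε hε
    obtain ⟨J, hJ⟩ := eventually_atTop.1 (h.eventually (gt_mem_nhds (by positivity : 0 < ε / 4)))
    filter_upwards [(hF.comp (tendsto_add_atTop_nat 1)).eventually_gt_atTop
      ((∑ j ∈ range J, ms (s j) f A) / (ε / 2)),
      (hF.comp (tendsto_add_atTop_nat 1)).eventually_ge_atTop 1] with n h1 h2
    simp only [Function.comp] at h1 h2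
    rw [Real.dist_eq, sub_zero, abs_of_nonneg (div_nonneg (ms_nonneg hf) (by linarith)),
      div_lt_iff₀ (by linarith)]
    rw [div_lt_iff₀ (by positivity)] at h1
    have h3 : ms (range (n + 1)) f A ≤ ∑ j ∈ range (lev f n + 1), ms (s j) f A := by
      refine (ms_biUnion hf (range (lev f n + 1)) (fun j => A ∩ s j) fun i hi hA =>
        ⟨lev f i, mem_range.2 (Nat.lt_succ_of_le (lev_mono hf (Nat.le_of_lt_succ
          (mem_range.1 hi)))), hA, (hs _ _).2 rfl⟩).trans (sum_le_sum fun j _ => ?_)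
      exact ms_le hf fun i _ hi => ⟨hi.2, hi.1⟩
    have h4 : ∑ j ∈ range (lev f n + 1), ms (s j) f A ≤
        ∑ j ∈ range J, ms (s j) f A + ∑ j ∈ range (lev f n + 1), ε / 4 * 2 ^ j := by
      rw [← sum_filter_add_sum_filter_not (range (lev f n + 1)) (· < J)]
      refine add_le_add (sum_le_sum_of_subset_of_nonneg (fun j hj => mem_range.2
        (mem_filter.1 hj).2) fun j _ _ => ms_nonneg hf) ((sum_le_sum fun j hj => ?_).trans
        (sum_le_sum_of_subset_of_nonneg (filter_subset _ _) fun j _ _ => by positivity))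
      exact ((div_lt_iff₀ (by positivity)).1 (hJ j (not_lt.1 (mem_filter.1 hj).2))).le
    have h5 : ∑ j ∈ range (lev f n + 1), (2 : ℝ) ^ j ≤ 2 * 2 ^ lev f n := by
      rw [geom_sum_eq (by norm_num), pow_succ]; linarith
    rw [← mul_sum] at h4
    have h6 := le_lev h2
    nlinarith

theorem cntp (q : ℕ → Prop) {a : ℕ} (b n c : ℕ) :
    ((Ico n (n + c * a)).filter fun x => q ((x + b) % a)).card =
      c * ((range a).filter q).card := by
  induction c with
  | zero => simp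
  | succ c ih =>
    rw [← Ico_union_Ico_eq_Ico (b := n + c * a) (by omega) (by nlinarith), filter_union,
      card_union_of_disjoint (disjoint_filter_filter (Ico_disjoint_Ico_consecutive _ _ _)), ih,
      add_mul, add_mul, one_mul, one_mul, ← add_assoc]
    congr 1
    have h1 := Nat.filter_Ico_card_eq_of_periodic (n + c * a + b) a (fun y => q (y % a))
      fun y => by simp
    rw [Nat.count_eq_card_filter_range, filter_congr (s := range a) (q := q)
      fun x hx => by rw [Nat.mod_eq_of_lt (mem_range.1 hx)]] at h1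
    rw [← h1, add_right_comm _ b a, ← map_add_right_Ico, filter_map, card_map]
    rfl

end Pool.Agent.H83.EUId
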