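import Pool.Agent.H83.Heis

set_option autoImplicit false

namespace Pool.Agent.H83.EdgeOrb

open Set Cardinal

theorem card_closure {G : Type} [Group G] (s : Set G) (hs : s.Nonempty) :
    #(Subgroup.closure s) ≤ max #s ℵ₀ := by
  have := hs.to_subtype
  rw [← mk_freeGroup]
  have h : Subgroup.closure s = (FreeGroup.lift (Subtype.val : s → G)).range := by
    rw [FreeGroup.range_lift_eq_closure, Subtype.range_coe]
  rw [h]
  exact mk_range_le

variable {V : Type} {X : SimpleGraph V}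

open Classical in
theorem switch (z : X ≃g X) (D : Set V) (h1 : ∀ v, v ∈ D ↔ z v ∈ D)
    (h2 : ∀ u v, X.Adj u v → u ∈ D → v ∉ D → z v = v) :
    ∃ φ : X ≃g X, ∀ v, φ v = if v ∈ D then z v else v := by
  have h3 : ∀ u v, u ∈ D → v ∉ D → (X.Adj (z u) v ↔ X.Adj u v) := by
    intro u v hu hv
    constructor
    · intro h
      rw [← h2 _ _ h ((h1 u).1 hu) hv] at h
      exact z.map_rel_iff.1 h
    · intro h
      rw [← h2 _ _ h hu hv]
      exact z.map_rel_iff.2 h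
  refine ⟨⟨⟨fun v => if v ∈ D then z v else v, fun v => if v ∈ D then z.symm v else v,
    fun v => ?_, fun v => ?_⟩, ?_⟩, fun _ => rfl⟩
  · by_cases hv : v ∈ D
    · simp [hv, (h1 v).1 hv]
    · simp [hv]
  · by_cases hv : v ∈ D
    · have : z.symm v ∈ D := by rw [h1]; simpa using hv
      simp [hv, this]
    · simp [hv]
  · intro u v
    by_cases hu : u ∈ D <;> by_cases hv : v ∈ D <;> simp only [Equiv.coe_fn_mk, hu, hv, if_true,
      if_false]
    · exact z.map_rel_iff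
    · exact h3 u v hu hv
    · rw [X.adj_comm, h3 v u hv hu, X.adj_comm]

theorem many (μ : Cardinal.{0}) (hμ : ℵ₀ ≤ μ) (hG : #(X ≃g X) = 2 ^ μ) (z : X ≃g X) (hz : z ≠ 1)
    (hc : ∀ g, g * z = z * g)
    (hs : ∀ (R : Type) (H : R → Subgroup (X ≃g X)), #R ≤ μ → (∀ r, z ∉ H r) →
      ∃ σ < 2 ^ μ, ∀ r, #(H r) ≤ σ)
    (S : Set (Sym2 V)) (hS : ∀ e ∈ X.edgeSet, ∃ s ∈ S, ∃ φ : X ≃g X, Sym2.map φ s = e) :
    μ < #S := by
  classical
  by_contra hle
  rw [not_lt] at hle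
  have h2 : ℵ₀ < 2 ^ μ := hμ.trans_lt (cantor μ)
  obtain ⟨v0, hv0⟩ : ∃ v, z v ≠ v := by
    by_contra h
    push Not at h
    exact hz (RelIso.ext h)
  have hcz : ∀ (g : X ≃g X) v, z (g v) = g (z v) := fun g v => by
    rw [← RelIso.mul_apply, ← hc, RelIso.mul_apply]
  let R : Set V := {v | z v ≠ v ∧ (v = v0 ∨ ∃ s ∈ S, v ∈ s)}
  have hR : #R ≤ μ := by
    have hp : ∀ s : Sym2 V, ∃ p : V × V, s = s(p.1, p.2) := fun s =>
      Sym2.ind (fun a b => ⟨(a, b), rfl⟩) s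
    choose p hp using hp
    have : R ⊆ insert v0 ((fun s => (p s).1) '' S ∪ (fun s => (p s).2) '' S) := by
      rintro v ⟨-, rfl | ⟨s, hs, hv⟩⟩
      · exact Or.inl rfl
      · rw [hp s, Sym2.mem_iff] at hv
        rcases hv with rfl | rfl
        · exact Or.inr (Or.inl ⟨s, hs, rfl⟩)
        · exact Or.inr (Or.inr ⟨s, hs, rfl⟩)
    refine (mk_le_mk_of_subset this).trans (mk_insert_le.trans ?_)
    refine (add_le_add ((mk_union_le _ _).trans ((add_le_add (mk_image_le.trans hle)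
      (mk_image_le.trans hle)).trans (add_eq_self hμ).le)) (one_le_aleph0.trans hμ)).trans
      (add_eq_self hμ).le
  obtain ⟨σ, hσ, hH⟩ := hs R (fun r => MulAction.stabilizer (X ≃g X) r.1) hR fun r hr => r.2.1 hr
  have hconn : ∀ p : R × R, ∃ k : X ≃g X, (∃ g : X ≃g X, g p.1.1 = p.2.1) → k p.1.1 = p.2.1 := by
    intro p
    by_cases h : ∃ g : X ≃g X, g p.1.1 = p.2.1
    · exact ⟨h.choose, fun _ => h.choose_spec⟩
    · exact ⟨1, fun h' => absurd h' h⟩
  choose k hk using hconn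
  let W : Set (X ≃g X) := insert z ((⋃ r : R, (MulAction.stabilizer (X ≃g X) r.1 : Set (X ≃g X)))
    ∪ range k)
  let K := Subgroup.closure W
  have hK : #K < 2 ^ μ := by
    refine (card_closure W (insert_nonempty _ _)).trans_lt (max_lt ?_ h2)
    refine mk_insert_le.trans_lt (add_lt_of_lt h2.le ((mk_union_le _ _).trans_lt
      (add_lt_of_lt h2.le ?_ ?_)) (one_lt_aleph0.trans h2))
    · refine (mk_iUnion_le_sum_mk.trans (sum_le_sum _ (fun _ => σ) hH)).trans_lt ?_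
      rw [sum_const']
      exact mul_lt_of_lt h2.le (hR.trans_lt (cantor μ)) hσ
    · refine mk_range_le.trans_lt ?_
      rw [mk_prod, lift_id]
      exact mul_lt_of_lt h2.le (hR.trans_lt (cantor μ)) (hR.trans_lt (cantor μ))
  have hQ : 2 ^ μ ≤ #((X ≃g X) ⧸ K) := by
    by_contra h
    rw [not_le] at h
    have := mul_lt_of_lt h2.le h hK
    rw [← lift_id #K, ← lift_id #(_ ⧸ K), ← mk_prod,
      ← mk_congr (Subgroup.groupEquivQuotientProdSubgroup (s := K)), hG] at this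
    exact lt_irrefl _ this
  have hwd : ∀ (g g' : X ≃g X) (r r' : V), r ∈ R → r' ∈ R → g r = g' r' →
      (g : (X ≃g X) ⧸ K) = g' := by
    intro g g' r r' hr hr' h
    have h1 : k (⟨r, hr⟩, ⟨r', hr'⟩) r = r' := hk (⟨r, hr⟩, ⟨r', hr'⟩) ⟨g'⁻¹ * g, by
      simp [RelIso.mul_apply, h]⟩
    have h3 : k (⟨r, hr⟩, ⟨r', hr'⟩) ∈ K := Subgroup.subset_closure (Or.inr (Or.inr ⟨_, rfl⟩))
    have h4 : g⁻¹ * g' * k (⟨r, hr⟩, ⟨r', hr'⟩) ∈ K := by
      refine Subgroup.subset_closure (Or.inr (Or.inl (mem_iUnion.2 ⟨⟨r, hr⟩, ?_⟩)))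
      change (g⁻¹ * g' * k (⟨r, hr⟩, ⟨r', hr'⟩)) r = r
      simp [RelIso.mul_apply, h1, ← h]
    exact QuotientGroup.eq.2 ((K.mul_mem_cancel_right h3).1 h4)
  have hzK : z ∈ K := Subgroup.subset_closure (Or.inl rfl)
  let D : Set ((X ≃g X) ⧸ K) → Set V := fun T =>
    {v | ∃ g : X ≃g X, ∃ r ∈ R, g r = v ∧ (g : (X ≃g X) ⧸ K) ∈ T}
  have hD : ∀ T, ∃ φ : X ≃g X, ∀ v, φ v = if v ∈ D T then z v else v := by
    intro T
    refine switch z (D T) (fun v => ⟨?_, ?_⟩) ?_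
    · rintro ⟨g, r, hr, rfl, hg⟩
      refine ⟨g * z, r, hr, by rw [RelIso.mul_apply, hcz], ?_⟩
      rwa [QuotientGroup.mk_mul_of_mem g hzK]
    · rintro ⟨g, r, hr, h, hg⟩
      refine ⟨g * z⁻¹, r, hr, z.injective ?_, ?_⟩
      · rw [hcz, RelIso.mul_apply, RelIso.inv_apply_self, h]
      · rwa [QuotientGroup.mk_mul_of_mem g (K.inv_mem hzK)]
    · rintro u v huv ⟨g, r, hr, rfl, hg⟩ hv
      by_contra hzv
      obtain ⟨s, hsS, φ, hφ⟩ := hS s(g r, v) huv
      have hm : ∀ w, w ∈ s(g r, v) → z w ≠ w → ∃ r' ∈ R, φ r' = w := by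
        intro w hw hzw
        rw [← hφ, Sym2.mem_map] at hw
        obtain ⟨a, ha, rfl⟩ := hw
        refine ⟨a, ⟨fun h => hzw (by rw [hcz, h]), Or.inr ⟨s, hsS, ha⟩⟩, rfl⟩
      obtain ⟨r1, hr1, e1⟩ := hm (g r) (by simp) (by
        rw [hcz]; exact fun h => hr.1 (g.injective h))
      obtain ⟨r2, hr2, e2⟩ := hm v (by simp) hzv
      exact hv ⟨φ, r2, hr2, e2, by rwa [hwd φ g r1 r hr1 hr e1]⟩
  choose φ hφ using hD
  have hsub : ∀ T T', φ T = φ T' → T ⊆ T' := by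
    intro T T' h q hq
    obtain ⟨g, rfl⟩ := QuotientGroup.mk_surjective q
    have hv0R : v0 ∈ R := ⟨hv0, Or.inl rfl⟩
    have h1 : g v0 ∈ D T := ⟨g, v0, hv0R, rfl, hq⟩
    have h3 : g v0 ∈ D T' := by
      by_contra h4
      have := hφ T (g v0)
      rw [h, hφ T', if_neg h4, if_pos h1, hcz] at this
      exact hv0 (g.injective this).symm
    obtain ⟨g', r', hr', e, hg'⟩ := h3
    rwa [← hwd g' g r' v0 hr' hv0R e]
  have := mk_le_of_injective (f := φ) fun T T' h => (hsub T T' h).antisymm (hsub T' T h.symm)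
  rw [mk_set, hG] at this
  exact absurd (this.trans hQ) (not_le.2 (cantor _))

theorem main (κ : Cardinal.{0}) : ∃ (G : Type) (_ : Group G),
    ∀ (V : Type) (X : SimpleGraph V), Nonempty (G ≃* SimpleGraph.Iso X X) →
      ∀ S : Set (Sym2 V), S ⊆ X.edgeSet →
        (∀ e ∈ X.edgeSet, ∃ s ∈ S, ∃ φ : SimpleGraph.Iso X X, Sym2.map (⇑φ) s = e) →
        κ < Cardinal.mk S := by
  obtain ⟨μ, G, _, z, hκ, hμ, hG, hz, hc, hs⟩ := Heis.exists_group κ
  refine ⟨G, inferInstance, fun V X ⟨e⟩ S _ hS => hκ.trans_lt (many μ hμ ?_ (e z) ?_ ?_ ?_ S hS)⟩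
  · rw [← hG]; exact (mk_congr e.toEquiv).symm
  · simpa using hz
  · intro g
    obtain ⟨g, rfl⟩ := e.surjective g
    rw [← map_mul, hc, map_mul]
  · intro R H hR hH
    obtain ⟨σ, hσ, h⟩ := hs R (fun r => (H r).comap e.toMonoidHom) hR hH
    refine ⟨σ, hσ, fun r => le_trans ?_ (h r)⟩
    exact mk_le_of_injective (f := fun g => ⟨e.symm g.1, by simp [Subgroup.mem_comap]⟩)
      fun a b hab => Subtype.ext (e.symm.injective (congrArg Subtype.val hab))

end Pool.Agent.H83.EdgeOrb
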