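import Mathlib

set_option autoImplicit false

namespace Pool.Agent.H83.Edw

/-- rational points of the Edwards curve `x^2 + y^2 = 1 - 6 x^2 y^2` -/
@[ext] structure Pt where
  x : ℚ
  y : ℚ
  h : x ^ 2 + y ^ 2 + 6 * x ^ 2 * y ^ 2 = 1

theorem sq_lt {x y : ℚ} (h : x ^ 2 + y ^ 2 + 6 * x ^ 2 * y ^ 2 = 1) : 6 * (x * y) ^ 2 < 1 := by
  by_contra hc
  have h1 : x ^ 2 + y ^ 2 ≤ 0 := by nlinarith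
  have h2 : x ^ 2 = 0 := by nlinarith [sq_nonneg x, sq_nonneg y]
  have h3 : y ^ 2 = 0 := by nlinarith [sq_nonneg x, sq_nonneg y]
  rw [h2, h3] at h
  norm_num at h

theorem dm_pos {x1 y1 x2 y2 : ℚ} (h1 : x1 ^ 2 + y1 ^ 2 + 6 * x1 ^ 2 * y1 ^ 2 = 1)
    (h2 : x2 ^ 2 + y2 ^ 2 + 6 * x2 ^ 2 * y2 ^ 2 = 1) : 0 < 1 - 6 * x1 * x2 * y1 * y2 := by
  nlinarith [sq_lt h1, sq_lt h2, sq_nonneg (x1 * y1 - x2 * y2)]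

theorem dp_pos {x1 y1 x2 y2 : ℚ} (h1 : x1 ^ 2 + y1 ^ 2 + 6 * x1 ^ 2 * y1 ^ 2 = 1)
    (h2 : x2 ^ 2 + y2 ^ 2 + 6 * x2 ^ 2 * y2 ^ 2 = 1) : 0 < 1 + 6 * x1 * x2 * y1 * y2 := by
  nlinarith [sq_lt h1, sq_lt h2, sq_nonneg (x1 * y1 + x2 * y2)]

theorem add_mem' {x1 y1 x2 y2 : ℚ} (h1 : x1 ^ 2 + y1 ^ 2 + 6 * x1 ^ 2 * y1 ^ 2 = 1)
    (h2 : x2 ^ 2 + y2 ^ 2 + 6 * x2 ^ 2 * y2 ^ 2 = 1) :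
    ((x1 * y2 + y1 * x2) / (1 - 6 * x1 * x2 * y1 * y2)) ^ 2 +
    ((y1 * y2 - x1 * x2) / (1 + 6 * x1 * x2 * y1 * y2)) ^ 2 +
    6 * ((x1 * y2 + y1 * x2) / (1 - 6 * x1 * x2 * y1 * y2)) ^ 2 *
      ((y1 * y2 - x1 * x2) / (1 + 6 * x1 * x2 * y1 * y2)) ^ 2 = 1 := by
  have a := (dm_pos h1 h2).ne'
  have b := (dp_pos h1 h2).ne'
  have key : (x1 * y2 + y1 * x2) ^ 2 * (1 + 6 * x1 * x2 * y1 * y2) ^ 2 +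
      (y1 * y2 - x1 * x2) ^ 2 * (1 - 6 * x1 * x2 * y1 * y2) ^ 2 +
      6 * (x1 * y2 + y1 * x2) ^ 2 * (y1 * y2 - x1 * x2) ^ 2 =
      (1 - 6 * x1 * x2 * y1 * y2) ^ 2 * (1 + 6 * x1 * x2 * y1 * y2) ^ 2 := by
    linear_combination ((1)*y2^4 + (16)*x2^2*y2^2 + (-2)*x2^2*y2^4 + (1)*x2^4 + (-2)*x2^4*y2^2 + (-48)*x2^4*y2^4 + (6)*y1^2*x2^2*y2^4 + (6)*y1^2*x2^4*y2^2 + (36)*y1^2*x2^4*y2^4 + (6)*x1^2*x2^2*y2^4 + (6)*x1^2*x2^4*y2^2 + (36)*x1^2*x2^4*y2^4 + (-216)*x1^2*y1^2*x2^4*y2^4) * h1 + ((1) + (1)*y2^2 + (1)*x2^2 + (-8)*x2^2*y2^2 + (-1)*y1^2*y2^2 + (-1)*y1^2*x2^2 + (14)*y1^2*x2^2*y2^2 + (-6)*y1^4*x2^2*y2^2 + (-1)*x1^2*y2^2 + (-1)*x1^2*x2^2 + (14)*x1^2*x2^2*y2^2 + (-6)*x1^4*x2^2*y2^2) * h2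
  generalize 1 - 6 * x1 * x2 * y1 * y2 = A at *
  generalize 1 + 6 * x1 * x2 * y1 * y2 = B at *
  field_simp
  linear_combination key

instance : Zero Pt := ⟨⟨0, 1, by norm_num⟩⟩
instance : Neg Pt := ⟨fun P => ⟨-P.x, P.y, by have := P.h; linear_combination this⟩⟩
instance : Add Pt := ⟨fun P Q => ⟨(P.x * Q.y + P.y * Q.x) / (1 - 6 * P.x * Q.x * P.y * Q.y),
  (P.y * Q.y - P.x * Q.x) / (1 + 6 * P.x * Q.x * P.y * Q.y), add_mem' P.h Q.h⟩⟩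

@[simp] theorem zero_x : (0 : Pt).x = 0 := rfl
@[simp] theorem zero_y : (0 : Pt).y = 1 := rfl
@[simp] theorem neg_x (P : Pt) : (-P).x = -P.x := rfl
@[simp] theorem neg_y (P : Pt) : (-P).y = P.y := rfl
theorem add_x (P Q : Pt) :
    (P + Q).x = (P.x * Q.y + P.y * Q.x) / (1 - 6 * P.x * Q.x * P.y * Q.y) := rfl
theorem add_y (P Q : Pt) :
    (P + Q).y = (P.y * Q.y - P.x * Q.x) / (1 + 6 * P.x * Q.x * P.y * Q.y) := rfl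

theorem aux_x {a b A B x y : ℚ} (hA : A ≠ 0) (hB : B ≠ 0) :
    (a / A * y + b / B * x) / (1 - 6 * (a / A) * x * (b / B) * y) =
      (a * B * y + b * A * x) / (A * B - 6 * a * b * x * y) := by
  rw [show 1 - 6 * (a / A) * x * (b / B) * y = (A * B - 6 * a * b * x * y) / (A * B) by
    field_simp, show a / A * y + b / B * x = (a * B * y + b * A * x) / (A * B) by field_simp,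
    div_div_div_cancel_right₀ (mul_ne_zero hA hB)]

theorem aux_y {a b A B x y : ℚ} (hA : A ≠ 0) (hB : B ≠ 0) :
    (b / B * y - a / A * x) / (1 + 6 * (a / A) * x * (b / B) * y) =
      (b * A * y - a * B * x) / (A * B + 6 * a * b * x * y) := by
  rw [show 1 + 6 * (a / A) * x * (b / B) * y = (A * B + 6 * a * b * x * y) / (A * B) by
    field_simp, show b / B * y - a / A * x = (b * A * y - a * B * x) / (A * B) by field_simp,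
    div_div_div_cancel_right₀ (mul_ne_zero hA hB)]

theorem add_comm' (P Q : Pt) : P + Q = Q + P := by
  ext
  · rw [add_x, add_x]; ring
  · rw [add_y, add_y]; ring

theorem add_assoc' (P Q R : Pt) : P + Q + R = P + (Q + R) := by
  rw [add_comm' P (Q + R)]
  have a1 := (dm_pos P.h Q.h).ne'
  have b1 := (dp_pos P.h Q.h).ne'
  have a2 := (dm_pos Q.h R.h).ne'
  have b2 := (dp_pos Q.h R.h).ne'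
  have c1 := (dm_pos (P + Q).h R.h).ne'
  have d1 := (dp_pos (P + Q).h R.h).ne'
  have c2 := (dm_pos (Q + R).h P.h).ne'
  have d2 := (dp_pos (Q + R).h P.h).ne'
  obtain ⟨x1, y1, h1⟩ := P
  obtain ⟨x2, y2, h2⟩ := Q
  obtain ⟨x3, y3, h3⟩ := R
  simp only [add_x, add_y] at *
  have e : ∀ {a b A B x y s : ℚ}, A ≠ 0 → B ≠ 0 → 1 + s * (a / A) * x * (b / B) * y ≠ 0 →
      A * B + s * a * b * x * y ≠ 0 := by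
    intro a b A B x y s hA hB h h0
    apply h
    field_simp
    linear_combination h0
  have e' : ∀ {a b A B x y s : ℚ}, A ≠ 0 → B ≠ 0 → 1 - s * (a / A) * x * (b / B) * y ≠ 0 →
      A * B - s * a * b * x * y ≠ 0 := by
    intro a b A B x y s hA hB h h0
    apply h
    field_simp
    linear_combination h0
  have c1' := e' (s := 6) a1 b1 c1
  have c2' := e' (s := 6) a2 b2 c2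
  have d1' := e (s := 6) a1 b1 d1
  have d2' := e (s := 6) a2 b2 d2
  ext
  · simp only [add_x, add_y]
    rw [aux_x a1 b1, aux_x a2 b2, div_eq_div_iff c1' c2']
    linear_combination ((6)*y1*x2*y2^4*x3^2*y3 + (6)*y1*x2^2*y2^3*x3 + (-6)*y1*x2^2*y2^3*x3^3 + (6)*y1*x2^3*y2^2*y3 + (-6)*y1*x2^3*y2^2*y3^3 + (36)*y1*x2^3*y2^4*x3^2*y3 + (6)*y1*x2^4*y2*x3*y3^2 + (36)*y1*x2^4*y2^3*x3*y3^2 + (-6)*x1*x2*y2^4*x3*y3^2 + (6)*x1*x2^2*y2^3*y3 + (-6)*x1*x2^2*y2^3*y3^3 + (-6)*x1*x2^3*y2^2*x3 + (6)*x1*x2^3*y2^2*x3^3 + (-36)*x1*x2^3*y2^4*x3*y3^2 + (6)*x1*x2^4*y2*x3^2*y3 + (36)*x1*x2^4*y2^3*x3^2*y3) * h1 + ((1)*y1*y2*x3 + (-1)*y1*y2*x3*y3^2 + (-1)*y1*y2*x3^3 + (-6)*y1*y2*x3^3*y3^2 + (1)*y1*x2*y3 + (-1)*y1*x2*y3^3 + (-1)*y1*x2*x3^2*y3 + (-6)*y1*x2*x3^2*y3^3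 + (6)*y1*x2*y2^2*x3^2*y3 + (6)*y1*x2^2*y2*x3*y3^2 + (-1)*y1^3*y2*x3 + (1)*y1^3*y2*x3*y3^2 + (1)*y1^3*y2*x3^3 + (6)*y1^3*y2*x3^3*y3^2 + (-1)*y1^3*x2*y3 + (1)*y1^3*x2*y3^3 + (1)*y1^3*x2*x3^2*y3 + (6)*y1^3*x2*x3^2*y3^3 + (-6)*y1^3*x2*y2^2*x3^2*y3 + (-6)*y1^3*x2^2*y2*x3*y3^2 + (1)*x1*y2*y3 + (-1)*x1*y2*y3^3 + (-1)*x1*y2*x3^2*y3 + (-6)*x1*y2*x3^2*y3^3 + (-1)*x1*x2*x3 + (1)*x1*x2*x3*y3^2 + (1)*x1*x2*x3^3 + (6)*x1*x2*x3^3*y3^2 + (-6)*x1*x2*y2^2*x3*y3^2 + (6)*x1*x2^2*y2*x3^2*y3 + (-1)*x1*y1^2*y2*y3 + (1)*x1*y1^2*y2*y3^3 + (1)*x1*y1^2*y2*x3^2*y3 + (6)*x1*y1^2*y2*x3^2*y3^3 + (1)*x1*y1^2*x2*x3 + (-1)*x1*y1^2*x2*x3*y3^2 + (-1)*x1*y1^2*x2*x3^3 + (-6)*x1*y1^2*x2*x3^3*y3^2 + (6)*x1*y1^2*x2*y2^2*x3*y3^2 + (36)*x1*y1^2*x2*y2^2*x3^3*y3^2 + (-6)*x1*y1^2*x2^2*y2*x3^2*y3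 + (-36)*x1*y1^2*x2^2*y2*x3^2*y3^3 + (-1)*x1^2*y1*y2*x3 + (1)*x1^2*y1*y2*x3*y3^2 + (1)*x1^2*y1*y2*x3^3 + (6)*x1^2*y1*y2*x3^3*y3^2 + (-1)*x1^2*y1*x2*y3 + (1)*x1^2*y1*x2*y3^3 + (1)*x1^2*y1*x2*x3^2*y3 + (6)*x1^2*y1*x2*x3^2*y3^3 + (-6)*x1^2*y1*x2*y2^2*x3^2*y3 + (-36)*x1^2*y1*x2*y2^2*x3^2*y3^3 + (-6)*x1^2*y1*x2^2*y2*x3*y3^2 + (-36)*x1^2*y1*x2^2*y2*x3^3*y3^2 + (-1)*x1^3*y2*y3 + (1)*x1^3*y2*y3^3 + (1)*x1^3*y2*x3^2*y3 + (6)*x1^3*y2*x3^2*y3^3 + (1)*x1^3*x2*x3 + (-1)*x1^3*x2*x3*y3^2 + (-1)*x1^3*x2*x3^3 + (-6)*x1^3*x2*x3^3*y3^2 + (6)*x1^3*x2*y2^2*x3*y3^2 + (-6)*x1^3*x2^2*y2*x3^2*y3) * h2 + ((-1)*y1*y2*x3 + (1)*y1*y2^3*x3 + (-1)*y1*x2*y3 + (1)*y1*x2*y2^2*y3 + (1)*y1*x2^2*y2*x3 + (1)*y1*x2^3*y3 + (1)*y1^3*y2*x3 + (-1)*y1^3*y2^3*x3 + (1)*y1^3*x2*y3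 + (-1)*y1^3*x2*y2^2*y3 + (-1)*y1^3*x2^2*y2*x3 + (-1)*y1^3*x2^3*y3 + (-1)*x1*y2*y3 + (1)*x1*y2^3*y3 + (1)*x1*x2*x3 + (-1)*x1*x2*y2^2*x3 + (1)*x1*x2^2*y2*y3 + (-1)*x1*x2^3*x3 + (1)*x1*y1^2*y2*y3 + (-1)*x1*y1^2*y2^3*y3 + (-1)*x1*y1^2*x2*x3 + (7)*x1*y1^2*x2*y2^2*x3 + (-7)*x1*y1^2*x2^2*y2*y3 + (1)*x1*y1^2*x2^3*x3 + (1)*x1^2*y1*y2*x3 + (-1)*x1^2*y1*y2^3*x3 + (1)*x1^2*y1*x2*y3 + (-7)*x1^2*y1*x2*y2^2*y3 + (-7)*x1^2*y1*x2^2*y2*x3 + (-1)*x1^2*y1*x2^3*y3 + (1)*x1^3*y2*y3 + (-1)*x1^3*y2^3*y3 + (-1)*x1^3*x2*x3 + (1)*x1^3*x2*y2^2*x3 + (-1)*x1^3*x2^2*y2*y3 + (1)*x1^3*x2^3*x3) * h3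
  · simp only [add_x, add_y]
    rw [aux_y a1 b1, aux_y a2 b2, div_eq_div_iff d1' d2']
    linear_combination ((-6)*y1*x2*y2^4*x3*y3^2 + (6)*y1*x2^2*y2^3*y3 + (-6)*y1*x2^2*y2^3*y3^3 + (-6)*y1*x2^3*y2^2*x3 + (6)*y1*x2^3*y2^2*x3^3 + (-36)*y1*x2^3*y2^4*x3*y3^2 + (6)*y1*x2^4*y2*x3^2*y3 + (36)*y1*x2^4*y2^3*x3^2*y3 + (-6)*x1*x2*y2^4*x3^2*y3 + (-6)*x1*x2^2*y2^3*x3 + (6)*x1*x2^2*y2^3*x3^3 + (-6)*x1*x2^3*y2^2*y3 + (6)*x1*x2^3*y2^2*y3^3 + (-36)*x1*x2^3*y2^4*x3^2*y3 + (-6)*x1*x2^4*y2*x3*y3^2 + (-36)*x1*x2^4*y2^3*x3*y3^2) * h1 + ((1)*y1*y2*y3 + (-1)*y1*y2*y3^3 + (-1)*y1*y2*x3^2*y3 + (-6)*y1*y2*x3^2*y3^3 + (-1)*y1*x2*x3 + (1)*y1*x2*x3*y3^2 + (1)*y1*x2*x3^3 + (6)*y1*x2*x3^3*y3^2 + (-6)*y1*x2*y2^2*x3*y3^2 + (6)*y1*x2^2*y2*x3^2*y3 + (-1)*y1^3*y2*y3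 + (1)*y1^3*y2*y3^3 + (1)*y1^3*y2*x3^2*y3 + (6)*y1^3*y2*x3^2*y3^3 + (1)*y1^3*x2*x3 + (-1)*y1^3*x2*x3*y3^2 + (-1)*y1^3*x2*x3^3 + (-6)*y1^3*x2*x3^3*y3^2 + (6)*y1^3*x2*y2^2*x3*y3^2 + (-6)*y1^3*x2^2*y2*x3^2*y3 + (-1)*x1*y2*x3 + (1)*x1*y2*x3*y3^2 + (1)*x1*y2*x3^3 + (6)*x1*y2*x3^3*y3^2 + (-1)*x1*x2*y3 + (1)*x1*x2*y3^3 + (1)*x1*x2*x3^2*y3 + (6)*x1*x2*x3^2*y3^3 + (-6)*x1*x2*y2^2*x3^2*y3 + (-6)*x1*x2^2*y2*x3*y3^2 + (1)*x1*y1^2*y2*x3 + (-1)*x1*y1^2*y2*x3*y3^2 + (-1)*x1*y1^2*y2*x3^3 + (-6)*x1*y1^2*y2*x3^3*y3^2 + (1)*x1*y1^2*x2*y3 + (-1)*x1*y1^2*x2*y3^3 + (-1)*x1*y1^2*x2*x3^2*y3 + (-6)*x1*y1^2*x2*x3^2*y3^3 + (6)*x1*y1^2*x2*y2^2*x3^2*y3 + (36)*x1*y1^2*x2*y2^2*x3^2*y3^3 + (6)*x1*y1^2*x2^2*y2*x3*y3^2 + (36)*x1*y1^2*x2^2*y2*x3^3*y3^2 + (-1)*x1^2*y1*y2*y3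 + (1)*x1^2*y1*y2*y3^3 + (1)*x1^2*y1*y2*x3^2*y3 + (6)*x1^2*y1*y2*x3^2*y3^3 + (1)*x1^2*y1*x2*x3 + (-1)*x1^2*y1*x2*x3*y3^2 + (-1)*x1^2*y1*x2*x3^3 + (-6)*x1^2*y1*x2*x3^3*y3^2 + (6)*x1^2*y1*x2*y2^2*x3*y3^2 + (36)*x1^2*y1*x2*y2^2*x3^3*y3^2 + (-6)*x1^2*y1*x2^2*y2*x3^2*y3 + (-36)*x1^2*y1*x2^2*y2*x3^2*y3^3 + (1)*x1^3*y2*x3 + (-1)*x1^3*y2*x3*y3^2 + (-1)*x1^3*y2*x3^3 + (-6)*x1^3*y2*x3^3*y3^2 + (1)*x1^3*x2*y3 + (-1)*x1^3*x2*y3^3 + (-1)*x1^3*x2*x3^2*y3 + (-6)*x1^3*x2*x3^2*y3^3 + (6)*x1^3*x2*y2^2*x3^2*y3 + (6)*x1^3*x2^2*y2*x3*y3^2) * h2 + ((-1)*y1*y2*y3 + (1)*y1*y2^3*y3 + (1)*y1*x2*x3 + (-1)*y1*x2*y2^2*x3 + (1)*y1*x2^2*y2*y3 + (-1)*y1*x2^3*x3 + (1)*y1^3*y2*y3 + (-1)*y1^3*y2^3*y3 + (-1)*y1^3*x2*x3 + (1)*y1^3*x2*y2^2*x3 + (-1)*y1^3*x2^2*y2*y3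 + (1)*y1^3*x2^3*x3 + (1)*x1*y2*x3 + (-1)*x1*y2^3*x3 + (1)*x1*x2*y3 + (-1)*x1*x2*y2^2*y3 + (-1)*x1*x2^2*y2*x3 + (-1)*x1*x2^3*y3 + (-1)*x1*y1^2*y2*x3 + (1)*x1*y1^2*y2^3*x3 + (-1)*x1*y1^2*x2*y3 + (7)*x1*y1^2*x2*y2^2*y3 + (7)*x1*y1^2*x2^2*y2*x3 + (1)*x1*y1^2*x2^3*y3 + (1)*x1^2*y1*y2*y3 + (-1)*x1^2*y1*y2^3*y3 + (-1)*x1^2*y1*x2*x3 + (7)*x1^2*y1*x2*y2^2*x3 + (-7)*x1^2*y1*x2^2*y2*y3 + (1)*x1^2*y1*x2^3*x3 + (-1)*x1^3*y2*x3 + (1)*x1^3*y2^3*x3 + (-1)*x1^3*x2*y3 + (1)*x1^3*x2*y2^2*y3 + (1)*x1^3*x2^2*y2*x3 + (1)*x1^3*x2^3*y3) * h3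

instance : AddCommGroup Pt where
  add_assoc := add_assoc'
  zero_add P := by ext <;> simp [add_x, add_y]
  add_zero P := by ext <;> simp [add_x, add_y]
  neg_add_cancel P := by
    ext
    · simp [add_x, mul_comm]
    · have h := dp_pos (-P).h P.h
      rw [add_y, div_eq_iff h.ne']
      simp only [neg_x, neg_y, zero_y]
      linear_combination P.h
  add_comm := add_comm'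
  nsmul := nsmulRec
  zsmul := zsmulRec

end Pool.Agent.H83.Edw
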