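import Pool.Agent.H83.Edw1

set_option autoImplicit false

namespace Pool.Agent.H83.Edw

theorem int_eq {x y : ℚ} (h : x ^ 2 + y ^ 2 + 6 * x ^ 2 * y ^ 2 = 1) :
    x.num ^ 2 * (y.den : ℤ) ^ 2 + y.num ^ 2 * (x.den : ℤ) ^ 2 + 6 * x.num ^ 2 * y.num ^ 2 =
      (x.den : ℤ) ^ 2 * (y.den : ℤ) ^ 2 := by
  have hx : (x.num : ℚ) = x * x.den := by simp
  have hy : (y.num : ℚ) = y * y.den := by simp
  have : (x.num : ℚ) ^ 2 * (y.den : ℚ) ^ 2 + (y.num : ℚ) ^ 2 * (x.den : ℚ) ^ 2 +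
      6 * (x.num : ℚ) ^ 2 * (y.num : ℚ) ^ 2 = (x.den : ℚ) ^ 2 * (y.den : ℚ) ^ 2 := by
    rw [hx, hy]
    linear_combination ((x.den : ℚ) ^ 2 * (y.den : ℚ) ^ 2) * h
  exact_mod_cast this

theorem cop (x : ℚ) : IsCoprime x.num (x.den : ℤ) := by
  rw [Int.isCoprime_iff_gcd_eq_one]
  exact x.reduced

theorem not_dvd_den {e f a b p q : ℤ} (hp : Prime p) (hq : ¬ p ∣ q) (hpq : p * q = 6)
    (h : e ^ 2 * b ^ 2 + a ^ 2 * f ^ 2 + 6 * e ^ 2 * a ^ 2 = f ^ 2 * b ^ 2)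
    (h1 : IsCoprime e f) (h2 : IsCoprime a b) : ¬ p ∣ f := by
  rintro ⟨f', rfl⟩
  have he : ¬ p ∣ e := fun h' => hp.not_unit (h1.isUnit_of_dvd' h' (dvd_mul_right _ _))
  have hb : p ∣ b := by
    have : p ∣ e ^ 2 * b ^ 2 :=
      ⟨p * f' ^ 2 * b ^ 2 - a ^ 2 * p * f' ^ 2 - q * e ^ 2 * a ^ 2, by
        rw [← hpq] at h; linear_combination h⟩
    rcases hp.dvd_or_dvd this with h' | h'
    · exact absurd (hp.dvd_of_dvd_pow h') he
    · exact hp.dvd_of_dvd_pow h'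
  obtain ⟨b', rfl⟩ := hb
  have ha : ¬ p ∣ a := fun h' => hp.not_unit (h2.isUnit_of_dvd' h' (dvd_mul_right _ _))
  have : p ∣ q * e ^ 2 * a ^ 2 := by
    refine ⟨p ^ 2 * f' ^ 2 * b' ^ 2 - e ^ 2 * b' ^ 2 - a ^ 2 * f' ^ 2, ?_⟩
    apply mul_left_cancel₀ hp.ne_zero
    rw [← hpq] at h; linear_combination h
  rcases hp.dvd_or_dvd this with h' | h'
  · rcases hp.dvd_or_dvd h' with h' | h'
    · exact hq h'
    · exact he (hp.dvd_of_dvd_pow h')
  · exact ha (hp.dvd_of_dvd_pow h')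

theorem den2 {x y : ℚ} (h : x ^ 2 + y ^ 2 + 6 * x ^ 2 * y ^ 2 = 1) : ¬ (2 : ℤ) ∣ x.den :=
  not_dvd_den (q := 3) Int.prime_two (by norm_num) (by norm_num) (int_eq h) (cop x) (cop y)

theorem den3 {x y : ℚ} (h : x ^ 2 + y ^ 2 + 6 * x ^ 2 * y ^ 2 = 1) : ¬ (3 : ℤ) ∣ x.den :=
  not_dvd_den (q := 2) Int.prime_three (by norm_num) (by norm_num) (int_eq h) (cop x) (cop y)

theorem swap {x y : ℚ} (h : x ^ 2 + y ^ 2 + 6 * x ^ 2 * y ^ 2 = 1) :
    y ^ 2 + x ^ 2 + 6 * y ^ 2 * x ^ 2 = 1 := by linear_combination h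

theorem cop6 {f : ℤ} (h2 : ¬ (2 : ℤ) ∣ f) (h3 : ¬ (3 : ℤ) ∣ f) : IsCoprime 6 f := by
  have a := (Int.prime_two.coprime_iff_not_dvd).2 h2
  have b := (Int.prime_three.coprime_iff_not_dvd).2 h3
  have := a.mul_left b
  norm_num at this
  exact this

theorem sq_dvd {x y : ℚ} (h : x ^ 2 + y ^ 2 + 6 * x ^ 2 * y ^ 2 = 1) :
    (x.den : ℤ) ^ 2 ∣ (y.den : ℤ) ^ 2 + 6 * y.num ^ 2 := by
  have h1 : IsCoprime ((x.den : ℤ) ^ 2 + 6 * x.num ^ 2) (x.den : ℤ) := by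
    have := ((cop6 (den2 h) (den3 h)).mul_left ((cop x).pow_left (m := 2))).add_mul_left_left
      (x.den : ℤ)
    rwa [show 6 * x.num ^ 2 + (x.den : ℤ) * x.den = (x.den : ℤ) ^ 2 + 6 * x.num ^ 2 by ring] at this
  refine (h1.pow_right (n := 2)).symm.dvd_of_dvd_mul_left ⟨7 * (y.den : ℤ) ^ 2, ?_⟩
  linear_combination 6 * int_eq h

theorem gg {x y : ℚ} (h : x ^ 2 + y ^ 2 + 6 * x ^ 2 * y ^ 2 = 1) :
    (x.den : ℤ) ^ 2 + 6 * x.num ^ 2 = (y.den : ℤ) ^ 2 ∨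
      (x.den : ℤ) ^ 2 + 6 * x.num ^ 2 = 7 * (y.den : ℤ) ^ 2 := by
  obtain ⟨g, hg⟩ := sq_dvd (swap h)
  obtain ⟨g', hg'⟩ := sq_dvd h
  have hx : (0 : ℤ) < x.den := by exact_mod_cast x.den_pos
  have hy : (0 : ℤ) < y.den := by exact_mod_cast y.den_pos
  have h7 : g * g' = 7 := by
    apply mul_left_cancel₀ (a := (x.den : ℤ) ^ 2 * (y.den : ℤ) ^ 2) (by positivity)
    have := int_eq h
    linear_combination 6 * this - ((y.den : ℤ) ^ 2 + 6 * y.num ^ 2) * hg -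
      ((y.den : ℤ) ^ 2 * g) * hg'
  have hg0 : 0 < g := by
    by_contra hc
    have : (y.den : ℤ) ^ 2 * g ≤ 0 := mul_nonpos_of_nonneg_of_nonpos (by positivity) (by omega)
    nlinarith [sq_nonneg x.num, sq_pos_of_pos hx]
  have hd : g ∣ 7 := ⟨g', h7.symm⟩
  have hle := Int.le_of_dvd (by norm_num) hd
  interval_cases g <;> first | (left; linarith) | (right; linarith) | (exfalso; omega)

theorem abs_le {x y : ℚ} (h : x ^ 2 + y ^ 2 + 6 * x ^ 2 * y ^ 2 = 1) : x ^ 2 ≤ 1 := by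
  nlinarith [sq_nonneg y, sq_nonneg (x * y)]

theorem num_le {x : ℚ} (h : x ^ 2 ≤ 1) : x.num ^ 2 ≤ (x.den : ℤ) ^ 2 := by
  have hx : (x.num : ℚ) = x * x.den := by simp
  have : (x.num : ℚ) ^ 2 ≤ (x.den : ℚ) ^ 2 := by
    rw [hx, mul_pow]
    exact mul_le_of_le_one_left (by positivity) h
  exact_mod_cast this

theorem den_le {x y : ℚ} (h : x ^ 2 + y ^ 2 + 6 * x ^ 2 * y ^ 2 = 1) :
    (x.den : ℤ) ≤ 3 * y.den := by
  have hy : (0 : ℤ) < y.den := by exact_mod_cast y.den_pos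
  have h1 := Int.le_of_dvd (by positivity) (sq_dvd h)
  have h2 := num_le (abs_le (swap h))
  by_contra hc
  push Not at hc
  nlinarith

/-- factorisation of a coprime product equal to six times a square -/
theorem six_sq {A B k u v : ℤ} (hA : 0 < A) (hB : 0 ≤ B) (hc : IsCoprime A B)
    (h : A * B = 6 * k ^ 2) (hf : A - B = u ^ 2 + v ^ 2) (hk2 : 2 ∣ k)
    (h4 : (u ^ 2 + v ^ 2) % 4 = 1) (h3 : (u ^ 2 + v ^ 2) % 3 = 1) :
    ∃ m n : ℤ, A = m ^ 2 ∧ B = 6 * n ^ 2 := by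
  have sq : ∀ {a b : ℤ}, 0 ≤ a → 0 ≤ b → IsCoprime a b → a * b = k ^ 2 →
      ∃ m n : ℤ, a = m ^ 2 ∧ b = n ^ 2 := by
    intro a b ha hb hab hk
    obtain ⟨m, hm⟩ := Int.sq_of_isCoprime hab hk
    obtain ⟨n, hn⟩ := Int.sq_of_isCoprime hab.symm (by rw [mul_comm]; exact hk)
    refine ⟨m, n, ?_, ?_⟩
    · rcases hm with hm | hm
      · exact hm
      · nlinarith [sq_nonneg m]
    · rcases hn with hn | hn
      · exact hn
      · nlinarith [sq_nonneg n]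
  have s3 : ∀ m : ℤ, m ^ 2 % 3 = 0 ∨ m ^ 2 % 3 = 1 := by
    intro m
    have : m % 3 = 0 ∨ m % 3 = 1 ∨ m % 3 = 2 := by omega
    rcases this with h | h | h <;> simp [pow_two, Int.mul_emod, h]
  have d2 : (2 : ℤ) ∣ A * B := ⟨3 * k ^ 2, by linarith⟩
  have d3 : (3 : ℤ) ∣ A * B := ⟨2 * k ^ 2, by linarith⟩
  rcases Int.prime_two.dvd_or_dvd d2 with a2 | b2 <;>
    rcases Int.prime_three.dvd_or_dvd d3 with a3 | b3
  · obtain ⟨A', rfl⟩ : (6 : ℤ) ∣ A := by omega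
    obtain ⟨m, n, rfl, rfl⟩ := sq (a := A') (b := B) (by omega) hB hc.of_mul_left_right
      (by linarith)
    have := s3 n
    omega
  · obtain ⟨A', rfl⟩ := a2
    obtain ⟨B', rfl⟩ := b3
    obtain ⟨m, n, rfl, rfl⟩ := sq (a := A') (b := B') (by omega) (by omega)
      hc.of_mul_left_right.of_mul_right_right (by linarith)
    have := s3 m
    omega
  · obtain ⟨A', rfl⟩ := a3
    obtain ⟨B', rfl⟩ := b2
    obtain ⟨m, n, rfl, rfl⟩ := sq (a := A') (b := B') (by omega) (by omega)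
      hc.of_mul_left_right.of_mul_right_right (by linarith)
    exfalso
    have e : (m * n) ^ 2 = k ^ 2 := by linarith
    have hmn : (2 : ℤ) ∣ m * n :=
      Int.prime_two.dvd_of_dvd_pow (n := 2) (by rw [e]; exact dvd_pow hk2 two_ne_zero)
    rw [← hf] at h4
    rcases Int.prime_two.dvd_or_dvd hmn with ⟨m', rfl⟩ | ⟨n', rfl⟩
    · have : 3 * (2 * m') ^ 2 - 2 * n ^ 2 = 2 * (6 * m' ^ 2 - n ^ 2) := by ring
      omega
    · have : 3 * m ^ 2 - 2 * (2 * n') ^ 2 = 3 * m ^ 2 - 4 * (2 * n' ^ 2) := by ring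
      have s4 : m ^ 2 % 4 = 0 ∨ m ^ 2 % 4 = 1 := by
        have : m % 4 = 0 ∨ m % 4 = 1 ∨ m % 4 = 2 ∨ m % 4 = 3 := by omega
        rcases this with h | h | h | h <;> simp [pow_two, Int.mul_emod, h]
      omega
  · obtain ⟨B', rfl⟩ : (6 : ℤ) ∣ B := by omega
    obtain ⟨m, n, rfl, rfl⟩ := sq (a := A) (b := B') hA.le (by omega) hc.of_mul_right_right
      (by linarith)
    exact ⟨m, n, rfl, rfl⟩

theorem halve (Q : Pt) (h1 : IsSquare (1 + 6 * Q.x ^ 2)) (h3 : (3 : ℤ) ∣ Q.x.num) :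
    ∃ Q' : Pt, Q = Q' + Q' := by
  obtain ⟨x, y, h⟩ := Q
  simp only at h1 h3
  have hx : x = (x.num : ℚ) / x.den := (Rat.num_div_den x).symm
  have hy : y = (y.num : ℚ) / y.den := (Rat.num_div_den y).symm
  have hf : (0 : ℤ) < x.den := by exact_mod_cast x.den_pos
  have hb : (0 : ℤ) < y.den := by exact_mod_cast y.den_pos
  have hie := int_eq h
  have f2 := den2 h
  have f3 := den3 h
  have b2 := den2 (swap h)
  have c1 := cop x
  have hg : (x.den : ℤ) ^ 2 + 6 * x.num ^ 2 = (y.den : ℤ) ^ 2 := by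
    rcases gg h with hg | hg
    · exact hg
    · exfalso
      obtain ⟨w, hw⟩ := h1
      have hg' : (x.den : ℚ) ^ 2 + 6 * (x.num : ℚ) ^ 2 = 7 * (y.den : ℚ) ^ 2 := by exact_mod_cast hg
      have hx' : (x.num : ℚ) = x * x.den := by simp
      have : IsSquare ((7 : ℕ) : ℚ) := ⟨w * x.den / y.den, by
        have : (y.den : ℚ) ≠ 0 := by positivity
        field_simp
        rw [hx'] at hg'
        push_cast
        linear_combination -hg' + (x.den : ℚ) ^ 2 * hw⟩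
      rw [Rat.isSquare_natCast_iff] at this
      exact (Nat.Prime.prime (by norm_num)).not_isSquare this
  suffices hs : ∃ Q' : Pt, (Q' + Q').x = (x.num : ℚ) / ((x.den : ℤ) : ℚ) ∧
      (Q' + Q').y = (y.num : ℚ) / ((y.den : ℤ) : ℚ) by
    obtain ⟨Q', a1, a2⟩ := hs
    refine ⟨Q', Pt.ext ?_ ?_⟩
    · rw [a1]; simpa using hx
    · rw [a2]; simpa using hy
  clear hx hy h1 h
  generalize x.num = e at *
  generalize y.num = a at *
  generalize (x.den : ℤ) = f at *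
  generalize (y.den : ℤ) = b at *
  have hp : a ^ 2 + e ^ 2 = f ^ 2 := by
    apply mul_left_cancel₀ (a := b ^ 2) (by positivity)
    linear_combination hie - a ^ 2 * hg
  have he2 : (2 : ℤ) ∣ e := by
    by_contra hc
    obtain ⟨f', rfl⟩ : ∃ f', f = 2 * f' + 1 := ⟨f / 2, by omega⟩
    obtain ⟨b', rfl⟩ : ∃ f', b = 2 * f' + 1 := ⟨b / 2, by omega⟩
    obtain ⟨e', rfl⟩ : ∃ f', e = 2 * f' + 1 := ⟨e / 2, by omega⟩
    have : 2 * (f' ^ 2 + f' + 6 * e' ^ 2 + 6 * e' - b' ^ 2 - b') + 3 = 0 := by linarith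
    omega
  have ha2 : a % 2 = 1 := by
    by_contra hc
    have : (2 : ℤ) ∣ a := by omega
    apply f2
    apply Int.prime_two.dvd_of_dvd_pow (n := 2)
    rw [← hp]
    exact dvd_add (dvd_pow this two_ne_zero) (dvd_pow he2 two_ne_zero)
  have hae : IsCoprime a e := by
    have : IsCoprime (f ^ 2) e := c1.symm.pow_left
    rw [← hp, pow_two e, pow_two a] at this
    exact (IsCoprime.of_add_mul_left_left this).of_mul_left_left
  obtain ⟨u, v, rfl, rfl, rfl, -, hpar, -⟩ := PythagoreanTriple.coprime_classification'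
    (x := a) (y := e) (z := f) (by unfold PythagoreanTriple; linear_combination hp)
    (Int.isCoprime_iff_gcd_eq_one.1 hae) ha2 hf
  obtain ⟨A, hA⟩ : (2 : ℤ) ∣ b + (u ^ 2 + v ^ 2) := by omega
  obtain ⟨B, hB⟩ : (2 : ℤ) ∣ b - (u ^ 2 + v ^ 2) := by omega
  have hbf : IsCoprime b (u ^ 2 + v ^ 2) := by
    have t := ((cop6 f2 f3).mul_left (c1.pow_left (m := 2))).add_mul_left_left (u ^ 2 + v ^ 2)
    have e : 6 * (2 * u * v) ^ 2 + (u ^ 2 + v ^ 2) * (u ^ 2 + v ^ 2) = b * b := by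
      linear_combination hg
    rw [e] at t
    exact t.of_mul_left_left
  have hAB : IsCoprime A B := by
    obtain ⟨s, t, hst⟩ := hbf
    refine ⟨s + t, s - t, ?_⟩
    have e1 : b = A + B := by omega
    have e2 : u ^ 2 + v ^ 2 = A - B := by omega
    rw [e1, e2] at hst
    linear_combination hst
  have h4 : (u ^ 2 + v ^ 2) % 4 = 1 := by
    rcases hpar with ⟨h5, h6⟩ | ⟨h5, h6⟩
    · obtain ⟨u', rfl⟩ : ∃ t, u = 2 * t := ⟨u / 2, by omega⟩
      obtain ⟨v', rfl⟩ : ∃ t, v = 2 * t + 1 := ⟨v / 2, by omega⟩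
      have : (2 * u') ^ 2 + (2 * v' + 1) ^ 2 = 4 * (u' ^ 2 + v' ^ 2 + v') + 1 := by ring
      omega
    · obtain ⟨u', rfl⟩ : ∃ t, u = 2 * t + 1 := ⟨u / 2, by omega⟩
      obtain ⟨v', rfl⟩ : ∃ t, v = 2 * t := ⟨v / 2, by omega⟩
      have : (2 * u' + 1) ^ 2 + (2 * v') ^ 2 = 4 * (u' ^ 2 + v' ^ 2 + u') + 1 := by ring
      omega
  have h33 : (u ^ 2 + v ^ 2) % 3 = 1 := by
    have t1 : u % 3 = 0 ∨ u % 3 = 1 ∨ u % 3 = 2 := by omega
    have t2 : v % 3 = 0 ∨ v % 3 = 1 ∨ v % 3 = 2 := by omega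
    have t3 : (2 * u * v) % 3 = 0 := by omega
    have t4 : (u ^ 2 + v ^ 2) % 3 ≠ 0 := by omega
    rcases t1 with t1 | t1 | t1 <;> rcases t2 with t2 | t2 | t2 <;>
      simp [pow_two, Int.mul_emod, Int.add_emod, t1, t2] at t3 t4 ⊢
  have huv : (2 : ℤ) ∣ u * v := by
    rcases hpar with ⟨h5, -⟩ | ⟨-, h6⟩
    · exact Dvd.dvd.mul_right (by omega) _
    · exact Dvd.dvd.mul_left (by omega) _
  have hB0 : 0 ≤ B := by
    have : u ^ 2 + v ^ 2 ≤ b := by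
      by_contra hc
      push Not at hc
      nlinarith [sq_nonneg (2 * u * v)]
    omega
  have hprod : A * B = 6 * (u * v) ^ 2 := by
    have : (2 * A) * (2 * B) = 24 * (u * v) ^ 2 := by
      rw [← hA, ← hB]; linear_combination -hg
    linarith
  obtain ⟨m, n, rfl, rfl⟩ := six_sq (A := A) (B := B) (k := u * v) (u := u) (v := v) (by omega) hB0
    hAB hprod (by omega) huv h4 h33
  have hm : m ≠ 0 := by rintro rfl; omega
  have hmq : (m : ℚ) ≠ 0 := by exact_mod_cast hm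
  have e1 : b = m ^ 2 + 6 * n ^ 2 := by omega
  have e2 : u ^ 2 + v ^ 2 = m ^ 2 - 6 * n ^ 2 := by omega
  have e3 : (u * v) ^ 2 = (m * n) ^ 2 := by linarith
  have e2q : (u : ℚ) ^ 2 + v ^ 2 = m ^ 2 - 6 * n ^ 2 := by exact_mod_cast e2
  have e3q : ((u : ℚ) * v) ^ 2 = (m * n) ^ 2 := by exact_mod_cast e3
  have hfq : (u : ℚ) ^ 2 + v ^ 2 ≠ 0 := by exact_mod_cast hf.ne'
  have hbq : (m : ℚ) ^ 2 + 6 * n ^ 2 ≠ 0 := by rw [e1] at hb; exact_mod_cast hb.ne'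
  refine ⟨⟨(v : ℚ) / m, (u : ℚ) / m, ?_⟩, ?_⟩
  · field_simp
    linear_combination (m : ℚ) ^ 2 * e2q + 6 * e3q
  · constructor
    · simp only [add_x]
      rw [show (1 : ℚ) - 6 * (v / m) * (v / m) * (u / m) * (u / m) = (u ^ 2 + v ^ 2) / m ^ 2 by
        field_simp; linear_combination -(m : ℚ) ^ 2 * e2q - 6 * e3q]
      push_cast
      field_simp
      ring
    · simp only [add_y]
      rw [show (1 : ℚ) + 6 * (v / m) * (v / m) * (u / m) * (u / m) = (m ^ 2 + 6 * n ^ 2) / m ^ 2 by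
        field_simp; linear_combination 6 * e3q, e1]
      push_cast
      field_simp

end Pool.Agent.H83.Edw
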