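import Pool.Agent.H83.Edw2

set_option autoImplicit false

namespace Pool.Agent.H83.Edw

section Val
variable (p : ℕ) [Fact p.Prime]

/-- the valuation -/
abbrev V : Valuation ℚ (WithZero (Multiplicative ℤ)) := Rat.padicValuation p

theorem v_int (n : ℤ) : V p (n : ℚ) ≤ 1 := by
  rw [V, Rat.padicValuation_cast]; exact Int.padicValuation_le_one p n

theorem v_int_lt {n : ℤ} : V p (n : ℚ) < 1 ↔ (p : ℤ) ∣ n := by
  rw [V, Rat.padicValuation_cast]; exact Int.padicValuation_lt_one_iff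

theorem v_int_eq {n : ℤ} : V p (n : ℚ) = 1 ↔ ¬ (p : ℤ) ∣ n := by
  rw [V, Rat.padicValuation_cast]; exact Int.padicValuation_eq_one_iff

theorem v6 : V p 6 ≤ 1 := by simpa using v_int p 6
theorem v2 : V p 2 ≤ 1 := by simpa using v_int p 2

variable {p}

theorem lm {a b : ℚ} (ha : V p a ≤ 1) (hb : V p b ≤ 1) : V p (a * b) ≤ 1 := by
  rw [map_mul]; exact mul_le_one' ha hb

theorem ltm {a b : ℚ} (ha : V p a < 1) (hb : V p b ≤ 1) : V p (a * b) < 1 := by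
  rw [map_mul]; exact (mul_le_mul_right hb _).trans_lt (by simpa using ha)

theorem mlt {a b : ℚ} (ha : V p a ≤ 1) (hb : V p b < 1) : V p (a * b) < 1 := by
  rw [mul_comm]; exact ltm hb ha

theorem lsq {a : ℚ} (ha : V p a ≤ 1) : V p (a ^ 2) ≤ 1 := by rw [pow_two]; exact lm ha ha

theorem ltsq {a : ℚ} (ha : V p a < 1) : V p (a ^ 2) < 1 := by rw [pow_two]; exact ltm ha ha.le

theorem v_den {x : ℚ} (hx : V p x ≤ 1) : V p (x.den : ℚ) = 1 := by
  have := (v_int_eq p (n := x.den)).2 (by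
    rw [Int.natCast_dvd_natCast]; exact Rat.padicValuation_le_one_iff.1 hx)
  simpa using this

theorem lt_iff_num {x : ℚ} : V p x < 1 ↔ (p : ℤ) ∣ x.num := by
  rw [← v_int_lt]
  have hx : (x.num : ℚ) = x * x.den := by simp
  constructor
  · intro h
    rw [hx]; exact ltm h (by simpa using v_int p x.den)
  · intro h
    have h1 : V p x ≤ 1 := by
      rw [V, Rat.padicValuation_le_one_iff]
      intro hd
      rw [v_int_lt, Int.natCast_dvd] at h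
      exact Nat.not_coprime_of_dvd_of_dvd (Nat.Prime.one_lt Fact.out) h hd x.reduced
    rw [hx, map_mul, v_den h1, mul_one] at h
    exact h

theorem root {u : ℚ} (hu : V p u ≤ 1) (h : V p (u ^ 2 + 6) < 1) : IsSquare (-6 : ZMod p) := by
  have hx : (u.num : ℚ) = u * u.den := by simp
  have h1 : (p : ℤ) ∣ u.num ^ 2 + 6 * (u.den : ℤ) ^ 2 := by
    rw [← v_int_lt]
    push_cast
    rw [hx, show (u * u.den) ^ 2 + 6 * (u.den : ℚ) ^ 2 = (u ^ 2 + 6) * u.den ^ 2 by ring]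
    exact ltm h (lsq (v_den hu).le)
  have h2 : ((u.den : ℕ) : ZMod p) ≠ 0 := by
    rw [Ne, ZMod.natCast_eq_zero_iff]
    exact Rat.padicValuation_le_one_iff.1 hu
  rw [← ZMod.intCast_zmod_eq_zero_iff_dvd] at h1
  push_cast at h1
  refine ⟨(u.num : ZMod p) / (u.den : ZMod p), ?_⟩
  field_simp
  linear_combination -h1

theorem unit_of_lt {x y : ℚ} (h : x ^ 2 + y ^ 2 + 6 * x ^ 2 * y ^ 2 = 1) (hx : V p x < 1) :
    V p y = 1 := by
  have h1 : V p (y ^ 2 * (1 + 6 * x ^ 2)) = V p (1 - x ^ 2) := by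
    congr 1; linear_combination h
  rw [map_mul, (V p).map_one_add_of_lt (mlt (v6 p) (ltsq hx)), (V p).map_one_sub_of_lt (ltsq hx),
    mul_one, map_pow] at h1
  exact (pow_eq_one_iff_of_nonneg zero_le two_ne_zero).1 h1

variable (p)

/-- integral points -/
def IntP (Q : Pt) : Prop := V p Q.x ≤ 1 ∧ V p Q.y ≤ 1

variable {p}

theorem den_unit {Q S : Pt} (hQ : IntP p Q) (hS : V p (S.x * S.y) < 1) :
    V p (1 - 6 * Q.x * S.x * Q.y * S.y) = 1 ∧ V p (1 + 6 * Q.x * S.x * Q.y * S.y) = 1 := by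
  have : V p (6 * Q.x * S.x * Q.y * S.y) < 1 := by
    rw [show 6 * Q.x * S.x * Q.y * S.y = 6 * Q.x * Q.y * (S.x * S.y) by ring]
    exact mlt (lm (lm (v6 p) hQ.1) hQ.2) hS
  exact ⟨(V p).map_one_sub_of_lt this, (V p).map_one_add_of_lt this⟩

theorem intP_add {Q S : Pt} (hQ : IntP p Q) (hS : IntP p S) (hS' : V p (S.x * S.y) < 1) :
    IntP p (Q + S) := by
  obtain ⟨a, b⟩ := den_unit hQ hS'
  constructor
  · rw [add_x, map_div₀, a, div_one]
    exact (V p).map_add_le (lm hQ.1 hS.2) (lm hQ.2 hS.1)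
  · rw [add_y, map_div₀, b, div_one]
    exact (V p).map_sub_le (lm hQ.2 hS.2) (lm hQ.1 hS.1)

variable (p)

/-- points reducing to the four torsion points -/
def B : AddSubgroup Pt where
  carrier := {Q | IntP p Q ∧ V p (Q.x * Q.y) < 1}
  zero_mem' := ⟨⟨by simp, by simp⟩, by simp⟩
  neg_mem' := fun {Q} h => ⟨⟨by simpa using h.1.1, h.1.2⟩, by simpa using h.2⟩
  add_mem' := fun {Q S} hQ hS => ⟨intP_add hQ.1 hS.1 hS.2, by
    obtain ⟨a, b⟩ := den_unit hQ.1 hS.2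
    rw [map_mul, add_x, add_y, map_div₀, map_div₀, a, b, div_one, div_one, ← map_mul,
      show (Q.x * S.y + Q.y * S.x) * (Q.y * S.y - Q.x * S.x) =
        Q.x * Q.y * (S.y ^ 2 - S.x ^ 2) + S.x * S.y * (Q.y ^ 2 - Q.x ^ 2) by ring]
    exact (V p).map_add_lt (ltm hQ.2 ((V p).map_sub_le (lsq hS.1.2) (lsq hS.1.1)))
      (ltm hS.2 ((V p).map_sub_le (lsq hQ.1.2) (lsq hQ.1.1)))⟩

variable {p}

theorem mem_B {Q : Pt} : Q ∈ B p ↔ IntP p Q ∧ V p (Q.x * Q.y) < 1 := Iff.rfl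

theorem mem_B_x {Q : Pt} (h : V p Q.x < 1) : Q ∈ B p :=
  ⟨⟨h.le, (unit_of_lt Q.h h).le⟩, ltm h (unit_of_lt Q.h h).le⟩

theorem mem_B_y {Q : Pt} (h : V p Q.y < 1) : Q ∈ B p :=
  ⟨⟨(unit_of_lt (swap Q.h) h).le, h.le⟩, mlt (unit_of_lt (swap Q.h) h).le h⟩

theorem dbl_x (Q : Pt) : (Q + Q).x = 2 * (Q.x * Q.y) / (Q.x ^ 2 + Q.y ^ 2) := by
  rw [add_x]
  congr 1
  · ring
  · linear_combination -Q.h

theorem dbl_B {Q : Pt} (h : Q ∈ B p) : V p (Q + Q).x = V p 2 * V p (Q.x * Q.y) := by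
  rw [add_x, map_div₀, (den_unit h.1 h.2).1, div_one, ← map_mul]
  congr 1; ring

theorem dbl_B_lt {Q : Pt} (h : Q ∈ B p) : V p (Q + Q).x < 1 := by
  rw [dbl_B h, ← map_mul]; exact mlt (v2 p) h.2

theorem ne23 {x y : ℚ} (h : x ^ 2 + y ^ 2 + 6 * x ^ 2 * y ^ 2 = 1) (hx : 1 < V p x) :
    ¬ (p : ℤ) ∣ 6 := by
  have hd : p ∣ x.den := by
    by_contra hc
    exact absurd (Rat.padicValuation_le_one_iff.2 hc) (not_le.2 hx)
  intro h6
  have hp : p.Prime := Fact.out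
  have h6' : p ∣ 2 * 3 := by exact_mod_cast h6
  rcases (Nat.Prime.dvd_mul hp).1 h6' with h' | h'
  · have := (Nat.prime_dvd_prime_iff_eq hp Nat.prime_two).1 h'
    subst this
    exact den2 h (by exact_mod_cast hd)
  · have := (Nat.prime_dvd_prime_iff_eq hp Nat.prime_three).1 h'
    subst this
    exact den3 h (by exact_mod_cast hd)

theorem pole {x y : ℚ} (h : x ^ 2 + y ^ 2 + 6 * x ^ 2 * y ^ 2 = 1) (hx : 1 < V p x) :
    V p (2 * (x * y) / (x ^ 2 + y ^ 2)) < 1 ∧ IsSquare (-6 : ZMod p) ∧ ¬ (p : ℤ) ∣ 6 := by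
  have h6 := ne23 h hx
  have h6' : V p 6 = 1 := by simpa using (v_int_eq p (n := 6)).2 h6
  have hx0 : x ≠ 0 := by rintro rfl; simp at hx
  have hi : V p x⁻¹ < 1 := ((V p).one_lt_val_iff hx0).1 hx
  have hy : V p y ≤ 1 := by
    by_contra hc
    push Not at hc
    have hy0 : y ≠ 0 := by rintro rfl; simp at hc
    have hj : V p y⁻¹ < 1 := ((V p).one_lt_val_iff hy0).1 hc
    have : (6 : ℚ) = x⁻¹ ^ 2 * y⁻¹ ^ 2 - x⁻¹ ^ 2 - y⁻¹ ^ 2 := by
      field_simp; linear_combination h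
    rw [this] at h6'
    exact absurd h6' ((V p).map_sub_lt ((V p).map_sub_lt (ltm (ltsq hi) (ltsq hj).le) (ltsq hi))
      (ltsq hj)).ne
  have h1 : V p (1 + 6 * y ^ 2) < 1 := by
    rw [show 1 + 6 * y ^ 2 = x⁻¹ ^ 2 * (1 - y ^ 2) by field_simp; linear_combination h]
    exact ltm (ltsq hi) ((V p).map_sub_le (by simp) (lsq hy))
  have hy1 : ¬ V p y < 1 := fun hc =>
    absurd ((V p).map_one_add_of_lt (mlt (v6 p) (ltsq hc))) h1.ne
  have hy0 : y ≠ 0 := by rintro rfl; simp at hy1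
  have hy2 : V p y⁻¹ ≤ 1 := ((V p).one_le_val_iff hy0).1 (not_lt.1 hy1)
  refine ⟨?_, root hy2 ?_, h6⟩
  · rw [show 2 * (x * y) / (x ^ 2 + y ^ 2) = 2 * (x⁻¹ * y) / (1 + (x⁻¹ * y) ^ 2) by
      field_simp, map_div₀, (V p).map_one_add_of_lt (ltsq (ltm hi hy)), div_one]
    exact mlt (v2 p) (ltm hi hy)
  · rw [show y⁻¹ ^ 2 + 6 = (1 + 6 * y ^ 2) * y⁻¹ ^ 2 by field_simp]
    exact ltm h1 (lsq hy2)

theorem not_int {Q : Pt} (h : ¬ IntP p Q) :
    Q + Q ∈ B p ∧ IsSquare (-6 : ZMod p) ∧ ¬ (p : ℤ) ∣ 6 := by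
  rw [IntP, not_and_or, not_le, not_le] at h
  rcases h with h | h
  · obtain ⟨a, b⟩ := pole Q.h h
    exact ⟨mem_B_x (by rw [dbl_x]; exact a), b⟩
  · obtain ⟨a, b⟩ := pole (swap Q.h) h
    exact ⟨mem_B_x (by rw [dbl_x, mul_comm Q.x, add_comm]; exact a), b⟩

theorem not_int_add {Q S : Pt} (h : ¬ IntP p Q) (hS : S ∈ B p) : ¬ IntP p (Q + S) := by
  intro hc
  have := intP_add hc (neg_mem hS).1 (neg_mem hS).2
  rw [add_neg_cancel_right] at this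
  exact h this

end Val

/-- the point of order four -/
def R : Pt := ⟨1, 0, by norm_num⟩
/-- the point of infinite order -/
def P : Pt := ⟨4 / 5, 3 / 11, by norm_num⟩

theorem addR_x (Q : Pt) : (Q + R).x = Q.y := by simp [add_x, R]
theorem addR_y (Q : Pt) : (Q + R).y = -Q.x := by simp [add_y, R]

instance : Fact (Nat.Prime 3) := ⟨Nat.prime_three⟩

theorem int3 (Q : Pt) : IntP 3 Q :=
  ⟨Rat.padicValuation_le_one_iff.2 fun h => den3 Q.h (by exact_mod_cast h),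
    Rat.padicValuation_le_one_iff.2 fun h => den3 (swap Q.h) (by exact_mod_cast h)⟩

theorem int2 (Q : Pt) : IntP 2 Q :=
  ⟨Rat.padicValuation_le_one_iff.2 fun h => den2 Q.h (by exact_mod_cast h),
    Rat.padicValuation_le_one_iff.2 fun h => den2 (swap Q.h) (by exact_mod_cast h)⟩

theorem three_dvd (Q : Pt) : (3 : ℤ) ∣ Q.x.num ∨ (3 : ℤ) ∣ Q.y.num := by
  have h := int_eq Q.h
  have f3 := den3 Q.h
  have b3 := den3 (swap Q.h)
  generalize Q.x.num = e at *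
  generalize Q.y.num = a at *
  generalize (Q.x.den : ℤ) = f at *
  generalize (Q.y.den : ℤ) = b at *
  by_contra hc
  have h' := congrArg (· % 3) h
  have t1 : e % 3 = 1 ∨ e % 3 = 2 := by omega
  have t2 : a % 3 = 1 ∨ a % 3 = 2 := by omega
  have t3 : f % 3 = 1 ∨ f % 3 = 2 := by omega
  have t4 : b % 3 = 1 ∨ b % 3 = 2 := by omega
  rcases t1 with t1 | t1 <;> rcases t2 with t2 | t2 <;> rcases t3 with t3 | t3 <;>
    rcases t4 with t4 | t4 <;> simp [pow_two, Int.mul_emod, Int.add_emod, t1, t2, t3, t4] at h'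

theorem two_dvd (Q : Pt) : (2 : ℤ) ∣ Q.x.num ∨ (2 : ℤ) ∣ Q.y.num := by
  have h := int_eq Q.h
  have f3 := den2 Q.h
  have b3 := den2 (swap Q.h)
  generalize Q.x.num = e at *
  generalize Q.y.num = a at *
  generalize (Q.x.den : ℤ) = f at *
  generalize (Q.y.den : ℤ) = b at *
  by_contra hc
  have h' := congrArg (· % 2) h
  have t1 : e % 2 = 1 := by omega
  have t2 : a % 2 = 1 := by omega
  have t3 : f % 2 = 1 := by omega
  have t4 : b % 2 = 1 := by omega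
  simp [pow_two, Int.mul_emod, Int.add_emod, t1, t2, t3, t4] at h'

theorem alpha (Q : Pt) : IsSquare (1 + 6 * Q.x ^ 2) ∨ IsSquare (1 + 6 * (Q + R).x ^ 2) := by
  rw [addR_x]
  have hx : (Q.x.num : ℚ) = Q.x * Q.x.den := by simp
  have hf : (Q.x.den : ℚ) ≠ 0 := by positivity
  have hb : (Q.y.den : ℚ) ≠ 0 := by positivity
  rcases gg Q.h with hg | hg
  · left
    have hg' : (Q.x.den : ℚ) ^ 2 + 6 * (Q.x.num : ℚ) ^ 2 = (Q.y.den : ℚ) ^ 2 := by exact_mod_cast hg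
    refine ⟨Q.y.den / Q.x.den, ?_⟩
    rw [hx] at hg'
    field_simp
    linear_combination hg'
  · right
    have hg' : (Q.x.den : ℚ) ^ 2 + 6 * (Q.x.num : ℚ) ^ 2 = 7 * (Q.y.den : ℚ) ^ 2 := by
      exact_mod_cast hg
    refine ⟨Q.x.den / Q.y.den, ?_⟩
    rw [hx] at hg'
    field_simp
    have := Q.h
    linear_combination (-(1 + 6 * Q.y ^ 2) / 7) * hg' + (6 * (Q.x.den : ℚ) ^ 2 / 7) * this

theorem alpha_add {Q S : Pt} (hQ : IsSquare (1 + 6 * Q.x ^ 2)) (hS : IsSquare (1 + 6 * S.x ^ 2)) :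
    IsSquare (1 + 6 * (Q + S).x ^ 2) := by
  obtain ⟨w1, h1'⟩ := hQ
  obtain ⟨w2, h2'⟩ := hS
  have hd := (dm_pos Q.h S.h).ne'
  rw [add_x]
  obtain ⟨x1, y1, h1⟩ := Q
  obtain ⟨x2, y2, h2⟩ := S
  simp only at *
  have a1 : w1 ≠ 0 := by rintro rfl; nlinarith [sq_nonneg x1]
  have a2 : w2 ≠ 0 := by rintro rfl; nlinarith [sq_nonneg x2]
  have key : ((1 - 6 * x1 * x2 * y1 * y2) ^ 2 + 6 * (x1 * y2 + y1 * x2) ^ 2) * (w1 * w1) * (w2 * w2)
      = (1 + 6 * x1 ^ 2 + 6 * x2 ^ 2 - 6 * x1 ^ 2 * x2 ^ 2) ^ 2 := by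
    rw [← h1', ← h2']
    linear_combination ((6)*x2^2 + (36)*x2^4 + (36)*x1^2*x2^2*y2^2 + (216)*x1^2*x2^4*y2^2) * h1 +
      ((6)*x1^2 + (36)*x1^2*x2^2 + (36)*x1^4 + (-36)*x1^4*x2^2) * h2
  refine ⟨(1 + 6 * x1 ^ 2 + 6 * x2 ^ 2 - 6 * x1 ^ 2 * x2 ^ 2) /
    (w1 * w2 * (1 - 6 * x1 * x2 * y1 * y2)), ?_⟩
  generalize 1 - 6 * x1 * x2 * y1 * y2 = D at *
  field_simp
  linear_combination key

theorem step1 (Q : Pt) (h : IsSquare (1 + 6 * Q.x ^ 2)) :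
    (∃ Q' : Pt, Q = Q' + Q') ∨ ∃ Q' : Pt, Q + P = Q' + Q' := by
  rcases three_dvd Q with h3 | h3
  · exact Or.inl (halve Q h h3)
  · right
    refine halve _ (alpha_add h ⟨11 / 5, by norm_num [P]⟩) ?_
    have hy : V 3 P.y < 1 := (lt_iff_num (p := 3)).2 (by norm_num [P])
    have hP : P ∈ B 3 := mem_B_y hy
    have := (lt_iff_num (p := 3) (x := (Q + P).x)).1 (by
      rw [add_x, map_div₀, (den_unit (int3 Q) hP.2).1, div_one]
      exact (V 3).map_add_lt (mlt (int3 Q).1 hy)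
        (ltm ((lt_iff_num (p := 3)).2 (by exact_mod_cast h3)) hP.1.1))
    exact_mod_cast this

theorem step (Q : Pt) : ∃ g ∈ ({0, -P, -R, -R - P} : Set Pt), ∃ Q' : Pt, Q = g + (Q' + Q') := by
  rcases alpha Q with h | h
  · rcases step1 _ h with ⟨Q', h⟩ | ⟨Q', h⟩
    · exact ⟨0, by simp, Q', by simpa using h⟩
    · exact ⟨-P, by simp, Q', by rw [← h]; abel⟩
  · rcases step1 _ h with ⟨Q', h⟩ | ⟨Q', h⟩
    · exact ⟨-R, by simp, Q', by rw [← h]; abel⟩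
    · exact ⟨-R - P, by simp, Q', by rw [← h]; abel⟩

theorem den_add (S : Pt) : ∃ C : ℤ, 0 < C ∧ ∀ Q : Pt,
    ((S + Q).y.den : ℤ) ≤ C * (Q.y.den : ℤ) ^ 2 := by
  have hf0 : (0 : ℤ) < S.x.den := by exact_mod_cast S.x.den_pos
  have hb0 : (0 : ℤ) < S.y.den := by exact_mod_cast S.y.den_pos
  refine ⟨6 * S.x.den * S.y.den, by positivity, fun Q => ?_⟩
  have hf : (0 : ℤ) < Q.x.den := by exact_mod_cast Q.x.den_pos
  have hb : (0 : ℤ) < Q.y.den := by exact_mod_cast Q.y.den_pos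
  have h1 := dp_pos S.h Q.h
  have h2 := dm_pos S.h Q.h
  have e1 : (S.x.num : ℚ) = S.x * S.x.den := by simp
  have e2 : (S.y.num : ℚ) = S.y * S.y.den := by simp
  have e3 : (Q.x.num : ℚ) = Q.x * Q.x.den := by simp
  have e4 : (Q.y.num : ℚ) = Q.y * Q.y.den := by simp
  set N : ℤ := S.y.num * Q.y.num * S.x.den * Q.x.den - S.x.num * Q.x.num * S.y.den * Q.y.den
    with hN
  set D : ℤ := S.x.den * Q.x.den * S.y.den * Q.y.den + 6 * S.x.num * Q.x.num * S.y.num * Q.y.num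
    with hD
  have hpos : (0 : ℚ) < (S.x.den : ℚ) * Q.x.den * S.y.den * Q.y.den := by positivity
  have hDq : (D : ℚ) = (S.x.den : ℚ) * Q.x.den * S.y.den * Q.y.den *
      (1 + 6 * S.x * Q.x * S.y * Q.y) := by
    rw [hD]; push_cast; rw [e1, e2, e3, e4]; ring
  have hNq : (N : ℚ) = (S.x.den : ℚ) * Q.x.den * S.y.den * Q.y.den * (S.y * Q.y - S.x * Q.x) := by
    rw [hN]; push_cast; rw [e1, e2, e3, e4]; ring
  have hy : (S + Q).y = Rat.divInt N D := by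
    rw [Rat.divInt_eq_div, hDq, hNq, add_y, mul_div_mul_left _ _ hpos.ne']
  have hD0 : 0 < D := by
    have : (0 : ℚ) < D := by rw [hDq]; positivity
    exact_mod_cast this
  have hD2 : D ≤ 2 * (S.x.den * Q.x.den * S.y.den * Q.y.den) := by
    have : (D : ℚ) ≤ 2 * ((S.x.den : ℚ) * Q.x.den * S.y.den * Q.y.den) := by
      rw [hDq]; nlinarith
    exact_mod_cast this
  have h3 := Int.le_of_dvd hD0 (Rat.den_dvd N D)
  rw [← hy] at h3
  have h4 := den_le Q.h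
  have h5 : (S.x.den : ℤ) * Q.x.den * S.y.den * Q.y.den ≤ S.x.den * (3 * Q.y.den) * S.y.den *
      Q.y.den := by gcongr
  nlinarith

theorem dbl_y (Q : Pt) :
    (Q + Q).y * (-6 * Q.y ^ 4 + 12 * Q.y ^ 2 + 1) = 6 * Q.y ^ 4 + 2 * Q.y ^ 2 - 1 := by
  have h := (dp_pos Q.h Q.h).ne'
  rw [add_y, div_mul_eq_mul_div, div_eq_iff h]
  have := Q.h
  linear_combination (-6 * Q.y ^ 4 - 2 * Q.y ^ 2 + 1 - 2 + 2 * Q.y ^ 2 * 1) * this

theorem dbl_y_int (Q : Pt) : (Q + Q).y.num *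
      (-6 * Q.y.num ^ 4 + 12 * Q.y.num ^ 2 * (Q.y.den : ℤ) ^ 2 + (Q.y.den : ℤ) ^ 4) =
    ((Q + Q).y.den : ℤ) *
      (6 * Q.y.num ^ 4 + 2 * Q.y.num ^ 2 * (Q.y.den : ℤ) ^ 2 - (Q.y.den : ℤ) ^ 4) := by
  have e1 : ((Q + Q).y.num : ℚ) = (Q + Q).y * (Q + Q).y.den := by simp
  have e2 : (Q.y.num : ℚ) = Q.y * Q.y.den := by simp
  have : ((Q + Q).y.num : ℚ) * (-6 * (Q.y.num : ℚ) ^ 4 + 12 * (Q.y.num : ℚ) ^ 2 * (Q.y.den : ℚ) ^ 2
      + (Q.y.den : ℚ) ^ 4) = ((Q + Q).y.den : ℚ) *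
      (6 * (Q.y.num : ℚ) ^ 4 + 2 * (Q.y.num : ℚ) ^ 2 * (Q.y.den : ℚ) ^ 2 - (Q.y.den : ℚ) ^ 4) := by
    rw [e1, e2]
    linear_combination (((Q + Q).y.den : ℚ) * (Q.y.den : ℚ) ^ 4) * dbl_y Q
  exact_mod_cast this

theorem den_dbl (Q : Pt) : (Q.y.den : ℤ) ^ 4 ≤ 84 * ((Q + Q).y.den : ℤ) := by
  have h := dbl_y_int Q
  have h1 := cop Q.y
  have h2 := cop (Q + Q).y
  have h3 := num_le (abs_le (swap Q.h))
  have hb : (0 : ℤ) < Q.y.den := by exact_mod_cast Q.y.den_pos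
  have hb' : (0 : ℤ) < (Q + Q).y.den := by exact_mod_cast (Q + Q).y.den_pos
  generalize Q.y.num = a at *
  generalize (Q.y.den : ℤ) = b at *
  generalize (Q + Q).y.num = a' at *
  generalize ((Q + Q).y.den : ℤ) = b' at *
  obtain ⟨k, hk⟩ : b' ∣ -6 * a ^ 4 + 12 * a ^ 2 * b ^ 2 + b ^ 4 :=
    h2.symm.dvd_of_dvd_mul_left ⟨_, h⟩
  have hN : 6 * a ^ 4 + 2 * a ^ 2 * b ^ 2 - b ^ 4 = a' * k := by
    apply mul_left_cancel₀ hb'.ne'
    rw [← h, hk]; ring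
  have d1 : k ∣ 84 * a ^ 6 := ⟨(12 * a ^ 2 + b ^ 2) * a' + (-2 * a ^ 2 + b ^ 2) * b', by
    linear_combination (12 * a ^ 2 + b ^ 2) * hN + (-2 * a ^ 2 + b ^ 2) * hk⟩
  have d2 : k ∣ 84 * b ^ 6 := ⟨12 * ((3 * a ^ 2 - 6 * b ^ 2) * a' + (3 * a ^ 2 + b ^ 2) * b'), by
    linear_combination 12 * (3 * a ^ 2 - 6 * b ^ 2) * hN + 12 * (3 * a ^ 2 + b ^ 2) * hk⟩
  obtain ⟨s, t, hst⟩ : IsCoprime (a ^ 6) (b ^ 6) := h1.pow
  have d3 : k ∣ 84 := by
    have := dvd_add (d1.mul_left s) (d2.mul_left t)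
    rwa [show s * (84 * a ^ 6) + t * (84 * b ^ 6) = 84 * (s * a ^ 6 + t * b ^ 6) by ring, hst,
      mul_one] at this
  have hk2 := Int.le_of_dvd (by norm_num) d3
  nlinarith [mul_nonneg (sq_nonneg a) (sub_nonneg.2 h3), mul_nonneg (sq_nonneg a) (sq_nonneg b)]

theorem finite_rat (n : ℕ) : {q : ℚ | q ^ 2 ≤ 1 ∧ q.den ≤ n}.Finite := by
  refine (((Set.finite_Icc (-(n : ℤ)) n).prod (Set.finite_Icc (0 : ℕ) n)).image
    (fun z => (z.1 : ℚ) / (z.2 : ℚ))).subset ?_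
  rintro q ⟨h1, h2⟩
  refine ⟨(q.num, q.den), ⟨?_, ⟨Nat.zero_le _, h2⟩⟩, Rat.num_div_den q⟩
  have := abs_le_of_sq_le_sq' (num_le h1) (by positivity)
  have h3 : (q.den : ℤ) ≤ n := by exact_mod_cast h2
  constructor <;> simp only <;> omega

instance : Northcott (fun Q : Pt => Real.log (Q.y.den : ℝ)) := ⟨fun b => by
  refine Set.Finite.of_finite_image (f := fun Q : Pt => (Q.x, Q.y))
    (((finite_rat (3 * ⌈Real.exp b⌉₊)).prod (finite_rat ⌈Real.exp b⌉₊)).subset ?_) ?_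
  · rintro _ ⟨Q, hQ, rfl⟩
    have h1 : Q.y.den ≤ ⌈Real.exp b⌉₊ := by
      have : (Q.y.den : ℝ) ≤ Real.exp b :=
        (Real.log_le_iff_le_exp (by exact_mod_cast Q.y.den_pos)).1 hQ
      exact_mod_cast this.trans (Nat.le_ceil _)
    have h2 := den_le Q.h
    exact ⟨⟨abs_le Q.h, by simp only; omega⟩, ⟨abs_le (swap Q.h), h1⟩⟩
  · intro a _ b _ h
    exact Pt.ext (congrArg Prod.fst h) (congrArg Prod.snd h)⟩

theorem fg : AddGroup.FG Pt := by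
  choose C hC0 hC using den_add
  have hs : ({0, -P, -R, -R - P} : Set Pt).Finite := Set.toFinite _
  obtain ⟨c, hc⟩ := (hs.image fun g => Real.log (C (-g) : ℝ)).bddAbove
  refine AddGroup.fg_of_descent (f := nsmulAddMonoidHom 2) (s := {0, -P, -R, -R - P})
    (h := fun Q : Pt => Real.log (Q.y.den : ℝ)) (a := 2) (b := 4) (c := max c (Real.log 84))
    ?_ (by norm_num) (by norm_num) hs ?_ ?_ ?_
  · rintro U _ ⟨u, hu, rfl⟩
    exact U.nsmul_mem hu 2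
  · refine Set.eq_univ_of_forall fun Q => ?_
    obtain ⟨g, hg, Q', h⟩ := step Q
    exact ⟨g, hg, Q' + Q', ⟨Q', by simp [two_nsmul]⟩, h.symm⟩
  · intro g hg x
    have h1 := hC (-g) (g + x)
    rw [neg_add_cancel_left] at h1
    have h2 : (x.y.den : ℝ) ≤ (C (-g) : ℝ) * ((g + x).y.den : ℝ) ^ 2 := by exact_mod_cast h1
    have h3 : (0 : ℝ) < C (-g) := by exact_mod_cast hC0 _
    have h4 : (0 : ℝ) < (g + x).y.den := by exact_mod_cast (g + x).y.den_pos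
    have h5 := Real.log_le_log (by exact_mod_cast x.y.den_pos) h2
    rw [Real.log_mul h3.ne' (by positivity), Real.log_pow] at h5
    have h6 := hc ⟨g, hg, rfl⟩
    have h7 := le_max_left c (Real.log 84)
    push_cast at h5
    linarith
  · intro x
    have h2 : (x.y.den : ℝ) ^ 4 ≤ 84 * ((x + x).y.den : ℝ) := by exact_mod_cast den_dbl x
    have h4 : (0 : ℝ) < (x + x).y.den := by exact_mod_cast (x + x).y.den_pos
    have h3 : (0 : ℝ) < x.y.den := by exact_mod_cast x.y.den_pos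
    have h5 := Real.log_le_log (by positivity) h2
    rw [Real.log_mul (by norm_num) h4.ne', Real.log_pow] at h5
    have h7 := le_max_right c (Real.log 84)
    push_cast at h5
    simp only [nsmulAddMonoidHom_apply, two_nsmul]
    linarith

end Pool.Agent.H83.Edw
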