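import Pool.Agent.H83.Edw3

set_option autoImplicit false

namespace Pool.Agent.H83.Edw

theorem memB2 (Q : Pt) : Q ∈ B 2 := by
  rcases two_dvd Q with h | h
  · exact mem_B_x ((lt_iff_num (p := 2)).2 (by exact_mod_cast h))
  · exact mem_B_y ((lt_iff_num (p := 2)).2 (by exact_mod_cast h))

theorem v_dbl (Q : Pt) : V 2 ((Q + Q).x * (Q + Q).y) = V 2 2 * V 2 (Q.x * Q.y) := by
  rw [map_mul, unit_of_lt (Q + Q).h (dbl_B_lt (memB2 Q)), mul_one, dbl_B (memB2 Q)]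

theorem nz_dbl {Q : Pt} (h : Q.x * Q.y ≠ 0) : (Q + Q).x * (Q + Q).y ≠ 0 := by
  rw [← (V 2).ne_zero_iff, v_dbl, ← map_mul, (V 2).ne_zero_iff]
  exact mul_ne_zero two_ne_zero h

theorem pow_succ_smul (k : ℕ) (Q : Pt) : 2 ^ (k + 1) • Q = 2 ^ k • Q + 2 ^ k • Q := by
  rw [pow_succ, mul_two, add_nsmul]

theorem nz_pow {Q : Pt} (h : Q.x * Q.y ≠ 0) (k : ℕ) : (2 ^ k • Q).x * (2 ^ k • Q).y ≠ 0 := by
  induction k with
  | zero => simpa using h
  | succ k ih => rw [pow_succ_smul]; exact nz_dbl ih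

theorem tors {t : Pt} {N : ℤ} (hN : N ≠ 0) (h : N • t = 0) : t.x * t.y = 0 := by
  by_contra hc
  have h1 : IsOfFinAddOrder t := isOfFinAddOrder_iff_zsmul_eq_zero.2 ⟨N, hN, h⟩
  have h2 : StrictAnti fun k : ℕ => V 2 ((2 ^ k • t).x * (2 ^ k • t).y) := by
    refine strictAnti_nat_of_succ_lt fun k => ?_
    rw [pow_succ_smul, v_dbl]
    have : V 2 2 < 1 := by simpa using (v_int_lt 2 (n := 2)).2 (by norm_num)
    exact mul_lt_of_lt_one_left ((V 2).pos_iff.2 (nz_pow hc k)) this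
  have h3 : Function.Injective fun k : ℕ => 2 ^ k • t := fun a b hab =>
    h2.injective (by simp only at hab ⊢; rw [hab])
  exact Set.infinite_range_of_injective h3 ((finite_multiples.2 h1).subset
    (by rintro _ ⟨k, rfl⟩; exact ⟨2 ^ k, rfl⟩))

theorem memB_of_zero (p : ℕ) [Fact p.Prime] {t : Pt} (h : t.x * t.y = 0) : t ∈ B p := by
  rcases mul_eq_zero.1 h with h | h
  · exact mem_B_x (by simp [h])
  · exact mem_B_y (by simp [h])

theorem four_R : (4 : ℤ) • R = 0 := by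
  have : (4 : ℤ) • R = R + R + R + R := by abel
  rw [this]
  ext
  · simp only [addR_x, addR_y]; simp [R]
  · simp only [addR_x, addR_y]; simp [R]

instance : Fact (Nat.Prime 5) := ⟨by norm_num⟩

theorem gen : ∃ P0 : Pt, P0.x * P0.y ≠ 0 ∧
    ∀ Q : Pt, ∃ n : ℤ, ∃ t : Pt, t.x * t.y = 0 ∧ Q = n • P0 + t := by
  have hfg : (⊤ : Submodule ℤ Pt).FG := by
    have := fg
    exact Module.Finite.fg_top
  obtain ⟨r, hr1, hr⟩ := Submodule.exists_sub_one_mem_and_smul_le_of_fg_of_le_sup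
    (I := Ideal.span {(2 : ℤ)}) (N := Submodule.span ℤ {P, R}) (P := ⊤) hfg le_rfl (by
      intro Q _
      obtain ⟨g, hg, Q', rfl⟩ := step Q
      have hP : P ∈ Submodule.span ℤ ({P, R} : Set Pt) := Submodule.subset_span (by simp)
      have hR : R ∈ Submodule.span ℤ ({P, R} : Set Pt) := Submodule.subset_span (by simp)
      refine Submodule.add_mem_sup ?_ ?_
      · rcases hg with rfl | rfl | rfl | rfl
        · exact zero_mem _
        · exact neg_mem hP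
        · exact neg_mem hR
        · exact sub_mem (neg_mem hR) hP
      · rw [← two_zsmul]
        exact Submodule.smul_mem_smul (Ideal.subset_span rfl) trivial)
  have hr0 : r ≠ 0 := by
    rintro rfl
    rw [Ideal.mem_span_singleton] at hr1
    norm_num at hr1
  have h1 : ∀ Q : Pt, ∃ a : ℤ, (4 * r) • Q = a • P := by
    intro Q
    obtain ⟨a, b, hab⟩ := Submodule.mem_span_pair.1 (hr (Submodule.smul_mem_pointwise_smul Q r ⊤
      trivial))
    refine ⟨4 * a, ?_⟩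
    rw [mul_smul, ← hab, smul_add, smul_comm (4 : ℤ) b, four_R, smul_zero, add_zero, mul_smul]
  let H : AddSubgroup ℤ :=
    { carrier := {a | ∃ Q : Pt, (4 * r) • Q = a • P}
      zero_mem' := ⟨0, by simp⟩
      add_mem' := by
        rintro a b ⟨Q, hQ⟩ ⟨S, hS⟩
        exact ⟨Q + S, by rw [smul_add, hQ, hS, add_smul]⟩
      neg_mem' := by
        rintro a ⟨Q, hQ⟩
        exact ⟨-Q, by rw [smul_neg, hQ, neg_smul]⟩ }
  obtain ⟨g, hg⟩ := Int.subgroup_cyclic H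
  obtain ⟨P0, hP0⟩ : g ∈ H := by rw [hg]; exact AddSubgroup.subset_closure rfl
  have h2 : ∀ Q : Pt, ∃ n : ℤ, ∃ t : Pt, t.x * t.y = 0 ∧ Q = n • P0 + t := by
    intro Q
    obtain ⟨a, ha⟩ := h1 Q
    have : a ∈ H := ⟨Q, ha⟩
    rw [hg, AddSubgroup.mem_closure_singleton] at this
    obtain ⟨n, rfl⟩ := this
    refine ⟨n, Q - n • P0, tors (N := 4 * r) (by omega) ?_, by abel⟩
    rw [smul_sub, ha, smul_comm (4 * r) n, hP0, smul_eq_mul, mul_smul, sub_self]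
  refine ⟨P0, fun h0 => ?_, h2⟩
  obtain ⟨n, t, ht, hP⟩ := h2 P
  have : P ∈ B 5 := by
    rw [hP]
    exact add_mem (zsmul_mem (memB_of_zero 5 h0) n) (memB_of_zero 5 ht)
  have := Rat.padicValuation_le_one_iff.1 this.1.1
  norm_num [P] at this

instance (p : Nat.Primes) : Fact p.1.Prime := ⟨p.2⟩

theorem exists_pole {Q : Pt} (h : Q.x * Q.y ≠ 0) : ∃ p : Nat.Primes, ¬ IntP p.1 Q := by
  by_contra hc
  push Not at hc
  have h1 : ∀ z : ℚ, (∀ p : Nat.Primes, V p.1 z ≤ 1) → z ≠ 0 → 1 ≤ z ^ 2 := by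
    intro z hz h0
    have hd : z.den = 1 := by
      by_contra hd
      obtain ⟨p, hp, hpd⟩ := Nat.exists_prime_and_dvd hd
      haveI := Fact.mk hp
      exact (Rat.padicValuation_le_one_iff (p := p)).1 (hz ⟨p, hp⟩) hpd
    have e : (z.num : ℚ) = z := Rat.coe_int_num_of_den_eq_one hd
    have : z.num ≠ 0 := Rat.num_ne_zero.2 h0
    have : 1 ≤ z.num ^ 2 := by have := sq_pos_of_ne_zero this; omega
    rw [← e]; exact_mod_cast this
  have a := h1 Q.x (fun p => (hc p).1) (left_ne_zero_of_mul h)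
  have b := h1 Q.y (fun p => (hc p).2) (right_ne_zero_of_mul h)
  nlinarith [Q.h, sq_nonneg (Q.x * Q.y)]

theorem cover {P0 : Pt} (hg : ∀ Q : Pt, ∃ n : ℤ, ∃ t : Pt, t.x * t.y = 0 ∧ Q = n • P0 + t)
    (pj : ℕ → Nat.Primes) (hpj : ∀ j, ¬ IntP (pj j).1 (2 ^ j • P0)) (q : Nat.Primes) (k : ℕ)
    (hq : 2 ^ k • P0 ∈ B q.1) {Q : Pt} (hQ : Q.x * Q.y ≠ 0) :
    (∃ j < k, ¬ IntP (pj j).1 Q) ∨ Q ∈ B q.1 := by
  obtain ⟨n, t, ht, rfl⟩ := hg Q
  have hn : n ≠ 0 := by rintro rfl; simp [ht] at hQ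
  obtain ⟨j, m, hm, hjm⟩ := Nat.exists_eq_two_pow_mul_odd (Int.natAbs_ne_zero.2 hn)
  obtain ⟨m', hm'⟩ : ∃ m' : ℤ, n = (2 * m' + 1) * 2 ^ j := by
    obtain ⟨l, rfl⟩ := hm
    rcases Int.natAbs_eq n with h | h
    · exact ⟨l, by rw [h, hjm]; push_cast; ring⟩
    · exact ⟨-l - 1, by rw [h, hjm]; push_cast; ring⟩
  have e : n • P0 = (2 * m' + 1) • (2 ^ j • P0) := by
    rw [hm', mul_smul, ← natCast_zsmul]; push_cast; rfl
  by_cases hj : j < k
  · left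
    refine ⟨j, hj, ?_⟩
    have : n • P0 + t = 2 ^ j • P0 + (m' • (2 ^ j • P0 + 2 ^ j • P0) + t) := by
      rw [e, add_smul, mul_comm, mul_smul, two_zsmul, one_smul]; abel
    rw [this]
    exact not_int_add (hpj j) (add_mem (zsmul_mem (not_int (hpj j)).1 _) (memB_of_zero _ ht))
  · right
    obtain ⟨d, rfl⟩ := Nat.exists_eq_add_of_le (not_lt.1 hj)
    rw [e, pow_add, mul_comm (2 ^ k), mul_smul]
    exact add_mem (zsmul_mem (nsmul_mem hq _) _) (memB_of_zero _ ht)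

theorem sq24 {b : ℤ} (h2 : ¬ (2 : ℤ) ∣ b) (h3 : ¬ (3 : ℤ) ∣ b) : b ^ 2 % 24 = 1 := by
  have : b % 24 = 1 ∨ b % 24 = 5 ∨ b % 24 = 7 ∨ b % 24 = 11 ∨ b % 24 = 13 ∨ b % 24 = 17 ∨
      b % 24 = 19 ∨ b % 24 = 23 := by omega
  rcases this with h | h | h | h | h | h | h | h <;> simp [pow_two, Int.mul_emod, h]

theorem cong4 (Q : Pt) : (24 : ℤ) ∣ (Q + Q + (Q + Q)).y.num - (Q + Q + (Q + Q)).y.den := by
  have h := dbl_y_int (Q + Q)
  have u2 : ¬ (2 : ℤ) ∣ (Q + Q).y.num := fun hc => by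
    have := (lt_iff_num (p := 2)).2 (by exact_mod_cast hc)
    exact absurd (unit_of_lt (Q + Q).h (dbl_B_lt (memB2 Q))) this.ne
  have hB3 : Q ∈ B 3 := by
    rcases three_dvd Q with h | h
    · exact mem_B_x ((lt_iff_num (p := 3)).2 (by exact_mod_cast h))
    · exact mem_B_y ((lt_iff_num (p := 3)).2 (by exact_mod_cast h))
  have u3 : ¬ (3 : ℤ) ∣ (Q + Q).y.num := fun hc => by
    have := (lt_iff_num (p := 3)).2 (by exact_mod_cast hc)
    exact absurd (unit_of_lt (Q + Q).h (dbl_B_lt hB3)) this.ne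
  have s1 := sq24 u2 u3
  have s2 := sq24 (den2 (swap (Q + Q).h)) (den3 (swap (Q + Q).h))
  generalize (Q + Q).y.num = a at *
  generalize ((Q + Q).y.den : ℤ) = b at *
  generalize (Q + Q + (Q + Q)).y.num = a' at *
  generalize ((Q + Q + (Q + Q)).y.den : ℤ) = b' at *
  obtain ⟨A, hA⟩ : ∃ A, a ^ 2 = 24 * A + 1 := ⟨a ^ 2 / 24, by omega⟩
  obtain ⟨C, hC⟩ : ∃ A, b ^ 2 = 24 * A + 1 := ⟨b ^ 2 / 24, by omega⟩
  rw [show a ^ 4 = (a ^ 2) ^ 2 by ring, show b ^ 4 = (b ^ 2) ^ 2 by ring, hA, hC] at h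
  have : (24 : ℤ) ∣ 7 * (a' - b') := ⟨b' * (144 * A ^ 2 + 14 * A + 48 * A * C - 24 * C ^ 2) -
      a' * (-144 * A ^ 2 + 288 * A * C + 14 * C + 24 * C ^ 2), by linear_combination h⟩
  omega

theorem neg_often {P0 : Pt} (h0 : P0.x * P0.y ≠ 0) (K : ℕ) : ∃ k, K ≤ k ∧ (2 ^ k • P0).y < 0 := by
  by_contra hc
  push Not at hc
  have h1 : ∀ k, (2 ^ k • P0).y < 1 := by
    intro k
    have a := left_ne_zero_of_mul (nz_pow h0 k)
    have := sq_pos_of_ne_zero a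
    by_contra hc
    push Not at hc
    nlinarith [(2 ^ k • P0).h, sq_nonneg ((2 ^ k • P0).x * (2 ^ k • P0).y)]
  have h2 : ∀ n, (3 / 2 : ℚ) ^ n * (1 - (2 ^ K • P0).y) ≤ 1 - (2 ^ (K + n) • P0).y := by
    intro n
    induction n with
    | zero => simp
    | succ n ih =>
      have a := dbl_y (2 ^ (K + n) • P0)
      rw [← pow_succ_smul] at a
      have b := hc (K + n) (by omega)
      have c := h1 (K + n)
      rw [← add_assoc]
      generalize (2 ^ (K + n) • P0).y = y at *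
      generalize (2 ^ (K + n + 1) • P0).y = y' at *
      have hy2 : y ^ 2 ≤ 1 := by nlinarith
      have hM : 0 < -6 * y ^ 4 + 12 * y ^ 2 + 1 := by nlinarith [sq_nonneg y]
      have : (3 / 2 : ℚ) * (1 - y) ≤ 1 - y' := by
        refine le_of_mul_le_mul_right ?_ hM
        have e : (1 - y') * (-6 * y ^ 4 + 12 * y ^ 2 + 1) =
            (1 - y) * (2 * (1 + y) * (1 + 6 * y ^ 2)) := by linear_combination -a
        rw [e, mul_comm (3 / 2 : ℚ), mul_assoc]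
        refine mul_le_mul_of_nonneg_left ?_ (by linarith)
        nlinarith [mul_nonneg b (sq_nonneg (4 * y - 1)), sq_nonneg (y ^ 2)]
      rw [pow_succ]
      nlinarith
  obtain ⟨n, hn⟩ := pow_unbounded_of_one_lt (1 / (1 - (2 ^ K • P0).y)) (by norm_num : (1 : ℚ) < 3 / 2)
  have h3 := h1 K
  rw [div_lt_iff₀ (by linarith)] at hn
  have := h2 n
  have := hc (K + n) (by omega)
  linarith

theorem prime24 {p : ℕ} (hp : p.Prime) (h6 : ¬ (p : ℤ) ∣ 6) (h : IsSquare (-6 : ZMod p)) :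
    p % 24 = 1 ∨ p % 24 = 5 ∨ p % 24 = 7 ∨ p % 24 = 11 := by
  haveI := Fact.mk hp
  have h2 : ¬ 2 ∣ p := fun h => by
    have := (Nat.prime_dvd_prime_iff_eq Nat.prime_two hp).1 h
    subst this; norm_num at h6
  have h3 : ¬ 3 ∣ p := fun h => by
    have := (Nat.prime_dvd_prime_iff_eq Nat.prime_three hp).1 h
    subst this; norm_num at h6
  have hj : jacobiSym (-6) p ≠ -1 := fun hj =>
    ZMod.nonsquare_of_jacobiSym_eq_neg_one hj (by simpa using h)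
  rw [jacobiSym.mod_right _ (Nat.odd_iff.2 (by omega))] at hj
  have e : 4 * (-6 : ℤ).natAbs = 24 := rfl
  rw [e] at hj
  have : p % 24 = 1 ∨ p % 24 = 5 ∨ p % 24 = 7 ∨ p % 24 = 11 ∨ p % 24 = 13 ∨ p % 24 = 17 ∨
      p % 24 = 19 ∨ p % 24 = 23 := by omega
  rcases this with h | h | h | h | h | h | h | h
  any_goals omega
  all_goals
    rw [h] at hj
    exact absurd (by norm_num) hj

theorem nat24 (n : ℕ) : n ≠ 0 → (∀ p : ℕ, p.Prime → p ∣ n →
    p % 24 = 1 ∨ p % 24 = 5 ∨ p % 24 = 7 ∨ p % 24 = 11) →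
    n % 24 = 1 ∨ n % 24 = 5 ∨ n % 24 = 7 ∨ n % 24 = 11 := by
  induction n using Nat.recOnMul with
  | zero => intro h; exact absurd rfl h
  | one => intro _ _; simp
  | prime p hp => intro _ h; exact h p hp dvd_rfl
  | mul a b ha hb =>
    intro h0 h
    have a1 := ha (left_ne_zero_of_mul h0) fun p hp hd => h p hp (hd.mul_right _)
    have b1 := hb (right_ne_zero_of_mul h0) fun p hp hd => h p hp (hd.mul_left _)
    rcases a1 with a1 | a1 | a1 | a1 <;> rcases b1 with b1 | b1 | b1 | b1 <;>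
      simp [Nat.mul_mod, a1, b1]

theorem exists_bad {Q : Pt} (h : (24 : ℤ) ∣ Q.y.num - Q.y.den) (hy : Q.y < 0) :
    ∃ q : Nat.Primes, V q.1 Q.y < 1 ∧ ¬ IsSquare (-6 : ZMod q.1) := by
  by_contra hc
  push Not at hc
  have b2 := den2 (swap Q.h)
  have b3 := den3 (swap Q.h)
  have ha : Q.y.num < 0 := Rat.num_neg.2 hy
  have h1 := nat24 Q.y.den Q.y.den_nz fun p hp hd => by
    haveI := Fact.mk hp
    have := not_int (p := p) (Q := Q) fun hi => Rat.padicValuation_le_one_iff.1 hi.2 hd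
    exact prime24 hp this.2.2 this.2.1
  have h2 := nat24 Q.y.num.natAbs (by omega) fun p hp hd => by
    haveI := Fact.mk hp
    have hd' : (p : ℤ) ∣ Q.y.num := Int.natCast_dvd.2 hd
    refine prime24 hp (fun h6 => ?_) (hc ⟨p, hp⟩ ((lt_iff_num (p := p)).2 hd'))
    have h6' : p ∣ 2 * 3 := by exact_mod_cast h6
    rcases (Nat.Prime.dvd_mul hp).1 h6' with h' | h'
    · have := (Nat.prime_dvd_prime_iff_eq hp Nat.prime_two).1 h'
      subst this
      push_cast at hd'; omega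
    · have := (Nat.prime_dvd_prime_iff_eq hp Nat.prime_three).1 h'
      subst this
      push_cast at hd'; omega
  omega

theorem bad_infinite {P0 : Pt} (h0 : P0.x * P0.y ≠ 0) :
    {q : Nat.Primes | ¬ IsSquare (-6 : ZMod q.1) ∧ ∃ k, 2 ^ k • P0 ∈ B q.1}.Infinite := by
  have hK : {k : ℕ | 2 ≤ k ∧ (2 ^ k • P0).y < 0}.Infinite := by
    refine Set.infinite_of_forall_exists_gt fun K => ?_
    obtain ⟨k, h1, h2⟩ := neg_often h0 (K + 2)
    exact ⟨k, ⟨by omega, h2⟩, by omega⟩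
  have h1 : ∀ k ∈ {k : ℕ | 2 ≤ k ∧ (2 ^ k • P0).y < 0},
      ∃ q : Nat.Primes, V q.1 (2 ^ k • P0).y < 1 ∧ ¬ IsSquare (-6 : ZMod q.1) := by
    rintro k ⟨hk, hy⟩
    obtain ⟨d, rfl⟩ := Nat.exists_eq_add_of_le' hk
    refine exists_bad ?_ hy
    rw [show d + 2 = d + 1 + 1 from rfl, pow_succ_smul, pow_succ_smul]
    exact cong4 _
  have : Nonempty Nat.Primes := ⟨⟨2, Nat.prime_two⟩⟩
  choose! q hq1 hq2 using h1
  have h2 : ∀ k ∈ {k : ℕ | 2 ≤ k ∧ (2 ^ k • P0).y < 0}, ∀ l, k < l →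
      V (q k).1 (2 ^ l • P0).y = 1 := by
    intro k hk l hl
    obtain ⟨d, rfl⟩ := Nat.exists_eq_add_of_lt hl
    refine unit_of_lt (2 ^ (k + d + 1) • P0).h ?_
    rw [pow_succ_smul]
    refine dbl_B_lt ?_
    rw [pow_add, mul_comm, mul_smul]
    exact nsmul_mem (mem_B_y (hq1 k hk)) _
  refine Set.infinite_of_injOn_mapsTo (f := q) ?_ ?_ hK
  · intro a ha b hb hab
    by_contra hne
    rcases lt_or_gt_of_ne hne with h | h
    · have := h2 a ha b h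
      rw [hab] at this
      exact absurd this (hq1 b hb).ne
    · have := h2 b hb a h
      rw [← hab] at this
      exact absurd this (hq1 a ha).ne
  · intro k hk
    exact ⟨hq2 k hk, k, mem_B_y (hq1 k hk)⟩

theorem hensel {p : ℕ} (hp : p.Prime) (h6 : ¬ (p : ℤ) ∣ 6) (h : IsSquare (-6 : ZMod p)) (k : ℕ) :
    ∃ t : ℤ, (p : ℤ) ^ (k + 1) ∣ t ^ 2 + 6 := by
  have hp' : Prime (p : ℤ) := Nat.prime_iff_prime_int.1 hp
  induction k with
  | zero =>
    obtain ⟨z, hz⟩ := h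
    obtain ⟨t, rfl⟩ := ZMod.intCast_surjective z
    refine ⟨t, ?_⟩
    rw [zero_add, pow_one, ← ZMod.intCast_zmod_eq_zero_iff_dvd]
    push_cast
    linear_combination -hz
  | succ k ih =>
    obtain ⟨t, c, hc⟩ := ih
    have h1 : ¬ (p : ℤ) ∣ 2 * t := by
      intro hd
      rcases hp'.dvd_or_dvd hd with h' | h'
      · exact h6 (h'.trans (by norm_num))
      · apply h6
        have : (p : ℤ) ∣ t ^ 2 + 6 := ⟨p ^ k * c, by rw [hc]; ring⟩
        exact (dvd_add_right (dvd_pow h' two_ne_zero)).1 this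
    obtain ⟨u, v, huv⟩ := (hp'.coprime_iff_not_dvd).2 h1
    refine ⟨t - (p : ℤ) ^ (k + 1) * c * v, c * u + p ^ k * c ^ 2 * v ^ 2, ?_⟩
    linear_combination hc - (p : ℤ) ^ (k + 1) * c * huv

theorem crt (G : Finset Nat.Primes)
    (hG : ∀ p ∈ G, ¬ ((p.1 : ℕ) : ℤ) ∣ 6 ∧ IsSquare (-6 : ZMod p.1)) (k : ℕ) :
    ∃ t : ℤ, (∏ p ∈ G, ((p.1 : ℕ) : ℤ) ^ (k + 1)) ∣ t ^ 2 + 6 := by
  classical
  induction G using Finset.induction_on with
  | empty => exact ⟨0, by simp⟩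
  | insert q G hq ih =>
    obtain ⟨s, c, hs⟩ := ih fun p hp => hG p (Finset.mem_insert_of_mem hp)
    obtain ⟨t, d, ht⟩ := hensel q.2 (hG q (Finset.mem_insert_self _ _)).1
      (hG q (Finset.mem_insert_self _ _)).2 k
    have hc : IsCoprime (((q.1 : ℕ) : ℤ) ^ (k + 1)) (∏ p ∈ G, ((p.1 : ℕ) : ℤ) ^ (k + 1)) := by
      refine IsCoprime.prod_right fun p hp => IsCoprime.pow ?_
      rw [Nat.isCoprime_iff_coprime, Nat.coprime_primes q.2 p.2]
      intro h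
      exact hq (by rwa [Subtype.ext h])
    rw [Finset.prod_insert hq]
    generalize ((q.1 : ℕ) : ℤ) ^ (k + 1) = m at *
    generalize (∏ p ∈ G, ((p.1 : ℕ) : ℤ) ^ (k + 1)) = n at *
    refine ⟨t + (s - t) * (hc.choose * m), hc.mul_dvd ?_ ?_⟩
    · exact ⟨d + 2 * t * (s - t) * hc.choose + (s - t) ^ 2 * hc.choose ^ 2 * m, by
        linear_combination ht⟩
    · obtain ⟨b, hb⟩ := hc.choose_spec
      have : t + (s - t) * (hc.choose * m) = s - (s - t) * b * n := by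
        linear_combination (s - t) * hb
      rw [this]
      exact ⟨c - 2 * s * (s - t) * b + (s - t) ^ 2 * b ^ 2 * n, by linear_combination hs⟩

theorem exists_t (G : Finset Nat.Primes)
    (hG : ∀ p ∈ G, ¬ ((p.1 : ℕ) : ℤ) ∣ 6 ∧ IsSquare (-6 : ZMod p.1)) {z : ℚ} (hz : z ≠ 0) :
    ∃ t : ℤ, ∀ p ∈ G, V p.1 (((t : ℚ) ^ 2 + 6) / z) ≤ 1 := by
  have h1 : ∀ p : Nat.Primes, ∃ k : ℕ, V p.1 (p.1 : ℚ) ^ k ≤ V p.1 z := by
    intro p
    have hlt : V p.1 (p.1 : ℚ) < 1 := by simpa using (v_int_lt p.1 (n := p.1)).2 dvd_rfl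
    obtain ⟨k, hk⟩ := exists_pow_lt₀ hlt (Units.mk0 (V p.1 z) ((V p.1).ne_zero_iff.2 hz))
    exact ⟨k, hk.le⟩
  choose k hk using h1
  obtain ⟨t, ht⟩ := crt G hG (G.sup k)
  refine ⟨t, fun p hp => ?_⟩
  obtain ⟨c, hc⟩ := (Finset.dvd_prod_of_mem (fun p : Nat.Primes => ((p.1 : ℕ) : ℤ) ^ (G.sup k + 1))
    hp).trans ht
  obtain ⟨d, hd⟩ := Nat.exists_eq_add_of_le ((Finset.le_sup (f := k) hp).trans (Nat.le_succ _))
  have hc' : (t : ℚ) ^ 2 + 6 = (p.1 : ℚ) ^ k p * (((p.1 : ℤ) ^ d * c : ℤ) : ℚ) := by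
    have : ((t ^ 2 + 6 : ℤ) : ℚ) = ((((p.1 : ℕ) : ℤ) ^ (G.sup k + 1) * c : ℤ) : ℚ) := by rw [hc]
    rw [show G.sup k + 1 = k p + d from hd] at this
    push_cast at this ⊢
    rw [this]; ring
  rw [map_div₀, div_le_one₀ ((V p.1).pos_iff.2 hz), hc', map_mul, map_pow]
  exact (mul_le_of_le_one_right' (v_int _ _)).trans (hk p)

/-- the arithmetic core -/
theorem core : ∃ S : Set Nat.Primes,
    (∀ G : Finset Nat.Primes, (G : Set Nat.Primes) ⊆ S → ∃ x y t c : ℚ,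
      (∀ p ∈ G, V p.1 x ≤ 1 ∧ V p.1 y ≤ 1 ∧ V p.1 t ≤ 1 ∧ V p.1 c ≤ 1) ∧
      x ^ 2 + y ^ 2 + 6 * x ^ 2 * y ^ 2 = 1 ∧ t ^ 2 + 6 = x * y * c) ∧
    (∀ F : Finset Nat.Primes, ∃ q ∉ F, ∃ G : Finset Nat.Primes,
      (G : Set Nat.Primes) ⊆ insert q S ∧ ∀ x y t c : ℚ,
      (∀ p ∈ G, V p.1 x ≤ 1 ∧ V p.1 y ≤ 1 ∧ V p.1 t ≤ 1 ∧ V p.1 c ≤ 1) →
      x ^ 2 + y ^ 2 + 6 * x ^ 2 * y ^ 2 = 1 → t ^ 2 + 6 ≠ x * y * c) := by
  classical
  obtain ⟨P0, h0, hg⟩ := gen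
  choose pj hpj using fun j => exists_pole (nz_pow h0 j)
  refine ⟨Set.range pj, fun G hG => ?_, fun F => ?_⟩
  · have : Nonempty ℕ := ⟨0⟩
    choose! j hj using fun p (hp : p ∈ G) => hG hp
    have hB : ∀ p ∈ G, 2 ^ (G.sup j + 1) • P0 ∈ B p.1 := by
      intro p hp
      obtain ⟨d, hd⟩ := Nat.exists_eq_add_of_le (Finset.le_sup (f := j) hp)
      have := (not_int (hpj (j p))).1
      rw [hj p hp, ← pow_succ_smul] at this
      rw [hd, show j p + d + 1 = d + (j p + 1) by ring, pow_add, mul_smul]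
      exact nsmul_mem this _
    have hz := nz_pow h0 (G.sup j + 1)
    obtain ⟨t, ht⟩ := exists_t G (fun p hp => by
      have := (not_int (hpj (j p))).2
      rw [hj p hp] at this
      exact ⟨this.2, this.1⟩) hz
    refine ⟨_, _, t, _, fun p hp => ⟨(hB p hp).1.1, (hB p hp).1.2, v_int _ _, ht p hp⟩,
      (2 ^ (G.sup j + 1) • P0).h, ?_⟩
    rw [mul_div_cancel₀ _ hz]
  · obtain ⟨q, ⟨hq1, k, hq2⟩, hqF⟩ := (bad_infinite h0).exists_notMem_finset F
    refine ⟨q, hqF, insert q ((Finset.range k).image pj), ?_, fun x y t c hv h he => ?_⟩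
    · intro p hp
      simp only [Finset.coe_insert, Finset.coe_image, Set.mem_insert_iff] at hp
      rcases hp with rfl | ⟨j, -, rfl⟩
      · exact Set.mem_insert _ _
      · exact Set.mem_insert_of_mem _ ⟨j, rfl⟩
    · have hxy : x * y ≠ 0 := by
        intro h0
        rw [h0, zero_mul] at he
        nlinarith [sq_nonneg t]
      rcases cover hg pj hpj q k hq2 (Q := ⟨x, y, h⟩) hxy with ⟨j, hj, hn⟩ | hB
      · have := hv (pj j) (Finset.mem_insert_of_mem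
          (Finset.mem_image_of_mem _ (Finset.mem_range.2 hj)))
        exact hn ⟨this.1, this.2.1⟩
      · have := hv q (Finset.mem_insert_self _ _)
        exact hq1 (root this.2.2.1 (by rw [he]; exact ltm hB.2 this.2.2.2))

end Pool.Agent.H83.Edw
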