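import Mathlib

/-! Subseries numbers and the classical cardinal characteristics they are compared with. -/

namespace Pool.Agent.H83.SsDefs

open Filter Topology Set MeasureTheory Cardinal

/-- The series `∑ b n` converges (its sequence of finite initial sums has a real limit). -/
def Conv (b : ℕ → ℝ) : Prop :=
  ∃ l : ℝ, Tendsto (fun N => ∑ n ∈ Finset.range N, b n) atTop (𝓝 l)

/-- The series `∑ b n` is conditionally convergent. -/
def CondConv (b : ℕ → ℝ) : Prop := Conv b ∧ ¬ Conv (fun n => |b n|)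

/-- The terms of the subseries `∑_X a`: `a` along the increasing enumeration of `X`. -/
noncomputable def sub (a : ℕ → ℚ) (X : Set ℕ) : ℕ → ℝ := fun n => (a (Nat.nth (· ∈ X) n) : ℝ)

/-- `X` is infinite and coinfinite. -/
def InfCoinf (X : Set ℕ) : Prop := X.Infinite ∧ Xᶜ.Infinite

/-- The subseries number `ss_c`. -/
noncomputable def ssC : Cardinal := sInf {c | ∃ F : Set (Set ℕ), #F = c ∧ (∀ X ∈ F, InfCoinf X) ∧
  ∀ a : ℕ → ℚ, CondConv (fun n => (a n : ℝ)) → ∃ X ∈ F, Conv (sub a X)}

/-- The subseries number `ss_cc`. -/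
noncomputable def ssCC : Cardinal := sInf {c | ∃ F : Set (Set ℕ), #F = c ∧ (∀ X ∈ F, InfCoinf X) ∧
  ∀ a : ℕ → ℚ, CondConv (fun n => (a n : ℝ)) → ∃ X ∈ F, CondConv (sub a X)}

/-- The dominating number. -/
noncomputable def dom : Cardinal := sInf {c | ∃ D : Set (ℕ → ℕ), #D = c ∧
  ∀ f : ℕ → ℕ, ∃ g ∈ D, ∀ᶠ n in atTop, f n ≤ g n}

/-- The splitting number. -/
noncomputable def split : Cardinal := sInf {c | ∃ S : Set (Set ℕ), #S = c ∧
  ∀ A : Set ℕ, A.Infinite → ∃ B ∈ S, (A ∩ B).Infinite ∧ (A \ B).Infinite}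

/-- `cov(M)` computed in the space `Z`: the least number of meagre sets covering `Z`. -/
noncomputable def covM (Z : Type) [TopologicalSpace Z] : Cardinal :=
  sInf {c | ∃ F : Set (Set Z), #F = c ∧ (∀ A ∈ F, IsMeagre A) ∧ ⋃₀ F = Set.univ}

/-- The fair coin. -/
noncomputable def coin : Measure Bool := (PMF.uniformOfFintype Bool).toMeasure

instance : IsProbabilityMeasure coin := by unfold coin; infer_instance

/-- The fair coin-tossing (product) measure on Cantor space. -/
noncomputable def coins : Measure (ℕ → Bool) := Measure.infinitePi (fun _ : ℕ => coin)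

/-- `cov(N)`: the least number of null sets covering Cantor space. -/
noncomputable def covN : Cardinal :=
  sInf {c | ∃ F : Set (Set (ℕ → Bool)), #F = c ∧ (∀ A ∈ F, coins A = 0) ∧ ⋃₀ F = Set.univ}

/-- The σ-ideal `E` generated by the closed null subsets of Cantor space. -/
def InE (A : Set (ℕ → Bool)) : Prop :=
  ∃ C : ℕ → Set (ℕ → Bool), (∀ n, IsClosed (C n) ∧ coins (C n) = 0) ∧ A ⊆ ⋃ n, C n

/-- `cov(E)`: the least number of sets from `E` covering Cantor space. -/
noncomputable def covE : Cardinal :=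
  sInf {c | ∃ F : Set (Set (ℕ → Bool)), #F = c ∧ (∀ A ∈ F, InE A) ∧ ⋃₀ F = Set.univ}

/-- The localization number `d^Lc_{b,h}`: the least number of slaloms of width `h` needed to
capture (almost everywhere) every function bounded by `b`. -/
noncomputable def dLc (b h : ℕ → ℕ) : Cardinal :=
  sInf {c | ∃ Φ : Set (ℕ → Finset ℕ), #Φ = c ∧ (∀ φ ∈ Φ, ∀ i, (φ i).card ≤ h i) ∧
    ∀ f : ℕ → ℕ, (∀ i, f i < b i) → ∃ φ ∈ Φ, ∀ᶠ i in atTop, f i ∈ φ i}

end Pool.Agent.H83.SsDefs
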