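import Mathlib
import Pool.Agent.H83.SsDefs

/-! The cardinals `b_b^eq`, `d_b^eq`, `non(E)` and the localization number `b^Lc_{b,h}`. -/

namespace Pool.Agent.H83.EqDefs

open Filter Set Cardinal Pool.Agent.H83.SsDefs

/-- `f ∈ ∏ b`. -/
def InProd (b f : ℕ → ℕ) : Prop := ∀ k, f k < b k

/-- `i` lists the left endpoints of a partition of `ω` into finite non-empty intervals
`I_n = [i n, i (n+1))`. -/
def IsPart (i : ℕ → ℕ) : Prop := i 0 = 0 ∧ StrictMono i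

/-- `f ⊏• (I, h)`: for almost all `n` some `k ∈ I_n` has `f k = h k`. -/
def Match (f i h : ℕ → ℕ) : Prop := ∀ᶠ n in atTop, ∃ k, i n ≤ k ∧ k < i (n + 1) ∧ f k = h k

/-- The cardinal `b_b^eq`. -/
noncomputable def bEq (b : ℕ → ℕ) : Cardinal :=
  sInf {c | ∃ F : Set (ℕ → ℕ), #F = c ∧ (∀ f ∈ F, InProd b f) ∧
    ¬ ∃ i h, IsPart i ∧ InProd b h ∧ ∀ f ∈ F, Match f i h}

/-- The cardinal `d_b^eq`. -/
noncomputable def dEq (b : ℕ → ℕ) : Cardinal :=
  sInf {c | ∃ D : Set ((ℕ → ℕ) × (ℕ → ℕ)), #D = c ∧ (∀ p ∈ D, IsPart p.1 ∧ InProd b p.2) ∧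
    ∀ f, InProd b f → ∃ p ∈ D, Match f p.1 p.2}

/-- `non(E)`: the least size of a subset of Cantor space not in `E`. -/
noncomputable def nonE : Cardinal := sInf {c | ∃ A : Set (ℕ → Bool), #A = c ∧ ¬ InE A}

/-- The localization number `b^Lc_{b,h}`: the least size of a family of functions bounded by `b`
that no single slalom of width `h` captures almost everywhere. -/
noncomputable def bLc (b h : ℕ → ℕ) : Cardinal :=
  sInf {c | ∃ F : Set (ℕ → ℕ), #F = c ∧ (∀ f ∈ F, InProd b f) ∧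
    ¬ ∃ φ : ℕ → Finset ℕ, (∀ i, (φ i).card ≤ h i) ∧ ∀ f ∈ F, ∀ᶠ i in atTop, f i ∈ φ i}

/-- The functions `b` of the question: `b k ≥ 2` and `∑ 1 / b k = ∞`. -/
def Divg (b : ℕ → ℕ) : Prop := (∀ k, 2 ≤ b k) ∧ ¬ Summable (fun k => 1 / (b k : ℝ))

end Pool.Agent.H83.EqDefs
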