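import Mathlib
import Pool.Agent.H83.SsDefs

namespace Pool.Agent.H83.Ss1

open Filter Topology Set MeasureTheory Cardinal ProbabilityTheory
open Pool.Agent.H83.SsDefs

instance : IsProbabilityMeasure coins := by unfold coins; infer_instance

lemma coin_single (b : Bool) : coin {b} = 2⁻¹ := by
  unfold coin
  rw [PMF.toMeasure_apply_singleton _ _ (measurableSet_singleton _)]
  simp

lemma cyl (S : Finset ℕ) (π : ℕ → Bool) :
    coins {u | ∀ t ∈ S, u t = π t} = 2⁻¹ ^ S.card := by
  have : {u : ℕ → Bool | ∀ t ∈ S, u t = π t} = Set.pi (S : Set ℕ) (fun t => {π t}) := by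
    ext u; simp
  rw [this]; unfold coins
  rw [Measure.infinitePi_pi _ (fun i _ => measurableSet_singleton _)]
  simp [coin_single]

lemma cyl_clopen (S : Finset ℕ) (π : ℕ → Bool) :
    IsClopen {u : ℕ → Bool | ∀ t ∈ S, u t = π t} := by
  have : {u : ℕ → Bool | ∀ t ∈ S, u t = π t} = ⋂ t ∈ S, (fun u : ℕ → Bool => u t) ⁻¹' {π t} := by
    ext u; simp
  rw [this]
  exact isClopen_biInter_finset (fun t _ => (isClopen_discrete _).preimage (continuous_apply t))

/-- No block matches the pattern. -/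
lemma nomatch_meas (B : ℕ → Finset ℕ) (hB : Pairwise (fun i j => Disjoint (B i) (B j)))
    (L : ℕ) (hL : ∀ i, (B i).card = L) (π : ℕ → Bool) (M : ℕ) :
    coins (⋂ i ∈ Finset.range M, {u | ∀ t ∈ B i, u t = π t}ᶜ) = (1 - 2⁻¹ ^ L) ^ M := by
  have hm : ∀ i, MeasurableSet {u : ℕ → Bool | ∀ t ∈ B i, u t = π t} :=
    fun i => (cyl_clopen _ _).isOpen.measurableSet
  have hi : iIndepSet (fun i => {u : ℕ → Bool | ∀ t ∈ B i, u t = π t}) coins := by
    rw [iIndepSet_iff_meas_biInter hm]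
    intro s
    have : (⋂ i ∈ s, {u : ℕ → Bool | ∀ t ∈ B i, u t = π t}) =
        {u | ∀ t ∈ s.biUnion B, u t = π t} := by
      ext u
      simp only [mem_iInter, mem_setOf_eq, Finset.mem_biUnion]
      constructor
      · rintro h t ⟨i, hi, ht⟩; exact h i hi t ht
      · intro h i hi t ht; exact h t ⟨i, hi, ht⟩
    rw [this, cyl, Finset.card_biUnion (fun i _ j _ hij => hB hij)]
    simp [cyl, Finset.prod_pow_eq_pow_sum]
  rw [iIndepSet_iff] at hi
  rw [hi (Finset.range M) (f := fun i => {u : ℕ → Bool | ∀ t ∈ B i, u t = π t}ᶜ)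
    (fun i _ => (MeasurableSpace.measurableSet_generateFrom (mem_singleton _)).compl)]
  have : ∀ i, coins ({u : ℕ → Bool | ∀ t ∈ B i, u t = π t}ᶜ) = 1 - 2⁻¹ ^ L := by
    intro i
    rw [prob_compl_eq_one_sub (hm i), cyl, hL]
  simp [this]

lemma exists_M (n : ℕ) : ∃ M : ℕ, ((1 : ENNReal) - 2⁻¹ ^ (n + 1)) ^ M ≤ ((n : ENNReal) + 1)⁻¹ := by
  have h1 : ((1 : ENNReal) - 2⁻¹ ^ (n + 1)) < 1 := by
    apply ENNReal.sub_lt_self ENNReal.one_ne_top one_ne_zero
    exact pow_ne_zero _ (by simp)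
  have h2 := ENNReal.tendsto_pow_atTop_nhds_zero_of_lt_one h1
  have h3 : (0 : ENNReal) < ((n : ENNReal) + 1)⁻¹ := by simp
  exact ((h2.eventually (ge_mem_nhds h3))).exists

lemma sum_nth (p : ℕ → Prop) [DecidablePred p] (f : ℕ → ℝ) (T : ℕ) :
    ∑ t ∈ Finset.range T, (if p t then f t else 0) =
      ∑ j ∈ Finset.range (Nat.count p T), f (Nat.nth p j) := by
  induction T with
  | zero => simp
  | succ T ih =>
    rw [Finset.sum_range_succ, ih, Nat.count_succ]
    by_cases h : p T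
    · simp [h, Finset.sum_range_succ, Nat.nth_count h]
    · simp [h]

lemma conv_iff (p : ℕ → Prop) [DecidablePred p] (hp : (setOf p).Infinite) (f : ℕ → ℝ) :
    Conv (fun j => f (Nat.nth p j)) ↔ Conv (fun t => if p t then f t else 0) := by
  have hn : Tendsto (Nat.nth p) atTop atTop := (Nat.nth_strictMono hp).tendsto_atTop
  constructor
  · rintro ⟨l, hl⟩
    refine ⟨l, ?_⟩
    have hc : Tendsto (Nat.count p) atTop atTop := by
      refine tendsto_atTop_atTop_of_monotone (Nat.count_monotone p) (fun b => ⟨Nat.nth p b, ?_⟩)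
      rw [Nat.count_nth_of_infinite hp]
    simpa [sum_nth, Function.comp_def] using hl.comp hc
  · rintro ⟨l, hl⟩
    refine ⟨l, ?_⟩
    have := hl.comp hn
    simpa [sum_nth, Function.comp_def, Nat.count_nth_of_infinite hp] using this

lemma boundary_inf (X : Set ℕ) (hX : InfCoinf X) :
    (setOf (fun t => ¬ (t ∈ X ↔ t + 1 ∈ X))).Infinite := by
  intro hf
  obtain ⟨b, hb⟩ := hf.bddAbove
  have key : ∀ k, (b + 1 + k ∈ X ↔ b + 1 ∈ X) := by
    intro k
    induction k with
    | zero => simp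
    | succ k ih =>
      have : (b + 1 + k ∈ X ↔ b + 1 + k + 1 ∈ X) := by
        by_contra h
        have := hb h
        omega
      rw [← ih, this]; rfl
  by_cases h : b + 1 ∈ X
  · apply hX.2
    refine (Set.finite_le_nat b).subset (fun t ht => ?_)
    by_contra hlt
    simp only [mem_setOf_eq, not_le] at hlt
    obtain ⟨k, rfl⟩ : ∃ k, t = b + 1 + k := ⟨t - (b + 1), by omega⟩
    exact ht ((key k).2 h)
  · apply hX.1
    refine (Set.finite_le_nat b).subset (fun t ht => ?_)
    by_contra hlt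
    simp only [mem_setOf_eq, not_le] at hlt
    obtain ⟨k, rfl⟩ : ∃ k, t = b + 1 + k := ⟨t - (b + 1), by omega⟩
    exact h ((key k).1 ht)

end Pool.Agent.H83.Ss1
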