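import Mathlib
import Pool.Agent.H83.SsDefs
import Pool.Agent.H83.Ss1

namespace Pool.Agent.H83.Ss2

open Filter Topology Set MeasureTheory Cardinal
open Pool.Agent.H83.SsDefs Pool.Agent.H83.Ss1

def w (ρ : ℕ → ℕ) (u : ℕ → Bool) (t : ℕ) : ℚ := (if u t then 1 else -1) / ((ρ t : ℚ) + 1)

def S (ρ : ℕ → ℕ) (u : ℕ → Bool) : ℕ → ℚ
  | 0 => 0
  | t + 1 => w ρ u t

def a (ρ : ℕ → ℕ) (u : ℕ → Bool) (t : ℕ) : ℚ := S ρ u (t + 1) - S ρ u t

lemma w_abs (ρ : ℕ → ℕ) (u : ℕ → Bool) (t : ℕ) : |(w ρ u t : ℝ)| = 1 / ((ρ t : ℝ) + 1) := by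
  unfold w
  have : (0 : ℝ) < (ρ t : ℝ) + 1 := by positivity
  split_ifs <;> simp [abs_div, abs_of_pos this]

lemma w_zero (ρ : ℕ → ℕ) (hρ : Tendsto ρ atTop atTop) (u : ℕ → Bool) :
    Tendsto (fun t => (w ρ u t : ℝ)) atTop (𝓝 0) := by
  rw [tendsto_zero_iff_abs_tendsto_zero]
  have : (abs ∘ fun t => (w ρ u t : ℝ)) = (fun n : ℕ => 1 / ((n : ℝ) + 1)) ∘ ρ := by
    funext t; simp only [Function.comp]; exact w_abs ρ u t
  rw [this]
  exact tendsto_one_div_add_atTop_nhds_zero_nat.comp hρ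

lemma conv_a (ρ : ℕ → ℕ) (hρ : Tendsto ρ atTop atTop) (u : ℕ → Bool) :
    Conv (fun t => (a ρ u t : ℝ)) := by
  refine ⟨0, ?_⟩
  rw [← tendsto_add_atTop_iff_nat 1]
  have : (fun N => ∑ n ∈ Finset.range (N + 1), (a ρ u n : ℝ)) = fun t => (w ρ u t : ℝ) := by
    funext N
    have := Finset.sum_range_sub (fun n => (S ρ u n : ℝ)) (N + 1)
    simp only [a, Rat.cast_sub]
    rw [this]; simp [S]
  rw [this]; exact w_zero ρ hρ u

open Classical in
lemma abel (ρ : ℕ → ℕ) (u : ℕ → Bool) (X : Set ℕ) (T : ℕ) :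
    ∑ t ∈ Finset.range (T + 1), (if t ∈ X then (a ρ u t : ℝ) else 0) =
      ∑ t ∈ Finset.range T, (if ¬ (t ∈ X ↔ t + 1 ∈ X) then
        (if t ∈ X then 1 else -1) * (w ρ u t : ℝ) else 0) + (if T ∈ X then (w ρ u T : ℝ) else 0) := by
  induction T with
  | zero => simp [a, S]
  | succ T ih =>
    rw [Finset.sum_range_succ, ih, Finset.sum_range_succ]
    by_cases h1 : T ∈ X <;> by_cases h2 : T + 1 ∈ X <;> simp [h1, h2, a, S] <;> ring

/-- The enumeration of the boundary of `X`. -/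
noncomputable def y (X : Set ℕ) : ℕ → ℕ := Nat.nth (fun t => ¬ (t ∈ X ↔ t + 1 ∈ X))

open Classical in
lemma conv_bd (ρ : ℕ → ℕ) (hρ : Tendsto ρ atTop atTop) (u : ℕ → Bool) (X : Set ℕ)
    (hX : InfCoinf X) (h : Conv (sub (a ρ u) X)) :
    Conv (fun j => (if y X j ∈ X then 1 else -1) * (w ρ u (y X j) : ℝ)) := by
  have h1 := (conv_iff (· ∈ X) hX.1 (fun t => (a ρ u t : ℝ))).1 h
  refine (conv_iff (fun t => ¬ (t ∈ X ↔ t + 1 ∈ X)) (boundary_inf X hX)
    (fun t => (if t ∈ X then 1 else -1) * (w ρ u t : ℝ))).2 ?_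
  obtain ⟨l, hl⟩ := h1
  refine ⟨l, ?_⟩
  rw [← tendsto_add_atTop_iff_nat 1] at hl
  have h0 : Tendsto (fun T => if T ∈ X then (w ρ u T : ℝ) else 0) atTop (𝓝 0) := by
    refine squeeze_zero_norm (a := fun T => ‖(w ρ u T : ℝ)‖) (fun T => ?_) ?_
    · split_ifs <;> simp
    · simpa using (w_zero ρ hρ u).norm
  have := hl.sub h0
  rw [sub_zero] at this
  refine this.congr (fun T => ?_)
  rw [abel]; ring

noncomputable def M (n : ℕ) : ℕ := (exists_M n).choose

noncomputable def blk (X : Set ℕ) (n i : ℕ) : Finset ℕ :=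
  (Finset.Ico (n + i * (n + 1)) (n + (i + 1) * (n + 1))).image (y X)

lemma y_inj (X : Set ℕ) (hX : InfCoinf X) : Function.Injective (y X) :=
  (Nat.nth_strictMono (boundary_inf X hX)).injective

lemma blk_card (X : Set ℕ) (hX : InfCoinf X) (n i : ℕ) : (blk X n i).card = n + 1 := by
  unfold blk
  rw [Finset.card_image_of_injective _ (y_inj X hX), Nat.card_Ico, add_mul, one_mul]
  omega

lemma blk_disj (X : Set ℕ) (hX : InfCoinf X) (n : ℕ) :
    Pairwise (fun i j => Disjoint (blk X n i) (blk X n j)) := by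
  intro i j hij
  unfold blk
  rw [Finset.disjoint_image (y_inj X hX), Finset.disjoint_left]
  intro t h1 h2
  simp only [Finset.mem_Ico] at h1 h2
  rcases lt_or_gt_of_ne hij with h | h
  · have := Nat.mul_le_mul_right (n + 1) (Nat.succ_le_of_lt h)
    simp only [Nat.succ_eq_add_one] at this
    omega
  · have := Nat.mul_le_mul_right (n + 1) (Nat.succ_le_of_lt h)
    simp only [Nat.succ_eq_add_one] at this
    omega

open Classical in
theorem inE (ρ : ℕ → ℕ) (hρ : Tendsto ρ atTop atTop) (X : Set ℕ) (hX : InfCoinf X)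
    (hf : ∃ᶠ n in atTop, ∀ j ≤ n + M n * (n + 1), ρ (y X j) ≤ n) :
    InE {u | Conv (sub (a ρ u) X)} := by
  let E : ℕ → Set (ℕ → Bool) := fun n =>
    ⋂ i ∈ Finset.range (M n), {u | ∀ t ∈ blk X n i, u t = decide (t ∈ X)}ᶜ
  refine ⟨fun N => ⋂ n ∈ {n | N ≤ n ∧ ∀ j ≤ n + M n * (n + 1), ρ (y X j) ≤ n}, E n,
    fun N => ⟨?_, ?_⟩, ?_⟩
  · exact isClosed_biInter (fun n _ => isClosed_biInter (fun i _ =>
      (cyl_clopen _ _).compl.isClosed))
  · have hE : ∀ n, coins (E n) ≤ ((n : ENNReal) + 1)⁻¹ := by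
      intro n
      have := nomatch_meas (blk X n) (blk_disj X hX n) (n + 1) (blk_card X hX n)
        (fun t => decide (t ∈ X)) (M n)
      simp only [E]
      rw [this]
      exact (exists_M n).choose_spec
    by_contra hne
    obtain ⟨k, hk⟩ := ENNReal.exists_inv_nat_lt hne
    obtain ⟨n, hn, hn2⟩ := (hf.and_eventually (eventually_ge_atTop (max N k))).exists
    have h1 : coins (⋂ n ∈ {n | N ≤ n ∧ ∀ j ≤ n + M n * (n + 1), ρ (y X j) ≤ n}, E n)
        ≤ coins (E n) :=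
      measure_mono (biInter_subset_of_mem (show n ∈ {n | N ≤ n ∧ ∀ j ≤ n + M n * (n + 1),
        ρ (y X j) ≤ n} from ⟨le_trans (le_max_left _ _) hn2, hn⟩))
    have h2 : ((n : ENNReal) + 1)⁻¹ ≤ (k : ENNReal)⁻¹ := by
      apply ENNReal.inv_le_inv.2
      have : k ≤ n + 1 := by have := le_trans (le_max_right _ _) hn2; omega
      exact_mod_cast this
    exact absurd (lt_of_lt_of_le hk (h1.trans ((hE n).trans h2))) (lt_irrefl _)
  · intro u hu
    obtain ⟨l, hl⟩ := conv_bd ρ hρ u X hX hu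
    have hc := Metric.cauchySeq_iff.1 hl.cauchySeq 1 one_pos
    obtain ⟨N, hN⟩ := hc
    refine mem_iUnion.2 ⟨N, mem_iInter₂.2 (fun n hn => mem_iInter₂.2 (fun i hi hm => ?_))⟩
    have hi' : i < M n := Finset.mem_range.1 hi
    have hle : (i + 1) * (n + 1) ≤ M n * (n + 1) := Nat.mul_le_mul_right _ hi'
    have hpq : n + i * (n + 1) ≤ n + (i + 1) * (n + 1) := by rw [add_mul]; omega
    have h3 := hN (n + (i + 1) * (n + 1)) (by have := hn.1; omega) (n + i * (n + 1))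
      (by have := hn.1; omega)
    rw [Real.dist_eq, ← Finset.sum_Ico_eq_sub _ hpq] at h3
    have h4 : ∀ j ∈ Finset.Ico (n + i * (n + 1)) (n + (i + 1) * (n + 1)),
        1 / ((n : ℝ) + 1) ≤ (if y X j ∈ X then 1 else -1) * (w ρ u (y X j) : ℝ) := by
      intro j hj
      have hm' := hm (y X j) (Finset.mem_image_of_mem _ hj)
      have hr : ρ (y X j) ≤ n := hn.2 j (by have := (Finset.mem_Ico.1 hj).2; omega)
      have hr' : (ρ (y X j) : ℝ) ≤ n := by exact_mod_cast hr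
      have h5 : (if y X j ∈ X then 1 else -1) * (w ρ u (y X j) : ℝ) =
          1 / ((ρ (y X j) : ℝ) + 1) := by
        unfold w
        by_cases hx : y X j ∈ X <;> simp [hm', hx, neg_div]
      rw [h5]
      exact one_div_le_one_div_of_le (by positivity) (by linarith)
    have h6 := Finset.card_nsmul_le_sum _ _ _ h4
    rw [Nat.card_Ico, show n + (i + 1) * (n + 1) - (n + i * (n + 1)) = n + 1 by
      rw [add_mul]; omega, nsmul_eq_mul] at h6
    have h7 : ((n + 1 : ℕ) : ℝ) * (1 / ((n : ℝ) + 1)) = 1 := by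
      push_cast; field_simp
    have := le_abs_self (∑ j ∈ Finset.Ico (n + i * (n + 1)) (n + (i + 1) * (n + 1)),
      (if y X j ∈ X then 1 else -1) * (w ρ u (y X j) : ℝ))
    linarith

end Pool.Agent.H83.Ss2
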