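import Mathlib
import Pool.Agent.H83.SsDefs
import Pool.Agent.H83.Ss1
import Pool.Agent.H83.Ss2

namespace Pool.Agent.H83.Ss3

open Filter Topology Set MeasureTheory Cardinal
open Pool.Agent.H83.SsDefs Pool.Agent.H83.Ss1 Pool.Agent.H83.Ss2

lemma summable_of_conv_abs (b : ℕ → ℝ) (h : Conv (fun n => |b n|)) : Summable (fun n => |b n|) := by
  obtain ⟨l, hl⟩ := h
  by_contra hs
  have := (not_summable_iff_tendsto_nat_atTop_of_nonneg (fun n => abs_nonneg (b n))).1 hs
  exact not_tendsto_nhds_of_tendsto_atTop this l hl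

lemma conv_of_summable (b : ℕ → ℝ) (h : Summable b) : Conv b := ⟨_, h.hasSum.tendsto_sum_nat⟩

lemma conv_sub_of_abs (a : ℕ → ℚ) (h : Conv (fun n => |(a n : ℝ)|)) (X : Set ℕ) (hX : X.Infinite) :
    Conv (sub a X) := by
  have h1 : Summable (fun n => (a n : ℝ)) := (summable_of_conv_abs _ h).of_abs
  exact conv_of_summable _ (h1.comp_injective (Nat.nth_strictMono hX).injective)

lemma conv_zero (b : ℕ → ℝ) (h : Conv b) : Tendsto b atTop (𝓝 0) := by
  obtain ⟨l, hl⟩ := h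
  have h2 := (tendsto_add_atTop_iff_nat 1).2 hl
  have := h2.sub hl
  simpa [Finset.sum_range_succ] using this

open Classical in
lemma exists_cc (a : ℕ → ℚ) (h : CondConv (fun n => (a n : ℝ))) :
    ∃ X, InfCoinf X ∧ CondConv (sub a X) := by
  have h0 := conv_zero _ h.1
  have h2 : Tendsto (fun m => 2 * m) atTop atTop :=
    tendsto_atTop_mono (f := id) (fun n => by simp only [id]; omega) tendsto_id
  have h1 : ∀ k : ℕ, ∀ᶠ m in atTop, |(a (2 * m) : ℝ)| ≤ (1 / 2) ^ k := by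
    intro k
    have := (h0.comp h2).abs
    rw [abs_zero] at this
    exact this.eventually (ge_mem_nhds (by positivity))
  obtain ⟨φ, hφ, hφ2⟩ := extraction_forall_of_eventually h1
  have hz : Function.Injective (fun k => 2 * φ k) := fun i j hij => hφ.injective (by
    simp only at hij; omega)
  set Z : Set ℕ := range (fun k => 2 * φ k) with hZ
  have hZinf : Z.Infinite := infinite_range_of_injective hz
  have hXinf : (Zᶜ).Infinite := by
    refine Set.infinite_of_injective_forall_mem (f := fun k : ℕ => 2 * k + 1)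
      (fun i j hij => by simp only at hij; omega) (fun k => ?_)
    rintro ⟨j, hj⟩
    simp only at hj; omega
  have hs : Summable (fun t => if t ∈ Z then |(a t : ℝ)| else 0) := by
    rw [← hz.summable_iff (fun x hx => by simp [hZ ▸ hx])]
    refine Summable.of_nonneg_of_le (fun k => ?_) (fun k => ?_) summable_geometric_two
    · simp only [Function.comp]; split_ifs <;> simp
    · simp only [Function.comp]
      split_ifs
      · exact hφ2 k
      · positivity
  have hs2 : Summable (fun t => if t ∈ Z then (a t : ℝ) else 0) := by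
    refine Summable.of_abs (hs.congr (fun t => ?_))
    split_ifs <;> simp
  refine ⟨Zᶜ, ⟨hXinf, by simpa using hZinf⟩, ?_, ?_⟩
  · refine (conv_iff (· ∈ Zᶜ) hXinf (fun t => (a t : ℝ))).2 ?_
    obtain ⟨l, hl⟩ := h.1
    obtain ⟨l2, hl2⟩ := conv_of_summable _ hs2
    refine ⟨l - l2, (hl.sub hl2).congr (fun T => ?_)⟩
    rw [← Finset.sum_sub_distrib]
    refine Finset.sum_congr rfl (fun t _ => ?_)
    by_cases ht : t ∈ Z <;> simp [ht]
  · intro hc
    apply h.2
    obtain ⟨l, hl⟩ := (conv_iff (· ∈ Zᶜ) hXinf (fun t => |(a t : ℝ)|)).1 hc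
    obtain ⟨l2, hl2⟩ := conv_of_summable _ hs
    refine ⟨l + l2, (hl.add hl2).congr (fun T => ?_)⟩
    rw [← Finset.sum_add_distrib]
    refine Finset.sum_congr rfl (fun t _ => ?_)
    by_cases ht : t ∈ Z <;> simp [ht]

lemma exists_condConv : ∃ a : ℕ → ℚ, CondConv (fun n => (a n : ℝ)) := by
  refine ⟨fun n => (-1) ^ n * (1 / ((n : ℚ) + 1)), ?_, ?_⟩
  · have ha : Antitone (fun n : ℕ => 1 / ((n : ℝ) + 1)) := fun i j hij => by
      have : (i : ℝ) ≤ j := by exact_mod_cast hij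
      exact one_div_le_one_div_of_le (by positivity) (by linarith)
    obtain ⟨l, hl⟩ := ha.tendsto_alternating_series_of_tendsto_zero
      tendsto_one_div_add_atTop_nhds_zero_nat
    exact ⟨l, by simpa using hl⟩
  · rintro ⟨l, hl⟩
    refine not_tendsto_nhds_of_tendsto_atTop Real.tendsto_sum_range_one_div_nat_succ_atTop l
      (hl.congr (fun N => Finset.sum_congr rfl (fun n _ => ?_)))
    have : (0 : ℝ) < (n : ℝ) + 1 := by positivity
    simp [abs_mul, abs_inv, abs_of_pos this]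

theorem key (F : Set (Set ℕ)) (hF : ∀ X ∈ F, InfCoinf X) (h1 : #F < dom) (h2 : #F < covE) :
    ∃ a : ℕ → ℚ, CondConv (fun n => (a n : ℝ)) ∧ ∀ X ∈ F, ¬ Conv (sub a X) := by
  rcases F.eq_empty_or_nonempty with rfl | ⟨X0, hX0⟩
  · obtain ⟨a, ha⟩ := exists_condConv
    exact ⟨a, ha, by simp⟩
  let f : Set ℕ → ℕ → ℕ := fun X n => y X (n + M n * (n + 1))
  have hD : ¬ ∀ g : ℕ → ℕ, ∃ k ∈ f '' F, ∀ᶠ n in atTop, g n ≤ k n := by
    intro hd
    have : dom ≤ #(f '' F) := csInf_le' ⟨f '' F, rfl, hd⟩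
    exact absurd (lt_of_lt_of_le h1 (this.trans mk_image_le)) (lt_irrefl _)
  push Not at hD
  obtain ⟨g, hg⟩ := hD
  have hex : ∀ t : ℕ, ∃ n, t ≤ g n + n := fun t => ⟨t, by omega⟩
  let ρ : ℕ → ℕ := fun t => Nat.find (hex t)
  have hρ : Tendsto ρ atTop atTop := by
    refine tendsto_atTop.2 (fun b => ?_)
    filter_upwards [eventually_gt_atTop ((Finset.range b).sup (fun n => g n + n))] with t ht
    by_contra hlt
    have h3 : g (ρ t) + ρ t ≤ (Finset.range b).sup (fun n => g n + n) :=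
      Finset.le_sup (f := fun n => g n + n) (Finset.mem_range.2 (not_le.1 hlt))
    have h4 : t ≤ g (ρ t) + ρ t := Nat.find_spec (hex t)
    omega
  have hE : ∀ X ∈ F, InE {u | Conv (sub (a ρ u) X)} := by
    intro X hX
    refine inE ρ hρ X (hF X hX) ?_
    refine (hg (f X) (mem_image_of_mem _ hX)).mono (fun n hn j hj => ?_)
    apply Nat.find_min' (hex _)
    have : y X j ≤ f X n := (Nat.nth_strictMono (boundary_inf X (hF X hX))).monotone hj
    omega
  have hcov : ⋃₀ ((fun X => {u | Conv (sub (a ρ u) X)}) '' F) ≠ Set.univ := by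
    intro hc
    have : covE ≤ #((fun X => {u | Conv (sub (a ρ u) X)}) '' F) :=
      csInf_le' ⟨_, rfl, by rintro _ ⟨X, hX, rfl⟩; exact hE X hX, hc⟩
    exact absurd (lt_of_lt_of_le h2 (this.trans mk_image_le)) (lt_irrefl _)
  obtain ⟨u, hu⟩ := (ne_univ_iff_exists_notMem _).1 hcov
  have hu' : ∀ X ∈ F, ¬ Conv (sub (a ρ u) X) := fun X hX hc =>
    hu ⟨_, mem_image_of_mem _ hX, hc⟩
  exact ⟨a ρ u, ⟨conv_a ρ hρ u, fun hc => hu' X0 hX0 (conv_sub_of_abs _ hc X0 (hF X0 hX0).1)⟩, hu'⟩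

lemma ssCC_ne : {c | ∃ F : Set (Set ℕ), #F = c ∧ (∀ X ∈ F, InfCoinf X) ∧
    ∀ a : ℕ → ℚ, CondConv (fun n => (a n : ℝ)) → ∃ X ∈ F, CondConv (sub a X)}.Nonempty :=
  ⟨_, {X | InfCoinf X}, rfl, fun _ h => h, fun a ha => exists_cc a ha⟩

theorem ssC_le_ssCC : ssC ≤ ssCC := by
  obtain ⟨F, hc, h1, h2⟩ := csInf_mem ssCC_ne
  unfold ssCC
  rw [← hc]
  exact csInf_le' ⟨F, rfl, h1, fun a ha => (h2 a ha).imp (fun X hX => ⟨hX.1, hX.2.1⟩)⟩

theorem min_le_ssC : min dom covE ≤ ssC := by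
  have hne : {c | ∃ F : Set (Set ℕ), #F = c ∧ (∀ X ∈ F, InfCoinf X) ∧
      ∀ a : ℕ → ℚ, CondConv (fun n => (a n : ℝ)) → ∃ X ∈ F, Conv (sub a X)}.Nonempty :=
    ⟨_, {X | InfCoinf X}, rfl, fun _ h => h,
      fun a ha => (exists_cc a ha).imp (fun X hX => ⟨hX.1, hX.2.1⟩)⟩
  obtain ⟨F, hc, h1, h2⟩ := csInf_mem hne
  by_contra hlt
  unfold ssC at hlt
  rw [← hc, not_le, lt_min_iff] at hlt
  obtain ⟨a, ha, hX⟩ := key F h1 hlt.1 hlt.2
  obtain ⟨X, hXF, hXc⟩ := h2 a ha
  exact hX X hXF hXc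

lemma single_null (u : ℕ → Bool) : coins {u} = 0 := by
  by_contra hne
  obtain ⟨k, hk⟩ := ENNReal.exists_inv_two_pow_lt hne
  have : coins {u} ≤ coins {v | ∀ t ∈ Finset.range k, v t = u t} :=
    measure_mono (by rintro _ rfl; simp)
  rw [cyl, Finset.card_range] at this
  exact absurd (lt_of_lt_of_le hk this) (lt_irrefl _)

theorem covN_le_covE : covN ≤ covE := by
  have hne : {c | ∃ F : Set (Set (ℕ → Bool)), #F = c ∧ (∀ A ∈ F, InE A) ∧
      ⋃₀ F = Set.univ}.Nonempty := by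
    refine ⟨_, {A | InE A}, rfl, fun _ h => h, eq_univ_of_forall (fun u => ⟨{u}, ?_, rfl⟩)⟩
    exact ⟨fun _ => {u}, fun _ => ⟨isClosed_singleton, single_null u⟩, by
      intro v hv; exact mem_iUnion.2 ⟨0, hv⟩⟩
  obtain ⟨F, hc, h1, h2⟩ := csInf_mem hne
  unfold covE
  rw [← hc]
  refine csInf_le' ⟨F, rfl, fun A hA => ?_, h2⟩
  obtain ⟨C, hC, hAC⟩ := h1 A hA
  exact measure_mono_null hAC (measure_iUnion_null (fun n => (hC n).2))

theorem min_le_ssC' : min dom covN ≤ ssC := (min_le_min le_rfl covN_le_covE).trans min_le_ssC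

end Pool.Agent.H83.Ss3
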