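import Mathlib
import Pool.Agent.H83.EqDefs
import Pool.Agent.H83.Ss3

namespace Pool.Agent.H83.Eq1

open Filter Topology Set MeasureTheory Cardinal
open Pool.Agent.H83.SsDefs Pool.Agent.H83.EqDefs Pool.Agent.H83.Ss1

lemma avoid (b : ℕ) (s : Finset ℕ) (hs : s.card < b) : ∃ a, a < b ∧ a ∉ s := by
  by_contra h
  push Not at h
  have : Finset.range b ⊆ s := fun a ha => h a (Finset.mem_range.1 ha)
  have := Finset.card_le_card this
  rw [Finset.card_range] at this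
  omega

lemma not_match {f i h : ℕ → ℕ} (hi : IsPart i) (hne : ∀ᶠ k in atTop, f k ≠ h k) :
    ¬ Match f i h := by
  intro hm
  obtain ⟨N, hN⟩ := eventually_atTop.1 hne
  obtain ⟨n, ⟨k, h1, _, h3⟩, hn⟩ := (hm.and (eventually_ge_atTop N)).exists
  have : n ≤ i n := hi.2.id_le n
  exact hN k (by omega) h3

theorem bEq_le (b w : ℕ → ℕ) (hw : ∀ k, 1 ≤ w k) (hb : ∀ k, w k < b k) : bEq b ≤ dLc b w := by
  have hne : {c | ∃ Φ : Set (ℕ → Finset ℕ), #Φ = c ∧ (∀ φ ∈ Φ, ∀ i, (φ i).card ≤ w i) ∧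
      ∀ f : ℕ → ℕ, (∀ i, f i < b i) → ∃ φ ∈ Φ, ∀ᶠ i in atTop, f i ∈ φ i}.Nonempty :=
    ⟨_, {φ | ∀ i, (φ i).card ≤ w i}, rfl, fun _ h => h, fun f _ =>
      ⟨fun i => {f i}, fun i => by simpa using hw i, by simp⟩⟩
  obtain ⟨Φ, hc, h1, h2⟩ := csInf_mem hne
  unfold dLc
  rw [← hc]
  have hp : ∀ (φ : Φ) (k : ℕ), ∃ a, a < b k ∧ a ∉ φ.1 k := fun φ k =>
    avoid _ _ (lt_of_le_of_lt (h1 φ.1 φ.2 k) (hb k))
  choose f hf1 hf2 using hp
  refine le_trans (csInf_le' ⟨range f, rfl, ?_, ?_⟩) mk_range_le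
  · rintro _ ⟨φ, rfl⟩; exact hf1 φ
  · rintro ⟨i, h, hi, hh, hm⟩
    obtain ⟨φ, hφ, hφ2⟩ := h2 h hh
    refine not_match hi (hφ2.mono (fun k hk he => ?_)) (hm (f ⟨φ, hφ⟩) ⟨_, rfl⟩)
    exact hf2 ⟨φ, hφ⟩ k (he ▸ hk)

lemma dEq_ne (b : ℕ → ℕ) : {c | ∃ D : Set ((ℕ → ℕ) × (ℕ → ℕ)), #D = c ∧
    (∀ p ∈ D, IsPart p.1 ∧ InProd b p.2) ∧
    ∀ f, InProd b f → ∃ p ∈ D, Match f p.1 p.2}.Nonempty :=
  ⟨_, {p | IsPart p.1 ∧ InProd b p.2}, rfl, fun _ h => h, fun f hf =>
    ⟨(id, f), ⟨⟨rfl, strictMono_id⟩, hf⟩, Eventually.of_forall (fun n =>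
      ⟨n, le_rfl, Nat.lt_succ_self n, rfl⟩)⟩⟩

/-- Block form of the lower bound for `d_b^eq`. -/
theorem bLc_le (c h : ℕ → ℕ) (hh : ∀ n, 1 ≤ h n) (hc : ∀ n, (h n + 1) ^ (h n + 1) ≤ c n) :
    ∃ b, Divg b ∧ bLc c h ≤ dEq b := by
  classical
  let m : ℕ → ℕ := fun n => ∑ j ∈ Finset.range n, (h j + 1)
  have hm : ∀ n, m (n + 1) = m n + (h n + 1) := fun n => Finset.sum_range_succ _ _
  have hmono : StrictMono m := strictMono_nat_of_lt_succ (fun n => by rw [hm]; omega)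
  have hex : ∀ k, ∃ n, k < m (n + 1) := fun k =>
    ⟨k, lt_of_lt_of_le (Nat.lt_succ_self k) (hmono.id_le _)⟩
  let ν : ℕ → ℕ := fun k => Nat.find (hex k)
  have hν1 : ∀ k, k < m (ν k + 1) := fun k => Nat.find_spec (hex k)
  have hν2 : ∀ k, m (ν k) ≤ k := by
    intro k
    rcases Nat.eq_zero_or_pos (ν k) with h0 | h0
    · rw [h0]; simp [m]
    · have := Nat.find_min (hex k) (show ν k - 1 < Nat.find (hex k) by
        have : ν k = Nat.find (hex k) := rfl
        omega)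
      rw [show ν k - 1 + 1 = ν k by omega] at this
      omega
  have hν3 : ∀ n k, m n ≤ k → k < m (n + 1) → ν k = n := by
    intro n k h1 h2
    rcases lt_trichotomy (ν k) n with h3 | h3 | h3
    · have := hmono.monotone (Nat.succ_le_of_lt h3)
      have := hν1 k
      simp only [Nat.succ_eq_add_one] at *
      omega
    · exact h3
    · have := hmono.monotone (Nat.succ_le_of_lt h3)
      have := hν2 k
      simp only [Nat.succ_eq_add_one] at *
      omega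
  have hνt : Tendsto ν atTop atTop := by
    refine tendsto_atTop.2 (fun n => ?_)
    filter_upwards [eventually_ge_atTop (m n)] with k hk
    by_contra hlt
    have := hmono.monotone (Nat.succ_le_of_lt (not_le.1 hlt))
    have := hν1 k
    simp only [Nat.succ_eq_add_one] at *
    omega
  let b : ℕ → ℕ := fun k => h (ν k) + 1
  refine ⟨b, ⟨fun k => by have := hh (ν k); simp only [b]; omega, fun hs => ?_⟩, ?_⟩
  · have hsum : ∀ n, ∑ k ∈ Finset.range (m n), 1 / (b k : ℝ) = n := by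
      intro n
      induction n with
      | zero => simp [m]
      | succ n ih =>
        rw [hm, Finset.sum_range_add, ih]
        have : ∀ x ∈ Finset.range (h n + 1), 1 / (b (m n + x) : ℝ) = 1 / ((h n : ℝ) + 1) := by
          intro x hx
          have hx' := Finset.mem_range.1 hx
          simp only [b]
          rw [hν3 n (m n + x) (by omega) (by rw [hm]; omega)]
          push_cast; rfl
        rw [Finset.sum_congr rfl this, Finset.sum_const, Finset.card_range, nsmul_eq_mul]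
        push_cast
        field_simp
    have h1 := hs.hasSum.tendsto_sum_nat.comp hmono.tendsto_atTop
    simp only [Function.comp_def, hsum] at h1
    exact not_tendsto_nhds_of_tendsto_atTop tendsto_natCast_atTop_atTop _ h1
  obtain ⟨D, hD, h1, h2⟩ := csInf_mem (dEq_ne b)
  unfold dEq
  rw [← hD]
  -- code blocks
  let e : ∀ n, (Fin (h n + 1) → Fin (h n + 1)) ≃ Fin ((h n + 1) ^ (h n + 1)) :=
    fun n => finFunctionFinEquiv
  let code : (ℕ → ℕ) → ℕ → ℕ := fun g n =>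
    (e n (fun t => ⟨g (m n + t) % (h n + 1), Nat.mod_lt _ (Nat.succ_pos _)⟩) : ℕ)
  let dec : ∀ n, ℕ → ℕ → ℕ := fun n x t =>
    if hx : x < (h n + 1) ^ (h n + 1) then
      if ht : t < h n + 1 then ((e n).symm ⟨x, hx⟩ ⟨t, ht⟩ : ℕ) else 0 else 0
  have hdec : ∀ g, InProd b g → ∀ k, dec (ν k) (code g (ν k)) (k - m (ν k)) = g k := by
    intro g hg k
    have a1 := hν1 k
    have a2 := hν2 k
    rw [hm] at a1
    simp only [dec, code]
    rw [dif_pos (Fin.is_lt _), dif_pos (by omega)]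
    simp only [Fin.eta, Equiv.symm_apply_apply]
    rw [show m (ν k) + (k - m (ν k)) = k by omega]
    exact Nat.mod_eq_of_lt (hg k)
  refine le_trans (csInf_le' ⟨(fun p => code p.2) '' D, rfl, ?_, ?_⟩) mk_image_le
  · rintro _ ⟨p, _, rfl⟩ n
    exact lt_of_lt_of_le (Fin.is_lt _) (hc n)
  · rintro ⟨φ, hφ1, hφ2⟩
    have hp : ∀ k, ∃ a, a < b k ∧ a ∉ (φ (ν k)).image (fun x => dec (ν k) x (k - m (ν k))) :=
      fun k => avoid _ _ (lt_of_le_of_lt (Finset.card_image_le.trans (hφ1 _)) (Nat.lt_succ_self _))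
    choose f hf1 hf2 using hp
    obtain ⟨p, hp, hpm⟩ := h2 f hf1
    refine not_match (h1 p hp).1 ?_ hpm
    filter_upwards [hνt.eventually (hφ2 _ ⟨p, hp, rfl⟩)] with k hk he
    apply hf2 k
    rw [he, ← hdec p.2 (h1 p hp).2 k]
    exact Finset.mem_image_of_mem _ hk

end Pool.Agent.H83.Eq1
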