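import Mathlib
import Pool.Agent.H83.EqDefs
import Pool.Agent.H83.Eq1

namespace Pool.Agent.H83.Eq2

open Filter Topology Set MeasureTheory Cardinal
open Pool.Agent.H83.SsDefs Pool.Agent.H83.EqDefs Pool.Agent.H83.Ss1 Pool.Agent.H83.Eq1

lemma ext_null (C : Set (ℕ → Bool)) (hC : coins C = 0) (y : ℕ → Bool) (n : ℕ) :
    ∃ z, (∀ k < n, z k = y k) ∧ z ∉ C := by
  by_contra h
  push Not at h
  have : coins {v | ∀ t ∈ Finset.range n, v t = y t} ≤ coins C :=
    measure_mono (fun v hv => h v (fun k hk => hv k (Finset.mem_range.2 hk)))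
  rw [cyl, hC, nonpos_iff_eq_zero] at this
  exact pow_ne_zero _ (by simp) this

lemma cyl_open (U : Set (ℕ → Bool)) (hU : IsOpen U) (y : ℕ → Bool) (hy : y ∈ U) :
    ∃ n, ∀ z : ℕ → Bool, (∀ k < n, z k = y k) → z ∈ U := by
  obtain ⟨I, u, hu, hsub⟩ := isOpen_pi_iff.1 hU y hy
  refine ⟨I.sup id + 1, fun z hz => hsub (fun k hk => ?_)⟩
  have : k ≤ I.sup id := Finset.le_sup (f := id) hk
  rw [hz k (by omega)]
  exact (hu k hk).2

lemma step (C : Set (ℕ → Bool)) (hc : IsClosed C) (hC : coins C = 0) (m : ℕ) :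
    ∃ p : ℕ × (ℕ → Bool), m < p.1 ∧ ∀ x : ℕ → Bool, (∀ k, m ≤ k → k < p.1 → x k = p.2 k) → x ∉ C := by
  classical
  have key : ∀ T : Finset (ℕ → Bool), ∃ p : ℕ × (ℕ → Bool), m < p.1 ∧ ∀ t ∈ T, ∀ x : ℕ → Bool,
      (∀ k < m, x k = t k) → (∀ k, m ≤ k → k < p.1 → x k = p.2 k) → x ∉ C := by
    intro T
    induction T using Finset.induction_on with
    | empty => exact ⟨(m + 1, fun _ => false), Nat.lt_succ_self m, by simp⟩
    | insert t T _ ih =>
      obtain ⟨⟨m', y⟩, h1, h2⟩ := ih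
      simp only at h1 h2
      obtain ⟨z, hz1, hz2⟩ := ext_null C hC (fun k => if k < m then t k else y k) m'
      obtain ⟨n, hn⟩ := cyl_open Cᶜ hc.isOpen_compl z hz2
      refine ⟨(max m' n, z), lt_max_of_lt_left h1, fun t' ht' x hx1 hx2 => ?_⟩
      simp only at hx2
      rcases Finset.mem_insert.1 ht' with rfl | ht'
      · refine hn x (fun k hk => ?_)
        by_cases hkm : k < m
        · rw [hx1 k hkm, hz1 k (by omega), if_pos hkm]
        · exact hx2 k (by omega) (lt_max_of_lt_right hk)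
      · refine h2 t' ht' x hx1 (fun k hk1 hk2 => ?_)
        rw [hx2 k hk1 (lt_max_of_lt_left hk2), hz1 k hk2, if_neg (by omega)]
  obtain ⟨p, h1, h2⟩ := key (Finset.univ.image (fun s : Fin m → Bool =>
    fun k => if h : k < m then s ⟨k, h⟩ else false))
  refine ⟨p, h1, fun x hx => h2 _ (Finset.mem_image_of_mem _ (Finset.mem_univ (fun k : Fin m => x k))) x
    (fun k hk => by simp [hk]) hx⟩

def toN (u : ℕ → Bool) : ℕ → ℕ := fun k => if u k then 1 else 0

def toB (f : ℕ → ℕ) : ℕ → Bool := fun k => decide (f k = 1)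

lemma toN_toB (f : ℕ → ℕ) (hf : InProd (fun _ => 2) f) : toN (toB f) = f := by
  funext k
  have := hf k
  simp only [toN, toB] at *
  by_cases h : f k = 1
  · simp [h]
  · simp [h]; omega

theorem match_of_inE (A : Set (ℕ → Bool)) (hA : InE A) :
    ∃ p : (ℕ → ℕ) × (ℕ → ℕ), IsPart p.1 ∧ InProd (fun _ => 2) p.2 ∧
      ∀ u ∈ A, Match (toN u) p.1 p.2 := by
  obtain ⟨C, hC, hAC⟩ := hA
  have hs : ∀ n m : ℕ, ∃ p : ℕ × (ℕ → Bool), m < p.1 ∧ ∀ x : ℕ → Bool,
      (∀ k, m ≤ k → k < p.1 → x k = p.2 k) → x ∉ ⋃ j ∈ Finset.range (n + 1), C j := fun n m =>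
    step _ (isClosed_biUnion_finset (fun j _ => (hC j).1))
      ((measure_biUnion_null_iff (Finset.countable_toSet _)).2 (fun j _ => (hC j).2)) m
  choose P hP1 hP2 using hs
  let i : ℕ → ℕ := fun n => Nat.rec 0 (fun n m => (P n m).1) n
  have hi : ∀ n, i (n + 1) = (P n (i n)).1 := fun n => rfl
  have hmono : StrictMono i := strictMono_nat_of_lt_succ (fun n => by rw [hi]; exact hP1 _ _)
  have hex : ∀ k, ∃ n, k < i (n + 1) := fun k =>
    ⟨k, lt_of_lt_of_le (Nat.lt_succ_self k) (hmono.id_le _)⟩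
  let ν : ℕ → ℕ := fun k => Nat.find (hex k)
  have hν3 : ∀ n k, i n ≤ k → k < i (n + 1) → ν k = n := by
    intro n k h1 h2
    refine le_antisymm (Nat.find_min' _ h2) ?_
    by_contra hlt
    have h3 : k < i (ν k + 1) := Nat.find_spec (hex k)
    have := hmono.monotone (Nat.succ_le_of_lt (not_le.1 hlt))
    simp only [Nat.succ_eq_add_one] at this
    omega
  refine ⟨(i, fun k => if (P (ν k) (i (ν k))).2 k then 0 else 1), ⟨rfl, hmono⟩, fun k => ?_,
    fun u hu => ?_⟩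
  · simp only; split_ifs <;> omega
  · obtain ⟨j, hj⟩ := mem_iUnion.1 (hAC hu)
    filter_upwards [eventually_ge_atTop j] with n hn
    by_contra hno
    push Not at hno
    refine hP2 n (i n) u (fun k h1 h2 => ?_) (mem_iUnion₂.2 ⟨j, Finset.mem_range.2 (by omega), hj⟩)
    have := hno k h1 (by rw [hi]; exact h2)
    rw [hν3 n k h1 (by rw [hi]; exact h2)] at this
    simp only [toN] at this
    cases h3 : u k <;> cases h4 : (P n (i n)).2 k <;> simp_all

theorem nonE_le : nonE ≤ bEq (fun _ => 2) := by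
  have hne : {c | ∃ F : Set (ℕ → ℕ), #F = c ∧ (∀ f ∈ F, InProd (fun _ => 2) f) ∧
      ¬ ∃ i h, IsPart i ∧ InProd (fun _ => 2) h ∧ ∀ f ∈ F, Match f i h}.Nonempty := by
    refine ⟨_, {f | InProd (fun _ => 2) f}, rfl, fun _ h => h, ?_⟩
    rintro ⟨i, h, hi, hh, hm⟩
    refine not_match hi (Eventually.of_forall (fun k => ?_)) (hm (fun k => 1 - h k) (fun k => ?_))
    · have := hh k; simp only at this ⊢; omega
    · simp only; omega
  obtain ⟨F, hc, h1, h2⟩ := csInf_mem hne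
  unfold bEq
  rw [← hc]
  refine le_trans (csInf_le' ⟨toB '' F, rfl, fun hE => h2 ?_⟩) mk_image_le
  obtain ⟨p, hp1, hp2, hp3⟩ := match_of_inE _ hE
  refine ⟨p.1, p.2, hp1, hp2, fun f hf => ?_⟩
  have := hp3 _ (mem_image_of_mem _ hf)
  rwa [toN_toB f (h1 f hf)] at this

theorem dEq_le : dEq (fun _ => 2) ≤ covE := by
  have hne : {c | ∃ F : Set (Set (ℕ → Bool)), #F = c ∧ (∀ A ∈ F, InE A) ∧
      ⋃₀ F = Set.univ}.Nonempty := by
    refine ⟨_, {A | InE A}, rfl, fun _ h => h, eq_univ_of_forall (fun u => ⟨{u}, ?_, rfl⟩)⟩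
    exact ⟨fun _ => {u}, fun _ => ⟨isClosed_singleton, Ss3.single_null u⟩, by
      intro v hv; exact mem_iUnion.2 ⟨0, hv⟩⟩
  obtain ⟨F, hc, h1, h2⟩ := csInf_mem hne
  unfold covE
  rw [← hc]
  choose p hp1 hp2 hp3 using fun A : F => match_of_inE A.1 (h1 A.1 A.2)
  refine le_trans (csInf_le' ⟨range p, rfl, ?_, fun f hf => ?_⟩) mk_range_le
  · rintro _ ⟨A, rfl⟩; exact ⟨hp1 A, hp2 A⟩
  · have : toB f ∈ ⋃₀ F := h2 ▸ mem_univ _
    obtain ⟨A, hA, hfA⟩ := this
    refine ⟨p ⟨A, hA⟩, ⟨_, rfl⟩, ?_⟩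
    have := hp3 ⟨A, hA⟩ _ hfA
    rwa [toN_toB f hf] at this

lemma div_two : Divg (fun _ => 2) := by
  refine ⟨fun _ => le_rfl, fun h => ?_⟩
  have := tendsto_nhds_unique h.tendsto_atTop_zero tendsto_const_nhds
  norm_num at this

lemma div_id : Divg (fun k => k + 2) := by
  refine ⟨fun k => by simp, fun h => ?_⟩
  exact Real.not_summable_one_div_natCast ((summable_nat_add_iff 2).1 h)

end Pool.Agent.H83.Eq2
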