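import Mathlib
import Pool.Agent.H83.EqDefs

/-! The bounding number and the eventually-different number of `∏ b`. -/

namespace Pool.Agent.H83.EqDefs2

open Filter Set Cardinal Pool.Agent.H83.EqDefs

/-- The bounding number. -/
noncomputable def bnd : Cardinal := sInf {c | ∃ F : Set (ℕ → ℕ), #F = c ∧
  ¬ ∃ g : ℕ → ℕ, ∀ f ∈ F, ∀ᶠ n in atTop, f n ≤ g n}

/-- The least size of `F ⊆ ∏ b` such that every `h ∈ ∏ b` is eventually different from some
member of `F`. -/
noncomputable def dNe (b : ℕ → ℕ) : Cardinal :=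
  sInf {c | ∃ F : Set (ℕ → ℕ), #F = c ∧ (∀ f ∈ F, InProd b f) ∧
    ∀ h, InProd b h → ∃ f ∈ F, ∀ᶠ k in atTop, f k ≠ h k}

end Pool.Agent.H83.EqDefs2
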