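import Mathlib
import Pool.Agent.H83.EqDefs2
import Pool.Agent.H83.Eq1

namespace Pool.Agent.H83.Eq3

open Filter Set Cardinal
open Pool.Agent.H83.SsDefs Pool.Agent.H83.EqDefs Pool.Agent.H83.EqDefs2 Pool.Agent.H83.Eq1

lemma exists_ne (b h : ℕ → ℕ) (hb : ∀ k, 2 ≤ b k) : ∃ f, InProd b f ∧ ∀ k, f k ≠ h k :=
  ⟨fun k => if h k = 0 then 1 else 0, fun k => by have := hb k; simp only; split_ifs <;> omega,
    fun k => by simp only; split_ifs <;> omega⟩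

lemma dNe_ne (b : ℕ → ℕ) (hb : ∀ k, 2 ≤ b k) : {c | ∃ F : Set (ℕ → ℕ), #F = c ∧
    (∀ f ∈ F, InProd b f) ∧ ∀ h, InProd b h → ∃ f ∈ F, ∀ᶠ k in atTop, f k ≠ h k}.Nonempty :=
  ⟨_, {f | InProd b f}, rfl, fun _ h => h, fun h _ => by
    obtain ⟨f, h1, h2⟩ := exists_ne b h hb
    exact ⟨f, h1, Eventually.of_forall h2⟩⟩

theorem bEq_le_dNe (b : ℕ → ℕ) (hb : ∀ k, 2 ≤ b k) : bEq b ≤ dNe b := by
  obtain ⟨F, hc, h1, h2⟩ := csInf_mem (dNe_ne b hb)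
  unfold dNe
  rw [← hc]
  refine csInf_le' ⟨F, rfl, h1, ?_⟩
  rintro ⟨i, h, hi, hh, hm⟩
  obtain ⟨f, hf, hf2⟩ := h2 h hh
  exact not_match hi hf2 (hm f hf)

theorem dNe_le (b w : ℕ → ℕ) (hw : ∀ k, 1 ≤ w k) (hb : ∀ k, w k < b k) : dNe b ≤ dLc b w := by
  have hne : {c | ∃ Φ : Set (ℕ → Finset ℕ), #Φ = c ∧ (∀ φ ∈ Φ, ∀ i, (φ i).card ≤ w i) ∧
      ∀ f : ℕ → ℕ, (∀ i, f i < b i) → ∃ φ ∈ Φ, ∀ᶠ i in atTop, f i ∈ φ i}.Nonempty :=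
    ⟨_, {φ | ∀ i, (φ i).card ≤ w i}, rfl, fun _ h => h, fun f _ =>
      ⟨fun i => {f i}, fun i => by simpa using hw i, by simp⟩⟩
  obtain ⟨Φ, hc, h1, h2⟩ := csInf_mem hne
  unfold dLc
  rw [← hc]
  have hp : ∀ (φ : Φ) (k : ℕ), ∃ a, a < b k ∧ a ∉ φ.1 k := fun φ k =>
    avoid _ _ (lt_of_le_of_lt (h1 φ.1 φ.2 k) (hb k))
  choose f hf1 hf2 using hp
  refine le_trans (csInf_le' ⟨range f, rfl, ?_, fun h hh => ?_⟩) mk_range_le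
  · rintro _ ⟨φ, rfl⟩; exact hf1 φ
  · obtain ⟨φ, hφ, hφ2⟩ := h2 h hh
    exact ⟨f ⟨φ, hφ⟩, ⟨_, rfl⟩, hφ2.mono (fun k hk he => hf2 ⟨φ, hφ⟩ k (he ▸ hk))⟩

theorem min_le_bEq (b : ℕ → ℕ) (hb : ∀ k, 2 ≤ b k) : min bnd (dNe b) ≤ bEq b := by
  classical
  have hne : {c | ∃ F : Set (ℕ → ℕ), #F = c ∧ (∀ f ∈ F, InProd b f) ∧
      ¬ ∃ i h, IsPart i ∧ InProd b h ∧ ∀ f ∈ F, Match f i h}.Nonempty := by
    refine ⟨_, {f | InProd b f}, rfl, fun _ h => h, ?_⟩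
    rintro ⟨i, h, hi, _, hm⟩
    obtain ⟨f, h1, h2⟩ := exists_ne b h hb
    exact not_match hi (Eventually.of_forall h2) (hm f h1)
  obtain ⟨F, hc, h1, h2⟩ := csInf_mem hne
  by_contra hlt
  unfold bEq at hlt
  rw [← hc, not_le, lt_min_iff] at hlt
  have h3 : ¬ ∀ h, InProd b h → ∃ f ∈ F, ∀ᶠ k in atTop, f k ≠ h k := fun hh =>
    absurd (lt_of_lt_of_le hlt.2 (csInf_le' ⟨F, rfl, h1, hh⟩)) (lt_irrefl _)
  push Not at h3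
  obtain ⟨h, hh, hF⟩ := h3
  have hnx : ∀ (f : F) (n : ℕ), ∃ k, n ≤ k ∧ f.1 k = h k := fun f n => by
    obtain ⟨k, hk1, hk2⟩ := ((hF f.1 f.2).and_eventually (eventually_ge_atTop n)).exists
    exact ⟨k, hk2, hk1⟩
  choose nx hnx1 hnx2 using hnx
  have h4 : ∃ g : ℕ → ℕ, ∀ f ∈ range nx, ∀ᶠ n in atTop, f n ≤ g n := by
    by_contra hno
    have h5 : bnd ≤ #(range nx) := csInf_le' ⟨range nx, rfl, hno⟩
    exact absurd (lt_of_lt_of_le hlt.1 (h5.trans mk_range_le)) (lt_irrefl _)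
  obtain ⟨g, hg⟩ := h4
  let i : ℕ → ℕ := fun n => Nat.rec 0 (fun _ m => m + g m + 1) n
  have hi : ∀ n, i (n + 1) = i n + g (i n) + 1 := fun n => rfl
  have hmono : StrictMono i := strictMono_nat_of_lt_succ (fun n => by rw [hi]; omega)
  refine h2 ⟨i, h, ⟨rfl, hmono⟩, hh, fun f hf => ?_⟩
  filter_upwards [hmono.tendsto_atTop.eventually (hg _ ⟨⟨f, hf⟩, rfl⟩)] with n hn
  exact ⟨nx ⟨f, hf⟩ (i n), hnx1 _ _, by rw [hi]; omega, hnx2 ⟨f, hf⟩ _⟩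

end Pool.Agent.H83.Eq3
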