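import Mathlib

set_option autoImplicit false

namespace Pool.Agent.H83.Fan

open Set Filter Topology Cardinal

/-- closing a small set under a countably-valued finitary function -/
theorem exists_closed_superset {I : Type} (f : Finset I → Set I) (hf : ∀ F, (f F).Countable)
    (κ : Cardinal.{0}) (hκ : ℵ₀ ≤ κ) (S₀ : Set I) (h₀ : #S₀ ≤ κ) :
    ∃ S : Set I, S₀ ⊆ S ∧ #S ≤ κ ∧ ∀ F : Finset I, (F : Set I) ⊆ S → f F ⊆ S := by
  classical
  let step : Set I → Set I := fun T => T ∪ ⋃ F : Finset T, f (F.map (Function.Embedding.subtype _))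
  have hstep : ∀ T : Set I, #T ≤ κ → #(step T) ≤ κ := by
    intro T hT
    refine (mk_union_le _ _).trans (add_le_of_le hκ hT ?_)
    refine (mk_iUnion_le _).trans ?_
    have h1 : #(Finset T) ≤ κ := by
      rcases finite_or_infinite T with h | h
      · exact (le_of_lt (lt_aleph0_of_finite _)).trans hκ
      · rw [mk_finset_of_infinite]; exact hT
    have h2 : ⨆ F : Finset T, #(f (F.map (Function.Embedding.subtype _))) ≤ κ :=
      ciSup_le' fun F => (le_aleph0_iff_set_countable.2 (hf _)).trans hκ
    exact (mul_le_mul' h1 h2).trans (mul_eq_self hκ).le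
  let st : ℕ → Set I := fun n => step^[n] S₀
  have hs : ∀ n, st (n + 1) = step (st n) := fun n => Function.iterate_succ_apply' _ _ _
  have hc : ∀ n, #(st n) ≤ κ := by
    intro n
    induction n with
    | zero => exact h₀
    | succ n ih => rw [hs]; exact hstep _ ih
  have hm : Monotone st := monotone_nat_of_le_succ fun n => by rw [hs]; exact subset_union_left
  refine ⟨⋃ n, st n, subset_iUnion st 0, ?_, ?_⟩
  · refine (mk_iUnion_le _).trans ?_
    exact (mul_le_mul' (by simpa using hκ) (ciSup_le' hc)).trans (mul_eq_self hκ).le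
  · intro F hF
    obtain ⟨n, hn⟩ : ∃ n, (F : Set I) ⊆ st n :=
      Directed.exists_mem_subset_of_finset_subset_biUnion hm.directed_le hF
    refine subset_trans ?_ (subset_iUnion st (n + 1))
    rw [hs]
    refine subset_trans ?_ subset_union_right
    refine subset_trans ?_ (subset_iUnion _ (F.subtype (· ∈ st n)))
    rw [Finset.subtype_map_of_mem (fun x hx => hn hx)]

/-- countable or co-countable support -/
def grp : AddSubgroup (Set ℝ → ZMod 2) where
  carrier := {x | ∃ c : ZMod 2, {i | x i ≠ c}.Countable}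
  zero_mem' := ⟨0, by simp⟩
  add_mem' := by
    rintro x y ⟨c, hc⟩ ⟨d, hd⟩
    refine ⟨c + d, (hc.union hd).mono ?_⟩
    intro i hi
    by_contra h
    simp only [mem_union, mem_setOf_eq, not_or, not_not] at h
    exact hi (by simp [h.1, h.2])
  neg_mem' := by
    rintro x ⟨c, hc⟩
    refine ⟨-c, hc.mono ?_⟩
    intro i hi h
    exact hi (by simp [h])

theorem omega_bounded (x : ℕ → grp) : ∃ K : Set grp, IsCompact K ∧ ∀ n, x n ∈ K := by
  choose c hc using fun n => (x n).2
  let S : Set (Set ℝ) := ⋃ n, {i | (x n).1 i ≠ c n}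
  have hS : S.Countable := countable_iUnion hc
  let L : Set (Set ℝ → ZMod 2) := ⋃ d : ZMod 2, ⋂ i ∈ Sᶜ, {y | y i = d}
  have hL : IsClosed L := isClosed_iUnion_of_finite fun d => isClosed_biInter fun i _ =>
    isClosed_eq (continuous_apply i) continuous_const
  have hsub : L ⊆ range ((↑) : grp → _) := by
    intro y hy
    simp only [L, mem_iUnion, mem_iInter, mem_setOf_eq] at hy
    obtain ⟨d, hd⟩ := hy
    refine ⟨⟨y, d, hS.mono ?_⟩, rfl⟩
    intro i hi
    by_contra h
    exact hi (hd i h)
  refine ⟨(↑) ⁻¹' L, ?_, ?_⟩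
  · exact (IsInducing.subtypeVal.isCompact_preimage_iff hsub).2 hL.isCompact
  · intro n
    simp only [L, mem_preimage, mem_iUnion, mem_iInter, mem_setOf_eq]
    refine ⟨c n, fun i hi => ?_⟩
    by_contra h
    exact hi (mem_iUnion.2 ⟨n, h⟩)

theorem no_fan {ι : Type*} (F : ι → Set grp)
    (h : ∀ K, IsCompact K → {i | (F i ∩ K).Nonempty}.Finite) : LocallyFinite F := by
  have : {i | (F i).Nonempty}.Finite := by
    by_contra hinf
    have hinf : {i | (F i).Nonempty}.Infinite := hinf
    let e := hinf.natEmbedding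
    choose x hx using fun n => (e n).2
    obtain ⟨K, hK, hxK⟩ := omega_bounded x
    refine (Set.infinite_range_of_injective
      (Subtype.val_injective.comp e.injective)).mono ?_ (h K hK)
    rintro _ ⟨n, rfl⟩
    exact ⟨x n, hx n, hxK n⟩
  intro x
  exact ⟨univ, univ_mem, by simpa using this⟩

theorem card_lt : 𝔠 < #(Set ℝ) := by
  rw [mk_set, mk_real]; exact cantor _

theorem not_countable_compl {S : Set (Set ℝ)} (hS : #S ≤ 𝔠) : ¬ Sᶜ.Countable := by
  intro h
  have h1 : #(Set ℝ) ≤ 𝔠 := by
    rw [← mk_univ, ← union_compl_self S]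
    exact (mk_union_le _ _).trans (add_le_of_le aleph0_le_continuum hS
      ((le_aleph0_iff_set_countable.2 h).trans aleph0_le_continuum))
  exact absurd card_lt (not_lt.2 h1)

/-- the countably supported part -/
def sig : Set grp := {x | {i | x.1 i ≠ 0}.Countable}

theorem sig_not_closed : ¬ IsClosed sig := by
  classical
  intro h
  have h1 : (⟨fun _ => 1, 1, by simp⟩ : grp) ∈ closure sig := by
    rw [mem_closure_iff]
    intro U hU hx
    obtain ⟨V, hV, rfl⟩ := isOpen_induced_iff.1 hU
    obtain ⟨F, u, hu, hF⟩ := isOpen_pi_iff.1 hV _ hx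
    have hc : {i | (fun i => if i ∈ F then (1 : ZMod 2) else 0) i ≠ 0}.Countable := by
      refine F.countable_toSet.mono fun i hi => ?_
      by_contra h'
      simp only [Finset.mem_coe] at h'
      simp [h'] at hi
    refine ⟨⟨fun i => if i ∈ F then 1 else 0, 0, hc⟩, hF ?_, hc⟩
    intro i hi
    simp only [Finset.mem_coe] at hi
    simpa [hi] using (hu i hi).2
  rw [h.closure_eq] at h1
  apply not_countable_compl (S := ∅) (by simp)
  simpa [sig] using h1

theorem sig_kclosed (K : Set grp) (hK : IsCompact K) : IsClosed (((↑) : K → grp) ⁻¹' sig) := by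
  classical
  rw [← closure_subset_iff_isClosed]
  intro x hx
  by_contra hx0
  obtain ⟨c, hc⟩ := x.1.2
  have hc0 : c ≠ 0 := by rintro rfl; exact hx0 hc
  have key : ∀ F : Finset (Set ℝ), ∃ y : K, y.1 ∈ sig ∧ ∀ i ∈ F, y.1.1 i = x.1.1 i := by
    intro F
    have ho : IsOpen (⋂ i ∈ F, {y : K | y.1.1 i = x.1.1 i}) :=
      isOpen_biInter_finset fun i _ => by
        have h1 : Continuous fun y : K => (y.1.1 : Set ℝ → ZMod 2) :=
          continuous_subtype_val.comp continuous_subtype_val
        have hcont : Continuous fun y : K => y.1.1 i :=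
          (continuous_apply (A := fun _ : Set ℝ => ZMod 2) i).comp h1
        exact (isOpen_discrete ({x.1.1 i} : Set (ZMod 2))).preimage hcont
    obtain ⟨y, hy1, hy2⟩ := mem_closure_iff.1 hx _ ho (by simp)
    exact ⟨y, hy2, by simpa using hy1⟩
  choose y hy1 hy2 using key
  obtain ⟨S, hS0, hS1, hS2⟩ := exists_closed_superset (fun F => {i | (y F).1.1 i ≠ 0}) hy1 𝔠
    aleph0_le_continuum (range fun r : ℝ => ({r} : Set ℝ)) (mk_range_le.trans mk_real.le)
  let z : Set ℝ → ZMod 2 := fun i => if i ∈ S then x.1.1 i else 0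
  have hcl : IsClosed ((Subtype.val : grp → Set ℝ → ZMod 2) '' K) := (hK.image continuous_subtype_val).isClosed
  have hz : z ∈ (Subtype.val : grp → Set ℝ → ZMod 2) '' K := by
    rw [← hcl.closure_eq, mem_closure_iff]
    intro V hV hzV
    obtain ⟨F, u, hu, hF⟩ := isOpen_pi_iff.1 hV _ hzV
    refine ⟨(y (F.filter (· ∈ S))).1.1, hF ?_, ⟨_, (y _).2, rfl⟩⟩
    intro i hi
    simp only [Finset.mem_coe] at hi
    have := (hu i hi).2
    by_cases hiS : i ∈ S
    · rw [hy2 _ i (Finset.mem_filter.2 ⟨hi, hiS⟩)]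
      simpa [z, hiS] using this
    · have h0 : (y (F.filter (· ∈ S))).1.1 i = 0 := by
        by_contra hne
        exact hiS (hS2 _ (fun j hj => (Finset.mem_filter.1 hj).2) hne)
      rw [h0]
      simpa [z, hiS] using this
  obtain ⟨w, -, hw⟩ := hz
  obtain ⟨d, hd⟩ := w.2
  by_cases hd0 : d = 0
  · subst hd0
    have : (range fun r : ℝ => ({r} : Set ℝ)).Countable := by
      refine (hd.union hc).mono fun i hi => ?_
      by_cases h : x.1.1 i = c
      · left
        simp only [mem_setOf_eq, hw, z, if_pos (hS0 hi), h]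
        exact hc0
      · exact Or.inr h
    rw [← image_univ] at this
    exact not_countable_univ
      (countable_of_injective_of_countable_image singleton_injective.injOn this)
  · refine not_countable_compl hS1 (hd.mono fun i hi => ?_)
    simp only [mem_setOf_eq, hw, z, if_neg hi]
    exact fun h => hd0 h.symm

end Pool.Agent.H83.Fan
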