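import Mathlib

set_option autoImplicit false

namespace Pool.Agent.H83.FilterTop

open Set Filter Topology

/-- a space refined by declaring the members of a filter open -/
def Ref (Z : Type) (_ : Filter Z) : Type := Z

variable {Z : Type} [TopologicalSpace Z] {F : Filter Z}

/-- the identity -/
def toZ (x : Ref Z F) : Z := x

theorem toZ_inj : Function.Injective (toZ : Ref Z F → Z) := fun _ _ h => h

instance : TopologicalSpace (Ref Z F) where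
  IsOpen W := ∀ x ∈ W, ∃ U : Set Z, IsOpen U ∧ toZ x ∈ U ∧ ∃ S ∈ F, toZ ⁻¹' (U ∩ S) ⊆ W
  isOpen_univ := fun _ _ => ⟨univ, isOpen_univ, trivial, univ, univ_mem, subset_univ _⟩
  isOpen_inter := by
    intro V W hV hW x hx
    obtain ⟨U, hU, hxU, S, hS, h⟩ := hV x hx.1
    obtain ⟨U', hU', hxU', S', hS', h'⟩ := hW x hx.2
    exact ⟨U ∩ U', hU.inter hU', ⟨hxU, hxU'⟩, S ∩ S', inter_mem hS hS',
      fun y hy => ⟨h ⟨hy.1.1, hy.2.1⟩, h' ⟨hy.1.2, hy.2.2⟩⟩⟩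
  isOpen_sUnion := by
    rintro T hT x ⟨W, hW, hx⟩
    obtain ⟨U, hU, hxU, S, hS, h⟩ := hT W hW x hx
    exact ⟨U, hU, hxU, S, hS, h.trans (subset_sUnion_of_mem hW)⟩

theorem isOpen_iff {W : Set (Ref Z F)} : IsOpen W ↔
    ∀ x ∈ W, ∃ U : Set Z, IsOpen U ∧ toZ x ∈ U ∧ ∃ S ∈ F, toZ ⁻¹' (U ∩ S) ⊆ W := Iff.rfl

theorem continuous_toZ : Continuous (toZ : Ref Z F → Z) :=
  ⟨fun U hU _ hx => ⟨U, hU, hx, univ, univ_mem, fun _ hy => hy.1⟩⟩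

theorem isOpen_of_mem {S : Set Z} (hS : S ∈ F) : IsOpen (toZ ⁻¹' S : Set (Ref Z F)) :=
  fun _ _ => ⟨univ, isOpen_univ, trivial, S, hS, fun _ hy => hy.2⟩

instance [T25Space Z] : T25Space (Ref Z F) :=
  T25Space.of_injective_continuous toZ_inj continuous_toZ

/-- positivity of open sets -/
def Pos (F : Filter Z) : Prop := ∀ U : Set Z, IsOpen U → U.Nonempty → ∀ S ∈ F, (U ∩ S).Nonempty

theorem subset_closure_of (h : Pos F) {U S : Set Z} (hU : IsOpen U) (hS : S ∈ F)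
    {W : Set (Ref Z F)} (hW : toZ ⁻¹' (U ∩ S) ⊆ W) : toZ ⁻¹' U ⊆ closure W := by
  intro x hx
  rw [mem_closure_iff]
  intro O hO hxO
  obtain ⟨U', hU', hxU', S', hS', h'⟩ := hO x hxO
  obtain ⟨y, hy⟩ := h _ (hU.inter hU') ⟨_, hx, hxU'⟩ _ (inter_mem hS hS')
  exact ⟨y, h' ⟨hy.1.2, hy.2.2⟩, hW ⟨hy.1.1, hy.2.1⟩⟩

theorem exists_finite_dense [CompactSpace Z] (h : Pos F) (𝒰 : Set (Set (Ref Z F)))
    (ho : ∀ W ∈ 𝒰, IsOpen W) (hc : ⋃₀ 𝒰 = univ) :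
    ∃ 𝒱 ⊆ 𝒰, 𝒱.Finite ∧ Dense (⋃₀ 𝒱) := by
  have : ∀ x : Z, ∃ W ∈ 𝒰, ∃ U ∈ 𝓝 x, toZ ⁻¹' U ⊆ closure W := fun x => by
    obtain ⟨W, hW, hx⟩ := hc.symm ▸ mem_univ (show Ref Z F from x)
    obtain ⟨U, hU, hxU, S, hS, h'⟩ := ho W hW x hx
    exact ⟨W, hW, U, hU.mem_nhds hxU, subset_closure_of h hU hS h'⟩
  choose W hW U hU hUW using this
  obtain ⟨t, ht⟩ := CompactSpace.elim_nhds_subcover U hU
  refine ⟨W '' t, by rintro _ ⟨x, -, rfl⟩; exact hW x, t.finite_toSet.image W, fun y => ?_⟩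
  obtain ⟨x, hx, hy⟩ := mem_iUnion₂.1 (show toZ y ∈ ⋃ x ∈ t, U x from ht ▸ mem_univ _)
  exact closure_mono (subset_sUnion_of_mem (mem_image_of_mem W hx)) (hUW x hy)

theorem meets_of_dense (h : Pos F) [Nonempty Z] {Y : Set (Ref Z F)} (hY : Dense Y) {S : Set Z}
    (hS : S ∈ F) : ∃ y ∈ Y, toZ y ∈ S := by
  obtain ⟨z, hz⟩ := h univ isOpen_univ univ_nonempty S hS
  obtain ⟨y, h1, h2⟩ := hY.inter_open_nonempty _ (isOpen_of_mem hS) ⟨z, hz.2⟩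
  exact ⟨y, h2, h1⟩

end Pool.Agent.H83.FilterTop
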