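import Mathlib

set_option autoImplicit false

namespace Pool.Agent.H83.FunTop

open Set Filter Topology TopologicalSpace

variable (Y Z : Type) [TopologicalSpace Y] [TopologicalSpace Z]

/-- `O_Z(Y)`. -/
def OZ : Set (Set Y) := {W | ∃ (f : C(Y, Z)) (U : Set Z), IsOpen U ∧ W = f ⁻¹' U}

/-- The topology on `C(Y,Z)` with subbasis the sets `(K,U)` for `K` in a family `𝒦`. -/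
@[reducible] def setOpen (𝒦 : Set (Set Y)) : TopologicalSpace C(Y, Z) :=
  generateFrom {s | ∃ K ∈ 𝒦, ∃ U : Set Z, IsOpen U ∧ s = {f : C(Y, Z) | f '' K ⊆ U}}

/-- The topology on `C(Y,Z)` with subbasis the sets `(H,U)` for `H` in a family `𝒯`. -/
@[reducible] def famOpen (𝒯 : Set (Set (Set Y))) : TopologicalSpace C(Y, Z) :=
  generateFrom {s | ∃ H ∈ 𝒯, ∃ U : Set Z, IsOpen U ∧ s = {f : C(Y, Z) | f ⁻¹' U ∈ H}}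

/-- Scott open families of open sets. -/
def scott : Set (Set (Set Y)) :=
  {H | (∀ W ∈ H, IsOpen W) ∧ (∀ W ∈ H, ∀ V, IsOpen V → W ⊆ V → V ∈ H) ∧
    ∀ 𝒰 : Set (Set Y), (∀ W ∈ 𝒰, IsOpen W) → ⋃₀ 𝒰 ∈ H → ∃ ℱ ⊆ 𝒰, ℱ.Finite ∧ ⋃₀ ℱ ∈ H}

/-- Strong Scott open families of open sets. -/
def strongScott : Set (Set (Set Y)) :=
  {H | (∀ W ∈ H, IsOpen W) ∧ (∀ W ∈ H, ∀ V, IsOpen V → W ⊆ V → V ∈ H) ∧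
    ∀ 𝒰 : Set (Set Y), (∀ W ∈ 𝒰, IsOpen W) → ⋃₀ 𝒰 = univ → ∃ ℱ ⊆ 𝒰, ℱ.Finite ∧ ⋃₀ ℱ ∈ H}

/-- The open families of `τ_1^Z`. -/
def zScott : Set (Set (Set Y)) :=
  {H | (∀ W ∈ H, IsOpen W) ∧ (∀ W ∈ H ∩ OZ Y Z, ∀ V, IsOpen V → W ⊆ V → V ∈ H) ∧
    ∀ 𝒰 ⊆ OZ Y Z, ⋃₀ 𝒰 ∈ H → ∃ ℱ ⊆ 𝒰, ℱ.Finite ∧ ⋃₀ ℱ ∈ H}

/-- The open families of `τ_{1,s}^Z`. -/
def zStrongScott : Set (Set (Set Y)) :=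
  {H | (∀ W ∈ H, IsOpen W) ∧ (∀ W ∈ H ∩ OZ Y Z, ∀ V, IsOpen V → W ⊆ V → V ∈ H) ∧
    ∀ 𝒰 ⊆ OZ Y Z, ⋃₀ 𝒰 = univ → ∃ ℱ ⊆ 𝒰, ℱ.Finite ∧ ⋃₀ ℱ ∈ H}

end Pool.Agent.H83.FunTop
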