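import Pool.Agent.H83.Gc2

/-! Predicates enumeration reducible to a set. -/

set_option autoImplicit false

namespace Pool.Agent.H83.Ga

open Pool.Agent.H37 Pool.Agent.H83.Gc Nat.Partrec Nat.Partrec.Code Encodable

variable {α β : Type} [Primcodable α] [Primcodable β] {A : Set ℕ}

def ER (A : Set ℕ) (p : α → Prop) : Prop :=
  ∃ W : α × List ℕ → Prop, REPred W ∧ ∀ a, p a ↔ ∃ l, W (a, l) ∧ ∀ i ∈ l, i ∈ A

theorem ER.of_iff {p q : α → Prop} (h : ER A p) (H : ∀ a, q a ↔ p a) : ER A q := by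
  obtain ⟨W, hW, h⟩ := h
  exact ⟨W, hW, fun a => (H a).trans (h a)⟩

theorem ER.norm {p : α → Prop} (h : ER A p) : ∃ W : α × List ℕ → Prop, REPred W ∧
    (∀ a l l', l ⊆ l' → W (a, l) → W (a, l')) ∧ ∀ a, p a ↔ ∃ l, W (a, l) ∧ ∀ i ∈ l, i ∈ A := by
  obtain ⟨W, hW, h⟩ := h
  refine ⟨fun q => ∃ m, W (q.1, m) ∧ (m.all fun i => q.2.contains i) = true,
    re_exists (p := fun (q : α × List ℕ) m => W (q.1, m) ∧ (m.all fun i => q.2.contains i) = true)
      (re_and (REPred.comp' hW (by fun_prop)) (re_of_bool _ (by fun_prop) fun _ => Iff.rfl)),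
    fun a l l' hl ⟨m, h1, h2⟩ => ⟨m, h1, ?_⟩, fun a => (h a).trans
      ⟨fun ⟨l, h1, h2⟩ => ⟨l, ⟨l, h1, by simp⟩, h2⟩, fun ⟨l, ⟨m, h1, h3⟩, h2⟩ => ⟨m, h1, ?_⟩⟩⟩
  · simp only [List.all_eq_true, List.contains_iff_mem] at h2 ⊢
    exact fun i hi => hl (h2 i hi)
  · simp only [List.all_eq_true, List.contains_iff_mem] at h3
    exact fun i hi => h2 i (h3 i hi)

theorem er_re {p : α → Prop} (h : REPred p) : ER A p :=
  ⟨fun q => p q.1, REPred.comp' h (by fun_prop), fun _ =>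
    ⟨fun h => ⟨[], h, by simp⟩, fun ⟨_, h, _⟩ => h⟩⟩

theorem er_bool {f : α → Bool} (h : CI ∅ f) : ER A fun a => f a = true :=
  er_re (re_of_bool f h fun _ => Iff.rfl)

theorem ER.comp {p : β → Prop} (h : ER A p) {g : α → β} (hg : CI ∅ g) : ER A fun a => p (g a) := by
  obtain ⟨W, hW, h⟩ := h
  exact ⟨fun q => W (g q.1, q.2), REPred.comp' hW (by fun_prop), fun a => h (g a)⟩

theorem er_mem {g : α → ℕ} (hg : CI ∅ g) : ER A fun a => g a ∈ A :=
  ⟨fun q => q.2.contains (g q.1) = true, re_of_bool _ (by fun_prop) fun _ => Iff.rfl, fun a =>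
    ⟨fun h => ⟨[g a], by simp, by simpa using h⟩, fun ⟨l, h, k⟩ => k _ (by simpa using h)⟩⟩

theorem ER.and {p q : α → Prop} (hp : ER A p) (hq : ER A q) : ER A fun a => p a ∧ q a := by
  obtain ⟨W, hW, m, h⟩ := hp.norm
  obtain ⟨W', hW', m', h'⟩ := hq.norm
  refine ⟨fun q => W q ∧ W' q, re_and hW hW', fun a => ⟨fun ⟨a1, a2⟩ => ?_,
    fun ⟨l, k, k'⟩ => ⟨(h a).2 ⟨l, k.1, k'⟩, (h' a).2 ⟨l, k.2, k'⟩⟩⟩⟩
  obtain ⟨l, k, k'⟩ := (h a).1 a1
  obtain ⟨l', j, j'⟩ := (h' a).1 a2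
  exact ⟨l ++ l', ⟨m _ _ _ (List.subset_append_left _ _) k, m' _ _ _ (List.subset_append_right _ _) j⟩,
    fun i hi => (List.mem_append.1 hi).elim (k' i) (j' i)⟩

theorem ER.or {p q : α → Prop} (hp : ER A p) (hq : ER A q) : ER A fun a => p a ∨ q a := by
  obtain ⟨W, hW, h⟩ := hp
  obtain ⟨W', hW', h'⟩ := hq
  refine ⟨fun q => W q ∨ W' q, re_or hW hW', fun a => ?_⟩
  simp only [h, h', or_and_right, exists_or]

theorem ER.ex {p : α × β → Prop} (hp : ER A p) : ER A fun a => ∃ b, p (a, b) := by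
  obtain ⟨W, hW, h⟩ := hp
  refine ⟨fun q => ∃ b, W ((q.1, b), q.2), re_exists (p := fun (q : α × List ℕ) b => W ((q.1, b), q.2))
    (REPred.comp' hW (by fun_prop)), fun a => ?_⟩
  simp only [h]
  exact ⟨fun ⟨b, l, k, k'⟩ => ⟨l, ⟨b, k⟩, k'⟩, fun ⟨l, ⟨b, k⟩, k'⟩ => ⟨b, l, k, k'⟩⟩

theorem ER.all {p : α × β → Prop} (hp : ER A p) {L : α → List β} (hL : CI ∅ L) :
    ER A fun a => ∀ b ∈ L a, p (a, b) := by
  obtain ⟨W, hW, m, h⟩ := hp.norm
  refine ⟨fun q => ∀ b ∈ L q.1, W ((q.1, b), q.2),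
    re_forall_mem (p := fun (q : α × List ℕ) b => W ((q.1, b), q.2))
      (REPred.comp' hW (by fun_prop)) (by fun_prop), fun a =>
    ⟨fun H => ?_, fun ⟨l, k, k'⟩ b hb => (h _).2 ⟨l, k b hb, k'⟩⟩⟩
  dsimp only at H ⊢
  generalize L a = K at H ⊢
  induction K with
  | nil => exact ⟨[], by simp, by simp⟩
  | cons b K ih =>
    obtain ⟨l, k, k'⟩ := ih fun c hc => H c (List.mem_cons_of_mem _ hc)
    obtain ⟨l', j, j'⟩ := (h _).1 (H b List.mem_cons_self)
    refine ⟨l ++ l', fun c hc => ?_, fun i hi => (List.mem_append.1 hi).elim (k' i) (j' i)⟩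
    rcases List.mem_cons.1 hc with rfl | hc
    exacts [m _ _ _ (List.subset_append_right _ _) j, m _ _ _ (List.subset_append_left _ _) (k c hc)]

theorem ER.trans {B : Set ℕ} {p : α → Prop} (hB : ER A (· ∈ B)) (hp : ER B p) : ER A p := by
  obtain ⟨W, hW, h⟩ := hp
  exact (ER.ex ((er_re hW).and ((hB.comp (g := fun q : (α × List ℕ) × ℕ => q.2)
    (by fun_prop)).all (L := fun q => q.2) (by fun_prop)))).of_iff h

theorem er_iff {p : ℕ → Prop} : ER A p ↔ ∃ W : ℕ × ℕ → Prop, REPred W ∧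
    ∀ y, p y ↔ ∃ u : ℕ, W (y, u) ∧ ∀ i, u.testBit i = true → i ∈ A := by
  constructor
  · rintro ⟨W, hW, h⟩
    refine ⟨fun q => ∃ l, W (q.1, l) ∧ (l.all fun i => tb q.2 i) = true,
      re_exists (p := fun (q : ℕ × ℕ) l => W (q.1, l) ∧ (l.all fun i => tb q.2 i) = true)
        (re_and (REPred.comp' hW (by fun_prop))
          (re_of_bool _ (by unfold tb; fun_prop) fun _ => Iff.rfl)), fun y => (h y).trans ?_⟩
    simp only [List.all_eq_true, tb_eq]
    constructor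
    · rintro ⟨l, k, k'⟩
      obtain ⟨u, h1, h2⟩ := exists_bits A l
      exact ⟨u, ⟨l, k, fun i hi => h2 i hi (k' i hi)⟩, h1⟩
    · rintro ⟨u, ⟨l, k, k'⟩, h1⟩
      exact ⟨l, k, fun i hi => h1 i (k' i hi)⟩
  · rintro ⟨W, hW, h⟩
    refine (ER.ex ((er_re hW).and ((er_mem (g := fun q : (ℕ × ℕ) × ℕ => q.2) (by fun_prop)).all
      (L := fun q => (List.range q.2).filter fun i => tb q.2 i)
      (by unfold tb; fun_prop)))).of_iff fun y => (h y).trans ?_
    simp only [List.mem_filter, List.mem_range, tb_eq]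
    refine exists_congr fun u => and_congr_right fun _ => ⟨fun k i hi => k i hi.2,
      fun k i hi => k i ⟨?_, hi⟩⟩
    exact Nat.lt_two_pow_self.trans_le (Nat.ge_two_pow_of_testBit hi)

/-- The universal predicate. -/
def T (A : Set ℕ) (e : ℕ) : Prop :=
  ∃ l : List ℕ, (eval (Denumerable.ofNat Code e) (encode l)).Dom ∧ ∀ i ∈ l, i ∈ A

theorem er_T : ER A (T A) :=
  ⟨fun q => (eval (Denumerable.ofNat Code q.1) (encode q.2)).Dom,
    (eval_part.comp ((Computable.ofNat Code).comp Computable.fst)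
      (Computable.encode.comp Computable.snd)).dom_re, fun _ => Iff.rfl⟩

theorem ER.smn {p : α → Prop} (h : ER A p) : ∃ g : α → ℕ, CI ∅ g ∧ ∀ a, T A (g a) ↔ p a := by
  obtain ⟨W, hW, h⟩ := h
  obtain ⟨c, hc⟩ := exists_code.1 hW
  refine ⟨fun a => encode (curry c (encode a)), by fun_prop, fun a => ?_⟩
  rw [h, T]
  refine exists_congr fun l => and_congr_left fun _ => ?_
  rw [Denumerable.ofNat_encode, eval_curry, hc]
  simp [Part.assert]

end Pool.Agent.H83.Ga
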