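import Pool.Agent.H83.Ga1

/-! Effectively regular sets are enumeration equivalent to complements of graphs. -/

set_option autoImplicit false

namespace Pool.Agent.H83.Ga

open Pool.Agent.H37 Pool.Agent.H83.Gc

variable {A : Set ℕ}

theorem fin (OK : (ℕ → ℕ) → ℕ → Prop) (s : ℕ → ℕ)
    (cg : ∀ s' i, (∀ k ≤ i, s' k = s k) → OK s' i) (bit : ∀ a, a ∈ A ↔ s a % 2 = 0)
    (hs : ∀ s' j, (∀ i ≤ j, OK s' i) → (s' j / 2 % 2 = 0 ∨ s j / 2 % 2 = 1) → ∀ i ≤ j, s' i = s i)
    (hE : ER A fun q : List ℕ × ℕ => ¬ OK (fun k => q.1.getD k 0) q.2) :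
    ∃ f : ℕ → ℕ, (∀ a, a ∈ A ↔ f a ≠ 0) ∧ ER A fun t : ℕ => f t.unpair.1 ≠ t.unpair.2 := by
  classical
  obtain ⟨K, K1, K2⟩ : ∃ K : ℕ, (∀ j, K ≠ 0 ∧ K ≤ j + 1 → s j / 2 % 2 = 1) ∧
      ∀ a, ∃ j, a ≤ j ∧ (s j / 2 % 2 = 0 ∨ K ≠ 0 ∧ K ≤ j + 1) := by
    by_cases h : ∀ a, ∃ j, a ≤ j ∧ s j / 2 % 2 = 0
    · exact ⟨0, fun j h => (h.1 rfl).elim, fun a => (h a).imp fun j h => ⟨h.1, Or.inl h.2⟩⟩
    · push Not at h
      obtain ⟨a, ha⟩ := h
      refine ⟨a + 1, fun j h => ?_, fun b => ⟨a + b, by omega, Or.inr (by omega)⟩⟩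
      have := ha j (by omega)
      omega
  let σ : ℕ → List ℕ := fun a => (List.range (Nat.find (K2 a) + 1)).map s
  have key : ∀ a l, (a ∈ A ∧ σ a = l) ↔ syn K a l = true ∧
      ∀ i < l.length, OK (fun k => l.getD k 0) i := by
    intro a l
    simp only [syn, val, Bool.or_eq_true, Bool.and_eq_true, beq_iff_eq, List.all_eq_true,
      List.mem_range, decide_eq_true_eq, Bool.not_eq_true', bne_iff_ne, ne_eq,
      ← Bool.not_eq_true]
    constructor
    · rintro ⟨ha, rfl⟩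
      have len : (σ a).length = Nat.find (K2 a) + 1 := by simp [σ]
      have get : ∀ i < Nat.find (K2 a) + 1, (σ a).getD i 0 = s i := fun i hi => by
        simp [σ, List.getD_eq_getElem?_getD, hi]
      have sp := Nat.find_spec (K2 a)
      rw [len, Nat.add_sub_cancel, get _ (Nat.lt_succ_self _), get a (by omega)]
      refine ⟨⟨by omega, sp.2, fun i hi => ?_, (bit a).1 ha⟩,
        fun i hi => cg _ i fun k hk => get k (by omega)⟩
      rw [get i (by omega)]
      by_cases c : i < a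
      exacts [Or.inl c, Or.inr fun k => Nat.find_min (K2 a) hi ⟨not_lt.1 c, k⟩]
    · rintro ⟨⟨h1, h2, h3, h4⟩, h5⟩
      have ag := hs (fun k => l.getD k 0) (l.length - 1) (fun i hi => h5 i (by omega))
        (h2.imp id (K1 _))
      have fe : Nat.find (K2 a) = l.length - 1 := by
        rw [Nat.find_eq_iff]
        refine ⟨⟨by omega, ag _ le_rfl ▸ h2⟩, fun i hi k => ?_⟩
        rcases h3 i hi with c | c
        · omega
        · exact c (by rw [ag i hi.le]; exact k.2)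
      refine ⟨(bit a).2 (ag a (by omega) ▸ h4), ?_⟩
      refine List.ext_getElem (by simp [σ, fe]; omega) fun i _ hi => ?_
      have := ag i (by omega)
      simp only [List.getD_eq_getElem?_getD, List.getElem?_eq_getElem hi, Option.getD_some] at this
      simp [σ, this]
  refine ⟨fun a => if a ∈ A then Encodable.encode (σ a) + 1 else 0, fun a => by simp, ?_⟩
  refine (((er_bool (f := fun t : ℕ => t.unpair.2 == 0) (by fun_prop)).and
    (er_mem (g := fun t : ℕ => t.unpair.1) (by fun_prop))).or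
    ((er_bool (f := fun t : ℕ => t.unpair.2 != 0) (by fun_prop)).and
      ((er_bool (f := fun t : ℕ => !syn K t.unpair.1 (Denumerable.ofNat (List ℕ) (t.unpair.2 - 1)))
        (by unfold syn val; fun_prop)).or
      (ER.ex ((er_bool (f := fun q : ℕ × ℕ =>
        decide (q.2 < (Denumerable.ofNat (List ℕ) (q.1.unpair.2 - 1)).length)) (by fun_prop)).and
        (hE.comp (g := fun q : ℕ × ℕ => (Denumerable.ofNat (List ℕ) (q.1.unpair.2 - 1), q.2))
          (by fun_prop))))))).of_iff fun t => ?_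
  by_cases ht : t.unpair.2 = 0
  · simp [ht]
  have e : (if t.unpair.1 ∈ A then Encodable.encode (σ t.unpair.1) + 1 else 0) = t.unpair.2 ↔
      t.unpair.1 ∈ A ∧ σ t.unpair.1 = Denumerable.ofNat (List ℕ) (t.unpair.2 - 1) := by
    split_ifs with h
    · simp only [h, true_and]
      refine ⟨fun k => by rw [← k]; simp, fun k => by rw [k]; simp; omega⟩
    · simp [h, Ne.symm ht]
  simp only [ne_eq, e, key, beq_iff_eq, ht, false_and, false_or, bne_iff_ne, not_false_eq_true,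
    true_and, Bool.not_eq_true', decide_eq_true_eq, ← Bool.not_eq_true, not_and_or, not_forall,
    exists_prop]

theorem chain (U V : ℕ × ℕ → Prop) (hU : ER A U) (hV : ER A V)
    (h1 : ∀ e c, U (e, c) → V (e, c) → False) (h2 : ∀ e c, T A e ∨ V (e, c))
    (h3 : ∀ e, T A e → ∃ c, U (e, c)) :
    ∃ cw cv : ℕ → ℕ → ℕ, CI ∅ (fun q : ℕ × ℕ => cw q.1 q.2) ∧ CI ∅ (fun q : ℕ × ℕ => cv q.1 q.2) ∧
      (∀ e, ¬ T A (cw e 0)) ∧ (∀ e l, T A (cw e l) → ¬ T A (cv e l)) ∧
      (∀ e l, ¬ T A (cv e l) → T A (cw e (l + 1))) ∧ (∀ e l, ¬ T A (cv e l) → T A e) ∧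
      ∀ e, T A e → ∃ l, T A (cw e l) := by
  obtain ⟨nw, c1, p1⟩ := (ER.ex ((hU.comp (g := fun q : (ℕ × ℕ) × ℕ => (q.1.1, q.2))
    (by fun_prop)).and ((hV.comp (g := fun q : ((ℕ × ℕ) × ℕ) × ℕ => (q.1.1.2, q.2))
      (by fun_prop)).all (L := fun q => List.range (q.2 + 1)) (by fun_prop)))).smn
  obtain ⟨g, c2, p2⟩ := ((er_T.comp (g := fun q : ℕ × ℕ × ℕ => q.1) (by fun_prop)).and
    (hV.comp (g := fun q : ℕ × ℕ × ℕ => q.2) (by fun_prop))).smn
  obtain ⟨cb, c3, p3⟩ := (er_bool (A := A) (f := fun b : Bool => b) (by fun_prop)).smn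
  simp only [List.mem_range] at p1
  have n1 : ∀ a b, T A a → ¬ T A b → T A (nw (a, b)) := fun a b ha hb => by
    obtain ⟨c, hc⟩ := h3 a ha
    exact (p1 _).2 ⟨c, hc, fun j _ => (h2 b j).resolve_left hb⟩
  have n2 : ∀ a b, T A (nw (a, b)) → ¬ T A (nw (b, a)) := fun a b k k' => by
    obtain ⟨c, u, v⟩ := (p1 _).1 k
    obtain ⟨c', u', v'⟩ := (p1 _).1 k'
    rcases le_total c c' with h | h
    exacts [h1 a c u (v' c (by omega)), h1 b c' u' (v c' (by omega))]
  let cv : ℕ → ℕ → ℕ := fun e l => Nat.rec (cb true) (fun l x => nw (g (x, e, l), e)) l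
  have cvc : CI ∅ fun q : ℕ × ℕ => cv q.1 q.2 := CI.of_rec (F := cv) (g := fun _ => cb true)
    (h := fun e l x => nw (g (x, e, l), e)) (by fun_prop) (by fun_prop) (fun _ => rfl)
    fun _ _ => rfl
  have pc : ∀ e l, ¬ T A (cv e l) → T A e := fun e l => by
    induction l with
    | zero => exact fun h => (h ((p3 true).2 rfl)).elim
    | succ l ih =>
      intro h
      by_contra he
      exact h (n1 _ _ ((p2 _).2 ⟨by_contra fun k => he (ih k), (h2 e l).resolve_left he⟩) he)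
  refine ⟨fun e l => if l = 0 then cb false else nw (e, g (cv e (l - 1), e, l - 1)), cv, ?_, cvc,
    fun e => by simp [p3], fun e l => ?_, fun e l h => ?_, pc, fun e he => ?_⟩
  · have : CI ∅ fun q : ℕ × ℕ => cv q.1 (q.2 - 1) :=
      cvc.comp (g := fun q : ℕ × ℕ => (q.1, q.2 - 1)) (by fun_prop)
    fun_prop
  · cases l with
    | zero => simp [p3]
    | succ l => exact n2 _ _
  · exact n1 _ _ (pc e l h) fun k => h ((p2 _).1 k).1
  · obtain ⟨c, hc⟩ := h3 e he
    exact ⟨c + 1, n1 _ _ he fun k => h1 e c hc ((p2 _).1 k).2⟩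

theorem of_reg (U V : ℕ × ℕ → Prop) (hU : ER A U) (hV : ER A V)
    (h1 : ∀ e c, U (e, c) → V (e, c) → False) (h2 : ∀ e c, T A e ∨ V (e, c))
    (h3 : ∀ e, T A e → ∃ c, U (e, c)) :
    ∃ f : ℕ → ℕ, (∀ a, a ∈ A ↔ f a ≠ 0) ∧ ER A fun t : ℕ => f t.unpair.1 ≠ t.unpair.2 := by
  classical
  obtain ⟨cw, cv, cwc, cvc, w0, pa, pb, pc, pd⟩ := chain U V hU hV h1 h2 h3
  have d1 : ∀ {α : Type} [Primcodable α] {a b : α → ℕ}, CI ∅ a → CI ∅ b →
      CI ∅ fun x => cw (a x) (b x) := fun ha hb => cwc.comp (ha.mk hb)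
  have d2 : ∀ {α : Type} [Primcodable α] {a b : α → ℕ}, CI ∅ a → CI ∅ b →
      CI ∅ fun x => cv (a x) (b x) := fun ha hb => cvc.comp (ha.mk hb)
  obtain ⟨an, c2, p2⟩ := ((er_T (A := A).comp (g := fun q : ℕ × ℕ => q.1) (by fun_prop)).and
    (er_T.comp (g := fun q : ℕ × ℕ => q.2) (by fun_prop))).smn
  obtain ⟨am, c4, p4⟩ := ((er_T (A := A).comp (g := fun q : ℕ × ℕ => q.1) (by fun_prop)).and
    (er_mem (g := fun q : ℕ × ℕ => q.2) (by fun_prop))).smn
  obtain ⟨cb, -, p3⟩ := (er_bool (A := A) (f := fun b : Bool => b) (by fun_prop)).smn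
  let c : ℕ → ℕ → Prop := fun O i => if i % 2 = 0 then T A (cw O (i / 2)) else ¬ T A (cv O (i / 2))
  have c0 : ∀ O l, c O (2 * l) ↔ T A (cw O l) := fun O l => by simp [c]
  have c1 : ∀ O l, c O (2 * l + 1) ↔ ¬ T A (cv O l) := fun O l => by
    simp [c, show (2 * l + 1) / 2 = l by omega]
  have mono : ∀ O, Monotone (c O) := fun O => monotone_nat_of_le_succ fun i => by
    obtain ⟨l, rfl | rfl⟩ := Nat.even_or_odd' i
    · exact fun h => (c1 O l).2 (pa O l ((c0 O l).1 h))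
    · exact fun h => (c0 O (l + 1)).2 (pb O l ((c1 O l).1 h))
  have lt : ∀ O i j, ¬ c O i → c O j → i < j := fun O i j a b => not_le.1 fun h => a (mono O h b)
  let pre : ℕ → ℕ → ℕ → ℕ := fun s M k => if s % 2 = 1 then M else am (M, k)
  let nxt : ℕ → ℕ → ℕ := fun i O => if i % 2 = 0 then cb true else an (cv O (i / 2), cw O (i / 2 + 1))
  let mar : (ℕ → ℕ) → ℕ → ℕ := fun s j =>
    Nat.rec (cb true) (fun j M => nxt (s j / 2) (pre (s j) M j)) j
  have ms : ∀ s j, mar s (j + 1) = nxt (s j / 2) (pre (s j) (mar s j) j) := fun _ _ => rfl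
  let In : ℕ → ℕ → Prop := fun i O => ¬ T A (cw O (i / 2)) ∧ ¬ T A (cv O ((i + 1) / 2))
  let OK : (ℕ → ℕ) → ℕ → Prop := fun s j =>
    (s j % 2 = 1 → j ∉ A) ∧ In (s j / 2) (pre (s j) (mar s j) j)
  have tr : ∀ i O, (In i O ∧ T A (nxt i O)) ↔ ¬ c O i ∧ c O (i + 1) := fun i O => by
    obtain ⟨l, rfl | rfl⟩ := Nat.even_or_odd' i
    · rw [c0, c1]
      simp [In, nxt, p3, show (2 * l + 1) / 2 = l by omega]
    · rw [c1, show 2 * l + 1 + 1 = 2 * (l + 1) by ring, c0]
      simp only [In, nxt, show (2 * l + 1) % 2 ≠ 0 by omega, if_false, p2, not_not,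
        show (2 * l + 1) / 2 = l by omega, show (2 * l + 1 + 1) / 2 = l + 1 by omega]
      exact ⟨fun h => h.2, fun h => ⟨⟨fun k => pa O l k h.1, pa O _ h.2⟩, h⟩⟩
  have mc : ∀ s s' : ℕ → ℕ, ∀ j, (∀ i < j, s' i = s i) → mar s' j = mar s j := by
    intro s s' j h
    induction j with
    | zero => rfl
    | succ j ih => rw [ms, ms, ih fun i hi => h i (by omega), h j j.lt_succ_self]
  have pl : ∀ s M k, T A (pre s M k) → T A M ∧ (s % 2 ≠ 1 → k ∈ A) := fun s M k h => by
    by_cases b : s % 2 = 1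
    · exact ⟨by simpa only [pre, b, if_true] using h, fun k => (k b).elim⟩
    · simp only [pre, b, if_false, p4] at h
      exact ⟨h.1, fun _ => h.2⟩
  have obit : ∀ s j, OK s j → (s j % 2 = 1 ↔ j ∉ A) := fun s j h =>
    ⟨h.1, fun k => by_contra fun hn => k ((pl _ _ _ (pc _ _ h.2.2)).2 hn)⟩
  have exl : ∀ O, ∃ i, T A O → ¬ c O i ∧ c O (i + 1) := fun O => by
    by_cases h : T A O
    swap
    · exact ⟨0, fun k => (h k).elim⟩
    obtain ⟨l, hl⟩ := pd O h
    have ex : ∃ i, c O i := ⟨_, (c0 O l).2 hl⟩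
    have z : Nat.find ex ≠ 0 := fun k => w0 O ((c0 O 0).1 (k ▸ Nat.find_spec ex :))
    obtain ⟨i, hi⟩ := Nat.exists_eq_succ_of_ne_zero z
    exact ⟨i, fun _ => ⟨Nat.find_min ex (by omega), (hi ▸ Nat.find_spec ex :)⟩⟩
  choose L hL using exl
  let b : ℕ → ℕ := fun j => if j ∈ A then 0 else 1
  let m : ℕ → ℕ := fun n => Nat.rec (cb true) (fun j x => nxt (L (pre (b j) x j)) (pre (b j) x j)) n
  let s : ℕ → ℕ := fun j => 2 * L (pre (b j) (m j) j) + b j
  have hb : ∀ j, b j < 2 := fun j => by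
    simp only [b]
    split_ifs <;> norm_num
  have s1 : ∀ j, s j / 2 = L (pre (b j) (m j) j) := fun j => by
    have := hb j
    simp only [s]
    omega
  have s2 : ∀ j x, pre (s j) x j = pre (b j) x j := fun j x => by
    have : s j % 2 = b j % 2 := by
      simp only [s]
      omega
    simp only [pre, this]
  have hm : ∀ j, mar s j = m j := fun j => by
    induction j with
    | zero => rfl
    | succ j ih => rw [ms, ih, s1, s2]
  have pp : ∀ j, T A (m j) → T A (pre (b j) (m j) j) := fun j h => by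
    by_cases k : j ∈ A <;> simp [pre, b, k, h, p4]
  have hp : ∀ j, T A (m j) := fun j => by
    induction j with
    | zero => exact (p3 true).2 rfl
    | succ j ih => exact ((tr _ _).2 (hL _ (pp j ih))).2
  have hI := fun j => hL _ (pp j (hp j))
  have ok : ∀ j, OK s j := fun j => by
    refine ⟨fun h k => ?_, by rw [hm, s1, s2]; exact ((tr _ _).2 (hI j)).1⟩
    simp only [s, b, k, if_true] at h
    omega
  have key : ∀ s' j, (∀ i < j, s' i = s i) → OK s' j →
      (T A (mar s' (j + 1)) ∨ s j / 2 % 2 = 1) → s' j = s j := by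
    intro s' j h1 h2 h3
    have e1 : s' j % 2 = s j % 2 := by
      have a := (obit _ _ h2).trans (obit _ _ (ok j)).symm
      omega
    have e2 : pre (s' j) (mar s' j) j = pre (b j) (m j) j := by
      rw [mc s s' j h1, hm, ← s2]
      simp only [pre, e1]
    have i1 := h2.2
    rw [ms, e2] at h3
    rw [e2] at i1
    have t := hI j
    rw [← s1] at t
    rcases h3 with k | k
    · have t' := (tr _ _).1 ⟨i1, k⟩
      have := lt _ _ _ t.1 t'.2
      have := lt _ _ _ t'.1 t.2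
      omega
    · have := lt _ _ _ (mt (c0 _ _).1 i1.1) t.2
      have := lt _ _ _ t.1 ((c1 _ _).2 i1.2)
      omega
  refine fin OK s (fun s' i h => ?_) (fun a => ?_) (fun s' j h1 h2 i => ?_) ?_
  · simp only [OK]
    rw [mc s s' i fun k hk => h k hk.le, h i le_rfl]
    exact ok i
  · have := obit _ _ (ok a)
    by_cases k : a ∈ A <;> simp only [k, not_true, not_false_eq_true, iff_true, iff_false,
      true_iff, false_iff] at this ⊢ <;> omega
  · induction i using Nat.strong_induction_on with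
    | _ i ih =>
      intro hi
      refine key s' i (fun k hk => ih k hk (by omega)) (h1 i hi) ?_
      rcases hi.lt_or_eq with k | rfl
      · exact Or.inl (pl _ _ _ (pc _ _ (h1 (i + 1) k).2.2)).1
      · refine h2.imp (fun k => ?_) id
        simp only [ms, nxt, k, if_true, p3]
  have mci : CI ∅ fun q : List ℕ × ℕ => mar (fun k => q.1.getD k 0) q.2 :=
    CI.of_rec (F := fun l : List ℕ => mar fun k => l.getD k 0) (g := fun _ => cb true)
      (h := fun l j M => nxt (l.getD j 0 / 2) (pre (l.getD j 0) M j)) (by fun_prop)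
      (by simp only [nxt, pre]; fun_prop) (fun _ => rfl) fun _ _ => rfl
  have pci : CI ∅ fun q : List ℕ × ℕ => pre (q.1.getD q.2 0) (mar (fun k => q.1.getD k 0) q.2) q.2 := by
    simp only [pre]
    exact CI.ite (by fun_prop) mci (c4.comp (mci.mk (by fun_prop)))
  refine (((er_bool (f := fun q : List ℕ × ℕ => q.1.getD q.2 0 % 2 == 1) (by fun_prop)).and
    (er_mem (g := fun q : List ℕ × ℕ => q.2) (by fun_prop))).or
    ((er_T.comp (d1 pci (b := fun q => q.1.getD q.2 0 / 2 / 2) (by fun_prop))).or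
      (er_T.comp (d2 pci (b := fun q => (q.1.getD q.2 0 / 2 + 1) / 2) (by fun_prop))))).of_iff
    fun q => ?_
  simp only [OK, In, beq_iff_eq]
  tauto

end Pool.Agent.H83.Ga
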