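import Mathlib

set_option autoImplicit false

namespace Pool.Agent.H83.Ga

/-- Enumeration reducibility; `u` is the canonical index of the set of its binary ones. -/
def ELe (A B : Set ℕ) : Prop :=
  ∃ Ψ : ℕ × ℕ → Prop, REPred Ψ ∧ ∀ n, n ∈ A ↔ ∃ u : ℕ, Ψ (n, u) ∧ ∀ i, u.testBit i = true → i ∈ B

def EEq (A B : Set ℕ) : Prop := ELe A B ∧ ELe B A

def join (A B : Set ℕ) : Set ℕ := {k | ∃ n, (k = 2 * n ∧ n ∈ A) ∨ (k = 2 * n + 1 ∧ n ∈ B)}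

/-- The degree of `A` contains a total set. -/
def TotalDeg (A : Set ℕ) : Prop := ∃ C, EEq C A ∧ ELe Cᶜ C

def AlmostTotal (A : Set ℕ) : Prop := ∀ B, ELe B A ∨ TotalDeg (join A B)

def GraphCototal (A : Set ℕ) : Prop := ∃ f : ℕ → ℕ, EEq {k | ∃ n, k = Nat.pair n (f n)}ᶜ A

end Pool.Agent.H83.Ga
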