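import Pool.Agent.H83.Ga2
import Pool.Agent.H83.GaDefs

/-! Almost total sets are effectively regular. -/

set_option autoImplicit false

namespace Pool.Agent.H83.Ga

open Pool.Agent.H37 Pool.Agent.H83.Gc Nat.Partrec Nat.Partrec.Code Encodable Filter Set

theorem ele_iff {A B : Set ℕ} : ELe A B ↔ ER B (· ∈ A) := er_iff.symm

theorem mem_join {A B : Set ℕ} {k : ℕ} :
    k ∈ join A B ↔ (k % 2 = 0 ∧ k / 2 ∈ A) ∨ (k % 2 = 1 ∧ k / 2 ∈ B) := by
  constructor
  · rintro ⟨n, ⟨rfl, h⟩ | ⟨rfl, h⟩⟩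
    · exact Or.inl ⟨by omega, by rwa [show 2 * n / 2 = n by omega]⟩
    · exact Or.inr ⟨by omega, by rwa [show (2 * n + 1) / 2 = n by omega]⟩
  · rintro (⟨a, h⟩ | ⟨a, h⟩)
    exacts [⟨k / 2, Or.inl ⟨by omega, h⟩⟩, ⟨k / 2, Or.inr ⟨by omega, h⟩⟩]

def R (c : Code) (q : ℕ × List ℕ) : Prop := (eval c (encode q)).Dom

theorem re_R (c : Code) : REPred (R c) :=
  (eval_part.comp (Computable.const c) Computable.encode).dom_re

def Ap (c : Code) (B : Set ℕ) : Set ℕ := {n | ∃ l, R c (n, l) ∧ ∀ i ∈ l, i ∈ B}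

theorem ER.code {B C : Set ℕ} (h : ER B (· ∈ C)) : ∃ c, Ap c B = C := by
  obtain ⟨W, hW, h⟩ := h
  obtain ⟨c, hc⟩ := exists_code.1 hW
  refine ⟨c, Set.ext fun n => Iff.symm ((h n).trans
    (exists_congr fun l => and_congr_left fun _ => ?_))⟩
  rw [R, hc]
  simp [Part.assert]

theorem Ap_mono (c : Code) {B B' : Set ℕ} (h : B ⊆ B') : Ap c B ⊆ Ap c B' :=
  fun _ ⟨l, a, b⟩ => ⟨l, a, fun i hi => h (b i hi)⟩

def BX (X : ℕ → Bool) : Set ℕ := {n | X (n / 2) = (n % 2 == 1)}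

def Bt (t : List ℕ) : Set ℕ :=
  {n | (decide (n / 2 < t.length) && ((t.getD (n / 2) 0 == 1) == (n % 2 == 1))) = true}

def Ext (t : List ℕ) (X : ℕ → Bool) : Prop := ∀ k < t.length, (t.getD k 0 == 1) = X k

def tk (X : ℕ → Bool) (m : ℕ) : List ℕ := (List.range m).map fun k => (X k).toNat

theorem tk_len (X : ℕ → Bool) (m : ℕ) : (tk X m).length = m := by simp [tk]

theorem tk_ext (X : ℕ → Bool) (m : ℕ) : Ext (tk X m) X := fun k hk => by
  rw [tk_len] at hk
  cases h : X k <;> simp [tk, List.getD_eq_getElem?_getD, hk, h]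

def pf (t t' : List ℕ) : Bool :=
  decide (t.length ≤ t'.length) &&
    (List.range t.length).all fun k => (t.getD k 0 == 1) == (t'.getD k 0 == 1)

theorem pf_iff {t t' : List ℕ} : pf t t' = true ↔ t.length ≤ t'.length ∧
    ∀ k < t.length, (t.getD k 0 == 1) = (t'.getD k 0 == 1) := by
  simp only [pf, Bool.and_eq_true, decide_eq_true_eq, List.all_eq_true, List.mem_range, beq_iff_eq]

theorem Ext.sub {A : Set ℕ} {t : List ℕ} {X : ℕ → Bool} (h : Ext t X) :
    join A (Bt t) ⊆ join A (BX X) := fun k hk => by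
  rw [mem_join] at hk ⊢
  refine hk.imp id (And.imp id fun a => ?_)
  simp only [Bt, mem_setOf_eq, Bool.and_eq_true, decide_eq_true_eq] at a
  exact (h _ a.1).symm.trans (beq_iff_eq.1 a.2)

theorem ev_Ap {A : Set ℕ} {X : ℕ → Bool} {c : Code} {n : ℕ} (h : n ∈ Ap c (join A (BX X))) :
    ∀ᶠ m in atTop, n ∈ Ap c (join A (Bt (tk X m))) := by
  obtain ⟨l, a, b⟩ := h
  have : ∀ᶠ m in atTop, ∀ i ∈ {i | i ∈ l}, i ∈ join A (Bt (tk X m)) := by
    refine (l.finite_toSet.eventually_all).2 fun i hi => ?_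
    filter_upwards [eventually_gt_atTop (i / 2 / 2)] with m hm
    have := b i hi
    rw [mem_join] at this ⊢
    refine this.imp id (And.imp id fun a => ?_)
    simp only [Bt, mem_setOf_eq, Bool.and_eq_true, decide_eq_true_eq, tk_len]
    exact ⟨hm, beq_iff_eq.2 ((tk_ext X m _ (by rwa [tk_len])).trans a)⟩
  exact this.mono fun m hm => ⟨l, a, hm⟩

theorem er_Ap (A : Set ℕ) (c : Code) : ER A fun q : List ℕ × ℕ => q.2 ∈ Ap c (join A (Bt q.1)) := by
  have h : ER A fun q : ((List ℕ × ℕ) × List ℕ) × ℕ => q.2 ∈ join A (Bt q.1.1.1) :=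
    (((er_bool (f := fun q : ((List ℕ × ℕ) × List ℕ) × ℕ => q.2 % 2 == 0) (by fun_prop)).and
      (er_mem (g := fun q => q.2 / 2) (by fun_prop))).or
      ((er_bool (f := fun q : ((List ℕ × ℕ) × List ℕ) × ℕ => q.2 % 2 == 1) (by fun_prop)).and
        (er_bool (f := fun q : ((List ℕ × ℕ) × List ℕ) × ℕ => decide (q.2 / 2 / 2 < q.1.1.1.length) &&
          ((q.1.1.1.getD (q.2 / 2 / 2) 0 == 1) == (q.2 / 2 % 2 == 1))) (by fun_prop)))).of_iff
      fun q => by simp only [mem_join, beq_iff_eq, Bt, mem_setOf_eq]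
  exact ER.ex (p := fun q : (List ℕ × ℕ) × List ℕ => R c (q.1.2, q.2) ∧
    ∀ i ∈ q.2, i ∈ join A (Bt q.1.1))
    (((er_re (re_R c)).comp (by fun_prop)).and (h.all (L := fun q => q.2) (by fun_prop)))

theorem baire {A : Set ℕ} (h : AlmostTotal A) : ∃ (a b c : Code) (p : List ℕ),
    ∀ t, pf p t = true → ∃ X, Ext t X ∧ Ap b (join A (BX X)) = (Ap a (join A (BX X)))ᶜ ∧
      Ap c (Ap a (join A (BX X))) = {e | T A e} := by
  let S : (Code × Code × Code) ⊕ Code → Set (ℕ → Bool) := Sum.elim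
    (fun i => {X | Ap i.2.1 (join A (BX X)) = (Ap i.1 (join A (BX X)))ᶜ ∧
      Ap i.2.2 (Ap i.1 (join A (BX X))) = {e | T A e}}) fun c => {X | Ap c A = BX X}
  obtain ⟨i, X0, hX⟩ := nonempty_interior_of_iUnion_of_closed (f := fun i => closure (S i))
    (fun _ => isClosed_closure) (eq_univ_of_forall fun X => by
      rcases h (BX X) with k | ⟨C, ⟨k1, k2⟩, k3⟩
      · obtain ⟨c, hc⟩ := (ele_iff.1 k).code
        exact mem_iUnion.2 ⟨.inr c, subset_closure hc⟩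
      · rw [ele_iff] at k1 k2 k3
        obtain ⟨a, ha⟩ := k1.code
        obtain ⟨b, hb⟩ := (k1.trans k3).code
        have : ER (join A (BX X)) (· ∈ A) :=
          (er_mem (g := fun n : ℕ => 2 * n) (by fun_prop)).of_iff fun n => by simp [mem_join]
        obtain ⟨c, hc⟩ := ER.code (C := {e | T A e}) ((k2.trans this).trans er_T)
        exact mem_iUnion.2 ⟨.inl (a, b, c), subset_closure ⟨by rw [ha, hb], by rw [ha, hc]⟩⟩)
  obtain ⟨_, ⟨Y0, n, rfl⟩, h1, h2⟩ := (PiNat.isTopologicalBasis_cylinders fun _ : ℕ => Bool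
    ).exists_subset_of_mem_open hX isOpen_interior
  have dn : ∀ Y : ℕ → Bool, (∀ k < n, Y k = Y0 k) → ∀ m, ∃ X ∈ S i, ∀ k < m, X k = Y k := by
    intro Y hY m
    obtain ⟨X, a, b⟩ := mem_closure_iff.1 (interior_subset (h2 (PiNat.mem_cylinder_iff.2 hY)))
      _ (PiNat.isOpen_cylinder (fun _ : ℕ => Bool) Y m) (PiNat.self_mem_cylinder Y m)
    exact ⟨X, b, PiNat.mem_cylinder_iff.1 a⟩
  rcases i with ⟨a, b, c⟩ | c
  · refine ⟨a, b, c, tk Y0 n, fun t ht => ?_⟩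
    rw [pf_iff, tk_len] at ht
    obtain ⟨X, a, b⟩ := dn (fun k => t.getD k 0 == 1) (fun k hk => (ht.2 k hk).symm.trans
      (tk_ext Y0 n k (by rwa [tk_len]))) t.length
    exact ⟨X, fun k hk => (b k hk).symm, a⟩
  · obtain ⟨X, a, b⟩ := dn (Function.update Y0 n true)
      (fun k hk => Function.update_of_ne hk.ne _ _) (n + 1)
    obtain ⟨X', a', b'⟩ := dn (Function.update Y0 n false)
      (fun k hk => Function.update_of_ne hk.ne _ _) (n + 1)
    have e : BX X = BX X' := a.symm.trans a'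
    have : 2 * n + 1 ∈ BX X := by
      simp [BX, show (2 * n + 1) / 2 = n by omega, b n n.lt_succ_self]
    rw [e] at this
    simp [BX, show (2 * n + 1) / 2 = n by omega, b' n n.lt_succ_self] at this

theorem main {A : Set ℕ} (h : AlmostTotal A) : GraphCototal A := by
  obtain ⟨a, b, c, p, H⟩ := baire h
  obtain ⟨D, hD, -, hD'⟩ := re_stage (re_R c)
  let dc : ℕ → List ℕ × List ℕ × ℕ := Denumerable.ofNat _
  let ok : ℕ × ℕ → Bool := fun q => pf p (dc q.2).1 && D (q.1, (dc q.2).2.1) (dc q.2).2.2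
  have okc : CI ∅ ok := CI.and (by simp only [dc]; unfold pf; fun_prop)
    (hD.comp (g := fun q : ℕ × ℕ => ((q.1, (dc q.2).2.1), (dc q.2).2.2)) (by simp only [dc]; fun_prop))
  obtain ⟨f, hf, hE⟩ := of_reg (A := A)
    (fun q => ok q = true ∧ ∀ n ∈ (dc q.2).2.1, n ∈ Ap a (join A (Bt (dc q.2).1)))
    (fun q => (!ok q) = true ∨ ∃ r : List ℕ × ℕ, (pf (dc q.2).1 r.1 && (dc q.2).2.1.contains r.2) = true ∧
      r.2 ∈ Ap b (join A (Bt r.1)))
    ((er_bool okc).and (((er_Ap A a).comp (g := fun q : (ℕ × ℕ) × ℕ => ((dc q.1.2).1, q.2))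
      (by simp only [dc]; fun_prop)).all (L := fun q => (dc q.2).2.1) (by simp only [dc]; fun_prop)))
    ((er_bool okc.not).or (ER.ex ((er_bool (f := fun q : (ℕ × ℕ) × List ℕ × ℕ =>
      pf (dc q.1.2).1 q.2.1 && (dc q.1.2).2.1.contains q.2.2)
        (by simp only [dc]; unfold pf; fun_prop)).and
      ((er_Ap A b).comp (g := fun q : (ℕ × ℕ) × List ℕ × ℕ => q.2) (by fun_prop)))))
    (fun e k ⟨u1, u2⟩ v => by
      rcases v with v | ⟨⟨t, n⟩, v1, v2⟩
      · simp [u1] at v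
      simp only [ok, Bool.and_eq_true, List.contains_iff_mem, pf_iff] at u1 v1
      obtain ⟨X, x1, x2, -⟩ := H t (pf_iff.2 ⟨u1.1.1.trans v1.1.1, fun j hj =>
        (u1.1.2 j hj).trans (v1.1.2 j (hj.trans_le u1.1.1))⟩)
      have x3 : Ext (dc k).1 X := fun j hj => (v1.1.2 j hj).trans (x1 j (hj.trans_le v1.1.1))
      exact x2.le (Ap_mono b x1.sub v2) (Ap_mono a x3.sub (u2 n v1.2)))
    (fun e k => by
      by_cases he : T A e
      · exact Or.inl he
      refine Or.inr ?_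
      cases hk : ok (e, k)
      · exact Or.inl rfl
      simp only [ok, Bool.and_eq_true] at hk
      obtain ⟨X, x1, x2, x3⟩ := H _ hk.1
      have : ¬ ∀ n ∈ (dc k).2.1, n ∈ Ap a (join A (BX X)) := fun w =>
        he (x3.le ⟨_, (hD' _).2 ⟨_, hk.2⟩, w⟩)
      push Not at this
      obtain ⟨n, n1, n2⟩ := this
      obtain ⟨m, m1, m2⟩ := ((ev_Ap (x2.ge n2)).and (eventually_ge_atTop (dc k).1.length)).exists
      refine Or.inr ⟨(tk X m, n), ?_, m1⟩
      simp only [Bool.and_eq_true, List.contains_iff_mem, pf_iff, tk_len]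
      exact ⟨⟨m2, fun j hj => (x1 j hj).trans
        (tk_ext X m j (by rw [tk_len]; omega)).symm⟩, n1⟩)
    (fun e he => by
      obtain ⟨X, x1, -, x3⟩ := H p (pf_iff.2 ⟨le_rfl, fun _ _ => rfl⟩)
      obtain ⟨l, l1, l2⟩ := x3.ge he
      obtain ⟨s, hs⟩ := (hD' _).1 l1
      obtain ⟨m, m1, m2⟩ := (((l.finite_toSet.eventually_all).2 fun n hn => ev_Ap (l2 n hn)).and
        (eventually_ge_atTop p.length)).exists
      refine ⟨encode (tk X m, l, s), ?_⟩
      simp only [ok, dc, Denumerable.ofNat_encode, Bool.and_eq_true, pf_iff, tk_len]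
      exact ⟨⟨⟨m2, fun j hj => (x1 j hj).trans (tk_ext X m j (by rw [tk_len]; omega)).symm⟩, hs⟩,
        m1⟩)
  have e : ∀ k : ℕ, k ∈ {k | ∃ n, k = Nat.pair n (f n)}ᶜ ↔ f k.unpair.1 ≠ k.unpair.2 := fun k => by
    refine not_congr ⟨?_, fun h => ⟨k.unpair.1, by rw [h, Nat.pair_unpair]⟩⟩
    rintro ⟨n, rfl⟩
    simp
  exact ⟨f, ele_iff.2 (hE.of_iff e), ele_iff.2 ((er_mem (g := fun n : ℕ => Nat.pair n 0)
    (by fun_prop)).of_iff fun n => by rw [e, hf, Nat.unpair_pair])⟩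

end Pool.Agent.H83.Ga
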