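import Mathlib

/-! Corridor codes of a sequence of nonnegative reals. -/

set_option autoImplicit false

namespace Pool.Agent.H83.Gc

noncomputable def pre (s : ℕ) (m w : ℝ) : ℝ := if s % 2 = 1 then m else min m w

noncomputable def nxt (l : ℕ) (p : ℝ) : ℝ :=
  if l % 2 = 0 then 1 else min (max 0 (p - 1 / 2 ^ (l + 1))) (max 0 (1 / 2 ^ l - p))

noncomputable def mar (s : ℕ → ℕ) (w : ℕ → ℝ) : ℕ → ℝ
  | 0 => 1
  | j + 1 => nxt (s j / 2) (pre (s j) (mar s w j) (w j))

def In (l : ℕ) (p : ℝ) : Prop := 1 / 2 ^ (l + 1) ≤ p ∧ p ≤ 1 / 2 ^ l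

def Str (l : ℕ) (p : ℝ) : Prop := l % 2 = 0 ∨ 1 / 2 ^ (l + 1) < p ∧ p < 1 / 2 ^ l

def OK (s : ℕ → ℕ) (w : ℕ → ℝ) (j : ℕ) : Prop :=
  (s j % 2 = 1 → w j = 0) ∧ In (s j / 2) (pre (s j) (mar s w j) (w j))

theorem str_iff (l : ℕ) (p : ℝ) : 0 < nxt l p ↔ Str l p := by
  unfold nxt Str
  split_ifs with h
  · simp [h]
  · simp [h]

theorem nxt_le (l : ℕ) (p : ℝ) (hp : 0 ≤ p) : nxt l p ≤ 1 := by
  unfold nxt
  split_ifs with h
  · exact le_rfl
  · refine (min_le_right _ _).trans (max_le zero_le_one ?_)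
    have : (1 : ℝ) / 2 ^ l ≤ 1 := by
      rw [div_le_one (by positivity)]
      exact one_le_pow₀ one_le_two
    linarith

theorem anti {a b : ℕ} (h : a < b) : (1 : ℝ) / 2 ^ b < 1 / 2 ^ a :=
  one_div_lt_one_div_of_lt (by positivity) (pow_lt_pow_right₀ one_lt_two h)

theorem uniq {l l' : ℕ} {p : ℝ} (h : In l p) (hs : Str l p) (h' : In l' p)
    (hc : Str l' p ∨ l % 2 = 1) : l' = l := by
  rcases lt_trichotomy l' l with k | k | k
  · obtain rfl : l = l' + 1 := by
      by_contra hne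
      have := anti (show l' + 1 < l by omega)
      linarith [h.2, h'.1]
    have e : p = 1 / 2 ^ (l' + 1) := le_antisymm h.2 h'.1
    rcases hs with hs | hs
    · rcases hc with (hc | hc) | hc
      · omega
      · exact absurd e hc.1.ne'
      · omega
    · exact absurd e hs.2.ne
  · exact k
  · obtain rfl : l' = l + 1 := by
      by_contra hne
      have := anti (show l + 1 < l' by omega)
      linarith [h.1, h'.2]
    have e : p = 1 / 2 ^ (l + 1) := le_antisymm h'.2 h.1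
    rcases hs with hs | hs
    · rcases hc with (hc | hc) | hc
      · omega
      · exact absurd e hc.2.ne
      · omega
    · exact absurd e hs.1.ne'

theorem exl (p : ℝ) : ∃ l, 0 < p → p ≤ 1 → In l p ∧ Str l p := by
  by_cases h : 0 < p ∧ p ≤ 1
  swap
  · exact ⟨0, fun a b => (h ⟨a, b⟩).elim⟩
  obtain ⟨n, h1, h2⟩ := exists_nat_pow_near_of_lt_one h.1 h.2 (show (0 : ℝ) < 1 / 2 by norm_num)
    (by norm_num)
  rw [one_div_pow] at h1 h2
  by_cases k : n % 2 = 0 ∨ p < 1 / 2 ^ n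
  · exact ⟨n, fun _ _ => ⟨⟨h1.le, h2⟩, k.imp id fun k => ⟨h1, k⟩⟩⟩
  · rw [not_or, not_lt] at k
    obtain ⟨m, rfl⟩ : ∃ m, n = m + 1 := ⟨n - 1, by omega⟩
    exact ⟨m, fun _ _ => ⟨⟨k.2, h2.trans (anti m.lt_succ_self).le⟩, Or.inl (by omega)⟩⟩

theorem mar_congr {s s' : ℕ → ℕ} (w : ℕ → ℝ) (j : ℕ) (h : ∀ i < j, s' i = s i) :
    mar s' w j = mar s w j := by
  induction j with
  | zero => rfl
  | succ j ih =>
    simp only [mar]
    rw [ih fun i hi => h i (by omega), h j j.lt_succ_self]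

theorem pre_le (s : ℕ) (m w : ℝ) : pre s m w ≤ m := by
  unfold pre
  split_ifs
  exacts [le_rfl, min_le_left _ _]

theorem OK.pos {s : ℕ → ℕ} {w : ℕ → ℝ} {j : ℕ} (h : OK s w j) :
    0 < pre (s j) (mar s w j) (w j) := lt_of_lt_of_le (by positivity) h.2.1

theorem OK.bit {s : ℕ → ℕ} {w : ℕ → ℝ} {j : ℕ} (h : OK s w j) : s j % 2 = 1 ↔ w j = 0 := by
  refine ⟨h.1, fun k => by_contra fun hn => ?_⟩
  have := h.pos
  rw [pre, if_neg hn, k] at this
  exact lt_irrefl _ (this.trans_le (min_le_right _ _))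

theorem exists_code (w : ℕ → ℝ) (hw : ∀ j, 0 ≤ w j) : ∃ s : ℕ → ℕ, (∀ j, OK s w j) ∧
    ∀ s' j, (∀ i ≤ j, OK s' w i) → (s' j / 2 % 2 = 0 ∨ s j / 2 % 2 = 1) → ∀ i ≤ j, s' i = s i := by
  classical
  choose L hL using exl
  let b : ℕ → ℕ := fun j => if w j = 0 then 1 else 0
  let m : ℕ → ℝ := fun n => Nat.rec 1 (fun j x => nxt (L (pre (b j) x (w j))) (pre (b j) x (w j))) n
  let s : ℕ → ℕ := fun j => 2 * L (pre (b j) (m j) (w j)) + b j
  have hb : ∀ j, b j < 2 := fun j => by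
    simp only [b]
    split_ifs <;> norm_num
  have s1 : ∀ j, s j / 2 = L (pre (b j) (m j) (w j)) := fun j => by
    have := hb j
    simp only [s]
    omega
  have s2 : ∀ j x y, pre (s j) x y = pre (b j) x y := fun j x y => by
    have : s j % 2 = b j % 2 := by
      simp only [s]
      omega
    simp only [pre, this]
  have hm : ∀ j, mar s w j = m j := fun j => by
    induction j with
    | zero => rfl
    | succ j ih => rw [mar, ih, s1, s2]
  have pp : ∀ j, 0 < m j → 0 < pre (b j) (m j) (w j) := fun j h => by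
    simp only [pre, b]
    by_cases k : w j = 0
    · simpa [k] using h
    · simpa [k, h] using (hw j).lt_of_ne' k
  have hp : ∀ j, 0 < m j ∧ m j ≤ 1 := fun j => by
    induction j with
    | zero => exact ⟨one_pos, le_rfl⟩
    | succ j ih =>
      exact ⟨(str_iff _ _).2 (hL _ (pp j ih.1) ((pre_le _ _ _).trans ih.2)).2,
        nxt_le _ _ (pp j ih.1).le⟩
  have hI := fun j => hL _ (pp j (hp j).1) ((pre_le _ _ _).trans (hp j).2)
  have ok : ∀ j, OK s w j := fun j => by
    refine ⟨fun h => ?_, by rw [hm, s1, s2]; exact (hI j).1⟩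
    by_contra k
    simp only [s, b, k, if_false] at h
    omega
  have key : ∀ s' j, (∀ i < j, s' i = s i) → OK s' w j →
      (0 < mar s' w (j + 1) ∨ s j / 2 % 2 = 1) → s' j = s j := by
    intro s' j h1 h2 h3
    have e1 : s' j % 2 = s j % 2 := by
      have a := h2.bit.trans (ok j).bit.symm
      omega
    have e2 : pre (s' j) (mar s' w j) (w j) = pre (b j) (m j) (w j) := by
      rw [mar_congr w j h1, hm, ← s2]
      simp only [pre, e1]
    have := uniq (hI j).1 (hI j).2 (e2 ▸ h2.2) (h3.imp (fun k => e2 ▸ (str_iff _ _).1 k)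
      fun k => s1 j ▸ k)
    rw [← s1] at this
    omega
  refine ⟨s, ok, fun s' j h1 h2 i => ?_⟩
  induction i using Nat.strong_induction_on with
  | _ i ih =>
    intro hi
    refine key s' i (fun k hk => ih k hk (by omega)) (h1 i hi) ?_
    rcases hi.lt_or_eq with k | rfl
    · exact Or.inl ((h1 (i + 1) k).pos.trans_le (pre_le _ _ _))
    · exact h2.imp (fun k => (str_iff _ _).2 (Or.inl k)) id

def preN (s m z : ℕ) : ℕ := if s % 2 = 1 then m else min m z

def nxtN (N l p : ℕ) : ℕ := if l % 2 = 0 then 2 ^ N else min (p - 2 ^ (N - (l + 1))) (2 ^ (N - l) - p)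

def marN (N : ℕ) (s z : List ℕ) : ℕ → ℕ
  | 0 => 2 ^ N
  | j + 1 => nxtN N (s.getD j 0 / 2) (preN (s.getD j 0) (marN N s z j) (z.getD j 0))

theorem abs_min {a b c d : ℝ} (h : |a - c| ≤ 1) (h' : |b - d| ≤ 1) : |min a b - min c d| ≤ 1 :=
  (abs_min_sub_min_le_max a b c d).trans (max_le h h')

theorem abs_max {a c : ℝ} (h : |a - c| ≤ 1) : |max 0 a - max 0 c| ≤ 1 :=
  (abs_max_sub_max_le_max 0 a 0 c).trans (max_le (by simp) h)

theorem cast_sub' (a b : ℕ) : ((a - b : ℕ) : ℝ) = max 0 ((a : ℝ) - b) := by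
  rcases le_total a b with h | h
  · rw [Nat.sub_eq_zero_of_le h, max_eq_left (sub_nonpos.2 (by exact_mod_cast h))]
    simp
  · rw [Nat.cast_sub h, max_eq_right (sub_nonneg.2 (by exact_mod_cast h))]

theorem lev {N l : ℕ} (h : l ≤ N) : ((2 ^ (N - l) : ℕ) : ℝ) = 2 ^ N * (1 / 2 ^ l) := by
  obtain ⟨k, rfl⟩ := Nat.exists_eq_add_of_le h
  rw [Nat.add_sub_cancel_left, pow_add]
  push_cast
  field_simp

theorem pre_app {N s m' z : ℕ} {m w : ℝ} (h : |2 ^ N * m - m'| ≤ 1) (h' : |2 ^ N * w - z| ≤ 1) :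
    |2 ^ N * pre s m w - preN s m' z| ≤ 1 := by
  unfold pre preN
  split_ifs
  · exact h
  · rw [mul_min_of_nonneg _ _ (by positivity), Nat.cast_min]
    exact abs_min h h'

theorem mar_app (N : ℕ) (s z : List ℕ) (w : ℕ → ℝ) (j : ℕ)
    (h : ∀ k < j, |2 ^ N * w k - z.getD k 0| ≤ 1 ∧ s.getD k 0 / 2 + 1 ≤ N) :
    |2 ^ N * mar (fun k => s.getD k 0) w j - marN N s z j| ≤ 1 := by
  induction j with
  | zero => simp [mar, marN]
  | succ j ih =>
    have a := pre_app (s := s.getD j 0) (ih fun k hk => h k (by omega)) (h j j.lt_succ_self).1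
    have b := (h j j.lt_succ_self).2
    simp only [mar, marN, nxt, nxtN]
    split_ifs
    · simp
    · rw [mul_min_of_nonneg _ _ (by positivity), Nat.cast_min, cast_sub', cast_sub', lev b,
        lev (by omega), mul_max_of_nonneg _ _ (by positivity),
        mul_max_of_nonneg _ _ (by positivity), mul_zero]
      refine abs_min (abs_max ?_) (abs_max ?_)
      · rw [mul_sub, sub_sub_sub_cancel_right]
        exact a
      · rw [mul_sub, sub_sub_sub_cancel_left, abs_sub_comm]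
        exact a

end Pool.Agent.H83.Gc
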