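import Pool.Agent.H83.Gc1
import Pool.Agent.H37.RE

/-! Sets of cuts of a real sequence are enumeration equivalent to complements of graphs. -/

set_option autoImplicit false

namespace Pool.Agent.H83.Gc

open Pool.Agent.H37

def tb (u i : ℕ) : Bool := u / 2 ^ i % 2 == 1

theorem tb_eq (u i : ℕ) : tb u i = u.testBit i := by
  rw [Nat.testBit_eq_decide_div_mod_eq, tb]
  rfl

def val (K : ℕ) (s : List ℕ) (j : ℕ) : Bool :=
  s.getD j 0 / 2 % 2 == 0 || (K != 0 && decide (K ≤ j + 1))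

def syn (K a : ℕ) (s : List ℕ) : Bool :=
  decide (a < s.length) && (val K s (s.length - 1) &&
    (((List.range (s.length - 1)).all fun i => decide (i < a) || !val K s i) &&
      s.getD a 0 % 2 == 0))

def bad (cgt clt : ℕ → ℕ → ℕ → ℕ) (u : ℕ) (s : List ℕ) (N : ℕ) (z : List ℕ) (i : ℕ) : Bool :=
  (s.getD i 0 % 2 == 1 && tb u i) ||
    (((List.range (i + 1)).all fun k =>
      (decide (z.getD k 0 ≤ 1) || tb u (cgt k (z.getD k 0 - 1) N)) &&
        (tb u (clt k (z.getD k 0 + 1) N) && decide (s.getD k 0 / 2 + 1 ≤ N))) &&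
      (decide (preN (s.getD i 0) (marN N s z i) (z.getD i 0) + 1 < 2 ^ (N - (s.getD i 0 / 2 + 1))) ||
        decide (2 ^ (N - s.getD i 0 / 2) + 1 < preN (s.getD i 0) (marN N s z i) (z.getD i 0))))

theorem marN_ci : CI ∅ fun p : (ℕ × List ℕ × List ℕ) × ℕ => marN p.1.1 p.1.2.1 p.1.2.2 p.2 :=
  CI.of_rec (F := fun a : ℕ × List ℕ × List ℕ => marN a.1 a.2.1 a.2.2) (g := fun a => 2 ^ a.1)
    (h := fun a j m => nxtN a.1 (a.2.1.getD j 0 / 2) (preN (a.2.1.getD j 0) m (a.2.2.getD j 0)))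
    (by fun_prop) (by unfold nxtN preN; fun_prop) (fun _ => rfl) fun _ _ => rfl

@[fun_prop] theorem CI.marN {α : Type} [Primcodable α] {N j : α → ℕ} {s z : α → List ℕ}
    (hN : CI ∅ N) (hs : CI ∅ s) (hz : CI ∅ z) (hj : CI ∅ j) :
    CI ∅ fun a => marN (N a) (s a) (z a) (j a) :=
  marN_ci.comp (g := fun a => ((N a, s a, z a), j a)) (by fun_prop)

theorem exists_bits (A : Set ℕ) (l : List ℕ) :
    ∃ u : ℕ, (∀ i, u.testBit i = true → i ∈ A) ∧ ∀ i ∈ l, i ∈ A → u.testBit i = true := by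
  induction l with
  | nil => exact ⟨0, by simp, by simp⟩
  | cons a l ih =>
    obtain ⟨u, h1, h2⟩ := ih
    by_cases ha : a ∈ A
    · refine ⟨u ||| 2 ^ a, fun i hi => ?_, fun i hi hA => ?_⟩
      · rw [Nat.testBit_or, Bool.or_eq_true, Nat.testBit_two_pow] at hi
        rcases hi with hi | hi
        exacts [h1 i hi, of_decide_eq_true hi ▸ ha]
      · rw [Nat.testBit_or, Bool.or_eq_true, Nat.testBit_two_pow]
        rcases List.mem_cons.1 hi with rfl | hi
        exacts [Or.inr (decide_eq_true rfl), Or.inl (h2 i hi hA)]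
    · refine ⟨u, h1, fun i hi hA => ?_⟩
      rcases List.mem_cons.1 hi with rfl | hi
      exacts [(ha hA).elim, h2 i hi hA]

section
variable {A : Set ℕ} {y : ℕ → ℝ} {cgt clt : ℕ → ℕ → ℕ → ℕ}

theorem bad_sound (hA : ∀ k, k ∈ A ↔ 0 < y k) (hgt : ∀ k j N, cgt k j N ∈ A ↔ (j : ℝ) < 2 ^ N * y k)
    (hlt : ∀ k j N, clt k j N ∈ A ↔ 2 ^ N * y k < j) {u N i : ℕ} {s z : List ℕ}
    (hu : ∀ i, u.testBit i = true → i ∈ A) (h : bad cgt clt u s N z i = true) :
    ¬ OK (fun k => s.getD k 0) (fun k => max 0 (y k)) i := by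
  intro ok
  simp only [bad, Bool.or_eq_true, Bool.and_eq_true, beq_iff_eq, tb_eq, List.all_eq_true,
    List.mem_range, decide_eq_true_eq] at h
  rcases h with ⟨h1, h2⟩ | ⟨h1, h2⟩
  · have a : max 0 (y i) = 0 := ok.1 h1
    linarith [(hA i).1 (hu i h2), le_max_right 0 (y i)]
  have hp : (0 : ℝ) < 2 ^ N := by positivity
  have ap : ∀ k < i + 1, |2 ^ N * max 0 (y k) - z.getD k 0| ≤ 1 ∧ s.getD k 0 / 2 + 1 ≤ N := by
    intro k hk
    obtain ⟨a, b, c⟩ := h1 k hk
    refine ⟨?_, c⟩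
    have b' := (hlt _ _ _).1 (hu _ b)
    have z0 : (0 : ℝ) ≤ z.getD k 0 := Nat.cast_nonneg _
    push_cast at b'
    rw [mul_max_of_nonneg _ _ hp.le, mul_zero, abs_le]
    refine ⟨?_, by linarith [max_le (show (0 : ℝ) ≤ z.getD k 0 + 1 by linarith) b'.le]⟩
    rcases a with a | a
    · have : (z.getD k 0 : ℝ) ≤ 1 := by exact_mod_cast a
      linarith [le_max_left 0 (2 ^ N * y k)]
    · have a' := (hgt _ _ _).1 (hu _ a)
      rw [cast_sub'] at a'
      linarith [le_max_right 0 (2 ^ N * y k), le_max_right 0 ((z.getD k 0 : ℝ) - (1 : ℕ)),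
        Nat.cast_one (R := ℝ)]
  have a := abs_le.1 (pre_app (s := s.getD i 0)
    (mar_app N s z (fun k => max 0 (y k)) i fun k hk => ap k (by omega)) (ap i i.lt_succ_self).1)
  have b := (ap i i.lt_succ_self).2
  have c1 := mul_le_mul_of_nonneg_left ok.2.1 hp.le
  have c2 := mul_le_mul_of_nonneg_left ok.2.2 hp.le
  rw [← lev b] at c1
  rw [← lev (show s.getD i 0 / 2 ≤ N by omega)] at c2
  rcases h2 with h2 | h2
  · have : ((preN (s.getD i 0) (marN N s z i) (z.getD i 0) + 1 : ℕ) : ℝ) <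
      (2 ^ (N - (s.getD i 0 / 2 + 1)) : ℕ) := by exact_mod_cast h2
    rw [Nat.cast_add, Nat.cast_one] at this
    linarith [a.2]
  · have : ((2 ^ (N - s.getD i 0 / 2) + 1 : ℕ) : ℝ) <
      (preN (s.getD i 0) (marN N s z i) (z.getD i 0) : ℕ) := by exact_mod_cast h2
    rw [Nat.cast_add, Nat.cast_one] at this
    linarith [a.1]

theorem bad_complete (hA : ∀ k, k ∈ A ↔ 0 < y k)
    (hgt : ∀ k j N, cgt k j N ∈ A ↔ (j : ℝ) < 2 ^ N * y k)
    (hlt : ∀ k j N, clt k j N ∈ A ↔ 2 ^ N * y k < j) (i : ℕ) (s : List ℕ)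
    (h : ¬ OK (fun k => s.getD k 0) (fun k => max 0 (y k)) i) :
    ∃ u N z, (∀ i, u.testBit i = true → i ∈ A) ∧ bad cgt clt u s N z i = true := by
  simp only [bad, Bool.or_eq_true, Bool.and_eq_true, beq_iff_eq, tb_eq, List.all_eq_true,
    List.mem_range, decide_eq_true_eq]
  rw [OK, not_and_or] at h
  rcases h with h | h
  · push Not at h
    obtain ⟨u, h1, h2⟩ := exists_bits A [i]
    refine ⟨u, 0, [], h1, Or.inl ⟨h.1, h2 i (by simp) ((hA i).2 ?_)⟩⟩
    by_contra k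
    exact h.2 (max_eq_left (not_lt.1 k))
  set p := pre (s.getD i 0) (mar (fun k => s.getD k 0) (fun k => max 0 (y k)) i) (max 0 (y i))
    with hp
  obtain ⟨δ, hδ, hd⟩ : ∃ δ : ℝ, 0 < δ ∧
      (p + δ ≤ 1 / 2 ^ (s.getD i 0 / 2 + 1) ∨ 1 / 2 ^ (s.getD i 0 / 2) + δ ≤ p) := by
    rw [In, not_and_or, not_le, not_le] at h
    rcases h with h | h
    exacts [⟨_, sub_pos.2 h, Or.inl (by linarith)⟩, ⟨_, sub_pos.2 h, Or.inr (by linarith)⟩]
  obtain ⟨N0, hN0⟩ := pow_unbounded_of_one_lt (2 / δ) (one_lt_two (α := ℝ))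
  let N := N0 + ∑ k ∈ Finset.range (i + 1), (s.getD k 0 / 2 + 1)
  have hN : ∀ k < i + 1, s.getD k 0 / 2 + 1 ≤ N := fun k hk =>
    (Finset.single_le_sum (f := fun k => s.getD k 0 / 2 + 1) (fun _ _ => Nat.zero_le _)
      (Finset.mem_range.2 hk)).trans (Nat.le_add_left _ _)
  have hp0 : (0 : ℝ) < 2 ^ N := by positivity
  have hN2 : 2 < 2 ^ N * δ := by
    rw [div_lt_iff₀ hδ] at hN0
    exact hN0.trans_le (mul_le_mul_of_nonneg_right
      (pow_le_pow_right₀ one_le_two (Nat.le_add_right _ _)) hδ.le)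
  let z := (List.range (i + 1)).map fun k => ⌊2 ^ N * max 0 (y k)⌋₊
  have hz : ∀ k < i + 1, z.getD k 0 = ⌊2 ^ N * max 0 (y k)⌋₊ := fun k hk => by
    simp [z, List.getD_eq_getElem?_getD, hk]
  have f1 : ∀ k < i + 1, (z.getD k 0 : ℝ) ≤ 2 ^ N * max 0 (y k) := fun k hk => by
    rw [hz k hk]
    exact Nat.floor_le (by positivity)
  have f2 : ∀ k < i + 1, 2 ^ N * max 0 (y k) < z.getD k 0 + 1 := fun k hk => by
    rw [hz k hk]
    exact Nat.lt_floor_add_one _
  obtain ⟨u, h1, h2⟩ := exists_bits A ((List.range (i + 1)).map (fun k => cgt k (z.getD k 0 - 1) N) ++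
    (List.range (i + 1)).map fun k => clt k (z.getD k 0 + 1) N)
  refine ⟨u, N, z, h1, Or.inr ⟨fun k hk => ⟨?_, h2 _ (List.mem_append_right _
    (List.mem_map.2 ⟨k, List.mem_range.2 hk, rfl⟩)) ((hlt _ _ _).2 ?_), hN k hk⟩, ?_⟩⟩
  · by_cases c : z.getD k 0 ≤ 1
    · exact Or.inl c
    refine Or.inr (h2 _ (List.mem_append_left _ (List.mem_map.2 ⟨k, List.mem_range.2 hk, rfl⟩))
      ((hgt _ _ _).2 ?_))
    have c' : (1 : ℝ) < z.getD k 0 := by exact_mod_cast not_le.1 c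
    have a := f1 k hk
    rw [Nat.cast_sub (by omega), Nat.cast_one]
    rcases le_total 0 (y k) with e | e
    · rw [max_eq_right e] at a
      linarith
    · rw [max_eq_left e] at a
      linarith
  · push_cast
    exact (mul_le_mul_of_nonneg_left (le_max_right _ _) hp0.le).trans_lt (f2 k hk)
  have ap : ∀ k < i + 1, |2 ^ N * max 0 (y k) - z.getD k 0| ≤ 1 := fun k hk =>
    abs_le.2 ⟨by linarith [f1 k hk], by linarith [f2 k hk]⟩
  have a := abs_le.1 (pre_app (s := s.getD i 0) (mar_app N s z (fun k => max 0 (y k)) i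
    fun k hk => ⟨ap k (by omega), hN k (by omega)⟩) (ap i i.lt_succ_self))
  rw [← hp] at a
  have b := hN i i.lt_succ_self
  rcases hd with hd | hd
  · refine Or.inl ?_
    have c := mul_le_mul_of_nonneg_left hd hp0.le
    rw [← lev b, mul_add] at c
    have : ((preN (s.getD i 0) (marN N s z i) (z.getD i 0) + 1 : ℕ) : ℝ) <
        (2 ^ (N - (s.getD i 0 / 2 + 1)) : ℕ) := by
      rw [Nat.cast_add, Nat.cast_one]
      linarith [a.1]
    exact_mod_cast this
  · refine Or.inr ?_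
    have c := mul_le_mul_of_nonneg_left hd hp0.le
    rw [mul_add, ← lev (by omega)] at c
    have : ((2 ^ (N - s.getD i 0 / 2) + 1 : ℕ) : ℝ) <
        (preN (s.getD i 0) (marN N s z i) (z.getD i 0) : ℕ) := by
      rw [Nat.cast_add, Nat.cast_one]
      linarith [a.2]
    exact_mod_cast this

theorem main (hA : ∀ k, k ∈ A ↔ 0 < y k) (hgt : ∀ k j N, cgt k j N ∈ A ↔ (j : ℝ) < 2 ^ N * y k)
    (hlt : ∀ k j N, clt k j N ∈ A ↔ 2 ^ N * y k < j)
    (c1 : CI ∅ fun q : ℕ × ℕ × ℕ => cgt q.1 q.2.1 q.2.2)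
    (c2 : CI ∅ fun q : ℕ × ℕ × ℕ => clt q.1 q.2.1 q.2.2) :
    ∃ f : ℕ → ℕ, (∀ a, a ∈ A ↔ f a ≠ 0) ∧ ∃ W : ℕ × ℕ → Prop, REPred W ∧
      ∀ t : ℕ, f t.unpair.1 ≠ t.unpair.2 ↔ ∃ u, W (t, u) ∧ ∀ i, u.testBit i = true → i ∈ A := by
  classical
  obtain ⟨s, ok, hs⟩ := exists_code (fun k => max 0 (y k)) fun k => le_max_left _ _
  obtain ⟨K, K1, K2⟩ : ∃ K : ℕ, (∀ j, K ≠ 0 ∧ K ≤ j + 1 → s j / 2 % 2 = 1) ∧
      ∀ a, ∃ j, a ≤ j ∧ (s j / 2 % 2 = 0 ∨ K ≠ 0 ∧ K ≤ j + 1) := by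
    by_cases h : ∀ a, ∃ j, a ≤ j ∧ s j / 2 % 2 = 0
    · exact ⟨0, fun j h => (h.1 rfl).elim, fun a => (h a).imp fun j h => ⟨h.1, Or.inl h.2⟩⟩
    · push Not at h
      obtain ⟨a, ha⟩ := h
      refine ⟨a + 1, fun j h => ?_, fun b => ⟨a + b, by omega, Or.inr (by omega)⟩⟩
      have := ha j (by omega)
      omega
  let σ : ℕ → List ℕ := fun a => (List.range (Nat.find (K2 a) + 1)).map s
  have bit : ∀ a, a ∈ A ↔ s a % 2 = 0 := fun a => by
    have := (ok a).bit
    rw [hA, ← not_le, ← max_eq_left_iff, ← this]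
    omega
  have key : ∀ a l, (a ∈ A ∧ σ a = l) ↔ syn K a l = true ∧
      ∀ i < l.length, OK (fun k => l.getD k 0) (fun k => max 0 (y k)) i := by
    intro a l
    simp only [syn, val, Bool.or_eq_true, Bool.and_eq_true, beq_iff_eq, List.all_eq_true,
      List.mem_range, decide_eq_true_eq, Bool.not_eq_true', bne_iff_ne, ne_eq,
      ← Bool.not_eq_true]
    constructor
    · rintro ⟨ha, rfl⟩
      have len : (σ a).length = Nat.find (K2 a) + 1 := by simp [σ]
      have get : ∀ i < Nat.find (K2 a) + 1, (σ a).getD i 0 = s i := fun i hi => by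
        simp [σ, List.getD_eq_getElem?_getD, hi]
      have sp := Nat.find_spec (K2 a)
      rw [len, Nat.add_sub_cancel, get _ (Nat.lt_succ_self _), get a (by omega)]
      refine ⟨⟨by omega, sp.2, fun i hi => ?_, (bit a).1 ha⟩, fun i hi => ?_⟩
      · rw [get i (by omega)]
        by_cases c : i < a
        exacts [Or.inl c, Or.inr fun k => Nat.find_min (K2 a) hi ⟨not_lt.1 c, k⟩]
      · simp only [OK]
        rw [mar_congr (s := s) _ i fun k hk => get k (by omega), get i hi]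
        exact ok i
    · rintro ⟨⟨h1, h2, h3, h4⟩, h5⟩
      have ag := hs (fun k => l.getD k 0) (l.length - 1) (fun i hi => h5 i (by omega))
        (h2.imp id (K1 _))
      have fe : Nat.find (K2 a) = l.length - 1 := by
        rw [Nat.find_eq_iff]
        refine ⟨⟨by omega, ag _ le_rfl ▸ h2⟩, fun i hi k => ?_⟩
        rcases h3 i hi with c | c
        · omega
        · exact c (by rw [ag i hi.le]; exact k.2)
      refine ⟨(bit a).2 (ag a (by omega) ▸ h4), ?_⟩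
      refine List.ext_getElem (by simp [σ, fe]; omega) fun i _ hi => ?_
      have := ag i (by omega)
      simp only [List.getD_eq_getElem?_getD, List.getElem?_eq_getElem hi, Option.getD_some] at this
      simp [σ, this]
  let D : ℕ × ℕ → ℕ × List ℕ × ℕ → Bool := fun q c =>
    if q.1.unpair.2 = 0 then tb q.2 q.1.unpair.1 else
      !syn K q.1.unpair.1 (Denumerable.ofNat (List ℕ) (q.1.unpair.2 - 1)) ||
        (decide (c.2.2 < (Denumerable.ofNat (List ℕ) (q.1.unpair.2 - 1)).length) &&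
          bad cgt clt q.2 (Denumerable.ofNat (List ℕ) (q.1.unpair.2 - 1)) c.1 c.2.1 c.2.2)
  have d1 : ∀ {α : Type} [Primcodable α] {a b c : α → ℕ}, CI ∅ a → CI ∅ b → CI ∅ c →
      CI ∅ fun x => cgt (a x) (b x) (c x) := fun ha hb hc => c1.comp (ha.mk (hb.mk hc))
  have d2 : ∀ {α : Type} [Primcodable α] {a b c : α → ℕ}, CI ∅ a → CI ∅ b → CI ∅ c →
      CI ∅ fun x => clt (a x) (b x) (c x) := fun ha hb hc => c2.comp (ha.mk (hb.mk hc))
  refine ⟨fun a => if a ∈ A then Encodable.encode (σ a) + 1 else 0, fun a => by simp,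
    fun q => ∃ c, D q c = true, re_of_exists D ?_ fun _ => Iff.rfl, fun t => ?_⟩
  · simp only [D]
    unfold syn bad val tb preN
    fun_prop
  by_cases ht : t.unpair.2 = 0
  · simp only [D, ht, if_true, tb_eq, exists_const]
    constructor
    · intro h
      obtain ⟨u, h1, h2⟩ := exists_bits A [t.unpair.1]
      exact ⟨u, h2 _ (by simp) (by simpa using h), h1⟩
    · rintro ⟨u, h1, h2⟩
      simp [h2 _ h1]
  have e : (if t.unpair.1 ∈ A then Encodable.encode (σ t.unpair.1) + 1 else 0) = t.unpair.2 ↔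
      t.unpair.1 ∈ A ∧ σ t.unpair.1 = Denumerable.ofNat (List ℕ) (t.unpair.2 - 1) := by
    split_ifs with h
    · simp only [h, true_and]
      refine ⟨fun k => by rw [← k]; simp, fun k => by rw [k]; simp; omega⟩
    · simp [h, Ne.symm ht]
  simp only [D, ht, if_false, ne_eq, e, key, Bool.or_eq_true, Bool.and_eq_true,
    Bool.not_eq_true', decide_eq_true_eq, ← Bool.not_eq_true]
  constructor
  · intro h
    rw [not_and_or] at h
    rcases h with h | h
    · exact ⟨0, ⟨(0, [], 0), Or.inl h⟩, by simp⟩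
    · push Not at h
      obtain ⟨i, hi, h⟩ := h
      obtain ⟨u, N, z, h1, h2⟩ := bad_complete hA hgt hlt i _ h
      exact ⟨u, ⟨(N, z, i), Or.inr ⟨hi, h2⟩⟩, h1⟩
  · rintro ⟨u, ⟨c, h | h⟩, hu⟩ k
    exacts [h k.1, bad_sound hA hgt hlt hu h.2 (k.2 _ h.1)]

end

end Pool.Agent.H83.Gc
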