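import Pool.Agent.H83.Tw5
import Pool.Agent.H85.Tau2

set_option autoImplicit false

namespace Pool.Agent.H83.Gm

open Set Filter Pool.Agent.H83.Tw Pool.Agent.H85.TauDefs Pool.Agent.H85.TauDefs2
open scoped Cardinal

/-- at most one point in each column -/
def Sel (A : Set ℕ) : Prop := ∀ n i j, Nat.pair n i ∈ A → Nat.pair n j ∈ A → i = j

/-- the point attached to a state -/
def pt (b : Set ℕ × (ℕ → ℕ)) : Set ℕ := {x | ∃ n ∈ b.1, x = Nat.pair n (min (b.2 n) (n + 1))}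

theorem pt_sel (b : Set ℕ × (ℕ → ℕ)) : Sel (pt b) := by
  rintro n i j ⟨a, -, ha⟩ ⟨c, -, hc⟩
  rw [Nat.pair_eq_pair] at ha hc
  rw [ha.2, hc.2, ← ha.1, ← hc.1]

/-- earlier points and finite selectors -/
def Old (S : Set (Set ℕ × (ℕ → ℕ))) : Set (Set ℕ) := pt '' S ∪ {A | A.Finite ∧ Sel A}

theorem old_countable {S : Set (Set ℕ × (ℕ → ℕ))} (hS : S.Countable) : (Old S).Countable :=
  (hS.image _).union (Set.Countable.mono (s₂ := range fun s : Finset ℕ => (s : Set ℕ))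
    (fun _ h => ⟨h.1.toFinset, h.1.coe_toFinset⟩) (countable_range _))

/-- the requirement met at one stage -/
def Rq (V : ℕ → ℕ → Set (Set ℕ)) (S : Set (Set ℕ × (ℕ → ℕ))) (N : Set ℕ) : Prop :=
  (∀ j, ∀ F : Set (Set ℕ), F.Finite → F ⊆ Old S → ∃ k, F ⊆ V j k) →
    ∃ k : ℕ → ℕ, (∀ A ∈ Old S, ∀ᶠ j in atTop, A ∈ V j (k j)) ∧
      ∀ c : Set ℕ × (ℕ → ℕ), Sub c.1 N → ∀ᶠ j in atTop, pt c ∈ V j (k j)

theorem pseudo (S : Set (Set ℕ × (ℕ → ℕ))) (hS : S.Countable) (hi : ∀ b ∈ S, b.1.Infinite)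
    (hch : ∀ a ∈ S, ∀ b ∈ S, Sub a.1 b.1 ∨ Sub b.1 a.1) :
    ∃ N : Set ℕ, N.Infinite ∧ ∀ b ∈ S, Sub N b.1 := by
  rcases S.eq_empty_or_nonempty with rfl | hne
  · exact ⟨univ, infinite_univ, by simp⟩
  obtain ⟨b, rfl⟩ := hS.exists_eq_range hne
  have hfin : ∀ n, ∃ m, ∀ i ≤ n, Sub (b m).1 (b i).1 := by
    intro n
    induction n with
    | zero => exact ⟨0, fun i hi => by rw [Nat.le_zero.1 hi]; exact .of_forall fun _ => id⟩
    | succ n ih =>
      obtain ⟨m, hm⟩ := ih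
      rcases hch _ ⟨m, rfl⟩ _ ⟨n + 1, rfl⟩ with h | h
      · refine ⟨m, fun i hi => ?_⟩
        rcases Nat.of_le_succ hi with h' | h'
        · exact hm i h'
        · rw [h']; exact h
      · refine ⟨n + 1, fun i hi => ?_⟩
        rcases Nat.of_le_succ hi with h' | h'
        · filter_upwards [h, hm i h'] with x a1 a2 a3
          exact a2 (a1 a3)
        · rw [h']; exact .of_forall fun _ => id
  have : ∀ n, ∃ x, n ≤ x ∧ ∀ i ≤ n, x ∈ (b i).1 := by
    intro n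
    obtain ⟨m, hm⟩ := hfin n
    have h1 : ∀ᶠ x in atTop, ∀ i ∈ Iic n, x ∈ (b m).1 → x ∈ (b i).1 :=
      (eventually_all_finite (finite_Iic n)).2 hm
    obtain ⟨x, a1, a2, a3⟩ := ((Nat.frequently_atTop_iff_infinite.2
      (hi _ ⟨m, rfl⟩)).and_eventually (h1.and (eventually_ge_atTop n))).exists
    exact ⟨x, a3, fun i hi => a2 i hi a1⟩
  choose x h1 h2 using this
  refine ⟨range x, infinite_of_forall_exists_gt fun n => ⟨x (n + 1), ⟨_, rfl⟩, h1 _⟩, ?_⟩
  rintro _ ⟨i, rfl⟩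
  obtain ⟨L, hL⟩ := bound_fin (Finset.range i) fun n => {x n}
  filter_upwards [eventually_ge_atTop L] with y hy
  rintro ⟨n, rfl⟩
  refine h2 n i ?_
  by_contra hc
  exact absurd (hL n (Finset.mem_range.2 (not_le.1 hc)) _ (Finset.mem_singleton_self _))
    (not_lt.2 hy)

theorem step (V : ℕ → ℕ → Set (Set ℕ)) (hV : ∀ n k, Op (V n k))
    (S : Set (Set ℕ × (ℕ → ℕ))) (hS : S.Countable) {N : Set ℕ} (hN : N.Infinite) :
    ∃ N' ⊆ N, N'.Infinite ∧ Rq V S N' := by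
  by_cases hw : ∀ j, ∀ F : Set (Set ℕ), F.Finite → F ⊆ Old S → ∃ k, F ⊆ V j k
  swap
  · exact ⟨N, Subset.rfl, hN, fun h => absurd h hw⟩
  obtain ⟨p, hp⟩ := (old_countable hS).exists_eq_range
    ⟨∅, Or.inr ⟨finite_empty, fun _ _ _ h => h.elim⟩⟩
  have key : ∀ j m : ℕ, ∃ k n M : ℕ, n ∈ N ∧ m ≤ n ∧ n < M ∧ (∀ i ≤ n + 1, Nat.pair n i < M) ∧
      (∀ i ≤ j, p i ∈ V j k) ∧ ∀ A : Set ℕ, Sel A → (∀ x ∈ A, x < m ∨ n ≤ x) → A ∈ V j k := by
    intro j m
    have hF : {A : Set ℕ | A ⊆ Iio m ∧ Sel A}.Finite :=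
      (finite_Iio m).finite_subsets.subset fun A hA => hA.1
    obtain ⟨k, hk⟩ := hw j (p '' Iic j ∪ {A : Set ℕ | A ⊆ Iio m ∧ Sel A})
      (((finite_Iic j).image p).union hF) (by
        rintro A (⟨i, -, rfl⟩ | hA)
        · exact hp ▸ mem_range_self i
        · exact Or.inr ⟨(finite_Iio m).subset hA.1, hA.2⟩)
    have hev : ∀ᶠ n in atTop, ∀ s ∈ {A : Set ℕ | A ⊆ Iio m ∧ Sel A}, ∀ C : Set ℕ,
        (∀ i < n, i ∈ C ↔ i ∈ s) → C ∈ V j k := by
      rw [eventually_all_finite hF]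
      intro s hs
      obtain ⟨n, hn⟩ := hV j k _ (hk (Or.inr hs))
      filter_upwards [eventually_ge_atTop n] with m' hm C hC
      exact hn C fun i hi => hC i (hi.trans_le hm)
    obtain ⟨n, a1, a2, a3⟩ := ((Nat.frequently_atTop_iff_infinite.2 hN).and_eventually
      (hev.and (eventually_ge_atTop m))).exists
    obtain ⟨M, hM⟩ := bound_fin (Finset.range (n + 2)) fun i => {Nat.pair n i}
    have hM' : ∀ i ≤ n + 1, Nat.pair n i < M := fun i hi =>
      hM i (Finset.mem_range.2 (by omega)) _ (Finset.mem_singleton_self _)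
    refine ⟨k, n, M, a1, a3, (Nat.left_le_pair n 0).trans_lt (hM' 0 (by omega)), hM',
      fun i hi => hk (Or.inl ⟨i, hi, rfl⟩), fun A hA hx => ?_⟩
    refine a2 (A ∩ Iio m) ⟨inter_subset_right, fun n i j b1 b2 => hA n i j b1.1 b2.1⟩ A
      fun i hi => ⟨fun h => ⟨h, (hx i h).resolve_right (not_le.2 hi)⟩, And.left⟩
  choose k n M h1 h2 h3 h4 h5 h6 using key
  let m : ℕ → ℕ := fun j => Nat.rec 0 (fun j a => M j a) j
  have hm : ∀ j, m (j + 1) = M j (m j) := fun j => rfl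
  have hmono : StrictMono m := strictMono_nat_of_lt_succ fun j => by
    rw [hm]; exact (h2 j _).trans_lt (h3 j _)
  have hn : StrictMono fun j => n j (m j) := strictMono_nat_of_lt_succ fun j =>
    (h3 j _).trans_le (h2 (j + 1) _)
  refine ⟨range fun j => n j (m j), by rintro _ ⟨j, rfl⟩; exact h1 _ _,
    infinite_range_of_injective hn.injective, fun _ => ⟨fun j => k j (m j), fun A hA => ?_,
      fun c hc => ?_⟩⟩
  · rw [hp] at hA
    obtain ⟨i, rfl⟩ := hA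
    filter_upwards [eventually_ge_atTop i] with j hj
    exact h5 j _ i hj
  · obtain ⟨L, hL⟩ := eventually_atTop.1 hc
    obtain ⟨L', hL'⟩ := bound_fin (Finset.range L) fun a => {Nat.pair a (min (c.2 a) (a + 1))}
    filter_upwards [eventually_ge_atTop L'] with j hj
    refine h6 j _ _ (pt_sel c) ?_
    rintro _ ⟨a, ha, rfl⟩
    rcases lt_or_ge a L with h | h
    · exact Or.inl ((hL' a (Finset.mem_range.2 h) _ (Finset.mem_singleton_self _)).trans_le
        (hj.trans (hmono.id_le j)))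
    · obtain ⟨i, rfl⟩ := hL a h ha
      rcases lt_or_ge i j with h' | h'
      · exact Or.inl ((h4 i _ _ (min_le_right _ _)).trans_le
          (hm i ▸ hmono.monotone (Nat.succ_le_of_lt h')))
      · exact Or.inr ((hn.monotone h').trans (Nat.left_le_pair _ _))

theorem exists_space (hCH : (𝔠 : Cardinal.{0}) = ℵ₁) : ∃ Y : Set (Set ℕ), (∀ A ∈ Y, Sel A) ∧
    (∀ x, {x} ∈ Y) ∧
    (∀ g : ℕ → ℕ, ∃ A ∈ Y, ∃ᶠ n in atTop, Nat.pair n (min (g n) (n + 1)) ∈ A) ∧
    ∀ V : ℕ → ℕ → Set (Set ℕ), (∀ n k, Op (V n k)) →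
      (∀ n, ∀ F : Set (Set ℕ), F.Finite → F ⊆ Y → ∃ k, F ⊆ V n k) →
      ∃ k : ℕ → ℕ, ∀ A ∈ Y, ∀ᶠ j in atTop, A ∈ V j (k j) := by
  let ι : Type := Task
  have hι : #ι = ℵ₁ := by
    rw [← hCH, Cardinal.mk_congr taskEquiv]
    simp [Cardinal.mk_real]
  obtain ⟨_, _, hord⟩ := Cardinal.exists_ord_eq_type_lt ι
  have hc : ∀ i : ι, (Iio i).Countable := fun i => by
    rw [← countable_coe_iff, ← Cardinal.mk_le_aleph0_iff, ← Cardinal.lt_aleph_one_iff, ← hι]
    exact Cardinal.mk_Iio_lt i hord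
  obtain ⟨f, hG, hr, hQ⟩ := rec_chain (ι := ι) (β := Set ℕ × (ℕ → ℕ)) (fun b => b.1.Infinite)
    (fun a b => Sub a.1 b.1)
    (fun i S b => b.2 = i.h ∧ Rq (fun n k => dec (i.c n k)) S b.1) hc (∅, id)
    (fun _ => .of_forall fun _ => id)
    (fun i S hS h1 h2 => by
      obtain ⟨N, a1, a2⟩ := pseudo S hS h1 h2
      obtain ⟨N', b1, b2, b3⟩ := step (fun n k => dec (i.c n k)) (fun n k => dec_op _) S hS a1
      exact ⟨(N', i.h), b2, fun a ha => (a2 a ha).mono fun x hx h => hx (b1 h), rfl, b3⟩)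
  have hold : ∀ i, Old (f '' Iio i) ⊆ Old (range f) := fun i =>
    union_subset_union_left _ (image_mono (image_subset_range _ _))
  refine ⟨Old (range f), ?_, fun x => Or.inr ⟨finite_singleton x, fun n i j a1 a2 => ?_⟩,
    fun g => ?_, fun V hV hom => ?_⟩
  · rintro A (⟨b, -, rfl⟩ | hA)
    · exact pt_sel b
    · exact hA.2
  · have := (mem_singleton_iff.1 a1).trans (mem_singleton_iff.1 a2).symm
    exact (Nat.pair_eq_pair.1 this).2
  · refine ⟨pt (f ⟨fun _ _ => ∅, g, 0⟩), Or.inl ⟨_, ⟨_, rfl⟩, rfl⟩, ?_⟩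
    refine (Nat.frequently_atTop_iff_infinite.2 (hG ⟨fun _ _ => ∅, g, 0⟩)).mono fun n hn => ?_
    exact ⟨n, hn, by rw [(hQ _).1]⟩
  choose c hc' using fun n k => exists_dec (hV n k)
  have hq := (hQ ⟨c, fun _ => 0, 0⟩).2
  simp only [hc'] at hq
  obtain ⟨k, h1, h2⟩ := hq fun j F hF hs => hom j F hF (hs.trans (hold _))
  refine ⟨k, ?_⟩
  rintro A (⟨_, ⟨i, rfl⟩, rfl⟩ | hA)
  · rcases lt_trichotomy i ⟨c, fun _ => 0, 0⟩ with h | h | h
    · exact h1 _ (Or.inl ⟨_, ⟨i, h, rfl⟩, rfl⟩)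
    · exact h2 _ (h ▸ .of_forall fun _ => id)
    · exact h2 _ (hr _ _ h)
  · exact h1 _ (Or.inr hA)

theorem main (hCH : (𝔠 : Cardinal.{0}) = ℵ₁) :
    ∃ X : Set ℝ, S1 (Omega X) (Gamma X) ∧ ¬ S1Seq (NCover X) (Gamma X) := by
  classical
  obtain ⟨Y, y1, y2, y3, y4⟩ := exists_space hCH
  obtain ⟨X, φ, h⟩ := exists_real Y
  refine ⟨X, fun C hC => ?_, fun hS => ?_⟩
  · choose u hu1 hu2 using fun n => h.seq (hC n)
    let V : ℕ → ℕ → Set (Set ℕ) := fun n k =>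
      {A | ∃ m, ∀ x, (∀ i < m, (i ∈ φ x ↔ i ∈ A)) → x ∈ u n k}
    have hV : ∀ n k x, φ x ∈ V n k ↔ x ∈ u n k := fun n k x =>
      ⟨fun ⟨m, hm⟩ => hm x fun _ _ => Iff.rfl, fun hx => h.h1 _ ((hC n).1 _ (hu1 n k)) x hx⟩
    obtain ⟨k, hk⟩ := y4 V (by
        rintro n k A ⟨m, hm⟩
        exact ⟨m, fun B hB => ⟨m, fun x hx => hm x fun i hi => (hx i hi).trans (hB i hi)⟩⟩)
      (by
        intro n F hF hFY
        rw [← h.rng, ← image_univ] at hFY
        obtain ⟨G, -, hG, rfl⟩ := hF.exists_subset_finite_image_eq hFY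
        obtain ⟨k, hk⟩ := hu2 n G hG
        refine ⟨k, ?_⟩
        rintro _ ⟨x, hx, rfl⟩
        exact (hV n k x).2 (hk hx))
    refine ⟨fun j => u j (k j), fun j => hu1 _ _, Pool.Agent.H85.Tau2.range_gamma
      (fun j => (hC j).1 _ (hu1 _ _)) (fun j he => (hC j).2.1.2 (he ▸ hu1 _ _)) fun x => ?_⟩
    simpa only [hV] using hk _ (h.mem x)
  · let w : ℕ → Set X := fun a => {x | a ∉ φ x}
    have hw : Function.Injective w := by
      intro a b hab
      obtain ⟨x, hx⟩ := h.surj (y2 a)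
      have : x ∉ w b := hab ▸ fun h' => h' (hx ▸ mem_singleton a)
      have h2 : b ∈ φ x := not_not.1 this
      rw [hx] at h2
      exact h2.symm
    have hcov : ∀ n (F : Finset X), F.card ≤ n + 1 →
        ∃ i ≤ n + 1, ∀ x ∈ F, x ∈ w (Nat.pair n i) := by
      intro n F hF
      by_contra hc
      push Not at hc
      have hne : Nonempty X := by
        obtain ⟨x, -⟩ := h.surj (y2 0)
        exact ⟨x⟩
      choose! q hq1 hq2 using hc
      have := Finset.card_le_card_of_injOn (s := Finset.range (n + 2)) (t := F) q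
        (fun i hi => hq1 i (by have := Finset.mem_range.1 hi; omega)) (by
          intro i hi j hj hij
          have a1 := not_not.1 (hq2 i (by have := Finset.mem_range.1 hi; omega))
          have a2 := not_not.1 (hq2 j (by have := Finset.mem_range.1 hj; omega))
          rw [hij] at a1
          exact y1 _ (h.mem _) n i j a1 a2)
      rw [Finset.card_range] at this
      omega
    obtain ⟨U, h1, h2⟩ := hS (fun n => (fun i => w (Nat.pair n i)) '' Iic (n + 1)) (by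
      intro n
      refine ⟨?_, ⟨eq_univ_of_forall fun x => ?_, ?_⟩, fun F hF => ?_⟩
      · rintro _ ⟨i, -, rfl⟩
        exact (h.h2 _).compl.isOpen
      · obtain ⟨i, a1, a2⟩ := hcov n {x} (by simp)
        exact ⟨_, ⟨i, a1, rfl⟩, a2 x (Finset.mem_singleton_self x)⟩
      · rintro ⟨i, -, hi⟩
        obtain ⟨x, hx⟩ := h.surj (y2 (Nat.pair n i))
        exact (eq_univ_iff_forall.1 hi x) (hx ▸ mem_singleton _)
      · obtain ⟨i, a1, a2⟩ := hcov n F (by omega)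
        exact ⟨_, ⟨i, a1, rfl⟩, a2⟩)
    choose g hg1 hg2 using h1
    obtain ⟨A, hA, hf⟩ := y3 g
    obtain ⟨x, rfl⟩ := h.surj hA
    have hU : Function.Injective U := by
      intro a b hab
      rw [← hg2, ← hg2] at hab
      exact (Nat.pair_eq_pair.1 (hw hab)).1
    refine Nat.frequently_atTop_iff_infinite.1 hf
      (((h2.2.2.2 x).preimage hU.injOn).subset fun n hn => ⟨⟨n, rfl⟩, ?_⟩)
    rw [← hg2]
    have h3 : min (g n) (n + 1) = g n := min_eq_left (hg1 n)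
    have h4 : Nat.pair n (min (g n) (n + 1)) ∈ φ x := hn
    rw [h3] at h4
    exact fun h' => h' h4

end Pool.Agent.H83.Gm
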