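import Mathlib

set_option autoImplicit false

namespace Pool.Agent.H83.HMP

open Set Filter Topology TopologicalSpace

theorem exists_res_injOn {α : Type*} (F : Finset (ℕ → α)) :
    ∃ n, InjOn (fun x => PiNat.res x n) (F : Set (ℕ → α)) := by
  have : ∀ x y : ℕ → α, ∀ᶠ n in atTop, PiNat.res x n = PiNat.res y n → x = y := fun x y => by
    by_cases h : x = y
    · exact Eventually.of_forall fun _ _ => h
    · obtain ⟨i, hi⟩ := Function.ne_iff.1 h
      filter_upwards [eventually_gt_atTop i] with n hn e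
      exact (hi (PiNat.res_eq_res.1 e hn)).elim
  obtain ⟨n, hn⟩ := ((eventually_all_finset F).2 fun x _ =>
    (eventually_all_finset F).2 fun y _ => this x y).exists
  exact ⟨n, fun x hx y hy => hn x hx y hy⟩

theorem dense_of_agree {I : Type*} {α : I → Type*} [∀ i, TopologicalSpace (α i)]
    {D : Set (∀ i, α i)} (h : ∀ (x : ∀ i, α i) (F : Finset I), ∃ y ∈ D, ∀ i ∈ F, y i = x i) :
    Dense D := by
  refine dense_iff_inter_open.2 fun U hU ⟨x, hx⟩ => ?_
  obtain ⟨F, u, hu, hsub⟩ := isOpen_pi_iff.1 hU x hx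
  obtain ⟨y, hy, e⟩ := h x F
  exact ⟨y, hsub fun i hi => by rw [e i hi]; exact (hu i hi).2, hy⟩

/-- a power of a countable space by the continuum is separable -/
theorem exists_countable_agree (α : Type*) [Countable α] [Nonempty α] :
    ∃ D : Set ((ℕ → Bool) → α), D.Countable ∧
      ∀ (x : (ℕ → Bool) → α) (F : Finset (ℕ → Bool)), ∃ y ∈ D, ∀ i ∈ F, y i = x i := by
  classical
  letI : Zero α := ⟨Classical.arbitrary α⟩
  refine ⟨range fun p : ℕ × (List Bool →₀ α) => fun i => p.2 (PiNat.res i p.1), countable_range _,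
    fun x F => ?_⟩
  obtain ⟨n, hn⟩ := exists_res_injOn F
  let g : List Bool → α := fun l => if h : ∃ i ∈ F, PiNat.res i n = l then x h.choose else 0
  refine ⟨_, ⟨(n, Finsupp.onFinset (F.image fun i => PiNat.res i n) g fun l hl => ?_), rfl⟩,
    fun i hi => ?_⟩
  · by_contra h
    refine hl (dif_neg fun ⟨i, hi, e⟩ => h (Finset.mem_image.2 ⟨i, hi, e⟩))
  · have h : ∃ j ∈ F, PiNat.res j n = PiNat.res i n := ⟨i, hi, rfl⟩
    simp only [Finsupp.onFinset_apply, g, dif_pos h]
    rw [hn h.choose_spec.1 hi h.choose_spec.2]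

end Pool.Agent.H83.HMP
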