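import Pool.Agent.H83.Entang

set_option autoImplicit false

namespace Pool.Agent.H83.Heis

open Set Cardinal

/-- central extension of `V` by the group of order two along a bilinear cocycle -/
structure Hs {V : Type} [AddCommGroup V] [Module (ZMod 2) V]
    (B : V →ₗ[ZMod 2] V →ₗ[ZMod 2] ZMod 2) where
  x : V
  s : ZMod 2

variable {V : Type} [AddCommGroup V] [Module (ZMod 2) V] {B : V →ₗ[ZMod 2] V →ₗ[ZMod 2] ZMod 2}

theorem Hs.ext' {a b : Hs B} (h1 : a.x = b.x) (h2 : a.s = b.s) : a = b := by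
  cases a; cases b; simp_all

instance : Mul (Hs B) := ⟨fun a b => ⟨a.x + b.x, a.s + b.s + B a.x b.x⟩⟩
instance : One (Hs B) := ⟨⟨0, 0⟩⟩
instance : Inv (Hs B) := ⟨fun a => ⟨-a.x, -a.s + B a.x a.x⟩⟩

theorem mul_x (a b : Hs B) : (a * b).x = a.x + b.x := rfl
theorem mul_s (a b : Hs B) : (a * b).s = a.s + b.s + B a.x b.x := rfl
theorem inv_x (a : Hs B) : (a⁻¹).x = -a.x := rfl
theorem inv_s (a : Hs B) : (a⁻¹).s = -a.s + B a.x a.x := rfl
theorem one_x : (1 : Hs B).x = 0 := rfl
theorem one_s : (1 : Hs B).s = 0 := rfl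

instance : Group (Hs B) := Group.ofLeftAxioms
  (fun a b c => Hs.ext' (by simp only [mul_x, add_assoc]) (by
    simp only [mul_x, mul_s, map_add, LinearMap.add_apply]; ring))
  (fun a => Hs.ext' (by simp [mul_x, one_x]) (by simp [mul_s, one_x, one_s]))
  (fun a => Hs.ext' (by simp [mul_x, inv_x, one_x]) (by
    simp only [mul_s, inv_x, inv_s, one_s, map_neg, LinearMap.neg_apply]; ring))

theorem eq_z {H : Subgroup (Hs B)} (hz : (⟨0, 1⟩ : Hs B) ∉ H) {g : Hs B} (hg : g ∈ H)
    (hx : g.x = 0) : g.s = 0 := by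
  have : ∀ t : ZMod 2, t = 0 ∨ t = 1 := by decide
  rcases this g.s with h | h
  · exact h
  · exact absurd ((Hs.ext' hx h : g = ⟨0, 1⟩) ▸ hg) hz

theorem isotropic {H : Subgroup (Hs B)} (hz : (⟨0, 1⟩ : Hs B) ∉ H) {g h : Hs B} (hg : g ∈ H)
    (hh : h ∈ H) : B g.x h.x = B h.x g.x := by
  have := eq_z hz (H.mul_mem (H.mul_mem hg hh) (H.inv_mem (H.mul_mem hh hg))) (by
    simp only [mul_x, inv_x]; abel)
  simp only [mul_s, mul_x, inv_x, inv_s, map_neg, map_add, LinearMap.add_apply] at this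
  linear_combination this

theorem enum {I : Type} [LinearOrder I] (y : I →₀ ZMod 2) (hy : y ≠ 0) :
    ∃ (n : ℕ) (a : ℕ → I), (∀ i j, i < j → j < n + 1 → a i < a j) ∧
      (∀ i < n + 1, a i ∈ y.support) ∧
      y = ∑ i ∈ Finset.range (n + 1), Finsupp.single (a i) 1 := by
  classical
  have hne : y.support.Nonempty := Finsupp.support_nonempty_iff.2 hy
  obtain ⟨n, hn⟩ : ∃ n, y.support.card = n + 1 := ⟨y.support.card - 1, by
    have := hne.card_pos; omega⟩
  let e := y.support.orderEmbOfFin hn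
  refine ⟨n, fun i => if h : i < n + 1 then e ⟨i, h⟩ else e 0, fun i j hij hj => ?_,
    fun i hi => ?_, ?_⟩
  · simp only [dif_pos hj, dif_pos (hij.trans hj)]
    exact e.strictMono (by simpa using hij)
  · simp only [dif_pos hi]
    exact Finset.orderEmbOfFin_mem _ _ _
  · rw [← Fin.sum_univ_eq_sum_range (fun i => Finsupp.single
      (if h : i < n + 1 then e ⟨i, h⟩ else e 0) (1 : ZMod 2))]
    simp only [Fin.is_lt, dif_pos, Fin.eta]
    have h1 : ∑ i : Fin (n + 1), Finsupp.single (e i) (1 : ZMod 2) =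
        ∑ α ∈ y.support, Finsupp.single α (1 : ZMod 2) := by
      rw [← Finset.map_orderEmbOfFin_univ y.support hn, Finset.sum_map]
      rfl
    rw [h1]
    conv_lhs => rw [← Finsupp.sum_single y]
    refine Finset.sum_congr rfl fun α hα => ?_
    have : ∀ t : ZMod 2, t ≠ 0 → t = 1 := by decide
    rw [this _ (Finsupp.mem_support_iff.1 hα)]

theorem exists_group (κ : Cardinal.{0}) : ∃ (μ : Cardinal.{0}) (G : Type) (_ : Group G) (z : G),
    κ ≤ μ ∧ ℵ₀ ≤ μ ∧ #G = 2 ^ μ ∧ z ≠ 1 ∧ (∀ g, g * z = z * g) ∧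
    ∀ (R : Type) (H : R → Subgroup G), #R ≤ μ → (∀ r, z ∉ H r) →
      ∃ σ < 2 ^ μ, ∀ r, #(H r) ≤ σ := by
  classical
  obtain ⟨μ, I, _, hκ, hμ, hI, hIic, hbd, c, hc⟩ := Entang.colouring κ
  have h2 : ℵ₀ < 2 ^ μ := hμ.trans_lt (cantor μ)
  let B : (I →₀ ZMod 2) →ₗ[ZMod 2] (I →₀ ZMod 2) →ₗ[ZMod 2] ZMod 2 :=
    Finsupp.linearCombination (ZMod 2) fun α => Finsupp.linearCombination (ZMod 2) fun α' =>
      if α < α' then c α α' else 0
  have hB : ∀ (n : ℕ) (a b : ℕ → I), B (∑ i ∈ Finset.range n, Finsupp.single (a i) 1)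
      (∑ j ∈ Finset.range n, Finsupp.single (b j) 1) = ∑ i ∈ Finset.range n,
        ∑ j ∈ Finset.range n, if a i < b j then c (a i) (b j) else 0 := by
    intro n a b
    rw [map_sum B, LinearMap.sum_apply]
    refine Finset.sum_congr rfl fun i _ => ?_
    rw [map_sum]
    refine Finset.sum_congr rfl fun j _ => ?_
    simp [B]
  have hInf : Infinite I := by rw [infinite_iff, hI]; exact h2.le
  refine ⟨μ, Hs B, inferInstance, ⟨0, 1⟩, hκ, hμ, ?_, ?_, ?_, ?_⟩
  · have e : Hs B ≃ (I →₀ ZMod 2) × ZMod 2 :=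
      ⟨fun g => (g.x, g.s), fun p => ⟨p.1, p.2⟩, fun _ => rfl, fun _ => rfl⟩
    rw [mk_congr e, mk_prod, lift_id, lift_id, mk_finsupp_of_infinite, hI]
    have : #(ZMod 2) = 2 := by simp
    rw [this, max_eq_left (cantor μ |>.le |> fun _ => (by
      exact (natCast_lt_aleph0 (n := 2)).le.trans h2.le))]
    exact mul_eq_left h2.le ((natCast_lt_aleph0 (n := 2)).le.trans h2.le) two_ne_zero
  · intro h
    have := congrArg Hs.s h
    simp [one_s] at this
  · intro g
    exact Hs.ext' (by simp [mul_x]) (by simp only [mul_s, map_zero, LinearMap.zero_apply]; ring)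
  · have key : ∀ H : Subgroup (Hs B), (⟨0, 1⟩ : Hs B) ∉ H →
        ∃ α, ∀ g ∈ H, (∀ β ∈ g.x.support, α < β) → g.x = 0 := by
      intro H hz
      have h1 : ∀ n : ℕ, ∃ α, ∀ a : ℕ → I, (∀ i j, i < j → j < n + 1 → a i < a j) →
          (∃ g ∈ H, g.x = ∑ i ∈ Finset.range (n + 1), Finsupp.single (a i) 1) →
          ∃ i < n + 1, a i ≤ α := by
        intro n
        by_contra hcon
        push Not at hcon
        obtain ⟨a, ⟨-, g, hg, hga⟩, ha⟩ := hc (n + 1) {a | (∀ i j, i < j → j < n + 1 → a i < a j) ∧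
          ∃ g ∈ H, g.x = ∑ i ∈ Finset.range (n + 1), Finsupp.single (a i) 1} (fun a ha => ha.1)
          (fun α => by
            obtain ⟨a, h1, h2, h3⟩ := hcon α
            exact ⟨a, ⟨h1, h2⟩, h3⟩)
        have hS : ∀ ε : ℕ → ZMod 2, (∑ i ∈ Finset.range (n + 1), ∑ j ∈ Finset.range (n + 1),
            if i = j then 0 else c (a i) (a j)) + ∑ i ∈ Finset.range (n + 1), ε i = 0 := by
          intro ε
          obtain ⟨b, ⟨-, g', hg', hgb⟩, hb1, hb2, hb3⟩ := ha ε
          have h3 := isotropic hz hg' hg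
          rw [hga, hgb, hB, hB] at h3
          rw [Finset.sum_eq_zero (s := Finset.range (n + 1)) (f := fun i => ∑ j ∈ Finset.range
            (n + 1), if a i < b j then c (a i) (b j) else 0) (fun i hi => Finset.sum_eq_zero
              fun j hj => if_neg (hb1 j (Finset.mem_range.1 hj) i
                (Finset.mem_range.1 hi)).not_gt)] at h3
          refine Eq.trans ?_ h3
          rw [← Finset.sum_add_distrib]
          refine Finset.sum_congr rfl fun i hi => ?_
          have h4 : ε i = ∑ j ∈ Finset.range (n + 1), if i = j then ε i else 0 := by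
            rw [Finset.sum_ite_eq, if_pos hi]
          rw [h4, ← Finset.sum_add_distrib]
          refine Finset.sum_congr rfl fun j hj => ?_
          have hi' := Finset.mem_range.1 hi
          have hj' := Finset.mem_range.1 hj
          rw [if_pos (hb1 i hi' j hj')]
          by_cases hij : i = j
          · subst hij
            simp [hb2 i hi']
          · simp [hij, hb3 i hi' j hj' hij]
        have e0 := hS 0
        have e1 := hS (fun i => if 0 = i then 1 else 0)
        simp only [Pi.zero_apply, Finset.sum_const_zero, add_zero] at e0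
        rw [e0, Finset.sum_ite_eq, if_pos (by simp)] at e1
        simp at e1
      choose f hf using h1
      obtain ⟨α, hα⟩ := hbd (range f) (mk_range_le.trans (by simpa using hμ))
      refine ⟨α, fun g hg hs => ?_⟩
      by_contra hne
      obtain ⟨n, a, ha1, ha2, ha3⟩ := enum g.x hne
      obtain ⟨i, hi, hle⟩ := hf n a ha1 ⟨g, hg, ha3⟩
      exact absurd ((hs _ (ha2 i hi)).trans_le hle) (hα _ ⟨n, rfl⟩).not_gt
    intro R H hR hz
    choose f hf using fun r => key (H r) (hz r)
    obtain ⟨α, hα⟩ := hbd (range f) (mk_range_le.trans hR)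
    refine ⟨max ℵ₀ #(Iic α), max_lt h2 (hIic α), fun r => ?_⟩
    refine le_trans ?_ (mk_list_le_max _)
    refine le_trans (mk_le_of_injective (f := fun g : H r =>
      g.1.x.support.subtype (· ∈ Iic α)) ?_) (mk_le_of_injective
        (f := Finset.toList) fun s t h => by
          rw [← Finset.toList_toFinset s, h, Finset.toList_toFinset])
    intro g g' hgg
    have hm := (H r).mul_mem g.2 ((H r).inv_mem g'.2)
    have hx := hf r _ hm (by
      intro β hβ
      refine (hα _ ⟨r, rfl⟩).trans (not_le.1 fun hle => ?_)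
      have h5 := Finset.ext_iff.1 hgg ⟨β, hle⟩
      simp only [Finset.mem_subtype, Finsupp.mem_support_iff] at h5
      rw [Finsupp.mem_support_iff, mul_x, inv_x, Finsupp.add_apply, Finsupp.neg_apply] at hβ
      have : ∀ s t : ZMod 2, (s ≠ 0 ↔ t ≠ 0) → s + -t = 0 := by decide
      exact hβ (this _ _ h5))
    have hs := eq_z (hz r) hm hx
    exact Subtype.ext (mul_inv_eq_one.1 (Hs.ext' hx hs))

end Pool.Agent.H83.Heis
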