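import Mathlib

/-! An iterated Psi-like space over a tree with continuum branching. -/

namespace Pool.Agent.H83.Hg

open Filter Topology

def seg {α : Type} (c : ℕ → α) : ℕ → List α
  | 0 => []
  | n + 1 => c n :: seg c n

@[simp] theorem seg_length {α : Type} (c : ℕ → α) (n : ℕ) : (seg c n).length = n := by
  induction n with
  | zero => rfl
  | succ n ih => simp [seg, ih]

theorem seg_mono {α : Type} (c : ℕ → α) {n m : ℕ} (h : n ≤ m) : seg c n <:+ seg c m := by
  induction h with
  | refl => exact List.suffix_refl _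
  | step _ ih => exact ih.trans (List.suffix_cons _ _)

theorem suf_eq {α : Type} {u v w : List α} (h1 : u <:+ w) (h2 : v <:+ w)
    (h : u.length = v.length) : u = v :=
  (List.suffix_of_suffix_length_le h1 h2 h.le).eq_of_length h

theorem seg_of_suffix {α : Type} (c : ℕ → α) {u : List α} {k : ℕ} (h : u <:+ seg c k) :
    seg c u.length = u :=
  suf_eq (seg_mono c (by simpa using h.length_le)) h (by simp)

theorem mem_seg {α : Type} (c : ℕ → α) {k n : ℕ} (h : k < n) : c k ∈ seg c n :=
  (seg_mono c h).subset List.mem_cons_self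

theorem exists_branch {α : Type} (p : List α → Prop) (h0 : p [])
    (hs : ∀ t, p t → ∃ x, p (x :: t)) : ∃ b : ℕ → α, ∀ n, p (seg b n) := by
  choose nx hnx using hs
  let s : ℕ → {t // p t} := fun n => Nat.rec ⟨[], h0⟩ (fun _ t => ⟨nx t.1 t.2 :: t.1, hnx _ _⟩) n
  refine ⟨fun n => nx (s n).1 (s n).2, fun n => ?_⟩
  have : ∀ n, seg (fun n => nx (s n).1 (s n).2) n = (s n).1 := by
    intro n
    induction n with
    | zero => rfl
    | succ n ih => simp only [seg, ih]; rfl
  rw [this]; exact (s n).2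

theorem suf_step {α : Type} {t s : List α} (h : t <:+ s) (hne : t ≠ s) : ∃ x, x :: t <:+ s := by
  obtain ⟨u, rfl⟩ := h
  rcases List.eq_nil_or_concat u with rfl | ⟨v, x, rfl⟩
  · simp at hne
  · exact ⟨x, v, by simp⟩

theorem exists_branch' {α : Type} (p : List α → Prop) (s : List α) (h0 : p s)
    (hs : ∀ t, p t → ∃ x, p (x :: t)) : ∃ b : ℕ → α, ∀ n, s.length < n → p (seg b n) := by
  obtain ⟨b, hb⟩ := exists_branch (fun t => t <:+ s ∨ p t) (Or.inl List.nil_suffix) fun t ht => by
    rcases ht with ht | ht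
    · by_cases e : t = s
      · subst e
        exact (hs t h0).imp fun x hx => Or.inr hx
      · exact (suf_step ht e).imp fun x hx => Or.inl hx
    · exact (hs t ht).imp fun x hx => Or.inr hx
  refine ⟨b, fun n hn => (hb n).resolve_left fun h => ?_⟩
  have := h.length_le
  simp at this; omega

theorem exists_limit {α : Type} (σ : ℕ → List α) (h : ∀ n, σ n <:+ σ (n + 1))
    (hl : ∀ n, (σ n).length < (σ (n + 1)).length) : ∃ c : ℕ → α, ∀ n, seg c (σ n).length = σ n := by
  have hm : ∀ {n m}, n ≤ m → σ n <:+ σ m := fun {n m} hnm => by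
    induction hnm with
    | refl => exact List.suffix_refl _
    | step _ ih => exact ih.trans (h _)
  obtain ⟨b, hb⟩ := exists_branch (fun t => ∃ n, t <:+ σ n) ⟨0, List.nil_suffix⟩ fun t ⟨n, ht⟩ => by
    obtain ⟨x, hx⟩ := suf_step (ht.trans (h n)) fun e => by
      have := ht.length_le
      have := hl n
      rw [← e] at this; omega
    exact ⟨x, n + 1, hx⟩
  refine ⟨b, fun n => ?_⟩
  obtain ⟨m, hm'⟩ := hb (σ n).length
  exact suf_eq (hm'.trans (hm (le_max_left m n))) (hm (le_max_right m n)) (by simp)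

/-- The filter of sets containing a dense open set of nodes. -/
def GF : Filter (List ℕ) where
  sets := {Z | ∀ σ, ∃ τ, σ <:+ τ ∧ ∀ υ, τ <:+ υ → υ ∈ Z}
  univ_sets := fun σ => ⟨σ, List.suffix_refl _, fun _ _ => trivial⟩
  sets_of_superset := fun h hs σ => (h σ).imp fun _ h => ⟨h.1, fun υ hυ => hs (h.2 υ hυ)⟩
  inter_sets := fun h1 h2 σ => by
    obtain ⟨τ, a1, a2⟩ := h1 σ
    obtain ⟨τ', b1, b2⟩ := h2 τ
    exact ⟨τ', a1.trans b1, fun υ hυ => ⟨a2 υ (b1.trans hυ), b2 υ hυ⟩⟩

theorem freq_iff (p : List ℕ → Prop) :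
    (∃ᶠ τ in GF, p τ) ↔ ∃ σ, ∀ τ, σ <:+ τ → ∃ υ, τ <:+ υ ∧ p υ := by
  change (¬ ∀ σ, ∃ τ, σ <:+ τ ∧ ∀ υ, τ <:+ υ → ¬ p υ) ↔ _
  push Not
  rfl

instance : GF.NeBot := by
  rw [← Filter.frequently_true_iff_neBot, freq_iff]
  exact ⟨[], fun τ _ => ⟨τ, List.suffix_refl _, trivial⟩⟩

def C : Type := {c : ℕ → ℕ // ∀ m l, ∃ k, l < k ∧ c k = m} × Bool

noncomputable def jk (c : C) (τ : List ℕ) : ℕ :=
  Nat.find (c.1.2 (Encodable.encode (τ, c.2)) τ.length)

theorem jk_spec (c : C) (τ : List ℕ) :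
    τ.length < jk c τ ∧ c.1.1 (jk c τ) = Encodable.encode (τ, c.2) :=
  Nat.find_spec (c.1.2 (Encodable.encode (τ, c.2)) τ.length)

noncomputable def j (c : C) (τ : List ℕ) : List ℕ := seg c.1.1 (jk c τ)

theorem j_len (c : C) (τ : List ℕ) : τ.length < (j c τ).length := by
  simpa [j] using (jk_spec c τ).1

theorem j_inj (c : C) : Function.Injective (j c) := by
  intro τ τ' h
  have e : jk c τ = jk c τ' := by simpa [j] using congrArg List.length h
  have h1 := (jk_spec c τ).2
  rw [e, (jk_spec c τ').2] at h1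
  exact (Prod.ext_iff.1 (Encodable.encode_injective h1)).1.symm

theorem j_ad {c c' : C} (h : c ≠ c') : ∃ B, ∀ τ τ', j c τ = j c' τ' → jk c τ ≤ B := by
  by_cases e : c.1 = c'.1
  · refine ⟨0, fun τ τ' H => absurd (Prod.ext e ?_) h⟩
    have e' : jk c τ = jk c' τ' := by simpa [j] using congrArg List.length H
    have h1 := (jk_spec c τ).2
    rw [e', e, (jk_spec c' τ').2] at h1
    exact (Prod.ext_iff.1 (Encodable.encode_injective h1)).2.symm
  · obtain ⟨i, hi⟩ : ∃ i, c.1.1 i ≠ c'.1.1 i := by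
      by_contra H
      push Not at H
      exact e (Subtype.ext (funext H))
    refine ⟨i, fun τ τ' H => ?_⟩
    by_contra hlt
    have h1 : seg c.1.1 (i + 1) <:+ j c τ := seg_mono c.1.1 (by omega : i + 1 ≤ jk c τ)
    rw [H] at h1
    have h2 := seg_of_suffix _ h1
    simp only [seg_length, seg, List.length_cons, List.cons.injEq] at h2
    exact hi h2.1.symm

theorem generic (p : List ℕ → Prop) (hp : ∃ᶠ τ in GF, p τ) (β : Bool) :
    ∃ c : C, c.2 = β ∧ ∃ᶠ τ in GF, p (j c τ) := by
  obtain ⟨σ0, h0⟩ := (freq_iff p).1 hp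
  choose! ex hex using h0
  have hx : ∀ (τ l : List ℕ), ∃ x : ℕ, Encodable.encode (x :: τ, β) ∉ l := by
    intro τ l
    by_contra H
    push Not at H
    have hinj : Function.Injective fun x : ℕ => Encodable.encode (x :: τ, β) := fun x y e => by
      simpa using Encodable.encode_injective e
    exact Set.infinite_of_injective_forall_mem (s := {y | y ∈ l}) hinj H (List.finite_toSet l)
  choose nw hnw using hx
  let tg : ℕ → List ℕ := fun n => Denumerable.ofNat (List ℕ) n.unpair.1
  let pad : ℕ → List ℕ → List ℕ := fun n t =>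
    List.replicate ((tg n).length + 1) 0 ++ n.unpair.1 :: t
  let σ : ℕ → List ℕ := fun n => Nat.rec σ0 (fun n t =>
    Encodable.encode (nw (tg n) (ex (pad n t)) :: tg n, β) :: ex (pad n t)) n
  have hσ : ∀ n, σ (n + 1) =
      Encodable.encode (nw (tg n) (ex (pad n (σ n))) :: tg n, β) :: ex (pad n (σ n)) := fun _ => rfl
  have h1 : ∀ n t, n.unpair.1 :: t <:+ pad n t := fun n t => List.suffix_append _ _
  have h2 : ∀ n, σ0 <:+ σ n := by
    intro n
    induction n with
    | zero => exact List.suffix_refl _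
    | succ n ih =>
      have a := (ih.trans (List.suffix_cons _ _)).trans (h1 n _)
      exact (a.trans (hex _ a).1).trans (List.suffix_cons _ _)
  have h3 : ∀ n, σ0 <:+ pad n (σ n) := fun n => ((h2 n).trans (List.suffix_cons _ _)).trans (h1 n _)
  have h4 : ∀ n, n.unpair.1 :: σ n <:+ σ (n + 1) := fun n =>
    ((h1 n _).trans (hex _ (h3 n)).1).trans (List.suffix_cons _ _)
  have h5 : ∀ n, (σ n).length < (σ (n + 1)).length := fun n => (h4 n).length_le
  obtain ⟨c, hc⟩ := exists_limit σ (fun n => (List.suffix_cons _ _).trans (h4 n)) h5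
  have h6 : ∀ n, n ≤ (σ n).length := by
    intro n
    induction n with
    | zero => omega
    | succ n ih => have := h5 n; omega
  have hv : ∀ m l, ∃ k, l < k ∧ c k = m := by
    intro m l
    refine ⟨(σ (Nat.pair m (l + 1))).length, (Nat.right_le_pair m (l + 1)).trans (h6 _), ?_⟩
    have h7 := h4 (Nat.pair m (l + 1))
    rw [← hc (Nat.pair m (l + 1) + 1)] at h7
    have := seg_of_suffix c h7
    simp only [List.length_cons, seg, List.cons.injEq, Nat.unpair_pair] at this
    exact this.1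
  refine ⟨(⟨c, hv⟩, β), rfl, (freq_iff _).2 ⟨[], fun τ _ => ?_⟩⟩
  set n := Nat.pair (Encodable.encode τ) 0 with hn
  have ht : tg n = τ := by simp [tg, hn]
  set t := ex (pad n (σ n)) with htt
  refine ⟨nw τ t :: τ, List.suffix_cons _ _, ?_⟩
  have e := hc (n + 1)
  rw [hσ, ht, ← htt] at e
  simp only [List.length_cons, seg, List.cons.injEq] at e
  have hl : τ.length + 1 < t.length := by
    have : (pad n (σ n)).length ≤ t.length := (hex _ (h3 n)).1.length_le
    have h8 : (pad n (σ n)).length = τ.length + 1 + ((σ n).length + 1) := by simp [pad, ht]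
    omega
  have hk : jk (⟨c, hv⟩, β) (nw τ t :: τ) = t.length := by
    refine (Nat.find_eq_iff _).2 ⟨⟨hl, e.1⟩, fun k hk h => hnw τ t ?_⟩
    have := mem_seg c hk
    rw [e.2] at this
    exact h.2 ▸ this
  have : j (⟨c, hv⟩, β) (nw τ t :: τ) = t := by rw [j, hk]; exact e.2
  rw [this]
  exact (hex _ (h3 n)).2

end Pool.Agent.H83.Hg
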