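import Pool.Agent.H83.Hg1

namespace Pool.Agent.H83.Hg

open Filter Topology Sum

abbrev I : Type := (List C ⊕ Bool) × List ℕ
abbrev X : Type := I ⊕ (ℕ → C)

def D (s : List C) (τ : List ℕ) : I := (inl s, τ)

noncomputable def LU : List C → Bool → List ℕ → I
  | [], β, τ => (inr β, τ)
  | c :: s, β, τ => if c.2 = β then LU s β (j c τ) else D s (j c τ)

def Deep (s : List C) : X → Prop
  | inl (inl t, _) => s <:+ t
  | inl (inr _, _) => False
  | inr b => seg b s.length = s

def R (s : List C) : Set X := {x | (∃ β υ, x = inl (LU s β υ)) ∨ Deep s x}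

def Epos (s : List C) (x : X) (υ : List ℕ) : Prop := (∃ β, x = inl (LU s β υ)) ∨ x = inl (D s υ)

def tlen : List C ⊕ Bool → ℕ
  | inl t => t.length + 1
  | inr _ => 0

theorem tlen_LU (s : List C) (β : Bool) (τ : List ℕ) : tlen (LU s β τ).1 ≤ s.length := by
  induction s generalizing τ with
  | nil => simp [LU, tlen]
  | cons c s ih =>
    simp only [LU]
    split_ifs
    · exact (ih _).trans (by simp)
    · simp [D, tlen]

theorem LU_ne_D (s : List C) (β : Bool) (τ τ' : List ℕ) : LU s β τ ≠ D s τ' := fun h => by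
  have := tlen_LU s β τ
  rw [h] at this
  simp [D, tlen] at this

theorem LU_inj (s : List C) (β β' : Bool) (τ τ' : List ℕ) (h : LU s β τ = LU s β' τ') :
    β = β' ∧ τ = τ' := by
  induction s generalizing τ τ' with
  | nil => simpa [LU] using h
  | cons c s ih =>
    simp only [LU] at h
    split_ifs at h with h1 h2 h2
    · exact ⟨h1.symm.trans h2, j_inj c (ih _ _ h).2⟩
    · exact absurd h (LU_ne_D _ _ _ _)
    · exact absurd h.symm (LU_ne_D _ _ _ _)
    · refine ⟨by revert h1 h2; cases c.2 <;> cases β <;> cases β' <;> simp, j_inj c ?_⟩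
      simpa [D] using h

theorem Epos.uniq {s : List C} {x : X} {υ υ' : List ℕ} (h : Epos s x υ) (h' : Epos s x υ') :
    υ = υ' := by
  rcases h with ⟨β, rfl⟩ | rfl <;> rcases h' with ⟨β', h'⟩ | h'
  · exact (LU_inj _ _ _ _ _ (inl.inj h')).2
  · exact absurd (inl.inj h') (LU_ne_D _ _ _ _)
  · exact absurd (inl.inj h').symm (LU_ne_D _ _ _ _)
  · simpa [D] using h'

theorem Deep.not_epos {s : List C} {c : C} {x : X} (h : Deep (c :: s) x) (υ : List ℕ) :
    ¬ Epos s x υ := by
  rintro (⟨β, rfl⟩ | rfl)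
  · have := tlen_LU s β υ
    generalize LU s β υ = z at h this
    obtain ⟨t | t, τ⟩ := z
    · have := List.IsSuffix.length_le h
      simp [tlen] at *; omega
    · exact h
  · have := List.IsSuffix.length_le h
    simp at this

theorem Deep.uniq {s : List C} {c c' : C} {x : X} (h : Deep (c :: s) x) (h' : Deep (c' :: s) x) :
    c = c' := by
  obtain ⟨t | t, τ⟩ | b := x
  · simpa using suf_eq h h' rfl
  · exact h.elim
  · have : c :: s = c' :: s := Eq.trans (Eq.symm h) h'
    simpa using this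

theorem Deep.up {s : List C} {c : C} {x : X} (h : Deep (c :: s) x) : Deep s x := by
  obtain ⟨t | t, τ⟩ | b := x
  · exact (List.suffix_cons _ _).trans h
  · exact h.elim
  · have : seg b (s.length + 1) = c :: s := h
    simp only [seg, List.cons.injEq] at this
    exact this.2

theorem R_cons {s : List C} {c : C} {x : X} (h : x ∈ R (c :: s)) :
    (∃ τ, Epos s x (j c τ)) ∨ Deep (c :: s) x := by
  rcases h with ⟨β, υ, rfl⟩ | h
  · refine Or.inl ⟨υ, ?_⟩
    simp only [LU]
    split_ifs
    · exact Or.inl ⟨β, rfl⟩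
    · exact Or.inr rfl
  · exact Or.inr h

theorem Epos.mem {s : List C} {x : X} {υ : List ℕ} (h : Epos s x υ) : x ∈ R s := by
  rcases h with ⟨β, rfl⟩ | rfl
  · exact Or.inl ⟨β, υ, rfl⟩
  · exact Or.inr (List.suffix_refl _)

theorem R_sub (s : List C) (c : C) : R (c :: s) ⊆ R s := fun x h => by
  rcases R_cons h with ⟨τ, h⟩ | h
  · exact h.mem
  · exact Or.inr h.up

theorem R_cases {s : List C} {x : X} (h : x ∈ R s) : (∃ υ, Epos s x υ) ∨ ∃ c, Deep (c :: s) x := by
  rcases h with ⟨β, υ, rfl⟩ | h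
  · exact Or.inl ⟨υ, Or.inl ⟨β, rfl⟩⟩
  · obtain ⟨t | t, τ⟩ | b := x
    · by_cases e : s = t
      · subst e; exact Or.inl ⟨τ, Or.inr rfl⟩
      · exact Or.inr (suf_step h e)
    · exact h.elim
    · refine Or.inr ⟨b s.length, ?_⟩
      change seg b (s.length + 1) = _
      have : seg b s.length = s := h
      simp only [seg, this]

theorem R_nil (x : X) : x ∈ R [] := by
  obtain ⟨t | t, τ⟩ | b := x
  · exact Or.inr List.nil_suffix
  · exact Or.inl ⟨t, τ, rfl⟩
  · exact Or.inr rfl

theorem R_anti (b : ℕ → C) {n m : ℕ} (h : n ≤ m) : R (seg b m) ⊆ R (seg b n) := by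
  induction h with
  | refl => exact le_rfl
  | step _ ih => exact (R_sub _ _).trans ih

theorem mem_R (b : ℕ → C) (n : ℕ) : inr b ∈ R (seg b n) := Or.inr (by simp [Deep])

def wt (z : I) : ℕ := z.2.length + tlen z.1

theorem wt_LU (s : List C) (β : Bool) (τ : List ℕ) : τ.length + s.length ≤ wt (LU s β τ) := by
  induction s generalizing τ with
  | nil => simp [LU, wt]
  | cons c s ih =>
    simp only [LU]
    have := j_len c τ
    split_ifs
    · have := ih (j c τ)
      simp; omega
    · simp [D, wt, tlen]; omega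

theorem wt_R {s : List C} {z : I} (h : inl z ∈ R s) : s.length ≤ wt z := by
  rcases h with ⟨β, υ, h⟩ | h
  · rw [inl.inj h]
    have := wt_LU s β υ
    omega
  · obtain ⟨t | t, τ⟩ := z
    · have := List.IsSuffix.length_le h
      simp [wt, tlen]; omega
    · exact h.elim

def F (b : ℕ → C) : Filter X where
  sets := {Z | ∃ n, R (seg b n) ⊆ Z}
  univ_sets := ⟨0, Set.subset_univ _⟩
  sets_of_superset := fun ⟨n, h⟩ hs => ⟨n, h.trans hs⟩
  inter_sets := fun ⟨n, h⟩ ⟨m, h'⟩ => ⟨max n m, Set.subset_inter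
    ((R_anti b (le_max_left _ _)).trans h) ((R_anti b (le_max_right _ _)).trans h')⟩

theorem ev_F {b : ℕ → C} {p : X → Prop} : (∀ᶠ x in F b, p x) ↔ ∃ n, ∀ x ∈ R (seg b n), p x :=
  Iff.rfl

theorem F_self {b : ℕ → C} {p : X → Prop} (h : ∀ᶠ x in F b, p x) : p (inr b) := by
  obtain ⟨n, hn⟩ := ev_F.1 h
  exact hn _ (mem_R b n)

theorem F_ne (b : ℕ → C) (z : I) : ∀ᶠ x in F b, x ≠ inl z :=
  ev_F.2 ⟨wt z + 1, fun x hx e => by
    subst e
    have := wt_R hx
    simp at this⟩

theorem F_epos (b : ℕ → C) (s : List C) (υ : List ℕ) : ∀ᶠ x in F b, ¬ Epos s x υ := by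
  filter_upwards [F_ne b (LU s true υ), F_ne b (LU s false υ), F_ne b (D s υ)] with x h1 h2 h3
  rintro (⟨β, h⟩ | h)
  · cases β
    · exact h2 h
    · exact h1 h
  · exact h3 h

theorem F_short (b : ℕ → C) (s : List C) (c : ℕ → ℕ) (B : ℕ) :
    ∀ᶠ x in F b, ∀ k ≤ B, ¬ Epos s x (seg c k) :=
  (eventually_all_finite (Set.finite_Iic B)).2 fun k _ => F_epos b s _

def Clop (W : Set X) : Prop := ∀ b, ∀ᶠ x in F b, (x ∈ W ↔ inr b ∈ W)

theorem clop_of (s : List C) (hs : Clop (R s)) (T : Set X) (hT : T ⊆ R s) (q : C → Prop)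
    (h : ∀ c, ∃ B, ∀ x ∈ R (c :: s), (∀ k ≤ B, ¬ Epos s x (seg c.1.1 k)) → (x ∈ T ↔ q c)) :
    Clop T := by
  intro b
  by_cases hb : inr b ∈ R s
  · have e : seg b s.length = s := by
      rcases hb with ⟨β, υ, h⟩ | h
      · cases h
      · exact h
    obtain ⟨B, hB⟩ := h (b s.length)
    have h1 : ∀ᶠ x in F b, x ∈ R (b s.length :: s) :=
      ev_F.2 ⟨s.length + 1, fun x hx => by simpa only [seg, e] using hx⟩
    have h2 := (h1.and (F_short b s (b s.length).1.1 B)).mono fun x hx => hB x hx.1 hx.2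
    have h3 := F_self h2
    exact h2.mono fun x hx => hx.trans h3.symm
  · exact (hs b).mono fun x hx => ⟨fun h => absurd (hx.1 (hT h)) hb, fun h => absurd (hT h) hb⟩

theorem clop_R (s : List C) : Clop (R s) := by
  induction s with
  | nil => exact fun b => .of_forall fun x => by simp [R_nil]
  | cons c0 s ih =>
    refine clop_of s ih _ (R_sub s c0) (fun c => c = c0) fun c => ?_
    by_cases e : c = c0
    · subst e; exact ⟨0, fun x hx _ => by simp [hx]⟩
    · obtain ⟨B, hB⟩ := j_ad e
      refine ⟨B, fun x hx hk => ⟨fun h => ?_, fun h => absurd h e⟩⟩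
      rcases R_cons hx with ⟨τ, h1⟩ | h1 <;> rcases R_cons h with ⟨τ', h2⟩ | h2
      · exact absurd h1 (hk _ (hB τ τ' (h1.uniq h2)))
      · exact absurd h1 (h2.not_epos _)
      · exact absurd h2 (h1.not_epos _)
      · exact h1.uniq h2

def Pat (s : List C) (σ : List ℕ) : Set X :=
  {x | (∃ υ, Epos s x υ ∧ σ <:+ υ) ∨ ∃ c, Deep (c :: s) x ∧ seg c.1.1 σ.length = σ}

theorem pat_deep {s : List C} {c : C} {x : X} (h : Deep (c :: s) x) (σ : List ℕ) :
    x ∈ Pat s σ ↔ seg c.1.1 σ.length = σ := by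
  refine ⟨?_, fun e => Or.inr ⟨c, h, e⟩⟩
  rintro (⟨υ, h1, -⟩ | ⟨c', h1, h2⟩)
  · exact absurd h1 (h.not_epos _)
  · rwa [h.uniq h1]

theorem clop_pat (s : List C) (σ : List ℕ) : Clop (Pat s σ) := by
  refine clop_of s (clop_R s) _ ?_ (fun c => seg c.1.1 σ.length = σ) fun c => ⟨σ.length, ?_⟩
  · rintro x (⟨υ, h, -⟩ | ⟨c, h, -⟩)
    · exact h.mem
    · exact Or.inr h.up
  · intro x hx hk
    rcases R_cons hx with ⟨τ, h1⟩ | h1
    · have hl : σ.length ≤ jk c τ := by
        by_contra H
        exact hk _ (by omega) h1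
      constructor
      · rintro (⟨υ, h2, h3⟩ | ⟨c', h2, -⟩)
        · rw [h2.uniq h1] at h3
          exact seg_of_suffix _ h3
        · exact absurd h1 (h2.not_epos _)
      · intro e
        refine Or.inl ⟨_, h1, ?_⟩
        rw [← e]
        exact seg_mono _ hl
    · exact pat_deep h1 σ

theorem clop_single (z : I) : Clop {inl z} := fun b => (F_ne b z).mono fun x hx => by simp [hx]

theorem Clop.compl {W : Set X} (h : Clop W) : Clop Wᶜ := fun b => (h b).mono fun _ hx => hx.not

/-! The level function. -/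

noncomputable def wid (s : List C) : ℝ := (1 / 2) ^ s.length

noncomputable def lo : List C → ℝ
  | [] => 0
  | c :: s => if c.2 = false then lo s else lo s + wid s / 2

noncomputable def lev : X → ℝ
  | inl (inl t, _) => lo t + wid t / 2
  | inl (inr β, _) => if β = false then 0 else 1
  | inr b => ⨆ n, lo (seg b n)

theorem wid_pos (s : List C) : 0 < wid s := by unfold wid; positivity

theorem wid_cons (c : C) (s : List C) : wid (c :: s) = wid s / 2 := by
  simp [wid, pow_succ]; ring

theorem lev_LU (s : List C) (β : Bool) (τ : List ℕ) :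
    lev (inl (LU s β τ)) = if β = false then lo s else lo s + wid s := by
  induction s generalizing τ with
  | nil => cases β <;> simp [LU, lev, lo, wid]
  | cons c s ih =>
    simp only [LU]
    by_cases h : c.2 = β
    · rw [if_pos h, ih, lo, h, wid_cons]
      cases β <;> simp; ring
    · rw [if_neg h, lo, wid_cons]
      revert h
      cases β <;> cases c.2 <;> simp [D, lev]

theorem lo_suf {s t : List C} (h : s <:+ t) : lo s ≤ lo t ∧ lo t + wid t ≤ lo s + wid s := by
  obtain ⟨u, rfl⟩ := h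
  induction u with
  | nil => simp
  | cons c u ih =>
    rw [List.cons_append, lo, wid_cons]
    have := wid_pos (u ++ s)
    split_ifs <;> constructor <;> linarith [ih.1, ih.2]

theorem lev_R {s : List C} {x : X} (h : x ∈ R s) : lo s ≤ lev x ∧ lev x ≤ lo s + wid s := by
  have hw := wid_pos s
  rcases h with ⟨β, υ, rfl⟩ | h
  · rw [lev_LU]; split_ifs <;> constructor <;> linarith
  · obtain ⟨t | t, τ⟩ | b := x
    · have := lo_suf h
      have := wid_pos t
      simp only [lev]
      constructor <;> linarith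
    · exact h.elim
    · have e : seg b s.length = s := h
      have hb : ∀ n, lo (seg b n) ≤ lo s + wid s := fun n => by
        rcases le_total n s.length with hn | hn
        · have := (lo_suf (seg_mono b hn)).1
          rw [e] at this; linarith
        · have := (lo_suf (seg_mono b hn)).2
          have := wid_pos (seg b n)
          rw [e] at *; linarith
      refine ⟨?_, ciSup_le hb⟩
      conv_lhs => rw [← e]
      exact le_ciSup (f := fun n => lo (seg b n)) ⟨_, Set.forall_mem_range.2 hb⟩ _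

theorem lev_cont (b : ℕ → C) : Tendsto lev (F b) (𝓝 (lev (inr b))) := by
  rw [Metric.tendsto_nhds]
  intro ε hε
  obtain ⟨n, hn⟩ := exists_pow_lt_of_lt_one hε (by norm_num : (1 / 2 : ℝ) < 1)
  refine ev_F.2 ⟨n, fun x hx => ?_⟩
  have h1 := lev_R hx
  have h2 := lev_R (mem_R b n)
  have : wid (seg b n) < ε := by simpa [wid] using hn
  rw [Real.dist_eq, abs_lt]
  constructor <;> linarith

end Pool.Agent.H83.Hg
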