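import Pool.Agent.H83.Hg2

namespace Pool.Agent.H83.Hg

open Filter Topology Sum

def Glued (s : List C) (g : X → ℝ) : Prop :=
  ∀ ε > 0, ∀ᶠ τ in GF, dist (g (inl (LU s false τ))) (g (inl (LU s true τ))) < ε

def Mem (g : X → ℝ) : Prop := (∀ b, Tendsto g (F b) (𝓝 (g (inr b)))) ∧ ∀ s, Glued s g

theorem glue_step (g : X → ℝ) (s : List C) (h : ¬ Glued s g) : ∃ c, ¬ Glued (c :: s) g := by
  unfold Glued at h ⊢
  push Not at h ⊢
  obtain ⟨ε, hε, h⟩ := h
  have h' : ∃ᶠ τ in GF, ε / 2 ≤ dist (g (inl (LU s false τ))) (g (inl (D s τ))) ∨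
      ε / 2 ≤ dist (g (inl (D s τ))) (g (inl (LU s true τ))) := h.mono fun τ hτ => by
    by_contra H
    push Not at H
    have := dist_triangle (g (inl (LU s false τ))) (g (inl (D s τ))) (g (inl (LU s true τ)))
    linarith [H.1, H.2]
  rcases frequently_or_distrib.1 h' with h' | h'
  · obtain ⟨c, hc, h2⟩ := generic _ h' false
    exact ⟨c, ε / 2, by positivity, by simpa [LU, hc] using h2⟩
  · obtain ⟨c, hc, h2⟩ := generic _ h' true
    exact ⟨c, ε / 2, by positivity, by simpa [LU, hc] using h2⟩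

theorem glue_all (g : X → ℝ) (h : ∀ b, ∃ n, ∀ m, n ≤ m → Glued (seg b m) g) (s : List C) :
    Glued s g := by
  by_contra H
  obtain ⟨b, hb⟩ := exists_branch' (fun t => ¬ Glued t g) s H (glue_step g)
  obtain ⟨n, hn⟩ := h b
  exact hb (n + s.length + 1) (by omega) (hn _ (by omega))

theorem mem_const (r : ℝ) : Mem fun _ => r :=
  ⟨fun _ => tendsto_const_nhds, fun _ ε hε => .of_forall fun _ => by simpa using hε⟩

theorem mem_loc (g : X → ℝ) (h : ∀ b, ∃ (g₁ g₂ : X → ℝ) (Φ : ℝ × ℝ → ℝ) (K : Set (ℝ × ℝ)),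
    Mem g₁ ∧ Mem g₂ ∧ K ∈ 𝓝 (g₁ (inr b), g₂ (inr b)) ∧ ContinuousOn Φ K ∧
      ∀ᶠ x in F b, g x = Φ (g₁ x, g₂ x)) : Mem g := by
  refine ⟨fun b => ?_, glue_all g fun b => ?_⟩
  · obtain ⟨g₁, g₂, Φ, K, h1, h2, h3, h4, h5⟩ := h b
    rw [F_self h5]
    exact ((h4.continuousAt h3).tendsto.comp ((h1.1 b).prodMk_nhds (h2.1 b))).congr'
      (h5.mono fun x hx => hx.symm)
  · obtain ⟨g₁, g₂, Φ, K, h1, h2, h3, h4, h5⟩ := h b
    obtain ⟨K', k1, k2, k3⟩ := local_compact_nhds h3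
    have hu := Metric.uniformContinuousOn_iff.1 (k3.uniformContinuousOn_of_continuous (h4.mono k2))
    obtain ⟨n, hn⟩ := ev_F.1 (h5.and (((h1.1 b).prodMk_nhds (h2.1 b)) k1))
    refine ⟨n, fun m hm ε hε => ?_⟩
    obtain ⟨δ, hδ, hd⟩ := hu ε hε
    filter_upwards [h1.2 (seg b m) δ hδ, h2.2 (seg b m) δ hδ] with τ a1 a2
    have b1 := hn _ (R_anti b hm (Or.inl ⟨false, τ, rfl⟩))
    have b2 := hn _ (R_anti b hm (Or.inl ⟨true, τ, rfl⟩))
    rw [b1.1, b2.1]
    exact hd _ b1.2 _ b2.2 (by rw [Prod.dist_eq]; exact max_lt a1 a2)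

theorem mem_comp {g₁ g₂ : X → ℝ} (h1 : Mem g₁) (h2 : Mem g₂) (Φ : ℝ × ℝ → ℝ) (h : Continuous Φ) :
    Mem fun x => Φ (g₁ x, g₂ x) :=
  mem_loc _ fun _ => ⟨g₁, g₂, Φ, Set.univ, h1, h2, univ_mem, h.continuousOn, .of_forall fun _ => rfl⟩

theorem mem_lc (g : X → ℝ) (h : ∀ b, ∀ᶠ x in F b, g x = g (inr b)) : Mem g :=
  mem_loc _ fun b => ⟨_, _, fun _ => g (inr b), Set.univ, mem_const 0, mem_const 0, univ_mem,
    continuousOn_const, h b⟩

theorem mem_div (g : X → ℝ) (h : ∀ b, ∃ g₁ g₂ : X → ℝ, Mem g₁ ∧ Mem g₂ ∧ g₂ (inr b) ≠ 0 ∧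
    ∀ x, g₂ x ≠ 0 → g x = g₁ x / g₂ x) : Mem g := by
  refine mem_loc _ fun b => ?_
  obtain ⟨g₁, g₂, h1, h2, h3, h4⟩ := h b
  refine ⟨g₁, g₂, fun p => p.1 / p.2, {p | p.2 ≠ 0}, h1, h2,
    (isOpen_ne_fun continuous_snd continuous_const).mem_nhds h3,
    continuousOn_fst.div continuousOn_snd fun _ hp => hp, ?_⟩
  exact ((h2.1 b).eventually_ne h3).mono h4

theorem mem_unif (g : X → ℝ) (h : ∀ ε > 0, ∃ g', Mem g' ∧ ∀ x, dist (g' x) (g x) ≤ ε) : Mem g := by
  refine ⟨fun b => Metric.tendsto_nhds.2 fun ε hε => ?_, fun s ε hε => ?_⟩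
  · obtain ⟨g', h1, h2⟩ := h (ε / 3) (by positivity)
    filter_upwards [Metric.tendsto_nhds.1 (h1.1 b) (ε / 3) (by positivity)] with x hx
    have := dist_triangle4_left (g x) (g (inr b)) (g' x) (g' (inr b))
    have a := h2 x
    have a' := h2 (inr b)
    have := dist_triangle4 (g x) (g' x) (g' (inr b)) (g (inr b))
    rw [dist_comm] at a
    linarith
  · obtain ⟨g', h1, h2⟩ := h (ε / 3) (by positivity)
    filter_upwards [h1.2 s (ε / 3) (by positivity)] with τ hx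
    have a := h2 (inl (LU s false τ))
    have a' := h2 (inl (LU s true τ))
    have := dist_triangle4 (g (inl (LU s false τ))) (g' (inl (LU s false τ)))
      (g' (inl (LU s true τ))) (g (inl (LU s true τ)))
    rw [dist_comm] at a
    linarith

def Asub : Subalgebra ℝ (X → ℝ) where
  carrier := {g | Mem g}
  mul_mem' h1 h2 := mem_comp h1 h2 (fun p => p.1 * p.2) (by fun_prop)
  add_mem' h1 h2 := mem_comp h1 h2 (fun p => p.1 + p.2) (by fun_prop)
  algebraMap_mem' r := mem_const r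

noncomputable def ind (W : Set X) (h : Clop W) : Asub :=
  ⟨W.indicator 1, mem_lc _ fun b => (h b).mono fun x hx => by
    classical
    simp only [Set.indicator_apply, hx, Pi.one_apply]⟩

theorem hom_real (h : Asub →+* ℝ) (r : ℝ) : h (algebraMap ℝ Asub r) = r :=
  DFunLike.congr_fun (Subsingleton.elim (h.comp (algebraMap ℝ Asub)) (RingHom.id ℝ)) r

theorem hom_zero (h : Asub →+* ℝ) (g : Asub) (hg : h g = 0) : ∃ x, g.1 x = 0 := by
  by_contra H
  push Not at H
  have hm : Mem fun x => 1 / g.1 x :=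
    mem_div _ fun b => ⟨_, g.1, mem_const 1, g.2, H _, fun _ _ => rfl⟩
  have : g * ⟨_, hm⟩ = 1 := Subtype.ext (funext fun x => by
    have := H x
    simp; field_simp)
  have := congrArg h this
  rw [map_mul, hg] at this
  simp at this

def UU (h : Asub →+* ℝ) : Set (Set X) := {W | ∃ hW : Clop W, h (ind W hW) = 1}

theorem ind_compl (W : Set X) (hW : Clop W) : ind Wᶜ hW.compl = 1 - ind W hW :=
  Subtype.ext (funext fun x => by by_cases e : x ∈ W <;> simp [ind, e])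

theorem UU_or (h : Asub →+* ℝ) (W : Set X) (hW : Clop W) : W ∈ UU h ∨ Wᶜ ∈ UU h := by
  have e : ind W hW * ind W hW = ind W hW :=
    Subtype.ext (funext fun x => by by_cases e : x ∈ W <;> simp [ind, e])
  have e' := congrArg h e
  rw [map_mul] at e'
  by_cases h1 : h (ind W hW) = 1
  · exact Or.inl ⟨hW, h1⟩
  · refine Or.inr ⟨hW.compl, ?_⟩
    have : h (ind W hW) = 0 := by
      by_contra h0
      exact h1 (mul_left_cancel₀ h0 (by rw [e', mul_one]))
    rw [ind_compl W hW, map_sub, this]; simp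

theorem cip (h : Asub →+* ℝ) (W : ℕ → Set X) (hW : ∀ n, W n ∈ UU h) : ∃ x, ∀ n, x ∈ W n := by
  classical
  by_contra H
  push Not at H
  choose hc he using hW
  have hm : Mem fun x => (Nat.find (H x) : ℝ) := mem_lc _ fun b => by
    have := (eventually_all_finite (Set.finite_Iic (Nat.find (H (inr b))))).2 fun k _ => hc k b
    filter_upwards [this] with x hx
    congr 1
    rw [Nat.find_eq_iff]
    refine ⟨fun h1 => Nat.find_spec (H (inr b)) ((hx _ (Set.mem_Iic.2 le_rfl)).1 h1), fun k hk h1 => ?_⟩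
    exact Nat.find_min (H (inr b)) hk fun h2 => h1 ((hx k hk.le).2 h2)
  let g : Asub := ⟨_, hm⟩
  obtain ⟨x, hx⟩ := hom_zero h ((g - algebraMap ℝ Asub (h g)) ^ 2 +
      ∑ n ∈ Finset.range (⌈h g⌉₊ + 1), ind (W n)ᶜ (hc n).compl) (by
    simp [hom_real, fun n => ind_compl (W n) (hc n), he])
  have e : (Nat.find (H x) - h g) ^ 2 +
      ∑ n ∈ Finset.range (⌈h g⌉₊ + 1), (W n)ᶜ.indicator (1 : X → ℝ) x = 0 := by
    simpa [g, ind, Finset.sum_apply] using hx
  have hn : ∀ n ∈ Finset.range (⌈h g⌉₊ + 1), 0 ≤ (W n)ᶜ.indicator (1 : X → ℝ) x := fun n _ =>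
    Set.indicator_nonneg (fun _ _ => zero_le_one) x
  have h1 := Finset.sum_nonneg hn
  have h2 : (Nat.find (H x) - h g) ^ 2 = 0 := by nlinarith [sq_nonneg (Nat.find (H x) - h g)]
  have h3 : h g = Nat.find (H x) := by
    have := pow_eq_zero_iff (two_ne_zero) |>.1 h2
    linarith
  have h4 := (Finset.sum_eq_zero_iff_of_nonneg hn).1 (by linarith) (Nat.find (H x))
    (by simp [h3])
  have h5 : x ∈ (W (Nat.find (H x)))ᶜ := Nat.find_spec (H x)
  simp [h5] at h4

theorem neBot_UU (h : Asub →+* ℝ) : (countableGenerate (UU h)).NeBot := by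
  rw [← Filter.forall_mem_nonempty_iff_neBot]
  intro Z hZ
  obtain ⟨S, h1, h2, h3⟩ := mem_countableGenerate_iff.1 hZ
  rcases S.eq_empty_or_nonempty with rfl | hne
  · exact ⟨inl (inr true, []), h3 (by simp)⟩
  · obtain ⟨W, rfl⟩ := h2.exists_eq_range hne
    obtain ⟨x, hx⟩ := cip h W fun n => h1 ⟨n, rfl⟩
    exact ⟨x, h3 (by simpa using hx)⟩

theorem UU_step (h : Asub →+* ℝ) (h0 : ∀ z, ({inl z} : Set X)ᶜ ∈ UU h) (s : List C)
    (hs : R s ∈ UU h) : ∃ c, R (c :: s) ∈ UU h := by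
  by_contra H
  push Not at H
  have := neBot_UU h
  have hm : ∀ {W}, W ∈ UU h → ∀ᶠ x in countableGenerate (UU h), x ∈ W := fun hW =>
    CountableGenerateSets.basic hW
  have h1 : ∀ᶠ x in countableGenerate (UU h), ∀ υ, ¬ Epos s x υ := by
    refine eventually_countable_forall.2 fun υ => ?_
    filter_upwards [hm (h0 (LU s true υ)), hm (h0 (LU s false υ)), hm (h0 (D s υ))] with x a b c
    rintro (⟨β, e⟩ | e)
    · cases β
      · exact b e
      · exact a e
    · exact c e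
  have h2 : ∀ᶠ x in countableGenerate (UU h), ∀ σ, (x ∈ Pat s σ ↔ ¬ (Pat s σ)ᶜ ∈ UU h) := by
    refine eventually_countable_forall.2 fun σ => ?_
    by_cases e : (Pat s σ)ᶜ ∈ UU h
    · exact (hm e).mono fun x hx => by simpa [e] using hx
    · exact (hm ((UU_or h _ (clop_pat s σ)).resolve_right e)).mono fun x hx => by simpa [e] using hx
  have h3 : ∀ᶠ x in countableGenerate (UU h), ∃ c, Deep (c :: s) x ∧
      ∀ σ, (seg c.1.1 σ.length = σ ↔ ¬ (Pat s σ)ᶜ ∈ UU h) := by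
    filter_upwards [h1, h2, hm hs] with x a b c
    obtain ⟨c, hc⟩ := (R_cases c).resolve_left fun ⟨υ, e⟩ => a υ e
    exact ⟨c, hc, fun σ => (pat_deep hc σ).symm.trans (b σ)⟩
  obtain ⟨x, c, -, hc⟩ := h3.exists
  have h4 := fun β => hm ((UU_or h _ (clop_R ((c.1, β) :: s))).resolve_left (H _))
  obtain ⟨y, ⟨c', d1, d2⟩, d3⟩ := (h3.and (eventually_all.2 h4)).exists
  have e : c.1 = c'.1 := Subtype.ext (funext fun k => by
    have := (d2 (seg c.1.1 (k + 1))).2 ((hc _).1 (by simp))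
    simp only [seg_length, seg, List.length_cons, List.cons.injEq] at this
    exact this.1.symm)
  refine d3 c'.2 (Or.inr ?_)
  rw [e]; exact d1

theorem hom_eval (h : Asub →+* ℝ) : ∃ x, ∀ g, h g = g.1 x := by
  have key : ∀ (W : Set X), W ∈ UU h → ∀ g : Asub, ∃ x ∈ W, g.1 x = h g := by
    rintro W ⟨hW, e⟩ g
    obtain ⟨x, hx⟩ := hom_zero h ((g - algebraMap ℝ Asub (h g)) ^ 2 + ind Wᶜ hW.compl) (by
      simp [hom_real, ind_compl W hW, e])
    have e : (g.1 x - h g) ^ 2 + Wᶜ.indicator (1 : X → ℝ) x = 0 := by simpa [ind] using hx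
    by_cases hx' : x ∈ W
    · simp [hx'] at e
      exact ⟨x, hx', by linarith⟩
    · simp [hx'] at e
      nlinarith [sq_nonneg (g.1 x - h g)]
  by_cases h0 : ∃ z, ({inl z} : Set X) ∈ UU h
  · obtain ⟨z, hz⟩ := h0
    refine ⟨inl z, fun g => ?_⟩
    obtain ⟨x, rfl, hx⟩ := key _ hz g
    exact hx.symm
  push Not at h0
  obtain ⟨b, hb⟩ := exists_branch (fun s => R s ∈ UU h) ⟨clop_R _, by
    rw [← map_one h]
    congr 1
    exact Subtype.ext (funext fun x => by simp [ind, R_nil])⟩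
    (UU_step h fun z => (UU_or h _ (clop_single z)).resolve_left (h0 z))
  refine ⟨inr b, fun g => ?_⟩
  by_contra hne
  obtain ⟨n, hn⟩ := ev_F.1 ((g.2.1 b).eventually_ne (Ne.symm hne))
  obtain ⟨x, hx, e⟩ := key _ (hb n) g
  exact hn x hx e

theorem not_iso (Y : Type) [TopologicalSpace Y] (e : Asub ≃+* C(Y, ℝ)) : False := by
  choose θ hθ using fun y : Y =>
    hom_eval (((ContinuousMap.evalAlgHom ℝ ℝ y : C(Y, ℝ) →ₐ[ℝ] ℝ) : C(Y, ℝ) →+* ℝ).comp
      (e : Asub →+* C(Y, ℝ)))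
  have hθ' : ∀ y g, e g y = g.1 (θ y) := hθ
  have hn : ∀ y W, Clop W → θ y ∈ W → ∀ᶠ y' in 𝓝 y, θ y' ∈ W := by
    intro y W hW hy
    have : e (ind W hW) y ≠ 0 := by simp [hθ', ind, hy]
    filter_upwards [(e (ind W hW)).continuous.continuousAt.eventually_ne this] with y' h'
    by_contra H
    simp [hθ', ind, H] at h'
  have hc : Continuous fun y => lev (θ y) := by
    rw [continuous_iff_continuousAt]
    intro y
    cases hy : θ y with
    | inl z =>
      refine continuousAt_const.congr (f := fun _ => lev (inl z)) ?_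
      filter_upwards [hn y _ (clop_single z) hy] with y' h'
      rw [h']
    | inr b =>
      have : Tendsto θ (𝓝 y) (F b) := fun Z ⟨n, hZ⟩ =>
        mem_of_superset (hn y _ (clop_R _) (hy ▸ mem_R b n)) fun y' h' => hZ h'
      have := (lev_cont b).comp this
      rw [← hy] at this
      exact this
  obtain ⟨a, ha⟩ := e.surjective ⟨_, hc⟩
  have hz : ∀ z : I, a.1 (inl z) = lev (inl z) := by
    intro z
    obtain ⟨y, hy⟩ : ∃ y, θ y = inl z := by
      by_contra H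
      push Not at H
      have : e (ind _ (clop_single z)) = 0 := ContinuousMap.ext fun y => by simp [hθ', ind, H y]
      have := congrFun (congrArg Subtype.val (e.injective (this.trans (map_zero e).symm))) (inl z)
      simp [ind] at this
    rw [← hy, ← hθ', ha]; rfl
  obtain ⟨τ, hτ⟩ := (a.2.2 [] 1 one_pos).exists
  simp [hz, LU, lev] at hτ

end Pool.Agent.H83.Hg
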