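import Mathlib

set_option autoImplicit false

namespace Pool.Agent.H83.Hi

open Set unitInterval

/-- The rational number `(a - b) / (c + 1)`. -/
noncomputable def rv (r : ℕ × ℕ × ℕ) : ℝ := ((r.1 : ℝ) - r.2.1) / (r.2.2 + 1)

/-- The `e`-th basic open box: `e` codes a list of pairs of rational endpoints. -/
def Box (e : ℕ) : Set (ℕ → I) :=
  {x | ∀ i, ∀ h : i < (Denumerable.ofNat (List ((ℕ × ℕ × ℕ) × ℕ × ℕ × ℕ)) e).length,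
    rv (Denumerable.ofNat (List ((ℕ × ℕ × ℕ) × ℕ × ℕ × ℕ)) e)[i].1 < x i ∧
      (x i : ℝ) < rv (Denumerable.ofNat (List ((ℕ × ℕ × ℕ) × ℕ × ℕ × ℕ)) e)[i].2}

/-- Strongly infinite-dimensional. -/
def SID (X : Type) [TopologicalSpace X] : Prop :=
  ∃ A B : ℕ → Set X, (∀ i, IsClosed (A i) ∧ IsClosed (B i) ∧ Disjoint (A i) (B i)) ∧
    ∀ U V : ℕ → Set X, (∀ i, IsOpen (U i) ∧ IsOpen (V i) ∧ Disjoint (U i) (V i) ∧
      A i ⊆ U i ∧ B i ⊆ V i) → (⋂ i, (U i ∪ V i)ᶜ).Nonempty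

/-- A base of clopen sets. -/
def ZeroDim (X : Type) [TopologicalSpace X] : Prop :=
  ∀ (x : X) (O : Set X), IsOpen O → x ∈ O → ∃ W, IsClopen W ∧ x ∈ W ∧ W ⊆ O

def HSID (P : Set (ℕ → I)) : Prop := SID P ∧ ∀ Y ⊆ P, ZeroDim Y ∨ SID Y

end Pool.Agent.H83.Hi
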