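import Pool.Agent.H37.RE
import Pool.Agent.H83.HiDefs

/-! Effectively open families of subsets of the Hilbert cube. -/

set_option autoImplicit false

namespace Pool.Agent.H83.Hi

open Pool.Agent.H37 Set unitInterval

abbrev Q := ℕ → I
abbrev Rt := ℕ × ℕ × ℕ

def bx (e : ℕ) : List (Rt × Rt) := Denumerable.ofNat _ e

def lo (e i : ℕ) : Rt := ((bx e).getD i ((0, 0, 0), 0, 0, 0)).1
def hi (e i : ℕ) : Rt := ((bx e).getD i ((0, 0, 0), 0, 0, 0)).2

theorem mem_Box {e : ℕ} {x : Q} :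
    x ∈ Box e ↔ ∀ i < (bx e).length, rv (lo e i) < x i ∧ (x i : ℝ) < rv (hi e i) :=
  forall_congr' fun i => forall_congr' fun h => by
    simp only [lo, hi, List.getD_eq_getElem?_getD, bx, List.getElem?_eq_getElem h, Option.getD_some]

theorem cco (s : ℕ) : Continuous fun x : Q => (x s : ℝ) :=
  continuous_subtype_val.comp (continuous_apply s)

theorem Box_open (e : ℕ) : IsOpen (Box e) := by
  have : Box e = ⋂ i ∈ Finset.range (bx e).length,
      {x : Q | rv (lo e i) < x i} ∩ {x : Q | (x i : ℝ) < rv (hi e i)} := by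
    ext x
    simp [mem_Box]
  rw [this]
  exact isOpen_biInter_finset fun i _ => (isOpen_lt continuous_const (cco i)).inter
    (isOpen_lt (cco i) continuous_const)

def rle (r t : Rt) : Bool :=
  decide (r.1 * (t.2.2 + 1) + t.2.1 * (r.2.2 + 1) ≤ t.1 * (r.2.2 + 1) + r.2.1 * (t.2.2 + 1))

theorem rle_iff (r t : Rt) : rle r t = true ↔ rv r ≤ rv t := by
  rw [rle, decide_eq_true_eq, rv, rv, div_le_div_iff₀ (by positivity) (by positivity),
    ← Nat.cast_le (α := ℝ)]
  push_cast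
  constructor <;> intro h <;> linarith

theorem exists_rv {a b : ℝ} (h : a < b) : ∃ r, a < rv r ∧ rv r < b := by
  obtain ⟨q, h1, h2⟩ := exists_rat_btwn h
  have : rv (q.num.toNat, (-q.num).toNat, q.den - 1) = q := by
    rw [rv, Nat.cast_sub q.pos, Nat.cast_one, sub_add_cancel, Rat.cast_def]
    congr 1
    exact_mod_cast congrArg (Int.cast (R := ℝ)) (Int.toNat_sub_toNat_neg q.num)
  exact ⟨_, this ▸ h1, this ▸ h2⟩

theorem exists_box (x : Q) (n : ℕ) (δ : ℝ) (hδ : 0 < δ) : ∃ e, x ∈ Box e ∧ (bx e).length = n ∧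
    ∀ i < n, x i - δ < rv (lo e i) ∧ rv (hi e i) < x i + δ := by
  choose p p1 p2 using fun i => exists_rv (sub_lt_self (x i : ℝ) hδ)
  choose q q1 q2 using fun i => exists_rv (lt_add_of_pos_right (x i : ℝ) hδ)
  have e : bx (Encodable.encode ((List.range n).map fun i => (p i, q i))) =
      (List.range n).map fun i => (p i, q i) := Denumerable.ofNat_encode _
  have g : ∀ i < n, lo (Encodable.encode ((List.range n).map fun i => (p i, q i))) i = p i ∧
      hi (Encodable.encode ((List.range n).map fun i => (p i, q i))) i = q i := fun i h => by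
    simp [lo, hi, e, List.getD_eq_getElem?_getD, h]
  refine ⟨Encodable.encode ((List.range n).map fun i => (p i, q i)), mem_Box.2 fun i h => ?_,
    by rw [e]; simp, fun i h => ?_⟩
  · rw [e, List.length_map, List.length_range] at h
    rw [(g i h).1, (g i h).2]
    exact ⟨p2 i, q1 i⟩
  · rw [(g i h).1, (g i h).2]
    exact ⟨p1 i, q2 i⟩

theorem exists_nd {O : Set Q} (hO : IsOpen O) {x : Q} (hx : x ∈ O) :
    ∃ n : ℕ, ∃ δ > 0, ∀ y : Q, (∀ i < n, |(y i : ℝ) - x i| ≤ δ) → y ∈ O := by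
  obtain ⟨F, u, h1, h2⟩ := isOpen_pi_iff.1 hO x hx
  have : ∀ᶠ δ in nhds (0 : ℝ), ∀ i ∈ F, Metric.closedBall (x i) δ ⊆ u i :=
    (F.eventually_all).2 fun i hi =>
      eventually_closedBall_subset ((h1 i hi).1.mem_nhds (h1 i hi).2)
  obtain ⟨δ, d1, d2⟩ := ((this.filter_mono (nhdsWithin_le_nhds (s := Ioi 0))).and
    self_mem_nhdsWithin).exists
  exact ⟨F.sup id + 1, δ, d2, fun y hy => h2 fun i hi => d1 i hi
    (hy i (Nat.lt_succ_of_le (Finset.le_sup (f := id) hi)))⟩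

variable {α β : Type} [Primcodable α] [Primcodable β]

/-- Uniformly effectively open families. -/
def EO (p : α → Q → Prop) : Prop :=
  ∃ W : α × ℕ → Prop, REPred W ∧ ∀ a x, p a x ↔ ∃ e, W (a, e) ∧ x ∈ Box e

def sub (e d : ℕ) : Bool := decide ((bx d).length ≤ (bx e).length) &&
  (List.range (bx d).length).all fun i => rle (lo d i) (lo e i) && rle (hi e i) (hi d i)

theorem sub_iff {e d : ℕ} : sub e d = true ↔ (bx d).length ≤ (bx e).length ∧
    ∀ i < (bx d).length, rv (lo d i) ≤ rv (lo e i) ∧ rv (hi e i) ≤ rv (hi d i) := by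
  simp [sub, rle_iff]

theorem sub_mem {e d : ℕ} (h : sub e d = true) {x : Q} (hx : x ∈ Box e) : x ∈ Box d := by
  rw [sub_iff] at h
  rw [mem_Box] at hx ⊢
  exact fun i hi => ⟨(h.2 i hi).1.trans_lt (hx i (hi.trans_le h.1)).1,
    (hx i (hi.trans_le h.1)).2.trans_le (h.2 i hi).2⟩

theorem exists_sub {x : Q} (l : List ℕ) (h : ∀ d ∈ l, x ∈ Box d) :
    ∃ e, x ∈ Box e ∧ ∀ d ∈ l, sub e d = true := by
  have : ∀ᶠ δ in nhds (0 : ℝ), ∀ d ∈ {d | d ∈ l}, ∀ i ∈ Finset.range (bx d).length,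
      δ < x i - rv (lo d i) ∧ δ < rv (hi d i) - x i :=
    (l.finite_toSet.eventually_all).2 fun d hd => (Finset.eventually_all _).2 fun i hi =>
      (eventually_lt_nhds (sub_pos.2 (mem_Box.1 (h d hd) i (Finset.mem_range.1 hi)).1)).and
        (eventually_lt_nhds (sub_pos.2 (mem_Box.1 (h d hd) i (Finset.mem_range.1 hi)).2))
  obtain ⟨δ, d1, d2⟩ := ((this.filter_mono (nhdsWithin_le_nhds (s := Ioi 0))).and
    self_mem_nhdsWithin).exists
  obtain ⟨e, e1, e2, e3⟩ := exists_box x (l.map fun d => (bx d).length).sum δ d2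
  refine ⟨e, e1, fun d hd => ?_⟩
  have le : (bx d).length ≤ (l.map fun d => (bx d).length).sum :=
    List.single_le_sum (by simp) _ (List.mem_map.2 ⟨d, hd, rfl⟩)
  refine sub_iff.2 ⟨e2 ▸ le, fun i hi => ?_⟩
  have a := d1 d hd i (Finset.mem_range.2 hi)
  have b := e3 i (hi.trans_le le)
  constructor <;> linarith [a.1, a.2, b.1, b.2]

theorem EO.of_iff {p q : α → Q → Prop} (h : EO p) (H : ∀ a x, q a x ↔ p a x) : EO q := by
  obtain ⟨W, hW, h⟩ := h
  exact ⟨W, hW, fun a x => (H a x).trans (h a x)⟩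

theorem EO.isOpen {p : α → Q → Prop} (h : EO p) (a : α) : IsOpen {x | p a x} := by
  obtain ⟨W, -, h⟩ := h
  have : {x | p a x} = ⋃ e, ⋃ (_ : W (a, e)), Box e := by
    ext x
    simp [h]
  rw [this]
  exact isOpen_iUnion fun e => isOpen_iUnion fun _ => Box_open e

theorem eo_box {g : α → ℕ} (hg : CI ∅ g) : EO fun a x => x ∈ Box (g a) :=
  ⟨fun q => (q.2 == g q.1) = true, re_of_bool _ (by fun_prop) fun _ => Iff.rfl, fun a x => by simp⟩

theorem eo_bool {f : α → Bool} (h : CI ∅ f) : EO fun a (_ : Q) => f a = true :=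
  ⟨fun q => f q.1 = true, re_of_bool _ (by fun_prop) fun _ => Iff.rfl, fun a x =>
    ⟨fun h => let ⟨e, he, _⟩ := exists_box x 0 1 one_pos; ⟨e, h, he⟩, fun ⟨_, h, _⟩ => h⟩⟩

theorem EO.comp {p : β → Q → Prop} (h : EO p) {g : α → β} (hg : CI ∅ g) : EO fun a => p (g a) := by
  obtain ⟨W, hW, h⟩ := h
  exact ⟨fun q => W (g q.1, q.2), REPred.comp' hW (by fun_prop), fun a => h (g a)⟩

theorem EO.or {p q : α → Q → Prop} (hp : EO p) (hq : EO q) : EO fun a x => p a x ∨ q a x := by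
  obtain ⟨W, hW, h⟩ := hp
  obtain ⟨W', hW', h'⟩ := hq
  refine ⟨fun q => W q ∨ W' q, re_or hW hW', fun a x => ?_⟩
  simp only [h, h', or_and_right, exists_or]

theorem EO.ex {p : α × β → Q → Prop} (hp : EO p) : EO fun a x => ∃ b, p (a, b) x := by
  obtain ⟨W, hW, h⟩ := hp
  refine ⟨fun q => ∃ b, W ((q.1, b), q.2), re_exists (p := fun (q : α × ℕ) b => W ((q.1, b), q.2))
    (REPred.comp' hW (by fun_prop)), fun a x => ?_⟩
  simp only [h]
  exact ⟨fun ⟨b, l, k, k'⟩ => ⟨l, ⟨b, k⟩, k'⟩, fun ⟨l, ⟨b, k⟩, k'⟩ => ⟨b, l, k, k'⟩⟩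

theorem EO.all {p : α × β → Q → Prop} (hp : EO p) {L : α → List β} (hL : CI ∅ L) :
    EO fun a x => ∀ b ∈ L a, p (a, b) x := by
  obtain ⟨W, hW, h⟩ := hp
  refine ⟨fun q => ∀ b ∈ L q.1, ∃ d, W ((q.1, b), d) ∧ sub q.2 d = true,
    re_forall_mem (p := fun (q : α × ℕ) b => ∃ d, W ((q.1, b), d) ∧ sub q.2 d = true)
      (re_exists (p := fun (q : (α × ℕ) × β) d => W ((q.1.1, q.2), d) ∧ sub q.1.2 d = true)
        (re_and (REPred.comp' hW (by fun_prop))
          (re_of_bool _ (by unfold sub rle lo hi bx; fun_prop) fun _ => Iff.rfl)))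
      (by fun_prop), fun a x => ⟨fun H => ?_, fun ⟨e, k, k'⟩ b hb => ?_⟩⟩
  · choose! d d1 d2 using fun b hb => (h (a, b) x).1 (H b hb)
    obtain ⟨e, e1, e2⟩ := exists_sub ((L a).map d) (by
      simp only [List.mem_map]
      rintro _ ⟨b, hb, rfl⟩
      exact d2 b hb)
    exact ⟨e, fun b hb => ⟨d b, d1 b hb, e2 _ (List.mem_map.2 ⟨b, hb, rfl⟩)⟩, e1⟩
  · obtain ⟨d, d1, d2⟩ := k b hb
    exact (h _ x).2 ⟨d, d1, sub_mem d2 k'⟩

theorem EO.and {p q : α → Q → Prop} (hp : EO p) (hq : EO q) : EO fun a x => p a x ∧ q a x := by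
  refine (EO.all (p := fun (c : α × Bool) x => (c.2 = true ∧ p c.1 x) ∨ (c.2 = false ∧ q c.1 x)) ?_
    (L := fun _ => [true, false]) (by fun_prop)).of_iff fun a x => by simp [and_comm]
  obtain ⟨W, hW, h⟩ := hp
  obtain ⟨W', hW', h'⟩ := hq
  refine ⟨fun c => (c.1.2 = true ∧ W (c.1.1, c.2)) ∨ ((!c.1.2) = true ∧ W' (c.1.1, c.2)),
    re_or (re_and (re_of_bool _ (by fun_prop) fun _ => Iff.rfl) (REPred.comp' hW (by fun_prop)))
      (re_and (re_of_bool _ (by fun_prop) fun _ => Iff.rfl) (REPred.comp' hW' (by fun_prop))),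
    fun ⟨a, b⟩ x => ?_⟩
  cases b <;> simp [h, h']

theorem eo_itv {i : α → ℕ} {r t : α → Rt} (hi : CI ∅ i) (hr : CI ∅ r) (ht : CI ∅ t) :
    EO fun a x => rv (r a) < x (i a) ∧ (x (i a) : ℝ) < rv (t a) := by
  refine (eo_box (g := fun a => Encodable.encode ((List.range (i a + 1)).map fun j =>
    if j = i a then (r a, t a) else (((0, 1, 0), 2, 0, 0) : Rt × Rt))) (by fun_prop)).of_iff
    fun a x => ?_
  simp only [mem_Box, lo, Hi.hi, bx, Denumerable.ofNat_encode, List.length_map, List.length_range]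
  refine ⟨fun h j hj => ?_, fun h => by simpa [List.getD_eq_getElem?_getD] using h (i a) (by omega)⟩
  by_cases e : j = i a
  · simpa [List.getD_eq_getElem?_getD, e] using h
  · simp only [List.getD_eq_getElem?_getD, List.getElem?_map, List.getElem?_range hj, e,
      Option.map_some, if_false, Option.getD_some, rv]
    constructor <;> norm_num <;> linarith [(x j).2.1, (x j).2.2]

theorem eo_gt {i : α → ℕ} {r : α → Rt} (hi : CI ∅ i) (hr : CI ∅ r) :
    EO fun a x => rv (r a) < x (i a) :=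
  (eo_itv hi hr (t := fun _ => (2, 0, 0)) (by fun_prop)).of_iff fun a x =>
    (and_iff_left (by simp only [rv]; norm_num; linarith [(x (i a)).2.2])).symm

theorem eo_lt {i : α → ℕ} {r : α → Rt} (hi : CI ∅ i) (hr : CI ∅ r) :
    EO fun a x => (x (i a) : ℝ) < rv (r a) :=
  (eo_itv hi (r := fun _ => (0, 1, 0)) (by fun_prop) hr).of_iff fun a x =>
    (and_iff_right (by simp only [rv]; norm_num; linarith [(x (i a)).2.1])).symm

end Pool.Agent.H83.Hi
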