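import Mathlib
import Pool.Agent.H51.LebN

/-! Essential families of faces of the Hilbert cube. -/

set_option autoImplicit false

namespace Pool.Agent.H83.Sh1

open Set Topology unitInterval

abbrev P := ℕ → Bool
abbrev Q := ℕ → I

theorem mirandaInf (h : Q → ℕ → ℝ) (hc : ∀ j, Continuous fun x => h x j)
    (h0 : ∀ x j, x j = 0 → h x j ≤ 0) (h1 : ∀ x j, x j = 1 → 0 ≤ h x j) :
    ∃ x, ∀ j, h x j = 0 := by
  classical
  have key : ∀ s : Finset ℕ, ∃ x : Q, ∀ j ∈ s, h x j = 0 := by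
    intro s
    let e := s.equivFin
    let ext : (Fin s.card → ℝ) → Q := fun y j =>
      if hj : j ∈ s then projIcc 0 1 zero_le_one (y (e ⟨j, hj⟩)) else 0
    have hext : Continuous ext := by
      refine continuous_pi fun j => ?_
      by_cases hj : j ∈ s
      · simp only [ext, hj, dif_pos]
        exact continuous_projIcc.comp (continuous_apply _)
      · simp only [ext, hj, dif_neg, not_false_eq_true]
        exact continuous_const
    have hval : ∀ y i, ext y (e.symm i).1 = projIcc 0 1 zero_le_one (y i) := by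
      intro y i
      simp [ext, (e.symm i).2]
    obtain ⟨y, -, hy⟩ := Pool.Agent.H51.LebN.miranda s.card 1 one_pos
      (fun y i => h (ext y) (e.symm i).1)
      (continuous_pi fun i => (hc _).comp hext)
      (fun y i hy => h0 _ _ (by rw [hval, hy]; simp))
      (fun y i hy => h1 _ _ (by rw [hval, hy]; simp))
    refine ⟨ext y, fun j hj => ?_⟩
    have := congrFun hy (e ⟨j, hj⟩)
    simpa using this
  by_contra hne
  push Not at hne
  obtain ⟨t, ht⟩ := isCompact_univ.elim_finite_subcover (fun j => {x : Q | h x j ≠ 0})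
    (fun j => isOpen_ne_fun (hc j) continuous_const) (fun x _ => mem_iUnion.2 (hne x))
  obtain ⟨x, hx⟩ := key t
  obtain ⟨j, hj, hxj⟩ := mem_iUnion₂.1 (ht (mem_univ x))
  exact hxj (hx j hj)

/-- `U`, `V` are disjoint open neighbourhoods of the two faces in direction `s`. -/
structure IsPart (s : ℕ) (U V : Set Q) : Prop where
  oU : IsOpen U
  oV : IsOpen V
  dj : ∀ x, x ∈ U → x ∈ V → False
  a0 : ∀ x : Q, x s = 0 → x ∈ U
  a1 : ∀ x : Q, x s = 1 → x ∈ V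

/-- `O` is missed by some family of partitions in the directions of `S`. -/
def Cov (O : Set Q) (S : Set ℕ) : Prop :=
  ∃ U V : ℕ → Set Q, (∀ s ∈ S, IsPart s (U s) (V s)) ∧ ∀ x ∈ O, ∃ s ∈ S, x ∈ U s ∨ x ∈ V s

theorem cco (s : ℕ) : Continuous fun x : Q => (x s : ℝ) :=
  continuous_subtype_val.comp (continuous_apply s)

theorem part_level (s : ℕ) (v : ℝ) (h0 : 0 < v) (h1 : v < 1) :
    IsPart s {x | (x s : ℝ) < v} {x | v < (x s : ℝ)} :=
  ⟨isOpen_lt (cco s) continuous_const, isOpen_lt continuous_const (cco s),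
    fun x a b => lt_asymm (show (x s : ℝ) < v from a) b,
    fun x h => by simp only [mem_setOf_eq, h]; simpa using h0,
    fun x h => by simp only [mem_setOf_eq, h]; simpa using h1⟩

theorem not_cov_univ : ¬ Cov univ univ := by
  rintro ⟨U, V, hp, hc⟩
  have hp' := fun s => hp s (mem_univ s)
  have nU : ∀ s, (U s)ᶜ.Nonempty := fun s =>
    ⟨fun _ => 1, fun h => (hp' s).dj _ h ((hp' s).a1 _ rfl)⟩
  have nV : ∀ s, (V s)ᶜ.Nonempty := fun s =>
    ⟨fun _ => 0, fun h => (hp' s).dj _ ((hp' s).a0 _ rfl) h⟩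
  letI : MetricSpace Q := TopologicalSpace.metrizableSpaceMetric Q
  obtain ⟨x, hx⟩ := mirandaInf (fun x s => Metric.infDist x (V s)ᶜ - Metric.infDist x (U s)ᶜ)
    (fun s => (Metric.continuous_infDist_pt _).sub (Metric.continuous_infDist_pt _))
    (fun x s h => by
      have : x ∈ (V s)ᶜ := fun hv => (hp' s).dj _ ((hp' s).a0 _ h) hv
      rw [Metric.infDist_zero_of_mem this]
      linarith [Metric.infDist_nonneg (x := x) (s := (U s)ᶜ)])
    (fun x s h => by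
      have : x ∈ (U s)ᶜ := fun hv => (hp' s).dj _ hv ((hp' s).a1 _ h)
      rw [Metric.infDist_zero_of_mem this]
      linarith [Metric.infDist_nonneg (x := x) (s := (V s)ᶜ)])
  obtain ⟨s, -, h | h⟩ := hc x (mem_univ x)
  · have h1 : x ∈ (V s)ᶜ := fun hv => (hp' s).dj _ h hv
    have h2 := ((hp' s).oU.isClosed_compl.notMem_iff_infDist_pos (nU s)).1 (not_not.2 h)
    have h3 := hx s
    simp only [Metric.infDist_zero_of_mem h1] at h3
    linarith
  · have h1 : x ∈ (U s)ᶜ := fun hv => (hp' s).dj _ hv h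
    have h2 := ((hp' s).oV.isClosed_compl.notMem_iff_infDist_pos (nV s)).1 (not_not.2 h)
    have h3 := hx s
    simp only [Metric.infDist_zero_of_mem h1] at h3
    linarith

theorem Cov.sub {O O' : Set Q} {S : Set ℕ} (h : Cov O S) (hO : O' ⊆ O) : Cov O' S := by
  obtain ⟨U, V, hp, hc⟩ := h
  exact ⟨U, V, hp, fun x hx => hc x (hO hx)⟩

theorem Cov.mono {O : Set Q} {S S' : Set ℕ} (h : Cov O S) (hS : S ⊆ S') : Cov O S' := by
  classical
  obtain ⟨U, V, hp, hc⟩ := h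
  refine ⟨fun s => if s ∈ S then U s else {x | (x s : ℝ) < 1 / 2},
    fun s => if s ∈ S then V s else {x | 1 / 2 < (x s : ℝ)}, fun s _ => ?_, fun x hx => ?_⟩
  · by_cases h : s ∈ S
    · simp only [h, if_true]; exact hp s h
    · simp only [h, if_false]; exact part_level s _ (by norm_num) (by norm_num)
  · obtain ⟨s, hs, h⟩ := hc x hx
    exact ⟨s, hS hs, by simpa only [hs, if_true] using h⟩

theorem cov_empty (S : Set ℕ) : Cov ∅ S :=
  Cov.mono (S := ∅) ⟨fun _ => ∅, fun _ => ∅, fun _ h => h.elim, fun _ h => h.elim⟩ (empty_subset S)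

theorem cov_iUnion {ι : Type} (D : ι → Set Q) (S : ι → Set ℕ) (h : ∀ i, Cov (D i) (S i))
    (hd : ∀ i j s, s ∈ S i → s ∈ S j → i = j) : Cov (⋃ i, D i) (⋃ i, S i) := by
  classical
  choose U V hp hc using h
  have hs : ∀ s, s ∈ ⋃ i, S i → ∃ i, s ∈ S i := fun s h => mem_iUnion.1 h
  choose g hg using hs
  refine ⟨fun s => if h : s ∈ ⋃ i, S i then U (g s h) s else ∅,
    fun s => if h : s ∈ ⋃ i, S i then V (g s h) s else ∅, fun s h => ?_, fun x hx => ?_⟩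
  · simp only [h, dif_pos]; exact hp _ s (hg s h)
  · obtain ⟨i, hi⟩ := mem_iUnion.1 hx
    obtain ⟨s, hs, h⟩ := hc i x hi
    have h' : s ∈ ⋃ i, S i := mem_iUnion.2 ⟨i, hs⟩
    refine ⟨s, h', ?_⟩
    simp only [h', dif_pos]
    rw [hd _ _ s (hg s h') hs]
    exact h

/-- The cut lemma. -/
theorem cut {K : Set Q} {S : Set ℕ} (hK : ¬ Cov K S) (L : ℕ → Set Q) (T : ℕ → Set ℕ)
    (hT : ∀ j, T j ⊆ S) (hd : ∀ i j s, s ∈ T i → s ∈ T j → i = j)
    (hL : ∀ j, Cov (L j)ᶜ (T (j + 1))) : ¬ Cov (K ∩ ⋂ j, L j) (T 0) := by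
  intro h
  apply hK
  have := cov_iUnion (fun j : ℕ => match j with | 0 => K ∩ ⋂ j, L j | j + 1 => (L j)ᶜ) T
    (fun j => match j with | 0 => h | j + 1 => hL j) hd
  refine (this.sub fun x hx => ?_).mono (iUnion_subset hT)
  by_cases hx' : ∀ j, x ∈ L j
  · exact mem_iUnion.2 ⟨0, hx, mem_iInter.2 hx'⟩
  · push Not at hx'
    obtain ⟨j, hj⟩ := hx'
    exact mem_iUnion.2 ⟨j + 1, hj⟩

theorem cov_union {K0 K1 : Set Q} {S : Set ℕ} (c0 : IsClosed K0) (c1 : IsClosed K1)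
    (hd : Disjoint K0 K1) (h0 : Cov K0 S) (h1 : Cov K1 S) : Cov (K0 ∪ K1) S := by
  obtain ⟨W0, W1, o0, o1, s0, s1, hW⟩ := NormalSpace.normal K0 K1 c0 c1 hd
  obtain ⟨U0, V0, p0, k0⟩ := h0
  obtain ⟨U1, V1, p1, k1⟩ := h1
  have hW' : ∀ x, x ∈ W0 → x ∈ W1 → False := fun x a b => disjoint_left.1 hW a b
  refine ⟨fun s => U0 s ∩ W0 ∪ U1 s ∩ W1 ∪ U0 s ∩ U1 s,
    fun s => V0 s ∩ W0 ∪ V1 s ∩ W1 ∪ V0 s ∩ V1 s, fun s hs => ⟨?_, ?_, ?_, ?_, ?_⟩, ?_⟩
  · exact (((p0 s hs).oU.inter o0).union ((p1 s hs).oU.inter o1)).union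
      ((p0 s hs).oU.inter (p1 s hs).oU)
  · exact (((p0 s hs).oV.inter o0).union ((p1 s hs).oV.inter o1)).union
      ((p0 s hs).oV.inter (p1 s hs).oV)
  · have d0 := (p0 s hs).dj
    have d1 := (p1 s hs).dj
    rintro x ((⟨a, b⟩ | ⟨a, b⟩) | ⟨a, b⟩) ((⟨c, d⟩ | ⟨c, d⟩) | ⟨c, d⟩)
    exacts [d0 x a c, hW' x b d, d0 x a c, hW' x d b, d1 x a c, d1 x a d, d0 x a c, d1 x b c,
      d0 x a c]
  · exact fun x h => Or.inr ⟨(p0 s hs).a0 x h, (p1 s hs).a0 x h⟩
  · exact fun x h => Or.inr ⟨(p0 s hs).a1 x h, (p1 s hs).a1 x h⟩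
  · rintro x (hx | hx)
    · obtain ⟨s, hs, h | h⟩ := k0 x hx
      · exact ⟨s, hs, Or.inl (Or.inl (Or.inl ⟨h, s0 hx⟩))⟩
      · exact ⟨s, hs, Or.inr (Or.inl (Or.inl ⟨h, s0 hx⟩))⟩
    · obtain ⟨s, hs, h | h⟩ := k1 x hx
      · exact ⟨s, hs, Or.inl (Or.inl (Or.inr ⟨h, s1 hx⟩))⟩
      · exact ⟨s, hs, Or.inr (Or.inl (Or.inr ⟨h, s1 hx⟩))⟩

theorem Cov.opn {K : Set Q} {S : Set ℕ} (h : Cov K S) : ∃ O, IsOpen O ∧ K ⊆ O ∧ Cov O S := by
  obtain ⟨U, V, hp, hc⟩ := h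
  refine ⟨⋃ s ∈ S, U s ∪ V s, isOpen_biUnion fun s hs => (hp s hs).oU.union (hp s hs).oV,
    fun x hx => ?_, U, V, hp, fun x hx => ?_⟩
  · obtain ⟨s, hs, h⟩ := hc x hx
    exact mem_iUnion₂.2 ⟨s, hs, h⟩
  · obtain ⟨s, hs, h⟩ := mem_iUnion₂.1 hx
    exact ⟨s, hs, h⟩

theorem not_cov_iInter (K : ℕ → Set Q) (S : Set ℕ) (hc : ∀ n, IsClosed (K n))
    (hd : ∀ n, K (n + 1) ⊆ K n) (h : ∀ n, ¬ Cov (K n) S) : ¬ Cov (⋂ n, K n) S := by
  intro hcov
  obtain ⟨O, hO, hs, hcO⟩ := hcov.opn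
  have hanti : Antitone K := antitone_nat_of_succ_le hd
  obtain ⟨n, hn⟩ := exists_subset_nhds_of_compactSpace (V := K) hanti.directed_ge hc
    (U := O) (fun x hx => hO.mem_nhds (hs hx))
  exact h n (hcO.sub hn)

/-- A countable family of open sets squeezing between compact and open sets. -/
theorem exists_W (T : Type) [TopologicalSpace T] [SecondCountableTopology T] :
    ∃ W : ℕ → Set T, (∀ n, IsOpen (W n)) ∧
      ∀ K O : Set T, IsCompact K → IsOpen O → K ⊆ O → ∃ n, K ⊆ W n ∧ W n ⊆ O := by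
  classical
  obtain ⟨b, hbc, -, hb⟩ := TopologicalSpace.exists_countable_basis T
  have : Countable b := hbc.to_subtype
  obtain ⟨e, he⟩ := exists_surjective_nat (Finset b)
  refine ⟨fun n => ⋃ u ∈ e n, (u : Set T), fun n => isOpen_biUnion fun u _ => hb.isOpen u.2,
    fun K O hK hO hs => ?_⟩
  obtain ⟨t, ht⟩ := hK.elim_finite_subcover (fun u : {u : b // (u : Set T) ⊆ O} => (u.1 : Set T))
    (fun u => hb.isOpen u.1.2) (fun x hx => by
      obtain ⟨u, hu, hxu, huO⟩ := hb.exists_subset_of_mem_open (hs hx) hO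
      exact mem_iUnion.2 ⟨⟨⟨u, hu⟩, huO⟩, hxu⟩)
  obtain ⟨n, hn⟩ := he (t.image Subtype.val)
  refine ⟨n, fun x hx => ?_, fun x hx => ?_⟩
  · obtain ⟨u, hu, hxu⟩ := mem_iUnion₂.1 (ht hx)
    refine mem_iUnion₂.2 ⟨u.1, ?_, hxu⟩
    rw [hn]
    exact Finset.mem_image_of_mem _ hu
  · obtain ⟨u, hu, hxu⟩ := mem_iUnion₂.1 hx
    rw [hn] at hu
    obtain ⟨v, -, rfl⟩ := Finset.mem_image.1 hu
    exact v.2 hxu

/-- Coordinates available at an address. -/
def emb : List ℕ → ℕ → ℕ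
  | [], n => 2 * n + 1
  | j :: a, n => emb a (Nat.pair j n)

theorem emb_inj : ∀ a : List ℕ, Function.Injective (emb a)
  | [] => fun m n h => by simp only [emb] at h; omega
  | j :: a => fun m n h => by
    have := emb_inj a h
    simpa using this

def S (a : List ℕ) : Set ℕ := range (emb a)

theorem S_sub (j : ℕ) (a : List ℕ) : S (j :: a) ⊆ S a := by
  rintro _ ⟨n, rfl⟩
  exact ⟨_, rfl⟩

theorem S_dj (a : List ℕ) (i j s : ℕ) (hi : s ∈ S (i :: a)) (hj : s ∈ S (j :: a)) : i = j := by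
  obtain ⟨m, rfl⟩ := hi
  obtain ⟨n, hn⟩ := hj
  have := emb_inj a hn
  simp only [Nat.pair_eq_pair] at this
  exact this.1.symm

end Pool.Agent.H83.Sh1
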