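import Pool.Agent.H83.Hi1
import Pool.Agent.H83.Sh1

/-! An effectively closed hereditarily strongly infinite-dimensional set. -/

set_option autoImplicit false

namespace Pool.Agent.H83.Hi

open Pool.Agent.H37 Set unitInterval Topology

def tN (t : ℕ) : ℕ := (Denumerable.ofNat (ℕ × List ℕ) t).1
def tc (t : ℕ) : List ℕ := (Denumerable.ofNat (ℕ × List ℕ) t).2

noncomputable def F (t : ℕ) (x : Q) : ℝ :=
  ‖fun i : Fin (tc t).length => ((tN t : ℝ) + 1) * x i - (tc t).getD i 0‖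

theorem F_cont (t : ℕ) : Continuous (F t) :=
  continuous_norm.comp (continuous_pi fun i => (continuous_const.mul (cco i)).sub continuous_const)

theorem rv1 (c D N T : ℕ) (y : ℝ) : rv (c * (D + 1), T, D * N + D + N) < y ↔
    -((T : ℝ) / (D + 1)) < (N + 1) * y - c := by
  rw [rv, div_lt_iff₀ (by positivity), neg_lt, lt_div_iff₀ (by positivity)]
  push_cast
  constructor <;> intro h <;> linarith

theorem rv2 (c D N T : ℕ) (y : ℝ) : y < rv (c * (D + 1) + T, 0, D * N + D + N) ↔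
    (N + 1) * y - c < (T : ℝ) / (D + 1) := by
  rw [rv, lt_div_iff₀ (by positivity), lt_div_iff₀ (by positivity)]
  push_cast
  constructor <;> intro h <;> linarith

theorem rv3 (c D N T : ℕ) (y : ℝ) : y < rv (c * (D + 1), T, D * N + D + N) ↔
    (T : ℝ) / (D + 1) < -((N + 1) * y - c) := by
  rw [rv, lt_div_iff₀ (by positivity), div_lt_iff₀ (by positivity)]
  push_cast
  constructor <;> intro h <;> linarith

theorem rv4 (c D N T : ℕ) (y : ℝ) : rv (c * (D + 1) + T, 0, D * N + D + N) < y ↔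
    (T : ℝ) / (D + 1) < (N + 1) * y - c := by
  rw [rv, div_lt_iff₀ (by positivity), div_lt_iff₀ (by positivity)]
  push_cast
  constructor <;> intro h <;> linarith

theorem eo_Flt : EO fun (a : ℕ × ℕ × ℕ) x => F a.1 x < ((a.2.1 + 1 : ℕ) : ℝ) / (a.2.2 + 1) := by
  refine ((eo_itv (i := fun q : (ℕ × ℕ × ℕ) × ℕ => q.2)
    (r := fun q => ((tc q.1.1).getD q.2 0 * (q.1.2.2 + 1), q.1.2.1 + 1,
      q.1.2.2 * tN q.1.1 + q.1.2.2 + tN q.1.1))
    (t := fun q => ((tc q.1.1).getD q.2 0 * (q.1.2.2 + 1) + (q.1.2.1 + 1), 0,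
      q.1.2.2 * tN q.1.1 + q.1.2.2 + tN q.1.1)) (by fun_prop) (by unfold tc tN; fun_prop)
    (by unfold tc tN; fun_prop)).all (L := fun a => List.range (tc a.1).length)
    (by unfold tc; fun_prop)).of_iff fun a x => ?_
  simp only [F, rv1, rv2, List.mem_range]
  rw [pi_norm_lt_iff (by positivity)]
  simp only [Real.norm_eq_abs, abs_lt]
  exact ⟨fun h i hi => h ⟨i, hi⟩, fun h i => h i i.2⟩

theorem eo_Fgt : EO fun (a : ℕ × ℕ × ℕ) x => (a.2.1 : ℝ) / (a.2.2 + 1) < F a.1 x := by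
  refine (EO.ex ((eo_bool (f := fun q : (ℕ × ℕ × ℕ) × ℕ => decide (q.2 < (tc q.1.1).length))
    (by unfold tc; fun_prop)).and ((eo_gt (i := fun q : (ℕ × ℕ × ℕ) × ℕ => q.2)
    (r := fun q => ((tc q.1.1).getD q.2 0 * (q.1.2.2 + 1) + q.1.2.1, 0,
      q.1.2.2 * tN q.1.1 + q.1.2.2 + tN q.1.1)) (by fun_prop) (by unfold tc tN; fun_prop)).or
    (eo_lt (i := fun q : (ℕ × ℕ × ℕ) × ℕ => q.2)
    (r := fun q => ((tc q.1.1).getD q.2 0 * (q.1.2.2 + 1), q.1.2.1,
      q.1.2.2 * tN q.1.1 + q.1.2.2 + tN q.1.1)) (by fun_prop) (by unfold tc tN; fun_prop))))).of_iff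
    fun a x => ?_
  simp only [F, rv3, rv4, decide_eq_true_eq]
  rw [← not_le, pi_norm_le_iff_of_nonneg (by positivity)]
  simp only [Real.norm_eq_abs, not_forall, not_le, lt_abs]
  exact ⟨fun ⟨i, h⟩ => ⟨i, i.2, h⟩, fun ⟨i, hi, h⟩ => ⟨⟨i, hi⟩, h⟩⟩

def bit (r : ℝ) (k b : ℕ) : Prop := ∃ m : ℕ,
  ((8 * m + 4 * b + 7 : ℕ) : ℝ) / ((2 * 4 ^ (k + 1) - 1 : ℕ) + 1) < r ∧
    r < ((8 * m + 4 * b + 10 + 1 : ℕ) : ℝ) / ((2 * 4 ^ (k + 1) - 1 : ℕ) + 1)

theorem bit_iff {r : ℝ} {k b : ℕ} : bit r k b ↔ ∃ m : ℕ,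
    (8 * m + 4 * b + 7 : ℝ) < 2 * 4 ^ (k + 1) * r ∧ 2 * 4 ^ (k + 1) * r < 8 * m + 4 * b + 11 := by
  have : (((2 * 4 ^ (k + 1) - 1 : ℕ) : ℝ) + 1) = 2 * 4 ^ (k + 1) := by
    rw [Nat.cast_sub (Nat.one_le_iff_ne_zero.2 (by positivity))]
    push_cast
    ring
  refine exists_congr fun m => ?_
  rw [this, div_lt_iff₀' (by positivity), lt_div_iff₀' (by positivity)]
  push_cast
  rw [add_assoc _ (10 : ℝ)]
  norm_num

theorem bit_excl {r : ℝ} {k : ℕ} (h : bit r k 0) (h' : bit r k 1) : False := by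
  obtain ⟨m, a, b⟩ := bit_iff.1 h
  obtain ⟨m', a', b'⟩ := bit_iff.1 h'
  push_cast at a b a' b'
  have h1 : (m' : ℝ) < m := by linarith
  have h2 : (m : ℝ) < m' + 1 := by linarith
  norm_cast at h1 h2
  omega

theorem exists_r (p : ℕ → Bool) : ∃ r ∈ Icc (1 : ℝ) 2, ∀ k, bit r k (p k).toNat := by
  obtain ⟨a, a0, a1⟩ : ∃ a : ℕ → ℕ, a 0 = 0 ∧ ∀ k, a (k + 1) = 4 * a k + 3 + 2 * (p k).toNat :=
    ⟨fun n => Nat.rec 0 (fun k x => 4 * x + 3 + 2 * (p k).toNat) n, rfl, fun _ => rfl⟩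
  have ha : ∀ k : ℕ, (a (k + 1) : ℝ) = 4 * (a k : ℝ) + 3 + 2 * ((p k).toNat : ℝ) := fun k => by
    rw [a1]
    push_cast
    rfl
  have pb : ∀ k, ((p k).toNat : ℝ) ≤ 1 := fun k => by cases p k <;> simp
  obtain ⟨r, hr⟩ := IsCompact.nonempty_iInter_of_sequence_nonempty_isCompact_isClosed
    (fun k => Icc (((a k : ℝ) + 1) / 4 ^ k) ((a k + 2) / 4 ^ k)) (fun k => by
      refine Icc_subset_Icc ?_ ?_ <;> rw [ha, pow_succ, div_le_div_iff₀ (by positivity) (by positivity)]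
      · nlinarith [pow_pos (show (0 : ℝ) < 4 by norm_num) k,
          mul_nonneg (Nat.cast_nonneg (α := ℝ) (p k).toNat) (pow_pos (show (0 : ℝ) < 4 by norm_num) k).le]
      · nlinarith [pow_pos (show (0 : ℝ) < 4 by norm_num) k,
          mul_le_mul_of_nonneg_right (pb k) (pow_pos (show (0 : ℝ) < 4 by norm_num) k).le])
    (fun k => nonempty_Icc.2 (by gcongr; norm_num)) isCompact_Icc fun k => isClosed_Icc
  refine ⟨r, by simpa [a0] using mem_iInter.1 hr 0, fun k => bit_iff.2 ⟨a k, ?_⟩⟩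
  obtain ⟨h1, h2⟩ := mem_iInter.1 hr (k + 1)
  rw [ha, div_le_iff₀ (by positivity)] at h1
  rw [ha, le_div_iff₀ (by positivity)] at h2
  constructor <;> linarith

theorem eo_bit : EO fun (a : ℕ × ℕ × ℕ) x => bit (F a.1 x) a.2.1 a.2.2 :=
  EO.ex ((eo_Fgt.comp (g := fun q : (ℕ × ℕ × ℕ) × ℕ =>
    (q.1.1, 8 * q.2 + 4 * q.1.2.2 + 7, 2 * 4 ^ (q.1.2.1 + 1) - 1)) (by fun_prop)).and
    (eo_Flt.comp (g := fun q : (ℕ × ℕ × ℕ) × ℕ =>
      (q.1.1, 8 * q.2 + 4 * q.1.2.2 + 10, 2 * 4 ^ (q.1.2.1 + 1) - 1)) (by fun_prop)))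

def Out (k : ℕ) (x : Q) : Prop :=
  ∃ j, j < (bx k).length ∧ ((x j : ℝ) < rv (lo k j) ∨ rv (hi k j) < x j)

theorem eo_Out : EO Out :=
  (EO.ex ((eo_bool (f := fun q : ℕ × ℕ => decide (q.2 < (bx q.1).length))
    (by unfold bx; fun_prop)).and ((eo_lt (i := fun q : ℕ × ℕ => q.2) (r := fun q => lo q.1 q.2)
      (by fun_prop) (by unfold lo bx; fun_prop)).or (eo_gt (i := fun q : ℕ × ℕ => q.2)
      (r := fun q => hi q.1 q.2) (by fun_prop) (by unfold hi bx; fun_prop))))).of_iff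
    fun _ _ => by simp [Out]

def side (a : ℕ × ℕ) (x : Q) : Prop := ∃ k, x ∈ Box k ∧
  bit (F (a.1.unpair.1 - 1) x) (Nat.pair a.1 (2 * k + a.2)) 1 ∧ ∀ j ∈ List.range (k + 1),
    bit (F (a.1.unpair.1 - 1) x) (Nat.pair a.1 (2 * j + (1 - a.2))) 0 ∨ Out j x

theorem eo_side : EO side :=
  EO.ex ((eo_box (g := fun q : (ℕ × ℕ) × ℕ => q.2) (by fun_prop)).and
    ((eo_bit.comp (g := fun q : (ℕ × ℕ) × ℕ =>
      (q.1.1.unpair.1 - 1, Nat.pair q.1.1 (2 * q.2 + q.1.2), 1)) (by fun_prop)).and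
    (((eo_bit.comp (g := fun q : ((ℕ × ℕ) × ℕ) × ℕ =>
      (q.1.1.1.unpair.1 - 1, Nat.pair q.1.1.1 (2 * q.2 + (1 - q.1.1.2)), 0)) (by fun_prop)).or
      (eo_Out.comp (g := fun q : ((ℕ × ℕ) × ℕ) × ℕ => q.2) (by fun_prop))).all
      (L := fun q => List.range (q.2 + 1)) (by fun_prop))))

theorem not_out {k : ℕ} {x : Q} (h : x ∈ Box k) : ¬ Out k x := fun ⟨j, hj, o⟩ =>
  o.elim (lt_asymm (mem_Box.1 h j hj).1) (lt_asymm (mem_Box.1 h j hj).2)

theorem side_dj {s : ℕ} {x : Q} (h : side (s, 0) x) (h' : side (s, 1) x) : False := by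
  obtain ⟨k, a, b, c⟩ := h
  obtain ⟨k', a', b', c'⟩ := h'
  rcases le_total k k' with l | l
  · exact (c' k (List.mem_range.2 (by omega))).elim (fun o => bit_excl o b) (not_out a)
  · exact (c k' (List.mem_range.2 (by omega))).elim (fun o => bit_excl o b') (not_out a')

def U (s : ℕ) (x : Q) : Prop := (x s : ℝ) < 1 / 3 ∨ (x s : ℝ) < 2 / 3 ∧ side (s, 0) x
def V (s : ℕ) (x : Q) : Prop := 2 / 3 < (x s : ℝ) ∨ 1 / 3 < (x s : ℝ) ∧ side (s, 1) x

theorem r13 : rv (1, 0, 2) = 1 / 3 := by norm_num [rv]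
theorem r23 : rv (2, 0, 2) = 2 / 3 := by norm_num [rv]

theorem eo_U : EO U :=
  ((eo_lt (i := fun s : ℕ => s) (r := fun _ => (1, 0, 2)) (by fun_prop) (by fun_prop)).or
    ((eo_lt (i := fun s : ℕ => s) (r := fun _ => (2, 0, 2)) (by fun_prop) (by fun_prop)).and
      (eo_side.comp (g := fun s : ℕ => (s, 0)) (by fun_prop)))).of_iff fun _ _ => by
    rw [r13, r23, U]

theorem eo_V : EO V :=
  ((eo_gt (i := fun s : ℕ => s) (r := fun _ => (2, 0, 2)) (by fun_prop) (by fun_prop)).or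
    ((eo_gt (i := fun s : ℕ => s) (r := fun _ => (1, 0, 2)) (by fun_prop) (by fun_prop)).and
      (eo_side.comp (g := fun s : ℕ => (s, 1)) (by fun_prop)))).of_iff fun _ _ => by
    rw [r13, r23, V]

theorem part (s : ℕ) {A B : Set Q} (oA : IsOpen {x : Q | (x s : ℝ) < 1 / 3 ∨ (x s : ℝ) < 2 / 3 ∧ x ∈ A})
    (oB : IsOpen {x : Q | 2 / 3 < (x s : ℝ) ∨ 1 / 3 < (x s : ℝ) ∧ x ∈ B})
    (d : ∀ x ∈ A, x ∈ B → False) : Sh1.IsPart s {x | (x s : ℝ) < 1 / 3 ∨ (x s : ℝ) < 2 / 3 ∧ x ∈ A}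
      {x | 2 / 3 < (x s : ℝ) ∨ 1 / 3 < (x s : ℝ) ∧ x ∈ B} := by
  refine ⟨oA, oB, ?_, fun x h => Or.inl (by rw [h]; norm_num), fun x h => Or.inl (by rw [h]; norm_num)⟩
  rintro x (a | a) (b | b)
  exacts [by linarith, by linarith [b.1], by linarith [a.1], d x a.2 b.2]

theorem sid_of (Y : Set Q) (s : ℕ → ℕ) (H : ∀ A B : ℕ → Set Q, (∀ i, IsOpen (A i)) →
    (∀ i, IsOpen (B i)) → (∀ i, Disjoint (A i) (B i)) → ∃ y ∈ Y, ∀ i,
      ¬ ((y (s i) : ℝ) < 2 / 3 ∧ y ∈ A i) ∧ ¬ (1 / 3 < (y (s i) : ℝ) ∧ y ∈ B i)) : SID Y := by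
  have c : ∀ i, Continuous fun y : Y => (y.1 (s i) : ℝ) := fun i =>
    (cco _).comp continuous_subtype_val
  refine ⟨fun i => {y | (y.1 (s i) : ℝ) ≤ 1 / 3}, fun i => {y | 2 / 3 ≤ (y.1 (s i) : ℝ)},
    fun i => ⟨isClosed_le (c i) continuous_const, isClosed_le continuous_const (c i),
      disjoint_left.2 fun y a b => by
        simp only [mem_setOf_eq] at a b
        linarith⟩, fun U V h => ?_⟩
  have sep : ∀ U V : Set Y, IsOpen V → Disjoint U V →
      Disjoint (closure (Subtype.val '' U)) (Subtype.val '' V) := by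
    rintro U V hV d
    obtain ⟨O, hO, rfl⟩ := isOpen_induced_iff.1 hV
    refine (Disjoint.closure_left (t := O) ?_ hO).mono_right (image_preimage_subset _ _)
    rw [disjoint_left]
    rintro _ ⟨y, hy, rfl⟩ k
    exact disjoint_left.1 d hy k
  choose A B oA oB sA sB dAB using fun i => separatedNhds_iff_disjoint.2
    (CompletelyNormalSpace.completely_normal (sep _ _ (h i).2.1 (h i).2.2.1)
      (sep _ _ (h i).1 (h i).2.2.1.symm).symm)
  obtain ⟨y, hy, k⟩ := H A B oA oB dAB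
  refine ⟨⟨y, hy⟩, mem_iInter.2 fun i => ?_⟩
  rintro (a | a)
  · exact (k i).1 ⟨not_le.1 fun b => disjoint_left.1 (h i).2.2.1 a ((h i).2.2.2.2 b),
      sA i ⟨_, a, rfl⟩⟩
  · exact (k i).2 ⟨not_le.1 fun b => disjoint_left.1 (h i).2.2.1 ((h i).2.2.2.1 b) a,
      sB i ⟨_, a, rfl⟩⟩

def P : Set Q := {x | ∀ s : ℕ, s.unpair.1 ≠ 0 → ¬ (U s x ∨ V s x)}

theorem P_sid : SID P := by
  have := Sh1.cut Sh1.not_cov_univ
    (fun j => {x | ¬ (U (Nat.pair (j.unpair.1 + 1) j.unpair.2) x ∨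
      V (Nat.pair (j.unpair.1 + 1) j.unpair.2) x)})
    (fun j => match j with
      | 0 => {s | s.unpair.1 = 0}
      | j + 1 => {Nat.pair (j.unpair.1 + 1) j.unpair.2}) (fun _ => subset_univ _)
    (fun i j s hi hj => by
      rcases i with _ | i <;> rcases j with _ | j
      · rfl
      · rw [mem_singleton_iff.1 hj] at hi
        simp at hi
      · rw [mem_singleton_iff.1 hi] at hj
        simp at hj
      · rw [mem_singleton_iff.1 hi, mem_singleton_iff, Nat.pair_eq_pair] at hj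
        rw [← Nat.pair_unpair i, ← Nat.pair_unpair j, Nat.succ_injective hj.1, hj.2])
    fun j => ⟨fun s => {x | U s x}, fun s => {x | V s x}, fun s _ =>
      part s (A := {x | side (s, 0) x}) (B := {x | side (s, 1) x}) (eo_U.isOpen s) (eo_V.isOpen s)
        fun x => side_dj, fun x hx => ⟨_, rfl, not_not.1 hx⟩⟩
  refine sid_of P (Nat.pair 0) fun A B oA oB d => by_contra fun k => this ?_
  refine ⟨fun s => {x | (x s : ℝ) < 1 / 3 ∨ (x s : ℝ) < 2 / 3 ∧ x ∈ A s.unpair.2},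
    fun s => {x | 2 / 3 < (x s : ℝ) ∨ 1 / 3 < (x s : ℝ) ∧ x ∈ B s.unpair.2}, fun s _ => part s
      ((isOpen_lt (cco s) continuous_const).union ((isOpen_lt (cco s) continuous_const).inter (oA _)))
      ((isOpen_lt continuous_const (cco s)).union ((isOpen_lt continuous_const (cco s)).inter (oB _)))
      fun x a b => disjoint_left.1 (d _) a b, fun x hx => ?_⟩
  have hP : x ∈ P := fun s hs => by
    have := mem_iInter.1 hx.2 (Nat.pair (s.unpair.1 - 1) s.unpair.2)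
    rwa [Nat.unpair_pair, Nat.sub_add_cancel (Nat.pos_of_ne_zero hs), Nat.pair_unpair] at this
  by_contra k'
  refine k ⟨x, hP, fun i => ⟨fun a => k' ⟨Nat.pair 0 i, by simp, Or.inl (Or.inr ?_)⟩,
    fun a => k' ⟨Nat.pair 0 i, by simp, Or.inr (Or.inr ?_)⟩⟩⟩ <;> simpa using a

theorem exists_test {Y : Set Q} (h : ¬ ZeroDim Y) : ∃ t, ∀ r ∈ Icc (1 : ℝ) 2, ∃ y ∈ Y, F t y = r := by
  simp only [ZeroDim, not_forall] at h
  obtain ⟨y, O, hO, hy, h⟩ := h
  obtain ⟨O, hO', rfl⟩ := isOpen_induced_iff.1 hO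
  obtain ⟨n, δ, hδ, hn⟩ := exists_nd hO' hy
  obtain ⟨N, hN⟩ := exists_nat_gt (3 / δ)
  let c := (List.range n).map fun i => ⌊((N : ℝ) + 1) * y.1 i⌋₊
  have e1 : tN (Encodable.encode (N, c)) = N := by rw [tN, Denumerable.ofNat_encode]
  have e2 : tc (Encodable.encode (N, c)) = c := by rw [tc, Denumerable.ofNat_encode]
  generalize Encodable.encode (N, c) = t at e1 e2
  have len : (tc t).length = n := by simp [e2, c]
  have f1 : F t y < 1 := by
    rw [F, pi_norm_lt_iff one_pos]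
    intro i
    have : (tc t).getD i 0 = ⌊((N : ℝ) + 1) * y.1 i⌋₊ := by
      have l : (i : ℕ) < n := i.2.trans_eq len
      generalize (i : ℕ) = j at l
      simp [e2, c, List.getD_eq_getElem?_getD, l]
    rw [this, e1, Real.norm_eq_abs, abs_lt]
    have a := Nat.floor_le (mul_nonneg (by positivity : (0 : ℝ) ≤ N + 1) (y.1 i).2.1)
    constructor <;> linarith [Nat.lt_floor_add_one (((N : ℝ) + 1) * y.1 i)]
  refine ⟨t, fun r hr => by_contra fun k => h ⟨{z | F t z < r}, ⟨?_, isOpen_lt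
    ((F_cont t).comp continuous_subtype_val) continuous_const⟩, f1.trans_le hr.1, fun z hz => ?_⟩⟩
  · have : {z : Y | F t z < r} = {z : Y | F t z ≤ r} :=
      Set.ext fun z => ⟨fun a => le_of_lt (show F t z < r from a), fun a => lt_of_le_of_ne a fun b => k ⟨z, z.2, b⟩⟩
    rw [this]
    exact isClosed_le ((F_cont t).comp continuous_subtype_val) continuous_const
  · refine hn z fun i hi => ?_
    have a := (pi_norm_lt_iff one_pos).1 f1 ⟨i, len ▸ hi⟩
    have b := (pi_norm_lt_iff two_pos).1 (show F t z < 2 from lt_of_lt_of_le hz hr.2) ⟨i, len ▸ hi⟩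
    rw [e1, Real.norm_eq_abs, abs_lt] at a b
    rw [div_lt_iff₀ hδ] at hN
    dsimp only at a b
    have p : (0 : ℝ) < N + 1 := by positivity
    rw [abs_le]
    constructor <;> refine le_of_mul_le_mul_left ?_ p <;> linarith [a.1, a.2, b.1, b.2]

theorem P_her {Y : Set Q} (hY : Y ⊆ P) (h : ¬ ZeroDim Y) : SID Y := by
  classical
  obtain ⟨t, ht⟩ := exists_test h
  refine sid_of Y (Nat.pair (t + 1)) fun A B oA oB d => ?_
  let C : ℕ → ℕ → Set Q := fun b i => if b = 0 then A i else B i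
  obtain ⟨r, hr, hb⟩ := exists_r fun k =>
    decide (∀ x, ¬ Out (k.unpair.2 / 2) x → x ∈ C (k.unpair.2 % 2) k.unpair.1.unpair.2)
  obtain ⟨y, hy, rfl⟩ := ht r hr
  have key : ∀ i b, b < 2 → IsOpen (C b i) → y ∈ C b i → y ∉ C (1 - b) i →
      side (Nat.pair (t + 1) i, b) y := by
    intro i b b2 o m m'
    obtain ⟨n, δ, hδ, hn⟩ := exists_nd o m
    obtain ⟨k, k1, k2, k3⟩ := exists_box y n δ hδ
    refine ⟨k, k1, ?_, fun j _ => ?_⟩
    · have := hb (Nat.pair (Nat.pair (t + 1) i) (2 * k + b))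
      simp only [Nat.unpair_pair, show (2 * k + b) / 2 = k by omega,
        show (2 * k + b) % 2 = b by omega] at this
      rw [decide_eq_true] at this
      · simpa using this
      refine fun x hx => hn x fun j hj => ?_
      simp only [Out, not_exists, not_and, not_or, not_lt] at hx
      have a := hx j (k2 ▸ hj)
      have a' := k3 j hj
      rw [abs_le]
      constructor <;> linarith [a.1, a.2, a'.1, a'.2]
    · have := hb (Nat.pair (Nat.pair (t + 1) i) (2 * j + (1 - b)))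
      simp only [Nat.unpair_pair, show (2 * j + (1 - b)) / 2 = j by omega,
        show (2 * j + (1 - b)) % 2 = 1 - b by omega] at this
      by_cases w : Out j y
      · exact Or.inr w
      rw [decide_eq_false fun k => m' (k y w)] at this
      exact Or.inl (by simpa using this)
  refine ⟨y, hy, fun i => ⟨fun a => hY hy (Nat.pair (t + 1) i) (by simp) (Or.inl (Or.inr ⟨a.1,
    key i 0 two_pos (oA i) a.2 (disjoint_left.1 (d i) a.2)⟩)), fun a => hY hy (Nat.pair (t + 1) i)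
    (by simp) (Or.inr (Or.inr ⟨a.1, key i 1 one_lt_two (oB i) a.2 (disjoint_right.1 (d i) a.2)⟩))⟩⟩

theorem main : ∃ W : Set ℕ, REPred (· ∈ W) ∧ HSID (⋃ e ∈ W, Box e)ᶜ := by
  obtain ⟨W, hW, h⟩ := EO.ex (α := Unit) ((eo_bool (f := fun q : Unit × ℕ => q.2.unpair.1 != 0)
    (by fun_prop)).and ((eo_U.or eo_V).comp (g := fun q : Unit × ℕ => q.2) (by fun_prop)))
  refine ⟨{e | W ((), e)}, REPred.comp' hW (g := fun e : ℕ => ((), e)) (by fun_prop), ?_⟩
  have : (⋃ e ∈ {e | W ((), e)}, Box e)ᶜ = P := by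
    ext x
    have := h () x
    simp only [bne_iff_ne] at this
    simp only [mem_compl_iff, mem_iUnion, mem_setOf_eq, exists_prop, ← this, P, not_exists, not_and]
  rw [this]
  exact ⟨P_sid, fun Y hY => or_iff_not_imp_left.2 (P_her hY)⟩

end Pool.Agent.H83.Hi
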