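import Mathlib

set_option autoImplicit false

namespace Pool.Agent.H83.Hru
open Finset

abbrev U := ℕ × Bool

def e (R : Finset (Finset U)) (D : Finset U) : ℕ := (R.filter (· ⊆ D)).card

def Shape (r : Finset U) : Prop := r.card = 4 ∧ (r.filter (·.2 = true)).card = 3

def K (R : Finset (Finset U)) : Prop :=
  (∀ r ∈ R, Shape r) ∧ ∀ D : Finset U, 5 ≤ D.card → e R D + 4 ≤ D.card

def Strong (R : Finset (Finset U)) (A : Finset U) : Prop :=
  ∀ D, A ⊆ D → A.card + e R D ≤ D.card + e R A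

variable {R : Finset (Finset U)} {A B D : Finset U}

theorem e_super (R : Finset (Finset U)) (C D : Finset U) :
    e R C + e R D ≤ e R (C ∪ D) + e R (C ∩ D) := by
  unfold e
  rw [← card_union_add_card_inter]
  refine add_le_add (card_le_card fun r hr => ?_) (card_le_card fun r hr => ?_)
  · rcases mem_union.1 hr with h | h
    · exact mem_filter.2 ⟨(mem_filter.1 h).1, (mem_filter.1 h).2.trans subset_union_left⟩
    · exact mem_filter.2 ⟨(mem_filter.1 h).1, (mem_filter.1 h).2.trans subset_union_right⟩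
  · obtain ⟨h1, h2⟩ := mem_inter.1 hr
    exact mem_filter.2 ⟨(mem_filter.1 h1).1, subset_inter (mem_filter.1 h1).2 (mem_filter.1 h2).2⟩

theorem Strong.inter (h : Strong R A) (E : Finset U) :
    (E ∩ A).card + e R E ≤ E.card + e R (E ∩ A) := by
  have h1 := h (E ∪ A) subset_union_right
  have h2 := e_super R E A
  have h3 := card_union_add_card_inter E A
  omega

theorem K.mem_of_small (h : K R) (hD : D.card ≤ 4) {r : Finset U} (hr : r ∈ R) (hrD : r ⊆ D) :
    r = D := eq_of_subset_of_card_le hrD (by rw [(h.1 r hr).1]; exact hD)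

theorem K.e_le_one (h : K R) (hD : D.card ≤ 4) : e R D ≤ 1 :=
  card_le_one.2 fun a ha b hb => by
    rw [h.mem_of_small hD (mem_filter.1 ha).1 (mem_filter.1 ha).2,
      h.mem_of_small hD (mem_filter.1 hb).1 (mem_filter.1 hb).2]

theorem K.of_e_pos (h : K R) (hD : D.card ≤ 4) (he : 0 < e R D) : D ∈ R := by
  obtain ⟨r, hr⟩ := card_pos.1 he
  rw [← h.mem_of_small hD (mem_filter.1 hr).1 (mem_filter.1 hr).2]
  exact (mem_filter.1 hr).1

theorem K.uniq (h : K R) {r r' s : Finset U} (hr : r ∈ R) (hr' : r' ∈ R) (hs : s.card = 3)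
    (h1 : s ⊆ r) (h2 : s ⊆ r') : r = r' := by
  by_contra hne
  have c1 := (h.1 r hr).1
  have c2 := (h.1 r' hr').1
  have c3 := card_union_add_card_inter r r'
  have c4 : 3 ≤ (r ∩ r').card := hs ▸ card_le_card (subset_inter h1 h2)
  have c5 : 5 ≤ (r ∪ r').card := by
    by_contra hc
    exact hne ((h.mem_of_small (by omega) hr subset_union_left).trans
      (h.mem_of_small (by omega) hr' subset_union_right).symm)
  have c6 := h.2 _ c5
  have c7 : 2 ≤ e R (r ∪ r') := by
    rw [← card_pair hne]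
    refine card_le_card fun x hx => ?_
    rcases mem_insert.1 hx with rfl | hx
    · exact mem_filter.2 ⟨hr, subset_union_left⟩
    · rw [mem_singleton.1 hx]; exact mem_filter.2 ⟨hr', subset_union_right⟩
  omega

theorem K.strong_empty (h : K R) : Strong R ∅ := by
  intro D _
  by_cases hD : 5 ≤ D.card
  · have := h.2 D hD
    simp only [card_empty]; omega
  · rcases Nat.eq_zero_or_pos (e R D) with h0 | h0
    · simp [h0]
    · have h1 := h.e_le_one (D := D) (by omega)
      have h2 := (h.1 _ (h.of_e_pos (by omega) h0)).1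
      simp only [card_empty]; omega

theorem K.strong_four (h : K R) (hA : A.card = 4) : Strong R A := by
  intro D hD
  by_cases h5 : 5 ≤ D.card
  · have := h.2 D h5
    omega
  · rw [eq_of_subset_of_card_le hD (by omega)]

theorem e_insert {b : U} (hb : b ∉ A) :
    e R (insert b A) = e R A + (R.filter fun r => r ⊆ insert b A ∧ b ∈ r).card := by
  unfold e
  rw [← card_union_of_disjoint]
  · congr 1
    ext r
    simp only [mem_filter, mem_union]
    constructor
    · rintro ⟨h1, h2⟩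
      by_cases hbr : b ∈ r
      · exact Or.inr ⟨h1, h2, hbr⟩
      · exact Or.inl ⟨h1, (subset_insert_iff_of_notMem hbr).1 h2⟩
    · rintro (⟨h1, h2⟩ | ⟨h1, h2, -⟩)
      · exact ⟨h1, h2.trans (subset_insert _ _)⟩
      · exact ⟨h1, h2⟩
  · rw [disjoint_left]
    intro r h1 h2
    exact hb ((mem_filter.1 h1).2 (mem_filter.1 h2).2.2)

theorem Strong.uniq (h : Strong R A) {b : U} (hb : b ∉ A) {r r' : Finset U} (hr : r ∈ R)
    (hr' : r' ∈ R) (h1 : r ⊆ insert b A) (h2 : r' ⊆ insert b A) (h3 : b ∈ r) (h4 : b ∈ r') :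
    r = r' := by
  have c1 := h _ (subset_insert b A)
  rw [e_insert hb, card_insert_of_notMem hb] at c1
  exact card_le_one.1 (by omega : (R.filter fun r => r ⊆ insert b A ∧ b ∈ r).card ≤ 1) r
    (mem_filter.2 ⟨hr, h1, h3⟩) r' (mem_filter.2 ⟨hr', h2, h4⟩)

theorem Strong.insert (h : Strong R A) {b : U} (hb : b ∉ A) {r : Finset U} (hr : r ∈ R)
    (h1 : r ⊆ insert b A) (h3 : b ∈ r) : Strong R (insert b A) := by
  intro D hD
  have c1 := h D ((subset_insert b A).trans hD)
  have c2 : 0 < (R.filter fun r => r ⊆ Insert.insert b A ∧ b ∈ r).card :=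
    card_pos.2 ⟨r, mem_filter.2 ⟨hr, h1, h3⟩⟩
  rw [e_insert hb, card_insert_of_notMem hb]
  omega

/-- image of a finite set under a permutation -/
def m (g : Equiv.Perm U) (D : Finset U) : Finset U := D.map g.toEmbedding

variable {g g' : Equiv.Perm U}

theorem mem_m {x : U} : x ∈ m g D ↔ g.symm x ∈ D := by simp [m]
theorem mem_m' {x : U} : g x ∈ m g D ↔ x ∈ D := by simp [m]
@[simp] theorem card_m : (m g D).card = D.card := card_map _
theorem m_subset : m g A ⊆ m g B ↔ A ⊆ B := map_subset_map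
theorem m_inj : m g A = m g B ↔ A = B := map_inj
@[simp] theorem m_symm_m : m g.symm (m g A) = A := by ext; simp [mem_m]
@[simp] theorem m_m_symm : m g (m g.symm A) = A := by ext; simp [mem_m]
theorem m_insert {b : U} : m g (insert b A) = insert (g b) (m g A) := by simp [m]
theorem m_congr (h : ∀ a ∈ A, g' a = g a) : m g' A = m g A := by
  ext x
  simp only [m, mem_map, Equiv.coe_toEmbedding]
  constructor
  · rintro ⟨a, ha, rfl⟩; exact ⟨a, ha, (h a ha).symm⟩
  · rintro ⟨a, ha, rfl⟩; exact ⟨a, ha, h a ha⟩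

def SP (g : Equiv.Perm U) : Prop := ∀ u, (g u).2 = u.2

theorem SP.symm (h : SP g) : SP g.symm := fun u => by
  rw [← h (g.symm u), Equiv.apply_symm_apply]

theorem SP.filter (h : SP g) (D : Finset U) :
    ((m g D).filter (·.2 = true)).card = (D.filter (·.2 = true)).card := by
  rw [m, filter_map, card_map]
  congr 1
  ext x
  simp [h x]

theorem SP.shape (h : SP g) (hD : Shape D) : Shape (m g D) :=
  ⟨by rw [card_m, hD.1], by rw [h.filter, hD.2]⟩

theorem SP.swap (h : SP g) {x y : U} (hxy : x.2 = y.2) : SP (Equiv.swap x y * g) := by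
  intro u
  rw [← h u, Equiv.Perm.mul_apply, Equiv.swap_apply_def]
  split_ifs with h1 h2
  · rw [h1, hxy]
  · rw [h2, hxy]
  · rfl

def Iso (R : Finset (Finset U)) (A : Finset U) (g : Equiv.Perm U) : Prop :=
  ∀ r, r ⊆ A → (r ∈ R ↔ m g r ∈ R)

theorem Iso.e_eq (h : Iso R A g) (hD : D ⊆ A) : e R (m g D) = e R D := by
  symm
  refine card_nbij' (m g) (m g.symm) ?_ ?_ ?_ ?_
  · intro r hr
    obtain ⟨h1, h2⟩ := mem_filter.1 hr
    exact mem_filter.2 ⟨(h r (h2.trans hD)).1 h1, m_subset.2 h2⟩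
  · intro r hr
    obtain ⟨h1, h2⟩ := mem_filter.1 hr
    have h3 : m g.symm r ⊆ D := by rw [← m_subset (g := g), m_m_symm]; exact h2
    exact mem_filter.2 ⟨(h _ (h3.trans hD)).2 (by rwa [m_m_symm]), h3⟩
  · intro r _; simp
  · intro r _; simp

def PI (R : Finset (Finset U)) (A : Finset U) (g : Equiv.Perm U) : Prop :=
  SP g ∧ Strong R A ∧ Strong R (m g A) ∧ Iso R A g

theorem PI.symm (h : PI R A g) : PI R (m g A) g.symm := by
  refine ⟨h.1.symm, h.2.2.1, by rw [m_symm_m]; exact h.2.1, fun r hr => ?_⟩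
  have h3 : m g.symm r ⊆ A := by rw [← m_subset (g := g), m_m_symm]; exact hr
  rw [h.2.2.2 _ h3, m_m_symm]

structure St where
  R : Finset (Finset U)
  C : Finset U
  hK : K R
  supp : ∀ r ∈ R, r ⊆ C

def Le (S S' : St) : Prop :=
  S.C ⊆ S'.C ∧ S.R ⊆ S'.R ∧ (∀ r ∈ S'.R, r ⊆ S.C → r ∈ S.R) ∧ Strong S'.R S.C

variable {S S' S'' : St}

theorem Le.e_eq (h : Le S S') (hD : D ⊆ S.C) : e S'.R D = e S.R D := by
  unfold e
  congr 1
  ext r
  simp only [mem_filter]
  exact ⟨fun hr => ⟨h.2.2.1 r hr.1 (hr.2.trans hD), hr.2⟩, fun hr => ⟨h.2.1 hr.1, hr.2⟩⟩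

theorem Le.strong (h : Le S S') (hA : A ⊆ S.C) (hs : Strong S.R A) : Strong S'.R A := by
  intro D hD
  have c1 := h.2.2.2.inter D
  have c2 := hs (D ∩ S.C) (subset_inter hD hA)
  rw [h.e_eq inter_subset_right] at c1
  rw [h.e_eq hA]
  omega

theorem St.strong (S : St) (hD : S.C ⊆ D) : Strong S.R D := by
  intro E hE
  have c1 : e S.R E ≤ e S.R D := card_le_card fun r hr =>
    mem_filter.2 ⟨(mem_filter.1 hr).1, (S.supp r (mem_filter.1 hr).1).trans hD⟩
  have := card_le_card hE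
  omega

theorem Le.refl (S : St) : Le S S := ⟨Subset.rfl, Subset.rfl, fun _ h _ => h, S.strong Subset.rfl⟩

theorem Le.trans (h : Le S S') (h' : Le S' S'') : Le S S'' :=
  ⟨h.1.trans h'.1, h.2.1.trans h'.2.1,
    fun r hr hc => h.2.2.1 r (h'.2.2.1 r hr (hc.trans h.1)) hc, h'.strong h.1 h.2.2.2⟩

theorem Le.pi (h : Le S S') (hA : A ⊆ S.C) (hA' : m g A ⊆ S.C) (hp : PI S.R A g) :
    PI S'.R A g := by
  refine ⟨hp.1, h.strong hA hp.2.1, h.strong hA' hp.2.2.1, fun r hr => ⟨fun h1 => ?_, fun h1 => ?_⟩⟩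
  · exact h.2.1 ((hp.2.2.2 r hr).1 (h.2.2.1 r h1 (hr.trans hA)))
  · exact h.2.1 ((hp.2.2.2 r hr).2 (h.2.2.1 _ h1 ((m_subset.2 hr).trans hA')))

theorem exists_fresh (C : Finset U) (β : Bool) : ∃ c : U, c ∉ C ∧ c.2 = β := by
  refine ⟨(C.sup Prod.fst + 1, β), fun h => ?_, rfl⟩
  exact Nat.not_succ_le_self _ (le_sup (f := Prod.fst) h)

theorem enlarge (S : St) (D : Finset U) : ∃ S', Le S S' ∧ D ⊆ S'.C :=
  ⟨⟨S.R, S.C ∪ D, S.hK, fun r hr => (S.supp r hr).trans subset_union_left⟩,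
    ⟨subset_union_left, Subset.rfl, fun _ h _ => h, S.strong Subset.rfl⟩, subset_union_right⟩

theorem e_insert_rel (r D : Finset U) : e (insert r R) D ≤ e R D + if r ⊆ D then 1 else 0 := by
  unfold e
  rw [filter_insert]
  split_ifs
  · exact card_insert_le _ _
  · simp

theorem addPoint (S : St) {s : Finset U} (hs : s.card = 3) (hno : ∀ r ∈ S.R, ¬ s ⊆ r)
    (hsC : s ⊆ S.C) {c : U} (hc : c ∉ S.C) (hsh : Shape (insert c s)) :
    ∃ S', Le S S' ∧ insert c s ∈ S'.R := by
  have key : ∀ D, c ∈ D → e S.R D ≤ e S.R (D.erase c) := fun D _ =>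
    card_le_card fun r hr => mem_filter.2 ⟨(mem_filter.1 hr).1, subset_erase.2
      ⟨(mem_filter.1 hr).2, fun h => hc (S.supp r (mem_filter.1 hr).1 h)⟩⟩
  refine ⟨⟨insert (insert c s) S.R, insert c S.C, ⟨fun r hr => ?_, fun D hD => ?_⟩,
    fun r hr => ?_⟩, ⟨subset_insert _ _, subset_insert _ _, fun r hr hrC => ?_, fun D hD => ?_⟩,
    mem_insert_self _ _⟩
  · rcases mem_insert.1 hr with rfl | hr
    · exact hsh
    · exact S.hK.1 r hr
  · have c1 := e_insert_rel (R := S.R) (insert c s) D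
    split_ifs at c1 with h
    · have hcD : c ∈ D := h (mem_insert_self _ _)
      have c2 := key D hcD
      have c3 := card_erase_of_mem hcD
      by_cases h5 : 5 ≤ (D.erase c).card
      · have := S.hK.2 _ h5
        omega
      · have c4 : e S.R (D.erase c) = 0 := by
          by_contra h0
          refine hno _ (S.hK.of_e_pos (D := D.erase c) (by omega) (by omega))
            (subset_erase.2 ⟨(subset_insert _ _).trans h, fun h => hc (hsC h)⟩)
        omega
    · have := S.hK.2 D hD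
      omega
  · rcases mem_insert.1 hr with rfl | hr
    · exact insert_subset_insert _ hsC
    · exact (S.supp r hr).trans (subset_insert _ _)
  · rcases mem_insert.1 hr with rfl | hr
    · exact (hc (hrC (mem_insert_self _ _))).elim
    · exact hr
  · have c1 := e_insert_rel (R := S.R) (insert c s) D
    have c2 : e S.R D ≤ e (insert (insert c s) S.R) S.C := card_le_card fun r hr =>
      mem_filter.2 ⟨mem_insert_of_mem (mem_filter.1 hr).1, S.supp r (mem_filter.1 hr).1⟩
    change S.C.card + e (insert (insert c s) S.R) D ≤ D.card + e (insert (insert c s) S.R) S.C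
    split_ifs at c1 with h
    · have c3 := card_le_card (insert_subset (h (mem_insert_self _ _)) hD)
      rw [card_insert_of_notMem hc] at c3
      omega
    · have c3 := card_le_card hD
      omega

theorem step1 (S : St) (hp : PI S.R A g) {b : U} (hb : b ∉ A) {r r' : Finset U} (hr : r ∈ S.R)
    (hrA : r ⊆ insert b A) (hbr : b ∈ r) (hr' : r' ∈ S.R) (hsub : m g (r.erase b) ⊆ r') :
    ∃ g', PI S.R (insert b A) g' ∧ (∀ a ∈ A, g' a = g a) ∧ g' b ∈ S.C := by
  have hs : (r.erase b).card = 3 := by rw [card_erase_of_mem hbr, (S.hK.1 r hr).1]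
  have hsA : r.erase b ⊆ A := subset_insert_iff.1 hrA
  obtain ⟨c, hc, hc'⟩ := exists_mem_notMem_of_card_lt_card
    (s := m g (r.erase b)) (t := r') (by rw [card_m, hs, (S.hK.1 r' hr').1]; norm_num)
  have er' : r' = insert c (m g (r.erase b)) :=
    (eq_of_subset_of_card_le (insert_subset hc hsub)
      (by rw [card_insert_of_notMem hc', card_m, hs, (S.hK.1 r' hr').1])).symm
  have er : r = insert b (r.erase b) := (insert_erase hbr).symm
  have hcA : c ∉ m g A := by
    intro h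
    have h1 : r' ⊆ m g A := by rw [er']; exact insert_subset h (m_subset.2 hsA)
    have h2 := (hp.symm.2.2.2 r' h1).1 hr'
    have h3 : r.erase b ⊆ m g.symm r' := by rw [← m_subset (g := g), m_m_symm]; exact hsub
    have h4 := S.hK.uniq hr h2 hs (erase_subset _ _) h3
    have h5 : m g.symm r' ⊆ A := by rw [← m_subset (g := g), m_m_symm]; exact h1
    exact hb (h5 (h4 ▸ hbr))
  have hsort : (g b).2 = c.2 := by
    have h1 := (S.hK.1 r hr).2
    have h2 := (S.hK.1 r' hr').2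
    have h3 := hp.1.filter (r.erase b)
    rw [er, filter_insert] at h1
    rw [er', filter_insert] at h2
    rw [hp.1 b]
    have n1 : b ∉ (r.erase b).filter (·.2 = true) := fun h => notMem_erase b r (mem_filter.1 h).1
    have n2 : c ∉ (m g (r.erase b)).filter (·.2 = true) := fun h => hc' (mem_filter.1 h).1
    split_ifs at h1 h2 with p q q
    · rw [p, q]
    · rw [card_insert_of_notMem n1] at h1; omega
    · rw [card_insert_of_notMem n2] at h2; omega
    · rw [Bool.eq_false_iff.2 p, Bool.eq_false_iff.2 q]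
  have hag : ∀ a ∈ A, (Equiv.swap (g b) c * g) a = g a := fun a ha =>
    Equiv.swap_apply_of_ne_of_ne (fun h => hb (g.injective h ▸ ha))
      (fun h => hcA (h ▸ mem_m'.2 ha))
  have hgb : (Equiv.swap (g b) c * g) b = c := by simp
  have hmA : m (Equiv.swap (g b) c * g) (insert b A) = insert c (m g A) := by
    rw [m_insert, hgb, m_congr hag]
  have hr'A : r' ⊆ insert c (m g A) := by
    rw [er']; exact insert_subset_insert _ (m_subset.2 hsA)
  have hmr : m (Equiv.swap (g b) c * g) r = r' := by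
    rw [er, m_insert, hgb, m_congr fun a ha => hag a (hsA ha), ← er']
  refine ⟨Equiv.swap (g b) c * g, ⟨hp.1.swap hsort, hp.2.1.insert hb hr hrA hbr, ?_,
    fun t ht => ?_⟩, hag, by rw [hgb]; exact S.supp r' hr' hc⟩
  · rw [hmA]; exact hp.2.2.1.insert hcA hr' hr'A hc
  · by_cases hbt : b ∈ t
    · constructor
      · intro h
        rw [hp.2.1.uniq hb h hr ht hrA hbt hbr, hmr]; exact hr'
      · intro h
        have h1 := hp.2.2.1.uniq hcA h hr' (by rw [← hmA]; exact m_subset.2 ht) hr'A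
          (by have := (mem_m' (g := Equiv.swap (g b) c * g)).2 hbt; rwa [hgb] at this) hc
        rw [← hmr, m_inj] at h1
        rw [h1]; exact hr
    · have htA := (subset_insert_iff_of_notMem hbt).1 ht
      rw [m_congr fun a ha => hag a (htA ha)]
      exact hp.2.2.2 t htA

theorem exists_fresh_ext (hg : SP g) (A C F : Finset U) (hC : m g A ⊆ C) :
    ∃ g', SP g' ∧ (∀ a ∈ A, g' a = g a) ∧ ∀ x ∈ F, x ∉ A → g' x ∉ C := by
  induction F using Finset.induction_on with
  | empty => exact ⟨g, hg, fun _ _ => rfl, by simp⟩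
  | insert x F hx ih =>
    obtain ⟨g', h1, h2, h3⟩ := ih
    by_cases hxA : x ∈ A
    · refine ⟨g', h1, h2, fun y hy hyA => ?_⟩
      rcases mem_insert.1 hy with rfl | hy
      · exact (hyA hxA).elim
      · exact h3 y hy hyA
    obtain ⟨c, hc, hc2⟩ := exists_fresh (C ∪ m g' F) (g' x).2
    rw [mem_union, not_or] at hc
    refine ⟨Equiv.swap (g' x) c * g', h1.swap hc2.symm, fun a ha => ?_, fun y hy hyA => ?_⟩
    · rw [Equiv.Perm.mul_apply, Equiv.swap_apply_of_ne_of_ne
        (fun h : g' a = g' x => hxA (g'.injective h ▸ ha))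
        (fun h : g' a = c => hc.1 (hC (by rw [← h, h2 a ha]; exact mem_m'.2 ha))), h2 a ha]
    · rcases mem_insert.1 hy with rfl | hy
      · simpa using hc.1
      · rw [Equiv.Perm.mul_apply, Equiv.swap_apply_of_ne_of_ne
          (fun h : g' y = g' x => hx (g'.injective h ▸ hy))
          (fun h : g' y = c => hc.2 (h ▸ mem_m'.2 hy))]
        exact h3 y hy hyA

theorem amalg (S : St) (hp : PI S.R A g) (hAB : A ⊆ B) (hB : B ⊆ S.C) (hgA : m g A ⊆ S.C)
    (hBs : Strong S.R B) (hno : ∀ b ∉ A, ∀ r ∈ S.R, r ⊆ B → r ⊆ insert b A → b ∉ r) :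
    ∃ S' g', Le S S' ∧ PI S'.R B g' ∧ (∀ a ∈ A, g' a = g a) ∧ m g' B ⊆ S'.C := by
  obtain ⟨g', hsp, hag, hfr⟩ := exists_fresh_ext hp.1 A S.C B hgA
  set R' := S.R ∪ (S.R.filter fun r => r ⊆ B ∧ ¬ r ⊆ A).image (m g') with hR'
  have memR' : ∀ t, t ∈ R' ↔ t ∈ S.R ∨ ∃ r ∈ S.R, r ⊆ B ∧ ¬ r ⊆ A ∧ m g' r = t := by
    intro t
    simp only [hR', mem_union, mem_image, mem_filter, and_assoc]
  have out : ∀ r, r ⊆ B → m g' r ⊆ S.C → r ⊆ A := fun r h1 h2 x hx => by
    by_contra hxA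
    exact hfr x (h1 hx) hxA (h2 (mem_m'.2 hx))
  have res : ∀ t ∈ R', t ⊆ S.C → t ∈ S.R := fun t ht htC => by
    rcases (memR' t).1 ht with h | ⟨r, -, h2, h3, rfl⟩
    · exact h
    · exact (h3 (out r h2 htC)).elim
  have cnt : ∀ D : Finset U, ∃ E n, E = m g'.symm D ∩ B ∧
      n = (S.R.filter fun r => r ⊆ E ∧ ¬ r ⊆ A).card ∧ e R' D ≤ e S.R (D ∩ S.C) + n ∧
      n + e S.R (E ∩ A) = e S.R E ∧ (D ∩ S.C).card + E.card ≤ D.card + (E ∩ A).card ∧
      (E ∩ A).card + e S.R E ≤ E.card + e S.R (E ∩ A) ∧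
      (E ∩ A).card + e S.R (D ∩ S.C) ≤ (D ∩ S.C).card + e S.R (E ∩ A) := by
    intro D
    refine ⟨_, _, rfl, rfl, ?_, ?_, ?_, hp.2.1.inter _, ?_⟩
    · refine le_trans (card_le_card (t := S.R.filter (· ⊆ D ∩ S.C) ∪
        (S.R.filter fun r => r ⊆ m g'.symm D ∩ B ∧ ¬ r ⊆ A).image (m g')) fun t ht => ?_)
        ((card_union_le _ _).trans (add_le_add le_rfl card_image_le))
      obtain ⟨h1, h2⟩ := mem_filter.1 ht
      rcases (memR' t).1 h1 with h | ⟨r, h3, h4, h5, rfl⟩
      · exact mem_union_left _ (mem_filter.2 ⟨h, subset_inter h2 (S.supp t h)⟩)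
      · refine mem_union_right _ (mem_image_of_mem _ (mem_filter.2 ⟨h3, subset_inter ?_ h4, h5⟩))
        rw [← m_subset (g := g'), m_m_symm]; exact h2
    · unfold e
      rw [← card_union_of_disjoint]
      · congr 1
        ext r
        simp only [mem_union, mem_filter, subset_inter_iff]
        tauto
      · rw [disjoint_left]
        intro r h1 h2
        exact (mem_filter.1 h1).2.2 ((mem_filter.1 h2).2.trans inter_subset_right)
    · have c1 := card_sdiff_add_card_inter (m g'.symm D ∩ B) A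
      have c2 : ((D ∩ S.C) ∪ m g' ((m g'.symm D ∩ B) \ A)).card ≤ D.card := by
        refine card_le_card (union_subset inter_subset_left ?_)
        rw [← m_subset (g := g'.symm), m_symm_m]
        exact sdiff_subset.trans inter_subset_left
      rw [card_union_of_disjoint, card_m] at c2
      · omega
      · rw [disjoint_left]
        intro x h1 h2
        rw [mem_m, mem_sdiff, mem_inter] at h2
        have := hfr _ h2.1.2 h2.2
        rw [Equiv.apply_symm_apply] at this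
        exact this (mem_inter.1 h1).2
    · have c1 := hp.2.2.1.inter (D ∩ S.C)
      have c2 : D ∩ S.C ∩ m g A = m g (m g'.symm D ∩ B ∩ A) := by
        rw [← m_congr (g' := g') fun a ha => hag a (mem_inter.1 ha).2, ← m_congr hag]
        rw [← m_congr hag] at hgA
        ext x
        obtain ⟨y, rfl⟩ := g'.surjective x
        simp only [mem_inter, mem_m', mem_m (g := g'.symm), Equiv.symm_symm]
        exact ⟨fun h => ⟨⟨h.1.1, hAB h.2⟩, h.2⟩, fun h => ⟨⟨h.1.1, hgA (mem_m'.2 h.2)⟩, h.2⟩⟩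
      rw [c2, card_m, hp.2.2.2.e_eq inter_subset_right] at c1
      exact c1
  have hK : K R' := by
    refine ⟨fun t ht => ?_, fun D hD => ?_⟩
    · rcases (memR' t).1 ht with h | ⟨r, h, -, -, rfl⟩
      · exact S.hK.1 t h
      · exact hsp.shape (S.hK.1 r h)
    · obtain ⟨E, n, hE, hn, c1, c2, c3, c4, c5⟩ := cnt D
      by_cases h1 : 5 ≤ (D ∩ S.C).card
      · have := S.hK.2 _ h1
        omega
      by_cases h2 : 5 ≤ E.card
      · have := S.hK.2 _ h2
        omega
      have d1 := S.hK.e_le_one (D := D ∩ S.C) (by omega)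
      have d2 := S.hK.e_le_one (D := E) (by omega)
      by_contra hc
      have d3 := (S.hK.1 _ (S.hK.of_e_pos (D := D ∩ S.C) (by omega) (by omega))).1
      have d4 := S.hK.of_e_pos (D := E) (by omega) (by omega)
      have d5 := (S.hK.1 _ d4).1
      have d6 : ¬ E ⊆ A := fun h => by
        rw [inter_eq_left.2 h] at c2
        omega
      obtain ⟨b, hb, hbA⟩ := not_subset.1 d6
      refine hno b hbA E d4 (hE ▸ inter_subset_right) ?_ hb
      have d7 : insert b (E ∩ A) = E := eq_of_subset_of_card_le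
        (insert_subset hb inter_subset_left) (by
          rw [card_insert_of_notMem fun h => hbA (mem_inter.1 h).2]; omega)
      rw [← d7]
      exact insert_subset_insert _ inter_subset_right
  let S' : St := ⟨R', S.C ∪ m g' B, hK, fun t ht => by
    rcases (memR' t).1 ht with h | ⟨r, -, h, -, rfl⟩
    · exact (S.supp t h).trans subset_union_left
    · exact (m_subset.2 h).trans subset_union_right⟩
  have hle : Le S S' := by
    refine ⟨subset_union_left, subset_union_left, res, fun D hD => ?_⟩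
    obtain ⟨E, n, hE, hn, c1, c2, c3, c4, c5⟩ := cnt D
    rw [inter_eq_right.2 hD] at c1 c3
    have c6 : e S.R S.C ≤ e R' S.C := card_le_card (filter_subset_filter _ subset_union_left)
    change S.C.card + e R' D ≤ D.card + e R' S.C
    omega
  have hiso : Iso R' B g' := by
    intro r hr
    constructor
    · intro h
      have h1 := res r h (hr.trans hB)
      by_cases hrA : r ⊆ A
      · rw [m_congr fun a ha => hag a (hrA ha)]
        exact (memR' _).2 (Or.inl ((hp.2.2.2 r hrA).1 h1))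
      · exact (memR' _).2 (Or.inr ⟨r, h1, hr, hrA, rfl⟩)
    · intro h
      rcases (memR' _).1 h with h | ⟨t, h1, -, -, h2⟩
      · have hrA := out r hr (S.supp _ h)
        rw [m_congr fun a ha => hag a (hrA ha)] at h
        exact (memR' _).2 (Or.inl ((hp.2.2.2 r hrA).2 h))
      · exact (memR' _).2 (Or.inl (m_inj.1 h2 ▸ h1))
  refine ⟨S', g', hle, ⟨hsp, hle.strong hB hBs, fun D hD => ?_, hiso⟩, hag, subset_union_right⟩
  obtain ⟨E, n, hE, hn, c1, c2, c3, c4, c5⟩ := cnt D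
  have e1 : E = B := by
    rw [hE, inter_eq_right, ← m_subset (g := g'), m_m_symm]; exact hD
  rw [e1, inter_eq_right.2 hAB] at c2 c3 c5
  have c6 : e R' (m g' B) = e S.R B := (hiso.e_eq Subset.rfl).trans (hle.e_eq hB)
  change (m g' B).card + e R' D ≤ D.card + e R' (m g' B)
  rw [card_m]
  omega

theorem ext_aux (B : Finset U) (k : ℕ) : ∀ (S : St) (A : Finset U) (g : Equiv.Perm U),
    (B \ A).card = k → PI S.R A g → A ⊆ B → B ⊆ S.C → m g A ⊆ S.C → Strong S.R B →
    ∃ S' g', Le S S' ∧ PI S'.R B g' ∧ (∀ a ∈ A, g' a = g a) ∧ m g' B ⊆ S'.C := by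
  induction k using Nat.strong_induction_on with
  | _ k ih =>
  intro S A g hk hp hAB hB hgA hBs
  by_cases hno : ∀ b ∉ A, ∀ r ∈ S.R, r ⊆ B → r ⊆ insert b A → b ∉ r
  · exact amalg S hp hAB hB hgA hBs hno
  push Not at hno
  obtain ⟨b, hb, r, hr, hrB, hrA, hbr⟩ := hno
  have hsA : r.erase b ⊆ A := subset_insert_iff.1 hrA
  have h1 : ∃ S1, Le S S1 ∧ ∃ r' ∈ S1.R, m g (r.erase b) ⊆ r' := by
    by_cases h : ∃ r' ∈ S.R, m g (r.erase b) ⊆ r'
    · exact ⟨S, Le.refl S, h⟩
    push Not at h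
    obtain ⟨c, hc, hc2⟩ := exists_fresh S.C b.2
    have hsC : m g (r.erase b) ⊆ S.C := (m_subset.2 hsA).trans hgA
    have hs : (r.erase b).card = 3 := by rw [card_erase_of_mem hbr, (S.hK.1 r hr).1]
    have hc' : c ∉ m g (r.erase b) := fun h => hc (hsC h)
    obtain ⟨S1, h1, h2⟩ := addPoint S (s := m g (r.erase b)) (by rw [card_m, hs]) h hsC hc (by
      refine ⟨by rw [card_insert_of_notMem hc', card_m, hs], ?_⟩
      have h1 := (S.hK.1 r hr).2
      rw [← insert_erase hbr, filter_insert] at h1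
      rw [filter_insert, hc2]
      split_ifs at h1 ⊢ with p
      · rw [card_insert_of_notMem fun h => notMem_erase b r (mem_filter.1 h).1] at h1
        rw [card_insert_of_notMem fun h => hc' (mem_filter.1 h).1, hp.1.filter, h1]
      · rw [hp.1.filter, h1])
    exact ⟨S1, h1, _, h2, subset_insert _ _⟩
  obtain ⟨S1, hle, r', hr', hsub⟩ := h1
  obtain ⟨g1, hp1, hag, hb1⟩ := step1 S1 (hle.pi (hAB.trans hB) hgA hp) hb (hle.2.1 hr) hrA hbr
    hr' hsub
  obtain ⟨S', g', h1, h2, h3, h4⟩ := ih (B \ insert b A).card (by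
      rw [← hk, sdiff_insert]
      exact card_erase_lt_of_mem (mem_sdiff.2 ⟨hrB hbr, hb⟩)) S1 _ g1 rfl hp1
    (insert_subset (hrB hbr) hAB) (hB.trans hle.1)
    (by rw [m_insert, m_congr hag]; exact insert_subset hb1 (hgA.trans hle.1))
    (hle.strong hB hBs)
  exact ⟨S', g', hle.trans h1, h2, fun a ha => (h3 a (mem_insert_of_mem ha)).trans (hag a ha), h4⟩

theorem ext_dom (S : St) (hp : PI S.R A g) (hA : A ⊆ S.C) (hgA : m g A ⊆ S.C) (x : U) :
    ∃ S' A' g', Le S S' ∧ PI S'.R A' g' ∧ A ⊆ A' ∧ x ∈ A' ∧ (∀ a ∈ A, g' a = g a) ∧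
      A' ⊆ S'.C ∧ m g' A' ⊆ S'.C := by
  obtain ⟨S1, h1, hx⟩ := enlarge S {x}
  obtain ⟨S', g', h2, h3, h4, h5⟩ := ext_aux S1.C _ S1 A g rfl (h1.pi hA hgA hp) (hA.trans h1.1)
    Subset.rfl (hgA.trans h1.1) (S1.strong Subset.rfl)
  exact ⟨S', S1.C, g', h1.trans h2, h3, hA.trans h1.1, hx (mem_singleton_self x), h4, h2.1, h5⟩

theorem ext_both (S : St) (hp : PI S.R A g) (hA : A ⊆ S.C) (hgA : m g A ⊆ S.C) (x : U) :
    ∃ S' A' g', Le S S' ∧ PI S'.R A' g' ∧ A ⊆ A' ∧ x ∈ A' ∧ x ∈ m g' A' ∧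
      (∀ a ∈ A, g' a = g a) ∧ A' ⊆ S'.C ∧ m g' A' ⊆ S'.C := by
  obtain ⟨S1, A1, g1, h1, h2, h3, h4, h5, h6, h7⟩ := ext_dom S hp hA hgA x
  obtain ⟨S2, A2, g2, k1, k2, k3, k4, k5, k6, k7⟩ := ext_dom S1 h2.symm h7
    (by rw [m_symm_m]; exact h6) x
  have hsub : A1 ⊆ m g2 A2 := by
    rw [← m_symm_m (g := g1) (A := A1), ← m_congr k5]; exact m_subset.2 k3
  refine ⟨S2, m g2 A2, g2.symm, h1.trans k1, k2.symm, h3.trans hsub, hsub h4,
    by rw [m_symm_m]; exact k4, fun a ha => ?_, k7, by rw [m_symm_m]; exact k6⟩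
  rw [Equiv.symm_apply_eq, ← h5 a ha, k5 _ (mem_m'.2 (h3 ha)), Equiv.symm_apply_apply]

abbrev Idx := {p : (Fin 4 → ℕ) × (Fin 4 → ℕ) // Function.Injective p.1 ∧ Function.Injective p.2}

structure Cond where
  S : St
  A : Idx → Finset U
  g : Idx → Equiv.Perm U
  hp : ∀ i, PI S.R (A i) (g i)
  hA : ∀ i, A i ⊆ S.C
  hg : ∀ i, m (g i) (A i) ⊆ S.C
  ini : ∀ i, A i = ∅ ∨ ∀ k, (i.1.1 k, true) ∈ A i ∧ g i (i.1.1 k, true) = (i.1.2 k, true)

def CLe (p q : Cond) : Prop :=
  Le p.S q.S ∧ ∀ i, p.A i ⊆ q.A i ∧ ∀ a ∈ p.A i, q.g i a = p.g i a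

def Done : (Idx × U) ⊕ Finset U → Cond → Prop
  | .inl t, q => t.2 ∈ q.A t.1 ∧ t.2 ∈ m (q.g t.1) (q.A t.1)
  | .inr s, q => s.card = 3 → 2 ≤ (s.filter (·.2 = true)).card → ∃ r ∈ q.S.R, s ⊆ r

theorem CLe.trans {p q r : Cond} (h : CLe p q) (h' : CLe q r) : CLe p r :=
  ⟨h.1.trans h'.1, fun i => ⟨(h.2 i).1.trans (h'.2 i).1, fun a ha =>
    ((h'.2 i).2 a ((h.2 i).1 ha)).trans ((h.2 i).2 a ha)⟩⟩

theorem update (p : Cond) (i : Idx) (hle : Le p.S S') (hp : PI S'.R A g) (h1 : p.A i ⊆ A)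
    (h2 : ∀ a ∈ p.A i, g a = p.g i a) (h3 : A ⊆ S'.C) (h4 : m g A ⊆ S'.C)
    (h5 : ∀ k, (i.1.1 k, true) ∈ A ∧ g (i.1.1 k, true) = (i.1.2 k, true)) :
    ∃ q, CLe p q ∧ q.A i = A ∧ q.g i = g := by
  classical
  refine ⟨⟨S', Function.update p.A i A, Function.update p.g i g, fun j => ?_, fun j => ?_,
    fun j => ?_, fun j => ?_⟩, ⟨hle, fun j => ?_⟩, by simp, by simp⟩ <;> by_cases h : j = i
  · subst h; simpa using hp
  · simpa [h] using hle.pi (p.hA j) (p.hg j) (p.hp j)
  · subst h; simpa using h3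
  · simpa [h] using (p.hA j).trans hle.1
  · subst h; simpa using h4
  · simpa [h] using (p.hg j).trans hle.1
  · subst h; right; simpa using h5
  · simpa [h] using p.ini j
  · subst h; simpa only [Function.update_self] using ⟨h1, h2⟩
  · simp [h]

theorem no_rel_pts (hK : K R) (a : Fin 4 → ℕ) {r : Finset U}
    (hr : r ⊆ univ.image fun k => (a k, true)) : r ∉ R := fun h => by
  have h1 := hK.1 r h
  have h2 : r.filter (·.2 = true) = r := filter_true_of_mem fun x hx => by
    obtain ⟨k, -, rfl⟩ := mem_image.1 (hr hx)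
    rfl
  have h3 := h1.2
  rw [h2, h1.1] at h3
  omega

theorem step (p : Cond) (t : (Idx × U) ⊕ Finset U) : ∃ q, CLe p q ∧ Done t q := by
  rcases t with ⟨i, x⟩ | s
  · have h0 : ∃ q, CLe p q ∧
        ∀ k, (i.1.1 k, true) ∈ q.A i ∧ q.g i (i.1.1 k, true) = (i.1.2 k, true) := by
      rcases p.ini i with h | h
      swap
      · exact ⟨p, ⟨Le.refl _, fun _ => ⟨Subset.rfl, fun _ _ => rfl⟩⟩, h⟩
      obtain ⟨π, hπ⟩ := Equiv.Perm.exists_extending_pair _ _ i.2.1 i.2.2
      let g0 : Equiv.Perm U := Equiv.prodCongr π (Equiv.refl _)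
      have hm : m g0 (univ.image fun k => (i.1.1 k, true)) =
          univ.image fun k => (i.1.2 k, true) := by
        rw [m, map_eq_image, image_image]
        congr 1
        ext k <;> simp [g0, hπ]
      have hc : (univ.image fun k => ((i.1.1 k, true) : U)).card = 4 := by
        rw [card_image_of_injective _ fun a b h => i.2.1 (Prod.mk.inj h).1]; simp
      obtain ⟨S1, h1, h2⟩ := enlarge p.S ((univ.image fun k => (i.1.1 k, true)) ∪
        univ.image fun k => (i.1.2 k, true))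
      obtain ⟨q, k1, k2, k3⟩ := update (A := univ.image fun k => (i.1.1 k, true)) (g := g0) p i h1
        ⟨fun _ => rfl, S1.hK.strong_four hc, S1.hK.strong_four (by rw [card_m, hc]), fun r hr =>
          iff_of_false (no_rel_pts S1.hK _ hr) (no_rel_pts S1.hK i.1.2 (hm ▸ m_subset.2 hr))⟩
        (by simp [h]) (by simp [h]) (subset_union_left.trans h2)
        (hm ▸ subset_union_right.trans h2)
        (fun k => ⟨mem_image_of_mem _ (mem_univ k), by simp [g0, hπ]⟩)
      refine ⟨q, k1, fun k => ?_⟩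
      rw [k2, k3]
      exact ⟨mem_image_of_mem _ (mem_univ k), by simp [g0, hπ]⟩
    obtain ⟨q, h1, h2⟩ := h0
    obtain ⟨S', A', g', k1, k2, k3, k4, k5, k6, k7, k8⟩ :=
      ext_both q.S (q.hp i) (q.hA i) (q.hg i) x
    obtain ⟨q', l1, l2, l3⟩ := update q i k1 k2 k3 k6 k7 k8
      fun k => ⟨k3 (h2 k).1, (k6 _ (h2 k).1).trans (h2 k).2⟩
    exact ⟨q', h1.trans l1, by rw [Done, l2, l3]; exact ⟨k4, k5⟩⟩
  · have h0 : ∃ S', Le p.S S' ∧
        (s.card = 3 → 2 ≤ (s.filter (·.2 = true)).card → ∃ r ∈ S'.R, s ⊆ r) := by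
      by_contra hc
      push Not at hc
      obtain ⟨S1, h1, h2⟩ := enlarge p.S s
      obtain ⟨h3, h4, h5⟩ := hc S1 h1
      obtain ⟨c, k1, k2⟩ := exists_fresh S1.C (decide ((s.filter (·.2 = true)).card = 2))
      have k3 : c ∉ s := fun h => k1 (h2 h)
      obtain ⟨S2, l1, l2⟩ := addPoint S1 h3 h5 h2 k1 (by
        refine ⟨by rw [card_insert_of_notMem k3, h3], ?_⟩
        have := card_filter_le s (·.2 = true)
        rw [filter_insert, k2]
        split_ifs with h
        · rw [card_insert_of_notMem fun h => k3 (mem_filter.1 h).1, of_decide_eq_true h]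
        · have := of_decide_eq_false (Bool.eq_false_iff.2 h)
          omega)
      exact (hc S2 (h1.trans l1)).2.2 _ l2 (subset_insert _ _)
    obtain ⟨S', h1, h2⟩ := h0
    exact ⟨⟨S', p.A, p.g, fun j => h1.pi (p.hA j) (p.hg j) (p.hp j), fun j => (p.hA j).trans h1.1,
      fun j => (p.hg j).trans h1.1, p.ini⟩, ⟨h1, fun _ => ⟨Subset.rfl, fun _ _ => rfl⟩⟩, h2⟩

def c0 : Cond where
  S := ⟨∅, ∅, ⟨by simp, fun D hD => by simp [e]; omega⟩, by simp⟩
  A := fun _ => ∅
  g := fun _ => 1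
  hp := fun _ => ⟨fun _ => rfl, fun D _ => by simp [e], fun D _ => by simp [e, m],
    fun r _ => by simp⟩
  hA := fun _ => Subset.rfl
  hg := fun _ => by simp [m]
  ini := fun _ => Or.inl rfl

theorem exists_generic : ∃ Rel : Set (Finset U), (∀ r ∈ Rel, Shape r) ∧
    (∀ r ∈ Rel, ∀ r' ∈ Rel, ∀ s : Finset U, s.card = 3 → s ⊆ r → s ⊆ r' → r = r') ∧
    (∀ s : Finset U, s.card = 3 → 2 ≤ (s.filter (·.2 = true)).card → ∃ r ∈ Rel, s ⊆ r) ∧
    ∀ a b : Fin 4 → ℕ, Function.Injective a → Function.Injective b →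
      ∃ σ, SP σ ∧ (∀ r, r ∈ Rel ↔ m σ r ∈ Rel) ∧ ∀ k, σ (a k, true) = (b k, true) := by
  obtain ⟨τ, hτ⟩ := exists_surjective_nat ((Idx × U) ⊕ Finset U)
  choose f hf using step
  let p : ℕ → Cond := fun n => Nat.rec c0 (fun n q => f q (τ n)) n
  have hle : ∀ {n k}, n ≤ k → CLe (p n) (p k) := fun {n k} h => by
    induction h with
    | refl => exact ⟨Le.refl _, fun _ => ⟨Subset.rfl, fun _ _ => rfl⟩⟩
    | step _ ih => exact ih.trans (hf _ _).1
  have hd : ∀ t, ∃ n, Done t (p n) := fun t => by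
    obtain ⟨n, rfl⟩ := hτ t
    exact ⟨n + 1, (hf _ _).2⟩
  refine ⟨{r | ∃ n, r ∈ (p n).S.R}, fun r ⟨n, h⟩ => (p n).S.hK.1 r h,
    fun r ⟨n, h⟩ r' ⟨k, h'⟩ s hs => (p (max n k)).S.hK.uniq ((hle (le_max_left _ _)).1.2.1 h)
      ((hle (le_max_right _ _)).1.2.1 h') hs, fun s h1 h2 => ?_, fun a b ha hb => ?_⟩
  · obtain ⟨n, hn⟩ := hd (.inr s)
    obtain ⟨r, h3, h4⟩ := hn h1 h2
    exact ⟨r, ⟨n, h3⟩, h4⟩
  let i : Idx := ⟨(a, b), ha, hb⟩
  choose N hN using fun x => hd (.inl (i, x))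
  have hagree : ∀ x n, x ∈ (p n).A i → (p (N x)).g i x = (p n).g i x := fun x n hx => by
    rcases le_total n (N x) with h | h
    · exact ((hle h).2 i).2 x hx
    · exact (((hle h).2 i).2 x (hN x).1).symm
  have hfin : ∀ r : Finset U, ∀ n, ∃ k, n ≤ k ∧ r ⊆ (p k).A i := fun r n =>
    ⟨max n (r.sup N), le_max_left _ _, fun x hx =>
      ((hle ((le_sup hx).trans (le_max_right _ _))).2 i).1 (hN x).1⟩
  let σ : Equiv.Perm U := Equiv.ofBijective (fun x => (p (N x)).g i x) ⟨fun x y h => by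
      obtain ⟨k, -, hk⟩ := hfin {x, y} 0
      simp only [hagree x k (hk (by simp)), hagree y k (hk (by simp))] at h
      exact Equiv.injective _ h, fun y =>
    ⟨((p (N y)).g i).symm y, by
      simp only [hagree _ _ (mem_m.1 (hN y).2), Equiv.apply_symm_apply]⟩⟩
  have hσ : ∀ k, ∀ r ⊆ (p k).A i, m σ r = m ((p k).g i) r := fun k r hr =>
    m_congr fun x hx => hagree x k (hr hx)
  refine ⟨σ, fun u => ((p (N u)).hp i).1 u, fun r => ⟨fun ⟨n, h⟩ => ?_, fun ⟨n, h⟩ => ?_⟩,
    fun k => ?_⟩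
  · obtain ⟨k, h1, h2⟩ := hfin r n
    exact ⟨k, hσ k r h2 ▸ (((p k).hp i).2.2.2 r h2).1 ((hle h1).1.2.1 h)⟩
  · obtain ⟨k, h1, h2⟩ := hfin r n
    exact ⟨k, (((p k).hp i).2.2.2 r h2).2 (hσ k r h2 ▸ (hle h1).1.2.1 h)⟩
  · rcases (p (N (a k, true))).ini i with h | h
    · have := (hN (a k, true)).1
      rw [h] at this
      simp at this
    · exact (h k).2

end Pool.Agent.H83.Hru
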