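import Mathlib

/-! Presheaf categories are locally cartesian closed: explicit right adjoint of pullback. -/

namespace Pool.Agent.H83.Hsem

open CategoryTheory Limits

variable {C : Type} [SmallCategory C] {X Y : C ⥤ Type}

lemma pb_isPullback {A : C ⥤ Type} (p : A ⟶ X) (f : Y ⟶ X) (n : C) :
    IsPullback ((pullback.fst p f).app n) ((pullback.snd p f).app n) (p.app n) (f.app n) :=
  (IsPullback.of_hasPullback p f).map ((evaluation C (Type)).obj n)

lemma pb_ext {A : C ⥤ Type} (p : A ⟶ X) (f : Y ⟶ X) (n : C) {z z' : (pullback p f).obj n}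
    (h1 : (pullback.fst p f).app n z = (pullback.fst p f).app n z')
    (h2 : (pullback.snd p f).app n z = (pullback.snd p f).app n z') : z = z' :=
  Types.ext_of_isPullback (pb_isPullback p f n) h1 h2

lemma pb_ex {A : C ⥤ Type} (p : A ⟶ X) (f : Y ⟶ X) (n : C) (a : A.obj n) (y : Y.obj n)
    (h : p.app n a = f.app n y) :
    ∃ z : (pullback p f).obj n, (pullback.fst p f).app n z = a ∧ (pullback.snd p f).app n z = y :=
  Types.exists_of_isPullback (pb_isPullback p f n) a y h

lemma pb_cond {A : C ⥤ Type} (p : A ⟶ X) (f : Y ⟶ X) (n : C) (z : (pullback p f).obj n) :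
    p.app n ((pullback.fst p f).app n z) = f.app n ((pullback.snd p f).app n z) := by
  have := congrArg (fun g => g.app n z) (pullback.condition (f := p) (g := f))
  simpa using this

lemma nat {A B : C ⥤ Type} (g : A ⟶ B) {n m : C} (θ : n ⟶ m) (a : A.obj n) :
    g.app m (A.map θ a) = B.map θ (g.app n a) := by
  have := congrArg (fun h => h a) (g.naturality θ)
  simpa using this

/-- Sections of `Q` over the fibre of `f`, as relations. -/
structure PiEl (f : Y ⟶ X) (Q : Over Y) (n : C) where
  x : X.obj n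
  S : ∀ m : C, (n ⟶ m) → Q.left.obj m → Prop
  h1 : ∀ m θ q, S m θ q → f.app m (Q.hom.app m q) = X.map θ x
  h2 : ∀ m (θ : n ⟶ m) (y : Y.obj m), f.app m y = X.map θ x → ∃ q, S m θ q ∧ Q.hom.app m q = y
  h3 : ∀ m θ q q', S m θ q → S m θ q' → Q.hom.app m q = Q.hom.app m q' → q = q'
  h4 : ∀ m θ q m' (β : m ⟶ m'), S m θ q → S m' (θ ≫ β) (Q.left.map β q)

lemma PiEl.ext' {f : Y ⟶ X} {Q : Over Y} {n : C} {a b : PiEl f Q n} (h : a.x = b.x)
    (h' : ∀ m θ q, a.S m θ q ↔ b.S m θ q) : a = b := by
  cases a; cases b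
  simp only [PiEl.mk.injEq]
  refine ⟨h, ?_⟩
  funext m θ q
  exact propext (h' m θ q)

def PiEl.map {f : Y ⟶ X} {Q : Over Y} {n n' : C} (α : n ⟶ n') (a : PiEl f Q n) :
    PiEl f Q n' where
  x := X.map α a.x
  S m θ q := a.S m (α ≫ θ) q
  h1 m θ q h := by rw [a.h1 m _ q h]; simp
  h2 m θ y h := a.h2 m (α ≫ θ) y (by rw [h]; simp)
  h3 m θ q q' h h' e := a.h3 m _ q q' h h' e
  h4 m θ q m' β h := by
    have := a.h4 m _ q m' β h
    simpa using this

def PiF (f : Y ⟶ X) (Q : Over Y) : C ⥤ Type where
  obj n := PiEl f Q n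
  map α := TypeCat.ofHom (PiEl.map α)
  map_id n := by
    ext a
    apply PiEl.ext'
    · simp [PiEl.map]
    · intro m θ q; simp [PiEl.map]
  map_comp α β := by
    ext a
    apply PiEl.ext'
    · simp [PiEl.map]
    · intro m θ q; simp [PiEl.map]

def PiO (f : Y ⟶ X) (Q : Over Y) : Over X :=
  Over.mk (Y := PiF f Q)
    { app n := TypeCat.ofHom (fun a : PiEl f Q n => a.x)
      naturality n n' α := by ext a; rfl }

lemma over_w {A B : Over X} (g : A ⟶ B) (n : C) (a : A.left.obj n) :
    B.hom.app n (g.left.app n a) = A.hom.app n a := by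
  exact congrArg (fun h => h.app n a) (Over.w g)

noncomputable def curEl (f : Y ⟶ X) (Q : Over Y) (A : Over X)
    (g : (Over.pullback f).obj A ⟶ Q) (n : C) (a : A.left.obj n) : PiEl f Q n where
  x := A.hom.app n a
  S m θ q := ∃ z : (pullback A.hom f).obj m,
    (pullback.fst A.hom f).app m z = A.left.map θ a ∧ g.left.app m z = q
  h1 m θ q h := by
    obtain ⟨z, hz, rfl⟩ := h
    have h1 : Q.hom.app m (g.left.app m z) = (pullback.snd A.hom f).app m z := over_w g m z
    rw [h1, ← pb_cond, hz, nat]
  h2 m θ y h := by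
    obtain ⟨z, hz1, hz2⟩ := pb_ex A.hom f m (A.left.map θ a) y (by rw [nat, h])
    refine ⟨_, ⟨z, hz1, rfl⟩, ?_⟩
    have h1 : Q.hom.app m (g.left.app m z) = (pullback.snd A.hom f).app m z := over_w g m z
    rw [h1, hz2]
  h3 m θ q q' h h' e := by
    obtain ⟨z, hz, rfl⟩ := h
    obtain ⟨z', hz', rfl⟩ := h'
    have h1 : Q.hom.app m (g.left.app m z) = (pullback.snd A.hom f).app m z := over_w g m z
    have h2 : Q.hom.app m (g.left.app m z') = (pullback.snd A.hom f).app m z' := over_w g m z'
    rw [pb_ext A.hom f m (hz.trans hz'.symm) (h1.symm.trans (e.trans h2))]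
  h4 m θ q m' β h := by
    obtain ⟨z, hz, rfl⟩ := h
    refine ⟨(pullback A.hom f).map β z, ?_, ?_⟩
    · rw [nat, hz]; simp
    · exact nat g.left β z

noncomputable def cur (f : Y ⟶ X) (Q : Over Y) (A : Over X)
    (g : (Over.pullback f).obj A ⟶ Q) : A ⟶ PiO f Q :=
  Over.homMk
    { app n := TypeCat.ofHom (curEl f Q A g n)
      naturality n n' α := by
        ext a
        apply PiEl.ext'
        · exact nat A.hom α a
        · intro m θ q
          change (∃ z : (pullback A.hom f).obj m,
            (pullback.fst A.hom f).app m z = A.left.map θ (A.left.map α a) ∧ g.left.app m z = q) ↔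
            (∃ z : (pullback A.hom f).obj m,
            (pullback.fst A.hom f).app m z = A.left.map (α ≫ θ) a ∧ g.left.app m z = q)
          simp }
    (by ext n a; rfl)

lemma cur_inj (f : Y ⟶ X) (Q : Over Y) (A : Over X) : Function.Injective (cur f Q A) := by
  intro g g' h
  ext n z
  have e : curEl f Q A g n ((pullback.fst A.hom f).app n z) =
      curEl f Q A g' n ((pullback.fst A.hom f).app n z) :=
    congrArg (fun k : A ⟶ PiO f Q => k.left.app n ((pullback.fst A.hom f).app n z)) h
  have s1 : (curEl f Q A g n ((pullback.fst A.hom f).app n z)).S n (𝟙 n) (g.left.app n z) :=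
    ⟨z, by simp, rfl⟩
  have s2 : (curEl f Q A g' n ((pullback.fst A.hom f).app n z)).S n (𝟙 n) (g'.left.app n z) :=
    ⟨z, by simp, rfl⟩
  rw [e] at s1
  exact (curEl f Q A g' n _).h3 n _ _ _ s1 s2 ((over_w g n z).trans (over_w g' n z).symm)

lemma cur_surj (f : Y ⟶ X) (Q : Over Y) (A : Over X) : Function.Surjective (cur f Q A) := by
  intro h
  let H : ∀ n, A.left.obj n → PiEl f Q n := fun n a => h.left.app n a
  have Hx : ∀ n a, (H n a).x = A.hom.app n a := fun n a => over_w h n a
  have Hn : ∀ n n' (α : n ⟶ n') a, H n' (A.left.map α a) = (H n a).map α :=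
    fun n n' α a => nat h.left α a
  have ex : ∀ n (z : (pullback A.hom f).obj n), ∃ q,
      (H n ((pullback.fst A.hom f).app n z)).S n (𝟙 n) q ∧
        Q.hom.app n q = (pullback.snd A.hom f).app n z := by
    intro n z
    apply (H n _).h2
    rw [Hx, pb_cond]; simp
  choose G hG1 hG2 using ex
  let g0 : pullback A.hom f ⟶ Q.left :=
    { app n := TypeCat.ofHom (G n)
      naturality n n' α := by
        ext z
        change G n' ((pullback A.hom f).map α z) = Q.left.map α (G n z)
        have a1 := hG1 n' ((pullback A.hom f).map α z)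
        rw [nat, Hn] at a1
        have a2 := (H n _).h4 n _ _ n' α (hG1 n z)
        refine (H n ((pullback.fst A.hom f).app n z)).h3 n' α _ _ ?_ ?_ ?_
        · simpa [PiEl.map] using a1
        · simpa using a2
        · rw [hG2, nat, nat, hG2] }
  refine ⟨Over.homMk g0 (by ext n z; exact hG2 n z), ?_⟩
  ext n a
  change curEl f Q A _ n a = H n a
  apply PiEl.ext'
  · exact (Hx n a).symm
  · intro m θ q
    constructor
    · rintro ⟨z, hz, rfl⟩
      have a1 := hG1 m z
      rw [hz, Hn] at a1
      change (H n a).S m θ (G m z)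
      simpa [PiEl.map] using a1
    · intro hq
      obtain ⟨z, hz1, hz2⟩ := pb_ex A.hom f m (A.left.map θ a) (Q.hom.app m q)
        (by rw [(H n a).h1 m θ q hq, Hx, nat])
      refine ⟨z, hz1, ?_⟩
      have a1 := hG1 m z
      rw [hz1, Hn] at a1
      refine (H n a).h3 m θ _ _ ?_ hq ?_
      · change (H n a).S m θ (G m z)
        simpa [PiEl.map] using a1
      · exact (hG2 m z).trans hz2

lemma cur_nat (f : Y ⟶ X) (Q : Over Y) {A' A : Over X} (k : A' ⟶ A)
    (g : (Over.pullback f).obj A ⟶ Q) :
    cur f Q A' ((Over.pullback f).map k ≫ g) = k ≫ cur f Q A g := by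
  ext n a
  change curEl f Q A' _ n a = curEl f Q A g n (k.left.app n a)
  have e1 : ((Over.pullback f).map k).left ≫ pullback.fst A.hom f =
      pullback.fst A'.hom f ≫ k.left := pullback.lift_fst _ _ _
  have e2 : ((Over.pullback f).map k).left ≫ pullback.snd A.hom f = pullback.snd A'.hom f :=
    pullback.lift_snd _ _ _
  have e1' : ∀ m z, (pullback.fst A.hom f).app m (((Over.pullback f).map k).left.app m z) =
      k.left.app m ((pullback.fst A'.hom f).app m z) := fun m z =>
    congrArg (fun h => h.app m z) e1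
  have e2' : ∀ m z, (pullback.snd A.hom f).app m (((Over.pullback f).map k).left.app m z) =
      (pullback.snd A'.hom f).app m z := fun m z =>
    congrArg (fun h => h.app m z) e2
  apply PiEl.ext'
  · exact (over_w k n a).symm
  · intro m θ q
    constructor
    · rintro ⟨z, hz, rfl⟩
      refine ⟨((Over.pullback f).map k).left.app m z, ?_, rfl⟩
      rw [e1', hz, nat]
    · rintro ⟨z, hz, rfl⟩
      obtain ⟨z', h1, h2⟩ := pb_ex A'.hom f m (A'.left.map θ a) ((pullback.snd A.hom f).app m z)
        (by rw [← pb_cond, hz, ← nat, over_w])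
      refine ⟨z', h1, ?_⟩
      have : ((Over.pullback f).map k).left.app m z' = z := by
        apply pb_ext
        · rw [e1', h1, hz, nat]
        · rw [e2', h2]
      rw [← this]; rfl

theorem pullback_isLeftAdjoint (f : Y ⟶ X) : (Over.pullback f).IsLeftAdjoint :=
  ⟨_, ⟨Adjunction.adjunctionOfEquivRight
    (fun A Q => Equiv.ofBijective (cur f Q A) ⟨cur_inj f Q A, cur_surj f Q A⟩)
    (fun _ _ Q k g => cur_nat f Q k g)⟩⟩

open MonoidalCategory in
theorem prod_isLeftAdjoint (P : Over X) : (prod.functor.obj P).IsLeftAdjoint := by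
  letI := Over.cartesianMonoidalCategory X
  letI := Over.braidedCategory X
  haveI := pullback_isLeftAdjoint P.hom
  have e : Over.pullback P.hom ⋙ Over.map P.hom ≅ tensorRight P :=
    NatIso.ofComponents (fun Z => Over.isoMk (Iso.refl _) (by simp [pullback.condition]))
      (by
        intro Z Z' k
        ext1
        apply pullback.hom_ext <;> simp [pullback.lift_fst, pullback.lift_snd])
  exact Functor.isLeftAdjoint_of_iso
    (e ≪≫ (BraidedCategory.tensorLeftIsoTensorRight P).symm ≪≫
      CartesianMonoidalCategory.tensorLeftIsoProd P)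

end Pool.Agent.H83.Hsem
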