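import Pool.Agent.H83.Hsem1

/-! Supports, negation in slices of presheaf categories, edges in Kan complexes. -/

namespace Pool.Agent.H83.Hsem

open CategoryTheory Limits

section
variable {C : Type} [SmallCategory C] {X : C ⥤ Type}

def Emp (Z : Over X) : Prop := ∀ n, IsEmpty (Z.left.obj n)

def supp (Z : Over X) (n : C) (x : X.obj n) : Prop := ∃ z : Z.left.obj n, Z.hom.app n z = x

lemma supp_map {Z : Over X} {n m : C} (θ : n ⟶ m) {x : X.obj n} (h : supp Z n x) :
    supp Z m (X.map θ x) := by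
  obtain ⟨z, rfl⟩ := h
  exact ⟨Z.left.map θ z, nat Z.hom θ z⟩

lemma supp_hom {Z W : Over X} (g : Z ⟶ W) {n : C} {x : X.obj n} (h : supp Z n x) :
    supp W n x := by
  obtain ⟨z, rfl⟩ := h
  exact ⟨g.left.app n z, over_w g n z⟩

lemma hom_of_emp {Z : Over X} (h : Emp Z) (W : Over X) : Nonempty (Z ⟶ W) :=
  ⟨Over.homMk
    { app n := TypeCat.ofHom (fun z => (h n).elim z)
      naturality n n' α := by ext z; exact (h n).elim z }
    (by ext n z; exact (h n).elim z)⟩

def empO (X : C ⥤ Type) : Over X :=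
  Over.mk (Y := (Functor.const C).obj Empty)
    { app n := TypeCat.ofHom (fun z : Empty => z.elim)
      naturality n n' α := by ext z; exact Empty.elim z }

lemma emp_bot : Emp (⊥_ (Over X)) := fun n =>
  ⟨fun z => Empty.elim ((initial.to (empO X)).left.app n z)⟩

lemma emp_of_hom {Z W : Over X} (g : Z ⟶ W) (h : Emp W) : Emp Z := fun n =>
  ⟨fun z => (h n).elim (g.left.app n z)⟩

/-- The object over `X` given by an element. -/
def elO {n : C} (x : X.obj n) : Over X :=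
  Over.mk (Y := coyoneda.obj (Opposite.op n))
    { app m := TypeCat.ofHom (fun θ : n ⟶ m => X.map θ x)
      naturality m m' α := by
        ext θ
        change X.map (θ ≫ α) x = X.map α (X.map θ x)
        simp }

lemma hom_of_supp {Z : Over X} {n : C} {x : X.obj n} (h : supp Z n x) : Nonempty (elO x ⟶ Z) := by
  obtain ⟨z, rfl⟩ := h
  exact ⟨Over.homMk
    { app m := TypeCat.ofHom (fun θ : n ⟶ m => Z.left.map θ z)
      naturality m m' α := by
        ext θ
        change Z.left.map (θ ≫ α) z = Z.left.map α (Z.left.map θ z)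
        simp }
    (by ext m θ; exact nat Z.hom θ z)⟩

lemma emp_prod_iff (P Z : Over X) :
    Emp (P ⨯ Z) ↔ ∀ n x, supp P n x → ¬ supp Z n x := by
  constructor
  · intro h n x hP hZ
    obtain ⟨a⟩ := hom_of_supp hP
    obtain ⟨b⟩ := hom_of_supp hZ
    exact (h n).elim ((prod.lift a b).left.app n (𝟙 n))
  · intro h n
    exact ⟨fun z => h n _ (supp_hom prod.fst ⟨z, rfl⟩) (supp_hom prod.snd ⟨z, rfl⟩)⟩

lemma hom_neg_iff (P Z : Over X) [(prod.functor.obj P).IsLeftAdjoint] :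
    Nonempty (Z ⟶ (prod.functor.obj P).rightAdjoint.obj (⊥_ (Over X))) ↔
      ∀ n x, supp P n x → ¬ supp Z n x := by
  rw [← emp_prod_iff]
  have e := (Adjunction.ofIsLeftAdjoint (prod.functor.obj P)).homEquiv Z (⊥_ (Over X))
  constructor
  · rintro ⟨g⟩
    exact emp_of_hom (e.symm g) emp_bot
  · intro h
    obtain ⟨g⟩ := hom_of_emp h (⊥_ (Over X))
    exact ⟨e g⟩

lemma supp_neg (P : Over X) [(prod.functor.obj P).IsLeftAdjoint] (n : C) (x : X.obj n)
    (h : supp P n x) : ¬ supp ((prod.functor.obj P).rightAdjoint.obj (⊥_ (Over X))) n x :=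
  (hom_neg_iff P _).1 ⟨𝟙 _⟩ n x h

lemma supp_sub (U : Subfunctor X) (n : C) (x : X.obj n) (h : supp (Over.mk U.ι) n x) :
    x ∈ U.obj n := by
  obtain ⟨z, rfl⟩ := h
  exact z.2

open Classical in
lemma glue (U V : Subfunctor X) (hc : ∀ n x, x ∈ V.obj n ↔ x ∉ U.obj n) (D : Over X)
    (s : Over.mk U.ι ⟶ D) (t : Over.mk V.ι ⟶ D) (T : Over X) : Nonempty (T ⟶ D) := by
  let g : X ⟶ D.left :=
    { app n := TypeCat.ofHom (fun x => if h : x ∈ U.obj n then s.left.app n ⟨x, h⟩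
        else t.left.app n ⟨x, (hc n x).2 h⟩)
      naturality n n' α := by
        ext x
        change (if h : X.map α x ∈ U.obj n' then s.left.app n' ⟨X.map α x, h⟩
          else t.left.app n' ⟨X.map α x, (hc n' _).2 h⟩) =
          D.left.map α (if h : x ∈ U.obj n then s.left.app n ⟨x, h⟩
            else t.left.app n ⟨x, (hc n x).2 h⟩)
        by_cases h : x ∈ U.obj n
        · have h' : X.map α x ∈ U.obj n' := U.map α h
          rw [dif_pos h, dif_pos h']
          exact nat s.left α ⟨x, h⟩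
        · have h' : X.map α x ∈ V.obj n' := V.map α ((hc n x).2 h)
          rw [dif_neg h, dif_neg ((hc n' _).1 h')]
          exact nat t.left α ⟨x, (hc n x).2 h⟩ }
  have hg : g ≫ D.hom = 𝟙 X := by
    ext n x
    change D.hom.app n (if h : x ∈ U.obj n then s.left.app n ⟨x, h⟩
      else t.left.app n ⟨x, (hc n x).2 h⟩) = x
    by_cases h : x ∈ U.obj n
    · rw [dif_pos h]; exact over_w s n _
    · rw [dif_neg h]; exact over_w t n _
  exact ⟨Over.homMk (T.hom ≫ g) (by rw [Category.assoc, hg]; simp)⟩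

/-- Weak excluded middle for an object whose support is controlled by a decomposition. -/
lemma wlem (P : Over X) [(prod.functor.obj P).IsLeftAdjoint]
    [(prod.functor.obj ((prod.functor.obj P).rightAdjoint.obj (⊥_ (Over X)))).IsLeftAdjoint]
    (U V : Subfunctor X) (hc : ∀ n x, x ∈ V.obj n ↔ x ∉ U.obj n)
    (hU : ∀ n x, x ∈ U.obj n → ¬ supp P n x)
    (hV : ∀ n x, x ∈ V.obj n → ∃ (m : C) (θ : n ⟶ m), supp P m (X.map θ x)) (T : Over X) :
    Nonempty (T ⟶ ((prod.functor.obj P).rightAdjoint.obj (⊥_ (Over X))) ⨿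
      ((prod.functor.obj ((prod.functor.obj P).rightAdjoint.obj (⊥_ (Over X)))).rightAdjoint.obj
        (⊥_ (Over X)))) := by
  obtain ⟨s⟩ := (hom_neg_iff P (Over.mk U.ι)).2
    (fun n x h h' => hU n x (supp_sub U n x h') h)
  obtain ⟨t⟩ := (hom_neg_iff ((prod.functor.obj P).rightAdjoint.obj (⊥_ (Over X)))
    (Over.mk V.ι)).2 (fun n x h h' => by
      obtain ⟨m, θ, hm⟩ := hV n x (supp_sub V n x h')
      exact supp_neg P m _ hm (supp_map θ h))
  exact glue U V hc _ (s ≫ coprod.inl) (t ≫ coprod.inr) T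

end

open Simplicial SSet Opposite

/-- There is an edge from `a` to `b`. -/
def Ed (X : SSet.{0}) (a b : X _⦋0⦌) : Prop :=
  ∃ e : Δ[1] ⟶ X, stdSimplex.δ (1 : Fin 2) ≫ e = const a ∧ stdSimplex.δ (0 : Fin 2) ≫ e = const b

lemma Ed.refl (X : SSet.{0}) (a : X _⦋0⦌) : Ed X a a := ⟨const a, rfl, rfl⟩

lemma Ed.eucl {X : SSet.{0}} [KanComplex X] {a b c : X _⦋0⦌} (h1 : Ed X a b) (h2 : Ed X a c) :
    Ed X b c := by
  obtain ⟨e, he1, he0⟩ := h1
  obtain ⟨e', he1', he0'⟩ := h2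
  obtain ⟨σ, hσ⟩ := KanComplex.hornFilling (horn₂₀.isPushout.desc e e' (he1.trans he1'.symm))
  have k2 : stdSimplex.δ (2 : Fin 3) ≫ σ = e := by
    have := horn₂₀.isPushout.inl_desc e e' (he1.trans he1'.symm)
    rw [hσ, ← Category.assoc, horn.ι_ι] at this
    exact this
  have k1 : stdSimplex.δ (1 : Fin 3) ≫ σ = e' := by
    have := horn₂₀.isPushout.inr_desc e e' (he1.trans he1'.symm)
    rw [hσ, ← Category.assoc, horn.ι_ι] at this
    exact this
  refine ⟨stdSimplex.δ (0 : Fin 3) ≫ σ, ?_, ?_⟩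
  · rw [← he0, ← k2, ← Category.assoc, ← Category.assoc]
    congr 1
    decide
  · rw [← he0', ← k1, ← Category.assoc, ← Category.assoc]
    congr 1

lemma Ed.symm {X : SSet.{0}} [KanComplex X] {a b : X _⦋0⦌} (h : Ed X a b) : Ed X b a :=
  h.eucl (Ed.refl X a)

lemma Ed.trans {X : SSet.{0}} [KanComplex X] {a b c : X _⦋0⦌} (h1 : Ed X a b) (h2 : Ed X b c) :
    Ed X a c := h1.symm.eucl h2

lemma Ed.of_le (X : SSet.{0}) {n : ℕ} (x : X _⦋n⦌) (θ θ' : ⦋0⦌ ⟶ ⦋n⦌)
    (h : θ.toOrderHom 0 ≤ θ'.toOrderHom 0) : Ed X (X.map θ.op x) (X.map θ'.op x) := by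
  have e1 : SimplexCategory.δ (1 : Fin 2) ≫ SimplexCategory.mkOfLe _ _ h = θ := by
    ext i; fin_cases i; rfl
  have e0 : SimplexCategory.δ (0 : Fin 2) ≫ SimplexCategory.mkOfLe _ _ h = θ' := by
    ext i; fin_cases i; rfl
  refine ⟨SSet.stdSimplex.map (SimplexCategory.mkOfLe _ _ h) ≫ SSet.yonedaEquiv.symm x, ?_, ?_⟩
  · rw [← yonedaEquiv_symm_zero, ← Category.assoc]
    have : SSet.stdSimplex.{0}.δ (1 : Fin 2) ≫ SSet.stdSimplex.map (SimplexCategory.mkOfLe _ _ h) =
        SSet.stdSimplex.map θ := by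
      exact (SSet.stdSimplex.map_comp _ _).symm.trans (congrArg _ e1)
    rw [this]
    apply SSet.yonedaEquiv.injective
    rw [SSet.yonedaEquiv_comp, SSet.yonedaEquiv_map, Equiv.apply_symm_apply]
    rfl
  · rw [← yonedaEquiv_symm_zero, ← Category.assoc]
    have : SSet.stdSimplex.{0}.δ (0 : Fin 2) ≫ SSet.stdSimplex.map (SimplexCategory.mkOfLe _ _ h) =
        SSet.stdSimplex.map θ' := by
      exact (SSet.stdSimplex.map_comp _ _).symm.trans (congrArg _ e0)
    rw [this]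
    apply SSet.yonedaEquiv.injective
    rw [SSet.yonedaEquiv_comp, SSet.yonedaEquiv_map, Equiv.apply_symm_apply]
    rfl

lemma Ed.vert {X : SSet.{0}} [KanComplex X] {n : SimplexCategoryᵒᵖ} (x : X.obj n)
    (θ θ' : n ⟶ op ⦋0⦌) : Ed X (X.map θ x) (X.map θ' x) := by
  obtain ⟨⟨n⟩⟩ := n
  rcases le_total (θ.unop.toOrderHom 0) (θ'.unop.toOrderHom 0) with h | h
  · exact Ed.of_le X x θ.unop θ'.unop h
  · exact (Ed.of_le X x θ'.unop θ.unop h).symm

open MonoidalCategory CartesianMonoidalCategory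

lemma const_inj {X : SSet.{0}} {a b : X _⦋0⦌} (h : (const a : Δ[0] ⟶ X) = const b) : a = b := by
  rw [← yonedaEquiv_const a, h, yonedaEquiv_const]

lemma path_iff (X : SSet.{0}) (a b : X _⦋0⦌) :
    (∃ p : ((ihom Δ[1]).obj X) _⦋0⦌,
      (lift (const (stdSimplex.obj₀Equiv.symm 0)) (𝟙 _) ≫ (ihom.ev Δ[1]).app X).app _ p = a ∧
      (lift (const (stdSimplex.obj₀Equiv.symm 1)) (𝟙 _) ≫ (ihom.ev Δ[1]).app X).app _ p = b) ↔
    Ed X a b := by
  constructor
  · rintro ⟨p, rfl, rfl⟩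
    refine ⟨lift (𝟙 _) (const p) ≫ (ihom.ev Δ[1]).app X, ?_, ?_⟩
    · rw [← const_comp, ← Category.assoc, ← Category.assoc, stdSimplex.δ_one_eq_const]
      congr 1
    · rw [← const_comp, ← Category.assoc, ← Category.assoc, stdSimplex.δ_zero_eq_const]
      congr 1
  · rintro ⟨e, h1, h0⟩
    let c : Δ[0] ⟶ (ihom Δ[1]).obj X := MonoidalClosed.curry (fst Δ[1] Δ[0] ≫ e)
    have hc : Δ[1] ◁ c ≫ (ihom.ev Δ[1]).app X = fst Δ[1] Δ[0] ≫ e := by
      rw [← MonoidalClosed.uncurry_eq]; exact MonoidalClosed.uncurry_curry _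
    have key : ∀ v : Δ[1] _⦋0⦌,
        c ≫ lift (const v) (𝟙 _) ≫ (ihom.ev Δ[1]).app X = const v ≫ e := by
      intro v
      have : c ≫ lift (const v) (𝟙 _) = lift (const v) (𝟙 _) ≫ Δ[1] ◁ c := by
        apply CartesianMonoidalCategory.hom_ext <;> simp
      rw [← Category.assoc, this, Category.assoc, hc, lift_fst_assoc]
    refine ⟨yonedaEquiv c, ?_, ?_⟩
    · apply const_inj
      rw [← h1, stdSimplex.δ_one_eq_const, ← key, ← yonedaEquiv_symm_zero, ← yonedaEquiv_comp,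
        Equiv.symm_apply_apply]
    · apply const_inj
      rw [← h0, stdSimplex.δ_zero_eq_const, ← key, ← yonedaEquiv_symm_zero, ← yonedaEquiv_comp,
        Equiv.symm_apply_apply]

end Pool.Agent.H83.Hsem
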