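import Mathlib

set_option autoImplicit false

namespace Pool.Agent.H83.Iv1

open FreeSemigroup

/-- Nonempty words over the alphabet indexed by `ℕ`. -/
abbrev W := FreeSemigroup ℕ

/-- The fully invariant congruence on words in `n` letters generated by the identities `E`. -/
def con (E : Set (W × W)) (n : ℕ) : Con (FreeSemigroup (Fin n)) :=
  conGen fun a b => ∃ p ∈ E, ∃ σ : W →ₙ* FreeSemigroup (Fin n), a = σ p.1 ∧ b = σ p.2

/-- The free semigroup of rank `n` of the variety defined by `E`. -/
abbrev F (E : Set (W × W)) (n : ℕ) : Type := (con E n).Quotient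

/-- `S` satisfies the identical inclusion `u ∈̂ V`. -/
def Sat (S : Type) [Semigroup S] (u : W) (V : Set W) : Prop :=
  ∀ φ : W →ₙ* S, ∃ v ∈ V, φ u = φ v

/-- `S` and `T` satisfy the same identical inclusions. -/
def Equivalent (S T : Type) [Semigroup S] [Semigroup T] : Prop :=
  ∀ (u : W) (V : Set W), V.Nonempty → (Sat S u V ↔ Sat T u V)

/-- The finitely generated free semigroups of the variety defined by `E` are separated. -/
def Separated (E : Set (W × W)) : Prop :=
  ∀ m n : ℕ, 1 ≤ m → 1 ≤ n → m ≠ n → ¬ Equivalent (F E m) (F E n)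

/-- The commutative law. -/
def COM : Set (W × W) := {(of 0 * of 1, of 1 * of 0)}

lemma sat_of {S T : Type} [Semigroup S] [Semigroup T]
    (h : ∀ a : T, ∃ θ : T →ₙ* S, ∀ b, θ a = θ b → a = b) (u : W) (V : Set W) (hs : Sat S u V) :
    Sat T u V := by
  intro φ
  obtain ⟨θ, hθ⟩ := h (φ u)
  obtain ⟨v, hv, e⟩ := hs (θ.comp φ)
  exact ⟨v, hv, hθ _ e⟩

lemma comm (n : ℕ) (a b : F COM n) : a * b = b * a := by
  induction a using Con.induction_on with | _ a => ?_
  induction b using Con.induction_on with | _ b => ?_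
  rw [← Con.coe_mul, ← Con.coe_mul, Con.eq]
  refine ConGen.Rel.of _ _ ⟨_, rfl, lift (fun k => if k = 0 then a else b), ?_, ?_⟩ <;> simp

noncomputable instance (n : ℕ) : CommSemigroup (F COM n) :=
  { (inferInstance : Semigroup (F COM n)) with mul_comm := comm n }

def desc {n : ℕ} {S : Type} [CommSemigroup S] (f : FreeSemigroup (Fin n) →ₙ* S) :
    F COM n →ₙ* S where
  toFun a := Con.liftOn a f (fun x y h => by
    have : con COM n ≤ Con.ker f := by
      refine Con.conGen_le.2 ?_
      rintro _ _ ⟨p, hp, σ, rfl, rfl⟩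
      rw [COM, Set.mem_singleton_iff] at hp
      subst hp
      simp [Con.ker_rel, mul_comm]
    exact this h)
  map_mul' a b := by
    induction a using Con.induction_on with | _ a => ?_
    induction b using Con.induction_on with | _ b => ?_
    rw [← Con.coe_mul]
    exact map_mul f a b

lemma desc_coe {n : ℕ} {S : Type} [CommSemigroup S] (f : FreeSemigroup (Fin n) →ₙ* S)
    (w : FreeSemigroup (Fin n)) : desc f (w : F COM n) = f w := rfl

def cnt {n : ℕ} (k : Fin n) : FreeSemigroup (Fin n) →ₙ* Multiplicative ℕ :=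
  lift fun j => Multiplicative.ofAdd (if j = k then 1 else 0)

lemma prod_form {n : ℕ} (w : FreeSemigroup (Fin n)) :
    (((w : F COM n)) : WithOne (F COM n)) =
      ∏ k, (((of k : FreeSemigroup (Fin n)) : F COM n) : WithOne (F COM n)) ^ (cnt k w).toAdd := by
  induction w using FreeSemigroup.recOnMul with
  | ih1 x =>
    rw [Finset.prod_eq_single x]
    · simp [cnt]
    · intro b _ hb
      simp [cnt, hb.symm]
    · simp
  | ih2 x y h1 h2 =>
    rw [Con.coe_mul, WithOne.coe_mul, h1, h2, ← Finset.prod_mul_distrib]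
    simp [pow_add]

lemma eq_of_cnt {n : ℕ} (a b : FreeSemigroup (Fin n)) (h : ∀ k, (cnt k a).toAdd = (cnt k b).toAdd) :
    (a : F COM n) = b := by
  apply WithOne.coe_inj.1
  rw [prod_form, prod_form]
  simp [h]

def pw {m : ℕ} (z : Fin m) : ℕ → FreeSemigroup (Fin m)
  | 0 => of z
  | j + 1 => of z * pw z j

lemma cnt_pw {m : ℕ} (z : Fin m) (j : ℕ) : (cnt z (pw z j)).toAdd = j + 1 := by
  induction j with
  | zero => simp [pw, cnt]
  | succ j ih => rw [pw, map_mul, toAdd_mul, ih]; simp [cnt]; ring

noncomputable def th {n m : ℕ} (z : Fin m) (g : Fin n → ℕ) : F COM n →ₙ* F COM m :=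
  desc (lift fun k => ((pw z (g k) : FreeSemigroup (Fin m)) : F COM m))

lemma cnt_th {n m : ℕ} (z : Fin m) (g : Fin n → ℕ) (w : FreeSemigroup (Fin n)) :
    (desc (cnt z) (th z g (w : F COM n))).toAdd = ∑ k, (g k + 1) * (cnt k w).toAdd := by
  induction w using FreeSemigroup.recOnMul with
  | ih1 x =>
    rw [th, desc_coe, lift_of, desc_coe, cnt_pw, Finset.sum_eq_single x]
    · simp [cnt]
    · intro b _ hb
      simp [cnt, hb.symm]
    · simp
  | ih2 x y h1 h2 =>
    rw [Con.coe_mul, map_mul, map_mul, toAdd_mul, h1, h2, ← Finset.sum_add_distrib]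
    simp [mul_add]

theorem com_equiv : Equivalent (F COM 1) (F COM 2) := by
  intro u V _
  constructor
  · apply sat_of
    intro a
    induction a using Con.induction_on with | _ a => ?_
    set i := (cnt 0 a).toAdd with hi
    set j := (cnt 1 a).toAdd with hj
    refine ⟨th 0 ![i + j, i + j + 1], fun b e => ?_⟩
    induction b using Con.induction_on with | _ b => ?_
    have e2 := congrArg (fun t => (desc (cnt (0 : Fin 1)) t).toAdd) e
    simp only [cnt_th, Fin.sum_univ_two, Matrix.cons_val_zero, Matrix.cons_val_one] at e2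
    rw [← hi, ← hj] at e2
    set i' := (cnt 0 b).toAdd with hi'
    set j' := (cnt 1 b).toAdd with hj'
    have hs : i + j = i' + j' := by
      rcases lt_trichotomy (i + j) (i' + j') with h | h | h
      · nlinarith
      · exact h
      · nlinarith
    have hj2 : j = j' := by nlinarith
    have hi2 : i = i' := by omega
    apply eq_of_cnt
    intro k
    fin_cases k
    · exact hi2
    · exact hj2
  · apply sat_of
    intro a
    induction a using Con.induction_on with | _ a => ?_
    refine ⟨th 0 (fun _ => 0), fun b e => ?_⟩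
    induction b using Con.induction_on with | _ b => ?_
    have e2 := congrArg (fun t => (desc (cnt (0 : Fin 2)) t).toAdd) e
    simp only [cnt_th, Fin.sum_univ_one] at e2
    apply eq_of_cnt
    intro k
    fin_cases k
    simpa using e2

/-- The list of letters of a word. -/
def tl {α : Type} (w : FreeSemigroup α) : List α := w.head :: w.tail

lemma tl_mul {α : Type} (a b : FreeSemigroup α) : tl (a * b) = tl a ++ tl b := rfl

lemma tl_hom {α β : Type} (σ : FreeSemigroup α →ₙ* FreeSemigroup β) (w : FreeSemigroup α) :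
    tl (σ w) = (tl w).flatMap (fun x => tl (σ (of x))) := by
  induction w using FreeSemigroup.recOnMul with
  | ih1 x => simp [tl, of]
  | ih2 x y h1 h2 => rw [map_mul, tl_mul, tl_mul, List.flatMap_append, ← h1, ← h2]

/-- Words with a repeated letter may be permuted. -/
def REP : Set (W × W) := {p | ¬ (tl p.1).Nodup ∧ (tl p.1).Perm (tl p.2)}

lemma nodup_hom {α β : Type} (σ : FreeSemigroup α →ₙ* FreeSemigroup β) (w : FreeSemigroup α)
    (h : (tl (σ w)).Nodup) : (tl w).Nodup := by
  rw [tl_hom, List.nodup_flatMap] at h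
  refine h.2.imp ?_
  intro a b hab e
  subst e
  exact hab (a := (σ (of a)).head) (by simp [tl]) (by simp [tl])

def R (n : ℕ) : Con (FreeSemigroup (Fin n)) where
  r a b := a = b ∨ (¬ (tl a).Nodup ∧ (tl a).Perm (tl b))
  iseqv := ⟨fun _ => Or.inl rfl, fun h => by
      rcases h with h | ⟨h1, h2⟩
      · exact Or.inl h.symm
      · exact Or.inr ⟨fun h => h1 (h2.nodup_iff.2 h), h2.symm⟩, fun h k => by
      rcases h with h | ⟨h1, h2⟩
      · exact h ▸ k
      · rcases k with k | ⟨_, k2⟩
        · exact Or.inr ⟨h1, k ▸ h2⟩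
        · exact Or.inr ⟨h1, h2.trans k2⟩⟩
  mul' := by
    rintro a b c d (rfl | ⟨h1, h2⟩) (rfl | ⟨k1, k2⟩)
    · exact Or.inl rfl
    · refine Or.inr ⟨fun h => k1 ?_, ?_⟩
      · rw [tl_mul] at h; exact h.of_append_right
      · rw [tl_mul, tl_mul]; exact k2.append_left _
    · refine Or.inr ⟨fun h => h1 ?_, ?_⟩
      · rw [tl_mul] at h; exact h.of_append_left
      · rw [tl_mul, tl_mul]; exact h2.append_right _
    · refine Or.inr ⟨fun h => h1 ?_, ?_⟩
      · rw [tl_mul] at h; exact h.of_append_left
      · rw [tl_mul, tl_mul]; exact h2.append k2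

lemma rep_le (n : ℕ) : con REP n ≤ R n := by
  refine Con.conGen_le.2 ?_
  rintro _ _ ⟨p, ⟨h1, h2⟩, σ, rfl, rfl⟩
  refine Or.inr ⟨fun h => h1 (nodup_hom σ _ h), ?_⟩
  rw [tl_hom, tl_hom]
  exact h2.flatMap_right _

lemma tl_map {α β : Type} (f : α → β) (w : FreeSemigroup α) : tl (map f w) = (tl w).map f := by
  rw [tl_hom]
  induction (tl w) with
  | nil => rfl
  | cons x l ih => rw [List.flatMap_cons, ih, map_of]; rfl

lemma rep_of {n : ℕ} (hn : 1 ≤ n) (a b : FreeSemigroup (Fin n)) (h1 : ¬ (tl a).Nodup)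
    (h2 : (tl a).Perm (tl b)) : (a : F REP n) = b := by
  rw [Con.eq]
  have key : ∀ w : FreeSemigroup (Fin n),
      w = map (fun k : ℕ => if h : k < n then (⟨k, h⟩ : Fin n) else ⟨0, hn⟩) (map Fin.val w) := by
    intro w
    induction w using FreeSemigroup.recOnMul with
    | ih1 x => simp
    | ih2 x y e1 e2 => rw [map_mul, map_mul, ← e1, ← e2]
  refine ConGen.Rel.of _ _ ⟨(map Fin.val a, map Fin.val b), ⟨?_, ?_⟩, _, key a, key b⟩
  · rw [tl_map]; exact fun h => h1 (List.Nodup.of_map _ h)
  · rw [tl_map, tl_map]; exact h2.map _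

lemma len_hom {α β : Type} (σ : FreeSemigroup α →ₙ* FreeSemigroup β) (w : FreeSemigroup α) :
    (tl w).length ≤ (tl (σ w)).length := by
  induction w using FreeSemigroup.recOnMul with
  | ih1 x => simp [tl, of]
  | ih2 x y h1 h2 => rw [map_mul, tl_mul, tl_mul, List.length_append, List.length_append]; omega

lemma rep_sep_lt {m n : ℕ} (hm : 1 ≤ m) (hmn : m < n) : ¬ Equivalent (F REP m) (F REP n) := by
  intro h
  let u : W := ⟨0, 1 :: List.range' 2 (m - 1)⟩
  let v : W := ⟨1, 0 :: List.range' 2 (m - 1)⟩
  have huv : (tl u).Perm (tl v) := List.Perm.swap _ _ _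
  have h1 : Sat (F REP m) u {v} := by
    intro φ
    refine ⟨v, rfl, ?_⟩
    let σ : W →ₙ* FreeSemigroup (Fin m) := lift fun k => (φ (of k)).out
    have hσ : ∀ w, φ w = (σ w : F REP m) := by
      intro w
      induction w using FreeSemigroup.recOnMul with
      | ih1 x => exact (Quotient.out_eq _).symm
      | ih2 x y e1 e2 => rw [map_mul, map_mul, Con.coe_mul, ← e1, ← e2]
    rw [hσ, hσ]
    apply rep_of hm
    · intro hnd
      have a1 := hnd.length_le_card
      have a2 := len_hom σ u
      simp [u, tl] at a1 a2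
      omega
    · rw [tl_hom, tl_hom]; exact huv.flatMap_right _
  have h2 := (h u {v} (Set.singleton_nonempty v)).1 h1
  let f : ℕ → Fin n := fun k => if h : k < n then ⟨k, h⟩ else ⟨0, by omega⟩
  obtain ⟨_, rfl, e⟩ := h2 ((Con.mkMulHom (con REP n)).comp (map f))
  have e2 : con REP n (map f u) (map f v) := (Con.eq _).1 e
  rcases rep_le n e2 with e3 | ⟨e3, _⟩
  · have := congrArg (fun w => (tl w).head?) e3
    simp only [tl_map] at this
    have h0 : 0 < n := by omega
    have h1' : 1 < n := by omega
    simp [u, v, tl, f, h0, h1'] at this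
  · apply e3
    rw [tl_map]
    apply List.Nodup.map_on
    · intro x hx y hy hxy
      have hx' : x < n := by simp [u, tl] at hx; omega
      have hy' : y < n := by simp [u, tl] at hy; omega
      simpa [f, hx', hy'] using hxy
    · simp [u, tl, List.nodup_range']

theorem rep_sep : Separated REP := by
  intro m n hm hn hne h
  rcases lt_or_gt_of_ne hne with k | k
  · exact rep_sep_lt hm k h
  · exact rep_sep_lt hn k (fun u V hV => (h u V hV).symm)

theorem rep_comm (S : Type) [CommSemigroup S] (φ : W →ₙ* S) (p : W × W) (hp : p ∈ REP) :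
    φ p.1 = φ p.2 := by
  have key : ∀ w : W, ((φ w : S) : WithOne S) = ((tl w).map (fun x => ((φ (of x) : S) : WithOne S))).prod := by
    intro w
    induction w using FreeSemigroup.recOnMul with
    | ih1 x => simp [tl, of]
    | ih2 x y e1 e2 => rw [map_mul, WithOne.coe_mul, tl_mul, List.map_append, List.prod_append, ← e1, ← e2]
  apply WithOne.coe_inj.1
  rw [key, key]
  exact (hp.2.map _).prod_eq

lemma empty_eq {n : ℕ} (a b : FreeSemigroup (Fin n)) (h : (a : F ∅ n) = b) : a = b := by
  have : con ∅ n ≤ ⊥ := by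
    refine Con.conGen_le.2 ?_
    rintro _ _ ⟨p, hp, _⟩
    exact absurd hp (Set.notMem_empty _)
  exact this ((Con.eq _).1 h)

def descE {n m : ℕ} (f : FreeSemigroup (Fin n) →ₙ* FreeSemigroup (Fin m)) : F ∅ n →ₙ* F ∅ m where
  toFun a := Con.liftOn a (fun w => (f w : F ∅ m)) (fun x y h => by
    rw [empty_eq x y ((Con.eq _).2 h)])
  map_mul' a b := by
    induction a using Con.induction_on with | _ a => ?_
    induction b using Con.induction_on with | _ b => ?_
    rw [← Con.coe_mul]
    show ((f (a * b) : FreeSemigroup (Fin m)) : F ∅ m) = (f a : F ∅ m) * (f b : F ∅ m)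
    rw [map_mul, Con.coe_mul]

lemma tl_inj {α : Type} (a b : FreeSemigroup α) (h : tl a = tl b) : a = b := by
  cases a; cases b
  simpa [tl] using h

lemma sat_E {n m : ℕ} (f : FreeSemigroup (Fin n) →ₙ* FreeSemigroup (Fin m))
    (hf : Function.Injective f) (u : W) (V : Set W) (h : Sat (F ∅ m) u V) : Sat (F ∅ n) u V := by
  refine sat_of (fun a => ⟨descE f, fun b e => ?_⟩) u V h
  induction a using Con.induction_on with | _ a => ?_
  induction b using Con.induction_on with | _ b => ?_
  rw [hf (empty_eq (f a) (f b) e)]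

def code : Fin 3 → FreeSemigroup (Fin 2) := ![⟨0, []⟩, ⟨1, [0]⟩, ⟨1, [1]⟩]

lemma code_inj : ∀ l k : List (Fin 3),
    l.flatMap (fun x => tl (code x)) = k.flatMap (fun x => tl (code x)) → l = k := by
  intro l
  induction l with
  | nil =>
    intro k h
    cases k with
    | nil => rfl
    | cons y k => simp [tl] at h
  | cons x l ih =>
    intro k h
    cases k with
    | nil => simp [tl] at h
    | cons y k =>
      rw [List.flatMap_cons, List.flatMap_cons] at h
      fin_cases x <;> fin_cases y <;> simp [tl, code] at h ⊢ <;> exact ih k (by simpa [tl, code] using h)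

theorem sem_equiv : Equivalent (F ∅ 2) (F ∅ 3) := by
  intro u V _
  constructor
  · refine sat_E (lift code) (fun a b e => tl_inj _ _ (code_inj _ _ ?_)) u V
    have := congrArg tl e
    simpa [tl_hom] using this
  · refine sat_E (map Fin.castSucc) (fun a b e => tl_inj _ _ ?_) u V
    have := congrArg tl e
    rw [tl_map, tl_map] at this
    exact List.map_injective_iff.2 (Fin.castSucc_injective _) this

def descG (E : Set (W × W)) {n m : ℕ} (f : FreeSemigroup (Fin n) →ₙ* FreeSemigroup (Fin m)) :
    F E n →ₙ* F E m where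
  toFun a := Con.liftOn a (fun w => (f w : F E m)) (fun x y h => by
    have : con E n ≤ Con.ker ((Con.mkMulHom (con E m)).comp f) := by
      refine Con.conGen_le.2 ?_
      rintro _ _ ⟨p, hp, σ, rfl, rfl⟩
      exact (Con.eq _).2 (ConGen.Rel.of _ _ ⟨p, hp, f.comp σ, rfl, rfl⟩)
    exact this h)
  map_mul' a b := by
    induction a using Con.induction_on with | _ a => ?_
    induction b using Con.induction_on with | _ b => ?_
    rw [← Con.coe_mul]
    show ((f (a * b) : FreeSemigroup (Fin m)) : F E m) = (f a : F E m) * (f b : F E m)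
    rw [map_mul, Con.coe_mul]

lemma descG_coe (E : Set (W × W)) {n m : ℕ} (f : FreeSemigroup (Fin n) →ₙ* FreeSemigroup (Fin m))
    (w : FreeSemigroup (Fin n)) : descG E f (w : F E n) = (f w : F E m) := rfl

lemma sat_down (E : Set (W × W)) {m n : ℕ} (hm : 1 ≤ m) (h : m ≤ n) (u : W) (V : Set W)
    (hs : Sat (F E n) u V) : Sat (F E m) u V := by
  let r : Fin n → Fin m := fun k => if h : k.val < m then ⟨k, h⟩ else ⟨0, hm⟩
  have key : ∀ w : FreeSemigroup (Fin m), map r (map (Fin.castLE h) w) = w := by
    intro w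
    induction w using FreeSemigroup.recOnMul with
    | ih1 x => simp [r]
    | ih2 x y e1 e2 => rw [map_mul, map_mul, e1, e2]
  refine sat_of (fun a => ⟨descG E (map (Fin.castLE h)), fun b e => ?_⟩) u V hs
  induction a using Con.induction_on with | _ a => ?_
  induction b using Con.induction_on with | _ b => ?_
  have := congrArg (descG E (map r)) e
  rwa [descG_coe, descG_coe, descG_coe, descG_coe, key, key] at this

lemma iso_of_equiv (E : Set (W × W)) {m n : ℕ} (hn : 1 ≤ n)
    (h : ∀ (u : W) (V : Set W), V.Nonempty → Sat (F E m) u V → Sat (F E n) u V)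
    (θ₀ : F E n →ₙ* F E m) (a : F E n) : ∃ θ : F E n →ₙ* F E m, ∀ b, θ a = θ b → a = b := by
  induction a using Con.induction_on with | _ a => ?_
  let r : ℕ → Fin n := fun k => if h : k < n then ⟨k, h⟩ else ⟨0, hn⟩
  have key : ∀ w : FreeSemigroup (Fin n), map r (map Fin.val w) = w := by
    intro w
    induction w using FreeSemigroup.recOnMul with
    | ih1 x => simp [r]
    | ih2 x y e1 e2 => rw [map_mul, map_mul, e1, e2]
  let φ : W →ₙ* F E n := (Con.mkMulHom (con E n)).comp (map r)
  have hφ : ∀ w : FreeSemigroup (Fin n), φ (map Fin.val w) = (w : F E n) := by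
    intro w
    show ((map r (map Fin.val w) : FreeSemigroup (Fin n)) : F E n) = w
    rw [key]
  by_cases hV : ({w | φ w ≠ (a : F E n)} : Set W).Nonempty
  · have h1 : ¬ Sat (F E n) (map Fin.val a) {w | φ w ≠ (a : F E n)} := by
      intro hs
      obtain ⟨v, hv, e⟩ := hs φ
      exact hv (by rw [← e, hφ])
    have h2 := fun hs => h1 (h _ _ hV hs)
    simp only [Sat, not_forall, not_exists, not_and, imp_false] at h2
    obtain ⟨ψ, hψ⟩ := h2
    let σ : W →ₙ* FreeSemigroup (Fin m) := lift fun k => (ψ (of k)).out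
    have hσ : ∀ w, ψ w = (σ w : F E m) := by
      intro w
      induction w using FreeSemigroup.recOnMul with
      | ih1 x => exact (Quotient.out_eq _).symm
      | ih2 x y e1 e2 => rw [map_mul, map_mul, Con.coe_mul, ← e1, ← e2]
    refine ⟨descG E (σ.comp (map Fin.val)), fun b e => ?_⟩
    induction b using Con.induction_on with | _ b => ?_
    by_contra hne
    refine hψ (map Fin.val b) ?_ ?_
    · show φ (map Fin.val b) ≠ a
      rw [hφ]; exact fun k => hne k.symm
    · rw [hσ, hσ]; exact e
  · refine ⟨θ₀, fun b _ => ?_⟩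
    induction b using Con.induction_on with | _ b => ?_
    by_contra hne
    refine hV ⟨map Fin.val b, ?_⟩
    show φ (map Fin.val b) ≠ a
    rw [hφ]; exact fun k => hne k.symm

theorem criterion (E : Set (W × W)) :
    Separated E ↔ ∀ n : ℕ, 1 ≤ n → ∃ a : F E (n + 1),
      ∀ θ : F E (n + 1) →ₙ* F E n, ∃ b, b ≠ a ∧ θ b = θ a := by
  constructor
  · intro hS n hn
    by_contra hc
    push Not at hc
    refine hS n (n + 1) hn (by omega) (by omega) (fun u V _ => ⟨?_, sat_down E hn (by omega) u V⟩)
    refine sat_of (fun a => ?_) u V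
    obtain ⟨θ, hθ⟩ := hc a
    exact ⟨θ, fun b e => by_contra fun hne => hθ b (fun k => hne k.symm) e.symm⟩
  · intro hC
    have main : ∀ m n : ℕ, 1 ≤ m → m < n → ¬ Equivalent (F E m) (F E n) := by
      intro m n hm hmn he
      obtain ⟨a, ha⟩ := hC m hm
      obtain ⟨θ, hθ⟩ := iso_of_equiv E (m := m) (n := m + 1) (by omega)
        (fun u V hV hs => sat_down E (by omega) (by omega : m + 1 ≤ n) u V ((he u V hV).1 hs))
        (descG E (map fun _ => ⟨0, hm⟩)) a
      obtain ⟨b, hb, e⟩ := ha θ
      exact hb (hθ b e.symm).symm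
    intro m n hm hn hne h
    rcases lt_or_gt_of_ne hne with k | k
    · exact main m n hm k h
    · exact main n m hn k (fun u V hV => (h u V hV).symm)

end Pool.Agent.H83.Iv1
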