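import Pool.Agent.H83.Iv1

set_option autoImplicit false

namespace Pool.Agent.H83.Iv2

open FreeSemigroup Pool.Agent.H83.Iv1

lemma key {α S : Type} [Semigroup S] (φ : FreeSemigroup α →ₙ* S) (w : FreeSemigroup α) :
    ((φ w : S) : WithOne S) = ((tl w).map (fun x => ((φ (of x) : S) : WithOne S))).prod := by
  induction w using FreeSemigroup.recOnMul with
  | ih1 x => simp [tl, of]
  | ih2 x y e1 e2 =>
    rw [map_mul, WithOne.coe_mul, tl_mul, List.map_append, List.prod_append, ← e1, ← e2]

lemma not_sep (E : Set (W × W)) (hc : ∀ n (a b : F E n), a * b = b * a)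
    (hb : ∀ p ∈ E, (tl p.1).Perm (tl p.2)) : ¬ Separated E := by
  have h : ∀ n, con E n = con COM n := by
    intro n
    apply le_antisymm
    · refine Con.conGen_le.2 ?_
      rintro _ _ ⟨p, hp, σ, rfl, rfl⟩
      refine (Con.eq _).1 (WithOne.coe_inj.1 ?_)
      have e1 := key ((Con.mkMulHom (con COM n)).comp σ) p.1
      have e2 := key ((Con.mkMulHom (con COM n)).comp σ) p.2
      exact e1.trans ((((hb p hp).map _).prod_eq).trans e2.symm)
    · refine Con.conGen_le.2 ?_
      rintro _ _ ⟨p, hp, σ, rfl, rfl⟩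
      rw [COM, Set.mem_singleton_iff] at hp
      subst hp
      refine (Con.eq _).1 ?_
      simp only [map_mul, Con.coe_mul]
      exact hc n _ _
  intro hS
  refine hS 1 2 le_rfl (by omega) (by omega) ?_
  have := com_equiv
  unfold F at this ⊢
  rw [h 1, h 2]
  exact this

lemma prod_ite {M : Type} [Monoid M] (t : M) (k : ℕ) (l : List ℕ) :
    (l.map (fun x => if x = k then t * t else t)).prod = t ^ (l.length + l.count k) := by
  induction l with
  | nil => simp
  | cons x l ih =>
    rw [List.map_cons, List.prod_cons, ih, List.count_cons, List.length_cons]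
    by_cases h : x = k
    · simp only [h, if_true, beq_self_eq_true]
      rw [← pow_two, ← pow_add]; congr 1; omega
    · simp only [h, if_false, beq_iff_eq]
      rw [← pow_succ']; congr 1; omega

lemma inst (E : Set (W × W)) {n : ℕ} {p : W × W} (hp : p ∈ E) (σ : W →ₙ* FreeSemigroup (Fin n)) :
    ((tl p.1).map (fun x => (((σ (of x) : FreeSemigroup (Fin n)) : F E n) : WithOne (F E n)))).prod =
    ((tl p.2).map (fun x => (((σ (of x) : FreeSemigroup (Fin n)) : F E n) : WithOne (F E n)))).prod := by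
  have e1 := key ((Con.mkMulHom (con E n)).comp σ) p.1
  have e2 := key ((Con.mkMulHom (con E n)).comp σ) p.2
  have e : ((σ p.1 : FreeSemigroup (Fin n)) : F E n) = σ p.2 :=
    (Con.eq _).2 (ConGen.Rel.of _ _ ⟨p, hp, σ, rfl, rfl⟩)
  exact e1.symm.trans ((congrArg _ e).trans e2)

lemma periodic (E : Set (W × W)) {p : W × W} (hp : p ∈ E) (hn : ¬ (tl p.1).Perm (tl p.2)) :
    ∃ a b : ℕ, 1 ≤ a ∧ 1 ≤ b ∧ a ≠ b ∧ ∀ n (w : FreeSemigroup (Fin n)),
      ((w : F E n) : WithOne (F E n)) ^ a = ((w : F E n) : WithOne (F E n)) ^ b := by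
  have l1 : 1 ≤ (tl p.1).length := by simp [tl]
  have l2 : 1 ≤ (tl p.2).length := by simp [tl]
  by_cases hl : (tl p.1).length = (tl p.2).length
  · rw [List.perm_iff_count, not_forall] at hn
    obtain ⟨k, hk⟩ := hn
    refine ⟨_ + (tl p.1).count k, _ + (tl p.2).count k, le_add_right l1, le_add_right l2,
      by omega, fun n w => ?_⟩
    have := inst E hp (lift fun x => if x = k then w * w else w)
    simp only [lift_of, apply_ite (fun w : FreeSemigroup (Fin n) => ((w : F E n) : WithOne (F E n))),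
      Con.coe_mul, WithOne.coe_mul] at this
    rwa [prod_ite, prod_ite] at this
  · refine ⟨_, _, l1, l2, hl, fun n w => ?_⟩
    have := inst E hp (lift fun _ => w)
    simpa using this

lemma idem {M : Type} [Monoid M] (t : M) (a q : ℕ) (ha : 1 ≤ a) (hq : 1 ≤ q) (h : t ^ a = t ^ (a + q)) :
    t ^ (a * q) * t ^ (a * q) = t ^ (a * q) := by
  have h1 : ∀ i, t ^ (a + q * i) = t ^ a := by
    intro i
    induction i with
    | zero => simp
    | succ i ih => rw [show a + q * (i + 1) = (a + q) + q * i by ring, pow_add, ← h, ← pow_add, ih]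
  obtain ⟨r, hr⟩ : ∃ r, a * q = r + a := ⟨a * q - a, by have : a ≤ a * q := Nat.le_mul_of_pos_right _ hq; omega⟩
  rw [← pow_add, show a * q + a * q = r + (a + q * a) by nlinarith, pow_add, h1, ← pow_add, ← hr]

lemma periodic' (E : Set (W × W)) {p : W × W} (hp : p ∈ E) (hn : ¬ (tl p.1).Perm (tl p.2)) :
    ∃ N : ℕ, 1 ≤ N ∧ ∀ n (w : FreeSemigroup (Fin n)),
      ((w : F E n) : WithOne (F E n)) ^ N * ((w : F E n) : WithOne (F E n)) ^ N =
        ((w : F E n) : WithOne (F E n)) ^ N := by
  obtain ⟨a, b, ha, hb, hab, h⟩ := periodic E hp hn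
  rcases lt_or_gt_of_ne hab with k | k
  · refine ⟨a * (b - a), Nat.mul_pos ha (by omega), fun n w => idem _ a _ ha (by omega) ?_⟩
    rw [h, show a + (b - a) = b by omega]
  · refine ⟨b * (a - b), Nat.mul_pos hb (by omega), fun n w => idem _ b _ hb (by omega) ?_⟩
    rw [← h, show b + (a - b) = a by omega]

def cw {n : ℕ} (k : Fin n) : FreeSemigroup (Fin n) →ₙ* ℕ := lift fun j => if j = k then 0 else 1

lemma cw_eq {n : ℕ} (k : Fin n) (w : FreeSemigroup (Fin n)) :
    cw k w = if k ∈ tl w then 0 else 1 := by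
  induction w using FreeSemigroup.recOnMul with
  | ih1 x => simp [cw, tl, of, eq_comm]; rfl
  | ih2 x y e1 e2 =>
    rw [map_mul, e1, e2, tl_mul]
    by_cases h1 : k ∈ tl (of x) <;> by_cases h2 : k ∈ tl y <;> simp [h1, h2]

def cq (E : Set (W × W)) (hSL : ∀ p ∈ E, ∀ k, k ∈ tl p.1 ↔ k ∈ tl p.2) {n : ℕ} (k : Fin n) :
    F E n →ₙ* ℕ where
  toFun a := Con.liftOn a (cw k) (fun x y h => by
    have : con E n ≤ Con.ker (cw k) := by
      refine Con.conGen_le.2 ?_
      rintro _ _ ⟨p, hp, σ, rfl, rfl⟩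
      show cw k _ = cw k _
      rw [cw_eq, cw_eq, tl_hom, tl_hom]
      simp only [List.mem_flatMap, hSL p hp]
    exact this h)
  map_mul' a b := by
    induction a using Con.induction_on with | _ a => ?_
    induction b using Con.induction_on with | _ b => ?_
    rw [← Con.coe_mul]
    exact map_mul (cw k) a b

theorem sep (E : Set (W × W)) (hc : ∀ n (a b : F E n), a * b = b * a)
    (hSL : ∀ p ∈ E, ∀ k, k ∈ tl p.1 ↔ k ∈ tl p.2) {p : W × W} (hp : p ∈ E)
    (hn : ¬ (tl p.1).Perm (tl p.2)) : Separated E := by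
  classical
  obtain ⟨N, hN, hid⟩ := periodic' E hp hn
  rw [criterion]
  intro n hn1
  letI : ∀ m, CommSemigroup (F E m) := fun m =>
    { (inferInstance : Semigroup (F E m)) with mul_comm := hc m }
  let g : ∀ m, Fin m → WithOne (F E m) := fun m k => ((of k : FreeSemigroup (Fin m)) : F E m)
  let c : Fin (n + 1) → WithOne (F E (n + 1)) →* ℕ := fun k => WithOne.lift (cq E hSL k)
  have hcg : ∀ k j, c k (g _ j) = if j = k then 0 else 1 := fun k j => rfl
  have hz : ∀ (s : Finset (Fin (n + 1))) k, c k (∏ j ∈ s, g _ j ^ N) = if k ∈ s then 0 else 1 := by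
    intro s k
    rw [map_prod]
    split_ifs with h
    · exact Finset.prod_eq_zero h (by rw [map_pow, hcg]; simp; omega)
    · exact Finset.prod_eq_one fun j hj => by
        rw [map_pow, hcg, if_neg (fun e : j = k => h (e ▸ hj)), one_pow]
  have hne : ∀ s : Finset (Fin (n + 1)), s.Nonempty → ∃ a : F E (n + 1), (a : WithOne _) = ∏ j ∈ s, g _ j ^ N := by
    rintro s ⟨k, hk⟩
    apply WithOne.ne_one_iff_exists.1
    intro e
    have := hz s k
    rw [e, map_one, if_pos hk] at this
    exact one_ne_zero this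
  obtain ⟨a, ha⟩ := hne Finset.univ Finset.univ_nonempty
  refine ⟨a, fun θ => ?_⟩
  let w : Fin (n + 1) → FreeSemigroup (Fin n) := fun j => (θ ((of j : FreeSemigroup _) : F E (n + 1))).out
  let Θ : WithOne (F E (n + 1)) →* WithOne (F E n) := WithOne.lift ((WithOne.coeMulHom).comp θ)
  have hΘ : ∀ j, Θ (g _ j) ^ N = ((tl (w j)).map (fun k => g n k ^ N)).prod := by
    intro j
    have e1 : Θ (g _ j) = ((w j : F E n) : WithOne (F E n)) :=
      congrArg (fun t : F E n => (t : WithOne (F E n))) (Quotient.out_eq _).symm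
    have e2 := key (Con.mkMulHom (con E n)) (w j)
    rw [e1]
    erw [e2]
    have := map_list_prod (powMonoidHom N : WithOne (F E n) →* WithOne (F E n))
      ((tl (w j)).map (g n))
    rw [List.map_map] at this
    exact this
  obtain ⟨i, hi⟩ : ∃ i, ∀ k ∈ tl (w i), ∃ j, j ≠ i ∧ k ∈ tl (w j) := by
    by_contra hcon
    push Not at hcon
    choose f hf1 hf2 using hcon
    have : Function.Injective f := fun i j e => by
      by_contra hij
      exact hf2 j i hij (e ▸ hf1 i)
    have := Fintype.card_le_of_injective f this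
    simp at this
  obtain ⟨j0, hj0, _⟩ := hi (w i).head (by simp [tl])
  obtain ⟨b, hb⟩ := hne (Finset.univ.erase i) ⟨j0, by simp [hj0]⟩
  refine ⟨b, fun e => ?_, ?_⟩
  · have h1 := hz Finset.univ i
    have h2 := hz (Finset.univ.erase i) i
    rw [← ha] at h1
    rw [← hb, e, h1] at h2
    simp at h2
  · apply WithOne.coe_inj.1
    show Θ b = Θ a
    rw [ha, hb, ← Finset.mul_prod_erase _ _ (Finset.mem_univ i), map_mul, map_pow, hΘ]
    set P := Θ (∏ j ∈ Finset.univ.erase i, g _ j ^ N) with hP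
    have habs : ∀ k ∈ tl (w i), g n k ^ N * P = P := by
      intro k hk
      obtain ⟨j, hj, hkj⟩ := hi k hk
      have d1 : g n k ^ N ∣ P := by
        rw [hP, map_prod]
        refine dvd_trans ?_ (Finset.dvd_prod_of_mem _ (a := j) (by simp [hj]))
        rw [map_pow, hΘ]
        exact List.dvd_prod (List.mem_map.2 ⟨k, hkj, rfl⟩)
      obtain ⟨Q, hQ⟩ := d1
      rw [hQ, ← mul_assoc, hid n (of k)]
    generalize tl (w i) = l at habs
    induction l with
    | nil => simp
    | cons x l ih =>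
      rw [List.map_cons, List.prod_cons, mul_assoc, ← ih (fun k hk => habs k (List.mem_cons_of_mem _ hk)),
        habs x List.mem_cons_self]

theorem comm_class (E : Set (W × W)) (hc : ∀ n (a b : F E n), a * b = b * a)
    (hSL : ∀ p ∈ E, ∀ k, k ∈ tl p.1 ↔ k ∈ tl p.2) :
    Separated E ↔ ∃ p ∈ E, ¬ (tl p.1).Perm (tl p.2) := by
  constructor
  · intro h
    by_contra hcon
    push Not at hcon
    exact not_sep E hc hcon h
  · rintro ⟨p, hp, hn⟩
    exact sep E hc hSL hp hn

end Pool.Agent.H83.Iv2
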