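import Pool.Agent.H83.Iv2

set_option autoImplicit false

namespace Pool.Agent.H83.Iv3

open FreeSemigroup Pool.Agent.H83.Iv1 Pool.Agent.H83.Iv2

/-- For some `c`, a word is a zero element of `F E n` exactly when it has at least `c` letters. -/
def Exc (E : Set (W × W)) : Prop :=
  ∃ c : ℕ, ∀ (n : ℕ) (u : FreeSemigroup (Fin n)),
    (∀ t : F E n, (u : F E n) * t = u) ↔ c ≤ (tl u).length

lemma fix {α : Type} (f : FreeSemigroup α →ₙ* FreeSemigroup α) (v : FreeSemigroup α)
    (h : ∀ k ∈ tl v, f (of k) = of k) : f v = v := by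
  induction v using FreeSemigroup.recOnMul with
  | ih1 x => exact h x (by simp [tl, of])
  | ih2 x y _ e2 =>
    rw [map_mul, h x (by simp [tl_mul, tl, of]), e2 (fun k hk => h k (by rw [tl_mul]; exact List.mem_append_right _ hk))]

lemma lenB {α β : Type} (f : FreeSemigroup α →ₙ* FreeSemigroup β) (v : FreeSemigroup α) (k : α)
    (h : k ∈ tl v) : (tl (f (of k))).length + (tl v).length ≤ (tl (f v)).length + 1 := by
  induction v using FreeSemigroup.recOnMul with
  | ih1 x =>
    have : k = x := by simpa [tl, of] using h
    subst this; simp [tl, of]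
  | ih2 x y _ e2 =>
    rw [map_mul, tl_mul, tl_mul, List.length_append, List.length_append]
    have l1 : (tl (of x)).length = 1 := rfl
    rw [tl_mul, List.mem_append] at h
    rcases h with h | h
    · have : k = x := by simpa [tl, of] using h
      subst this
      have := len_hom f y; omega
    · have := e2 h
      have := len_hom f (of x); omega

lemma tl_pw {m : ℕ} (z : Fin m) (j : ℕ) : tl (pw z j) = List.replicate (j + 1) z := by
  induction j with
  | zero => rfl
  | succ j ih => rw [pw, tl_mul, ih]; rfl

lemma len_pos {α : Type} (w : FreeSemigroup α) : 1 ≤ (tl w).length := by simp [tl]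

lemma collapse {n m : ℕ} (z : Fin m) (u : FreeSemigroup (Fin n)) :
    map (fun _ => z) u = pw z ((tl u).length - 1) := by
  apply tl_inj
  have := len_pos u
  rw [tl_map, tl_pw, List.map_const', Nat.sub_add_cancel this]

theorem exc_not_sep (E : Set (W × W)) (hc : ∀ n (a b : F E n), a * b = b * a) (h : Exc E) :
    ¬ Separated E := by
  obtain ⟨c, h⟩ := h
  rw [criterion]
  intro hS
  obtain ⟨a, ha⟩ := hS (c + 1) (by omega)
  induction a using Con.induction_on with | _ w => ?_
  by_cases hw : c ≤ (tl w).length
  · obtain ⟨b, hb, e⟩ := ha (descG E (map fun _ => 0))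
    induction b using Con.induction_on with | _ v => ?_
    rw [descG_coe, descG_coe] at e
    have z1 := (h _ (map (fun _ => (0 : Fin (c + 1))) w)).2 (by rw [tl_map]; simpa using hw)
    rw [← e, h, tl_map, List.length_map] at z1
    exact hb (by rw [← (h _ v).2 z1 w, hc, (h _ w).2 hw])
  · obtain ⟨i, hi⟩ : ∃ i, i ∉ tl w := by
      by_contra hcon
      push Not at hcon
      have h1 : (Finset.univ : Finset (Fin (c + 1 + 1))) ⊆ (tl w).toFinset := fun k _ => by simpa using hcon k
      have h2 := (Finset.card_le_card h1).trans (List.toFinset_card_le _)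
      simp at h2; omega
    let σ : FreeSemigroup (Fin (c + 1 + 1)) →ₙ* FreeSemigroup (Fin (c + 1)) :=
      lift fun k => if hk : k = i then pw 0 c else of (Fin.exists_succAbove_eq hk).choose
    let τ := (map i.succAbove).comp σ
    have t1 : ∀ k, k ≠ i → τ (of k) = of k := by
      intro k hk
      show map _ (lift _ (of k)) = _
      rw [lift_of, dif_neg hk, map_of, (Fin.exists_succAbove_eq hk).choose_spec]
    have t2 : (tl (τ (of i))).length = c + 1 := by
      show (tl (map _ (lift _ (of i)))).length = _
      rw [lift_of, dif_pos rfl, tl_map, tl_pw]; simp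
    obtain ⟨b, hb, e⟩ := ha (descG E σ)
    induction b using Con.induction_on with | _ v => ?_
    have e2 : ((τ v : FreeSemigroup _) : F E (c + 1 + 1)) = (τ w : FreeSemigroup _) :=
      congrArg (descG E (map i.succAbove)) e
    rw [fix τ w (fun k hk => t1 k (fun e => hi (e ▸ hk)))] at e2
    by_cases hv : i ∈ tl v
    · have := lenB τ v i hv
      have l := len_pos v
      have z := (h _ (τ v)).2 (by omega)
      rw [e2, h] at z
      exact hw z
    · rw [fix τ v (fun k hk => t1 k (fun e => hv (e ▸ hk)))] at e2
      exact hb e2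

lemma uniq (E : Set (W × W)) (hc : ∀ n (a b : F E n), a * b = b * a) {p : W × W} (hp : p ∈ E)
    {k : ℕ} (hk : ¬ (k ∈ tl p.1 ↔ k ∈ tl p.2)) (n : ℕ) (s t : F E n) (hs : s * s = s) (ht : t * t = t) :
    s = t := by
  classical
  have main : ∀ s t : F E n, s * s = s → t * t = t → s * t = t := by
    intro s t hs ht
    let φ : W →ₙ* F E n := lift fun x => if x = k then s else t
    have e : φ p.1 = φ p.2 := by
      induction s using Con.induction_on with | _ s => ?_
      induction t using Con.induction_on with | _ t => ?_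
      let σ : W →ₙ* FreeSemigroup (Fin n) := lift fun x => if x = k then s else t
      have hσ : ∀ w, φ w = (σ w : F E n) := by
        intro w
        induction w using FreeSemigroup.recOnMul with
        | ih1 x => simp only [φ, σ, lift_of]; split_ifs <;> rfl
        | ih2 x y e1 e2 => rw [map_mul, map_mul, Con.coe_mul, ← e1, ← e2]
      rw [hσ, hσ]
      exact (Con.eq _).2 (ConGen.Rel.of _ _ ⟨p, hp, σ, rfl, rfl⟩)
    have a1 : ∀ w, k ∉ tl w → φ w = t := by
      intro w
      induction w using FreeSemigroup.recOnMul with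
      | ih1 x => intro h; simp only [φ, lift_of]; rw [if_neg]; rintro rfl; exact h (by simp [tl, of])
      | ih2 x y e1 e2 =>
        intro h
        rw [tl_mul, List.mem_append, not_or] at h
        rw [map_mul, e1 h.1, e2 h.2, ht]
    have a2 : ∀ w, k ∈ tl w → s * φ w = φ w := by
      intro w
      induction w using FreeSemigroup.recOnMul with
      | ih1 x =>
        intro h
        have : x = k := by simpa [tl, of, eq_comm] using h
        simp only [φ, lift_of, if_pos this, hs]
      | ih2 x y e1 e2 =>
        intro h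
        rw [tl_mul, List.mem_append] at h
        rw [map_mul]
        rcases h with h | h
        · rw [← mul_assoc, e1 h]
        · rw [hc n (φ (of x)), ← mul_assoc, e2 h]
    by_cases h1 : k ∈ tl p.1
    · have h2 : k ∉ tl p.2 := fun h => hk ⟨fun _ => h, fun _ => h1⟩
      have := a2 _ h1
      rwa [e, a1 _ h2] at this
    · have h2 : k ∈ tl p.2 := by by_contra h; exact hk ⟨fun a => absurd a h1, fun a => absurd a h⟩
      have := a2 _ h2
      rwa [← e, a1 _ h1] at this
  rw [← main s t hs ht, hc, main t s ht hs]

lemma tfm {α β : Type} [DecidableEq α] [DecidableEq β] (f : α → β) (l : List α) :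
    (l.map f).toFinset = l.toFinset.image f := by
  ext; simp

theorem nil_sep (E : Set (W × W)) (hc : ∀ n (a b : F E n), a * b = b * a)
    (hu : ∀ n (s t : F E n), s * s = s → t * t = t → s = t)
    (hex : ∃ j, ∀ t : F E 1, (pw (0 : Fin 1) j : F E 1) * t = pw (0 : Fin 1) j) (hE : ¬ Exc E) : Separated E := by
  classical
  set m := Nat.find hex with hm
  have hsp := Nat.find_spec hex
  rw [← hm] at hsp
  have p1 : ∀ n (z : Fin n), (pw z m : F E n) * (of z : FreeSemigroup _) = pw z m := by
    intro n z
    have := congrArg (descG E (map fun _ : Fin 1 => z)) (hsp (of 0 : FreeSemigroup (Fin 1)))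
    rw [map_mul, descG_coe, descG_coe, collapse, tl_pw, map_of] at this
    simpa using this
  have p2 : ∀ n (z : Fin n) j, (pw z m : F E n) * (pw z j : FreeSemigroup _) = pw z m := by
    intro n z j
    induction j with
    | zero => exact p1 n z
    | succ j ih => rw [pw, Con.coe_mul, ← mul_assoc, p1, ih]
  have habs : ∀ n (s t : F E n), s * s = s → s * t = s := by
    intro n s t hs
    induction t using Con.induction_on with | _ t => ?_
    induction t using FreeSemigroup.recOnMul with
    | ih1 x => rw [hu n s (pw x m) hs (p2 n x m), p1]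
    | ih2 x y e1 e2 => rw [Con.coe_mul, ← mul_assoc, e1, e2]
  have hmul : ∀ n (s t : F E n), s * s = s → (s * t) * (s * t) = s * t := by
    intro n s t hs; rw [habs n s t hs, hs]
  have p3 : ∀ n (z : Fin n) j, m ≤ j → (pw z j : F E n) * (pw z j : FreeSemigroup _) = pw z j := by
    intro n z j hj
    induction j, hj using Nat.le_induction with
    | base => exact p2 n z m
    | succ j _ ih => rw [pw, Con.coe_mul, hc n _ (pw z j : F E n)]; exact hmul _ _ _ ih
  have himg : ∀ {n k} (θ : F E n →ₙ* F E k) (s : F E n), s * s = s → θ s * θ s = θ s := by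
    intro n k θ s hs; rw [← map_mul, hs]
  have hlen : ∀ n (u : FreeSemigroup (Fin n)), (u : F E n) * u = u → m + 1 ≤ (tl u).length := by
    intro n u hz
    have := himg (descG E (map fun _ => (0 : Fin 1))) _ hz
    rw [descG_coe, collapse] at this
    have h2 : m ≤ (tl u).length - 1 := Nat.find_min' hex (fun t => habs _ _ t this)
    have := len_pos u
    omega
  have hback : ∀ n, 1 ≤ n → ∀ u : FreeSemigroup (Fin n),
      ((map Fin.castSucc u : FreeSemigroup _) : F E (n + 1)) * (map Fin.castSucc u : FreeSemigroup _) = (map Fin.castSucc u : FreeSemigroup _) →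
      (u : F E n) * u = u := by
    intro n hn u h
    let r : Fin (n + 1) → Fin n := fun k => if h : k.val < n then ⟨k, h⟩ else ⟨0, hn⟩
    have := himg (descG E (map r)) _ h
    have e : map r (map Fin.castSucc u) = u := fix ((map r).comp (map Fin.castSucc)) u (fun k _ => by simp [r])
    rwa [descG_coe, e] at this
  have hperm : ∀ n (π : Equiv.Perm (Fin n)) (u : FreeSemigroup (Fin n)),
      ((map π u : FreeSemigroup _) : F E n) * (map π u : FreeSemigroup _) = (map π u : FreeSemigroup _) →
      (u : F E n) * u = u := by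
    intro n π u h
    have := himg (descG E (map π.symm)) _ h
    have e : map π.symm (map π u) = u := fix ((map π.symm).comp (map π)) u (fun k _ => by simp)
    rwa [descG_coe, e] at this
  rw [criterion]
  intro n hn
  have hrep : ∀ θ : F E (n + 1) →ₙ* F E n, ∃ σ : FreeSemigroup (Fin (n + 1)) →ₙ* FreeSemigroup (Fin n),
      (∀ w : FreeSemigroup (Fin (n + 1)), θ w = (σ w : F E n)) ∧
      ((∃ j, 2 ≤ (tl (σ (of j))).length) ∨ ∃ f : Fin (n + 1) → Fin n, σ = map f ∧ ∃ i j, i ≠ j ∧ f i = f j) := by
    intro θ
    let σ : FreeSemigroup (Fin (n + 1)) →ₙ* FreeSemigroup (Fin n) :=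
      lift fun k => (θ ((of k : FreeSemigroup _) : F E (n + 1))).out
    refine ⟨σ, fun w => ?_, ?_⟩
    · induction w using FreeSemigroup.recOnMul with
      | ih1 x => exact (Quotient.out_eq _).symm
      | ih2 x y e1 e2 => rw [Con.coe_mul, map_mul, map_mul, Con.coe_mul, ← e1, ← e2]
    · by_cases h : ∃ j, 2 ≤ (tl (σ (of j))).length
      · exact Or.inl h
      · push Not at h
        refine Or.inr ⟨fun j => (σ (of j)).head, ?_, Fintype.exists_ne_map_eq_of_card_lt _ (by simp)⟩
        ext1
        funext j
        apply tl_inj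
        have := h j
        simp only [tl, List.length_cons] at this
        have h0 : (σ (of j)).tail = [] := List.length_eq_zero_iff.1 (by omega)
        simp only [Function.comp, map_of]
        simp [tl, h0, of]
        exact h0
  by_cases hall : ∀ u : FreeSemigroup (Fin (n + 1)), m + 1 ≤ (tl u).length → (u : F E (n + 1)) * u = u
  · have hnm : n + 1 ≤ m := by
      by_contra hcon
      apply hE
      refine ⟨m + 1, fun k u => ⟨fun h => hlen k u (h u), fun hl t => habs _ _ t ?_⟩⟩
      let v : FreeSemigroup (Fin (n + 1)) := ⟨0, (List.range m).map fun i => Fin.ofNat (n + 1) (i + 1)⟩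
      let u1 : FreeSemigroup (Fin k) := ⟨u.head, u.tail.take m⟩
      have hl' : m ≤ u.tail.length := by simpa [tl] using hl
      have e : map (fun i : Fin (n + 1) => (tl u).getD i u.head) v = u1 := by
        apply tl_inj
        rw [tl_map]
        simp only [tl, v, u1, List.map_cons, List.map_map]
        congr 1
        apply List.ext_getElem
        · simp [hl']
        · intro i h1 h2
          have hi : i < m := by simpa using h1
          have : (i + 1) % (n + 1) = i + 1 := Nat.mod_eq_of_lt (by omega)
          have hi2 : i < u.tail.length := by omega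
          simp [Fin.ofNat, this, hi2]
      have z := himg (descG E (map fun i : Fin (n + 1) => (tl u).getD i u.head)) _ (hall v (by simp [v, tl]))
      rw [descG_coe, e] at z
      cases hd : u.tail.drop m with
      | nil =>
        have : u1 = u := tl_inj _ _ (by simp only [tl, u1]; rw [← List.take_append_drop m u.tail, hd]; simp)
        rwa [this] at z
      | cons y l =>
        have : u = u1 * ⟨y, l⟩ := tl_inj _ _ (by
          rw [tl_mul]; simp only [tl, u1]; rw [← hd, List.cons_append, List.take_append_drop])
        rw [this, Con.coe_mul]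
        exact hmul _ _ _ z
    let a : FreeSemigroup (Fin (n + 1)) := ⟨0, List.replicate (m - (n + 1)) 0 ++ (List.finRange (n + 1)).tail⟩
    have la : (tl a).length = m := by simp [a, tl]; omega
    have ma : ∀ j, j ∈ tl a := by
      intro j
      have := List.mem_finRange j
      rw [List.finRange_succ] at this
      simp only [tl, a, List.finRange_succ, List.tail_cons, List.mem_cons, List.mem_append] at this ⊢
      tauto
    refine ⟨a, fun θ => ?_⟩
    obtain ⟨σ, hσ, ⟨j, hj⟩ | ⟨f, rfl, i, j, hij, hf⟩⟩ := hrep θ
    · refine ⟨(pw (0 : Fin (n + 1)) m : FreeSemigroup _), fun e => ?_, hu _ _ _ (himg θ _ (p2 _ _ _)) ?_⟩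
      · have := p2 (n + 1) 0 m
        rw [e] at this
        have := hlen _ _ this; omega
      · rw [hσ]
        apply hback n hn
        apply hall
        have := lenB σ a j (ma j)
        rw [tl_map, List.length_map]; omega
    · let b := map (fun k => if k = j then i else k) a
      have hb : j ∉ tl b := by
        simp only [b, tl_map, List.mem_map, not_exists, not_and]
        intro x _ h
        split_ifs at h with h1
        · exact hij h
        · exact h1 h
      refine ⟨b, fun e => ?_, ?_⟩
      · let τ : FreeSemigroup (Fin (n + 1)) →ₙ* FreeSemigroup (Fin (n + 1)) :=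
          lift fun k => if k = j then pw 0 m else of k
        have e2 : ((τ b : FreeSemigroup _) : F E (n + 1)) = (τ a : FreeSemigroup _) := congrArg (descG E τ) e
        rw [fix τ b (fun k hk => by simp only [τ, lift_of]; rw [if_neg]; rintro rfl; exact hb hk)] at e2
        have l1 := lenB τ a j (ma j)
        have l2 : (tl (τ (of j))).length = m + 1 := by simp [τ, tl_pw]
        have z := hall (τ a) (by omega)
        rw [← e2] at z
        have := hlen _ _ z
        simp only [b, tl_map, List.length_map] at this
        omega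
      · rw [hσ, hσ]
        congr 1
        apply tl_inj
        simp only [b, tl_map, List.map_map]
        apply List.map_congr_left
        intro x _
        simp only [Function.comp]
        split_ifs with h
        · rw [h, hf]
        · rfl
  · push Not at hall
    have hbd : ∀ u : FreeSemigroup (Fin (n + 1)), (n + 1) * (m + 1) < (tl u).length → (u : F E (n + 1)) * u = u := by
      intro u hl
      obtain ⟨k, hk⟩ : ∃ k, m + 1 < (tl u).count k := by
        by_contra hcon
        push Not at hcon
        have h1 := List.sum_toFinset_count_eq_length (tl u)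
        have h2 : ∑ a ∈ (tl u).toFinset, (tl u).count a ≤ (tl u).toFinset.card * (m + 1) :=
          Finset.sum_le_card_nsmul _ _ _ (fun x _ => hcon x)
        have h3 : (tl u).toFinset.card ≤ n + 1 := by simpa using Finset.card_le_univ (tl u).toFinset
        nlinarith
      letI : CommSemigroup (F E (n + 1)) := { (inferInstance : Semigroup (F E (n + 1))) with mul_comm := hc _ }
      have hs : (List.replicate (m + 1) k).Sublist (tl u) := List.replicate_sublist_iff.2 hk.le
      obtain ⟨l, hl2⟩ := hs.exists_perm_append
      cases l with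
      | nil =>
        have := hl2.count_eq k
        simp at this; omega
      | cons y l =>
        have e : (u : F E (n + 1)) = (pw k m * ⟨y, l⟩ : FreeSemigroup _) := by
          apply WithOne.coe_inj.1
          have e1 := key (Con.mkMulHom (con E (n + 1))) u
          have e2 := key (Con.mkMulHom (con E (n + 1))) (pw k m * ⟨y, l⟩)
          refine e1.trans (Eq.trans (List.Perm.prod_eq (List.Perm.map _ ?_)) e2.symm)
          rw [tl_mul, tl_pw]; exact hl2
        rw [e, Con.coe_mul]
        exact hmul _ _ _ (p2 _ _ _)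
    obtain ⟨u0, hu0, hu1⟩ := hall
    have hexL : ∃ L, ∀ u : FreeSemigroup (Fin (n + 1)), L < (tl u).length → (u : F E (n + 1)) * u = u := ⟨_, hbd⟩
    set L := Nat.find hexL with hL
    have hL1 := Nat.find_spec hexL
    rw [← hL] at hL1
    have hLm : m + 1 ≤ L := by
      by_contra hcon
      exact hu1 (hL1 u0 (by omega))
    have hexC : ∃ q, ∃ u : FreeSemigroup (Fin (n + 1)), (tl u).length = L ∧ (u : F E (n + 1)) * u ≠ u ∧
        (tl u).toFinset.card = q := by
      have := Nat.find_min hexL (m := L - 1) (by omega)
      push Not at this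
      obtain ⟨u, h1, h2⟩ := this
      refine ⟨_, u, ?_, h2, rfl⟩
      by_contra hcon
      exact h2 (hL1 u (by omega))
    obtain ⟨M, M1, M2, M3⟩ := Nat.find_spec hexC
    obtain ⟨z, hz, hzy⟩ : ∃ z ∈ tl M, z ≠ M.head := by
      by_contra hcon
      push Not at hcon
      apply M2
      have : M = pw M.head (L - 1) := tl_inj _ _ (by
        rw [tl_pw, List.eq_replicate_iff]; exact ⟨by omega, hcon⟩)
      rw [this]
      exact p3 _ _ _ (by omega)
    have hy : M.head ∈ tl M := by simp [tl]
    refine ⟨(pw (0 : Fin (n + 1)) m : FreeSemigroup _), fun θ => ?_⟩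
    have fin : ∀ π : Equiv.Perm (Fin (n + 1)), θ (map π M : FreeSemigroup _) * θ (map π M : FreeSemigroup _) = θ (map π M : FreeSemigroup _) →
        ∃ b, b ≠ ((pw (0 : Fin (n + 1)) m : FreeSemigroup _) : F E (n + 1)) ∧ θ b = θ (pw (0 : Fin (n + 1)) m : FreeSemigroup _) := by
      intro π h
      refine ⟨(map π M : FreeSemigroup _), fun e => M2 (hperm _ π M ?_), hu _ _ _ h (himg θ _ (p2 _ _ _))⟩
      rw [e]; exact p2 _ _ _
    obtain ⟨σ, hσ, ⟨j, hj⟩ | ⟨f, rfl, i, j, hij, hf⟩⟩ := hrep θ
    · apply fin (Equiv.swap z j)
      rw [hσ]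
      apply hback n hn
      apply hL1
      have := lenB σ (map (Equiv.swap z j) M) j (by rw [tl_map]; exact List.mem_map.2 ⟨z, hz, by simp⟩)
      rw [tl_map, List.length_map] at this
      rw [tl_map, List.length_map]; omega
    · let π : Equiv.Perm (Fin (n + 1)) := (Equiv.swap z j).trans (Equiv.swap (Equiv.swap z j M.head) i)
      have π1 : π M.head = i := by simp [π]
      have π2 : π z = j := by
        have : j ≠ Equiv.swap z j M.head := by
          intro h
          have := congrArg (Equiv.swap z j) h
          simp at this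
          exact hzy this
        simp [π, Equiv.swap_apply_of_ne_of_ne this hij.symm]
      apply fin π
      rw [hσ]
      apply hback n hn
      by_contra hcon
      have := Nat.find_min' hexC ⟨_, by simp [tl_map, M1], hcon, rfl⟩
      rw [← M3, tl_map, tl_map, tl_map, List.map_map, List.map_map, tfm] at this
      have h2 := Finset.card_image_iff.1 (le_antisymm Finset.card_image_le this)
      exact hzy (h2 (by simpa using hz) (by simpa using hy) (by simp [π1, π2, hf]))

lemma coe_pw (E : Set (W × W)) {n : ℕ} (z : Fin n) (j : ℕ) :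
    ((pw z j : F E n) : WithOne (F E n)) =
      (((of z : FreeSemigroup (Fin n)) : F E n) : WithOne (F E n)) ^ (j + 1) := by
  induction j with
  | zero => simp [pw]
  | succ j ih => rw [pw, Con.coe_mul, WithOne.coe_mul, ih, ← pow_succ']

theorem grp_sep (E : Set (W × W)) (hc : ∀ n (a b : F E n), a * b = b * a)
    (hu : ∀ n (s t : F E n), s * s = s → t * t = t → s = t) (N : ℕ)
    (hid : (pw (0 : Fin 1) N : F E 1) * pw (0 : Fin 1) N = pw (0 : Fin 1) N)
    (hz : (pw (0 : Fin 1) N : F E 1) * (of 0 : FreeSemigroup (Fin 1)) ≠ pw (0 : Fin 1) N) :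
    Separated E := by
  classical
  letI : ∀ m, CommSemigroup (F E m) := fun m =>
    { (inferInstance : Semigroup (F E m)) with mul_comm := hc m }
  let g : ∀ m, Fin m → WithOne (F E m) := fun m k => ((of k : FreeSemigroup (Fin m)) : F E m)
  let e : ∀ m, Fin m → F E m := fun m k => (pw k N : FreeSemigroup (Fin m))
  have hex : ∃ d, (e 1 0 : WithOne (F E 1)) * g 1 0 ^ (d + 1) = e 1 0 :=
    ⟨N, by rw [← coe_pw, ← WithOne.coe_mul]; exact congrArg _ hid⟩
  set d := Nat.find hex with hd
  have hsp := Nat.find_spec hex
  rw [← hd] at hsp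
  have d0 : d ≠ 0 := by
    intro h
    rw [h, zero_add, pow_one] at hsp
    exact hz (WithOne.coe_inj.1 hsp)
  have hcol : ∀ n (k : Fin n), descG E (map fun _ : Fin 1 => k) (e 1 0) = e n k := by
    intro n k
    show ((map (fun _ : Fin 1 => k) (pw (0 : Fin 1) N) : FreeSemigroup (Fin n)) : F E n) = _
    rw [collapse, tl_pw]; simp [e]
  have he : ∀ n (k : Fin n), e n k * e n k = e n k := by
    intro n k
    rw [← hcol, ← map_mul]; exact congrArg _ hid
  have hk : ∀ n (k : Fin n) (s : F E n), s * s = s → ∀ q, (s : WithOne (F E n)) * g n k ^ ((d + 1) * q) = s := by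
    intro n k s hs q
    have h1 := congrArg (WithOne.mapMulHom (descG E (map fun _ : Fin 1 => k))) hsp
    rw [map_mul, map_pow, WithOne.mapMulHom_coe, hcol, ← hu _ _ _ hs (he n k)] at h1
    have h2 : (s : WithOne (F E n)) * g n k ^ (d + 1) = s := h1
    induction q with
    | zero => simp
    | succ q ih => rw [mul_add, pow_add, ← mul_assoc, ih, mul_one, h2]
  have habs : ∀ {M ι : Type} [CommMonoid M] (s : M) (t : Finset ι) (f : ι → M),
      (∀ i ∈ t, s * f i = s) → s * ∏ i ∈ t, f i = s := by
    intro M ι _ s t f h
    exact Finset.prod_induction f (fun x => s * x = s)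
      (fun a b ha hb => by rw [← mul_assoc, ha, hb]) (mul_one s) h
  rw [criterion]
  intro n hn
  refine ⟨e _ 0, fun θ => ?_⟩
  let w : Fin (n + 1) → FreeSemigroup (Fin n) := fun j => (θ ((of j : FreeSemigroup _) : F E (n + 1))).out
  let Θ := WithOne.mapMulHom θ
  have hΘ : ∀ j, Θ (g _ j) = ∏ k, g n k ^ (tl (w j)).count k := by
    intro j
    have e1 : Θ (g _ j) = ((w j : F E n) : WithOne (F E n)) :=
      congrArg (fun t : F E n => (t : WithOne (F E n))) (Quotient.out_eq _).symm
    have e2 := key (Con.mkMulHom (con E n)) (w j)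
    rw [e1]
    erw [e2]
    rw [Finset.prod_list_map_count]
    apply Finset.prod_subset (Finset.subset_univ _)
    intro x _ hx
    rw [List.count_eq_zero_of_not_mem (by simpa using hx), pow_zero]
  let Φ : (Fin (n + 1) → ZMod (d + 1)) → (Fin n → ZMod (d + 1)) :=
    fun s k => ∑ j, ((tl (w j)).count k : ZMod (d + 1)) * s j
  obtain ⟨s1, s2, hne, hΦ⟩ := Fintype.exists_ne_map_eq_of_card_lt Φ (by
    simp only [Fintype.card_fun, ZMod.card, Fintype.card_fin]
    exact Nat.pow_lt_pow_right (by omega) (by omega))
  let r : Fin (n + 1) → ℕ := fun j => (s1 j - s2 j).val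
  have hr : ∀ k, (d + 1) ∣ ∑ j, (tl (w j)).count k * r j := by
    intro k
    rw [← ZMod.natCast_eq_zero_iff]
    have := congrFun hΦ k
    simp only [Φ] at this
    simp only [r, Nat.cast_sum, Nat.cast_mul, ZMod.natCast_val, ZMod.cast_id', id, mul_sub,
      Finset.sum_sub_distrib, this, sub_self]
  obtain ⟨b, hb⟩ : ∃ b : F E (n + 1), (b : WithOne _) = (e (n + 1) 0 : WithOne (F E (n + 1))) * ∏ j, g _ j ^ r j := by
    generalize (∏ j, g _ j ^ r j) = X
    exact WithOne.cases_on X ⟨_, (mul_one _).symm⟩ (fun x => ⟨e _ 0 * x, rfl⟩)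
  refine ⟨b, fun eb => ?_, ?_⟩
  · obtain ⟨j, hj⟩ := Function.ne_iff.1 hne
    have r1 : r j ≠ 0 := by simpa [r, sub_eq_zero] using hj
    have r2 : r j < d + 1 := ZMod.val_lt _
    let τ := descG E (lift fun i : Fin (n + 1) => if i = j then of (0 : Fin 1) else pw 0 N)
    have h1 := congrArg (WithOne.mapMulHom τ) hb
    have t0 : τ (e _ 0) = e 1 0 := hu _ _ _ (by rw [← map_mul, he]) (he _ _)
    rw [eb, map_mul, WithOne.mapMulHom_coe, t0, map_prod,
      ← Finset.prod_erase_mul _ _ (Finset.mem_univ j), ← mul_assoc, habs] at h1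
    · have t1 : WithOne.mapMulHom τ (g _ j) = g 1 0 := by
        show (((lift _ (of j) : FreeSemigroup (Fin 1)) : F E 1) : WithOne (F E 1)) = _
        rw [lift_of, if_pos rfl]
      rw [map_pow, t1] at h1
      refine Nat.find_min hex (m := r j - 1) (by omega) ?_
      rw [Nat.sub_add_cancel (by omega)]
      exact h1.symm
    · intro i hi
      have t1 : WithOne.mapMulHom τ (g _ i) = (e 1 0 : F E 1) := by
        show (((lift _ (of i) : FreeSemigroup (Fin 1)) : F E 1) : WithOne (F E 1)) = _
        rw [lift_of, if_neg (Finset.ne_of_mem_erase hi)]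
      rw [map_pow, t1]
      induction r i with
      | zero => simp
      | succ q ih => rw [pow_succ, ← mul_assoc, ih, ← WithOne.coe_mul, he]
  · apply WithOne.coe_inj.1
    show Θ b = _
    rw [hb, map_mul, map_prod]
    simp only [map_pow, hΘ, ← Finset.prod_pow, ← pow_mul]
    rw [Finset.prod_comm]
    simp only [Finset.prod_pow_eq_pow_sum]
    refine habs _ _ _ fun k _ => ?_
    obtain ⟨q, hq⟩ := hr k
    rw [hq]
    exact hk n k _ (by rw [← map_mul, he]) q

theorem comm_full (E : Set (W × W)) (hc : ∀ n (a b : F E n), a * b = b * a) :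
    Separated E ↔ (∃ p ∈ E, ¬ (tl p.1).Perm (tl p.2)) ∧ ¬ Exc E := by
  constructor
  · intro h
    refine ⟨?_, fun hE => exc_not_sep E hc hE h⟩
    by_contra hcon
    push Not at hcon
    exact not_sep E hc hcon h
  · rintro ⟨⟨p, hp, hn⟩, hE⟩
    by_cases hSL : ∀ p ∈ E, ∀ k, k ∈ tl p.1 ↔ k ∈ tl p.2
    · exact sep E hc hSL hp hn
    · simp only [not_forall] at hSL
      obtain ⟨q, hq, k, hk⟩ := hSL
      have hu := uniq E hc hq hk
      obtain ⟨N, hN, hid⟩ := periodic' E hp hn
      have h1 : (pw (0 : Fin 1) (N - 1) : F E 1) * pw (0 : Fin 1) (N - 1) = pw (0 : Fin 1) (N - 1) := by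
        apply WithOne.coe_inj.1
        rw [WithOne.coe_mul, coe_pw, Nat.sub_add_cancel hN]
        exact hid 1 (of 0)
      by_cases hz : (pw (0 : Fin 1) (N - 1) : F E 1) * (of 0 : FreeSemigroup (Fin 1)) = pw (0 : Fin 1) (N - 1)
      · refine nil_sep E hc hu ⟨N - 1, fun t => ?_⟩ hE
        induction t using Con.induction_on with | _ t => ?_
        induction t using FreeSemigroup.recOnMul with
        | ih1 x => rw [Subsingleton.elim x 0]; exact hz
        | ih2 x y e1 e2 => rw [Con.coe_mul, ← mul_assoc, e1, e2]
      · exact grp_sep E hc hu _ h1 hz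

end Pool.Agent.H83.Iv3
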