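import Pool.Agent.H83.Telg

/-! Selection games on `k`-covers. -/

set_option autoImplicit false

namespace Pool.Agent.H83.KGame

open Set

section defs
variable (X : Type) [TopologicalSpace X]

/-- `k`-covers; the whole space may be a member -/
def KCover (𝒰 : Set (Set X)) : Prop :=
  (∀ U ∈ 𝒰, IsOpen U) ∧ ⋃₀ 𝒰 = univ ∧ ∀ K, IsCompact K → ∃ U ∈ 𝒰, K ⊆ U

abbrev KC : Type := {𝒰 : Set (Set X) // KCover X 𝒰}

def P1WinsOne : Prop :=
  ∃ σ : List (Set X) → KC X, ∀ U : ℕ → Set X,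
    (∀ n, U n ∈ (σ (List.ofFn fun i : Fin n => U i)).1) → ¬ KCover X (range U)

def P2WinsOne : Prop :=
  ∃ τ : List (KC X) → KC X → Set X, (∀ l 𝒰, τ l 𝒰 ∈ 𝒰.1) ∧
    ∀ 𝒰 : ℕ → KC X, KCover X (range fun n => τ (List.ofFn fun i : Fin n => 𝒰 i) (𝒰 n))

def P1WinsFin : Prop :=
  ∃ σ : List (Set (Set X)) → KC X, ∀ 𝓕 : ℕ → Set (Set X),
    (∀ n, (𝓕 n).Finite ∧ 𝓕 n ⊆ (σ (List.ofFn fun i : Fin n => 𝓕 i)).1) →
      ¬ KCover X (⋃ n, 𝓕 n)

def P2WinsFin : Prop :=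
  ∃ τ : List (KC X) → KC X → Set (Set X), (∀ l 𝒰, (τ l 𝒰).Finite ∧ τ l 𝒰 ⊆ 𝒰.1) ∧
    ∀ 𝒰 : ℕ → KC X, KCover X (⋃ n, τ (List.ofFn fun i : Fin n => 𝒰 i) (𝒰 n))

end defs

open Telg W1

theorem not_p1One : ¬ P1WinsOne X := by
  rintro ⟨σ, h⟩
  -- countable subfamilies containing every finite set
  have sub : ∀ 𝒰 : KC X, ∃ V : ℕ → Set X, (∀ k, V k ∈ 𝒰.1) ∧
      ∀ E : Finset X, ∃ k, ↑E ⊆ V k := by
    intro 𝒰
    choose U u1 u2 using fun E : Finset X => 𝒰.2.2.2 E E.finite_toSet.isCompact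
    have : ∀ E : Finset X, ∃ b, ∀ x ∈ E, N x b ⊆ U E := by
      intro E
      choose b hb using fun x : E => 𝒰.2.1 _ (u1 E) x.1 (u2 E x.2)
      obtain ⟨c, hc⟩ := exists_gt_of_countable (countable_range b)
      exact ⟨c, fun x hx => (N_anti x (hc _ ⟨⟨x, hx⟩, rfl⟩).le).trans (hb ⟨x, hx⟩)⟩
    choose g hg using this
    obtain ⟨F, hF⟩ := lind g
    refine ⟨fun k => U (F k), fun k => u1 _, fun E => (hF E).imp fun k hk x hx => ?_⟩
    obtain ⟨y, hy, h⟩ := hk x hx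
    exact hg _ y hy h
  choose V v1 v2 using sub
  let H : List ℕ → List (Set X) := fun s => s.foldl (fun l k => l ++ [V (σ l) k]) []
  choose φ hφ using fun (E : Finset X) (s : List ℕ) => v2 (σ (H s)) E
  have : ∀ E : Finset X, ∃ b, ∀ x ∈ E, ∀ s, N x b ⊆ V (σ (H s)) (φ E s) := by
    intro E
    choose b hb using fun x : E => nhd_iInter (x := x.1)
      (fun s => (σ (H s)).2.1 _ (v1 _ (φ E s))) fun s => hφ E s x.2
    obtain ⟨c, hc⟩ := exists_gt_of_countable (countable_range b)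
    exact ⟨c, fun x hx s => (N_anti x (hc _ ⟨⟨x, hx⟩, rfl⟩).le).trans (hb ⟨x, hx⟩ s)⟩
  choose g hg using this
  obtain ⟨F, hF⟩ := lind g
  let s : ℕ → List ℕ := fun n => Nat.rec [] (fun n l => l ++ [φ (F n) l]) n
  have e : ∀ n, (List.ofFn fun i : Fin n => V (σ (H (s i))) (φ (F i) (s i))) = H (s n) := by
    intro n
    induction n with
    | zero => rfl
    | succ n ih =>
      rw [List.ofFn_succ', List.concat_eq_append]
      simp only [Fin.val_castSucc, ih]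
      exact (List.foldl_concat (fun l k => l ++ [V (σ l) k]) [] (φ (F n) (s n)) (s n)).symm
  have cov : ∀ E : Finset X, ∃ n, ↑E ⊆ V (σ (H (s n))) (φ (F n) (s n)) := fun E =>
    (hF E).imp fun n hn x hx => by
      obtain ⟨y, hy, h⟩ := hn x hx
      exact hg _ y hy _ h
  refine h (fun n => V (σ (H (s n))) (φ (F n) (s n))) (fun n => by rw [e]; exact v1 _ _)
    ⟨?_, eq_univ_of_forall fun x => ?_, fun K hK => ?_⟩
  · rintro _ ⟨n, rfl⟩
    exact (σ _).2.1 _ (v1 _ _)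
  · obtain ⟨n, hn⟩ := cov {x}
    exact ⟨_, ⟨n, rfl⟩, hn (by simp)⟩
  · obtain ⟨n, hn⟩ := cov (finite_of_compact hK).toFinset
    exact ⟨_, ⟨n, rfl⟩, by simpa using hn⟩

theorem not_p2Fin : ¬ P2WinsFin X := by
  classical
  rintro ⟨τ, h1, h2⟩
  let M : W → Finset X → Set X := fun d F => ⋃ x ∈ F, N x d
  let 𝒱 : W → KC X := fun d => ⟨range (M d), by
    rintro _ ⟨F, rfl⟩; exact isOpen_biUnion fun x _ => open_N _ _,
    eq_univ_of_forall fun x => ⟨_, ⟨{x}, rfl⟩, by simpa [M] using mem_N x d⟩, fun K hK =>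
      ⟨_, ⟨(finite_of_compact hK).toFinset, rfl⟩, fun x hx =>
        mem_iUnion₂.2 ⟨x, by simpa using hx, mem_N x d⟩⟩⟩
  have : ∀ (p : List W) (d : W), ∃ F : Finset X, ∀ U ∈ τ (p.map 𝒱) (𝒱 d), U ⊆ M d F := by
    intro p d
    obtain ⟨s, -, h3, h4⟩ := (h1 (p.map 𝒱) (𝒱 d)).1.exists_subset_finite_image_eq (f := M d)
      (s := univ) (by rw [image_univ]; exact (h1 _ _).2)
    refine ⟨h3.toFinset.biUnion id, fun U hU x hx => ?_⟩
    obtain ⟨G, hG, rfl⟩ : U ∈ M d '' s := h4 ▸ hU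
    obtain ⟨y, hy, h⟩ := mem_iUnion₂.1 hx
    exact mem_iUnion₂.2 ⟨y, Finset.mem_biUnion.2 ⟨G, by simpa using hG, hy⟩, h⟩
  choose t ht using this
  obtain ⟨γ, c, hc⟩ := escape t
  obtain ⟨U, h3, h4⟩ := mem_sUnion.1 ((h2 fun n => 𝒱 (γ n)).2.1 ▸ mem_univ c)
  obtain ⟨n, hn⟩ := mem_iUnion.1 h3
  obtain ⟨y, hy, h⟩ := mem_iUnion₂.1 (ht _ (γ n) U (by rw [List.map_ofFn]; exact hn) h4)
  exact hc n y hy h

theorem not_p2One : ¬ P2WinsOne X := by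
  rintro ⟨τ, h1, h2⟩
  refine not_p2Fin ⟨fun l 𝒰 => {τ l 𝒰}, fun l 𝒰 =>
    ⟨finite_singleton _, singleton_subset_iff.2 (h1 _ _)⟩, fun 𝒰 => ?_⟩
  rw [iUnion_singleton_eq_range]
  exact h2 𝒰

theorem not_p1Fin : ¬ P1WinsFin X := by
  rintro ⟨σ, h⟩
  refine not_p1One ⟨fun l => σ (l.map fun U => {U}), fun U hU => ?_⟩
  rw [← iUnion_singleton_eq_range]
  refine h (fun n => {U n}) fun n => ⟨finite_singleton _, singleton_subset_iff.2 ?_⟩
  have := hU n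
  simp only [List.map_ofFn] at this
  exact this

end Pool.Agent.H83.KGame
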