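import Mathlib
import Pool.Agent.H37.CI

/-! A locally checkable problem read off vertex degrees: computable side. -/

set_option autoImplicit false
open Set Pool.Agent.H37 Nat.Partrec

namespace Pool.Agent.H83.Lcl

/-- program `e` halts on input `0` within `s` steps -/
def hb (e s : ℕ) : Bool := (Code.evaln s (Denumerable.ofNat Code e) 0).isSome

def lev (d : ℕ) : ℕ := (d / 2).unpair.1
def st (d : ℕ) : ℕ := (d / 2).unpair.2

/-- active pairs of degrees -/
def Rb (d d' : ℕ) : Bool :=
  decide (lev d' = lev d + 1) && (decide (lev d' ≤ st d') &&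
    (List.range (lev d)).all fun e => !hb e (st d') || hb e (st d))

lemma hb_mono {e s t : ℕ} (h : s ≤ t) (hs : hb e s = true) : hb e t = true := by
  unfold hb at *
  obtain ⟨x, hx⟩ := Option.isSome_iff_exists.1 hs
  exact Option.isSome_iff_exists.2 ⟨x, Code.evaln_mono h hx⟩

lemma dom_iff (e : ℕ) : (Code.eval (Denumerable.ofNat Code e) 0).Dom ↔ ∃ s, hb e s = true := by
  constructor
  · intro h
    obtain ⟨k, hk⟩ := Code.evaln_complete.1 (Part.get_mem h)
    exact ⟨k, Option.isSome_iff_exists.2 ⟨_, hk⟩⟩
  · rintro ⟨s, hs⟩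
    obtain ⟨x, hx⟩ := Option.isSome_iff_exists.1 hs
    exact Part.dom_iff_mem.2 ⟨x, Code.evaln_sound hx⟩

lemma Rb_iff (d d' : ℕ) : Rb d d' = true ↔ lev d' = lev d + 1 ∧ lev d' ≤ st d' ∧
    ∀ e < lev d, hb e (st d') = true → hb e (st d) = true := by
  simp only [Rb, Bool.and_eq_true, decide_eq_true_eq, List.all_eq_true, List.mem_range,
    Bool.or_eq_true, Bool.not_eq_true']
  refine and_congr_right fun _ => and_congr_right fun _ => forall₂_congr fun e _ => ?_
  cases hb e (st d') <;> simp

@[fun_prop] lemma ci_hb {α : Type} [Primcodable α] {f g : α → ℕ} (hf : CI ∅ f) (hg : CI ∅ g) :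
    CI ∅ fun a => hb (f a) (g a) := by
  unfold hb; fun_prop

@[fun_prop] lemma ci_Rb {α : Type} [Primcodable α] {f g : α → ℕ} (hf : CI ∅ f) (hg : CI ∅ g) :
    CI ∅ fun a => Rb (f a) (g a) := by
  unfold Rb lev st; fun_prop

lemma no_chain (d : ℕ → ℕ) (hd : CI ∅ d) (h : ∀ j, Rb (d j) (d (j + 1)) = true) : False := by
  have hl : ∀ j, j ≤ lev (d j) := by
    intro j
    induction j with
    | zero => exact Nat.zero_le _
    | succ j ih => rw [((Rb_iff _ _).1 (h j)).1]; omega
  have key : ∀ e k, hb e (st (d (e + 1 + k))) = true → hb e (st (d (e + 1))) = true := by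
    intro e k
    induction k with
    | zero => exact id
    | succ k ih =>
      intro hk
      exact ih (((Rb_iff _ _).1 (h (e + 1 + k))).2.2 e (by have := hl (e + 1 + k); omega) hk)
  have main : ∀ e, (∃ s, hb e s = true) ↔ hb e (st (d (e + 1))) = true := by
    intro e
    refine ⟨fun ⟨s, hs⟩ => key e s (hb_mono ?_ hs), fun h => ⟨_, h⟩⟩
    have h1 := ((Rb_iff _ _).1 (h (e + s))).2.1
    have h2 := hl (e + s + 1)
    rw [show e + 1 + s = e + s + 1 by ring]
    omega
  apply ComputablePred.halting_problem 0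
  rw [ComputablePred.computable_iff]
  refine ⟨fun c => hb (Encodable.encode c) (st (d (Encodable.encode c + 1))), ?_, ?_⟩
  · apply CI.computable
    unfold st
    fun_prop
  · funext c
    rw [← main, ← dom_iff]
    simp

/-- the constraint at a vertex -/
def Q {V : Type} (G : SimpleGraph V) (c : V → Fin 2) (v : V) : Prop :=
  (∀ w, G.Adj v w → Rb (G.neighborSet v).ncard (G.neighborSet w).ncard = false) ∨
    ∃ w, G.Adj v w ∧ Rb (G.neighborSet v).ncard (G.neighborSet w).ncard = true ∧
      ((c v).val + (c w).val + (G.neighborSet v).ncard) % 2 = 0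

lemma computable_sol (H : SimpleGraph ℕ) (f : ℕ → List ℕ) (hf : Computable f)
    (hH : ∀ a b : ℕ, H.Adj a b ↔ b ∈ f a) : ∃ c : ℕ → Fin 2, Computable c ∧ ∀ v, Q H c v := by
  have hf' : CI ∅ f := CI.of_comp hf
  let dg : ℕ → ℕ := fun a => ((List.range ((f a).sum + 1)).filter fun b => (f a).contains b).length
  have hdg : CI ∅ dg := by unfold dg; fun_prop
  have dg_eq : ∀ a, (H.neighborSet a).ncard = dg a := by
    intro a
    have hnd : ((List.range ((f a).sum + 1)).filter fun b => (f a).contains b).Nodup :=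
      List.nodup_range.filter _
    rw [show dg a = _ from (List.toFinset_card_of_nodup hnd).symm, ← Set.ncard_coe_finset]
    congr 1
    ext b
    simp only [SimpleGraph.mem_neighborSet, hH, List.coe_toFinset, List.mem_filter, List.mem_range,
      List.contains_iff_mem, mem_setOf_eq]
    refine ⟨fun h => ⟨?_, h⟩, fun h => h.2⟩
    have := List.single_le_sum (l := f a) (fun _ _ => Nat.zero_le _) b h
    omega
  let nx : ℕ → Option ℕ := fun v => (f v).find? fun w => Rb (dg v) (dg w)
  have hnx : CI ∅ nx := by unfold nx; fun_prop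
  let g : ℕ → ℕ := fun v => (nx v).getD v
  have hg : CI ∅ g := by unfold g; fun_prop
  have hit : CI ∅ fun q : ℕ × ℕ => g^[q.2] q.1 := by fun_prop
  have term : ∀ v, ∃ N, (nx (g^[N] v)).isNone = true := by
    intro v
    by_contra hn
    push Not at hn
    refine no_chain (fun j => dg (g^[j] v)) (by fun_prop) fun j => ?_
    have h1 := hn j
    obtain ⟨w, hw⟩ : ∃ w, nx (g^[j] v) = some w := by
      cases h : nx (g^[j] v) with
      | none => simp [h] at h1
      | some w => exact ⟨w, rfl⟩
    have h2 : g^[j + 1] v = w := by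
      rw [Function.iterate_succ_apply']
      show (nx _).getD _ = w
      rw [hw]; rfl
    have h3 := List.find?_some hw
    simp only [h2]
    exact h3
  let N : ℕ → ℕ := fun v => Nat.find (term v)
  have hN : CI ∅ N := CI.find (p := fun v n => (nx (g^[n] v)).isNone) (by fun_prop) term
  let S : ℕ → ℕ := fun v => ((List.range (N v)).map fun i => dg (g^[i] v)).sum
  have hS : CI ∅ S := by unfold S; fun_prop
  let c : ℕ → Fin 2 := fun v => cond (S v).bodd 1 0
  have hcv : ∀ v, (c v).val = S v % 2 := by
    intro v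
    rw [Nat.mod_two_of_bodd]
    show (cond (S v).bodd 1 0 : Fin 2).val = _
    cases (S v).bodd <;> rfl
  refine ⟨c, CI.computable (by unfold c; fun_prop), fun v => ?_⟩
  unfold Q
  simp only [dg_eq]
  cases h : nx v with
  | none =>
    left
    intro w hw
    have := List.find?_eq_none.1 h w ((hH _ _).1 hw)
    simpa using this
  | some w =>
    right
    have hgv : g v = w := by
      show (nx _).getD _ = w
      rw [h]; rfl
    refine ⟨w, (hH _ _).2 (List.mem_of_find?_eq_some h),
      List.find?_some (p := fun w => Rb (dg v) (dg w)) h, ?_⟩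
    have hNv : N v = N w + 1 := by
      show Nat.find (term v) = Nat.find (term w) + 1
      rw [Nat.find_eq_iff]
      refine ⟨?_, fun n hn => ?_⟩
      · rw [Function.iterate_succ_apply, hgv]; exact Nat.find_spec (term w)
      · cases n with
        | zero => simp [h]
        | succ n =>
          rw [Function.iterate_succ_apply, hgv]
          exact Nat.find_min (term w) (by omega)
    have hSv : S v = dg v + S w := by
      show ((List.range (N v)).map fun i => dg (g^[i] v)).sum = _
      rw [hNv, List.range_succ_eq_map]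
      simp only [List.map_cons, List.sum_cons, List.map_map, Function.iterate_zero, id]
      congr 2
      apply List.map_congr_left
      intro i _
      simp [Function.iterate_succ_apply, hgv]
    rw [hcv, hcv, hSv]
    omega

/-- the local problem: radius two, two labels -/
def P (n : ℕ) (Γ : SimpleGraph (Fin (n + 1))) (c : Fin (n + 1) → Fin 2) : Prop := Q Γ c 0

lemma ball_transfer {V : Type} (G : SimpleGraph V) (c : V → Fin 2) (v : V) {n : ℕ}
    (e : Fin (n + 1) → V) (he : Function.Injective e) (h0 : e 0 = v)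
    (hr : Set.range e = {w : V | G.edist v w ≤ ((2 : ℕ) : ℕ∞)}) :
    P n (SimpleGraph.comap e G) (c ∘ e) ↔ Q G c v := by
  have hmem : ∀ a b, (a = v ∨ G.Adj v a) → G.Adj a b → b ∈ Set.range e := by
    intro a b ha hab
    rw [hr]
    have h1 : G.edist v a ≤ 1 := SimpleGraph.edist_le_one_iff_adj_or_eq.2 (by
      rcases ha with h | h
      · exact Or.inr h.symm
      · exact Or.inl h)
    have h2 : G.edist a b ≤ 1 := SimpleGraph.edist_le_one_iff_adj_or_eq.2 (Or.inl hab)
    calc G.edist v b ≤ G.edist v a + G.edist a b := SimpleGraph.edist_triangle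
      _ ≤ 1 + 1 := add_le_add h1 h2
      _ = ((2 : ℕ) : ℕ∞) := by norm_num
  have hdeg : ∀ i, (e i = v ∨ G.Adj v (e i)) →
      ((SimpleGraph.comap e G).neighborSet i).ncard = (G.neighborSet (e i)).ncard := by
    intro i hi
    rw [← Set.ncard_image_of_injective _ he]
    congr 1
    ext b
    constructor
    · rintro ⟨j, hj, rfl⟩; exact hj
    · intro hb
      obtain ⟨j, rfl⟩ := hmem _ _ hi hb
      exact ⟨j, hb, rfl⟩
  unfold P Q
  rw [hdeg 0 (Or.inl h0), h0]
  apply or_congr
  · constructor
    · intro h w hw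
      obtain ⟨j, rfl⟩ := hmem v w (Or.inl rfl) hw
      rw [← hdeg j (Or.inr hw)]
      exact h j (by show G.Adj (e 0) (e j); rwa [h0])
    · intro h j hj
      have hj' : G.Adj v (e j) := by rw [← h0]; exact hj
      rw [hdeg j (Or.inr hj')]
      exact h _ hj'
  · constructor
    · rintro ⟨j, hj, h1, h2⟩
      have hj' : G.Adj v (e j) := by rw [← h0]; exact hj
      rw [hdeg j (Or.inr hj')] at h1
      refine ⟨e j, hj', h1, ?_⟩
      simpa [h0] using h2
    · rintro ⟨w, hw, h1, h2⟩
      obtain ⟨j, rfl⟩ := hmem v w (Or.inl rfl) hw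
      refine ⟨j, by show G.Adj (e 0) (e j); rwa [h0], by rwa [hdeg j (Or.inr hw)], ?_⟩
      simpa [h0] using h2

lemma ball_finite {V : Type} (G : SimpleGraph V) (hG : ∀ x, (G.neighborSet x).Finite) (v : V) :
    {w : V | G.edist v w ≤ ((2 : ℕ) : ℕ∞)}.Finite := by
  refine ((Set.finite_singleton v).union ((hG v).union
    ((hG v).biUnion fun a _ => hG a))).subset ?_
  intro w hw
  have hw' : G.edist v w ≤ 2 := hw
  have hne : G.edist v w ≠ ⊤ := ne_top_of_le_ne_top (by decide) hw'
  obtain ⟨p, hp⟩ := SimpleGraph.exists_walk_of_edist_ne_top hne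
  have hl : p.length ≤ 2 := by
    rw [← hp] at hw'
    exact_mod_cast hw'
  match p, hl with
  | .nil, _ => simp
  | .cons h .nil, _ => exact Or.inr (Or.inl h)
  | .cons h (.cons h' .nil), _ => exact Or.inr (Or.inr (mem_biUnion h h'))
  | .cons _ (.cons _ (.cons _ _)), hl => simp at hl

lemma exists_enum {V : Type} {s : Set V} (hs : s.Finite) {v : V} (hv : v ∈ s) :
    ∃ n : ℕ, ∃ e : Fin (n + 1) → V, Function.Injective e ∧ e 0 = v ∧ Set.range e = s := by
  classical
  obtain ⟨n, f, hf, hr⟩ := (hs.subset (diff_subset (t := {v}))).fin_param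
  refine ⟨n, Fin.cons v f, ?_, rfl, ?_⟩
  · rw [Fin.cons_injective_iff]
    refine ⟨fun h => ?_, hf⟩
    rw [hr] at h
    exact h.2 rfl
  · rw [Fin.range_cons, hr]
    simpa using hv

end Pool.Agent.H83.Lcl
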