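import Mathlib
import Pool.Agent.H83.Lcl1

/-! The Borel canopy graph with no Baire measurable solution. -/

set_option autoImplicit false
open Set Filter Topology

namespace Pool.Agent.H83.Lcl

lemma exists_mod : ∃ μ : ℕ → ℕ, (∀ n, n + 2 ≤ μ n) ∧ ∀ n, ∀ e < n, ∀ s, hb e s = true →
    hb e (μ n) = true := by
  classical
  have h : ∀ e, ∃ t, ∀ s, hb e s = true → hb e t = true := by
    intro e
    by_cases h : ∃ s, hb e s = true
    · obtain ⟨s, hs⟩ := h
      exact ⟨s, fun _ _ => hs⟩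
    · exact ⟨0, fun s hs => absurd ⟨s, hs⟩ h⟩
  choose t ht using h
  refine ⟨fun n => n + 2 + ∑ e ∈ Finset.range n, t e, fun n => Nat.le_add_right _ _,
    fun n e he s hs => ?_⟩
  refine hb_mono ?_ (ht e s hs)
  have := Finset.single_le_sum (f := t) (fun _ _ => Nat.zero_le _) (Finset.mem_range.2 he)
  show t e ≤ n + 2 + ∑ e ∈ Finset.range n, t e
  omega

abbrev X : Type := ℕ × ℕ × (ℕ → Bool)

def sh (x : ℕ → Bool) : ℕ → Bool := fun i => x (i + 1)
def cs (b : Bool) (x : ℕ → Bool) : ℕ → Bool := fun i => Nat.casesOn i b x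

def D (μ : ℕ → ℕ) (n : ℕ) (b : Bool) : ℕ := 2 * Nat.pair n (μ n) + b.toNat
def lo (n : ℕ) : ℕ := if n = 0 then 1 else 3

def E (μ : ℕ → ℕ) (p q : X) : Prop :=
  p.2.1 = 0 ∧ ((q.1 = p.1 + 1 ∧ q.2.1 = 0 ∧ q.2.2 = sh p.2.2) ∨
    (q.1 = p.1 ∧ lo p.1 ≤ q.2.1 ∧ q.2.1 < D μ p.1 (p.2.2 0) ∧ q.2.2 = p.2.2))

lemma lo_pos (n : ℕ) : 1 ≤ lo n := by unfold lo; split_ifs <;> omega

def G (μ : ℕ → ℕ) : SimpleGraph X where
  Adj p q := E μ p q ∨ E μ q p
  symm := ⟨fun _ _ h => h.symm⟩
  loopless := ⟨fun p h => by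
    have := lo_pos p.1
    rcases h with h | h <;> obtain ⟨h1, h2 | h2⟩ := h <;> omega⟩

lemma meas_E (μ : ℕ → ℕ) : MeasurableSet {p : X × X | E μ p.1 p.2} := by
  have hsh : Measurable sh := measurable_pi_lambda _ fun i => measurable_pi_apply _
  have h1 : Measurable fun p : X × X => D μ p.1.1 (p.1.2.2 0) :=
    (measurable_of_countable fun q : ℕ × Bool => D μ q.1 q.2).comp
      (f := fun p : X × X => (p.1.1, p.1.2.2 0)) (by fun_prop)
  have h2 : Measurable fun p : X × X => lo p.1.1 :=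
    (measurable_of_countable lo).comp (by fun_prop)
  have h3 : Measurable fun p : X × X => sh p.1.2.2 := hsh.comp (by fun_prop)
  unfold E
  refine (measurableSet_eq_fun (by fun_prop) measurable_const).inter (MeasurableSet.union ?_ ?_)
  · exact (measurableSet_eq_fun (by fun_prop) (by fun_prop)).inter
      ((measurableSet_eq_fun (by fun_prop) measurable_const).inter
        (measurableSet_eq_fun (by fun_prop) h3))
  · exact (measurableSet_eq_fun (by fun_prop) (by fun_prop)).inter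
      ((measurableSet_le h2 (by fun_prop)).inter ((measurableSet_lt (by fun_prop) h1).inter
        (measurableSet_eq_fun (by fun_prop) (by fun_prop))))

lemma meas_G (μ : ℕ → ℕ) : MeasurableSet {p : X × X | (G μ).Adj p.1 p.2} :=
  (meas_E μ).union (measurable_swap (meas_E μ))

def nu (n : ℕ) (x : ℕ → Bool) (i : ℕ) : X :=
  if i = 0 then (n + 1, 0, sh x) else if i < lo n then (n - 1, 0, cs (decide (i = 1)) x)
  else (n, i, x)

lemma sh_cs (b : Bool) (x : ℕ → Bool) : sh (cs b x) = x := rfl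
lemma cs_sh (y : ℕ → Bool) : cs (y 0) (sh y) = y := by
  funext i; cases i <;> rfl

lemma nu_inj (n : ℕ) (x : ℕ → Bool) : Function.Injective (nu n x) := by
  intro i j h
  unfold nu lo at h
  have hc : ∀ b b' : Bool, cs b x = cs b' x → b = b' := fun b b' h => congrFun h 0
  split_ifs at h <;> simp only [Prod.mk.injEq] at h <;> try omega
  have := hc _ _ h.2.2
  simp only [decide_eq_decide] at this
  omega

lemma nbr_main {μ : ℕ → ℕ} (hμ : ∀ n, n + 2 ≤ μ n) (n : ℕ) (x : ℕ → Bool) :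
    (G μ).neighborSet (n, 0, x) = nu n x '' Set.Iio (D μ n (x 0)) := by
  have hD : 4 ≤ D μ n (x 0) := by
    have := Nat.right_le_pair n (μ n)
    have := hμ n
    unfold D; omega
  ext ⟨m, j, y⟩
  simp only [SimpleGraph.mem_neighborSet, G, E, mem_image, mem_Iio]
  constructor
  · rintro (⟨-, ⟨rfl, rfl, rfl⟩ | ⟨rfl, h1, h2, rfl⟩⟩ | ⟨rfl, ⟨rfl, -, rfl⟩ | ⟨rfl, h1, -⟩⟩)
    · exact ⟨0, by omega, by simp [nu]⟩
    · refine ⟨j, h2, ?_⟩
      have := lo_pos m
      unfold nu
      rw [if_neg (by omega), if_neg (by omega)]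
    · refine ⟨if y 0 then 1 else 2, by split_ifs <;> omega, ?_⟩
      unfold nu lo
      cases hy : y 0
      · simp only [Bool.false_eq_true, if_false]
        rw [if_neg (by omega), if_pos (by simp)]
        simp only [Nat.add_sub_cancel, Prod.mk.injEq, true_and]
        rw [← cs_sh y, hy]; rfl
      · simp only [if_true]
        rw [if_neg (by omega), if_pos (by simp)]
        simp only [Nat.add_sub_cancel, Prod.mk.injEq, true_and]
        rw [← cs_sh y, hy]; rfl
    · have := lo_pos n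
      omega
  · rintro ⟨i, hi, h⟩
    unfold nu at h
    split_ifs at h with h1 h2
    · simp only [Prod.mk.injEq] at h
      exact Or.inl ⟨trivial, Or.inl ⟨h.1.symm, h.2.1.symm, h.2.2.symm⟩⟩
    · simp only [Prod.mk.injEq] at h
      have hn : n ≠ 0 := by
        rintro rfl
        simp [lo] at h2
        omega
      refine Or.inr ⟨h.2.1.symm, Or.inl ⟨by omega, trivial, ?_⟩⟩
      rw [← h.2.2]; rfl
    · simp only [Prod.mk.injEq] at h
      obtain ⟨rfl, rfl, rfl⟩ := h
      exact Or.inl ⟨trivial, Or.inr ⟨rfl, by omega, hi, rfl⟩⟩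

lemma nbr_pend (μ : ℕ → ℕ) (n i : ℕ) (hi : i ≠ 0) (x : ℕ → Bool) :
    (G μ).neighborSet (n, i, x) ⊆ {(n, 0, x)} := by
  rintro ⟨m, j, y⟩ h
  simp only [SimpleGraph.mem_neighborSet, G, E] at h
  rcases h with ⟨h, -⟩ | ⟨rfl, ⟨-, h, -⟩ | ⟨rfl, -, -, rfl⟩⟩
  · exact absurd h hi
  · exact absurd h hi
  · rfl

lemma deg_main {μ : ℕ → ℕ} (hμ : ∀ n, n + 2 ≤ μ n) (n : ℕ) (x : ℕ → Bool) :
    ((G μ).neighborSet (n, 0, x)).ncard = D μ n (x 0) := by
  rw [nbr_main hμ, Set.ncard_image_of_injective _ (nu_inj n x), ← Finset.coe_Iio,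
    Set.ncard_coe_finset, Nat.card_Iio]

lemma locfin {μ : ℕ → ℕ} (hμ : ∀ n, n + 2 ≤ μ n) (p : X) : ((G μ).neighborSet p).Finite := by
  obtain ⟨n, i, x⟩ := p
  by_cases hi : i = 0
  · subst hi
    rw [nbr_main hμ]
    exact (Set.finite_Iio _).image _
  · exact (Set.finite_singleton _).subset (nbr_pend μ n i hi x)

lemma D_half (μ : ℕ → ℕ) (n : ℕ) (b : Bool) : D μ n b / 2 = Nat.pair n (μ n) := by
  unfold D; cases b <;> simp <;> omega
lemma lev_D (μ : ℕ → ℕ) (n : ℕ) (b : Bool) : lev (D μ n b) = n := by simp [lev, D_half]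
lemma st_D (μ : ℕ → ℕ) (n : ℕ) (b : Bool) : st (D μ n b) = μ n := by simp [st, D_half]

lemma forced {μ : ℕ → ℕ} (hμ : ∀ n, n + 2 ≤ μ n)
    (hμ2 : ∀ n, ∀ e < n, ∀ s, hb e s = true → hb e (μ n) = true) (c : X → Fin 2)
    (hc : ∀ v, Q (G μ) c v) (n : ℕ) (x : ℕ → Bool) :
    ((c (n, 0, x)).val + (c (n + 1, 0, sh x)).val + (x 0).toNat) % 2 = 0 := by
  rcases hc (n, 0, x) with h | ⟨w, hw, h1, h2⟩
  · have h1 := h (n + 1, 0, sh x) (Or.inl ⟨rfl, Or.inl ⟨rfl, rfl, rfl⟩⟩)
    rw [deg_main hμ, deg_main hμ] at h1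
    have : Rb (D μ n (x 0)) (D μ (n + 1) (sh x 0)) = true := by
      rw [Rb_iff, lev_D, lev_D, st_D, st_D]
      exact ⟨rfl, by have := hμ (n + 1); omega, fun e he h => hμ2 n e he _ h⟩
    rw [this] at h1
    exact absurd h1 (by simp)
  · have hw' : w ∈ (G μ).neighborSet (n, 0, x) := hw
    rw [nbr_main hμ] at hw'
    obtain ⟨i, -, rfl⟩ := hw'
    rw [deg_main hμ] at h1 h2
    have hl := ((Rb_iff _ _).1 h1).1
    rw [lev_D] at hl
    unfold nu at hl h2
    split_ifs at hl h2 with h3 h4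
    · unfold D at h2; omega
    · rw [deg_main hμ, lev_D] at hl; omega
    · exfalso
      have := Set.ncard_le_ncard (nbr_pend μ n i h3 x) (Set.finite_singleton _)
      rw [Set.ncard_singleton] at this
      unfold lev at hl
      rw [Nat.div_eq_of_lt (by omega)] at hl
      simp at hl

def fl (m : ℕ) (x : ℕ → Bool) : ℕ → Bool := Function.update x m (!x m)

lemma flip_ne (c : X → Fin 2)
    (h : ∀ n x, ((c (n, 0, x)).val + (c (n + 1, 0, sh x)).val + (x 0).toNat) % 2 = 0) (m : ℕ) :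
    ∀ n x, c (n, 0, fl m x) ≠ c (n, 0, x) := by
  induction m with
  | zero =>
    intro n x he
    have h1 := h n x
    have h2 := h n (fl 0 x)
    have e : sh (fl 0 x) = sh x := by funext i; simp [sh, fl]
    have e2 : fl 0 x 0 = !x 0 := by simp [fl]
    rw [e, e2, he] at h2
    cases hx : x 0 <;> simp [hx] at h1 h2 <;> omega
  | succ m ih =>
    intro n x he
    have h1 := h n x
    have h2 := h n (fl (m + 1) x)
    have e : sh (fl (m + 1) x) = fl m (sh x) := by
      funext i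
      by_cases hi : i = m
      · subst hi; simp [sh, fl]
      · have hi' : i + 1 ≠ m + 1 := by omega
        simp [sh, fl, Function.update_of_ne hi, Function.update_of_ne hi']
    have e2 : fl (m + 1) x 0 = x 0 := by simp [fl]
    rw [e, e2, he] at h2
    apply ih (n + 1) (sh x)
    apply Fin.ext
    have := (c (n + 1, 0, fl m (sh x))).2
    have := (c (n + 1, 0, sh x)).2
    omega

lemma fl_fl (m : ℕ) (x : ℕ → Bool) : fl m (fl m x) = x := by simp [fl]

lemma fl_cont (m : ℕ) : Continuous (fl m) := by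
  refine continuous_pi fun i => ?_
  by_cases hi : i = m
  · subst hi
    simp only [fl, Function.update_self]
    exact (continuous_of_discreteTopology (f := fun b : Bool => !b)).comp (continuous_apply i)
  · simp only [fl, Function.update_of_ne hi]
    exact continuous_apply i

def flH (m : ℕ) : (ℕ → Bool) ≃ₜ (ℕ → Bool) where
  toFun := fl m
  invFun := fl m
  left_inv := fl_fl m
  right_inv := fl_fl m
  continuous_toFun := fl_cont m
  continuous_invFun := fl_cont m

lemma no_baire (A : Set (ℕ → Bool)) (hA : BaireMeasurableSet A)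
    (h : ∀ m x, fl m x ∈ A ↔ x ∉ A) : False := by
  obtain ⟨U, hU, hAU⟩ := hA.residualEq_isOpen
  have hG : {x | x ∈ A ↔ x ∈ U} ∈ residual (ℕ → Bool) := by
    filter_upwards [hAU] with x hx
    exact Iff.of_eq hx
  have hd : ∀ m, Dense ({x | x ∈ A ↔ x ∈ U} ∩ fl m ⁻¹' {x | x ∈ A ↔ x ∈ U}) := fun m =>
    dense_of_mem_residual (inter_mem hG
      (tendsto_residual_of_isOpenMap (flH m).continuous (flH m).isOpenMap hG))
  rcases U.eq_empty_or_nonempty with rfl | ⟨x0, hx0⟩
  · obtain ⟨y, hy1, hy2⟩ := (hd 0).nonempty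
    simp only [mem_empty_iff_false, iff_false, mem_setOf_eq, mem_preimage] at hy1 hy2
    exact hy2 ((h 0 y).2 hy1)
  · obtain ⟨I, u, hu, hsub⟩ := isOpen_pi_iff.1 hU x0 hx0
    obtain ⟨m, hm⟩ := Infinite.exists_notMem_finset I
    have hV : IsOpen ((I : Set ℕ).pi u) := isOpen_set_pi I.finite_toSet fun i hi => (hu i hi).1
    obtain ⟨y, hy, hy1, hy2⟩ := (hd m).inter_open_nonempty _ hV ⟨x0, fun i hi => (hu i hi).2⟩
    have h1 : y ∈ A := hy1.2 (hsub hy)
    have h2 : fl m y ∈ A := hy2.2 (hsub fun i hi => by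
      have : i ≠ m := fun e => hm (e ▸ hi)
      simp only [fl, Function.update_of_ne this]
      exact hy i hi)
    exact (h m y).1 h2 h1

lemma no_sol {μ : ℕ → ℕ} (hμ : ∀ n, n + 2 ≤ μ n)
    (hμ2 : ∀ n, ∀ e < n, ∀ s, hb e s = true → hb e (μ n) = true) (c : X → Fin 2)
    (hb : BaireMeasurableSet (c ⁻¹' {0})) (hc : ∀ v, Q (G μ) c v) : False := by
  have ho : IsOpenMap fun x : ℕ → Bool => ((0, 0, x) : X) := by
    intro U hU
    have : (fun x : ℕ → Bool => ((0, 0, x) : X)) '' U = {0} ×ˢ ({0} ×ˢ U) := by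
      ext ⟨a, b, x⟩
      simp only [mem_image, Prod.mk.injEq, mem_prod, mem_singleton_iff]
      constructor
      · rintro ⟨y, hy, rfl, rfl, rfl⟩; exact ⟨rfl, rfl, hy⟩
      · rintro ⟨rfl, rfl, hx⟩; exact ⟨x, hx, rfl, rfl, rfl⟩
    rw [this]
    exact (isOpen_discrete _).prod ((isOpen_discrete _).prod hU)
  refine no_baire _ (hb.preimage (by fun_prop) ho) fun m x => ?_
  have := flip_ne c (forced hμ hμ2 c hc) m 0 x
  simp only [mem_preimage, mem_singleton_iff]
  revert this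
  generalize c (0, 0, fl m x) = a
  generalize c (0, 0, x) = b
  revert a b
  decide

end Pool.Agent.H83.Lcl
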