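import Mathlib

namespace Pool.Agent.H83.Lelek

open Set Filter Topology unitInterval Function

/-- an enumeration of the rationals, taken in absolute value and shifted away from zero -/
noncomputable def q (n : ℕ) : ℝ :=
  if 0 < (((Denumerable.eqv ℚ).symm n : ℚ) : ℝ) then ((Denumerable.eqv ℚ).symm n : ℚ) else 1

theorem q_pos (n : ℕ) : 0 < q n := by
  unfold q; split_ifs with h
  · exact h
  · exact one_pos

theorem q_dense {a b : ℝ} (ha : 0 ≤ a) (hab : a < b) : {n | q n ∈ Ioo a b}.Infinite := by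
  have h1 : {r : ℚ | (r : ℝ) ∈ Ioo a b}.Infinite := by
    obtain ⟨r, h1, h2⟩ := exists_rat_btwn hab
    obtain ⟨s, h3, h4⟩ := exists_rat_btwn h2
    refine (Ioo_infinite (show r < s by exact_mod_cast h3)).mono fun x hx => ⟨?_, ?_⟩
    · exact h1.trans (by exact_mod_cast hx.1)
    · exact lt_trans (by exact_mod_cast hx.2) h4
  refine (h1.image (f := Denumerable.eqv ℚ) (Denumerable.eqv ℚ).injective.injOn).mono ?_
  rintro _ ⟨r, hr, rfl⟩
  have : q (Denumerable.eqv ℚ r) = r := by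
    simp only [q, Equiv.symm_apply_apply]
    rw [if_pos (ha.trans_lt hr.1)]
  rwa [mem_setOf_eq, this]

def XS : Set (ℝ × (ℕ → ℝ)) :=
  {x | x.1 ∈ Icc (0 : ℝ) 1 ∧ ∀ n, x.2 n = 0 ∨ (x.2 n = x.1 ∧ x.1 ≤ q n)}

/-- the Lelek fan -/
def X : Type := XS

instance : TopologicalSpace X := inferInstanceAs (TopologicalSpace XS)
instance : TopologicalSpace.MetrizableSpace X :=
  inferInstanceAs (TopologicalSpace.MetrizableSpace XS)
noncomputable instance : MetricSpace X := TopologicalSpace.metrizableSpaceMetric X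

def ht (x : X) : ℝ := x.1.1
def co (n : ℕ) (x : X) : ℝ := x.1.2 n

@[fun_prop] theorem ht_cont : Continuous ht := continuous_fst.comp continuous_subtype_val
@[fun_prop] theorem co_cont (n : ℕ) : Continuous (co n) :=
  (continuous_apply n).comp (continuous_snd.comp continuous_subtype_val)

theorem ht_mem (x : X) : ht x ∈ Icc (0 : ℝ) 1 := x.2.1
theorem co_spec (n : ℕ) (x : X) : co n x = 0 ∨ (co n x = ht x ∧ ht x ≤ q n) := x.2.2 n

theorem X_ext {x y : X} (h1 : ht x = ht y) (h2 : ∀ n, co n x = co n y) : x = y :=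
  Subtype.ext (Prod.ext h1 (funext h2))

theorem tendsto_X {ι : Type} {l : Filter ι} {f : ι → X} {x : X}
    (h1 : Tendsto (fun i => ht (f i)) l (𝓝 (ht x)))
    (h2 : ∀ n, Tendsto (fun i => co n (f i)) l (𝓝 (co n x))) : Tendsto f l (𝓝 x) :=
  tendsto_subtype_rng.2 (h1.prodMk_nhds (tendsto_pi_nhds.2 h2))

instance : CompactSpace X := by
  refine isCompact_iff_compactSpace.1 (((isCompact_Icc (a := (0 : ℝ)) (b := 1)).prod
    (isCompact_univ_pi fun _ : ℕ => isCompact_Icc (a := (0 : ℝ)) (b := 1))).of_isClosed_subset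
    ?_ ?_)
  · refine (isClosed_Icc.preimage continuous_fst).inter ?_
    show IsClosed {x : ℝ × (ℕ → ℝ) | ∀ n, x.2 n = 0 ∨ (x.2 n = x.1 ∧ x.1 ≤ q n)}
    rw [setOf_forall]
    exact isClosed_iInter fun n => (isClosed_eq (by fun_prop) continuous_const).union
      ((isClosed_eq (by fun_prop) continuous_fst).inter
        (isClosed_le continuous_fst continuous_const))
  · rintro x ⟨h1, h2⟩
    refine ⟨h1, fun n _ => ?_⟩
    rcases h2 n with h | h
    · rw [h]; exact ⟨le_rfl, zero_le_one⟩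
    · rw [h.1]; exact h1

def v : X := ⟨(0, 0), ⟨le_rfl, zero_le_one⟩, fun _ => Or.inl rfl⟩

@[simp] theorem ht_v : ht v = 0 := rfl
@[simp] theorem co_v (n : ℕ) : co n v = 0 := rfl

theorem eq_v {x : X} (h : ht x = 0) : x = v :=
  X_ext h fun n => by rcases co_spec n x with h1 | h1 <;> simp [h1, h]

theorem ht_pos {x : X} (h : x ≠ v) : 0 < ht x :=
  lt_of_le_of_ne (ht_mem x).1 fun e => h (eq_v e.symm)

theorem ne_v {x : X} (h : 0 < ht x) : x ≠ v := fun e => by simp [e] at h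

/-- scaling -/
def sc (s : I) (x : X) : X := ⟨(s * ht x, fun n => s * co n x),
  ⟨mul_nonneg s.2.1 (ht_mem x).1, mul_le_one₀ s.2.2 (ht_mem x).1 (ht_mem x).2⟩, fun n => by
    rcases co_spec n x with h | h
    · left; simp [h]
    · right; exact ⟨by simp [h.1], (mul_le_of_le_one_left (ht_mem x).1 s.2.2).trans h.2⟩⟩

@[simp] theorem ht_sc (s : I) (x : X) : ht (sc s x) = s * ht x := rfl
@[simp] theorem co_sc (s : I) (x : X) (n : ℕ) : co n (sc s x) = s * co n x := rfl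

theorem sc_cont : Continuous fun p : I × X => sc p.1 p.2 :=
  Continuous.subtype_mk (Continuous.prodMk (by fun_prop) (continuous_pi fun n => by fun_prop)) _

theorem sc_cont1 (x : X) : Continuous fun s => sc s x :=
  sc_cont.comp (f := fun s => (s, x)) (by fun_prop)

@[simp] theorem sc_zero (x : X) : sc 0 x = v := eq_v (by simp)
@[simp] theorem sc_one (x : X) : sc 1 x = x := X_ext (by simp) (by simp)

/-- the direction of a point -/
def dr (x : X) : Set ℕ := {n | co n x ≠ 0}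

theorem co_of_mem {x : X} {n : ℕ} (h : n ∈ dr x) : co n x = ht x :=
  ((co_spec n x).resolve_left h).1

theorem co_of_notMem {x : X} {n : ℕ} (h : n ∉ dr x) : co n x = 0 := not_not.1 h

theorem eq_of_dr {x y : X} (h1 : ht x = ht y) (h2 : dr x = dr y) : x = y :=
  X_ext h1 fun n => by
    by_cases h : n ∈ dr x
    · rw [co_of_mem h, co_of_mem (h2 ▸ h), h1]
    · rw [co_of_notMem h, co_of_notMem (h2 ▸ h)]

theorem dr_sc {s : I} (hs : s ≠ 0) (x : X) : dr (sc s x) = dr x := by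
  ext n
  have : (s : ℝ) ≠ 0 := fun e => hs (Subtype.ext e)
  simp [dr, this]

theorem exists_sc (x : X) {t : ℝ} (h0 : 0 ≤ t) (h1 : t ≤ ht x) : ∃ s, ht (sc s x) = t := by
  rcases (ht_mem x).1.eq_or_lt with h | h
  · exact ⟨0, by simp; linarith⟩
  · exact ⟨⟨t / ht x, div_nonneg h0 h.le, (div_le_one h).2 h1⟩, by simp [h.ne']⟩

theorem sc_ne {s : I} {x : X} (h : 0 < ht (sc s x)) : s ≠ 0 := fun e => by simp [e] at h

theorem eq_sc {x y : X} (hd : dr x = dr y) (h : ht x ≤ ht y) : ∃ s, sc s y = x := by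
  obtain ⟨s, hs⟩ := exists_sc y (ht_mem x).1 h
  by_cases hx : x = v
  · exact ⟨0, by simp [hx]⟩
  · exact ⟨s, eq_of_dr hs (by rw [dr_sc (sc_ne (hs ▸ ht_pos hx)), hd])⟩

theorem open_mem (n : ℕ) : IsOpen {x : X | n ∈ dr x} :=
  isOpen_ne_fun (co_cont n) continuous_const

theorem open_notMem (n : ℕ) : IsOpen {x : X | x ≠ v ∧ n ∉ dr x} := by
  have : {x : X | x ≠ v ∧ n ∉ dr x} = {x | co n x < ht x} := by
    ext x
    constructor
    · rintro ⟨h1, h2⟩
      show co n x < ht x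
      rw [co_of_notMem h2]; exact ht_pos h1
    · intro h
      exact ⟨fun e => by simp [e] at h, fun h2 => (co_of_mem h2).not_lt h⟩
  rw [this]; exact isOpen_lt (co_cont n) ht_cont

/-- cylinders -/
def cyl (c : Set ℕ) (N : ℕ) : Set X := {x | x ≠ v ∧ ∀ n < N, (n ∈ dr x ↔ n ∈ c)}

theorem cyl_open (c : Set ℕ) (N : ℕ) : IsOpen (cyl c N) := by
  induction N with
  | zero => simpa [cyl] using isOpen_ne
  | succ N ih =>
    by_cases h : N ∈ c
    · convert ih.inter (open_mem N) using 1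
      ext x; simp only [cyl, mem_setOf_eq, mem_inter_iff, Nat.forall_lt_succ_right, h]; tauto
    · convert ih.inter (open_notMem N) using 1
      ext x; simp only [cyl, mem_setOf_eq, mem_inter_iff, Nat.forall_lt_succ_right, h]; tauto

theorem cyl_closed (c : Set ℕ) (N : ℕ) {t : ℝ} (h : 0 < t) :
    IsClosed (cyl c N ∩ {x | t ≤ ht x}) := by
  rw [← isOpen_compl_iff, isOpen_iff_mem_nhds]
  intro x hx
  by_cases h1 : t ≤ ht x
  · have h2 : x ≠ v := ne_v (h.trans_le h1)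
    filter_upwards [(cyl_open (dr x) N).mem_nhds ⟨h2, fun _ _ => Iff.rfl⟩] with y hy hy2
    exact hx ⟨⟨h2, fun n hn => (hy.2 n hn).symm.trans (hy2.1.2 n hn)⟩, h1⟩
  · filter_upwards [(isOpen_lt ht_cont continuous_const).mem_nhds (not_le.1 h1)] with y hy hy2
    exact absurd hy2.2 (not_le.2 hy)

theorem dr_const {K : Set X} (hK : IsPreconnected K) (hv : v ∉ K) {x y : X} (hx : x ∈ K)
    (hy : y ∈ K) : dr x = dr y := by
  have key : ∀ x ∈ K, ∀ y ∈ K, dr x ⊆ dr y := fun x hx y hy n hn =>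
    hK.subset_left_of_subset_union (open_mem n) (open_notMem n)
      (disjoint_left.2 fun z h1 h2 => h2.2 h1)
      (fun z hz => (em (n ∈ dr z)).imp id fun h => ⟨fun e => hv (e ▸ hz), h⟩) ⟨x, hx, hn⟩ hy
  exact (key x hx y hy).antisymm (key y hy x hx)

/-- basic neighbourhoods of a point different from the top -/
theorem nhds_basic {x : X} {U : Set X} (hU : U ∈ 𝓝 x) :
    ∃ N : ℕ, ∃ ε > 0, ∀ y ∈ cyl (dr x) N, |ht y - ht x| < ε → y ∈ U := by
  by_contra hc
  push Not at hc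
  choose y h1 h2 h3 using fun N : ℕ => hc N (1 / (N + 1)) Nat.one_div_pos_of_nat
  have t1 : Tendsto (fun N => ht (y N)) atTop (𝓝 (ht x)) := by
    rw [tendsto_iff_dist_tendsto_zero]
    exact squeeze_zero (fun _ => dist_nonneg) (fun N => (h2 N).le)
      tendsto_one_div_add_atTop_nhds_zero_nat
  have : Tendsto y atTop (𝓝 x) := tendsto_X t1 fun n => by
    by_cases h : n ∈ dr x
    · rw [co_of_mem h]
      refine t1.congr' (eventually_atTop.2 ⟨n + 1, fun N hN => ?_⟩)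
      exact (co_of_mem (((h1 N).2 n hN).2 h)).symm
    · rw [co_of_notMem h]
      refine tendsto_const_nhds.congr' (eventually_atTop.2 ⟨n + 1, fun N hN => ?_⟩)
      exact (co_of_notMem fun h' => h (((h1 N).2 n hN).1 h')).symm
  obtain ⟨N, hN⟩ := (this.eventually hU).exists
  exact h3 N hN

theorem seg_of_v {K : Set X} (hc : IsClosed K) (hK : IsPreconnected K) (hv : v ∈ K) {x : X}
    (hx : x ∈ K) (s : I) : sc s x ∈ K := by
  by_contra hs
  have h0 : sc s x ≠ v := fun e => hs (e ▸ hv)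
  have hp := ht_pos h0
  obtain ⟨N, ε, hε, h⟩ := nhds_basic (hc.isOpen_compl.mem_nhds hs)
  rw [dr_sc (sc_ne hp)] at h
  have hlt : ht (sc s x) < ht x := by
    refine lt_of_le_of_ne (mul_le_of_le_one_left (ht_mem x).1 s.2.2) fun e => hs ?_
    rwa [eq_of_dr e (dr_sc (sc_ne hp) x)]
  have := hK.subset_of_closure_inter_subset
    ((cyl_open (dr x) N).inter (isOpen_lt continuous_const ht_cont (f := fun _ => ht (sc s x))))
    ⟨x, hx, ⟨ne_v (hp.trans hlt), fun _ _ => Iff.rfl⟩, hlt⟩ (by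
      rintro y ⟨hy, hyK⟩
      have hy' := closure_minimal (t := cyl (dr x) N ∩ {z | ht (sc s x) ≤ ht z})
        (fun z hz => ⟨hz.1, le_of_lt (a := ht (sc s x)) hz.2⟩) (cyl_closed (dr x) N hp) hy
      refine ⟨hy'.1, lt_of_le_of_ne (a := ht (sc s x)) hy'.2 fun e => h y hy'.1 ?_ hyK⟩
      rw [← e]; simpa using hε)
  exact (this hv).1.1 rfl

theorem seg_between {K : Set X} (hc : IsClosed K) (hK : IsPreconnected K) {x y : X}
    (hx : x ∈ K) (hy : y ∈ K) (s : I) (h : ht x ≤ ht (sc s y)) : sc s y ∈ K := by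
  by_cases hv : v ∈ K
  · exact seg_of_v hc hK hv hy s
  · obtain ⟨z, hz, e⟩ := hK.intermediate_value hx hy ht_cont.continuousOn
      ⟨h, mul_le_of_le_one_left (ht_mem y).1 s.2.2⟩
    have hp := (ht_pos fun e : x = v => hv (e ▸ hx)).trans_le h
    rwa [← eq_of_dr e ((dr_const hK hv hz hy).trans (dr_sc (sc_ne hp) y).symm)]

theorem unicoh (K M : Set X) (hK : IsClosed K) (hK' : IsConnected K) (hM : IsClosed M)
    (hM' : IsConnected M) : IsPreconnected (K ∩ M) := by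
  by_cases hv : v ∈ K ∩ M
  · refine isPreconnected_of_forall v fun y hy => ⟨range fun s => sc s y, ?_, ⟨0, by simp⟩,
      ⟨1, by simp⟩, isPreconnected_range (sc_cont1 y)⟩
    rintro _ ⟨s, rfl⟩
    exact ⟨seg_of_v hK hK'.2 hv.1 hy.1 s, seg_of_v hM hM'.2 hv.2 hy.2 s⟩
  · have key : ∀ x ∈ K ∩ M, ∀ y ∈ K ∩ M, ht x ≤ ht y →
        ∃ t, t ⊆ K ∩ M ∧ x ∈ t ∧ y ∈ t ∧ IsPreconnected t := fun x hx y hy h => by
      have hd : dr x = dr y := by
        by_cases h1 : v ∈ K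
        · exact dr_const hM'.2 (fun h2 => hv ⟨h1, h2⟩) hx.2 hy.2
        · exact dr_const hK'.2 h1 hx.1 hy.1
      obtain ⟨s0, rfl⟩ := eq_sc hd h
      refine ⟨(fun s => sc s y) '' Ici s0, ?_, ⟨s0, mem_Ici.2 le_rfl, rfl⟩,
        ⟨1, le_one', by simp⟩, isPreconnected_Ici.image _ (sc_cont1 y).continuousOn⟩
      rintro _ ⟨s, hs, rfl⟩
      have : ht (sc s0 y) ≤ ht (sc s y) := mul_le_mul_of_nonneg_right hs (ht_mem y).1
      exact ⟨seg_between hK hK'.2 hx.1 hy.1 s this, seg_between hM hM'.2 hx.2 hy.2 s this⟩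
    refine isPreconnected_of_forall_pair fun x hx y hy => ?_
    rcases le_total (ht x) (ht y) with h | h
    · exact key x hx y hy h
    · obtain ⟨t, h1, h2, h3, h4⟩ := key y hy x hx h
      exact ⟨t, h1, h3, h2, h4⟩

instance : PathConnectedSpace X := by
  rw [pathConnectedSpace_iff_univ]
  exact ⟨v, trivial, fun {y} _ => ⟨⟨⟨fun s => sc s y, sc_cont1 y⟩, by simp, by simp⟩,
    fun _ => trivial⟩⟩

theorem ht_injOn {γ : I → X} (hc : Continuous γ) (hi : Injective γ) {J : Set I}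
    (hJ : IsPreconnected J) (hv : ∀ s ∈ J, γ s ≠ v) : InjOn (fun s => ht (γ s)) J :=
  fun a ha b hb e => hi (eq_of_dr e (dr_const (hJ.image γ hc.continuousOn)
    (by rintro ⟨s, hs, e⟩; exact hv s hs e) ⟨a, ha, rfl⟩ ⟨b, hb, rfl⟩))

theorem arc_range {γ : I → X} (hc : Continuous γ) (hi : Injective γ) (h0 : γ 0 = v) :
    range γ = range fun s => sc s (γ 1) := by
  have hv : ∀ s ∈ Ioi (0 : I), γ s ≠ v := fun s hs e => (ne_of_gt hs) (hi (e.trans h0.symm))
  apply Subset.antisymm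
  · have hinj : Injective fun s => ht (γ s) := fun a b e => by
      have e' : ht (γ a) = ht (γ b) := e
      rcases (nonneg' (t := a)).eq_or_lt with ha | ha
      · exact hi ((eq_v (by rw [← ha, h0]; rfl)).trans
          (eq_v (by rw [← e', ← ha, h0]; rfl)).symm)
      rcases (nonneg' (t := b)).eq_or_lt with hb | hb
      · exact hi ((eq_v (by rw [e', ← hb, h0]; rfl)).trans (eq_v (by rw [← hb, h0]; rfl)).symm)
      exact ht_injOn hc hi isPreconnected_Ioi hv ha hb e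
    have hm := (ht_cont.comp hc).strictMono_of_inj_boundedOrder
      (by show ht (γ 0) ≤ _; rw [h0]; exact (ht_mem _).1) hinj
    rintro _ ⟨s, rfl⟩
    rcases (nonneg' (t := s)).eq_or_lt with hs | hs
    · exact ⟨0, by simp [← hs, h0]⟩
    · exact eq_sc (dr_const (isPreconnected_Ioi.image γ hc.continuousOn)
        (by rintro ⟨s, hs, e⟩; exact hv s hs e) ⟨s, hs, rfl⟩ ⟨1, zero_lt_one (α := I), rfl⟩)
        (hm.monotone le_one')
  · rintro _ ⟨s, rfl⟩
    exact seg_of_v (isCompact_range hc).isClosed (isPreconnected_range hc) ⟨0, h0⟩ ⟨1, rfl⟩ s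

theorem smooth (x : ℕ → X) (y : X) (S : ℕ → Set X) (T : Set X) (hx : Tendsto x atTop (𝓝 y))
    (hS : ∀ n, (x n = v ∧ S n = {v}) ∨ ∃ γ : I → X, Continuous γ ∧
      Injective γ ∧ γ 0 = v ∧ γ 1 = x n ∧ range γ = S n)
    (hT : (y = v ∧ T = {v}) ∨ ∃ γ : I → X, Continuous γ ∧
      Injective γ ∧ γ 0 = v ∧ γ 1 = y ∧ range γ = T) :
    Tendsto (fun n => Metric.hausdorffDist (S n) T) atTop (𝓝 0) := by
  have key : ∀ (y : X) (T : Set X), ((y = v ∧ T = {v}) ∨ ∃ γ : I → X, Continuous γ ∧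
      Injective γ ∧ γ 0 = v ∧ γ 1 = y ∧ range γ = T) → T = range fun s => sc s y := by
    rintro y T (⟨rfl, rfl⟩ | ⟨γ, h1, h2, h3, rfl, rfl⟩)
    · ext z
      constructor
      · rintro rfl; exact ⟨0, by simp⟩
      · rintro ⟨s, rfl⟩; exact eq_v (by simp)
    · exact arc_range h1 h2 h3
  rw [key y T hT]
  simp only [fun n => key _ _ (hS n)]
  rw [Metric.tendsto_atTop]
  intro ε hε
  obtain ⟨δ, hδ, h⟩ := Metric.uniformContinuous_iff.1
    (CompactSpace.uniformContinuous_of_continuous sc_cont) (ε / 2) (half_pos hε)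
  obtain ⟨N, hN⟩ := Metric.tendsto_atTop.1 hx δ hδ
  refine ⟨N, fun n hn => ?_⟩
  have h1 : ∀ s, dist (sc s (x n)) (sc s y) ≤ ε / 2 := fun s =>
    (h (a := (s, x n)) (b := (s, y)) (by simpa using hN n hn)).le
  rw [Real.dist_eq, sub_zero, abs_of_nonneg Metric.hausdorffDist_nonneg]
  refine lt_of_le_of_lt (Metric.hausdorffDist_le_of_mem_dist (half_pos hε).le ?_ ?_)
    (half_lt_self hε)
  · rintro _ ⟨s, rfl⟩; exact ⟨_, ⟨s, rfl⟩, h1 s⟩
  · rintro _ ⟨s, rfl⟩; exact ⟨_, ⟨s, rfl⟩, dist_comm (sc s y) _ ▸ h1 s⟩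

theorem sc_inj {x : X} (hx : x ≠ v) : Injective fun s => sc s x := fun a b e =>
  Subtype.ext (mul_right_cancel₀ (ht_pos hx).ne' (congrArg ht e))

open Classical in
/-- the point of height `t` in direction `c` -/
noncomputable def pt (c : Set ℕ) (t : ℝ) (h0 : 0 < t) (h1 : t ≤ 1) (h : ∀ n ∈ c, t ≤ q n) : X :=
  ⟨(t, fun n => if n ∈ c then t else 0), ⟨h0.le, h1⟩, fun n => by
    by_cases hn : n ∈ c
    · right; simp [hn, h n hn]
    · left; simp [hn]⟩

theorem dr_pt (c : Set ℕ) (t : ℝ) (h0 : 0 < t) (h1 : t ≤ 1) (h : ∀ n ∈ c, t ≤ q n) :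
    dr (pt c t h0 h1 h) = c := by
  ext n; simp [dr, co, pt, h0.ne']

theorem exists_Icc {s : I} {U : Set I} (hU : U ∈ 𝓝 s) (h1 : s < 1) :
    ∃ b, s < b ∧ Icc s b ⊆ U := by
  obtain ⟨u, hu, h⟩ := exists_Ico_subset_of_mem_nhds hU ⟨1, h1⟩
  obtain ⟨b, h2, h3⟩ := exists_between hu
  exact ⟨b, h2, fun z hz => h ⟨hz.1, hz.2.trans_lt h3⟩⟩

theorem exists_Icc' {s : I} {U : Set I} (hU : U ∈ 𝓝 s) (h1 : 0 < s) :
    ∃ b, b < s ∧ Icc b s ⊆ U := by
  obtain ⟨u, hu, h⟩ := exists_Ioc_subset_of_mem_nhds hU ⟨0, h1⟩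
  obtain ⟨b, h2, h3⟩ := exists_between hu
  exact ⟨b, h3, fun z hz => h ⟨h2.trans_le hz.1, hz.2⟩⟩

theorem ramif (w : X) : (∃ γ : Fin 3 → I → X,
    (∀ i, Continuous (γ i) ∧ Injective (γ i) ∧ γ i 0 = w) ∧
    ∀ i j, i ≠ j → range (γ i) ∩ range (γ j) = {w}) ↔ w = v := by
  constructor
  · rintro ⟨γ, h1, h2⟩
    by_contra hw
    have hb : ∀ i, ∃ b, 0 < b ∧ Icc 0 b ⊆ γ i ⁻¹' {v}ᶜ := fun i =>
      exists_Icc ((isOpen_compl_singleton.preimage (h1 i).1).mem_nhds
        (by show γ i 0 ≠ v; rw [(h1 i).2.2]; exact hw)) zero_lt_one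
    choose b hb0 hb using hb
    let K : Fin 3 → Set X := fun i => γ i '' Icc 0 (b i)
    have hK : ∀ i, IsPreconnected (K i) := fun i =>
      isPreconnected_Icc.image _ (h1 i).1.continuousOn
    have hKv : ∀ i, v ∉ K i := fun i ⟨s, hs, e⟩ => hb i hs e
    have hw0 : ∀ i, w ∈ K i := fun i => ⟨0, left_mem_Icc.2 (hb0 i).le, (h1 i).2.2⟩
    have hp : ∀ i, γ i (b i) ∈ K i := fun i => ⟨_, right_mem_Icc.2 (hb0 i).le, rfl⟩
    have hne : ∀ i, ht (γ i (b i)) ≠ ht w := fun i e =>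
      (hb0 i).ne' ((h1 i).2.1 ((eq_of_dr e (dr_const (hK i) (hKv i) (hp i) (hw0 i))).trans
        (h1 i).2.2.symm))
    have key : ∀ i j, i ≠ j → ht (γ i (b i)) ∉ uIcc (ht w) (ht (γ j (b j))) := by
      intro i j hij hm
      obtain ⟨_, ⟨z, hz, rfl⟩, e⟩ : ∃ t ∈ ht '' K j, t = ht (γ i (b i)) :=
        ⟨_, ((hK j).image ht ht_cont.continuousOn).ordConnected.uIcc_subset
          ⟨_, hw0 j, rfl⟩ ⟨_, hp j, rfl⟩ hm, rfl⟩
      have e2 : z = γ i (b i) := eq_of_dr e ((dr_const (hK j) (hKv j) hz (hw0 j)).trans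
        (dr_const (hK i) (hKv i) (hw0 i) (hp i)))
      have : γ i (b i) ∈ range (γ i) ∩ range (γ j) :=
        ⟨⟨_, rfl⟩, e2 ▸ image_subset_range _ _ hz⟩
      rw [h2 i j hij] at this
      exact hne i (congrArg ht this)
    have k01 := key 0 1 (by decide)
    have k10 := key 1 0 (by decide)
    have k02 := key 0 2 (by decide)
    have k20 := key 2 0 (by decide)
    have k12 := key 1 2 (by decide)
    have k21 := key 2 1 (by decide)
    simp only [mem_uIcc] at k01 k10 k02 k20 k12 k21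
    grind
  · rintro rfl
    let x : Fin 3 → X := fun i => pt {i.1} (min 1 (q i)) (lt_min one_pos (q_pos _))
      (min_le_left _ _) (by rintro _ rfl; exact min_le_right _ _)
    have hx : ∀ i, x i ≠ v := fun i => ne_v (lt_min one_pos (q_pos _))
    refine ⟨fun i s => sc s (x i), fun i => ⟨sc_cont1 _, sc_inj (hx i), by simp⟩,
      fun i j hij => ?_⟩
    refine Subset.antisymm ?_ (by rintro _ rfl; exact ⟨⟨0, by simp⟩, ⟨0, by simp⟩⟩)
    rintro _ ⟨⟨s, rfl⟩, s', e⟩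
    by_contra hv
    have hp : 0 < ht (sc s (x i)) := ht_pos hv
    have e' : sc s' (x j) = sc s (x i) := e
    have := congrArg dr e'
    rw [dr_sc (sc_ne hp), dr_sc (sc_ne (e' ▸ hp)), dr_pt, dr_pt] at this
    exact hij (Fin.ext (singleton_injective this).symm)

/-- end points -/
def E : Set X := {e | ∀ γ : I → X, Continuous γ → Injective γ → e ∈ range γ → e = γ 0 ∨ e = γ 1}

/-- tops of blades -/
def Top : Set X := {e | e ≠ v ∧ ∀ z, dr z = dr e → ht z ≤ ht e}

theorem top_sub : Top ⊆ E := by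
  rintro _ ⟨he, hm⟩ γ hc hi ⟨s, rfl⟩
  by_contra hn
  push Not at hn
  have h0 : 0 < s := pos_iff_ne_zero.2 fun e => hn.1 (by rw [e])
  have h1 : s < 1 := lt_of_le_of_ne le_one' fun e => hn.2 (by rw [e])
  have hU := (isOpen_compl_singleton.preimage hc).mem_nhds (x := s) he
  obtain ⟨b, hb, hb'⟩ := exists_Icc hU h1
  obtain ⟨a, ha, ha'⟩ := exists_Icc' hU h0
  have hv : ∀ t ∈ Icc a b, γ t ≠ v := fun t ht => (le_total t s).elim
    (fun h => ha' ⟨ht.1, h⟩) fun h => hb' ⟨h, ht.2⟩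
  have hs : s ∈ Icc a b := ⟨ha.le, hb.le⟩
  have hd : ∀ t ∈ Icc a b, ht (γ t) ≤ ht (γ s) := fun t h => hm _ (dr_const
    (isPreconnected_Icc.image γ hc.continuousOn) (fun ⟨u, hu, e⟩ => hv u hu e)
    ⟨t, h, rfl⟩ ⟨s, hs, rfl⟩)
  have hab := (ha.trans hb).le
  rcases ContinuousOn.strictMonoOn_of_injOn_Icc' hab (ht_cont.comp hc).continuousOn
    (ht_injOn hc hi isPreconnected_Icc hv) with h | h
  · exact absurd (h hs (right_mem_Icc.2 hab) hb) (not_lt.2 (hd b (right_mem_Icc.2 hab)))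
  · exact absurd (h (left_mem_Icc.2 hab) hs ha) (not_lt.2 (hd a (left_mem_Icc.2 hab)))

theorem top_inf {U : Set X} (hU : IsOpen U) (hne : U.Nonempty) : (U ∩ Top).Infinite := by
  obtain ⟨x, hxU, hxv⟩ : ∃ x ∈ U, x ≠ v := by
    obtain ⟨x, hx⟩ := hne
    by_cases hxv : x = v
    · let y := pt ∅ 1 one_pos le_rfl (by simp)
      have hy : y ≠ v := ne_v one_pos
      obtain ⟨b, hb, h⟩ := exists_Icc (s := 0) ((hU.preimage (sc_cont1 y)).mem_nhds
        (by simpa [hxv] using hx)) zero_lt_one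
      exact ⟨sc b y, h (right_mem_Icc.2 hb.le), fun e => hb.ne' (sc_inj hy (by simpa using e))⟩
    · exact ⟨x, hx, hxv⟩
  obtain ⟨N, ε, hε, h⟩ := nhds_basic (hU.mem_nhds hxU)
  have hp := ht_pos hxv
  have hinf := (q_dense (a := max 0 (ht x - ε)) (b := ht x) (le_max_left _ _)
    (max_lt hp (by linarith))).diff (finite_lt_nat N)
  have hex : ∀ n ∈ {n | q n ∈ Ioo (max 0 (ht x - ε)) (ht x)} \ {i | i < N},
      ∃ z ∈ U ∩ Top, dr z = insert n (dr x ∩ Iio N) := fun n hn => by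
    have h1 := hn.1.2
    have h2 := (le_max_right _ _).trans_lt hn.1.1
    let z := pt (insert n (dr x ∩ Iio N)) (q n) (q_pos n) (h1.le.trans (ht_mem x).2) (by
      rintro m (rfl | hm)
      · exact le_rfl
      · exact h1.le.trans ((co_spec m x).resolve_left hm.1).2)
    have hz : dr z = insert n (dr x ∩ Iio N) := dr_pt _ _ _ _ _
    refine ⟨z, ⟨h z ⟨ne_v (q_pos n), fun m hm => ?_⟩ ?_, ne_v (q_pos n), fun y hy => ?_⟩, hz⟩
    · rw [hz]
      constructor
      · rintro (rfl | h3)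
        · exact (hn.2 hm).elim
        · exact h3.1
      · exact fun h3 => Or.inr ⟨h3, hm⟩
    · show |q n - ht x| < ε
      rw [abs_lt]; constructor <;> linarith
    · exact ((co_spec n y).resolve_left (show n ∈ dr y by rw [hy, hz]; exact Or.inl rfl)).2
  choose! z hz1 hz2 using hex
  refine infinite_of_injOn_mapsTo (f := z) (fun a ha b hb e => ?_) hz1 hinf
  have : a ∈ dr (z b) := by rw [← e, hz2 a ha]; exact Or.inl rfl
  rw [hz2 b hb] at this
  exact this.resolve_right fun h => ha.2 h.2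

end Pool.Agent.H83.Lelek
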