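import Pool.Agent.H83.Lelek1

namespace Pool.Agent.H83.Lelek

open Set Filter Topology unitInterval Function

theorem exists_inj {Y : Type} (W : ℕ → Set Y) (hW : ∀ n, (W n).Infinite) :
    ∃ f : ℕ → Y, Injective f ∧ ∀ n, f n ∈ W n := by
  classical
  choose g h1 h2 using fun n (F : Finset Y) => (hW n).exists_notMem_finset F
  let F : ℕ → Finset Y := fun n => Nat.rec ∅ (fun k G => insert (g k G) G) n
  have hF : Monotone F := monotone_nat_of_le_succ fun k => Finset.subset_insert _ _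
  have key : ∀ m n, m < n → g m (F m) ≠ g n (F n) := fun m n h e =>
    h2 n (F n) (e ▸ hF h (Finset.mem_insert_self _ _))
  refine ⟨fun n => g n (F n), fun m n e => ?_, fun n => h1 _ _⟩
  rcases lt_trichotomy m n with h | h | h
  · exact (key m n h e).elim
  · exact h
  · exact (key n m h e.symm).elim

/-- the relation generated by a pairing -/
def R (a b : ℕ → X) (x y : X) : Prop := x = y ∨ ∃ n, (x = a n ∧ y = b n) ∨ (x = b n ∧ y = a n)

structure Pr (a b : ℕ → X) : Prop where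
  ia : Injective a
  ib : Injective b
  dj : ∀ m n, a m ≠ b n
  top : ∀ n, a n ∈ Top ∧ b n ∈ Top
  da : Dense (range a)
  db : Dense (range b)
  fin : ∀ x y, x ≠ y → ∃ O ∈ 𝓝 (x, y), {i | (a i, b i) ∈ O}.Finite

def D (a b : ℕ → X) : Setoid X := sInf {s : Setoid X | ∀ n, s.r (a n) (b n)}

variable {a b : ℕ → X}

theorem Pr.rel (h : Pr a b) (x y : X) : (D a b).r x y ↔ R a b x y := by
  let s : Setoid X := ⟨R a b, fun _ => Or.inl rfl, by
    rintro x y (rfl | ⟨n, h1 | h1⟩)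
    · exact Or.inl rfl
    · exact Or.inr ⟨n, Or.inr ⟨h1.2, h1.1⟩⟩
    · exact Or.inr ⟨n, Or.inl ⟨h1.2, h1.1⟩⟩, by
    rintro x y z (rfl | ⟨n, ⟨rfl, rfl⟩ | ⟨rfl, rfl⟩⟩) h2
    · exact h2
    · rcases h2 with rfl | ⟨m, ⟨h1, rfl⟩ | ⟨h1, rfl⟩⟩
      · exact Or.inr ⟨n, Or.inl ⟨rfl, rfl⟩⟩
      · exact (h.dj _ _ h1.symm).elim
      · exact Or.inl (by rw [h.ib h1])
    · rcases h2 with rfl | ⟨m, ⟨h1, rfl⟩ | ⟨h1, rfl⟩⟩
      · exact Or.inr ⟨n, Or.inr ⟨rfl, rfl⟩⟩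
      · exact Or.inl (by rw [h.ia h1])
      · exact (h.dj _ _ h1).elim⟩
  constructor
  · intro H
    exact (sInf_le (s := {s : Setoid X | ∀ n, s.r (a n) (b n)}) (a := s)
      fun n => Or.inr ⟨n, Or.inl ⟨rfl, rfl⟩⟩) H
  · have hab : ∀ n, (D a b).r (a n) (b n) := fun n => by
      intro t ht
      exact ht n
    rintro (rfl | ⟨n, ⟨rfl, rfl⟩ | ⟨rfl, rfl⟩⟩)
    · exact (D a b).refl' _
    · exact hab n
    · exact (D a b).symm' (hab n)

theorem Pr.closed (h : Pr a b) : IsClosed {p : X × X | R a b p.1 p.2} := by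
  rw [← isOpen_compl_iff, isOpen_iff_mem_nhds]
  rintro ⟨x, y⟩ hp
  have hxy : x ≠ y := fun e => hp (Or.inl e)
  obtain ⟨O, hO, hf⟩ := h.fin x y hxy
  obtain ⟨O', hO', hf'⟩ := h.fin y x hxy.symm
  have h1 : ((fun i => (a i, b i)) '' {i | (a i, b i) ∈ O})ᶜ ∈ 𝓝 (x, y) :=
    (hf.image _).isClosed.isOpen_compl.mem_nhds (by
      rintro ⟨i, -, e⟩
      exact hp (Or.inr ⟨i, Or.inl ⟨(congrArg Prod.fst e).symm, (congrArg Prod.snd e).symm⟩⟩))
  have h2 : ((fun i => (b i, a i)) '' {i | (a i, b i) ∈ O'})ᶜ ∈ 𝓝 (x, y) :=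
    (hf'.image _).isClosed.isOpen_compl.mem_nhds (by
      rintro ⟨i, -, e⟩
      exact hp (Or.inr ⟨i, Or.inr ⟨(congrArg Prod.fst e).symm, (congrArg Prod.snd e).symm⟩⟩))
  have h3 : Prod.swap ⁻¹' O' ∈ 𝓝 (x, y) := continuous_swap.continuousAt.preimage_mem_nhds hO'
  have h4 : {p : X × X | p.1 ≠ p.2} ∈ 𝓝 (x, y) :=
    (isOpen_ne_fun continuous_fst continuous_snd).mem_nhds hxy
  filter_upwards [hO, h1, h2, h3, h4]
  rintro ⟨z, w⟩ k0 k1 k2 k3 k4 (e | ⟨n, ⟨rfl, rfl⟩ | ⟨rfl, rfl⟩⟩)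
  · exact k4 e
  · exact k1 ⟨n, k0, rfl⟩
  · exact k2 ⟨n, k3, rfl⟩

def π (a b : ℕ → X) : X → Quotient (D a b) := Quotient.mk (D a b)

theorem π_quot : IsQuotientMap (π a b) := isQuotientMap_quotient_mk' (s := D a b)

theorem Pr.eq_iff (h : Pr a b) {x y : X} : π a b x = π a b y ↔ R a b x y :=
  Quotient.eq.trans (h.rel x y)

theorem Pr.closedMap (h : Pr a b) : IsClosedMap (π a b) := fun F hF => by
  rw [← π_quot.isClosed_preimage]
  have : π a b ⁻¹' (π a b '' F) = Prod.snd '' ({p : X × X | R a b p.1 p.2} ∩ Prod.fst ⁻¹' F) := by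
    ext y
    constructor
    · rintro ⟨x, hx, e⟩; exact ⟨(x, y), ⟨h.eq_iff.1 e, hx⟩, rfl⟩
    · rintro ⟨p, ⟨h1, h2⟩, rfl⟩; exact ⟨p.1, h2, h.eq_iff.2 h1⟩
  rw [this]
  exact ((h.closed.inter (hF.preimage continuous_fst)).isCompact.image continuous_snd).isClosed

theorem Pr.fib (h : Pr a b) (x : X) : {y | π a b y = π a b x}.Finite := by
  refine ((finite_singleton x).union ((((finite_singleton x).preimage h.ib.injOn).image a).union
    (((finite_singleton x).preimage h.ia.injOn).image b))).subset fun y hy => ?_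
  rcases h.eq_iff.1 hy with rfl | ⟨n, ⟨rfl, rfl⟩ | ⟨rfl, rfl⟩⟩
  · exact Or.inl rfl
  · exact Or.inr (Or.inl ⟨n, rfl, rfl⟩)
  · exact Or.inr (Or.inr ⟨n, rfl, rfl⟩)

theorem Pr.t2 (h : Pr a b) : T2Space (Quotient (D a b)) := by
  have hp : IsProperMap (π a b) := isProperMap_iff_isClosedMap_and_compact_fibers.2
    ⟨π_quot.continuous, h.closedMap, fun y => by
      obtain ⟨x, rfl⟩ := π_quot.surjective y
      exact (h.fib x).isCompact⟩
  rw [t2_iff_isClosed_diagonal]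
  convert (hp.prodMap hp).isClosedMap _ isClosed_diagonal using 1
  ext ⟨p, p'⟩
  constructor
  · intro e
    obtain rfl : p = p' := e
    obtain ⟨x, rfl⟩ := π_quot.surjective p
    exact ⟨(x, x), rfl, rfl⟩
  · rintro ⟨⟨x, y⟩, e0, e⟩
    obtain rfl : x = y := e0
    exact (congrArg Prod.fst e).symm.trans (congrArg Prod.snd e)

theorem Pr.fib_v (h : Pr a b) {y : X} (hy : π a b y = π a b v) : y = v := by
  rcases h.eq_iff.1 hy with rfl | ⟨n, ⟨-, e⟩ | ⟨-, e⟩⟩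
  · rfl
  · exact ((h.top n).2.1 e.symm).elim
  · exact ((h.top n).1.1 e.symm).elim

theorem Pr.cut (h : Pr a b) (hs : ∀ n, (0 ∈ dr (a n) ↔ 0 ∈ dr (b n))) :
    ¬ IsPreconnected ({π a b v}ᶜ : Set (Quotient (D a b))) := fun hc => by
  have sat : ∀ x y, π a b x = π a b y → (0 ∈ dr x ↔ 0 ∈ dr y) := fun x y e => by
    rcases h.eq_iff.1 e with rfl | ⟨n, ⟨rfl, rfl⟩ | ⟨rfl, rfl⟩⟩
    · rfl
    · exact hs n
    · exact (hs n).symm
  have o1 : IsOpen (π a b '' {x | 0 ∈ dr x}) := by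
    rw [← π_quot.isOpen_preimage]
    convert open_mem 0 using 1
    ext y
    exact ⟨fun ⟨x, hx, e⟩ => (sat x y e).1 hx, fun hy => ⟨y, hy, rfl⟩⟩
  have o2 : IsOpen (π a b '' {x | x ≠ v ∧ 0 ∉ dr x}) := by
    rw [← π_quot.isOpen_preimage]
    convert open_notMem 0 using 1
    ext y
    exact ⟨fun ⟨x, hx, e⟩ => ⟨fun e2 => hx.1 (h.fib_v (e2 ▸ e)), fun h2 => hx.2 ((sat x y e).2 h2)⟩,
      fun hy => ⟨y, hy, rfl⟩⟩
  let x0 := pt ∅ 1 one_pos le_rfl (by simp)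
  let x1 := pt {0} (min 1 (q 0)) (lt_min one_pos (q_pos _))
      (min_le_left _ _) (by rintro _ rfl; exact min_le_right _ _)
  obtain ⟨p, -, ⟨x, hx, rfl⟩, y, hy, e⟩ := hc _ _ o1 o2 (fun p hp => by
      obtain ⟨x, rfl⟩ := π_quot.surjective p
      by_cases h0 : 0 ∈ dr x
      · exact Or.inl ⟨x, h0, rfl⟩
      · exact Or.inr ⟨x, ⟨fun e => hp (by rw [e]; rfl), h0⟩, rfl⟩)
    ⟨π a b x1, fun e => ne_v (x := x1) (lt_min one_pos (q_pos _)) (h.fib_v e), x1,
      by show 0 ∈ dr _; rw [dr_pt]; rfl, rfl⟩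
    ⟨π a b x0, fun e => ne_v (x := x0) one_pos (h.fib_v e), x0,
      ⟨ne_v one_pos, by rw [dr_pt]; simp⟩, rfl⟩
  exact hy.2 ((sat x y e.symm).1 hx)

theorem top_dr_inj : InjOn dr Top := fun x hx y hy e =>
  eq_of_dr (le_antisymm (hy.2 x e) (hx.2 y e.symm)) e

theorem compl_finite {F : Set X} (hF : F.Finite) (hv : v ∉ F) : IsPreconnected Fᶜ := by
  let G : Set X := {y | ∀ s, sc s y ∉ F}
  have h1 : IsPreconnected (⋃ y : G, range fun s => sc s y.1) := by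
    refine isPreconnected_iUnion ⟨v, mem_iInter.2 fun y => ⟨0, by simp⟩⟩
      fun y => isPreconnected_range (sc_cont1 _)
  refine h1.subset_closure (iUnion_subset fun y => ?_) fun x _ => mem_closure_iff.2 fun U hU hx => ?_
  · rintro _ ⟨s, rfl⟩; exact y.2 s
  · obtain ⟨_, ⟨y, hy, rfl⟩, h2⟩ := ((top_inf hU ⟨x, hx⟩).image
      (top_dr_inj.mono inter_subset_right)).exists_notMem_finite (hF.image dr)
    refine ⟨y, hy.1, mem_iUnion.2 ⟨⟨y, fun s hs => h2 ⟨_, hs, dr_sc ?_ y⟩⟩, 1, by simp⟩⟩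
    rintro rfl
    exact hv (by simpa using hs)

theorem Pr.nocut (h : Pr a b)
    (hs : ∀ (n k : ℕ) (c : Set ℕ) (z z' : X), 1 / ((n : ℝ) + 1) < ht z → 1 / ((n : ℝ) + 1) < ht z' →
      z ∈ cyl c k → z' ∈ cyl c k → k ∈ dr z → k ∉ dr z' → ∃ i, 1 / ((n : ℝ) + 1) < ht (a i) ∧
        1 / ((n : ℝ) + 1) < ht (b i) ∧ a i ∈ cyl c k ∧ b i ∈ cyl c k ∧ k ∈ dr (a i) ∧
          k ∉ dr (b i))
    (p : Quotient (D a b)) : IsPreconnected ({p}ᶜ : Set (Quotient (D a b))) := by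
  obtain ⟨x, rfl⟩ := π_quot.surjective p
  by_cases hx : π a b v = π a b x
  swap
  · have := (compl_finite (h.fib x) hx).image _ (π_quot (a := a) (b := b)).continuous.continuousOn
    convert this using 1
    ext p
    obtain ⟨y, rfl⟩ := π_quot.surjective p
    exact ⟨fun hy => ⟨y, hy, rfl⟩, fun ⟨z, hz, e⟩ e2 => hz (e.trans e2)⟩
  rw [← hx]
  refine isPreconnected_of_forall_constant fun f hf => ?_
  have hg : ContinuousOn (f ∘ π a b) {v}ᶜ :=
    hf.comp π_quot.continuous.continuousOn fun y hy e => hy (h.fib_v e)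
  have hab : ∀ i, f (π a b (a i)) = f (π a b (b i)) := fun i =>
    congrArg f (h.eq_iff.2 (Or.inr ⟨i, Or.inl ⟨rfl, rfl⟩⟩))
  suffices H : ∀ y z, y ≠ v → z ≠ v → (f ∘ π a b) y = (f ∘ π a b) z by
    intro p hp p' hp'
    obtain ⟨y, rfl⟩ := π_quot.surjective p
    obtain ⟨z, rfl⟩ := π_quot.surjective p'
    exact H y z (fun e => hp (by rw [e]; rfl)) fun e => hp' (by rw [e]; rfl)
  change ∀ i, (f ∘ π a b) (a i) = (f ∘ π a b) (b i) at hab
  generalize f ∘ π a b = g at hg hab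
  have hbl : ∀ y s, s ≠ 0 → y ≠ v → g (sc s y) = g y := fun y s hs hy => by
    have := (isPreconnected_Ioi (a := (0 : I))).constant (f := fun s => g (sc s y))
      (hg.comp (sc_cont1 y).continuousOn fun s hs e => (ne_of_gt hs)
        (sc_inj hy (by simpa using e))) (pos_iff_ne_zero.2 hs) (zero_lt_one (α := I))
    simpa using this
  intro y z hy hz
  obtain ⟨n, hn⟩ := exists_nat_one_div_lt (lt_min (ht_pos hy) (ht_pos hz))
  set t : ℝ := 1 / ((n : ℝ) + 1) with ht0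
  have tp : 0 < t := Nat.one_div_pos_of_nat
  obtain ⟨N, hN⟩ : ∃ N, ∀ y z, ht y = t → ht z = t → z ∈ cyl (dr y) N → g z = g y := by
    have hK : IsCompact {y : X | ht y = t} := (isClosed_eq ht_cont continuous_const).isCompact
    have hloc : ∀ y ∈ {y : X | ht y = t}, ∃ N, ∀ z ∈ cyl (dr y) N, ht z = t → g z = g y := by
      intro y hy
      have hy' : y ≠ v := ne_v (hy ▸ tp)
      obtain ⟨N, ε, hε, H⟩ := nhds_basic ((hg.continuousAt
        (isOpen_compl_singleton.mem_nhds hy')).preimage_mem_nhds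
          ((isOpen_discrete {g y}).mem_nhds rfl))
      exact ⟨N, fun z hz e => H z hz (by rw [e, hy]; simpa using hε)⟩
    choose! N hN using hloc
    obtain ⟨F, hF, hcov⟩ := hK.elim_nhds_subcover (fun y => cyl (dr y) (N y))
      fun y hy => (cyl_open _ _).mem_nhds ⟨ne_v (hy ▸ tp), fun _ _ => Iff.rfl⟩
    refine ⟨F.sup N, fun y z hy hz hc => ?_⟩
    obtain ⟨w, hw, hyw⟩ := mem_iUnion₂.1 (hcov hy)
    rw [hN w (hF w hw) y hyw hy, hN w (hF w hw) z ⟨hc.1, fun m hm =>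
      (hc.2 m (hm.trans_le (Finset.le_sup hw))).trans (hyw.2 m hm)⟩ hz]
  have P : ∀ k ≤ N, ∀ y z, t < ht y → t < ht z → z ∈ cyl (dr y) k → g z = g y := by
    intro k hk
    induction hk using Nat.decreasingInduction with
    | self =>
      intro y z hy hz hc
      obtain ⟨s, hs⟩ := exists_sc y tp.le hy.le
      obtain ⟨s', hs'⟩ := exists_sc z tp.le hz.le
      have n1 := sc_ne (hs ▸ tp)
      have n2 := sc_ne (hs' ▸ tp)
      rw [← hbl y s n1 (ne_v (tp.trans hy)), ← hbl z s' n2 hc.1]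
      refine hN _ _ hs hs' ⟨ne_v (hs' ▸ tp), ?_⟩
      rw [dr_sc n1, dr_sc n2]; exact hc.2
    | of_succ k _ ih =>
      have ext : ∀ {c : Set ℕ} {y z : X}, y ∈ cyl c k → z ∈ cyl c k → (k ∈ dr z ↔ k ∈ dr y) →
          z ∈ cyl (dr y) (k + 1) := fun hy hz e => ⟨hz.1, fun m hm => by
        rcases Nat.lt_succ_iff_lt_or_eq.1 hm with h1 | rfl
        · exact (hz.2 m h1).trans (hy.2 m h1).symm
        · exact e⟩
      have key : ∀ (c : Set ℕ) y z, t < ht y → t < ht z → y ∈ cyl c k → z ∈ cyl c k →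
          k ∈ dr y → k ∉ dr z → g z = g y := fun c y z hy hz h1 h2 h3 h4 => by
        obtain ⟨i, k1, k2, k3, k4, k5, k6⟩ := hs n k c y z hy hz h1 h2 h3 h4
        rw [← ih y _ hy k1 (ext h1 k3 (iff_of_true k5 h3)), hab,
          ih z _ hz k2 (ext h2 k4 (iff_of_false k6 h4))]
      intro y z hy hz hc
      have hyc : y ∈ cyl (dr y) k := ⟨ne_v (tp.trans hy), fun _ _ => Iff.rfl⟩
      by_cases h1 : k ∈ dr y <;> by_cases h2 : k ∈ dr z
      · exact ih y z hy hz (ext hyc hc (iff_of_true h2 h1))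
      · exact key _ y z hy hz hyc hc h1 h2
      · exact (key _ z y hz hy hc hyc h2 h1).symm
      · exact ih y z hy hz (ext hyc hc (iff_of_false h2 h1))
  exact P 0 (Nat.zero_le _) z y (hn.trans_le (min_le_right _ _)) (hn.trans_le (min_le_left _ _))
    ⟨hy, fun _ h => absurd h (Nat.not_lt_zero _)⟩

theorem build (ι : Type) [Countable ι] (U V : ι → Set X) (hU : ∀ j, IsOpen (U j) ∧ (U j).Nonempty)
    (hV : ∀ j, IsOpen (V j) ∧ (V j).Nonempty)
    (hf : ∀ x y, x ≠ y → ∃ O ∈ 𝓝 (x, y), {j | (O ∩ U j ×ˢ V j).Nonempty}.Finite) :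
    ∃ a b, Pr a b ∧ (∀ j, ∃ i, a i ∈ U j ∧ b i ∈ V j) ∧
      ∀ i, (0 ∈ dr (a i) ↔ 0 ∈ dr (b i)) ∨ ∃ j, a i ∈ U j := by
  haveI : Nonempty X := ⟨v⟩
  let z := TopologicalSpace.denseSeq X
  have hz : DenseRange z := TopologicalSpace.denseRange_denseSeq X
  have hB : ∀ m : ℕ × ℕ, ∃ B : Set X, IsOpen B ∧ B.Nonempty ∧
      B ⊆ Metric.ball (z m.1) (1 / ((m.1 + m.2 : ℕ) + 1)) ∧
      ∀ x ∈ B, ∀ y ∈ B, (0 ∈ dr x ↔ 0 ∈ dr y) := fun m => by
    obtain ⟨w, h1, h2⟩ := (top_inf Metric.isOpen_ball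
      ((Metric.nonempty_ball (x := z m.1)).2 (Nat.one_div_pos_of_nat (n := m.1 + m.2)))).nonempty
    exact ⟨_ ∩ cyl (dr w) 1, Metric.isOpen_ball.inter (cyl_open _ _),
      ⟨w, h1, h2.1, fun _ _ => Iff.rfl⟩, inter_subset_left,
      fun x hx y hy => (hx.2.2 0 one_pos).trans (hy.2.2 0 one_pos).symm⟩
  choose B b1 b2 b3 b4 using hB
  obtain ⟨e⟩ : Nonempty (((ℕ × ℕ) ⊕ ι) ≃ ℕ) := nonempty_equiv_of_countable
  obtain ⟨e2⟩ : Nonempty ((ℕ ⊕ ℕ) ≃ ℕ) := nonempty_equiv_of_countable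
  let U' : (ℕ × ℕ) ⊕ ι → Set X := Sum.elim B U
  let V' : (ℕ × ℕ) ⊕ ι → Set X := Sum.elim B V
  obtain ⟨f, hfi, hfW⟩ := exists_inj (fun n => Sum.elim (fun i => U' (e.symm i))
    (fun i => V' (e.symm i)) (e2.symm n) ∩ Top) fun n => by
      rcases e2.symm n with i | i <;> simp only [Sum.elim_inl, Sum.elim_inr] <;>
        rcases e.symm i with j | j
      · exact top_inf (b1 j) (b2 j)
      · exact top_inf (hU j).1 (hU j).2
      · exact top_inf (b1 j) (b2 j)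
      · exact top_inf (hV j).1 (hV j).2
  have ha : ∀ i, f (e2 (Sum.inl i)) ∈ U' (e.symm i) ∩ Top := fun i => by
    simpa using hfW (e2 (Sum.inl i))
  have hb : ∀ i, f (e2 (Sum.inr i)) ∈ V' (e.symm i) ∩ Top := fun i => by
    simpa using hfW (e2 (Sum.inr i))
  have dense : ∀ c : ℕ → X, (∀ m, c (e (Sum.inl m)) ∈ B m) → Dense (range c) := fun c hc => by
    refine Metric.dense_iff.2 fun x r hr => ?_
    obtain ⟨m, hm⟩ := hz.exists_dist_lt x (half_pos hr)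
    obtain ⟨k, hk⟩ := exists_nat_one_div_lt (half_pos hr)
    refine ⟨_, ?_, e (Sum.inl (m, k)), rfl⟩
    have h1 := Metric.mem_ball.1 (b3 _ (hc (m, k)))
    have h2 : (1 : ℝ) / ((m + k : ℕ) + 1) ≤ 1 / (k + 1) := Nat.one_div_le_one_div (by omega)
    have := dist_triangle (c (e (Sum.inl (m, k)))) (z m) x
    rw [dist_comm] at hm
    exact Metric.mem_ball.2 (by linarith)
  refine ⟨fun i => f (e2 (Sum.inl i)), fun i => f (e2 (Sum.inr i)),
    ⟨fun i j h => by simpa using hfi h, fun i j h => by simpa using hfi h,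
      fun i j h => by simpa using hfi h, fun i => ⟨(ha i).2, (hb i).2⟩,
      dense _ fun m => by simpa [U'] using (ha (e (Sum.inl m))).1,
      dense _ fun m => by simpa [V'] using (hb (e (Sum.inl m))).1, fun x y hxy => ?_⟩,
    fun j => ⟨e (Sum.inr j), by simpa [U'] using (ha (e (Sum.inr j))).1,
      by simpa [V'] using (hb (e (Sum.inr j))).1⟩, fun i => ?_⟩
  · obtain ⟨O, hO, hfin⟩ := hf x y hxy
    obtain ⟨k, hk⟩ := exists_nat_one_div_lt (half_pos (dist_pos.2 hxy))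
    refine ⟨O ∩ {p | 2 * (1 / ((k : ℝ) + 1)) < dist p.1 p.2}, inter_mem hO
      ((isOpen_lt continuous_const continuous_dist).mem_nhds (by
        show _ < dist x y
        linarith)), ?_⟩
    refine ((((finite_lt_nat k).prod (finite_lt_nat k)).image Sum.inl).union
      (hfin.image Sum.inr)).image e |>.subset fun i hi => ⟨e.symm i, ?_, by simp⟩
    have h1 := (ha i).1
    have h2 := (hb i).1
    generalize e.symm i = j at h1 h2
    rcases j with m | j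
    · refine Or.inl ⟨m, ?_, rfl⟩
      have h3 := Metric.mem_ball.1 (b3 _ h1)
      have h4 := Metric.mem_ball.1 (b3 _ h2)
      have h5 := dist_triangle_right (f (e2 (Sum.inl i))) (f (e2 (Sum.inr i))) (z m.1)
      have h6 : 2 * (1 / ((k : ℝ) + 1)) < dist (f (e2 (Sum.inl i))) (f (e2 (Sum.inr i))) := hi.2
      by_contra hm
      have : k ≤ m.1 + m.2 := by
        simp only [mem_prod, mem_setOf_eq] at hm
        omega
      have := Nat.one_div_le_one_div (α := ℝ) this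
      linarith
    · exact Or.inr ⟨j, ⟨_, hi.1, h1, h2⟩, rfl⟩
  · have h1 := (ha i).1
    have h2 := (hb i).1
    generalize e.symm i = j at h1 h2
    rcases j with m | j
    · exact Or.inl (b4 m _ h1 _ h2)
    · exact Or.inr ⟨j, h1⟩

theorem pair1 : ∃ a b, Pr a b ∧ ¬ IsPreconnected ({π a b v}ᶜ : Set (Quotient (D a b))) := by
  obtain ⟨a, b, h, -, h2⟩ := build Empty Empty.elim Empty.elim (fun j => j.elim) (fun j => j.elim)
    fun x y _ => ⟨univ, univ_mem, toFinite _⟩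
  exact ⟨a, b, h, h.cut fun n => (h2 n).resolve_right fun ⟨j, _⟩ => j.elim⟩

theorem pair2 : ∃ a b, Pr a b ∧ ∀ p, IsPreconnected ({p}ᶜ : Set (Quotient (D a b))) := by
  classical
  let W : ℕ × ℕ × Finset ℕ → Set X := fun j => cyl j.2.2 j.2.1 ∩
    ht ⁻¹' Ioo (1 / ((j.1 : ℝ) + 1)) (1 / ((j.1 : ℝ) + 1) + 1 / ((j.1 + j.2.1 : ℕ) + 1))
  have hW : ∀ j, IsOpen (W j) := fun j => (cyl_open _ _).inter (isOpen_Ioo.preimage ht_cont)
  let ι := {j : ℕ × ℕ × Finset ℕ // j.2.2 ⊆ Finset.range j.2.1 ∧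
    (W j ∩ {x | j.2.1 ∈ dr x}).Nonempty ∧ (W j ∩ {x | x ≠ v ∧ j.2.1 ∉ dr x}).Nonempty}
  obtain ⟨a, b, h, h1, -⟩ := build ι (fun j => W j.1 ∩ {x | j.1.2.1 ∈ dr x})
    (fun j => W j.1 ∩ {x | x ≠ v ∧ j.1.2.1 ∉ dr x})
    (fun j => ⟨(hW _).inter (open_mem _), j.2.2.1⟩)
    (fun j => ⟨(hW _).inter (open_notMem _), j.2.2.2⟩) (fun x y hxy => by
      obtain ⟨φ, m, hφ, hne, k1, k2⟩ : ∃ (φ : X → ℝ) (m : ℕ), Continuous φ ∧ φ x ≠ φ y ∧
          (∀ z w, |φ z - φ w| ≤ max (ht z) (ht w)) ∧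
          ∀ z w, (m ∈ dr z ↔ m ∈ dr w) → |φ z - φ w| ≤ |ht z - ht w| := by
        by_cases h0 : ht x = ht y
        · obtain ⟨m, hm⟩ : ∃ m, co m x ≠ co m y := by
            by_contra hc
            push Not at hc
            exact hxy (X_ext h0 hc)
          refine ⟨co m, m, co_cont m, hm, fun z w => ?_, fun z w e => ?_⟩
          · have := ht_mem z
            have := ht_mem w
            rcases co_spec m z with h1 | h1 <;> rcases co_spec m w with h2 | h2 <;> grind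
          · by_cases h1 : m ∈ dr z
            · rw [co_of_mem h1, co_of_mem (e.1 h1)]
            · rw [co_of_notMem h1, co_of_notMem (fun h2 => h1 (e.2 h2))]; simp
        · refine ⟨ht, 0, ht_cont, h0, fun z w => ?_, fun _ _ _ => le_rfl⟩
          have := ht_mem z
          have := ht_mem w
          grind
      obtain ⟨k, hk⟩ := exists_nat_one_div_lt (half_pos (abs_pos.2 (sub_ne_zero.2 hne)))
      refine ⟨{p | 2 * (1 / ((k : ℝ) + 1)) < |φ p.1 - φ p.2|},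
        (isOpen_lt continuous_const (by fun_prop)).mem_nhds (by
          show _ < |φ x - φ y|
          linarith), ?_⟩
      refine Finite.of_finite_image (f := Subtype.val) (((finite_lt_nat k).prod
        ((finite_lt_nat (k + m + 1)).prod
          (Finset.range (k + m + 1)).powerset.finite_toSet)).subset ?_) Subtype.val_injective.injOn
      rintro _ ⟨j, ⟨⟨z, w⟩, hp, hz, hw⟩, rfl⟩
      have hp' : 2 * (1 / ((k : ℝ) + 1)) < |φ z - φ w| := hp
      have z1 := hz.1.2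
      have w1 := hw.1.2
      simp only [mem_preimage, mem_Ioo] at z1 w1
      have pos : (0 : ℝ) < 1 / ((k : ℝ) + 1) := Nat.one_div_pos_of_nat
      have c1 : j.1.1 < k := by
        by_contra hc
        have e1 := Nat.one_div_le_one_div (α := ℝ) (not_lt.1 hc)
        have e2 := Nat.one_div_le_one_div (α := ℝ) (show k ≤ j.1.1 + j.1.2.1 by omega)
        have := (k1 z w).trans_lt (max_lt z1.2 w1.2)
        linarith
      have c2 : j.1.2.1 < k + m + 1 := by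
        by_contra hc
        have e2 := Nat.one_div_le_one_div (α := ℝ) (show k ≤ j.1.1 + j.1.2.1 by omega)
        have := (k2 z w ((hz.1.1.2 m (by omega)).trans (hw.1.1.2 m (by omega)).symm)).trans_lt
          (abs_sub_lt_iff.2 ⟨sub_lt_iff_lt_add'.2 (z1.2.trans (add_lt_add_left w1.1 _)),
            sub_lt_iff_lt_add'.2 (w1.2.trans (add_lt_add_left z1.1 _))⟩)
        linarith
      exact ⟨c1, c2, Finset.mem_coe.2 (Finset.mem_powerset.2
        (j.2.1.trans (Finset.range_mono c2.le)))⟩)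
  refine ⟨a, b, h, h.nocut fun n k c z z' hz hz' k1 k2 k3 k4 => ?_⟩
  let j : ℕ × ℕ × Finset ℕ := (n, k, (Finset.range k).filter (· ∈ c))
  have hc : cyl j.2.2 j.2.1 = cyl c k := by
    ext x; simp +contextual [cyl, j]
  have low : ∀ z, 1 / ((n : ℝ) + 1) < ht z → z ∈ cyl c k → ∃ w ∈ W j, dr w = dr z := by
    intro z h1 h2
    have pos : (0 : ℝ) < 1 / ((n : ℝ) + 1) := Nat.one_div_pos_of_nat
    have pos2 : (0 : ℝ) < 1 / (((n + k : ℕ) : ℝ) + 1) := Nat.one_div_pos_of_nat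
    obtain ⟨t, t1, t2⟩ := exists_between (lt_min h1 (lt_add_of_pos_right _ pos2))
    obtain ⟨s, hs⟩ := exists_sc z (pos.trans t1).le (t2.trans_le (min_le_left _ _)).le
    have hp : 0 < ht (sc s z) := hs ▸ pos.trans t1
    refine ⟨sc s z, ⟨?_, ?_⟩, dr_sc (sc_ne hp) z⟩
    · rw [hc]; exact ⟨ne_v hp, by rw [dr_sc (sc_ne hp)]; exact h2.2⟩
    · show ht _ ∈ Ioo _ _
      rw [hs]; exact ⟨t1, t2.trans_le (min_le_right _ _)⟩
  obtain ⟨w, w1, w2⟩ := low z hz k1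
  obtain ⟨w', w1', w2'⟩ := low z' hz' k2
  obtain ⟨i, i1, i2⟩ := h1 ⟨j, Finset.filter_subset _ _, ⟨w, w1, show k ∈ dr w from w2 ▸ k3⟩,
    ⟨w', w1', w1'.1.1, show k ∉ dr w' from w2' ▸ k4⟩⟩
  exact ⟨i, i1.1.2.1, i2.1.2.1, hc ▸ i1.1.1, hc ▸ i2.1.1, i1.2, i2.2.2⟩

end Pool.Agent.H83.Lelek
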