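import Mathlib

namespace Pool.Agent.H83.MO

open Set Filter Topology unitInterval Function

section arc
variable {Z : Type} [TopologicalSpace Z] [T2Space Z]

/-- lower semicontinuity of the decomposition induced by a map -/
def Lsc {A : Type} [TopologicalSpace A] (k : A → Z) : Prop :=
  ∀ p q, k p = k q → ∀ U ∈ 𝓝 q, ∀ᶠ p' in 𝓝 p, ∃ q' ∈ U, k q' = k p'

theorem exists_gt_of_eventually {P : I → Prop} {u : I} (hu : u < 1) (h : ∀ᶠ p in 𝓝 u, P p) :
    ∃ p, u < p ∧ P p := by
  have : (𝓝[>] u).NeBot := nhdsGT_neBot_of_exists_gt ⟨1, hu⟩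
  obtain ⟨p, h1, h2⟩ := ((h.filter_mono nhdsWithin_le_nhds).and
    (self_mem_nhdsWithin (s := Ioi u))).exists
  exact ⟨p, h2, h1⟩

theorem right {k : I → Z} (hk : Continuous k) (hl : Lsc k) {a b0 : I} (hab : a < b0)
    (e : k a = k b0) : ∃ v w, k v = k 1 ∧ k w = k a ∧ v < w := by
  obtain ⟨b, hb, hbm⟩ := (isClosed_eq hk (continuous_const (y := k a))).isCompact.exists_isMaxOn
    ⟨a, rfl⟩ continuous_id.continuousOn
  have hb' : k b = k a := hb
  have hab' : a < b := hab.trans_le (hbm e.symm)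
  have hA : IsClosed (k ⁻¹' (k '' Icc a b)) :=
    ((isCompact_Icc.image hk).isClosed).preimage hk
  obtain ⟨M, ⟨s, hs, hsM⟩, hMm⟩ := hA.isCompact.exists_isMaxOn
    ⟨b, b, right_mem_Icc.2 hab'.le, rfl⟩ continuous_id.continuousOn
  have hbM : b ≤ M := hMm ⟨b, right_mem_Icc.2 hab'.le, rfl⟩
  rcases hbM.eq_or_lt with hbM | hbM
  · subst hbM
    have hE : IsClosed (k ⁻¹' (k '' Iic a)) :=
      ((isClosed_Iic.isCompact.image hk).isClosed).preimage hk
    obtain ⟨v, hv, hv1⟩ := IsClosed.mem_of_ge_of_forall_exists_gt (b := 1) (hE.inter isClosed_Icc)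
      (show b ∈ k ⁻¹' (k '' Iic a) from ⟨a, mem_Iic.2 le_rfl, hb'.symm⟩) le_one' (by
        rintro u ⟨⟨v, hv, hvu⟩, hu⟩
        obtain ⟨p, hp, q, hq, hqp⟩ := exists_gt_of_eventually hu.2
          (hl u v hvu.symm (Iio b) (Iio_mem_nhds (lt_of_le_of_lt hv hab')))
        refine ⟨p, ⟨q, ?_, hqp⟩, hp, le_one'⟩
        by_contra hqa
        have : p ≤ b := hMm ⟨q, ⟨(not_le.1 hqa).le, le_of_lt hq⟩, hqp⟩
        exact absurd (hu.1.trans_lt hp) (not_lt.2 this))
    exact ⟨v, b, hv1, hb', lt_of_le_of_lt hv hab'⟩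
  · have hsa : s ≠ a := fun h => absurd (hbm (show k M = k a by rw [← hsM, h])) (not_le.2 hbM)
    have hsb : s ≠ b := fun h =>
      absurd (hbm (show k M = k a by rw [← hsM, h, hb'])) (not_le.2 hbM)
    rcases (le_one' (t := M)).eq_or_lt with h1 | h1
    · exact ⟨s, b, h1 ▸ hsM, hb', lt_of_le_of_ne hs.2 hsb⟩
    · obtain ⟨p, hp, q, hq, hqp⟩ := exists_gt_of_eventually h1
        (hl M s hsM.symm (Ioo a b)
          (Ioo_mem_nhds (lt_of_le_of_ne hs.1 hsa.symm) (lt_of_le_of_ne hs.2 hsb)))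
      exact absurd (hMm ⟨q, Ioo_subset_Icc_self hq, hqp⟩) (not_le.2 hp)

theorem inj_right {k : I → Z} (hk : Continuous k) (hl : Lsc k) (h1 : ∀ v, k v = k 1 → v = 1) :
    Injective k := by
  have key : ∀ a b, a < b → k a ≠ k b := fun a b hab e => by
    obtain ⟨v, w, hv, -, hvw⟩ := right hk hl hab e
    rw [h1 v hv] at hvw
    exact absurd hvw (not_lt.2 le_one')
  intro a b e
  rcases lt_trichotomy a b with h | h | h
  · exact (key a b h e).elim
  · exact h
  · exact (key b a h e.symm).elim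

theorem inj_left {k : I → Z} (hk : Continuous k) (hl : Lsc k) (h0 : ∀ v, k v = k 0 → v = 0) :
    Injective k := by
  have h : Injective (k ∘ σ) := by
    refine inj_right (hk.comp continuous_symm) (fun p q e U hU => ?_) fun v hv => ?_
    · have hU' : σ ⁻¹' U ∈ 𝓝 (σ q) :=
        continuous_symm.continuousAt.preimage_mem_nhds (by rwa [symm_symm])
      refine (continuous_symm.continuousAt.eventually (hl _ _ e _ hU')).mono ?_
      rintro p' ⟨q', h1, h2⟩
      exact ⟨σ q', h1, by simpa using h2⟩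
    · have := h0 (σ v) (by simpa using hv)
      simpa using congrArg σ this
  intro a b e
  have := h (a₁ := σ a) (a₂ := σ b) (by simpa using e)
  simpa using congrArg σ this

theorem strip_inj {k : I × I → Z} (hk : Continuous k) (hl : Lsc k)
    (hy : ∀ p q, k p = k q → p.1 = q.1) (h0 : ∀ v, k (0, v) = k (0, 1) → v = 1) (y : I) :
    Injective fun t => k (y, t) := by
  have hc : ∀ y, Continuous fun t => k (y, t) := fun y => hk.comp (by fun_prop)
  have hl' : ∀ y, Lsc fun t => k (y, t) := fun y s t e U hU => by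
    have h1 : Prod.snd ⁻¹' U ∈ 𝓝 (y, t) := continuous_snd.continuousAt.preimage_mem_nhds hU
    have h2 : ContinuousAt (fun s : I => (y, s)) s := by fun_prop
    refine (h2.eventually (hl (y, s) (y, t) e _ h1)).mono ?_
    rintro s' ⟨q', h3, h4⟩
    have h5 : q'.1 = y := hy _ _ h4
    exact ⟨q'.2, h3, show k (y, q'.2) = k (y, s') by rw [← h4, ← h5]⟩
  let S : Set I := {y | Injective fun t => k (y, t)}
  have hS : IsClopen S := by
    constructor
    · rw [← isOpen_compl_iff, isOpen_iff_mem_nhds]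
      intro y hy0
      obtain ⟨s, t, hst, e⟩ : ∃ s t, s < t ∧ k (y, s) = k (y, t) := by
        obtain ⟨s, t, e, hne⟩ := not_injective_iff.1 hy0
        rcases lt_or_gt_of_ne hne with h | h
        · exact ⟨s, t, h, e⟩
        · exact ⟨t, s, h, e.symm⟩
      have h1 : Prod.snd ⁻¹' Ioi s ∈ 𝓝 (y, t) :=
        continuous_snd.continuousAt.preimage_mem_nhds (Ioi_mem_nhds hst)
      have h2 : ContinuousAt (fun y' : I => (y', s)) y := by fun_prop
      refine (h2.eventually (hl (y, s) (y, t) e _ h1)).mono ?_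
      rintro y' ⟨q', h3, h4⟩ hinj
      have h5 : q'.1 = y' := hy _ _ h4
      have : q'.2 = s := hinj (show k (y', q'.2) = k (y', s) by rw [← h4, ← h5])
      exact absurd h3 (by simp [this])
    · rw [isOpen_iff_mem_nhds]
      intro y hy0
      let m : I := ⟨1 / 2, by norm_num, by norm_num⟩
      have hm0 : 0 < m := by show (0 : ℝ) < 1 / 2; norm_num
      have hm1 : m < 1 := by show (1 / 2 : ℝ) < 1; norm_num
      have hC : IsClosed (Prod.fst '' {p : I × I | p.2 ≤ m ∧ k p = k (p.1, 1)}) :=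
        (((isClosed_le continuous_snd continuous_const).inter
          (isClosed_eq hk (hk.comp (by fun_prop)))).isCompact.image continuous_fst).isClosed
      have hC' : IsClosed (Prod.fst '' {p : I × I | m ≤ p.2 ∧ k p = k (p.1, 0)}) :=
        (((isClosed_le continuous_const continuous_snd).inter
          (isClosed_eq hk (hk.comp (by fun_prop)))).isCompact.image continuous_fst).isClosed
      have n1 := hC.isOpen_compl.mem_nhds (x := y) (by
        rintro ⟨p, ⟨h1, h2⟩, rfl⟩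
        rw [hy0 (show k (p.1, p.2) = k (p.1, 1) from h2)] at h1
        exact absurd h1 (not_le.2 hm1))
      have n2 := hC'.isOpen_compl.mem_nhds (x := y) (by
        rintro ⟨p, ⟨h1, h2⟩, rfl⟩
        rw [hy0 (show k (p.1, p.2) = k (p.1, 0) from h2)] at h1
        exact absurd h1 (not_le.2 hm0))
      filter_upwards [n1, n2] with y' h1 h2
      refine inj_left (hc y') (hl' y') fun b hb => ?_
      by_contra hb0
      obtain ⟨v, w, hv, hw, hvw⟩ := right (hc y') (hl' y') (pos_iff_ne_zero.2 hb0) hb.symm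
      rcases le_total v m with h | h
      · exact h1 ⟨(y', v), ⟨h, hv⟩, rfl⟩
      · exact h2 ⟨(y', w), ⟨h.trans hvw.le, hw⟩, rfl⟩
  have : S = univ := hS.eq_univ ⟨0, inj_right (hc 0) (hl' 0) h0⟩
  exact (this ▸ mem_univ y : y ∈ S)

theorem ends {k k' : I → Z} (hk : Continuous k) (hk' : Continuous k') (hi : Injective k)
    (hi' : Injective k') (h1 : ∀ s, ∃ t, k t = k' s) (h2 : ∀ t, ∃ s, k' s = k t) :
    k' 0 = k 1 ∨ k' 1 = k 1 := by
  choose ψ hψ using h1
  have hc : Continuous ψ := by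
    rw [(hk.isClosedEmbedding hi).isInducing.continuous_iff]
    exact hk'.congr fun s => (hψ s).symm
  have hinj : Injective ψ := fun a b e => hi' (by rw [← hψ, ← hψ, e])
  obtain ⟨s, hs⟩ := h2 1
  have hs1 : ψ s = 1 := hi ((hψ s).trans hs)
  rcases hc.strictMono_of_inj_boundedOrder' hinj with h | h
  · right
    rw [← hψ 1, show ψ 1 = 1 from le_antisymm le_one' (hs1.symm.le.trans (h.monotone le_one'))]
  · left
    rw [← hψ 0, show ψ 0 = 1 from le_antisymm le_one' (hs1.symm.le.trans (h.antitone nonneg'))]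

end arc

def fl (e t : ℝ) : ℝ := t + e * (1 - 2 * t)

def XS : Set (ℝ × I × ℝ) := {x | (x.1 = 0 ∨ x.1 = 1) ∧ (x.2.2 ∈ Icc (0 : ℝ) 1 ∨
  (x.2.1 = 0 ∧ x.2.2 ∈ Icc (1 : ℝ) 2) ∨ (x.2.1 = 1 ∧ fl x.1 x.2.2 ∈ Icc (1 : ℝ) 2))}

theorem cfl : Continuous fun p : ℝ × ℝ => fl p.1 p.2 := by unfold fl; fun_prop

theorem XS_compact : IsCompact XS := by
  have hcl : IsClosed XS := by
    refine ((isClosed_eq continuous_fst continuous_const).union
      (isClosed_eq continuous_fst continuous_const)).inter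
      ((isClosed_Icc.preimage (f := fun x : ℝ × I × ℝ => x.2.2) (by fun_prop)).union
        (((isClosed_eq (f := fun x : ℝ × I × ℝ => x.2.1) (by fun_prop) continuous_const).inter
          (isClosed_Icc.preimage (f := fun x : ℝ × I × ℝ => x.2.2) (by fun_prop))).union
        ((isClosed_eq (f := fun x : ℝ × I × ℝ => x.2.1) (by fun_prop) continuous_const).inter
          (isClosed_Icc.preimage (f := fun x : ℝ × I × ℝ => fl x.1 x.2.2)
            (by unfold fl; fun_prop)))))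
  refine ((isCompact_Icc (a := (0 : ℝ)) (b := 1)).prod (isCompact_univ.prod
    (isCompact_Icc (a := (-1 : ℝ)) (b := 2)))).of_isClosed_subset hcl ?_
  rintro ⟨e, y, t⟩ ⟨h1, h2⟩
  simp only [mem_Icc, fl, mem_prod, mem_univ, true_and] at h1 h2 ⊢
  rcases h1 with rfl | rfl <;> rcases h2 with h | h | h <;>
    refine ⟨⟨by norm_num, by norm_num⟩, ?_, ?_⟩ <;> linarith [h.1, h.2]

instance : CompactSpace XS := isCompact_iff_compactSpace.1 XS_compact

def f (x : XS) : I := x.1.2.1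

theorem f_cont : Continuous f := by unfold f; fun_prop

/-- the strip in the component `e` -/
def st (e : ℝ) (he : e = 0 ∨ e = 1) (p : I × I) : XS := ⟨(e, p.1, p.2), he, Or.inl p.2.2⟩

theorem st_cont (e : ℝ) (he : e = 0 ∨ e = 1) : Continuous (st e he) :=
  Continuous.subtype_mk (by fun_prop) _

theorem f_surj : Surjective f := fun y => ⟨st 0 (Or.inl rfl) (y, 0), rfl⟩

theorem localMO (F : Set I) (hF : IsClosed F) (c : I) (τ : ℝ → ℝ → ℝ)
    (hτ : Continuous fun p : ℝ × ℝ => τ p.1 p.2)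
    (hinv : ∀ e, (e = 0 ∨ e = 1) → ∀ t, τ e (τ e t) = t)
    (hX : ∀ e, (e = 0 ∨ e = 1) → ∀ y ∈ F, ∀ t, (e, y, t) ∈ XS ↔
      (τ e t ∈ Icc (0 : ℝ) 1 ∨ (y = c ∧ τ e t ∈ Icc (1 : ℝ) 2))) :
    ∃ (Z : Type) (_ : MetricSpace Z) (_ : CompactSpace Z)
      (h : ↥(f ⁻¹' F) → Z) (g : Z → ↥F),
      Continuous h ∧ IsOpenMap h ∧ Surjective h ∧
      Continuous g ∧ Surjective g ∧ (∀ y, IsConnected (g ⁻¹' {y})) ∧
      ∀ x : ↥(f ⁻¹' F), ((g (h x) : ↥F) : I) = f x := by
  let ZS : Set (F × ℝ) := {q | q.2 ∈ Icc (0 : ℝ) 1 ∨ (q.1.1 = c ∧ q.2 ∈ Icc (1 : ℝ) 2)}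
  have : CompactSpace F := isCompact_iff_compactSpace.1 hF.isCompact
  have hZ : IsCompact ZS := by
    have hcl : IsClosed ZS :=
      (isClosed_Icc.preimage continuous_snd).union
        ((isClosed_eq (f := fun q : F × ℝ => q.1.1) (by fun_prop) continuous_const).inter
          (isClosed_Icc.preimage continuous_snd))
    refine (isCompact_univ.prod (isCompact_Icc (a := (0 : ℝ)) (b := 2))).of_isClosed_subset hcl ?_
    rintro ⟨y, t⟩ (h | h)
    · exact ⟨trivial, h.1, h.2.trans (by norm_num)⟩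
    · exact ⟨trivial, le_trans (by norm_num) h.2.1, h.2.2⟩
  let h : ↥(f ⁻¹' F) → ZS := fun x => ⟨(⟨f x, x.2⟩, τ x.1.1.1 x.1.1.2.2),
    (hX _ x.1.2.1 _ x.2 _).1 x.1.2⟩
  let s : ∀ e : ℝ, (e = 0 ∨ e = 1) → ZS → ↥(f ⁻¹' F) := fun e he z =>
    ⟨⟨(e, z.1.1.1, τ e z.1.2), (hX e he _ z.1.1.2 _).2 (by rw [hinv e he]; exact z.2)⟩, z.1.1.2⟩
  have hs : ∀ e he, Continuous (s e he) := fun e he =>
    Continuous.subtype_mk (Continuous.subtype_mk (continuous_const.prodMk
      (Continuous.prodMk (by fun_prop) (hτ.comp (f := fun z : ZS => (e, z.1.2)) (by fun_prop)))) _) _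
  have hsh : ∀ e he z, h (s e he z) = z := fun e he z =>
    Subtype.ext (Prod.ext rfl (hinv e he _))
  refine ⟨ZS, inferInstance, isCompact_iff_compactSpace.1 hZ, h, fun z => z.1.1, ?_, ?_,
    fun z => ⟨_, hsh 0 (Or.inl rfl) z⟩, by fun_prop,
    fun y => ⟨⟨(y, 0), Or.inl ⟨le_rfl, zero_le_one⟩⟩, rfl⟩, fun y => ?_, fun x => rfl⟩
  · refine Continuous.subtype_mk (Continuous.prodMk (Continuous.subtype_mk
      (f_cont.comp continuous_subtype_val) _)
      (hτ.comp (f := fun x : ↥(f ⁻¹' F) => (x.1.1.1, x.1.1.2.2)) (by fun_prop))) _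
  · refine IsOpenMap.of_sections fun x => ⟨s _ x.1.2.1, (hs _ x.1.2.1).continuousAt, ?_,
      hsh _ x.1.2.1⟩
    exact Subtype.ext (Subtype.ext (Prod.ext rfl (Prod.ext rfl (hinv _ x.1.2.1 _))))
  · by_cases hy : y.1 = c
    · let γ : Icc (0 : ℝ) 2 → ZS := fun t => ⟨(y, t), by
        rcases le_total t.1 1 with h | h
        · exact Or.inl ⟨t.2.1, h⟩
        · exact Or.inr ⟨hy, h, t.2.2⟩⟩
      have : ConnectedSpace (Icc (0 : ℝ) 2) :=
        isConnected_iff_connectedSpace.1 (isConnected_Icc (by norm_num))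
      have hγ : Continuous γ := Continuous.subtype_mk (by fun_prop) _
      refine Eq.mpr (congrArg IsConnected ?_) (isConnected_range hγ)
      ext z
      constructor
      · intro hz
        refine ⟨⟨z.1.2, ?_⟩, Subtype.ext (Prod.ext (Eq.symm hz) rfl)⟩
        rcases z.2 with h | h
        · exact ⟨h.1, h.2.trans (by norm_num)⟩
        · exact ⟨le_trans (by norm_num) h.2.1, h.2.2⟩
      · rintro ⟨t, rfl⟩; rfl
    · let γ : I → ZS := fun t => ⟨(y, t), Or.inl t.2⟩
      have hγ : Continuous γ := Continuous.subtype_mk (by fun_prop) _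
      refine Eq.mpr (congrArg IsConnected ?_) (isConnected_range hγ)
      ext z
      constructor
      · intro hz
        have hz' : z.1.1 = y := hz
        refine ⟨⟨z.1.2, ?_⟩, Subtype.ext (Prod.ext (Eq.symm hz) rfl)⟩
        exact z.2.resolve_right fun h => hy (hz' ▸ h.1)
      · rintro ⟨t, rfl⟩; rfl

theorem not_MO (Z : Type) [MetricSpace Z] [CompactSpace Z] (h : XS → Z) (g : Z → I)
    (hc : Continuous h) (ho : IsOpenMap h) (gc : Continuous g) (gs : Surjective g)
    (gf : ∀ y, IsConnected (g ⁻¹' {y})) (hgf : ∀ x, g (h x) = f x) : False := by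
  have hZ : PreconnectedSpace Z := by
    have := (gc.isClosedMap.isQuotientMap gc gs).isCoinducing.isConnected_preimage_of_isClosed
      gf isClosed_univ isConnected_univ
    exact ⟨by simpa using this.isPreconnected⟩
  let C : ℝ → Set XS := fun e => {x | x.1.1 = e}
  have hCo : ∀ e, (e = 0 ∨ e = 1) → IsOpen (C e) := fun e he => by
    have : C e = (fun x : XS => x.1.1) ⁻¹' Ioo (e - 1) (e + 1) := by
      ext x
      simp only [C, mem_setOf_eq, mem_preimage, mem_Ioo]
      rcases x.2.1 with h | h <;> rcases he with rfl | rfl <;> rw [h] <;> norm_num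
    rw [this]; exact isOpen_Ioo.preimage (by fun_prop)
  have hCc : ∀ e, IsClosed (C e) := fun e => isClosed_eq (by fun_prop) continuous_const
  have hCs : ∀ e, (e = 0 ∨ e = 1) → h '' C e = univ := fun e he =>
    IsClopen.eq_univ ⟨((hCc e).isCompact.image hc).isClosed, ho _ (hCo e he)⟩
      ⟨_, st e he (0, 0), rfl, rfl⟩
  let W : Set XS := {x | x.1.2.2 ∉ Icc (0 : ℝ) 1}
  have hWo : IsOpen W :=
    (isClosed_Icc.preimage (f := fun x : XS => x.1.2.2) (by fun_prop)).isOpen_compl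
  let k : ∀ e : ℝ, (e = 0 ∨ e = 1) → I × I → Z := fun e he p => h (st e he p)
  have hk : ∀ e he, Continuous (k e he) := fun e he => hc.comp (st_cont e he)
  have hgk : ∀ e he p, g (k e he p) = p.1 := fun e he p => hgf _
  have hsat : ∀ e he p, k e he p ∉ h '' W := fun e he p hp => by
    have h1 : (fun y : I => k e he (y, p.2)) ⁻¹' (h '' W) ∈ 𝓝 p.1 :=
      ((ho W hWo).preimage ((hk e he).comp (by fun_prop))).mem_nhds hp
    refine infinite_of_mem_nhds _ h1 ((toFinite ({0, 1} : Set I)).subset ?_)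
    rintro y ⟨x, hx, e1⟩
    have h2 : f x = y := by rw [← hgf, e1, hgk]
    rcases x.2.2 with h3 | h3 | h3
    · exact (hx h3).elim
    · exact Or.inl (h2 ▸ h3.1)
    · exact Or.inr (h2 ▸ h3.1)
  have hst : ∀ e he, ∀ x ∈ C e, x ∉ W → st e he (f x, projIcc 0 1 zero_le_one x.1.2.2) = x := by
    intro e he x hx hW
    have h1 : x.1.2.2 ∈ Icc (0 : ℝ) 1 := not_not.1 hW
    refine Subtype.ext (Prod.ext hx.symm (Prod.ext rfl ?_))
    show ((projIcc 0 1 zero_le_one x.1.2.2 : I) : ℝ) = _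
    rw [projIcc_of_mem _ h1]
  have hl : ∀ e he, Lsc (k e he) := fun e he p q epq U hU => by
    have hπ : Continuous fun x : XS => (f x, projIcc 0 1 zero_le_one x.1.2.2) :=
      f_cont.prodMk (continuous_projIcc.comp (by fun_prop))
    have h1 : C e ∩ (fun x : XS => (f x, projIcc 0 1 zero_le_one x.1.2.2)) ⁻¹' U ∈
        𝓝 (st e he q) := by
      refine inter_mem ((hCo e he).mem_nhds rfl) (hπ.continuousAt.preimage_mem_nhds ?_)
      have : (f (st e he q), projIcc 0 1 zero_le_one (st e he q).1.2.2) = q :=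
        Prod.ext rfl (projIcc_val zero_le_one q.2)
      rwa [this]
    have h2 := ho.image_mem_nhds h1
    rw [show h (st e he q) = k e he p from epq.symm] at h2
    filter_upwards [(hk e he).continuousAt.preimage_mem_nhds h2] with p' ⟨x, hx, ex⟩
    refine ⟨_, hx.2, ?_⟩
    show h _ = _
    rw [hst e he x hx.1 fun hW => hsat e he p' ⟨x, hW, ex⟩, ex]
  have hcross : ∀ e he e' he' y t, ∃ s, k e' he' (y, s) = k e he (y, t) := by
    intro e he e' he' y t
    obtain ⟨x, hx, ex⟩ : k e he (y, t) ∈ h '' C e' := by rw [hCs e' he']; trivial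
    have h2 : f x = y := by rw [← hgf, ex, hgk]
    refine ⟨projIcc 0 1 zero_le_one x.1.2.2, ?_⟩
    show h _ = _
    rw [← h2, hst e' he' x hx fun hW => hsat e he _ ⟨x, hW, ex⟩, ex, h2]
  have whisk : ∀ (c : I → XS), Continuous c → (∀ s, s ≠ 0 → c s ∈ W) → ∀ O : Set XS, IsOpen O →
      (∀ x ∈ O, x ∉ W) → c 0 ∉ h ⁻¹' (h '' O) := fun c hcc hcW O hO hOW h0 => by
    have h1 : c ⁻¹' (h ⁻¹' (h '' O)) ∈ 𝓝 0 := (((ho O hO).preimage hc).preimage hcc).mem_nhds h0
    obtain ⟨s, ⟨x, hx, ex⟩, hs⟩ := (infinite_of_mem_nhds _ h1).exists_notMem_finite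
      (finite_singleton 0)
    refine hsat _ x.2.1 (f x, projIcc 0 1 zero_le_one x.1.2.2) ⟨c s, hcW s hs, ?_⟩
    show _ = h _
    rw [hst _ x.2.1 x rfl (hOW x hx), ex]
  have hpos : ∀ s : I, s ≠ 0 → (0 : ℝ) < s := fun s hs => (pos_iff_ne_zero (a := s)).2 hs
  have hlt : ∀ s : I, s ≠ 1 → (s : ℝ) < 1 := fun s hs => lt_of_le_of_ne (a := s) le_one' hs
  have ct : Continuous fun x : XS => x.1.2.2 := by fun_prop
  have hW1 : ∀ s : I, s ≠ 0 → (1 + s : ℝ) ∉ Icc (0 : ℝ) 1 := fun s hs h1 => by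
    have : (0 : ℝ) < s := hpos s hs
    linarith [h1.2]
  have hI : ∀ s : I, (1 + s : ℝ) ∈ Icc (1 : ℝ) 2 := fun s => by
    constructor <;> linarith [s.2.1, s.2.2]
  have top0 : ∀ e he e' he' t, k e' he' (0, t) = k e he (0, 1) → t = 1 := by
    intro e he e' he' t ht
    by_contra h1
    refine whisk (fun s => ⟨(e, 0, 1 + s), he, Or.inr (Or.inl ⟨rfl, hI s⟩)⟩)
      (Continuous.subtype_mk (by fun_prop) _) hW1 ({x | x.1.2.2 < 1} ∩ {x | f x < 1})
      ((isOpen_lt ct continuous_const).inter (isOpen_lt f_cont continuous_const))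
      (fun x hx hW => ?_) ⟨st e' he' (0, t), ⟨hlt t h1, zero_lt_one (α := I)⟩, ?_⟩
    · rcases x.2.2 with h3 | h3 | h3
      · exact hW h3
      · exact absurd h3.2.1 (not_le.2 hx.1)
      · exact absurd h3.1 hx.2.ne
    · refine ht.trans (congrArg h (Subtype.ext ?_))
      simp [st]
  have top1 : ∀ t, k 1 (Or.inr rfl) (1, t) = k 0 (Or.inl rfl) (1, 1) → t = 0 := by
    intro t ht
    by_contra h1
    refine whisk (fun s => ⟨(0, 1, 1 + s), Or.inl rfl, Or.inr (Or.inr ⟨rfl, by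
        simpa [fl] using hI s⟩)⟩)
      (Continuous.subtype_mk (by fun_prop) _) hW1 (C 1 ∩ ({x | 0 < x.1.2.2} ∩ {x | 0 < f x}))
      ((hCo 1 (Or.inr rfl)).inter ((isOpen_lt continuous_const ct).inter
        (isOpen_lt continuous_const f_cont)))
      (fun x hx hW => ?_) ⟨st 1 (Or.inr rfl) (1, t), ⟨rfl, hpos t h1, zero_lt_one (α := I)⟩, ?_⟩
    · rcases x.2.2 with h3 | h3 | h3
      · exact hW h3
      · exact absurd h3.1 hx.2.2.ne'
      · have h4 := h3.2.1
        rw [show x.1.1 = 1 from hx.1, fl] at h4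
        linarith [show 0 < x.1.2.2 from hx.2.1]
    · refine ht.trans (congrArg h (Subtype.ext ?_))
      simp [st]
  have hinj : ∀ e he y, Injective fun t => k e he (y, t) := fun e he =>
    strip_inj (hk e he) (hl e he) (fun p q epq => by rw [← hgk e he p, epq, hgk])
      (top0 e he e he)
  have hcy : ∀ e he y, Continuous fun t => k e he (y, t) := fun e he y =>
    (hk e he).comp (by fun_prop)
  have hcy' : ∀ e he t, Continuous fun y => k e he (y, t) := fun e he t =>
    (hk e he).comp (by fun_prop)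
  obtain ⟨y, -, h1, h2⟩ := isPreconnected_closed_iff.1 (isPreconnected_univ (α := I)) _ _
    (isClosed_eq (hcy' 1 (Or.inr rfl) 0) (hcy' 0 (Or.inl rfl) 1))
    (isClosed_eq (hcy' 1 (Or.inr rfl) 1) (hcy' 0 (Or.inl rfl) 1))
    (fun y _ => ends (hcy 0 _ y) (hcy 1 _ y) (hinj 0 _ y) (hinj 1 _ y)
      (hcross _ _ _ _ y) (hcross _ _ _ _ y))
    ⟨1, trivial, by
      obtain ⟨s, hs⟩ := hcross 0 (Or.inl rfl) 1 (Or.inr rfl) 1 1
      rw [top1 s hs] at hs; exact hs⟩
    ⟨0, trivial, by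
      obtain ⟨s, hs⟩ := hcross 0 (Or.inl rfl) 1 (Or.inr rfl) 0 1
      rw [top0 _ _ _ _ s hs] at hs; exact hs⟩
  exact zero_ne_one (hinj 1 (Or.inr rfl) y (h1.trans h2.symm))

end Pool.Agent.H83.MO
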