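import Mathlib

namespace Pool.Agent.H83.Maz

open FirstOrder FirstOrder.Language Set

/-- relation symbols: a unary `P`, a binary `E`, a ternary `S` -/
inductive Rel : ℕ → Type
  | P : Rel 1
  | E : Rel 2
  | S : Rel 3

/-- the relational language with symbols `P`, `E`, `S` -/
def L : FirstOrder.Language.{0, 0} := ⟨fun _ => Empty, Rel⟩

def rP : L.Relations 1 := Rel.P
def rE : L.Relations 2 := Rel.E
def rS : L.Relations 3 := Rel.S

/-- linear presentation of an `L`-structure -/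
structure Rep (N : Type) [L.Structure N] (U : Type) [AddCommGroup U] where
  two : ∀ u : U, u + u = 0
  Φ : N → U
  ε : U →+ ZMod 2
  hP : ∀ v : Fin 1 → N, Structure.RelMap rP v ↔ ε (Φ (v 0)) = 1
  hE : ∀ v : Fin 2 → N, Structure.RelMap rE v ↔ Φ (v 0) = Φ (v 1)
  hS : ∀ v : Fin 3 → N, Structure.RelMap rS v ↔ Φ (v 0) + Φ (v 1) = Φ (v 2)
  inj : ∀ x y, ε (Φ x) = 1 → Φ x = Φ y → x = y
  surj : Function.Surjective Φ
  fib : ∀ u, ε u = 0 → {x | Φ x = u}.Infinite
  big : ∀ t : ZMod 2, {u | ε u = t}.Infinite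

theorem z2 (t : ZMod 2) : t = 0 ∨ t = 1 := by revert t; decide

section grp
variable {V : Type} [AddCommGroup V]

theorem mem_closure_insert (two : ∀ u : V, u + u = 0) (F : Set V) (g x : V) :
    x ∈ AddSubgroup.closure (insert g F) ↔
      ∃ h ∈ AddSubgroup.closure F, x = h ∨ x = h + g := by
  have hneg : ∀ u : V, -u = u := fun u => neg_eq_of_add_eq_zero_left (two u)
  constructor
  · intro hx
    induction hx using AddSubgroup.closure_induction with
    | mem y hy =>
      rcases hy with rfl | hy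
      · exact ⟨0, zero_mem _, Or.inr (by simp)⟩
      · exact ⟨y, AddSubgroup.subset_closure hy, Or.inl rfl⟩
    | zero => exact ⟨0, zero_mem _, Or.inl rfl⟩
    | add y z _ _ hy hz =>
      obtain ⟨a, ha, hy⟩ := hy
      obtain ⟨b, hb, hz⟩ := hz
      refine ⟨a + b, add_mem ha hb, ?_⟩
      rcases hy with rfl | rfl <;> rcases hz with rfl | rfl
      · left; rfl
      · right; abel
      · right; abel
      · left
        have := two g
        calc a + g + (b + g) = a + b + (g + g) := by abel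
          _ = a + b := by rw [this, add_zero]
    | neg y _ hy => rw [hneg]; exact hy
  · rintro ⟨h, hh, rfl | rfl⟩
    · exact AddSubgroup.closure_mono (subset_insert _ _) hh
    · exact add_mem (AddSubgroup.closure_mono (subset_insert _ _) hh)
        (AddSubgroup.subset_closure (mem_insert _ _))

theorem closure_finite (two : ∀ u : V, u + u = 0) {F : Set V} (hF : F.Finite) :
    (AddSubgroup.closure F : Set V).Finite := by
  induction F, hF using Set.Finite.induction_on with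
  | empty => simp
  | @insert g F _ _ ih =>
    refine (ih.union (ih.image (· + g))).subset fun x hx => ?_
    obtain ⟨h, hh, rfl | rfl⟩ := (mem_closure_insert two F g x).1 hx
    · exact Or.inl hh
    · exact Or.inr ⟨h, hh, rfl⟩

theorem closure_countable (two : ∀ u : V, u + u = 0) {F : Set V} (hF : F.Countable) :
    (AddSubgroup.closure F : Set V).Countable := by
  have h1 : {s : Set V | s.Finite ∧ s ⊆ F}.Countable := Set.countable_setOf_finite_subset hF
  refine (h1.biUnion (t := fun s _ => (AddSubgroup.closure s : Set V))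
    fun s hs => (closure_finite two hs.1).countable).mono fun x hx => ?_
  simp only [mem_iUnion, mem_setOf_eq, SetLike.mem_coe]
  induction hx using AddSubgroup.closure_induction with
  | mem y hy => exact ⟨{y}, ⟨finite_singleton _, by simpa using hy⟩,
      AddSubgroup.subset_closure rfl⟩
  | zero => exact ⟨∅, ⟨finite_empty, empty_subset _⟩, zero_mem _⟩
  | add y z _ _ hy hz =>
    obtain ⟨s, hs, hy⟩ := hy
    obtain ⟨t, ht, hz⟩ := hz
    exact ⟨s ∪ t, ⟨hs.1.union ht.1, union_subset hs.2 ht.2⟩,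
      add_mem (AddSubgroup.closure_mono subset_union_left hy)
        (AddSubgroup.closure_mono subset_union_right hz)⟩
  | neg y _ hy =>
    obtain ⟨s, hs, hy⟩ := hy
    exact ⟨s, hs, neg_mem hy⟩

end grp

variable {N N' : Type} [L.Structure N] [L.Structure N'] {U U' : Type} [AddCommGroup U]
  [AddCommGroup U']

/-- `G` is the graph of a finite partial isomorphism -/
structure Gr (R : Rep N U) (R' : Rep N' U') (G : AddSubgroup (U × U')) : Prop where
  fin : (G : Set (U × U')).Finite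
  zero : ∀ g ∈ G, g.1 = 0 ↔ g.2 = 0
  eps : ∀ g ∈ G, R.ε g.1 = R'.ε g.2

structure Good (R : Rep N U) (R' : Rep N' U') (ρ : Set (N × N'))
    (G : AddSubgroup (U × U')) : Prop where
  fin : ρ.Finite
  inj : ∀ p ∈ ρ, ∀ q ∈ ρ, p.1 = q.1 ↔ p.2 = q.2
  gr : Gr R R' G
  mem : ∀ p ∈ ρ, (R.Φ p.1, R'.Φ p.2) ∈ G

variable {R : Rep N U} {R' : Rep N' U'}

theorem Gr.eq_iff {G : AddSubgroup (U × U')} (h : Gr R R' G) {g g' : U × U'} (hg : g ∈ G)
    (hg' : g' ∈ G) : g.1 = g'.1 ↔ g.2 = g'.2 := by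
  have := h.zero _ (sub_mem hg hg')
  simpa [sub_eq_zero] using this

theorem Good.ext1 {ρ : Set (N × N')} {G : AddSubgroup (U × U')} (h : Good R R' ρ G)
    {x : N} {x' : N'} (hx : ∀ p ∈ ρ, p.1 ≠ x) (hx' : ∀ p ∈ ρ, p.2 ≠ x')
    (hG : (R.Φ x, R'.Φ x') ∈ G) : Good R R' (insert (x, x') ρ) G where
  fin := h.fin.insert _
  inj := by
    rintro p (rfl | hp) q (rfl | hq)
    · simp
    · exact ⟨fun e => (hx q hq e.symm).elim, fun e => (hx' q hq e.symm).elim⟩
    · exact ⟨fun e => (hx p hp e).elim, fun e => (hx' p hp e).elim⟩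
    · exact h.inj p hp q hq
  gr := h.gr
  mem := by
    rintro p (rfl | hp)
    · exact hG
    · exact h.mem p hp

theorem two_prod (R : Rep N U) (R' : Rep N' U') (g : U × U') : g + g = 0 :=
  Prod.ext (R.two _) (R'.two _)

theorem Gr.ext2 {G : AddSubgroup (U × U')} (h : Gr R R' G) {u : U} {u' : U'}
    (hu : ∀ g ∈ G, g.1 ≠ u) (hu' : ∀ g ∈ G, g.2 ≠ u') (he : R.ε u = R'.ε u') :
    Gr R R' (AddSubgroup.closure (insert (u, u') (G : Set (U × U')))) := by
  have key : ∀ g ∈ AddSubgroup.closure (insert (u, u') (G : Set (U × U'))),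
      ∃ k ∈ G, g = k ∨ g = k + (u, u') := fun g hg => by
    simpa using (mem_closure_insert (two_prod R R') _ _ _).1 hg
  refine ⟨closure_finite (two_prod R R') (h.fin.insert _), fun g hg => ?_, fun g hg => ?_⟩
  · obtain ⟨k, hk, rfl | rfl⟩ := key g hg
    · exact h.zero _ hk
    · constructor
      · intro e
        exact (hu (-k) (neg_mem hk) (neg_eq_of_add_eq_zero_right e)).elim
      · intro e
        exact (hu' (-k) (neg_mem hk) (neg_eq_of_add_eq_zero_right e)).elim
  · obtain ⟨k, hk, rfl | rfl⟩ := key g hg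
    · exact h.eps _ hk
    · simp [h.eps _ hk, he]

theorem Good.ext2 {ρ : Set (N × N')} {G : AddSubgroup (U × U')} (h : Good R R' ρ G)
    {x : N} {x' : N'} (hu : ∀ g ∈ G, g.1 ≠ R.Φ x) (hu' : ∀ g ∈ G, g.2 ≠ R'.Φ x')
    (he : R.ε (R.Φ x) = R'.ε (R'.Φ x')) :
    Good R R' (insert (x, x') ρ)
      (AddSubgroup.closure (insert (R.Φ x, R'.Φ x') (G : Set (U × U')))) := by
  have h1 : Good R R' ρ (AddSubgroup.closure (insert (R.Φ x, R'.Φ x') (G : Set (U × U')))) :=
    ⟨h.fin, h.inj, h.gr.ext2 hu hu' he, fun p hp =>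
      AddSubgroup.subset_closure (Or.inr (h.mem p hp))⟩
  refine h1.ext1 (fun p hp e => hu _ (h.mem p hp) (by simp [e]))
    (fun p hp e => hu' _ (h.mem p hp) (by simp [e])) (AddSubgroup.subset_closure (Or.inl rfl))

theorem Good.forth {ρ : Set (N × N')} {G : AddSubgroup (U × U')} (h : Good R R' ρ G) (x : N) :
    ∃ x' G', Good R R' (insert (x, x') ρ) G' := by
  by_cases hx : ∃ p ∈ ρ, p.1 = x
  · obtain ⟨p, hp, rfl⟩ := hx
    exact ⟨p.2, G, by rwa [insert_eq_of_mem (by simpa using hp)]⟩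
  push Not at hx
  by_cases hu : ∃ g ∈ G, g.1 = R.Φ x
  · obtain ⟨g, hg, hgx⟩ := hu
    rcases z2 (R.ε (R.Φ x)) with e | e
    · have e' : R'.ε g.2 = 0 := by rw [← h.gr.eps g hg, hgx, e]
      obtain ⟨x', hx1, hx2⟩ := (R'.fib _ e').exists_notMem_finite (h.fin.image Prod.snd)
      refine ⟨x', G, h.ext1 hx (fun p hp e => hx2 ⟨p, hp, e⟩) ?_⟩
      rw [← hgx, show R'.Φ x' = g.2 from hx1]; exact hg
    · obtain ⟨x', hx1⟩ := R'.surj g.2
      refine ⟨x', G, h.ext1 hx (fun p hp e2 => ?_) (by rw [← hgx, hx1]; exact hg)⟩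
      have := (h.gr.eq_iff hg (h.mem p hp)).2 (by simp [e2, hx1])
      exact hx p hp (R.inj _ _ e (by rw [← hgx, this])).symm
  · push Not at hu
    obtain ⟨u', h1, h2⟩ := (R'.big (R.ε (R.Φ x))).exists_notMem_finite (h.gr.fin.image Prod.snd)
    obtain ⟨x', rfl⟩ := R'.surj u'
    exact ⟨x', _, h.ext2 hu (fun g hg e => h2 ⟨g, hg, e⟩) h1.symm⟩

theorem Good.swap {ρ : Set (N × N')} {G : AddSubgroup (U × U')} (h : Good R R' ρ G) :
    Good R' R (Prod.swap ⁻¹' ρ) (G.comap (AddEquiv.prodComm (M := U') (N := U)).toAddMonoidHom) where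
  fin := h.fin.preimage Prod.swap_injective.injOn
  inj := fun p hp q hq => (h.inj _ hp _ hq).symm
  gr := ⟨h.gr.fin.preimage (f := Prod.swap) Prod.swap_injective.injOn,
    fun g hg => (h.gr.zero _ hg).symm, fun g hg => (h.gr.eps _ hg).symm⟩
  mem := fun p hp => h.mem _ hp

theorem Good.back {ρ : Set (N × N')} {G : AddSubgroup (U × U')} (h : Good R R' ρ G) (x' : N') :
    ∃ x G', Good R R' (insert (x, x') ρ) G' := by
  obtain ⟨x, G', h'⟩ := h.swap.forth x'
  have h2 := h'.swap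
  have e : Prod.swap ⁻¹' (insert (x', x) (Prod.swap ⁻¹' ρ)) = insert (x, x') ρ := by
    ext ⟨a, b⟩; simp [and_comm]
  exact ⟨x, _, e ▸ h2⟩

theorem Good.rel {ρ : Set (N × N')} {G : AddSubgroup (U × U')} (h : Good R R' ρ G)
    {l : ℕ} (r : L.Relations l) (v : Fin l → N) (v' : Fin l → N') (hv : ∀ i, (v i, v' i) ∈ ρ) :
    Structure.RelMap r v ↔ Structure.RelMap r v' := by
  cases r with
  | P =>
    refine (R.hP v).trans (Iff.trans ?_ (R'.hP v').symm)
    rw [show R.ε (R.Φ (v 0)) = R'.ε (R'.Φ (v' 0)) from h.gr.eps _ (h.mem _ (hv 0))]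
  | E =>
    refine (R.hE v).trans (Iff.trans ?_ (R'.hE v').symm)
    exact h.gr.eq_iff (h.mem _ (hv 0)) (h.mem _ (hv 1))
  | S =>
    refine (R.hS v).trans (Iff.trans ?_ (R'.hS v').symm)
    exact h.gr.eq_iff (add_mem (h.mem _ (hv 0)) (h.mem _ (hv 1))) (h.mem _ (hv 2))

theorem term_mem {β : Type} (t : L.Term β) (ρ : Set (N × N')) (w : β → N) (w' : β → N')
    (hw : ∀ b, (w b, w' b) ∈ ρ) : (t.realize w, t.realize w') ∈ ρ := by
  cases t with
  | var b => exact hw b
  | func f _ => exact (f : Empty).elim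

theorem Good.realize {α : Type} {n : ℕ} (φ : L.BoundedFormula α n) :
    ∀ {ρ : Set (N × N')} {G : AddSubgroup (U × U')} (_ : Good R R' ρ G)
      (v : α → N) (v' : α → N') (xs : Fin n → N) (xs' : Fin n → N'),
      (∀ a, (v a, v' a) ∈ ρ) → (∀ i, (xs i, xs' i) ∈ ρ) →
      (φ.Realize v xs ↔ φ.Realize v' xs') := by
  induction φ with
  | falsum => intros; rfl
  | equal t₁ t₂ =>
    intro ρ G h v v' xs xs' hv hxs
    have hw : ∀ b, (Sum.elim v xs b, Sum.elim v' xs' b) ∈ ρ := by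
      rintro (a | i); exacts [hv a, hxs i]
    exact h.inj _ (term_mem t₁ ρ _ _ hw) _ (term_mem t₂ ρ _ _ hw)
  | rel r ts =>
    intro ρ G h v v' xs xs' hv hxs
    have hw : ∀ b, (Sum.elim v xs b, Sum.elim v' xs' b) ∈ ρ := by
      rintro (a | i); exacts [hv a, hxs i]
    exact h.rel r _ _ fun i => term_mem (ts i) ρ _ _ hw
  | imp φ ψ ih1 ih2 =>
    intro ρ G h v v' xs xs' hv hxs
    exact imp_congr (ih1 h v v' xs xs' hv hxs) (ih2 h v v' xs xs' hv hxs)
  | @all n φ ih =>
    intro ρ G h v v' xs xs' hv hxs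
    have key : ∀ x x' G', Good R R' (insert (x, x') ρ) G' →
        (φ.Realize v (Fin.snoc xs x) ↔ φ.Realize v' (Fin.snoc xs' x')) := fun x x' G' h' => by
      refine ih h' v v' _ _ (fun a => Or.inr (hv a)) fun i => ?_
      refine Fin.lastCases ?_ (fun j => ?_) i
      · simp
      · simpa using Or.inr (hxs j)
    simp only [BoundedFormula.realize_all]
    constructor
    · intro H x'
      obtain ⟨x, G', h'⟩ := h.back x'
      exact (key x x' G' h').1 (H x)
    · intro H x
      obtain ⟨x', G', h'⟩ := h.forth x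
      exact (key x x' G' h').2 (H x')

theorem Good.formula {α : Type} (φ : L.Formula α) {ρ : Set (N × N')}
    {G : AddSubgroup (U × U')} (h : Good R R' ρ G) (v : α → N) (v' : α → N')
    (hv : ∀ a, (v a, v' a) ∈ ρ) : φ.Realize v ↔ φ.Realize v' :=
  Good.realize φ h v v' _ _ hv fun i => i.elim0

theorem good_empty (R : Rep N U) (R' : Rep N' U') : Good R R' ∅ ⊥ where
  fin := finite_empty
  inj := by simp
  gr := ⟨by simp, by simp +contextual [Prod.ext_iff], by simp +contextual [Prod.ext_iff]⟩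
  mem := by simp

theorem good_P (R : Rep N U) (R' : Rep N' U') {x : N} {x' : N'} (hx : R.ε (R.Φ x) = 1)
    (hx' : R'.ε (R'.Φ x') = 1) : ∃ G, Good R R' {(x, x')} G := by
  have := (good_empty R R').ext2 (x := x) (x' := x') (fun g hg e => by
      rw [AddSubgroup.mem_bot] at hg; subst hg
      rw [← e] at hx; simp at hx)
    (fun g hg e => by
      rw [AddSubgroup.mem_bot] at hg; subst hg
      rw [← e] at hx'; simp at hx') (by rw [hx, hx'])
  exact ⟨_, by simpa using this⟩

/-- countable presented structures are isomorphic -/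
theorem iso (R : Rep N U) (R' : Rep N' U') [Countable N] [Countable N'] :
    Nonempty (N ≃[L] N') := by
  classical
  let Q := {ρ : Set (N × N') // ∃ G, Good R R' ρ G}
  let D : N ⊕ N' → Order.Cofinal Q := fun z =>
    match z with
    | Sum.inl x => ⟨{ρ | ∃ x', (x, x') ∈ ρ.1}, fun ρ => by
        obtain ⟨G, h⟩ := ρ.2
        obtain ⟨x', G', h'⟩ := h.forth x
        exact ⟨⟨_, G', h'⟩, ⟨x', Or.inl rfl⟩, subset_insert _ _⟩⟩
    | Sum.inr x' => ⟨{ρ | ∃ x, (x, x') ∈ ρ.1}, fun ρ => by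
        obtain ⟨G, h⟩ := ρ.2
        obtain ⟨x, G', h'⟩ := h.back x'
        exact ⟨⟨_, G', h'⟩, ⟨x, Or.inl rfl⟩, subset_insert _ _⟩⟩
  letI : Encodable (N ⊕ N') := Encodable.ofCountable _
  let q0 : Q := ⟨∅, _, good_empty R R'⟩
  let s := Order.sequenceOfCofinals q0 D
  have mono : Monotone s := Order.sequenceOfCofinals.monotone q0 D
  have h1 : ∀ x, ∃ x' n, (x, x') ∈ (s n).1 := fun x => by
    obtain ⟨x', hx'⟩ := Order.sequenceOfCofinals.encode_mem q0 D (Sum.inl x)
    exact ⟨x', _, hx'⟩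
  have h2 : ∀ x', ∃ x n, (x, x') ∈ (s n).1 := fun x' => by
    obtain ⟨x, hx⟩ := Order.sequenceOfCofinals.encode_mem q0 D (Sum.inr x')
    exact ⟨x, _, hx⟩
  have key : ∀ p q : N × N', ∀ n m, p ∈ (s n).1 → q ∈ (s m).1 → (p.1 = q.1 ↔ p.2 = q.2) :=
    fun p q n m hp hq => by
      obtain ⟨G, h⟩ := (s (max n m)).2
      exact h.inj p (mono (le_max_left n m) hp) q (mono (le_max_right n m) hq)
  choose f nf hf using h1
  have hinj : Function.Injective f := fun x y e => (key _ _ _ _ (hf x) (hf y)).2 e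
  have hsurj : Function.Surjective f := fun x' => by
    obtain ⟨x, n, hx⟩ := h2 x'
    exact ⟨x, (key _ _ _ _ (hf x) hx).1 rfl⟩
  refine ⟨⟨Equiv.ofBijective f ⟨hinj, hsurj⟩, fun g => (g : Empty).elim, fun {l} r v => ?_⟩⟩
  obtain ⟨G, h⟩ := (s (Finset.univ.sup fun i => nf (v i))).2
  refine (h.rel r v _ fun i => ?_).symm
  exact mono (Finset.le_sup (f := fun i => nf (v i)) (Finset.mem_univ i)) (hf (v i))

end Pool.Agent.H83.Maz
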