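import Pool.Agent.H83.Maz1

namespace Pool.Agent.H83.Maz

open FirstOrder FirstOrder.Language Set

abbrev U0 : Type := ℕ → ZMod 2

/-- the prime example -/
def M0 : Type := {p : U0 × ℕ // p.1 0 = 1 → p.2 = 0}

instance : Nonempty M0 := ⟨⟨(0, 0), fun _ => rfl⟩⟩

def rel0 : ∀ {n : ℕ}, Rel n → (Fin n → M0) → Prop
  | _, Rel.P, v => (v 0).1.1 0 = 1
  | _, Rel.E, v => (v 0).1.1 = (v 1).1.1
  | _, Rel.S, v => (v 0).1.1 + (v 1).1.1 = (v 2).1.1

instance : L.Structure M0 where
  funMap := fun f _ => (f : Empty).elim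
  RelMap := fun r v => rel0 r v

def R0 : Rep M0 U0 where
  two := fun u => by funext i; exact CharTwo.add_self_eq_zero _
  Φ := fun x => x.1.1
  ε := Pi.evalAddMonoidHom (fun _ => ZMod 2) 0
  hP := fun _ => Iff.rfl
  hE := fun _ => Iff.rfl
  hS := fun _ => Iff.rfl
  inj := fun x y hx e => by
    apply Subtype.ext
    refine Prod.ext e ?_
    rw [x.2 hx, y.2 (by rw [← show x.1.1 = y.1.1 from e]; exact hx)]
  surj := fun u => ⟨⟨(u, 0), fun _ => rfl⟩, rfl⟩
  fib := fun u hu => by
    refine infinite_of_injective_forall_mem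
      (f := fun k : ℕ => (⟨(u, k), fun h => ?_⟩ : M0)) (fun a b e => ?_) (fun _ => rfl)
    · have h0 : u 0 = 0 := hu
      rw [show u 0 = 1 from h] at h0
      exact absurd h0 (by decide)
    · exact congrArg (fun x : M0 => x.1.2) e
  big := fun t => by
    refine infinite_of_injective_forall_mem
      (f := fun k : ℕ => (Pi.single 0 t + Pi.single (k + 1) 1 : U0)) (fun a b e => ?_)
      (fun k => by simp)
    have := congrFun (add_left_cancel e) (a + 1)
    by_contra hab
    simp [Pi.single_apply, hab] at this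

/-- the complete theory of the example -/
def T : L.Theory := L.completeTheory M0

instance : M0 ⊨ T := inferInstanceAs (M0 ⊨ L.completeTheory M0)

theorem transfer {ι : Type} [Finite ι] (φ : L.Formula ι) (h : ∀ v : ι → M0, φ.Realize v)
    (N : Type) [L.Structure N] [hN : N ⊨ T] (v : ι → N) : φ.Realize v := by
  let ψ : L.Sentence := (φ.relabel (Sum.inr : ι → Empty ⊕ ι)).iAlls ι
  have h0 : ψ ∈ T := by
    show M0 ⊨ ψ
    simp only [ψ, Sentence.Realize, Formula.realize_iAlls, Formula.realize_relabel]
    intro w; exact h _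
  have h1 : N ⊨ ψ := hN.realize_of_mem ψ h0
  simp only [ψ, Sentence.Realize, Formula.realize_iAlls, Formula.realize_relabel] at h1
  exact h1 v

section
variable {ι : Type}
def fP (i : ι) : L.Formula ι := rP.formula ![Term.var i]
def fE (i j : ι) : L.Formula ι := rE.formula ![Term.var i, Term.var j]
def fS (i j k : ι) : L.Formula ι := rS.formula ![Term.var i, Term.var j, Term.var k]
def fQ (i j : ι) : L.Formula ι := (Term.var i).equal (Term.var j)

variable {N : Type} [L.Structure N]
def P (x : N) : Prop := Structure.RelMap rP ![x]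
def E (x y : N) : Prop := Structure.RelMap rE ![x, y]
def S (x y z : N) : Prop := Structure.RelMap rS ![x, y, z]

@[simp] theorem realize_fP (i : ι) (v : ι → N) : (fP i).Realize v ↔ P (v i) := by
  rw [fP, Formula.realize_rel, P, iff_iff_eq]; congr 1; funext j; fin_cases j; rfl
@[simp] theorem realize_fE (i j : ι) (v : ι → N) : (fE i j).Realize v ↔ E (v i) (v j) := by
  rw [fE, Formula.realize_rel, E, iff_iff_eq]; congr 1; funext j; fin_cases j <;> rfl
@[simp] theorem realize_fS (i j k : ι) (v : ι → N) :
    (fS i j k).Realize v ↔ S (v i) (v j) (v k) := by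
  rw [fS, Formula.realize_rel, S, iff_iff_eq]; congr 1; funext j; fin_cases j <;> rfl
@[simp] theorem realize_fQ (i j : ι) (v : ι → N) : (fQ i j).Realize v ↔ v i = v j := by
  simp [fQ]

variable {U : Type} [AddCommGroup U]
theorem Rep.P_iff (R : Rep N U) (x : N) : P x ↔ R.ε (R.Φ x) = 1 := R.hP _
theorem Rep.E_iff (R : Rep N U) (x y : N) : E x y ↔ R.Φ x = R.Φ y := R.hE _
theorem Rep.S_iff (R : Rep N U) (x y z : N) : S x y z ↔ R.Φ x + R.Φ y = R.Φ z := R.hS _
end

section axs
variable (N : Type) [L.Structure N] [N ⊨ T]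

theorem ax_refl (x : N) : E x x := by
  have := transfer (fE () ()) (fun v => by simp [R0.E_iff]) N (fun _ => x)
  simpa using this

theorem ax_eucl (x y z : N) : E x y → E x z → E y z := by
  have := transfer (ι := Fin 3) ((fE 0 1).imp ((fE 0 2).imp (fE 1 2)))
    (fun v => by simp +contextual [R0.E_iff]) N ![x, y, z]
  simpa using this

theorem ax_total (x y : N) : ∃ z, S x y z := by
  have := transfer (ι := Fin 2)
    ((fS (Sum.inl 0) (Sum.inl 1) (Sum.inr ())).iExs Unit)
    (fun v => by
      obtain ⟨z, hz⟩ := R0.surj (R0.Φ (v 0) + R0.Φ (v 1))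
      simp only [Formula.realize_iExs, realize_fS, R0.S_iff]
      exact ⟨fun _ => z, hz.symm⟩) N ![x, y]
  simp only [Formula.realize_iExs, realize_fS] at this
  obtain ⟨w, hw⟩ := this
  exact ⟨w (), hw⟩

theorem ax_congr (x y z x' y' z' : N) :
    S x y z → E x x' → E y y' → (S x' y' z' ↔ E z z') := by
  have := transfer (ι := Fin 6) ((fS 0 1 2).imp ((fE 0 3).imp ((fE 1 4).imp
      ((fS 3 4 5).iff (fE 2 5)))))
    (fun v => by
      simp only [Formula.realize_imp, Formula.realize_iff, realize_fS, realize_fE, R0.E_iff,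
        R0.S_iff]
      intro h1 h2 h3
      rw [← h1, ← h2, ← h3]) N ![x, y, z, x', y', z']
  simpa using this

theorem ax_assoc (x y z u w t w' : N) :
    S x y u → S u z w → S y z t → S x t w' → E w w' := by
  have := transfer (ι := Fin 7) ((fS 0 1 3).imp ((fS 3 2 4).imp ((fS 1 2 5).imp
      ((fS 0 5 6).imp (fE 4 6)))))
    (fun v => by
      simp only [Formula.realize_imp, realize_fS, realize_fE, R0.E_iff, R0.S_iff]
      intro h1 h2 h3 h4
      rw [← h2, ← h1, ← h4, ← h3, add_assoc]) N ![x, y, z, u, w, t, w']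
  simpa using this

theorem ax_comm (x y z : N) : S x y z → S y x z := by
  have := transfer (ι := Fin 3) ((fS 0 1 2).imp (fS 1 0 2))
    (fun v => by
      simp only [Formula.realize_imp, realize_fS, R0.S_iff]
      intro h1
      rw [← h1, add_comm]) N ![x, y, z]
  simpa using this

theorem ax_zero : ∃ o : N, ∀ x, S o x x ∧ S x x o := by
  have := transfer (ι := Empty)
    ((((fS (Sum.inl (Sum.inr ())) (Sum.inr ()) (Sum.inr ())) ⊓
      (fS (Sum.inr ()) (Sum.inr ()) (Sum.inl (Sum.inr ())))).iAlls Unit).iExs Unit)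
    (fun v => by
      obtain ⟨z, hz⟩ := R0.surj 0
      simp only [Formula.realize_iExs, Formula.realize_iAlls, Formula.realize_inf, realize_fS,
        R0.S_iff]
      refine ⟨fun _ => z, fun w => ?_⟩
      simp [hz, R0.two]) N Empty.elim
  simp only [Formula.realize_iExs, Formula.realize_iAlls, Formula.realize_inf,
    realize_fS] at this
  obtain ⟨w, hw⟩ := this
  exact ⟨w (), fun x => hw fun _ => x⟩

theorem ax_eps (x y z : N) : S x y z → (P z ↔ ¬ (P x ↔ P y)) := by
  have := transfer (ι := Fin 3) ((fS 0 1 2).imp ((fP 2).iff ((fP 0).iff (fP 1)).not))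
    (fun v => by
      simp only [Formula.realize_imp, Formula.realize_iff, Formula.realize_not, realize_fS,
        realize_fP, R0.P_iff, R0.S_iff]
      intro h1
      rw [← h1, map_add]
      generalize R0.ε (R0.Φ (v 0)) = a
      generalize R0.ε (R0.Φ (v 1)) = b
      revert a b; decide) N ![x, y, z]
  simpa using this

theorem ax_PE (x y : N) : E x y → (P x ↔ P y) := by
  have := transfer (ι := Fin 2) ((fE 0 1).imp ((fP 0).iff (fP 1)))
    (fun v => by
      simp only [Formula.realize_imp, Formula.realize_iff, realize_fE, realize_fP, R0.P_iff,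
        R0.E_iff]
      intro h1
      rw [h1]) N ![x, y]
  simpa using this

theorem ax_inj (x y : N) : P x → E x y → x = y := by
  have := transfer (ι := Fin 2) ((fP 0).imp ((fE 0 1).imp (fQ 0 1)))
    (fun v => by
      simp only [Formula.realize_imp, realize_fE, realize_fP, realize_fQ, R0.P_iff, R0.E_iff]
      exact R0.inj _ _) N ![x, y]
  simpa using this

theorem infinite_of_avoid {X : Type} {s : Set X}
    (h : ∀ (n : ℕ) (y : Fin n → X), ∃ z ∈ s, ∀ i, z ≠ y i) : s.Infinite := fun hs => by
  obtain ⟨n, ⟨e⟩⟩ := hs.to_subtype.exists_equiv_fin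
  obtain ⟨z, hz, h2⟩ := h n fun i => (e.symm i).1
  exact h2 (e ⟨z, hz⟩) (by simp)

theorem ax_fib (x : N) (hx : ¬ P x) : {z | E x z}.Infinite := by
  refine infinite_of_avoid fun n y => ?_
  have := transfer (ι := Option (Fin n)) ((fP none).not.imp
      ((fE (Sum.inl none) (Sum.inr ()) ⊓
        Formula.iInf fun i : Fin n => (fQ (Sum.inr ()) (Sum.inl (some i))).not).iExs Unit))
    (fun v => by
      simp only [Formula.realize_imp, Formula.realize_not, Formula.realize_iExs,
        Formula.realize_inf, Formula.realize_iInf, realize_fE, realize_fP, realize_fQ,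
        R0.P_iff, R0.E_iff]
      intro h
      obtain ⟨z, h1, h2⟩ := (R0.fib _ ((z2 _).resolve_right h)).exists_notMem_finite
        (finite_range fun i => v (some i))
      exact ⟨fun _ => z, h1.symm, fun i e => h2 ⟨i, e.symm⟩⟩) N (fun o => o.elim x y)
  simp only [Formula.realize_imp, Formula.realize_not, Formula.realize_iExs,
    Formula.realize_inf, Formula.realize_iInf, realize_fE, realize_fP, realize_fQ] at this
  obtain ⟨w, h1, h2⟩ := this hx
  exact ⟨w (), h1, h2⟩

theorem Rep.P_infinite {N : Type} [L.Structure N] {U : Type} [AddCommGroup U] (R : Rep N U) :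
    {z : N | P z}.Infinite := by
  refine Infinite.of_image R.Φ ((R.big 1).mono fun u hu => ?_)
  obtain ⟨x, rfl⟩ := R.surj u
  exact ⟨x, (R.P_iff x).2 hu, rfl⟩

theorem ax_big : {z : N | P z}.Infinite := by
  refine infinite_of_avoid fun n y => ?_
  have := transfer (ι := Fin n)
      ((fP (Sum.inr ()) ⊓
        Formula.iInf fun i : Fin n => (fQ (Sum.inr ()) (Sum.inl i)).not).iExs Unit)
    (fun v => by
      simp only [Formula.realize_not, Formula.realize_iExs,
        Formula.realize_inf, Formula.realize_iInf, realize_fP, realize_fQ]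
      obtain ⟨z, h1, h2⟩ := R0.P_infinite.exists_notMem_finite (finite_range v)
      exact ⟨fun _ => z, h1, fun i e => h2 ⟨i, e.symm⟩⟩) N y
  simp only [Formula.realize_not, Formula.realize_iExs,
    Formula.realize_inf, Formula.realize_iInf, realize_fP, realize_fQ] at this
  obtain ⟨w, h1, h2⟩ := this
  exact ⟨w (), h1, h2⟩

def st : Setoid N where
  r := E
  iseqv := ⟨ax_refl N, fun {x y} h => ax_eucl N x y x h (ax_refl N x),
    fun {x y z} h1 h2 => ax_eucl N y x z (ax_eucl N x y x h1 (ax_refl N x)) h2⟩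

def UU : Type := Quotient (st N)

variable {N}
def mk (x : N) : UU N := Quotient.mk (st N) x

theorem mk_eq {x y : N} : mk x = mk y ↔ E x y := Quotient.eq (r := st N)

theorem mk_surj : Function.Surjective (mk : N → UU N) := Quotient.mk_surjective

noncomputable def ad (x y : N) : N := (ax_total N x y).choose

theorem ad_spec (x y : N) : S x y (ad x y) := (ax_total N x y).choose_spec

noncomputable instance : Add (UU N) :=
  ⟨Quotient.map₂ (sa := st N) (sb := st N) (sc := st N) ad fun x x' hx y y' hy =>
    (ax_congr N x y _ x' y' _ (ad_spec x y) hx hy).1 (ad_spec x' y')⟩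

noncomputable instance : Zero (UU N) := ⟨mk (ax_zero N).choose⟩
instance : Neg (UU N) := ⟨id⟩

theorem mk_add (x y : N) : mk x + mk y = mk (ad x y) := rfl

theorem S_iff_mk (x y z : N) : S x y z ↔ mk x + mk y = mk z := by
  rw [mk_add, mk_eq]
  exact ax_congr N x y _ x y z (ad_spec x y) (ax_refl N x) (ax_refl N y)

theorem uu_two (u : UU N) : u + u = 0 := by
  obtain ⟨x, rfl⟩ := mk_surj u
  exact (S_iff_mk _ _ _).1 ((ax_zero N).choose_spec x).2

noncomputable instance : AddGroup (UU N) :=
  AddGroup.ofLeftAxioms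
    (fun a b c => by
      obtain ⟨x, rfl⟩ := mk_surj a
      obtain ⟨y, rfl⟩ := mk_surj b
      obtain ⟨z, rfl⟩ := mk_surj c
      simp only [mk_add, mk_eq]
      exact ax_assoc N x y z _ _ _ _ (ad_spec _ _) (ad_spec _ _) (ad_spec _ _) (ad_spec _ _))
    (fun a => by
      obtain ⟨x, rfl⟩ := mk_surj a
      exact (S_iff_mk _ _ _).1 ((ax_zero N).choose_spec x).1)
    (fun a => uu_two a)

noncomputable instance : AddCommGroup (UU N) where
  add_comm := fun a b => by
    obtain ⟨x, rfl⟩ := mk_surj a
    obtain ⟨y, rfl⟩ := mk_surj b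
    exact ((S_iff_mk _ _ _).1 (ax_comm N _ _ _ (ad_spec x y))).symm

open Classical in
noncomputable def ep : UU N → ZMod 2 :=
  Quotient.lift (s := st N) (fun x => if P x then 1 else 0) fun x y h => by
    simp only [ax_PE N x y h]

open Classical in
theorem ep_mk (x : N) : ep (mk x) = if P x then 1 else 0 := rfl

theorem ep_one (x : N) : ep (mk x) = 1 ↔ P x := by
  rw [ep_mk]; split_ifs with h <;> simp [h]

noncomputable def epH : UU N →+ ZMod 2 :=
  AddMonoidHom.mk' ep fun a b => by
    obtain ⟨x, rfl⟩ := mk_surj a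
    obtain ⟨y, rfl⟩ := mk_surj b
    have := ax_eps N x y _ (ad_spec x y)
    rw [mk_add, ep_mk, ep_mk, ep_mk]
    by_cases hx : P x <;> by_cases hy : P y <;> simp [hx, hy] at this ⊢ <;> simp [this] <;> decide

variable (N)
noncomputable def RN : Rep N (UU N) where
  two := uu_two
  Φ := mk
  ε := epH
  hP := fun v => by
    refine Iff.trans ?_ (ep_one (v 0)).symm
    rw [P, iff_iff_eq]; congr 1; funext j; fin_cases j; rfl
  hE := fun v => by
    refine Iff.trans ?_ mk_eq.symm
    rw [E, iff_iff_eq]; congr 1; funext j; fin_cases j <;> rfl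
  hS := fun v => by
    refine Iff.trans ?_ (S_iff_mk _ _ _)
    rw [S, iff_iff_eq]; congr 1; funext j; fin_cases j <;> rfl
  inj := fun x y hx e => ax_inj N x y ((ep_one x).1 hx) (mk_eq.1 e)
  surj := mk_surj
  fib := fun u hu => by
    obtain ⟨x, rfl⟩ := mk_surj u
    have hx : ¬ P x := fun h => by
      have h1 : ep (mk x) = 0 := hu
      rw [(ep_one x).2 h] at h1
      exact absurd h1 (by decide)
    exact (ax_fib N x hx).mono fun z hz => (mk_eq.2 hz).symm
  big := by
    have h1 : {u : UU N | epH u = 1}.Infinite := by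
      refine ((ax_big N).image (f := mk) fun x hx y _ e => ax_inj N x y hx (mk_eq.1 e)).mono ?_
      rintro _ ⟨x, hx, rfl⟩
      exact (ep_one x).2 hx
    intro t
    rcases z2 t with rfl | rfl
    · obtain ⟨u0, hu0⟩ := h1.nonempty
      refine (h1.image (f := (· + u0)) (add_left_injective u0).injOn).mono ?_
      rintro _ ⟨u, hu, rfl⟩
      show epH (u + u0) = 0
      rw [map_add, show epH u = 1 from hu, show epH u0 = 1 from hu0]; decide
    · exact h1

end axs

end Pool.Agent.H83.Maz
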