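import Pool.Agent.H83.Maz2

namespace Pool.Agent.H83.Maz

open FirstOrder FirstOrder.Language Set

variable {N : Type} [L.Structure N] {U : Type} [AddCommGroup U]

/-- diagonal subgroup -/
def dg (H : AddSubgroup U) : AddSubgroup (U × U) :=
  H.map ((AddMonoidHom.id U).prod (AddMonoidHom.id U))

theorem mem_dg {H : AddSubgroup U} {g : U × U} : g ∈ dg H ↔ g.1 ∈ H ∧ g.2 = g.1 := by
  constructor
  · rintro ⟨u, hu, rfl⟩; exact ⟨hu, rfl⟩
  · rintro ⟨h1, h2⟩; exact ⟨g.1, h1, Prod.ext rfl h2.symm⟩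

theorem good_diag (R : Rep N U) {A : Set N} (hA : A.Finite) {H : AddSubgroup U}
    (hH : (H : Set U).Finite) (hAH : R.Φ '' A ⊆ H) :
    Good R R ((fun a => (a, a)) '' A) (dg H) where
  fin := hA.image _
  inj := by rintro _ ⟨a, _, rfl⟩ _ ⟨b, _, rfl⟩; rfl
  gr := ⟨hH.image _, fun g hg => by rw [(mem_dg.1 hg).2], fun g hg => by rw [(mem_dg.1 hg).2]⟩
  mem := by
    rintro _ ⟨a, ha, rfl⟩
    exact mem_dg.2 ⟨hAH ⟨a, ha, rfl⟩, rfl⟩

theorem same_of_good {R : Rep N U} {A : Set N} {c c' : N} {G : AddSubgroup (U × U)}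
    (h : Good R R (insert (c, c') ((fun a => (a, a)) '' A)) G) {D : Set N}
    (hD : A.Definable₁ L D) : c ∈ D ↔ c' ∈ D := by
  obtain ⟨φ, hφ⟩ := definable_iff_exists_formula_sum.1 hD
  have e : ∀ x : N, x ∈ D ↔ φ.Realize (Sum.elim (↑) ![x]) := fun x =>
    Set.ext_iff.1 hφ ![x]
  rw [e, e]
  refine h.formula φ _ _ ?_
  rintro (a | i)
  · exact Or.inr ⟨a, a.2, rfl⟩
  · fin_cases i; exact Or.inl rfl

theorem fin_def {A D : Set N} (hD : A.Definable₁ L D) :
    ∃ A0 : Set N, A0.Finite ∧ A0 ⊆ A ∧ A0.Definable₁ L D := by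
  obtain ⟨A0, h1, h2⟩ := definable_iff_finitely_definable.1 hD
  exact ⟨A0, A0.finite_toSet, h1, h2⟩

theorem same1 (R : Rep N U) {A D : Set N} (hD : A.Definable₁ L D) {c c' : N} (hc : c ∉ A)
    (hc' : c' ∉ A) (e : R.Φ c = R.Φ c') : c ∈ D ↔ c' ∈ D := by
  obtain ⟨A0, h0, h1, h2⟩ := fin_def hD
  have hg := good_diag R h0 (H := AddSubgroup.closure (insert (R.Φ c) (R.Φ '' A0)))
    (closure_finite R.two ((h0.image _).insert _))
    (fun u hu => AddSubgroup.subset_closure (Or.inr hu))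
  refine same_of_good (hg.ext1 ?_ ?_ ?_) h2
  · rintro _ ⟨a, ha, rfl⟩ rfl; exact hc (h1 ha)
  · rintro _ ⟨a, ha, rfl⟩ rfl; exact hc' (h1 ha)
  · exact mem_dg.2 ⟨AddSubgroup.subset_closure (Or.inl rfl), e.symm⟩

theorem same2 (R : Rep N U) {A D : Set N} (hD : A.Definable₁ L D) {c c' : N}
    (hc : R.Φ c ∉ AddSubgroup.closure (R.Φ '' A)) (hc' : R.Φ c' ∉ AddSubgroup.closure (R.Φ '' A))
    (e : R.ε (R.Φ c) = R.ε (R.Φ c')) : c ∈ D ↔ c' ∈ D := by
  obtain ⟨A0, h0, h1, h2⟩ := fin_def hD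
  have hle : AddSubgroup.closure (R.Φ '' A0) ≤ AddSubgroup.closure (R.Φ '' A) :=
    AddSubgroup.closure_mono (image_mono h1)
  have hg := good_diag R h0 (H := AddSubgroup.closure (R.Φ '' A0))
    (closure_finite R.two (h0.image _)) AddSubgroup.subset_closure
  refine same_of_good (hg.ext2 ?_ ?_ e) h2
  · intro g hg e; exact hc (e ▸ hle (mem_dg.1 hg).1)
  · intro g hg e; exact hc' (e ▸ (mem_dg.1 hg).2 ▸ hle (mem_dg.1 hg).1)

theorem P_in_finite (R : Rep N U) {H : Set U} (hH : H.Finite) :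
    {x : N | P x ∧ R.Φ x ∈ H}.Finite := by
  refine Finite.of_finite_image (f := R.Φ) (hH.subset ?_) ?_
  · rintro _ ⟨x, hx, rfl⟩; exact hx.2
  · intro x hx y _ e; exact R.inj x y ((R.P_iff x).1 hx.1) e

/-- a definable set containing a generic point of `P` is cofinite in `P` -/
theorem cofinite_of_generic (R : Rep N U) {A D : Set N} (hA : A.Finite)
    (hD : A.Definable₁ L D) {c : N} (hP : P c)
    (hc : R.Φ c ∉ AddSubgroup.closure (R.Φ '' A)) (hcD : c ∈ D) :
    ({x | P x} \ D).Finite := by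
  refine (P_in_finite R (closure_finite R.two (hA.image R.Φ))).subset fun x hx => ⟨hx.1, ?_⟩
  by_contra hx2
  exact hx.2 ((same2 R hD hc hx2 (by rw [(R.P_iff _).1 hP, (R.P_iff _).1 hx.1])).1 hcD)

theorem infinite_of_generic (R : Rep N U) {A D : Set N} (hA : A.Finite)
    (hD : A.Definable₁ L D) {c : N} (hP : P c)
    (hc : R.Φ c ∉ AddSubgroup.closure (R.Φ '' A)) (hcD : c ∈ D) : D.Infinite := fun hf =>
  R.P_infinite (((cofinite_of_generic R hA hD hP hc hcD).union hf).subset fun x hx => by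
    by_cases h : x ∈ D
    · exact Or.inr h
    · exact Or.inl ⟨hx, h⟩)

theorem minimal (R : Rep N U) {D : Set N} (hD : (univ : Set N).Definable₁ L D) :
    ({x | P x} ∩ D).Finite ∨ ({x | P x} \ D).Finite := by
  obtain ⟨A0, h0, -, h2⟩ := fin_def hD
  by_cases h : ∃ c ∈ D, P c ∧ R.Φ c ∉ AddSubgroup.closure (R.Φ '' A0)
  · obtain ⟨c, h1, h3, h4⟩ := h
    exact Or.inr (cofinite_of_generic R h0 h2 h3 h4 h1)
  · push Not at h
    exact Or.inl ((P_in_finite R (closure_finite R.two (h0.image R.Φ))).subset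
      fun x hx => ⟨hx.1, h x hx.2 hx.1⟩)

theorem stable (R : Rep N U) {A : Set N} (hA : A.Countable) {X : Type} (τ : N → X)
    (hτ : ∀ c c', (∀ D, A.Definable₁ L D → (c ∈ D ↔ c' ∈ D)) → τ c = τ c') :
    (range τ).Countable := by
  have hH := closure_countable R.two (hA.image R.Φ)
  have key : ∀ {Y : Type} (B : Set N) (κ : N → Y), (κ '' B).Countable →
      (∀ c ∈ B, ∀ c' ∈ B, κ c = κ c' → τ c = τ c') → (τ '' B).Countable := by
    intro Y B κ h1 h2
    refine (h1.biUnion (t := fun y _ => τ '' {c ∈ B | κ c = y}) fun y _ => ?_).mono ?_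
    · refine Set.Subsingleton.countable ?_
      rintro _ ⟨c, hc, rfl⟩ _ ⟨c', hc', rfl⟩
      exact h2 c hc.1 c' hc'.1 (hc.2.trans hc'.2.symm)
    · rintro _ ⟨c, hc, rfl⟩
      simp only [mem_iUnion]
      exact ⟨κ c, ⟨c, hc, rfl⟩, c, ⟨hc, rfl⟩, rfl⟩
  have h1 := hA.image τ
  have h2 := key {c | c ∉ A ∧ R.Φ c ∈ AddSubgroup.closure (R.Φ '' A)} R.Φ
    (hH.mono (by rintro _ ⟨c, hc, rfl⟩; exact hc.2))
    fun c hc c' hc' e => hτ c c' fun D hD => same1 R hD hc.1 hc'.1 e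
  have h3 := key {c | R.Φ c ∉ AddSubgroup.closure (R.Φ '' A)} (fun c => R.ε (R.Φ c))
    (to_countable _) fun c hc c' hc' e => hτ c c' fun D hD => same2 R hD hc hc' e
  refine ((h1.union h2).union h3).mono ?_
  rintro _ ⟨c, rfl⟩
  by_cases a1 : c ∈ A
  · exact Or.inl (Or.inl ⟨c, a1, rfl⟩)
  by_cases a2 : R.Φ c ∈ AddSubgroup.closure (R.Φ '' A)
  · exact Or.inl (Or.inr ⟨c, ⟨a1, a2⟩, rfl⟩)
  · exact Or.inr ⟨c, a2, rfl⟩

theorem eps_closure (R : Rep N U) {A : Set N} (hA : ∀ a ∈ A, R.ε (R.Φ a) = 0) {u : U}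
    (hu : u ∈ AddSubgroup.closure (R.Φ '' A)) : R.ε u = 0 := by
  have : AddSubgroup.closure (R.Φ '' A) ≤ R.ε.ker := by
    rw [AddSubgroup.closure_le]; rintro _ ⟨a, ha, rfl⟩; exact hA a ha
  exact this hu

theorem closed (R : Rep N U) {A D : Set N} (hf : A.Finite) (hA : ∀ a ∈ A, R.ε (R.Φ a) = 0)
    (hD : A.Definable₁ L D) (hDf : D.Finite) : D ⊆ A := by
  intro c hcD
  by_contra hc
  rcases z2 (R.ε (R.Φ c)) with e | e
  · refine (R.fib _ e).diff hf (hDf.subset fun x hx => ?_)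
    exact (same1 R hD hc hx.2 hx.1.symm).1 hcD
  · refine infinite_of_generic R hf hD ((R.P_iff c).2 e) (fun h => ?_) hcD hDf
    rw [eps_closure R hA h] at e
    exact absurd e (by decide)

theorem fibre_definable (R : Rep N U) {B : Set N} {u : U}
    (hu : u ∈ AddSubgroup.closure (R.Φ '' B)) : B.Definable₁ L {x | R.Φ x = u} := by
  have main : ∃ φ : L.Formula (B ⊕ Fin 1), ∀ v : Fin 1 → N,
      φ.Realize (Sum.elim (↑) v) ↔ R.Φ (v 0) = u := by
    induction hu using AddSubgroup.closure_induction with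
    | mem y hy =>
      obtain ⟨a, ha, rfl⟩ := hy
      exact ⟨fE (Sum.inr 0) (Sum.inl ⟨a, ha⟩), fun v => by simp [R.E_iff]⟩
    | zero => exact ⟨fS (Sum.inr 0) (Sum.inr 0) (Sum.inr 0), fun v => by simp [R.S_iff]⟩
    | add y z _ _ hy hz =>
      obtain ⟨φ, hφ⟩ := hy
      obtain ⟨ψ, hψ⟩ := hz
      let g : Bool → B ⊕ Fin 1 → (B ⊕ Fin 1) ⊕ Bool := fun t =>
        Sum.elim (fun a => Sum.inl (Sum.inl a)) fun _ => Sum.inr t
      have hg : ∀ (t : Bool) (v : Fin 1 → N) (w : Bool → N),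
          (Sum.elim (Sum.elim ((↑) : B → N) v) w) ∘ g t = Sum.elim (↑) ![w t] := by
        intro t v w; funext i
        rcases i with a | i
        · rfl
        · fin_cases i; rfl
      refine ⟨((φ.relabel (g true) ⊓ ψ.relabel (g false)) ⊓
        fS (Sum.inr true) (Sum.inr false) (Sum.inl (Sum.inr 0))).iExs Bool, fun v => ?_⟩
      simp only [Formula.realize_iExs, Formula.realize_inf, Formula.realize_relabel, hg, hφ, hψ,
        realize_fS, R.S_iff, Sum.elim_inr, Sum.elim_inl]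
      constructor
      · rintro ⟨w, ⟨h1, h2⟩, h3⟩
        rw [← h3, ← h1, ← h2]; rfl
      · intro h
        obtain ⟨a, ha⟩ := R.surj y
        obtain ⟨b, hb⟩ := R.surj z
        exact ⟨fun t => bif t then a else b, ⟨ha, hb⟩, by simp [ha, hb, h]⟩
    | neg y _ hy => rwa [neg_eq_of_add_eq_zero_left (R.two y)]
  obtain ⟨φ, hφ⟩ := main
  exact definable_iff_exists_formula_sum.2 ⟨φ, Set.ext fun v => (hφ v).symm⟩

theorem indep (R : Rep N U) (n : ℕ) : ∃ (A : Set N) (u : U), A.Finite ∧ A.encard = n ∧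
    (∀ a ∈ A, R.ε (R.Φ a) = 0) ∧ u ∈ AddSubgroup.closure (R.Φ '' A) ∧
    ∀ A' ⊆ A, u ∈ AddSubgroup.closure (R.Φ '' A') → A' = A := by
  induction n with
  | zero => exact ⟨∅, 0, finite_empty, by simp, by simp, zero_mem _,
      fun A' h _ => subset_empty_iff.1 h⟩
  | succ n ih =>
    obtain ⟨A, u, hf, hc, h0, hu, hm⟩ := ih
    obtain ⟨w, hw0, hw⟩ := (R.big 0).exists_notMem_finite (closure_finite R.two (hf.image R.Φ))
    obtain ⟨a, rfl⟩ := R.surj w
    have ha : a ∉ A := fun h => hw (AddSubgroup.subset_closure ⟨a, h, rfl⟩)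
    refine ⟨insert a A, u + R.Φ a, hf.insert a, by rw [encard_insert_of_notMem ha, hc]; simp,
      ?_, ?_, fun A' hA' h => ?_⟩
    · rintro x (rfl | hx)
      · exact hw0
      · exact h0 x hx
    · rw [image_insert_eq, mem_closure_insert R.two]
      exact ⟨u, hu, Or.inr rfl⟩
    · have hsub : A' \ {a} ⊆ A := fun x hx => (hA' hx.1).resolve_left hx.2
      have hle : AddSubgroup.closure (R.Φ '' (A' \ {a})) ≤ AddSubgroup.closure (R.Φ '' A) :=
        AddSubgroup.closure_mono (image_mono hsub)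
      have bad : u + R.Φ a ∉ AddSubgroup.closure (R.Φ '' (A' \ {a})) := fun h' =>
        hw (by simpa using sub_mem (hle h') hu)
      by_cases haA : a ∈ A'
      · have e : A' = insert a (A' \ {a}) := by simp [haA]
        rw [e, image_insert_eq, mem_closure_insert R.two] at h
        obtain ⟨k, hk, h | h⟩ := h
        · exact (bad (h ▸ hk)).elim
        · rw [e, hm _ hsub (by rw [add_right_cancel h]; exact hk)]
      · exact (bad (by rwa [diff_singleton_eq_self haA])).elim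

theorem counter (R : Rep N U) (n : ℕ) : ∃ (c b : N) (A : Set N), P c ∧ A.Finite ∧
    (∀ D, A.Definable₁ L D → D.Finite → D ⊆ A) ∧
    (∃ D, (insert b A).Definable₁ L D ∧ D.Finite ∧ c ∈ D) ∧
    ∀ A' ⊆ A, A'.encard ≤ n → ∀ D, (insert b A').Definable₁ L D → D.Finite → c ∉ D := by
  obtain ⟨A, u, hf, hc, h0, hu, hm⟩ := indep R (n + 1)
  obtain ⟨b, hb⟩ := R.P_infinite.nonempty
  have hb1 := (R.P_iff b).1 hb
  obtain ⟨c, hcu⟩ := R.surj (u + R.Φ b)
  have hc1 : R.ε (R.Φ c) = 1 := by rw [hcu, map_add, eps_closure R h0 hu, hb1, zero_add]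
  refine ⟨c, b, A, (R.P_iff c).2 hc1, hf, fun D hD hDf => closed R hf h0 hD hDf,
    ⟨{x | R.Φ x = R.Φ c}, fibre_definable R ?_, ?_, rfl⟩, fun A' hA' hn D hD hDf hcD => ?_⟩
  · rw [image_insert_eq, mem_closure_insert R.two]
    exact ⟨u, hu, Or.inr hcu⟩
  · exact (finite_singleton c).subset fun x hx => (R.inj c x hc1 hx.symm).symm
  · refine infinite_of_generic R ((hf.subset hA').insert b) hD ((R.P_iff c).2 hc1)
      (fun h => ?_) hcD hDf
    rw [image_insert_eq, mem_closure_insert R.two] at h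
    obtain ⟨k, hk, h | h⟩ := h
    · rw [h, eps_closure R (fun a ha => h0 a (hA' ha)) hk] at hc1
      exact absurd hc1 (by decide)
    · rw [hcu] at h
      rw [hm A' hA' (by rw [add_right_cancel h]; exact hk), hc] at hn
      have : n + 1 ≤ n := by exact_mod_cast hn
      omega

theorem L_card : L.card ≤ Cardinal.aleph0 := by
  have : Countable L.Symbols := by
    have h1 : ∀ n, Countable (Rel n) := fun n => by
      have : Subsingleton (Rel n) := ⟨fun a b => by cases a <;> cases b <;> rfl⟩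
      infer_instance
    have h2 : Countable (Σ l, L.Functions l) := inferInstanceAs (Countable (Σ _ : ℕ, Empty))
    have h3 : Countable (Σ l, L.Relations l) := inferInstanceAs (Countable (Σ l : ℕ, Rel l))
    exact inferInstanceAs (Countable ((Σ l, L.Functions l) ⊕ (Σ l, L.Relations l)))
  exact Cardinal.mk_le_aleph0

end Pool.Agent.H83.Maz
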