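import Pool.Agent.H83.NbhdTop

set_option autoImplicit false

namespace Pool.Agent.H83.Moore

open Set Filter Topology PiNat

/-- the points of the space -/
inductive X : Type
  | p : X
  | pt (n : ℕ) (σ : List (List ℕ)) (y : ℕ → ℕ) : X
  | nd (n : ℕ) (σ : List (List ℕ)) (t : List ℕ) : X

open X

/-- code of a finite sequence -/
def cd (y : ℕ → ℕ) (j : ℕ) : ℕ := Encodable.encode (res y j)

theorem cd_inj {y y' : ℕ → ℕ} {j j' : ℕ} (h : cd y j = cd y' j') : res y j = res y' j' :=
  Encodable.encode_injective h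

theorem cd_inj' (y : ℕ → ℕ) : Function.Injective (cd y) := fun j j' h => by
  simpa using congrArg List.length (cd_inj h)

/-- basic neighbourhoods -/
def U : X → ℕ → Set X
  | p, m => {z | z = p ∨ (∃ n σ y, z = pt n σ y ∧ σ.length + m < n) ∨
      ∃ n σ t, z = nd n σ t ∧ σ.length + m < n}
  | pt n σ y, m => {z | z = pt n σ y ∨ (∃ j, m ≤ j ∧ z = nd n σ (res y j)) ∨
      ∃ j s σ', m ≤ j ∧ σ = s :: σ' ∧ z = nd n σ' (cd y j :: s)}
  | nd n σ t, _ => {nd n σ t}

theorem U_anti (x : X) : Antitone (U x) := by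
  intro a b hab
  cases x with
  | p =>
    rintro z (h | ⟨n, σ, y, h1, h2⟩ | ⟨n, σ, y, h1, h2⟩)
    · exact Or.inl h
    · exact Or.inr (Or.inl ⟨n, σ, y, h1, by omega⟩)
    · exact Or.inr (Or.inr ⟨n, σ, y, h1, by omega⟩)
  | pt n σ y =>
    rintro z (h | ⟨j, h1, h2⟩ | ⟨j, s, σ', h1, h2⟩)
    · exact Or.inl h
    · exact Or.inr (Or.inl ⟨j, hab.trans h1, h2⟩)
    · exact Or.inr (Or.inr ⟨j, s, σ', hab.trans h1, h2⟩)
  | nd n σ t => exact Subset.rfl

instance : TopologicalSpace X := NbhdTop.top U U_anti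

theorem mem_U (x : X) (m : ℕ) : x ∈ U x m := by
  cases x with
  | p => exact Or.inl rfl
  | pt n σ y => exact Or.inl rfl
  | nd n σ t => rfl

theorem isOpen_U (x : X) (m : ℕ) : IsOpen (U x m) := by
  cases x with
  | p =>
    rintro z (rfl | ⟨n, σ, y, rfl, h2⟩ | ⟨n, σ, y, rfl, h2⟩)
    · exact ⟨m, Subset.rfl⟩
    · refine ⟨0, ?_⟩
      rintro z (rfl | ⟨j, -, rfl⟩ | ⟨j, s, σ', -, rfl, rfl⟩)
      · exact Or.inr (Or.inl ⟨n, σ, y, rfl, h2⟩)
      · exact Or.inr (Or.inr ⟨n, σ, _, rfl, h2⟩)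
      · exact Or.inr (Or.inr ⟨n, σ', _, rfl, by simp at h2; omega⟩)
    · exact ⟨0, singleton_subset_iff.2 (Or.inr (Or.inr ⟨n, σ, y, rfl, h2⟩))⟩
  | pt n σ y =>
    rintro z (rfl | ⟨j, h1, rfl⟩ | ⟨j, s, σ', h1, h2, rfl⟩)
    · exact ⟨m, Subset.rfl⟩
    · exact ⟨0, singleton_subset_iff.2 (Or.inr (Or.inl ⟨j, h1, rfl⟩))⟩
    · exact ⟨0, singleton_subset_iff.2 (Or.inr (Or.inr ⟨j, s, σ', h1, h2, rfl⟩))⟩
  | nd n σ t =>
    rintro z rfl
    exact ⟨0, Subset.rfl⟩

theorem basis (x : X) : (𝓝 x).HasBasis (fun _ : ℕ => True) (U x) :=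
  NbhdTop.basis U U_anti mem_U isOpen_U x

theorem tendsto1 (n : ℕ) (σ : List (List ℕ)) (y : ℕ → ℕ) :
    Tendsto (fun j => nd n σ (res y j)) atTop (𝓝 (pt n σ y)) :=
  (basis _).tendsto_right_iff.2 fun m _ =>
    (eventually_ge_atTop m).mono fun j hj => Or.inr (Or.inl ⟨j, hj, rfl⟩)

theorem tendsto2 (n : ℕ) (s : List ℕ) (σ : List (List ℕ)) (y : ℕ → ℕ) :
    Tendsto (fun j => nd n σ (cd y j :: s)) atTop (𝓝 (pt n (s :: σ) y)) :=
  (basis _).tendsto_right_iff.2 fun m _ =>
    (eventually_ge_atTop m).mono fun j hj => Or.inr (Or.inr ⟨j, s, σ, hj, rfl, rfl⟩)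

theorem development (x : X) (O : Set X) (hO : IsOpen O) (hx : x ∈ O) :
    ∃ n : ℕ, ⋃₀ {W ∈ range (fun x => U x n) | x ∈ W} ⊆ O := by
  obtain ⟨m, hm⟩ := hO x hx
  have key : ∃ k, ∀ z, x ∈ U z k → z = x := by
    cases x with
    | p =>
      refine ⟨0, fun z hz => ?_⟩
      cases z with
      | p => rfl
      | pt n σ y => simp [U] at hz
      | nd n σ t => simp [U] at hz
    | pt n σ y =>
      refine ⟨n, fun z hz => ?_⟩
      cases z with
      | p =>
        rcases hz with h | ⟨n', σ', y', h, h'⟩ | ⟨n', σ', y', h, h'⟩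
        · cases h
        · cases h; omega
        · cases h
      | pt n' σ' y' =>
        rcases hz with h | ⟨j, -, h⟩ | ⟨j, s, σ'', -, -, h⟩
        · exact h.symm
        · cases h
        · cases h
      | nd n σ t => simp [U] at hz
    | nd n σ t =>
      refine ⟨n + t.length + ((Encodable.decode (α := List ℕ) t.headI).getD []).length + 1,
        fun z hz => ?_⟩
      cases z with
      | p =>
        rcases hz with h | ⟨n', σ', y', h, h'⟩ | ⟨n', σ', y', h, h'⟩
        · cases h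
        · cases h
        · cases h; omega
      | pt n' σ' y' =>
        rcases hz with h | ⟨j, hj, h⟩ | ⟨j, s, σ'', hj, -, h⟩
        · cases h
        · cases h; simp at hj; omega
        · cases h; simp [cd] at hj
      | nd n σ t => exact (mem_singleton_iff.1 hz).symm
  obtain ⟨k, hk⟩ := key
  refine ⟨max m k, ?_⟩
  rintro z ⟨_, ⟨⟨w, rfl⟩, hw⟩, hz⟩
  have := hk w (U_anti w (le_max_right m k) hw)
  subst this
  exact hm (U_anti w (le_max_left m k) hz)

theorem step (f : X → ℝ) (hf : Continuous f) (c : ℝ) (n : ℕ) (σ : List (List ℕ))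
    (h : ∀ y, f (pt n σ y) < c) : ∃ s, ∀ y, f (pt n (s :: σ) y) ≤ c := by
  obtain ⟨s, hs⟩ := NbhdTop.baire_tree (fun t => f (nd n σ t) < c) (fun y => by
    have := ((hf.tendsto _).comp (tendsto1 n σ y)).eventually (gt_mem_nhds (h y))
    exact eventually_atTop.1 this)
  exact ⟨s, fun y => le_of_tendsto' ((hf.tendsto _).comp (tendsto2 n s σ y))
    fun j => (hs _ (List.suffix_cons _ _)).le⟩

theorem not_cr : ¬ CompletelyRegularSpace X := by
  intro h
  obtain ⟨f, hf, h0, h1⟩ := h.completely_regular p (U p 0)ᶜ (isOpen_U p 0).isClosed_compl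
    (not_not.2 (mem_U p 0))
  have hg : Continuous fun x => (f x : ℝ) := continuous_subtype_val.comp hf
  have key : ∀ (k n : ℕ) (σ : List (List ℕ)) (c : ℝ), c < 1 → σ.length + k = n →
      (∀ y, (f (pt n σ y) : ℝ) < c) → False := by
    intro k
    induction k with
    | zero =>
      intro n σ c hc hn hy
      have : pt n σ default ∈ (U p 0)ᶜ := by
        rintro (h | ⟨n', σ', y', h, h'⟩ | ⟨n', σ', y', h, h'⟩)
        · cases h
        · cases h; omega
        · cases h
      have h2 := hy default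
      rw [h1 this] at h2
      simp only [Pi.one_apply, Icc.coe_one] at h2
      linarith
    | succ k ih =>
      intro n σ c hc hn hy
      obtain ⟨s, hs⟩ := step _ hg c n σ hy
      exact ih n (s :: σ) ((c + 1) / 2) (by linarith) (by simp; omega)
        fun y => (hs y).trans_lt (by linarith)
  have h2 : ∀ᶠ x in 𝓝 p, (f x : ℝ) < 1 / 2 :=
    (hg.tendsto p).eventually (gt_mem_nhds (by rw [h0]; norm_num))
  obtain ⟨m, -, hm⟩ := (basis p).eventually_iff.1 h2
  exact key (m + 1) (m + 1) [] (1 / 2) (by norm_num) (by simp)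
    fun y => hm (Or.inr (Or.inl ⟨_, _, _, rfl, by simp⟩))

/-- value on a copy -/
noncomputable def hh (m n : ℕ) : List (List ℕ) → ℝ
  | [] => if m < n then 0 else 1
  | s :: σ => if σ.length + m + 1 = n then 1 / (s.length + 2 : ℝ) else hh m n σ

theorem hh_zero {m n : ℕ} : ∀ {σ : List (List ℕ)}, σ.length + m < n → hh m n σ = 0
  | [], h => by simp at h; simp [hh, h]
  | s :: σ, h => by
    simp only [List.length_cons] at h
    rw [hh, if_neg (by omega), hh_zero (by omega)]

theorem hh_pos {m n : ℕ} : ∀ {σ : List (List ℕ)}, n ≤ σ.length + m → hh m n σ ≠ 0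
  | [], h => by simp at h; simp [hh, h]
  | s :: σ, h => by
    simp only [List.length_cons] at h
    rw [hh]
    split_ifs with h'
    · positivity
    · exact hh_pos (by omega)

/-- separating functions at `p` -/
noncomputable def g (m : ℕ) : X → ℝ
  | p => 0
  | pt n σ _ => hh m n σ
  | nd n σ t => if σ.length + m + 1 = n then 1 / (t.length + 1 : ℝ) else hh m n σ

theorem g_zero {m : ℕ} {z : X} (h : z ∈ U p (m + 1)) : g m z = 0 := by
  rcases h with rfl | ⟨n, σ, y, rfl, h2⟩ | ⟨n, σ, y, rfl, h2⟩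
  · rfl
  · exact hh_zero (by omega)
  · rw [g, if_neg (by omega), hh_zero (by omega)]

theorem of_g_zero {m : ℕ} {z : X} (h : g m z = 0) : z ∈ U p m := by
  cases z with
  | p => exact Or.inl rfl
  | pt n σ y =>
    refine Or.inr (Or.inl ⟨n, σ, y, rfl, ?_⟩)
    by_contra h'
    exact hh_pos (by omega) h
  | nd n σ t =>
    refine Or.inr (Or.inr ⟨n, σ, t, rfl, ?_⟩)
    by_contra h'
    rw [g, if_neg (by omega)] at h
    exact hh_pos (by omega) h

theorem cont_of {Y : Type*} [TopologicalSpace Y] (f : X → Y) (h0 : ∃ m, ∀ z ∈ U p m, f z = f p)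
    (h1 : ∀ n σ y, Tendsto (fun j => f (nd n σ (res y j))) atTop (𝓝 (f (pt n σ y))))
    (h2 : ∀ n s σ y, Tendsto (fun j => f (nd n σ (cd y j :: s))) atTop
      (𝓝 (f (pt n (s :: σ) y)))) : Continuous f := by
  rw [continuous_iff_continuousAt]
  intro x W hW
  refine (basis x).mem_iff.2 ?_
  have hx := mem_of_mem_nhds hW
  cases x with
  | p =>
    obtain ⟨m, hm⟩ := h0
    exact ⟨m, trivial, fun z hz => by rw [mem_preimage, hm z hz]; exact hx⟩
  | nd n σ t => exact ⟨0, trivial, singleton_subset_iff.2 hx⟩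
  | pt n σ y =>
    obtain ⟨a, ha⟩ := eventually_atTop.1 ((h1 n σ y).eventually hW)
    cases σ with
    | nil =>
      refine ⟨a, trivial, ?_⟩
      rintro z (rfl | ⟨j, hj, rfl⟩ | ⟨j, s, σ', -, h, -⟩)
      · exact hx
      · exact ha j hj
      · cases h
    | cons s σ =>
      obtain ⟨b, hb⟩ := eventually_atTop.1 ((h2 n s σ y).eventually hW)
      refine ⟨max a b, trivial, ?_⟩
      rintro z (rfl | ⟨j, hj, rfl⟩ | ⟨j, s, σ', hj, h, rfl⟩)
      · exact hx
      · exact ha j (le_of_max_le_left hj)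
      · cases h; exact hb j (le_of_max_le_right hj)

theorem g_cont (m : ℕ) : Continuous (g m) := by
  refine cont_of _ ⟨m + 1, fun z hz => g_zero hz⟩ (fun n σ y => ?_) (fun n s σ y => ?_)
  · simp only [g, res_length]
    split_ifs with h
    · rw [hh_zero (by omega)]; exact tendsto_one_div_add_atTop_nhds_zero_nat
    · exact tendsto_const_nhds
  · simp only [g, hh, List.length_cons]
    split_ifs with h
    · push_cast
      rw [add_assoc, one_add_one_eq_two]; exact tendsto_const_nhds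
    · exact tendsto_const_nhds

/-- clopen sets separating the points of the copies -/
def E (n0 : ℕ) (σ0 : List (List ℕ)) (u : List ℕ) : X → Prop
  | p => False
  | pt n σ y => n = n0 ∧ ((σ = σ0 ∧ res y u.length = u) ∨ ∃ s, u <:+ s ∧ (s :: σ0) <:+ σ)
  | nd n σ t => n = n0 ∧ ((σ = σ0 ∧ u <:+ t) ∨ (∃ s, u <:+ s ∧ (s :: σ0) <:+ σ) ∨
      ∃ s v, σ0 = s :: σ ∧ t = Encodable.encode v :: s ∧ u <:+ v)

open Classical in
theorem cont_ind (P : X → Prop) (h0 : ∃ m, ∀ z ∈ U p m, (P z ↔ P p))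
    (h1 : ∀ n σ y, ∀ᶠ j in atTop, (P (nd n σ (res y j)) ↔ P (pt n σ y)))
    (h2 : ∀ n s σ y, ∀ᶠ j in atTop, (P (nd n σ (cd y j :: s)) ↔ P (pt n (s :: σ) y))) :
    Continuous fun z => if P z then (1 : ℝ) else 0 := by
  refine cont_of _ (h0.imp fun m hm z hz => by simp only [hm z hz]) (fun n σ y => ?_)
    (fun n s σ y => ?_)
  · exact tendsto_const_nhds.congr' ((h1 n σ y).mono fun j hj => by simp only [hj])
  · exact tendsto_const_nhds.congr' ((h2 n s σ y).mono fun j hj => by simp only [hj])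

theorem ev_ne (y : ℕ → ℕ) (s u : List ℕ) : ∀ᶠ j in atTop, cd y j :: s ≠ u := by
  have := (cd_inj' y).tendsto_cofinite.eventually (finite_singleton u.headI).compl_mem_cofinite
  rw [Nat.cofinite_eq_atTop] at this
  filter_upwards [this] with j hj h
  exact hj (by rw [← h]; rfl)

open Classical in
theorem E_cont (n0 : ℕ) (σ0 : List (List ℕ)) (u : List ℕ) :
    Continuous fun z => if E n0 σ0 u z then (1 : ℝ) else 0 := by
  refine cont_ind _ ⟨n0, ?_⟩ (fun n σ y => ?_) (fun n s σ y => ?_)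
  · rintro z (rfl | ⟨n, σ, y, rfl, h2⟩ | ⟨n, σ, y, rfl, h2⟩)
    · rfl
    · simp only [E, iff_false, not_and]; intro h; omega
    · simp only [E, iff_false, not_and]; intro h; omega
  · filter_upwards [eventually_ge_atTop u.length, eventually_ge_atTop (σ0.headI.length + 2)]
      with j h1 h2
    simp only [E, NbhdTop.suffix_res_iff y h1]
    refine and_congr_right fun _ => or_congr_right (or_iff_left ?_)
    rintro ⟨s, v, rfl, h, -⟩
    have := congrArg List.length h
    simp at this h2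
    omega
  · filter_upwards [eventually_ge_atTop u.length, ev_ne y s u] with j h1 h2
    simp only [E, List.suffix_cons_iff, ← NbhdTop.suffix_res_iff y h1]
    refine and_congr_right fun _ => ⟨?_, ?_⟩
    · rintro (⟨rfl, h | h⟩ | ⟨s', h, h'⟩ | ⟨s', v, rfl, h, h'⟩)
      · exact absurd h.symm h2
      · exact Or.inr ⟨s, h, Or.inl rfl⟩
      · exact Or.inr ⟨s', h, Or.inr h'⟩
      · obtain ⟨e1, rfl⟩ := List.cons.inj h
        rw [← Encodable.encode_injective e1] at h'
        exact Or.inl ⟨rfl, h'⟩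
    · rintro (⟨rfl, h⟩ | ⟨s', h, h' | h'⟩)
      · exact Or.inr (Or.inr ⟨s, res y j, rfl, rfl, h⟩)
      · obtain ⟨rfl, rfl⟩ := List.cons.inj h'
        exact Or.inl ⟨rfl, Or.inr h⟩
      · exact Or.inr (Or.inl ⟨s', h, h'⟩)

open Classical in
theorem N_cont (n0 : ℕ) (σ0 : List (List ℕ)) (u : List ℕ) :
    Continuous fun z => if z = nd n0 σ0 u then (1 : ℝ) else 0 := by
  refine cont_ind _ ⟨n0, ?_⟩ (fun n σ y => ?_) (fun n s σ y => ?_)
  · rintro z (rfl | ⟨n, σ, y, rfl, h2⟩ | ⟨n, σ, y, rfl, h2⟩)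
    · rfl
    · simp
    · simp only [reduceCtorEq, iff_false]; intro h; cases h; omega
  · filter_upwards [eventually_gt_atTop u.length] with j h1
    simp only [reduceCtorEq, iff_false]; intro h; cases h; simp at h1
  · filter_upwards [ev_ne y s u] with j h1
    simp only [reduceCtorEq, iff_false]; intro h; cases h; exact h1 rfl

/-- index set of the separating functions -/
abbrev ι : Type := ℕ ⊕ Bool × ℕ × List (List ℕ) × List ℕ

open Classical in
/-- the map to a metrizable space -/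
noncomputable def Φ (z : X) : ι → ℝ
  | Sum.inl m => g m z
  | Sum.inr (true, n, σ, u) => if E n σ u z then 1 else 0
  | Sum.inr (false, n, σ, u) => if z = nd n σ u then 1 else 0

theorem Φ_cont : Continuous Φ := by
  refine continuous_pi fun i => ?_
  rcases i with m | ⟨_ | _, n, σ, u⟩
  · exact g_cont m
  · exact N_cont n σ u
  · exact E_cont n σ u

theorem Φ_pt {n n' : ℕ} {σ σ' : List (List ℕ)} {y y' : ℕ → ℕ} (hl : σ'.length ≤ σ.length)
    (h : Φ (pt n σ y) = Φ (pt n' σ' y')) : pt n σ y = pt n' σ' y' := by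
  have key : ∀ m, n' = n ∧ σ' = σ ∧ res y' m = res y m := by
    intro m
    have h1 := congrFun h (Sum.inr (true, n, σ, res y m))
    have h2 : E n σ (res y m) (pt n σ y) := ⟨rfl, Or.inl ⟨rfl, by simp⟩⟩
    simp only [Φ, if_pos h2] at h1
    have h3 : E n σ (res y m) (pt n' σ' y') := by
      by_contra h3
      simp [h3] at h1
    obtain ⟨e, ⟨e1, e2⟩ | ⟨s, -, hs⟩⟩ := h3
    · exact ⟨e, e1, by simpa using e2⟩
    · have := hs.length_le
      simp at this
      omega
  obtain ⟨rfl, rfl, -⟩ := key 0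
  rw [res_injective (funext fun m => (key m).2.2)]

theorem Φ_inj : Function.Injective Φ := by
  have hp : ∀ z, Φ p = Φ z → p = z := by
    intro z h
    have key : ∀ m, z ∈ U p m := fun m => of_g_zero (congrFun h (Sum.inl m)).symm
    cases z with
    | p => rfl
    | pt n σ y =>
      rcases key n with h | ⟨n', σ', y', h, h'⟩ | ⟨n', σ', y', h, h'⟩
      · cases h
      · cases h; omega
      · cases h
    | nd n σ y =>
      rcases key n with h | ⟨n', σ', y', h, h'⟩ | ⟨n', σ', y', h, h'⟩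
      · cases h
      · cases h
      · cases h; omega
  have hn : ∀ n σ t z, Φ (nd n σ t) = Φ z → nd n σ t = z := by
    intro n σ t z h
    have h1 := congrFun h (Sum.inr (false, n, σ, t))
    simp only [Φ, if_true] at h1
    by_contra h3
    simp [Ne.symm h3] at h1
  intro a b h
  cases a with
  | p => exact hp b h
  | nd n σ t => exact hn n σ t b h
  | pt n σ y =>
    cases b with
    | p => exact (hp _ h.symm).symm
    | nd n' σ' t => exact (hn _ _ _ _ h.symm).symm
    | pt n' σ' y' =>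
      rcases le_total σ'.length σ.length with hl | hl
      · exact Φ_pt hl h
      · exact (Φ_pt hl h.symm).symm

theorem U_compact (n : ℕ) (σ : List (List ℕ)) (y : ℕ → ℕ) (m : ℕ) : IsCompact (U (pt n σ y) m) := by
  have h1 := ((tendsto1 n σ y).comp (tendsto_add_atTop_nat m)).isCompact_insert_range
  cases σ with
  | nil =>
    convert h1 using 1
    ext z
    simp only [U, mem_setOf_eq, mem_insert_iff, mem_range, Function.comp]
    refine or_congr_right ⟨?_, ?_⟩
    · rintro (⟨j, hj, rfl⟩ | ⟨j, s, σ', -, h, -⟩)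
      · exact ⟨j - m, by rw [Nat.sub_add_cancel hj]⟩
      · cases h
    · rintro ⟨j, rfl⟩
      exact Or.inl ⟨j + m, by omega, rfl⟩
  | cons s σ =>
    have h2 := ((tendsto2 n s σ y).comp (tendsto_add_atTop_nat m)).isCompact_insert_range
    convert h1.union h2 using 1
    ext z
    simp only [U, mem_setOf_eq, mem_insert_iff, mem_range, Function.comp, mem_union]
    constructor
    · rintro (h | ⟨j, hj, rfl⟩ | ⟨j, s, σ', hj, h, rfl⟩)
      · exact Or.inl (Or.inl h)
      · exact Or.inl (Or.inr ⟨j - m, by rw [Nat.sub_add_cancel hj]⟩)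
      · cases h; exact Or.inr (Or.inr ⟨j - m, by rw [Nat.sub_add_cancel hj]⟩)
    · rintro ((h | ⟨j, rfl⟩) | h | ⟨j, rfl⟩)
      · exact Or.inl h
      · exact Or.inr (Or.inl ⟨j + m, by omega, rfl⟩)
      · exact Or.inl h
      · exact Or.inr (Or.inr ⟨j + m, s, σ, by omega, rfl, rfl⟩)

theorem reg_sub (x : X) (O : Set X) (hO : IsOpen O) (hx : x ∈ O) :
    ∃ D : Set X, IsOpen D ∧ x ∈ D ∧ Φ ⁻¹' closure (Φ '' D) ⊆ O := by
  obtain ⟨m, hm⟩ := hO x hx
  have hc : IsCompact (U x m) → ∃ D : Set X, IsOpen D ∧ x ∈ D ∧ Φ ⁻¹' closure (Φ '' D) ⊆ O := by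
    intro h
    refine ⟨U x m, isOpen_U x m, mem_U x m, ?_⟩
    rwa [(h.image Φ_cont).isClosed.closure_eq, preimage_image_eq _ Φ_inj]
  cases x with
  | pt n σ y => exact hc (U_compact n σ y m)
  | nd n σ t => exact hc isCompact_singleton
  | p =>
    refine ⟨U p (m + 1), isOpen_U _ _, mem_U _ _, fun z hz => hm (of_g_zero ?_)⟩
    have : closure (Φ '' U p (m + 1)) ⊆ {w | w (Sum.inl m) = 0} := by
      refine closure_minimal ?_ (isClosed_eq (continuous_apply _) continuous_const)
      rintro _ ⟨w, hw, rfl⟩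
      exact g_zero hw
    exact this hz

theorem regular : RegularSpace X := by
  refine RegularSpace.of_exists_mem_nhds_isClosed_subset fun x s hs => ?_
  obtain ⟨O, hO1, hO2, hO3⟩ := mem_nhds_iff.1 hs
  obtain ⟨D, h1, h2, h3⟩ := reg_sub x O hO2 hO3
  refine ⟨Φ ⁻¹' closure (Φ '' D), mem_of_superset (h1.mem_nhds h2) ?_,
    isClosed_closure.preimage Φ_cont, h3.trans hO1⟩
  exact fun z hz => subset_closure (mem_image_of_mem _ hz)

end Pool.Agent.H83.Moore
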