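import Mathlib

set_option autoImplicit false

namespace Pool.Agent.H83.NbhdTop

open Set Filter Topology

/-- topology from a decreasing system of basic neighbourhoods -/
@[reducible] def top {X : Type*} (U : X → ℕ → Set X) (anti : ∀ x, Antitone (U x)) :
    TopologicalSpace X where
  IsOpen W := ∀ x ∈ W, ∃ m, U x m ⊆ W
  isOpen_univ := fun _ _ => ⟨0, subset_univ _⟩
  isOpen_inter := by
    intro V W hV hW x hx
    obtain ⟨m, hm⟩ := hV x hx.1
    obtain ⟨n, hn⟩ := hW x hx.2
    exact ⟨max m n, subset_inter ((anti x (le_max_left _ _)).trans hm)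
      ((anti x (le_max_right _ _)).trans hn)⟩
  isOpen_sUnion := by
    rintro S hS x ⟨W, hW, hx⟩
    obtain ⟨m, hm⟩ := hS W hW x hx
    exact ⟨m, hm.trans (subset_sUnion_of_mem hW)⟩

theorem basis {X : Type*} (U : X → ℕ → Set X) (anti : ∀ x, Antitone (U x))
    (hmem : ∀ x m, x ∈ U x m) (hopen : ∀ x m, ∀ y ∈ U x m, ∃ k, U y k ⊆ U x m) (x : X) :
    (@nhds X (top U anti) x).HasBasis (fun _ : ℕ => True) (U x) := by
  letI := top U anti
  refine ⟨fun s => ⟨fun hs => ?_, ?_⟩⟩
  · obtain ⟨W, hW, ho, hx⟩ := mem_nhds_iff.1 hs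
    obtain ⟨m, hm⟩ := ho x hx
    exact ⟨m, trivial, hm.trans hW⟩
  · rintro ⟨m, -, hm⟩
    have : IsOpen (U x m) := hopen x m
    exact mem_of_superset (this.mem_nhds (hmem x m)) hm

/-- restrictions of sequences -/
theorem res_suffix {α : Type*} (y : ℕ → α) {j k : ℕ} (h : j ≤ k) :
    PiNat.res y j <:+ PiNat.res y k := by
  induction h with
  | refl => exact List.suffix_refl _
  | step _ ih => exact ih.trans (List.suffix_cons _ _)

theorem suffix_res_iff {α : Type*} (y : ℕ → α) {u : List α} {j : ℕ} (h : u.length ≤ j) :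
    u <:+ PiNat.res y j ↔ PiNat.res y u.length = u := by
  constructor
  · intro h1
    refine (List.suffix_of_suffix_length_le (res_suffix y h) h1 (by simp)).eq_of_length (by simp)
  · intro h1
    have := res_suffix y h
    rwa [h1] at this

theorem exists_res {α : Type*} [Inhabited α] (t : List α) :
    ∃ y : ℕ → α, PiNat.res y t.length = t := by
  classical
  induction t with
  | nil => exact ⟨default, rfl⟩
  | cons a t ih =>
    obtain ⟨y, hy⟩ := ih
    refine ⟨Function.update y t.length a, ?_⟩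
    rw [List.length_cons, PiNat.res_succ, Function.update_self]
    congr 1
    rw [← hy, PiNat.res_length, PiNat.res_eq_res]
    intro m hm
    rw [Function.update_of_ne hm.ne]

/-- Baire category on the tree of finite sequences -/
theorem baire_tree (P : List ℕ → Prop) (h : ∀ y : ℕ → ℕ, ∃ m, ∀ j, m ≤ j → P (PiNat.res y j)) :
    ∃ s, ∀ t, s <:+ t → P t := by
  have hc : ∀ m, IsClosed {y : ℕ → ℕ | ∀ j, m ≤ j → P (PiNat.res y j)} := by
    intro m
    rw [← isOpen_compl_iff, isOpen_iff_forall_mem_open]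
    intro y hy
    simp only [mem_compl_iff, mem_setOf_eq, not_forall] at hy
    obtain ⟨j, hj, hP⟩ := hy
    refine ⟨PiNat.cylinder y j, fun z hz hz' => hP ?_, PiNat.isOpen_cylinder _ y j,
      PiNat.self_mem_cylinder y j⟩
    rw [PiNat.cylinder_eq_res] at hz
    rw [← hz]; exact hz' j hj
  obtain ⟨m, y, hy⟩ := nonempty_interior_of_iUnion_of_closed hc
    (eq_univ_of_forall fun y => mem_iUnion.2 (h y))
  obtain ⟨_, ⟨x, n, rfl⟩, hx1, hx2⟩ :=
    (PiNat.isTopologicalBasis_cylinders (fun _ => ℕ)).exists_subset_of_mem_open hy isOpen_interior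
  refine ⟨PiNat.res y (max m n), fun t ht => ?_⟩
  obtain ⟨z, hz⟩ := exists_res t
  have hl : max m n ≤ t.length := by simpa using ht.length_le
  rw [← hz, suffix_res_iff z (by simpa using hl), PiNat.res_length, PiNat.res_eq_res] at ht
  have : z ∈ PiNat.cylinder x n := fun i hi => by
    rw [ht (hi.trans_le (le_max_right _ _))]; exact hx1 i hi
  rw [← hz]
  exact interior_subset (hx2 this) _ ((le_max_left _ _).trans hl)

end Pool.Agent.H83.NbhdTop
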