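import Mathlib
import Pool.Agent.H37.DefcDefs

/-!
Omega-numbers and strong reducibilities (problem MP_a2e505_lc). A real in `[0,1]` is given by its
binary expansion `X : ℕ → Bool`. Martin-Löf randomness `MLRandom` and `cut X n` (first `n` bits)
come from `H37.DefcDefs`.
-/

set_option autoImplicit false

namespace Pool.Agent.H83.Om

open Pool.Agent.H37.Defc

/-- the real number with binary expansion `X` -/
noncomputable def real (X : ℕ → Bool) : ℝ := ∑' n : ℕ, ((X n).toNat : ℝ) / 2 ^ (n + 1)

/-- left-c.e.: the set of (nonnegative) rationals `a / (b + 1)` below the real is c.e. -/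
def LeftCE (X : ℕ → Bool) : Prop := REPred fun p : ℕ × ℕ => (p.1 : ℝ) / (p.2 + 1) < real X

/-- Omega-number: left-c.e. and 1-random -/
def IsOmega (X : ℕ → Bool) : Prop := LeftCE X ∧ MLRandom X

/-- truth-table reducibility: computably many positions `pos n` and a computable Boolean function
of the bits of `B` at these positions -/
def TT (A B : ℕ → Bool) : Prop :=
  ∃ (pos : ℕ → List ℕ) (tab : ℕ × List Bool → Bool), Computable pos ∧ Computable tab ∧
    ∀ n, A n = tab (n, (pos n).map B)

/-- sw-reducibility: a partial computable procedure gets `A n` from the bits of `B` at positions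
`≤ n + c` -/
def SW (A B : ℕ → Bool) : Prop :=
  ∃ (c : ℕ) (Γ : ℕ × List Bool →. Bool), Partrec Γ ∧ ∀ n, A n ∈ Γ (n, cut B (n + c + 1))

end Pool.Agent.H83.Om
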