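import Pool.Agent.H37.Lr1
import Pool.Agent.H37.Kc2
import Pool.Agent.H83.OmDefs

/-! Binary values of initial segments, left-c.e. reals, porous classes, an Omega-number. -/

set_option autoImplicit false

namespace Pool.Agent.H83.Om

open Pool.Agent.H37 Defc Rnd Hd Kc Vl MeasureTheory Filter Topology
open scoped ENNReal

def v (y : ℕ → Bool) (n : ℕ) : ℕ := bv (pre y n)

theorem v_succ (y : ℕ → Bool) (n : ℕ) : v y (n + 1) = 2 * v y n + (y n).toNat := by
  simp [v, pre_succ, bv_concat]

theorem v_lt (y : ℕ → Bool) (n : ℕ) : v y n < 2 ^ n := by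
  induction n with
  | zero => exact Nat.one_pos
  | succ n ih => rw [v_succ, pow_succ]; have := Bool.toNat_le (y n); omega

theorem v_add (y : ℕ → Bool) (n k : ℕ) : v y (n + k) / 2 ^ k = v y n := by
  induction k with
  | zero => simp
  | succ k ih =>
    rw [← add_assoc, v_succ, pow_succ', ← Nat.div_div_eq_div_mul, ← ih]
    congr 1
    have := Bool.toNat_le (y (n + k)); omega

theorem v_inj {y y' : ℕ → Bool} {n : ℕ} : v y n = v y' n ↔ pre y n = pre y' n := by
  refine ⟨fun h => ?_, fun h => by rw [v, v, h]⟩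
  induction n with
  | zero => rfl
  | succ n ih =>
    rw [v_succ, v_succ] at h
    have h1 : y n = y' n := by
      revert h; cases y n <;> cases y' n <;> simp <;> omega
    rw [pre_succ, pre_succ, h1, ih (by rw [h1] at h; omega)]

def ext (ρ : List Bool) (i : ℕ) : Bool := ρ.getD i false

@[fun_prop] theorem ci_ext {α : Type} [Primcodable α] {O : Set (ℕ →. ℕ)} {l : α → List Bool}
    {n : α → ℕ} (hl : CI O l) (hn : CI O n) : CI O fun a => ext (l a) (n a) := by
  unfold ext; fun_prop

@[fun_prop] theorem ci_bv' {α : Type} [Primcodable α] {O : Set (ℕ →. ℕ)} {l : α → List Bool}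
    (hl : CI O l) : CI O fun a => bv (l a) := ci_bv.of_empty.comp hl

theorem pre_ext (ρ : List Bool) : pre (ext ρ) ρ.length = ρ := pre_getD ρ false

theorem pre_ext_pre (y : ℕ → Bool) {n m : ℕ} (h : m ≤ n) : pre (ext (pre y n)) m = pre y m :=
  pre_congr fun _ hi => getD_pre y (hi.trans_le h) false

theorem bv_inj {σ τ : List Bool} (h : σ.length = τ.length) (e : bv σ = bv τ) : σ = τ := by
  rw [← pre_ext σ, ← pre_ext τ, ← h, ← v_inj, v, v, pre_ext, h, pre_ext, e]

theorem P_v {n j : ℕ} (h : j < 2 ^ n) : P {y | v y n = j} = 2⁻¹ ^ n := by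
  obtain ⟨p, rfl, rfl⟩ := bv_surj n j h
  rw [← P_cyl]
  congr 1
  ext y
  exact ⟨fun h => bv_inj (by simp) h, fun h => congrArg bv h⟩

theorem P_v_le (n j : ℕ) : P {y | v y n = j} ≤ 2⁻¹ ^ n := by
  by_cases h : j < 2 ^ n
  · exact (P_v h).le
  · rw [show {y | v y n = j} = ∅ from Set.eq_empty_of_forall_notMem fun y e => h (e ▸ v_lt y n)]
    simp

theorem meas_v (n : ℕ) (p : ℕ → Prop) : MeasurableSet {y | p (v y n)} :=
  meas_pre (fun ρ => p (bv ρ)) n (measurableSet_singleton True) |>.congr (by ext; simp [v])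

/-! ### reals -/

theorem tend (X : ℕ → Bool) : Tendsto (fun n => (v X n : ℝ) / 2 ^ n) atTop (𝓝 (real X)) := by
  have hs : Summable fun n : ℕ => ((X n).toNat : ℝ) / 2 ^ (n + 1) := by
    refine Summable.of_nonneg_of_le (fun n => by positivity) (fun n => ?_) summable_geometric_two
    have : ((X n).toNat : ℝ) ≤ 1 := by exact_mod_cast Bool.toNat_le (X n)
    rw [one_div, inv_pow, div_le_iff₀ (by positivity), pow_succ, ← mul_assoc,
      inv_mul_cancel₀ (by positivity)]
    linarith
  refine hs.hasSum.tendsto_sum_nat.congr fun n => ?_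
  induction n with
  | zero => simp [v, pre, bv]
  | succ n ih => rw [Finset.sum_range_succ, ih, v_succ]; push_cast; field_simp; ring

theorem v_mono (X : ℕ → Bool) : Monotone fun n => (v X n : ℝ) / 2 ^ n :=
  monotone_nat_of_le_succ fun n => by
    rw [v_succ, div_le_div_iff₀ (by positivity) (by positivity)]
    push_cast
    have : (0 : ℝ) ≤ ((X n).toNat : ℝ) * 2 ^ n := by positivity
    rw [pow_succ]; nlinarith

theorem le_real (X : ℕ → Bool) (n : ℕ) : (v X n : ℝ) / 2 ^ n ≤ real X :=
  (v_mono X).ge_of_tendsto (tend X) n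

theorem real_le (X : ℕ → Bool) (n : ℕ) : real X ≤ (v X n + 1 : ℝ) / 2 ^ n := by
  refine le_of_tendsto (tend X) (eventually_atTop.2 ⟨n, fun m hm => ?_⟩)
  obtain ⟨k, rfl⟩ := Nat.exists_eq_add_of_le hm
  have h : v X (n + k) < (v X n + 1) * 2 ^ k := by
    rw [← v_add X n k, ← Nat.div_lt_iff_lt_mul (by positivity)]; omega
  have h' : (v X (n + k) : ℝ) ≤ (v X n + 1) * 2 ^ k := by exact_mod_cast h.le
  rw [div_le_div_iff₀ (by positivity) (by positivity), pow_add]
  have : (0 : ℝ) < 2 ^ n := by positivity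
  nlinarith

theorem lt_real {X : ℕ → Bool} {n m : ℕ} (h : n ≤ m) (hm : X m = true) :
    (v X n : ℝ) / 2 ^ n < real X := by
  refine (v_mono X h).trans_lt (lt_of_lt_of_le ?_ (le_real X (m + 1)))
  rw [v_succ, hm, div_lt_div_iff₀ (by positivity) (by positivity)]
  push_cast
  have : (0 : ℝ) < 2 ^ m := by positivity
  simp only [Bool.toNat_true, Nat.cast_one]
  rw [pow_succ]; nlinarith

def LC (X : ℕ → Bool) : Prop := REPred fun p : ℕ × ℕ => p.2 ≤ v X p.1

theorem LC.left {X : ℕ → Bool} (h : LC X) : LeftCE X := by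
  have h1 : REPred fun q : (ℕ × ℕ) × ℕ × ℕ => q.2.2 ≤ v X q.2.1 ∧
      q.1.1 * 2 ^ q.2.1 < q.2.2 * (q.1.2 + 1) :=
    re_and (REPred.comp' h (g := fun q : (ℕ × ℕ) × ℕ × ℕ => q.2) (by fun_prop))
      (re_of_bool (fun q => decide (q.1.1 * 2 ^ q.2.1 < q.2.2 * (q.1.2 + 1))) (by fun_prop)
        fun _ => by simp)
  refine (re_exists (p := fun (a : ℕ × ℕ) (b : ℕ × ℕ) => b.2 ≤ v X b.1 ∧
    a.1 * 2 ^ b.1 < b.2 * (a.2 + 1)) h1).of_eq fun p => ⟨fun ⟨b, h1, h2⟩ => ?_, fun h => ?_⟩
  · refine lt_of_lt_of_le ?_ (le_real X b.1)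
    rw [div_lt_div_iff₀ (by positivity) (by positivity)]
    exact_mod_cast h2.trans_le (Nat.mul_le_mul_right _ h1)
  · obtain ⟨n, hn⟩ := ((tend X).eventually (lt_mem_nhds h)).exists
    rw [div_lt_div_iff₀ (by positivity) (by positivity)] at hn
    exact ⟨(n, v X n), le_rfl, by exact_mod_cast hn⟩

theorem LeftCE.lc {X : ℕ → Bool} (h : LeftCE X) (hi : ∀ n, ∃ m, n ≤ m ∧ X m = true) : LC X := by
  refine (REPred.comp' h (g := fun p : ℕ × ℕ => (p.2, 2 ^ p.1 - 1)) (by fun_prop)).of_eq
    fun p => ?_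
  have e : ((2 ^ p.1 - 1 : ℕ) : ℝ) + 1 = 2 ^ p.1 := by
    rw [Nat.cast_sub Nat.one_le_two_pow]; simp
  simp only [e]
  refine ⟨fun h => ?_, fun h => ?_⟩
  · have := h.trans_le (real_le X p.1)
    rw [div_lt_div_iff_of_pos_right (by positivity)] at this
    exact Nat.lt_succ_iff.1 (by exact_mod_cast this)
  · obtain ⟨m, h1, h2⟩ := hi p.1
    exact lt_of_le_of_lt (by gcongr) (lt_real h1 h2)

/-! ### tests -/

theorem shrink {ι : Type} [Countable ι] {A K : ι → Set (ℕ → Bool)} {E : Set (ℕ → Bool)}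
    {θ : ℝ≥0∞} (hK : ∀ i, MeasurableSet (K i)) (hd : Pairwise (Function.onFun Disjoint K))
    (hE : ∀ i, K i ⊆ E) (h : ∀ i, P (A i) ≤ θ * P (K i)) : P (⋃ i, A i) ≤ θ * P E := by
  refine (measure_iUnion_le _).trans ((ENNReal.tsum_le_tsum h).trans ?_)
  rw [ENNReal.tsum_mul_left, ← measure_iUnion hd hK]
  gcongr
  exact Set.iUnion_subset hE

theorem rd_of {z : ℕ → Bool} (hz : MLRandom z) : Rd (fun _ => false) z := fun D hD hm => by
  have h0 : CI ∅ D := hD.trans (CI.const 0)
  simpa [cut_eq] using hz (fun q => D q = true) (re_of_bool D h0 fun _ => Iff.rfl) hm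

theorem of_rd {z : ℕ → Bool} (hz : Rd (fun _ => false) z) : MLRandom z := fun V hV hm => by
  simpa [Part.assert] using rd_iff.2 hz (fun a => Part.assert (V a) fun _ => Part.some ())
    (Partrec.recursiveIn hV) (by simpa [Part.assert] using hm)

theorem porous {Q : List Bool → Bool} (hQ : CI ∅ Q) (d : ℕ)
    (h : ∀ ρ, ∃ w : List Bool, w.length = d ∧ Q (ρ ++ w) = false) {z : ℕ → Bool}
    (hz : MLRandom z) : ∃ n, Q (pre z n) = false := by
  by_contra! h0
  refine Lr.pos hQ.of_empty (rd_of hz) (fun n => by simpa using h0 n) ?_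
  choose w h1 h2 using h
  let S : ℕ → Set (ℕ → Bool) := fun k => {x | ∀ j ≤ k, Q (pre x (j * d)) = true}
  have key : ∀ k, P (S k) ≤ (1 - 2⁻¹ ^ d) ^ k := by
    intro k
    induction k with
    | zero => simpa using prob_le_one
    | succ k ih =>
      classical
      let K : List Bool → Set (ℕ → Bool) := fun ρ =>
        if ρ.length = k * d ∧ cyl ρ ⊆ S k then cyl ρ else ∅
      rw [pow_succ']
      refine le_trans (measure_mono fun x hx => ?_) ((shrink (K := K) (E := S k)
        (A := fun ρ => K ρ \ cyl (ρ ++ w ρ)) (fun ρ => ?_) (fun ρ τ hne => ?_) (fun ρ => ?_)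
        fun ρ => ?_).trans (by gcongr))
      · refine Set.mem_iUnion.2 ⟨pre x (k * d), ?_, fun hc => ?_⟩
        · simp only [K]
          have : cyl (pre x (k * d)) ⊆ S k := fun y hy j hj => by
            have : pre y (k * d) = pre x (k * d) := by simpa [cyl] using hy
            rw [← take_pre y (Nat.mul_le_mul_right d hj), this,
              take_pre x (Nat.mul_le_mul_right d hj)]
            exact hx j (by omega)
          rw [if_pos ⟨by simp, this⟩]
          simp [cyl]
        · have := hx (k + 1) le_rfl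
          simp only [cyl, List.length_append, length_pre, h1, Set.mem_setOf_eq] at hc
          rw [add_mul, one_mul, hc, h2] at this
          cases this
      · simp only [K]; split_ifs; exacts [meas_cyl ρ, MeasurableSet.empty]
      · simp only [K, Function.onFun]
        split_ifs with a b
        · exact Set.disjoint_left.2 fun x e1 e2 => hne (by
            rw [← show pre x ρ.length = ρ from e1, ← show pre x τ.length = τ from e2, a.1, b.1])
        all_goals simp
      · simp only [K]; split_ifs with a; exacts [a.2, Set.empty_subset _]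
      · simp only [K]
        split_ifs
        · rw [measure_diff (fun x hx => mem_cyl ((List.prefix_append ρ (w ρ)).trans
            (pf_of_cyl hx le_rfl))) (meas_cyl _).nullMeasurableSet (measure_ne_top _ _), P_cyl,
            P_cyl, List.length_append, h1, pow_add, ENNReal.sub_mul (by simp), one_mul, mul_comm]
        · simp
  refine le_antisymm (ge_of_tendsto' (ENNReal.tendsto_pow_atTop_nhds_zero_of_lt_one
    (ENNReal.sub_lt_self (a := 1) (b := 2⁻¹ ^ d) (by simp) (by simp) (by simp))) fun k =>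
    le_trans (measure_mono (t := S k) fun x hx j _ => hx _) (key k)) zero_le

theorem ones {z : ℕ → Bool} (hz : MLRandom z) (n : ℕ) : ∃ m, n ≤ m ∧ z m = true := by
  obtain ⟨k, hk⟩ := porous (Q := fun ρ => !(decide (n < ρ.length) && ext ρ (ρ.length - 1)))
    (by fun_prop) (n + 1) (fun ρ => ⟨List.replicate n true ++ [true], by simp, by
      rw [← List.append_assoc]
      simp [ext, ← List.getLast?_eq_getElem?]
      omega⟩) hz
  simp only [length_pre, Bool.not_eq_false', Bool.and_eq_true, decide_eq_true_eq] at hk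
  exact ⟨k - 1, by omega, by rw [← hk.2, ext, getD_pre z (by omega)]⟩

theorem IsOmega.lc {X : ℕ → Bool} (h : IsOmega X) : LC X := h.1.lc (ones h.2)

theorem exists_omega : ∃ X, LC X ∧ MLRandom X := by
  obtain ⟨T, hT, ⟨z0, h0⟩, h1⟩ := Lr.univ fun _ => false
  have hT0 : CI ∅ T := hT.trans (CI.const 0)
  classical
  have ex : ∀ n, ∃ j, ∃ z, (∀ k, T (pre z k) = true) ∧ v z n = j := fun n => ⟨_, z0, h0, rfl⟩
  have hs : ∀ n, Nat.find (ex (n + 1)) / 2 = Nat.find (ex n) := fun n => by
    obtain ⟨z, a, b⟩ := Nat.find_spec (ex n)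
    obtain ⟨z', a', b'⟩ := Nat.find_spec (ex (n + 1))
    have c := Nat.find_min' (ex (n + 1)) ⟨z, a, rfl⟩
    have c' := Nat.find_min' (ex n) ⟨z', a', rfl⟩
    rw [v_succ] at c b'
    have := Bool.toNat_le (z n)
    have := Bool.toNat_le (z' n)
    omega
  let X : ℕ → Bool := fun n => Nat.find (ex (n + 1)) % 2 == 1
  have hv : ∀ n, v X n = Nat.find (ex n) := fun n => by
    induction n with
    | zero =>
      have := Nat.find_min' (ex 0) ⟨z0, h0, rfl⟩
      have := v_lt z0 0
      have := v_lt X 0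
      omega
    | succ n ih =>
      rw [v_succ, ih, ← hs]
      simp only [X]
      rcases Nat.mod_two_eq_zero_or_one (Nat.find (ex (n + 1))) with h | h <;> simp [h] <;> omega
  refine ⟨X, (re_empty (T := fun (p : ℕ × ℕ) ρ => T ρ && (ρ.length != p.1 || decide (bv ρ < p.2)))
    (by fun_prop)).of_eq fun p => ?_, of_rd (h1 X fun n => ?_)⟩
  · simp only [hv, Nat.le_find_iff, length_pre, Bool.and_eq_true, Bool.or_eq_true, bne_iff_ne,
      decide_eq_true_eq]
    refine ⟨fun h j hj ⟨z, a, b⟩ => h ⟨z, fun k => ⟨a k, ?_⟩⟩, fun h ⟨z, a⟩ =>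
      h _ ((a p.1).2.resolve_left (by simp)) ⟨z, fun k => (a k).1, rfl⟩⟩
    by_cases e : k = p.1
    · exact Or.inr (by rw [e]; exact (show v z p.1 < p.2 from b ▸ hj))
    · exact Or.inl e
  · obtain ⟨z, a, b⟩ := Nat.find_spec (ex n)
    rw [v_inj.1 ((hv n).trans b.symm)]
    exact a n

end Pool.Agent.H83.Om
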