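import Pool.Agent.H83.Om1

/-! The halving test: if a random `B` is recovered from `F B` with computable use, then it is
recovered by a majority vote. -/

set_option autoImplicit false

namespace Pool.Agent.H83.Om

open Pool.Agent.H37 Defc Rnd Hd Kc Vl MeasureTheory Filter Topology
open scoped ENNReal

structure Sys where
  u : ℕ → ℕ
  f : ℕ × List Bool → Bool
  g : ℕ → ℕ
  cu : CI ∅ u
  cf : CI ∅ f
  cg : CI ∅ g
  mono : Monotone g

namespace Sys

variable (S : Sys)

def F (y : ℕ → Bool) (r : ℕ) : Bool := S.f (r, pre y (S.u r))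
def o (n : ℕ) (y : ℕ → Bool) : List Bool := pre (S.F y) (S.g n)
def h (n : ℕ) : ℕ := n + ((List.range (S.g n)).map S.u).sum
def tst (n : ℕ) (σ τ ρ : List Bool) : Bool := S.o n (ext ρ) == σ && pre (ext ρ) τ.length == τ
def cnt (n : ℕ) (σ τ : List Bool) : ℕ := (W (S.h n)).countP (S.tst n σ τ)
def C (n : ℕ) (y : ℕ → Bool) (m : ℕ) : Set (ℕ → Bool) :=
  {y' | S.o n y' = S.o n y ∧ pre y' m = pre y m}

def st (y : ℕ → Bool) : ℕ → ℕ × ℕ
  | 0 => (0, 0)
  | n + 1 => if 2 * S.cnt (n + 1) (S.o (n + 1) y) (pre y (n + 1)) ≤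
      S.cnt (n + 1) (S.o (n + 1) y) (pre y (st y n).2) then ((st y n).1 + 1, n + 1) else st y n

theorem ci_o : CI ∅ fun q : ℕ × List Bool => S.o q.1 (ext q.2) := by
  have := S.cu; have := S.cf; have := S.cg
  unfold o F; fun_prop

theorem ci_h : CI ∅ S.h := by
  have := S.cu; have := S.cg
  unfold h; fun_prop

theorem ci_cnt : CI ∅ fun q : ℕ × List Bool × List Bool => S.cnt q.1 q.2.1 q.2.2 := by
  obtain ⟨o', e⟩ : ∃ o' : ℕ × List Bool → List Bool, ∀ n ρ, S.o n (ext ρ) = o' (n, ρ) :=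
    ⟨fun q => S.o q.1 (ext q.2), fun _ _ => rfl⟩
  have h1 : CI ∅ o' := S.ci_o.of_eq fun q => e _ _
  have := S.ci_h
  unfold cnt tst
  simp only [e]
  fun_prop

theorem ci_st : CI ∅ fun q : List Bool × ℕ => S.st (ext q.1) q.2 := by
  obtain ⟨o', e⟩ : ∃ o' : ℕ × List Bool → List Bool, ∀ n ρ, S.o n (ext ρ) = o' (n, ρ) :=
    ⟨fun q => S.o q.1 (ext q.2), fun _ _ => rfl⟩
  have h1 : CI ∅ o' := S.ci_o.of_eq fun q => e _ _
  obtain ⟨c', e'⟩ : ∃ c' : ℕ × List Bool × List Bool → ℕ, ∀ n σ τ, S.cnt n σ τ = c' (n, σ, τ) :=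
    ⟨fun q => S.cnt q.1 q.2.1 q.2.2, fun _ _ _ => rfl⟩
  have h2 : CI ∅ c' := S.ci_cnt.of_eq fun q => e' _ _ _
  refine CI.of_rec (F := fun ρ n => S.st (ext ρ) n) (g := fun _ => (0, 0))
    (h := fun ρ n p => if 2 * c' (n + 1, o' (n + 1, ρ), pre (ext ρ) (n + 1)) ≤
      c' (n + 1, o' (n + 1, ρ), pre (ext ρ) p.2) then (p.1 + 1, n + 1) else p)
    (by fun_prop) (by fun_prop) (fun _ => rfl) fun ρ n => ?_
  simp only [st, e, e']

variable {S}

theorem le_h (n : ℕ) : n ≤ S.h n := Nat.le_add_right _ _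

theorem o_ext {n L : ℕ} (hL : S.h n ≤ L) (y : ℕ → Bool) : S.o n (ext (pre y L)) = S.o n y :=
  pre_congr fun r hr => by
    unfold F
    rw [pre_ext_pre y ((List.single_le_sum (fun _ _ => Nat.zero_le _) _
      (List.mem_map_of_mem (List.mem_range.2 hr))).trans ((Nat.le_add_left _ n).trans hL))]

theorem o_le {n m : ℕ} (hm : m ≤ n) {y y' : ℕ → Bool} (e : S.o n y = S.o n y') :
    S.o m y = S.o m y' := by
  unfold o at *
  rw [← take_pre _ (S.mono hm), e, take_pre _ (S.mono hm)]

theorem pre_le {n m : ℕ} (hm : m ≤ n) {y y' : ℕ → Bool} (e : pre y n = pre y' n) :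
    pre y m = pre y' m := by rw [← take_pre _ hm, e, take_pre _ hm]

theorem C_eq {n m : ℕ} (hm : m ≤ n) (y : ℕ → Bool) :
    S.C n y m = {x | S.tst n (S.o n y) (pre y m) (pre x (S.h n)) = true} := by
  ext x
  simp [C, tst, o_ext le_rfl, pre_ext_pre x (hm.trans (le_h n))]

theorem P_C {n m : ℕ} (hm : m ≤ n) (y : ℕ → Bool) :
    P (S.C n y m) = S.cnt n (S.o n y) (pre y m) * 2⁻¹ ^ S.h n := by
  rw [C_eq hm, P_pre]; rfl

theorem meas_C {n m : ℕ} (hm : m ≤ n) (y : ℕ → Bool) : MeasurableSet (S.C n y m) := by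
  rw [C_eq hm]; exact meas_pre _ _ (measurableSet_singleton true)

theorem st_le (y : ℕ → Bool) (n : ℕ) : (S.st y n).2 ≤ n := by
  induction n with
  | zero => exact le_rfl
  | succ n ih => rw [st]; split_ifs <;> omega

theorem st_congr {y y' : ℕ → Bool} {n : ℕ} (e : S.o n y = S.o n y') (e' : pre y n = pre y' n) :
    S.st y n = S.st y' n := by
  induction n with
  | zero => rfl
  | succ n ih =>
    rw [st, st, ← ih (o_le (by omega) e) (pre_le (by omega) e'), e, e',
      pre_le ((st_le y n).trans (by omega)) e']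

theorem st_self (y : ℕ → Bool) (n : ℕ) : S.st y (S.st y n).2 = S.st y n := by
  induction n with
  | zero => rfl
  | succ n ih =>
    by_cases c : 2 * S.cnt (n + 1) (S.o (n + 1) y) (pre y (n + 1)) ≤
      S.cnt (n + 1) (S.o (n + 1) y) (pre y (S.st y n).2)
    · rw [show (S.st y (n + 1)).2 = n + 1 by rw [st, if_pos c]]
    · rw [st, if_neg c, ih]

theorem st_mono (y : ℕ → Bool) {n m : ℕ} (hm : n ≤ m) : (S.st y n).1 ≤ (S.st y m).1 ∧
    ((S.st y m).1 = (S.st y n).1 → S.st y m = S.st y n) := by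
  induction hm with
  | refl => exact ⟨le_rfl, fun _ => rfl⟩
  | step _ ih =>
    rw [st]
    split_ifs
    · exact ⟨by omega, fun h => by simp only at h; omega⟩
    · exact ih

theorem ivt (y : ℕ → Bool) {n k : ℕ} (hk : k ≤ (S.st y n).1) : ∃ m, S.st y m = (k, m) := by
  induction n with
  | zero => exact ⟨0, by rw [show k = 0 from Nat.le_zero.1 hk]; rfl⟩
  | succ n ih =>
    by_cases c : k ≤ (S.st y n).1
    · exact ih c
    · refine ⟨n + 1, ?_⟩
      rw [st] at hk ⊢
      split_ifs at hk ⊢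
      · simp only at hk; rw [show k = (S.st y n).1 + 1 by omega]
      · exact absurd hk c

theorem halve {B : ℕ → Bool} (hB : MLRandom B) {R : ℕ × List Bool × List Bool → Prop}
    (hR : REPred R) (uq : ∀ n σ τ τ', R (n, σ, τ) → R (n, σ, τ') → τ = τ')
    (hBR : ∀ n, R (n, S.o n B, pre B n)) :
    ∃ m, ∀ n, m < n → S.cnt n (S.o n B) (pre B m) < 2 * S.cnt n (S.o n B) (pre B n) := by
  let Z : ℕ → (ℕ → Bool) → Prop := fun n y => ∀ m ≤ n, R (m, S.o m y, pre y m)
  have Zc : ∀ n y y', S.o n y = S.o n y' → pre y n = pre y' n → Z n y → Z n y' :=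
    fun n y y' e e' h m hm => by rw [← o_le hm e, ← pre_le hm e']; exact h m hm
  let E : ℕ → Set (ℕ → Bool) := fun i => {y | ∃ n, Z n y ∧ S.st y n = (i, n)}
  have key : ∀ i, P (E i) ≤ 2⁻¹ ^ i := by
    intro i
    induction i with
    | zero => simpa using prob_le_one
    | succ i ih =>
      classical
      let A : ℕ × List Bool → Set (ℕ → Bool) := fun p =>
        {y | Z (p.1 + 1) y ∧ S.st y (p.1 + 1) = (i + 1, p.1 + 1) ∧ S.o (p.1 + 1) y = p.2}
      let K : ℕ × List Bool → Set (ℕ → Bool) := fun p =>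
        if h : (A p).Nonempty then S.C (p.1 + 1) h.some (S.st h.some p.1).2 else ∅
      have hA : ∀ p y, y ∈ A p → (S.st y p.1).1 = i ∧ 2 * S.cnt (p.1 + 1) (S.o (p.1 + 1) y)
          (pre y (p.1 + 1)) ≤ S.cnt (p.1 + 1) (S.o (p.1 + 1) y) (pre y (S.st y p.1).2) := by
        intro p y ⟨_, h, _⟩
        rw [st] at h
        split_ifs at h with c
        · exact ⟨by simpa using h, c⟩
        · have := st_le (S := S) y p.1
          rw [h] at this; omega
      have dj : ∀ p q : ℕ × List Bool, p.1 ≤ q.1 → ∀ x ∈ K p, x ∈ K q → p = q := by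
        intro p q hpq x hp hq
        simp only [K] at hp hq
        split_ifs at hp hq with a b
        · obtain ⟨a1, a2, a3⟩ := a.some_mem
          obtain ⟨b1, b2, b3⟩ := b.some_mem
          have e1 : S.o (p.1 + 1) b.some = S.o (p.1 + 1) a.some :=
            (o_le (by omega) hq.1).symm.trans hp.1
          have e2 : pre b.some (p.1 + 1) = pre a.some (p.1 + 1) :=
            uq _ _ _ _ (e1 ▸ b1 (p.1 + 1) (by omega)) (a1 _ le_rfl)
          have e3 := st_congr e1 e2
          have e4 := (st_mono (S := S) b.some (show p.1 + 1 ≤ q.1 + 1 by omega)).2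
            (by rw [e3, a2, b2])
          rw [e3, a2, b2] at e4
          have e5 : q.1 = p.1 := by simpa using e4
          exact Prod.ext e5.symm (by rw [← a3, ← b3, e5, e1])
        all_goals simp_all
      rw [pow_succ']
      refine le_trans (measure_mono fun x hx => ?_) ((shrink (K := K) (E := E i) (A := A)
        (fun p => ?_) (fun p q hne => ?_) (fun p => ?_) fun p => ?_).trans (by gcongr))
      · obtain ⟨n, h1, h2⟩ := hx
        cases n with
        | zero => simp [st] at h2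
        | succ n => exact Set.mem_iUnion.2 ⟨(n, S.o (n + 1) x), h1, h2, rfl⟩
      · simp only [K]; split_ifs
        exacts [meas_C ((st_le _ _).trans (by omega)) _, MeasurableSet.empty]
      · exact Set.disjoint_left.2 fun x a b => hne ((le_total p.1 q.1).elim
          (fun h => dj p q h x a b) fun h => (dj q p h x b a).symm)
      · simp only [K]; split_ifs with a
        · intro x hx
          have l := st_le (S := S) a.some p.1
          have e := o_le (show (S.st a.some p.1).2 ≤ p.1 + 1 by omega) hx.1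
          refine ⟨(S.st a.some p.1).2, Zc _ _ _ e.symm hx.2.symm fun m hm =>
            a.some_mem.1 m (by omega), ?_⟩
          rw [st_congr e hx.2, st_self, ← (hA p _ a.some_mem).1]
        · exact Set.empty_subset _
      · simp only [K]; split_ifs with a
        · refine (measure_mono (t := S.C (p.1 + 1) a.some (p.1 + 1)) fun y hy => ?_).trans ?_
          · have e : S.o (p.1 + 1) y = S.o (p.1 + 1) a.some := hy.2.2.trans a.some_mem.2.2.symm
            exact ⟨e, uq _ _ _ _ (e ▸ hy.1 _ le_rfl) (a.some_mem.1 _ le_rfl)⟩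
          · rw [P_C le_rfl, P_C ((st_le _ _).trans (by omega)), ← mul_assoc]
            gcongr
            rw [← ENNReal.div_eq_inv_mul, ENNReal.le_div_iff_mul_le (by simp) (by simp), mul_comm]
            exact_mod_cast (hA p _ a.some_mem).2
        · rw [Set.not_nonempty_iff_eq_empty.1 a]; simp
  have e : ∀ i x, (∃ L n, S.h n ≤ L ∧ Z n (ext (pre x L)) ∧ S.st (ext (pre x L)) n = (i, n)) ↔
      x ∈ E i := fun i x => by
    refine ⟨fun ⟨L, n, h1, h2, h3⟩ => ⟨n, Zc _ _ _ (o_ext h1 x) (pre_ext_pre x ((le_h n).trans h1))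
      h2, by rw [← h3]; exact (st_congr (o_ext h1 x) (pre_ext_pre x ((le_h n).trans h1))).symm⟩,
      fun ⟨n, h1, h2⟩ => ⟨S.h n, n, le_rfl, Zc _ _ _ (o_ext le_rfl x).symm
        (pre_ext_pre x (le_h n)).symm h1, ?_⟩⟩
    rw [← h2]; exact st_congr (o_ext le_rfl x) (pre_ext_pre x (le_h n))
  have c1 := S.ci_h
  have re1 : REPred fun q : (ℕ × List Bool) × ℕ => Z q.2 (ext q.1.2) :=
    (re_forall_mem (p := fun (q : (ℕ × List Bool) × ℕ) m => R (m, S.o m (ext q.1.2),
      pre (ext q.1.2) m)) (l := fun q => List.range (q.2 + 1)) (REPred.comp' hR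
        (CI.mk (by fun_prop) (CI.mk (S.ci_o.comp (g := fun a : ((ℕ × List Bool) × ℕ) × ℕ =>
          (a.2, a.1.1.2)) (by fun_prop)) (by fun_prop)))) (by fun_prop)).of_eq fun q => by
      simp [Z, Nat.lt_succ_iff]
  obtain ⟨k, hk⟩ := hB (fun q => ∃ n, S.h n ≤ q.2.length ∧ Z n (ext q.2) ∧
    S.st (ext q.2) n = (q.1, n)) (re_exists (re_and (re_of_bool
      (fun q : (ℕ × List Bool) × ℕ => decide (S.h q.2 ≤ q.1.2.length)) (by fun_prop)
        fun _ => by simp) (re_and re1 (re_of_bool (fun q : (ℕ × List Bool) × ℕ =>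
          S.st (ext q.1.2) q.2 == (q.1.1, q.2)) (CI.beq (S.ci_st.comp
            (g := fun q : (ℕ × List Bool) × ℕ => (q.1.2, q.2)) (by fun_prop)) (by fun_prop))
              fun _ => by simp)))) fun k => by
      simp only [cut_eq, length_pre, e]
      exact key k
  have hb : ∀ n, (S.st B n).1 < k := fun n => by
    by_contra! c
    obtain ⟨m, hm⟩ := ivt B c
    obtain ⟨L, hL⟩ := (e k B).2 ⟨m, fun j _ => hBR j, hm⟩
    exact hk L (by simpa only [cut_eq, length_pre] using hL)
  obtain ⟨_, ⟨n0, rfl⟩, h0⟩ := (Set.finite_Iio k |>.subset (Set.range_subset_iff.2 hb) :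
    (Set.range fun n => (S.st B n).1).Finite).exists_maximal (Set.range_nonempty _)
  refine ⟨(S.st B n0).2, fun n hn => ?_⟩
  obtain ⟨n, rfl⟩ := Nat.exists_eq_succ_of_ne_zero (show n ≠ 0 by omega)
  have c : ∀ j, (S.st B n0).2 ≤ j → S.st B j = S.st B n0 := fun j hj => by
    have := st_mono (S := S) B hj
    rw [st_self] at this
    exact this.2 (le_antisymm (h0 ⟨j, rfl⟩ this.1) this.1)
  have c2 := c (n + 1) hn.le
  rw [st, c n (by omega)] at c2
  split_ifs at c2 with a
  · have := congrArg Prod.fst c2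
    simp at this
  · exact not_le.1 a

end Sys

end Pool.Agent.H83.Om
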