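import Pool.Agent.H83.Om2

/-! Omega-numbers: truth-table reducibility is symmetric; division by three. -/

set_option autoImplicit false

namespace Pool.Agent.H83.Om

open Pool.Agent.H37 Defc Rnd Hd Kc Vl MeasureTheory Filter Topology
open scoped ENNReal

theorem cnt_lt (a N : ℕ) : (List.range N).countP (fun j => decide (j < a)) = min a N := by
  induction N with
  | zero => simp
  | succ N ih =>
    rw [List.range_succ, List.countP_append, ih]
    by_cases h : N < a <;> simp [h] <;> omega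

theorem LC.approx {X : ℕ → Bool} (h : LC X) : ∃ a : ℕ × ℕ → ℕ, CI ∅ a ∧
    (∀ n s t, s ≤ t → a (n, s) ≤ a (n, t)) ∧ (∀ n s, a (n, s) ≤ v X n) ∧
    ∀ n, ∃ s, a (n, s) = v X n := by
  obtain ⟨D, hD, hm, e⟩ := re_stage h
  obtain ⟨D', e'⟩ : ∃ D' : (ℕ × ℕ) × ℕ → Bool, ∀ a s, D a s = D' (a, s) :=
    ⟨fun q => D q.1 q.2, fun _ _ => rfl⟩
  have h1 : CI ∅ D' := hD.of_eq fun q => e' _ _
  have le : ∀ n s, (List.range (2 ^ n)).countP (fun j => D' ((n, j + 1), s)) ≤ v X n :=
    fun n s => (List.countP_mono_left (q := fun j => decide (j < v X n)) fun j _ hj => decide_eq_true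
      ((e (n, j + 1)).2 ⟨s, by rw [e']; exact hj⟩)).trans ((cnt_lt _ _).le.trans (min_le_left _ _))
  refine ⟨fun q => (List.range (2 ^ q.1)).countP fun j => D' ((q.1, j + 1), q.2), by fun_prop,
    fun n s t hst => List.countP_mono_left fun j _ hj => ?_, le, fun n => ?_⟩
  · rw [← e'] at hj ⊢; exact hm _ _ _ hst hj
  · obtain ⟨s, hs⟩ := exists_stage_all (List.range (v X n)) (fun j s => D (n, j + 1) s)
      (fun j => hm _) fun j hj => (e (n, j + 1)).1 (List.mem_range.1 hj)
    refine ⟨s, le_antisymm (le n s) ?_⟩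
    rw [← min_eq_left (v_lt X n).le, ← cnt_lt]
    exact List.countP_mono_left fun j _ hj => by
      rw [← e']; exact hs s le_rfl j (List.mem_range.2 (of_decide_eq_true hj))

theorem wtt {A B : ℕ → Bool} (hA : LC A) (rA : MLRandom A) (hB : LC B) :
    ∃ (k : ℕ) (R : ℕ × List Bool × List Bool → Prop), REPred R ∧
      (∀ n σ τ τ', R (n, σ, τ) → R (n, σ, τ') → τ = τ') ∧
      ∀ n, R (n, pre A (2 * n + k + 1), pre B n) := by
  obtain ⟨a, a1, a2, a3, a4⟩ := hA.approx
  obtain ⟨b, b1, b2, b3, b4⟩ := hB.approx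
  obtain ⟨k, hk⟩ := rA (fun q => ∃ p : ℕ × ℕ, (q.2.length == 2 * p.1 + q.1 + 1 &&
    bv q.2 == a (q.2.length, p.2) && decide (b (p.1, p.2) < b (p.1, p.2 + 1))) = true)
    (re_of_exists _ (by fun_prop) fun _ => Iff.rfl) fun k => by
      refine (measure_mono (t := ⋃ n, ⋃ j ∈ Finset.range (2 ^ n), {x | v x (2 * n + k + 1) =
        a (2 * n + k + 1, sInf {t | j < b (n, t + 1)})}) ?_).trans ((measure_iUnion_le _).trans
          ((ENNReal.tsum_le_tsum fun n => ?_).trans (geo2 k).le))
      · rintro x ⟨L, ⟨n, s⟩, h⟩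
        simp only [cut_eq, length_pre, Bool.and_eq_true, beq_iff_eq, decide_eq_true_eq] at h
        obtain ⟨⟨rfl, h1⟩, h2⟩ := h
        refine Set.mem_iUnion.2 ⟨n, Set.mem_iUnion₂.2 ⟨b (n, s), Finset.mem_range.2
          ((b3 n s).trans_lt (v_lt B n)), ?_⟩⟩
        rw [show sInf {t | b (n, s) < b (n, t + 1)} = s from le_antisymm (Nat.sInf_le h2)
          (le_csInf ⟨s, h2⟩ fun t ht => by_contra fun c => (b2 n (t + 1) s (by omega)).not_gt ht)]
        exact h1
      · refine (measure_biUnion_finset_le _ _).trans ((Finset.sum_le_card_nsmul _ _ _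
          fun j _ => P_v_le _ _).trans ?_)
        rw [Finset.card_range, nsmul_eq_mul, show 2 * n + k + 1 = n + (n + (k + 1)) by omega,
          Nat.cast_pow, Nat.cast_ofNat, pw]
  refine ⟨k, fun q => ∃ s, (a (q.2.1.length, s) == bv q.2.1 && ((List.range s).all fun t =>
    a (q.2.1.length, t) != bv q.2.1) && q.2.2.length == q.1 && bv q.2.2 == b (q.1, s)) = true,
    re_of_nat _ (by fun_prop) fun _ => Iff.rfl, fun n σ τ τ' ⟨s, h⟩ ⟨t, h'⟩ => ?_, fun n => ?_⟩
  · simp only [Bool.and_eq_true, beq_iff_eq, List.all_eq_true, List.mem_range, bne_iff_ne] at h h'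
    obtain rfl : s = t := le_antisymm (not_lt.1 fun c => h.1.1.2 t c h'.1.1.1)
      (not_lt.1 fun c => h'.1.1.2 s c h.1.1.1)
    exact bv_inj (h.1.2.trans h'.1.2.symm) (h.2.trans h'.2.symm)
  · classical
    refine ⟨Nat.find (a4 (2 * n + k + 1)), ?_⟩
    have e := Nat.find_spec (a4 (2 * n + k + 1))
    simp only [Bool.and_eq_true, beq_iff_eq, List.all_eq_true, List.mem_range, bne_iff_ne,
      length_pre]
    refine ⟨⟨⟨e, fun t ht => Nat.find_min (a4 (2 * n + k + 1)) ht⟩, trivial⟩, ?_⟩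
    have c : ∀ t, Nat.find (a4 (2 * n + k + 1)) ≤ t →
        b (n, t) ≤ b (n, Nat.find (a4 (2 * n + k + 1))) := fun t ht => by
      induction ht with
      | refl => exact le_rfl
      | @step t ht ih =>
        refine le_trans (not_lt.1 fun c => hk (2 * n + k + 1) ⟨(n, t), ?_⟩) ih
        simp only [cut_eq, length_pre, Bool.and_eq_true, beq_iff_eq, decide_eq_true_eq]
        exact ⟨⟨trivial, le_antisymm (e.ge.trans (a2 _ _ _ ht)) (a3 _ _)⟩, c⟩
    obtain ⟨s, hs⟩ := b4 n
    exact le_antisymm (hs.ge.trans ((b2 n s _ (le_max_left _ _)).trans (c _ (le_max_right _ _))))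
      (b3 _ _)

theorem cnt_add {γ : Type} (l : List γ) {p q r : γ → Bool} (h1 : ∀ a, p a = true → r a = true)
    (h2 : ∀ a, q a = true → r a = true) (h3 : ∀ a, p a = true → q a = true → False) :
    l.countP p + l.countP q ≤ l.countP r := by
  induction l with
  | nil => simp
  | cons a l ih =>
    have := h1 a; have := h2 a; have := h3 a
    simp only [List.countP_cons]
    cases hp : p a <;> cases hq : q a <;> cases hr : r a <;> simp_all <;> omega

theorem tt_symm {A B : ℕ → Bool} (hA : IsOmega A) (hB : IsOmega B) (h : TT A B) : TT B A := by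
  obtain ⟨pos, tab, h1, h2, h3⟩ := h
  obtain ⟨k, R, r1, r2, r3⟩ := wtt hA.lc hA.2 hB.lc
  have c1 : CI ∅ pos := CI.of_comp h1
  have c2 : CI ∅ tab := CI.of_comp h2
  let S : Sys := ⟨fun r => (pos r).sum + 1, fun q => tab (q.1, (pos q.1).map (ext q.2)),
    fun n => 2 * n + k + 1, by fun_prop, by fun_prop, by fun_prop, fun _ _ _ => by dsimp only; omega⟩
  have e : S.F B = A := funext fun r => by
    rw [h3]
    exact congrArg (fun l => tab (r, l)) (List.map_congr_left fun i hi => getD_pre B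
      (Nat.lt_succ_of_le (List.single_le_sum (fun _ _ => Nat.zero_le _) _ hi)) false)
  obtain ⟨m, hm⟩ := Sys.halve (S := S) hB.2 r1 r2 fun n => by rw [Sys.o, e]; exact r3 n
  obtain ⟨c', e'⟩ : ∃ c' : ℕ × List Bool × List Bool → ℕ, ∀ n σ τ, S.cnt n σ τ = c' (n, σ, τ) :=
    ⟨fun q => S.cnt q.1 q.2.1 q.2.2, fun _ _ _ => rfl⟩
  have c3 : CI ∅ c' := S.ci_cnt.of_eq fun q => e' _ _ _
  refine ⟨fun n => List.range (2 * (n + m + 1) + k + 1), fun q => ext (((W (q.1 + m + 1)).find?
    fun τ => τ.take m == pre B m && decide (c' (q.1 + m + 1, q.2, pre B m) <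
      2 * c' (q.1 + m + 1, q.2, τ))).getD []) q.1, CI.computable (by fun_prop),
    CI.computable (by fun_prop), fun n => ?_⟩
  have h4 := hm (n + m + 1) (by omega)
  rw [Sys.o, e] at h4
  simp only [← e']
  change _ = ext ((List.find? (fun τ => τ.take m == pre B m && decide (S.cnt (n + m + 1)
    (pre A (S.g (n + m + 1))) (pre B m) < 2 * S.cnt (n + m + 1) (pre A (S.g (n + m + 1))) τ))
      (W (n + m + 1))).getD []) n
  generalize pre A (S.g (n + m + 1)) = σ at *
  cases hf : List.find? (fun τ => τ.take m == pre B m && decide (S.cnt (n + m + 1) σ (pre B m) <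
      2 * S.cnt (n + m + 1) σ τ)) (W (n + m + 1)) with
  | none =>
    have := List.find?_eq_none.1 hf (pre B (n + m + 1)) (mem_W.2 (by simp))
    simp [take_pre B (show m ≤ n + m + 1 by omega), h4] at this
  | some τ =>
    have l := mem_W.1 (List.mem_of_find?_eq_some hf)
    have h5 := List.find?_some hf
    simp only [Bool.and_eq_true, beq_iff_eq, decide_eq_true_eq] at h5
    obtain rfl : τ = pre B (n + m + 1) := by
      by_contra ne
      have := cnt_add (W (S.h (n + m + 1))) (p := S.tst (n + m + 1) σ τ)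
        (q := S.tst (n + m + 1) σ (pre B (n + m + 1))) (r := S.tst (n + m + 1) σ (pre B m))
        (fun ρ h => ?_) (fun ρ h => ?_) fun ρ h h' => ?_
      · unfold Sys.cnt at h4 h5; omega
      all_goals simp only [Sys.tst, Bool.and_eq_true, beq_iff_eq, length_pre, l] at *
      · exact ⟨h.1, by rw [← h5.1, ← h.2, take_pre _ (by omega)]⟩
      · exact ⟨h.1, Sys.pre_le (by omega) h.2⟩
      · exact ne (h.2.symm.trans h'.2)
    exact (getD_pre B (by omega) false).symm

/-- one third -/
def T (y : ℕ → Bool) (n : ℕ) : Bool := v y (n + 1) / 3 % 2 == 1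

theorem v_T (y : ℕ → Bool) (n : ℕ) : v (T y) n = v y n / 3 := by
  induction n with
  | zero => simp [v, pre, bv]
  | succ n ih =>
    rw [v_succ, ih, T]
    have := v_succ y n
    have := Bool.toNat_le (y n)
    rcases Nat.mod_two_eq_zero_or_one (v y (n + 1) / 3) with h | h <;> simp [h] <;> omega

theorem LC.third {B : ℕ → Bool} (h : LC B) : LC (T B) :=
  (REPred.comp' h (g := fun p : ℕ × ℕ => (p.1, p.2 * 3)) (by fun_prop)).of_eq fun p => by
    rw [v_T, Nat.le_div_iff_mul_le (by norm_num)]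

theorem third_ml {B : ℕ → Bool} (h : MLRandom B) : MLRandom (T B) := fun V hV hm => by
  have e : ∀ y n, pre (T (ext (pre y n))) n = pre (T y) n := fun y n => by
    rw [← v_inj, v_T, v_T, v_inj.2 (pre_ext_pre y le_rfl)]
  obtain ⟨k, hk⟩ := h (fun q => V (q.1 + 2, pre (T (ext q.2)) q.2.length))
    (REPred.comp' hV (by unfold T v; fun_prop)) fun k => by
      classical
      simp only [cut_eq, length_pre, e]
      let K : List Bool → Set (ℕ → Bool) := fun σ =>
        if V (k + 2, σ) ∧ ∀ j < σ.length, ¬ V (k + 2, σ.take j) then cyl σ else ∅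
      have dj : ∀ σ τ : List Bool, σ.length ≤ τ.length → ∀ x ∈ K σ, x ∈ K τ → σ = τ := by
        intro σ τ l x a b
        simp only [K] at a b
        split_ifs at a b with c d
        · have a' : pre x σ.length = σ := a
          have b' : pre x τ.length = τ := b
          rcases l.lt_or_eq with l' | l'
          · exact absurd (by rw [← b', take_pre x l, a']; exact c.1) (d.2 _ l')
          · rw [← a', l', b']
        all_goals simp_all
      refine le_trans (measure_mono fun x hx => ?_) ((shrink (K := K) (θ := 3)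
        (E := {x | ∃ n, V (k + 2, cut x n)}) (A := fun σ => T ⁻¹' K σ) (fun σ => ?_)
        (fun σ τ hne => ?_) (fun σ => ?_) fun σ => ?_).trans ?_)
      · refine Set.mem_iUnion.2 ⟨pre (T x) (Nat.find hx), ?_⟩
        simp only [K, Set.mem_preimage]
        rw [if_pos ⟨Nat.find_spec hx, fun j hj => by
          rw [length_pre] at hj
          rw [take_pre _ hj.le]; exact Nat.find_min hx hj⟩]
        simp [cyl]
      · simp only [K]; split_ifs; exacts [meas_cyl σ, MeasurableSet.empty]
      · exact Set.disjoint_left.2 fun x a b => hne ((le_total σ.length τ.length).elim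
          (fun h => dj σ τ h x a b) fun h => (dj τ σ h x b a).symm)
      · simp only [K]; split_ifs with a
        · exact fun x hx => ⟨σ.length, by rw [cut_eq, show pre x σ.length = σ from hx]; exact a.1⟩
        · exact Set.empty_subset _
      · simp only [K]; split_ifs
        · refine (measure_mono (t := ⋃ j ∈ Finset.range 3, {y | v y σ.length = 3 * bv σ + j})
            fun y hy => ?_).trans ((measure_biUnion_finset_le _ _).trans
              ((Finset.sum_le_card_nsmul _ _ _ fun j _ => P_v_le _ _).trans (by simp [P_cyl])))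
          have : v y σ.length / 3 = bv σ := by rw [← v_T]; exact congrArg bv hy
          exact Set.mem_iUnion₂.2 ⟨v y σ.length % 3, Finset.mem_range.2 (by omega),
            show v y σ.length = _ by omega⟩
        · simp
      · refine (mul_le_mul' (show (3 : ℝ≥0∞) ≤ 2 ^ 2 by norm_num) (hm _)).trans ?_
        rw [add_comm, pw]
  exact ⟨k + 2, fun n hn => hk n (by simpa only [cut_eq, length_pre, e] using hn)⟩

theorem sw_third (B : ℕ → Bool) : SW (T B) B :=
  ⟨0, fun q => Part.some (bv q.2 / 3 % 2 == 1), (CI.computable (by fun_prop)).partrec,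
    fun _ => Part.mem_some _⟩

theorem pat {B : ℕ → Bool} (hB : MLRandom B) (m c : ℕ) : ∃ L, m + c + 2 ≤ L ∧ v B L % 3 = 2 ∧
    v B L % 2 ^ c = 0 ∧ v B L % 2 ^ (c + 2) ≠ 0 := by
  suffices h : ∀ ρ : List Bool, ∃ w : List Bool, w.length = m + c + 2 ∧
      (!(decide (m + c + 2 ≤ (ρ ++ w).length) && bv (ρ ++ w) % 3 == 2 &&
        bv (ρ ++ w) % 2 ^ c == 0 && bv (ρ ++ w) % 2 ^ (c + 2) != 0)) = false by
    obtain ⟨L, hL⟩ := porous (Q := fun ρ => !(decide (m + c + 2 ≤ ρ.length) && bv ρ % 3 == 2 &&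
      bv ρ % 2 ^ c == 0 && bv ρ % 2 ^ (c + 2) != 0)) (by fun_prop) (m + c + 2) h hB
    simp only [length_pre, Bool.not_eq_false', Bool.and_eq_true, decide_eq_true_eq, beq_iff_eq,
      bne_iff_ne] at hL
    exact ⟨L, hL.1.1.1, hL.1.1.2, hL.1.2, hL.2⟩
  intro ρ
  have app : ∀ w : List Bool, bv (ρ ++ w) = bv ρ * 2 ^ w.length + bv w := fun w => by
    induction w using List.reverseRecOn with
    | nil => simp [bv]
    | append_singleton w b ih =>
      rw [← List.append_assoc, bv_concat, bv_concat, ih, List.length_append, pow_add]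
      simp; ring
  obtain ⟨t, t1, t2, t3⟩ : ∃ t, 0 < t ∧ t < 4 ∧ (bv ρ * 2 ^ (m + c + 2) + 2 ^ c * t) % 3 = 2 := by
    have : 2 ^ c % 3 ≠ 0 := fun h => by
      simpa using (Nat.prime_three.dvd_of_dvd_pow (Nat.dvd_of_mod_eq_zero h))
    generalize bv ρ * 2 ^ (m + c + 2) = x
    generalize 2 ^ c = y at *
    by_contra! h
    have h1 := h 1 (by omega) (by omega)
    have h2 := h 2 (by omega) (by omega)
    have h3 := h 3 (by omega) (by omega)
    rw [Nat.add_mod, Nat.mul_mod] at h1 h2 h3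
    have := Nat.mod_lt x three_pos
    have := Nat.mod_lt y three_pos
    generalize x % 3 = a at *
    generalize y % 3 = b at *
    interval_cases a <;> interval_cases b <;> simp_all
  have lt : 2 ^ c * t < 2 ^ (c + 2) := by
    rw [pow_add]; exact Nat.mul_lt_mul_of_pos_left t2 (by positivity)
  obtain ⟨w, w1, w2⟩ := bv_surj (m + c + 2) (2 ^ c * t)
    (lt.trans_le (Nat.pow_le_pow_right two_pos (by omega)))
  refine ⟨w, w1, ?_⟩
  have e1 : (bv ρ * 2 ^ (m + c + 2) + 2 ^ c * t) % 2 ^ c = 0 :=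
    Nat.mod_eq_zero_of_dvd (Nat.dvd_add ((pow_dvd_pow 2 (by omega)).mul_left _)
      (Nat.dvd_mul_right _ _))
  have e2 : (bv ρ * 2 ^ (m + c + 2) + 2 ^ c * t) % 2 ^ (c + 2) ≠ 0 := fun h =>
    (Nat.le_of_dvd (by positivity) ((Nat.dvd_add_right ((pow_dvd_pow 2 (by omega)).mul_left
      _)).1 (Nat.dvd_of_mod_eq_zero h))).not_gt lt
  simp [app, w1, w2, t3, e1, e2]

theorem not_sw {B : ℕ → Bool} (hB : MLRandom B) : ¬ SW B (T B) := by
  rintro ⟨c, Γ, h1, h2⟩
  let S : Sys := ⟨fun r => r + 1, fun q => bv q.2 / 3 % 2 == 1, fun n => n + c, by fun_prop,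
    by fun_prop, by fun_prop, fun _ _ _ => by dsimp only; omega⟩
  have eo : ∀ n y, S.o n y = pre (T y) (n + c) := fun _ _ => rfl
  have r0 : REPred fun a : (ℕ × List Bool × List Bool) × ℕ =>
      ext a.1.2.2 a.2 ∈ Γ (a.2, a.1.2.1.take (a.2 + c + 1)) :=
    REPred.comp' (re_mem h1) (g := fun a : (ℕ × List Bool × List Bool) × ℕ =>
      ((a.2, a.1.2.1.take (a.2 + c + 1)), ext a.1.2.2 a.2)) (by fun_prop)
  have r1 : REPred fun q : ℕ × List Bool × List Bool =>
      ∀ j ∈ List.range q.1, ext q.2.2 j ∈ Γ (j, q.2.1.take (j + c + 1)) :=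
    re_forall_mem (p := fun (q : ℕ × List Bool × List Bool) j =>
      ext q.2.2 j ∈ Γ (j, q.2.1.take (j + c + 1))) r0 (by fun_prop)
  obtain ⟨m, hm⟩ := Sys.halve (S := S) hB (R := fun q => q.2.2.length = q.1 ∧
    ∀ j ∈ List.range q.1, ext q.2.2 j ∈ Γ (j, q.2.1.take (j + c + 1)))
    (re_and (re_of_bool (fun q => q.2.2.length == q.1) (by fun_prop) fun _ => by simp) r1)
    (fun n σ τ τ' a b => by
      rw [← pre_ext τ, ← pre_ext τ', show τ.length = n from a.1, show τ'.length = n from b.1]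
      exact pre_congr fun j hj => Part.mem_unique (a.2 j (List.mem_range.2 hj))
        (b.2 j (List.mem_range.2 hj)))
    fun n => ⟨by simp, fun j hj => by
      rw [List.mem_range] at hj
      rw [eo, take_pre _ (by omega), ext, getD_pre B hj]
      exact h2 j⟩
  obtain ⟨L, l1, l2, l3, l4⟩ := pat hB m c
  obtain ⟨n, rfl⟩ : ∃ n, L = n + c := ⟨L - c, by omega⟩
  have h3 : P (S.C n B m) < 2 * P (S.C n B n) := by
    rw [Sys.P_C (by omega), Sys.P_C le_rfl, ← mul_assoc]
    exact ENNReal.mul_lt_mul_left (by simp) (by simp) (by exact_mod_cast hm n (by omega))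
  have h4 : S.C n B n ⊆ {y | v y (n + c) = v B (n + c)} := fun y hy => by
    have a := v_inj.2 hy.1
    have b := v_inj.2 hy.2
    change v (T y) (n + c) = v (T B) (n + c) at a
    rw [v_T, v_T] at a
    rw [← v_add y n c, ← v_add B n c] at b
    have := Nat.div_add_mod (v B (n + c)) (2 ^ c)
    have := Nat.div_add_mod (v y (n + c)) (2 ^ c)
    rw [b] at this
    change v y (n + c) = v B (n + c)
    omega
  have h5 : {y | v y (n + c) = v B (n + c)} ∪ {y | v y (n + c) = v B (n + c) - 1} ⊆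
      S.C n B m := fun y hy => by
    obtain ⟨d, hd⟩ : ∃ d, n + c = m + (c + 2 + d) := ⟨n - m - 2, by omega⟩
    rw [Sys.C, Set.mem_setOf_eq, eo, eo, ← v_inj, ← v_inj, v_T, v_T, ← v_add y m (c + 2 + d),
      ← v_add B m (c + 2 + d), ← hd]
    rcases hy with hy | hy <;> rw [show v y (n + c) = _ from hy]
    · exact ⟨rfl, rfl⟩
    · refine ⟨by omega, ?_⟩
      obtain ⟨t, ht⟩ : ∃ t, v B (n + c) = t + 1 := ⟨v B (n + c) - 1, by omega⟩
      rw [ht] at l4 ⊢
      rw [Nat.succ_div, if_neg fun h => l4 (Nat.mod_eq_zero_of_dvd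
        ((pow_dvd_pow 2 (Nat.le_add_right _ d)).trans h))]
      rfl
  have h6 := measure_mono (μ := P) h5
  rw [measure_union (Set.disjoint_left.2 fun y a b => by
    simp only [Set.mem_setOf_eq] at a b; omega) (meas_v _ (· = _)), P_v (v_lt _ _),
    P_v ((Nat.sub_le _ _).trans_lt (v_lt _ _)), ← two_mul] at h6
  exact (h6.trans_lt h3).not_ge (by gcongr; exact (measure_mono h4).trans (P_v_le _ _))

end Pool.Agent.H83.Om
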