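import Mathlib

namespace Pool.Agent.H83.Pl1

open Set MeasureTheory

abbrev T := ℝ × ℝ × ℝ

def Lt (p q : T) : Prop := p.2.1 < q.1 ∧ p.2.2 < q.2.2 ∧ p.2.1 - p.2.2 < q.1 - q.2.2

def Valid (P : Finset T) : Prop :=
  (∀ p ∈ P, p.1 ≤ p.2.1) ∧ ∀ p ∈ P, ∀ q ∈ P, p = q ∨ Lt p q ∨ Lt q p

lemma choose_between {D : Set ℝ} (hD : Dense D) (L U : Finset ℝ) (h : ∀ l ∈ L, ∀ u ∈ U, l < u) :
    ∃ g ∈ D, (∀ l ∈ L, l < g) ∧ ∀ u ∈ U, g < u := by
  have key : ∃ x y : ℝ, x < y ∧ (∀ l ∈ L, l ≤ x) ∧ ∀ u ∈ U, y ≤ u := by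
    rcases L.eq_empty_or_nonempty with rfl | hL
    · rcases U.eq_empty_or_nonempty with rfl | hU
      · exact ⟨0, 1, one_pos, by simp, by simp⟩
      · exact ⟨U.min' hU - 1, U.min' hU, by linarith, by simp, fun u hu => U.min'_le u hu⟩
    · rcases U.eq_empty_or_nonempty with rfl | hU
      · exact ⟨L.max' hL, L.max' hL + 1, by linarith, fun l hl => L.le_max' l hl, by simp⟩
      · exact ⟨L.max' hL, U.min' hU, h _ (L.max'_mem hL) _ (U.min'_mem hU),
          fun l hl => L.le_max' l hl, fun u hu => U.min'_le u hu⟩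
  obtain ⟨x, y, hxy, h1, h2⟩ := key
  obtain ⟨g, hg, hg1, hg2⟩ := hD.exists_between hxy
  exact ⟨g, hg, fun l hl => (h1 l hl).trans_lt hg1, fun u hu => hg2.trans_le (h2 u hu)⟩

lemma valid_insert {P : Finset T} (hP : Valid P) (r : T) (hr : r.1 ≤ r.2.1)
    (h : ∀ p ∈ P, Lt p r ∨ Lt r p) : Valid (insert r P) := by
  refine ⟨fun p hp => ?_, fun p hp q hq => ?_⟩
  · rcases Finset.mem_insert.1 hp with rfl | hp
    · exact hr
    · exact hP.1 p hp
  · rcases Finset.mem_insert.1 hp with e1 | hp' <;> rcases Finset.mem_insert.1 hq with e2 | hq'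
    · exact Or.inl (e1.trans e2.symm)
    · rw [e1]; exact Or.inr (h q hq').symm
    · rw [e2]; exact Or.inr (h p hp')
    · exact hP.2 p hp' q hq'

/-- Insert a point on the domain side. -/
lemma ins_point {D : Set ℝ} (hD : Dense D) {P : Finset T} (hP : Valid P) (t : ℝ)
    (ht : ∀ p ∈ P, p.2.1 < t ∨ t < p.1) : ∃ g ∈ D, Valid (insert (t, t, g) P) := by
  classical
  obtain ⟨g, hg, h1, h2⟩ := choose_between hD
    (P.image (fun p => if p.2.1 < t then p.2.2 else t - p.1 + p.2.2))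
    (P.image (fun p => if p.2.1 < t then t - p.2.1 + p.2.2 else p.2.2)) (by
      intro l hl u hu
      obtain ⟨p, hp, rfl⟩ := Finset.mem_image.1 hl
      obtain ⟨q, hq, rfl⟩ := Finset.mem_image.1 hu
      have a1 := hP.1 p hp
      have a2 := hP.1 q hq
      have a3 := ht p hp
      have a4 := ht q hq
      rcases hP.2 p hp q hq with rfl | ⟨b1, b2, b3⟩ | ⟨b1, b2, b3⟩ <;> split_ifs <;>
        rcases a3 with a3 | a3 <;> rcases a4 with a4 | a4 <;> linarith)
  refine ⟨g, hg, valid_insert hP _ le_rfl (fun p hp => ?_)⟩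
  have c1 := h1 _ (Finset.mem_image_of_mem _ hp)
  have c2 := h2 _ (Finset.mem_image_of_mem _ hp)
  have a1 := hP.1 p hp
  by_cases hc : p.2.1 < t
  · rw [if_pos hc] at c1 c2
    exact Or.inl ⟨hc, c1, by simp only; linarith⟩
  · rw [if_neg hc] at c1 c2
    exact Or.inr ⟨(ht p hp).resolve_left hc, c2, by simp only; linarith⟩

/-- Insert an interval on the range side. -/
lemma ins_range {D : Set ℝ} (hD : Dense D) {P : Finset T} (hP : Valid P) (c d : ℝ) (hcd : c ≤ d)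
    (ht : ∀ p ∈ P, p.2.1 - p.2.2 < c ∨ d < p.1 - p.2.2) :
    ∃ g ∈ D, Valid (insert (c + g, d + g, g) P) := by
  classical
  obtain ⟨g, hg, h1, h2⟩ := choose_between hD
    ((P.filter (fun p => p.2.1 - p.2.2 < c)).image (fun p => max p.2.2 (p.2.1 - c)))
    ((P.filter (fun p => d < p.1 - p.2.2)).image (fun p => min p.2.2 (p.1 - d))) (by
      intro l hl u hu
      obtain ⟨p, hp, rfl⟩ := Finset.mem_image.1 hl
      obtain ⟨q, hq, rfl⟩ := Finset.mem_image.1 hu
      obtain ⟨hp, a3⟩ := Finset.mem_filter.1 hp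
      obtain ⟨hq, a4⟩ := Finset.mem_filter.1 hq
      have a1 := hP.1 p hp
      have a2 := hP.1 q hq
      rcases hP.2 p hp q hq with rfl | ⟨b1, b2, b3⟩ | ⟨b1, b2, b3⟩
      · linarith
      · rw [max_lt_iff, lt_min_iff, lt_min_iff]
        refine ⟨⟨?_, ?_⟩, ?_, ?_⟩ <;> linarith
      · linarith)
  refine ⟨g, hg, valid_insert hP _ (by simp only; linarith) (fun p hp => ?_)⟩
  rcases ht p hp with hc | hc
  · have := h1 _ (Finset.mem_image_of_mem _ (Finset.mem_filter.2 ⟨hp, hc⟩))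
    rw [max_lt_iff] at this
    exact Or.inl ⟨by simp only; linarith [this.2], this.1, by simp only; linarith⟩
  · have := h2 _ (Finset.mem_image_of_mem _ (Finset.mem_filter.2 ⟨hp, hc⟩))
    rw [lt_min_iff] at this
    exact Or.inr ⟨by simp only; linarith [this.2], this.1, by simp only; linarith⟩

def Good (U N : Set ℝ) (I : Finset (ℝ × ℝ)) : Prop :=
  (∀ p ∈ I, p.1 ≤ p.2 ∧ Icc p.1 p.2 ⊆ U ∧ p.1 ∉ N ∧ p.2 ∉ N) ∧
    ∀ p ∈ I, ∀ q ∈ I, p = q ∨ p.2 < q.1 ∨ q.2 < p.1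

lemma merge (U N : Set ℝ) (I : Finset (ℝ × ℝ)) (hI : Good U N I) :
    ∀ a b : ℝ, a ≤ b → Icc a b ⊆ U → a ∉ N → b ∉ N →
    ∃ J, Good U N J ∧ (∀ x ∈ Icc a b, ∃ q ∈ J, x ∈ Icc q.1 q.2) ∧
      (∀ p ∈ I, ∀ x ∈ Icc p.1 p.2, ∃ q ∈ J, x ∈ Icc q.1 q.2) ∧
      ∀ q ∈ J, ∀ x ∈ Icc q.1 q.2, x ∈ Icc a b ∨ ∃ p ∈ I, x ∈ Icc p.1 p.2 := by
  classical
  induction I using Finset.induction_on with
  | empty =>
    intro a b h1 h2 h3 h4
    exact ⟨{(a, b)}, ⟨by simpa using ⟨h1, h2, h3, h4⟩, by simp⟩,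
      fun x hx => ⟨(a, b), Finset.mem_singleton_self _, hx⟩, by simp,
      fun q hq x hx => Or.inl (by rw [Finset.mem_singleton.1 hq] at hx; exact hx)⟩
  | insert r I hr ih =>
    intro a b h1 h2 h3 h4
    have hI' : Good U N I := ⟨fun p hp => hI.1 p (Finset.mem_insert_of_mem hp),
      fun p hp q hq => hI.2 p (Finset.mem_insert_of_mem hp) q (Finset.mem_insert_of_mem hq)⟩
    obtain ⟨r1, r2, r3, r4⟩ := hI.1 r (Finset.mem_insert_self _ _)
    by_cases hd : r.2 < a ∨ b < r.1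
    · obtain ⟨J, j1, j2, j3, j4⟩ := ih hI' a b h1 h2 h3 h4
      have hdis : ∀ q ∈ J, r.2 < q.1 ∨ q.2 < r.1 := by
        intro q hq
        by_contra hc
        push Not at hc
        have q1 := (j1.1 q hq).1
        rcases j4 q hq (max q.1 r.1) ⟨le_max_left _ _, max_le q1 hc.2⟩ with h | ⟨p, hp, h⟩
        · have := max_le hc.1 r1
          have := le_max_right q.1 r.1
          rcases hd with hd | hd <;> linarith [h.1, h.2]
        · have := max_le hc.1 r1
          have := le_max_right q.1 r.1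
          rcases hI.2 p (Finset.mem_insert_of_mem hp) r (Finset.mem_insert_self _ _) with
            rfl | h5 | h5
          · exact hr hp
          · linarith [h.1, h.2]
          · linarith [h.1, h.2]
      refine ⟨insert r J, ⟨fun p hp => ?_, fun p hp q hq => ?_⟩, fun x hx => ?_,
        fun p hp x hx => ?_, fun q hq x hx => ?_⟩
      · rcases Finset.mem_insert.1 hp with rfl | hp
        · exact ⟨r1, r2, r3, r4⟩
        · exact j1.1 p hp
      · rcases Finset.mem_insert.1 hp with e1 | hp' <;> rcases Finset.mem_insert.1 hq with e2 | hq'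
        · exact Or.inl (e1.trans e2.symm)
        · rw [e1]; exact Or.inr (hdis q hq')
        · rw [e2]; exact Or.inr (hdis p hp').symm
        · exact j1.2 p hp' q hq'
      · obtain ⟨q, hq, h⟩ := j2 x hx; exact ⟨q, Finset.mem_insert_of_mem hq, h⟩
      · rcases Finset.mem_insert.1 hp with rfl | hp
        · exact ⟨p, Finset.mem_insert_self _ _, hx⟩
        · obtain ⟨q, hq, h⟩ := j3 p hp x hx; exact ⟨q, Finset.mem_insert_of_mem hq, h⟩
      · rcases Finset.mem_insert.1 hq with rfl | hq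
        · exact Or.inr ⟨q, Finset.mem_insert_self _ _, hx⟩
        · rcases j4 q hq x hx with h | ⟨p, hp, h⟩
          · exact Or.inl h
          · exact Or.inr ⟨p, Finset.mem_insert_of_mem hp, h⟩
    · push Not at hd
      have hu : ∀ x ∈ Icc (min a r.1) (max b r.2), x ∈ Icc a b ∨ x ∈ Icc r.1 r.2 := by
        intro x hx
        have x1 := min_le_iff.1 hx.1
        have x2 := le_max_iff.1 hx.2
        simp only [mem_Icc]
        by_cases e1 : a ≤ x <;> by_cases e2 : x ≤ b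
        · exact Or.inl ⟨e1, e2⟩
        · exact Or.inr ⟨by linarith [hd.2], x2.resolve_left e2⟩
        · exact Or.inr ⟨x1.resolve_left e1, by linarith [hd.1]⟩
        · exact Or.inr ⟨x1.resolve_left e1, x2.resolve_left e2⟩
      obtain ⟨J, j1, j2, j3, j4⟩ := ih hI' (min a r.1) (max b r.2)
        ((min_le_left _ _).trans (h1.trans (le_max_left _ _)))
        (fun x hx => (hu x hx).elim (fun h => h2 h) (fun h => r2 h))
        (by rcases min_choice a r.1 with h | h <;> rw [h] <;> assumption)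
        (by rcases max_choice b r.2 with h | h <;> rw [h] <;> assumption)
      refine ⟨J, j1, fun x hx => j2 x ⟨(min_le_left _ _).trans hx.1, hx.2.trans (le_max_left _ _)⟩,
        fun p hp x hx => ?_, fun q hq x hx => ?_⟩
      · rcases Finset.mem_insert.1 hp with rfl | hp
        · exact j2 x ⟨(min_le_right _ _).trans hx.1, hx.2.trans (le_max_right _ _)⟩
        · exact j3 p hp x hx
      · rcases j4 q hq x hx with h | ⟨p, hp, h⟩
        · exact (hu x h).imp id (fun h => ⟨r, Finset.mem_insert_self _ _, h⟩)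
        · exact Or.inr ⟨p, Finset.mem_insert_of_mem hp, h⟩

lemma cover (K U N : Set ℝ) (hK : IsCompact K) (hU : IsOpen U) (hKU : K ⊆ U)
    (hN : volume N = 0) : ∃ J, Good U N J ∧ ∀ x ∈ K, ∃ q ∈ J, x ∈ Icc q.1 q.2 := by
  have hd : Dense Nᶜ := Measure.dense_of_ae (μ := volume) (by
    rw [ae_iff]; simpa using hN)
  refine hK.induction_on (p := fun S => ∃ J, Good U N J ∧ ∀ x ∈ S, ∃ q ∈ J, x ∈ Icc q.1 q.2)
    ⟨∅, ⟨by simp, by simp⟩, by simp⟩ ?_ ?_ ?_
  · rintro s t hst ⟨J, h1, h2⟩; exact ⟨J, h1, fun x hx => h2 x (hst hx)⟩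
  · rintro s t ⟨J, h1, h2⟩ ⟨J', h3, h4⟩
    have : ∀ A : Finset (ℝ × ℝ), A ⊆ J' → ∃ M, Good U N M ∧ (∀ x ∈ s, ∃ q ∈ M, x ∈ Icc q.1 q.2) ∧
        ∀ p ∈ A, ∀ x ∈ Icc p.1 p.2, ∃ q ∈ M, x ∈ Icc q.1 q.2 := by
      classical
      intro A
      induction A using Finset.induction_on with
      | empty => intro _; exact ⟨J, h1, h2, by simp⟩
      | insert r A _ ih =>
        intro hA
        obtain ⟨M, m1, m2, m3⟩ := ih (fun x hx => hA (Finset.mem_insert_of_mem hx))
        obtain ⟨r1, r2, r3, r4⟩ := h3.1 r (hA (Finset.mem_insert_self _ _))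
        obtain ⟨M', j1, j2, j3, _⟩ := merge U N M m1 r.1 r.2 r1 r2 r3 r4
        refine ⟨M', j1, fun x hx => ?_, fun p hp x hx => ?_⟩
        · obtain ⟨q, hq, h⟩ := m2 x hx; exact j3 q hq x h
        · rcases Finset.mem_insert.1 hp with rfl | hp
          · exact j2 x hx
          · obtain ⟨q, hq, h⟩ := m3 p hp x hx; exact j3 q hq x h
    obtain ⟨M, m1, m2, m3⟩ := this J' (fun _ h => h)
    refine ⟨M, m1, fun x hx => hx.elim (m2 x) (fun hx => ?_)⟩
    obtain ⟨q, hq, h⟩ := h4 x hx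
    exact m3 q hq x h
  · intro x hx
    obtain ⟨l, u, ⟨hl, hu⟩, hs⟩ := mem_nhds_iff_exists_Ioo_subset.1 (hU.mem_nhds (hKU hx))
    obtain ⟨a, ha, a1, a2⟩ := hd.exists_between hl
    obtain ⟨b, hb, b1, b2⟩ := hd.exists_between hu
    refine ⟨Icc a b, mem_nhdsWithin_of_mem_nhds (Icc_mem_nhds a2 b1), {(a, b)}, ⟨?_, by simp⟩,
      by simp⟩
    intro p hp
    rw [Finset.mem_singleton.1 hp]
    exact ⟨(a2.trans b1).le, fun y hy => hs ⟨a1.trans_le hy.1, hy.2.trans_lt b2⟩, ha, hb⟩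

end Pool.Agent.H83.Pl1
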