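import Mathlib
import Pool.Agent.H83.Pl1

namespace Pool.Agent.H83.Pl2

open Set MeasureTheory Pool.Agent.H83.Pl1

/-- Insert finitely many points. -/
lemma ins_points {D : Set ℝ} (hD : Dense D) {Q : Finset T} (hQ : Valid Q) (S : Finset ℝ)
    (hS : ∀ t ∈ S, ∀ p ∈ Q, p.2.1 < t ∨ t < p.1) :
    ∃ Q', Valid Q' ∧ Q ⊆ Q' ∧ (∀ t ∈ S, ∃ g ∈ D, (t, t, g) ∈ Q') ∧
      ∀ p ∈ Q', p ∈ Q ∨ (p.1 ∈ S ∧ p.2.1 = p.1) := by
  classical
  induction S using Finset.induction_on with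
  | empty => exact ⟨Q, hQ, fun _ h => h, by simp, fun p hp => Or.inl hp⟩
  | insert t S ht ih =>
    obtain ⟨Q', h1, h2, h3, h4⟩ := ih (fun s hs => hS s (Finset.mem_insert_of_mem hs))
    obtain ⟨g, hg, hv⟩ := ins_point hD h1 t (fun p hp => by
      rcases h4 p hp with h | ⟨h5, h6⟩
      · exact hS t (Finset.mem_insert_self _ _) p h
      · rw [h6]; exact lt_or_gt_of_ne (fun e => ht (e ▸ h5)))
    refine ⟨_, hv, fun p hp => Finset.mem_insert_of_mem (h2 hp), fun s hs => ?_, fun p hp => ?_⟩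
    · rcases Finset.mem_insert.1 hs with e | hs
      · exact ⟨g, hg, e ▸ Finset.mem_insert_self _ _⟩
      · obtain ⟨g', h5, h6⟩ := h3 s hs; exact ⟨g', h5, Finset.mem_insert_of_mem h6⟩
    · rcases Finset.mem_insert.1 hp with e | hp
      · exact Or.inr (by rw [e]; exact ⟨Finset.mem_insert_self _ _, rfl⟩)
      · exact (h4 p hp).imp id (fun h => ⟨Finset.mem_insert_of_mem h.1, h.2⟩)

/-- Domain step. -/
lemma dom_step {D : Set ℝ} (hD : Dense D) {P : Finset T} (hP : Valid P) (K N : Set ℝ)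
    (hK : IsCompact K) (hK0 : volume K = 0) (hN : volume N = 0)
    (hKP : ∀ p ∈ P, ∀ x ∈ K, x ∉ Icc p.1 p.2.1) :
    ∃ P', Valid P' ∧ P ⊆ P' ∧ (∀ x ∈ K, ∃ p ∈ P', x ∈ Icc p.1 p.2.1) ∧
      ∀ p ∈ P', p ∈ P ∨ (p.2.2 ∈ D ∧ p.1 ∉ N ∧ p.2.1 ∉ N) := by
  classical
  obtain ⟨δ, hδ0, hδ⟩ : ∃ δ : ℝ, 0 < δ ∧ ∀ p ∈ P, ∀ q ∈ P, Lt p q →
      δ < q.1 - q.2.2 - (p.2.1 - p.2.2) := by
    obtain ⟨g, _, h1, h2⟩ := choose_between dense_univ {0}
      (((P ×ˢ P).filter (fun x => Lt x.1 x.2)).image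
        (fun x => x.2.1 - x.2.2.2 - (x.1.2.1 - x.1.2.2))) (by
        intro l hl u hu
        obtain ⟨x, hx, rfl⟩ := Finset.mem_image.1 hu
        rw [Finset.mem_singleton.1 hl]
        linarith [(Finset.mem_filter.1 hx).2.2.2])
    exact ⟨g, h1 0 (by simp), fun p hp q hq h => h2 _ (Finset.mem_image.2 ⟨(p, q),
      Finset.mem_filter.2 ⟨Finset.mem_product.2 ⟨hp, hq⟩, h⟩, rfl⟩)⟩
  obtain ⟨U0, hU1, hU2, hU3⟩ := K.exists_isOpen_lt_of_lt (μ := volume) (ENNReal.ofReal δ)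
    (by rw [hK0]; exact ENNReal.ofReal_pos.2 hδ0)
  have hcl : IsClosed (⋃ p ∈ P, Icc p.1 p.2.1) := isClosed_biUnion_finset (fun _ _ => isClosed_Icc)
  obtain ⟨J, hJ, hJK⟩ := cover K (U0 ∩ (⋃ p ∈ P, Icc p.1 p.2.1)ᶜ) N hK
    (hU2.inter hcl.isOpen_compl) (fun x hx => ⟨hU1 hx, fun h =>
      (mem_iUnion₂.1 h).elim (fun p h2 => h2.elim (fun hp h3 => hKP p hp x hx h3))⟩) hN
  set W : Set ℝ := ⋃ q ∈ J, Icc q.1 q.2 with hW
  have hWc : IsClosed W := isClosed_biUnion_finset (fun _ _ => isClosed_Icc)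
  have hWU : W ⊆ U0 := iUnion₂_subset (fun q hq x hx => ((hJ.1 q hq).2.1 hx).1)
  have hWf : volume W < ENNReal.ofReal δ := (measure_mono hWU).trans_lt hU3
  have hfin : ∀ A, volume (W ∩ A) ≠ ⊤ := fun A =>
    ((measure_mono inter_subset_left).trans_lt (hWf.trans ENNReal.ofReal_lt_top)).ne
  let m : ℝ → ℝ := fun x => volume.real (W ∩ Iic x)
  have hm : ∀ x y, x ≤ y → m y - m x = volume.real (W ∩ Ioc x y) := by
    intro x y hxy
    have : W ∩ Iic y = (W ∩ Iic x) ∪ (W ∩ Ioc x y) := by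
      rw [← inter_union_distrib_left, Iic_union_Ioc_eq_Iic hxy]
    simp only [m]
    rw [this, measureReal_union (Disjoint.mono inter_subset_right inter_subset_right
      (Iic_disjoint_Ioc le_rfl)) (hWc.measurableSet.inter measurableSet_Ioc) (hfin _) (hfin _)]
    ring
  have hm0 : ∀ x y, x ≤ y → m x ≤ m y := fun x y h => by
    have := hm x y h; have := measureReal_nonneg (μ := volume) (s := W ∩ Ioc x y); linarith
  have hmδ : ∀ x y, x ≤ y → m y - m x < δ := fun x y h => by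
    rw [hm x y h]
    exact ENNReal.toReal_lt_of_lt_ofReal ((measure_mono inter_subset_left).trans_lt hWf)
  have hm1 : ∀ x y, x ≤ y → m y - m x ≤ y - x := fun x y h => by
    rw [hm x y h, ← Real.volume_real_Ioc_of_le h]
    exact measureReal_mono inter_subset_right (by simp)
  have hm2 : ∀ q ∈ J, m q.2 - m q.1 = q.2 - q.1 := fun q hq => by
    have h := (hJ.1 q hq).1
    rw [hm _ _ h, ← Real.volume_real_Ioc_of_le h, inter_eq_right.2]
    exact fun x hx => mem_iUnion₂.2 ⟨q, hq, hx.1.le, hx.2⟩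
  have hm3 : ∀ x y, x < y → (∃ z, x < z ∧ z ≤ y ∧ ∀ w, x < w → w < z → w ∉ W) →
      m y - m x < y - x := by
    rintro x y h ⟨z, h1, h2, h3⟩
    have e : m z - m x = 0 := by
      rw [hm x z h1.le]
      have : volume.real (W ∩ Ioc x z) ≤ volume.real ({z} : Set ℝ) :=
        measureReal_mono (fun w hw => by
          by_contra hne
          exact h3 w hw.2.1 (lt_of_le_of_ne hw.2.2 hne) hw.1) (by simp)
      have h5 := measureReal_nonneg (μ := volume) (s := W ∩ Ioc x z)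
      simp only [Measure.real, Real.volume_singleton, ENNReal.toReal_zero] at this h5 ⊢
      linarith
    have := hm1 z y h2
    linarith
  have hgap : ∀ x y, x < y → (∀ q ∈ J, x ∉ Ico q.1 q.2) → m y - m x < y - x := by
    intro x y h hx
    refine hm3 x y h ?_
    obtain ⟨z, _, h1, h2⟩ := choose_between dense_univ {x}
      (insert y ((J.filter (fun q => x < q.1)).image (fun q => q.1))) (by
        intro l hl u hu
        rw [Finset.mem_singleton.1 hl]
        rcases Finset.mem_insert.1 hu with e | hu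
        · rw [e]; exact h
        · obtain ⟨q, hq, rfl⟩ := Finset.mem_image.1 hu
          exact (Finset.mem_filter.1 hq).2)
    refine ⟨z, h1 x (by simp), (h2 y (by simp)).le, fun w w1 w2 hw => ?_⟩
    obtain ⟨q, hq, hwq⟩ := mem_iUnion₂.1 hw
    by_cases hc : x < q.1
    · have := h2 q.1 (Finset.mem_insert_of_mem (Finset.mem_image_of_mem _
        (Finset.mem_filter.2 ⟨hq, hc⟩)))
      linarith [hwq.1]
    · exact hx q hq ⟨not_lt.1 hc, w1.trans_le hwq.2⟩
  have hPJ : ∀ p ∈ P, ∀ q ∈ J, p.2.1 < q.1 ∨ q.2 < p.1 := by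
    intro p hp q hq
    by_contra hc
    push Not at hc
    have a1 := hP.1 p hp
    have a2 := (hJ.1 q hq).1
    have a3 : max p.1 q.1 ∈ Icc q.1 q.2 := ⟨le_max_right _ _, max_le hc.2 a2⟩
    exact ((hJ.1 q hq).2.1 a3).2
      (mem_iUnion₂.2 ⟨p, hp, le_max_left _ _, max_le a1 hc.1⟩)
  have hPe : ∀ p ∈ P, ∀ q ∈ J, p.2.1 ∉ Ico q.1 q.2 := fun p hp q hq h => by
    have a1 := hP.1 p hp
    rcases hPJ p hp q hq with h1 | h1 <;> linarith [h.1, h.2]
  have hJe : ∀ p ∈ J, ∀ q ∈ J, p.2 ∉ Ico q.1 q.2 := fun p hp q hq h => by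
    have a1 := (hJ.1 p hp).1
    rcases hJ.2 p hp q hq with rfl | h1 | h1 <;> linarith [h.1, h.2]
  let τ : T → T := fun p => (p.1 - m p.1, p.2.1 - m p.2.1, p.2.2)
  have hQ : Valid (P.image τ) := by
    have key : ∀ p ∈ P, ∀ q ∈ P, Lt p q → Lt (τ p) (τ q) := fun p hp q hq h =>
      ⟨by have := hgap _ _ h.1 (hPe p hp); simp only [τ]; linarith, h.2.1,
        by have := hmδ _ _ h.1.le; have := hδ p hp q hq h; simp only [τ]; linarith⟩
    refine ⟨fun p0 hp0 => ?_, fun p0 hp0 q0 hq0 => ?_⟩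
    · obtain ⟨p, hp, rfl⟩ := Finset.mem_image.1 hp0
      have := hm1 _ _ (hP.1 p hp); simp only [τ]; linarith
    · obtain ⟨p, hp, rfl⟩ := Finset.mem_image.1 hp0
      obtain ⟨q, hq, rfl⟩ := Finset.mem_image.1 hq0
      rcases hP.2 p hp q hq with rfl | h | h
      · exact Or.inl rfl
      · exact Or.inr (Or.inl (key p hp q hq h))
      · exact Or.inr (Or.inr (key q hq p hp h))
  obtain ⟨Q', q1, q2, q3, _⟩ := ins_points hD hQ (J.image (fun q => q.1 - m q.1)) (by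
    intro t ht p0 hp0
    obtain ⟨q, hq, rfl⟩ := Finset.mem_image.1 ht
    obtain ⟨p, hp, rfl⟩ := Finset.mem_image.1 hp0
    rcases hPJ p hp q hq with h | h
    · left; have := hgap _ _ h (hPe p hp); simp only [τ]; linarith
    · right; have := hgap _ _ h (hJe q hq); have := hm2 q hq; simp only [τ]; linarith)
  have q4 : ∀ q : J, ∃ g ∈ D, (q.1.1 - m q.1.1, q.1.1 - m q.1.1, g) ∈ Q' := fun q =>
    q3 _ (Finset.mem_image_of_mem _ q.2)
  choose σ hσ1 hσ2 using q4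
  have hall : ∀ p ∈ P ∪ Finset.univ.image (fun q : J => ((q.1.1, q.1.2, σ q) : T)),
      p.1 ≤ p.2.1 ∧ τ p ∈ Q' ∧ ∀ q ∈ J, p.2.1 ∉ Ico q.1 q.2 := by
    intro p hp
    rcases Finset.mem_union.1 hp with hp | hp
    · exact ⟨hP.1 p hp, q2 (Finset.mem_image_of_mem _ hp), hPe p hp⟩
    · obtain ⟨q, _, rfl⟩ := Finset.mem_image.1 hp
      refine ⟨(hJ.1 q.1 q.2).1, ?_, hJe q.1 q.2⟩
      have := hm2 q.1 q.2
      have e : q.1.2 - m q.1.2 = q.1.1 - m q.1.1 := by linarith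
      simp only [τ]; rw [e]; exact hσ2 q
  have hlt : ∀ p ∈ P ∪ Finset.univ.image (fun q : J => ((q.1.1, q.1.2, σ q) : T)),
      ∀ q ∈ P ∪ Finset.univ.image (fun q : J => ((q.1.1, q.1.2, σ q) : T)),
      p.2.1 < q.1 → Lt p q := by
    intro p hp q hq h
    obtain ⟨a1, a2, a3⟩ := hall p hp
    obtain ⟨b1, b2, _⟩ := hall q hq
    have c1 := hgap _ _ h a3
    have c2 := hm1 _ _ a1
    have c3 := hm1 _ _ b1
    have c4 := hm0 _ _ h.le
    rcases q1.2 _ a2 _ b2 with e | e | e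
    · have := congrArg Prod.fst e
      simp only [τ] at this; linarith
    · have e3 := e.2.2
      simp only [τ] at e3
      exact ⟨h, e.2.1, by linarith⟩
    · have e1 := e.1
      simp only [τ] at e1; linarith
  refine ⟨P ∪ Finset.univ.image (fun q : J => ((q.1.1, q.1.2, σ q) : T)),
    ⟨fun p hp => (hall p hp).1, fun p hp q hq => ?_⟩, Finset.subset_union_left, fun x hx => ?_,
    fun p hp => ?_⟩
  · have : p = q ∨ p.2.1 < q.1 ∨ q.2.1 < p.1 := by
      rcases Finset.mem_union.1 hp with hp' | hp' <;> rcases Finset.mem_union.1 hq with hq' | hq'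
      · exact (hP.2 p hp' q hq').imp id (fun h => h.imp (fun h => h.1) (fun h => h.1))
      · obtain ⟨r, _, rfl⟩ := Finset.mem_image.1 hq'
        exact Or.inr (hPJ p hp' r.1 r.2)
      · obtain ⟨r, _, rfl⟩ := Finset.mem_image.1 hp'
        exact Or.inr (hPJ q hq' r.1 r.2).symm
      · obtain ⟨r, _, rfl⟩ := Finset.mem_image.1 hp'
        obtain ⟨s, _, rfl⟩ := Finset.mem_image.1 hq'
        rcases hJ.2 r.1 r.2 s.1 s.2 with e | e
        · left; rw [Subtype.ext e]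
        · exact Or.inr e
    exact this.imp id (fun h => h.imp (hlt p hp q hq) (hlt q hq p hp))
  · obtain ⟨q, hq, h⟩ := hJK x hx
    exact ⟨_, Finset.mem_union_right _ (Finset.mem_image_of_mem _ (Finset.mem_univ ⟨q, hq⟩)), h⟩
  · rcases Finset.mem_union.1 hp with hp | hp
    · exact Or.inl hp
    · obtain ⟨q, _, rfl⟩ := Finset.mem_image.1 hp
      exact Or.inr ⟨hσ1 q, (hJ.1 q.1 q.2).2.2⟩

end Pool.Agent.H83.Pl2
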