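import Mathlib
import Pool.Agent.H83.Pl2

namespace Pool.Agent.H83.Pl3

open Set MeasureTheory Pool.Agent.H83.Pl1 Pool.Agent.H83.Pl2

lemma ran_step {D : Set ℝ} (hD : Dense D) {P : Finset T} (hP : Valid P) (K N : Set ℝ)
    (hK : IsCompact K) (hN : volume N = 0)
    (hKP : ∀ p ∈ P, ∀ x ∈ K, x ∉ Icc (p.1 - p.2.2) (p.2.1 - p.2.2)) :
    ∃ P', Valid P' ∧ P ⊆ P' ∧ (∀ x ∈ K, ∃ p ∈ P', x ∈ Icc (p.1 - p.2.2) (p.2.1 - p.2.2)) ∧
      ∀ p ∈ P', p ∈ P ∨ (p.2.2 ∈ D ∧ p.1 - p.2.2 ∉ N ∧ p.2.1 - p.2.2 ∉ N) := by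
  classical
  have hcl : IsClosed (⋃ p ∈ P, Icc (p.1 - p.2.2) (p.2.1 - p.2.2)) :=
    isClosed_biUnion_finset (fun _ _ => isClosed_Icc)
  obtain ⟨J, hJ, hJK⟩ := cover K (⋃ p ∈ P, Icc (p.1 - p.2.2) (p.2.1 - p.2.2))ᶜ N hK
    hcl.isOpen_compl (fun x hx h =>
      (mem_iUnion₂.1 h).elim (fun p h2 => h2.elim (fun hp h3 => hKP p hp x hx h3))) hN
  have key : ∀ A : Finset (ℝ × ℝ), A ⊆ J → ∃ P', Valid P' ∧ P ⊆ P' ∧
      (∀ q ∈ A, ∃ p ∈ P', p.1 - p.2.2 = q.1 ∧ p.2.1 - p.2.2 = q.2) ∧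
      ∀ p ∈ P', p ∈ P ∨ (p.2.2 ∈ D ∧ (p.1 - p.2.2, p.2.1 - p.2.2) ∈ A) := by
    intro A
    induction A using Finset.induction_on with
    | empty => intro _; exact ⟨P, hP, fun _ h => h, by simp, fun p hp => Or.inl hp⟩
    | insert r A hr ih =>
      intro hA
      obtain ⟨P', h1, h2, h3, h4⟩ := ih (fun x hx => hA (Finset.mem_insert_of_mem hx))
      have hrJ := hA (Finset.mem_insert_self _ _)
      have r1 := (hJ.1 r hrJ).1
      obtain ⟨g, hg, hv⟩ := ins_range hD h1 r.1 r.2 r1 (fun p hp => by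
        rcases h4 p hp with h | ⟨_, h⟩
        · by_contra hc
          push Not at hc
          have a1 := hP.1 p h
          have a3 : max (p.1 - p.2.2) r.1 ∈ Icc r.1 r.2 := ⟨le_max_right _ _, max_le hc.2 r1⟩
          exact (hJ.1 r hrJ).2.1 a3
            (mem_iUnion₂.2 ⟨p, h, le_max_left _ _, max_le (by linarith) hc.1⟩)
        · rcases hJ.2 _ (hA (Finset.mem_insert_of_mem h)) r hrJ with e | e
          · exact absurd (e ▸ h) hr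
          · exact e)
      refine ⟨_, hv, fun p hp => Finset.mem_insert_of_mem (h2 hp), fun q hq => ?_, fun p hp => ?_⟩
      · rcases Finset.mem_insert.1 hq with e | hq
        · exact ⟨_, Finset.mem_insert_self _ _, by rw [e]; simp⟩
        · obtain ⟨p, hp, h⟩ := h3 q hq; exact ⟨p, Finset.mem_insert_of_mem hp, h⟩
      · rcases Finset.mem_insert.1 hp with e | hp
        · exact Or.inr (by rw [e]; exact ⟨hg, by simp⟩)
        · exact (h4 p hp).imp id (fun h => ⟨h.1, Finset.mem_insert_of_mem h.2⟩)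
  obtain ⟨P', h1, h2, h3, h4⟩ := key J (fun _ h => h)
  refine ⟨P', h1, h2, fun x hx => ?_, fun p hp => (h4 p hp).imp id
    (fun h => ⟨h.1, (hJ.1 _ h.2).2.2⟩)⟩
  obtain ⟨q, hq, h⟩ := hJK x hx
  obtain ⟨p, hp, e1, e2⟩ := h3 q hq
  exact ⟨p, hp, by rw [e1, e2]; exact h⟩

theorem main (G : AddSubgroup ℝ) (hG : Dense (G : Set ℝ)) (C : ℕ → Set ℝ)
    (hC : ∀ n, IsClosed (C n) ∧ volume (C n) = 0) (hGC : (G : Set ℝ) ⊆ ⋃ n, C n) :
    ∃ f : G → G, Function.Bijective f ∧ (∀ x y, dist (f x) (f y) ≤ dist x y) ∧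
      ¬ ∀ x y, dist (f x) (f y) = dist x y := by
  classical
  obtain ⟨D, hDG, hDc, hD⟩ := hG.exists_countable_dense_subset
  set E : Set ℝ := ⋃ n, C n with hE
  have hE0 : volume E = 0 := measure_iUnion_null (fun n => (hC n).2)
  set N : Set ℝ := E ∪ ⋃ d ∈ D, ((fun x => x + d) ⁻¹' E ∪ (fun x => x + -d) ⁻¹' E) with hN
  have hN0 : volume N = 0 := measure_union_null hE0 ((measure_biUnion_null_iff hDc).2
    (fun d _ => measure_union_null (by rw [measure_preimage_add_right]; exact hE0)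
      (by rw [measure_preimage_add_right]; exact hE0)))
  let Inv : Finset T → Prop := fun P => Valid P ∧ ∀ p ∈ P, p.2.2 ∈ D ∧ p.1 ∉ E ∧ p.2.1 ∉ E ∧
    p.1 - p.2.2 ∉ E ∧ p.2.1 - p.2.2 ∉ E
  have n1 : ∀ x, x ∉ N → x ∉ E := fun x h h' => h (Or.inl h')
  have n2 : ∀ x d, d ∈ D → x ∉ N → x - d ∉ E := fun x d hd h h' =>
    h (Or.inr (mem_iUnion₂.2 ⟨d, hd, Or.inr (by simpa [sub_eq_add_neg] using h')⟩))
  have n3 : ∀ x d, d ∈ D → x - d ∉ N → x ∉ E := fun x d hd h h' =>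
    h (Or.inr (mem_iUnion₂.2 ⟨d, hd, Or.inl (by simpa using h')⟩))
  have hKc : ∀ (n : ℕ) (O : Set ℝ), IsOpen O → IsCompact
      (((⋃ j ∈ Finset.range (n + 1), C j) ∩ Icc (-(n : ℝ)) n) ∩ Oᶜ) := fun n O hO =>
    (isCompact_Icc.inter_left (isClosed_biUnion_finset (fun j _ => (hC j).1))).inter_right
      hO.isClosed_compl
  have hKE : ∀ (n : ℕ) (O : Set ℝ),
      (((⋃ j ∈ Finset.range (n + 1), C j) ∩ Icc (-(n : ℝ)) n) ∩ Oᶜ) ⊆ E := fun n O x hx =>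
    (mem_iUnion₂.1 hx.1.1).elim (fun j h => h.elim (fun _ h => mem_iUnion.2 ⟨j, h⟩))
  have step : ∀ (n : ℕ) (P : Finset T), Inv P → ∃ P', Inv P' ∧ P ⊆ P' ∧
      ∀ x ∈ (⋃ j ∈ Finset.range (n + 1), C j) ∩ Icc (-(n : ℝ)) n,
        (∃ p ∈ P', x ∈ Icc p.1 p.2.1) ∧ ∃ p ∈ P', x ∈ Icc (p.1 - p.2.2) (p.2.1 - p.2.2) := by
    intro n P hP
    obtain ⟨P1, a1, a2, a3, a4⟩ := dom_step hD hP.1 _ N
      (hKc n (⋃ p ∈ P, Ioo p.1 p.2.1) (isOpen_biUnion (fun _ _ => isOpen_Ioo)))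
      (measure_mono_null (hKE _ _) hE0) hN0 (fun p hp x hx h => by
        have hx' := hKE _ _ hx
        obtain ⟨_, b1, b2, _⟩ := hP.2 p hp
        exact hx.2 (mem_iUnion₂.2 ⟨p, hp, lt_of_le_of_ne h.1 (fun e => b1 (e ▸ hx')),
          lt_of_le_of_ne h.2 (fun e => b2 (e ▸ hx'))⟩))
    have i1 : Inv P1 := ⟨a1, fun p hp => (a4 p hp).elim (hP.2 p) (fun h =>
      ⟨h.1, n1 _ h.2.1, n1 _ h.2.2, n2 _ _ h.1 h.2.1, n2 _ _ h.1 h.2.2⟩)⟩
    obtain ⟨P2, c1, c2, c3, c4⟩ := ran_step hD a1 _ N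
      (hKc n (⋃ p ∈ P1, Ioo (p.1 - p.2.2) (p.2.1 - p.2.2)) (isOpen_biUnion (fun _ _ => isOpen_Ioo)))
      hN0 (fun p hp x hx h => by
        have hx' := hKE _ _ hx
        obtain ⟨_, _, _, b1, b2⟩ := i1.2 p hp
        exact hx.2 (mem_iUnion₂.2 ⟨p, hp, lt_of_le_of_ne h.1 (fun e => b1 (e ▸ hx')),
          lt_of_le_of_ne h.2 (fun e => b2 (e ▸ hx'))⟩))
    refine ⟨P2, ⟨c1, fun p hp => (c4 p hp).elim (i1.2 p) (fun h =>
      ⟨h.1, n3 _ _ h.1 h.2.1, n3 _ _ h.1 h.2.2, n1 _ h.2.1, n1 _ h.2.2⟩)⟩,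
      fun p hp => c2 (a2 hp), fun x hx => ⟨?_, ?_⟩⟩
    · by_cases h : x ∈ ⋃ p ∈ P, Ioo p.1 p.2.1
      · obtain ⟨p, hp, h⟩ := mem_iUnion₂.1 h
        exact ⟨p, c2 (a2 hp), Ioo_subset_Icc_self h⟩
      · obtain ⟨p, hp, h⟩ := a3 x ⟨hx, h⟩
        exact ⟨p, c2 hp, h⟩
    · by_cases h : x ∈ ⋃ p ∈ P1, Ioo (p.1 - p.2.2) (p.2.1 - p.2.2)
      · obtain ⟨p, hp, h⟩ := mem_iUnion₂.1 h
        exact ⟨p, c2 hp, Ioo_subset_Icc_self h⟩
      · exact c3 x ⟨hx, h⟩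
  choose! st s1 s2 s3 using step
  let P : ℕ → Finset T := fun n => Nat.rec ∅ (fun n Q => st n Q) n
  have hP : ∀ n, Inv (P n) := fun n => by
    induction n with
    | zero => exact ⟨⟨by simp [P], by simp [P]⟩, by simp [P]⟩
    | succ n ih => exact s1 n _ ih
  have hmono : Monotone P := monotone_nat_of_le_succ (fun n => s2 n _ (hP n))
  have hcmp : ∀ p q, (∃ n, p ∈ P n) → (∃ n, q ∈ P n) → p = q ∨ Lt p q ∨ Lt q p := by
    rintro p q ⟨n, hn⟩ ⟨k, hk⟩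
    exact (hP (max n k)).1.2 p (hmono (le_max_left _ _) hn) q (hmono (le_max_right _ _) hk)
  have hcov : ∀ x : G, (∃ p, (∃ n, p ∈ P n) ∧ (x : ℝ) ∈ Icc p.1 p.2.1) ∧
      ∃ p, (∃ n, p ∈ P n) ∧ (x : ℝ) ∈ Icc (p.1 - p.2.2) (p.2.1 - p.2.2) := by
    intro x
    obtain ⟨j, hj⟩ := mem_iUnion.1 (hGC x.2)
    obtain ⟨k, hk⟩ := exists_nat_ge |(x : ℝ)|
    have hk2 : (k : ℝ) ≤ (max j k : ℕ) := by exact_mod_cast le_max_right j k
    obtain ⟨⟨p, hp, h1⟩, q, hq, h2⟩ := s3 (max j k) _ (hP (max j k)) x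
      ⟨mem_iUnion₂.2 ⟨j, Finset.mem_range.2 (by omega), hj⟩, abs_le.1 (hk.trans hk2)⟩
    exact ⟨⟨p, ⟨max j k + 1, hp⟩, h1⟩, q, ⟨max j k + 1, hq⟩, h2⟩
  choose π hπ1 hπ2 using fun x => (hcov x).1
  have hg : ∀ p : T, (∃ n, p ∈ P n) → p.2.2 ∈ G := fun p ⟨n, hn⟩ => hDG ((hP n).2 p hn).1
  let f : G → G := fun x => ⟨x - (π x).2.2, G.sub_mem x.2 (hg _ (hπ1 x))⟩
  have hf : ∀ x y : G, (x : ℝ) < y → (f x : ℝ) < f y ∧ (π x).2.2 ≤ (π y).2.2 := by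
    intro x y hxy
    have a := hπ2 x
    have b := hπ2 y
    simp only [f]
    rcases hcmp _ _ (hπ1 x) (hπ1 y) with e | e | e
    · rw [e]; exact ⟨by linarith, le_rfl⟩
    · exact ⟨by linarith [e.2.2, a.2, b.1], e.2.1.le⟩
    · linarith [e.1, a.1, b.2]
  have hd : ∀ x y : G, (x : ℝ) < y → dist (f x) (f y) = dist x y - ((π y).2.2 - (π x).2.2) := by
    intro x y hxy
    rw [Subtype.dist_eq, Subtype.dist_eq, Real.dist_eq, Real.dist_eq,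
      abs_of_neg (by linarith [(hf x y hxy).1]), abs_of_neg (by linarith)]
    simp only [f]; ring
  refine ⟨f, ⟨fun x y h => ?_, fun y => ?_⟩, fun x y => ?_, fun h => ?_⟩
  · rcases lt_trichotomy (x : ℝ) y with e | e | e
    · exact absurd (hf x y e).1 (by rw [h]; exact lt_irrefl _)
    · exact Subtype.ext e
    · exact absurd (hf y x e).1 (by rw [h]; exact lt_irrefl _)
  · obtain ⟨p, hp, h⟩ := (hcov y).2
    let x : G := ⟨y + p.2.2, G.add_mem y.2 (hg p hp)⟩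
    refine ⟨x, Subtype.ext ?_⟩
    have a := hπ2 x
    have hx : (x : ℝ) = y + p.2.2 := rfl
    rcases hcmp _ _ (hπ1 x) hp with e | e | e
    · simp only [f]; rw [e, hx]; ring
    · linarith [e.1, a.2, h.1]
    · linarith [e.1, a.1, h.2]
  · rcases lt_trichotomy (x : ℝ) y with e | e | e
    · rw [hd x y e]; linarith [(hf x y e).2]
    · rw [Subtype.ext e]; simp
    · rw [dist_comm, dist_comm x y, hd y x e]; linarith [(hf y x e).2]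
  · obtain ⟨y, hy, h1, _⟩ := hG.exists_between (show (π 0).2.1 < (π 0).2.1 + 1 by linarith)
    have a := hπ2 0
    have b := hπ2 ⟨y, hy⟩
    have hlt : ((0 : G) : ℝ) < (⟨y, hy⟩ : G) := a.2.trans_lt h1
    have := hd 0 ⟨y, hy⟩ hlt
    rw [h] at this
    rcases hcmp _ _ (hπ1 0) (hπ1 ⟨y, hy⟩) with e | e | e
    · rw [← e] at b; exact absurd b.2 (not_le.2 h1)
    · linarith [e.2.1]
    · have c := b.2
      simp only at c
      linarith [e.1, a.1, a.2]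

end Pool.Agent.H83.Pl3
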