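import Mathlib
import Pool.Agent.H83.NbhdTop

set_option autoImplicit false

namespace Pool.Agent.H83.Psi

open Set Filter Topology

/-- an infinite maximal almost disjoint family of infinite subsets of `ℕ` -/
structure IsMad (𝒜 : Set (Set ℕ)) : Prop where
  inf : ∀ A ∈ 𝒜, A.Infinite
  ad : 𝒜.Pairwise fun A B => (A ∩ B).Finite
  infinite : 𝒜.Infinite
  max : ∀ E : Set ℕ, E.Infinite → ∃ A ∈ 𝒜, (A ∩ E).Infinite

theorem exists_mad_superset (𝒞 : Set (Set ℕ)) (h1 : ∀ A ∈ 𝒞, A.Infinite)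
    (h2 : 𝒞.Pairwise fun A B => (A ∩ B).Finite) (h3 : 𝒞.Infinite) :
    ∃ 𝒜, 𝒞 ⊆ 𝒜 ∧ IsMad 𝒜 := by
  obtain ⟨𝒜, hC, hm⟩ := zorn_subset_nonempty
    {𝒜 : Set (Set ℕ) | (∀ A ∈ 𝒜, A.Infinite) ∧ 𝒜.Pairwise fun A B => (A ∩ B).Finite}
    (fun c hc hch _ => ⟨⋃₀ c, ⟨fun A ⟨s, hs, hA⟩ => (hc hs).1 A hA, by
      rintro A ⟨s, hs, hA⟩ B ⟨t, ht, hB⟩ hAB
      rcases hch.total hs ht with h | h
      · exact (hc ht).2 (h hA) hB hAB
      · exact (hc hs).2 hA (h hB) hAB⟩, fun s hs => subset_sUnion_of_mem hs⟩) 𝒞 ⟨h1, h2⟩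
  refine ⟨𝒜, hC, hm.prop.1, hm.prop.2, h3.mono hC, fun E hE => ?_⟩
  by_contra hne
  push Not at hne
  have hmem : insert E 𝒜 ∈
      {𝒜 : Set (Set ℕ) | (∀ A ∈ 𝒜, A.Infinite) ∧ 𝒜.Pairwise fun A B => (A ∩ B).Finite} := by
    refine ⟨?_, ?_⟩
    · rintro A (rfl | hA)
      · exact hE
      · exact hm.prop.1 A hA
    · refine hm.prop.2.insert fun B hB _ => ⟨?_, hne B hB⟩
      rw [inter_comm]; exact hne B hB
  have hE' : E ∈ 𝒜 := hm.2 hmem (subset_insert _ _) (mem_insert _ _)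
  have := hne E hE'
  rw [inter_self] at this
  exact hE this

/-- columns of `ℕ` -/
def col (k : ℕ) : Set ℕ := {n | n.unpair.1 = k}

theorem col_inf (k : ℕ) : (col k).Infinite :=
  infinite_of_injective_forall_mem (f := fun j => Nat.pair k j)
    (fun a b h => (Nat.pair_eq_pair.1 h).2) (fun j => by simp [col])

theorem col_inj : Function.Injective col := fun a b h => by
  have : Nat.pair a 0 ∈ col b := h ▸ (by simp [col])
  simpa [col] using this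

theorem exists_mad : ∃ 𝒜, IsMad 𝒜 := by
  obtain ⟨𝒜, -, h⟩ := exists_mad_superset (range col) (by rintro _ ⟨k, rfl⟩; exact col_inf k)
    (by
      rintro _ ⟨a, rfl⟩ _ ⟨b, rfl⟩ hab
      have : col a ∩ col b = ∅ := by
        ext n; simp only [col, mem_inter_iff, mem_setOf_eq, mem_empty_iff_false, iff_false]
        rintro ⟨rfl, rfl⟩; exact hab rfl
      rw [this]; exact finite_empty) (infinite_range_of_injective col_inj)
  exact ⟨𝒜, h⟩

/-- the Isbell-Mrowka space -/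
def Psi (𝒜 : Set (Set ℕ)) : Type := ℕ ⊕ 𝒜

variable {𝒜 : Set (Set ℕ)}

def pt (n : ℕ) : Psi 𝒜 := Sum.inl n
def lim (A : 𝒜) : Psi 𝒜 := Sum.inr A

theorem pt_inj : Function.Injective (pt : ℕ → Psi 𝒜) := Sum.inl_injective
theorem lim_inj : Function.Injective (lim : 𝒜 → Psi 𝒜) := Sum.inr_injective
@[simp] theorem pt_ne_lim (n : ℕ) (A : 𝒜) : pt n ≠ lim A := Sum.inl_ne_inr
@[simp] theorem lim_ne_pt (n : ℕ) (A : 𝒜) : lim A ≠ pt n := Sum.inr_ne_inl
@[simp] theorem pt_eq_iff {m n : ℕ} : (pt m : Psi 𝒜) = pt n ↔ m = n := pt_inj.eq_iff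
@[simp] theorem lim_eq_iff {A B : 𝒜} : lim A = lim B ↔ A = B := lim_inj.eq_iff

theorem cases (x : Psi 𝒜) : (∃ n, x = pt n) ∨ ∃ A, x = lim A := by
  rcases x with n | A
  · exact Or.inl ⟨n, rfl⟩
  · exact Or.inr ⟨A, rfl⟩

/-- basic neighbourhoods -/
def U : Psi 𝒜 → ℕ → Set (Psi 𝒜)
  | Sum.inl n, _ => {pt n}
  | Sum.inr A, m => insert (lim A) (pt '' {n | n ∈ A.1 ∧ m ≤ n})

theorem U_pt (n m : ℕ) : U (pt n : Psi 𝒜) m = {pt n} := rfl
theorem U_lim (A : 𝒜) (m : ℕ) :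
    U (lim A) m = insert (lim A) (pt '' {n | n ∈ A.1 ∧ m ≤ n}) := rfl

@[simp] theorem pt_mem_U_lim {A : 𝒜} {m n : ℕ} : pt n ∈ U (lim A) m ↔ n ∈ A.1 ∧ m ≤ n := by
  simp [U_lim]

@[simp] theorem lim_mem_U_lim {A B : 𝒜} {m : ℕ} : lim B ∈ U (lim A) m ↔ B = A := by
  simp [U_lim]

theorem U_anti (x : Psi 𝒜) : Antitone (U x) := by
  rcases cases x with ⟨n, rfl⟩ | ⟨A, rfl⟩
  · intro a b _; simp [U_pt]
  · intro a b hab y hy
    rcases cases y with ⟨n, rfl⟩ | ⟨B, rfl⟩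
    · simp only [pt_mem_U_lim] at hy ⊢; exact ⟨hy.1, hab.trans hy.2⟩
    · simpa using hy

instance : TopologicalSpace (Psi 𝒜) := NbhdTop.top U U_anti

theorem isOpen_iff {W : Set (Psi 𝒜)} : IsOpen W ↔ ∀ x ∈ W, ∃ m, U x m ⊆ W := Iff.rfl

theorem isOpen_iff' {W : Set (Psi 𝒜)} :
    IsOpen W ↔ ∀ A : 𝒜, lim A ∈ W → ∃ m, ∀ n ∈ A.1, m ≤ n → pt n ∈ W := by
  rw [isOpen_iff]
  constructor
  · intro h A hA
    obtain ⟨m, hm⟩ := h _ hA
    exact ⟨m, fun n hn hmn => hm (by simp [hn, hmn])⟩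
  · intro h x hx
    rcases cases x with ⟨n, rfl⟩ | ⟨A, rfl⟩
    · exact ⟨0, by simpa [U_pt] using hx⟩
    · obtain ⟨m, hm⟩ := h A hx
      refine ⟨m, fun y hy => ?_⟩
      rcases cases y with ⟨n, rfl⟩ | ⟨B, rfl⟩
      · simp only [pt_mem_U_lim] at hy; exact hm n hy.1 hy.2
      · simp only [lim_mem_U_lim] at hy; rwa [hy]

theorem mem_U (x : Psi 𝒜) (m : ℕ) : x ∈ U x m := by
  rcases cases x with ⟨n, rfl⟩ | ⟨A, rfl⟩
  · simp [U_pt]
  · simp

theorem isOpen_U (x : Psi 𝒜) (m : ℕ) : IsOpen (U x m) := by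
  rw [isOpen_iff']
  intro A hA
  rcases cases x with ⟨n, rfl⟩ | ⟨B, rfl⟩
  · simp [U_pt] at hA
  · simp only [lim_mem_U_lim] at hA
    subst hA
    exact ⟨m, fun n hn hmn => by simp [hn, hmn]⟩

theorem basis (x : Psi 𝒜) : (𝓝 x).HasBasis (fun _ : ℕ => True) (U x) :=
  NbhdTop.basis U U_anti mem_U (fun x m => isOpen_U x m) x

theorem isOpen_pt (n : ℕ) : IsOpen ({pt n} : Set (Psi 𝒜)) := isOpen_U (pt n) 0

theorem isClosed_U (had : 𝒜.Pairwise fun A B => (A ∩ B).Finite) (x : Psi 𝒜) (m : ℕ) :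
    IsClosed (U x m) := by
  rw [← isOpen_compl_iff, isOpen_iff']
  intro A hA
  rcases cases x with ⟨k, rfl⟩ | ⟨B, rfl⟩
  · refine ⟨k + 1, fun n _ hn => ?_⟩
    simp only [U_pt, mem_compl_iff, mem_singleton_iff, pt_eq_iff]; omega
  · simp only [mem_compl_iff, lim_mem_U_lim] at hA
    obtain ⟨b, hb⟩ := (had A.2 B.2 (fun h => hA (Subtype.ext h))).bddAbove
    refine ⟨b + 1, fun n hn hbn => ?_⟩
    simp only [mem_compl_iff, pt_mem_U_lim, not_and]
    intro hB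
    have := hb ⟨hn, hB⟩
    omega

theorem regular (had : 𝒜.Pairwise fun A B => (A ∩ B).Finite) : RegularSpace (Psi 𝒜) :=
  RegularSpace.of_hasBasis basis fun x m _ => isClosed_U had x m

instance : T1Space (Psi 𝒜) := ⟨fun x => by
  rw [← isOpen_compl_iff, isOpen_iff']
  intro A hA
  rcases cases x with ⟨k, rfl⟩ | ⟨B, rfl⟩
  · refine ⟨k + 1, fun n _ hn => ?_⟩
    simp only [mem_compl_iff, mem_singleton_iff, pt_eq_iff]; omega
  · exact ⟨0, fun n _ _ => by simp⟩⟩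

theorem t3 (had : 𝒜.Pairwise fun A B => (A ∩ B).Finite) : T3Space (Psi 𝒜) :=
  haveI := regular had
  inferInstance

instance : Infinite (Psi 𝒜) := Infinite.of_injective pt pt_inj

/-- a set with finitely many isolated points is closed -/
theorem isClosed_of_finite {D : Set (Psi 𝒜)} (h : (pt ⁻¹' D).Finite) : IsClosed D := by
  rw [← isOpen_compl_iff, isOpen_iff']
  intro A _
  obtain ⟨b, hb⟩ := h.bddAbove
  refine ⟨b + 1, fun n _ hbn hD => ?_⟩
  have := hb hD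
  omega

theorem discrete_of_finite {D : Set (Psi 𝒜)} (h : (pt ⁻¹' D).Finite) : DiscreteTopology D := by
  rw [discreteTopology_iff_forall_isClosed]
  intro s
  have : IsClosed ((↑) '' s : Set (Psi 𝒜)) :=
    isClosed_of_finite (h.subset (preimage_mono (Subtype.coe_image_subset _ _)))
  have h2 := this.preimage (continuous_subtype_val (p := (· ∈ D)))
  rwa [preimage_image_eq _ Subtype.val_injective] at h2

/-- an infinite set of isolated points accumulates -/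
theorem exists_acc (h : IsMad 𝒜) {E : Set ℕ} (hE : E.Infinite) :
    ∃ A : 𝒜, ∀ W ∈ 𝓝 (lim A), (E ∩ pt ⁻¹' W).Infinite := by
  obtain ⟨A, hA, hAE⟩ := h.max E hE
  refine ⟨⟨A, hA⟩, fun W hW => ?_⟩
  obtain ⟨m, -, hm⟩ := (basis _).mem_iff.1 hW
  refine (hAE.diff (finite_lt_nat m)).mono fun n hn => ⟨hn.1.2, hm ?_⟩
  simp only [pt_mem_U_lim]
  exact ⟨hn.1.1, not_lt.1 hn.2⟩

/-- no locally finite infinite family of nonempty open sets -/
theorem finite_of_locallyFinite (h : IsMad 𝒜) {ι : Type*} (f : ι → Set (Psi 𝒜))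
    (hne : ∀ i, ∃ n, pt n ∈ f i) (hf : LocallyFinite f) : Finite ι := by
  by_contra hinf
  rw [not_finite_iff_infinite] at hinf
  choose g hg using hne
  have hfib : ∀ n, (g ⁻¹' {n}).Finite := fun n =>
    (hf.point_finite (pt n)).subset fun i hi => by
      have := hg i
      rw [mem_preimage, mem_singleton_iff] at hi
      rwa [hi] at this
  have hE : (range g).Infinite := by
    intro hfin
    have : (univ : Set ι).Finite := by
      refine (hfin.biUnion fun n _ => hfib n).subset fun i _ => ?_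
      simp
    exact infinite_univ this
  obtain ⟨A, hA⟩ := exists_acc h hE
  obtain ⟨W, hW, hfin⟩ := hf (lim A)
  refine hA W hW ((hfin.image g).subset ?_)
  rintro _ ⟨⟨i, rfl⟩, hi⟩
  exact ⟨i, ⟨_, hg i, hi⟩, rfl⟩

end Pool.Agent.H83.Psi
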