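import Mathlib
import Pool.Agent.H83.Psi

set_option autoImplicit false

namespace Pool.Agent.H83.Ponag

open Set Filter Topology TopologicalSpace

/-- A move of Alice: a set `Y` and an assignment `x ↦ V x` (only its values on `Y` matter). -/
abbrev Move (X : Type) := Set X × (X → Set X)

section defs
variable {X : Type} [TopologicalSpace X]

/-- The part of `X` not covered before round `n`. -/
def rest (a : ℕ → Move X) (D : ℕ → Set X) (n : ℕ) : Set X :=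
  (⋃ k < n, ⋃ x ∈ D k, (a k).2 x)ᶜ

/-- The move of Alice in round `n` is legal. -/
def AliceLegal (a : ℕ → Move X) (D : ℕ → Set X) (n : ℕ) : Prop :=
  (a n).1 ⊆ rest a D n ∧ (∀ x ∈ (a n).1, IsOpen ((a n).2 x) ∧ x ∈ (a n).2 x) ∧
    rest a D n ⊆ ⋃ x ∈ (a n).1, (a n).2 x

/-- The move of Bob in round `n` is legal. -/
def BobLegal (a : ℕ → Move X) (D : ℕ → Set X) (n : ℕ) : Prop :=
  D n ⊆ (a n).1 ∧ IsClosed (D n) ∧ DiscreteTopology (D n)

/-- The sets chosen by Bob cover `X`. -/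
def Covered (a : ℕ → Move X) (D : ℕ → Set X) : Prop :=
  (⋃ n, ⋃ x ∈ D n, (a n).2 x) = univ

/-- Bob has a winning strategy (a function of the list of the moves of Alice so far). -/
def BobWins (X : Type) [TopologicalSpace X] : Prop :=
  ∃ σ : List (Move X) → Set X, ∀ (a : ℕ → Move X) (D : ℕ → Set X),
    (∀ n, D n = σ (List.ofFn fun i : Fin (n + 1) => a i)) →
      (∀ n, (∀ k ≤ n, AliceLegal a D k) → BobLegal a D n) ∧
        ((∀ n, AliceLegal a D n) → Covered a D)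

/-- Alice has a winning strategy (a function of the list of the earlier moves of Bob). -/
def AliceWins (X : Type) [TopologicalSpace X] : Prop :=
  ∃ τ : List (Set X) → Move X, ∀ (a : ℕ → Move X) (D : ℕ → Set X),
    (∀ n, a n = τ (List.ofFn fun i : Fin n => D i)) →
      (∀ n, (∀ k < n, BobLegal a D k) → AliceLegal a D n) ∧
        ((∀ n, BobLegal a D n) → ¬ Covered a D)

/-- Every base has a locally finite subfamily covering `X`. -/
def TotallyParacompact (X : Type) [TopologicalSpace X] : Prop :=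
  ∀ B : Set (Set X), IsTopologicalBasis B →
    ∃ B' ⊆ B, ⋃₀ B' = univ ∧ LocallyFinite (fun s : B' => (s : Set X))

end defs

open Pool.Agent.H83.Psi

variable {𝒜 : Set (Set ℕ)}

theorem not_tp (h : IsMad 𝒜) : ¬ TotallyParacompact (Psi 𝒜) := by
  intro htp
  have hB : IsTopologicalBasis {s : Set (Psi 𝒜) | ∃ x m, s = U x m} := by
    refine isTopologicalBasis_of_isOpen_of_nhds ?_ ?_
    · rintro _ ⟨x, m, rfl⟩; exact isOpen_U x m
    · intro x W hx hW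
      obtain ⟨m, -, hm⟩ := (basis x).mem_iff.1 (hW.mem_nhds hx)
      exact ⟨_, ⟨x, m, rfl⟩, mem_U x m, hm⟩
  obtain ⟨B', hsub, hcov, hlf⟩ := htp _ hB
  have hfin : Finite B' := by
    refine finite_of_locallyFinite h _ (fun s => ?_) hlf
    obtain ⟨x, m, hs⟩ := hsub s.2
    rw [hs]
    rcases cases x with ⟨n, rfl⟩ | ⟨A, rfl⟩
    · exact ⟨n, mem_U _ _⟩
    · obtain ⟨n, hn, hmn⟩ := (h.inf A.1 A.2).exists_gt m
      exact ⟨n, by simp [hn, hmn.le]⟩
  have key : ∀ A : 𝒜, ∃ s : B', lim A ∈ (s : Set (Psi 𝒜)) := fun A => by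
    obtain ⟨s, hs, hA⟩ := hcov.symm ▸ mem_univ (lim A)
    exact ⟨⟨s, hs⟩, hA⟩
  choose g hg using key
  have hinj : Function.Injective g := by
    intro A B hAB
    have h1 := hg A
    have h2 := hg B
    rw [← hAB] at h2
    obtain ⟨x, m, hs⟩ := hsub (g A).2
    rw [hs] at h1 h2
    rcases cases x with ⟨n, rfl⟩ | ⟨C, rfl⟩
    · simp [U_pt] at h1
    · simp only [lim_mem_U_lim] at h1 h2
      rw [h1, h2]
  have : Finite 𝒜 := Finite.of_injective g hinj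
  exact h.infinite (Set.toFinite _)

/-- the good answers of Bob -/
def Good (a : Move (Psi 𝒜)) (D : Set (Psi 𝒜)) : Prop :=
  D ⊆ a.1 ∧ (pt ⁻¹' D).Finite ∧ (∀ A, lim A ∈ a.1 → lim A ∈ D) ∧
    ((∀ x ∈ a.1, IsOpen (a.2 x)) → (⋃ x ∈ a.1, a.2 x) = univ → ∀ n, pt n ∈ ⋃ x ∈ D, a.2 x)

theorem exists_good (h : IsMad 𝒜) (a : Move (Psi 𝒜)) : ∃ D, Good a D := by
  classical
  by_cases hc : (∀ x ∈ a.1, IsOpen (a.2 x)) ∧ (⋃ x ∈ a.1, a.2 x) = univ
  swap
  · refine ⟨a.1 ∩ range Psi.lim, inter_subset_left, ?_, fun A hA => ⟨hA, A, rfl⟩,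
      fun h1 h2 => (hc ⟨h1, h2⟩).elim⟩
    refine finite_empty.subset ?_
    rintro n ⟨-, A, hA⟩
    simp at hA
  obtain ⟨ho, hcov⟩ := hc
  let Dn : ℕ → Set (Psi 𝒜) := fun N => a.1 ∩ (range Psi.lim ∪ pt '' {n | n < N})
  have hex : ∃ N, ∀ n, pt n ∈ ⋃ x ∈ Dn N, a.2 x := by
    by_contra hne
    push Not at hne
    choose e he using hne
    have hmono : Monotone Dn := fun M N hMN x hx => ⟨hx.1, hx.2.imp id
      fun ⟨n, hn, e⟩ => ⟨n, lt_of_lt_of_le hn hMN, e⟩⟩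
    have hall : ∀ y : Psi 𝒜, ∃ N, ∃ x ∈ Dn N, y ∈ a.2 x := by
      intro y
      obtain ⟨x, hx, hy⟩ := mem_iUnion₂.1 (hcov.symm ▸ mem_univ y)
      rcases cases x with ⟨n, rfl⟩ | ⟨A, rfl⟩
      · exact ⟨n + 1, _, ⟨hx, Or.inr ⟨n, Nat.lt_succ_self n, rfl⟩⟩, hy⟩
      · exact ⟨0, _, ⟨hx, Or.inl ⟨A, rfl⟩⟩, hy⟩
    have hsmall : ∀ N, ∀ x ∈ Dn N, (range e ∩ pt ⁻¹' a.2 x).Finite := by
      intro N x hx
      refine ((finite_lt_nat N).image e).subset ?_
      rintro _ ⟨⟨M, rfl⟩, hM⟩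
      refine ⟨M, ?_, rfl⟩
      by_contra hlt
      exact he M (mem_iUnion₂.2 ⟨x, hmono (not_lt.1 hlt) hx, hM⟩)
    have hE : (range e).Infinite := by
      intro hfin
      obtain ⟨N, hN⟩ : ∃ N, ∀ n ∈ range e, ∃ x ∈ Dn N, pt n ∈ a.2 x := by
        choose f hf using hall
        obtain ⟨N, hN⟩ := (hfin.image fun n => f (pt n)).bddAbove
        refine ⟨N, fun n hn => ?_⟩
        obtain ⟨x, hx, hy⟩ := hf (pt n)
        exact ⟨x, hmono (hN ⟨n, hn, rfl⟩) hx, hy⟩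
      obtain ⟨x, hx, hy⟩ := hN _ ⟨N, rfl⟩
      exact he N (mem_iUnion₂.2 ⟨x, hx, hy⟩)
    obtain ⟨A, hA⟩ := exists_acc h hE
    obtain ⟨N, x, hx, hy⟩ := hall (lim A)
    exact hA _ ((ho x hx.1).mem_nhds hy) (hsmall N x hx)
  obtain ⟨N, hN⟩ := hex
  refine ⟨Dn N, inter_subset_left, (finite_lt_nat N).subset ?_, fun A hA => ⟨hA, Or.inl ⟨A, rfl⟩⟩,
    fun _ _ => hN⟩
  rintro n ⟨-, ⟨A, hA⟩ | ⟨k, hk, hkn⟩⟩
  · simp at hA
  · rwa [← pt_inj hkn]

theorem good_legal {a : ℕ → Move (Psi 𝒜)} {D : ℕ → Set (Psi 𝒜)} {n : ℕ}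
    (h : Good (a n) (D n)) : BobLegal a D n :=
  ⟨h.1, isClosed_of_finite h.2.1, discrete_of_finite h.2.1⟩

theorem good_covered {a : ℕ → Move (Psi 𝒜)} {D : ℕ → Set (Psi 𝒜)}
    (h : ∀ n, Good (a n) (D n)) (hA : ∀ n, AliceLegal a D n) : Covered a D := by
  have h0 : ∀ n, pt n ∈ ⋃ x ∈ D 0, (a 0).2 x := by
    refine (h 0).2.2.2 (fun x hx => ((hA 0).2.1 x hx).1) (eq_univ_of_univ_subset ?_)
    refine Subset.trans ?_ (hA 0).2.2
    simp [rest]
  refine eq_univ_of_forall fun y => ?_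
  by_cases hy : y ∈ rest a D 1
  · obtain ⟨x, hx, hyx⟩ := mem_iUnion₂.1 ((hA 1).2.2 hy)
    refine mem_iUnion.2 ⟨1, mem_iUnion₂.2 ⟨x, ?_, hyx⟩⟩
    rcases cases x with ⟨n, rfl⟩ | ⟨A, rfl⟩
    · exact ((hA 1).1 hx (mem_iUnion₂.2 ⟨0, Nat.one_pos, h0 n⟩)).elim
    · exact (h 1).2.2.1 A hx
  · simp only [rest, mem_compl_iff, not_not] at hy
    obtain ⟨k, -, hk⟩ := mem_iUnion₂.1 hy
    exact mem_iUnion.2 ⟨k, hk⟩

theorem bobWins (h : IsMad 𝒜) : BobWins (Psi 𝒜) := by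
  choose β hβ using exists_good h
  refine ⟨fun l => β (l.getLastD (∅, fun _ => ∅)), fun a D hD => ?_⟩
  have hg : ∀ n, Good (a n) (D n) := fun n => by
    rw [hD n, List.ofFn_succ_last]
    simpa using hβ (a n)
  exact ⟨fun n _ => good_legal (hg n), good_covered hg⟩

theorem not_aliceWins (h : IsMad 𝒜) : ¬ AliceWins (Psi 𝒜) := by
  choose β hβ using exists_good h
  rintro ⟨τ, hτ⟩
  let L : ℕ → List (Set (Psi 𝒜)) := fun n => Nat.rec [] (fun _ l => l ++ [β (τ l)]) n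
  let D : ℕ → Set (Psi 𝒜) := fun n => β (τ (L n))
  have hL : ∀ n, L n = List.ofFn fun i : Fin n => D i := by
    intro n
    induction n with
    | zero => rfl
    | succ n ih =>
      rw [List.ofFn_succ_last]
      simp only [Fin.val_castSucc, Fin.val_last]
      rw [← ih]
  obtain ⟨h1, h2⟩ := hτ (fun n => τ (L n)) D (fun n => by rw [hL])
  have hg : ∀ n, Good (τ (L n)) (D n) := fun n => hβ _
  have hb : ∀ n, BobLegal (fun n => τ (L n)) D n := fun n => good_legal (hg n)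
  exact h2 hb (good_covered hg fun n => h1 n fun k _ => hb k)

end Pool.Agent.H83.Ponag
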