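import Mathlib
import Pool.Agent.H83.Closing

set_option autoImplicit false

namespace Pool.Agent.H83.Push

open Set Filter Topology Metric

variable {E : Type} [NormedAddCommGroup E] [NormedSpace ℝ E] [FiniteDimensional ℝ E]

/-- homeomorphisms that fix the complement of `U` and preserve the components of `U` -/
def Good (U : Set E) (h : E ≃ₜ E) : Prop :=
  (∀ x ∉ U, h x = x) ∧ ∀ x ∈ U, h x ∈ connectedComponentIn U x

theorem Good.refl (U : Set E) : Good U (Homeomorph.refl E) :=
  ⟨fun _ _ => rfl, fun _ hx => mem_connectedComponentIn hx⟩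

theorem Good.trans {U : Set E} {g h : E ≃ₜ E} (hg : Good U g) (hh : Good U h) :
    Good U (g.trans h) := by
  refine ⟨fun x hx => by simp [hg.1 x hx, hh.1 x hx], fun x hx => ?_⟩
  have h1 := hg.2 x hx
  rw [connectedComponentIn_eq h1]
  exact hh.2 _ (connectedComponentIn_subset _ _ h1)

theorem Good.symm {U : Set E} {g : E ≃ₜ E} (hg : Good U g) : Good U g.symm := by
  refine ⟨fun x hx => g.symm_apply_eq.2 (hg.1 x hx).symm, fun x hx => ?_⟩
  have h1 : g.symm x ∈ U := by
    by_contra h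
    have := hg.1 _ h
    rw [g.apply_symm_apply] at this
    exact h (this ▸ hx)
  have h2 := hg.2 _ h1
  rw [g.apply_symm_apply] at h2
  rw [← connectedComponentIn_eq h2]
  exact mem_connectedComponentIn h1

theorem Good.mono {U V : Set E} {g : E ≃ₜ E} (hg : Good U g) (h : U ⊆ V) : Good V g := by
  refine ⟨fun x hx => hg.1 x fun h' => hx (h h'), fun x hx => ?_⟩
  by_cases hU : x ∈ U
  · exact connectedComponentIn_mono x h (hg.2 x hU)
  · rw [hg.1 x hU]; exact mem_connectedComponentIn hx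

theorem good_of_ball {x : E} {r : ℝ} {g : E ≃ₜ E} (h : ∀ w ∉ ball x r, g w = w) :
    Good (ball x r) g := by
  refine ⟨h, fun w hw => ?_⟩
  rw [(convex_ball x r).isPreconnected.connectedComponentIn hw]
  by_contra hn
  exact hn (by rw [g.injective (h _ hn)]; exact hw)

theorem perturb {V : E → E} {K : NNReal} (hV : LipschitzWith K V) (hK : K < 1) :
    ∃ h : E ≃ₜ E, ∀ w, h w = w + V w := by
  have h1 : ApproximatesLinearOn (fun w => w + V w)
      ((ContinuousLinearEquiv.refl ℝ E : E ≃L[ℝ] E) : E →L[ℝ] E) univ K := by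
    rw [ApproximatesLinearOn.approximatesLinearOn_iff_lipschitzOnWith]
    convert hV.lipschitzOnWith
    ext w; simp
  refine ⟨h1.toHomeomorph _ ?_, fun w => rfl⟩
  rcases subsingleton_or_nontrivial E with h | h
  · exact Or.inl h
  · right; simpa using hK

theorem perturb' {V : E → E} {K : NNReal} (hV : LipschitzWith K V) {t : ℝ}
    (ht : |t| * K < 1) : ∃ h : E ≃ₜ E, ∀ w, h w = w + t • V w :=
  perturb (K := ‖t‖₊ * K) ((lipschitzWith_smul t).comp hV) (by exact_mod_cast ht)

theorem local_trans {U : Set E} (hU : IsOpen U) {x : E} (hx : x ∈ U) :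
    ∀ᶠ y in 𝓝 x, ∃ g, Good U g ∧ g x = y := by
  obtain ⟨r, hr, hsub⟩ := Metric.isOpen_iff.1 hU x hx
  let φ : ContDiffBump x := ⟨r / 2, r, by positivity, by linarith⟩
  obtain ⟨K, hK⟩ := ContDiff.lipschitzWith_of_hasCompactSupport φ.hasCompactSupport
    (φ.contDiff (n := 1)) (by simp)
  have : ∀ᶠ y in 𝓝 x, K * ‖y - x‖₊ < 1 := by
    have hc : Continuous fun y : E => K * ‖y - x‖₊ := by fun_prop
    exact hc.continuousAt.eventually (gt_mem_nhds (by simp))
  filter_upwards [this] with y hy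
  obtain ⟨g, hg⟩ := perturb (V := fun w => φ w • (y - x)) (K := K * ‖y - x‖₊) (by
    refine LipschitzWith.of_dist_le_mul fun a b => ?_
    rw [dist_eq_norm, ← sub_smul, norm_smul, ← dist_eq_norm]
    have := mul_le_mul_of_nonneg_right (hK.dist_le_mul a b) (norm_nonneg (y - x))
    push_cast; linarith) hy
  refine ⟨g, (good_of_ball (x := x) (r := r) fun w hw => ?_).mono hsub, ?_⟩
  · rw [hg, φ.zero_of_le_dist (by simpa using hw)]; simp
  · rw [hg, φ.one_of_mem_closedBall (mem_closedBall_self φ.rIn_pos.le)]; simp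

theorem trans_comp {U : Set E} (hU : IsOpen U) {x y : E} (hx : x ∈ U)
    (hy : y ∈ connectedComponentIn U x) : ∃ g, Good U g ∧ g x = y := by
  have h1 : IsOpen {z ∈ U | ∃ g, Good U g ∧ g x = z} := by
    refine isOpen_iff_mem_nhds.2 fun z ⟨hz, g, hg, e⟩ => ?_
    filter_upwards [local_trans hU hz, hU.mem_nhds hz] with w ⟨g', hg', e'⟩ hw
    exact ⟨hw, g.trans g', hg.trans hg', by simp [e, e']⟩
  have h2 : IsOpen {z ∈ U | ¬ ∃ g, Good U g ∧ g x = z} := by
    refine isOpen_iff_mem_nhds.2 fun z ⟨hz, hn⟩ => ?_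
    filter_upwards [local_trans hU hz, hU.mem_nhds hz] with w ⟨g', hg', e'⟩ hw
    refine ⟨hw, fun ⟨g, hg, e⟩ => hn ⟨g.trans g'.symm, hg.trans hg'.symm, ?_⟩⟩
    simp [e, ← e']
  refine (isPreconnected_connectedComponentIn.subset_left_of_subset_union h1 h2
    (disjoint_left.2 fun z a b => b.2 a.2) (fun z hz => ?_)
    ⟨x, mem_connectedComponentIn hx, hx, _, Good.refl U, rfl⟩ hy).2
  have := connectedComponentIn_subset _ _ hz
  by_cases h : ∃ g, Good U g ∧ g x = z
  exacts [Or.inl ⟨this, h⟩, Or.inr ⟨this, h⟩]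

theorem move_points (F : Finset E) : ∀ U T : Set E, IsOpen U → IsOpen T → (∀ x ∈ F, x ∈ U) →
    (∀ x ∈ F, (T ∩ connectedComponentIn U x).Nonempty) → ∃ g, Good U g ∧ ∀ x ∈ F, g x ∈ T := by
  classical
  induction F using Finset.induction_on with
  | empty => exact fun U T _ _ _ _ => ⟨_, Good.refl U, by simp⟩
  | insert x F hxF ih =>
    intro U T hU hT hFU hFT
    obtain ⟨z, hzT, hz⟩ := hFT x (Finset.mem_insert_self _ _)
    obtain ⟨g, hg, e⟩ := trans_comp hU (hFU x (Finset.mem_insert_self _ _)) hz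
    have hU' : IsOpen (U \ {x}) := hU.sdiff isClosed_singleton
    have hmem : ∀ y ∈ F, y ∈ U \ {x} := fun y hy =>
      ⟨hFU y (Finset.mem_insert_of_mem hy), fun h => hxF (mem_singleton_iff.1 h ▸ hy)⟩
    have hT' : IsOpen (g ⁻¹' T) := hT.preimage g.continuous
    obtain ⟨h, hh, hhT⟩ := ih (U \ {x}) (g ⁻¹' T) hU' hT' hmem fun y hy => by
      by_cases hc : x ∈ closure (connectedComponentIn (U \ {x}) y)
      · exact mem_closure_iff.1 hc _ hT' (show g x ∈ T from e ▸ hzT)
      · have hsub : connectedComponentIn U y ⊆ connectedComponentIn (U \ {x}) y := by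
          refine isPreconnected_connectedComponentIn.subset_of_closure_inter_subset
            hU'.connectedComponentIn ⟨y, mem_connectedComponentIn (hmem y hy).1,
              mem_connectedComponentIn (hmem y hy)⟩ fun w ⟨hw1, hw2⟩ => ?_
          have hw : w ∈ U \ {x} := ⟨connectedComponentIn_subset _ _ hw2,
            fun h => hc (mem_singleton_iff.1 h ▸ hw1)⟩
          obtain ⟨v, hv1, hv2⟩ := mem_closure_iff.1 hw1 _ hU'.connectedComponentIn
            (mem_connectedComponentIn hw)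
          rw [connectedComponentIn_eq hv2, ← connectedComponentIn_eq hv1]
          exact mem_connectedComponentIn hw
        obtain ⟨t, ht, ht'⟩ := hFT y (Finset.mem_insert_of_mem hy)
        refine ⟨g.symm t, by simpa using ht, hsub ?_⟩
        rw [connectedComponentIn_eq ht']
        exact hg.symm.2 t (connectedComponentIn_subset _ _ ht')
    refine ⟨h.trans g, (hh.mono diff_subset).trans hg, fun y hy => ?_⟩
    rcases Finset.mem_insert.1 hy with rfl | hy
    · rw [Homeomorph.trans_apply, hh.1 y (fun h => h.2 rfl), e]; exact hzT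
    · exact hhT y hy

theorem shrink {U : Set E} (hU : IsOpen U) {x : E} {r ε : ℝ} (hr : 0 < r) (hε : 0 < ε)
    (hsub : closedBall x r ⊆ U) : ∃ g, Good U g ∧
      ∀ w ∈ closedBall x r, g w ∈ closedBall x r ∩ ball x ε := by
  obtain ⟨δ, hδ, hth⟩ := (isCompact_closedBall x r).exists_thickening_subset_open hU hsub
  rw [thickening_closedBall hδ hr.le] at hth
  let φ : ContDiffBump x := ⟨r, δ + r, hr, by linarith⟩
  obtain ⟨K, hK⟩ := ContDiff.lipschitzWith_of_hasCompactSupport (f := fun w => φ w • (x - w))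
    (φ.hasCompactSupport.smul_right (f' := fun w => x - w))
    ((φ.contDiff (n := 1)).smul (contDiff_const.sub contDiff_id)) (by simp)
  obtain ⟨t, ht0, ht1, htK⟩ : ∃ t : ℝ, 0 < t ∧ t < 1 ∧ |t| * K < 1 := by
    refine ⟨1 / (K + 2), by positivity, ?_, ?_⟩
    · rw [div_lt_one (by positivity)]; linarith [K.2]
    · rw [abs_of_pos (by positivity), div_mul_eq_mul_div, div_lt_one (by positivity)]; linarith
  obtain ⟨g, hg⟩ := perturb' hK htK
  have hgood : Good U g := (good_of_ball (x := x) (r := δ + r) fun w hw => by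
    rw [hg, φ.zero_of_le_dist (by simpa using hw)]; simp).mono hth
  have hd : ∀ w ∈ closedBall x r, dist (g w) x = (1 - t) * dist w x := fun w hw => by
    rw [hg, φ.one_of_mem_closedBall hw, dist_eq_norm, dist_eq_norm, one_smul,
      show w + t • (x - w) - x = (1 - t) • (w - x) by module, norm_smul,
      Real.norm_of_nonneg (by linarith)]
  have key : ∀ n : ℕ, ∃ g, Good U g ∧ ∀ w ∈ closedBall x r, dist (g w) x ≤ (1 - t) ^ n * r := by
    intro n
    induction n with
    | zero => exact ⟨_, Good.refl U, fun w hw => by simpa using hw⟩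
    | succ n ih =>
      obtain ⟨h, hh, hw⟩ := ih
      refine ⟨h.trans g, hh.trans hgood, fun w hw' => ?_⟩
      rw [Homeomorph.trans_apply, hd _ ((hw w hw').trans
        (mul_le_of_le_one_left hr.le (pow_le_one₀ (by linarith) (by linarith)))), pow_succ', mul_assoc]
      exact mul_le_mul_of_nonneg_left (hw w hw') (by linarith)
  obtain ⟨n, hn⟩ := exists_pow_lt_of_lt_one (div_pos hε hr) (show 1 - t < 1 by linarith)
  obtain ⟨g, hg, hw⟩ := key n
  exact ⟨g, hg, fun w hw' => ⟨(hw w hw').trans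
    (mul_le_of_le_one_left hr.le (pow_le_one₀ (by linarith) (by linarith))),
    (hw w hw').trans_lt ((lt_div_iff₀ hr).1 hn)⟩⟩

theorem move_balls {ι : Type} (s : Finset ι) (x : ι → E) (r : ι → ℝ) (hr : ∀ i, 0 < r i)
    {U T : Set E} (hU : IsOpen U) (hT : IsOpen T) (hsub : ∀ i ∈ s, closedBall (x i) (r i) ⊆ U)
    (hd : ∀ i ∈ s, ∀ j ∈ s, i ≠ j → Disjoint (closedBall (x i) (r i)) (closedBall (x j) (r j)))
    (hc : ∀ z ∈ U, (T ∩ connectedComponentIn U z).Nonempty) :
    ∃ g, Good U g ∧ ∀ i ∈ s, ∀ w ∈ closedBall (x i) (r i), g w ∈ T := by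
  classical
  have hx : ∀ z ∈ s.image x, z ∈ U := fun z hz => by
    obtain ⟨i, hi, rfl⟩ := Finset.mem_image.1 hz
    exact hsub i hi (mem_closedBall_self (hr i).le)
  obtain ⟨h, hh, hhT⟩ := move_points (s.image x) U T hU hT hx fun z hz => hc z (hx z hz)
  have : ∀ i, ∃ ε > 0, i ∈ s → ball (x i) ε ⊆ h ⁻¹' T := fun i => by
    by_cases hi : i ∈ s
    · obtain ⟨ε, hε, h'⟩ := Metric.isOpen_iff.1 (hT.preimage h.continuous) (x i)
        (hhT _ (Finset.mem_image_of_mem x hi))
      exact ⟨ε, hε, fun _ => h'⟩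
    · exact ⟨1, one_pos, fun h => (hi h).elim⟩
  choose ε hε hεT using this
  have key : ∀ t ⊆ s, ∃ g, Good U g ∧
      (∀ j ∈ s, ∀ w ∈ closedBall (x j) (r j), g w ∈ closedBall (x j) (r j)) ∧
      ∀ j ∈ t, ∀ w ∈ closedBall (x j) (r j), g w ∈ ball (x j) (ε j) := by
    intro t
    induction t using Finset.induction_on with
    | empty => exact fun _ => ⟨_, Good.refl U, fun _ _ _ h => h, by simp⟩
    | insert i t hit ih =>
      intro hts
      obtain ⟨g, hg, h1, h2⟩ := ih ((Finset.subset_insert _ _).trans hts)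
      have hi : i ∈ s := hts (Finset.mem_insert_self _ _)
      obtain ⟨g', hg', h3⟩ := shrink (U := U \ ⋃ j ∈ s.erase i, closedBall (x j) (r j))
        (hU.sdiff ((s.erase i).finite_toSet.isClosed_biUnion fun _ _ => isClosed_closedBall))
        (hr i) (hε i) (subset_diff.2 ⟨hsub i hi, by
          simp only [disjoint_iUnion_right]
          exact fun j hj => hd i hi j (Finset.mem_of_mem_erase hj) (Finset.ne_of_mem_erase hj).symm⟩)
      have hfix : ∀ j ∈ s, j ≠ i → ∀ w ∈ closedBall (x j) (r j), g' w = w := fun j hj hji w hw =>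
        hg'.1 w fun h => h.2 (mem_biUnion (Finset.mem_erase.2 ⟨hji, hj⟩) hw)
      refine ⟨g.trans g', hg.trans (hg'.mono diff_subset), fun j hj w hw => ?_, fun j hj w hw => ?_⟩
      · by_cases hji : j = i
        · subst hji; exact (h3 _ (h1 j hj w hw)).1
        · rw [Homeomorph.trans_apply, hfix j hj hji _ (h1 j hj w hw)]; exact h1 j hj w hw
      · rcases Finset.mem_insert.1 hj with rfl | hj'
        · exact (h3 _ (h1 j hi w hw)).2
        · rw [Homeomorph.trans_apply, hfix j (hts hj) (fun e => hit (e ▸ hj')) _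
            (h1 j (hts hj) w hw)]
          exact h2 j hj' w hw
  obtain ⟨g, hg, -, h2⟩ := key s Finset.Subset.rfl
  exact ⟨g.trans h, hg.trans hh, fun i hi w hw => hεT i hi (h2 i hi w hw)⟩

/-- the dyadic cube of level `k` containing `x` -/
noncomputable def cell {m : ℕ} (k : ℕ) (x : Fin m → ℝ) : Fin m → ℤ := fun i => ⌊2 ^ k * x i⌋

theorem cell_mono {m j k : ℕ} (h : j ≤ k) {x y : Fin m → ℝ} (e : cell k x = cell k y) :
    cell j x = cell j y := by
  funext i
  have key : ∀ z : ℝ, ⌊2 ^ j * z⌋ = ⌊2 ^ k * z⌋ / (2 ^ (k - j) : ℕ) := fun z => by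
    rw [← Int.floor_div_natCast]
    congr 1
    rw [show (2 : ℝ) ^ k = 2 ^ j * 2 ^ (k - j) by rw [← pow_add]; congr 1; omega]
    push_cast; field_simp
  simp only [cell, key]
  rw [show ⌊2 ^ k * x i⌋ = ⌊2 ^ k * y i⌋ from congrFun e i]

theorem partition {m : ℕ} {U : Set (Fin m → ℝ)} (hU : IsOpen U) :
    ∃ (idx : (Fin m → ℝ) → ℕ × (Fin m → ℤ)) (c : ℕ × (Fin m → ℤ) → ℕ → Fin m → ℝ)
      (r : ℕ × (Fin m → ℤ) → ℕ → ℝ), (∀ i n, 0 < r i n) ∧
      (∀ x ∈ U, ∀ n, ∀ y ∈ closedBall (c (idx x) n) (r (idx x) n), y ∈ U ∧ idx y = idx x) ∧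
      ∀ x ∈ U, ∀ᶠ n in atTop, x ∈ closedBall (c (idx x) n) (r (idx x) n) := by
  classical
  have hex : ∀ x ∈ U, ∃ k, ∀ y, cell k y = cell k x → y ∈ U := fun x hx => by
    obtain ⟨ε, hε, hsub⟩ := Metric.isOpen_iff.1 hU x hx
    obtain ⟨k, hk⟩ := exists_pow_lt_of_lt_one hε (show (1 / 2 : ℝ) < 1 by norm_num)
    refine ⟨k, fun y e => hsub ((dist_pi_lt_iff hε).2 fun i => ?_)⟩
    have h1 := Int.abs_sub_lt_one_of_floor_eq_floor (congrFun e i)
    rw [← mul_sub, abs_mul, abs_of_pos (by positivity : (0 : ℝ) < 2 ^ k)] at h1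
    rw [Real.dist_eq]
    refine lt_trans ?_ hk
    rwa [one_div, inv_pow, ← one_div, lt_div_iff₀' (by positivity)]
  let lev : (Fin m → ℝ) → ℕ := fun x => if h : x ∈ U then Nat.find (hex x h) else 0
  let ρ : ℕ → ℝ := fun n => (1 - 1 / ((n : ℝ) + 2)) / 2
  have hρ : ∀ n, 0 < ρ n ∧ 2 * ρ n < 1 := fun n => by
    have h1 : 1 / ((n : ℝ) + 2) < 1 := by
      rw [div_lt_one (by positivity)]; linarith [Nat.cast_nonneg (α := ℝ) n]
    have h2 : 0 < 1 / ((n : ℝ) + 2) := by positivity
    simp only [ρ]; constructor <;> linarith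
  have hball : ∀ (k n : ℕ) (a : Fin m → ℤ) (y : Fin m → ℝ),
      y ∈ closedBall (fun i => ((a i : ℝ) + ρ n) / 2 ^ k) (ρ n / 2 ^ k) ↔
        ∀ i, (a i : ℝ) ≤ 2 ^ k * y i ∧ 2 ^ k * y i ≤ a i + 2 * ρ n := fun k n a y => by
    rw [mem_closedBall, dist_pi_le_iff (div_pos (hρ n).1 (by positivity)).le]
    refine forall_congr' fun i => ?_
    have h2 : (0 : ℝ) < 2 ^ k := by positivity
    rw [Real.dist_eq, le_div_iff₀' h2, ← abs_of_pos h2, ← abs_mul, abs_of_pos h2, mul_sub,
      mul_div_cancel₀ _ h2.ne', abs_le]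
    constructor <;> rintro ⟨h1, h2⟩ <;> constructor <;> linarith
  refine ⟨fun x => (lev x, cell (lev x) x), fun i n j => ((i.2 j : ℝ) + ρ n) / 2 ^ i.1,
    fun i n => ρ n / 2 ^ i.1, fun i n => div_pos (hρ n).1 (by positivity), fun x hx n y hy => ?_,
    fun x hx => ?_⟩
  · have e : cell (lev x) y = cell (lev x) x := funext fun i => by
      have := (hball _ _ _ _).1 hy i
      exact Int.floor_eq_iff.2 ⟨this.1, by linarith [this.2, (hρ n).2]⟩
    have hl : lev x = Nat.find (hex x hx) := dif_pos hx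
    have hyU : y ∈ U := Nat.find_spec (hex x hx) y (hl ▸ e)
    have hl' : lev y = lev x := by
      rw [show lev y = Nat.find (hex y hyU) from dif_pos hyU, Nat.find_eq_iff]
      refine ⟨fun z hz => Nat.find_spec (hex x hx) z (hl ▸ hz.trans e), fun j hj h => ?_⟩
      exact Nat.find_min (hex x hx) (hl ▸ hj) fun z hz => h z (hz.trans (cell_mono hj.le e).symm)
    exact ⟨hyU, by simp only [hl', e]⟩
  · simp only [hball]
    refine eventually_all.2 fun i => ?_
    have h1 : Tendsto (fun n : ℕ => 1 / ((n : ℝ) + 2)) atTop (𝓝 0) :=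
      tendsto_const_nhds.div_atTop (tendsto_natCast_atTop_atTop.atTop_add tendsto_const_nhds)
    filter_upwards [h1.eventually (gt_mem_nhds
      (sub_pos.2 (Int.lt_floor_add_one (2 ^ lev x * x i))))] with n hn
    refine ⟨Int.floor_le _, ?_⟩
    simp only [ρ, cell]; linarith

theorem main {m : ℕ} {M : Type} [MetricSpace M] [ConnectedSpace M]
    (ψ : OnePoint (Fin m → ℝ) ≃ₜ M) {C : Set M} (hC : IsClosed C) (h0 : ψ OnePoint.infty ∈ C) :
    ∃ H : ℕ → M ≃ₜ M, (∀ p, ∃ q ∈ C, Tendsto (fun k => H k p) atTop (𝓝 q)) ∧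
      ∀ q ∈ C, ∀ k, H k q = q := by
  classical
  let e : (Fin m → ℝ) → M := fun x => ψ x
  have he : IsOpenEmbedding e := ψ.isOpenEmbedding.comp OnePoint.isOpenEmbedding_coe
  let U : Set (Fin m → ℝ) := e ⁻¹' Cᶜ
  have hU : IsOpen U := hC.isOpen_compl.preimage he.continuous
  have hcases : ∀ p, p = ψ OnePoint.infty ∨ ∃ x, e x = p := fun p => by
    obtain ⟨y, rfl⟩ := ψ.surjective p
    induction y using OnePoint.rec with
    | infty => exact Or.inl rfl
    | coe x => exact Or.inr ⟨x, rfl⟩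
  have : ∀ A : Set (Fin m → ℝ), ∃ q ∈ C, (∃ x ∈ U, A = connectedComponentIn U x) →
      q ∈ closure (e '' A) := fun A => by
    by_cases h : ∃ x ∈ U, A = connectedComponentIn U x
    swap
    · exact ⟨_, h0, fun h' => (h h').elim⟩
    obtain ⟨x, hx, rfl⟩ := h
    by_contra hn
    push Not at hn
    have hcl : IsClopen (e '' connectedComponentIn U x) := by
      refine ⟨closure_subset_iff_isClosed.1 fun q hq => ?_,
        he.isOpenMap _ hU.connectedComponentIn⟩
      have hqC : q ∉ C := fun h => (hn q h).2 hq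
      rcases hcases q with rfl | ⟨w, rfl⟩
      · exact (hqC h0).elim
      · obtain ⟨_, ⟨v, hv1, rfl⟩, v', hv2, e'⟩ := mem_closure_iff.1 hq _
          (he.isOpenMap _ hU.connectedComponentIn) ⟨w, mem_connectedComponentIn hqC, rfl⟩
        rw [he.injective e'] at hv2
        refine ⟨w, ?_, rfl⟩
        rw [connectedComponentIn_eq hv2, ← connectedComponentIn_eq hv1]
        exact mem_connectedComponentIn hqC
    obtain ⟨y, hy, e'⟩ := (hcl.eq_univ ⟨_, x, mem_connectedComponentIn hx, rfl⟩).symm ▸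
      mem_univ (ψ OnePoint.infty)
    exact connectedComponentIn_subset _ _ hy (e' ▸ h0)
  choose q hqC hq using this
  obtain ⟨idx, c, r, hr, h1, h2⟩ := partition hU
  obtain ⟨s, hs, hsU, hsx⟩ := Closing.exists_exhaust (to_countable (idx '' U))
  have key : ∀ n : ℕ, ∃ g, Good U g ∧ ∀ i ∈ s n, ∀ w ∈ closedBall (c i n) (r i n),
      g w ∈ {z ∈ U | dist (e z) (q (connectedComponentIn U z)) < 1 / ((n : ℝ) + 1)} := by
    intro n
    refine move_balls (s n) (fun i => c i n) (fun i => r i n) (fun i => hr i n) hU ?_ ?_ ?_ ?_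
    · refine isOpen_iff_mem_nhds.2 fun z hz => ?_
      filter_upwards [hU.connectedComponentIn.mem_nhds (mem_connectedComponentIn hz.1),
        (he.continuous.dist continuous_const).continuousAt.eventually (gt_mem_nhds hz.2)]
        with w hw1 hw2
      exact ⟨connectedComponentIn_subset _ _ hw1, connectedComponentIn_eq hw1 ▸ hw2⟩
    · intro i hi w hw
      obtain ⟨x, hx, rfl⟩ := hsU n hi
      exact (h1 x hx n w hw).1
    · intro i hi j hj hij
      obtain ⟨x, hx, rfl⟩ := hsU n hi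
      obtain ⟨y, hy, rfl⟩ := hsU n hj
      exact disjoint_left.2 fun w a b => hij ((h1 x hx n w a).2.symm.trans (h1 y hy n w b).2)
    · intro z hz
      obtain ⟨_, ⟨w, hw, rfl⟩, hd⟩ := Metric.mem_closure_iff.1 (hq _ ⟨z, hz, rfl⟩)
        (1 / ((n : ℝ) + 1)) (by positivity)
      exact ⟨w, ⟨connectedComponentIn_subset _ _ hw, by
        rw [← connectedComponentIn_eq hw, dist_comm]; exact hd⟩, hw⟩
  choose g hg hgT using key
  have hH : ∀ n x, (ψ.symm.trans ((g n).onePointCongr.trans ψ)) (e x) = e (g n x) := fun n x => by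
    simp [e]
  have hfix : ∀ p ∈ C, ∀ n, (ψ.symm.trans ((g n).onePointCongr.trans ψ)) p = p := fun p hp n => by
    rcases hcases p with rfl | ⟨x, rfl⟩
    · simp
    · rw [hH, (hg n).1 x fun h => h hp]
  refine ⟨fun n => ψ.symm.trans ((g n).onePointCongr.trans ψ), fun p => ?_, hfix⟩
  by_cases hp : p ∈ C
  · exact ⟨p, hp, tendsto_const_nhds.congr fun n => (hfix p hp n).symm⟩
  rcases hcases p with rfl | ⟨x, rfl⟩
  · exact (hp h0).elim
  refine ⟨q (connectedComponentIn U x), hqC _, tendsto_iff_dist_tendsto_zero.2 ?_⟩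
  refine squeeze_zero' (Eventually.of_forall fun _ => dist_nonneg) ?_
    tendsto_one_div_add_atTop_nhds_zero_nat
  obtain ⟨N, hN⟩ := hsx _ ⟨x, hp, rfl⟩
  filter_upwards [h2 x hp, eventually_ge_atTop N] with n hn hNn
  rw [hH, connectedComponentIn_eq ((hg n).2 x hp)]
  exact (hgT n _ (hs hNn hN) x hn).2.le

end Pool.Agent.H83.Push
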