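import Pool.Agent.H83.SaDefs

namespace Pool.Agent.H83.Sa

open FirstOrder FirstOrder.Language Cardinal
open FirstOrder.Language.Structure

theorem le_encode (l : List ℕ) (a : ℕ) (h : a ∈ l) : a ≤ Encodable.encode l := by
  induction l with
  | nil => simp at h
  | cons b l ih =>
    rw [Encodable.encode_list_cons]
    rcases List.mem_cons.1 h with rfl | h
    · have := Nat.left_le_pair (Encodable.encode a) (Encodable.encode l)
      simp only [Encodable.encode_nat] at this ⊢
      omega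
    · have := Nat.right_le_pair (Encodable.encode b) (Encodable.encode l)
      have := ih h
      omega

theorem lt_pair_succ (a b : ℕ) : b < Nat.pair (a + 1) b :=
  lt_of_le_of_lt (Nat.right_le_pair 0 b) (Nat.pair_lt_pair_left b (Nat.succ_pos a))

theorem term_inv {M M' : Type} [L.Structure M] [L.Structure M'] (σ : M → M') (N : ℕ)
    {α : Type} (g : α → ℕ) (v : α → M) (v' : α → M') (hv : ∀ a, g a < N → v' a = σ (v a))
    {n : ℕ} (xs : Fin n → M) (t : L.Term (α ⊕ Fin n)) (ht : tcode g t < N) :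
    t.realize (Sum.elim v' (σ ∘ xs)) = σ (t.realize (Sum.elim v xs)) := by
  rcases t with (a | i) | ⟨f, _⟩
  · simp only [tcode] at ht
    simpa using hv a (by omega)
  · simp
  · exact Empty.elim f

theorem inv {M M' : Type} [L.Structure M] [L.Structure M'] (σ : M ≃ M') (N : ℕ)
    (hσ : ∀ (n k : ℕ) (xs : Fin n → M), k < N →
      (RelMap (L := L) (n := n) k (σ ∘ xs) ↔ RelMap (L := L) (n := n) k xs))
    {α : Type} (g : α → ℕ) (v : α → M) (v' : α → M') (hv : ∀ a, g a < N → v' a = σ (v a)) :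
    ∀ {n : ℕ} (φ : L.BoundedFormula α n) (xs : Fin n → M), code g φ < N →
      (φ.Realize v' (σ ∘ xs) ↔ φ.Realize v xs) := by
  intro n φ
  induction φ with
  | falsum => intro xs _; exact Iff.rfl
  | equal s t =>
    intro xs h
    simp only [code] at h
    have h0 := Nat.right_le_pair 1 (Nat.pair (tcode g s) (tcode g t))
    have h1 := Nat.left_le_pair (tcode g s) (tcode g t)
    have h2 := Nat.right_le_pair (tcode g s) (tcode g t)
    simp only [BoundedFormula.Realize]
    rw [term_inv σ N g v v' hv xs s (by omega), term_inv σ N g v v' hv xs t (by omega)]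
    exact σ.apply_eq_iff_eq
  | @rel n l R ts =>
    intro xs h
    simp only [code] at h
    have h0 := Nat.right_le_pair 2 (Nat.pair R
      (Encodable.encode (List.ofFn fun i => tcode g (ts i))))
    have h1 := Nat.left_le_pair R (Encodable.encode (List.ofFn fun i => tcode g (ts i)))
    have h2 := Nat.right_le_pair R (Encodable.encode (List.ofFn fun i => tcode g (ts i)))
    simp only [BoundedFormula.Realize]
    have : (fun i => (ts i).realize (Sum.elim v' (σ ∘ xs))) =
        σ ∘ fun i => (ts i).realize (Sum.elim v xs) := by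
      funext i
      have h3 : tcode g (ts i) ≤ Encodable.encode (List.ofFn fun i => tcode g (ts i)) :=
        le_encode _ _ (List.mem_ofFn.2 ⟨i, rfl⟩)
      exact term_inv σ N g v v' hv xs (ts i) (by omega)
    rw [this]
    exact hσ l R _ (lt_of_le_of_lt (h1.trans h0) h)
  | imp φ ψ ih1 ih2 =>
    intro xs h
    simp only [code] at h
    have h0 := Nat.right_le_pair 3 (Nat.pair (code g φ) (code g ψ))
    have h1 := Nat.left_le_pair (code g φ) (code g ψ)
    have h2 := Nat.right_le_pair (code g φ) (code g ψ)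
    simp only [BoundedFormula.Realize]
    rw [ih1 xs (by omega), ih2 xs (by omega)]
  | all φ ih =>
    intro xs h
    simp only [code] at h
    have h0 := Nat.right_le_pair 4 (code g φ)
    simp only [BoundedFormula.Realize]
    rw [σ.surjective.forall]
    refine forall_congr' fun x => ?_
    rw [← ih (Fin.snoc xs x) (by omega), Fin.comp_snoc]

open Nat.Partrec (Code)

/-- Output of the `i`-th machine on input `i` within `s` steps, `m = ⟨i, s⟩`. -/
def out (m : ℕ) : Option ℕ :=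
  Code.evaln m.unpair.2 (Denumerable.ofNat Code m.unpair.1) m.unpair.1

/-- Double cover of `P × P`. -/
def Mo (P : Type) (_c : ℕ → P) (_τ : P → ℕ → Bool) : Type := P × P × Bool

def U {P : Type} (c : ℕ → P) (τ : P → ℕ → Bool) (k : ℕ) (x : P × P × Bool) : Prop :=
  if k = 0 then x.2.1 = x.1 ∧ x.2.2 = false
  else if k % 2 = 1 then x = (c (k / 2 / 2).unpair.1, c (k / 2 / 2).unpair.2, (k / 2).bodd)
  else x.2.1 = c (k / 2).unpair.1 ∧ (out (k / 2)).isSome = true ∧ x.2.2 = τ x.1 (k / 2)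

def B {P : Type} (k : ℕ) (x y : P × P × Bool) : Prop :=
  (k = 0 ∧ y = (x.1, x.1, false)) ∨ (k = 1 ∧ y = (x.2.1, x.2.1, false))

def rel {P : Type} (c : ℕ → P) (τ : P → ℕ → Bool) (k : ℕ) : List (P × P × Bool) → Prop
  | [x] => U c τ k x
  | [x, y] => B k x y
  | _ => False

instance (P : Type) (c : ℕ → P) (τ : P → ℕ → Bool) : L.Structure (Mo P c τ) where
  funMap f _ := Empty.elim f
  RelMap k xs := rel c τ k (List.ofFn xs)

theorem relMap_Mo {P : Type} {c : ℕ → P} {τ : P → ℕ → Bool} {n : ℕ} (k : ℕ)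
    (xs : Fin n → Mo P c τ) :
    RelMap (L := L) (n := n) k xs ↔ rel c τ k (List.ofFn xs) := Iff.rfl

/-- Index of the predicate naming `(c j, c i, b)`. -/
def nm (j i : ℕ) (b : Bool) : ℕ := 2 * (Nat.bit b (Nat.pair j i)) + 1

theorem U_nm {P : Type} (c : ℕ → P) (τ : P → ℕ → Bool) (j i : ℕ) (b : Bool)
    (x : P × P × Bool) : U c τ (nm j i b) x ↔ x = (c j, c i, b) := by
  have h1 : nm j i b ≠ 0 := by unfold nm; omega
  have h2 : nm j i b % 2 = 1 := by unfold nm; omega
  have h3 : nm j i b / 2 = Nat.bit b (Nat.pair j i) := by unfold nm; omega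
  have h4 : Nat.bit b (Nat.pair j i) / 2 = Nat.pair j i := by
    rw [← Nat.div2_val, Nat.div2_bit]
  simp only [U, h1, h2, h3, h4, if_true, if_false, Nat.unpair_pair, Nat.bodd_bit]

theorem nm_surj (k : ℕ) (hk : k % 2 = 1) : ∃ j i b, k = nm j i b := by
  refine ⟨(k / 2).div2.unpair.1, (k / 2).div2.unpair.2, (k / 2).bodd, ?_⟩
  unfold nm
  rw [Nat.pair_unpair, Nat.bit_bodd_div2]
  omega

theorem U_zero {P : Type} (c : ℕ → P) (τ : P → ℕ → Bool) (x : P × P × Bool) :
    U c τ 0 x ↔ x.2.1 = x.1 ∧ x.2.2 = false := by simp [U]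

theorem U_V {P : Type} (c : ℕ → P) (τ : P → ℕ → Bool) (m : ℕ) (hm : m ≠ 0) (x : P × P × Bool) :
    U c τ (2 * m) x ↔ x.2.1 = c m.unpair.1 ∧ (out m).isSome = true ∧ x.2.2 = τ x.1 m := by
  have h1 : 2 * m ≠ 0 := by omega
  have h2 : ¬ (2 * m % 2 = 1) := by omega
  have h3 : 2 * m / 2 = m := by omega
  simp only [U, h1, h2, h3, if_false]

theorem k_cases (k : ℕ) : k = 0 ∨ (∃ j i b, k = nm j i b) ∨ ∃ m, m ≠ 0 ∧ k = 2 * m := by
  by_cases h : k = 0
  · exact Or.inl h
  by_cases h2 : k % 2 = 1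
  · exact Or.inr (Or.inl (nm_surj k h2))
  · exact Or.inr (Or.inr ⟨k / 2, by omega, by omega⟩)

theorem le_nm (j i : ℕ) (b : Bool) : j ≤ nm j i b ∧ i ≤ nm j i b := by
  have h1 := Nat.left_le_pair j i
  have h2 := Nat.right_le_pair j i
  have h3 : Nat.pair j i ≤ Nat.bit b (Nat.pair j i) := by
    cases b <;> simp [Nat.bit] <;> omega
  unfold nm; omega

/-- Relations of a list: reduce to unary and binary. -/
theorem rel_congr {P P' : Type} {c : ℕ → P} {τ : P → ℕ → Bool} {c' : ℕ → P'}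
    {τ' : P' → ℕ → Bool} (σ : P × P × Bool → P' × P' × Bool) (k : ℕ)
    (h1 : ∀ x, U c' τ' k (σ x) ↔ U c τ k x) (h2 : ∀ x y, B k (σ x) (σ y) ↔ B k x y)
    (l : List (P × P × Bool)) : rel c' τ' k (l.map σ) ↔ rel c τ k l := by
  match l with
  | [] => exact Iff.rfl
  | [x] => exact h1 x
  | [x, y] => exact h2 x y
  | _ :: _ :: _ :: _ => exact Iff.rfl

/-- Map induced by a map of the base sets. -/
def lift {P P' : Type} (e : P → P') (x : P × P × Bool) : P' × P' × Bool :=
  (e x.1, e x.2.1, x.2.2)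

theorem B_lift {P P' : Type} (e : P → P') (he : Function.Injective e) (k : ℕ)
    (x y : P × P × Bool) : B k (lift e x) (lift e y) ↔ B k x y := by
  obtain ⟨p, q, b⟩ := x
  obtain ⟨p', q', b'⟩ := y
  simp [B, lift, he.eq_iff]

theorem U_lift {P P' : Type} {c : ℕ → P} {τ : P → ℕ → Bool} {c' : ℕ → P'}
    {τ' : P' → ℕ → Bool} (e : P → P') (he : Function.Injective e) (k : ℕ)
    (hc : ∀ j ≤ k, e (c j) = c' j) (hτ : ∀ p m, τ' (e p) m = τ p m) (x : P × P × Bool) :
    U c' τ' k (lift e x) ↔ U c τ k x := by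
  obtain ⟨p, q, b⟩ := x
  rcases k_cases k with rfl | ⟨j, i, β, rfl⟩ | ⟨m, hm, rfl⟩
  · simp [U_zero, lift, he.eq_iff]
  · rw [U_nm, U_nm, ← hc j (le_nm j i β).1, ← hc i (le_nm j i β).2]
    simp [lift, he.eq_iff]
  · have : m.unpair.1 ≤ 2 * m := by have := Nat.unpair_left_le m; omega
    rw [U_V _ _ _ hm, U_V _ _ _ hm, ← hc _ this]
    simp [lift, he.eq_iff, hτ]

theorem relMap_lift {P P' : Type} {c : ℕ → P} {τ : P → ℕ → Bool} {c' : ℕ → P'}
    {τ' : P' → ℕ → Bool} (e : P → P') (he : Function.Injective e) (n k : ℕ)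
    (hc : ∀ j ≤ k, e (c j) = c' j) (hτ : ∀ p m, τ' (e p) m = τ p m) (xs : Fin n → Mo P c τ) :
    RelMap (L := L) (M := Mo P' c' τ') (n := n) k (lift e ∘ xs) ↔
      RelMap (L := L) (n := n) k xs := by
  have := rel_congr (lift e) k (U_lift e he k hc hτ) (B_lift e he k)
    (List.ofFn (xs : Fin n → P × P × Bool))
  rw [List.map_ofFn] at this
  exact this

/-- Equivalence induced by a bijection of base sets. -/
def liftE {P P' : Type} (e : P ≃ P') : P × P × Bool ≃ P' × P' × Bool :=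
  e.prodCongr (e.prodCongr (Equiv.refl Bool))

theorem liftE_coe {P P' : Type} (e : P ≃ P') : ⇑(liftE e) = lift e := rfl

theorem move1 {P : Type} (G S : Set P) (hG : G ⊆ S) (r : P) (hr : r ∈ S) (hr' : r ∉ G) (p : P) :
    ∃ e : Equiv.Perm P, (∀ x ∈ G, e x = x) ∧ e p ∈ S := by
  classical
  by_cases hp : p ∈ G
  · exact ⟨Equiv.refl P, fun _ _ => rfl, hG hp⟩
  · refine ⟨Equiv.swap p r, fun x hx => ?_, by simpa using hr⟩
    exact Equiv.swap_apply_of_ne_of_ne (fun h => hp (h ▸ hx)) (fun h => hr' (h ▸ hx))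

theorem move2 {P : Type} (G S : Set P) (hG : G ⊆ S) (r r' : P) (hr : r ∈ S) (hr1 : r ∉ G)
    (hr' : r' ∈ S) (hr2 : r' ∉ G) (hne : r ≠ r') (p q : P) :
    ∃ e : Equiv.Perm P, (∀ x ∈ G, e x = x) ∧ e p ∈ S ∧ e q ∈ S := by
  obtain ⟨e1, h1, h2⟩ := move1 G S hG r hr hr1 p
  have : ∃ t ∈ S, t ∉ insert (e1 p) G := by
    by_cases h : r = e1 p
    · exact ⟨r', hr', by simp [← h, hr2, hne.symm]⟩
    · exact ⟨r, hr, by simp [h, hr1]⟩
  obtain ⟨t, ht, ht'⟩ := this
  obtain ⟨e2, h3, h4⟩ := move1 (insert (e1 p) G) S (Set.insert_subset h2 hG) t ht ht' (e1 q)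
  refine ⟨e1.trans e2, fun x hx => ?_, ?_, h4⟩
  · simp [h1 x hx, h3 x (Or.inr hx)]
  · simpa [h3 (e1 p) (Or.inl rfl)] using h2

/-- The trivial orientation. -/
def triv (P : Type) : P → ℕ → Bool := fun _ _ => true

/-- Embedding of the prime model. -/
def emb0 {P : Type} (c : ℕ → P) (hc : Function.Injective c) :
    Mo ℕ id (triv ℕ) ↪[L] Mo P c (triv P) where
  toFun := lift c
  inj' := by
    rintro ⟨p, q, b⟩ ⟨p', q', b'⟩ h
    have h' : ((c p, c q, b) : P × P × Bool) = (c p', c q', b') := h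
    simp only [Prod.mk.injEq, hc.eq_iff] at h'
    obtain ⟨rfl, rfl, rfl⟩ := h'
    rfl
  map_fun' f := Empty.elim f
  map_rel' k xs := relMap_lift c hc _ k (fun _ _ => rfl) (fun _ _ => rfl) xs

/-- Tarski-Vaught. -/
def elem0 {P : Type} (c : ℕ → P) (hc : Function.Injective c) :
    Mo ℕ id (triv ℕ) ↪ₑ[L] Mo P c (triv P) :=
  (emb0 c hc).toElementaryEmbedding (by
    intro n φ x a h
    obtain ⟨p, q, b⟩ := a
    obtain ⟨N, hN, hx⟩ : ∃ N, code Empty.elim φ < N ∧
        ∀ i, (x i).1 < N ∧ (x i).2.1 < N := by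
      obtain ⟨K, hK⟩ := (Set.finite_range fun i => (x i).1 + (x i).2.1).bddAbove
      refine ⟨code Empty.elim φ + K + 1, by omega, fun i => ?_⟩
      have := hK ⟨i, rfl⟩
      simp only at this
      omega
    obtain ⟨e, he, ⟨j, hj⟩, ⟨i, hi⟩⟩ := move2 (c '' Set.Iio N) (Set.range c)
      (Set.image_subset_range _ _) (c N) (c (N + 1)) ⟨_, rfl⟩
      (by rintro ⟨y, hy, h⟩; have := hc h; simp at hy; omega) ⟨_, rfl⟩
      (by rintro ⟨y, hy, h⟩; have := hc h; simp at hy; omega)
      (fun h => by have := hc h; omega) p q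
    refine ⟨(j, i, b), ?_⟩
    have key := (inv (M := Mo P c (triv P)) (M' := Mo P c (triv P)) (liftE e) N
      (fun n k xs hk => relMap_lift e e.injective n k
        (fun j hj => he _ ⟨j, lt_of_le_of_lt hj hk, rfl⟩) (fun _ _ => rfl) xs)
      Empty.elim default default (fun a => a.elim) φ _ hN).2 h
    rw [Fin.comp_snoc] at key
    have e1 : ⇑(liftE e) ∘ (emb0 c hc) ∘ x = (emb0 c hc) ∘ x := by
      funext t
      change lift e (lift c (x t)) = lift c (x t)
      simp only [lift]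
      rw [he _ ⟨_, (hx t).1, rfl⟩, he _ ⟨_, (hx t).2, rfl⟩]
    have e2 : liftE e (p, q, b) = emb0 c hc (j, i, b) := by
      change lift e (p, q, b) = lift c (j, i, b)
      simp only [lift, hj, hi]
    have e3 : (Fin.snoc (⇑(liftE e) ∘ (emb0 c hc) ∘ x) (liftE e (p, q, b)) :
        Fin (n + 1) → P × P × Bool) = Fin.snoc ((emb0 c hc) ∘ x) (emb0 c hc (j, i, b)) := by
      rw [e1, e2]
    exact e3 ▸ key)

/-- Isomorphism induced by a bijection respecting the constants. -/
def isoE {P P' : Type} {c : ℕ → P} {c' : ℕ → P'} (e : P ≃ P') (he : ∀ j, e (c j) = c' j) :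
    Mo P c (triv P) ≃[L] Mo P' c' (triv P') where
  toEquiv := liftE e
  map_fun' f := Empty.elim f
  map_rel' k xs := relMap_lift e e.injective _ k (fun j _ => he j) (fun _ _ => rfl) xs

end Pool.Agent.H83.Sa
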