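import Pool.Agent.H83.Sa1

namespace Pool.Agent.H83.Sa

open FirstOrder FirstOrder.Language Cardinal
open FirstOrder.Language.Structure
open Nat.Partrec (Code)

theorem exists_rec {β σ : Type} (m : β → ℕ) (l : β → List β) (g : β → List σ → σ)
    (hl : ∀ b, ∀ b' ∈ l b, m b' < m b) : ∃ f : β → σ, ∀ b, g b ((l b).map f) = f b := by
  have wf : WellFounded (fun a b : β => m a < m b) := InvImage.wf m Nat.lt_wfRel.wf
  let f : β → σ := wf.fix
    (fun b ih => g b ((l b).attach.map fun x => ih x.1 (hl b x.1 x.2)))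
  refine ⟨f, fun b => ?_⟩
  have : f b = g b ((l b).attach.map fun x => f x.1) := WellFounded.fix_eq _ _ b
  rw [this, List.attach_map_val]

/-- The standard numbering. -/
def nu (x : ℕ) : ℕ × ℕ × Bool := ((x / 2).unpair.1, (x / 2).unpair.2, x.bodd)

theorem nu_bit (p q : ℕ) (b : Bool) : nu (Nat.bit b (Nat.pair p q)) = (p, q, b) := by
  have h4 : Nat.bit b (Nat.pair p q) / 2 = Nat.pair p q := by
    rw [← Nat.div2_val, Nat.div2_bit]
  simp [nu, h4]

theorem nu_surj : Function.Surjective nu := fun x => ⟨_, nu_bit x.1 x.2.1 x.2.2⟩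

theorem nu_inj : Function.Injective nu := by
  intro x y h
  simp only [nu, Prod.mk.injEq] at h
  obtain ⟨h1, h2, h3⟩ := h
  have : x / 2 = y / 2 := by
    rw [← Nat.pair_unpair (x / 2), ← Nat.pair_unpair (y / 2), h1, h2]
  rw [← Nat.bit_bodd_div2 x, ← Nat.bit_bodd_div2 y, h3, Nat.div2_val, Nat.div2_val, this]

theorem nu_le (x : ℕ) : (nu x).1 ≤ x ∧ (nu x).2.1 ≤ x := by
  have h1 := Nat.unpair_left_le (x / 2)
  have h2 := Nat.unpair_right_le (x / 2)
  simp only [nu]; omega

theorem lt_sq_iff (x K : ℕ) : x < 2 * (K * K) ↔ (nu x).1 < K ∧ (nu x).2.1 < K := by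
  simp only [nu]
  set y := x / 2 with hy
  have h1 := Nat.pair_lt_max_add_one_sq y.unpair.1 y.unpair.2
  have h2 := Nat.max_sq_add_min_le_pair y.unpair.1 y.unpair.2
  rw [Nat.pair_unpair] at h1 h2
  rw [← max_lt_iff]
  constructor
  · intro h
    by_contra hc
    have : K * K ≤ (max y.unpair.1 y.unpair.2) ^ 2 := by
      rw [sq]; exact Nat.mul_le_mul (not_lt.1 hc) (not_lt.1 hc)
    omega
  · intro h
    have : (max y.unpair.1 y.unpair.2 + 1) ^ 2 ≤ K * K := by
      rw [sq]; exact Nat.mul_le_mul h h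
    omega

theorem prim_nu : Primrec nu :=
  ((Primrec.fst.comp Primrec.unpair).comp (Primrec.nat_div.comp Primrec.id (Primrec.const 2))).pair
    (((Primrec.snd.comp Primrec.unpair).comp
      (Primrec.nat_div.comp Primrec.id (Primrec.const 2))).pair Primrec.nat_bodd)

theorem prim_out : Primrec out :=
  Code.primrec_evaln.comp (((Primrec.snd.comp Primrec.unpair).pair
    ((Primrec.ofNat Code).comp (Primrec.fst.comp Primrec.unpair))).pair
      (Primrec.fst.comp Primrec.unpair))

theorem prim_U (c : ℕ → ℕ) (τ : ℕ → ℕ → Bool) (hc : Primrec c) (hτ : Primrec₂ τ) :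
    PrimrecPred fun a : ℕ × (ℕ × ℕ × Bool) => U c τ a.1 a.2 := by
  have k0 : PrimrecPred fun a : ℕ × (ℕ × ℕ × Bool) => a.1 = 0 :=
    Primrec.eq.comp Primrec.fst (Primrec.const 0)
  have k1 : PrimrecPred fun a : ℕ × (ℕ × ℕ × Bool) => a.1 % 2 = 1 :=
    Primrec.eq.comp (Primrec.nat_mod.comp Primrec.fst (Primrec.const 2)) (Primrec.const 1)
  have h2 : Primrec fun a : ℕ × (ℕ × ℕ × Bool) => a.1 / 2 :=
    Primrec.nat_div.comp Primrec.fst (Primrec.const 2)
  have h4 : Primrec fun a : ℕ × (ℕ × ℕ × Bool) => a.1 / 2 / 2 :=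
    Primrec.nat_div.comp h2 (Primrec.const 2)
  have x1 : Primrec fun a : ℕ × (ℕ × ℕ × Bool) => a.2.1 := Primrec.fst.comp Primrec.snd
  have x2 : Primrec fun a : ℕ × (ℕ × ℕ × Bool) => a.2.2.1 :=
    Primrec.fst.comp (Primrec.snd.comp Primrec.snd)
  have x3 : Primrec fun a : ℕ × (ℕ × ℕ × Bool) => a.2.2.2 :=
    Primrec.snd.comp (Primrec.snd.comp Primrec.snd)
  have A : PrimrecPred fun a : ℕ × (ℕ × ℕ × Bool) => a.2.2.1 = a.2.1 ∧ a.2.2.2 = false :=
    (Primrec.eq.comp x2 x1).and (Primrec.eq.comp x3 (Primrec.const false))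
  have Bq : PrimrecPred fun a : ℕ × (ℕ × ℕ × Bool) =>
      a.2 = (c (a.1 / 2 / 2).unpair.1, c (a.1 / 2 / 2).unpair.2, (a.1 / 2).bodd) :=
    Primrec.eq.comp Primrec.snd ((hc.comp (Primrec.fst.comp (Primrec.unpair.comp h4))).pair
      ((hc.comp (Primrec.snd.comp (Primrec.unpair.comp h4))).pair (Primrec.nat_bodd.comp h2)))
  have C : PrimrecPred fun a : ℕ × (ℕ × ℕ × Bool) => a.2.2.1 = c (a.1 / 2).unpair.1 ∧
      (out (a.1 / 2)).isSome = true ∧ a.2.2.2 = τ a.2.1 (a.1 / 2) :=
    (Primrec.eq.comp x2 (hc.comp (Primrec.fst.comp (Primrec.unpair.comp h2)))).and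
      ((Primrec.eq.comp (Primrec.option_isSome.comp (prim_out.comp h2)) (Primrec.const true)).and
        (Primrec.eq.comp x3 (hτ.comp x1 h2)))
  refine ((k0.and A).or ((k0.not.and (k1.and Bq)).or (k0.not.and (k1.not.and C)))).of_eq ?_
  intro a
  unfold U
  split_ifs with h h' <;> simp [h, *]

theorem prim_B : PrimrecPred fun a : ℕ × (ℕ × ℕ × Bool) × (ℕ × ℕ × Bool) => B a.1 a.2.1 a.2.2 := by
  have x1 : Primrec fun a : ℕ × (ℕ × ℕ × Bool) × (ℕ × ℕ × Bool) => a.2.1.1 :=
    Primrec.fst.comp (Primrec.fst.comp Primrec.snd)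
  have x2 : Primrec fun a : ℕ × (ℕ × ℕ × Bool) × (ℕ × ℕ × Bool) => a.2.1.2.1 :=
    Primrec.fst.comp (Primrec.snd.comp (Primrec.fst.comp Primrec.snd))
  have y : Primrec fun a : ℕ × (ℕ × ℕ × Bool) × (ℕ × ℕ × Bool) => a.2.2 :=
    Primrec.snd.comp Primrec.snd
  exact ((Primrec.eq.comp Primrec.fst (Primrec.const 0)).and
    (Primrec.eq.comp y (x1.pair (x1.pair (Primrec.const false))))).or
    ((Primrec.eq.comp Primrec.fst (Primrec.const 1)).and
    (Primrec.eq.comp y (x2.pair (x2.pair (Primrec.const false)))))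

def val (xs : List ℕ) (t : ℕ) : ℕ := if t % 2 = 0 then t / 2 else xs.getD (t / 2) 0

theorem prim_val : Primrec₂ val :=
  Primrec.ite (Primrec.eq.comp (Primrec.nat_mod.comp Primrec.snd (Primrec.const 2))
    (Primrec.const 0)) (Primrec.nat_div.comp Primrec.snd (Primrec.const 2))
    ((Primrec.list_getD 0).comp Primrec.fst (Primrec.nat_div.comp Primrec.snd (Primrec.const 2)))

def relP (c : ℕ → ℕ) (τ : ℕ → ℕ → Bool) (k : ℕ) (l xs : List ℕ) : Prop :=
  (l.length = 1 ∧ U c τ k (nu (val xs (l.getD 0 0)))) ∨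
  (l.length = 2 ∧ B k (nu (val xs (l.getD 0 0))) (nu (val xs (l.getD 1 0))))

theorem relP_iff (c : ℕ → ℕ) (τ : ℕ → ℕ → Bool) (k : ℕ) (l xs : List ℕ) :
    relP c τ k l xs ↔ rel c τ k (l.map fun t => nu (val xs t)) := by
  match l with
  | [] => simp [relP, rel]
  | [x] => simp [relP, rel]
  | [x, y] => simp [relP, rel]
  | _ :: _ :: _ :: _ => simp [relP, rel]

theorem prim_relP (c : ℕ → ℕ) (τ : ℕ → ℕ → Bool) (hc : Primrec c) (hτ : Primrec₂ τ) :
    PrimrecPred fun a : ℕ × List ℕ × List ℕ => relP c τ a.1 a.2.1 a.2.2 := by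
  have l : Primrec fun a : ℕ × List ℕ × List ℕ => a.2.1 := Primrec.fst.comp Primrec.snd
  have xs : Primrec fun a : ℕ × List ℕ × List ℕ => a.2.2 := Primrec.snd.comp Primrec.snd
  have v0 : Primrec fun a : ℕ × List ℕ × List ℕ => nu (val a.2.2 (a.2.1.getD 0 0)) :=
    prim_nu.comp (prim_val.comp xs ((Primrec.list_getD 0).comp l (Primrec.const 0)))
  have v1 : Primrec fun a : ℕ × List ℕ × List ℕ => nu (val a.2.2 (a.2.1.getD 1 0)) :=
    prim_nu.comp (prim_val.comp xs ((Primrec.list_getD 0).comp l (Primrec.const 1)))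
  exact ((Primrec.eq.comp (Primrec.list_length.comp l) (Primrec.const 1)).and
    ((prim_U c τ hc hτ).comp (Primrec.fst.pair v0))).or
    ((Primrec.eq.comp (Primrec.list_length.comp l) (Primrec.const 2)).and
    (prim_B.comp (Primrec.fst.pair (v0.pair v1))))

abbrev St := ℕ × ℕ × List ℕ

def sub (b : St) : List St :=
  if b.1.unpair.1 = 3 then [(b.1.unpair.2.unpair.1, b.2), (b.1.unpair.2.unpair.2, b.2)]
  else if b.1.unpair.1 = 4 then (List.range (2 * ((b.2.1 + 2) * (b.2.1 + 2)))).map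
    fun x => (b.1.unpair.2, b.2.1 + 2, b.2.2 ++ [x])
  else []

theorem sub_lt (b : St) : ∀ b' ∈ sub b, b'.1 < b.1 := by
  intro b' h
  have e := Nat.pair_unpair b.1
  unfold sub at h
  split_ifs at h with h1 h2
  · have : b.1.unpair.2 < Nat.pair 3 b.1.unpair.2 := lt_pair_succ 2 b.1.unpair.2
    rw [h1] at e
    have h3 := Nat.unpair_left_le b.1.unpair.2
    have h4 := Nat.unpair_right_le b.1.unpair.2
    simp only [List.mem_cons, List.not_mem_nil, or_false] at h
    rcases h with rfl | rfl <;> simp only <;> omega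
  · have : b.1.unpair.2 < Nat.pair 4 b.1.unpair.2 := lt_pair_succ 3 b.1.unpair.2
    rw [h2] at e
    obtain ⟨x, _, rfl⟩ := List.mem_map.1 h
    simp only; omega
  · simp at h

theorem prim_sub : Primrec sub := by
  have t1 : Primrec fun b : St => b.1.unpair.1 := Primrec.fst.comp (Primrec.unpair.comp Primrec.fst)
  have t2 : Primrec fun b : St => b.1.unpair.2 := Primrec.snd.comp (Primrec.unpair.comp Primrec.fst)
  have K : Primrec fun b : St => b.2.1 + 2 :=
    Primrec.nat_add.comp (Primrec.fst.comp Primrec.snd) (Primrec.const 2)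
  refine Primrec.ite (Primrec.eq.comp t1 (Primrec.const 3))
    (Primrec.list_cons.comp ((Primrec.fst.comp (Primrec.unpair.comp t2)).pair Primrec.snd)
      (Primrec.list_cons.comp ((Primrec.snd.comp (Primrec.unpair.comp t2)).pair Primrec.snd)
        (Primrec.const [])))
    (Primrec.ite (Primrec.eq.comp t1 (Primrec.const 4)) ?_ (Primrec.const []))
  refine Primrec.list_map (Primrec.list_range.comp
    (Primrec.nat_mul.comp (Primrec.const 2) (Primrec.nat_mul.comp K K))) ?_
  exact ((t2.comp Primrec.fst).pair ((K.comp Primrec.fst).pair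
    (Primrec.list_concat.comp (Primrec.snd.comp (Primrec.snd.comp Primrec.fst)) Primrec.snd))).to₂

def G (c : ℕ → ℕ) (τ : ℕ → ℕ → Bool) (b : St) (r : List Bool) : Prop :=
  (b.1.unpair.1 = 1 ∧ val b.2.2 b.1.unpair.2.unpair.1 = val b.2.2 b.1.unpair.2.unpair.2) ∨
  (b.1.unpair.1 = 2 ∧ relP c τ b.1.unpair.2.unpair.1
    (Denumerable.ofNat (List ℕ) b.1.unpair.2.unpair.2) b.2.2) ∨
  (b.1.unpair.1 = 3 ∧ (¬ r.getD 0 false = true ∨ r.getD 1 false = true)) ∨
  (b.1.unpair.1 = 4 ∧ ∀ a ∈ r, a = true)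

theorem prim_G (c : ℕ → ℕ) (τ : ℕ → ℕ → Bool) (hc : Primrec c) (hτ : Primrec₂ τ) :
    PrimrecPred fun a : St × List Bool => G c τ a.1 a.2 := by
  have t1 : Primrec fun a : St × List Bool => a.1.1.unpair.1 :=
    Primrec.fst.comp (Primrec.unpair.comp (Primrec.fst.comp Primrec.fst))
  have t2 : Primrec fun a : St × List Bool => a.1.1.unpair.2 :=
    Primrec.snd.comp (Primrec.unpair.comp (Primrec.fst.comp Primrec.fst))
  have s1 : Primrec fun a : St × List Bool => a.1.1.unpair.2.unpair.1 :=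
    Primrec.fst.comp (Primrec.unpair.comp t2)
  have s2 : Primrec fun a : St × List Bool => a.1.1.unpair.2.unpair.2 :=
    Primrec.snd.comp (Primrec.unpair.comp t2)
  have xs : Primrec fun a : St × List Bool => a.1.2.2 :=
    Primrec.snd.comp (Primrec.snd.comp Primrec.fst)
  have hall : PrimrecPred fun r : List Bool => ∀ a ∈ r, a = true :=
    PrimrecPred.forall_mem_list (Primrec.eq.comp Primrec.id (Primrec.const true))
  exact ((Primrec.eq.comp t1 (Primrec.const 1)).and
    (Primrec.eq.comp (prim_val.comp xs s1) (prim_val.comp xs s2))).or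
    (((Primrec.eq.comp t1 (Primrec.const 2)).and ((prim_relP c τ hc hτ).comp
      (s1.pair (((Primrec.ofNat (List ℕ)).comp s2).pair xs)))).or
    (((Primrec.eq.comp t1 (Primrec.const 3)).and
      ((Primrec.eq.comp ((Primrec.list_getD false).comp Primrec.snd (Primrec.const 0))
        (Primrec.const true)).not.or
       (Primrec.eq.comp ((Primrec.list_getD false).comp Primrec.snd (Primrec.const 1))
        (Primrec.const true)))).or
    ((Primrec.eq.comp t1 (Primrec.const 4)).and (hall.comp Primrec.snd))))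

theorem exists_ev (c : ℕ → ℕ) (τ : ℕ → ℕ → Bool) (hc : Primrec c) (hτ : Primrec₂ τ) :
    ∃ f : St → Bool, Primrec f ∧ ∀ b, f b = true ↔ G c τ b ((sub b).map f) := by
  obtain ⟨inst, hG⟩ := prim_G c τ hc hτ
  obtain ⟨f, hf⟩ := exists_rec (fun b : St => b.1) sub
    (fun b r => @decide _ (inst (b, r))) sub_lt
  refine ⟨f, ?_, fun b => ?_⟩
  · exact Primrec.nat_omega_rec' f (m := fun b : St => b.1) (l := sub)
      (g := fun b r => some (@decide _ (inst (b, r)))) Primrec.fst prim_sub
      (Primrec.option_some.comp hG).to₂ sub_lt (fun b => by rw [hf b])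
  · rw [← hf b]; exact decide_eq_true_iff

theorem val_tcode {α : Type} (g : α → ℕ) {c : ℕ → ℕ} {τ : ℕ → ℕ → Bool} {n : ℕ}
    (ys : Fin n → ℕ) (t : L.Term (α ⊕ Fin n)) :
    nu (val (List.ofFn ys) (tcode g t)) = t.realize (M := Mo ℕ c τ)
      (Sum.elim (fun a => nu (g a)) (fun i => nu (ys i))) := by
  rcases t with (a | i) | ⟨f, _⟩
  · have h1 : 2 * g a % 2 = 0 := by omega
    have h2 : 2 * g a / 2 = g a := by omega
    simp only [tcode, val, h1, h2, if_true]
    rfl
  · have h1 : ¬ (2 * i.val + 1) % 2 = 0 := by omega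
    have h2 : (2 * i.val + 1) / 2 = i.val := by omega
    simp only [tcode, val, h1, h2, if_false]
    simp
  · exact Empty.elim f

theorem ev_correct (c : ℕ → ℕ) (τ : ℕ → ℕ → Bool) (hc1 : ∀ j, c j ≤ j + 1)
    (hτ1 : ∀ p p' m, p ≠ 0 → p' ≠ 0 → τ p m = τ p' m) (f : St → Bool)
    (hf : ∀ b, f b = true ↔ G c τ b ((sub b).map f)) {α : Type} (g : α → ℕ) :
    ∀ {n : ℕ} (φ : L.BoundedFormula α n) (K : ℕ) (ys : Fin n → ℕ), code g φ + 1 < K →
      (∀ i, ys i < 2 * (K * K)) →
      (f (code g φ, K, List.ofFn ys) = true ↔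
        φ.Realize (M := Mo ℕ c τ) (fun a => nu (g a)) (fun i => nu (ys i))) := by
  intro n φ
  induction φ with
  | falsum =>
    intro K ys _ _
    rw [hf]
    simp [G, code, BoundedFormula.Realize]
  | equal s t =>
    intro K ys _ _
    rw [hf]
    simp only [G, code, BoundedFormula.Realize, Nat.unpair_pair, ← val_tcode g ys]
    simp only [true_and, OfNat.one_ne_ofNat, false_and, or_false]
    exact nu_inj.eq_iff.symm
  | @rel n l R ts =>
    intro K ys _ _
    rw [hf]
    simp only [G, code, BoundedFormula.Realize, Nat.unpair_pair, ← val_tcode g ys,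
      Denumerable.ofNat_encode, relP_iff, List.map_ofFn]
    simp only [true_and, OfNat.ofNat_ne_one, false_and, false_or, Nat.reduceEqDiff, or_false]
    exact Iff.rfl
  | imp φ ψ ih1 ih2 =>
    intro K ys h hy
    simp only [code] at h
    have h0 := Nat.right_le_pair 3 (Nat.pair (code g φ) (code g ψ))
    have h1 := Nat.left_le_pair (code g φ) (code g ψ)
    have h2 := Nat.right_le_pair (code g φ) (code g ψ)
    rw [hf]
    simp only [G, sub, code, BoundedFormula.Realize, Nat.unpair_pair,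
      ← ih1 K ys (by omega) hy, ← ih2 K ys (by omega) hy]
    simp [imp_iff_not_or]
  | @all n φ ih =>
    intro K ys h hy
    simp only [code] at h
    have h0 := Nat.right_le_pair 4 (code g φ)
    rw [hf]
    simp only [G, sub, code, BoundedFormula.Realize, Nat.unpair_pair]
    simp only [Nat.reduceEqDiff, OfNat.ofNat_ne_one, false_and, false_or, true_and, if_false,
      if_true, List.map_map, List.forall_mem_map, List.mem_range, Function.comp]
    have step : ∀ x, x < 2 * ((K + 2) * (K + 2)) →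
        (f (code g φ, K + 2, List.ofFn ys ++ [x]) = true ↔
          φ.Realize (M := Mo ℕ c τ) (fun a => nu (g a))
            (Fin.snoc (α := fun _ => Mo ℕ c τ) (fun i => nu (ys i)) (nu x))) := by
      intro x hx
      have e1 : List.ofFn ys ++ [x] = List.ofFn (Fin.snoc ys x : Fin (n + 1) → ℕ) := by
        rw [List.ofFn_succ']; simp
      have e2 : (Fin.snoc (α := fun _ => Mo ℕ c τ) (fun i => nu (ys i)) (nu x)) =
          fun i => nu ((Fin.snoc ys x : Fin (n + 1) → ℕ) i) :=
        (Fin.comp_snoc nu ys x).symm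
      rw [e1, e2]
      refine ih (K + 2) _ (by omega) (fun i => ?_)
      refine Fin.lastCases ?_ (fun i => ?_) i
      · simpa using hx
      · have := hy i
        simp only [Fin.snoc_castSucc]
        nlinarith
    constructor
    · rintro H ⟨p, q, b⟩
      obtain ⟨e, he, hp, hq⟩ := move2 (Set.Iio K) (Set.Iio (K + 2))
        (Set.Iio_subset_Iio (by omega)) K (K + 1) (by simp) (by simp) (by simp) (by simp)
        (by omega) p q
      have hx : Nat.bit b (Nat.pair (e p) (e q)) < 2 * ((K + 2) * (K + 2)) := by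
        rw [lt_sq_iff, nu_bit]; exact ⟨hp, hq⟩
      have h3 := (step _ hx).1 (H _ hx)
      have he0 : e 0 = 0 := he 0 (by simp; omega)
      refine (inv (M := Mo ℕ c τ) (M' := Mo ℕ c τ) (liftE e) (K - 1)
        (fun n k xs hk => relMap_lift e e.injective n k
          (fun j hj => he _ (by have := hc1 j; simp; omega)) (fun p m => ?_) xs)
        g (fun a => nu (g a)) (fun a => nu (g a)) (fun a ha => ?_) φ _ (by omega)).1 ?_
      · by_cases hp0 : p = 0
        · rw [hp0, he0]
        · exact hτ1 _ _ _ (fun h => hp0 (e.injective (h.trans he0.symm))) hp0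
      · change nu (g a) = lift e (nu (g a))
        have := nu_le (g a)
        simp only [lift]
        rw [he _ (by simp; omega), he _ (by simp; omega)]
      · have e3 : (⇑(liftE e) ∘ (Fin.snoc (fun i => nu (ys i)) (p, q, b) :
            Fin (n + 1) → ℕ × ℕ × Bool)) =
            Fin.snoc (fun i => nu (ys i)) (nu (Nat.bit b (Nat.pair (e p) (e q)))) := by
          rw [Fin.comp_snoc, nu_bit]
          congr 1
          funext i
          change lift e (nu (ys i)) = nu (ys i)
          have := (lt_sq_iff _ _).1 (hy i)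
          simp only [lift]
          rw [he _ this.1, he _ this.2]
        exact e3 ▸ h3
    · intro H x hx
      exact (step x hx).2 (H _)

theorem exists_dec (c : ℕ → ℕ) (τ : ℕ → ℕ → Bool) (hc : Primrec c) (hτ : Primrec₂ τ)
    (hc1 : ∀ j, c j ≤ j + 1) (hτ1 : ∀ p p' m, p ≠ 0 → p' ≠ 0 → τ p m = τ p' m) :
    ∃ p : ℕ → Bool, Computable p ∧ ∀ {α : Type} (g : α → ℕ) (φ : L.Formula α),
      p (code g φ) = true ↔ φ.Realize (M := Mo ℕ c τ) (fun a => nu (g a)) := by
  obtain ⟨f, hf, hf'⟩ := exists_ev c τ hc hτ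
  refine ⟨fun x => f (x, x + 2, []), (hf.comp (Primrec.id.pair ((Primrec.nat_add.comp Primrec.id
    (Primrec.const 2)).pair (Primrec.const [])))).to_comp, fun g φ => ?_⟩
  have := ev_correct c τ hc1 hτ1 f hf' g φ (code g φ + 2) default (by omega) (fun i => i.elim0)
  rw [List.ofFn_zero] at this
  rw [this, Formula.Realize]
  exact iff_of_eq (congrArg _ (Subsingleton.elim _ _))

end Pool.Agent.H83.Sa
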