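import Pool.Agent.H83.Sa1

namespace Pool.Agent.H83.Sa

open FirstOrder FirstOrder.Language Cardinal
open FirstOrder.Language.Structure

def u {M : Type} [L.Structure M] (k : ℕ) (x : M) : Prop := RelMap (L := L) (n := 1) k ![x]
def b {M : Type} [L.Structure M] (k : ℕ) (x y : M) : Prop := RelMap (L := L) (n := 2) k ![x, y]

def fu {n : ℕ} (k : ℕ) (i : Fin n) : L.BoundedFormula Empty n :=
  Relations.boundedFormula₁ (L := L) k (&i)
def fb {n : ℕ} (k : ℕ) (i j : Fin n) : L.BoundedFormula Empty n :=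
  Relations.boundedFormula₂ (L := L) k (&i) (&j)
def fe {n : ℕ} (i j : Fin n) : L.BoundedFormula Empty n := (&i : L.Term _).bdEqual (&j)

theorem r_fu {M : Type} [L.Structure M] {n : ℕ} (k : ℕ) (i : Fin n) (v : Empty → M)
    (xs : Fin n → M) : (fu k i).Realize v xs ↔ u k (xs i) := BoundedFormula.realize_rel₁
theorem r_fb {M : Type} [L.Structure M] {n : ℕ} (k : ℕ) (i j : Fin n) (v : Empty → M)
    (xs : Fin n → M) : (fb k i j).Realize v xs ↔ b k (xs i) (xs j) := BoundedFormula.realize_rel₂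
theorem r_fe {M : Type} [L.Structure M] {n : ℕ} (i j : Fin n) (v : Empty → M)
    (xs : Fin n → M) : (fe i j).Realize v xs ↔ xs i = xs j := Iff.rfl

theorem tr {A : ∀ (M : Type) [L.Structure M], Prop} (φ : L.Sentence)
    (hφ : ∀ (M : Type) [L.Structure M], M ⊨ φ ↔ A M) {M N : Type} [L.Structure M]
    [L.Structure N] (h : M ≅[L] N) (hA : A M) : A N :=
  (hφ N).1 ((h.realize_sentence φ).1 ((hφ M).2 hA))

variable {M N : Type} [L.Structure M] [L.Structure N]

theorem t1 (h : M ≅[L] N) (k : ℕ) (H : ∀ x : M, ∃ y, b k x y ∧ u 0 y) :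
    ∀ x : N, ∃ y, b k x y ∧ u 0 y :=
  tr (A := fun M _ => ∀ x : M, ∃ y, b k x y ∧ u 0 y) (∀' ∃' (fb k 0 1 ⊓ fu 0 1)) (by
    intro M _
    simp only [Sentence.Realize, Formula.Realize, BoundedFormula.realize_all,
      BoundedFormula.realize_ex, BoundedFormula.realize_inf, r_fu, r_fb]
    exact Iff.rfl) h H

theorem t2 (h : M ≅[L] N) (k : ℕ) (H : ∀ x y y' : M, b k x y → b k x y' → y = y') :
    ∀ x y y' : N, b k x y → b k x y' → y = y' :=
  tr (A := fun M _ => ∀ x y y' : M, b k x y → b k x y' → y = y')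
    (∀' ∀' ∀' (fb k 0 1 ⟹ fb k 0 2 ⟹ fe 1 2)) (by
    intro M _
    simp only [Sentence.Realize, Formula.Realize, BoundedFormula.realize_all,
      BoundedFormula.realize_imp, r_fb, r_fe]
    exact Iff.rfl) h H

theorem t3 (h : M ≅[L] N) (k : ℕ) (H : ∀ y : M, u 0 y → b k y y) : ∀ y : N, u 0 y → b k y y :=
  tr (A := fun M _ => ∀ y : M, u 0 y → b k y y) (∀' (fu 0 0 ⟹ fb k 0 0)) (by
    intro M _
    simp only [Sentence.Realize, Formula.Realize, BoundedFormula.realize_all,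
      BoundedFormula.realize_imp, r_fb, r_fu]
    exact Iff.rfl) h H

theorem t4 (h : M ≅[L] N) (H : ∀ p q : M, u 0 p → u 0 q → ∃ x x', ¬ x = x' ∧
      (b 0 x p ∧ b 1 x q) ∧ (b 0 x' p ∧ b 1 x' q) ∧ ∀ z, b 0 z p → b 1 z q → z = x ∨ z = x') :
    ∀ p q : N, u 0 p → u 0 q → ∃ x x', ¬ x = x' ∧
      (b 0 x p ∧ b 1 x q) ∧ (b 0 x' p ∧ b 1 x' q) ∧ ∀ z, b 0 z p → b 1 z q → z = x ∨ z = x' :=
  tr (A := fun M _ => ∀ p q : M, u 0 p → u 0 q → ∃ x x', ¬ x = x' ∧
      (b 0 x p ∧ b 1 x q) ∧ (b 0 x' p ∧ b 1 x' q) ∧ ∀ z, b 0 z p → b 1 z q → z = x ∨ z = x')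
    (∀' ∀' (fu 0 0 ⟹ fu 0 1 ⟹ ∃' ∃' (∼(fe 2 3) ⊓ ((fb 0 2 0 ⊓ fb 1 2 1) ⊓
      ((fb 0 3 0 ⊓ fb 1 3 1) ⊓ ∀' (fb 0 4 0 ⟹ fb 1 4 1 ⟹ (fe 4 2 ⊔ fe 4 3))))))) (by
    intro M _
    simp only [Sentence.Realize, Formula.Realize, BoundedFormula.realize_all,
      BoundedFormula.realize_ex, BoundedFormula.realize_inf, BoundedFormula.realize_sup,
      BoundedFormula.realize_not, BoundedFormula.realize_imp, r_fb, r_fu, r_fe]
    exact Iff.rfl) h H

theorem t5 (h : M ≅[L] N) (k k' : ℕ) (H : ∀ x : M, u k x → ¬ u k' x) :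
    ∀ x : N, u k x → ¬ u k' x :=
  tr (A := fun M _ => ∀ x : M, u k x → ¬ u k' x) (∀' (fu k 0 ⟹ ∼(fu k' 0))) (by
    intro M _
    simp only [Sentence.Realize, Formula.Realize, BoundedFormula.realize_all,
      BoundedFormula.realize_imp, BoundedFormula.realize_not, r_fu]
    exact Iff.rfl) h H

theorem t6 (h : M ≅[L] N) (k k' : ℕ) (H : ∀ x x' y z : M, b 0 x y → b 0 x' y → b 1 x z →
      b 1 x' z → u k x → u k' x' → x = x') :
    ∀ x x' y z : N, b 0 x y → b 0 x' y → b 1 x z → b 1 x' z → u k x → u k' x' → x = x' :=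
  tr (A := fun M _ => ∀ x x' y z : M, b 0 x y → b 0 x' y → b 1 x z →
      b 1 x' z → u k x → u k' x' → x = x')
    (∀' ∀' ∀' ∀' (fb 0 0 2 ⟹ fb 0 1 2 ⟹ fb 1 0 3 ⟹ fb 1 1 3 ⟹ fu k 0 ⟹ fu k' 1 ⟹ fe 0 1)) (by
    intro M _
    simp only [Sentence.Realize, Formula.Realize, BoundedFormula.realize_all,
      BoundedFormula.realize_imp, r_fb, r_fu, r_fe]
    exact Iff.rfl) h H

theorem t7 (h : M ≅[L] N) (k : ℕ) (H : ∃ x : M, u k x) : ∃ x : N, u k x :=
  tr (A := fun M _ => ∃ x : M, u k x) (∃' (fu k 0)) (by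
    intro M _
    simp only [Sentence.Realize, Formula.Realize, BoundedFormula.realize_ex, r_fu]
    exact Iff.rfl) h H

theorem t8 (h : M ≅[L] N) (k : ℕ) (H : ∀ x x' : M, u k x → u k x' → x = x') :
    ∀ x x' : N, u k x → u k x' → x = x' :=
  tr (A := fun M _ => ∀ x x' : M, u k x → u k x' → x = x')
    (∀' ∀' (fu k 0 ⟹ fu k 1 ⟹ fe 0 1)) (by
    intro M _
    simp only [Sentence.Realize, Formula.Realize, BoundedFormula.realize_all,
      BoundedFormula.realize_imp, r_fu, r_fe]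
    exact Iff.rfl) h H

theorem t9 (h : M ≅[L] N) (k k' l : ℕ) (H : ∀ x y : M, u k x → u k' y → b l x y) :
    ∀ x y : N, u k x → u k' y → b l x y :=
  tr (A := fun M _ => ∀ x y : M, u k x → u k' y → b l x y)
    (∀' ∀' (fu k 0 ⟹ fu k' 1 ⟹ fb l 0 1)) (by
    intro M _
    simp only [Sentence.Realize, Formula.Realize, BoundedFormula.realize_all,
      BoundedFormula.realize_imp, r_fu, r_fb]
    exact Iff.rfl) h H

theorem t10 (h : M ≅[L] N) (k k' : ℕ) (H : ∀ x : M, u k x → u k' x) :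
    ∀ x : N, u k x → u k' x :=
  tr (A := fun M _ => ∀ x : M, u k x → u k' x) (∀' (fu k 0 ⟹ fu k' 0)) (by
    intro M _
    simp only [Sentence.Realize, Formula.Realize, BoundedFormula.realize_all,
      BoundedFormula.realize_imp, r_fu]
    exact Iff.rfl) h H

theorem t11 (h : M ≅[L] N) (k k' : ℕ)
    (H : ∀ p y : M, u 0 p → u k' y → ∃ x, b 0 x p ∧ b 1 x y ∧ u k x) :
    ∀ p y : N, u 0 p → u k' y → ∃ x, b 0 x p ∧ b 1 x y ∧ u k x :=
  tr (A := fun M _ => ∀ p y : M, u 0 p → u k' y → ∃ x, b 0 x p ∧ b 1 x y ∧ u k x)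
    (∀' ∀' (fu 0 0 ⟹ fu k' 1 ⟹ ∃' (fb 0 2 0 ⊓ (fb 1 2 1 ⊓ fu k 2)))) (by
    intro M _
    simp only [Sentence.Realize, Formula.Realize, BoundedFormula.realize_all,
      BoundedFormula.realize_ex, BoundedFormula.realize_inf,
      BoundedFormula.realize_imp, r_fu, r_fb]
    exact Iff.rfl) h H

theorem t12 (h : M ≅[L] N) (n k : ℕ) (H : ∀ xs : Fin n → M, ¬ RelMap (L := L) (n := n) k xs) :
    ∀ xs : Fin n → N, ¬ RelMap (L := L) (n := n) k xs :=
  tr (A := fun M _ => ∀ xs : Fin n → M, ¬ RelMap (L := L) (n := n) k xs)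
    (BoundedFormula.alls (∼(BoundedFormula.rel (L := L) (α := Empty) (n := n) (l := n) k
      (fun i => &i)))) (by
    intro M _
    simp only [Sentence.Realize, BoundedFormula.realize_alls, BoundedFormula.realize_not]
    exact Iff.rfl) h H

theorem u_Mo {P : Type} {c : ℕ → P} {τ : P → ℕ → Bool} (k : ℕ) (x : Mo P c τ) :
    u k x ↔ U c τ k x := Iff.rfl

theorem b_Mo {P : Type} {c : ℕ → P} {τ : P → ℕ → Bool} (k : ℕ) (x y : Mo P c τ) :
    b k x y ↔ B k x y := Iff.rfl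

theorem B0 {P : Type} (x y : P × P × Bool) : B 0 x y ↔ y = (x.1, x.1, false) := by simp [B]
theorem B1 {P : Type} (x y : P × P × Bool) : B 1 x y ↔ y = (x.2.1, x.2.1, false) := by simp [B]

/-- Sign of a unary predicate. -/
def sg (k : ℕ) : Bool := if k = 0 then false else if k % 2 = 1 then (k / 2).bodd else true

theorem U_sg {P : Type} (c : ℕ → P) (k : ℕ) (x : P × P × Bool) (h : U c (triv P) k x) :
    x.2.2 = sg k := by
  unfold U at h
  unfold sg
  split_ifs at h ⊢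
  · exact h.2
  · rw [h]
  · exact h.2.2

theorem sg_nm (j i : ℕ) (β : Bool) : sg (nm j i β) = β :=
  (U_sg id _ (j, i, β) ((U_nm _ _ _ _ _ _).2 rfl)).symm

theorem sg_V (m : ℕ) (hm : m ≠ 0) : sg (2 * m) = true := by
  have h1 : 2 * m ≠ 0 := by omega
  have h2 : ¬ (2 * m % 2 = 1) := by omega
  simp only [sg, h1, h2, if_false]

abbrev M0 : Type := Mo ℕ id (triv ℕ)

section
variable {P : Type} {c : ℕ → P} {τ : P → ℕ → Bool}
theorem uz (x : Mo P c τ) : u 0 x ↔ x.2.1 = x.1 ∧ x.2.2 = false := U_zero c τ x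
theorem un (j i : ℕ) (β : Bool) (x : Mo P c τ) :
    u (nm j i β) x ↔ x = ((c j, c i, β) : P × P × Bool) := U_nm c τ j i β x
theorem uv (m : ℕ) (hm : m ≠ 0) (x : Mo P c τ) : u (2 * m) x ↔
    x.2.1 = c m.unpair.1 ∧ (out m).isSome = true ∧ x.2.2 = τ x.1 m := U_V c τ m hm x
theorem us (k : ℕ) (x : Mo P c (triv P)) (h : u k x) : x.2.2 = sg k := U_sg c k x h
theorem bz (x y : Mo P c τ) : b 0 x y ↔ y = ((x.1, x.1, false) : P × P × Bool) := B0 x y
theorem bo (x y : Mo P c τ) : b 1 x y ↔ y = ((x.2.1, x.2.1, false) : P × P × Bool) := B1 x y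
end

theorem struct (h : M0 ≅[L] N) : ∃ (P : Type) (c : ℕ → P), Function.Injective c ∧
    Nonempty (N ≃[L] Mo P c (triv P)) := by
  classical
  have a10 := t1 h 0 (fun x => ⟨(x.1, x.1, false), (bz _ _).2 rfl, (uz _).2 ⟨rfl, rfl⟩⟩)
  have a11 := t1 h 1 (fun x => ⟨(x.2.1, x.2.1, false), (bo _ _).2 rfl,
    (uz _).2 ⟨rfl, rfl⟩⟩)
  have a20 := t2 h 0 (fun x y y' h1 h2 => ((bz _ _).1 h1).trans ((bz _ _).1 h2).symm)
  have a21 := t2 h 1 (fun x y y' h1 h2 => ((bo _ _).1 h1).trans ((bo _ _).1 h2).symm)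
  have a30 := t3 h 0 (by
    rintro ⟨p, q, β⟩ hy
    obtain ⟨h1, h2⟩ := (uz _).1 hy
    change q = p at h1
    change β = false at h2
    subst h1 h2
    exact (bz _ _).2 rfl)
  have a31 := t3 h 1 (by
    rintro ⟨p, q, β⟩ hy
    obtain ⟨h1, h2⟩ := (uz _).1 hy
    change q = p at h1
    change β = false at h2
    subst h1 h2
    exact (bo _ _).2 rfl)
  have a4 := t4 h (by
    rintro ⟨p, p', β⟩ ⟨q, q', γ⟩ hp hq
    obtain ⟨h1, h2⟩ := (uz _).1 hp
    obtain ⟨h3, h4⟩ := (uz _).1 hq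
    change p' = p at h1
    change β = false at h2
    change q' = q at h3
    change γ = false at h4
    subst h1 h2 h3 h4
    refine ⟨(p', q', true), (p', q', false), fun h => ?_, ⟨(bz _ _).2 rfl, (bo _ _).2 rfl⟩,
      ⟨(bz _ _).2 rfl, (bo _ _).2 rfl⟩, ?_⟩
    · exact Bool.noConfusion (congrArg (fun t : ℕ × ℕ × Bool => t.2.2) h)
    · rintro ⟨r, s, δ⟩ h1 h2
      have h3 : p' = r := congrArg Prod.fst ((bz _ _).1 h1)
      have h4 : q' = s := congrArg Prod.fst ((bo _ _).1 h2)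
      subst h3 h4
      cases δ
      · exact Or.inr rfl
      · exact Or.inl rfl)
  have a5 : ∀ k k', sg k ≠ sg k' → ∀ x : N, u k x → ¬ u k' x := fun k k' hk =>
    t5 h k k' (fun x h1 h2 => hk ((us _ _ h1).symm.trans (us _ _ h2)))
  have a6 : ∀ k k', sg k = sg k' → ∀ x x' y z : N, b 0 x y → b 0 x' y → b 1 x z → b 1 x' z →
      u k x → u k' x' → x = x' := fun k k' hk => t6 h k k' (by
    rintro ⟨p, q, β⟩ ⟨p', q', β'⟩ y z h1 h2 h3 h4 h5 h6
    have e1 : p = p' := congrArg Prod.fst (((bz _ _).1 h1).symm.trans ((bz _ _).1 h2))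
    have e2 : q = q' := congrArg Prod.fst (((bo _ _).1 h3).symm.trans ((bo _ _).1 h4))
    have e3 : β = β' := (us _ _ h5).trans (hk.trans (us _ _ h6).symm)
    subst e1 e2 e3
    rfl)
  have a7 : ∀ j i β, ∃ x : N, u (nm j i β) x := fun j i β =>
    t7 h _ ⟨(j, i, β), (un _ _ _ _).2 rfl⟩
  have a8 : ∀ j i β, ∀ x x' : N, u (nm j i β) x → u (nm j i β) x' → x = x' := fun j i β =>
    t8 h _ (fun x x' h1 h2 => ((un _ _ _ _).1 h1).trans ((un _ _ _ _).1 h2).symm)
  have a90 : ∀ j i β, ∀ x y : N, u (nm j i β) x → u (nm j j false) y → b 0 x y := fun j i β =>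
    t9 h _ _ _ (fun x y h1 h2 => by
      have e1 := (un _ _ _ _).1 h1
      have e2 := (un _ _ _ _).1 h2
      subst e1 e2
      exact (bz _ _).2 rfl)
  have a91 : ∀ j i β, ∀ x y : N, u (nm j i β) x → u (nm i i false) y → b 1 x y := fun j i β =>
    t9 h _ _ _ (fun x y h1 h2 => by
      have e1 := (un _ _ _ _).1 h1
      have e2 := (un _ _ _ _).1 h2
      subst e1 e2
      exact (bo _ _).2 rfl)
  have a10' : ∀ j, ∀ x : N, u (nm j j false) x → u 0 x := fun j =>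
    t10 h _ _ (fun x h1 => by
      have e1 := (un _ _ _ _).1 h1
      subst e1
      exact (uz _).2 ⟨rfl, rfl⟩)
  have adis : ∀ j i, j ≠ i → ∀ x : N, u (nm j j false) x → ¬ u (nm i i false) x := fun j i hji =>
    t5 h _ _ (fun x h1 h2 => hji (congrArg Prod.fst
      (((un _ _ _ _).1 h1).symm.trans ((un _ _ _ _).1 h2))))
  have aV0 : ∀ m, m ≠ 0 → ¬ (out m).isSome = true → ∀ x : N, u (2 * m) x → ¬ u (2 * m) x :=
    fun m hm ho => t5 h _ _ (fun x h1 _ => ho ((uv _ hm _).1 h1).2.1)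
  have aV1 : ∀ m, m ≠ 0 → ∀ x y : N, u (2 * m) x → u (nm m.unpair.1 m.unpair.1 false) y →
      b 1 x y := fun m hm => t9 h _ _ _ (fun x y h1 h2 => by
      have e1 := ((uv _ hm _).1 h1).1
      have e2 := (un _ _ _ _).1 h2
      refine (bo _ _).2 ?_
      exact e2.trans (by rw [e1]))
  have aV2 : ∀ m, m ≠ 0 → (out m).isSome = true → ∀ p y : N, u 0 p →
      u (nm m.unpair.1 m.unpair.1 false) y → ∃ x, b 0 x p ∧ b 1 x y ∧ u (2 * m) x :=
    fun m hm ho => t11 h _ _ (by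
      rintro ⟨p, p', β⟩ y hp hy
      obtain ⟨h1, h2⟩ := (uz _).1 hp
      change p' = p at h1
      change β = false at h2
      subst h1 h2
      have e2 := (un _ _ _ _).1 hy
      subst e2
      exact ⟨(p', m.unpair.1, true), (bz _ _).2 rfl, (bo _ _).2 rfl,
        (uv _ hm _).2 ⟨rfl, ho, rfl⟩⟩)
  have aE : ∀ n k : ℕ, (n ≠ 1 ∧ n ≠ 2) ∨ (n = 2 ∧ 2 ≤ k) → ∀ {P : Type} {c : ℕ → P}
      (xs : Fin n → Mo P c (triv P)), ¬ RelMap (L := L) (n := n) k xs := by
    intro n k hn P c xs hx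
    have key : ∀ l : List (P × P × Bool), l.length = n → ¬ rel c (triv P) k l := by
      intro l hl hx
      match l with
      | [] => exact hx
      | [x] => simp at hl; omega
      | [x, y] =>
        simp at hl
        rcases hx with ⟨h1, _⟩ | ⟨h1, _⟩ <;> omega
      | _ :: _ :: _ :: _ => exact hx
    exact key _ List.length_ofFn hx
  -- construction
  let P := {y : N // u 0 y}
  choose π0 hπ0 hπ0' using a10
  choose π1 hπ1 hπ1' using a11
  choose κ hκ using a7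
  let c : ℕ → P := fun j => ⟨κ j j false, a10' j _ (hκ _ _ _)⟩
  have ht : ∀ p q : P, ∃ t f : N, t ≠ f ∧ (b 0 t p.1 ∧ b 1 t q.1) ∧ (b 0 f p.1 ∧ b 1 f q.1) ∧
      (∀ z, b 0 z p.1 → b 1 z q.1 → z = t ∨ z = f) ∧ (∀ k, u k t → sg k = true) ∧
      (∀ k, u k f → sg k = false) := by
    intro p q
    obtain ⟨x, x', hne, hx, hx', hz⟩ := a4 p.1 q.1 p.2 q.2
    by_cases hc : (∃ k, u k x ∧ sg k = false) ∨ (∃ k, u k x' ∧ sg k = true)
    · refine ⟨x', x, fun e => hne e.symm, hx', hx, fun z h1 h2 => (hz z h1 h2).symm, ?_, ?_⟩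
      · intro k hk
        by_contra hk'
        rcases hc with ⟨k', h1, h2⟩ | ⟨k', h1, h2⟩
        · exact hne (a6 k' k (by simp [h2, hk']) _ _ _ _ hx.1 hx'.1 hx.2 hx'.2 h1 hk)
        · exact a5 k k' (by simp [h2, hk']) _ hk h1
      · intro k hk
        by_contra hk'
        rcases hc with ⟨k', h1, h2⟩ | ⟨k', h1, h2⟩
        · exact a5 k k' (by simp [h2, hk']) _ hk h1
        · exact hne (a6 k k' (by simpa [h2] using hk') _ _ _ _ hx.1 hx'.1 hx.2 hx'.2 hk h1)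
    · push Not at hc
      exact ⟨x, x', hne, hx, hx', hz, fun k hk => by simpa using hc.1 k hk,
        fun k hk => by simpa using hc.2 k hk⟩
  choose t f htf hb1 hb2 hz hs1 hs2 using ht
  let s : P × P × Bool → N := fun y => if y.2.2 = true then t y.1 y.2.1 else f y.1 y.2.1
  have sb0 : ∀ y, b 0 (s y) y.1.1 := by
    intro y; simp only [s]; split_ifs; exacts [(hb1 _ _).1, (hb2 _ _).1]
  have sb1 : ∀ y, b 1 (s y) y.2.1.1 := by
    intro y; simp only [s]; split_ifs; exacts [(hb1 _ _).2, (hb2 _ _).2]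
  have ssg : ∀ y k, u k (s y) → y.2.2 = sg k := by
    intro y k hk; simp only [s] at hk; split_ifs at hk with h1
    · rw [h1, hs1 _ _ _ hk]
    · rw [hs2 _ _ _ hk]; simpa using h1
  have sinj : Function.Injective s := by
    rintro ⟨p, q, β⟩ ⟨p', q', β'⟩ e
    have e1 : p = p' := Subtype.ext (a20 _ _ _ (sb0 (p, q, β)) (e ▸ sb0 (p', q', β')))
    have e2 : q = q' := Subtype.ext (a21 _ _ _ (sb1 (p, q, β)) (e ▸ sb1 (p', q', β')))
    subst e1 e2
    cases β <;> cases β' <;> simp only [s] at e <;> simp at e ⊢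
    · exact htf _ _ e.symm
    · exact htf _ _ e
  have sfib : ∀ (z : N) (p q : P), b 0 z p.1 → b 1 z q.1 → ∃ β, s (p, q, β) = z := by
    intro z p q h1 h2
    rcases hz p q z h1 h2 with e | e
    · exact ⟨true, by simp [s, e]⟩
    · exact ⟨false, by simp [s, e]⟩
  have ssurj : Function.Surjective s := fun z =>
    let ⟨β, hβ⟩ := sfib z ⟨π0 z, hπ0' z⟩ ⟨π1 z, hπ1' z⟩ (hπ0 z) (hπ1 z)
    ⟨_, hβ⟩
  have smark : ∀ (z : N) (p q : P) k, b 0 z p.1 → b 1 z q.1 → u k z → s (p, q, sg k) = z := by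
    intro z p q k h1 h2 h3
    obtain ⟨β, hβ⟩ := sfib z p q h1 h2
    have := ssg (p, q, β) k (hβ ▸ h3)
    simp only at this
    rw [← this, hβ]
  have sdiag : ∀ p : P, s (p, p, false) = p.1 := fun p =>
    smark p.1 p p 0 (a30 _ p.2) (a31 _ p.2) p.2
  have snm : ∀ j i β, s (c j, c i, β) = κ j i β := fun j i β => by
    have := smark (κ j i β) (c j) (c i) _ (a90 j i β _ _ (hκ _ _ _) (hκ _ _ _))
      (a91 j i β _ _ (hκ _ _ _) (hκ _ _ _)) (hκ _ _ _)
    rwa [sg_nm] at this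
  have hU : ∀ k y, u k (s y) ↔ U c (triv P) k y := by
    rintro k ⟨p, q, β⟩
    rcases k_cases k with rfl | ⟨j, i, γ, rfl⟩ | ⟨m, hm, rfl⟩
    · rw [U_zero]
      constructor
      · intro h1
        have := sinj ((sdiag ⟨_, h1⟩).symm)
        simp only [Prod.mk.injEq] at this
        exact ⟨this.2.1.trans this.1.symm, this.2.2⟩
      · rintro ⟨h1, h2⟩
        simp only at h1 h2
        subst h1 h2
        rw [sdiag]; exact q.2
    · rw [U_nm]
      constructor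
      · intro h1
        exact sinj ((a8 j i γ _ _ h1 (hκ _ _ _)).trans (snm j i γ).symm)
      · intro h1
        rw [h1, snm]; exact hκ _ _ _
    · rw [U_V _ _ _ hm]
      constructor
      · intro h1
        refine ⟨Subtype.ext (a21 _ _ _ (sb1 (p, q, β)) (aV1 m hm _ _ h1 (hκ _ _ _))), ?_, ?_⟩
        · by_contra ho
          exact aV0 m hm ho _ h1 h1
        · exact (ssg _ _ h1).trans (sg_V m hm)
      · rintro ⟨h1, h2, h3⟩
        simp only [triv] at h1 h3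
        subst h1 h3
        obtain ⟨x, hx0, hx1, hx2⟩ := aV2 m hm h2 p.1 _ p.2 (hκ _ _ _)
        have := smark x p (c m.unpair.1) _ hx0 hx1 hx2
        rw [sg_V m hm] at this
        rw [this]; exact hx2
  have hB0 : ∀ x y, b 0 (s x) (s y) ↔ B 0 x y := by
    intro x y
    rw [B0]
    constructor
    · intro h1
      exact sinj ((a20 _ _ _ h1 (sb0 x)).trans (sdiag _).symm)
    · rintro rfl
      rw [sdiag]; exact sb0 x
  have hB1 : ∀ x y, b 1 (s x) (s y) ↔ B 1 x y := by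
    intro x y
    rw [B1]
    constructor
    · intro h1
      exact sinj ((a21 _ _ _ h1 (sb1 x)).trans (sdiag _).symm)
    · rintro rfl
      rw [sdiag]; exact sb1 x
  refine ⟨P, c, fun j i e => ?_, ⟨Language.Equiv.symm
    { toEquiv := Equiv.ofBijective (α := Mo P c (triv P)) s ⟨sinj, ssurj⟩
      map_fun' := fun f => Empty.elim f
      map_rel' := ?_ }⟩⟩
  · by_contra hji
    have e' : κ j j false = κ i i false := congrArg Subtype.val e
    exact adis j i hji _ (hκ _ _ _) (e' ▸ hκ _ _ _)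
  · intro n (k : ℕ) xs
    change RelMap (L := L) (n := n) k (s ∘ xs) ↔ RelMap (L := L) (n := n) k xs
    by_cases h1 : n = 1
    · subst h1
      have e1 : xs = ![xs 0] := by funext i; fin_cases i; rfl
      have e2 : s ∘ xs = ![s (xs 0)] := by funext i; fin_cases i; rfl
      rw [e2]
      conv_rhs => rw [e1]
      exact hU k (xs 0)
    by_cases h2 : n = 2 ∧ (k : ℕ) < 2
    · obtain ⟨rfl, hk⟩ := h2
      have e1 : xs = ![xs 0, xs 1] := by funext i; fin_cases i <;> rfl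
      have e2 : s ∘ xs = ![s (xs 0), s (xs 1)] := by funext i; fin_cases i <;> rfl
      rw [e2]
      conv_rhs => rw [e1]
      have : (k : ℕ) = 0 ∨ (k : ℕ) = 1 := by omega
      rcases this with rfl | rfl
      · exact hB0 _ _
      · exact hB1 _ _
    · have h3 : (n ≠ 1 ∧ n ≠ 2) ∨ (n = 2 ∧ 2 ≤ (k : ℕ)) := by omega
      exact iff_of_false (t12 h n k (aE n k h3) _) (aE n k h3 _)

end Pool.Agent.H83.Sa
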