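import Pool.Agent.H83.Sa2
import Pool.Agent.H83.Sa3

namespace Pool.Agent.H83.Sa

open FirstOrder FirstOrder.Language Cardinal
open FirstOrder.Language.Structure
open Nat.Partrec (Code)

def sgn (m : ℕ) : Bool := decide ((out m).getD 1 = 0)

def tau (p m : ℕ) : Bool := if p = 0 then sgn m else true

theorem prim_tau : Primrec₂ tau := by
  have h1 : Primrec sgn :=
    (Primrec.eq.comp (Primrec.option_getD.comp prim_out (Primrec.const 1))
      (Primrec.const 0)).decide
  exact Primrec.ite (Primrec.eq.comp Primrec.fst (Primrec.const 0)) (h1.comp Primrec.snd)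
    (Primrec.const true)

theorem out_det (m m' : ℕ) (h : m.unpair.1 = m'.unpair.1) (h1 : (out m).isSome = true)
    (h2 : (out m').isSome = true) : out m = out m' := by
  obtain ⟨v, hv⟩ := Option.isSome_iff_exists.1 h1
  obtain ⟨v', hv'⟩ := Option.isSome_iff_exists.1 h2
  have a1 := Code.evaln_sound (show v ∈ out m from hv)
  have a2 := Code.evaln_sound (show v' ∈ out m' from hv')
  rw [← h] at a2
  rw [hv, hv', Part.mem_unique a1 a2]

def Fl (q : ℕ) : Prop := ∃ m, q = m.unpair.1 + 1 ∧ (out m).isSome = true ∧ sgn m = false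

open Classical in
noncomputable def tw (x : ℕ × ℕ × Bool) : ℕ × ℕ × Bool :=
  (x.1, x.2.1, if x.1 = 0 ∧ Fl x.2.1 then !x.2.2 else x.2.2)

theorem tw_inv : Function.Involutive tw := by
  rintro ⟨p, q, b⟩
  simp only [tw]
  split_ifs <;> simp

theorem not_fl_zero : ¬ Fl 0 := by rintro ⟨m, h, _⟩; omega

theorem tw_diag (p : ℕ) (β : Bool) : tw (p, p, β) = (p, p, β) := by
  simp only [tw]
  rw [if_neg]
  rintro ⟨rfl, h⟩
  exact not_fl_zero h

theorem U_tw (k : ℕ) (x : ℕ × ℕ × Bool) :
    U Nat.succ (triv ℕ) k (tw x) ↔ U Nat.succ tau k x := by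
  obtain ⟨p, q, β⟩ := x
  rcases k_cases k with rfl | ⟨j, i, γ, rfl⟩ | ⟨m, hm, rfl⟩
  · rw [U_zero, U_zero]
    by_cases h : q = p
    · subst h; rw [tw_diag]
    · simp [tw, h]
  · rw [U_nm, U_nm]
    by_cases h : p = 0
    · subst h; simp [tw]
    · simp [tw, h]
  · rw [U_V _ _ _ hm, U_V _ _ _ hm]
    by_cases h : p = 0
    · subst h
      simp only [tw, triv, tau, true_and, if_true]
      refine and_congr_right fun h1 => and_congr_right fun h2 => ?_
      have : Fl q ↔ sgn m = false := by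
        constructor
        · rintro ⟨m', e1, e2, e3⟩
          have := out_det m m' (by simp at h1; omega) h2 e2
          simp only [sgn, this] at e3 ⊢
          exact e3
        · intro e; exact ⟨m, h1, h2, e⟩
      rw [this]
      cases sgn m <;> cases β <;> simp
    · simp [tw, triv, tau, h]

theorem B_tw (k : ℕ) (x y : ℕ × ℕ × Bool) : B k (tw x) (tw y) ↔ B k x y := by
  have : ∀ p, tw y = (p, p, false) ↔ y = (p, p, false) := fun p => by
    conv_lhs => rw [← tw_diag p false]
    exact tw_inv.injective.eq_iff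
  unfold B
  rw [this, this]
  rfl

abbrev M1 : Type := Mo ℕ Nat.succ (triv ℕ)

noncomputable def twE : Mo ℕ Nat.succ tau ≃[L] M1 where
  toEquiv := tw_inv.toPerm
  map_fun' f := Empty.elim f
  map_rel' k xs := by
    have := rel_congr tw k (U_tw k) (B_tw k) (List.ofFn (xs : Fin _ → ℕ × ℕ × Bool))
    rw [List.map_ofFn] at this
    exact this

theorem strong_nu (c : ℕ → ℕ) (hc : Primrec c) (hc1 : ∀ j, c j ≤ j + 1) :
    StrongCon (M := Mo ℕ c (triv ℕ)) nu := by
  obtain ⟨p, hp, h⟩ := exists_dec c (triv ℕ) hc (Primrec.const true).to₂ hc1 (fun _ _ _ _ _ => rfl)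
  exact ⟨nu_surj, p, hp, fun φ => h id φ⟩

theorem strong_mu : StrongCon (M := M1) (tw ∘ nu) := by
  obtain ⟨p, hp, h⟩ := exists_dec Nat.succ tau Primrec.succ prim_tau (fun _ => le_rfl)
    (fun p p' m h1 h2 => by simp [tau, h1, h2])
  refine ⟨tw_inv.surjective.comp nu_surj, p, hp, fun φ => (h id φ).trans ?_⟩
  exact (StrongHomClass.realize_formula twE φ).symm

theorem u_map {M N : Type} [L.Structure M] [L.Structure N] (e : M ≃[L] N) (k : ℕ) (x : M) :
    u k (e x) ↔ u k x := by
  have : e ∘ ![x] = ![e x] := by funext i; fin_cases i; rfl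
  unfold u
  rw [← this]
  exact e.map_rel (n := 1) k _

theorem b_map {M N : Type} [L.Structure M] [L.Structure N] (e : M ≃[L] N) (k : ℕ) (x y : M) :
    b k (e x) (e y) ↔ b k x y := by
  have : e ∘ ![x, y] = ![e x, e y] := by funext i; fin_cases i <;> rfl
  unfold b
  rw [← this]
  exact e.map_rel (n := 2) k _

theorem not_autoEq : ¬ AutoEq (M := M1) nu (tw ∘ nu) := by
  rintro ⟨e, f, hf, he⟩
  let h : ℕ → ℕ := fun i => bif (f (2 * Nat.pair 0 (i + 1) + 1)).bodd then 1 else 0
  have hh : Computable h :=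
    Computable.cond (Primrec.nat_bodd.to_comp.comp (hf.comp (Primrec.succ.comp
      (Primrec.nat_mul.comp (Primrec.const 2) (Primrec₂.natPair.comp (Primrec.const 0)
        Primrec.succ))).to_comp)) (Computable.const 1) (Computable.const 0)
  obtain ⟨c, hc⟩ := Code.exists_code.1 (Partrec.nat_iff.1 hh.partrec)
  set i := Encodable.encode c with hi
  have h1 : h i ∈ c.eval i := by rw [hc]; simp
  obtain ⟨s, hs⟩ := Code.evaln_complete.1 h1
  have ho : out (Nat.pair i s) = some (h i) := by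
    simp only [out, Nat.unpair_pair, hi, Denumerable.ofNat_encode]
    exact hs
  have hm : Nat.pair i s ≠ 0 := by
    intro h0
    have := Nat.right_le_pair i s
    have hs0 : s = 0 := by omega
    rw [hs0] at hs
    simp [Code.evaln] at hs
  have hn : nu (2 * Nat.pair 0 (i + 1) + 1) = (0, i + 1, true) := by
    rw [← nu_bit]; simp [Nat.bit]
  have h2 := he (2 * Nat.pair 0 (i + 1) + 1)
  rw [hn] at h2
  set y := nu (f (2 * Nat.pair 0 (i + 1) + 1)) with hy
  have h2' : e (0, i + 1, true) = tw y := h2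
  have h3 : u (M := M1) (2 * Nat.pair i s) (0, i + 1, true) :=
    (uv _ hm _).2 ⟨by simp, by simp [ho], rfl⟩
  have h4 := (u_map e _ _).2 h3
  rw [h2'] at h4
  have h5 := ((U_V _ _ _ hm _).1 ((U_tw _ _).1 h4)).2.2
  have h6 : b (M := M1) 0 (0, i + 1, true) (0, 0, false) := (bz _ _).2 rfl
  have h7 := (bz _ _).1 ((b_map e _ _ _).2 h6)
  rw [h2'] at h7
  have h8 : y.1 = 0 := by
    by_contra hne
    obtain ⟨j, hj⟩ := Nat.exists_eq_succ_of_ne_zero hne
    have h9 : u (M := M1) (nm j j false) (e (0, 0, false)) := by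
      refine (un _ _ _ _).2 (h7.trans ?_)
      change ((y.1, y.1, false) : ℕ × ℕ × Bool) = _
      rw [hj]
    have := congrArg Prod.fst ((un _ _ _ _).1 ((u_map e _ _).1 h9))
    simp at this
  have h10 : y.2.2 = (f (2 * Nat.pair 0 (i + 1) + 1)).bodd := rfl
  rw [h8, h10] at h5
  simp only [tau, sgn, ho, if_true, Option.getD_some, h] at h5
  revert h5
  cases (f (2 * Nat.pair 0 (i + 1) + 1)).bodd <;> simp

/-- Atomic formula `R_{1,k}(x_a)`. -/
def atm {α : Type} (k : ℕ) (a : α) : L.Formula α :=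
  BoundedFormula.rel (L := L) (l := 1) k (fun _ => Term.var (Sum.inl a))

theorem r_atm {α : Type} {P : Type} {c : ℕ → P} {τ : P → ℕ → Bool} (k : ℕ) (a : α)
    (v : α → Mo P c τ) : (atm k a).Realize v ↔ U c τ k (v a) := Iff.rfl

theorem strAuto : StrAuto M0 := by
  rintro ν μ ⟨hν, p, hp, hp'⟩ ⟨hμ, q, hq, hq'⟩
  let cd : ℕ → ℕ → ℕ := fun k n => Nat.pair 2 (Nat.pair (2 * k + 1) (Encodable.encode [2 * n]))
  have hcd : Primrec₂ cd :=
    Primrec₂.natPair.comp (Primrec.const 2) (Primrec₂.natPair.comp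
      (Primrec.succ.comp (Primrec.nat_mul.comp (Primrec.const 2) Primrec.fst))
      (Primrec.encode.comp (Primrec.list_cons.comp
        (Primrec.nat_mul.comp (Primrec.const 2) Primrec.snd) (Primrec.const []))))
  have hc : ∀ k n, code id (atm (2 * k + 1) n) = cd k n := fun k n => rfl
  let R : ℕ → ℕ → Prop := fun n z =>
    (p (cd z.unpair.1 n) && q (cd z.unpair.1 z.unpair.2)) = true
  have hR : ComputablePred fun a : ℕ × ℕ => R a.1 a.2 := by
    refine ComputablePred.computable_iff.2 ⟨fun a =>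
      (p (cd a.2.unpair.1 a.1) && q (cd a.2.unpair.1 a.2.unpair.2)), ?_, rfl⟩
    exact Primrec.and.to_comp.comp
      (hp.comp (hcd.comp (Primrec.fst.comp (Primrec.unpair.comp Primrec.snd)) Primrec.fst).to_comp)
      (hq.comp (hcd.comp (Primrec.fst.comp (Primrec.unpair.comp Primrec.snd))
        (Primrec.snd.comp (Primrec.unpair.comp Primrec.snd))).to_comp)
  have hex : ∀ n, ∃ z, R n z := by
    intro n
    obtain ⟨m, hm⟩ := hμ (ν n)
    refine ⟨Nat.pair (Nat.bit (ν n).2.2 (Nat.pair (ν n).1 (ν n).2.1)) m, ?_⟩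
    simp only [R, Nat.unpair_pair, Bool.and_eq_true, ← hc, hp', hq', r_atm]
    exact ⟨(U_nm id (triv ℕ) _ _ _ _).2 rfl, (U_nm id (triv ℕ) _ _ _ _).2 hm⟩
  refine ⟨Language.Equiv.refl L M0, fun n => (Nat.find (hex n)).unpair.2,
    (Primrec.snd.comp Primrec.unpair).to_comp.comp (Computable.find hR hex), fun n => ?_⟩
  have := Nat.find_spec (hex n)
  simp only [R, Bool.and_eq_true, ← hc, hp', hq', r_atm] at this
  obtain ⟨j, i, β, e⟩ := nm_surj (2 * (Nat.find (hex n)).unpair.1 + 1) (by omega)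
  rw [e] at this
  exact ((U_nm _ _ _ _ _ _).1 this.1).trans ((U_nm _ _ _ _ _ _).1 this.2).symm

theorem not_sat : ¬ Saturated M1 := by
  intro h
  let a : M1 := (0, 0, false)
  have hA : #({a} : Set M1) < #M1 := by
    rw [mk_singleton]
    exact one_lt_aleph0.trans_le (aleph0_le_mk (ℕ × ℕ × Bool))
  let ne : L.Formula (Option ({a} : Set M1)) :=
    (BoundedFormula.equal (Term.var (Sum.inl none)) (Term.var (Sum.inl (some ⟨a, rfl⟩)))).imp
      BoundedFormula.falsum
  obtain ⟨x, hx⟩ := h {a} hA {φ | φ = atm 0 none ∨ φ = ne ∨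
      ∃ j, φ = (atm (nm j j false) none).imp BoundedFormula.falsum} (by
    intro s hs
    have : ∀ᶠ j : ℕ in Filter.atTop, ∀ φ ∈ s, φ.Realize (M := M1)
        (fun o => Option.elim o ((j + 1, j + 1, false) : ℕ × ℕ × Bool) Subtype.val) := by
      refine (Filter.eventually_all_finset s).2 fun φ hφ => ?_
      rcases hs hφ with rfl | rfl | ⟨i, rfl⟩
      · exact Filter.Eventually.of_forall fun j => (U_zero Nat.succ (triv ℕ) _).2 ⟨rfl, rfl⟩
      · refine Filter.Eventually.of_forall fun j h => ?_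
        exact Nat.succ_ne_zero j (congrArg Prod.fst h)
      · filter_upwards [Filter.eventually_gt_atTop i] with j hj h
        have : j + 1 = i + 1 := congrArg Prod.fst ((U_nm Nat.succ (triv ℕ) _ _ _ _).1 h)
        omega
    obtain ⟨j, hj⟩ := this.exists
    exact ⟨_, hj⟩)
  obtain ⟨p, q, β⟩ := x
  obtain ⟨h1, h2⟩ := (U_zero Nat.succ (triv ℕ) _).1 (hx _ (Or.inl rfl))
  change q = p at h1
  change β = false at h2
  subst h1 h2
  cases q with
  | zero => exact hx _ (Or.inr (Or.inl rfl)) rfl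
  | succ j => exact hx _ (Or.inr (Or.inr ⟨j, rfl⟩)) ((U_nm Nat.succ (triv ℕ) _ _ _ _).2 rfl)

instance (P : Type) (c : ℕ → P) (τ : P → ℕ → Bool) : Nonempty (Mo P c τ) :=
  ⟨(c 0, c 0, false)⟩

theorem model_Mo {P : Type} (c : ℕ → P) (hc : Function.Injective c) :
    Mo P c (triv P) ⊨ L.completeTheory M0 :=
  (elem0 c hc).elementarilyEquivalent.theory_model

theorem equiv_of_model (N : (L.completeTheory M0).ModelType.{0, 0, 0}) : M0 ≅[L] N :=
  elementarilyEquivalent_iff.2 fun φ => (realize_iff_of_model_completeTheory M0 N φ).symm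

theorem card_Mo {P : Type} (c : ℕ → P) (hc : Function.Injective c) (τ : P → ℕ → Bool) :
    #(Mo P c τ) = #P := by
  haveI : Infinite P := Infinite.of_injective c hc
  change #(P × P × Bool) = #P
  have h := aleph0_le_mk P
  simp only [mk_prod, lift_id, mk_bool]
  have h2 : (2 : Cardinal.{0}) ≤ #P := (natCast_lt_aleph0 (n := 2)).le.trans h
  rw [mul_eq_left h h2 two_ne_zero, mul_eq_self h]

theorem uncCat : UncCat (L.completeTheory M0) := by
  intro κ hκ
  constructor
  · haveI := model_Mo (P := ℕ ⊕ κ.out) Sum.inl Sum.inl_injective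
    refine ⟨Theory.ModelType.of _ (Mo (ℕ ⊕ κ.out) Sum.inl (triv _)), ?_⟩
    refine (card_Mo (P := ℕ ⊕ κ.out) Sum.inl Sum.inl_injective (triv _)).trans ?_
    simp [add_eq_right hκ.le hκ.le]
  · intro M N hM hN
    obtain ⟨P, c, hc, ⟨e⟩⟩ := struct (equiv_of_model M)
    obtain ⟨P', c', hc', ⟨e'⟩⟩ := struct (equiv_of_model N)
    have h1 : #P = κ := by rw [← card_Mo c hc (triv P), ← hM]; exact (mk_congr e.toEquiv).symm
    have h2 : #P' = κ := by
      rw [← card_Mo c' hc' (triv P'), ← hN]; exact (mk_congr e'.toEquiv).symm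
    obtain ⟨g, hg⟩ := extend_function_of_lt (s := Set.range c)
      ((Equiv.ofInjective c hc).symm.toEmbedding.trans ⟨c', hc'⟩)
      (by rw [h1]; exact lt_of_le_of_lt (mk_range_le.trans_eq mk_nat) hκ)
      (Cardinal.eq.1 (h1.trans h2.symm))
    have hg' : ∀ j, g (c j) = c' j := fun j => by
      have := hg ⟨c j, j, rfl⟩
      simpa using this
    exact ⟨e'.symm.comp ((isoE g hg').comp e)⟩

theorem decT : DecTheory (L.completeTheory M0) := by
  obtain ⟨p, hp, h⟩ := exists_dec id (triv ℕ) Primrec.id (Primrec.const true).to₂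
    (fun _ => Nat.le_succ _) (fun _ _ _ _ _ => rfl)
  refine ⟨p, hp, fun φ => (h Empty.elim φ).trans ?_⟩
  rw [mem_completeTheory, Sentence.Realize]
  exact iff_of_eq (congrArg _ (Subsingleton.elim _ _))

end Pool.Agent.H83.Sa
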