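import Mathlib

/-! Definitions for strong constructivizations over a computable relational language. -/

namespace Pool.Agent.H83.Sa

open FirstOrder FirstOrder.Language Cardinal

/-- The computable relational language with relation symbols `R_{n,k}` (`k : ℕ`) of each
arity `n`, and no function symbols. -/
def L : FirstOrder.Language.{0, 0} := ⟨fun _ => Empty, fun _ => ℕ⟩

/-- Goedel number of a term; `g` numbers the free variables. -/
def tcode {α : Type} (g : α → ℕ) {n : ℕ} : L.Term (α ⊕ Fin n) → ℕ
  | .var (.inl a) => 2 * g a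
  | .var (.inr i) => 2 * i.val + 1
  | .func f _ => Empty.elim f

/-- Goedel number of a formula; `g` numbers the free variables. -/
def code {α : Type} (g : α → ℕ) : ∀ {n : ℕ}, L.BoundedFormula α n → ℕ
  | _, .falsum => Nat.pair 0 0
  | _, .equal s t => Nat.pair 1 (Nat.pair (tcode g s) (tcode g t))
  | _, .rel R ts => Nat.pair 2 (Nat.pair R
      (Encodable.encode (List.ofFn fun i => tcode g (ts i))))
  | _, .imp φ ψ => Nat.pair 3 (Nat.pair (code g φ) (code g ψ))
  | _, .all φ => Nat.pair 4 (code g φ)

/-- `T` is decidable: an algorithm decides membership in `T` from the Goedel number. -/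
def DecTheory (T : L.Theory) : Prop :=
  ∃ p : ℕ → Bool, Computable p ∧ ∀ φ : L.Sentence, p (code Empty.elim φ) = true ↔ φ ∈ T

/-- `ν` is a strong constructivization of `M`: a surjection under which the full elementary
diagram is computable (the free variable `n` names `ν n`). -/
def StrongCon {M : Type} [L.Structure M] (ν : ℕ → M) : Prop :=
  Function.Surjective ν ∧ ∃ p : ℕ → Bool, Computable p ∧
    ∀ φ : L.Formula ℕ, p (code id φ) = true ↔ φ.Realize ν

/-- Autoequivalence of two numberings of `M`. -/
def AutoEq {M : Type} [L.Structure M] (ν μ : ℕ → M) : Prop :=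
  ∃ (e : M ≃[L] M) (f : ℕ → ℕ), Computable f ∧ ∀ n, e (ν n) = μ (f n)

/-- `M` is strongly autostable. -/
def StrAuto (M : Type) [L.Structure M] : Prop :=
  ∀ ν μ : ℕ → M, StrongCon ν → StrongCon μ → AutoEq ν μ

/-- `M` is the prime model of `T`: countable and elementarily embeddable in every model. -/
def IsPrime (T : L.Theory) (M : T.ModelType.{0, 0, 0}) : Prop :=
  Countable M ∧ ∀ N : T.ModelType.{0, 0, 0}, Nonempty (M ↪ₑ[L] N)

/-- `M` is saturated: every finitely satisfiable set of formulas in one variable (`none`) with
parameters from a set `A` of size `< #M` is realized in `M`. -/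
def Saturated (M : Type) [L.Structure M] : Prop :=
  ∀ A : Set M, #A < #M → ∀ S : Set (L.Formula (Option A)),
    (∀ s : Finset (L.Formula (Option A)), (↑s : Set _) ⊆ S →
      ∃ b : M, ∀ φ ∈ s, φ.Realize (fun o => Option.elim o b Subtype.val)) →
    ∃ b : M, ∀ φ ∈ S, φ.Realize (fun o => Option.elim o b Subtype.val)

/-- `T` is uncountably categorical: exactly one model in each uncountable cardinality. -/
def UncCat (T : L.Theory) : Prop :=
  ∀ κ : Cardinal.{0}, ℵ₀ < κ → (∃ N : T.ModelType.{0, 0, 0}, #N = κ) ∧ κ.Categorical T

end Pool.Agent.H83.Sa
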