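import Pool.Agent.H83.Sh1

/-! Borel families of essential compacta. -/

set_option autoImplicit false

namespace Pool.Agent.H83.Sh2

open Set Topology unitInterval Pool.Agent.H83.Sh1

noncomputable def W : ℕ → Set Q := (exists_W Q).choose

theorem W_open (n : ℕ) : IsOpen (W n) := (exists_W Q).choose_spec.1 n

theorem W_sq {K O : Set Q} (hK : IsClosed K) (hO : IsOpen O) (h : K ⊆ O) :
    ∃ n, K ⊆ W n ∧ W n ⊆ O := (exists_W Q).choose_spec.2 K O hK.isCompact hO h

/-- Measurable functions with countably many values. -/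
def CM {ι : Type} (g : P → ι) : Prop := ∀ i, MeasurableSet {p | g p = i}

theorem CM.set {ι : Type} [Countable ι] {g : P → ι} (hg : CM g) (A : ι → Set P)
    (hA : ∀ i, MeasurableSet (A i)) : MeasurableSet {p | p ∈ A (g p)} := by
  have : {p | p ∈ A (g p)} = ⋃ i, {p | g p = i} ∩ A i := by
    ext p
    simp
  rw [this]
  exact MeasurableSet.iUnion fun i => (hg i).inter (hA i)

theorem CM.bind {ι κ : Type} [Countable ι] {g : P → ι} (hg : CM g) (f : ι → P → κ)
    (hf : ∀ i, CM (f i)) : CM fun p => f (g p) p := fun k =>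
  hg.set (fun i => {p | f i p = k}) fun i => hf i k

theorem cm_const {ι : Type} (i : ι) : CM fun _ : P => i := fun _ => MeasurableSet.const _

theorem CM.map {ι κ : Type} [Countable ι] {g : P → ι} (hg : CM g) (f : ι → κ) :
    CM fun p => f (g p) := hg.bind (fun i _ => f i) fun _ => cm_const _

theorem CM.comp {ι : Type} {g : P → ι} (hg : CM g) {n : P → P} (hn : Measurable n) :
    CM fun p => g (n p) := fun i => hn (hg i)

open Classical in
theorem cm_dec {c : P → Prop} (hc : MeasurableSet {p | c p}) : CM fun p => decide (c p) := by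
  intro i
  cases i
  · simpa [compl_setOf] using hc.compl
  · simpa using hc

theorem cm_choice (R : ℕ → P → Prop) (hR : ∀ i, MeasurableSet {p | R i p}) :
    ∃ g : P → ℕ, CM g ∧ ∀ p, (∃ i, R i p) → R (g p) p := by
  refine ⟨fun p => sInf {n | R n p}, fun k => ?_, fun p h => Nat.sInf_mem (s := {n | R n p}) h⟩
  have : {p | sInf {n | R n p} = k} = ({p | R k p} ∩ ⋂ j, ⋂ (_ : j < k), {p | R j p}ᶜ) ∪
      ({_p | k = 0} ∩ ⋂ j, {p | R j p}ᶜ) := by
    ext p
    simp only [mem_setOf_eq, mem_union, mem_inter_iff, mem_iInter, mem_compl_iff]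
    constructor
    · rintro rfl
      by_cases h : ∃ i, R i p
      · exact Or.inl ⟨Nat.sInf_mem (s := {n | R n p}) h, fun j hj => Nat.notMem_of_lt_sInf hj⟩
      · push Not at h
        refine Or.inr ⟨?_, h⟩
        rw [Nat.sInf_eq_zero]
        exact Or.inr (eq_empty_of_forall_notMem h)
    · rintro (⟨h1, h2⟩ | ⟨rfl, h2⟩)
      · refine le_antisymm (Nat.sInf_le h1) (not_lt.1 fun h => h2 _ h ?_)
        exact Nat.sInf_mem (s := {n | R n p}) ⟨k, h1⟩
      · rw [Nat.sInf_eq_zero]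
        exact Or.inr (eq_empty_of_forall_notMem h2)
  rw [this]
  exact ((hR k).inter (MeasurableSet.iInter fun j => MeasurableSet.iInter fun _ =>
    (hR j).compl)).union ((MeasurableSet.const _).inter (MeasurableSet.iInter fun j => (hR j).compl))

/-- Borel families of closed sets. -/
def MK (K : P → Set Q) : Prop :=
  ∃ c : ℕ → Set P, (∀ n, MeasurableSet (c n)) ∧ ∀ p x, x ∉ K p ↔ ∃ n, p ∈ c n ∧ x ∈ W n

theorem MK.closed {K : P → Set Q} (h : MK K) (p : P) : IsClosed (K p) := by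
  obtain ⟨c, -, hc⟩ := h
  have : (K p)ᶜ = ⋃ n, ⋃ (_ : p ∈ c n), W n := by
    ext x
    simp [hc]
  rw [← isOpen_compl_iff, this]
  exact isOpen_iUnion fun n => isOpen_iUnion fun _ => W_open n

theorem MK.graph {K : P → Set Q} (h : MK K) : MeasurableSet {y : P × Q | y.2 ∈ K y.1} := by
  obtain ⟨c, hm, hc⟩ := h
  have : {y : P × Q | y.2 ∈ K y.1} = (⋃ n, c n ×ˢ W n)ᶜ := by
    ext y
    have := hc y.1 y.2
    simp only [mem_setOf_eq, mem_compl_iff, mem_iUnion, mem_prod, ← this, not_not]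
  rw [this]
  exact (MeasurableSet.iUnion fun n => (hm n).prod (W_open n).measurableSet).compl

theorem MK.sub {K : P → Set Q} (h : MK K) {O : Set Q} (hO : IsOpen O) :
    MeasurableSet {p | K p ⊆ O} := by
  obtain ⟨c, hm, hc⟩ := h
  have : {p | K p ⊆ O} = ⋃ F : Finset ℕ, {_p | Oᶜ ⊆ ⋃ n ∈ F, W n} ∩ ⋂ n ∈ F, c n := by
    ext p
    simp only [mem_setOf_eq, mem_iUnion, mem_inter_iff, mem_iInter]
    constructor
    · intro h
      obtain ⟨t, ht⟩ := hO.isClosed_compl.isCompact.elim_finite_subcover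
        (fun n : {n // p ∈ c n} => W n.1) (fun n => W_open _) (fun x hx => by
          obtain ⟨n, h1, h2⟩ := (hc p x).1 fun hk => hx (h hk)
          exact mem_iUnion.2 ⟨⟨n, h1⟩, h2⟩)
      refine ⟨t.image Subtype.val, fun x hx => ?_, fun n hn => ?_⟩
      · obtain ⟨u, hu, hxu⟩ := mem_iUnion₂.1 (ht hx)
        exact mem_iUnion₂.2 ⟨u.1, Finset.mem_image_of_mem _ hu, hxu⟩
      · obtain ⟨v, -, rfl⟩ := Finset.mem_image.1 hn
        exact v.2
    · rintro ⟨F, h1, h2⟩ x hx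
      by_contra hxO
      obtain ⟨n, hn, hxn⟩ := mem_iUnion₂.1 (h1 hxO)
      exact (hc p x).2 ⟨n, h2 n hn, hxn⟩ hx
  rw [this]
  exact MeasurableSet.iUnion fun F => (MeasurableSet.const _).inter
    (MeasurableSet.biInter F.countable_toSet fun n _ => hm n)

theorem mk_iInter {K : ℕ → P → Set Q} (h : ∀ i, MK (K i)) : MK fun p => ⋂ i, K i p := by
  choose c hm hc using h
  refine ⟨fun n => ⋃ i, c i n, fun n => MeasurableSet.iUnion fun i => hm i n, fun p x => ?_⟩
  simp only [mem_iInter, not_forall, hc, mem_iUnion]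
  exact ⟨fun ⟨i, n, a, b⟩ => ⟨n, ⟨i, a⟩, b⟩, fun ⟨n, ⟨i, a⟩, b⟩ => ⟨i, n, a, b⟩⟩

theorem MK.inter {K L : P → Set Q} (hK : MK K) (hL : MK L) : MK fun p => K p ∩ L p := by
  obtain ⟨c, hm, hc⟩ := hK
  obtain ⟨d, hn, hd⟩ := hL
  refine ⟨fun n => c n ∪ d n, fun n => (hm n).union (hn n), fun p x => ?_⟩
  simp only [mem_inter_iff, not_and_or, hc, hd, mem_union]
  constructor
  · rintro (⟨n, a, b⟩ | ⟨n, a, b⟩)
    exacts [⟨n, Or.inl a, b⟩, ⟨n, Or.inr a, b⟩]
  · rintro ⟨n, a | a, b⟩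
    exacts [Or.inl ⟨n, a, b⟩, Or.inr ⟨n, a, b⟩]

theorem mk_bind {ι : Type} [Countable ι] {g : P → ι} (hg : CM g) (K : ι → P → Set Q)
    (h : ∀ i, MK (K i)) : MK fun p => K (g p) p := by
  choose c hm hc using h
  exact ⟨fun n => {p | p ∈ c (g p) n}, fun n => hg.set (fun i => c i n) fun i => hm i n,
    fun p x => hc (g p) p x⟩

theorem mk_sec {D : Set (P × Q)} (hD : IsClosed D) : MK fun p => {x | (p, x) ∈ D} := by
  refine ⟨fun n => (Prod.fst '' (D ∩ Prod.snd ⁻¹' closure (W n)))ᶜ, fun n => ?_, fun p x => ?_⟩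
  · exact (isClosedMap_fst_of_compactSpace _
      (hD.inter (isClosed_closure.preimage continuous_snd))).measurableSet.compl
  · constructor
    · intro hx
      have ho : IsOpen {x : Q | (p, x) ∈ D}ᶜ :=
        (hD.preimage (Continuous.prodMk_right p)).isOpen_compl
      obtain ⟨t, ht, hct, hts⟩ := exists_mem_nhds_isClosed_subset (ho.mem_nhds hx)
      obtain ⟨n, h1, h2⟩ := W_sq (K := {x}) isClosed_singleton isOpen_interior
        (singleton_subset_iff.2 (mem_interior_iff_mem_nhds.2 ht))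
      refine ⟨n, ?_, h1 rfl⟩
      rintro ⟨⟨p', x'⟩, ⟨h3, h4⟩, rfl⟩
      exact hts (closure_minimal (h2.trans interior_subset) hct h4) h3
    · rintro ⟨n, h1, h2⟩ hx
      exact h1 ⟨(p, x), ⟨hx, subset_closure h2⟩, rfl⟩

theorem mk_const {L : Set Q} (hL : IsClosed L) : MK fun _ => L :=
  mk_sec (D := Prod.snd ⁻¹' L) (hL.preimage continuous_snd)

theorem meas_cov {K : P → Set Q} (h : MK K) {a : P → List ℕ} (ha : CM a) :
    MeasurableSet {p | Cov (K p) (S (a p))} := by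
  refine ha.set (fun a => {p | Cov (K p) (S a)}) fun a => ?_
  have : {p | Cov (K p) (S a)} = ⋃ n, {_p | Cov (W n) (S a)} ∩ {p | K p ⊆ W n} := by
    ext p
    simp only [mem_setOf_eq, mem_iUnion, mem_inter_iff]
    refine ⟨fun hc => ?_, fun ⟨n, h1, h2⟩ => h1.sub h2⟩
    obtain ⟨O, hO, h1, h2⟩ := hc.opn
    obtain ⟨n, h3, h4⟩ := W_sq (h.closed p) hO h1
    exact ⟨n, h2.sub h4, h3⟩
  rw [this]
  exact MeasurableSet.iUnion fun n => (MeasurableSet.const _).inter (h.sub (W_open n))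

/-- A state: a Borel family of compacta essential for the coordinates at a Borel address. -/
structure St where
  K : P → Set Q
  a : P → List ℕ
  mk' : MK K
  cm : CM a
  ess : ∀ p, ¬ Cov (K p) (S (a p))

theorem St.ne (ξ : St) (p : P) : (ξ.K p).Nonempty := by
  rw [nonempty_iff_ne_empty]
  intro h
  exact ξ.ess p (h ▸ cov_empty _)

/-- Choose between two states along a Borel bit. -/
def St.ite (ξ τ : St) {g : P → Bool} (hg : CM g) : St where
  K p := bif g p then ξ.K p else τ.K p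
  a p := bif g p then ξ.a p else τ.a p
  mk' := mk_bind hg (fun b p => bif b then ξ.K p else τ.K p) fun b => by
    cases b
    exacts [τ.mk', ξ.mk']
  cm := hg.bind (fun b p => bif b then ξ.a p else τ.a p) fun b => by
    cases b
    exacts [τ.cm, ξ.cm]
  ess p := by
    cases g p
    exacts [τ.ess p, ξ.ess p]

theorem avoid (ξ : St) (F : ℕ → P → Set Q) (hF : ∀ j, MK (F j)) :
    ∃ τ : St, (∀ p, τ.K p ⊆ ξ.K p) ∧
      ∀ p, (∃ j, τ.K p ⊆ F j p) ∨ ∀ j, ∀ x ∈ τ.K p, x ∉ F j p := by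
  classical
  have hm : ∀ j, MeasurableSet {p | Cov (ξ.K p ∩ F j p) (S ((j + 1) :: ξ.a p))} := fun j =>
    meas_cov (ξ.mk'.inter (hF j)) (ξ.cm.map fun a => (j + 1) :: a)
  obtain ⟨g, hg, hg'⟩ := cm_choice (fun j p => ¬ Cov (ξ.K p ∩ F j p) (S ((j + 1) :: ξ.a p)))
    fun j => (hm j).compl
  have h2 : ∀ j, ∃ n : P → ℕ, CM n ∧ ∀ p, (∃ i, ξ.K p ∩ F j p ⊆ W i ∧
      Cov (W i) (S ((j + 1) :: ξ.a p))) → ξ.K p ∩ F j p ⊆ W (n p) ∧
      Cov (W (n p)) (S ((j + 1) :: ξ.a p)) := fun j =>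
    cm_choice (fun i p => ξ.K p ∩ F j p ⊆ W i ∧ Cov (W i) (S ((j + 1) :: ξ.a p))) fun i =>
      ((ξ.mk'.inter (hF j)).sub (W_open i)).inter
        (ξ.cm.set (fun a => {_p | Cov (W i) (S ((j + 1) :: a))}) fun _ => MeasurableSet.const _)
  choose n hn hn' using h2
  let c : P → Prop := fun p => ∀ j, Cov (ξ.K p ∩ F j p) (S ((j + 1) :: ξ.a p))
  have hc : CM fun p => decide (c p) := cm_dec (by
    simp only [c, setOf_forall]
    exact MeasurableSet.iInter hm)
  have hn2 : ∀ p, c p → ∀ j, ξ.K p ∩ F j p ⊆ W (n j p) ∧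
      Cov (W (n j p)) (S ((j + 1) :: ξ.a p)) := fun p hp j => hn' j p (by
    obtain ⟨O, hO, h1, h2⟩ := (hp j).opn
    obtain ⟨i, h3, h4⟩ := W_sq ((ξ.mk'.inter (hF j)).closed p) hO h1
    exact ⟨i, h3, h2.sub h4⟩)
  refine ⟨⟨fun p => bif decide (c p) then ξ.K p ∩ ⋂ j, (W (n j p))ᶜ else ξ.K p ∩ F (g p) p,
    fun p => bif decide (c p) then 0 :: ξ.a p else (g p + 1) :: ξ.a p, ?_, ?_, fun p => ?_⟩,
    fun p => ?_, fun p => ?_⟩
  · refine mk_bind hc (fun b p => bif b then ξ.K p ∩ ⋂ j, (W (n j p))ᶜ else ξ.K p ∩ F (g p) p)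
      fun b => ?_
    cases b
    · exact ξ.mk'.inter (mk_bind hg F hF)
    · exact ξ.mk'.inter (mk_iInter fun j => mk_bind (hn j) (fun i _ => (W i)ᶜ)
        fun i => mk_const (W_open i).isClosed_compl)
  · refine hc.bind (fun b p => bif b then 0 :: ξ.a p else (g p + 1) :: ξ.a p) fun b => ?_
    cases b
    · exact hg.bind (fun i p => (i + 1) :: ξ.a p) fun i => ξ.cm.map fun a => (i + 1) :: a
    · exact ξ.cm.map fun a => 0 :: a
  · by_cases hp : c p
    · simp only [hp, decide_true, cond_true]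
      exact cut (ξ.ess p) _ (fun j => S (j :: ξ.a p)) (fun j => S_sub j _) (S_dj _)
        fun j => by rw [compl_compl]; exact (hn2 p hp j).2
    · simp only [hp, decide_false, cond_false]
      exact hg' p (not_forall.1 hp)
  · by_cases hp : c p
    · simp only [hp, decide_true, cond_true]
      exact inter_subset_left
    · simp only [hp, decide_false, cond_false]
      exact inter_subset_left
  · by_cases hp : c p
    · simp only [hp, decide_true, cond_true]
      exact Or.inr fun j x hx hj => mem_iInter.1 hx.2 j ((hn2 p hp j).1 ⟨hx.1, hj⟩)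
    · simp only [hp, decide_false, cond_false]
      exact Or.inl ⟨g p, inter_subset_right⟩

theorem tryAll (ξ : St) (G : ℕ → P → Set Q) (hG : ∀ j, MK (G j)) :
    ∃ τ : St, (∀ p, τ.K p ⊆ ξ.K p) ∧
      ∀ j p, τ.K p ⊆ G j p ∨ Cov (τ.K p ∩ G j p) (S (τ.a p)) := by
  classical
  let K : ℕ → P → Set Q := fun n => Nat.rec ξ.K (fun j L p =>
    bif decide (Cov (L p ∩ G j p) (S (ξ.a p))) then L p else L p ∩ G j p) n
  have hs : ∀ j p, K (j + 1) p =
      bif decide (Cov (K j p ∩ G j p) (S (ξ.a p))) then K j p else K j p ∩ G j p := fun _ _ => rfl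
  have hK : ∀ n, MK (K n) ∧ ∀ p, ¬ Cov (K n p) (S (ξ.a p)) := by
    intro n
    induction n with
    | zero => exact ⟨ξ.mk', ξ.ess⟩
    | succ j ih =>
      refine ⟨mk_bind (cm_dec (meas_cov (ih.1.inter (hG j)) ξ.cm))
        (fun b p => bif b then K j p else K j p ∩ G j p) fun b => ?_, fun p => ?_⟩
      · cases b
        exacts [ih.1.inter (hG j), ih.1]
      · rw [hs]
        by_cases h : Cov (K j p ∩ G j p) (S (ξ.a p))
        · simp only [h, decide_true, cond_true]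
          exact ih.2 p
        · rw [decide_eq_false h]
          exact h
  have hd : ∀ j p, K (j + 1) p ⊆ K j p := fun j p => by
    rw [hs]
    cases decide (Cov (K j p ∩ G j p) (S (ξ.a p)))
    exacts [inter_subset_left, subset_rfl]
  refine ⟨⟨fun p => ⋂ n, K n p, ξ.a, mk_iInter fun n => (hK n).1, ξ.cm, fun p =>
    not_cov_iInter _ _ (fun n => (hK n).1.closed p) (fun n => hd n p) fun n => (hK n).2 p⟩,
    fun p => iInter_subset (fun n => K n p) 0, fun j p => ?_⟩
  by_cases h : Cov (K j p ∩ G j p) (S (ξ.a p))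
  · exact Or.inr (h.sub (inter_subset_inter_left _ (iInter_subset (fun n => K n p) j)))
  · refine Or.inl ((iInter_subset (fun n => K n p) (j + 1)).trans ?_)
    rw [hs]
    simp only [h, decide_false, cond_false]
    exact inter_subset_right

theorem dec (ξ : St) (E : ℕ → P → Set Q) (hE : ∀ j, MK (E j)) (C : ℕ → Bool → P → Set Q)
    (hC : ∀ j b, MK (C j b)) :
    ∃ τ : St, (∀ p, τ.K p ⊆ ξ.K p) ∧ ∃ t : P → P, Measurable t ∧
      ∀ p, (∀ n x, (∃ m, x ∈ E m p) ∨ x ∈ C n false p ∨ x ∈ C n true p) →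
        (∃ m, τ.K p ⊆ E m p) ∨ (∃ n, τ.K p ⊆ C n false p ∩ C n true p) ∨
          ∀ n, τ.K p ⊆ C n (t p n) p := by
  classical
  obtain ⟨ξ1, h1, h1'⟩ := avoid ξ (fun j p => if j % 2 = 0 then E (j / 2) p else
    C (j / 2) false p ∩ C (j / 2) true p) fun j => by
      by_cases h : j % 2 = 0
      · simp only [h, if_true]; exact hE _
      · simp only [h, if_false]; exact (hC _ _).inter (hC _ _)
  obtain ⟨ξ2, h2, h2'⟩ := tryAll ξ1 (fun j => C (j / 2) (decide (j % 2 = 1))) fun j => hC _ _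
  refine ⟨ξ2, fun p => (h2 p).trans (h1 p), fun p n => decide (ξ2.K p ∩ C n false p ⊆ ∅),
    measurable_pi_lambda _ fun n => measurable_to_countable' fun b =>
      cm_dec ((ξ2.mk'.inter (hC n false)).sub isOpen_empty) b, fun p hp => ?_⟩
  rcases h1' p with ⟨j, hj⟩ | hj
  · by_cases h : j % 2 = 0
    · simp only [h, if_true] at hj
      exact Or.inl ⟨_, (h2 p).trans hj⟩
    · simp only [h, if_false] at hj
      exact Or.inr (Or.inl ⟨_, (h2 p).trans hj⟩)
  refine Or.inr (Or.inr fun n => ?_)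
  have hE' : ∀ m, ∀ x ∈ ξ2.K p, x ∉ E m p := fun m x hx => by
    have := hj (2 * m) x (h2 p hx)
    simpa using this
  have hC' : ∀ x ∈ ξ2.K p, x ∈ C n false p → x ∈ C n true p → False := fun x hx a b => by
    have := hj (2 * n + 1) x (h2 p hx)
    have e1 : (2 * n + 1) % 2 ≠ 0 := by omega
    have e2 : (2 * n + 1) / 2 = n := by omega
    simp only [e1, if_false, e2] at this
    exact this ⟨a, b⟩
  have t0 := h2' (2 * n) p
  have t1 := h2' (2 * n + 1) p
  have e1 : (2 * n + 1) % 2 = 1 := by omega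
  have e2 : (2 * n + 1) / 2 = n := by omega
  have e3 : ¬ (2 * n) % 2 = 1 := by omega
  have e4 : (2 * n) / 2 = n := by omega
  simp only [e1, e2, e3, e4, decide_true, decide_false] at t0 t1
  have key : ξ2.K p ⊆ C n false p ∨ ξ2.K p ⊆ C n true p := by
    rcases t0 with t0 | t0
    · exact Or.inl t0
    rcases t1 with t1 | t1
    · exact Or.inr t1
    refine (ξ2.ess p ((cov_union ((ξ2.mk'.inter (hC n false)).closed p)
      ((ξ2.mk'.inter (hC n true)).closed p)
      (disjoint_left.2 fun x a b => hC' x a.1 a.2 b.2) t0 t1).sub fun x hx => ?_)).elim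
    rcases hp n x with ⟨m, hm⟩ | h | h
    exacts [(hE' m x hx hm).elim, Or.inl ⟨hx, h⟩, Or.inr ⟨hx, h⟩]
  by_cases h : ξ2.K p ∩ C n false p ⊆ ∅
  · simp only [h, decide_true]
    rcases key with k | k
    · obtain ⟨x, hx⟩ := ξ2.ne p
      exact (h ⟨hx, k hx⟩).elim
    · exact k
  · simp only [h, decide_false]
    rcases key with k | k
    · exact k
    · exact (h fun x hx => hC' x hx.1 hx.2 (k hx.1)).elim

theorem fix (ξ : St) {ι : P → ℕ} (hι : CM ι) :
    ∃ τ : St, (∀ p, τ.K p ⊆ ξ.K p) ∧ ∃ ρ : P → ℝ, Measurable ρ ∧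
      ∀ p, ∀ x ∈ τ.K p, (x (ι p) : ℝ) = ρ p := by
  obtain ⟨e, he⟩ := exists_surjective_nat ℚ
  obtain ⟨τ, h1, t, -, h2⟩ := dec ξ (fun _ _ => ∅) (fun _ => mk_const isClosed_empty)
    (fun n b p => {x | bif b then (e n : ℝ) ≤ x (ι p) else (x (ι p) : ℝ) ≤ e n}) fun n b =>
      mk_bind hι (fun i _ => {x | bif b then (e n : ℝ) ≤ x i else (x i : ℝ) ≤ e n}) fun i => by
        refine mk_const ?_
        cases b
        exacts [isClosed_le (cco i) continuous_const, isClosed_le continuous_const (cco i)]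
  have hc : ∀ p, ∀ x ∈ τ.K p, ∀ y ∈ τ.K p, ¬ (x (ι p) : ℝ) < y (ι p) := by
    intro p x hx y hy hlt
    rcases h2 p (fun n x => Or.inr (le_total (x (ι p) : ℝ) (e n))) with ⟨m, h⟩ | ⟨n, h⟩ | h
    · exact h hx
    · have a : (e n : ℝ) ≤ x (ι p) := (h hx).2
      have b : (y (ι p) : ℝ) ≤ e n := (h hy).1
      linarith
    · obtain ⟨q, q1, q2⟩ := exists_rat_btwn hlt
      obtain ⟨n, rfl⟩ := he q
      have a := h n hx
      have b := h n hy
      revert a b
      cases t p n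
      · intro _ b
        have b : (y (ι p) : ℝ) ≤ e n := b
        linarith
      · intro a _
        have a : (e n : ℝ) ≤ x (ι p) := a
        linarith
  have hv : ∀ p, ∀ x ∈ τ.K p, (x (ι p) : ℝ) = (τ.ne p).some (ι p) := fun p x hx =>
    le_antisymm (not_lt.1 (hc p _ (τ.ne p).some_mem x hx)) (not_lt.1 (hc p x hx _ (τ.ne p).some_mem))
  refine ⟨τ, h1, fun p => (τ.ne p).some (ι p), measurable_of_Iio fun r => ?_, hv⟩
  have : (fun p => ((τ.ne p).some (ι p) : ℝ)) ⁻¹' Iio r =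
      {p | p ∈ (fun i => {p | τ.K p ⊆ {x | (x i : ℝ) < r}}) (ι p)} := by
    ext p
    simp only [mem_preimage, mem_Iio, mem_setOf_eq]
    exact ⟨fun h x hx => by simpa only [mem_setOf_eq, hv p x hx] using h,
      fun h => h (τ.ne p).some_mem⟩
  rw [this]
  exact hι.set _ fun i => τ.mk'.sub (isOpen_lt (cco i) continuous_const)

theorem setc (ξ : St) {g : P → Bool} (hg : CM g) :
    ∃ τ : St, (∀ p, τ.K p ⊆ ξ.K p) ∧
      ∀ p, ∀ x ∈ τ.K p, (x (emb (ξ.a p) 0) : ℝ) = bif g p then 1 / 4 else 3 / 4 := by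
  refine ⟨⟨fun p => ξ.K p ∩ {x | (x (emb (ξ.a p) 0) : ℝ) = bif g p then 1 / 4 else 3 / 4},
    fun p => 1 :: ξ.a p, ξ.mk'.inter (mk_bind ξ.cm
      (fun a p => {x | (x (emb a 0) : ℝ) = bif g p then 1 / 4 else 3 / 4}) fun a => mk_bind hg
      (fun b _ => {x | (x (emb a 0) : ℝ) = bif b then 1 / 4 else 3 / 4}) fun b =>
      mk_const (isClosed_eq (cco _) continuous_const)), ξ.cm.map fun a => 1 :: a, fun p => ?_⟩,
    fun p => inter_subset_left, fun p x hx => hx.2⟩
  intro h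
  set v : ℝ := bif g p then 1 / 4 else 3 / 4 with hv
  have v0 : 0 < v ∧ v < 1 := by
    rw [hv]
    cases g p <;> norm_num
  have h' : Cov {x : Q | (x (emb (ξ.a p) 0) : ℝ) = v}ᶜ (S (0 :: ξ.a p)) := by
    refine Cov.mono (S := {emb (ξ.a p) 0}) ⟨fun s => {x | (x s : ℝ) < v},
      fun s => {x | v < (x s : ℝ)}, fun s _ => part_level s v v0.1 v0.2, fun x hx =>
        ⟨_, rfl, lt_or_gt_of_ne hx⟩⟩ ?_
    rintro _ rfl
    exact ⟨0, rfl⟩
  have := cov_iUnion (fun b : Bool => bif b then ξ.K p ∩ {x : Q | (x (emb (ξ.a p) 0) : ℝ) = v}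
    else {x : Q | (x (emb (ξ.a p) 0) : ℝ) = v}ᶜ) (fun b => S (b.toNat :: ξ.a p))
    (fun b => by cases b; exacts [h', h])
    (fun i j s hi hj => by
      have := S_dj _ _ _ _ hi hj
      cases i <;> cases j <;> simp_all)
  refine ξ.ess p ((this.sub fun x hx => ?_).mono (iUnion_subset fun b => S_sub _ _))
  by_cases hx' : (x (emb (ξ.a p) 0) : ℝ) = v
  · exact mem_iUnion.2 ⟨true, hx, hx'⟩
  · exact mem_iUnion.2 ⟨false, hx'⟩

end Pool.Agent.H83.Sh2
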