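import Pool.Agent.H83.Sh2

/-! Coding homeomorphisms and the construction of the Borel set. -/

set_option autoImplicit false

namespace Pool.Agent.H83.Sh3

open Set Topology unitInterval Pool.Agent.H83.Sh1 Pool.Agent.H83.Sh2

abbrev T := P × Q

noncomputable def WT : ℕ → Set T := (exists_W T).choose

theorem WT_open (n : ℕ) : IsOpen (WT n) := (exists_W T).choose_spec.1 n

/-- The `i`-th closed set coded by `z`. -/
def C (z : P) (i : ℕ) : Set T := ⋂ n, bif z (Nat.pair i n) then (WT n)ᶜ else univ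

theorem code (D : ℕ → Set T) (hD : ∀ i, IsClosed (D i)) : ∃ z, ∀ i, C z i = D i := by
  classical
  refine ⟨fun k => decide (WT k.unpair.2 ⊆ (D k.unpair.1)ᶜ), fun i => ?_⟩
  ext u
  simp only [C, Nat.unpair_pair, mem_iInter]
  constructor
  · intro h
    by_contra hu
    obtain ⟨n, h1, h2⟩ := (exists_W T).choose_spec.2 {u} (D i)ᶜ isCompact_singleton
      (hD i).isOpen_compl (singleton_subset_iff.2 hu)
    have := h n
    rw [decide_eq_true (show WT n ⊆ (D i)ᶜ from h2)] at this
    exact this (h1 rfl)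
  · intro h n
    by_cases hn : WT n ⊆ (D i)ᶜ
    · rw [decide_eq_true hn]
      exact fun hw => hn hw h
    · rw [decide_eq_false hn]
      trivial

theorem cm_bit {z : P → P} (hz : Measurable z) (k : ℕ) : CM fun p => z p k := fun b =>
  ((measurable_pi_apply k).comp hz) (measurableSet_singleton b)

theorem mk_C {z : P → P} (hz : Measurable z) (i : ℕ) : MK fun p => {x | (p, x) ∈ C (z p) i} := by
  have := mk_iInter (K := fun n p => {x | (p, x) ∈
    (bif z p (Nat.pair i n) then (WT n)ᶜ else univ : Set T)}) fun n =>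
    mk_bind (cm_bit hz (Nat.pair i n))
      (fun b p => {x | (p, x) ∈ (bif b then (WT n)ᶜ else univ : Set T)}) fun b => by
        refine mk_sec ?_
        cases b
        exacts [isClosed_univ, (WT_open n).isClosed_compl]
  have e : (fun p => {x | (p, x) ∈ C (z p) i}) = fun p => ⋂ n, {x | (p, x) ∈
      (bif z p (Nat.pair i n) then (WT n)ᶜ else univ : Set T)} := by
    funext p
    ext x
    simp only [C, mem_setOf_eq, mem_iInter]
  rw [e]
  exact this

abbrev J := ℕ ⊕ (Bool × ℕ × Bool) ⊕ (ℕ × Bool)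

def CJ (z : P) (j : J) : Set T := C z (Encodable.encode j)

theorem codeJ (D : J → Set T) (hD : ∀ i, IsClosed (D i)) : ∃ z, ∀ i, CJ z i = D i := by
  obtain ⟨z, hz⟩ := code (fun k => ((Encodable.decode k : Option J).map D).getD univ) fun k => by
    cases (Encodable.decode k : Option J) with
    | none => exact isClosed_univ
    | some j => exact hD j
  exact ⟨z, fun j => by simp [CJ, hz]⟩

def E (z : P) (m : ℕ) : Set T := CJ z (.inl m)
def H (z : P) (d : Bool) (n : ℕ) (β : Bool) : Set T := CJ z (.inr (.inl (d, n, β)))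
def G (z : P) (s : ℕ) (β : Bool) : Set T := CJ z (.inr (.inr (s, β)))

structure Link (z : P) (y w : T) : Prop where
  covH : ∀ d n u, (∃ m, u ∈ E z m) ∨ u ∈ H z d n false ∨ u ∈ H z d n true
  covG : ∀ s u, (∃ m, u ∈ E z m) ∨ u ∈ G z s false ∨ u ∈ G z s true
  ny : ∀ m, y ∉ E z m
  nw : ∀ m, w ∉ E z m
  hy : ∀ n β, y ∈ H z true n β → w.1 n = β
  hw : ∀ n β, w ∈ H z false n β → y.1 n = β
  g0 : ∀ s, w ∈ G z s false → (y.2 s : ℝ) ≤ 1 / 2
  g1 : ∀ s, w ∈ G z s true → 1 / 2 ≤ (y.2 s : ℝ)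

theorem exists_link (Y : Set T) (h : Y ≃ₜ Y) : ∃ z, ∀ y : Y, Link z y (h y) := by
  letI : MetricSpace T := TopologicalSpace.metrizableSpaceMetric T
  obtain ⟨F, hF, -, hFu, -⟩ := (isClosed_closure (s := Y)).isOpen_compl.exists_iUnion_isClosed
  have cl : ∀ A : Set Y, IsClosed A → ∀ y : Y, (y : T) ∈ closure (Subtype.val '' A) → y ∈ A := by
    intro A hA y hy
    rw [← hA.closure_eq, IsInducing.subtypeVal.closure_eq_preimage_closure_image]
    exact hy
  have cov : ∀ A B : Set Y, (∀ y, y ∈ A ∨ y ∈ B) → ∀ u : T, (∃ m, u ∈ F m) ∨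
      u ∈ closure (Subtype.val '' A) ∨ u ∈ closure (Subtype.val '' B) := by
    intro A B hAB u
    by_cases hu : u ∈ closure Y
    · refine Or.inr ?_
      rw [← mem_union, ← closure_union]
      refine closure_mono (fun y hy => ?_) hu
      rcases hAB ⟨y, hy⟩ with a | a
      exacts [Or.inl ⟨_, a, rfl⟩, Or.inr ⟨_, a, rfl⟩]
    · exact Or.inl (mem_iUnion.1 (hFu.ge hu))
  have nF : ∀ y : Y, ∀ m, (y : T) ∉ F m := fun y m hm =>
    (hFu ▸ mem_iUnion.2 ⟨m, hm⟩ : (y : T) ∈ (closure Y)ᶜ) (subset_closure y.2)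
  let k : Bool → Y → Y := fun d y => bif d then h y else h.symm y
  have hk : ∀ d, Continuous (k d) := fun d => by
    cases d
    exacts [h.symm.continuous, h.continuous]
  let A : Bool → ℕ → Bool → Set Y := fun d n β => {y | (k d y : T).1 n = β}
  have hA : ∀ d n β, IsClosed (A d n β) := fun d n β => isClosed_eq ((continuous_apply n).comp
    (continuous_fst.comp (continuous_subtype_val.comp (hk d)))) continuous_const
  let B : ℕ → Bool → Set Y := fun s β =>
    {w | bif β then 1 / 2 ≤ ((h.symm w : T).2 s : ℝ) else ((h.symm w : T).2 s : ℝ) ≤ 1 / 2}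
  have hB : ∀ s β, IsClosed (B s β) := fun s β => by
    have : Continuous fun w : Y => ((h.symm w : T).2 s : ℝ) :=
      (cco s).comp (continuous_snd.comp (continuous_subtype_val.comp h.symm.continuous))
    cases β
    exacts [isClosed_le this continuous_const, isClosed_le continuous_const this]
  obtain ⟨z, hz⟩ := codeJ (Sum.elim F (Sum.elim
    (fun t => closure (Subtype.val '' A t.1 t.2.1 t.2.2))
    (fun t => closure (Subtype.val '' B t.1 t.2)))) (by
      rintro (m | t | t)
      exacts [hF m, isClosed_closure, isClosed_closure])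
  refine ⟨z, fun y => ⟨fun d n u => ?_, fun s u => ?_, fun m => ?_, fun m => ?_, fun n β hh => ?_,
    fun n β hh => ?_, fun s hh => ?_, fun s hh => ?_⟩⟩
  · simp only [E, H, hz, Sum.elim_inl, Sum.elim_inr]
    exact cov _ _ (fun y => by simp [A]) u
  · simp only [E, G, hz, Sum.elim_inl, Sum.elim_inr]
    exact cov (B s false) (B s true) (fun y => le_total ((h.symm y : T).2 s : ℝ) (1 / 2)) u
  · simp only [E, hz, Sum.elim_inl]
    exact nF _ m
  · simp only [E, hz, Sum.elim_inl]
    exact nF _ m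
  · simp only [H, hz, Sum.elim_inl, Sum.elim_inr] at hh
    exact cl _ (hA _ _ _) _ hh
  · simp only [H, hz, Sum.elim_inl, Sum.elim_inr] at hh
    simpa [A, k] using cl _ (hA _ _ _) _ hh
  · simp only [G, hz, Sum.elim_inr] at hh
    simpa [B] using cl _ (hB _ _) _ hh
  · simp only [G, hz, Sum.elim_inr] at hh
    simpa [B] using cl _ (hB _ _) _ hh

theorem step (ξ : St) {dc : ℝ → P} (hdc : Measurable dc) (i : ℕ) (q : ℚ) (j : ℕ) (q' : ℚ)
    (b : ℕ) (β : Bool) : ∃ τ : St, (∀ p, τ.K p ⊆ ξ.K p) ∧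
      (∀ p, p b = β → ∀ x ∈ τ.K p, ∀ x' ∈ τ.K p, x i = x' i) ∧
      ∀ y w ρ, Link (dc ρ) y w → y.2 ∈ τ.K y.1 → w.2 ∈ τ.K w.1 → y.1 b = β → w.1 b ≠ β →
        (y.2 i : ℝ) = ρ + q → (w.2 j : ℝ) = ρ + q' → False := by
  classical
  have ms : MeasurableSet {p : P | p b = β} := cm_bit measurable_id b β
  have hsrc : CM fun p : P => decide (p b = β) := by
    have := (cm_bit measurable_id b).map fun c => decide (c = β)
    exact this
  obtain ⟨ξ1, s1, ρ1, mρ, h1⟩ := fix ξ (hsrc.map fun c => bif c then i else j)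
  let z : P → P := fun p => dc (ρ1 p - if p b = β then (q : ℝ) else q')
  have hz : Measurable z :=
    hdc.comp (mρ.sub (Measurable.ite ms measurable_const measurable_const))
  have mE : ∀ m, MK fun p => {x | (p, x) ∈ E (z p) m} := fun m => mk_C hz _
  obtain ⟨ξ2, s2, t2, m2, h2⟩ := dec ξ1 _ mE
    (fun n c p => {x | (p, x) ∈ H (z p) (decide (p b = β)) n c}) fun n c =>
      mk_bind hsrc (fun d p => {x | (p, x) ∈ H (z p) d n c}) fun d => mk_C hz _
  obtain ⟨ξ3, s3, t3, m3, h3⟩ := dec ξ2 _ mE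
    (fun _ c p => {x | (p, x) ∈ G (z p) (emb (ξ2.a (t2 p)) 0) c}) fun _ c =>
      mk_bind (ξ2.cm.comp m2) (fun a p => {x | (p, x) ∈ G (z p) (emb a 0) c}) fun a => mk_C hz _
  obtain ⟨ξ4, s4, h4⟩ := setc ξ2 (cm_bit (m3.comp m2) 0)
  have sub : ∀ p, (ξ4.ite ξ3 hsrc).K p ⊆ ξ2.K p := fun p => by
    simp only [St.ite]
    cases decide (p b = β)
    exacts [s3 p, s4 p]
  refine ⟨ξ4.ite ξ3 hsrc, fun p => (sub p).trans ((s2 p).trans (s1 p)), fun p hp x hx x' hx' => ?_,
    fun y w ρ L hy hw yb wb yi wj => ?_⟩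
  · have a := h1 p x (s2 p (sub p hx))
    have a' := h1 p x' (s2 p (sub p hx'))
    simp only [hp, decide_true, cond_true] at a a'
    exact Subtype.ext (a.trans a'.symm)
  have y2 := sub _ hy
  have w2 := sub _ hw
  have zy : z y.1 = dc ρ := by
    have a := h1 _ _ (s2 _ y2)
    simp only [yb, decide_true, cond_true] at a
    simp only [z, yb, if_true, ← a, yi, add_sub_cancel_right]
  have zw : z w.1 = dc ρ := by
    have a := h1 _ _ (s2 _ w2)
    simp only [wb, decide_false, cond_false] at a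
    simp only [z, wb, if_false, ← a, wj, add_sub_cancel_right]
  have ty : t2 y.1 = w.1 := by
    have := h2 y.1
    simp only [zy, yb, decide_true] at this
    rcases this (fun n x => L.covH _ n _) with ⟨m, h⟩ | ⟨n, h⟩ | h
    · exact (L.ny m (h y2)).elim
    · have a := L.hy n _ (h y2).1
      have a' := L.hy n _ (h y2).2
      rw [a] at a'
      exact absurd a' (by simp)
    · exact funext fun n => (L.hy n _ (h n y2)).symm
  have tw : t2 w.1 = y.1 := by
    have := h2 w.1
    simp only [zw, wb, decide_false] at this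
    rcases this (fun n x => L.covH _ n _) with ⟨m, h⟩ | ⟨n, h⟩ | h
    · exact (L.nw m (h w2)).elim
    · have a := L.hw n _ (h w2).1
      have a' := L.hw n _ (h w2).2
      rw [a] at a'
      exact absurd a' (by simp)
    · exact funext fun n => (L.hw n _ (h n w2)).symm
  have y4 : y.2 ∈ ξ4.K y.1 := by simpa only [St.ite, yb, decide_true, cond_true] using hy
  have w3 : w.2 ∈ ξ3.K w.1 := by simpa only [St.ite, wb, decide_false, cond_false] using hw
  have v := h4 _ _ y4
  simp only [Function.comp, ty] at v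
  have := h3 w.1
  simp only [zw, tw] at this
  rcases this (fun _ x => L.covG _ _) with ⟨m, h⟩ | ⟨n, h⟩ | h
  · exact L.nw m (h w3)
  · have a := L.g0 _ (h w3).1
    have a' := L.g1 _ (h w3).2
    revert v
    cases t3 w.1 0 <;> intro v <;> simp only [cond_true, cond_false] at v <;> linarith
  · have a := h 0 w3
    revert v a
    cases t3 w.1 0 <;> intro v a <;> simp only [cond_true, cond_false] at v
    · have := L.g0 _ a
      linarith
    · have := L.g1 _ a
      linarith

def L0 (p : P) : Set Q := ⋂ i, {x | (p, x) ∈ C p i}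

theorem exists_X : ∃ X : Set T, MeasurableSet X ∧
    (∀ p, ∃ x, (p, x) ∈ X ∧ (¬ Cov (L0 p) (S []) → x ∈ L0 p)) ∧
    (∀ y ∈ X, ∀ w ∈ X, y.1 = w.1 → y = w) ∧ ∃ dc : ℝ → P, Function.Surjective dc ∧
      ∀ y ∈ X, ∀ w ∈ X, ∀ ρ, Link (dc ρ) y w → y.1 ≠ w.1 → ∀ (i : ℕ) (q : ℚ) (j : ℕ) (q' : ℚ),
        (y.2 i : ℝ) = ρ + q → (w.2 j : ℝ) = ρ + q' → False := by
  classical
  have hP : ¬ Countable P := by
    rw [not_countable_iff, ← Cardinal.aleph0_lt_mk_iff]
    simp [Cardinal.aleph0_lt_continuum]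
  let dc : ℝ ≃ᵐ P := PolishSpace.measurableEquivOfNotCountable (not_countable_iff.2 inferInstance) hP
  have mL : MK L0 := mk_iInter fun i => mk_C measurable_id i
  let ξ0 : St := ⟨fun p => bif decide (Cov (L0 p) (S [])) then univ else L0 p, fun _ => [],
    mk_bind (cm_dec (meas_cov mL (cm_const []))) (fun c p => bif c then univ else L0 p)
      fun c => by
        cases c
        exacts [mL, mk_const isClosed_univ], cm_const _, fun p => by
      by_cases h : Cov (L0 p) (S [])
      · rw [decide_eq_true h]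
        exact fun h' => not_cov_univ (h'.mono (subset_univ _))
      · rw [decide_eq_false h]
        exact h⟩
  obtain ⟨e, he⟩ := exists_surjective_nat (ℕ × ℚ × ℕ × ℚ × ℕ × Bool)
  choose nx h1 h2 h3 using fun (n : ℕ) (ξ : St) => step ξ dc.measurable (e n).1 (e n).2.1
    (e n).2.2.1 (e n).2.2.2.1 (e n).2.2.2.2.1 (e n).2.2.2.2.2
  let ξ : ℕ → St := fun n => Nat.rec ξ0 nx n
  refine ⟨⋂ n, {y | y.2 ∈ (ξ n).K y.1}, MeasurableSet.iInter fun n => (ξ n).mk'.graph,
    fun p => ?_, fun y hy w hw hyw => ?_, dc, dc.surjective,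
    fun y hy w hw ρ L hne i q j q' => ?_⟩
  · obtain ⟨x, hx⟩ := IsCompact.nonempty_iInter_of_sequence_nonempty_isCompact_isClosed
      (fun n => (ξ n).K p) (fun n => h1 n (ξ n) p) (fun n => (ξ n).ne p)
      ((ξ 0).mk'.closed p).isCompact fun n => (ξ n).mk'.closed p
    refine ⟨x, mem_iInter.2 fun n => mem_iInter.1 hx n, fun h => ?_⟩
    have : x ∈ (bif decide (Cov (L0 p) (S [])) then univ else L0 p : Set Q) := mem_iInter.1 hx 0
    rwa [decide_eq_false h] at this
  · refine Prod.ext hyw (funext fun i => ?_)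
    obtain ⟨n, hn⟩ := he (i, 0, i, 0, 0, y.1 0)
    have := h2 n (ξ n) y.1 (by rw [hn]) y.2 (mem_iInter.1 hy (n + 1)) w.2
      (hyw ▸ mem_iInter.1 hw (n + 1))
    rwa [hn] at this
  · obtain ⟨b, hb⟩ := Function.ne_iff.1 hne
    obtain ⟨n, hn⟩ := he (i, q, j, q', b, y.1 b)
    have := h3 n (ξ n) y w ρ L (mem_iInter.1 hy (n + 1)) (mem_iInter.1 hw (n + 1))
    rw [hn] at this
    exact this rfl hb.symm

end Pool.Agent.H83.Sh3
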