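import Pool.Agent.H83.Sh3

/-! Countable-dimensional sets and the conclusion. -/

set_option autoImplicit false

namespace Pool.Agent.H83.Sh4

open Set Topology Filter unitInterval Pool.Agent.H83.Sh1 Pool.Agent.H83.Sh2 Pool.Agent.H83.Sh3

section
variable {A A' : Type} [TopologicalSpace A] [TopologicalSpace A']

/-- `U` and `V` are open and split `Z`. -/
structure Spl (Z U V : Set A) : Prop where
  oU : IsOpen U
  oV : IsOpen V
  cv : ∀ w ∈ Z, w ∈ U ∨ w ∈ V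
  dj : ∀ w ∈ Z, w ∈ U → w ∈ V → False

/-- Zero-dimensional subsets. -/
def ZD (Z : Set A) : Prop :=
  ∀ z ∈ Z, ∀ O, IsOpen O → z ∈ O → ∃ U V, Spl Z U V ∧ z ∈ U ∧ U ⊆ O

theorem ZD.pre {Z : Set A} (h : ZD Z) {g : A' → A} (hg : IsInducing g) : ZD (g ⁻¹' Z) := by
  intro z hz O hO hzO
  obtain ⟨O', hO', rfl⟩ := hg.isOpen_iff.1 hO
  obtain ⟨U, V, s, a, b⟩ := h _ hz O' hO' hzO
  exact ⟨g ⁻¹' U, g ⁻¹' V, ⟨s.oU.preimage hg.continuous, s.oV.preimage hg.continuous,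
    fun w hw => s.cv _ hw, fun w hw => s.dj _ hw⟩, a, fun w hw => b hw⟩

theorem ZD.im {Z : Set A'} (h : ZD Z) {g : A' → A} (hg : IsInducing g) : ZD (g '' Z) := by
  rintro _ ⟨z, hz, rfl⟩ O hO hzO
  obtain ⟨U, V, s, a, b⟩ := h _ hz _ (hO.preimage hg.continuous) hzO
  obtain ⟨U, hU, rfl⟩ := hg.isOpen_iff.1 s.oU
  obtain ⟨V, hV, rfl⟩ := hg.isOpen_iff.1 s.oV
  refine ⟨U ∩ O, V, ⟨hU.inter hO, hV, ?_, ?_⟩, ⟨a, hzO⟩, inter_subset_right⟩
  · rintro _ ⟨w, hw, rfl⟩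
    exact (s.cv w hw).imp (fun c => ⟨c, b c⟩) id
  · rintro _ ⟨w, hw, rfl⟩ c d
    exact s.dj w hw c.1 d

/-- Countable-dimensional subsets. -/
def CD (Y : Set A) : Prop := ∃ 𝒵 : Set (Set A), 𝒵.Countable ∧ (∀ Z ∈ 𝒵, ZD Z) ∧ Y ⊆ ⋃₀ 𝒵

theorem CD.pre {Y : Set A} (h : CD Y) {g : A' → A} (hg : IsInducing g) : CD (g ⁻¹' Y) := by
  obtain ⟨𝒵, c, z, s⟩ := h
  refine ⟨(fun Z => g ⁻¹' Z) '' 𝒵, c.image _, ?_, fun y hy => ?_⟩
  · rintro _ ⟨Z, hZ, rfl⟩
    exact (z Z hZ).pre hg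
  · obtain ⟨Z, hZ, h⟩ := s hy
    exact ⟨_, ⟨Z, hZ, rfl⟩, h⟩

theorem CD.im {Y : Set A'} (h : CD Y) {g : A' → A} (hg : IsInducing g) : CD (g '' Y) := by
  obtain ⟨𝒵, c, z, s⟩ := h
  refine ⟨(fun Z => g '' Z) '' 𝒵, c.image _, ?_, ?_⟩
  · rintro _ ⟨Z, hZ, rfl⟩
    exact (z Z hZ).im hg
  · rintro _ ⟨y, hy, rfl⟩
    obtain ⟨Z, hZ, h⟩ := s hy
    exact ⟨_, ⟨Z, hZ, rfl⟩, y, h, rfl⟩

theorem cd_iUnion {ι : Type} [Countable ι] {Y : ι → Set A} (h : ∀ i, CD (Y i)) :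
    CD (⋃ i, Y i) := by
  choose 𝒵 c z s using h
  refine ⟨⋃ i, 𝒵 i, countable_iUnion c, fun Z hZ => ?_, fun y hy => ?_⟩
  · obtain ⟨i, hi⟩ := mem_iUnion.1 hZ
    exact z i Z hi
  · obtain ⟨i, hi⟩ := mem_iUnion.1 hy
    obtain ⟨Z, hZ, h⟩ := s i hi
    exact ⟨Z, mem_iUnion.2 ⟨i, hZ⟩, h⟩

theorem zd_sub {Z : Set A} (h : Z.Subsingleton) : ZD Z := fun _ hz O hO hzO =>
  ⟨O, ∅, ⟨hO, isOpen_empty, fun _ hw => Or.inl (h hz hw ▸ hzO), fun _ _ _ => id⟩, hzO, subset_rfl⟩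

theorem ZD.sep [SecondCountableTopology A] [CompletelyNormalSpace A] {Z : Set A} (h : ZD Z)
    {B0 B1 : Set A} (c0 : IsClosed B0) (c1 : IsClosed B1) (hd : Disjoint B0 B1) :
    ∃ U V : Set A, IsOpen U ∧ IsOpen V ∧ B0 ⊆ U ∧ B1 ⊆ V ∧ Disjoint U V ∧ Z ⊆ U ∪ V := by
  classical
  obtain ⟨O0, o0, s0, t0⟩ := normal_exists_closure_subset c0 c1.isOpen_compl
    (subset_compl_iff_disjoint_right.2 hd)
  obtain ⟨O1, o1, s1, t1⟩ := normal_exists_closure_subset c1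
    (isClosed_closure (s := O0)).isOpen_compl (subset_compl_comm.1 t0)
  let ι := {t : Set A × Set A // Spl Z t.1 t.2 ∧ (Disjoint t.1 O0 ∨ Disjoint t.1 O1)}
  obtain ⟨R, hR, hRu⟩ := TopologicalSpace.isOpen_iUnion_countable (fun t : ι => t.1.1)
    fun t => t.2.1.oU
  let d : ι := ⟨(∅, univ), ⟨isOpen_empty, isOpen_univ, fun _ _ => Or.inr trivial,
    fun _ _ a _ => a⟩, Or.inl (empty_disjoint _)⟩
  obtain ⟨f, hf⟩ := (hR.insert d).exists_eq_range (insert_nonempty _ _)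
  have ex : ∀ z ∈ Z, ∃ n, z ∈ (f n).1.1 := by
    intro z hz
    have : z ∈ ⋃ t : ι, t.1.1 := by
      by_cases hz0 : z ∈ closure O0
      · obtain ⟨U, V, s, a, b⟩ := h z hz (closure O1)ᶜ isClosed_closure.isOpen_compl
          fun k => t1 k hz0
        exact mem_iUnion.2 ⟨⟨(U, V), s, Or.inr (disjoint_left.2 fun x p q =>
          b p (subset_closure q))⟩, a⟩
      · obtain ⟨U, V, s, a, b⟩ := h z hz (closure O0)ᶜ isClosed_closure.isOpen_compl hz0
        exact mem_iUnion.2 ⟨⟨(U, V), s, Or.inl (disjoint_left.2 fun x p q =>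
          b p (subset_closure q))⟩, a⟩
    rw [← hRu] at this
    obtain ⟨t, ht, hz⟩ := mem_iUnion₂.1 this
    obtain ⟨n, rfl⟩ : t ∈ range f := hf ▸ mem_insert_of_mem _ ht
    exact ⟨n, hz⟩
  let m : A → ℕ := fun z => sInf {n | z ∈ (f n).1.1}
  have hm : ∀ z ∈ Z, z ∈ (f (m z)).1.1 := fun z hz =>
    Nat.sInf_mem (s := {n | z ∈ (f n).1.1}) (ex z hz)
  have loc : ∀ z ∈ Z, ∀ D : Set A, D ⊆ Z → z ∈ closure D → ∃ w ∈ D, m w = m z := by
    intro z hz D hD hc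
    obtain ⟨w, ⟨w1, w2⟩, hw⟩ := mem_closure_iff.1 hc
      ((f (m z)).1.1 ∩ ⋂ k ∈ Finset.range (m z), (f k).1.2)
      ((f _).2.1.oU.inter (isOpen_biInter_finset fun k _ => (f k).2.1.oV))
      ⟨hm z hz, mem_iInter₂.2 fun k hk => ((f k).2.1.cv z hz).resolve_left
        (Nat.notMem_of_lt_sInf (s := {n | z ∈ (f n).1.1}) (Finset.mem_range.1 hk))⟩
    refine ⟨w, hw, le_antisymm (Nat.sInf_le w1) (not_lt.1 fun k => ?_)⟩
    exact (f _).2.1.dj w (hD hw) (hm w (hD hw)) (mem_iInter₂.1 w2 _ (Finset.mem_range.2 k))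
  let Z0 := {z ∈ Z | Disjoint (f (m z)).1.1 O1}
  let Z1 := {z ∈ Z | ¬ Disjoint (f (m z)).1.1 O1}
  have a0 : ∀ z ∈ Z0, z ∉ O1 := fun z hz => disjoint_left.1 hz.2 (hm z hz.1)
  have a1 : ∀ z ∈ Z1, z ∉ O0 := fun z hz =>
    disjoint_left.1 ((f (m z)).2.2.resolve_right hz.2) (hm z hz.1)
  have := CompletelyNormalSpace.completely_normal (s := B0 ∪ Z0) (t := B1 ∪ Z1) (by
    rw [closure_union, c0.closure_eq, disjoint_left]
    rintro x (h1 | h1) (h2 | h2)
    · exact disjoint_left.1 hd h1 h2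
    · exact a1 x h2 (s0 h1)
    · obtain ⟨w, w1, w2⟩ := mem_closure_iff.1 h1 O1 o1 (s1 h2)
      exact a0 w w2 w1
    · obtain ⟨w, w1, w2⟩ := loc x h2.1 Z0 (fun _ h => h.1) h1
      exact h2.2 (w2 ▸ w1.2)) (by
    rw [closure_union, c1.closure_eq, disjoint_left]
    rintro x (h1 | h1) (h2 | h2)
    · exact disjoint_left.1 hd h1 h2
    · obtain ⟨w, w1, w2⟩ := mem_closure_iff.1 h2 O0 o0 (s0 h1)
      exact a1 w w2 w1
    · exact a0 x h1 (s1 h2)
    · obtain ⟨w, w1, w2⟩ := loc x h1.1 Z1 (fun _ h => h.1) h2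
      exact w1.2 (w2 ▸ h1.2))
  obtain ⟨U, V, oU, oV, sU, sV, hUV⟩ := separatedNhds_iff_disjoint.2 this
  refine ⟨U, V, oU, oV, subset_union_left.trans sU, subset_union_left.trans sV, hUV, fun z hz => ?_⟩
  by_cases k : Disjoint (f (m z)).1.1 O1
  exacts [Or.inl (sU (Or.inr ⟨hz, k⟩)), Or.inr (sV (Or.inr ⟨hz, k⟩))]

end

def Zr (ρ : ℝ) : Set T := {u | ∀ (i : ℕ) (q : ℚ), (u.2 i : ℝ) ≠ ρ + q}

theorem zd_Zr (ρ : ℝ) : ZD (Zr ρ) := by
  intro z hz
  let N : Filter T := ⟨{s | ∃ U V, Spl (Zr ρ) U V ∧ z ∈ U ∧ U ⊆ s},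
    ⟨univ, ∅, ⟨isOpen_univ, isOpen_empty, fun _ _ => Or.inl trivial, fun _ _ _ => id⟩, trivial,
      subset_rfl⟩, fun ⟨U, V, a, b, c⟩ h => ⟨U, V, a, b, c.trans h⟩,
    fun ⟨U, V, a, b, c⟩ ⟨U', V', a', b', c'⟩ => ⟨U ∩ U', V ∪ V', ⟨a.oU.inter a'.oU,
      a.oV.union a'.oV, fun w hw => by
        rcases a.cv w hw with p | p
        · rcases a'.cv w hw with p' | p'
          exacts [Or.inl ⟨p, p'⟩, Or.inr (Or.inr p')]
        · exact Or.inr (Or.inl p),
      fun w hw p r => r.elim (a.dj w hw p.1) (a'.dj w hw p.2)⟩, ⟨b, b'⟩, inter_subset_inter c c'⟩⟩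
  have cc : ∀ i, Continuous fun u : T => (u.2 i : ℝ) := fun i => (cco i).comp continuous_snd
  have key : Tendsto (fun u : T => (u.1, u.2)) N (𝓝 (z.1, z.2)) := by
    refine Tendsto.prodMk_nhds (tendsto_pi_nhds.2 fun n => ?_) (tendsto_pi_nhds.2 fun i => ?_)
    · rw [nhds_discrete, tendsto_pure]
      have c : Continuous fun u : T => u.1 n := (continuous_apply n).comp continuous_fst
      exact ⟨{u | u.1 n = z.1 n}, {u | u.1 n ≠ z.1 n},
        ⟨(isOpen_discrete {z.1 n}).preimage c, (isOpen_discrete {z.1 n}ᶜ).preimage c,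
          fun w _ => em _, fun w _ a b => b a⟩, rfl, subset_rfl⟩
    · rw [tendsto_subtype_rng, tendsto_order]
      refine ⟨fun a ha => ?_, fun a ha => ?_⟩
      · obtain ⟨q, q1, q2⟩ := exists_rat_btwn (sub_lt_sub_right ha ρ)
        exact ⟨{u | ρ + q < u.2 i}, {u | (u.2 i : ℝ) < ρ + q},
          ⟨isOpen_lt continuous_const (cc i), isOpen_lt (cc i) continuous_const,
            fun w hw => (lt_or_gt_of_ne (hw i q)).symm,
            fun w _ a b => lt_asymm (show ρ + q < w.2 i from a) b⟩,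
          show ρ + q < z.2 i by linarith, fun u hu => by
            have : ρ + q < u.2 i := hu
            show a < u.2 i
            linarith⟩
      · obtain ⟨q, q1, q2⟩ := exists_rat_btwn (sub_lt_sub_right ha ρ)
        exact ⟨{u | (u.2 i : ℝ) < ρ + q}, {u | ρ + q < u.2 i},
          ⟨isOpen_lt (cc i) continuous_const, isOpen_lt continuous_const (cc i),
            fun w hw => lt_or_gt_of_ne (hw i q),
            fun w _ a b => lt_asymm (show (w.2 i : ℝ) < ρ + q from a) b⟩,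
          show (z.2 i : ℝ) < ρ + q by linarith, fun u hu => by
            have : (u.2 i : ℝ) < ρ + q := hu
            show (u.2 i : ℝ) < a
            linarith⟩
  intro O hO hzO
  exact key (hO.mem_nhds hzO)

theorem main : ∃ X : Set T, MeasurableSet X ∧ ¬ CD X ∧
    ∀ Y ⊆ X, (∀ x y : Y, ∃ h : Y ≃ₜ Y, h x = y) → CD Y := by
  obtain ⟨X, mX, hX, uX, dc, sdc, dX⟩ := exists_X
  refine ⟨X, mX, fun ⟨𝒵, c, z, s⟩ => ?_, fun Y hY hom => ?_⟩
  · obtain ⟨Z, hZ⟩ := (c.insert ∅).exists_eq_range (insert_nonempty _ _)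
    have zd : ∀ n, ZD (Z n) := fun n => by
      rcases (hZ.symm ▸ mem_range_self n : Z n ∈ insert ∅ 𝒵) with h | h
      exacts [h ▸ zd_sub subsingleton_empty, z _ h]
    have cc : ∀ i, Continuous fun u : T => u.2 i := fun i =>
      (continuous_apply i).comp continuous_snd
    choose U V oU oV sU sV dUV cZ using fun n => (zd n).sep
      (B0 := {u | u.2 (2 * n) = 0}) (B1 := {u | u.2 (2 * n) = 1})
      (isClosed_eq (cc _) continuous_const) (isClosed_eq (cc _) continuous_const)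
      (disjoint_left.2 fun u a b => zero_ne_one ((show u.2 (2 * n) = 0 from a).symm.trans b))
    obtain ⟨p, hp⟩ := code (fun n => (U n ∪ V n)ᶜ) fun n => ((oU n).union (oV n)).isClosed_compl
    obtain ⟨x, hx, hx'⟩ := hX p
    have := cut not_cov_univ (fun i => {x | (p, x) ∈ C p i})
      (fun j => match j with | 0 => S [] | j + 1 => {2 * j}) (fun _ => subset_univ _)
      (fun i j s hi hj => by
        rcases i with _ | i <;> rcases j with _ | j
        · rfl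
        · obtain ⟨n, hn⟩ := hi
          simp only [emb, mem_singleton_iff] at hn hj
          omega
        · obtain ⟨n, hn⟩ := hj
          simp only [emb, mem_singleton_iff] at hn hi
          omega
        · simp only [mem_singleton_iff] at hi hj
          omega)
      fun j => ⟨fun _ => {x | (p, x) ∈ U j}, fun _ => {x | (p, x) ∈ V j}, by
        rintro _ rfl
        exact ⟨(oU j).preimage (Continuous.prodMk_right p),
          (oV j).preimage (Continuous.prodMk_right p),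
          fun x a b => disjoint_left.1 (dUV j) a b, fun x h => sU j h, fun x h => sV j h⟩,
        fun x hx => ⟨_, rfl, by
          simp only [mem_compl_iff, mem_setOf_eq, hp, not_not] at hx
          exact hx⟩⟩
    rw [univ_inter] at this
    obtain ⟨Z', h1, h2⟩ := s hx
    obtain ⟨n, rfl⟩ : Z' ∈ range Z := hZ ▸ mem_insert_of_mem _ h1
    have k : (p, x) ∈ C p n := mem_iInter.1 (hx' this) n
    rw [hp] at k
    exact k (cZ n h2)
  by_cases hs : Y.Subsingleton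
  · exact ⟨{Y}, countable_singleton _, fun Z hZ => hZ ▸ zd_sub hs, by simp⟩
  obtain ⟨y0, m0, y1, m1, hne⟩ := not_subsingleton_iff.1 hs
  obtain ⟨h, hh⟩ := hom ⟨y0, m0⟩ ⟨y1, m1⟩
  obtain ⟨z, hz⟩ := exists_link Y h
  obtain ⟨ρ, rfl⟩ := sdc z
  let N : Set Y := {y | (y : T).1 ≠ (h y : T).1}
  have oN : IsOpen N := isOpen_ne_fun (continuous_fst.comp continuous_subtype_val)
    (continuous_fst.comp (continuous_subtype_val.comp h.continuous))
  have n0 : (⟨y0, m0⟩ : Y) ∈ N := fun k => hne (uX _ (hY m0) _ (hY m1) (by rw [hh] at k; exact k))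
  have cN : CD N := by
    refine ⟨{Subtype.val ⁻¹' Zr ρ, (Subtype.val ∘ h) ⁻¹' Zr ρ}, (countable_singleton _).insert _,
      ?_, fun y hy => ?_⟩
    · rintro _ (rfl | rfl)
      exacts [(zd_Zr ρ).pre IsInducing.subtypeVal,
        (zd_Zr ρ).pre (IsInducing.subtypeVal.comp h.isInducing)]
    · by_contra k
      simp only [sUnion_insert, sUnion_singleton, mem_union, mem_preimage, Zr, mem_setOf_eq,
        not_or, not_forall, not_not, Function.comp] at k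
      obtain ⟨⟨i, q, a⟩, j, q', b⟩ := k
      exact dX _ (hY y.2) _ (hY (h y).2) ρ (hz y) hy i q j q' a b
  choose g hg using fun y : Y => hom y ⟨y0, m0⟩
  obtain ⟨R, hR, hRu⟩ := TopologicalSpace.countable_cover_nhds (f := fun y : Y => g y ⁻¹' N)
    fun y => (oN.preimage (g y).continuous).mem_nhds (by rw [mem_preimage, hg]; exact n0)
  have : Countable R := hR.to_subtype
  have := (cd_iUnion fun y : R => cN.pre (g y).isInducing).im IsInducing.subtypeVal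
  rwa [← biUnion_eq_iUnion R fun y _ => g y ⁻¹' N, hRu, image_univ, Subtype.range_coe] at this

end Pool.Agent.H83.Sh4
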