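import Pool.Agent.H85.TauDefs

set_option autoImplicit false

namespace Pool.Agent.H83.TwDefs

open Set Pool.Agent.H85.TauDefs

/-- Open covers that do not contain the whole space. -/
def OCov (Y : Type) [TopologicalSpace Y] : Set (Set (Set Y)) :=
  {C | (∀ U ∈ C, IsOpen U) ∧ IsCover C}

end Pool.Agent.H83.TwDefs
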