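import Pool.Agent.H83.Tw5
import Pool.Agent.H83.TwDefs2
import Pool.Agent.H85.Tau2
import Pool.Agent.H42.Tau2

set_option autoImplicit false

namespace Pool.Agent.H83.Sier

open Set Filter MeasureTheory Topology Pool.Agent.H42.PropT Pool.Agent.H42.Dirac
  Pool.Agent.H42.BG Pool.Agent.H42.Tau Pool.Agent.H85.TauDefs Pool.Agent.H85.SplitDefs
  Pool.Agent.H83.TwDefs
open scoped Cardinal

theorem exists_real2 (Z : Set C) :
    ∃ (X : Set ℝ) (e : X → C), IsInducing e ∧ Function.Injective e ∧ range e = Z := by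
  let h := cantorSetHomeomorphNatToBool
  let X : Set ℝ := {r | ∃ hr : r ∈ cantorSet, h ⟨r, hr⟩ ∈ Z}
  have hX : X ⊆ cantorSet := fun r hr => hr.fst
  refine ⟨X, h ∘ inclusion hX, h.isInducing.comp (IsEmbedding.inclusion hX).isInducing,
    h.injective.comp (inclusion_injective hX), ?_⟩
  ext A
  constructor
  · rintro ⟨x, rfl⟩; exact x.2.snd
  · intro hA
    have hz : h (h.symm A) = A := h.apply_symm_apply A
    exact ⟨⟨(h.symm A).1, (h.symm A).2, hz.symm ▸ hA⟩, hz⟩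

/-- a Sierpinski set -/
structure Sp {X : Type} [TopologicalSpace X] (e : X → C) : Prop where
  ind : IsInducing e
  null : ∀ N, lam N = 0 → (e ⁻¹' N).Countable
  unc : ¬ (univ : Set X).Countable
  two : ∃ x y, e x 1 ≠ e y 1

theorem sier (hCH : (𝔠 : Cardinal.{0}) = ℵ₁) (t : W → Set ℕ) : ∃ (X : Set ℝ) (e : X → C), Sp e ∧
    ∃ (Q : Set (Fin 2 → X)) (D : ℕ → Set (Fin 2 → X)), IsOpen Q ∧ (∀ i, IsOpen (D i)) ∧
      (∀ z ∉ Q, ∃ α, {i | z ∈ D i} = t α) ∧ ∀ α, ∃ z ∉ Q, {i | z ∈ D i} = t α := by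
  classical
  let t' : W → Set ℕ := fun α => insert 0 ((· + 1) '' t α)
  obtain ⟨a, a1, a2⟩ := points hCH t'
  let b : W → C := fun α => fl (t' α) (a α)
  obtain ⟨X, e, e1, e2, e3⟩ := exists_real2 (range a ∪ range b)
  have ev : ∀ α n, b α (2 * n) = a α (2 * n) := fun α n =>
    if_neg fun ⟨m, _, h⟩ => by beta_reduce at h; omega
  have od : ∀ α n, b α (2 * n + 1) ≠ a α (2 * n + 1) ↔ n ∈ t' α := by
    intro α n
    by_cases h : n ∈ t' α <;> simp [b, fl, h]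
  have od0 : ∀ α, b α 1 ≠ a α 1 := fun α => (od α 0).2 (mem_insert _ _)
  have od1 : ∀ α i, b α (2 * (i + 1) + 1) ≠ a α (2 * (i + 1) + 1) ↔ i ∈ t α := by
    intro α i
    rw [od]; simp [t']
  have ha : ∀ α, ∃ x, e x = a α := fun α => by
    have : a α ∈ range e := e3 ▸ Or.inl ⟨α, rfl⟩
    exact this
  have hb : ∀ α, ∃ x, e x = b α := fun α => by
    have : b α ∈ range e := e3 ▸ Or.inr ⟨α, rfl⟩
    exact this
  choose xa hxa using ha
  choose xb hxb using hb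
  have hW : ¬ Countable W := by
    rw [← Cardinal.mk_le_aleph0_iff, W_card, not_le]
    exact Cardinal.aleph0_lt_aleph_one
  have hne : Nonempty W := by
    by_contra hc
    rw [not_nonempty_iff] at hc
    exact hW inferInstance
  obtain ⟨α0⟩ := hne
  have cont : ∀ (j : Fin 2) (i : ℕ), Continuous fun z : Fin 2 → X => e (z j) i := fun j i =>
    (continuous_apply i).comp (e1.continuous.comp (continuous_apply j))
  refine ⟨X, e, ⟨e1, fun N hN => ?_, fun hc => hW ?_, xb α0, xa α0, ?_⟩,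
    (⋃ k, {z | e (z 0) (2 * k) ≠ e (z 1) (2 * k)}) ∪ {z | e (z 0) 1 = e (z 1) 1},
    fun i => {z | e (z 0) (2 * (i + 1) + 1) ≠ e (z 1) (2 * (i + 1) + 1)}, ?_,
    fun i => isOpen_ne_fun (cont 0 _) (cont 1 _), fun z hz => ?_, fun α => ⟨![xb α, xa α], ?_, ?_⟩⟩
  · refine ((((a1 N hN).1.image a).union ((a1 N hN).2.image b)).preimage_of_injOn
      e2.injOn).mono fun x hx => ?_
    have : e x ∈ range a ∪ range b := e3 ▸ mem_range_self x
    rcases this with ⟨α, h⟩ | ⟨α, h⟩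
    · exact Or.inl ⟨α, by rw [mem_setOf_eq, h]; exact hx, h⟩
    · exact Or.inr ⟨α, by rw [mem_setOf_eq]; exact (show b α ∈ N by rw [h]; exact hx), h⟩
  · have : Countable X := countable_univ_iff.1 hc
    refine Function.Injective.countable (f := xa) fun α β h => a2 α β fun n => ?_
    rw [← hxa, ← hxa, h]
  · rw [hxa, hxb]; exact od0 α0
  · refine (isOpen_iUnion fun k => isOpen_ne_fun (cont 0 _) (cont 1 _)).union ?_
    exact (isOpen_discrete {p : Bool × Bool | p.1 = p.2}).preimage ((cont 0 1).prodMk (cont 1 1))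
  · simp only [mem_union, mem_iUnion, mem_setOf_eq, not_or, not_exists, not_not] at hz
    obtain ⟨h1, h2⟩ := hz
    have m0 : e (z 0) ∈ range a ∪ range b := e3 ▸ mem_range_self _
    have m1 : e (z 1) ∈ range a ∪ range b := e3 ▸ mem_range_self _
    rcases m0 with ⟨α, h⟩ | ⟨α, h⟩ <;> rcases m1 with ⟨β, h'⟩ | ⟨β, h'⟩ <;>
      rw [← h, ← h'] at h1 h2 <;> obtain rfl := a2 α β (by simpa only [ev] using h1)
    · exact absurd rfl h2
    · refine ⟨α, ?_⟩
      ext i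
      simp only [mem_setOf_eq, ← h, ← h']
      exact ne_comm.trans (od1 α i)
    · refine ⟨α, ?_⟩
      ext i
      simp only [mem_setOf_eq, ← h, ← h']
      exact od1 α i
    · exact absurd rfl h2
  · simp [hxa, hxb, ev, od0]
  · ext i
    simp only [mem_setOf_eq, Matrix.cons_val_zero, Matrix.cons_val_one, Matrix.cons_val_fin_one,
      hxa, hxb]
    exact od1 α i

variable {X : Type} [TopologicalSpace X] {e : X → C}

theorem Sp.ne (h : Sp e) : Nonempty X := let ⟨x, _⟩ := h.two; ⟨x⟩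

theorem Sp.choose (h : Sp e) : Choose (Tau X) (Gamma X) := by
  intro U hU
  have := h.ne
  obtain ⟨V, h1, h2⟩ := tg_of h.ind h.null U ⟨⟨⟨hU.1, hU.2.1⟩, hU.2.2.1⟩, hU.2.2.2⟩
  exact ⟨V, h1, h2.1.1, h2.1.2, h2.2⟩

theorem Sp.s1gg (h : Sp e) : S1 (Gamma X) (Gamma X) := by
  refine Pool.Agent.H85.Tau.S1GG_of_JG fun u hu hx S hS => ?_
  choose O h4 h5 using fun n m => h.ind.isOpen_iff.1 (hu n m)
  have h6 : ∀ x n m, e x ∈ O n m ↔ x ∈ u n m := fun x n m => by rw [← h5]; rfl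
  let G : ℕ → ℕ → Set C := fun n k => ⋂ m ∈ Ici k, O n m
  have hG : ∀ n k, MeasurableSet (G n k) := fun n k =>
    .biInter (to_countable _) fun m _ => (h4 n m).measurableSet
  have hk : ∀ n, ∃ k, lam ((⋃ j, G n j) \ G n k) ≤ 2⁻¹ ^ n := by
    intro n
    have h1 := tendsto_measure_iInter_atTop (μ := lam) (s := fun k => (⋃ j, G n j) \ G n k)
      (fun k => ((MeasurableSet.iUnion (hG n)).diff (hG n k)).nullMeasurableSet)
      (fun i j hij => diff_subset_diff_right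
        (biInter_subset_biInter_left (Ici_subset_Ici.2 hij))) ⟨0, measure_ne_top _ _⟩
    have h2 : (⋂ k, (⋃ j, G n j) \ G n k) = ∅ := by
      rw [← diff_iUnion, diff_self]
    rw [h2, measure_empty] at h1
    exact (h1.eventually (ge_mem_nhds (ENNReal.pow_pos (by simp) n))).exists
  choose k hk using hk
  have hbc := ae_eventually_notMem (μ := lam) (s := fun n => (⋃ j, G n j) \ G n (k n))
    (ne_top_of_le_ne_top (by simp) (ENNReal.tsum_le_tsum hk))
  have := h.ne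
  obtain ⟨p, hp⟩ := countable_iff_exists_subset_range.1 (h.null _ hbc)
  choose c hc using fun x n => eventually_atTop.1 (hx x n)
  let g : ℕ → ℕ := fun n => max (k n) ((Finset.range (n + 1)).sup fun j => c (p j) n)
  refine ⟨fun n => S n \ Iio (g n), fun n => diff_subset, fun n => (hS n).diff (finite_Iio _),
    fun x _ => ?_⟩
  by_cases hxe : ∀ᶠ n in atTop, e x ∉ (⋃ j, G n j) \ G n (k n)
  · filter_upwards [hxe] with n hn m hm
    have h1 : e x ∈ ⋃ j, G n j :=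
      mem_iUnion.2 ⟨c x n, mem_iInter₂.2 fun m hm => (h6 x n m).2 (hc x n m hm)⟩
    have h2 : e x ∈ G n (k n) := by
      by_contra h3; exact hn ⟨h1, h3⟩
    exact (h6 x n m).1 (mem_iInter₂.1 h2 m (mem_Ici.2 ((le_max_left _ _).trans (not_lt.1 hm.2))))
  · obtain ⟨j, rfl⟩ := hp hxe
    filter_upwards [eventually_ge_atTop j] with n hn m hm
    refine hc _ n m (le_trans ?_ ((le_max_right _ _).trans (not_lt.1 hm.2)))
    exact Finset.le_sup (f := fun j => c (p j) n) (Finset.mem_range.2 (Nat.lt_succ_of_le hn))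

theorem Sp.s1tg (h : Sp e) : S1 (Tau X) (Gamma X) := by
  intro U hU
  choose V h1 h2 using fun n => h.choose _ (hU n)
  obtain ⟨W', h3, h4⟩ := h.s1gg V h2
  exact ⟨W', fun n => h1 n (h3 n), h4⟩

theorem Sp.not_roth (h : Sp e) : ¬ S1 (OCov X) (OCov X) := by
  intro hS
  have key : ∀ k : ℕ, lam (range e) ≤ 2⁻¹ ^ k * 2 := by
    intro k
    obtain ⟨U, h1, h2⟩ := hS
      (fun n => range fun y : C => e ⁻¹' {x | ∀ i ∈ Finset.range (n + k + 2), x i = y i}) (by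
        intro n
        refine ⟨?_, eq_univ_of_forall fun x => ⟨_, ⟨e x, rfl⟩, fun _ _ => rfl⟩, ?_⟩
        · rintro _ ⟨y, rfl⟩
          refine IsOpen.preimage h.ind.continuous ?_
          have : {x : C | ∀ i ∈ Finset.range (n + k + 2), x i = y i} =
              ⋂ i ∈ Finset.range (n + k + 2), (fun x : C => x i) ⁻¹' {y i} := by ext x; simp
          rw [this]
          exact isOpen_biInter_finset fun i _ => (isOpen_discrete _).preimage (continuous_apply i)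
        · rintro ⟨y, hy⟩
          obtain ⟨x, x', hx⟩ := h.two
          have a1 := (eq_univ_iff_forall.1 hy x) 1 (Finset.mem_range.2 (by omega))
          have a2 := (eq_univ_iff_forall.1 hy x') 1 (Finset.mem_range.2 (by omega))
          exact hx (a1.trans a2.symm))
    choose y hy using h1
    have hsub : range e ⊆ ⋃ n, {x | ∀ i ∈ Finset.range (n + k + 2), x i = y n i} := by
      rintro _ ⟨x, rfl⟩
      obtain ⟨_, ⟨n, rfl⟩, hx⟩ : x ∈ ⋃₀ range U := h2.2.1 ▸ mem_univ x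
      rw [← hy n] at hx
      exact mem_iUnion.2 ⟨n, hx⟩
    refine (measure_mono hsub).trans ((measure_iUnion_le _).trans ?_)
    have h3 : ∀ n, lam {x | ∀ i ∈ Finset.range (n + k + 2), x i = y n i} ≤ 2⁻¹ ^ k * 2⁻¹ ^ n := by
      intro n
      rw [lam_pi, Finset.card_range, ← pow_add]
      exact pow_le_pow_of_le_one (by simp) (by simp) (by omega)
    refine (ENNReal.tsum_le_tsum h3).trans ?_
    rw [ENNReal.tsum_mul_left, ENNReal.tsum_geometric]
    simp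
  have h0 : lam (range e) = 0 := by
    refine le_antisymm (ge_of_tendsto' (x := atTop) (f := fun k : ℕ => (2⁻¹ : ENNReal) ^ k * 2)
      ?_ key) zero_le
    have := ENNReal.Tendsto.mul_const (b := 2)
      (ENNReal.tendsto_pow_atTop_nhds_zero_of_lt_one (r := 2⁻¹) (by simp)) (Or.inr (by simp))
    simpa using this
  exact h.unc (by simpa using h.null _ h0)

/-- the interval sets in the square -/
def UU {Z : Type} (Q : Set Z) (D : ℕ → Set Z) (a b : ℕ) : Set Z := Q ∪ ⋃ i ∈ Ico a b, D i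

/-- a closed part of `Z` maps onto all infinite sets -/
structure Onto {Z : Type} [TopologicalSpace Z] (Q : Set Z) (D : ℕ → Set Z) : Prop where
  oq : IsOpen Q
  od : ∀ i, IsOpen (D i)
  inf : ∀ z ∉ Q, {i | z ∈ D i}.Infinite
  all : ∀ s : Set ℕ, s.Infinite → ∃ z ∉ Q, {i | z ∈ D i} = s

section
variable {Z : Type} [TopologicalSpace Z] {Q : Set Z} {D : ℕ → Set Z}

omit [TopologicalSpace Z] in
theorem mem_UU {z : Z} (hz : z ∉ Q) {a b : ℕ} :
    z ∈ UU Q D a b ↔ ∃ i, a ≤ i ∧ i < b ∧ i ∈ {i | z ∈ D i} := by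
  simp [UU, hz, and_assoc]

theorem Onto.gamma (h : Onto Q D) (n : ℕ) : range (fun j => UU Q D n (n + j)) ∈ Gamma Z := by
  have key : ∀ j, ∃ z, z ∉ UU Q D n (n + j) ∧ ∀ k, j < k → z ∈ UU Q D n (n + k) := by
    intro j
    obtain ⟨z, h1, h2⟩ := h.all (Ici (n + j)) (Ici_infinite _)
    refine ⟨z, ?_, fun k hk => ?_⟩
    · rw [mem_UU h1, h2]
      rintro ⟨i, -, a1, a2⟩
      exact absurd a2 (not_le.2 a1)
    · rw [mem_UU h1, h2]
      exact ⟨n + j, by omega, by omega, self_mem_Ici⟩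
  refine Pool.Agent.H83.Tw.gamma_of (Function.Injective.of_lt_imp_ne fun i j hij he => ?_)
    (fun j => h.oq.union (isOpen_biUnion fun i _ => h.od i)) (fun j he => ?_) fun z => ?_
  · obtain ⟨z, h1, h2⟩ := key i
    exact h1 (he ▸ h2 j hij)
  · obtain ⟨z, h1, -⟩ := key j
    exact h1 (he ▸ mem_univ z)
  · by_cases hz : z ∈ Q
    · exact Eventually.of_forall fun j => Or.inl hz
    · obtain ⟨i, hi, hlt⟩ := (h.inf z hz).exists_gt n
      filter_upwards [eventually_gt_atTop i] with j hj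
      exact (mem_UU hz).2 ⟨i, hlt.le, by omega, hi⟩

theorem Onto.core (h : Onto Q D) (g : ℕ → ℕ) :
    ∃ z z', ∀ n, ∀ m ≤ g n, ¬ (z ∈ UU Q D n m ∧ z' ∈ UU Q D n m) := by
  obtain ⟨c, -, hc⟩ := exists_seq_of_forall_finset_exists (α := ℕ) (fun _ => True)
    (fun x y => x < y ∧ ∀ n ≤ x, g n ≤ y) (by
      intro s _
      refine ⟨s.sup id + 1 + (Finset.range (s.sup id + 1)).sup g, trivial, fun x hx => ?_⟩
      have h1 : x ≤ s.sup id := Finset.le_sup (f := id) hx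
      refine ⟨by omega, fun n hn => ?_⟩
      have h2 : g n ≤ (Finset.range (s.sup id + 1)).sup g :=
        Finset.le_sup (Finset.mem_range.2 (by omega))
      omega)
  have hm : StrictMono c := fun i j hij => (hc i j hij).1
  obtain ⟨z, h1, h2⟩ := h.all (range fun i => c (2 * i))
    (infinite_range_of_injective fun i j hij => by have := hm.injective hij; omega)
  obtain ⟨z', h3, h4⟩ := h.all (range fun i => c (2 * i + 1))
    (infinite_range_of_injective fun i j hij => by have := hm.injective hij; omega)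
  refine ⟨z, z', fun n m hnm => ?_⟩
  rw [mem_UU h1, mem_UU h3, h2, h4]
  rintro ⟨⟨_, a1, a2, i, rfl⟩, _, b1, b2, j, rfl⟩
  rcases lt_or_ge (2 * i) (2 * j + 1) with h5 | h5
  · have := (hc _ _ h5).2 n a1
    beta_reduce at b2
    omega
  · have := (hc (2 * j + 1) (2 * i) (by omega)).2 n b1
    beta_reduce at a2
    omega

theorem fin_bound {β : Type} {F : Set β} (hF : F.Finite) (P : β → ℕ → Prop)
    (h : ∀ V ∈ F, ∃ m, P V m) : ∃ M, ∀ V ∈ F, ∃ m ≤ M, P V m := by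
  choose! f hf using h
  obtain ⟨M, hM⟩ := (hF.image f).bddAbove
  exact ⟨M, fun V hV => ⟨f V, hM ⟨V, hV, rfl⟩, hf V hV⟩⟩

theorem Onto.not_sfin (h : Onto Q D) : ¬ Sfin (Gamma Z) (Omega Z) := by
  intro hS
  obtain ⟨F, h1, h2⟩ := hS _ h.gamma
  choose g hg using fun n => fin_bound (h1 n).1 (fun V m => V = UU Q D n m) fun V hV => by
    obtain ⟨j, rfl⟩ := (h1 n).2 hV
    exact ⟨_, rfl⟩
  obtain ⟨z, z', hz⟩ := h.core g
  obtain ⟨U, hU, h3⟩ := h2.2.2 {z, z'} (toFinite _)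
  obtain ⟨n, hn⟩ := mem_iUnion.1 hU
  obtain ⟨m, a1, rfl⟩ := hg n U hn
  exact hz n m a1 ⟨h3 (by simp), h3 (by simp)⟩

end

theorem Onto.not_sfin2 {Q : Set (Fin 2 → X)} {D : ℕ → Set (Fin 2 → X)} (h : Onto Q D) :
    ¬ Sfin (Omega X) (Omega X) := by
  intro hS
  have key : ∀ n (F : Set X), F.Finite → ∃ V ∈ {V : Set X | IsOpen V ∧
      ∃ j, pi univ (fun _ : Fin 2 => V) ⊆ UU Q D n (n + j)}, F ⊆ V := by
    intro n F hF
    have hne : Nonempty (Fin 2 → X) := by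
      obtain ⟨z, -⟩ := h.all univ infinite_univ
      exact ⟨z⟩
    have hom := Pool.Agent.H85.Tau.tau_sub_omega (Pool.Agent.H85.Tau.gamma_sub_tau (h.gamma n))
    obtain ⟨U, hU, hFU⟩ := hom.2.2 (pi univ (fun _ : Fin 2 => F)) (Finite.pi fun _ => hF)
    obtain ⟨V, h1, h2, h3⟩ := Pool.Agent.H85.Tau2.tube (hom.1 U hU) hF hFU
    obtain ⟨j, rfl⟩ := hU
    exact ⟨V, ⟨h1, j, h3⟩, h2⟩
  obtain ⟨F, h1, h2⟩ := hS (fun n => {V : Set X | IsOpen V ∧
      ∃ j, pi univ (fun _ : Fin 2 => V) ⊆ UU Q D n (n + j)}) (by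
    intro n
    refine ⟨fun V hV => hV.1, ⟨eq_univ_of_forall fun x => ?_, ?_⟩, key n⟩
    · obtain ⟨V, hV, hx⟩ := key n {x} (finite_singleton x)
      exact ⟨V, hV, hx rfl⟩
    · rintro ⟨_, j, hj⟩
      rw [pi_univ, univ_subset_iff] at hj
      exact (h.gamma n).2.1.2 ⟨j, hj⟩)
  choose g hg using fun n => fin_bound (h1 n).1
    (fun V m => pi univ (fun _ : Fin 2 => V) ⊆ UU Q D n m) fun V hV => by
      obtain ⟨-, j, hj⟩ := (h1 n).2 hV
      exact ⟨_, hj⟩
  obtain ⟨z, z', hz⟩ := h.core g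
  obtain ⟨U, hU, h3⟩ := h2.2.2 (range z ∪ range z') ((finite_range _).union (finite_range _))
  obtain ⟨n, hn⟩ := mem_iUnion.1 hU
  obtain ⟨m, a1, a2⟩ := hg n U hn
  exact hz n m a1 ⟨a2 fun i _ => h3 (Or.inl ⟨i, rfl⟩), a2 fun i _ => h3 (Or.inr ⟨i, rfl⟩)⟩

theorem main (hCH : (𝔠 : Cardinal.{0}) = ℵ₁) : ∃ X : Set ℝ, Nonempty X ∧ S1 (Tau X) (Gamma X) ∧
    ¬ S1 (OCov X) (OCov X) ∧ ¬ Sfin (Omega X) (Omega X) ∧
      ¬ Sfin (Gamma (Fin 2 → X)) (Omega (Fin 2 → X)) := by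
  have : Nonempty {s : Set ℕ // s.Infinite} := ⟨⟨univ, infinite_univ⟩⟩
  obtain ⟨t, ht⟩ := ex_enum hCH (τ := {s : Set ℕ // s.Infinite})
    ((Cardinal.mk_subtype_le _).trans (by simp))
  obtain ⟨X, e, h, Q, D, h1, h2, h3, h4⟩ := sier hCH fun α => (t α).1
  have hO : Onto Q D := ⟨h1, h2, fun z hz => by
    obtain ⟨α, hα⟩ := h3 z hz
    rw [hα]; exact (t α).2, fun s hs => by
    obtain ⟨α, hα⟩ := ht ⟨s, hs⟩
    obtain ⟨z, a1, a2⟩ := h4 α
    exact ⟨z, a1, by rw [a2, hα]⟩⟩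
  exact ⟨X, h.ne, h.s1tg, h.not_roth, hO.not_sfin2, hO.not_sfin⟩

theorem main2 (hCH : (𝔠 : Cardinal.{0}) = ℵ₁) : ∃ X : Set ℝ, Split (Tau X) (Tau X) ∧
    ¬ Split (Tau (Fin 2 → X)) (Tau (Fin 2 → X)) := by
  obtain ⟨t, t1, t2, t3, t4⟩ := tower hCH
  obtain ⟨X, e, h, Q, D, h1, h2, h3, h4⟩ := sier hCH t
  have := h.ne
  have conv : ∀ {Z : Type} [TopologicalSpace Z] (U : Set (Set Z)), U ∈ Tau Z ↔ TauC U :=
    fun U => ⟨fun hU => ⟨⟨⟨hU.1, hU.2.1⟩, hU.2.2.1⟩, hU.2.2.2⟩,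
      fun hU => ⟨hU.1.1.1, hU.1.1.2, hU.1.2, hU.2⟩⟩
  have conv2 : ∀ (Z : Type) [TopologicalSpace Z], Split (Tau Z) (Tau Z) ↔ SplitTT Z := by
    intro Z _
    simp only [Split, SplitTT, conv, and_comm]
  rw [← exists_congr fun X : Set ℝ => (and_congr (conv2 X) (not_congr (conv2 (Fin 2 → X)))).symm]
  refine ⟨X, (tg_of h.ind h.null).split, ?_⟩
  have hU : ∀ z ∉ Q, {n | z ∈ Q ∪ D n} = {n | z ∈ D n} := fun z hz => by ext n; simp [hz]
  have hz : ∀ z, {n | z ∈ Q ∪ D n} = univ ∨ ∃ α, {n | z ∈ Q ∪ D n} = t α := by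
    intro z
    by_cases hq : z ∈ Q
    · exact Or.inl (eq_univ_of_forall fun n => Or.inl hq)
    · rw [hU z hq]; exact Or.inr (h3 z hq)
  refine not_split (U := fun n => Q ∪ D n) (fun n => h1.union (h2 n)) (fun z => ?_)
    (fun z w => ?_) (fun A => ?_) fun n m hnm => ?_
  · rcases hz z with h | ⟨α, h⟩ <;> rw [h]
    exacts [infinite_univ, t1 α]
  · change ({n | z ∈ Q ∪ D n} \ {n | w ∈ Q ∪ D n}).Finite ∨
      ({n | w ∈ Q ∪ D n} \ {n | z ∈ Q ∪ D n}).Finite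
    rcases hz z with h | ⟨α, h⟩
    · rw [h]; simp
    rcases hz w with h' | ⟨β, h'⟩
    · rw [h']; simp
    · rw [h, h']; exact t2 α β
  · obtain ⟨α, hα⟩ := t3 A
    obtain ⟨z, a1, a2⟩ := h4 α
    exact ⟨z, by rw [hU z a1, a2]; exact hα⟩
  · obtain ⟨α, hα⟩ := t4 n m hnm
    obtain ⟨z, a1, a2⟩ := h4 α
    rw [← a2] at hα
    exact ⟨z, fun h' => h'.elim a1 hα.1, Or.inr hα.2⟩

end Pool.Agent.H83.Sier
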