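import Mathlib

set_option autoImplicit false

namespace Pool.Agent.H83.SigQ

open Set

/-- bounded well-ordered sets of rationals (ranges of bounded increasing sequences) -/
def SQ : Type := {A : Set ℚ // A.IsWF ∧ BddAbove A}

/-- the end-extension order -/
instance : PartialOrder SQ where
  le s t := s.1 ⊆ t.1 ∧ ∀ a ∈ s.1, ∀ b ∈ t.1, b < a → b ∈ s.1
  le_refl s := ⟨subset_rfl, fun _ _ _ hb _ => hb⟩
  le_trans _ _ _ h h' := ⟨h.1.trans h'.1, fun a ha b hb hba =>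
    h.2 a ha b (h'.2 a (h.1 ha) b hb hba) hba⟩
  le_antisymm _ _ h h' := Subtype.ext (h.1.antisymm h'.1)

section defs

variable {T : Type} [PartialOrder T]

/-- a union of countably many antichains -/
def Special (X : Set T) : Prop :=
  ∃ A : ℕ → Set T, (∀ n, IsAntichain (· ≤ ·) (A n)) ∧ X = ⋃ n, A n

/-- nonstationary subsets of a tree -/
def NS (X : Set T) : Prop :=
  ∃ g : T → T, (∀ x ∈ X, ¬ IsMin x → g x < x) ∧ ∀ t, Special {x | x ∈ X ∧ g x = t}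

/-- the subtree determined by a successor-partition and a choice of sides -/
def sub (Q : T → Bool → Set T) (f : T → Bool) : Set T :=
  {t | ∀ s u, s ⋖ u → u ≤ t → u ∈ Q s (f s)}

end defs

/-- the diamond principle of a tree -/
def Diamond (T : Type) [PartialOrder T] : Prop :=
  ∃ D : T → Set T, (∀ t, D t ⊆ Iio t) ∧ ∀ X : Set T, ¬ NS {t | X ∩ Iio t = D t}

/-- existence of a nice successor-partition -/
def HasNice (T : Type) [PartialOrder T] : Prop :=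
  ∃ Q : T → Bool → Set T, (∀ t, Disjoint (Q t false) (Q t true) ∧
    Q t false ∪ Q t true = {u | t ⋖ u}) ∧ ∀ f, ¬ Special (sub Q f)

theorem le_def {s t : SQ} : s ≤ t ↔ s.1 ⊆ t.1 ∧ ∀ a ∈ s.1, ∀ b ∈ t.1, b < a → b ∈ s.1 := Iff.rfl

/-- append a rational on top -/
def app (t : SQ) (q : ℚ) : SQ := ⟨insert q t.1, t.2.1.insert q, t.2.2.insert q⟩

theorem lt_app {t : SQ} {q : ℚ} (h : ∀ x ∈ t.1, x < q) : t < app t q := by
  refine lt_of_le_of_ne ⟨subset_insert _ _, ?_⟩ fun he => ?_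
  · rintro a ha b (rfl | hb) hba
    · exact absurd (h a ha) hba.not_gt
    · exact hb
  · have : q ∈ t.1 := by rw [he]; exact mem_insert _ _
    exact lt_irrefl _ (h q this)

theorem le_app {t u : SQ} {q : ℚ} (h : ∀ x ∈ t.1, x < q) (hu : u ≤ app t q) :
    u ≤ t ∨ u = app t q := by
  by_cases hq : q ∈ u.1
  · refine Or.inr (Subtype.ext (hu.1.antisymm ?_))
    rintro x (rfl | hx)
    · exact hq
    · exact hu.2 q hq x (Or.inr hx) (h x hx)
  · refine Or.inl ⟨fun x hx => (hu.1 hx).resolve_left (fun h' => hq (h' ▸ hx)),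
      fun a ha b hb hba => hu.2 a ha b (Or.inr hb) hba⟩

theorem cov_app {t : SQ} {q : ℚ} (h : ∀ x ∈ t.1, x < q) : t ⋖ app t q :=
  ⟨lt_app h, fun _ h1 h2 => (le_app h h2.le).elim h1.not_ge h2.ne⟩

theorem lt_form {s t : SQ} (h : s < t) : ∃ q ∈ t.1, s.1 = t.1 ∩ Iio q := by
  have hne : (t.1 \ s.1).Nonempty := by
    rw [diff_nonempty]
    exact fun h' => h.ne (Subtype.ext (h.le.1.antisymm h'))
  have hw : (t.1 \ s.1).IsWF := t.2.1.mono diff_subset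
  refine ⟨hw.min hne, (hw.min_mem hne).1, Subset.antisymm (fun x hx => ⟨h.le.1 hx, ?_⟩) ?_⟩
  · by_contra hc
    rcases (not_lt.1 (mt mem_Iio.2 hc)).eq_or_lt with h' | h'
    · exact (hw.min_mem hne).2 (h' ▸ hx)
    · exact (hw.min_mem hne).2 (h.le.2 x hx _ (hw.min_mem hne).1 h')
  · rintro x ⟨hx, hx'⟩
    by_contra hc
    exact hw.not_lt_min hne ⟨hx, hc⟩ hx'

theorem app_le {s t : SQ} (h : s < t) : ∃ q, (∀ x ∈ s.1, x < q) ∧ app s q ≤ t := by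
  obtain ⟨q, hq, hs⟩ := lt_form h
  refine ⟨q, fun x hx => (hs ▸ hx).2, insert_subset hq h.le.1, ?_⟩
  rintro a (rfl | ha) b hb hba
  · exact Or.inr (hs ▸ ⟨hb, hba⟩)
  · exact Or.inr (h.le.2 a ha b hb hba)

/-- rationals with denominator a power of three -/
def E : Set ℚ := {q | ∃ (n : ℕ) (m : ℤ), q = m / 3 ^ n}

theorem E_dense {a b : ℚ} (h : a < b) : ∃ q ∈ E, a < q ∧ q < b := by
  obtain ⟨n, hn⟩ := pow_unbounded_of_one_lt (1 / (b - a)) (show (1 : ℚ) < 3 by norm_num)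
  have h3 : (0 : ℚ) < 3 ^ n := by positivity
  rw [div_lt_iff₀ (sub_pos.2 h)] at hn
  refine ⟨_, ⟨n, ⌊a * 3 ^ n⌋ + 1, rfl⟩, ?_, ?_⟩
  · rw [lt_div_iff₀ h3]; push_cast; exact Int.lt_floor_add_one _
  · rw [div_lt_iff₀ h3]; push_cast; linarith [Int.floor_le (a * 3 ^ n)]

theorem E_codense {a b : ℚ} (h : a < b) : ∃ q ∉ E, a < q ∧ q < b := by
  obtain ⟨_, ⟨n, m, rfl⟩, h1, h2⟩ := E_dense (show a - 1 / 2 < b - 1 / 2 by linarith)
  refine ⟨m / 3 ^ n + 1 / 2, ?_, by linarith, by linarith⟩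
  rintro ⟨k, l, hl⟩
  field_simp at hl
  have h3 : (m * 2 + 3 ^ n) * 3 ^ k = 3 ^ n * 2 * l := by exact_mod_cast hl
  have h4 : Odd ((m * 2 + 3 ^ n) * 3 ^ k) :=
    (Even.add_odd (by simp) (Odd.pow (by decide))).mul (Odd.pow (by decide))
  rw [h3] at h4
  exact Int.not_even_iff_odd.2 h4 (by simp [Int.even_mul])

open Classical in
/-- the successor-partition -/
def Q (t : SQ) (i : Bool) : Set SQ :=
  {u | t ⋖ u ∧ decide (∃ q ∈ u.1, q ∈ E ∧ ∀ x ∈ u.1, x ≤ q) = i}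

/-- strictly bounded below `b` -/
def Bd (t : SQ) (b : ℚ) : Prop := ∃ c < b, ∀ x ∈ t.1, x ≤ c

theorem ext_step (f : SQ → Bool) {t : SQ} (ht : t ∈ sub Q f) {b : ℚ} (hb : Bd t b) :
    ∃ u b', u ∈ sub Q f ∧ t < u ∧ Bd u b' ∧ b' < b := by
  classical
  obtain ⟨c, hc, hb⟩ := hb
  obtain ⟨q, h1, h2, h3⟩ : ∃ q, c < q ∧ q < b ∧ decide (q ∈ E) = f t := by
    cases f t
    · obtain ⟨q, h1, h2, h3⟩ := E_codense hc
      exact ⟨q, h2, h3, by simpa using h1⟩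
    · obtain ⟨q, h1, h2, h3⟩ := E_dense hc
      exact ⟨q, h2, h3, by simpa using h1⟩
  have hq : ∀ x ∈ t.1, x < q := fun x hx => (hb x hx).trans_lt h1
  have hq' : ∀ x ∈ (app t q).1, x ≤ q := by
    rintro x (rfl | hx)
    · exact le_rfl
    · exact (hq x hx).le
  refine ⟨app t q, (q + b) / 2, fun s u hsu hu => ?_, lt_app hq, ⟨q, by linarith, hq'⟩,
    by linarith⟩
  rcases le_app hq hu with h | rfl
  · exact ht s u hsu h
  · have : s = t := by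
      rcases le_app hq hsu.le with h | h
      · exact h.eq_or_lt.resolve_right fun h' => hsu.2 h' (lt_app hq)
      · exact absurd h hsu.ne
    subst this
    refine ⟨hsu, ?_⟩
    rw [← h3, decide_eq_decide]
    exact ⟨fun ⟨p, hp, hp1, hp2⟩ => (hq' p hp).antisymm (hp2 q (mem_insert _ _)) ▸ hp1,
      fun h => ⟨q, mem_insert _ _, h, hq'⟩⟩

theorem key (f : SQ → Bool) (A : Set ℚ → ℕ → Set SQ) (hA : ∀ s n, IsAntichain (· ≤ ·) (A s n)) :
    ∃ t ∈ sub Q f, ¬ IsMin t ∧ ∀ s < t, ∀ n, t ∉ A s.1 n := by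
  classical
  have step : ∀ (B : Set SQ) (p : {p : SQ × ℚ // p.1 ∈ sub Q f ∧ Bd p.1 p.2}),
      ∃ p' : {p : SQ × ℚ // p.1 ∈ sub Q f ∧ Bd p.1 p.2}, p.1.1 < p'.1.1 ∧ p'.1.2 < p.1.2 ∧
        ∀ u ∈ B, u ∈ sub Q f → p.1.1 ≤ u → Bd u p.1.2 → ∃ u' ∈ B, u' < p'.1.1 := by
    rintro B ⟨⟨t, b⟩, ht, hb⟩
    by_cases h : ∃ u ∈ B, u ∈ sub Q f ∧ t ≤ u ∧ Bd u b
    · obtain ⟨u, h1, h2, h3, h4⟩ := h
      obtain ⟨v, b', h5, h6, h7, h8⟩ := ext_step f h2 h4
      exact ⟨⟨(v, b'), h5, h7⟩, h3.trans_lt h6, h8, fun _ _ _ _ _ => ⟨u, h1, h6⟩⟩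
    · obtain ⟨v, b', h5, h6, h7, h8⟩ := ext_step f ht hb
      exact ⟨⟨(v, b'), h5, h7⟩, h6, h8, fun u h1 h2 h3 h4 => absurd ⟨u, h1, h2, h3, h4⟩ h⟩
  choose G hG1 hG2 hG3 using step
  obtain ⟨e, he⟩ := exists_surjective_nat (ℚ × ℕ × ℕ)
  let r : SQ := ⟨∅, isWF_empty, bddAbove_empty⟩
  have hr : r ∈ sub Q f := fun s u hsu hu => by
    obtain ⟨q, hq, -⟩ := lt_form (hsu.lt.trans_le hu)
    exact absurd hq (notMem_empty q)
  let p : ℕ → {p : SQ × ℚ // p.1 ∈ sub Q f ∧ Bd p.1 p.2} := fun k =>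
    Nat.rec ⟨(r, 1), hr, 0, one_pos, fun _ h => absurd h (notMem_empty _)⟩
      (fun k p => G (A (p.1.1.1 ∩ Iio (e k).1) (e k).2.1) p) k
  have h1 : StrictMono fun k => (p k).1.1 := strictMono_nat_of_lt_succ fun k => hG1 _ _
  have h2 : StrictAnti fun k => (p k).1.2 := strictAnti_nat_of_succ_lt fun k => hG2 _ _
  have h3 : ∀ j k, ∀ x ∈ (p j).1.1.1, x ≤ (p k).1.2 := by
    intro j k x hx
    obtain ⟨c, hc, hc'⟩ := (p (max j k)).2.2
    exact (hc' x ((h1.monotone (le_max_left j k)).1 hx)).trans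
      (hc.le.trans (h2.antitone (le_max_right j k)))
  have h4 : ∀ j k, ∀ a ∈ (p j).1.1.1, ∀ b ∈ (p k).1.1.1, b < a → b ∈ (p j).1.1.1 :=
    fun j k a ha b hb hba => (h1.monotone (le_max_left j k)).2 a ha b
      ((h1.monotone (le_max_right j k)).1 hb) hba
  let t : SQ := ⟨⋃ k, (p k).1.1.1, by
    rw [isWF_iff_no_descending_seq]
    intro g hg hm
    obtain ⟨j, hj⟩ := mem_iUnion.1 (hm 0)
    refine isWF_iff_no_descending_seq.1 (p j).1.1.2.1 g hg fun n => ?_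
    obtain ⟨k, hk⟩ := mem_iUnion.1 (hm n)
    rcases Nat.eq_zero_or_pos n with rfl | hn
    · exact hj
    · exact h4 j k _ hj _ hk (hg hn), ⟨1, fun x hx => by
    obtain ⟨k, hk⟩ := mem_iUnion.1 hx
    exact h3 k 0 x hk⟩⟩
  have h5 : ∀ k, (p k).1.1 < t := fun k => (h1 (Nat.lt_succ_self k)).trans_le
    ⟨subset_iUnion (fun k => (p k).1.1.1) (k + 1), fun a ha b hb hba => by
      obtain ⟨j, hj⟩ := mem_iUnion.1 hb
      exact h4 (k + 1) j a ha b hj hba⟩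
  have h6 : ∀ s < t, ∃ q j, ∀ k ≥ j, s.1 = (p k).1.1.1 ∩ Iio q ∧ s ≤ (p k).1.1 := by
    intro s hs
    obtain ⟨q, hq, hs'⟩ := lt_form hs
    obtain ⟨j, hj⟩ := mem_iUnion.1 hq
    have : ∀ k ≥ j, s.1 = (p k).1.1.1 ∩ Iio q := fun k hk => by
      rw [hs']
      exact Subset.antisymm (fun x hx => ⟨(h5 k).le.2 q ((h1.monotone hk).1 hj) x hx.1 hx.2, hx.2⟩)
        fun x hx => ⟨(h5 k).le.1 hx.1, hx.2⟩
    refine ⟨q, j, fun k hk => ⟨this k hk, ?_⟩⟩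
    rw [le_def, this k hk]
    exact ⟨inter_subset_left, fun a ha b hb hba => ⟨hb, hba.trans ha.2⟩⟩
  have h7 : t ∈ sub Q f := by
    intro s u hsu hu
    rcases hu.eq_or_lt with rfl | hu
    · obtain ⟨q, j, hj⟩ := h6 s hsu.lt
      exact absurd (h5 (j + 1)) (hsu.2 ((hj j le_rfl).2.trans_lt (h1 (Nat.lt_succ_self j))))
    · obtain ⟨q, j, hj⟩ := h6 u hu
      exact (p j).2.1 s u hsu (hj j le_rfl).2
  refine ⟨t, h7, not_isMin_of_lt (h5 0), fun s hs n hn => ?_⟩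
  obtain ⟨q, j, hj⟩ := h6 s hs
  obtain ⟨k, hk, hk1, hk2⟩ : ∃ k ≥ j, (e k).1 = q ∧ (e k).2.1 = n := by
    by_contra hc
    push Not at hc
    choose g hg using fun m => he (q, n, m)
    have hinj : Function.Injective g := fun a b hab => by
      have := (hg a).symm.trans (hab ▸ hg b)
      simpa using this
    refine infinite_range_of_injective hinj ((finite_lt_nat j).subset ?_)
    rintro _ ⟨m, rfl⟩
    by_contra h
    exact hc (g m) (not_lt.1 h) (by rw [hg]) (by rw [hg])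
  obtain ⟨u, hu, hu'⟩ := hG3 (A ((p k).1.1.1 ∩ Iio (e k).1) (e k).2.1) (p k) t
    (by rw [hk1, hk2, ← (hj k hk).1]; exact hn) h7 (h5 k).le
    ⟨(p (k + 1)).1.2, h2 (Nat.lt_succ_self k), fun x hx => by
      obtain ⟨i, hi⟩ := mem_iUnion.1 hx
      exact h3 i (k + 1) x hi⟩
  rw [hk1, hk2, ← (hj k hk).1] at hu
  have := hu'.trans (h5 (k + 1))
  exact hA s.1 n hu hn this.ne this.le

theorem both : HasNice SQ ∧ Diamond SQ := by
  classical
  refine ⟨⟨Q, fun t => ⟨?_, ?_⟩, fun f ⟨A, hA, hS⟩ => ?_⟩,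
    fun t => {s | s < t ∧ ∃ u ≤ t, u ∈ Q s true}, fun t s hs => hs.1, fun X ⟨g, hg, hS⟩ => ?_⟩
  · rw [Set.disjoint_left]
    intro u h1 h2
    exact Bool.false_ne_true (h1.2.symm.trans h2.2)
  · ext u
    simp only [Q, mem_union, mem_setOf_eq]
    cases decide (∃ q ∈ u.1, q ∈ E ∧ ∀ x ∈ u.1, x ≤ q) <;> simp
  · obtain ⟨t, ht, h1, h2⟩ := key f (fun _ => A) fun _ => hA
    obtain ⟨s, hs⟩ := not_isMin_iff.1 h1
    rw [hS] at ht
    obtain ⟨n, hn⟩ := mem_iUnion.1 ht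
    exact h2 s hs n hn
  · choose A hA hS using hS
    obtain ⟨t, ht, h1, h2⟩ := key (fun s => decide (s ∈ X))
      (fun s n => if h : s.IsWF ∧ BddAbove s then A ⟨s, h⟩ n else ∅) fun s n => by
        split_ifs
        · exact hA _ _
        · exact Set.pairwise_empty _
    have h3 : X ∩ Iio t = {s | s < t ∧ ∃ u ≤ t, u ∈ Q s true} := by
      ext s
      constructor
      · rintro ⟨h4, h5⟩
        obtain ⟨q, h6, h7⟩ := app_le h5
        exact ⟨h5, _, h7, by simpa [h4] using ht s _ (cov_app h6) h7⟩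
      · rintro ⟨h4, u, h5, h6⟩
        exact ⟨by simpa using ((ht s u h6.1 h5).2.symm.trans h6.2), h4⟩
    have h4 : t ∈ ⋃ n, A (g t) n := by rw [← hS]; exact ⟨h3, rfl⟩
    obtain ⟨n, hn⟩ := mem_iUnion.1 h4
    refine h2 (g t) (hg t h3 h1) n ?_
    rw [dif_pos (g t).2]
    exact hn

end Pool.Agent.H83.SigQ
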