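import Mathlib

/-!
Trees branching along an ultrafilter on `ℕ`: the closure `Cl U S` of a set `S` of nodes, and the
analysis of a monotone functional `Φ` on nodes.
-/

set_option autoImplicit false

namespace Pool.Agent.H83.Soc

open Filter Set

variable (U : Ultrafilter ℕ)

inductive ClR (S : List ℕ → Prop) : Ordinal.{0} → List ℕ → Prop
  | base {α : Ordinal.{0}} {F : List ℕ} : S F → ClR S α F
  | step {α : Ordinal.{0}} {F : List ℕ} (A : Set ℕ) (β : ℕ → Ordinal.{0}) : A ∈ U →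
      (∀ y ∈ A, β y < α) → (∀ y ∈ A, ClR S (β y) (y :: F)) → ClR S α F

/-- every tree with root `F` branching along `U` meets `S` -/
def Cl (S : List ℕ → Prop) (F : List ℕ) : Prop := ∃ α, ClR U S α F

/-- successors of smaller rank -/
def W (S : List ℕ → Prop) (F : List ℕ) : Set ℕ :=
  {y | ∃ β, ClR U S β (y :: F) ∧ ∀ α, ClR U S α F → β < α}

variable {U}

theorem Cl.base {S : List ℕ → Prop} {F : List ℕ} (h : S F) : Cl U S F := ⟨0, .base h⟩

theorem Cl.step {S : List ℕ → Prop} {F : List ℕ} (h : ∀ᶠ y in (U : Filter ℕ), Cl U S (y :: F)) :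
    Cl U S F := by
  classical
  have : ∀ y, ∃ β, Cl U S (y :: F) → ClR U S β (y :: F) := fun y => by
    by_cases hy : Cl U S (y :: F)
    · obtain ⟨β, hβ⟩ := hy; exact ⟨β, fun _ => hβ⟩
    · exact ⟨0, fun h => absurd h hy⟩
  choose β hβ using this
  exact ⟨⨆ y, Order.succ (β y), .step {y | Cl U S (y :: F)} β h
    (fun y _ => Ordinal.lt_iSup_add_one β y) fun y hy => hβ y hy⟩

theorem Cl.ind {S P : List ℕ → Prop} (h1 : ∀ F, S F → P F)
    (h2 : ∀ F, (∀ᶠ y in (U : Filter ℕ), P (y :: F)) → P F) {F : List ℕ} (h : Cl U S F) : P F := by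
  obtain ⟨α, h⟩ := h
  induction h with
  | base h => exact h1 _ h
  | step A β hA _ _ ih => exact h2 _ (mem_of_superset hA ih)

theorem Cl.cases {S : List ℕ → Prop} {F : List ℕ} (h : Cl U S F) :
    S F ∨ ∀ᶠ y in (U : Filter ℕ), Cl U S (y :: F) := by
  obtain ⟨α, h⟩ := h
  cases h with
  | base h => exact Or.inl h
  | step A β hA _ h => exact Or.inr (mem_of_superset hA fun y hy => ⟨_, h y hy⟩)

theorem not_cl_step {S : List ℕ → Prop} {F : List ℕ} (h : ¬ Cl U S F) :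
    ∀ᶠ y in (U : Filter ℕ), ¬ Cl U S (y :: F) :=
  Ultrafilter.eventually_not.2 fun h' => h (Cl.step h')

theorem W_mem {S : List ℕ → Prop} {F : List ℕ} (h : Cl U S F) (hS : ¬ S F) : W U S F ∈ U := by
  obtain ⟨α, hα, hmin⟩ := WellFounded.has_min wellFounded_lt {α | ClR U S α F} h
  cases hα with
  | base h => exact absurd h hS
  | step A β hA h1 h2 =>
    exact mem_of_superset hA fun y hy => ⟨β y, h2 y hy, fun α' h' =>
      (h1 y hy).trans_le (not_lt.1 (hmin α' h'))⟩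

theorem Cl.reach {S P : List ℕ → Prop} (h1 : ∀ F, S F → P F)
    (h2 : ∀ F, Cl U S F → ¬ S F → (∀ y ∈ W U S F, P (y :: F)) → P F) {F : List ℕ}
    (h : Cl U S F) : P F := by
  obtain ⟨α, h⟩ := h
  induction α using WellFoundedLT.induction generalizing F with
  | ind α ih =>
    by_cases hS : S F
    · exact h1 F hS
    · exact h2 F ⟨α, h⟩ hS fun y ⟨β, hβ, hlt⟩ => ih β (hlt α h) hβ

theorem Cl.mono {S S' : List ℕ → Prop} {F : List ℕ} (h : Cl U S F)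
    (hS : ∀ G, F <:+ G → S G → S' G) : Cl U S' F := by
  refine Cl.ind (P := fun F => (∀ G, F <:+ G → S G → S' G) → Cl U S' F) ?_ ?_ h hS
  · intro F hF H; exact Cl.base (H F List.suffix_rfl hF)
  · intro F hF H
    exact Cl.step (hF.mono fun y hy => hy fun G hG => H G ((List.suffix_cons y F).trans hG))

theorem Cl.hit {S T : List ℕ → Prop} (hT : ∀ F, T F → ∀ᶠ y in (U : Filter ℕ), T (y :: F))
    {F : List ℕ} (h : Cl U S F) (hF : T F) : ∃ G, T G ∧ S G := by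
  refine Cl.ind (P := fun F => T F → ∃ G, T G ∧ S G) ?_ ?_ h hF
  · intro F hF H; exact ⟨F, H, hF⟩
  · intro F hF H
    obtain ⟨y, h1, h2⟩ := (hF.and (hT F H)).exists
    exact h1 h2

theorem suf_mono {S : List ℕ → Prop} (hS : ∀ F y, S F → S (y :: F)) {F G : List ℕ}
    (h : F <:+ G) (hF : S F) : S G := by
  obtain ⟨P, rfl⟩ := h
  induction P with
  | nil => exact hF
  | cons y P ih => exact hS _ _ ih

theorem Cl.next {S : List ℕ → Prop} (hS : ∀ F y, S F → S (y :: F)) {F : List ℕ}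
    (h : Cl U S F) : ∀ᶠ y in (U : Filter ℕ), Cl U S (y :: F) := by
  rcases h.cases with h | h
  · exact Eventually.of_forall fun y => Cl.base (hS _ _ h)
  · exact h

theorem Cl.and {S S' : List ℕ → Prop} (hS : ∀ F y, S F → S (y :: F))
    (hS' : ∀ F y, S' F → S' (y :: F)) {F : List ℕ} (h : Cl U S F) (h' : Cl U S' F) :
    Cl U (fun G => S G ∧ S' G) F := by
  refine Cl.ind (P := fun F => Cl U S' F → Cl U (fun G => S G ∧ S' G) F) ?_ ?_ h h'
  · intro F hF H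
    exact H.mono fun G hG h => ⟨suf_mono hS hG hF, h⟩
  · intro F hF H
    exact Cl.step ((hF.and (H.next hS')).mono fun y hy => hy.1 hy.2)

section analysis

variable (U) (Φ : List ℕ → Set ℕ)

/-- outputs that are forced at a node -/
def Pl (F : List ℕ) : Set ℕ := {a | Cl U (fun G => a ∈ Φ G) F}

/-- an output above `b` -/
def Big (b : ℕ) (G : List ℕ) : Prop := ∃ a, b < a ∧ a ∈ Φ G

def Fn (F : List ℕ) : Prop := ∃ b, ¬ Cl U (Big Φ b) F

def SE (θ : ℕ → ℕ) (F G : List ℕ) : Prop := ∃ z ∈ G, z ∉ F ∧ θ z ∈ Φ G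

def Jmp (F : List ℕ) : Prop := ∀ b, ∀ᶠ x in (U : Filter ℕ), ∃ a, b < a ∧ a ∈ Pl U Φ (x :: F)

variable {ι : Type} (θ : ι → ℕ → ℕ)

def En (F : List ℕ) : Set ι := {i | Cl U (SE Φ (θ i) F) F}

def Good (F : List ℕ) : Prop := ∀ D : Finset (ℕ × ι), ∀ᶠ x in (U : Filter ℕ),
  ∃ κ : ℕ × ι, (κ.1 ∈ Pl U Φ (x :: F) ∧ κ.2 ∈ En U Φ θ (x :: F)) ∧ κ ∉ D

variable {U Φ θ}

theorem pl_iff (hΦ : ∀ F y, Φ F ⊆ Φ (y :: F)) {F : List ℕ} {a : ℕ} :
    a ∈ Pl U Φ F ↔ ∀ᶠ x in (U : Filter ℕ), a ∈ Pl U Φ (x :: F) :=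
  ⟨fun h => Cl.next (fun G y h => hΦ G y h) h, fun h => Cl.step h⟩

theorem exists_th (hU : (U : Filter ℕ) ≤ atTop) {F : List ℕ} (h : Jmp U Φ F) :
    ∃ t : ℕ → ℕ, Tendsto t U atTop ∧ ∀ᶠ x in (U : Filter ℕ), t x ∈ Pl U Φ (x :: F) := by
  have : ∀ x, ∃ a, ((Pl U Φ (x :: F)).Nonempty → a ∈ Pl U Φ (x :: F)) ∧
      ∀ a' ∈ Pl U Φ (x :: F), min a' x ≤ a := by
    intro x
    by_cases hf : (Pl U Φ (x :: F)).Finite
    · rcases (Pl U Φ (x :: F)).eq_empty_or_nonempty with he | hne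
      · exact ⟨0, by simp [he], by simp [he]⟩
      · obtain ⟨a, ha, hm⟩ := Set.exists_max_image _ id hf hne
        exact ⟨a, fun _ => ha, fun a' h' => (min_le_left _ _).trans (hm a' h')⟩
    · obtain ⟨a, ha, hx⟩ := Set.Infinite.exists_gt hf x
      exact ⟨a, fun _ => ha, fun a' _ => (min_le_right _ _).trans hx.le⟩
  choose t h1 h2 using this
  refine ⟨t, tendsto_atTop.2 fun b => ?_, (h 0).mono fun x ⟨a, _, ha⟩ => h1 x ⟨a, ha⟩⟩
  filter_upwards [h b, hU (eventually_ge_atTop b)] with x ⟨a, hb, ha⟩ hx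
  exact (le_min hb.le hx).trans (h2 x a ha)

theorem cl_jmp (hΦ : ∀ F y, Φ F ⊆ Φ (y :: F)) {F : List ℕ} (h : ¬ Fn U Φ F) :
    Cl U (Jmp U Φ) F := by
  by_contra hc
  have key : ∀ G, ¬ Cl U (Jmp U Φ) G → (Pl U Φ G).Finite ∧
      ∀ᶠ x in (U : Filter ℕ), Pl U Φ (x :: G) = Pl U Φ G := by
    intro G hG
    have h1 : ¬ Jmp U Φ G := fun h => hG (Cl.base h)
    obtain ⟨b, hb⟩ := not_forall.1 h1
    have hb' := Ultrafilter.eventually_not.2 hb
    have h2 : ∀ᶠ x in (U : Filter ℕ), ∀ a ∈ Set.Iic b, (a ∈ Pl U Φ (x :: G) ↔ a ∈ Pl U Φ G) := by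
      refine (eventually_all_finite (Set.finite_Iic b)).2 fun a _ => ?_
      by_cases ha : a ∈ Pl U Φ G
      · exact ((pl_iff hΦ).1 ha).mono fun x hx => iff_of_true hx ha
      · exact (Ultrafilter.eventually_not.2 fun h => ha ((pl_iff hΦ).2 h)).mono fun x hx =>
          iff_of_false hx ha
    have h3 : Pl U Φ G ⊆ Set.Iic b := fun a ha => by
      obtain ⟨x, h1, h2⟩ := (((pl_iff hΦ).1 ha).and hb').exists
      by_contra hab
      exact h2 ⟨a, not_le.1 hab, h1⟩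
    refine ⟨(Set.finite_Iic b).subset h3, ?_⟩
    filter_upwards [h2, hb'] with x hx hx'
    ext a
    by_cases hab : a ≤ b
    · exact hx a hab
    · exact iff_of_false (fun h => hx' ⟨a, not_le.1 hab, h⟩) fun h => hab (h3 h)
  obtain ⟨b, hb⟩ := (key F hc).1.bddAbove
  refine h ⟨b, fun hcl => ?_⟩
  obtain ⟨G, ⟨-, h2⟩, a, hba, ha⟩ := Cl.hit
    (T := fun G => ¬ Cl U (Jmp U Φ) G ∧ Pl U Φ G = Pl U Φ F)
    (fun G ⟨h1, h2⟩ => ((not_cl_step h1).and (key G h1).2).mono fun x hx => ⟨hx.1, hx.2.trans h2⟩)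
    hcl ⟨hc, rfl⟩
  have : a ∈ Pl U Φ G := Cl.base ha
  rw [h2] at this
  exact absurd (hb this) (not_le.2 hba)

theorem cl_good (hU : (U : Filter ℕ) ≤ atTop) (hΦ : ∀ F y, Φ F ⊆ Φ (y :: F))
    (hθ : ∀ F, Jmp U Φ F → ∃ i, ∀ᶠ x in (U : Filter ℕ), θ i x ∈ Pl U Φ (x :: F)) (F : List ℕ) :
    Cl U (fun G => Fn U Φ G ∨ Good U Φ θ G) F := by
  classical
  by_contra hc
  set T : List ℕ → Prop := fun G => ¬ Cl U (fun G => Fn U Φ G ∨ Good U Φ θ G) G with hT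
  have T1 : ∀ G, T G → Cl U (Jmp U Φ) G := fun G h => cl_jmp hΦ fun h' => h (Cl.base (Or.inl h'))
  have T2 : ∀ G, T G → ∃ D : Finset (ℕ × ι), ∀ᶠ x in (U : Filter ℕ),
      ∀ a ∈ Pl U Φ (x :: G), ∀ i ∈ En U Φ θ (x :: G), (a, i) ∈ D := by
    intro G h
    obtain ⟨D, hD⟩ := not_forall.1 fun h' : Good U Φ θ G => h (Cl.base (Or.inr h'))
    refine ⟨D, (Ultrafilter.eventually_not.2 hD).mono fun x hx a ha i hi => ?_⟩
    by_contra hn
    exact hx ⟨(a, i), ⟨ha, hi⟩, hn⟩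
  have T3 : ∀ G, T G → ∀ᶠ x in (U : Filter ℕ), T (x :: G) := fun G h => not_cl_step h
  obtain ⟨G1, h1, j1⟩ := Cl.hit T3 (T1 F hc) hc
  obtain ⟨D1, hD1⟩ := T2 G1 h1
  obtain ⟨x, ⟨h2, hx⟩, a0, ha0, hP⟩ := (((T3 G1 h1).and hD1).and (j1 (D1.sup Prod.fst))).exists
  have hE : En U Φ θ (x :: G1) = ∅ := by
    refine Set.eq_empty_of_forall_notMem fun i hi => ?_
    exact absurd (Finset.le_sup (f := Prod.fst) (hx a0 hP i hi)) (not_le.2 ha0)
  obtain ⟨G3, ⟨-, -, h3⟩, j3⟩ := Cl.hit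
    (T := fun G => T G ∧ a0 ∈ Pl U Φ G ∧ En U Φ θ G = ∅) (by
      rintro G ⟨g1, g2, g3⟩
      obtain ⟨D, hD⟩ := T2 G g1
      have g4 : ∀ᶠ y in (U : Filter ℕ), ∀ κ ∈ D, κ.2 ∉ En U Φ θ (y :: G) := by
        refine (Finset.eventually_all D).2 fun κ _ => Ultrafilter.eventually_not.2 fun h => ?_
        have : κ.2 ∈ En U Φ θ G := Cl.step (h.mono fun y hy => Cl.mono hy
          fun G' _ ⟨z, z1, z2, z3⟩ => ⟨z, z1, fun h => z2 (List.mem_cons_of_mem _ h), z3⟩)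
        rw [g3] at this; exact this
      filter_upwards [T3 G g1, (pl_iff hΦ).1 g2, hD, g4] with y y1 y2 y3 y4
      exact ⟨y1, y2, Set.eq_empty_of_forall_notMem fun i hi => y4 _ (y3 a0 y2 i hi) hi⟩)
    (T1 _ h2) ⟨h2, hP, hE⟩
  obtain ⟨i, hi⟩ := hθ G3 j3
  have hn : ∀ᶠ y in (U : Filter ℕ), y ∉ G3 := by
    refine hU ?_
    rw [← Nat.cofinite_eq_atTop]
    exact G3.finite_toSet.eventually_cofinite_notMem
  have : i ∈ En U Φ θ G3 := Cl.step ((hi.and hn).mono fun y hy => Cl.mono hy.1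
    fun G' hG h => ⟨y, hG.subset (List.mem_cons_self), hy.2, h⟩)
  rw [h3] at this; exact this

end analysis

end Pool.Agent.H83.Soc
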