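import Pool.Agent.H83.Soc1

/-!
A generic colouring of pairs with three colours, the ideal of sets whose types are nowhere dense,
and the construction of a homogeneous set defeating countably many monotone functionals.
-/

set_option autoImplicit false

namespace Pool.Agent.H83.Soc

open Filter Set

theorem exists_generic (U : Ultrafilter ℕ) {ι : Type} [Countable ι] (θ : ι → ℕ → ℕ)
    (ht : ∀ i, Tendsto (θ i) U atTop) (hd : ∀ i j, i ≠ j → ∀ᶠ x in (U : Filter ℕ), θ i x ≠ θ j x)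
    (𝓕 : Filter ℕ) [𝓕.IsCountablyGenerated] (hF : (U : Filter ℕ) ≤ 𝓕) :
    ∃ f : ℕ → ℕ → Fin 3, ∀ (D : Finset (ℕ × ι)) (c : ℕ × ι → Fin 3), ∀ B ∈ 𝓕,
      ∃ y ∈ B, ∀ κ ∈ D, f κ.1 (θ κ.2 y) = c κ := by
  classical
  obtain ⟨A, hA⟩ := 𝓕.exists_antitone_basis
  let O : (Σ D : Finset (ℕ × ι), (D → Fin 3)) × ℕ → Set (ℕ × ℕ → Fin 3) := fun r =>
    {f | ∃ y ∈ A r.2, ∀ κ : r.1.1, f (κ.1.1, θ κ.1.2 y) = r.1.2 κ}
  have ho : ∀ r, IsOpen (O r) := by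
    intro r
    have : O r = ⋃ y ∈ A r.2, ⋂ κ : r.1.1, (fun f : ℕ × ℕ → Fin 3 => f (κ.1.1, θ κ.1.2 y)) ⁻¹'
        {r.1.2 κ} := by
      ext f; simp [O]
    rw [this]
    exact isOpen_biUnion fun y _ => isOpen_iInter_of_finite fun κ =>
      (isOpen_discrete _).preimage (continuous_apply _)
  have hden : ∀ r, Dense (O r) := by
    rintro ⟨⟨D, c⟩, n⟩
    refine dense_iff_inter_open.2 fun V hV ⟨f0, hf0⟩ => ?_
    obtain ⟨I, u, hu, hI⟩ := isOpen_pi_iff.1 hV f0 hf0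
    have e1 : ∀ᶠ y in (U : Filter ℕ), ∀ κ : D, I.sup Prod.snd < θ κ.1.2 y :=
      eventually_all.2 fun κ => (ht κ.1.2).eventually (eventually_gt_atTop _)
    have e2 : ∀ᶠ y in (U : Filter ℕ), ∀ κ κ' : D, κ.1.2 ≠ κ'.1.2 → θ κ.1.2 y ≠ θ κ'.1.2 y :=
      eventually_all.2 fun κ => eventually_all.2 fun κ' => by
        by_cases h : κ.1.2 = κ'.1.2
        · exact Eventually.of_forall fun _ h' => absurd h h'
        · exact (hd _ _ h).mono fun _ h' _ => h'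
    obtain ⟨y, ⟨y1, y2⟩, y3⟩ := ((e1.and e2).and (hF (hA.mem n))).exists
    have hinj : Function.Injective fun κ : D => (κ.1.1, θ κ.1.2 y) := by
      intro κ κ' h
      simp only [Prod.mk.injEq] at h
      refine Subtype.ext (Prod.ext h.1 ?_)
      by_contra hn
      exact y2 κ κ' hn h.2
    refine ⟨Function.extend (fun κ : D => (κ.1.1, θ κ.1.2 y)) c f0, hI fun i hi => ?_,
      y, y3, fun κ => hinj.extend_apply c f0 κ⟩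
    rw [Function.extend_apply' _ _ _ ?_]
    · exact (hu i hi).2
    · rintro ⟨κ, rfl⟩
      exact absurd (Finset.le_sup (f := Prod.snd) hi) (not_le.2 (y1 κ))
  obtain ⟨f, hf⟩ := (dense_iInter_of_isOpen ho hden).nonempty
  refine ⟨fun a b => f (a, b), fun D c B hB => ?_⟩
  obtain ⟨n, hn⟩ := hA.mem_iff.1 hB
  obtain ⟨y, y1, y2⟩ := mem_iInter.1 hf (⟨D, fun κ => c κ⟩, n)
  exact ⟨y, hn y1, fun κ hκ => y2 ⟨κ, hκ⟩⟩

section pos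

variable {K : Type} (𝓕 : Filter ℕ) (t : ℕ → K → Fin 3)

def Den (X : Set ℕ) (D : Finset K) (c : K → Fin 3) : Prop :=
  ∀ (D' : Finset K) (c' : K → Fin 3), (∀ κ ∈ D, c' κ = c κ) → ∀ B ∈ 𝓕,
    ∃ y ∈ X, y ∈ B ∧ ∀ κ ∈ D', t y κ = c' κ

def Pos (X : Set ℕ) : Prop := ∃ D c, Den 𝓕 t X D c

def Fresh (R : ℕ → Set K) : Prop := ∀ D : Finset K, {x | ∃ κ ∈ R x, κ ∉ D} ∈ 𝓕

def Win (g : ℕ → ℕ → Fin 2) (d : Fin 2) (X : Set ℕ) : Prop :=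
  ∀ Y ⊆ X, Pos 𝓕 t Y → ∀ R, Fresh 𝓕 R → ∀ c, ∃ x ∈ Y, ∃ κ ∈ R x,
    Pos 𝓕 t (Y ∩ {y | g x y = d ∧ t y κ ≠ c})

variable {𝓕 t}

theorem Pos.mono {X Y : Set ℕ} (h : Pos 𝓕 t X) (hXY : X ⊆ Y) : Pos 𝓕 t Y := by
  obtain ⟨D, c, h⟩ := h
  refine ⟨D, c, fun D' c' h1 B hB => ?_⟩
  obtain ⟨y, y1, y2⟩ := h D' c' h1 B hB
  exact ⟨y, hXY y1, y2⟩

theorem Pos.inter {X B : Set ℕ} (h : Pos 𝓕 t X) (hB : B ∈ 𝓕) : Pos 𝓕 t (X ∩ B) := by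
  obtain ⟨D, c, h⟩ := h
  refine ⟨D, c, fun D' c' h1 B' hB' => ?_⟩
  obtain ⟨y, y1, y2, y3⟩ := h D' c' h1 _ (inter_mem hB hB')
  exact ⟨y, ⟨y1, y2.1⟩, y2.2, y3⟩

theorem Pos.union {X Y : Set ℕ} (h : Pos 𝓕 t (X ∪ Y)) : Pos 𝓕 t X ∨ Pos 𝓕 t Y := by
  classical
  obtain ⟨D, c, h⟩ := h
  by_cases hX : Den 𝓕 t X D c
  · exact Or.inl ⟨D, c, hX⟩
  right
  unfold Den at hX
  push Not at hX
  obtain ⟨D1, c1, h1, B1, hB1, h2⟩ := hX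
  refine ⟨D ∪ D1, c1, fun D' c' h3 B hB => ?_⟩
  obtain ⟨y, y1, y2, y3⟩ := h (D' ∪ D1) c'
    (fun κ hκ => (h3 κ (Finset.mem_union_left _ hκ)).trans (h1 κ hκ)) _ (inter_mem hB hB1)
  rcases y1 with y1 | y1
  · obtain ⟨κ, k1, k2⟩ := h2 y y1 y2.2
    exact absurd ((y3 κ (Finset.mem_union_right _ k1)).trans
      (h3 κ (Finset.mem_union_right _ k1))) k2
  · exact ⟨y, y1, y2.1, fun κ hκ => y3 κ (Finset.mem_union_left _ hκ)⟩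

theorem Den.restrict {X : Set ℕ} {D : Finset K} {c : K → Fin 3} (h : Den 𝓕 t X D c) {κ κ' : K}
    (hκ : κ ∉ D) (hκ' : κ' ∉ D) (v : Fin 3) : Pos 𝓕 t (X ∩ {y | t y κ = v ∧ t y κ' = v}) := by
  classical
  refine ⟨insert κ (insert κ' D), fun k => if k ∈ D then c k else v, fun D' c' h1 B hB => ?_⟩
  obtain ⟨y, y1, y2, y3⟩ := h (insert κ (insert κ' D')) c' (fun k hk => by
    rw [h1 k (by simp [hk])]; simp [hk]) B hB
  refine ⟨y, ⟨y1, ?_, ?_⟩, y2, fun k hk => y3 k (by simp [hk])⟩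
  · rw [y3 κ (by simp), h1 κ (by simp)]; simp [hκ]
  · rw [y3 κ' (by simp), h1 κ' (by simp)]; simp [hκ']

theorem exists_win (h0 : Pos 𝓕 t univ) (g : ℕ → ℕ → Fin 2) :
    ∃ d X, Pos 𝓕 t X ∧ Win 𝓕 t g d X := by
  by_contra hc
  push Not at hc
  have h1 := hc 0 univ h0
  unfold Win at h1
  push Not at h1
  obtain ⟨Y0, -, p0, R0, f0, c0, n0⟩ := h1
  have h2 := hc 1 Y0 p0
  unfold Win at h2
  push Not at h2
  obtain ⟨Y1, s1, ⟨D, c, p1⟩, R1, f1, c1, n1⟩ := h2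
  obtain ⟨x, x1, ⟨⟨κ0, k0, k0'⟩, κ1, k1, k1'⟩, -⟩ :=
    p1 ∅ c (fun _ _ => rfl) _ (inter_mem (f0 D) (f1 D))
  obtain ⟨v, v0, v1⟩ : ∃ v : Fin 3, v ≠ c0 ∧ v ≠ c1 :=
    (by decide : ∀ a b : Fin 3, ∃ v : Fin 3, v ≠ a ∧ v ≠ b) c0 c1
  have := (p1.restrict k0' k1' v).mono (Y := (Y0 ∩ {y | g x y = 0 ∧ t y κ0 ≠ c0}) ∪
      (Y1 ∩ {y | g x y = 1 ∧ t y κ1 ≠ c1})) (by
    rintro y ⟨y1, y2, y3⟩
    have : g x y = 0 ∨ g x y = 1 := by generalize g x y = w; revert w; decide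
    rcases this with h | h
    · exact Or.inl ⟨s1 y1, h, by rw [y2]; exact v0⟩
    · exact Or.inr ⟨y1, h, by rw [y3]; exact v1⟩)
  rcases this.union with h | h
  · exact n0 x (s1 x1) κ0 k0 h
  · exact n1 x x1 κ1 k1 h

end pos

end Pool.Agent.H83.Soc
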