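import Pool.Agent.H83.Soc2
import Pool.Agent.H37.NF

/-!
There is a 3-colouring `f` of pairs such that every 2-colouring of pairs has an infinite
homogeneous set computing no infinite `f`-homogeneous set.
-/

set_option autoImplicit false

namespace Pool.Agent.H83.Soc

open Filter Set

section build

variable {U : Ultrafilter ℕ} {Φ : ℕ → List ℕ → Set ℕ} {ι : Type} {θ : ι → ℕ → ℕ}
  {𝓕 : Filter ℕ} {f : ℕ → ℕ → Fin 3} {g : ℕ → ℕ → Fin 2} {d : Fin 2} {X0 : Set ℕ}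

/-- the type of a number -/
def ty (f : ℕ → ℕ → Fin 3) (θ : ι → ℕ → ℕ) (y : ℕ) (κ : ℕ × ι) : Fin 3 := f κ.1 (θ κ.2 y)

structure Hyp (U : Ultrafilter ℕ) (Φ : ℕ → List ℕ → Set ℕ) (θ : ι → ℕ → ℕ) (𝓕 : Filter ℕ)
    (f : ℕ → ℕ → Fin 3) (g : ℕ → ℕ → Fin 2) (d : Fin 2) (X0 : Set ℕ) : Prop where
  mono : ∀ e F y, Φ e F ⊆ Φ e (y :: F)
  ne : Nonempty ι
  gt : ∀ m, {y | m < y} ∈ 𝓕
  big : ∀ e b F, ¬ Cl U (Big (Φ e) b) F → {y | ¬ Cl U (Big (Φ e) b) (y :: F)} ∈ 𝓕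
  th : ∀ a i, {y | a < θ i y} ∈ 𝓕
  cl : ∀ e F, Cl U (fun G => Fn U (Φ e) G ∨ Good U (Φ e) θ G) F
  w1 : ∀ e F, W U (fun G => Fn U (Φ e) G ∨ Good U (Φ e) θ G) F ∈ U →
    W U (fun G => Fn U (Φ e) G ∨ Good U (Φ e) θ G) F ∈ 𝓕
  w2 : ∀ e a i F0 F, W U (fun G => a ∈ Φ e G ∧ SE (Φ e) (θ i) F0 G) F ∈ U →
    W U (fun G => a ∈ Φ e G ∧ SE (Φ e) (θ i) F0 G) F ∈ 𝓕
  good : ∀ e F, Good U (Φ e) θ F → Fresh 𝓕 fun x =>
    {κ : ℕ × ι | κ.1 ∈ Pl U (Φ e) (x :: F) ∧ κ.2 ∈ En U (Φ e) θ (x :: F)}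
  pos : Pos 𝓕 (ty f θ) X0
  win : Win 𝓕 (ty f θ) g d X0

structure Cond (U : Ultrafilter ℕ) (Φ : ℕ → List ℕ → Set ℕ) (θ : ι → ℕ → ℕ) (𝓕 : Filter ℕ)
    (f : ℕ → ℕ → Fin 3) (g : ℕ → ℕ → Fin 2) (d : Fin 2) (X0 : Set ℕ)
    (F : List ℕ) (X : Set ℕ) (L : Finset (ℕ × ℕ)) : Prop where
  pos : Pos 𝓕 (ty f θ) X
  sub : X ⊆ X0
  pw : F.Pairwise fun y x => x < y ∧ g x y = d
  res : ∀ y ∈ X, ∀ x ∈ F, x < y ∧ g x y = d
  pr : ∀ p ∈ L, ¬ Cl U (Big (Φ p.1) p.2) F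

theorem Cond.step (H : Hyp U Φ θ 𝓕 f g d X0) {F : List ℕ} {X : Set ℕ} {L : Finset (ℕ × ℕ)}
    (h : Cond U Φ θ 𝓕 f g d X0 F X L) {R : ℕ → Set (ℕ × ι)} (hR : Fresh 𝓕 R) (c : Fin 3)
    {B : Set ℕ} (hB : B ∈ 𝓕) : ∃ x ∈ X, x ∈ B ∧ ∃ κ ∈ R x, ∃ X' ⊆ X,
      (∀ y ∈ X', κ.1 < θ κ.2 y ∧ f κ.1 (θ κ.2 y) ≠ c) ∧ Cond U Φ θ 𝓕 f g d X0 (x :: F) X' L := by
  have hB' : B ∩ {y | ∀ p ∈ L, ¬ Cl U (Big (Φ p.1) p.2) (y :: F)} ∈ 𝓕 :=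
    inter_mem hB ((Finset.eventually_all L).2 fun p hp => H.big _ _ _ (h.pr p hp))
  obtain ⟨x, ⟨x1, x2, x3⟩, κ, k1, hp⟩ :=
    H.win _ (inter_subset_left.trans h.sub) (h.pos.inter hB') R hR c
  refine ⟨x, x1, x2, κ, k1, _, ?_, ?_, ⟨(hp.inter (H.gt x)).inter (H.th κ.1 κ.2), ?_, ?_, ?_, x3⟩⟩
  · exact fun y hy => hy.1.1.1.1
  · exact fun y hy => ⟨hy.2, hy.1.1.2.2⟩
  · exact fun y hy => h.sub hy.1.1.1.1
  · exact List.pairwise_cons.2 ⟨h.res x x1, h.pw⟩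
  · intro y hy z hz
    rcases List.mem_cons.1 hz with rfl | hz
    · exact ⟨hy.1.2, hy.1.1.2.1⟩
    · exact h.res y hy.1.1.1.1 z hz

theorem Cond.step' (H : Hyp U Φ θ 𝓕 f g d X0) {F : List ℕ} {X : Set ℕ} {L : Finset (ℕ × ℕ)}
    (h : Cond U Φ θ 𝓕 f g d X0 F X L) {B : Set ℕ} (hB : B ∈ 𝓕) :
    ∃ x ∈ X, x ∈ B ∧ ∃ X' ⊆ X, Cond U Φ θ 𝓕 f g d X0 (x :: F) X' L := by
  have := H.ne
  obtain ⟨x, x1, x2, -, -, X', h1, -, h2⟩ := h.step H (R := fun _ => univ) (fun D => by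
    obtain ⟨κ, hκ⟩ := D.exists_notMem
    exact univ_mem' fun _ => ⟨κ, trivial, hκ⟩) 0 hB
  exact ⟨x, x1, x2, X', h1, h2⟩

theorem Cond.reach (H : Hyp U Φ θ 𝓕 f g d X0) {S : List ℕ → Prop}
    (hW : ∀ F, W U S F ∈ U → W U S F ∈ 𝓕) {L : Finset (ℕ × ℕ)} {F : List ℕ} (hS : Cl U S F)
    {X : Set ℕ} (h : Cond U Φ θ 𝓕 f g d X0 F X L) : ∃ F', ∃ X' ⊆ X, F <:+ F' ∧
      (∀ z ∈ F', z ∈ F ∨ z ∈ X) ∧ S F' ∧ Cond U Φ θ 𝓕 f g d X0 F' X' L := by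
  revert X
  refine Cl.reach (P := fun F => ∀ {X : Set ℕ}, Cond U Φ θ 𝓕 f g d X0 F X L → ∃ F', ∃ X' ⊆ X,
    F <:+ F' ∧ (∀ z ∈ F', z ∈ F ∨ z ∈ X) ∧ S F' ∧ Cond U Φ θ 𝓕 f g d X0 F' X' L) ?_ ?_ hS
  · intro F hF X h
    exact ⟨F, X, Subset.rfl, List.suffix_rfl, fun z hz => Or.inl hz, hF, h⟩
  · intro F h1 h2 ih X h
    obtain ⟨x, x1, x2, X', s1, c1⟩ := h.step' H (hW F (W_mem h1 h2))
    obtain ⟨F', X'', s2, a1, a2, a3, a4⟩ := ih x x2 c1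
    refine ⟨F', X'', s2.trans s1, (List.suffix_cons x F).trans a1, fun z hz => ?_, a3, a4⟩
    rcases a2 z hz with h | h
    · rcases List.mem_cons.1 h with rfl | h
      · exact Or.inr x1
      · exact Or.inl h
    · exact Or.inr (s1 h)

/-- the requirement for the functional `e` and the colour `c` is met -/
def Met (Φ : ℕ → List ℕ → Set ℕ) (f : ℕ → ℕ → Fin 3) (r : ℕ × Fin 3) (F : List ℕ)
    (L : Finset (ℕ × ℕ)) : Prop :=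
  (∃ b, (r.1, b) ∈ L) ∨ ∃ a a', a < a' ∧ a ∈ Φ r.1 F ∧ a' ∈ Φ r.1 F ∧ f a a' ≠ r.2

theorem Cond.req (H : Hyp U Φ θ 𝓕 f g d X0) {F : List ℕ} {X : Set ℕ} {L : Finset (ℕ × ℕ)}
    (h : Cond U Φ θ 𝓕 f g d X0 F X L) (r : ℕ × Fin 3) : ∃ F' X' L', F <:+ F' ∧ L ⊆ L' ∧
      Met Φ f r F' L' ∧ Cond U Φ θ 𝓕 f g d X0 F' X' L' := by
  obtain ⟨e, c⟩ := r
  obtain ⟨F1, X1, -, s1, -, h1, c1⟩ := h.reach H (H.w1 e) (H.cl e F)
  rcases h1 with ⟨b, hb⟩ | h1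
  · refine ⟨F1, X1, insert (e, b) L, s1, Finset.subset_insert _ _,
      Or.inl ⟨b, Finset.mem_insert_self _ _⟩, c1.pos, c1.sub, c1.pw, c1.res, fun p hp => ?_⟩
    rcases Finset.mem_insert.1 hp with rfl | hp
    · exact hb
    · exact c1.pr p hp
  · obtain ⟨x, -, -, κ, ⟨k1, k2⟩, X2, -, h2, c2⟩ := c1.step H (H.good e F1 h1) c univ_mem
    have h3 := Cl.and (fun G y h => H.mono e G y h) (fun G y ⟨z, z1, z2, z3⟩ =>
      ⟨z, List.mem_cons_of_mem _ z1, z2, H.mono e G y z3⟩) k1 k2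
    obtain ⟨F3, X3, -, s3, m3, ⟨h4, z, z1, z2, z3⟩, c3⟩ := c2.reach H (H.w2 e κ.1 κ.2 (x :: F1)) h3
    have hz := h2 z ((m3 z z1).resolve_left z2)
    exact ⟨F3, X3, L, s1.trans ((List.suffix_cons x F1).trans s3), Finset.Subset.rfl,
      Or.inr ⟨κ.1, θ κ.2 z, hz.1, h4, z3, hz.2⟩, c3⟩

theorem exists_chain (H : Hyp U Φ θ 𝓕 f g d X0) : ∃ F : ℕ → List ℕ,
    (∀ n, F n <:+ F (n + 1)) ∧ (∀ n, ∃ y G, n < y ∧ F (n + 1) = y :: G) ∧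
    (∀ n, (F n).Pairwise fun y x => x < y ∧ g x y = d) ∧
    ∀ e c, (∃ b, ∀ n, ∀ a ∈ Φ e (F n), a ≤ b) ∨
      ∃ n a a', a < a' ∧ a ∈ Φ e (F n) ∧ a' ∈ Φ e (F n) ∧ f a a' ≠ c := by
  obtain ⟨ρ, hρ⟩ := exists_surjective_nat (ℕ × Fin 3)
  let C := {s : List ℕ × Set ℕ × Finset (ℕ × ℕ) // Cond U Φ θ 𝓕 f g d X0 s.1 s.2.1 s.2.2}
  have nxt : ∀ (n : ℕ) (s : C), ∃ s' : C, s.1.1 <:+ s'.1.1 ∧ s.1.2.2 ⊆ s'.1.2.2 ∧
      Met Φ f (ρ n) s'.1.1 s'.1.2.2 ∧ ∃ y G, n < y ∧ s'.1.1 = y :: G := by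
    intro n s
    obtain ⟨F', X', L', h1, h2, h3, h4⟩ := s.2.req H (ρ n)
    obtain ⟨x, -, x2, X'', -, h5⟩ := h4.step' H (H.gt n)
    refine ⟨⟨(x :: F', X'', L'), h5⟩, h1.trans (List.suffix_cons x F'), h2, ?_, x, F', x2, rfl⟩
    rcases h3 with h3 | ⟨a, a', b1, b2, b3, b4⟩
    · exact Or.inl h3
    · exact Or.inr ⟨a, a', b1, H.mono _ _ _ b2, H.mono _ _ _ b3, b4⟩
  choose nx h1 h2 h3 h4 using nxt
  let s0 : C := ⟨([], X0, ∅), H.pos, Subset.rfl, List.Pairwise.nil, by simp, by simp⟩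
  let s : ℕ → C := fun n => Nat.rec s0 nx n
  have hs : ∀ n, s (n + 1) = nx n (s n) := fun _ => rfl
  have m1 : ∀ n m, n ≤ m → (s n).1.1 <:+ (s m).1.1 ∧ (s n).1.2.2 ⊆ (s m).1.2.2 := by
    intro n m h
    induction m, h using Nat.le_induction with
    | base => exact ⟨List.suffix_rfl, Finset.Subset.rfl⟩
    | succ m _ ih => exact ⟨ih.1.trans (h1 m _), ih.2.trans (h2 m _)⟩
  refine ⟨fun n => (s n).1.1, fun n => h1 n _, fun n => h4 n _, fun n => (s n).2.pw,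
    fun e c => ?_⟩
  obtain ⟨n, hn⟩ := hρ (e, c)
  have := h3 n (s n)
  rw [hn, ← hs] at this
  rcases this with ⟨b, hb⟩ | ⟨a, a', h⟩
  · refine Or.inl ⟨b, fun m a ha => ?_⟩
    by_contra hab
    refine (s (max m (n + 1))).2.pr _ ((m1 _ _ (le_max_right _ _)).2 hb)
      (Cl.base ⟨a, not_le.1 hab, ?_⟩)
    exact suf_mono (S := fun G => a ∈ Φ e G) (fun G y h => H.mono e G y h)
      (m1 _ _ (le_max_left _ _)).1 ha
  · exact Or.inr ⟨n + 1, a, a', h⟩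

end build

theorem exists_hyp (Φ : ℕ → List ℕ → Set ℕ) (hΦ : ∀ e F y, Φ e F ⊆ Φ e (y :: F)) :
    ∃ (U : Ultrafilter ℕ) (ι : Type) (θ : ι → ℕ → ℕ) (𝓕 : Filter ℕ) (f : ℕ → ℕ → Fin 3),
      ∀ g : ℕ → ℕ → Fin 2, ∃ d X0, Hyp U Φ θ 𝓕 f g d X0 := by
  classical
  let U : Ultrafilter ℕ := hyperfilter ℕ
  have hU : (U : Filter ℕ) ≤ atTop := Nat.hyperfilter_le_atTop
  have h1 : ∀ p : ℕ × List ℕ, ∃ t : ℕ → ℕ, Tendsto t U atTop ∧ (Jmp U (Φ p.1) p.2 →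
      ∀ᶠ x in (U : Filter ℕ), t x ∈ Pl U (Φ p.1) (x :: p.2)) := by
    intro p
    by_cases h : Jmp U (Φ p.1) p.2
    · obtain ⟨t, t1, t2⟩ := exists_th hU h
      exact ⟨t, t1, fun _ => t2⟩
    · exact ⟨id, hU, fun h' => absurd h' h⟩
  choose t t1 t2 using h1
  let σ : Setoid (ℕ × List ℕ) := ⟨fun p q => t p =ᶠ[U] t q,
    ⟨fun _ => EventuallyEq.rfl, EventuallyEq.symm, EventuallyEq.trans⟩⟩
  let θ : Quotient σ → ℕ → ℕ := fun i => t i.out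
  have hd : ∀ i j, i ≠ j → ∀ᶠ x in (U : Filter ℕ), θ i x ≠ θ j x := fun i j h =>
    Ultrafilter.eventually_not.2 fun h' => h (Quotient.out_equiv_out.1 h')
  have hθ : ∀ e F, Jmp U (Φ e) F → ∃ i, ∀ᶠ x in (U : Filter ℕ), θ i x ∈ Pl U (Φ e) (x :: F) := by
    intro e F h
    have : t (Quotient.mk σ (e, F)).out =ᶠ[U] t (e, F) := Quotient.mk_out (s := σ) (e, F)
    refine ⟨Quotient.mk σ (e, F), ?_⟩
    filter_upwards [this, t2 (e, F) h] with x x1 x2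
    simp only [θ]
    rw [x1]; exact x2
  let 𝒮 : Set (Set ℕ) := (range fun m : ℕ => {y | m < y}) ∪
    (range fun p : ℕ × ℕ × List ℕ => {y | ¬ Cl U (Big (Φ p.1) p.2.1) (y :: p.2.2)}) ∪
    (range fun p : ℕ × Quotient σ => {y | p.1 < θ p.2 y}) ∪
    (range fun p : ℕ × List ℕ => W U (fun G => Fn U (Φ p.1) G ∨ Good U (Φ p.1) θ G) p.2) ∪
    (range fun p : ℕ × ℕ × Quotient σ × List ℕ × List ℕ =>
      W U (fun G => p.2.1 ∈ Φ p.1 G ∧ SE (Φ p.1) (θ p.2.2.1) p.2.2.2.1 G) p.2.2.2.2) ∪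
    (range fun p : ℕ × List ℕ × Finset (ℕ × Quotient σ) => {x | ∃ κ ∈
      {κ : ℕ × Quotient σ | κ.1 ∈ Pl U (Φ p.1) (x :: p.2.1) ∧ κ.2 ∈ En U (Φ p.1) θ (x :: p.2.1)},
      κ ∉ p.2.2})
  have hc : 𝒮.Countable := (((((countable_range _).union (countable_range _)).union
    (countable_range _)).union (countable_range _)).union (countable_range _)).union
    (countable_range _)
  let 𝓕 : Filter ℕ := generate (𝒮 ∩ U.sets)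
  haveI : 𝓕.IsCountablyGenerated := ⟨⟨_, hc.mono inter_subset_left, rfl⟩⟩
  have hm : ∀ B ∈ 𝒮, B ∈ U → B ∈ 𝓕 := fun B h h' => mem_generate_of_mem ⟨h, h'⟩
  obtain ⟨f, hf⟩ := exists_generic U θ (fun i => t1 _) hd 𝓕
    (le_generate_iff.2 inter_subset_right)
  have h0 : Pos 𝓕 (ty f θ) univ := ⟨∅, fun _ => 0, fun D c _ B hB => by
    obtain ⟨y, y1, y2⟩ := hf D c B hB
    exact ⟨y, trivial, y1, y2⟩⟩
  refine ⟨U, Quotient σ, θ, 𝓕, f, fun g => ?_⟩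
  obtain ⟨d, X0, p0, w0⟩ := exists_win h0 g
  refine ⟨d, X0, hΦ, ⟨Quotient.mk σ (0, [])⟩, fun m => hm _ ?_ (hU (eventually_gt_atTop m)),
    fun e b F h => hm _ ?_ (not_cl_step h),
    fun a i => hm _ ?_ ((t1 _).eventually (eventually_gt_atTop a)),
    fun e F => cl_good hU (hΦ e) (hθ e) F, fun e F => hm _ ?_, fun e a i F0 F => hm _ ?_,
    fun e F h D => hm _ ?_ (h D), p0, w0⟩
  · exact Or.inl (Or.inl (Or.inl (Or.inl (Or.inl ⟨m, rfl⟩))))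
  · exact Or.inl (Or.inl (Or.inl (Or.inl (Or.inr ⟨(e, b, F), rfl⟩))))
  · exact Or.inl (Or.inl (Or.inl (Or.inr ⟨(a, i), rfl⟩)))
  · exact Or.inl (Or.inl (Or.inr ⟨(e, F), rfl⟩))
  · exact Or.inl (Or.inr ⟨(e, a, i, F0, F), rfl⟩)
  · exact Or.inr ⟨(e, F, D), rfl⟩

open Pool.Agent.H37 in
/-- outputs of the `e`-th functional on the initial parts of a node -/
def outp (e : ℕ) (F : List ℕ) : Set ℕ :=
  {a | ∃ y G, y :: G <:+ F ∧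
    H37.U e (pre (fun m => if m ∈ y :: G then 1 else 0) (y + 1)) a = some 1}

open Pool.Agent.H37 in
theorem main : ∃ f : ℕ → ℕ → Fin 3, ∀ g : ℕ → ℕ → Fin 2, ∃ (H : Set ℕ) (d : Fin 2), H.Infinite ∧
    (∀ x ∈ H, ∀ y ∈ H, x < y → g x y = d) ∧ ∀ (G : Set ℕ) (c : Fin 3) (χ ψ : ℕ → ℕ),
      (∀ m ∈ H, χ m = 1) → (∀ m ∉ H, χ m = 0) → (∀ m, ψ m = 1 ↔ m ∈ G) →
      TuringReducible (fun m => Part.some (ψ m)) (fun m => Part.some (χ m)) → G.Infinite →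
      ∃ a ∈ G, ∃ b ∈ G, a < b ∧ f a b ≠ c := by
  obtain ⟨U, ι, θ, 𝓕, f, hf⟩ := exists_hyp outp fun e F y a ⟨z, G, h1, h2⟩ =>
    ⟨z, G, h1.trans (List.suffix_cons y F), h2⟩
  refine ⟨f, fun g => ?_⟩
  obtain ⟨d, X0, H⟩ := hf g
  obtain ⟨F, h1, h2, h3, h4⟩ := exists_chain H
  have m1 : ∀ n m, n ≤ m → F n <:+ F m := by
    intro n m h
    induction m, h using Nat.le_induction with
    | base => exact List.suffix_rfl
    | succ m _ ih => exact ih.trans (h1 m)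
  refine ⟨{x | ∃ n, x ∈ F n}, d, Set.infinite_of_forall_exists_gt fun n => ?_, ?_, ?_⟩
  · obtain ⟨y, G, y1, y2⟩ := h2 n
    exact ⟨y, ⟨n + 1, by rw [y2]; exact List.mem_cons_self⟩, y1⟩
  · rintro x ⟨n, hn⟩ y ⟨m, hm⟩ hxy
    have hx := (m1 _ _ (le_max_left n m)).subset hn
    have hy := (m1 _ _ (le_max_right n m)).subset hm
    haveI : Std.Symm fun y x : ℕ => (x < y → g x y = d) ∧ (y < x → g y x = d) :=
      ⟨fun _ _ h => ⟨h.2, h.1⟩⟩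
    have := ((h3 (max n m)).imp (S := fun y x => (x < y → g x y = d) ∧ (y < x → g y x = d))
      fun h => ⟨fun _ => h.2, fun h' => absurd h.1 (not_lt.2 h'.le)⟩).forall hy hx hxy.ne'
    exact this.1 hxy
  · intro G c χ ψ c1 c0 hψ hr hG
    obtain ⟨e, he⟩ := exists_app (x := χ) hr
    have key : ∀ n y P, y :: P <:+ F n →
        pre (fun m => if m ∈ y :: P then 1 else 0) (y + 1) = pre χ (y + 1) := by
      intro n y P hs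
      refine pre_congr fun i hi => ?_
      split_ifs with h
      · exact (c1 i ⟨n, hs.subset h⟩).symm
      · refine (c0 i ?_).symm
        rintro ⟨m, hm⟩
        obtain ⟨Q, hQ⟩ := hs.trans (m1 _ _ (le_max_left n m))
        have hi' := (m1 _ _ (le_max_right n m)).subset hm
        have hp := h3 (max n m)
        rw [← hQ] at hi' hp
        rcases List.mem_append.1 hi' with hi' | hi'
        · have := ((List.pairwise_append.1 hp).2.2 i hi' y List.mem_cons_self).1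
          omega
        · exact h hi'
    have k1 : ∀ n, ∀ a ∈ outp e (F n), a ∈ G := by
      rintro n a ⟨y, P, hs, ha⟩
      rw [key n y P hs] at ha
      have : 1 ∈ app e χ a := mem_app.2 ⟨_, ha⟩
      rw [← he] at this
      exact (hψ a).1 (Part.mem_some_iff.1 this).symm
    have k2 : ∀ a ∈ G, ∃ n, a ∈ outp e (F n) := by
      intro a ha
      have : 1 ∈ app e χ a := by rw [← he]; exact Part.mem_some_iff.2 ((hψ a).2 ha).symm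
      obtain ⟨k, hk⟩ := mem_app.1 this
      obtain ⟨y, P, y1, y2⟩ := h2 k
      refine ⟨k + 1, y, P, by rw [y2], ?_⟩
      rw [key (k + 1) y P (by rw [y2])]
      exact U_mon e _ _ _ _ (pre_pf χ (by omega)) hk
    rcases h4 e c with ⟨b, hb⟩ | ⟨n, a, a', b1, b2, b3, b4⟩
    · obtain ⟨a, ha, hab⟩ := hG.exists_gt b
      obtain ⟨n, hn⟩ := k2 a ha
      exact absurd (hb n a hn) (not_le.2 hab)
    · exact ⟨a, k1 n a b2, a', k1 n a' b3, b1, b4⟩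

end Pool.Agent.H83.Soc
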