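import Pool.Agent.H83.Soc1

/-!
Coordinates of higher level: functions on lists modulo an iterated ultrafilter, and the analysis
of the finite sets of outputs of a monotone functional.
-/

set_option autoImplicit false

namespace Pool.Agent.H83.Soc

open Filter Set

variable (U : Ultrafilter ℕ)

/-- the iterated ultrafilter on lists of length `j` -/
noncomputable def Uj : ℕ → Ultrafilter (List ℕ)
  | 0 => pure []
  | j + 1 => U.bind fun x => (Uj j).map (List.cons x)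

abbrev Co := List ℕ → Finset ℕ

def lnk (κ : Co) (x : ℕ) : Co := fun l => κ (x :: l)

def uni (s : Finset ℕ) (κ : Co) : Co := fun l => s ∪ κ l

def Sim (j : ℕ) (κ μ : Co) : Prop := ∀ᶠ l in (Uj U j : Filter (List ℕ)), κ l = μ l

def Esc (j : ℕ) (κ : Co) : Prop := ∀ μ, ∀ᶠ x in (U : Filter ℕ), ¬ Sim U j (lnk κ x) μ

def EE (Ψ : List ℕ → Set (Finset ℕ)) : ℕ → List ℕ → Co → Prop
  | 0, G, κ => Cl U (fun G' => κ [] ∈ Ψ G') G
  | j + 1, G, κ => Cl U (fun G' => ∃ z P, G' = z :: P ∧ G <:+ P ∧ EE Ψ j G' (lnk κ z)) G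

def JJ (S : Set Co) (Ψ : List ℕ → Set (Finset ℕ)) (j : ℕ) (G : List ℕ) : Prop :=
  ∀ D : Finset Co, ∀ᶠ x in (U : Filter ℕ), ∃ κ ∈ S, EE U Ψ j (x :: G) κ ∧ ∀ μ ∈ D, ¬ Sim U j κ μ

variable {U}

theorem ev_zero {P : List ℕ → Prop} : (∀ᶠ l in (Uj U 0 : Filter (List ℕ)), P l) ↔ P [] := Iff.rfl

theorem ev_succ {j : ℕ} {P : List ℕ → Prop} : (∀ᶠ l in (Uj U (j + 1) : Filter (List ℕ)), P l) ↔
    ∀ᶠ x in (U : Filter ℕ), ∀ᶠ l in (Uj U j : Filter (List ℕ)), P (x :: l) := Iff.rfl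

theorem sim_succ {j : ℕ} {κ μ : Co} :
    Sim U (j + 1) κ μ ↔ ∀ᶠ x in (U : Filter ℕ), Sim U j (lnk κ x) (lnk μ x) := Iff.rfl

theorem Sim.symm {j : ℕ} {κ μ : Co} (h : Sim U j κ μ) : Sim U j μ κ := h.mono fun _ h => h.symm

theorem Sim.trans {j : ℕ} {κ μ ν : Co} (h : Sim U j κ μ) (h' : Sim U j μ ν) : Sim U j κ ν :=
  (h.and h').mono fun _ h => h.1.trans h.2

theorem Cl.tree {S T : List ℕ → Prop} (hT : ∀ F, T F → ∀ᶠ y in (U : Filter ℕ), T (y :: F))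
    {F : List ℕ} (h : Cl U S F) (hF : T F) : Cl U (fun G => S G ∧ T G) F := by
  refine Cl.ind (P := fun F => T F → Cl U (fun G => S G ∧ T G) F) ?_ ?_ h hF
  · intro F hF H; exact Cl.base ⟨hF, H⟩
  · intro F hF H
    exact Cl.step ((hF.and (hT F H)).mono fun y hy => hy.1 hy.2)

theorem Cl.last {S : List ℕ → Prop} {B : ℕ → Prop} (hB : ∀ᶠ y in (U : Filter ℕ), B y)
    {F : List ℕ} (h : Cl U S F) :
    Cl U (fun G => S G ∧ ∀ z P, G = z :: P → F <:+ P → B z) F := by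
  refine Cl.tree (fun G _ => hB.mono fun y hy z P h _ => ?_) h fun z P h h' => ?_
  · rw [← (List.cons.inj h).1]; exact hy
  · have := h'.length_le
    rw [h] at this; simp at this

theorem Cl.ex {S : List ℕ → Prop} {F : List ℕ} (h : Cl U S F) : ∃ G, S G := by
  obtain ⟨G, -, h⟩ := Cl.hit (T := fun _ => True) (fun _ _ => Eventually.of_forall fun _ => trivial)
    h trivial
  exact ⟨G, h⟩

theorem Esc.uni {j : ℕ} {κ : Co} (h : Esc U j κ) (s : Finset ℕ) : Esc U j (uni s κ) := by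
  intro μ
  refine Ultrafilter.eventually_not.2 fun hB => ?_
  have h1 : ∀ᶠ x in (U : Filter ℕ), ∃ t ∈ (s.powerset : Set (Finset ℕ)),
      Sim U j (lnk κ x) fun l => μ l \ s ∪ t := by
    refine hB.mono fun x hx => ?_
    refine (Ultrafilter.eventually_exists_mem_iff (P := fun t l => lnk κ x l = μ l \ s ∪ t)
      s.powerset.finite_toSet).1 (hx.mono fun l hl => ?_)
    refine ⟨s ∩ κ (x :: l), by simp, ?_⟩
    rw [← hl]
    ext a
    simp only [lnk, Soc.uni, Finset.mem_union, Finset.mem_sdiff, Finset.mem_inter]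
    tauto
  obtain ⟨t, -, ht⟩ := (Ultrafilter.eventually_exists_mem_iff s.powerset.finite_toSet).1 h1
  obtain ⟨x, h1, h2⟩ := (ht.and (h _)).exists
  exact h2 h1

section EE

variable {Ψ : List ℕ → Set (Finset ℕ)}

theorem EE.sim {j : ℕ} {G : List ℕ} {κ μ : Co} (h : EE U Ψ j G κ) (hs : Sim U j κ μ) :
    EE U Ψ j G μ := by
  induction j generalizing G κ μ with
  | zero =>
    have : κ [] = μ [] := hs
    unfold EE at h ⊢
    rwa [← this]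
  | succ j ih =>
    exact (Cl.last (sim_succ.1 hs) h).mono fun G' _ ⟨⟨z, P, h1, h2, h3⟩, h4⟩ =>
      ⟨z, P, h1, h2, ih h3 (h4 z P h1 h2)⟩

theorem EE.ev {Q : Finset ℕ → Prop} (hQ : ∀ G, ∀ s ∈ Ψ G, Q s) {j : ℕ} {G : List ℕ} {κ : Co}
    (h : EE U Ψ j G κ) : ∀ᶠ l in (Uj U j : Filter (List ℕ)), Q (κ l) := by
  induction j generalizing G κ with
  | zero =>
    obtain ⟨G', h⟩ := Cl.ex h
    exact hQ _ _ h
  | succ j ih =>
    by_contra hc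
    obtain ⟨G', ⟨z, P, h1, h2, h3⟩, h4⟩ :=
      Cl.ex (Cl.last (Ultrafilter.eventually_not.2 fun h => hc (ev_succ.2 h)) h)
    exact h4 z P h1 h2 (ih h3)

theorem EE.back {j : ℕ} {G : List ℕ} {κ : Co}
    (h : ∀ᶠ x in (U : Filter ℕ), EE U Ψ (j + 1) (x :: G) κ) : EE U Ψ (j + 1) G κ :=
  Cl.step (h.mono fun x hx => Cl.mono hx fun _ _ ⟨z, P, h1, h2, h3⟩ =>
    ⟨z, P, h1, (List.suffix_cons x G).trans h2, h3⟩)

theorem EE.up {j : ℕ} {G : List ℕ} {κ : Co}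
    (h : ∀ᶠ x in (U : Filter ℕ), EE U Ψ j (x :: G) (lnk κ x)) : EE U Ψ (j + 1) G κ :=
  Cl.step (h.mono fun x hx => Cl.base ⟨x, G, rfl, List.suffix_rfl, hx⟩)

theorem exists_glue (hU : (U : Filter ℕ) ≤ atTop) {S : Set Co} (hS : S.Countable) {j : ℕ}
    {G : List ℕ} (h : JJ U S Ψ j G) : ∃ κ : Co, (∀ x, lnk κ x ∈ S) ∧ Esc U j κ ∧
      ∀ᶠ x in (U : Filter ℕ), EE U Ψ j (x :: G) (lnk κ x) := by
  classical
  obtain ⟨x0, κ0, h0, -⟩ := (h ∅).exists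
  obtain ⟨σ, rfl⟩ := hS.exists_eq_range ⟨κ0, h0⟩
  have h1 : ∀ x M, ∃ θ ∈ range σ, ∀ N ≤ M,
      (∃ κ ∈ range σ, EE U Ψ j (x :: G) κ ∧ ∀ i < N, ¬ Sim U j κ (σ i)) →
      EE U Ψ j (x :: G) θ ∧ ∀ i < N, ¬ Sim U j θ (σ i) := by
    intro x M
    induction M with
    | zero =>
      by_cases hq : ∃ κ ∈ range σ, EE U Ψ j (x :: G) κ
      · obtain ⟨κ, k1, k2⟩ := hq
        exact ⟨κ, k1, fun N hN _ => ⟨k2, fun i hi => by omega⟩⟩
      · exact ⟨κ0, h0, fun N _ ⟨κ, k1, k2, _⟩ => absurd ⟨κ, k1, k2⟩ hq⟩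
    | succ M ih =>
      by_cases hq : ∃ κ ∈ range σ, EE U Ψ j (x :: G) κ ∧ ∀ i < M + 1, ¬ Sim U j κ (σ i)
      · obtain ⟨κ, k1, k2, k3⟩ := hq
        exact ⟨κ, k1, fun N hN _ => ⟨k2, fun i hi => k3 i (by omega)⟩⟩
      · obtain ⟨θ, t1, t2⟩ := ih
        refine ⟨θ, t1, fun N hN hq' => ?_⟩
        rcases Nat.lt_or_eq_of_le hN with hN | rfl
        · exact t2 N (by omega) hq'
        · exact absurd hq' hq
  choose θ t1 t2 using fun x => h1 x x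
  have h2 : ∀ N, ∀ᶠ x in (U : Filter ℕ),
      EE U Ψ j (x :: G) (θ x) ∧ ∀ i < N, ¬ Sim U j (θ x) (σ i) := by
    intro N
    filter_upwards [h ((Finset.range N).image σ), hU (eventually_ge_atTop N)]
      with x ⟨κ, k1, k2, k3⟩ hx
    exact t2 x N hx ⟨κ, k1, k2, fun i hi =>
      k3 _ (Finset.mem_image_of_mem σ (Finset.mem_range.2 hi))⟩
  refine ⟨fun l => match l with | [] => ∅ | x :: l => θ x l, t1, fun μ => ?_,
    (h2 0).mono fun x hx => hx.1⟩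
  refine Ultrafilter.eventually_not.2 fun hB => ?_
  obtain ⟨x1, hx1⟩ := hB.exists
  obtain ⟨i, hi⟩ := t1 x1
  obtain ⟨x, a1, -, a2⟩ := (hB.and (h2 (i + 1))).exists
  refine a2 i (by omega) ?_
  rw [hi]
  exact Sim.trans a1 (Sim.symm hx1)

end EE

theorem exists_KK (hU : (U : Filter ℕ) ≤ atTop) {I : Type} [Countable I]
    (Ψ : I → List ℕ → Set (Finset ℕ)) : ∃ KK : ℕ → Set Co, (∀ j, (KK j).Countable) ∧
      (∀ j s, ∀ κ ∈ KK j, uni s κ ∈ KK j) ∧ (∀ s, (fun _ => s) ∈ KK 0) ∧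
      (∀ j, ∀ κ ∈ KK (j + 1), (∀ x, lnk κ x ∈ KK j) ∧ Esc U j κ) ∧
      ∀ j i G, JJ U (KK j) (Ψ i) j G → ∃ κ ∈ KK (j + 1),
        ∀ᶠ x in (U : Filter ℕ), EE U (Ψ i) j (x :: G) (lnk κ x) := by
  let C := {S : Set Co // S.Countable ∧ ∀ s, ∀ κ ∈ S, uni s κ ∈ S}
  have st : ∀ (j : ℕ) (S : C), ∃ S' : C, (∀ κ ∈ S'.1, (∀ x, lnk κ x ∈ S.1) ∧ Esc U j κ) ∧
      ∀ i G, JJ U S.1 (Ψ i) j G → ∃ κ ∈ S'.1,
        ∀ᶠ x in (U : Filter ℕ), EE U (Ψ i) j (x :: G) (lnk κ x) := by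
    rintro j ⟨S, h1, h2⟩
    choose γ g1 g2 g3 using fun p : {p : I × List ℕ // JJ U S (Ψ p.1) j p.2} =>
      exists_glue hU h1 p.2
    refine ⟨⟨range fun q : Finset ℕ × _ => uni q.1 (γ q.2), countable_range _, ?_⟩, ?_,
      fun i G h => ⟨_, ⟨(∅, ⟨(i, G), h⟩), rfl⟩, ?_⟩⟩
    · rintro s _ ⟨⟨t, p⟩, rfl⟩
      exact ⟨(s ∪ t, p), funext fun l => Finset.union_assoc _ _ _⟩
    · rintro _ ⟨⟨t, p⟩, rfl⟩
      exact ⟨fun x => h2 t _ (g1 p x), (g2 p).uni t⟩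
    · have : uni ∅ (γ ⟨(i, G), h⟩) = γ ⟨(i, G), h⟩ := funext fun l => Finset.empty_union _
      simp only [this]
      exact g3 ⟨(i, G), h⟩
  choose nx n1 n2 using st
  let S0 : C := ⟨range fun s : Finset ℕ => fun _ => s, countable_range _, by
    rintro s _ ⟨t, rfl⟩
    exact ⟨s ∪ t, rfl⟩⟩
  let S : ℕ → C := fun n => Nat.rec S0 nx n
  exact ⟨fun j => (S j).1, fun j => (S j).2.1, fun j => (S j).2.2, fun s => ⟨s, rfl⟩,
    fun j => n1 j (S j), fun j => n2 j (S j)⟩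

/-- the `r`-element sets of outputs that are at least `b` -/
def Out (Φ : List ℕ → Set ℕ) (b r : ℕ) (G : List ℕ) : Set (Finset ℕ) :=
  {s | s.card = r ∧ ∀ a ∈ s, b ≤ a ∧ a ∈ Φ G}

variable {Φ : List ℕ → Set ℕ}

theorem EE.ins (hΦ : ∀ F y, Φ F ⊆ Φ (y :: F)) {a b r j : ℕ} (hab : b ≤ a) {G : List ℕ} {κ : Co}
    (h : EE U (Out Φ (a + 1) r) j G κ) (ha : a ∈ Pl U Φ G) :
    EE U (Out Φ b (r + 1)) j G (uni {a} κ) := by
  induction j generalizing G κ with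
  | zero =>
    refine (Cl.and (fun G y h => ⟨h.1, fun a' ha' => ⟨(h.2 a' ha').1, hΦ G y (h.2 a' ha').2⟩⟩)
      (fun G y h => hΦ G y h) h ha).mono fun G' _ ⟨⟨h1, h2⟩, h3⟩ => ⟨?_, fun a' ha' => ?_⟩
    · have : a ∉ κ [] := fun h => absurd (h2 a h).1 (by omega)
      simp only [uni, Finset.singleton_union, Finset.card_insert_of_notMem this, h1]
    · rcases Finset.mem_union.1 ha' with h | h
      · rw [Finset.mem_singleton.1 h]; exact ⟨hab, h3⟩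
      · exact ⟨by have := (h2 a' h).1; omega, (h2 a' h).2⟩
  | succ j ih =>
    exact (Cl.tree (T := fun G => a ∈ Pl U Φ G) (fun G h => (pl_iff hΦ).1 h) h ha).mono
      fun G' _ ⟨⟨z, P, h1, h2, h3⟩, h4⟩ => ⟨z, P, h1, h2, ih h3 h4⟩

theorem cl_JJ (hΦ : ∀ F y, Φ F ⊆ Φ (y :: F)) {KK : ℕ → Set Co}
    (k1 : ∀ j s, ∀ κ ∈ KK j, uni s κ ∈ KK j) (k2 : ∀ s, (fun _ => s) ∈ KK 0)
    (k3 : ∀ j b r G, JJ U (KK j) (Out Φ b r) j G → ∃ κ ∈ KK (j + 1),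
        ∀ᶠ x in (U : Filter ℕ), EE U (Out Φ b r) j (x :: G) (lnk κ x)) (r b : ℕ) (F : List ℕ) :
    Cl U (fun G => Fn U Φ G ∨ JJ U (KK r) (Out Φ b (r + 1)) r G) F := by
  classical
  induction r generalizing b F with
  | zero =>
    by_cases hF : Fn U Φ F
    · exact Cl.base (Or.inl hF)
    refine (cl_jmp hΦ hF).mono fun G _ h => Or.inr fun D => ?_
    refine (h (max b (D.sup fun μ => (μ []).sup id))).mono fun x ⟨a, a1, a2⟩ =>
      ⟨fun _ => {a}, k2 _, Cl.mono a2 fun G' _ h => ⟨rfl, fun a' ha' => ?_⟩, fun μ hμ hs => ?_⟩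
    · rw [Finset.mem_singleton.1 ha']; exact ⟨by omega, h⟩
    · have h1 : ({a} : Finset ℕ) = μ [] := hs
      have h2 := Finset.le_sup (f := fun μ : Co => (μ []).sup id) hμ
      simp only [← h1, Finset.sup_singleton, id] at h2
      omega
  | succ r ih =>
    by_contra hc
    set T : List ℕ → Prop := fun G =>
      ¬ Cl U (fun G => Fn U Φ G ∨ JJ U (KK (r + 1)) (Out Φ b (r + 1 + 1)) (r + 1) G) G with hT
    have T0 : ∀ G, T G → ¬ Fn U Φ G := fun G h h' => h (Cl.base (Or.inl h'))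
    have T2 : ∀ G, T G → ∃ D : Finset Co, ∀ᶠ x in (U : Filter ℕ), ∀ a, b ≤ a →
        a ∈ Pl U Φ (x :: G) → ∀ κ ∈ KK (r + 1), EE U (Out Φ (a + 1) (r + 1)) (r + 1) (x :: G) κ →
        ∃ μ ∈ D, Sim U (r + 1) (uni {a} κ) μ := by
      intro G h
      obtain ⟨D, hD⟩ := not_forall.1
        fun h' : JJ U (KK (r + 1)) (Out Φ b (r + 1 + 1)) (r + 1) G => h (Cl.base (Or.inr h'))
      refine ⟨D, (Ultrafilter.eventually_not.2 hD).mono fun x hx a hab ha κ hκ hE => ?_⟩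
      by_contra hn
      exact hx ⟨_, k1 _ _ κ hκ, hE.ins hΦ hab ha, fun μ hμ hs => hn ⟨μ, hμ, hs⟩⟩
    have T3 : ∀ G, T G → ∀ᶠ x in (U : Filter ℕ), T (x :: G) := fun G h => not_cl_step h
    have abv : ∀ {a G κ}, EE U (Out Φ (a + 1) (r + 1)) (r + 1) G κ →
        ∀ᶠ l in (Uj U (r + 1) : Filter (List ℕ)), ∀ y ∈ κ l, a < y := fun h =>
      EE.ev (Q := fun s => ∀ y ∈ s, _ < y) (fun G s hs y hy => (hs.2 y hy).1) h
    obtain ⟨G1, h1, j1⟩ := Cl.hit T3 (cl_jmp hΦ (T0 F hc)) hc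
    obtain ⟨D1, hD1⟩ := T2 G1 h1
    have fin : (⋃ μ ∈ D1, {a | ∀ᶠ l in (Uj U (r + 1) : Filter (List ℕ)),
        a ∈ μ l ∧ ∀ y ∈ μ l, a ≤ y}).Finite := by
      refine D1.finite_toSet.biUnion fun μ _ => Set.Subsingleton.finite fun a ha a' ha' => ?_
      obtain ⟨l, l1, l2⟩ := (Eventually.and (f := (Uj U (r + 1) : Filter (List ℕ))) ha ha').exists
      exact le_antisymm (l1.2 _ l2.1) (l2.2 _ l1.1)
    obtain ⟨B, hB⟩ := fin.bddAbove
    obtain ⟨x, ⟨h2, hx⟩, a, ha, hP⟩ := (((T3 G1 h1).and hD1).and (j1 (max b B))).exists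
    have hE : ∀ κ ∈ KK (r + 1), ¬ EE U (Out Φ (a + 1) (r + 1)) (r + 1) (x :: G1) κ := by
      intro κ hκ hE
      obtain ⟨μ, m1, m2⟩ := hx a (by omega) hP κ hκ hE
      have : a ≤ B := hB (mem_iUnion₂.2 ⟨μ, m1, ((abv hE).and m2).mono fun l ⟨l1, l2⟩ => by
        rw [← l2]
        refine ⟨by simp [uni], fun y hy => ?_⟩
        rcases Finset.mem_union.1 hy with h | h
        · rw [Finset.mem_singleton.1 h]
        · exact (l1 y h).le⟩)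
      omega
    obtain ⟨G3, ⟨g1, -, h3⟩, j3⟩ := Cl.hit (T := fun G => T G ∧ a ∈ Pl U Φ G ∧
        ∀ κ ∈ KK (r + 1), ¬ EE U (Out Φ (a + 1) (r + 1)) (r + 1) G κ) (by
      rintro G ⟨g1, g2, g3⟩
      obtain ⟨D, hD⟩ := T2 G g1
      have g4 : ∀ᶠ y in (U : Filter ℕ), ∀ μ ∈ D, ¬ ∃ κ ∈ KK (r + 1),
          EE U (Out Φ (a + 1) (r + 1)) (r + 1) (y :: G) κ ∧ Sim U (r + 1) (uni {a} κ) μ := by
        refine (Finset.eventually_all D).2 fun μ _ => Ultrafilter.eventually_not.2 fun h => ?_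
        obtain ⟨y0, κ0, c1, c2, c3⟩ := h.exists
        refine g3 κ0 c1 (EE.back (h.mono fun y ⟨κ, _, d2, d3⟩ => d2.sim ?_))
        refine (((abv c2).and (abv d2)).and (d3.trans c3.symm)).mono fun l ⟨⟨l1, l2⟩, l3⟩ => ?_
        ext y
        have := Finset.ext_iff.1 l3 y
        simp only [uni, Finset.mem_union, Finset.mem_singleton] at this
        constructor
        · intro hy
          exact (this.1 (Or.inr hy)).resolve_left (l2 y hy).ne'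
        · intro hy
          exact (this.2 (Or.inr hy)).resolve_left (l1 y hy).ne'
      filter_upwards [T3 G g1, (pl_iff hΦ).1 g2, hD, g4] with y y1 y2 y3 y4
      refine ⟨y1, y2, fun κ hκ hE => ?_⟩
      obtain ⟨μ, m1, m2⟩ := y3 a (by omega) y2 κ hκ hE
      exact y4 μ m1 ⟨κ, hκ, hE, m2⟩) (ih (a + 1) (x :: G1)) ⟨h2, hP, hE⟩
    rcases j3 with j3 | j3
    · exact T0 G3 g1 j3
    · obtain ⟨κ, hκ, h⟩ := k3 _ _ _ _ j3
      exact h3 κ hκ (EE.up h)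

end Pool.Agent.H83.Soc
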