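import Pool.Agent.H83.Soc4

/-!
Good systems of allowed tuples: a partition regular notion of largeness for hypergraphs which keeps
a generic colouring flexible on all coordinates outside a finite set.
-/

set_option autoImplicit false

namespace Pool.Agent.H83.Soc

open Filter Set

variable (U : Ultrafilter ℕ) (KK : ℕ → Set Co) (𝓕 : Filter ℕ) {V : Type} (f : Finset ℕ → V)

def Cons (j : ℕ) (q : Finset (Co × V)) : Prop :=
  (∀ p ∈ q, p.1 ∈ KK j) ∧ ∀ p ∈ q, ∀ p' ∈ q, Sim U j p.1 p'.1 → p.2 = p'.2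

def sat (q : Finset (Co × V)) (l : List ℕ) : Prop := ∀ p ∈ q, f (p.1 l) = p.2

def Sub (j : ℕ) (R R' : Set (List ℕ)) : Prop := ∀ l ∈ R, l.length ≤ j → l ∈ R'

def Lk (j : ℕ) (R' : Set (List ℕ)) (S : List ℕ → Prop) (x : ℕ) (R'' : Set (List ℕ)) : Prop :=
  ∀ l ∈ R'', l.length ≤ j → l ∈ R' ∧ (l.length < j → x :: l ∈ R') ∧ (l.length = j → S (x :: l))

def Gd : ℕ → Set (List ℕ) → Prop
  | 0, R => [] ∈ R
  | j + 1, R => Gd j R ∧ ∃ p, Cons U KK (j + 1) p ∧ ∀ q, p ⊆ q → Cons U KK (j + 1) q →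
      ∀ R', Sub j R' R → Gd j R' → ∀ A ∈ 𝓕, ∃ x ∈ A, ∃ R'', Gd j R'' ∧
        Lk j R' (fun l => l ∈ R ∧ sat f q l) x R''

def Top (j : ℕ) (R : Set (List ℕ)) (p : Finset (Co × V)) : Prop :=
  ∀ q, p ⊆ q → Cons U KK (j + 1) q → ∀ R', Sub j R' R → Gd U KK 𝓕 f j R' → ∀ A ∈ 𝓕,
    ∃ x ∈ A, ∃ R'', Gd U KK 𝓕 f j R'' ∧ Lk j R' (fun l => l ∈ R ∧ sat f q l) x R''

def mix (j : ℕ) (R : Set (List ℕ)) (S : List ℕ → Prop) : Set (List ℕ) :=
  {l | (l.length ≤ j ∧ l ∈ R) ∨ (j < l.length ∧ S l)}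

def Frs (m : ℕ) (Kf : ℕ → Set (Finset Co)) : Prop :=
  ∀ D : Finset Co, (∀ μ ∈ D, μ ∈ KK m) →
    {x | ∃ s ∈ Kf x, ∀ κ ∈ s, κ ∈ KK m ∧ ∀ μ ∈ D, ¬ Sim U m κ μ} ∈ 𝓕

def Wn {γ : Type} (m : ℕ) (g : List ℕ → γ) (d : γ) (R0 : Set (List ℕ)) : Prop :=
  ∀ R, Sub m R R0 → Gd U KK 𝓕 f m R → ∀ A ∈ 𝓕, ∀ Kf, Frs U KK 𝓕 m Kf → ∀ c,
    ∃ x ∈ A, ∃ s ∈ Kf x, ∃ R', Gd U KK 𝓕 f m R' ∧
      Lk m R (fun l => g l = d ∧ ∀ κ ∈ s, f (κ l.tail) ≠ c) x R'

structure HK : Prop where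
  lk : ∀ j, ∀ κ ∈ KK (j + 1), ∀ x, lnk κ x ∈ KK j
  esc : ∀ j, ∀ κ ∈ KK (j + 1), ∀ μ ∈ KK j, {x | ¬ Sim U j (lnk κ x) μ} ∈ 𝓕
  sep : ∀ j, ∀ κ ∈ KK (j + 1), ∀ μ ∈ KK (j + 1), ¬ Sim U (j + 1) κ μ →
    {x | ¬ Sim U j (lnk κ x) (lnk μ x)} ∈ 𝓕
  gen : ∀ q, Cons U KK 1 q → ∀ B ∈ 𝓕, ∃ y ∈ B, sat f q [y]

variable {U KK 𝓕 f}

theorem gd_succ {j : ℕ} {R : Set (List ℕ)} : Gd U KK 𝓕 f (j + 1) R ↔
    Gd U KK 𝓕 f j R ∧ ∃ p, Cons U KK (j + 1) p ∧ Top U KK 𝓕 f j R p := Iff.rfl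

theorem Sub.rfl {j : ℕ} {R : Set (List ℕ)} : Sub j R R := fun _ h _ => h

theorem Sub.trans {j : ℕ} {R R' R'' : Set (List ℕ)} (h : Sub j R R') (h' : Sub j R' R'') :
    Sub j R R'' := fun l hl hj => h' l (h l hl hj) hj

theorem Lk.mono {j x : ℕ} {R' R'' R1 R3 : Set (List ℕ)} {S S' : List ℕ → Prop}
    (h : Lk j R' S x R'') (h1 : Sub j R' R1) (h3 : Sub j R3 R'')
    (hS : ∀ l ∈ R3, l.length = j → S (x :: l) → S' (x :: l)) : Lk j R1 S' x R3 := by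
  intro l hl hj
  obtain ⟨a, b, c⟩ := h l (h3 l hl hj) hj
  exact ⟨h1 l a hj, fun h => h1 _ (b h) h, fun h => hS l hl h (c h)⟩

theorem Lk.sub {j x : ℕ} {R' R'' : Set (List ℕ)} {S : List ℕ → Prop} (h : Lk j R' S x R'') :
    Sub j R'' R' := fun l hl hj => (h l hl hj).1

theorem sat.mono {q q' : Finset (Co × V)} {l : List ℕ} (h : sat f q' l) (hq : q ⊆ q') :
    sat f q l := fun p hp => h p (hq hp)

theorem Top.mono {j : ℕ} {R R2 : Set (List ℕ)} {p q0 : Finset (Co × V)}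
    (h : Top U KK 𝓕 f j R p) (h1 : Sub j R2 R) (h2 : p ⊆ q0)
    (h3 : ∀ l ∈ R, l.length = j + 1 → sat f q0 l → l ∈ R2) : Top U KK 𝓕 f j R2 q0 := by
  intro q hq hc R' s1 g1 A hA
  obtain ⟨x, x1, R'', g2, l2⟩ := h q (h2.trans hq) hc R' (s1.trans h1) g1 A hA
  exact ⟨x, x1, R'', g2, l2.mono Sub.rfl Sub.rfl fun l _ hl ⟨a, b⟩ =>
    ⟨h3 _ a (by simp [hl]) (b.mono hq), b⟩⟩

theorem Gd.congr {j : ℕ} {R R2 : Set (List ℕ)} (h : Gd U KK 𝓕 f j R) (h1 : Sub j R R2)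
    (h2 : Sub j R2 R) : Gd U KK 𝓕 f j R2 := by
  induction j with
  | zero => exact h1 _ h le_rfl
  | succ j ih =>
    obtain ⟨a, p, b, c⟩ := gd_succ.1 h
    have s1 : Sub j R R2 := fun l hl hj => h1 l hl (by omega)
    have s2 : Sub j R2 R := fun l hl hj => h2 l hl (by omega)
    exact gd_succ.2 ⟨ih a s1 s2, p, b, c.mono s2 Finset.Subset.rfl fun l hl hj _ => h1 l hl hj.le⟩

theorem Gd.nil {j : ℕ} {R : Set (List ℕ)} (h : Gd U KK 𝓕 f j R) : [] ∈ R := by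
  induction j with
  | zero => exact h
  | succ j ih => exact ih h.1

theorem sub_mix {j : ℕ} {R : Set (List ℕ)} {S : List ℕ → Prop} : Sub j (mix j R S) R :=
  fun _ hl hj => hl.elim (fun h => h.2) fun h => absurd h.1 (not_lt.2 hj)

theorem Gd.mixed {j : ℕ} {R : Set (List ℕ)} (h : Gd U KK 𝓕 f j R) (S : List ℕ → Prop) :
    Gd U KK 𝓕 f j (mix j R S) := h.congr (fun _ hl hj => Or.inl ⟨hj, hl⟩) sub_mix

theorem mix_top {j : ℕ} {R : Set (List ℕ)} {S : List ℕ → Prop} {l : List ℕ} (h : l ∈ mix j R S)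
    (hl : j < l.length) : S l := h.elim (fun h => absurd h.1 (not_le.2 hl)) fun h => h.2

theorem Gd.part {γ : Type} [Finite γ] {j : ℕ} {R : Set (List ℕ)} (hR : Gd U KK 𝓕 f j R)
    (h : List ℕ → γ) : ∃ i R', Gd U KK 𝓕 f j R' ∧ Sub j R' R ∧
      ∀ l ∈ R', l.length = j → h l = i := by
  classical
  induction j generalizing R h with
  | zero => exact ⟨h [], R, hR, Sub.rfl, fun l _ hl => by rw [List.length_eq_zero_iff.1 hl]⟩
  | succ j ih =>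
    by_contra hc
    obtain ⟨hR, p, hp, hT⟩ := gd_succ.1 hR
    have key : ∀ s : Finset γ, ∃ q, p ⊆ q ∧ Cons U KK (j + 1) q ∧ ∃ R1, Sub j R1 R ∧
        Gd U KK 𝓕 f j R1 ∧ ∃ A ∈ 𝓕, ∀ i ∈ s, ∀ x ∈ A, ∀ R'', Gd U KK 𝓕 f j R'' →
          ¬ Lk j R1 (fun l => (l ∈ R ∧ h l = i) ∧ sat f q l) x R'' := by
      intro s
      induction s using Finset.induction_on with
      | empty => exact ⟨p, Finset.Subset.rfl, hp, R, Sub.rfl, hR, univ, univ_mem, by simp⟩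
      | insert i s _ ih =>
        obtain ⟨q, q1, q2, R1, s1, g1, A, hA, hd⟩ := ih
        have nT : ¬ Top U KK 𝓕 f j (mix j R1 fun l => l ∈ R ∧ h l = i) q := fun hT' =>
          hc ⟨i, _, gd_succ.2 ⟨g1.mixed _, q, q2, hT'⟩,
            fun l hl _ => hl.elim (fun a => s1 l a.2 a.1) fun a => a.2.1,
            fun l hl hj => (mix_top hl (by omega)).2⟩
        unfold Top at nT
        push Not at nT
        obtain ⟨q', a1, a2, R', a3, a4, A', a5, a6⟩ := nT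
        refine ⟨q', q1.trans a1, a2, R', (a3.trans sub_mix).trans s1, a4, A ∩ A', inter_mem hA a5,
          fun i' hi' x hx R'' g2 hl => ?_⟩
        rcases Finset.mem_insert.1 hi' with rfl | hi'
        · exact a6 x hx.2 R'' g2 (hl.mono Sub.rfl Sub.rfl fun l _ hj ⟨a, b⟩ =>
            ⟨Or.inr ⟨by simp [hj], a⟩, b⟩)
        · exact hd i' hi' x hx.1 R'' g2 (hl.mono (a3.trans sub_mix) Sub.rfl fun l _ _ ⟨a, b⟩ =>
            ⟨a, b.mono a1⟩)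
    have := Fintype.ofFinite γ
    obtain ⟨q, q1, q2, R1, s1, g1, A, hA, hd⟩ := key Finset.univ
    obtain ⟨x, x1, R'', g2, l2⟩ := hT q q1 q2 R1 s1 g1 A hA
    obtain ⟨i, R3, g3, s3, h3⟩ := ih g2 fun l => h (x :: l)
    exact hd i (Finset.mem_univ _) x x1 R3 g3 (l2.mono Sub.rfl s3 fun l hl hj ⟨a, b⟩ =>
      ⟨⟨a, h3 l hl hj⟩, b⟩)

theorem Gd.link {i : ℕ} {R : Set (List ℕ)} (hR : Gd U KK 𝓕 f (i + 1) R) :
    ∃ p, Cons U KK (i + 1) p ∧ ∀ A ∈ 𝓕, ∃ x ∈ A, ∀ q, p ⊆ q → Cons U KK (i + 1) q →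
      ∃ R3, Gd U KK 𝓕 f (i + 1) R3 ∧ Lk (i + 1) R (fun l => sat f q l.tail) x R3 := by
  obtain ⟨hR, p, hp, hT⟩ := gd_succ.1 hR
  refine ⟨p, hp, fun A hA => ?_⟩
  obtain ⟨x, x1, R'', g2, l2⟩ := hT p Finset.Subset.rfl hp R Sub.rfl hR A hA
  refine ⟨x, x1, fun q q1 q2 => ⟨mix i R'' fun l => l ∈ R ∧ sat f q l, gd_succ.2 ⟨g2.mixed _, q, q2,
    hT.mono (sub_mix.trans l2.sub) q1 fun l hl hj hs => Or.inr ⟨by omega, hl, hs⟩⟩, ?_⟩⟩
  rintro l (⟨a, b⟩ | ⟨a, b, c⟩) hj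
  · obtain ⟨c1, c2, c3⟩ := l2 l b a
    refine ⟨c1, fun _ => ?_, fun h => by omega⟩
    rcases Nat.lt_or_eq_of_le a with h | h
    · exact c2 h
    · exact (c3 h).1
  · exact ⟨b, fun h => by omega, fun _ => c⟩

theorem gd_univ (H : HK U KK 𝓕 f) (j : ℕ) : Gd U KK 𝓕 f j univ := by
  classical
  induction j with
  | zero => trivial
  | succ j ih =>
    refine gd_succ.2 ⟨ih, ∅, ⟨by simp, by simp⟩, fun q _ hq R' _ hR' A hA => ?_⟩
    cases j with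
    | zero =>
      obtain ⟨x, x1, x2⟩ := H.gen q hq A hA
      refine ⟨x, x1, R', hR', fun l hl hj => ⟨hl, fun h => by omega, fun h => ⟨trivial, ?_⟩⟩⟩
      rw [List.length_eq_zero_iff.1 h]; exact x2
    | succ i =>
      obtain ⟨p, hp, hT⟩ := hR'.link
      have e1 : ∀ᶠ x in 𝓕, ∀ a ∈ q, ∀ b ∈ p, ¬ Sim U (i + 1) (lnk a.1 x) b.1 :=
        (Finset.eventually_all q).2 fun a ha => (Finset.eventually_all p).2 fun b hb =>
          H.esc _ _ (hq.1 a ha) _ (hp.1 b hb)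
      have e2 : ∀ᶠ x in 𝓕, ∀ a ∈ q, ∀ b ∈ q,
          Sim U (i + 1) (lnk a.1 x) (lnk b.1 x) → a.2 = b.2 :=
        (Finset.eventually_all q).2 fun a ha => (Finset.eventually_all q).2 fun b hb => by
          by_cases hs : Sim U (i + 1 + 1) a.1 b.1
          · exact Eventually.of_forall fun _ _ => hq.2 a ha b hb hs
          · exact mem_of_superset (H.sep _ _ (hq.1 a ha) _ (hq.1 b hb) hs) fun x hx h => absurd h hx
      obtain ⟨x, ⟨x1, x2, x3⟩, hx⟩ := hT _ (inter_mem hA (e1.and e2))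
      obtain ⟨R3, g3, l3⟩ := hx (p ∪ q.image fun a => (lnk a.1 x, a.2)) Finset.subset_union_left (by
        constructor
        · intro a ha
          rcases Finset.mem_union.1 ha with ha | ha
          · exact hp.1 a ha
          · obtain ⟨a, ha', rfl⟩ := Finset.mem_image.1 ha
            exact H.lk _ _ (hq.1 a ha') x
        · intro a ha b hb hs
          rcases Finset.mem_union.1 ha with ha | ha <;> rcases Finset.mem_union.1 hb with hb | hb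
          · exact hp.2 a ha b hb hs
          · obtain ⟨b, hb', rfl⟩ := Finset.mem_image.1 hb
            exact absurd hs.symm (x2 b hb' a ha)
          · obtain ⟨a, ha', rfl⟩ := Finset.mem_image.1 ha
            exact absurd hs (x2 a ha' b hb)
          · obtain ⟨a, ha', rfl⟩ := Finset.mem_image.1 ha
            obtain ⟨b, hb', rfl⟩ := Finset.mem_image.1 hb
            exact x3 a ha' b hb' hs)
      exact ⟨x, x1, R3, g3, l3.mono Sub.rfl Sub.rfl fun l _ _ h => ⟨trivial, fun a ha =>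
        h (lnk a.1 x, a.2) (Finset.mem_union_right _ (Finset.mem_image_of_mem _ ha))⟩⟩

theorem exists_wn {γ : Type} [Finite γ] (hV : ∀ c : γ → V, ∃ v, ∀ d, v ≠ c d) {i : ℕ}
    {R0 : Set (List ℕ)} (h0 : Gd U KK 𝓕 f (i + 1) R0) (g : List ℕ → γ) :
    ∃ d R1, Gd U KK 𝓕 f (i + 1) R1 ∧ Sub (i + 1) R1 R0 ∧ Wn U KK 𝓕 f (i + 1) g d R1 := by
  classical
  by_contra hc
  have key : ∀ s : Finset γ, ∃ R1, Sub (i + 1) R1 R0 ∧ Gd U KK 𝓕 f (i + 1) R1 ∧ ∀ d ∈ s,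
      ∃ A ∈ 𝓕, ∃ Kf, Frs U KK 𝓕 (i + 1) Kf ∧ ∃ c, ∀ x ∈ A, ∀ t ∈ Kf x, ∀ R',
        Gd U KK 𝓕 f (i + 1) R' →
        ¬ Lk (i + 1) R1 (fun l => g l = d ∧ ∀ κ ∈ t, f (κ l.tail) ≠ c) x R' := by
    intro s
    induction s using Finset.induction_on with
    | empty => exact ⟨R0, Sub.rfl, h0, by simp⟩
    | insert d s _ ih =>
      obtain ⟨R1, s1, g1, hd⟩ := ih
      have nW : ¬ Wn U KK 𝓕 f (i + 1) g d R1 := fun h => hc ⟨d, R1, g1, s1, h⟩
      unfold Wn at nW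
      push Not at nW
      obtain ⟨R2, s2, g2, A, hA, Kf, hK, c, h⟩ := nW
      refine ⟨R2, s2.trans s1, g2, fun d' hd' => ?_⟩
      rcases Finset.mem_insert.1 hd' with rfl | hd'
      · exact ⟨A, hA, Kf, hK, c, h⟩
      · obtain ⟨A', hA', Kf', hK', c', h'⟩ := hd d' hd'
        exact ⟨A', hA', Kf', hK', c', fun x hx t ht R' g3 hl =>
          h' x hx t ht R' g3 (hl.mono s2 Sub.rfl fun _ _ _ h => h)⟩
  have := Fintype.ofFinite γ
  obtain ⟨R1, -, g1, hd⟩ := key Finset.univ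
  choose A hA Kf hK c hd using fun d => hd d (Finset.mem_univ d)
  obtain ⟨v, hv⟩ := hV c
  obtain ⟨p, hp, hT⟩ := g1.link
  obtain ⟨x, x1, hx⟩ := hT _ (iInter_mem.2 fun d => inter_mem (hA d) (hK d (p.image Prod.fst)
    fun μ hμ => by
      obtain ⟨a, ha, rfl⟩ := Finset.mem_image.1 hμ
      exact hp.1 a ha))
  choose t t1 t2 using fun d => (mem_iInter.1 x1 d).2
  obtain ⟨R3, g3, l3⟩ := hx (p ∪ (Finset.univ.biUnion t).image fun κ => (κ, v))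
      Finset.subset_union_left (by
    constructor
    · intro a ha
      rcases Finset.mem_union.1 ha with ha | ha
      · exact hp.1 a ha
      · obtain ⟨a, ha', rfl⟩ := Finset.mem_image.1 ha
        obtain ⟨d, -, ha2⟩ := Finset.mem_biUnion.1 ha'
        exact (t2 d a ha2).1
    · intro a ha b hb hs
      rcases Finset.mem_union.1 ha with ha | ha <;> rcases Finset.mem_union.1 hb with hb | hb
      · exact hp.2 a ha b hb hs
      · obtain ⟨b, hb', rfl⟩ := Finset.mem_image.1 hb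
        obtain ⟨d, -, hb2⟩ := Finset.mem_biUnion.1 hb'
        exact absurd hs.symm ((t2 d b hb2).2 _ (Finset.mem_image_of_mem _ ha))
      · obtain ⟨a, ha', rfl⟩ := Finset.mem_image.1 ha
        obtain ⟨d, -, ha2⟩ := Finset.mem_biUnion.1 ha'
        exact absurd hs ((t2 d a ha2).2 _ (Finset.mem_image_of_mem _ hb))
      · obtain ⟨a, ha', rfl⟩ := Finset.mem_image.1 ha
        obtain ⟨b, hb', rfl⟩ := Finset.mem_image.1 hb
        rfl)
  obtain ⟨d, R4, g4, s4, h4⟩ := g3.part fun l => g (x :: l)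
  refine hd d x (mem_iInter.1 x1 d).1 (t d) (t1 d) R4 g4 (l3.mono Sub.rfl s4 fun l hl hj h =>
    ⟨h4 l hl hj, fun κ hκ => ?_⟩)
  rw [h (κ, v) (Finset.mem_union_right _ (Finset.mem_image_of_mem _
    (Finset.mem_biUnion.2 ⟨d, Finset.mem_univ _, hκ⟩)))]
  exact hv d

theorem exists_gen (k : ℕ) (hc : (KK 1).Countable) (he : ∀ κ ∈ KK 1, Esc U 0 κ)
    [𝓕.IsCountablyGenerated] (hF : (U : Filter ℕ) ≤ 𝓕) : ∃ f : Finset ℕ → Fin (k + 1),
      ∀ q, Cons U KK 1 q → ∀ B ∈ 𝓕, ∃ y ∈ B, sat f q [y] := by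
  classical
  obtain ⟨A, hA⟩ := 𝓕.exists_antitone_basis
  have hq : {q : Finset (Co × Fin (k + 1)) | Cons U KK 1 q}.Countable :=
    ((countable_setOf_finite_subset (hc.prod (countable_univ (α := Fin (k + 1))))).preimage
      Finset.coe_injective).mono fun q hq =>
        And.intro q.finite_toSet fun p hp => And.intro (hq.1 p hp) trivial
  have := hq.to_subtype
  let O : {q : Finset (Co × Fin (k + 1)) | Cons U KK 1 q} × ℕ → Set (Finset ℕ → Fin (k + 1)) :=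
    fun r => {f | ∃ y ∈ A r.2, sat f r.1.1 [y]}
  have ho : ∀ r, IsOpen (O r) := by
    intro r
    have : O r = ⋃ y ∈ A r.2, ⋂ p ∈ r.1.1, (fun f : Finset ℕ → Fin (k + 1) => f (p.1 [y])) ⁻¹'
        {p.2} := by
      ext f; simp only [O, sat, mem_setOf_eq, mem_iUnion, mem_iInter, mem_preimage,
        mem_singleton_iff, exists_prop]
    rw [this]
    exact isOpen_biUnion fun y _ => isOpen_biInter_finset fun κ _ =>
      (isOpen_discrete _).preimage (continuous_apply _)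
  have hden : ∀ r, Dense (O r) := by
    rintro ⟨⟨q, hq⟩, n⟩
    refine dense_iff_inter_open.2 fun V hV ⟨f0, hf0⟩ => ?_
    obtain ⟨I, u, hu, hI⟩ := isOpen_pi_iff.1 hV f0 hf0
    have e1 : ∀ᶠ y in (U : Filter ℕ), ∀ p ∈ q, ∀ t ∈ I, p.1 [y] ≠ t :=
      (Finset.eventually_all q).2 fun p hp => (Finset.eventually_all I).2 fun t _ =>
        he _ (hq.1 p hp) fun _ => t
    have e2 : ∀ᶠ y in (U : Filter ℕ), ∀ a ∈ q, ∀ b ∈ q, a.1 [y] = b.1 [y] → a.2 = b.2 :=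
      (Finset.eventually_all q).2 fun a ha => (Finset.eventually_all q).2 fun b hb => by
        by_cases hs : Sim U 1 a.1 b.1
        · exact Eventually.of_forall fun _ _ => hq.2 a ha b hb hs
        · exact (Ultrafilter.eventually_not.2 fun h => hs (sim_succ.2 h)).mono
            fun x hx h => absurd h hx
    obtain ⟨y, ⟨y1, y2⟩, y3⟩ := ((e1.and e2).and (hF (hA.mem n))).exists
    refine ⟨fun t => if h : ∃ p ∈ q, p.1 [y] = t then h.choose.2 else f0 t, hI fun i hi => ?_,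
      y, y3, fun p hp => ?_⟩
    · rw [dif_neg]
      · exact (hu i hi).2
      · rintro ⟨p, hp, h⟩
        exact y1 p hp i hi h
    · have h : ∃ p' ∈ q, p'.1 [y] = p.1 [y] := ⟨p, hp, rfl⟩
      simp only [dif_pos h]
      exact y2 _ h.choose_spec.1 p hp h.choose_spec.2
  obtain ⟨f, hf⟩ := (dense_iInter_of_isOpen ho hden).nonempty
  refine ⟨f, fun q hq B hB => ?_⟩
  obtain ⟨n, hn⟩ := hA.mem_iff.1 hB
  obtain ⟨y, y1, y2⟩ := mem_iInter.1 hf (⟨q, hq⟩, n)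
  exact ⟨y, hn y1, y2⟩

end Pool.Agent.H83.Soc
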