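import Pool.Agent.H83.Soc5
import Pool.Agent.H83.Soc3

/-!
For every `m ≥ 1` and `k` there is a colouring `f` of `(m+1)`-sets with `k+1` colours such that
every `k`-colouring of `(m+1)`-sets and every finite colouring of `m`-sets have a common infinite
homogeneous set computing no infinite `f`-homogeneous set.
-/

set_option autoImplicit false

namespace Pool.Agent.H83.Soc

open Filter Set

section build

variable {U : Ultrafilter ℕ} {Φ : ℕ → List ℕ → Set ℕ} {KK : ℕ → Set Co} {𝓕 : Filter ℕ}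
  {V γ : Type} {f : Finset ℕ → V} {m : ℕ} {g : List ℕ → γ} {d : γ} {R0 : Set (List ℕ)}

structure HG (U : Ultrafilter ℕ) (Φ : ℕ → List ℕ → Set ℕ) (KK : ℕ → Set Co) (𝓕 : Filter ℕ)
    (m : ℕ) : Prop where
  mono : ∀ e F y, Φ e F ⊆ Φ e (y :: F)
  lk : ∀ j, ∀ κ ∈ KK (j + 1), ∀ x, lnk κ x ∈ KK j
  gt : ∀ n, {y | n < y} ∈ 𝓕
  big : ∀ e b F, ¬ Cl U (Big (Φ e) b) F → {y | ¬ Cl U (Big (Φ e) b) (y :: F)} ∈ 𝓕
  cl : ∀ e F, Cl U (fun G => Fn U (Φ e) G ∨ JJ U (KK m) (Out (Φ e) 0 (m + 1)) m G) F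
  w1 : ∀ e F, W U (fun G => Fn U (Φ e) G ∨ JJ U (KK m) (Out (Φ e) 0 (m + 1)) m G) F ∈ U →
    W U (fun G => Fn U (Φ e) G ∨ JJ U (KK m) (Out (Φ e) 0 (m + 1)) m G) F ∈ 𝓕
  w2 : ∀ e s F, W U (fun G => s ∈ Out (Φ e) 0 (m + 1) G) F ∈ U →
    W U (fun G => s ∈ Out (Φ e) 0 (m + 1) G) F ∈ 𝓕
  w3 : ∀ e j, ∀ κ ∈ KK (j + 1), ∀ G F, W U (fun G' => ∃ z P, G' = z :: P ∧ G <:+ P ∧
      EE U (Out (Φ e) 0 (m + 1)) j G' (lnk κ z)) F ∈ U → W U (fun G' => ∃ z P, G' = z :: P ∧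
      G <:+ P ∧ EE U (Out (Φ e) 0 (m + 1)) j G' (lnk κ z)) F ∈ 𝓕
  good : ∀ e F, JJ U (KK m) (Out (Φ e) 0 (m + 1)) m F → Frs U KK 𝓕 m fun x =>
    {s | ∃ κ ∈ KK m, s = {κ} ∧ EE U (Out (Φ e) 0 (m + 1)) m (x :: F) κ}

def Ext (m : ℕ) (N : List ℕ) (R R' : Set (List ℕ)) : Prop :=
  ∀ s : List ℕ, s.Sublist N → ∀ l ∈ R', s.length + l.length ≤ m → s.reverse ++ l ∈ R

theorem Ext.nil {R : Set (List ℕ)} : Ext m [] R R := by
  intro s hs l hl _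
  rw [List.sublist_nil.1 hs]; exact hl

theorem Ext.trans {N1 N2 : List ℕ} {R R1 R2 : Set (List ℕ)} (h1 : Ext m N1 R R1)
    (h2 : Ext m N2 R1 R2) : Ext m (N2 ++ N1) R R2 := by
  intro s hs l hl hj
  obtain ⟨s2, s1, rfl, a2, a1⟩ := List.sublist_append_iff.1 hs
  rw [List.length_append] at hj
  rw [List.reverse_append, List.append_assoc]
  exact h1 s1 a1 _ (h2 s2 a2 l hl (by omega)) (by simp; omega)

structure Cnd (U : Ultrafilter ℕ) (Φ : ℕ → List ℕ → Set ℕ) (KK : ℕ → Set Co) (𝓕 : Filter ℕ)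
    (f : Finset ℕ → V) (m : ℕ) (g : List ℕ → γ) (d : γ) (R0 : Set (List ℕ))
    (F : List ℕ) (R : Set (List ℕ)) (L : Finset (ℕ × ℕ)) : Prop where
  gd : Gd U KK 𝓕 f m R
  ext : Ext m F R0 R
  hom : ∀ s : List ℕ, s.Sublist F → s ≠ [] → ∀ l ∈ R, s.length + l.length = m + 1 →
    g (s.reverse ++ l) = d
  pw : F.Pairwise fun y x => x < y
  pr : ∀ p ∈ L, ¬ Cl U (Big (Φ p.1) p.2) F

theorem Cnd.step (H : HG U Φ KK 𝓕 m) (hW : Wn U KK 𝓕 f m g d R0) {F : List ℕ}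
    {R : Set (List ℕ)} {L : Finset (ℕ × ℕ)} (h : Cnd U Φ KK 𝓕 f m g d R0 F R L)
    {Kf : ℕ → Set (Finset Co)} (hK : Frs U KK 𝓕 m Kf) (c : V) {B : Set ℕ} (hB : B ∈ 𝓕) :
    ∃ x ∈ B, ∃ t ∈ Kf x, ∃ R', Ext m [x] R R' ∧
      (∀ l ∈ R', l.length = m → ∀ κ ∈ t, f (κ l) ≠ c) ∧ Cnd U Φ KK 𝓕 f m g d R0 (x :: F) R' L := by
  have hB' : (B ∩ {y | ∀ p ∈ L, ¬ Cl U (Big (Φ p.1) p.2) (y :: F)}) ∩
      {y | F.toFinset.sup id < y} ∈ 𝓕 := inter_mem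
    (inter_mem hB ((Finset.eventually_all L).2 fun p hp => H.big _ _ _ (h.pr p hp))) (H.gt _)
  obtain ⟨x, ⟨⟨x1, x2⟩, x3⟩, t, t1, R', g1, l1⟩ := hW R
    (fun l hl hj => h.ext [] (List.nil_sublist _) l hl (by simpa using hj)) h.gd _ hB' Kf hK c
  have e1 : Ext m [x] R R' := by
    intro s hs l hl hj
    rcases List.sublist_singleton.1 hs with rfl | rfl
    · exact (l1 l hl (by simpa using hj)).1
    · simp only [List.length_singleton] at hj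
      exact (l1 l hl (by omega)).2.1 (by omega)
  refine ⟨x, x1, t, t1, R', e1, fun l hl hj => ((l1 l hl hj.le).2.2 hj).2, g1,
    h.ext.trans e1, ?_, List.pairwise_cons.2 ⟨fun y hy => ?_, h.pw⟩, x2⟩
  · intro s hs hne l hl hj
    have hpos := List.length_pos_iff.2 hne
    rcases List.sublist_cons_iff.1 hs with hs | ⟨r, rfl, hr⟩
    · exact h.hom s hs hne l (l1 l hl (by omega)).1 hj
    · rw [List.reverse_cons, List.append_assoc, List.singleton_append]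
      rw [List.length_cons] at hj
      by_cases hr0 : r = []
      · subst hr0
        simp only [List.length_nil] at hj
        exact ((l1 l hl (by omega)).2.2 (by omega)).1
      · have := List.length_pos_iff.2 hr0
        exact h.hom r hr hr0 _ ((l1 l hl (by omega)).2.1 (by omega)) (by simp; omega)
  · exact (Finset.le_sup (f := id) (List.mem_toFinset.2 hy)).trans_lt x3

theorem Cnd.step' [Inhabited V] (H : HG U Φ KK 𝓕 m) (hW : Wn U KK 𝓕 f m g d R0) {F : List ℕ}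
    {R : Set (List ℕ)} {L : Finset (ℕ × ℕ)} (h : Cnd U Φ KK 𝓕 f m g d R0 F R L)
    {B : Set ℕ} (hB : B ∈ 𝓕) :
    ∃ x ∈ B, ∃ R', Ext m [x] R R' ∧ Cnd U Φ KK 𝓕 f m g d R0 (x :: F) R' L := by
  obtain ⟨x, x1, -, -, R', h1, -, h2⟩ := h.step H hW (Kf := fun _ => {∅})
    (fun D _ => univ_mem' fun _ => ⟨∅, rfl, by simp⟩) default hB
  exact ⟨x, x1, R', h1, h2⟩

theorem Cnd.reach [Inhabited V] (H : HG U Φ KK 𝓕 m) (hW : Wn U KK 𝓕 f m g d R0)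
    {S : List ℕ → Prop} (hS : ∀ F, W U S F ∈ U → W U S F ∈ 𝓕) {L : Finset (ℕ × ℕ)} {F : List ℕ}
    (hc : Cl U S F) {R : Set (List ℕ)} (h : Cnd U Φ KK 𝓕 f m g d R0 F R L) :
    ∃ N R', Ext m N R R' ∧ S (N ++ F) ∧ Cnd U Φ KK 𝓕 f m g d R0 (N ++ F) R' L := by
  revert R
  refine Cl.reach (P := fun F => ∀ {R : Set (List ℕ)}, Cnd U Φ KK 𝓕 f m g d R0 F R L →
    ∃ N R', Ext m N R R' ∧ S (N ++ F) ∧ Cnd U Φ KK 𝓕 f m g d R0 (N ++ F) R' L) ?_ ?_ hc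
  · intro F hF R h
    exact ⟨[], R, Ext.nil, hF, h⟩
  · intro F h1 h2 ih R h
    obtain ⟨x, x1, R', s1, c1⟩ := h.step' H hW (hS F (W_mem h1 h2))
    obtain ⟨N, R'', a1, a2, a3⟩ := ih x x1 c1
    exact ⟨N ++ [x], R'', s1.trans a1, by simpa using a2, by simpa using a3⟩

theorem Cnd.reachE [Inhabited V] (H : HG U Φ KK 𝓕 m) (hW : Wn U KK 𝓕 f m g d R0) (e : ℕ)
    {L : Finset (ℕ × ℕ)} {j : ℕ} {F : List ℕ} {κ : Co} (hκ : κ ∈ KK j)
    (hE : EE U (Out (Φ e) 0 (m + 1)) j F κ) {R : Set (List ℕ)}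
    (h : Cnd U Φ KK 𝓕 f m g d R0 F R L) : ∃ N R', Ext m N R R' ∧
      Cnd U Φ KK 𝓕 f m g d R0 (N ++ F) R' L ∧ ∃ s : List ℕ, s.Sublist N ∧ s.length = j ∧
        κ s.reverse ∈ Out (Φ e) 0 (m + 1) (N ++ F) := by
  induction j generalizing F κ R with
  | zero =>
    obtain ⟨N, R', a1, a2, a3⟩ := h.reach H hW (H.w2 e (κ [])) hE
    exact ⟨N, R', a1, a3, [], List.nil_sublist _, rfl, a2⟩
  | succ j ih =>
    obtain ⟨N, R', a1, ⟨z, P, b1, b2, b3⟩, a3⟩ := h.reach H hW (H.w3 e j κ hκ F) hE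
    obtain ⟨N2, R2, c1, c2, s, c3, c4, c5⟩ := ih (H.lk j κ hκ z) b3 a3
    have hz : [z].Sublist N := by
      cases N with
      | nil =>
        have := b2.length_le
        have h2 := congrArg List.length b1
        simp at h2; omega
      | cons y N => rw [(List.cons.inj b1).1]; simp
    refine ⟨N2 ++ N, R2, a1.trans c1, by simpa using c2, s ++ [z], c3.append hz, by simp [c4], ?_⟩
    rw [List.reverse_append, List.append_assoc]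
    exact c5

def Mt (Φ : ℕ → List ℕ → Set ℕ) (f : Finset ℕ → V) (m : ℕ) (r : ℕ × V) (F : List ℕ)
    (L : Finset (ℕ × ℕ)) : Prop :=
  (∃ b, (r.1, b) ∈ L) ∨ ∃ t ∈ Out (Φ r.1) 0 (m + 1) F, f t ≠ r.2

theorem Cnd.req [Inhabited V] (H : HG U Φ KK 𝓕 m) (hW : Wn U KK 𝓕 f m g d R0) {F : List ℕ}
    {R : Set (List ℕ)} {L : Finset (ℕ × ℕ)} (h : Cnd U Φ KK 𝓕 f m g d R0 F R L) (r : ℕ × V) :
    ∃ F' R' L', F <:+ F' ∧ L ⊆ L' ∧ Mt Φ f m r F' L' ∧ Cnd U Φ KK 𝓕 f m g d R0 F' R' L' := by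
  obtain ⟨e, c⟩ := r
  obtain ⟨N1, R1, -, h1, c1⟩ := h.reach H hW (H.w1 e) (H.cl e F)
  rcases h1 with ⟨b, hb⟩ | h1
  · refine ⟨_, R1, insert (e, b) L, List.suffix_append _ _, Finset.subset_insert _ _,
      Or.inl ⟨b, Finset.mem_insert_self _ _⟩, c1.gd, c1.ext, c1.hom, c1.pw, fun p hp => ?_⟩
    rcases Finset.mem_insert.1 hp with rfl | hp
    · exact hb
    · exact c1.pr p hp
  · obtain ⟨x, -, _, ⟨κ, k1, rfl, k2⟩, R2, -, h2, c2⟩ := c1.step H hW (H.good e _ h1) c univ_mem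
    obtain ⟨N3, R3, a1, a2, s, a3, a4, a5⟩ := c2.reachE H hW e k1 k2
    have := a1 s a3 [] a2.gd.nil (by simp [a4])
    rw [List.append_nil] at this
    exact ⟨_, R3, L, ((List.suffix_append _ _).trans (List.suffix_cons _ _)).trans
      (List.suffix_append _ _), Finset.Subset.rfl,
      Or.inr ⟨_, a5, h2 _ this (by simp [a4]) κ (Finset.mem_singleton_self _)⟩, a2⟩

theorem exists_chainG [Inhabited V] [Countable V] (H : HG U Φ KK 𝓕 m)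
    (hW : Wn U KK 𝓕 f m g d R0) (h0 : Gd U KK 𝓕 f m R0) : ∃ F : ℕ → List ℕ,
    (∀ n, F n <:+ F (n + 1)) ∧ (∀ n, ∃ y G, n < y ∧ F (n + 1) = y :: G) ∧
    (∀ n, (F n).Pairwise fun y x => x < y) ∧
    (∀ (n : ℕ) (s : List ℕ), s.Sublist (F n) → s.length = m + 1 → g s.reverse = d) ∧
    (∀ (n : ℕ) (s : List ℕ), s.Sublist (F n) → s.length = m → s.reverse ∈ R0) ∧
    ∀ e c, (∃ b, ∀ n, ∀ a ∈ Φ e (F n), a ≤ b) ∨
      ∃ n, ∃ t ∈ Out (Φ e) 0 (m + 1) (F n), f t ≠ c := by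
  obtain ⟨ρ, hρ⟩ := exists_surjective_nat (ℕ × V)
  let C := {s : List ℕ × Set (List ℕ) × Finset (ℕ × ℕ) //
    Cnd U Φ KK 𝓕 f m g d R0 s.1 s.2.1 s.2.2}
  have nxt : ∀ (n : ℕ) (s : C), ∃ s' : C, s.1.1 <:+ s'.1.1 ∧ s.1.2.2 ⊆ s'.1.2.2 ∧
      Mt Φ f m (ρ n) s'.1.1 s'.1.2.2 ∧ ∃ y G, n < y ∧ s'.1.1 = y :: G := by
    intro n s
    obtain ⟨F', X', L', h1, h2, h3, h4⟩ := s.2.req H hW (ρ n)
    obtain ⟨x, x2, X'', -, h5⟩ := h4.step' H hW (H.gt n)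
    refine ⟨⟨(x :: F', X'', L'), h5⟩, h1.trans (List.suffix_cons x F'), h2, ?_, x, F', x2, rfl⟩
    rcases h3 with h3 | ⟨t, ⟨b1, b2⟩, b3⟩
    · exact Or.inl h3
    · exact Or.inr ⟨t, ⟨b1, fun a ha => ⟨(b2 a ha).1, H.mono _ _ _ (b2 a ha).2⟩⟩, b3⟩
  choose nx h1 h2 h3 h4 using nxt
  let s0 : C := ⟨([], R0, ∅), h0, Ext.nil, fun s hs hne => absurd (List.sublist_nil.1 hs) hne,
    List.Pairwise.nil, by simp⟩
  let s : ℕ → C := fun n => Nat.rec s0 nx n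
  have hs : ∀ n, s (n + 1) = nx n (s n) := fun _ => rfl
  have m1 : ∀ n m, n ≤ m → (s n).1.1 <:+ (s m).1.1 ∧ (s n).1.2.2 ⊆ (s m).1.2.2 := by
    intro n m h
    induction m, h using Nat.le_induction with
    | base => exact ⟨List.suffix_rfl, Finset.Subset.rfl⟩
    | succ m _ ih => exact ⟨ih.1.trans (h1 m _), ih.2.trans (h2 m _)⟩
  refine ⟨fun n => (s n).1.1, fun n => h1 n _, fun n => h4 n _, fun n => (s n).2.pw,
    fun n t ht hl => ?_, fun n t ht hl => ?_, fun e c => ?_⟩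
  · have := (s n).2.hom t ht (by rintro rfl; simp at hl) [] (s n).2.gd.nil (by simp [hl])
    rwa [List.append_nil] at this
  · have := (s n).2.ext t ht [] (s n).2.gd.nil (by simp [hl])
    rwa [List.append_nil] at this
  obtain ⟨n, hn⟩ := hρ (e, c)
  have := h3 n (s n)
  rw [hn, ← hs] at this
  rcases this with ⟨b, hb⟩ | h
  · refine Or.inl ⟨b, fun m a ha => ?_⟩
    by_contra hab
    refine (s (max m (n + 1))).2.pr _ ((m1 _ _ (le_max_right _ _)).2 hb)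
      (Cl.base ⟨a, not_le.1 hab, ?_⟩)
    exact suf_mono (S := fun G => a ∈ Φ e G) (fun G y h => H.mono e G y h)
      (m1 _ _ (le_max_left _ _)).1 ha
  · exact Or.inr ⟨n + 1, h⟩

end build

theorem exists_HG (Φ : ℕ → List ℕ → Set ℕ) (hΦ : ∀ e F y, Φ e F ⊆ Φ e (y :: F)) (m k : ℕ) :
    ∃ (U : Ultrafilter ℕ) (KK : ℕ → Set Co) (𝓕 : Filter ℕ) (f : Finset ℕ → Fin (k + 1)),
      HG U Φ KK 𝓕 m ∧ HK U KK 𝓕 f := by
  classical
  let U : Ultrafilter ℕ := hyperfilter ℕ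
  have hU : (U : Filter ℕ) ≤ atTop := Nat.hyperfilter_le_atTop
  obtain ⟨KK, k0, k1, k2, k3, k4⟩ :=
    exists_KK hU fun p : ℕ × ℕ × ℕ => Out (Φ p.1) p.2.1 p.2.2
  have hD : {D : Finset Co | ∀ μ ∈ D, μ ∈ KK m}.Countable :=
    ((countable_setOf_finite_subset (k0 m)).preimage Finset.coe_injective).mono fun D hD =>
      And.intro D.finite_toSet hD
  let 𝒮 : Set (Set ℕ) := (range fun n : ℕ => {y | n < y}) ∪
    (range fun p : ℕ × ℕ × List ℕ => {y | ¬ Cl U (Big (Φ p.1) p.2.1) (y :: p.2.2)}) ∪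
    (range fun p : ℕ × List ℕ =>
      W U (fun G => Fn U (Φ p.1) G ∨ JJ U (KK m) (Out (Φ p.1) 0 (m + 1)) m G) p.2) ∪
    (range fun p : ℕ × Finset ℕ × List ℕ =>
      W U (fun G => p.2.1 ∈ Out (Φ p.1) 0 (m + 1) G) p.2.2) ∪
    (⋃ j, ⋃ κ ∈ KK (j + 1), range fun p : ℕ × List ℕ × List ℕ =>
      W U (fun G' => ∃ z P, G' = z :: P ∧ p.2.1 <:+ P ∧
        EE U (Out (Φ p.1) 0 (m + 1)) j G' (lnk κ z)) p.2.2) ∪
    (⋃ D ∈ {D : Finset Co | ∀ μ ∈ D, μ ∈ KK m}, range fun p : ℕ × List ℕ => {x | ∃ s ∈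
      {s : Finset Co | ∃ κ ∈ KK m, s = {κ} ∧ EE U (Out (Φ p.1) 0 (m + 1)) m (x :: p.2) κ},
      ∀ κ ∈ s, κ ∈ KK m ∧ ∀ μ ∈ D, ¬ Sim U m κ μ}) ∪
    (⋃ j, ⋃ κ ∈ KK (j + 1), ⋃ μ ∈ KK j, {{x | ¬ Sim U j (lnk κ x) μ}}) ∪
    (⋃ j, ⋃ κ ∈ KK (j + 1), ⋃ μ ∈ KK (j + 1), {{x | ¬ Sim U j (lnk κ x) (lnk μ x)}})
  have hc : 𝒮.Countable := (((((((countable_range _).union (countable_range _)).union
    (countable_range _)).union (countable_range _)).union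
    (countable_iUnion fun j => (k0 _).biUnion fun _ _ => countable_range _)).union
    (hD.biUnion fun _ _ => countable_range _)).union
    (countable_iUnion fun j => (k0 _).biUnion fun _ _ => (k0 _).biUnion fun _ _ =>
      countable_singleton _)).union
    (countable_iUnion fun j => (k0 _).biUnion fun _ _ => (k0 _).biUnion fun _ _ =>
      countable_singleton _)
  let 𝓕 : Filter ℕ := generate (𝒮 ∩ U.sets)
  haveI : 𝓕.IsCountablyGenerated := ⟨⟨_, hc.mono inter_subset_left, rfl⟩⟩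
  have hm : ∀ B ∈ 𝒮, B ∈ U → B ∈ 𝓕 := fun B h h' => mem_generate_of_mem ⟨h, h'⟩
  obtain ⟨f, hf⟩ := exists_gen (𝓕 := 𝓕) k (k0 1) (fun κ hκ => (k3 0 κ hκ).2)
    (le_generate_iff.2 inter_subset_right)
  refine ⟨U, KK, 𝓕, f, ⟨hΦ, fun j κ hκ => (k3 j κ hκ).1,
    fun n => hm _ ?_ (hU (eventually_gt_atTop n)), fun e b F h => hm _ ?_ (not_cl_step h),
    fun e F => cl_JJ (hΦ e) k1 k2 (fun j b r => k4 j (e, b, r)) m 0 F, fun e F => hm _ ?_,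
    fun e s F => hm _ ?_, fun e j κ hκ G F => hm _ ?_, fun e F h D hD => hm _ ?_ ?_⟩,
    fun j κ hκ => (k3 j κ hκ).1, fun j κ hκ μ hμ => hm _ ?_ ((k3 j κ hκ).2 μ),
    fun j κ hκ μ hμ h => hm _ ?_ (Ultrafilter.eventually_not.2 fun h' => h (sim_succ.2 h')), hf⟩
  · exact Or.inl (Or.inl (Or.inl (Or.inl (Or.inl (Or.inl (Or.inl ⟨n, rfl⟩))))))
  · exact Or.inl (Or.inl (Or.inl (Or.inl (Or.inl (Or.inl (Or.inr ⟨(e, b, F), rfl⟩))))))
  · exact Or.inl (Or.inl (Or.inl (Or.inl (Or.inl (Or.inr ⟨(e, F), rfl⟩)))))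
  · exact Or.inl (Or.inl (Or.inl (Or.inl (Or.inr ⟨(e, s, F), rfl⟩))))
  · exact Or.inl (Or.inl (Or.inl (Or.inr
      (mem_iUnion.2 ⟨j, mem_iUnion₂.2 ⟨κ, hκ, (e, G, F), rfl⟩⟩))))
  · exact Or.inl (Or.inl (Or.inr (mem_iUnion₂.2 ⟨D, hD, (e, F), rfl⟩)))
  · refine mem_of_superset (h D) fun x ⟨κ, a1, a2, a3⟩ => ⟨{κ}, ⟨κ, a1, rfl, a2⟩, fun κ' h' => ?_⟩
    rw [Finset.mem_singleton.1 h']; exact ⟨a1, a3⟩
  · exact Or.inl (Or.inr (mem_iUnion.2 ⟨j, mem_iUnion₂.2 ⟨κ, hκ, mem_iUnion₂.2 ⟨μ, hμ, rfl⟩⟩⟩))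
  · exact Or.inr (mem_iUnion.2 ⟨j, mem_iUnion₂.2 ⟨κ, hκ, mem_iUnion₂.2 ⟨μ, hμ, rfl⟩⟩⟩)

open Pool.Agent.H37 in
theorem mainG (i k k' : ℕ) : ∃ f : Finset ℕ → Fin (k + 1),
    ∀ (g : Finset ℕ → Fin k) (g' : Finset ℕ → Fin k'), ∃ (H : Set ℕ) (d : Fin k) (d' : Fin k'),
      H.Infinite ∧ (∀ s : Finset ℕ, ↑s ⊆ H → s.card = i + 2 → g s = d) ∧
      (∀ s : Finset ℕ, ↑s ⊆ H → s.card = i + 1 → g' s = d') ∧
      ∀ (G : Set ℕ) (c : Fin (k + 1)) (χ ψ : ℕ → ℕ),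
        (∀ m ∈ H, χ m = 1) → (∀ m ∉ H, χ m = 0) → (∀ m, ψ m = 1 ↔ m ∈ G) →
        TuringReducible (fun m => Part.some (ψ m)) (fun m => Part.some (χ m)) → G.Infinite →
        ∃ t : Finset ℕ, ↑t ⊆ G ∧ t.card = i + 2 ∧ f t ≠ c := by
  classical
  obtain ⟨U, KK, 𝓕, f, H, HK⟩ := exists_HG outp (fun e F y a ⟨z, G, h1, h2⟩ =>
    ⟨z, G, h1.trans (List.suffix_cons y F), h2⟩) (i + 1) k
  refine ⟨f, fun g g' => ?_⟩
  obtain ⟨d', R1, g1, -, p1⟩ := (gd_univ HK (i + 1)).part fun l => g' l.toFinset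
  obtain ⟨d, R0, g0, s0, hW⟩ := exists_wn (γ := Fin k) (fun c => by
    by_contra hc
    push Not at hc
    have := Fintype.card_le_of_surjective c fun v => (hc v).imp fun _ h => h.symm
    simp at this) g1 fun l => g l.toFinset
  obtain ⟨F, h1, h2, h3, h5, h6, h4⟩ := exists_chainG H hW g0
  have m1 : ∀ n m, n ≤ m → F n <:+ F m := by
    intro n m h
    induction m, h using Nat.le_induction with
    | base => exact List.suffix_rfl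
    | succ m _ ih => exact ih.trans (h1 m)
  have sl : ∀ s : Finset ℕ, (↑s : Set ℕ) ⊆ {x | ∃ n, x ∈ F n} →
      ∃ (n : ℕ) (l : List ℕ), l.Sublist (F n) ∧ l.length = s.card ∧ l.reverse.toFinset = s := by
    intro s hs
    choose! ν hν using hs
    have e : ((F (s.sup ν)).filter (· ∈ s)).toFinset = s := by
      ext a
      simp only [List.mem_toFinset, List.mem_filter, decide_eq_true_eq]
      exact ⟨fun h => h.2, fun h => ⟨(m1 _ _ (Finset.le_sup h)).subset (hν h), h⟩⟩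
    refine ⟨s.sup ν, (F (s.sup ν)).filter (· ∈ s), List.filter_sublist, ?_, by
      rw [List.toFinset_reverse, e]⟩
    rw [← List.toFinset_card_of_nodup (((h3 _).imp fun h => h.ne').filter _), e]
  refine ⟨{x | ∃ n, x ∈ F n}, d, d', Set.infinite_of_forall_exists_gt fun n => ?_,
    fun s hs hc => ?_, fun s hs hc => ?_, ?_⟩
  · obtain ⟨y, G, y1, y2⟩ := h2 n
    exact ⟨y, ⟨n + 1, by rw [y2]; exact List.mem_cons_self⟩, y1⟩
  · obtain ⟨n, l, a1, a2, a3⟩ := sl s hs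
    rw [← a3]; exact h5 n l a1 (a2.trans hc)
  · obtain ⟨n, l, a1, a2, a3⟩ := sl s hs
    rw [← a3]
    exact p1 _ (s0 _ (h6 n l a1 (a2.trans hc)) (by simp [a2, hc])) (by simp [a2, hc])
  · intro G c χ ψ c1 c0 hψ hr hG
    obtain ⟨e, he⟩ := exists_app (x := χ) hr
    have key : ∀ n y P, y :: P <:+ F n →
        pre (fun m => if m ∈ y :: P then 1 else 0) (y + 1) = pre χ (y + 1) := by
      intro n y P hs
      refine pre_congr fun i hi => ?_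
      split_ifs with h
      · exact (c1 i ⟨n, hs.subset h⟩).symm
      · refine (c0 i ?_).symm
        rintro ⟨m, hm⟩
        obtain ⟨Q, hQ⟩ := hs.trans (m1 _ _ (le_max_left n m))
        have hi' := (m1 _ _ (le_max_right n m)).subset hm
        have hp := h3 (max n m)
        rw [← hQ] at hi' hp
        rcases List.mem_append.1 hi' with hi' | hi'
        · have := (List.pairwise_append.1 hp).2.2 i hi' y List.mem_cons_self
          omega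
        · exact h hi'
    have k1 : ∀ n, ∀ a ∈ outp e (F n), a ∈ G := by
      rintro n a ⟨y, P, hs, ha⟩
      rw [key n y P hs] at ha
      have : 1 ∈ app e χ a := mem_app.2 ⟨_, ha⟩
      rw [← he] at this
      exact (hψ a).1 (Part.mem_some_iff.1 this).symm
    have k2 : ∀ a ∈ G, ∃ n, a ∈ outp e (F n) := by
      intro a ha
      have : 1 ∈ app e χ a := by rw [← he]; exact Part.mem_some_iff.2 ((hψ a).2 ha).symm
      obtain ⟨k, hk⟩ := mem_app.1 this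
      obtain ⟨y, P, y1, y2⟩ := h2 k
      refine ⟨k + 1, y, P, by rw [y2], ?_⟩
      rw [key (k + 1) y P (by rw [y2])]
      exact U_mon e _ _ _ _ (pre_pf χ (by omega)) hk
    rcases h4 e c with ⟨b, hb⟩ | ⟨n, t, ⟨b1, b2⟩, b3⟩
    · obtain ⟨a, ha, hab⟩ := hG.exists_gt b
      obtain ⟨n, hn⟩ := k2 a ha
      exact absurd (hb n a hn) (not_le.2 hab)
    · exact ⟨t, fun a ha => k1 n a (b2 a ha).2, b1, b3⟩

end Pool.Agent.H83.Soc
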