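import Pool.Agent.H83.Soc5

/-!
Finite sums of outputs of a monotone functional give coordinates of unbounded level; good systems
of growing arity.
-/

set_option autoImplicit false

namespace Pool.Agent.H83.Soc

open Filter Set

variable {U : Ultrafilter ℕ}

def shf (a : ℕ) (κ : Co) : Co := fun l => (κ l).image (a + ·)

theorem Sim.of_shf {j a : ℕ} {κ μ : Co} (h : Sim U j (shf a κ) (shf a μ)) : Sim U j κ μ :=
  h.mono fun _ h => Finset.image_injective (add_right_injective a) h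

theorem Esc.shf {j : ℕ} {κ : Co} (h : Esc U j κ) (a : ℕ) : Esc U j (shf a κ) := by
  intro μ
  refine Ultrafilter.eventually_not.2 fun hB => ?_
  obtain ⟨x0, h0⟩ := hB.exists
  obtain ⟨x, h1, h2⟩ := (hB.and (h (lnk κ x0))).exists
  exact h2 (Sim.of_shf (a := a) (h1.trans h0.symm))

theorem exists_KK' (hU : (U : Filter ℕ) ≤ atTop) {I : Type} [Countable I]
    (Ψ : I → List ℕ → Set (Finset ℕ)) : ∃ KK : ℕ → Set Co, (∀ j, (KK j).Countable) ∧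
      (∀ j a, ∀ κ ∈ KK j, shf a κ ∈ KK j) ∧ (∀ s, (fun _ => s) ∈ KK 0) ∧
      (∀ j, ∀ κ ∈ KK (j + 1), (∀ x, lnk κ x ∈ KK j) ∧ Esc U j κ) ∧
      ∀ j i G, JJ U (KK j) (Ψ i) j G → ∃ κ ∈ KK (j + 1),
        ∀ᶠ x in (U : Filter ℕ), EE U (Ψ i) j (x :: G) (lnk κ x) := by
  let C := {S : Set Co // S.Countable ∧ ∀ a, ∀ κ ∈ S, shf a κ ∈ S}
  have st : ∀ (j : ℕ) (S : C), ∃ S' : C, (∀ κ ∈ S'.1, (∀ x, lnk κ x ∈ S.1) ∧ Esc U j κ) ∧
      ∀ i G, JJ U S.1 (Ψ i) j G → ∃ κ ∈ S'.1,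
        ∀ᶠ x in (U : Filter ℕ), EE U (Ψ i) j (x :: G) (lnk κ x) := by
    rintro j ⟨S, h1, h2⟩
    choose γ g1 g2 g3 using fun p : {p : I × List ℕ // JJ U S (Ψ p.1) j p.2} =>
      exists_glue hU h1 p.2
    refine ⟨⟨range fun q : ℕ × _ => shf q.1 (γ q.2), countable_range _, ?_⟩, ?_,
      fun i G h => ⟨_, ⟨(0, ⟨(i, G), h⟩), rfl⟩, ?_⟩⟩
    · rintro s _ ⟨⟨t, p⟩, rfl⟩
      refine ⟨(s + t, p), funext fun l => ?_⟩
      simp only [shf, Finset.image_image]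
      exact Finset.image_congr fun a _ => add_assoc _ _ _
    · rintro _ ⟨⟨t, p⟩, rfl⟩
      exact ⟨fun x => h2 t _ (g1 p x), (g2 p).shf t⟩
    · have : shf 0 (γ ⟨(i, G), h⟩) = γ ⟨(i, G), h⟩ := funext fun l => by simp [shf]
      simp only [this]
      exact g3 ⟨(i, G), h⟩
  choose nx n1 n2 using st
  let S0 : C := ⟨range fun s : Finset ℕ => fun _ => s, countable_range _, by
    rintro a _ ⟨t, rfl⟩
    exact ⟨t.image (a + ·), rfl⟩⟩
  let S : ℕ → C := fun n => Nat.rec S0 nx n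
  exact ⟨fun j => (S j).1, fun j => (S j).2.1, fun j => (S j).2.2, fun s => ⟨s, rfl⟩,
    fun j => n1 j (S j), fun j => n2 j (S j)⟩

theorem EE.mono {Ψ Ψ' : List ℕ → Set (Finset ℕ)} (hΨ : ∀ G, Ψ G ⊆ Ψ' G) {j : ℕ} {G : List ℕ}
    {κ : Co} (h : EE U Ψ j G κ) : EE U Ψ' j G κ := by
  induction j generalizing G κ with
  | zero => exact Cl.mono h fun G' _ h => hΨ G' h
  | succ j ih => exact Cl.mono h fun G' _ ⟨z, P, a, b, c⟩ => ⟨z, P, a, b, ih c⟩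

theorem EE.back' {Ψ : List ℕ → Set (Finset ℕ)} {j : ℕ} {G : List ℕ} {κ : Co}
    (h : ∀ᶠ x in (U : Filter ℕ), EE U Ψ j (x :: G) κ) : EE U Ψ j G κ := by
  cases j with
  | zero => exact Cl.step h
  | succ j => exact EE.back h

/-- sums of `r` outputs that are at least `b` -/
def Sm (Φ : List ℕ → Set ℕ) (b r : ℕ) (G : List ℕ) : Set (Finset ℕ) :=
  {s | ∃ t ∈ Out Φ b r G, s = {∑ a ∈ t, a}}

/-- nonempty sums of outputs -/
def FSm (Φ : List ℕ → Set ℕ) (G : List ℕ) : Set (Finset ℕ) :=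
  {s | ∃ t : Finset ℕ, t.Nonempty ∧ (∀ a ∈ t, a ∈ Φ G) ∧ s = {∑ a ∈ t, a}}

def Unb (U : Ultrafilter ℕ) (KK : ℕ → Set Co) (Ψ : List ℕ → Set (Finset ℕ)) (G : List ℕ) : Prop :=
  ∀ n, ∀ᶠ x in (U : Filter ℕ), ∃ j, n < j ∧ ∃ κ ∈ KK j, EE U Ψ j (x :: G) κ

variable {Φ : List ℕ → Set ℕ}

theorem EE.add (hΦ : ∀ F y, Φ F ⊆ Φ (y :: F)) {a b r j : ℕ} (hab : b ≤ a) {G : List ℕ} {κ : Co}
    (h : EE U (Sm Φ (a + 1) r) j G κ) (ha : a ∈ Pl U Φ G) :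
    EE U (Sm Φ b (r + 1)) j G (shf a κ) := by
  induction j generalizing G κ with
  | zero =>
    refine (Cl.and (S := fun G' => κ [] ∈ Sm Φ (a + 1) r G') (fun G y ⟨t, h, h'⟩ =>
      ⟨t, ⟨h.1, fun a' ha' => ⟨(h.2 a' ha').1, hΦ G y (h.2 a' ha').2⟩⟩, h'⟩)
      (fun G y h => hΦ G y h) h ha).mono fun G' _ ⟨⟨t, ⟨h1, h2⟩, h4⟩, h3⟩ => ?_
    have : a ∉ t := fun h => absurd (h2 a h).1 (by omega)
    refine ⟨insert a t, ⟨by rw [Finset.card_insert_of_notMem this, h1], fun a' ha' => ?_⟩, ?_⟩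
    · rcases Finset.mem_insert.1 ha' with h | h
      · rw [h]; exact ⟨hab, h3⟩
      · exact ⟨by have := (h2 a' h).1; omega, (h2 a' h).2⟩
    · simp only [shf, h4, Finset.image_singleton, Finset.sum_insert this]
  | succ j ih =>
    exact (Cl.tree (T := fun G => a ∈ Pl U Φ G) (fun G h => (pl_iff hΦ).1 h) h ha).mono
      fun G' _ ⟨⟨z, P, h1, h2, h3⟩, h4⟩ => ⟨z, P, h1, h2, ih h3 h4⟩

theorem cl_JJ' (hΦ : ∀ F y, Φ F ⊆ Φ (y :: F)) {KK : ℕ → Set Co}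
    (k1 : ∀ j a, ∀ κ ∈ KK j, shf a κ ∈ KK j) (k2 : ∀ s, (fun _ => s) ∈ KK 0)
    (k3 : ∀ j b r G, JJ U (KK j) (Sm Φ b r) j G → ∃ κ ∈ KK (j + 1),
        ∀ᶠ x in (U : Filter ℕ), EE U (Sm Φ b r) j (x :: G) (lnk κ x)) (r b : ℕ) (F : List ℕ) :
    Cl U (fun G => Fn U Φ G ∨ JJ U (KK r) (Sm Φ b (r + 1)) r G) F := by
  classical
  induction r generalizing b F with
  | zero =>
    by_cases hF : Fn U Φ F
    · exact Cl.base (Or.inl hF)
    refine (cl_jmp hΦ hF).mono fun G _ h => Or.inr fun D => ?_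
    refine (h (max b (D.sup fun μ => (μ []).sup id))).mono fun x ⟨a, a1, a2⟩ =>
      ⟨fun _ => {a}, k2 _, Cl.mono a2 fun G' _ h => ⟨{a}, ⟨rfl, fun a' ha' => ?_⟩, by simp⟩,
        fun μ hμ hs => ?_⟩
    · rw [Finset.mem_singleton.1 ha']; exact ⟨by omega, h⟩
    · have h1 : ({a} : Finset ℕ) = μ [] := hs
      have h2 := Finset.le_sup (f := fun μ : Co => (μ []).sup id) hμ
      simp only [← h1, Finset.sup_singleton, id] at h2
      omega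
  | succ r ih =>
    by_contra hc
    set T : List ℕ → Prop := fun G =>
      ¬ Cl U (fun G => Fn U Φ G ∨ JJ U (KK (r + 1)) (Sm Φ b (r + 1 + 1)) (r + 1) G) G with hT
    have T0 : ∀ G, T G → ¬ Fn U Φ G := fun G h h' => h (Cl.base (Or.inl h'))
    have T2 : ∀ G, T G → ∃ D : Finset Co, ∀ᶠ x in (U : Filter ℕ), ∀ a, b ≤ a →
        a ∈ Pl U Φ (x :: G) → ∀ κ ∈ KK (r + 1), EE U (Sm Φ (a + 1) (r + 1)) (r + 1) (x :: G) κ →
        ∃ μ ∈ D, Sim U (r + 1) (shf a κ) μ := by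
      intro G h
      obtain ⟨D, hD⟩ := not_forall.1
        fun h' : JJ U (KK (r + 1)) (Sm Φ b (r + 1 + 1)) (r + 1) G => h (Cl.base (Or.inr h'))
      refine ⟨D, (Ultrafilter.eventually_not.2 hD).mono fun x hx a hab ha κ hκ hE => ?_⟩
      by_contra hn
      exact hx ⟨_, k1 _ _ κ hκ, hE.add hΦ hab ha, fun μ hμ hs => hn ⟨μ, hμ, hs⟩⟩
    have T3 : ∀ G, T G → ∀ᶠ x in (U : Filter ℕ), T (x :: G) := fun G h => not_cl_step h
    have T4 : ∀ a G, T G ∧ a ∈ Pl U Φ G → ∀ᶠ x in (U : Filter ℕ),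
        T (x :: G) ∧ a ∈ Pl U Φ (x :: G) := fun a G h => (T3 G h.1).and ((pl_iff hΦ).1 h.2)
    obtain ⟨G0, h0, j0⟩ := Cl.hit T3 (cl_jmp hΦ (T0 F hc)) hc
    obtain ⟨x0, h0', a0, ha0, hP0⟩ := ((T3 G0 h0).and (j0 b)).exists
    obtain ⟨G1, h1, j1⟩ := Cl.hit (T4 a0) (cl_jmp hΦ (T0 _ h0')) ⟨h0', hP0⟩
    obtain ⟨D1, hD1⟩ := T2 G1 h1.1
    have fin : (⋃ μ ∈ D1, ⋃ μ' ∈ D1, {a | ∀ᶠ l in (Uj U (r + 1) : Filter (List ℕ)),
        ∃ n, μ l = {a + n} ∧ μ' l = {a0 + n}}).Finite := by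
      refine D1.finite_toSet.biUnion fun μ _ => D1.finite_toSet.biUnion fun μ' _ =>
        Set.Subsingleton.finite fun a ha a' ha' => ?_
      obtain ⟨l, ⟨n, l1, l2⟩, n', l3, l4⟩ :=
        (Eventually.and (f := (Uj U (r + 1) : Filter (List ℕ))) ha ha').exists
      have e1 := Finset.singleton_injective (l1.symm.trans l3)
      have e2 := Finset.singleton_injective (l2.symm.trans l4)
      omega
    obtain ⟨B, hB⟩ := fin.bddAbove
    obtain ⟨x, ⟨⟨h2, h2'⟩, hx⟩, a, ha, hP⟩ := (((T4 a0 G1 h1).and hD1).and (j1 (max a0 B))).exists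
    have hE : ∀ κ ∈ KK (r + 1), ¬ EE U (Sm Φ (a + 1) (r + 1)) (r + 1) (x :: G1) κ := by
      intro κ hκ hE
      obtain ⟨μ, m1, m2⟩ := hx a (by omega) hP κ hκ hE
      obtain ⟨μ', m3, m4⟩ := hx a0 ha0.le h2' κ hκ (hE.mono fun G s hs => by
        obtain ⟨t, ⟨t1, t2⟩, t3⟩ := hs
        exact ⟨t, ⟨t1, fun y hy => ⟨by have := (t2 y hy).1; omega, (t2 y hy).2⟩⟩, t3⟩)
      have m5 := EE.ev (Q := fun s => ∃ n, s = {n}) (fun G s hs => by
        obtain ⟨t, -, h⟩ := hs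
        exact ⟨_, h⟩) hE
      have : a ≤ B := hB (mem_iUnion₂.2 ⟨μ, m1, mem_iUnion₂.2 ⟨μ', m3,
        ((m5.and m2).and m4).mono fun l ⟨⟨⟨n, l1⟩, l2⟩, l3⟩ => by
          refine ⟨n, ?_, ?_⟩
          · rw [← l2]; simp [shf, l1]
          · rw [← l3]; simp [shf, l1]⟩⟩)
      omega
    obtain ⟨G3, ⟨⟨g1, -⟩, h3⟩, j3⟩ := Cl.hit (T := fun G => (T G ∧ a ∈ Pl U Φ G) ∧
        ∀ κ ∈ KK (r + 1), ¬ EE U (Sm Φ (a + 1) (r + 1)) (r + 1) G κ) (by
      rintro G ⟨g1, g3⟩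
      obtain ⟨D, hD⟩ := T2 G g1.1
      have g4 : ∀ᶠ y in (U : Filter ℕ), ∀ μ ∈ D, ¬ ∃ κ ∈ KK (r + 1),
          EE U (Sm Φ (a + 1) (r + 1)) (r + 1) (y :: G) κ ∧ Sim U (r + 1) (shf a κ) μ := by
        refine (Finset.eventually_all D).2 fun μ _ => Ultrafilter.eventually_not.2 fun h => ?_
        obtain ⟨y0, κ0, c1, c2, c3⟩ := h.exists
        exact g3 κ0 c1 (EE.back (h.mono fun y ⟨κ, _, d2, d3⟩ =>
          d2.sim (Sim.of_shf (d3.trans c3.symm))))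
      filter_upwards [T4 a G g1, hD, g4] with y y1 y3 y4
      refine ⟨y1, fun κ hκ hE => ?_⟩
      obtain ⟨μ, m1, m2⟩ := y3 a (by omega) y1.2 κ hκ hE
      exact y4 μ m1 ⟨κ, hκ, hE, m2⟩) (ih (a + 1) (x :: G1)) ⟨⟨h2, hP⟩, hE⟩
    rcases j3 with j3 | j3
    · exact T0 G3 g1 j3
    · obtain ⟨κ, hκ, h⟩ := k3 _ _ _ _ j3
      exact h3 κ hκ (EE.up h)

theorem cl_unb {KK : ℕ → Set Co} {Ψ : List ℕ → Set (Finset ℕ)} {Q : List ℕ → Prop}
    (k3 : ∀ j G, JJ U (KK j) Ψ j G → ∃ κ ∈ KK (j + 1),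
        ∀ᶠ x in (U : Filter ℕ), EE U Ψ j (x :: G) (lnk κ x))
    (h : ∀ j F, Cl U (fun G => Q G ∨ JJ U (KK j) Ψ j G) F) (F : List ℕ) :
    Cl U (fun G => Q G ∨ Unb U KK Ψ G) F := by
  by_contra hc
  set T : List ℕ → Prop := fun G => ¬ Cl U (fun G => Q G ∨ Unb U KK Ψ G) G with hT
  have T2 : ∀ G, T G → ∃ n, ∀ᶠ x in (U : Filter ℕ), ∀ j, n < j → ∀ κ ∈ KK j,
      ¬ EE U Ψ j (x :: G) κ := by
    intro G h
    obtain ⟨n, hn⟩ := not_forall.1 fun h' : Unb U KK Ψ G => h (Cl.base (Or.inr h'))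
    exact ⟨n, (Ultrafilter.eventually_not.2 hn).mono fun x hx j hj κ hκ hE =>
      hx ⟨j, hj, κ, hκ, hE⟩⟩
  obtain ⟨N, hN⟩ := T2 F hc
  obtain ⟨x, x1, x2⟩ := ((not_cl_step hc).and hN).exists
  obtain ⟨G, ⟨g1, g2⟩, g3⟩ := Cl.hit
    (T := fun G => T G ∧ ∀ j, N < j → ∀ κ ∈ KK j, ¬ EE U Ψ j G κ) (by
      rintro G ⟨g1, g2⟩
      obtain ⟨n, hn⟩ := T2 G g1
      have : ∀ᶠ y in (U : Filter ℕ), ∀ j ∈ Set.Iic n, N < j → ¬ ∃ κ ∈ KK j,
          EE U Ψ j (y :: G) κ := by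
        refine (eventually_all_finite (Set.finite_Iic n)).2 fun j _ => ?_
        by_cases hj : N < j
        swap
        · exact Eventually.of_forall fun _ h => absurd h hj
        refine (Ultrafilter.eventually_not.2 fun h => ?_).mono fun _ h _ => h
        by_cases hJ : JJ U (KK j) Ψ j G
        · obtain ⟨κ, hκ, h⟩ := k3 j G hJ
          exact g2 (j + 1) (by omega) κ hκ (EE.up h)
        · obtain ⟨D, hD⟩ := not_forall.1 hJ
          have h2 : ∀ᶠ y in (U : Filter ℕ), ∃ μ ∈ (D : Set Co), ∃ κ ∈ KK j,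
              EE U Ψ j (y :: G) κ ∧ Sim U j κ μ := by
            filter_upwards [h, Ultrafilter.eventually_not.2 hD] with y ⟨κ, k1, k2⟩ y2
            by_contra hn
            exact y2 ⟨κ, k1, k2, fun μ hμ hs => hn ⟨μ, hμ, κ, k1, k2, hs⟩⟩
          obtain ⟨μ, -, h3⟩ := (Ultrafilter.eventually_exists_mem_iff D.finite_toSet).1 h2
          obtain ⟨y0, κ0, c1, -, c3⟩ := h3.exists
          exact g2 j hj κ0 c1 (EE.back' (h3.mono fun y ⟨κ, _, d2, d3⟩ =>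
            d2.sim (d3.trans c3.symm)))
      filter_upwards [not_cl_step g1, hn, this] with y y1 y2 y3
      refine ⟨y1, fun j hj κ hκ hE => ?_⟩
      by_cases hjn : j ≤ n
      · exact y3 j hjn hj ⟨κ, hκ, hE⟩
      · exact y2 j (not_le.1 hjn) κ hκ hE) (h N (x :: F)) ⟨x1, x2⟩
  rcases g3 with g3 | g3
  · exact g1 (Cl.base (Or.inl g3))
  · obtain ⟨κ, hκ, h⟩ := k3 N G g3
    exact g2 (N + 1) (by omega) κ hκ (EE.up h)

theorem JJ.mono {S : Set Co} {Ψ Ψ' : List ℕ → Set (Finset ℕ)} (hΨ : ∀ G, Ψ G ⊆ Ψ' G) {j : ℕ}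
    {G : List ℕ} (h : JJ U S Ψ j G) : JJ U S Ψ' j G := fun D =>
  (h D).mono fun _ ⟨κ, a, b, c⟩ => ⟨κ, a, b.mono hΨ, c⟩

section good

variable {KK : ℕ → Set Co} {𝓕 : Filter ℕ} {V : Type} {f : Finset ℕ → V}

theorem top_univ (H : HK U KK 𝓕 f) (j : ℕ) : Top U KK 𝓕 f j univ ∅ := by
  classical
  intro q _ hq R' _ hR' A hA
  cases j with
  | zero =>
    obtain ⟨x, x1, x2⟩ := H.gen q hq A hA
    refine ⟨x, x1, R', hR', fun l hl hj => ⟨hl, fun h => by omega, fun h => ⟨trivial, ?_⟩⟩⟩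
    rw [List.length_eq_zero_iff.1 h]; exact x2
  | succ i =>
    obtain ⟨p, hp, hT⟩ := hR'.link
    have e1 : ∀ᶠ x in 𝓕, ∀ a ∈ q, ∀ b ∈ p, ¬ Sim U (i + 1) (lnk a.1 x) b.1 :=
      (Finset.eventually_all q).2 fun a ha => (Finset.eventually_all p).2 fun b hb =>
        H.esc _ _ (hq.1 a ha) _ (hp.1 b hb)
    have e2 : ∀ᶠ x in 𝓕, ∀ a ∈ q, ∀ b ∈ q,
        Sim U (i + 1) (lnk a.1 x) (lnk b.1 x) → a.2 = b.2 :=
      (Finset.eventually_all q).2 fun a ha => (Finset.eventually_all q).2 fun b hb => by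
        by_cases hs : Sim U (i + 1 + 1) a.1 b.1
        · exact Eventually.of_forall fun _ _ => hq.2 a ha b hb hs
        · exact mem_of_superset (H.sep _ _ (hq.1 a ha) _ (hq.1 b hb) hs) fun x hx h => absurd h hx
    obtain ⟨x, ⟨x1, x2, x3⟩, hx⟩ := hT _ (inter_mem hA (e1.and e2))
    obtain ⟨R3, g3, l3⟩ := hx (p ∪ q.image fun a => (lnk a.1 x, a.2)) Finset.subset_union_left (by
      constructor
      · intro a ha
        rcases Finset.mem_union.1 ha with ha | ha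
        · exact hp.1 a ha
        · obtain ⟨a, ha', rfl⟩ := Finset.mem_image.1 ha
          exact H.lk _ _ (hq.1 a ha') x
      · intro a ha b hb hs
        rcases Finset.mem_union.1 ha with ha | ha <;> rcases Finset.mem_union.1 hb with hb | hb
        · exact hp.2 a ha b hb hs
        · obtain ⟨b, hb', rfl⟩ := Finset.mem_image.1 hb
          exact absurd hs.symm (x2 b hb' a ha)
        · obtain ⟨a, ha', rfl⟩ := Finset.mem_image.1 ha
          exact absurd hs (x2 a ha' b hb)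
        · obtain ⟨a, ha', rfl⟩ := Finset.mem_image.1 ha
          obtain ⟨b, hb', rfl⟩ := Finset.mem_image.1 hb
          exact x3 a ha' b hb' hs)
    exact ⟨x, x1, R3, g3, l3.mono Sub.rfl Sub.rfl fun l _ _ h => ⟨trivial, fun a ha =>
      h (lnk a.1 x, a.2) (Finset.mem_union_right _ (Finset.mem_image_of_mem _ ha))⟩⟩

theorem Gd.lift (H : HK U KK 𝓕 f) {m M : ℕ} (hM : m ≤ M) {R : Set (List ℕ)}
    (h : Gd U KK 𝓕 f m R) (Q : ℕ → Finset (Co × V)) (hQ : ∀ j, Cons U KK j (Q j)) :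
    ∃ R', Gd U KK 𝓕 f M R' ∧ Sub m R' R ∧
      ∀ l ∈ R', m < l.length → l.length ≤ M → sat f (Q l.length) l := by
  induction M, hM using Nat.le_induction with
  | base => exact ⟨R, h, Sub.rfl, fun l _ a b => by omega⟩
  | succ M hM ih =>
    obtain ⟨R1, g1, s1, h1⟩ := ih
    refine ⟨mix M R1 (sat f (Q (M + 1))), gd_succ.2 ⟨g1.mixed _, _, hQ (M + 1),
      (top_univ H M).mono (fun _ _ _ => trivial) (Finset.empty_subset _)
        fun l _ hl hs => Or.inr ⟨by omega, hs⟩⟩,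
      fun l hl hj => s1 l (sub_mix l hl (by omega)) hj, fun l hl a b => ?_⟩
    rcases Nat.lt_or_eq_of_le b with b | b
    · exact h1 l (sub_mix l hl (by omega)) a (by omega)
    · rw [b]; exact mix_top hl (by omega)

theorem Gd.part' {γ : Type} [Finite γ] {j M : ℕ} (hM : j ≤ M) {R : Set (List ℕ)}
    (hR : Gd U KK 𝓕 f M R) (h : List ℕ → γ) : ∃ i R', Gd U KK 𝓕 f M R' ∧ Sub M R' R ∧
      ∀ l ∈ R', l.length = j → h l = i := by
  induction M, hM using Nat.le_induction with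
  | base => exact hR.part h
  | succ M hM ih =>
    obtain ⟨g0, p, hp, hT⟩ := gd_succ.1 hR
    obtain ⟨i, R1, g1, s1, h1⟩ := ih g0
    refine ⟨i, mix M R1 (· ∈ R), gd_succ.2 ⟨g1.mixed _, p, hp, hT.mono (sub_mix.trans s1)
      Finset.Subset.rfl fun l hl hj _ => Or.inr ⟨by omega, hl⟩⟩,
      fun l hl _ => hl.elim (fun a => s1 l a.2 a.1) fun a => a.2,
      fun l hl hj => h1 l (sub_mix l hl (by omega)) hj⟩

end good

end Pool.Agent.H83.Soc
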