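import Pool.Agent.H83.Soc7
import Pool.Agent.H83.Soc6

/-!
A 3-colouring of the numbers such that every finite colouring of the exactly large sets has an
infinite homogeneous set computing no infinite set with monochromatic finite sums.
-/

set_option autoImplicit false

namespace Pool.Agent.H83.Soc

open Filter Set

theorem Ext.weak {m m1 : ℕ} {N : List ℕ} {R R1 R' : Set (List ℕ)} (h : Ext m N R R') (hm : m1 ≤ m)
    (hs : Sub m1 R R1) : Ext m1 N R1 R' := fun s a l b c =>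
  hs _ (h s a l b (c.trans hm)) (by simpa using c)

theorem Lk.ext {m x : ℕ} {R R' R'' : Set (List ℕ)} {S : List ℕ → Prop} (l1 : Lk m R S x R')
    (h : Sub m R'' R') : Ext m [x] R R'' := by
  intro s hs l hl hj
  rcases List.sublist_singleton.1 hs with rfl | rfl
  · exact (l1 l (h l hl (by simpa using hj)) (by simpa using hj)).1
  · simp only [List.length_singleton] at hj
    exact (l1 l (h l hl (by omega)) (by omega)).2.1 (by omega)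

section build

variable {U : Ultrafilter ℕ} {Φ : ℕ → List ℕ → Set ℕ} {KK : ℕ → Set Co} {𝓕 : Filter ℕ}
  {V γ : Type} {f : Finset ℕ → V} {m0 : ℕ} {g : List ℕ → γ} {d : γ} {R0 : Set (List ℕ)}

def Frw (KK : ℕ → Set Co) (𝓕 : Filter ℕ) (Kf : ℕ → Set (Finset (ℕ × Co))) : Prop :=
  ∀ n, {x | ∃ t ∈ Kf x, ∀ p ∈ t, n < p.1 ∧ p.2 ∈ KK p.1} ∈ 𝓕

def Mv (U : Ultrafilter ℕ) (KK : ℕ → Set Co) (𝓕 : Filter ℕ) (f : Finset ℕ → V) (g : List ℕ → γ)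
    (d : γ) (m : ℕ) (R : Set (List ℕ)) (x : ℕ) (t : Finset (ℕ × Co)) (c : V) : Prop :=
  ∃ M, m ≤ M ∧ x ≤ M ∧ ∃ R', Gd U KK 𝓕 f M R' ∧ Ext m [x] R R' ∧
    (∀ l ∈ R', l.length = x → g (x :: l) = d) ∧
    ∀ p ∈ t, p.1 ≤ M ∧ ∀ l ∈ R', l.length = p.1 → f (p.2 l) ≠ c

def Wv (U : Ultrafilter ℕ) (KK : ℕ → Set Co) (𝓕 : Filter ℕ) (f : Finset ℕ → V) (g : List ℕ → γ)
    (d : γ) (m0 : ℕ) (R0 : Set (List ℕ)) : Prop :=
  ∀ m, m0 ≤ m → ∀ R, Sub m0 R R0 → Gd U KK 𝓕 f m R → ∀ A ∈ 𝓕, ∀ Kf, Frw KK 𝓕 Kf → ∀ c,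
    ∃ x ∈ A, ∃ t ∈ Kf x, Mv U KK 𝓕 f g d m R x t c

theorem exists_wv [Finite γ] (H : HK U KK 𝓕 f) (hV : ∀ c : γ → V, ∃ v, ∀ d, v ≠ c d)
    (g : List ℕ → γ) : ∃ d m0 R0, Gd U KK 𝓕 f m0 R0 ∧ Wv U KK 𝓕 f g d m0 R0 := by
  classical
  by_contra hc
  have key : ∀ s : Finset γ, ∃ m1 R1, 1 ≤ m1 ∧ Gd U KK 𝓕 f m1 R1 ∧ ∀ d ∈ s,
      ∃ A ∈ 𝓕, ∃ Kf, Frw KK 𝓕 Kf ∧ ∃ c, ∀ x ∈ A, ∀ t ∈ Kf x, ¬ Mv U KK 𝓕 f g d m1 R1 x t c := by
    intro s
    induction s using Finset.induction_on with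
    | empty => exact ⟨1, univ, le_rfl, gd_univ H 1, by simp⟩
    | insert d s _ ih =>
      obtain ⟨m1, R1, s1, g1, hd⟩ := ih
      have nW : ¬ Wv U KK 𝓕 f g d m1 R1 := fun h => hc ⟨d, m1, R1, g1, h⟩
      unfold Wv at nW
      push Not at nW
      obtain ⟨m, hm, R2, s2, g2, A, hA, Kf, hK, c, h⟩ := nW
      refine ⟨m, R2, s1.trans hm, g2, fun d' hd' => ?_⟩
      rcases Finset.mem_insert.1 hd' with rfl | hd'
      · exact ⟨A, hA, Kf, hK, c, h⟩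
      · obtain ⟨A', hA', Kf', hK', c', h'⟩ := hd d' hd'
        exact ⟨A', hA', Kf', hK', c', fun x hx t ht ⟨M, a1, a2, R', a3, a4, a5⟩ =>
          h' x hx t ht ⟨M, hm.trans a1, a2, R', a3, a4.weak hm s2, a5⟩⟩
  have := Fintype.ofFinite γ
  obtain ⟨m1, R1, hm1, g1, hd⟩ := key Finset.univ
  obtain ⟨i, rfl⟩ : ∃ i, m1 = i + 1 := ⟨m1 - 1, by omega⟩
  choose A hA Kf hK c hd using fun d => hd d (Finset.mem_univ d)
  obtain ⟨v, hv⟩ := hV c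
  obtain ⟨p, hp, hT⟩ := g1.link
  obtain ⟨x, x1, hx⟩ := hT _ (iInter_mem.2 fun d => inter_mem (hA d) (hK d (i + 1)))
  choose t t1 t2 using fun d => (mem_iInter.1 x1 d).2
  obtain ⟨R3, g3, l3⟩ := hx p Finset.Subset.rfl hp
  set M := max (max (i + 1) x) ((Finset.univ.biUnion t).sup Prod.fst) with hM
  obtain ⟨R4, g4, s4, h4⟩ := g3.lift H (M := M) (by omega)
    (fun j => ((Finset.univ.biUnion t).filter (·.1 = j)).image fun p => (p.2, v)) (fun j => by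
      constructor
      · intro a ha
        obtain ⟨a, ha', rfl⟩ := Finset.mem_image.1 ha
        obtain ⟨ha1, rfl⟩ := Finset.mem_filter.1 ha'
        obtain ⟨d, -, ha2⟩ := Finset.mem_biUnion.1 ha1
        exact (t2 d a ha2).2
      · intro a ha b hb _
        obtain ⟨a, -, rfl⟩ := Finset.mem_image.1 ha
        obtain ⟨b, -, rfl⟩ := Finset.mem_image.1 hb
        rfl)
  obtain ⟨d, R5, g5, s5, h5⟩ := g4.part' (j := x) (by omega) fun l => g (x :: l)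
  refine hd d x (mem_iInter.1 x1 d).1 (t d) (t1 d) ⟨M, by omega, by omega, R5, g5,
    l3.ext fun l hl hj => s4 l (s5 l hl (by omega)) hj, h5, fun q hq => ?_⟩
  have hq' : q ∈ Finset.univ.biUnion t := Finset.mem_biUnion.2 ⟨d, Finset.mem_univ _, hq⟩
  have hle : q.1 ≤ M := (Finset.le_sup (f := Prod.fst) hq').trans (le_max_right _ _)
  refine ⟨hle, fun l hl hj => ?_⟩
  rw [h4 l (s5 l hl (by omega)) (by have := (t2 d q hq).1; omega) (by omega) (q.2, v)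
    (Finset.mem_image_of_mem _ (Finset.mem_filter.2 ⟨hq', hj.symm⟩))]
  exact hv d

structure HV (U : Ultrafilter ℕ) (Φ : ℕ → List ℕ → Set ℕ) (KK : ℕ → Set Co) (𝓕 : Filter ℕ) :
    Prop where
  mono : ∀ e F y, Φ e F ⊆ Φ e (y :: F)
  lk : ∀ j, ∀ κ ∈ KK (j + 1), ∀ x, lnk κ x ∈ KK j
  gt : ∀ n, {y | n < y} ∈ 𝓕
  big : ∀ e b F, ¬ Cl U (Big (Φ e) b) F → {y | ¬ Cl U (Big (Φ e) b) (y :: F)} ∈ 𝓕
  cl : ∀ e F, Cl U (fun G => Fn U (Φ e) G ∨ Unb U KK (FSm (Φ e)) G) F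
  w1 : ∀ e F, W U (fun G => Fn U (Φ e) G ∨ Unb U KK (FSm (Φ e)) G) F ∈ U →
    W U (fun G => Fn U (Φ e) G ∨ Unb U KK (FSm (Φ e)) G) F ∈ 𝓕
  w2 : ∀ e s F, W U (fun G => s ∈ FSm (Φ e) G) F ∈ U → W U (fun G => s ∈ FSm (Φ e) G) F ∈ 𝓕
  w3 : ∀ e j, ∀ κ ∈ KK (j + 1), ∀ G F, W U (fun G' => ∃ z P, G' = z :: P ∧ G <:+ P ∧
      EE U (FSm (Φ e)) j G' (lnk κ z)) F ∈ U → W U (fun G' => ∃ z P, G' = z :: P ∧
      G <:+ P ∧ EE U (FSm (Φ e)) j G' (lnk κ z)) F ∈ 𝓕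
  good : ∀ e F, Unb U KK (FSm (Φ e)) F → Frw KK 𝓕 fun x =>
    {t | ∃ j, ∃ κ ∈ KK j, t = {(j, κ)} ∧ EE U (FSm (Φ e)) j (x :: F) κ}

structure Cv (U : Ultrafilter ℕ) (Φ : ℕ → List ℕ → Set ℕ) (KK : ℕ → Set Co) (𝓕 : Filter ℕ)
    (f : Finset ℕ → V) (m0 : ℕ) (g : List ℕ → γ) (d : γ) (R0 : Set (List ℕ))
    (F : List ℕ) (m : ℕ) (R : Set (List ℕ)) (L : Finset (ℕ × ℕ)) : Prop where
  le : m0 ≤ m
  gd : Gd U KK 𝓕 f m R
  sub : Sub m0 R R0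
  bd : ∀ x ∈ F, x ≤ m
  hom : ∀ (s : List ℕ) x, (s ++ [x]).Sublist F → ∀ l ∈ R, s.length + l.length = x →
    g (x :: (s.reverse ++ l)) = d
  pw : F.Pairwise fun y x => x < y
  pr : ∀ p ∈ L, ¬ Cl U (Big (Φ p.1) p.2) F

theorem Cv.step (H : HV U Φ KK 𝓕) (hW : Wv U KK 𝓕 f g d m0 R0) {F : List ℕ} {m : ℕ}
    {R : Set (List ℕ)} {L : Finset (ℕ × ℕ)} (h : Cv U Φ KK 𝓕 f m0 g d R0 F m R L)
    {Kf : ℕ → Set (Finset (ℕ × Co))} (hK : Frw KK 𝓕 Kf) (c : V) {B : Set ℕ} (hB : B ∈ 𝓕) :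
    ∃ x ∈ B, ∃ t ∈ Kf x, ∃ M R', m ≤ M ∧ Ext m [x] R R' ∧
      (∀ p ∈ t, p.1 ≤ M ∧ ∀ l ∈ R', l.length = p.1 → f (p.2 l) ≠ c) ∧
      Cv U Φ KK 𝓕 f m0 g d R0 (x :: F) M R' L := by
  have hB' : (B ∩ {y | ∀ p ∈ L, ¬ Cl U (Big (Φ p.1) p.2) (y :: F)}) ∩
      {y | F.toFinset.sup id < y} ∈ 𝓕 := inter_mem
    (inter_mem hB ((Finset.eventually_all L).2 fun p hp => H.big _ _ _ (h.pr p hp))) (H.gt _)
  obtain ⟨x, ⟨⟨x1, x2⟩, x3⟩, t, t1, M, a1, a2, R', g1, e1, a3, a4⟩ :=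
    hW m h.le R h.sub h.gd _ hB' Kf hK c
  have sb : Sub m R' R := fun l hl hj => e1 [] (List.nil_sublist _) l hl (by simpa using hj)
  refine ⟨x, x1, t, t1, M, R', a1, e1, a4, h.le.trans a1, g1,
    fun l hl hj => h.sub l (sb l hl (hj.trans h.le)) hj, fun y hy => ?_, ?_,
    List.pairwise_cons.2 ⟨fun y hy => ?_, h.pw⟩, x2⟩
  · rcases List.mem_cons.1 hy with rfl | hy
    · exact a2
    · exact (h.bd y hy).trans a1
  · intro s y hs l hl hj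
    rcases List.sublist_cons_iff.1 hs with hs | ⟨r, hr, hs⟩
    · have := h.bd y (hs.subset (by simp))
      exact h.hom s y hs l (sb l hl (by omega)) hj
    · cases s with
      | nil =>
        obtain rfl : y = x := by simpa using (List.cons.inj hr).1
        exact a3 l hl (by simpa using hj)
      | cons z s =>
        obtain ⟨rfl, rfl⟩ := List.cons.inj hr
        have := h.bd y (hs.subset (by simp))
        rw [List.length_cons] at hj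
        rw [List.reverse_cons, List.append_assoc, List.singleton_append]
        exact h.hom s y hs _ (e1 [z] (List.Sublist.refl _) l hl (by simp; omega)) (by simp; omega)
  · exact (Finset.le_sup (f := id) (List.mem_toFinset.2 hy)).trans_lt x3

theorem Cv.step' [Inhabited V] (H : HV U Φ KK 𝓕) (hW : Wv U KK 𝓕 f g d m0 R0) {F : List ℕ}
    {m : ℕ} {R : Set (List ℕ)} {L : Finset (ℕ × ℕ)} (h : Cv U Φ KK 𝓕 f m0 g d R0 F m R L)
    {B : Set ℕ} (hB : B ∈ 𝓕) :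
    ∃ x ∈ B, ∃ M R', m ≤ M ∧ Ext m [x] R R' ∧ Cv U Φ KK 𝓕 f m0 g d R0 (x :: F) M R' L := by
  obtain ⟨x, x1, -, -, M, R', h0, h1, -, h2⟩ := h.step H hW (Kf := fun _ => {∅})
    (fun _ => univ_mem' fun _ => ⟨∅, rfl, by simp⟩) default hB
  exact ⟨x, x1, M, R', h0, h1, h2⟩

theorem Cv.reach [Inhabited V] (H : HV U Φ KK 𝓕) (hW : Wv U KK 𝓕 f g d m0 R0)
    {S : List ℕ → Prop} (hS : ∀ F, W U S F ∈ U → W U S F ∈ 𝓕) {L : Finset (ℕ × ℕ)} {F : List ℕ}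
    (hc : Cl U S F) {m : ℕ} {R : Set (List ℕ)} (h : Cv U Φ KK 𝓕 f m0 g d R0 F m R L) :
    ∃ N M R', m ≤ M ∧ Ext m N R R' ∧ S (N ++ F) ∧ Cv U Φ KK 𝓕 f m0 g d R0 (N ++ F) M R' L := by
  revert m R
  refine Cl.reach (P := fun F => ∀ {m : ℕ} {R : Set (List ℕ)},
    Cv U Φ KK 𝓕 f m0 g d R0 F m R L → ∃ N M R', m ≤ M ∧ Ext m N R R' ∧ S (N ++ F) ∧
      Cv U Φ KK 𝓕 f m0 g d R0 (N ++ F) M R' L) ?_ ?_ hc
  · intro F hF m R h
    exact ⟨[], m, R, le_rfl, Ext.nil, hF, h⟩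
  · intro F h1 h2 ih m R h
    obtain ⟨x, x1, M, R', s0, s1, c1⟩ := h.step' H hW (hS F (W_mem h1 h2))
    obtain ⟨N, M', R'', a0, a1, a2, a3⟩ := ih x x1 c1
    exact ⟨N ++ [x], M', R'', s0.trans a0, s1.trans (a1.weak s0 Sub.rfl), by simpa using a2,
      by simpa using a3⟩

theorem Cv.reachE [Inhabited V] (H : HV U Φ KK 𝓕) (hW : Wv U KK 𝓕 f g d m0 R0) (e : ℕ)
    {L : Finset (ℕ × ℕ)} {j : ℕ} {F : List ℕ} {κ : Co} (hκ : κ ∈ KK j)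
    (hE : EE U (FSm (Φ e)) j F κ) {m : ℕ} {R : Set (List ℕ)}
    (h : Cv U Φ KK 𝓕 f m0 g d R0 F m R L) : ∃ N M R', m ≤ M ∧ Ext m N R R' ∧
      Cv U Φ KK 𝓕 f m0 g d R0 (N ++ F) M R' L ∧ ∃ s : List ℕ, s.Sublist N ∧ s.length = j ∧
        κ s.reverse ∈ FSm (Φ e) (N ++ F) := by
  induction j generalizing F κ m R with
  | zero =>
    obtain ⟨N, M, R', a0, a1, a2, a3⟩ := h.reach H hW (H.w2 e (κ [])) hE
    exact ⟨N, M, R', a0, a1, a3, [], List.nil_sublist _, rfl, a2⟩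
  | succ j ih =>
    obtain ⟨N, M, R', a0, a1, ⟨z, P, b1, b2, b3⟩, a3⟩ := h.reach H hW (H.w3 e j κ hκ F) hE
    obtain ⟨N2, M2, R2, c0, c1, c2, s, c3, c4, c5⟩ := ih (H.lk j κ hκ z) b3 a3
    have hz : [z].Sublist N := by
      cases N with
      | nil =>
        have := b2.length_le
        have h2 := congrArg List.length b1
        simp at h2; omega
      | cons y N => rw [(List.cons.inj b1).1]; simp
    refine ⟨N2 ++ N, M2, R2, a0.trans c0, a1.trans (c1.weak a0 Sub.rfl), by simpa using c2,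
      s ++ [z], c3.append hz, by simp [c4], ?_⟩
    rw [List.reverse_append, List.append_assoc]
    exact c5

def Mw (Φ : ℕ → List ℕ → Set ℕ) (f : Finset ℕ → V) (r : ℕ × V) (F : List ℕ)
    (L : Finset (ℕ × ℕ)) : Prop :=
  (∃ b, (r.1, b) ∈ L) ∨ ∃ t ∈ FSm (Φ r.1) F, f t ≠ r.2

theorem Cv.req [Inhabited V] (H : HV U Φ KK 𝓕) (hW : Wv U KK 𝓕 f g d m0 R0) {F : List ℕ} {m : ℕ}
    {R : Set (List ℕ)} {L : Finset (ℕ × ℕ)} (h : Cv U Φ KK 𝓕 f m0 g d R0 F m R L) (r : ℕ × V) :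
    ∃ F' M R' L', F <:+ F' ∧ L ⊆ L' ∧ Mw Φ f r F' L' ∧ Cv U Φ KK 𝓕 f m0 g d R0 F' M R' L' := by
  obtain ⟨e, c⟩ := r
  obtain ⟨N1, M1, R1, -, -, h1, c1⟩ := h.reach H hW (H.w1 e) (H.cl e F)
  rcases h1 with ⟨b, hb⟩ | h1
  · refine ⟨_, M1, R1, insert (e, b) L, List.suffix_append _ _, Finset.subset_insert _ _,
      Or.inl ⟨b, Finset.mem_insert_self _ _⟩, c1.le, c1.gd, c1.sub, c1.bd, c1.hom, c1.pw,
      fun p hp => ?_⟩
    rcases Finset.mem_insert.1 hp with rfl | hp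
    · exact hb
    · exact c1.pr p hp
  · obtain ⟨x, -, _, ⟨j, κ, k1, rfl, k2⟩, M2, R2, -, -, h2, c2⟩ :=
      c1.step H hW (H.good e _ h1) c univ_mem
    obtain ⟨N3, M3, R3, -, a1, a2, s, a3, a4, a5⟩ := c2.reachE H hW e k1 k2
    obtain ⟨h3, h4⟩ := h2 _ (Finset.mem_singleton_self _)
    have := a1 s a3 [] a2.gd.nil (by simpa [a4] using h3)
    rw [List.append_nil] at this
    exact ⟨_, M3, R3, L, ((List.suffix_append _ _).trans (List.suffix_cons _ _)).trans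
      (List.suffix_append _ _), Finset.Subset.rfl,
      Or.inr ⟨_, a5, h4 _ this (by simp [a4])⟩, a2⟩

theorem exists_chainV [Inhabited V] [Countable V] (H : HV U Φ KK 𝓕)
    (hW : Wv U KK 𝓕 f g d m0 R0) (h0 : Gd U KK 𝓕 f m0 R0) : ∃ F : ℕ → List ℕ,
    (∀ n, F n <:+ F (n + 1)) ∧ (∀ n, ∃ y G, n < y ∧ F (n + 1) = y :: G) ∧
    (∀ n, (F n).Pairwise fun y x => x < y) ∧
    (∀ (n : ℕ) (s : List ℕ) x, (s ++ [x]).Sublist (F n) → s.length = x →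
      g (x :: s.reverse) = d) ∧
    ∀ e c, (∃ b, ∀ n, ∀ a ∈ Φ e (F n), a ≤ b) ∨ ∃ n, ∃ t ∈ FSm (Φ e) (F n), f t ≠ c := by
  obtain ⟨ρ, hρ⟩ := exists_surjective_nat (ℕ × V)
  let C := {s : List ℕ × (ℕ × Set (List ℕ)) × Finset (ℕ × ℕ) //
    Cv U Φ KK 𝓕 f m0 g d R0 s.1 s.2.1.1 s.2.1.2 s.2.2}
  have nxt : ∀ (n : ℕ) (s : C), ∃ s' : C, s.1.1 <:+ s'.1.1 ∧ s.1.2.2 ⊆ s'.1.2.2 ∧
      Mw Φ f (ρ n) s'.1.1 s'.1.2.2 ∧ ∃ y G, n < y ∧ s'.1.1 = y :: G := by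
    intro n s
    obtain ⟨F', M, X', L', h1, h2, h3, h4⟩ := s.2.req H hW (ρ n)
    obtain ⟨x, x2, M', X'', -, -, h5⟩ := h4.step' H hW (H.gt n)
    refine ⟨⟨(x :: F', (M', X''), L'), h5⟩, h1.trans (List.suffix_cons x F'), h2, ?_,
      x, F', x2, rfl⟩
    rcases h3 with h3 | ⟨t, ⟨u, b1, b2, b4⟩, b3⟩
    · exact Or.inl h3
    · exact Or.inr ⟨t, ⟨u, b1, fun a ha => H.mono _ _ _ (b2 a ha), b4⟩, b3⟩
  choose nx h1 h2 h3 h4 using nxt
  let s0 : C := ⟨([], (m0, R0), ∅), le_rfl, h0, Sub.rfl, by simp, fun s x hs => by simp at hs,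
    List.Pairwise.nil, by simp⟩
  let s : ℕ → C := fun n => Nat.rec s0 nx n
  have hs : ∀ n, s (n + 1) = nx n (s n) := fun _ => rfl
  have m1 : ∀ n m, n ≤ m → (s n).1.1 <:+ (s m).1.1 ∧ (s n).1.2.2 ⊆ (s m).1.2.2 := by
    intro n m h
    induction m, h using Nat.le_induction with
    | base => exact ⟨List.suffix_rfl, Finset.Subset.rfl⟩
    | succ m _ ih => exact ⟨ih.1.trans (h1 m _), ih.2.trans (h2 m _)⟩
  refine ⟨fun n => (s n).1.1, fun n => h1 n _, fun n => h4 n _, fun n => (s n).2.pw,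
    fun n t x ht hl => ?_, fun e c => ?_⟩
  · have := (s n).2.hom t x ht [] (s n).2.gd.nil (by simp [hl])
    rwa [List.append_nil] at this
  obtain ⟨n, hn⟩ := hρ (e, c)
  have := h3 n (s n)
  rw [hn, ← hs] at this
  rcases this with ⟨b, hb⟩ | h
  · refine Or.inl ⟨b, fun m a ha => ?_⟩
    by_contra hab
    refine (s (max m (n + 1))).2.pr _ ((m1 _ _ (le_max_right _ _)).2 hb)
      (Cl.base ⟨a, not_le.1 hab, ?_⟩)
    exact suf_mono (S := fun G => a ∈ Φ e G) (fun G y h => H.mono e G y h)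
      (m1 _ _ (le_max_left _ _)).1 ha
  · exact Or.inr ⟨n + 1, h⟩

end build

theorem exists_HV (Φ : ℕ → List ℕ → Set ℕ) (hΦ : ∀ e F y, Φ e F ⊆ Φ e (y :: F)) (k : ℕ) :
    ∃ (U : Ultrafilter ℕ) (KK : ℕ → Set Co) (𝓕 : Filter ℕ) (f : Finset ℕ → Fin (k + 1)),
      HV U Φ KK 𝓕 ∧ HK U KK 𝓕 f := by
  classical
  let U : Ultrafilter ℕ := hyperfilter ℕ
  have hU : (U : Filter ℕ) ≤ atTop := Nat.hyperfilter_le_atTop
  obtain ⟨KK, k0, k1, k2, k3, k4⟩ := exists_KK' hU fun p : ℕ × Option (ℕ × ℕ) =>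
    p.2.elim (FSm (Φ p.1)) fun q => Sm (Φ p.1) q.1 q.2
  let 𝒮 : Set (Set ℕ) := (range fun n : ℕ => {y | n < y}) ∪
    (range fun p : ℕ × ℕ × List ℕ => {y | ¬ Cl U (Big (Φ p.1) p.2.1) (y :: p.2.2)}) ∪
    (range fun p : ℕ × List ℕ =>
      W U (fun G => Fn U (Φ p.1) G ∨ Unb U KK (FSm (Φ p.1)) G) p.2) ∪
    (range fun p : ℕ × Finset ℕ × List ℕ => W U (fun G => p.2.1 ∈ FSm (Φ p.1) G) p.2.2) ∪
    (⋃ j, ⋃ κ ∈ KK (j + 1), range fun p : ℕ × List ℕ × List ℕ =>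
      W U (fun G' => ∃ z P, G' = z :: P ∧ p.2.1 <:+ P ∧
        EE U (FSm (Φ p.1)) j G' (lnk κ z)) p.2.2) ∪
    (range fun p : ℕ × List ℕ × ℕ => {x | ∃ t ∈ {t : Finset (ℕ × Co) | ∃ j, ∃ κ ∈ KK j,
      t = {(j, κ)} ∧ EE U (FSm (Φ p.1)) j (x :: p.2.1) κ},
      ∀ q ∈ t, p.2.2 < q.1 ∧ q.2 ∈ KK q.1}) ∪
    (⋃ j, ⋃ κ ∈ KK (j + 1), ⋃ μ ∈ KK j, {{x | ¬ Sim U j (lnk κ x) μ}}) ∪
    (⋃ j, ⋃ κ ∈ KK (j + 1), ⋃ μ ∈ KK (j + 1), {{x | ¬ Sim U j (lnk κ x) (lnk μ x)}})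
  have hc : 𝒮.Countable := (((((((countable_range _).union (countable_range _)).union
    (countable_range _)).union (countable_range _)).union
    (countable_iUnion fun j => (k0 _).biUnion fun _ _ => countable_range _)).union
    (countable_range _)).union
    (countable_iUnion fun j => (k0 _).biUnion fun _ _ => (k0 _).biUnion fun _ _ =>
      countable_singleton _)).union
    (countable_iUnion fun j => (k0 _).biUnion fun _ _ => (k0 _).biUnion fun _ _ =>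
      countable_singleton _)
  let 𝓕 : Filter ℕ := generate (𝒮 ∩ U.sets)
  haveI : 𝓕.IsCountablyGenerated := ⟨⟨_, hc.mono inter_subset_left, rfl⟩⟩
  have hm : ∀ B ∈ 𝒮, B ∈ U → B ∈ 𝓕 := fun B h h' => mem_generate_of_mem ⟨h, h'⟩
  obtain ⟨f, hf⟩ := exists_gen (𝓕 := 𝓕) k (k0 1) (fun κ hκ => (k3 0 κ hκ).2)
    (le_generate_iff.2 inter_subset_right)
  refine ⟨U, KK, 𝓕, f, ⟨hΦ, fun j κ hκ => (k3 j κ hκ).1,
    fun n => hm _ ?_ (hU (eventually_gt_atTop n)), fun e b F h => hm _ ?_ (not_cl_step h),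
    fun e F => cl_unb (fun j => k4 j (e, none)) (fun j F => ?_) F, fun e F => hm _ ?_,
    fun e s F => hm _ ?_, fun e j κ hκ G F => hm _ ?_, fun e F h n => hm _ ?_ ?_⟩,
    fun j κ hκ => (k3 j κ hκ).1, fun j κ hκ μ hμ => hm _ ?_ ((k3 j κ hκ).2 μ),
    fun j κ hκ μ hμ h => hm _ ?_ (Ultrafilter.eventually_not.2 fun h' => h (sim_succ.2 h')), hf⟩
  · exact Or.inl (Or.inl (Or.inl (Or.inl (Or.inl (Or.inl (Or.inl ⟨n, rfl⟩))))))
  · exact Or.inl (Or.inl (Or.inl (Or.inl (Or.inl (Or.inl (Or.inr ⟨(e, b, F), rfl⟩))))))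
  · refine (cl_JJ' (hΦ e) k1 k2 (fun j b r => k4 j (e, some (b, r))) j 0 F).mono
      fun G _ h => h.imp_right fun h => h.mono fun G s hs => ?_
    obtain ⟨t, ⟨t1, t2⟩, t3⟩ := hs
    exact ⟨t, Finset.card_pos.1 (by omega), fun a ha => (t2 a ha).2, t3⟩
  · exact Or.inl (Or.inl (Or.inl (Or.inl (Or.inl (Or.inr ⟨(e, F), rfl⟩)))))
  · exact Or.inl (Or.inl (Or.inl (Or.inl (Or.inr ⟨(e, s, F), rfl⟩))))
  · exact Or.inl (Or.inl (Or.inl (Or.inr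
      (mem_iUnion.2 ⟨j, mem_iUnion₂.2 ⟨κ, hκ, (e, G, F), rfl⟩⟩))))
  · exact Or.inl (Or.inl (Or.inr ⟨(e, F, n), rfl⟩))
  · refine mem_of_superset (h n) fun x ⟨j, a0, κ, a1, a2⟩ =>
      ⟨{(j, κ)}, ⟨j, κ, a1, rfl, a2⟩, fun q h' => ?_⟩
    rw [Finset.mem_singleton.1 h']; exact ⟨a0, a1⟩
  · exact Or.inl (Or.inr (mem_iUnion.2 ⟨j, mem_iUnion₂.2 ⟨κ, hκ, mem_iUnion₂.2 ⟨μ, hμ, rfl⟩⟩⟩))
  · exact Or.inr (mem_iUnion.2 ⟨j, mem_iUnion₂.2 ⟨κ, hκ, mem_iUnion₂.2 ⟨μ, hμ, rfl⟩⟩⟩)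

open Pool.Agent.H37 in
theorem mainV (k : ℕ) : ∃ f : ℕ → Fin (k + 1), ∀ g : Finset ℕ → Fin k, ∃ (H : Set ℕ) (d : Fin k),
      H.Infinite ∧ (∀ s : Finset ℕ, ↑s ⊆ H → (∃ m ∈ s, (∀ i ∈ s, m ≤ i) ∧ s.card = m + 1) →
        g s = d) ∧
      ∀ (G : Set ℕ) (c : Fin (k + 1)) (χ ψ : ℕ → ℕ),
        (∀ m ∈ H, χ m = 1) → (∀ m ∉ H, χ m = 0) → (∀ m, ψ m = 1 ↔ m ∈ G) →
        TuringReducible (fun m => Part.some (ψ m)) (fun m => Part.some (χ m)) → G.Infinite →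
        ∃ t : Finset ℕ, t.Nonempty ∧ ↑t ⊆ G ∧ f (∑ a ∈ t, a) ≠ c := by
  classical
  obtain ⟨U, KK, 𝓕, f, H, HK⟩ := exists_HV outp (fun e F y a ⟨z, G, h1, h2⟩ =>
    ⟨z, G, h1.trans (List.suffix_cons y F), h2⟩) k
  refine ⟨fun n => f {n}, fun g => ?_⟩
  obtain ⟨d, m0, R0, g0, hW⟩ := exists_wv (γ := Fin k) HK (fun c => by
    by_contra hc
    push Not at hc
    have := Fintype.card_le_of_surjective c fun v => (hc v).imp fun _ h => h.symm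
    simp at this) fun l => g l.toFinset
  obtain ⟨F, h1, h2, h3, h5, h4⟩ := exists_chainV H hW g0
  have m1 : ∀ n m, n ≤ m → F n <:+ F m := by
    intro n m h
    induction m, h using Nat.le_induction with
    | base => exact List.suffix_rfl
    | succ m _ ih => exact ih.trans (h1 m)
  have sl : ∀ s : Finset ℕ, (↑s : Set ℕ) ⊆ {x | ∃ n, x ∈ F n} →
      ∃ (n : ℕ) (l : List ℕ), l.Sublist (F n) ∧ l.length = s.card ∧ l.toFinset = s := by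
    intro s hs
    choose! ν hν using hs
    have e : ((F (s.sup ν)).filter (· ∈ s)).toFinset = s := by
      ext a
      simp only [List.mem_toFinset, List.mem_filter, decide_eq_true_eq]
      exact ⟨fun h => h.2, fun h => ⟨(m1 _ _ (Finset.le_sup h)).subset (hν h), h⟩⟩
    refine ⟨s.sup ν, (F (s.sup ν)).filter (· ∈ s), List.filter_sublist, ?_, e⟩
    rw [← List.toFinset_card_of_nodup (((h3 _).imp fun h => h.ne').filter _), e]
  refine ⟨{x | ∃ n, x ∈ F n}, d, Set.infinite_of_forall_exists_gt fun n => ?_,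
    fun s hs ⟨m, m2, m3, hc⟩ => ?_, ?_⟩
  · obtain ⟨y, G, y1, y2⟩ := h2 n
    exact ⟨y, ⟨n + 1, by rw [y2]; exact List.mem_cons_self⟩, y1⟩
  · obtain ⟨n, l, a1, a2, rfl⟩ := sl s hs
    rcases List.eq_nil_or_concat l with rfl | ⟨l', x, rfl⟩
    · simp at m2
    rw [List.concat_eq_append] at *
    have hx : x = m := by
      have b1 := m3 x (by simp)
      have b2 := (List.pairwise_append.1 ((h3 n).sublist a1)).2.2
      rcases List.mem_append.1 (List.mem_toFinset.1 m2) with h | h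
      · have := b2 m h x (by simp); omega
      · exact (List.mem_singleton.1 h).symm
    have := h5 n l' x a1 (by rw [hc] at a2; simp at a2; omega)
    rwa [show (x :: l'.reverse).toFinset = (l' ++ [x]).toFinset by ext; simp [or_comm]] at this
  · intro G c χ ψ c1 c0 hψ hr hG
    obtain ⟨e, he⟩ := exists_app (x := χ) hr
    have key : ∀ n y P, y :: P <:+ F n →
        pre (fun m => if m ∈ y :: P then 1 else 0) (y + 1) = pre χ (y + 1) := by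
      intro n y P hs
      refine pre_congr fun i hi => ?_
      split_ifs with h
      · exact (c1 i ⟨n, hs.subset h⟩).symm
      · refine (c0 i ?_).symm
        rintro ⟨m, hm⟩
        obtain ⟨Q, hQ⟩ := hs.trans (m1 _ _ (le_max_left n m))
        have hi' := (m1 _ _ (le_max_right n m)).subset hm
        have hp := h3 (max n m)
        rw [← hQ] at hi' hp
        rcases List.mem_append.1 hi' with hi' | hi'
        · have := (List.pairwise_append.1 hp).2.2 i hi' y List.mem_cons_self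
          omega
        · exact h hi'
    have k1 : ∀ n, ∀ a ∈ outp e (F n), a ∈ G := by
      rintro n a ⟨y, P, hs, ha⟩
      rw [key n y P hs] at ha
      have : 1 ∈ app e χ a := mem_app.2 ⟨_, ha⟩
      rw [← he] at this
      exact (hψ a).1 (Part.mem_some_iff.1 this).symm
    have k2 : ∀ a ∈ G, ∃ n, a ∈ outp e (F n) := by
      intro a ha
      have : 1 ∈ app e χ a := by rw [← he]; exact Part.mem_some_iff.2 ((hψ a).2 ha).symm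
      obtain ⟨k, hk⟩ := mem_app.1 this
      obtain ⟨y, P, y1, y2⟩ := h2 k
      refine ⟨k + 1, y, P, by rw [y2], ?_⟩
      rw [key (k + 1) y P (by rw [y2])]
      exact U_mon e _ _ _ _ (pre_pf χ (by omega)) hk
    rcases h4 e c with ⟨b, hb⟩ | ⟨n, _, ⟨t, b1, b2, rfl⟩, b3⟩
    · obtain ⟨a, ha, hab⟩ := hG.exists_gt b
      obtain ⟨n, hn⟩ := k2 a ha
      exact absurd (hb n a hn) (not_le.2 hab)
    · exact ⟨t, b1, fun a ha => k1 n a (b2 a ha), b3⟩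

end Pool.Agent.H83.Soc
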