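import Pool.Agent.H83.Rec

set_option autoImplicit false

namespace Pool.Agent.H83.SplitGroup

open Set Filter Topology Cardinal MeasureTheory

/-- vertical lines and lines of integer slope -/
def ψ : Option ℤ → ℝ × ℝ → ℝ
  | none, z => z.1
  | some k, z => z.2 - k * z.1

theorem ψ_cont (j : Option ℤ) : Continuous (ψ j) := by
  cases j with
  | none => exact continuous_fst
  | some k => exact continuous_snd.sub (continuous_const.mul continuous_fst)

theorem mk_span_lt {S : Set ℝ} (hS : #S < 𝔠) (hne : S.Nonempty) :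
    #(Submodule.span ℤ S : Set ℝ) < 𝔠 := by
  have := hne.to_subtype
  rw [Finsupp.span_eq_range_linearCombination, LinearMap.coe_range]
  refine mk_range_le.trans_lt ?_
  rw [mk_finsupp_of_infinite']
  exact max_lt hS (by simpa using aleph0_lt_continuum)

theorem exists_group : ∃ B : AddSubgroup ℝ, (1 : ℝ) ∈ B ∧ ∀ K : Set (ℝ × ℝ), IsCompact K →
    ¬ Rec.Small ψ K → ∀ C : Set ℝ, C.Countable → ∃ z ∈ K, z.1 ∉ C ∧ z.1 ∈ B ∧ z.2 ∉ B := by
  have hι : #((ℕ → ℝ × ℝ) × (ℕ → ℝ)) ≤ 𝔠 := by simp [mk_real]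
  obtain ⟨f, hf1, hf2⟩ := Rec.build (α := ℝ × ℝ) 𝔠 hι
    (fun i z => IsCompact (closure (range i.1)) → ¬ Rec.Small ψ (closure (range i.1)) →
      z ∈ closure (range i.1) ∧ z.1 ∉ range i.2)
    (fun S => ∀ z ∈ S, z.2 ∉ Submodule.span ℤ (insert 1 (Prod.fst '' S)))
    (fun S T h hT z hz hz' => h z (hT hz)
      (Submodule.span_mono (insert_subset_insert (image_mono hT)) hz'))
    (fun S h z hz hz' => by
      obtain ⟨T, hT, hzT⟩ := Submodule.mem_span_finite_of_mem_span hz'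
      obtain ⟨T', hT', hT'f, hT'e⟩ := (T.finite_toSet.diff (t := {1})).exists_subset_finite_image_eq
        (f := Prod.fst) (s := S) (fun x hx => (hT hx.1).resolve_left hx.2)
      refine h (insert z T') (insert_subset hz hT') (hT'f.insert z) z (mem_insert _ _)
        (Submodule.span_mono ?_ hzT)
      intro x hx
      by_cases h1 : x = 1
      · exact Or.inl h1
      · exact Or.inr (image_mono (subset_insert _ _) (hT'e ▸ ⟨hx, h1⟩)))
    (by simp)
    (fun S i hS hI => by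
      set G := Submodule.span ℤ (insert 1 (Prod.fst '' S))
      have hG : #(G : Set ℝ) < 𝔠 := mk_span_lt
        ((mk_insert_le).trans_lt (add_lt_of_lt aleph0_le_continuum (mk_image_le.trans_lt hS)
          (one_lt_aleph0.trans aleph0_lt_continuum))) (insert_nonempty _ _)
      let T : Set (Option ℤ × ℝ) := range (fun p : ℤ × (G : Set ℝ) => (some p.1, p.2.1)) ∪
        (range (fun n => (none, i.2 n)) ∪
          range (fun p : ℤ × ↥(G : Set ℝ) × ↥S => (none, (p.2.2.1.2 - p.2.1.1) / p.1)))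
      have hT : #T < 𝔠 := by
        refine (mk_union_le _ _).trans_lt (add_lt_of_lt aleph0_le_continuum
          (mk_range_le.trans_lt ?_) ((mk_union_le _ _).trans_lt (add_lt_of_lt aleph0_le_continuum
          (mk_range_le.trans_lt ?_) (mk_range_le.trans_lt ?_))))
        · simp only [mk_prod, lift_id, mk_eq_aleph0]
          exact mul_lt_of_lt aleph0_le_continuum aleph0_lt_continuum hG
        · simpa using aleph0_lt_continuum
        · simp only [mk_prod, lift_id, mk_eq_aleph0]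
          exact mul_lt_of_lt aleph0_le_continuum aleph0_lt_continuum
            (mul_lt_of_lt aleph0_le_continuum hG hS)
      have fin : ∀ z : ℝ × ℝ, (∀ p ∈ T, ψ p.1 z ≠ p.2) → ∀ w ∈ insert z S,
          w.2 ∉ Submodule.span ℤ (insert 1 (Prod.fst '' insert z S)) := by
        intro z hz w hw hw'
        rw [image_insert_eq, insert_comm, Submodule.mem_span_insert] at hw'
        obtain ⟨k, g, hg, e⟩ := hw'
        rcases hw with rfl | hw
        · exact hz (some k, g) (Or.inl ⟨(k, ⟨g, hg⟩), rfl⟩) (by simp [ψ, e])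
        · by_cases hk : k = 0
          · exact hI w hw (by rw [e, hk]; simpa using hg)
          · refine hz (none, (w.2 - g) / k) (Or.inr (Or.inr ⟨(k, ⟨g, hg⟩, ⟨w, hw⟩), rfl⟩)) ?_
            have : (k : ℝ) ≠ 0 := by exact_mod_cast hk
            simp only [ψ, e, zsmul_eq_mul]
            field_simp
            ring
      by_cases h : IsCompact (closure (range i.1)) ∧ ¬ Rec.Small ψ (closure (range i.1))
      · obtain ⟨z, hz1, hz2⟩ := Rec.not_covered ψ ψ_cont h.1 isClosed_closure h.2 T hT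
        refine ⟨z, fun _ _ => ⟨hz1, ?_⟩, fin z hz2⟩
        rintro ⟨n, hn⟩
        exact hz2 (none, i.2 n) (Or.inr (Or.inl ⟨n, rfl⟩)) hn.symm
      · obtain ⟨y, hy⟩ : ∃ y, y ∉ (G : Set ℝ) := by
          by_contra h'
          push Not at h'
          rw [eq_univ_of_forall h'] at hG
          simp [mk_real] at hG
        refine ⟨(0, y), fun h1 h2 => absurd ⟨h1, h2⟩ h, fun w hw hw' => ?_⟩
        rw [image_insert_eq, insert_comm, Submodule.span_insert_zero] at hw'
        rcases hw with rfl | hw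
        · exact hy hw'
        · exact hI w hw hw')
  refine ⟨(Submodule.span ℤ (insert 1 (Prod.fst '' range f))).toAddSubgroup,
    Submodule.subset_span (mem_insert _ _), fun K hK hs C hC => ?_⟩
  have hne : K.Nonempty := by
    by_contra hn
    rw [not_nonempty_iff_eq_empty] at hn
    exact hs ⟨∅, countable_empty, by simp [hn]⟩
  obtain ⟨D, hD1, hD2, hD3⟩ := hK.isSeparable.exists_countable_dense_subset
  have hDne : D.Nonempty := closure_nonempty_iff.1 (hne.mono hD3)
  obtain ⟨a, rfl⟩ := hD2.exists_eq_range hDne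
  obtain ⟨c, hc⟩ := (hC.insert 0).exists_eq_range (insert_nonempty _ _)
  have hcl : closure (range a) = K := (closure_minimal hD1 hK.isClosed).antisymm hD3
  obtain ⟨h1, h2⟩ := hf1 (a, c) (by rwa [hcl]) (by rwa [hcl])
  refine ⟨f (a, c), hcl ▸ h1, fun h => h2 (hc ▸ mem_insert_of_mem _ h),
    Submodule.subset_span (Or.inr ⟨_, mem_range_self _, rfl⟩), hf2 _ (mem_range_self _)⟩

variable {B : AddSubgroup ℝ}

/-- the property of the group -/
def Good (B : AddSubgroup ℝ) : Prop := ∀ K : Set (ℝ × ℝ), IsCompact K →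
    ¬ Rec.Small ψ K → ∀ C : Set ℝ, C.Countable → ∃ z ∈ K, z.1 ∉ C ∧ z.1 ∈ B ∧ z.2 ∉ B

theorem Good.meets (h : Good B) {F : Set ℝ} (hF : IsCompact F) (hc : ¬ F.Countable)
    {C : Set ℝ} (hC : C.Countable) : ∃ x ∈ F, x ∉ C ∧ x ∈ B := by
  obtain ⟨_, ⟨x, hx, rfl⟩, h1, h2, -⟩ := h ((fun x => (x, x / 2)) '' F)
    (hF.image (by fun_prop)) (by
      rintro ⟨T, hT1, hT2⟩
      refine hc ((hT1.image fun p => match p.1 with
        | none => p.2
        | some k => p.2 / (1 / 2 - k)).mono fun x hx => ?_)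
      obtain ⟨⟨j, c⟩, hp, e⟩ := hT2 _ (mem_image_of_mem _ hx)
      refine ⟨(j, c), hp, ?_⟩
      cases j with
      | none => exact e.symm
      | some k =>
        have : (1 / 2 - k : ℝ) ≠ 0 := by
          intro h0
          have : ((1 : ℤ) : ℝ) = ((2 * k : ℤ) : ℝ) := by push_cast; linarith
          have := Int.cast_injective this
          omega
        simp only [ψ] at e ⊢
        rw [← e, div_eq_iff this]; ring) C hC
  exact ⟨x, hx, h1, h2⟩

theorem Good.dense' (h : Good B) {a b : ℝ} (hab : a < b) {C : Set ℝ} (hC : C.Countable) :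
    ∃ x ∈ B, x ∉ C ∧ a < x ∧ x < b := by
  obtain ⟨x, hx, h1, h2⟩ := h.meets (F := Icc a b) isCompact_Icc (by
    rw [← le_aleph0_iff_set_countable, mk_Icc_real hab]; simpa using aleph0_lt_continuum)
    ((hC.insert a).insert b)
  simp only [mem_insert_iff, not_or] at h1
  exact ⟨x, h2, h1.2.2, lt_of_le_of_ne hx.1 (Ne.symm h1.2.1), lt_of_le_of_ne hx.2 h1.1⟩

theorem Good.countable_multi (h : Good B) {K : Set (ℝ × ℝ)} (hK : IsCompact K) {C : Set ℝ}
    (hC : C.Countable) (hm : ∀ x x' y, (x, y) ∈ K → (x', y) ∈ K → x ≠ x' → x ∈ B → x ∈ C) :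
    {x | ∃ x' y, (x, y) ∈ K ∧ (x', y) ∈ K ∧ x ≠ x'}.Countable := by
  let W : ℕ → Set ℝ := fun n => (fun w : (ℝ × ℝ) × ℝ × ℝ => w.1.1) ''
    ((K ×ˢ K) ∩ ({w | w.1.2 = w.2.2} ∩ {w | 1 / (n + 1 : ℝ) ≤ dist w.1.1 w.2.1}))
  have hW : ∀ n, IsCompact (W n) := fun n =>
    ((hK.prod hK).inter_right ((isClosed_eq (by fun_prop) (by fun_prop)).inter
      (isClosed_le (by fun_prop) (by fun_prop)))).image (by fun_prop)
  have hW' : ∀ n, (W n).Countable := by
    intro n
    by_contra hn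
    obtain ⟨_, ⟨⟨⟨x, y⟩, x', y'⟩, ⟨⟨h1, h2⟩, h3, h4⟩, rfl⟩, h5, h6⟩ := h.meets (hW n) hn hC
    simp only [mem_setOf_eq] at h3 h4
    subst h3
    refine h5 (hm x x' y h1 h2 ?_ h6)
    rintro rfl
    simp only [dist_self] at h4
    exact absurd h4 (not_le.2 (by positivity))
  refine (countable_iUnion hW').mono ?_
  rintro x ⟨x', y, h1, h2, h3⟩
  obtain ⟨n, hn⟩ := exists_nat_one_div_lt (dist_pos.2 h3)
  exact mem_iUnion.2 ⟨n, ((x, y), x', y), ⟨⟨h1, h2⟩, rfl, hn.le⟩, rfl⟩

theorem measure_contra {K : Set (ℝ × ℝ)} (hK : IsCompact K) (hs : Rec.Small ψ K)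
    (hdom : ∀ x ∈ Icc (0 : ℝ) 1, ∃ y, (x, y) ∈ K) {a b : ℝ} (h0 : 0 ≤ a) (hab : a < b) (h1 : b ≤ 1)
    (hran : ∀ z ∈ K, z.2 ∈ Icc 0 a ∪ Icc b 1)
    (hW : {x | ∃ x' y, (x, y) ∈ K ∧ (x', y) ∈ K ∧ x ≠ x'}.Countable) : False := by
  classical
  set W := {x | ∃ x' y, (x, y) ∈ K ∧ (x', y) ∈ K ∧ x ≠ x'}
  obtain ⟨T, hT1, hT2⟩ := hs
  obtain ⟨τ, hτ⟩ := (hT1.insert (none, 0)).exists_eq_range (insert_nonempty _ _)
  let E : ℕ → Set ℝ := fun j => Prod.fst '' (K ∩ {z | ψ (τ j).1 z = (τ j).2})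
  have hE : ∀ j, MeasurableSet (E j) := fun j =>
    ((hK.inter_right (isClosed_eq (ψ_cont _) continuous_const)).image
      continuous_fst).isClosed.measurableSet
  let D : ℕ → Set ℝ := fun j => disjointed E j \ W
  have hD : ∀ j, MeasurableSet (D j) := fun j =>
    (MeasurableSet.disjointed hE j).diff hW.measurableSet
  have key : ∀ j, ∃ G : Set ℝ, MeasurableSet G ∧ volume (D j) ≤ volume G ∧
      ∀ y ∈ G, ∃ x ∈ D j, (x, y) ∈ K := by
    intro j
    have hDE : ∀ x ∈ D j, ∃ y, (x, y) ∈ K ∧ ψ (τ j).1 (x, y) = (τ j).2 := by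
      intro x hx
      obtain ⟨⟨x', y⟩, ⟨h1, h2⟩, rfl⟩ := disjointed_subset E j hx.1
      exact ⟨y, h1, h2⟩
    have hsub : (D j).Subsingleton → ∃ G : Set ℝ, MeasurableSet G ∧ volume (D j) ≤ volume G ∧
      ∀ y ∈ G, ∃ x ∈ D j, (x, y) ∈ K := fun h =>
        ⟨∅, MeasurableSet.empty, by simp [h.measure_zero], by simp⟩
    rcases e : τ j with ⟨_ | k, c⟩
    · refine hsub fun x hx x' hx' => ?_
      obtain ⟨y, -, hy⟩ := hDE x hx
      obtain ⟨y', -, hy'⟩ := hDE x' hx'
      rw [e] at hy hy'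
      exact hy.trans hy'.symm
    have hDE' : ∀ x ∈ D j, (x, k * x + c) ∈ K := by
      intro x hx
      obtain ⟨y, hy, hy'⟩ := hDE x hx
      rw [e] at hy'
      simp only [ψ] at hy'
      rwa [← hy', add_sub_cancel]
    by_cases hk : k = 0
    · refine hsub fun x hx x' hx' => ?_
      by_contra hne
      exact hx.2 ⟨x', c, by simpa [hk] using hDE' x hx, by simpa [hk] using hDE' x' hx', hne⟩
    have hk' : (k : ℝ) ≠ 0 := by exact_mod_cast hk
    refine ⟨(fun x => k * x + c) '' D j, ?_, ?_, ?_⟩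
    · refine (hD j).image_of_continuousOn_injOn (by fun_prop) fun x _ x' _ h => ?_
      simpa [hk'] using h
    · have h2 : D j ⊆ ((k : ℝ) * ·) ⁻¹' ((· + c) ⁻¹' ((fun x => k * x + c) '' D j)) :=
        fun x hx => mem_image_of_mem _ hx
      refine (measure_mono h2).trans ?_
      rw [Real.volume_preimage_mul_left hk', measure_preimage_add_right]
      refine mul_le_of_le_one_left' (ENNReal.ofReal_le_one.2 ?_)
      rw [abs_inv]
      refine inv_le_one_of_one_le₀ ?_
      exact_mod_cast Int.one_le_abs hk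
    · rintro _ ⟨x, hx, rfl⟩
      exact ⟨x, hx, hDE' x hx⟩
  choose G hG1 hG2 hG3 using key
  have hdisj : Pairwise (Function.onFun Disjoint G) := by
    intro i j hij
    refine disjoint_left.2 fun y hi hj => ?_
    obtain ⟨x, hx, hx'⟩ := hG3 i y hi
    obtain ⟨x', hy, hy'⟩ := hG3 j y hj
    refine hx.2 ⟨x', y, hx', hy', ?_⟩
    rintro rfl
    exact disjoint_left.1 (disjoint_disjointed E hij) hx.1 hy.1
  have hcov : Icc (0 : ℝ) 1 \ W ⊆ ⋃ j, D j := by
    intro x hx
    obtain ⟨y, hy⟩ := hdom x hx.1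
    obtain ⟨p, hp, hp'⟩ := hT2 _ hy
    obtain ⟨j, rfl⟩ : p ∈ range τ := hτ ▸ mem_insert_of_mem _ hp
    have : x ∈ ⋃ j, disjointed E j := by
      rw [iUnion_disjointed]
      exact mem_iUnion.2 ⟨j, (x, y), ⟨hy, hp'⟩, rfl⟩
    obtain ⟨i, hi⟩ := mem_iUnion.1 this
    exact mem_iUnion.2 ⟨i, hi, hx.2⟩
  have h2 : volume (Icc (0 : ℝ) 1) ≤ volume (Icc 0 a) + volume (Icc b 1) := by
    calc volume (Icc (0 : ℝ) 1) = volume (Icc (0 : ℝ) 1 \ W) :=
          (measure_diff_null (hW.measure_zero _)).symm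
      _ ≤ ∑' j, volume (D j) := (measure_mono hcov).trans (measure_iUnion_le _)
      _ ≤ ∑' j, volume (G j) := ENNReal.tsum_le_tsum hG2
      _ = volume (⋃ j, G j) := (measure_iUnion hdisj hG1).symm
      _ ≤ volume (Icc 0 a ∪ Icc b 1) := by
          refine measure_mono (iUnion_subset fun j y hy => ?_)
          obtain ⟨x, -, hx⟩ := hG3 j y hy
          exact hran _ hx
      _ ≤ _ := measure_union_le _ _
  rw [Real.volume_Icc, Real.volume_Icc, Real.volume_Icc,
    ← ENNReal.ofReal_add (by linarith) (by linarith),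
    ENNReal.ofReal_le_ofReal_iff (by linarith)] at h2
  linarith

end Pool.Agent.H83.SplitGroup
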