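import Pool.Agent.H83.SplitSpace

set_option autoImplicit false

namespace Pool.Agent.H83.SplitHom

open Set Filter Topology SplitGroup SplitSpace

theorem glue {A : Type*} [TopologicalSpace A] [T2Space A] {S : Set A} (hS : IsCompact S) (V W : ℕ → Set A)
    (hV : ∀ n, IsClopen (V n)) (hW : ∀ n, IsClosed (W n)) (hV0 : S ⊆ V 0) (hW0 : S ⊆ W 0)
    (hVa : Antitone fun n => S ∩ V n) (hWa : Antitone fun n => S ∩ W n) (p q : A)
    (hp : ∀ u, u = p ↔ u ∈ S ∧ ∀ n, u ∈ V n) (hq : ∀ u, u = q ↔ u ∈ S ∧ ∀ n, u ∈ W n)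
    (f : ℕ → A → A) (hf : ∀ n, Continuous (f n))
    (hb : ∀ n, BijOn (f n) ((S ∩ V n) \ V (n + 1)) ((S ∩ W n) \ W (n + 1))) :
    ∃ h : A → A, ContinuousOn h S ∧ BijOn h S S ∧ h p = q := by
  classical
  let h : A → A := fun u => if hu : ∃ n, u ∉ V (n + 1) then f (Nat.find hu) u else q
  have lev : ∀ (X : ℕ → Set A), S ⊆ X 0 → ∀ u ∈ S, (∀ n, u ∈ X n) ∨
      ∃ n, u ∈ (S ∩ X n) \ X (n + 1) := by
    intro X hX u hu
    by_cases h1 : ∃ n, u ∉ X (n + 1)
    · refine Or.inr ⟨Nat.find h1, ⟨hu, ?_⟩, Nat.find_spec h1⟩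
      rcases e : Nat.find h1 with _ | k
      · exact hX hu
      · exact not_not.1 (Nat.find_min h1 (by omega))
    · refine Or.inl fun n => ?_
      cases n with
      | zero => exact hX hu
      | succ n => exact not_not.1 (not_exists.1 h1 n)
  have uniq : ∀ (X : ℕ → Set A), (Antitone fun n => S ∩ X n) → ∀ u n m, u ∈ (S ∩ X n) \ X (n + 1) →
      u ∈ (S ∩ X m) \ X (m + 1) → n = m := by
    intro X hX u n m h1 h2
    rcases lt_trichotomy n m with h | h | h
    · exact absurd (hX (Nat.succ_le_of_lt h) h2.1).2 h1.2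
    · exact h
    · exact absurd (hX (Nat.succ_le_of_lt h) h1.1).2 h2.2
  have hh : ∀ n, ∀ u ∈ (S ∩ V n) \ V (n + 1), h u = f n u := by
    intro n u hu
    have h1 : ∃ n, u ∉ V (n + 1) := ⟨n, hu.2⟩
    simp only [h, dif_pos h1]
    congr 1
    refine le_antisymm (Nat.find_min' h1 hu.2) ?_
    by_contra hlt
    exact Nat.find_spec h1 (hVa (Nat.succ_le_of_lt (not_le.1 hlt)) hu.1).2
  have hp' := (hp p).1 rfl
  have hq' := (hq q).1 rfl
  have hhp : h p = q := by
    have : ¬ ∃ n, p ∉ V (n + 1) := fun ⟨n, hn⟩ => hn (hp'.2 _)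
    simp only [h, dif_neg this]
  have hmap : ∀ N, ∀ u ∈ S ∩ V N, h u ∈ S ∩ W N := by
    intro N u hu
    rcases lev V hV0 u hu.1 with h1 | ⟨n, h1⟩
    · rw [(hp u).2 ⟨hu.1, h1⟩, hhp]; exact ⟨hq'.1, hq'.2 N⟩
    · rw [hh n u h1]
      refine hWa ?_ ((hb n).mapsTo h1).1
      by_contra hlt
      exact h1.2 (hVa (Nat.succ_le_of_lt (not_le.1 hlt)) hu).2
  refine ⟨h, fun u hu => ?_, ⟨fun u hu => (hmap 0 u ⟨hu, hV0 hu⟩).1, ?_, ?_⟩, hhp⟩
  · rcases lev V hV0 u hu with h1 | ⟨n, h1⟩
    · rw [(hp u).2 ⟨hu, h1⟩, ContinuousWithinAt, hhp, tendsto_nhds]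
      intro O hO hqO
      obtain ⟨N, hN⟩ : ∃ N, S ∩ W N ⊆ O := by
        refine exists_subset_nhds_of_isCompact (V := fun n => S ∩ W n) hWa.directed_ge
          (fun n => hS.inter_right (hW n)) (fun x hx => ?_)
        rw [(hq x).2 ⟨(mem_iInter.1 hx 0).1, fun n => (mem_iInter.1 hx n).2⟩]
        exact hO.mem_nhds hqO
      filter_upwards [inter_mem_nhdsWithin S ((hV N).isOpen.mem_nhds (hp'.2 N))] with v hv
      exact hN (hmap N v hv)
    · refine ((hf n).continuousWithinAt (s := S)).congr_of_eventuallyEq ?_ (hh n u h1)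
      filter_upwards [inter_mem_nhdsWithin S
        (((hV n).diff (hV (n + 1))).isOpen.mem_nhds ⟨h1.1.2, h1.2⟩)] with v hv
      exact hh n v ⟨⟨hv.1, hv.2.1⟩, hv.2.2⟩
  · intro u hu v hv huv
    rcases lev V hV0 u hu with h1 | ⟨n, h1⟩ <;> rcases lev V hV0 v hv with h2 | ⟨m, h2⟩
    · rw [(hp u).2 ⟨hu, h1⟩, (hp v).2 ⟨hv, h2⟩]
    · rw [(hp u).2 ⟨hu, h1⟩, hhp, hh m v h2] at huv
      exact absurd (huv ▸ hq'.2 _) ((hb m).mapsTo h2).2
    · rw [(hp v).2 ⟨hv, h2⟩, hhp, hh n u h1] at huv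
      exact absurd (huv ▸ hq'.2 _) ((hb n).mapsTo h1).2
    · rw [hh n u h1, hh m v h2] at huv
      obtain rfl := uniq W hWa _ n m ((hb n).mapsTo h1) (huv ▸ (hb m).mapsTo h2)
      exact (hb n).injOn h1 h2 huv
  · intro w hw
    rcases lev W hW0 w hw with h1 | ⟨n, h1⟩
    · exact ⟨p, hp'.1, hhp.trans ((hq w).2 ⟨hw, h1⟩).symm⟩
    · obtain ⟨u, hu, rfl⟩ := (hb n).surjOn h1
      exact ⟨u, hu.1.1, hh n u hu⟩

variable {B : AddSubgroup ℝ}

/-- translation -/
def sh (c : B) (u : B → Bool) : B → Bool := fun b => u (b - c)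

theorem sh_cont (c : B) : Continuous (sh c) := continuous_pi fun b => continuous_apply (b - c)

theorem sh_sh {c d : B} (h : (c : ℝ) + d = 0) (u : B → Bool) : sh c (sh d u) = u := by
  funext b
  simp only [sh]
  congr 1
  ext; push_cast; linarith

theorem sh_mono (c : B) {u : B → Bool} (hu : Monotone u) : Monotone (sh c u) :=
  fun _ _ h => hu (sub_le_sub_right h c)

theorem sh_t {c b d : B} {u : B → Bool} (hu : Monotone u) (h : u d = true)
    (hd : (d : ℝ) + c ≤ b) : sh c u b = true := mt hu (by push_cast; linarith) h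

theorem sh_f {c b d : B} {u : B → Bool} (hu : Monotone u) (h : u d = false)
    (hd : (b : ℝ) ≤ d + c) : sh c u b = false := mf hu (by push_cast; linarith) h

theorem sh_bij {a b c a' b' : B} (ha : (a' : ℝ) = a + c) (hb : (b' : ℝ) = b + c) :
    BijOn (sh c) (I a b) (I a' b') := by
  refine InvOn.bijOn (f' := sh (-c)) ⟨fun u _ => sh_sh (by simp) u, fun u _ => sh_sh (by simp) u⟩
    (fun u hu => ⟨sh_mono c hu.1, sh_f hu.1 hu.2.1 ha.le, sh_t hu.1 hu.2.2 hb.ge⟩)
    (fun u hu => ⟨sh_mono _ hu.1, sh_f hu.1 hu.2.1 (by push_cast; linarith),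
      sh_t hu.1 hu.2.2 (by push_cast; linarith)⟩)

/-- self-homeomorphisms of the split interval -/
def G (o : B) (h : (B → Bool) → B → Bool) : Prop := ContinuousOn h (I 0 o) ∧ BijOn h (I 0 o) (I 0 o)

theorem G.comp {o : B} {g h : (B → Bool) → B → Bool} (hg : G o g) (hh : G o h) : G o (g ∘ h) :=
  ⟨hg.1.comp hh.1 hh.2.mapsTo, hg.2.comp hh.2⟩

theorem G.homeo {o : B} {g : (B → Bool) → B → Bool} (hg : G o g) :
    ∃ e : I 0 o ≃ₜ I 0 o, ∀ x, (e x).1 = g x.1 := by
  have : Continuous (hg.2.equiv g) := hg.1.mapsToRestrict hg.2.mapsTo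
  exact ⟨this.homeoOfEquivCompactToT2, fun x => rfl⟩

/-- rotation of the interval from `a` to `o` -/
def rot (o a c : B) (u : B → Bool) : B → Bool :=
  if u a = true then u else if u (o - c) = true then sh c u else sh (a + c - o) u

theorem rot_cont (o a c : B) : Continuous (rot o a c) := by
  refine continuous_pi fun b => ?_
  have h1 : Continuous fun p : Bool × Bool × Bool × Bool × Bool =>
      if p.1 = true then p.2.1 else if p.2.2.1 = true then p.2.2.2.1 else p.2.2.2.2 :=
    continuous_of_discreteTopology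
  have h2 : Continuous fun u : B → Bool =>
      (u a, u b, u (o - c), u (b - c), u (b - (a + c - o))) := by fun_prop
  convert h1.comp h2 using 1
  funext u
  simp only [rot, Function.comp]
  split_ifs <;> rfl

theorem rot_maps {o a c : B} (ha : (0 : ℝ) ≤ a) (hc : (0 : ℝ) ≤ c) (hac : (a : ℝ) + c ≤ o) :
    MapsTo (rot o a c) (I 0 o) (I 0 o) := by
  intro u hu
  simp only [rot]
  split_ifs with h1 h2
  · exact hu
  · exact ⟨sh_mono _ hu.1, sh_f hu.1 hu.2.1 (by simpa using hc),
      sh_t hu.1 h2 (by push_cast; linarith)⟩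
  · exact ⟨sh_mono _ hu.1, sh_f hu.1 (Bool.eq_false_iff.2 h2) (by push_cast; linarith),
      sh_t hu.1 hu.2.2 (by push_cast; linarith)⟩

theorem rot_inv {o a c d : B} (hc : (0 : ℝ) ≤ c) (hd : (a : ℝ) + c + d = o) :
    LeftInvOn (rot o a d) (rot o a c) (I 0 o) := by
  intro u hu
  by_cases h1 : u a = true
  · simp [rot, h1]
  have h1' := Bool.eq_false_iff.2 h1
  by_cases h2 : u (o - c) = true
  · have e : rot o a c u = sh c u := by simp [rot, h1, h2]
    have e1 : sh c u a = false := sh_f hu.1 h1' (by linarith)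
    have e2 : sh c u (o - d) = false := sh_f hu.1 h1' (by push_cast; linarith)
    rw [e]
    simp only [rot, e1, e2, Bool.false_eq_true, if_false]
    exact sh_sh (by push_cast; linarith) u
  · have e : rot o a c u = sh (a + c - o) u := by simp [rot, h1, h2]
    have e1 : sh (a + c - o) u a = false :=
      sh_f hu.1 (Bool.eq_false_iff.2 h2) (by push_cast; linarith)
    have e2 : sh (a + c - o) u (o - d) = true := sh_t hu.1 hu.2.2 (by push_cast; linarith)
    rw [e]
    simp only [rot, e1, e2, Bool.false_eq_true, if_false, if_true]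
    exact sh_sh (by push_cast; linarith) u

theorem rot_G {o a c : B} (ha : (0 : ℝ) ≤ a) (hc : (0 : ℝ) ≤ c) (hac : (a : ℝ) + c ≤ o) :
    G o (rot o a c) := by
  have hd : (0 : ℝ) ≤ ((o - a - c : B) : ℝ) := by push_cast; linarith
  exact ⟨(rot_cont o a c).continuousOn, InvOn.bijOn (f' := rot o a (o - a - c))
    ⟨rot_inv hc (by push_cast; linarith), rot_inv hd (by push_cast; linarith)⟩
    (rot_maps ha hc hac) (rot_maps ha hd (by push_cast; linarith))⟩

/-- reflection -/
def rf (o : B) (u : B → Bool) : B → Bool := fun b => !u (o - b)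

theorem rf_G (o : B) : G o (rf o) := by
  have hm : MapsTo (rf o) (I 0 o) (I 0 o) := by
    intro u hu
    refine ⟨fun a b hab => ?_, by simp [rf, hu.2.2], by simp [rf, hu.2.1]⟩
    have := hu.1 (sub_le_sub_left hab o)
    simp only [rf]
    revert this
    cases u (o - a) <;> cases u (o - b) <;> simp
  have hi : ∀ u, rf o (rf o u) = u := fun u => funext fun b => by simp [rf]
  refine ⟨Continuous.continuousOn (continuous_pi fun b => ?_),
    InvOn.bijOn (f' := rf o) ⟨fun u _ => hi u, fun u _ => hi u⟩ hm hm⟩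
  exact (continuous_of_discreteTopology (f := fun b : Bool => !b)).comp (continuous_apply (o - b))

theorem to_zero_up {o : B} {x : ℝ} (hx : x ∈ B) (hu : up x ∈ I 0 o) :
    ∃ h, G o h ∧ h (up x) = up 0 := by
  have h0 : (0 : ℝ) ≤ x := by simpa [up] using hu.2.1
  have h1 : x < o := by simpa [up] using hu.2.2
  refine ⟨rot o 0 (o - ⟨x, hx⟩), rot_G (by simp) (by push_cast; linarith) (by push_cast; linarith),
    ?_⟩
  funext b
  simp [rot, up, sh, not_lt.2 h0]

theorem to_zero_irr (h : Good B) {o : B} {x : ℝ} (hx : x ∉ B) (hu : up x ∈ I 0 o) :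
    ∃ h, G o h ∧ h (up x) = up 0 := by
  have h0 : (0 : ℝ) < x := lt_of_le_of_ne (by simpa [up] using hu.2.1)
    (fun e => hx (e ▸ B.zero_mem))
  have h1 : x < o := by simpa [up] using hu.2.2
  have step : ∀ p : {p : B × B // (p.1 : ℝ) < x ∧ x < p.2},
      ∃ q : {p : B × B // (p.1 : ℝ) < x ∧ x < p.2},
      ((q.1.1 = p.1.1 ∧ (q.1.2 : ℝ) ≤ p.1.2) ∨ (q.1.2 = p.1.2 ∧ (p.1.1 : ℝ) ≤ q.1.1)) ∧
        (q.1.2 : ℝ) - q.1.1 ≤ 2 / 3 * (p.1.2 - p.1.1) := by
    rintro ⟨⟨a, b⟩, ha, hb⟩
    simp only at ha hb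
    rcases le_total (x - a) (b - x) with h2 | h2
    · obtain ⟨c, hc1, hc2⟩ := dense0 h (a := x) (b := b - (b - a) / 3) (by linarith)
      exact ⟨⟨(a, c), ha, hc1⟩, Or.inl ⟨rfl, by simp only; linarith⟩, by simp only; linarith⟩
    · obtain ⟨c, hc1, hc2⟩ := dense0 h (a := a + (b - a) / 3) (b := x) (by linarith)
      exact ⟨⟨(c, b), hc2, hb⟩, Or.inr ⟨rfl, by simp only; linarith⟩, by simp only; linarith⟩
  choose g hg1 hg2 using step
  let s : ℕ → {p : B × B // (p.1 : ℝ) < x ∧ x < p.2} := fun n => g^[n] ⟨(0, o), h0, h1⟩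
  have hs : ∀ n, s (n + 1) = g (s n) := fun n => Function.iterate_succ_apply' _ _ _
  let a : ℕ → B := fun n => (s n).1.1
  let b : ℕ → B := fun n => (s n).1.2
  have ha : ∀ n, (a n : ℝ) < x := fun n => (s n).2.1
  have hb : ∀ n, x < b n := fun n => (s n).2.2
  have hab : ∀ n, (a (n + 1) = a n ∧ (b (n + 1) : ℝ) ≤ b n) ∨
      (b (n + 1) = b n ∧ (a n : ℝ) ≤ a (n + 1)) := fun n => by
    simp only [a, b, hs]; exact hg1 (s n)
  have ham : Monotone fun n => (a n : ℝ) := monotone_nat_of_le_succ fun n => by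
    rcases hab n with h | h
    · rw [h.1]
    · exact h.2
  have hbm : Antitone fun n => (b n : ℝ) := antitone_nat_of_succ_le fun n => by
    rcases hab n with h | h
    · exact h.2
    · rw [h.1]
  have ha0 : ∀ n, (0 : ℝ) ≤ a n := fun n => ham (Nat.zero_le n)
  have hb0 : ∀ n, (b n : ℝ) ≤ o := fun n => hbm (Nat.zero_le n)
  have hsm : ∀ ε > (0 : ℝ), ∃ n, (b n : ℝ) - a n < ε := by
    intro ε hε
    have h2 : ∀ n, (b n : ℝ) - a n ≤ (2 / 3) ^ n * o := by
      intro n
      induction n with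
      | zero => simp [a, b, s]
      | succ n ih =>
        have := hg2 (s n)
        rw [← hs] at this
        simp only [a, b] at ih ⊢
        rw [pow_succ]; linarith
    have h3 : Tendsto (fun n : ℕ => (2 / 3 : ℝ) ^ n * o) atTop (𝓝 (0 * o)) :=
      (tendsto_pow_atTop_nhds_zero_of_lt_one (by norm_num) (by norm_num)).mul_const _
    rw [zero_mul] at h3
    obtain ⟨n, hn⟩ := (h3.eventually (gt_mem_nhds hε)).exists
    exact ⟨n, (h2 n).trans_lt hn⟩
  have hz : (up 0 : B → Bool) ∈ I 0 o := up_mem (by simp) (h0.trans h1)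
  obtain ⟨F, hF1, hF2, hF3⟩ := glue (isClosed_I 0 o).isCompact
    (fun n => {u | u (a n) = false} ∩ {u | u (b n) = true}) (fun n => {u | u (b n - a n) = true})
    (fun n => (clopen_coord _ _).inter (clopen_coord _ _)) (fun n => (clopen_coord _ _).isClosed)
    (fun u hu => hu.2) (fun u hu => by simpa [a, b, s] using hu.2.2)
    (fun n m hnm u hu => ⟨hu.1, mf hu.1.1 (ham hnm) hu.2.1, mt hu.1.1 (hbm hnm) hu.2.2⟩)
    (fun n m hnm u hu => ⟨hu.1, mt hu.1.1 (by
      have := ham hnm; have := hbm hnm; push_cast; linarith) hu.2⟩) (up x) (up 0)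
    (fun u => ⟨by
      rintro rfl
      exact ⟨hu, fun n => ⟨by simpa [up] using (ha n).le, by simpa [up] using hb n⟩⟩, by
      rintro ⟨h2, h3⟩
      have : π u = x := by
        refine eq_of_forall_dist_le fun ε hε => ?_
        obtain ⟨n, hn⟩ := hsm ε hε
        have := le_pi h2 (h3 n).1
        have := pi_le h2 (h3 n).2
        have := ha n
        have := hb n
        rw [Real.dist_eq, abs_le]
        constructor <;> linarith
      rw [← this, ← or_self_iff (a := u = up (π u))]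
      refine (eq_or h2).imp id fun e => e.trans (up_eq_dn (by rwa [this])).symm⟩)
    (fun u => ⟨by
      rintro rfl
      exact ⟨hz, fun n => by simpa [up] using (ha n).trans (hb n)⟩, by
      rintro ⟨h2, h3⟩
      funext c
      rcases le_or_gt (c : ℝ) 0 with hc | hc
      · rw [mf h2.1 (b := 0) hc h2.2.1]; simp [up, hc]
      · obtain ⟨n, hn⟩ := hsm c hc
        rw [mt h2.1 (a := b n - a n) hn.le (h3 n)]; simp [up, hc]⟩)
    (fun n => if a (n + 1) = a n then sh (-a n) else sh (b (n + 1) - a (n + 1) - a n))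
    (fun n => by split_ifs <;> exact sh_cont _)
    (fun n => by
      have e2 : (I 0 o ∩ {u | u (b n - a n) = true}) \ {u | u (b (n + 1) - a (n + 1)) = true} =
          I (b (n + 1) - a (n + 1)) (b n - a n) := by
        ext u
        constructor
        · rintro ⟨⟨h2, h3⟩, h4⟩
          exact ⟨h2.1, Bool.eq_false_iff.2 h4, h3⟩
        · rintro ⟨h2, h3, h4⟩
          refine ⟨⟨⟨h2, mf h2 ?_ h3, mt h2 ?_ h4⟩, h4⟩, Bool.eq_false_iff.1 h3⟩
          · have := ha (n + 1); have := hb (n + 1); push_cast; linarith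
          · have := ha0 n; have := hb0 n; push_cast; linarith
      rw [e2]
      split_ifs with h2
      · have h3 : (b (n + 1) : ℝ) ≤ b n := hbm (Nat.le_succ n)
        convert sh_bij (a := b (n + 1)) (b := b n) (c := -a n)
          (a' := b (n + 1) - a (n + 1)) (b' := b n - a n) (by rw [h2]; push_cast; ring)
          (by push_cast; ring) using 1
        ext u
        constructor
        · rintro ⟨⟨h4, h5, h6⟩, h7⟩
          refine ⟨h4.1, Bool.eq_false_iff.2 fun h8 => h7 ⟨?_, h8⟩, h6⟩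
          rw [h2]; exact h5
        · rintro ⟨h4, h5, h6⟩
          have h7 : u (a n) = false := mf h4 ((ha n).trans (hb _)).le h5
          exact ⟨⟨⟨h4, mf h4 (ha0 n) h7, mt h4 (hb0 n) h6⟩, h7, h6⟩,
            fun h8 => Bool.eq_false_iff.1 h5 h8.2⟩
      · have h3 := (hab n).resolve_left (fun h => h2 h.1)
        convert sh_bij (a := a n) (b := a (n + 1)) (c := b (n + 1) - a (n + 1) - a n)
          (a' := b (n + 1) - a (n + 1)) (b' := b n - a n)
          (by push_cast; ring) (by rw [h3.1]; push_cast; ring) using 1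
        ext u
        constructor
        · rintro ⟨⟨h4, h5, h6⟩, h7⟩
          refine ⟨h4.1, h5, ?_⟩
          by_contra h8
          exact h7 ⟨Bool.eq_false_iff.2 h8, by rw [h3.1]; exact h6⟩
        · rintro ⟨h4, h5, h6⟩
          have h7 : u (b n) = true := mt h4 ((ha _).trans (hb _)).le h6
          exact ⟨⟨⟨h4, mf h4 (ha0 n) h5, mt h4 (hb0 n) h7⟩, h5, h7⟩,
            fun h8 => Bool.eq_false_iff.1 h8.1 h6⟩)
  exact ⟨F, ⟨hF1, hF2⟩, hF3⟩

theorem to_zero (h : Good B) {o : B} {u : B → Bool} (hu : u ∈ I 0 o) :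
    ∃ h, G o h ∧ h u = up 0 := by
  by_cases hx : π u ∈ B
  · rcases eq_or hu with e | e
    · rw [e] at hu ⊢; exact to_zero_up hx hu
    · have e2 : rf o u = up (o - π u) := by
        generalize π u = x at e
        rw [e]
        funext b
        simp only [rf, dn, up, AddSubgroupClass.coe_sub]
        by_cases h : x ≤ o - b
        · simp [h]; linarith
        · simp [h]; linarith
      obtain ⟨g, hg1, hg2⟩ := to_zero_up (B.sub_mem o.2 hx) (e2 ▸ (rf_G o).2.mapsTo hu)
      exact ⟨g ∘ rf o, hg1.comp (rf_G o), by rw [Function.comp, e2, hg2]⟩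
  · have e : u = up (π u) := (eq_or hu).elim id fun e => e.trans (up_eq_dn hx).symm
    rw [e] at hu ⊢; exact to_zero_irr h hx hu

theorem homogeneous (h : Good B) {o : B} (x y : I 0 o) : ∃ e : I 0 o ≃ₜ I 0 o, e x = y := by
  obtain ⟨g, hg1, hg2⟩ := to_zero h x.2
  obtain ⟨g', hg1', hg2'⟩ := to_zero h y.2
  obtain ⟨e, he⟩ := hg1.homeo
  obtain ⟨e', he'⟩ := hg1'.homeo
  refine ⟨e.trans e'.symm, ?_⟩
  rw [Homeomorph.trans_apply, Homeomorph.symm_apply_eq]
  exact Subtype.ext (by rw [he, he', hg2, hg2'])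

theorem compress (h : Good B) {o : B} {S : Set (B → Bool)} (hS : S.Finite) (hS' : S ⊆ I 0 o) :
    ∀ ε : B, (0 : ℝ) < ε → ∃ g, G o g ∧ ∀ u ∈ S, g u ε = true := by
  induction S, hS using Set.Finite.induction_on with
  | empty => exact fun ε _ => ⟨id, ⟨continuousOn_id, bijOn_id _⟩, by simp⟩
  | @insert p S _ _ ih =>
    intro ε hε
    obtain ⟨δ, hδ1, hδ2⟩ := dense0 h hε
    obtain ⟨g, hg1, hg2⟩ := ih ((subset_insert _ _).trans hS') δ hδ1
    have hq := hg1.2.mapsTo (hS' (mem_insert _ _))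
    have hS2 : ∀ u ∈ S, g u ε = true := fun u hu =>
      mt (hg1.2.mapsTo (hS' (mem_insert_of_mem _ hu))).1 hδ2.le (hg2 u hu)
    by_cases h1 : g p ε = true
    · exact ⟨g, hg1, by simpa [h1] using hS2⟩
    have h2 := le_pi hq (Bool.eq_false_iff.2 h1)
    have h3 := pi_le hq hq.2.2
    obtain ⟨d, hd1, hd2⟩ := dense0 h (a := π (g p) - (ε - δ)) (b := π (g p)) (by linarith)
    refine ⟨rot o δ (o - d) ∘ g, (rot_G hδ1.le (by push_cast; linarith)
      (by push_cast; linarith)).comp hg1, ?_⟩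
    rintro u (rfl | hu)
    · have e1 : g u δ = false := false_of hq (by linarith)
      have e2 : g u d = false := false_of hq hd2
      simp only [Function.comp, rot, e1, sub_sub_cancel, e2, Bool.false_eq_true, if_false, sh]
      exact true_of hq (by push_cast; linarith)
    · simp only [Function.comp, rot, hg2 u hu, if_true]
      exact hS2 u hu

theorem not_left (h : Good B) {o : B} (ho : (o : ℝ) = 1) :
    ∃ U ∈ 𝓝 (id : I 0 o → I 0 o), ∀ F : Set (I 0 o → I 0 o), F.Finite → (∀ g ∈ F, Continuous g) →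
      ∃ f : I 0 o → I 0 o, Continuous f ∧ ∀ g ∈ F, ∀ u ∈ U, Continuous u → f ≠ g ∘ u := by
  classical
  obtain ⟨m, hm1, hm2⟩ := dense0 h (a := 0) (b := o) (by rw [ho]; norm_num)
  let z : I 0 o := ⟨up 0, up_mem (by simp) (hm1.trans hm2)⟩
  let w : I 0 o := ⟨dn o, dn_mem (hm1.trans hm2) le_rfl⟩
  have hc : ∀ t, IsClopen {v : I 0 o | v.1 m = t} := fun t =>
    (clopen_coord m t).preimage continuous_subtype_val
  refine ⟨{u | (u z).1 m = true} ∩ {u | (u w).1 m = false}, IsOpen.mem_nhds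
    (((hc true).isOpen.preimage (continuous_apply (A := fun _ : I 0 o => I 0 o) z)).inter
      ((hc false).isOpen.preimage (continuous_apply (A := fun _ : I 0 o => I 0 o) w)))
    ⟨by simpa [z, up] using hm1, by simpa [w, dn] using hm2⟩, fun F hF hFc => ?_⟩
  have key : ∀ g : I 0 o → I 0 o, ∃ χ : I 0 o → ℝ, Continuous χ ∧ (Continuous g →
      Function.Bijective g → ∀ v, χ (g v) = if v.1 m = true then 1 else 0) := by
    intro g
    by_cases hg : Continuous g ∧ Function.Bijective g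
    · let e := Continuous.homeoOfEquivCompactToT2 (f := Equiv.ofBijective g hg.2) hg.1
      refine ⟨fun v => if (e.symm v).1 m = true then 1 else 0, ?_, fun _ _ v => ?_⟩
      · exact (continuous_of_discreteTopology (f := fun b : Bool => if b = true then (1 : ℝ) else 0)).comp
          ((continuous_apply (A := fun _ : B => Bool) m).comp
            (continuous_subtype_val.comp e.symm.continuous))
      · have : e.symm (g v) = v := e.symm_apply_apply v
        simp only [this]
    · exact ⟨0, continuous_const, fun h1 h2 => absurd ⟨h1, h2⟩ hg⟩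
  choose χ hχ1 hχ2 using key
  obtain ⟨c, hcB, hcC, hc1, hc2⟩ := h.dense' (hm1.trans hm2)
    (hF.countable.biUnion fun g _ => jump (χ g) (hχ1 g))
  obtain ⟨e, he⟩ := (rot_G (o := o) (a := 0) (c := ⟨c, hcB⟩) le_rfl hc1.le
    (by simpa using hc2.le)).homeo
  refine ⟨e, e.continuous, fun g hg u hu huc hgu => hcC (mem_biUnion hg ⟨hc1, hc2, hcB, ?_⟩)⟩
  have hui : Function.Injective u := Function.Injective.of_comp (hgu ▸ e.injective)
  have hus := cohopf h ho u huc hui
  have hgb : Function.Bijective g := (Function.Bijective.of_comp_iff g ⟨hui, hus⟩).1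
    (hgu ▸ e.bijective)
  have e1 : (⟨up c, up_mem hc1.le hc2⟩ : I 0 o) = g (u z) := by
    rw [← Function.comp_apply (f := g), ← hgu]
    refine Subtype.ext ((he z).trans ?_).symm
    funext b
    simp [rot, z, up, sh, hc2]
  have e2 : (⟨dn c, dn_mem hc1 hc2.le⟩ : I 0 o) = g (u w) := by
    rw [← Function.comp_apply (f := g), ← hgu]
    refine Subtype.ext ((he w).trans ?_).symm
    funext b
    have a1 : ¬ o ≤ 0 := not_le.2 (show (0 : B) < o from hm1.trans hm2)
    have a2 : ¬ c ≤ 0 := not_le.2 hc1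
    simp only [rot, w, dn, sh, ZeroMemClass.coe_zero, not_le.2 (hm1.trans hm2), decide_false,
      Bool.false_eq_true, if_false, AddSubgroupClass.coe_sub, le_sub_self_iff, a2, zero_add]
    congr 1
    exact propext ⟨fun h => by linarith, fun h => by linarith⟩
  rw [e1, e2, hχ2 g (hFc g hg) hgb, hχ2 g (hFc g hg) hgb, if_pos (show (u z).1 m = true from hu.1),
    if_neg (Bool.eq_false_iff.1 (show (u w).1 m = false from hu.2))]
  exact one_ne_zero

theorem not_right (h : Good B) {o : B} (ho : (o : ℝ) = 1) :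
    ∃ U ∈ 𝓝 (id : I 0 o → I 0 o), ∀ F : Set (I 0 o → I 0 o), F.Finite → (∀ g ∈ F, Continuous g) →
      ∃ f : I 0 o → I 0 o, Continuous f ∧ ∀ g ∈ F, ∀ u ∈ U, f ≠ u ∘ g := by
  classical
  obtain ⟨m, hm1, hm2⟩ := dense0 h (a := 0) (b := o) (by rw [ho]; norm_num)
  let w : I 0 o := ⟨dn o, dn_mem (hm1.trans hm2) le_rfl⟩
  have hc : ∀ t, IsClopen {v : I 0 o | v.1 m = t} := fun t =>
    (clopen_coord m t).preimage continuous_subtype_val
  refine ⟨{u | (u w).1 m = false}, IsOpen.mem_nhds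
    ((hc false).isOpen.preimage (continuous_apply (A := fun _ : I 0 o => I 0 o) w))
    (by simpa [w, dn] using hm2), fun F hF hFc => ?_⟩
  haveI : Nonempty (I 0 o) := ⟨w⟩
  obtain ⟨k, hk1, hk2⟩ := compress h (hF.image fun g => (Function.invFun g w).1)
    (by rintro _ ⟨g, -, rfl⟩; exact Subtype.property _) m hm1
  obtain ⟨e, he⟩ := hk1.homeo
  refine ⟨e, e.continuous, fun g hg u hu hgu => ?_⟩
  have hgi : Function.Injective g := Function.Injective.of_comp (hgu ▸ e.injective)
  have h1 := hk2 _ (mem_image_of_mem _ hg)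
  rw [← he, hgu, Function.comp_apply, Function.rightInverse_invFun (cohopf h ho g (hFc g hg) hgi) w]
    at h1
  exact Bool.eq_false_iff.1 hu h1

theorem clopen_basis (a b : B) :
    TopologicalSpace.IsTopologicalBasis {s : Set (I a b) | IsClopen s} := isTopologicalBasis_isClopen

end Pool.Agent.H83.SplitHom
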