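import Pool.Agent.H83.SplitGroup

set_option autoImplicit false

namespace Pool.Agent.H83.SplitSpace

open Set Filter Topology SplitGroup

variable {B : AddSubgroup ℝ}

/-- cuts of `B` between `a` and `b` -/
def I (a b : B) : Set (B → Bool) := {u | Monotone u ∧ u a = false ∧ u b = true}

theorem mt {u : B → Bool} (hu : Monotone u) {a b : B} (h : (a : ℝ) ≤ b) (ha : u a = true) :
    u b = true := by
  have := hu (show a ≤ b from h)
  rw [ha] at this
  exact top_le_iff.1 this

theorem mf {u : B → Bool} (hu : Monotone u) {a b : B} (h : (a : ℝ) ≤ b) (hb : u b = false) :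
    u a = false := by
  cases ha : u a
  · rfl
  · rw [mt hu h ha] at hb; exact absurd hb (by simp)

theorem lt_of {u : B → Bool} (hu : Monotone u) {a b : B} (ha : u a = false) (hb : u b = true) :
    (a : ℝ) < b := by
  by_contra h
  rw [mt hu (not_lt.1 h) hb] at ha
  exact absurd ha (by simp)

theorem clopen_coord (c : B) (t : Bool) : IsClopen {u : B → Bool | u c = t} :=
  (isClopen_discrete ({t} : Set Bool)).preimage (continuous_apply (A := fun _ : B => Bool) c)

theorem isClosed_I (a b : B) : IsClosed (I a b) := by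
  have h : IsClosed {u : B → Bool | Monotone u} := by
    have : {u : B → Bool | Monotone u} = ⋂ a : B, ⋂ b : B, ⋂ _ : a ≤ b, {u | u a ≤ u b} := by
      ext u; simp [Monotone]
    rw [this]
    exact isClosed_iInter fun a => isClosed_iInter fun b => isClosed_iInter fun _ =>
      (isClosed_discrete {p : Bool × Bool | p.1 ≤ p.2}).preimage
        (f := fun u : B → Bool => (u a, u b)) (by fun_prop)
  exact h.inter ((clopen_coord a false).isClosed.inter (clopen_coord b true).isClosed)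

instance (a b : B) : CompactSpace (I a b) := isCompact_iff_compactSpace.1 (isClosed_I a b).isCompact

/-- the real number determined by a cut -/
noncomputable def π (u : B → Bool) : ℝ := sInf {x : ℝ | ∃ c : B, (c : ℝ) = x ∧ u c = true}

theorem pi_le {a b c : B} {u : B → Bool} (hu : u ∈ I a b) (h : u c = true) : π u ≤ c :=
  csInf_le ⟨a, by rintro _ ⟨d, rfl, hd⟩; exact (lt_of hu.1 hu.2.1 hd).le⟩ ⟨c, rfl, h⟩

theorem le_pi {a b c : B} {u : B → Bool} (hu : u ∈ I a b) (h : u c = false) : (c : ℝ) ≤ π u :=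
  le_csInf ⟨b, b, rfl, hu.2.2⟩ (by rintro _ ⟨d, rfl, hd⟩; exact (lt_of hu.1 h hd).le)

theorem true_of {a b c : B} {u : B → Bool} (hu : u ∈ I a b) (h : π u < c) : u c = true := by
  cases hc : u c
  · exact absurd (le_pi hu hc) (not_le.2 h)
  · rfl

theorem false_of {a b c : B} {u : B → Bool} (hu : u ∈ I a b) (h : (c : ℝ) < π u) :
    u c = false := by
  cases hc : u c
  · rfl
  · exact absurd (pi_le hu hc) (not_le.2 h)

/-- the upper cut -/
noncomputable def up (x : ℝ) : B → Bool := fun c => decide (x < c)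

/-- the lower cut -/
noncomputable def dn (x : ℝ) : B → Bool := fun c => decide (x ≤ c)

theorem up_mem {a b : B} {x : ℝ} (h1 : (a : ℝ) ≤ x) (h2 : x < b) : up x ∈ I a b := by
  refine ⟨fun c d hcd => ?_, by simpa [up] using h1, by simpa [up] using h2⟩
  simp only [up, Bool.le_iff_imp, decide_eq_true_iff]
  exact fun h => h.trans_le hcd

theorem dn_mem {a b : B} {x : ℝ} (h1 : (a : ℝ) < x) (h2 : x ≤ b) : dn x ∈ I a b := by
  refine ⟨fun c d hcd => ?_, by simpa [dn] using h1, by simpa [dn] using h2⟩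
  simp only [dn, Bool.le_iff_imp, decide_eq_true_iff]
  exact fun h => h.trans hcd

theorem eq_or {a b : B} {u : B → Bool} (hu : u ∈ I a b) : u = up (π u) ∨ u = dn (π u) := by
  by_cases h : ∃ c : B, (c : ℝ) = π u ∧ u c = true
  · obtain ⟨c, hc, hc'⟩ := h
    refine Or.inr (funext fun d => ?_)
    rcases lt_or_ge (d : ℝ) (π u) with h | h
    · rw [false_of hu h]; simp [dn, h]
    · rw [mt hu.1 (hc.trans_le h) hc']; simp [dn, h]
  · refine Or.inl (funext fun d => ?_)
    rcases lt_trichotomy (d : ℝ) (π u) with h' | h' | h'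
    · rw [false_of hu h']; simp [up, h'.le]
    · cases hd : u d
      · simp [up, h']
      · exact absurd ⟨d, h', hd⟩ h
    · rw [true_of hu h']; simp [up, h']

theorem up_eq_dn {x : ℝ} (h : x ∉ B) : (up x : B → Bool) = dn x := by
  funext c
  have : x ≠ c := fun e => h (e ▸ c.2)
  simp [up, dn, le_iff_lt_or_eq, this]

theorem up_ne_dn {x : ℝ} (h : x ∈ B) : (up x : B → Bool) ≠ dn x := fun e => by
  simpa [up, dn] using congrFun e ⟨x, h⟩

theorem dense0 (h : Good B) {a b : ℝ} (hab : a < b) : ∃ c : B, a < c ∧ (c : ℝ) < b := by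
  obtain ⟨x, h1, -, h2⟩ := h.dense' hab countable_empty
  exact ⟨⟨x, h1⟩, h2⟩

theorem pi_eq (h : Good B) {a b : B} {u : B → Bool} (hu : u ∈ I a b) {x : ℝ}
    (hx : u = up x ∨ u = dn x) : π u = x := by
  rcases lt_trichotomy (π u) x with h' | h' | h'
  · obtain ⟨c, h1, h2⟩ := dense0 h h'
    have := true_of hu h1
    rcases hx with rfl | rfl
    · simp [up] at this; linarith
    · simp [dn] at this; linarith
  · exact h'
  · obtain ⟨c, h1, h2⟩ := dense0 h h'
    have := false_of hu h2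
    rcases hx with rfl | rfl
    · simp [up] at this; linarith
    · simp [dn] at this; linarith

theorem pi_cont (h : Good B) (a b : B) : Continuous fun u : I a b => π u.1 := by
  rw [continuous_iff_continuousAt]
  intro u
  refine tendsto_order.2 ⟨fun t ht => ?_, fun t ht => ?_⟩
  · obtain ⟨c, h1, h2⟩ := dense0 h ht
    filter_upwards [((clopen_coord c false).isOpen.preimage continuous_subtype_val).mem_nhds
      (false_of u.2 h2)] with v hv
    exact h1.trans_le (le_pi v.2 hv)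
  · obtain ⟨c, h1, h2⟩ := dense0 h ht
    filter_upwards [((clopen_coord c true).isOpen.preimage continuous_subtype_val).mem_nhds
      (true_of u.2 h1)] with v hv
    exact (pi_le v.2 hv).trans_lt h2

theorem base {a b : B} {v : I a b} {O : Set (I a b)} (hO : IsOpen O) (hv : v ∈ O) :
    ∃ c d : B, (a : ℝ) ≤ c ∧ (d : ℝ) ≤ b ∧ v.1 c = false ∧ v.1 d = true ∧
      ∀ u : I a b, u.1 c = false → u.1 d = true → u ∈ O := by
  classical
  obtain ⟨O', hO', rfl⟩ := isOpen_induced_iff.1 hO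
  obtain ⟨F, w, hw, hF⟩ := isOpen_pi_iff.1 hO' _ hv
  obtain ⟨c, hc, hc'⟩ := ((insert a F).filter fun c => v.1 c = false).exists_max_image id
    ⟨a, by simp [v.2.2.1]⟩
  obtain ⟨d, hd, hd'⟩ := ((insert b F).filter fun c => v.1 c = true).exists_min_image id
    ⟨b, by simp [v.2.2.2]⟩
  refine ⟨c, d, hc' a (by simp [v.2.2.1]), hd' b (by simp [v.2.2.2]), (Finset.mem_filter.1 hc).2,
    (Finset.mem_filter.1 hd).2, fun u h1 h2 => hF fun i hi => ?_⟩
  have : u.1 i = v.1 i := by
    cases hi' : v.1 i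
    · exact mf u.2.1 (hc' i (Finset.mem_filter.2 ⟨Finset.mem_insert_of_mem hi, hi'⟩)) h1
    · exact mt u.2.1 (hd' i (Finset.mem_filter.2 ⟨Finset.mem_insert_of_mem hi, hi'⟩)) h2
  rw [this]; exact (hw i hi).2

theorem jump {a b : B} (g : I a b → ℝ) (hg : Continuous g) :
    {x : ℝ | ∃ (h1 : (a : ℝ) < x) (h2 : x < b), x ∈ B ∧
      g ⟨up x, up_mem h1.le h2⟩ ≠ g ⟨dn x, dn_mem h1 h2.le⟩}.Countable := by
  let D := {x : ℝ // (a : ℝ) < x ∧ x < b}
  let P : D → I a b := fun x => ⟨up x.1, up_mem x.2.1.le x.2.2⟩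
  let M : D → I a b := fun x => ⟨dn x.1, dn_mem x.2.1 x.2.2.le⟩
  have h1 : Tendsto (fun x => (P x, M x)) cofinite (uniformity (I a b)) := by
    rw [uniformity_subtype, tendsto_comap_iff, Pi.uniformity, tendsto_iInf]
    intro c
    rw [tendsto_comap_iff]
    refine Tendsto.mono_right (tendsto_principal.2 ?_) refl_le_uniformity
    have : {x : D | x.1 = c}.Finite := Subsingleton.finite fun x hx y hy =>
      Subtype.ext (hx.trans hy.symm)
    filter_upwards [this.compl_mem_cofinite] with x hx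
    have hx' : x.1 ≠ c := hx
    simp [P, M, up, dn, le_iff_lt_or_eq, hx']
  have h2 := Tendsto.comp (CompactSpace.uniformContinuous_of_continuous hg) h1
  rw [Metric.uniformity_eq_comap_nhds_zero, tendsto_comap_iff] at h2
  refine (h2.countable_compl_preimage_ker.image Subtype.val).mono ?_
  rintro x ⟨h3, h4, -, h5⟩
  refine ⟨⟨x, h3, h4⟩, ?_, rfl⟩
  simpa [ker_nhds, P, M] using h5

theorem cohopf (h : Good B) {o : B} (ho : (o : ℝ) = 1) (f : I 0 o → I 0 o) (hf : Continuous f)
    (hi : Function.Injective f) : Function.Surjective f := by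
  have hp := pi_cont h 0 o
  let K : Set (ℝ × ℝ) := range fun u : I 0 o => (π u.1, π (f u).1)
  have hK : IsCompact K := isCompact_range (hp.prodMk (hp.comp hf))
  have hC := ((jump _ (hp.comp hf)).insert (0 : ℝ)).insert 1
  set C := insert 1 (insert 0 {x : ℝ | ∃ (h1 : ((0 : B) : ℝ) < x) (h2 : x < o), x ∈ B ∧
      ((fun u : I 0 o => π u.1) ∘ f) ⟨up x, up_mem h1.le h2⟩ ≠
      ((fun u : I 0 o => π u.1) ∘ f) ⟨dn x, dn_mem h1 h2.le⟩})
  have key : ∀ x y, (x, y) ∈ K → x ∈ B → x ∉ C → ∃ u v : I 0 o, u ≠ v ∧ π u.1 = x ∧ π v.1 = x ∧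
      π (f u).1 = y ∧ π (f v).1 = y := by
    rintro x y ⟨u, hu⟩ hB hx
    obtain ⟨rfl, rfl⟩ := Prod.ext_iff.1 hu
    simp only [C, mem_insert_iff, not_or, mem_setOf_eq, not_exists, not_and, not_not] at hx
    have h1 : ((0 : B) : ℝ) < π u.1 := lt_of_le_of_ne (le_pi u.2 u.2.2.1) (Ne.symm hx.2.1)
    have h2 : π u.1 < o := lt_of_le_of_ne (pi_le u.2 u.2.2.2) (by rw [ho]; exact hx.1)
    have h3 := hx.2.2 h1 h2 hB
    refine ⟨⟨up (π u.1), up_mem h1.le h2⟩, ⟨dn (π u.1), dn_mem h1 h2.le⟩,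
      fun e => up_ne_dn hB (congrArg Subtype.val e), pi_eq h (up_mem h1.le h2) (Or.inl rfl),
      pi_eq h (dn_mem h1 h2.le) (Or.inr rfl), ?_⟩
    rcases eq_or u.2 with e | e
    · have e' : (⟨up (π u.1), up_mem h1.le h2⟩ : I 0 o) = u := Subtype.ext e.symm
      exact ⟨by rw [e'], h3.symm.trans (by rw [e']; rfl)⟩
    · have e' : (⟨dn (π u.1), dn_mem h1 h2.le⟩ : I 0 o) = u := Subtype.ext e.symm
      exact ⟨h3.trans (by rw [e']; rfl), by rw [e']⟩
  have two : ∀ (u : I 0 o) y, π u.1 = y → u.1 = up y ∨ u.1 = dn y := by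
    rintro u y rfl; exact eq_or u.2
  have hs : Rec.Small ψ K := by
    by_contra hs
    obtain ⟨⟨x, y⟩, hz, h1, h2, h3⟩ := h K hK hs C hC
    obtain ⟨u, v, huv, -, -, hu, hv⟩ := key x y hz h2 h1
    have e := up_eq_dn h3
    have e1 : (f u).1 = dn y := (two _ _ hu).elim (fun h => h.trans e) id
    have e2 : (f v).1 = dn y := (two _ _ hv).elim (fun h => h.trans e) id
    exact huv (hi (Subtype.ext (e1.trans e2.symm)))
  have hW := h.countable_multi hK hC (fun x x' y h1 h2 hne hB => by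
    by_contra hx
    obtain ⟨u, v, huv, hux, hvx, hu, hv⟩ := key x y h1 hB hx
    obtain ⟨w, hw⟩ := h2
    obtain ⟨rfl, hw⟩ := Prod.ext_iff.1 hw
    have n1 : (f u).1 ≠ (f v).1 := fun e => huv (hi (Subtype.ext e))
    have n2 : (f u).1 ≠ (f w).1 := fun e => hne (by rw [← hux, hi (Subtype.ext e)])
    have n3 : (f v).1 ≠ (f w).1 := fun e => hne (by rw [← hvx, hi (Subtype.ext e)])
    rcases two _ _ hu with a1 | a1 <;> rcases two _ _ hv with a2 | a2 <;>
      rcases two _ _ hw with a3 | a3 <;> simp_all)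
  by_contra hns
  obtain ⟨v, hv⟩ : ∃ v, v ∈ (range f)ᶜ := not_forall.1 hns
  obtain ⟨c, d, h1, h2, h3, h4, h5⟩ := base (isCompact_range hf).isClosed.isOpen_compl hv
  refine measure_contra hK hs (fun x hx => ?_) h1 (lt_of v.2.1 h3 h4) (h2.trans ho.le) ?_ hW
  · rcases hx.2.lt_or_eq with h6 | h6
    · have := up_mem (a := 0) (b := o) hx.1 (by rwa [ho])
      exact ⟨_, ⟨_, this⟩, Prod.ext (pi_eq h this (Or.inl rfl)) rfl⟩
    · have := dn_mem (a := 0) (b := o) (x := x) (by simp [h6]) (by rw [ho, h6])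
      exact ⟨_, ⟨_, this⟩, Prod.ext (pi_eq h this (Or.inr rfl)) rfl⟩
  · rintro _ ⟨u, rfl⟩
    have a1 : (0 : ℝ) ≤ π (f u).1 := le_pi (f u).2 (f u).2.2.1
    have a2 : π (f u).1 ≤ 1 := ho ▸ pi_le (f u).2 (f u).2.2.2
    by_contra hn
    simp only [mem_union, mem_Icc, a1, a2, true_and, and_true, not_or, not_le] at hn
    exact h5 (f u) (false_of (f u).2 hn.1) (true_of (f u).2 hn.2) (mem_range_self u)

end Pool.Agent.H83.SplitSpace
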