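import Mathlib
import Pool.Agent.H83.SsDefs
import Pool.Agent.H83.Ss1
import Pool.Agent.H83.Ss3

namespace Pool.Agent.H83.Ss4

open Filter Topology Set MeasureTheory Cardinal
open Pool.Agent.H83.SsDefs Pool.Agent.H83.Ss1 Pool.Agent.H83.Ss3

lemma pair (K L h : ℕ) (hK : 1 ≤ K) (hL : K ^ h < L) (s : Finset ℕ) (hs : s.card ≤ h)
    (d : ℕ → Fin L → Fin K) : ∃ p : Fin L × Fin L, p.1 < p.2 ∧ ∀ c ∈ s, d c p.1 = d c p.2 := by
  obtain ⟨t, t', hne, he⟩ := Fintype.exists_ne_map_eq_of_card_lt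
    (fun (t : Fin L) (c : s) => d c t) (by
      simp only [Fintype.card_pi, Fintype.card_fin, Finset.prod_const, Finset.card_univ,
        Fintype.card_coe]
      exact lt_of_le_of_lt (Nat.pow_le_pow_right hK hs) hL)
  rcases lt_or_gt_of_ne hne with h1 | h1
  · exact ⟨(t, t'), h1, fun c hc => congrFun he ⟨c, hc⟩⟩
  · exact ⟨(t', t), h1, fun c hc => (congrFun he ⟨c, hc⟩).symm⟩

def XX (x x' : ℕ → ℕ) : Set ℕ := {T | ∃ j, x j ≤ T ∧ T < x' j}

section
variable {x x' : ℕ → ℕ} (h1 : ∀ i, x i < x' i) (h2 : ∀ i, x' i < x (i + 1))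
include h1 h2

lemma x_mono : StrictMono x := strictMono_nat_of_lt_succ (fun i => (h1 i).trans (h2 i))

lemma mem_XX (i T : ℕ) (ha : x i ≤ T) (hb : T < x (i + 1)) : T ∈ XX x x' ↔ T < x' i := by
  constructor
  · rintro ⟨j, hj1, hj2⟩
    rcases lt_trichotomy j i with h | rfl | h
    · have := (x_mono h1 h2).monotone (Nat.succ_le_of_lt h)
      have := h2 j
      simp only [Nat.succ_eq_add_one] at *
      omega
    · exact hj2
    · have := (x_mono h1 h2).monotone (Nat.succ_le_of_lt h)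
      simp only [Nat.succ_eq_add_one] at *
      omega
  · exact fun h => ⟨i, ha, h⟩

lemma XX_ic : InfCoinf (XX x x') := by
  constructor
  · exact Set.infinite_of_injective_forall_mem (f := x) (x_mono h1 h2).injective
      (fun i => ⟨i, le_rfl, h1 i⟩)
  · have : StrictMono x' := strictMono_nat_of_lt_succ (fun i => (h2 i).trans (h1 _))
    refine Set.infinite_of_injective_forall_mem (f := x') this.injective (fun i hi => ?_)
    exact absurd ((mem_XX h1 h2 i _ (h1 i).le (h2 i)).1 hi) (lt_irrefl _)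

open Classical in
lemma XX_conv (a : ℕ → ℝ) (l : ℝ)
    (hl : Tendsto (fun N => ∑ n ∈ Finset.range N, a n) atTop (𝓝 l))
    (hs : Summable (fun i => ∑ n ∈ Finset.range (x' i), a n - ∑ n ∈ Finset.range (x i), a n)) :
    Conv (fun t => if t ∈ XX x x' then a t else 0) := by
  set S : ℕ → ℝ := fun N => ∑ n ∈ Finset.range N, a n with hS
  set P : ℕ → ℝ := fun N => ∑ t ∈ Finset.range N, (if t ∈ XX x x' then a t else 0) with hP
  have hA : ∀ i T, x i ≤ T → T ≤ x (i + 1) → P T = P (x i) + S (min T (x' i)) - S (x i) := by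
    intro i T hT
    induction T, hT using Nat.le_induction with
    | base => intro _; rw [min_eq_left (h1 i).le]; ring
    | succ T hT ih =>
      intro hT2
      have ih' := ih (by omega)
      have hP1 : P (T + 1) = P T + (if T ∈ XX x x' then a T else 0) := by
        simp only [hP, Finset.sum_range_succ]
      rw [hP1, ih']
      by_cases hx : T < x' i
      · rw [if_pos ((mem_XX h1 h2 i T hT (by omega)).2 hx), min_eq_left hx.le,
          min_eq_left (by omega : T + 1 ≤ x' i)]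
        simp only [hS, Finset.sum_range_succ]; ring
      · rw [if_neg (fun h => hx ((mem_XX h1 h2 i T hT (by omega)).1 h)),
          min_eq_right (by omega : x' i ≤ T), min_eq_right (by omega : x' i ≤ T + 1)]
        ring
  have hB : ∀ i, P (x i) = P (x 0) + ∑ j ∈ Finset.range i, (S (x' j) - S (x j)) := by
    intro i
    induction i with
    | zero => simp
    | succ i ih =>
      rw [hA i (x (i + 1)) ((h1 i).trans (h2 i)).le le_rfl, min_eq_right (h2 i).le,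
        Finset.sum_range_succ, ih]
      ring
  have hR := hs.hasSum.tendsto_sum_nat
  set R := ∑' i, (S (x' i) - S (x i))
  refine ⟨P (x 0) + R, ?_⟩
  rw [Metric.tendsto_atTop] at hR hl ⊢
  intro ε hε
  obtain ⟨N1, hN1⟩ := hR (ε / 3) (by positivity)
  obtain ⟨N2, hN2⟩ := hl (ε / 3) (by positivity)
  refine ⟨x (max N1 N2), fun T hT => ?_⟩
  have hex : ∃ i, T < x (i + 1) :=
    ⟨T, lt_of_lt_of_le (Nat.lt_succ_self T) ((x_mono h1 h2).id_le _)⟩
  have hi1 := Nat.find_spec hex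
  set i := Nat.find hex with hi
  have hi2 : max N1 N2 ≤ i := by
    by_contra hlt
    have := (x_mono h1 h2).monotone (Nat.succ_le_of_lt (not_le.1 hlt))
    simp only [Nat.succ_eq_add_one] at this
    omega
  have hi3 : x i ≤ T := by
    rcases Nat.eq_zero_or_pos i with h0 | h0
    · have : max N1 N2 = 0 := by omega
      rw [h0]; rw [this] at hT; exact hT
    · have := Nat.find_min hex (show i - 1 < Nat.find hex by omega)
      rw [show i - 1 + 1 = i by omega] at this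
      omega
  have hxi : i ≤ x i := (x_mono h1 h2).id_le _
  have e1 := hN1 i (by omega)
  have e2 := hN2 (x i) (by omega)
  have e3 := hN2 (min T (x' i)) (by have := h1 i; omega)
  show dist (P T) _ < ε
  rw [hA i T hi3 hi1.le, hB i]
  rw [Real.dist_eq, abs_lt] at *
  constructor <;> linarith [e1.1, e1.2, e2.1, e2.2, e3.1, e3.2]

end

lemma floor_close (u v : ℝ) (hu : 0 ≤ u) (hv : 0 ≤ v) (h : ⌊u⌋₊ = ⌊v⌋₊) : |u - v| ≤ 1 := by
  have := Nat.floor_le hu
  have := Nat.floor_le hv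
  have := Nat.lt_floor_add_one u
  have := Nat.lt_floor_add_one v
  rw [h] at *
  rw [abs_le]; constructor <;> linarith

theorem ssC_le_dLc (h : ℕ → ℕ) (hh : ∀ i, 1 ≤ h i) :
    ∃ b : ℕ → ℕ, (∀ i, 1 ≤ b i) ∧ ssC ≤ dLc b h := by
  classical
  let K : ℕ → ℕ := fun i => 2 ^ (i + 1)
  let L : ℕ → ℕ := fun i => K i ^ h i + 1
  have hK : ∀ i, 1 ≤ K i := fun i => Nat.one_le_two_pow
  let m : ℕ → ℕ := fun i => ∑ j ∈ Finset.range i, L j
  let b : ℕ → ℕ := fun i => Fintype.card (Fin (L i) → Fin (K i))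
  let d : ∀ i, ℕ → Fin (L i) → Fin (K i) := fun i c =>
    if hc : c < b i then (Fintype.equivFin _).symm ⟨c, hc⟩ else fun _ => ⟨0, hK i⟩
  refine ⟨b, fun i => ?_, ?_⟩
  · haveI : Nonempty (Fin (K i)) := ⟨⟨0, hK i⟩⟩
    exact Fintype.card_pos
  have hne : {c | ∃ Φ : Set (ℕ → Finset ℕ), #Φ = c ∧ (∀ φ ∈ Φ, ∀ i, (φ i).card ≤ h i) ∧
      ∀ f : ℕ → ℕ, (∀ i, f i < b i) → ∃ φ ∈ Φ, ∀ᶠ i in atTop, f i ∈ φ i}.Nonempty :=
    ⟨_, {φ | ∀ i, (φ i).card ≤ h i}, rfl, fun _ h => h, fun f _ =>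
      ⟨fun i => {f i}, fun i => by simpa using hh i, by simp⟩⟩
  obtain ⟨Φ, hc, hΦ1, hΦ2⟩ := csInf_mem hne
  unfold dLc
  rw [← hc]
  have hp : ∀ (φ : Φ) (i : ℕ), ∃ p : Fin (L i) × Fin (L i), p.1 < p.2 ∧
      ∀ c ∈ φ.1 i, d i c p.1 = d i c p.2 := fun φ i =>
    pair (K i) (L i) (h i) (hK i) (Nat.lt_succ_self _) _ (hΦ1 φ.1 φ.2 i) (d i)
  choose p hp1 hp2 using hp
  let x : Φ → ℕ → ℕ := fun φ i => m i + (p φ i).1
  let x' : Φ → ℕ → ℕ := fun φ i => m i + (p φ i).2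
  have h1 : ∀ φ i, x φ i < x' φ i := fun φ i => by
    have : ((p φ i).1 : ℕ) < (p φ i).2 := hp1 φ i
    simp only [x, x']; omega
  have h2 : ∀ φ i, x' φ i < x φ (i + 1) := fun φ i => by
    have := (p φ i).2.2
    have hm : m (i + 1) = m i + L i := Finset.sum_range_succ _ _
    simp only [x, x']; omega
  refine le_trans (csInf_le' ⟨range (fun φ : Φ => XX (x φ) (x' φ)), rfl, ?_, ?_⟩) mk_range_le
  · rintro _ ⟨φ, rfl⟩; exact XX_ic (h1 φ) (h2 φ)
  intro a ha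
  obtain ⟨l, hl⟩ := ha.1
  set S : ℕ → ℝ := fun N => ∑ n ∈ Finset.range N, (a n : ℝ) with hS
  let q : ∀ i, Fin (L i) → Fin (K i) := fun i t =>
    ⟨⌊2 ^ i * (S (m i + t) - l + 1)⌋₊ % K i, Nat.mod_lt _ (hK i)⟩
  obtain ⟨φ, hφ, hφ2⟩ := hΦ2 (fun i => (Fintype.equivFin _ (q i) : ℕ)) (fun i => Fin.is_lt _)
  refine ⟨_, ⟨⟨φ, hφ⟩, rfl⟩, ?_⟩
  refine (conv_iff (· ∈ XX (x ⟨φ, hφ⟩) (x' ⟨φ, hφ⟩)) (XX_ic (h1 _) (h2 _)).1
    (fun t => (a t : ℝ))).2 (XX_conv (h1 _) (h2 _) _ l hl ?_)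
  refine Summable.of_norm_bounded_eventually_nat summable_geometric_two ?_
  obtain ⟨N, hN⟩ := Metric.tendsto_atTop.1 hl 1 one_pos
  filter_upwards [hφ2, eventually_ge_atTop N] with i hi hiN
  have e := hp2 ⟨φ, hφ⟩ i _ hi
  have hd : d i (Fintype.equivFin _ (q i) : ℕ) = q i := by
    simp only [d]
    rw [dif_pos (Fin.is_lt _)]
    simp
  rw [hd] at e
  have e' := congrArg Fin.val e
  simp only [q] at e'
  have hx : ∀ i, i ≤ x ⟨φ, hφ⟩ i := (x_mono (h1 _) (h2 _)).id_le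
  have hb : ∀ t, N ≤ t → 0 ≤ 2 ^ i * (S t - l + 1) ∧ ⌊2 ^ i * (S t - l + 1)⌋₊ < K i := by
    intro t ht
    have := hN t ht
    rw [Real.dist_eq, abs_lt] at this
    have h0 : (0 : ℝ) ≤ 2 ^ i * (S t - l + 1) := mul_nonneg (by positivity) (by linarith [this.1])
    refine ⟨h0, (Nat.floor_lt h0).2 ?_⟩
    simp only [K]; push_cast
    rw [pow_succ]
    exact mul_lt_mul_of_pos_left (by linarith [this.2]) (by positivity)
  have b1 := hb (x ⟨φ, hφ⟩ i) (le_trans hiN (hx i))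
  have b2 := hb (x' ⟨φ, hφ⟩ i) (le_trans hiN ((hx i).trans (h1 _ i).le))
  rw [Nat.mod_eq_of_lt b1.2, Nat.mod_eq_of_lt b2.2] at e'
  have h3 := floor_close _ _ b2.1 b1.1 e'.symm
  rw [← mul_sub, abs_mul, abs_of_pos (by positivity : (0 : ℝ) < 2 ^ i)] at h3
  rw [Real.norm_eq_abs, one_div, inv_pow, ← one_div, le_div_iff₀ (by positivity), mul_comm]
  have e4 : S (x' ⟨φ, hφ⟩ i) - l + 1 - (S (x ⟨φ, hφ⟩ i) - l + 1) =
      S (x' ⟨φ, hφ⟩ i) - S (x ⟨φ, hφ⟩ i) := by ring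
  rw [e4] at h3
  exact h3

lemma aleph0_le_dom : ℵ₀ ≤ dom := by
  have hne : {c | ∃ D : Set (ℕ → ℕ), #D = c ∧
      ∀ f : ℕ → ℕ, ∃ g ∈ D, ∀ᶠ n in atTop, f n ≤ g n}.Nonempty :=
    ⟨_, Set.univ, rfl, fun f => ⟨f, trivial, by simp⟩⟩
  obtain ⟨D, hc, hD⟩ := csInf_mem hne
  unfold dom
  rw [← hc]
  by_contra hlt
  have hf : D.Finite := lt_aleph0_iff_set_finite.1 (not_le.1 hlt)
  obtain ⟨g, hg, he⟩ := hD (fun n => hf.toFinset.sup (fun g => g n) + 1)
  obtain ⟨n, hn⟩ := he.exists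
  have : g n ≤ hf.toFinset.sup (fun g => g n) :=
    Finset.le_sup (f := fun g => g n) (hf.mem_toFinset.2 hg)
  omega

lemma aleph0_le_covN : ℵ₀ ≤ covN := by
  have hne : {c | ∃ F : Set (Set (ℕ → Bool)), #F = c ∧ (∀ A ∈ F, coins A = 0) ∧
      ⋃₀ F = Set.univ}.Nonempty :=
    ⟨_, {A | coins A = 0}, rfl, fun _ h => h,
      eq_univ_of_forall (fun u => ⟨{u}, single_null u, rfl⟩)⟩
  obtain ⟨F, hc, h1, h2⟩ := csInf_mem hne
  unfold covN
  rw [← hc]
  by_contra hlt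
  have hf : F.Finite := lt_aleph0_iff_set_finite.1 (not_le.1 hlt)
  have := (measure_sUnion_null_iff hf.countable).2 h1
  rw [h2, measure_univ] at this
  exact one_ne_zero this

open Classical in
theorem ssCC_eq : ssCC = ssC := by
  refine le_antisymm ?_ ssC_le_ssCC
  have hinf : ℵ₀ ≤ ssC := (le_min aleph0_le_dom aleph0_le_covN).trans min_le_ssC'
  have hne : {c | ∃ F : Set (Set ℕ), #F = c ∧ (∀ X ∈ F, InfCoinf X) ∧
      ∀ a : ℕ → ℚ, CondConv (fun n => (a n : ℝ)) → ∃ X ∈ F, Conv (sub a X)}.Nonempty :=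
    ⟨_, {X | InfCoinf X}, rfl, fun _ h => h,
      fun a ha => (exists_cc a ha).imp (fun X hX => ⟨hX.1, hX.2.1⟩)⟩
  obtain ⟨F, hc, h1, h2⟩ := csInf_mem hne
  have hc' : #F = ssC := hc
  have hle : ssCC ≤ #(↥(F ∪ compl '' F)) := by
    refine csInf_le' ⟨_, rfl, ?_, fun a ha => ?_⟩
    · rintro X (hX | ⟨Y, hY, rfl⟩)
      · exact h1 X hX
      · exact ⟨(h1 Y hY).2, by simpa using (h1 Y hY).1⟩
    · obtain ⟨X, hX, hXc⟩ := h2 a ha
      by_cases habs : Conv (fun n => |sub a X n|)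
      · refine ⟨Xᶜ, Or.inr ⟨X, hX, rfl⟩, ?_, fun hc2 => ha.2 ?_⟩
        · refine (conv_iff (· ∈ Xᶜ) (h1 X hX).2 (fun t => (a t : ℝ))).2 ?_
          obtain ⟨l, hl⟩ := ha.1
          obtain ⟨l2, hl2⟩ := (conv_iff (· ∈ X) (h1 X hX).1 (fun t => (a t : ℝ))).1 hXc
          refine ⟨l - l2, (hl.sub hl2).congr (fun T => ?_)⟩
          rw [← Finset.sum_sub_distrib]
          refine Finset.sum_congr rfl (fun t _ => ?_)
          by_cases ht : t ∈ X <;> simp [ht]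
        · obtain ⟨l, hl⟩ := (conv_iff (· ∈ Xᶜ) (h1 X hX).2 (fun t => |(a t : ℝ)|)).1 hc2
          obtain ⟨l2, hl2⟩ := (conv_iff (· ∈ X) (h1 X hX).1 (fun t => |(a t : ℝ)|)).1 habs
          refine ⟨l + l2, (hl.add hl2).congr (fun T => ?_)⟩
          rw [← Finset.sum_add_distrib]
          refine Finset.sum_congr rfl (fun t _ => ?_)
          by_cases ht : t ∈ X <;> simp [ht]
      · exact ⟨X, Or.inl hX, hXc, habs⟩
  calc ssCC ≤ #(↥(F ∪ compl '' F)) := hle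
    _ ≤ #F + #(compl '' F) := mk_union_le _ _
    _ ≤ #F + #F := add_le_add le_rfl mk_image_le
    _ = ssC := by rw [hc', add_eq_self hinf]

end Pool.Agent.H83.Ss4
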