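import Mathlib

/-!
Computable metric spaces, names, computable maps (problem MP_fa5791_lc).
-/

set_option autoImplicit false

namespace Pool.Agent.H83.Tcc

/-- A computable metric space `M = {c 0, c 1, ...}` given together with its completion `Y`:
`Y` is a complete metric space, `c` has dense range, and the reals `dist (c i) (c j)` are
computable uniformly in `i, j` (rational approximations `a / (b + 1)` with error `≤ 2^(-n)`). -/
structure Pres where
  Y : Type
  [inst : MetricSpace Y]
  [comp : CompleteSpace Y]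
  c : ℕ → Y
  dense : DenseRange c
  computable : ∃ a b : ℕ × ℕ × ℕ → ℕ, Computable a ∧ Computable b ∧ ∀ i j n : ℕ,
    |dist (c i) (c j) - (a (i, j, n) : ℝ) / ((b (i, j, n) : ℝ) + 1)| ≤ 1 / 2 ^ n

attribute [instance] Pres.inst Pres.comp

/-- `p` is a name of `x`. -/
def IsName (P : Pres) (x : P.Y) (p : ℕ → ℕ) : Prop := ∀ k, dist (P.c (p k)) x ≤ 1 / 2 ^ k

/-- `f` is computable: a computable `Φ` reads finite prefixes of an arbitrary name `p` of an
arbitrary point `x`; for each `l` it answers on some prefix, and every answer is a legitimate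
`l`-th entry of a name of `f x`. (An oracle Turing machine gives such a `Φ`: run it `k` steps on the
prefix of length `k`.) -/
def CompMap (P Q : Pres) (f : P.Y → Q.Y) : Prop :=
  ∃ Φ : List ℕ × ℕ → Option ℕ, Computable Φ ∧ ∀ x p, IsName P x p → ∀ l : ℕ,
    (∃ k j, Φ ((List.range k).map p, l) = some j) ∧
    ∀ k j, Φ ((List.range k).map p, l) = some j → dist (Q.c j) (f x) ≤ 1 / 2 ^ l

/-- `X` is a computable Polish space. -/
def IsCompPolish (X : Type) [TopologicalSpace X] : Prop := ∃ P : Pres, Nonempty (P.Y ≃ₜ X)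

/-- `X` is topologically computably categorical. -/
def TopCompCat (X : Type) [TopologicalSpace X] : Prop :=
  ∀ P Q : Pres, Nonempty (P.Y ≃ₜ X) → Nonempty (Q.Y ≃ₜ X) →
    ∃ f : P.Y ≃ₜ Q.Y, CompMap P Q f ∧ CompMap Q P f.symm

end Pool.Agent.H83.Tcc
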