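import Mathlib
import Pool.Agent.H37.CI
import Pool.Agent.H83.TccDefs

/-! Uniformly computable families of reals. -/

set_option autoImplicit false

namespace Pool.Agent.H83.Tcc

open Pool.Agent.H37

variable {α β : Type} [Primcodable α] [Primcodable β]

def CR (x : α → ℝ) : Prop :=
  ∃ a b : α → ℕ → ℕ, CI ∅ (fun p : α × ℕ => a p.1 p.2) ∧ CI ∅ (fun p : α × ℕ => b p.1 p.2) ∧
    ∀ t n, |x t - ((a t n : ℝ) - b t n) / 2 ^ n| ≤ 2 / 2 ^ n

theorem ci2 {γ : Type} [Primcodable γ] {a : α → ℕ → ℕ} (ha : CI ∅ (fun p : α × ℕ => a p.1 p.2))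
    {f : γ → α} {g : γ → ℕ} (hf : CI ∅ f) (hg : CI ∅ g) : CI ∅ fun z => a (f z) (g z) :=
  ha.comp (g := fun z => (f z, g z)) (hf.mk hg)

theorem floor_err (u D : ℕ) (hD : 0 < D) :
    0 ≤ (u : ℝ) / D - ((u / D : ℕ) : ℝ) ∧ (u : ℝ) / D - ((u / D : ℕ) : ℝ) ≤ 1 := by
  have h1 := Nat.floor_le (a := (u : ℝ) / D) (by positivity)
  have h2 := Nat.lt_floor_add_one ((u : ℝ) / D)
  rw [Nat.floor_div_eq_div] at h1 h2
  constructor <;> linarith

theorem CR.of_eq {x y : α → ℝ} (h : CR x) (H : ∀ t, x t = y t) : CR y :=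
  (funext H : x = y) ▸ h

theorem CR.of_scale {x : α → ℝ} (a b D : α → ℕ → ℕ) (ha : CI ∅ (fun p : α × ℕ => a p.1 p.2))
    (hb : CI ∅ (fun p : α × ℕ => b p.1 p.2)) (hD : CI ∅ (fun p : α × ℕ => D p.1 p.2))
    (hpos : ∀ t n, 0 < D t n) (h : ∀ t n, |x t - ((a t n : ℝ) - b t n) / D t n| ≤ 1 / 2 ^ n) :
    CR x := by
  refine ⟨fun t n => a t n * 2 ^ n / D t n, fun t n => b t n * 2 ^ n / D t n, by fun_prop,
    by fun_prop, fun t n => ?_⟩
  obtain ⟨h1, h2⟩ := floor_err (a t n * 2 ^ n) _ (hpos t n)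
  obtain ⟨h3, h4⟩ := floor_err (b t n * 2 ^ n) _ (hpos t n)
  have h5 := h t n
  have hD' : (0 : ℝ) < D t n := by exact_mod_cast hpos t n
  have hp : (0 : ℝ) < 2 ^ n := by positivity
  push_cast at h1 h2 h3 h4
  set A : ℝ := ((a t n * 2 ^ n / D t n : ℕ) : ℝ)
  set B : ℝ := ((b t n * 2 ^ n / D t n : ℕ) : ℝ)
  have e : x t - (A - B) / 2 ^ n = (x t - ((a t n : ℝ) - b t n) / D t n) +
      (((a t n : ℝ) * 2 ^ n / D t n - A) - ((b t n : ℝ) * 2 ^ n / D t n - B)) / 2 ^ n := by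
    field_simp; ring
  rw [e]
  refine (abs_add_le _ _).trans ?_
  have : |(((a t n : ℝ) * 2 ^ n / D t n - A) - ((b t n : ℝ) * 2 ^ n / D t n - B)) / 2 ^ n| ≤
      1 / 2 ^ n := by
    rw [abs_div, abs_of_pos hp]
    gcongr
    rw [abs_le]; constructor <;> linarith
  have e2 : (2 : ℝ) / 2 ^ n = 1 / 2 ^ n + 1 / 2 ^ n := by ring
  linarith

theorem CR.comp {x : α → ℝ} (h : CR x) {g : β → α} (hg : CI ∅ g) : CR fun t => x (g t) := by
  obtain ⟨a, b, ha, hb, h⟩ := h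
  exact ⟨fun t => a (g t), fun t => b (g t), ci2 ha (by fun_prop) (by fun_prop),
    ci2 hb (by fun_prop) (by fun_prop), fun t n => h _ _⟩

theorem CR.nat {f : α → ℕ} (hf : CI ∅ f) : CR fun t => (f t : ℝ) :=
  CR.of_scale (fun t _ => f t) (fun _ _ => 0) (fun _ _ => 1) (by fun_prop) (by fun_prop)
    (by fun_prop) (fun _ _ => one_pos) fun t n => by simp

theorem CR.zero : CR fun _ : α => (0 : ℝ) := (CR.nat (f := fun _ => 0) (by fun_prop)).of_eq (by simp)
theorem CR.one : CR fun _ : α => (1 : ℝ) := (CR.nat (f := fun _ => 1) (by fun_prop)).of_eq (by simp)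
theorem CR.two : CR fun _ : α => (2 : ℝ) := (CR.nat (f := fun _ => 2) (by fun_prop)).of_eq (by simp)

theorem CR.pow2 {f : α → ℕ} (hf : CI ∅ f) : CR fun t => (2 : ℝ) ^ f t :=
  (CR.nat (f := fun t => 2 ^ f t) (by fun_prop)).of_eq (by simp)

theorem CR.inv2 {f : α → ℕ} (hf : CI ∅ f) : CR fun t => (1 : ℝ) / 2 ^ f t :=
  CR.of_scale (fun _ _ => 1) (fun _ _ => 0) (fun t _ => 2 ^ f t) (by fun_prop) (by fun_prop)
    (by fun_prop) (fun _ _ => by positivity) fun t n => by simp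

theorem CR.neg {x : α → ℝ} (h : CR x) : CR fun t => -x t := by
  obtain ⟨a, b, ha, hb, h⟩ := h
  refine ⟨b, a, hb, ha, fun t n => ?_⟩
  rw [← abs_neg]
  convert h t n using 2
  ring

theorem CR.add {x y : α → ℝ} (h : CR x) (h' : CR y) : CR fun t => x t + y t := by
  obtain ⟨a, b, ha, hb, h⟩ := h
  obtain ⟨a', b', ha', hb', h'⟩ := h'
  refine CR.of_scale (fun t n => a t (n + 2) + a' t (n + 2)) (fun t n => b t (n + 2) + b' t (n + 2))
    (fun t n => 2 ^ (n + 2))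
    (CI.add (ci2 ha (by fun_prop) (by fun_prop)) (ci2 ha' (by fun_prop) (by fun_prop)))
    (CI.add (ci2 hb (by fun_prop) (by fun_prop)) (ci2 hb' (by fun_prop) (by fun_prop)))
    (by fun_prop) (fun _ _ => by positivity) fun t n => ?_
  have h1 := h t (n + 2)
  have h2 := h' t (n + 2)
  push_cast
  have e : x t + y t - ((a t (n + 2) : ℝ) + a' t (n + 2) - (b t (n + 2) + b' t (n + 2))) / 2 ^ (n + 2)
      = (x t - ((a t (n + 2) : ℝ) - b t (n + 2)) / 2 ^ (n + 2)) +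
        (y t - ((a' t (n + 2) : ℝ) - b' t (n + 2)) / 2 ^ (n + 2)) := by ring
  rw [e]
  refine (abs_add_le _ _).trans ?_
  have : (1 : ℝ) / 2 ^ n = 2 / 2 ^ (n + 2) + 2 / 2 ^ (n + 2) := by field_simp; ring
  linarith

theorem CR.sub {x y : α → ℝ} (h : CR x) (h' : CR y) : CR fun t => x t - y t :=
  (h.add h'.neg).of_eq fun t => by ring

theorem CR.mul {x y : α → ℝ} (h : CR x) (h' : CR y) : CR fun t => x t * y t := by
  obtain ⟨a, b, ha, hb, h⟩ := h
  obtain ⟨a', b', ha', hb', h'⟩ := h'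
  let M : α → ℕ := fun t => a t 0 + b t 0 + a' t 0 + b' t 0 + 6
  have hM : CI ∅ M := by
    have h1 : CI ∅ fun t => a t 0 := ci2 ha (by fun_prop) (by fun_prop)
    have h2 : CI ∅ fun t => b t 0 := ci2 hb (by fun_prop) (by fun_prop)
    have h3 : CI ∅ fun t => a' t 0 := ci2 ha' (by fun_prop) (by fun_prop)
    have h4 : CI ∅ fun t => b' t 0 := ci2 hb' (by fun_prop) (by fun_prop)
    fun_prop
  let s : α → ℕ → ℕ := fun t n => n + 1 + M t
  have hs : CI ∅ fun p : α × ℕ => s p.1 p.2 := by fun_prop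
  have h1 : CI ∅ fun p : α × ℕ => a p.1 (s p.1 p.2) := ci2 ha (by fun_prop) hs
  have h2 : CI ∅ fun p : α × ℕ => b p.1 (s p.1 p.2) := ci2 hb (by fun_prop) hs
  have h3 : CI ∅ fun p : α × ℕ => a' p.1 (s p.1 p.2) := ci2 ha' (by fun_prop) hs
  have h4 : CI ∅ fun p : α × ℕ => b' p.1 (s p.1 p.2) := ci2 hb' (by fun_prop) hs
  refine CR.of_scale (fun t n => a t (s t n) * a' t (s t n) + b t (s t n) * b' t (s t n))
    (fun t n => a t (s t n) * b' t (s t n) + b t (s t n) * a' t (s t n))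
    (fun t n => 2 ^ s t n * 2 ^ s t n) ((h1.mul h3).add (h2.mul h4)) ((h1.mul h4).add (h2.mul h3))
    ((CI.pow (by fun_prop) hs).mul (CI.pow (by fun_prop) hs)) (fun _ _ => by positivity)
    fun t n => ?_
  have k1 := h t (s t n)
  have k2 := h' t (s t n)
  have k3 := h t 0
  have k4 := h' t 0
  set u : ℝ := ((a t (s t n) : ℝ) - b t (s t n)) / 2 ^ s t n with hu
  set v : ℝ := ((a' t (s t n) : ℝ) - b' t (s t n)) / 2 ^ s t n with hv
  have e : x t * y t - (((a t (s t n) * a' t (s t n) + b t (s t n) * b' t (s t n) : ℕ) : ℝ) -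
      ((a t (s t n) * b' t (s t n) + b t (s t n) * a' t (s t n) : ℕ) : ℝ)) /
      ((2 ^ s t n * 2 ^ s t n : ℕ) : ℝ) = x t * (y t - v) + v * (x t - u) := by
    rw [hu, hv]; push_cast; field_simp; ring
  rw [e]
  simp only [pow_zero, div_one] at k3 k4
  have hx : |x t| ≤ a t 0 + b t 0 + 2 := by
    rw [abs_le] at k3 ⊢
    have := Nat.cast_nonneg (α := ℝ) (a t 0)
    have := Nat.cast_nonneg (α := ℝ) (b t 0)
    constructor <;> linarith [k3.1, k3.2]
  have hsm : (2 : ℝ) / 2 ^ s t n ≤ 2 := by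
    rw [div_le_iff₀ (by positivity)]
    have : (1 : ℝ) ≤ 2 ^ s t n := one_le_pow₀ (by norm_num)
    linarith
  have hv' : |v| ≤ a' t 0 + b' t 0 + 4 := by
    rw [abs_le] at k4 k2 ⊢
    have := Nat.cast_nonneg (α := ℝ) (a' t 0)
    have := Nat.cast_nonneg (α := ℝ) (b' t 0)
    constructor <;> linarith [k4.1, k4.2, k2.1, k2.2]
  have hMr : (M t : ℝ) ≤ 2 ^ M t := by exact_mod_cast (Nat.lt_two_pow_self).le
  calc |x t * (y t - v) + v * (x t - u)| ≤ |x t| * |y t - v| + |v| * |x t - u| := by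
        rw [← abs_mul, ← abs_mul]; exact abs_add_le _ _
    _ ≤ (a t 0 + b t 0 + 2) * (2 / 2 ^ s t n) + (a' t 0 + b' t 0 + 4) * (2 / 2 ^ s t n) := by
        gcongr
    _ = M t * (2 / 2 ^ s t n) := by simp only [M]; push_cast; ring
    _ ≤ 2 ^ M t * (2 / 2 ^ s t n) := by gcongr
    _ = 1 / 2 ^ n := by simp only [s]; field_simp; ring

theorem CR.nn {x : α → ℝ} (h : CR x) : ∃ a : α → ℕ → ℕ, CI ∅ (fun p : α × ℕ => a p.1 p.2) ∧
    ∀ t n, |max (x t) 0 - (a t n : ℝ) / 2 ^ n| ≤ 2 / 2 ^ n := by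
  obtain ⟨a, b, ha, hb, h⟩ := h
  refine ⟨fun t n => a t n - b t n, ha.sub hb, fun t n => ?_⟩
  have e : ((a t n - b t n : ℕ) : ℝ) / 2 ^ n = max (((a t n : ℝ) - b t n) / 2 ^ n) 0 := by
    rcases le_total (b t n) (a t n) with h1 | h1
    · have : (b t n : ℝ) ≤ a t n := by exact_mod_cast h1
      rw [Nat.cast_sub h1, max_eq_left (div_nonneg (by linarith) (by positivity))]
    · have : (a t n : ℝ) ≤ b t n := by exact_mod_cast h1
      rw [Nat.sub_eq_zero_of_le h1,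
        max_eq_right (div_nonpos_of_nonpos_of_nonneg (by linarith) (by positivity))]
      simp
  rw [e]
  exact (abs_max_sub_max_le_abs _ _ _).trans (h t n)

theorem CR.pos {x : α → ℝ} (h : CR x) : CR fun t => max (x t) 0 := by
  obtain ⟨a, ha, h⟩ := h.nn
  exact ⟨a, fun _ _ => 0, ha, by fun_prop, fun t n => by simpa using h t n⟩

theorem CR.max {x y : α → ℝ} (h : CR x) (h' : CR y) : CR fun t => max (x t) (y t) :=
  (h'.add (h.sub h').pos).of_eq fun t => by
    rcases le_total (x t) (y t) with k | k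
    · rw [max_eq_right k, max_eq_right (by linarith)]; ring
    · rw [max_eq_left k, max_eq_left (by linarith)]; ring

theorem CR.min {x y : α → ℝ} (h : CR x) (h' : CR y) : CR fun t => min (x t) (y t) :=
  (h.sub (h.sub h').pos).of_eq fun t => by
    rcases le_total (x t) (y t) with k | k
    · rw [min_eq_left k, max_eq_right (by linarith)]; ring
    · rw [min_eq_right k, max_eq_left (by linarith)]; ring

theorem CR.abs {x : α → ℝ} (h : CR x) : CR fun t => |x t| :=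
  (h.max h.neg).of_eq fun t => (abs_eq_max_neg).symm

theorem CR.cond {p : α → Bool} {x y : α → ℝ} (hp : CI ∅ p) (h : CR x) (h' : CR y) :
    CR fun t => cond (p t) (x t) (y t) := by
  obtain ⟨a, b, ha, hb, h⟩ := h
  obtain ⟨a', b', ha', hb', h'⟩ := h'
  refine ⟨fun t n => _root_.cond (p t) (a t n) (a' t n), fun t n => _root_.cond (p t) (b t n) (b' t n),
    CI.cond (by fun_prop) ha ha', CI.cond (by fun_prop) hb hb', fun t n => ?_⟩
  beta_reduce
  cases p t
  · exact h' t n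
  · exact h t n

theorem CR.sum {x : α → ℕ → ℝ} (h : CR fun p : α × ℕ => x p.1 p.2) {N : α → ℕ} (hN : CI ∅ N) :
    CR fun t => ∑ m ∈ Finset.range (N t), x t m := by
  obtain ⟨a, b, ha, hb, h⟩ := h
  have e : ∀ (g : ℕ → ℕ) (K : ℕ), ((((List.range K).map g).sum : ℕ) : ℝ) =
      ∑ m ∈ Finset.range K, (g m : ℝ) := by
    intro g K
    induction K with
    | zero => simp
    | succ K ih =>
      rw [List.range_succ, List.map_append, List.sum_append, Finset.sum_range_succ, ← ih]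
      simp
  refine CR.of_scale (fun t n => ((List.range (N t)).map fun m => a (t, m) (n + 1 + N t)).sum)
    (fun t n => ((List.range (N t)).map fun m => b (t, m) (n + 1 + N t)).sum)
    (fun t n => 2 ^ (n + 1 + N t))
    (CI.sum (CI.map (ci2 ha (by fun_prop) (by fun_prop)) (by fun_prop)))
    (CI.sum (CI.map (ci2 hb (by fun_prop) (by fun_prop)) (by fun_prop))) (by fun_prop)
    (fun _ _ => by positivity) fun t n => ?_
  rw [e, e, ← Finset.sum_sub_distrib, Finset.sum_div, ← Finset.sum_sub_distrib]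
  refine (Finset.abs_sum_le_sum_abs _ _).trans ?_
  have hMr : (N t : ℝ) ≤ 2 ^ N t := by exact_mod_cast (Nat.lt_two_pow_self).le
  calc _ ≤ ∑ m ∈ Finset.range (N t), (2 : ℝ) / 2 ^ (n + 1 + N t) :=
        Finset.sum_le_sum fun m _ => by push_cast; exact h (t, m) _
    _ = N t * (2 / 2 ^ (n + 1 + N t)) := by simp
    _ ≤ 2 ^ N t * (2 / 2 ^ (n + 1 + N t)) := by gcongr
    _ = 1 / 2 ^ n := by field_simp; ring

theorem CR.sup {x : α → ℕ → ℝ} (h : CR fun p : α × ℕ => x p.1 p.2) {N : α → ℕ} (hN : CI ∅ N)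
    {y : α → ℝ} (h0 : ∀ t, 0 ≤ y t) (h1 : ∀ t m, m < N t → x t m ≤ y t)
    (h2 : ∀ t ε, 0 ≤ ε → (∀ m, m < N t → x t m ≤ ε) → y t ≤ ε) : CR y := by
  obtain ⟨a, ha, h⟩ := h.nn
  have e1 : ∀ (g : ℕ → ℕ) (L : List ℕ), ∀ m ∈ L, g m ≤ L.foldr (fun m s => Max.max (g m) s) 0 := by
    intro g L
    induction L with
    | nil => simp
    | cons u L ih =>
      intro m hm
      rcases List.mem_cons.1 hm with rfl | hm
      · exact le_max_left _ _
      · exact (ih m hm).trans (le_max_right _ _)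
  have e2 : ∀ (g : ℕ → ℕ) (L : List ℕ) (B : ℝ), 0 ≤ B → (∀ m ∈ L, (g m : ℝ) ≤ B) →
      ((L.foldr (fun m s => Max.max (g m) s) 0 : ℕ) : ℝ) ≤ B := by
    intro g L B hB
    induction L with
    | nil => simpa using hB
    | cons u L ih =>
      intro hm
      rw [List.foldr_cons, Nat.cast_max]
      exact max_le (hm u (by simp)) (ih fun m h => hm m (by simp [h]))
  refine ⟨fun t n => (List.range (N t)).foldr (fun m s => Max.max (a (t, m) n) s) 0, fun _ _ => 0,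
    CI.foldr (CI.max (ci2 ha (by fun_prop) (by fun_prop)) (by fun_prop)) (by fun_prop)
      (by fun_prop), by fun_prop, fun t n => ?_⟩
  have hp : (0 : ℝ) < 2 ^ n := by positivity
  set A : ℕ := (List.range (N t)).foldr (fun m s => Max.max (a (t, m) n) s) 0
  have k1 : y t ≤ A / 2 ^ n + 2 / 2 ^ n := h2 t _ (by positivity) fun m hm => by
    have k := (abs_le.1 (h (t, m) n)).2
    have k' : (a (t, m) n : ℝ) ≤ A := by
      exact_mod_cast e1 (fun m => a (t, m) n) _ m (List.mem_range.2 hm)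
    have : (a (t, m) n : ℝ) / 2 ^ n ≤ A / 2 ^ n := by gcongr
    have := le_max_left (x t m) 0
    simp only at k
    linarith
  have k2 : (A : ℝ) ≤ (y t + 2 / 2 ^ n) * 2 ^ n :=
    e2 _ _ _ (by have := h0 t; positivity) fun m hm => by
      have k := (abs_le.1 (h (t, m) n)).1
      have : Max.max (x t m) 0 ≤ y t := max_le (h1 t m (List.mem_range.1 hm)) (h0 t)
      rw [← div_le_iff₀ hp]
      simp only at k
      linarith
  rw [← div_le_iff₀ hp] at k2
  simp only [Nat.cast_zero, sub_zero]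
  rw [abs_le]; constructor <;> linarith

theorem CR.test {x : α → ℝ} (h : CR x) {k : α → ℕ} (hk : CI ∅ k) : ∃ T : α → Bool, CI ∅ T ∧
    (∀ t, T t = true → x t ≤ 3 / 2 ^ k t) ∧ ∀ t, x t ≤ 1 / 2 ^ k t → T t = true := by
  obtain ⟨a, b, ha, hb, h⟩ := h
  refine ⟨fun t => decide (a t (k t + 1) ≤ b t (k t + 1) + 4),
    CI.le (ci2 ha (by fun_prop) (by fun_prop))
      (CI.add (ci2 hb (by fun_prop) (by fun_prop)) (by fun_prop)), fun t ht => ?_, fun t ht => ?_⟩
  · have k1 := (abs_le.1 (h t (k t + 1))).2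
    have k2 : (a t (k t + 1) : ℝ) ≤ b t (k t + 1) + 4 := by exact_mod_cast of_decide_eq_true ht
    have k3 : ((a t (k t + 1) : ℝ) - b t (k t + 1)) / 2 ^ (k t + 1) ≤ 4 / 2 ^ (k t + 1) := by
      gcongr; linarith
    have : (3 : ℝ) / 2 ^ k t = 4 / 2 ^ (k t + 1) + 2 / 2 ^ (k t + 1) := by field_simp; ring
    linarith
  · have k1 := (abs_le.1 (h t (k t + 1))).1
    have : (4 : ℝ) / 2 ^ (k t + 1) = 1 / 2 ^ k t + 2 / 2 ^ (k t + 1) := by field_simp; ring
    have k3 : ((a t (k t + 1) : ℝ) - b t (k t + 1)) / 2 ^ (k t + 1) ≤ 4 / 2 ^ (k t + 1) := by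
      linarith
    rw [div_le_div_iff_of_pos_right (by positivity)] at k3
    have k2 : (a t (k t + 1) : ℝ) ≤ b t (k t + 1) + 4 := by linarith
    exact decide_eq_true (by exact_mod_cast k2)

theorem Pres.cr (P : Pres) {f g : α → ℕ} (hf : CI ∅ f) (hg : CI ∅ g) :
    CR fun t => dist (P.c (f t)) (P.c (g t)) := by
  obtain ⟨a, b, ha, hb, h⟩ := P.computable
  have ha := CI.of_comp (O := ∅) ha
  have hb := CI.of_comp (O := ∅) hb
  exact CR.of_scale (fun t n => a (f t, g t, n)) (fun _ _ => 0) (fun t n => b (f t, g t, n) + 1)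
    (by fun_prop) (by fun_prop) (by fun_prop) (fun _ _ => Nat.succ_pos _) fun t n => by
      simpa using h (f t) (g t) n

theorem CR.out {x : ℕ × ℕ → ℝ} (h : CR x) (h0 : ∀ t, 0 ≤ x t) :
    ∃ a b : ℕ × ℕ × ℕ → ℕ, Computable a ∧ Computable b ∧ ∀ i j n : ℕ,
    |x (i, j) - (a (i, j, n) : ℝ) / ((b (i, j, n) : ℝ) + 1)| ≤ 1 / 2 ^ n := by
  obtain ⟨a, ha, h⟩ := h.nn
  refine ⟨fun p => a (p.1, p.2.1) (p.2.2 + 1), fun p => 2 ^ (p.2.2 + 1) - 1,
    (ci2 ha (by fun_prop) (by fun_prop)).computable, CI.computable (by fun_prop), fun i j n => ?_⟩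
  have k := h (i, j) (n + 1)
  rw [max_eq_left (h0 _)] at k
  have e : (((2 ^ (n + 1) - 1 : ℕ) : ℝ) + 1) = 2 ^ (n + 1) := by
    rw [Nat.cast_sub Nat.one_le_two_pow]; push_cast; ring
  have e2 : (2 : ℝ) / 2 ^ (n + 1) = 1 / 2 ^ n := by field_simp; ring
  simp only
  rw [e, ← e2]
  exact k

end Pool.Agent.H83.Tcc
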