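import Mathlib
import Pool.Agent.H83.Tcc1

/-! Commitments of computable maps, injective enumerations, induced presentations, diagonal lemma. -/

set_option autoImplicit false

namespace Pool.Agent.H83.Tcc

open Pool.Agent.H37 Filter Topology

theorem ev_lt (C : ℝ) {ε : ℝ} (hε : 0 < ε) : ∀ᶠ w : ℕ in atTop, C / 2 ^ w < ε :=
  (Tendsto.div_atTop (tendsto_const_nhds (x := C))
    (tendsto_pow_atTop_atTop_of_one_lt one_lt_two)).eventually (gt_mem_nhds hε)

theorem inv2_le {a b : ℕ} (h : a ≤ b) : (1 : ℝ) / 2 ^ b ≤ 1 / 2 ^ a :=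
  one_div_le_one_div_of_le (by positivity) (pow_le_pow_right₀ one_le_two h)

theorem inv2_add (a b : ℕ) : (1 : ℝ) / 2 ^ (a + b) = 1 / 2 ^ a / 2 ^ b := by
  rw [pow_add]; field_simp

def Commit (P Q : Pres) (f : P.Y → Q.Y) : Prop :=
  ∃ (ok : ℕ → Bool) (ci ck cj cl : ℕ → ℕ), CI ∅ ok ∧ CI ∅ ci ∧ CI ∅ ck ∧ CI ∅ cj ∧ CI ∅ cl ∧
    (∀ n, ok n = true → ∀ x, dist x (P.c (ci n)) ≤ 1 / 2 ^ ck n →
      dist (f x) (Q.c (cj n)) ≤ 1 / 2 ^ cl n) ∧
    ∀ x l, ∃ n, ok n = true ∧ cl n = l ∧ dist x (P.c (ci n)) < 1 / 2 ^ (ck n + 2)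

theorem Pres.near (P : Pres) (x : P.Y) (k : ℕ) : ∃ i, dist x (P.c i) < 1 / 2 ^ k :=
  P.dense.exists_dist_lt x (by positivity)

theorem CompMap.commit {P Q : Pres} {f : P.Y → Q.Y} (h : CompMap P Q f) : Commit P Q f := by
  obtain ⟨Φ, hΦ, h⟩ := h
  have hΦ := CI.of_comp (O := ∅) hΦ
  let D : ℕ → List ℕ × ℕ × ℕ := fun n => (Encodable.decode (α := List ℕ × ℕ × ℕ) n).getD ([], 0, 0)
  have hD : CI ∅ D := by fun_prop
  obtain ⟨T, hT, T1, T2⟩ := (P.cr (f := fun p : ℕ × ℕ => (D p.1).1.getD p.2 0)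
    (g := fun p => (D p.1).2.1) (by fun_prop) (by fun_prop)).test (k := fun p => p.2 + 2)
    (by fun_prop)
  refine ⟨fun n => (Φ ((D n).1, (D n).2.2)).isSome &&
      (List.range (D n).1.length).all fun t => T (n, t), fun n => (D n).2.1,
    fun n => (D n).1.length + 2, fun n => (Φ ((D n).1, (D n).2.2)).getD 0, fun n => (D n).2.2,
    by fun_prop, by fun_prop, by fun_prop, by fun_prop, by fun_prop, ?_, ?_⟩
  · intro n hn x hx
    simp only [Bool.and_eq_true, List.all_eq_true, List.mem_range] at hn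
    choose p0 hp0 using P.near x
    let p : ℕ → ℕ := fun t => if t < (D n).1.length then (D n).1.getD t 0 else p0 t
    have hp : IsName P x p := by
      intro t
      by_cases ht : t < (D n).1.length
      · have k1 := T1 (n, t) (hn.2 t ht)
        have k2 : (1 : ℝ) / 2 ^ ((D n).1.length + 2) ≤ 1 / 2 ^ (t + 2) := inv2_le (by omega)
        have k3 := dist_triangle_right (P.c ((D n).1.getD t 0)) x (P.c (D n).2.1)
        have k4 : (1 : ℝ) / 2 ^ t = 3 / 2 ^ (t + 2) + 1 / 2 ^ (t + 2) := by field_simp; ring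
        simp only [p, if_pos ht]
        simp only at k1 hx
        linarith
      · simp only [p, if_neg ht]
        rw [dist_comm]; exact (hp0 t).le
    have e : (List.range (D n).1.length).map p = (D n).1 := by
      refine List.ext_getElem (by simp) fun t h1 h2 => ?_
      simp [p, h2]
    obtain ⟨j, hj⟩ := Option.isSome_iff_exists.1 hn.1
    have := (h x p hp (D n).2.2).2 (D n).1.length j (by rw [e]; exact hj)
    simp only [hj, Option.getD_some]
    rwa [dist_comm]
  · intro x l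
    choose p0 hp0 using P.near x
    have hp : IsName P x fun t => p0 (t + 3) := fun t => by
      rw [dist_comm]; exact (hp0 _).le.trans (inv2_le (by omega))
    obtain ⟨k, j, hj⟩ := (h x _ hp l).1
    have e : D (Encodable.encode ((List.range k).map (fun t => p0 (t + 3)), p0 (k + 4), l)) =
        ((List.range k).map (fun t => p0 (t + 3)), p0 (k + 4), l) := by
      simp only [D, Encodable.encodek, Option.getD_some]
    refine ⟨Encodable.encode ((List.range k).map (fun t => p0 (t + 3)), p0 (k + 4), l), ?_, ?_, ?_⟩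
    · simp only [Bool.and_eq_true, List.all_eq_true, List.mem_range, e, hj, Option.isSome_some,
        true_and, List.length_map, List.length_range]
      intro t ht
      apply T2
      simp only [e]
      have e2 : ((List.range k).map (fun t => p0 (t + 3))).getD t 0 = p0 (t + 3) := by simp [ht]
      rw [e2]
      have k1 := hp0 (t + 3)
      have k2 := hp0 (k + 4)
      have k3 : (1 : ℝ) / 2 ^ (k + 4) ≤ 1 / 2 ^ (t + 3) := inv2_le (by omega)
      have k4 := dist_triangle_left (P.c (p0 (t + 3))) (P.c (p0 (k + 4))) x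
      have k5 : (1 : ℝ) / 2 ^ (t + 2) = 1 / 2 ^ (t + 3) + 1 / 2 ^ (t + 3) := by field_simp; ring
      linarith
    · simp only [e]
    · simp only [e, List.length_map, List.length_range]
      exact hp0 _

def Pres.mk' (Y : Type) [MetricSpace Y] [CompleteSpace Y] (c : ℕ → Y) (hd : DenseRange c)
    (h : CR fun p : ℕ × ℕ => dist (c p.1) (c p.2)) : Pres :=
  { Y := Y, c := c, dense := hd, computable := h.out fun _ => dist_nonneg }

def Pres.sub (P : Pres) (σ : ℕ → ℕ) (hσ : CI ∅ σ) (hd : DenseRange (P.c ∘ σ)) : Pres :=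
  Pres.mk' P.Y (P.c ∘ σ) hd (P.cr (by fun_prop) (by fun_prop))

theorem Commit.of_sub {P Q : Pres} {σ τ : ℕ → ℕ} {hσ : CI ∅ σ} {hτ : CI ∅ τ}
    {hd : DenseRange (P.c ∘ σ)} {hd' : DenseRange (Q.c ∘ τ)} {f : P.Y → Q.Y}
    (h : Commit (P.sub σ hσ hd) (Q.sub τ hτ hd') f) : Commit P Q f := by
  obtain ⟨ok, ci, ck, cj, cl, h1, h2, h3, h4, h5, h6, h7⟩ := h
  exact ⟨ok, fun n => σ (ci n), ck, fun n => τ (cj n), cl, h1, by fun_prop, h3, by fun_prop, h5,
    h6, h7⟩

theorem Pres.exists_inj (P : Pres) [Infinite P.Y] :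
    ∃ σ : ℕ → ℕ, CI ∅ σ ∧ Function.Injective (P.c ∘ σ) ∧ DenseRange (P.c ∘ σ) := by
  obtain ⟨T, hT, T1, T2⟩ := (P.cr (f := fun p : ℕ × ℕ => p.1.unpair.1)
    (g := fun p => p.2) (by fun_prop) (by fun_prop)).test (k := fun p => p.1.unpair.2)
    (by fun_prop)
  have hex : ∀ L : List ℕ, ∃ s, (L.all fun t => !T (s, t)) = true := by
    intro L
    have hf : (P.c '' {t | t ∈ L}).Finite := (List.finite_toSet L).image _
    obtain ⟨j, hj⟩ : ∃ j, P.c j ∉ P.c '' {t | t ∈ L} := by
      obtain ⟨x, hx⟩ := hf.infinite_compl.nonempty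
      exact P.dense.exists_mem_open hf.isClosed.isOpen_compl ⟨x, hx⟩
    have : ∀ t ∈ {t | t ∈ L}, ∀ᶠ w : ℕ in atTop, (3 : ℝ) / 2 ^ w < dist (P.c j) (P.c t) :=
      fun t ht => ev_lt 3 (dist_pos.2 fun e => hj ⟨t, ht, e.symm⟩)
    obtain ⟨w, hw⟩ := ((eventually_all_finite (List.finite_toSet L)).2 this).exists
    refine ⟨Nat.pair j w, List.all_eq_true.2 fun t ht => ?_⟩
    cases hT' : T (Nat.pair j w, t)
    · rfl
    · have := T1 _ hT'
      simp only [Nat.unpair_pair] at this
      linarith [hw t ht]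
  let F : List ℕ → ℕ := fun L => Nat.find (hex L)
  have hF : CI ∅ F := CI.find (p := fun (L : List ℕ) s => L.all fun t => !T (s, t)) (by fun_prop) hex
  let L : ℕ → List ℕ := fun n => Nat.rec [] (fun _ l => (F l).unpair.1 :: l) n
  have hL : CI ∅ L := CI.of_rec1 (h := fun _ l => (F l).unpair.1 :: l) (by fun_prop) fun _ => rfl
  let σ : ℕ → ℕ := fun n => (F (L n)).unpair.1
  have mem : ∀ n t, t ∈ L n ↔ ∃ m < n, t = σ m := by
    intro n
    induction n with
    | zero => simp [L]
    | succ n ih =>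
      intro t
      change t ∈ σ n :: L n ↔ _
      rw [List.mem_cons, ih]
      constructor
      · rintro (rfl | ⟨m, hm, rfl⟩)
        · exact ⟨n, by omega, rfl⟩
        · exact ⟨m, by omega, rfl⟩
      · rintro ⟨m, hm, rfl⟩
        rcases Nat.lt_succ_iff_lt_or_eq.1 hm with h | rfl
        · exact Or.inr ⟨m, h, rfl⟩
        · exact Or.inl rfl
  have ne : ∀ m n, m < n → P.c (σ n) ≠ P.c (σ m) := by
    intro m n hmn e
    have h1 := List.all_eq_true.1 (Nat.find_spec (hex (L n))) (σ m) ((mem _ _).2 ⟨m, hmn, rfl⟩)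
    have h2 := T2 (F (L n), σ m) (by
      change dist (P.c (σ n)) (P.c (σ m)) ≤ _
      rw [e, dist_self]; positivity)
    simp only [F] at h2
    rw [h2] at h1
    exact absurd h1 (by decide)
  have inj : Function.Injective (P.c ∘ σ) := fun m n e => by
    rcases lt_trichotomy m n with h | h | h
    · exact absurd e.symm (ne _ _ h)
    · exact h
    · exact absurd e (ne _ _ h)
  refine ⟨σ, by fun_prop, inj, ?_⟩
  have key : ∀ j, P.c j ∈ closure (Set.range (P.c ∘ σ)) := by
    intro j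
    by_contra hj
    rw [Metric.mem_closure_iff] at hj
    push Not at hj
    obtain ⟨ε, hε, hj⟩ := hj
    obtain ⟨w, hw⟩ := (ev_lt 3 hε).exists
    have hle : ∀ n, F (L n) ≤ Nat.pair j w := fun n =>
      Nat.find_min' _ (List.all_eq_true.2 fun t ht => by
        obtain ⟨m, -, rfl⟩ := (mem _ _).1 ht
        cases hT' : T (Nat.pair j w, σ m)
        · rfl
        · have := T1 _ hT'
          simp only [Nat.unpair_pair] at this
          have h3 : ε ≤ dist (P.c j) (P.c (σ m)) := hj _ ⟨m, rfl⟩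
          linarith)
    have hi : Function.Injective fun n => F (L n) := fun m n e =>
      inj (by simp only [Function.comp, σ]; rw [show F (L m) = F (L n) from e])
    exact Set.infinite_range_of_injective hi
      ((Set.finite_le_nat (Nat.pair j w)).subset (by rintro _ ⟨n, rfl⟩; exact hle n))
  intro x
  exact closure_minimal (by rintro _ ⟨j, rfl⟩; exact key j) isClosed_closure (P.dense x)

theorem Pres.exists_sep (P : Pres) (hi : Function.Injective P.c) : ∃ Ω : ℕ → ℕ, CI ∅ Ω ∧
    ∀ n t t', t ≤ n → t' ≤ n → t ≠ t' → 1 / 2 ^ Ω n < dist (P.c t) (P.c t') := by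
  obtain ⟨T, hT, T1, T2⟩ := (P.cr (f := fun p : ℕ × ℕ × ℕ => p.1)
    (g := fun p => p.2.1) (by fun_prop) (by fun_prop)).test (k := fun p => p.2.2) (by fun_prop)
  obtain ⟨Ω, hΩ, h⟩ := CI.exists_choice (O := ∅) (p := fun n w : ℕ =>
    (List.range (n + 1)).all fun t => (List.range (n + 1)).all fun t' =>
      decide (t = t') || !T (t, t', w)) (by fun_prop) (fun n => by
    have : ∀ᶠ w : ℕ in atTop, ∀ t ∈ Set.Iic n, ∀ t' ∈ Set.Iic n, t ≠ t' →
        (3 : ℝ) / 2 ^ w < dist (P.c t) (P.c t') := by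
      refine (eventually_all_finite (Set.finite_Iic n)).2 fun t _ =>
        (eventually_all_finite (Set.finite_Iic n)).2 fun t' _ => ?_
      by_cases e : t = t'
      · simp [e]
      · exact (ev_lt 3 (dist_pos.2 fun e' => e (hi e'))).mono fun _ h _ => h
    obtain ⟨w, hw⟩ := this.exists
    refine ⟨w, List.all_eq_true.2 fun t ht => List.all_eq_true.2 fun t' ht' => ?_⟩
    by_cases e : t = t'
    · simp [e]
    · cases hT' : T (t, t', w)
      · simp
      · have := T1 _ hT'
        have := hw t (by simpa [Nat.lt_succ_iff] using ht) t' (by simpa [Nat.lt_succ_iff] using ht') e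
        simp only at *
        linarith)
  refine ⟨Ω, hΩ, fun n t t' ht ht' e => ?_⟩
  have := List.all_eq_true.1 (List.all_eq_true.1 (h n) t (by simpa [Nat.lt_succ_iff] using ht)) t'
    (by simpa [Nat.lt_succ_iff] using ht')
  by_contra hle
  have k := T2 (t, t', Ω n) (not_lt.1 hle)
  simp [e, k] at this

theorem Pres.induced (P : Pres) {Z : Type} [MetricSpace Z] (G : P.Y → Z) (hc : Continuous G)
    (hC : ∀ u : ℕ → P.Y, CauchySeq (fun n => G (u n)) → CauchySeq u)
    (hr : CR fun p : ℕ × ℕ => dist (G (P.c p.1)) (G (P.c p.2))) :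
    ∃ (Q : Pres) (h : P.Y ≃ₜ Q.Y), (∀ i, Q.c i = h (P.c i)) ∧
      ∀ x y, dist (h x) (h y) = dist (G x) (G y) := by
  classical
  have inj : Function.Injective G := by
    intro x y e
    have h1 : CauchySeq fun n : ℕ => if Even n then x else y := by
      apply hC
      have : (fun n : ℕ => G (if Even n then x else y)) = fun _ => G y := by
        funext n; split_ifs <;> simp [e]
      rw [this]; exact cauchySeq_const _
    by_contra hne
    obtain ⟨N, hN⟩ := Metric.cauchySeq_iff.1 h1 _ (dist_pos.2 hne)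
    have := hN (2 * N) (by omega) (2 * N + 1) (by omega)
    simp at this
  have cl : IsClosedMap G := by
    intro s hs
    refine isClosed_of_closure_subset fun z hz => ?_
    obtain ⟨v, hv, hz⟩ := mem_closure_iff_seq_limit.1 hz
    choose u hu hu' using hv
    obtain ⟨x, hx⟩ := cauchySeq_tendsto_of_complete (hC u (by simpa [hu'] using hz.cauchySeq))
    refine ⟨x, hs.mem_of_tendsto hx (Eventually.of_forall hu), ?_⟩
    exact tendsto_nhds_unique ((hc.tendsto x).comp hx) (by simpa [Function.comp_def, hu'] using hz)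
  have emb := (IsClosedEmbedding.of_continuous_injective_isClosedMap hc inj cl).isEmbedding
  haveI : CompleteSpace (Set.range G) := by
    refine Metric.complete_of_cauchySeq_tendsto fun v hv => ?_
    choose u hu using fun n => (v n).2
    have h1 : CauchySeq fun n => (v n : Z) := uniformContinuous_subtype_val.comp_cauchySeq hv
    obtain ⟨x, hx⟩ := cauchySeq_tendsto_of_complete (hC u (by simpa [hu] using h1))
    refine ⟨⟨G x, x, rfl⟩, tendsto_subtype_rng.2 ?_⟩
    simpa [Function.comp_def, hu] using (hc.tendsto x).comp hx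
  exact ⟨Pres.mk' (Set.range G) (fun i => emb.toHomeomorph (P.c i))
    (emb.toHomeomorph.surjective.denseRange.comp P.dense emb.toHomeomorph.continuous) hr,
    emb.toHomeomorph, fun _ => rfl, fun _ _ => rfl⟩

def E (e k n : ℕ) : Option ℕ :=
  Nat.Partrec.Code.evaln n (Denumerable.ofNat Nat.Partrec.Code e) (Nat.pair e k)

@[fun_prop] theorem ci_E {α : Type} [Primcodable α] {f g h : α → ℕ} (hf : CI ∅ f) (hg : CI ∅ g)
    (hh : CI ∅ h) : CI ∅ fun a => E (f a) (g a) (h a) := by
  unfold E; fun_prop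

theorem E_mono {e k n n' v : ℕ} (h : E e k n = some v) (hn : n ≤ n') : E e k n' = some v :=
  Nat.Partrec.Code.evaln_mono hn h

theorem diag (Ψ : ℕ → ℕ → ℕ → Option ℕ) (hΨ : CI ∅ fun p : ℕ × ℕ × ℕ => Ψ p.1 p.2.1 p.2.2) :
    ∃ e, ∀ k, (∀ n v, E e k n = some v → ∃ n', Ψ e k n' = some v) ∧
      ∀ n' v, Ψ e k n' = some v → ∃ n v', E e k n = some v' := by
  have h1 : Partrec fun x : ℕ => Nat.rfindOpt fun n => Ψ x.unpair.1 x.unpair.2 n :=
    Partrec.rfindOpt (f := fun (x : ℕ) n => Ψ x.unpair.1 x.unpair.2 n)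
      (CI.computable (hΨ.comp (g := fun p : ℕ × ℕ => (p.1.unpair.1, p.1.unpair.2, p.2))
        (by fun_prop)))
  obtain ⟨c, hc⟩ := Nat.Partrec.Code.exists_code.1 (Partrec.nat_iff.1 h1)
  refine ⟨Encodable.encode c, fun k => ⟨fun n v h => ?_, fun n' v h => ?_⟩⟩
  · have := Nat.Partrec.Code.evaln_sound h
    rw [Denumerable.ofNat_encode, hc] at this
    simpa using Nat.rfindOpt_spec this
  · have : (Nat.rfindOpt fun n => Ψ (Encodable.encode c) k n).Dom :=
      Nat.rfindOpt_dom.2 ⟨n', v, h⟩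
    obtain ⟨v', hv'⟩ := Part.dom_iff_mem.1 this
    obtain ⟨n, hn⟩ := Nat.Partrec.Code.evaln_complete.1
      (show v' ∈ c.eval (Nat.pair (Encodable.encode c) k) by rw [hc]; simpa using hv')
    exact ⟨n, v', by simpa [E] using hn⟩

end Pool.Agent.H83.Tcc
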