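import Mathlib

/-! A hotel lemma: adding isolated twins to a space with dense isolated points. -/

set_option autoImplicit false

namespace Pool.Agent.H83.Tcc

open Filter Topology Metric

theorem greedy {Y : Type} (S : ℕ → Set Y) (h : ∀ n, (S n).Infinite) :
    ∃ u : ℕ → Y, Function.Injective u ∧ ∀ n, u n ∈ S n := by
  classical
  choose g hg hg' using fun n (F : Finset Y) => (h n).exists_notMem_finset F
  let F : ℕ → Finset Y := fun n => Nat.rec ∅ (fun m G => insert (g m G) G) n
  have mono : Monotone F := monotone_nat_of_le_succ fun n => Finset.subset_insert _ _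
  have ne : ∀ m n, m < n → g n (F n) ≠ g m (F m) := fun m n hmn e =>
    hg' n (F n) (e ▸ mono (show m + 1 ≤ n from hmn) (Finset.mem_insert_self _ _))
  refine ⟨fun n => g n (F n), fun m n e => ?_, fun n => hg _ _⟩
  rcases lt_trichotomy m n with h | h | h
  · exact absurd e.symm (ne _ _ h)
  · exact h
  · exact absurd e (ne _ _ h)

theorem away {Y : Type} [MetricSpace Y] {F : Set Y} (hF : F.Finite) {z : Y} (hz : z ∉ F) :
    ∃ δ > 0, ∀ y, dist y z < δ → y ∉ F := by
  obtain ⟨δ, hδ, h⟩ := Metric.isOpen_iff.1 hF.isClosed.isOpen_compl z hz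
  exact ⟨δ, hδ, fun y hy => h hy⟩

theorem iso_of_finite {Y : Type} [MetricSpace Y] {w : Y} {δ : ℝ} (hδ : 0 < δ)
    (h : {y | dist y w < δ}.Finite) : ∃ δ > 0, ∀ y, dist y w < δ → y = w := by
  obtain ⟨δ', hδ', h'⟩ := away (h.subset Set.diff_subset : ({y | dist y w < δ} \ {w}).Finite)
    (z := w) (by simp)
  refine ⟨min δ δ', by positivity, fun y hy => by_contra fun hne => ?_⟩
  exact h' y (hy.trans_le (min_le_right _ _)) ⟨hy.trans_le (min_le_left _ _), hne⟩

theorem emin {Y : Type} [MetricSpace Y] (a b c : Y) :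
    min 1 (dist a c) ≤ min 1 (dist a b) + min 1 (dist b c) := by
  have := dist_triangle a b c
  have := dist_nonneg (x := a) (y := b)
  have := dist_nonneg (x := b) (y := c)
  simp only [min_def]
  split_ifs <;> linarith

theorem hotel {Y : Type} [MetricSpace Y] [TopologicalSpace.SeparableSpace Y] (X : Set Y) (β : Y → Y)
    (hβX : ∀ w, β w ∈ X) (hcl : IsClosed X) (hfib : ∀ x, {w | β w = x}.Finite)
    (hsm : ∀ ε > 0, {w | ε ≤ dist w (β w)}.Finite)
    (hden : ∀ x ∈ X, ∀ ε > 0, ∃ i ∈ X, dist i x < ε ∧ ∃ δ > 0, ∀ y ∈ X, dist y i < δ → y = i)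
    (hinf : X.Infinite) : Nonempty (Y ≃ₜ X) := by
  classical
  set J : Set Y := {w | ∃ δ > 0, ∀ y, dist y w < δ → y = w} with hJ
  have f1 : ∀ w, w ∉ X → w ∈ J := by
    intro w hw
    obtain ⟨δ, hδ, h⟩ := Metric.isOpen_iff.1 hcl.isOpen_compl w hw
    refine iso_of_finite (half_pos hδ) ((hsm _ (half_pos hδ)).subset fun y hy => ?_)
    by_contra hlt
    refine h (show dist (β y) w < δ from ?_) (hβX y)
    have := dist_triangle_left (β y) w y
    simp only [Set.mem_setOf_eq, not_le] at hy hlt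
    linarith
  have f3 : ∀ x ∈ X, ∀ ε > 0, ∃ i ∈ J ∩ X, dist i x < ε := by
    intro x hx ε hε
    obtain ⟨i, hi, h1, δ, hδ, h2⟩ := hden x hx ε hε
    refine ⟨i, ⟨iso_of_finite (half_pos hδ) (((hsm _ (half_pos hδ)).union (hfib i)).subset
      fun y hy => ?_), hi⟩, h1⟩
    by_cases hlt : δ / 2 ≤ dist y (β y)
    · exact Or.inl hlt
    · refine Or.inr (h2 _ (hβX y) ?_)
      have := dist_triangle_left (β y) i y
      simp only [Set.mem_setOf_eq, not_le] at hy hlt
      linarith
  have f4 : ∀ z, z ∉ J → ∀ ε > 0, {i ∈ J ∩ X | dist i z < ε}.Infinite := by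
    intro z hz ε hε hf
    obtain ⟨δ, hδ, h⟩ := away hf (z := z) fun h => hz h.1.1
    obtain ⟨i, hi, h1⟩ := f3 z (by_contra fun h => hz (f1 z h)) (min ε δ) (by positivity)
    exact h i (h1.trans_le (min_le_right _ _)) ⟨hi, h1.trans_le (min_le_left _ _)⟩
  have f5 : (J ∩ X).Infinite := fun hf => hinf (hf.subset fun x hx => by_contra fun hn => by
    obtain ⟨δ, hδ, h⟩ := away hf hn
    obtain ⟨i, hi, h1⟩ := f3 x hx δ hδ
    exact h i h1 hi)
  have f6 : J.Countable := by
    obtain ⟨s, hs, hd⟩ := TopologicalSpace.exists_countable_dense Y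
    refine hs.mono fun w ⟨δ, hδ, h⟩ => ?_
    obtain ⟨y, hy, h1⟩ := hd.exists_dist_lt w hδ
    exact h y (by rwa [dist_comm]) ▸ hy
  obtain ⟨S, hS1, hS2⟩ : ∃ S : Y → Set Y, (∀ w ∈ J, (S w).Infinite ∧ S w ⊆ J ∩ X) ∧
      ∀ z, z ∉ J → ∀ ε > 0, (∃ δ > 0, ∀ w ∈ J, ∀ i ∈ S w, dist w z < δ → dist i z < ε) ∧
        ∃ δ > 0, {w | ε ≤ dist w z ∧ ∃ i ∈ S w, dist i z < δ}.Finite := by
    rcases (Jᶜ).eq_empty_or_nonempty with hE | hE
    · refine ⟨fun _ => J ∩ X, fun w _ => ⟨f5, le_rfl⟩, fun z hz => ?_⟩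
      exact absurd (hE ▸ hz : z ∈ (∅ : Set Y)) id
    let ρ : Y → ℝ := fun w => min 1 (infDist w Jᶜ)
    have ρ1 : ∀ w w', ρ w ≤ ρ w' + dist w w' := fun w w' => by
      have := infDist_le_infDist_add_dist (x := w) (y := w') (s := Jᶜ)
      have := dist_nonneg (x := w) (y := w')
      simp only [ρ, min_def]
      split_ifs <;> linarith
    have ρ0 : ∀ w, 0 ≤ ρ w := fun w => le_min zero_le_one infDist_nonneg
    have ρ2 : ∀ w z, z ∉ J → ρ w ≤ dist w z := fun w z hz =>
      (min_le_right _ _).trans (infDist_le_dist_of_mem hz)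
    have ρ3 : ∀ w ∈ J, 0 < ρ w := by
      rintro w ⟨δ, hδ, h⟩
      refine lt_min one_pos (hδ.trans_le ((le_infDist hE).2 fun y hy => not_lt.1 fun hlt => hy ?_))
      rw [h y (by rwa [dist_comm])]
      exact ⟨δ, hδ, h⟩
    let A : Y → Set Y := fun w => {i ∈ J ∩ X | min 1 (dist i w) ≤ 8 * ρ w ∧ ρ w / 2 ≤ ρ i}
    let B : Y → Set Y := fun w => {i ∈ J ∩ X | min 1 (dist i w) ≤ 3 * ρ w}
    have hB : ∀ w ∈ J, (B w).Infinite := by
      intro w hw
      have hp := ρ3 w hw
      obtain ⟨z, hz, h⟩ : ∃ z ∈ Jᶜ, min 1 (dist z w) ≤ 2 * ρ w := by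
        by_cases h1 : infDist w Jᶜ < 1
        · have e : ρ w = infDist w Jᶜ := min_eq_right h1.le
          obtain ⟨z, hz, h⟩ := (infDist_lt_iff hE).1 (show infDist w Jᶜ < 2 * ρ w by linarith)
          exact ⟨z, hz, (min_le_right _ _).trans (by rw [dist_comm]; exact h.le)⟩
        · have e : ρ w = 1 := min_eq_left (not_lt.1 h1)
          obtain ⟨z, hz⟩ := hE
          exact ⟨z, hz, (min_le_left _ _).trans (by linarith)⟩
      refine (f4 z hz _ hp).mono fun i hi => ⟨hi.1, ?_⟩
      have := emin i z w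
      have := min_le_right 1 (dist i z)
      linarith [hi.2]
    have hAB : ∀ w i, i ∈ (if (A w).Infinite then A w else B w) → min 1 (dist i w) ≤ 8 * ρ w := by
      intro w i hi
      split_ifs at hi
      · exact hi.2.1
      · linarith [hi.2, ρ0 w]
    refine ⟨fun w => if (A w).Infinite then A w else B w, fun w hw => ?_, fun z hz ε hε => ⟨?_, ?_⟩⟩
    · beta_reduce
      split_ifs with h
      · exact ⟨h, fun i hi => hi.1⟩
      · exact ⟨hB w hw, fun i hi => hi.1⟩
    · refine ⟨min ε 1 / 10, by positivity, fun w _ i hi hw => ?_⟩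
      have k1 := hAB w i hi
      have k2 := ρ2 w z hz
      have k3 := dist_triangle i w z
      have := min_le_left ε 1
      have := min_le_right ε 1
      rcases min_le_iff.1 k1 with k | k <;> linarith
    · set η := min ε 1 / 10 with hη
      have hη0 : 0 < η := by positivity
      have := min_le_left ε 1
      have := min_le_right ε 1
      refine ⟨η / 2, by positivity, Set.Finite.subset (s := {w | η ≤ ρ w ∧ (A w).Finite ∧
        ∃ i ∈ B w, dist i z < η / 2}) ?_ ?_⟩
      · refine Set.Finite.of_finite_fibers (fun w => ⌊ρ w / (η / 10)⌋₊)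
          ((Set.finite_le_nat ⌊1 / (η / 10)⌋₊).subset ?_) ?_
        · rintro _ ⟨w, -, rfl⟩
          exact Nat.floor_le_floor (by gcongr; exact min_le_left _ _)
        · rintro _ ⟨w0, ⟨h1, h2, i0, h3, h4⟩, rfl⟩
          refine ((hsm (ρ w0 / 10) (by linarith)).union (h2.biUnion fun x _ => hfib x)).subset ?_
          rintro w ⟨⟨g1, -, i, g3, g4⟩, g5⟩
          by_cases hlt : ρ w0 / 10 ≤ dist w (β w)
          · exact Or.inl hlt
          right
          have g6 : |ρ w / (η / 10) - ρ w0 / (η / 10)| < 1 := by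
            have a1 := Nat.floor_le (a := ρ w / (η / 10)) (by have := ρ0 w; positivity)
            have a2 := Nat.floor_le (a := ρ w0 / (η / 10)) (by have := ρ0 w0; positivity)
            have a3 := Nat.lt_floor_add_one (ρ w / (η / 10))
            have a4 := Nat.lt_floor_add_one (ρ w0 / (η / 10))
            have a5 : ⌊ρ w / (η / 10)⌋₊ = ⌊ρ w0 / (η / 10)⌋₊ := g5
            rw [a5] at a1 a3
            rw [abs_lt]; constructor <;> linarith
          rw [← sub_div, abs_div, abs_of_pos (show 0 < η / 10 by positivity),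
            div_lt_one (by positivity), abs_lt] at g6
          have b1 := ρ1 w (β w)
          have b2 := emin (β w) w w0
          have b3 := emin w i w0
          have b4 := emin i i0 w0
          have b5 := dist_triangle_right i i0 z
          have b6 := min_le_right 1 (dist i i0)
          have b7 := min_le_right 1 (dist (β w) w)
          have b8 := g3.2
          have b9 := h3.2
          rw [dist_comm w i] at b3
          rw [dist_comm (β w) w] at b7 b2
          refine Set.mem_biUnion (x := β w) ⟨⟨by_contra fun hn => ?_, hβX w⟩, ?_, ?_⟩ rfl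
          · have := ρ2 (β w) (β w) hn
            rw [dist_self] at this
            linarith [g6.1]
          · rw [dist_comm (β w) w0] at *
            linarith [g6.2]
          · linarith [g6.1]
      · rintro w ⟨h1, i, hi, h2⟩
        have k1 := hAB w i hi
        have k3 := dist_triangle_left w z i
        have k4 : η ≤ ρ w := by
          by_contra hlt
          rcases min_le_iff.1 k1 with k | k <;> linarith
        by_cases hA : (A w).Infinite
        · simp only [if_pos hA] at hi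
          linarith [hi.2.2, ρ2 i z hz]
        · simp only [if_neg hA] at hi
          exact ⟨k4, Set.not_infinite.1 hA, i, hi, h2⟩
  haveI := f6.to_subtype
  haveI := (f5.mono Set.inter_subset_left).to_subtype
  obtain ⟨en⟩ : Nonempty (J ≃ ℕ) := nonempty_equiv_of_countable
  obtain ⟨u, hu, hu'⟩ := greedy (fun n => S (en.symm n)) fun n => (hS1 _ (en.symm n).2).1
  obtain ⟨h, hb, hR⟩ := Function.Embedding.schroeder_bernstein_of_rel
    (f := fun w : J => (⟨u (en w), (hS1 _ (en.symm (en w)).2).2 (hu' _)⟩ : ↥(J ∩ X)))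
    (g := fun i : ↥(J ∩ X) => (⟨i.1, i.2.1⟩ : J))
    (fun a b e => en.injective (hu (congrArg Subtype.val e)))
    (fun a b e => Subtype.ext (congrArg (fun w : J => w.1) e))
    (fun w i => i.1 ∈ S w ∨ i.1 = w.1) (fun w => Or.inl (by simpa using hu' (en w)))
    fun _ => Or.inr rfl
  let H : Y → X := fun w => if hw : w ∈ J then ⟨(h ⟨w, hw⟩).1, (h ⟨w, hw⟩).2.2⟩ else
    ⟨w, by_contra fun hn => hw (f1 w hn)⟩
  have H1 : ∀ w (hw : w ∈ J), (H w).1 = (h ⟨w, hw⟩).1 := fun w hw => by simp only [H, dif_pos hw]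
  have H2 : ∀ w, w ∉ J → (H w).1 = w := fun w hw => by simp only [H, dif_neg hw]
  have Hinj : Function.Injective H := by
    intro a b e
    have e' := congrArg Subtype.val e
    by_cases ha : a ∈ J <;> by_cases hb' : b ∈ J
    · rw [H1 a ha, H1 b hb'] at e'
      exact congrArg Subtype.val (hb.1 (Subtype.ext e'))
    · rw [H1 a ha, H2 b hb'] at e'
      exact absurd (e' ▸ (h ⟨a, ha⟩).2.1) hb'
    · rw [H2 a ha, H1 b hb'] at e'
      exact absurd (e' ▸ (h ⟨b, hb'⟩).2.1) ha
    · rwa [H2 a ha, H2 b hb'] at e'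
  have Hsur : Function.Surjective H := by
    intro x
    by_cases hx : x.1 ∈ J
    · obtain ⟨w, hw⟩ := hb.2 ⟨x.1, hx, x.2⟩
      exact ⟨w.1, Subtype.ext (by rw [H1 _ w.2]; exact congrArg Subtype.val hw)⟩
    · exact ⟨x.1, Subtype.ext (H2 _ hx)⟩
  refine ⟨{ Equiv.ofBijective H ⟨Hinj, Hsur⟩ with
    continuous_toFun := ?_, continuous_invFun := ?_ }⟩
  · refine Metric.continuous_iff.2 fun z ε hε => ?_
    change ∃ δ > 0, ∀ a, dist a z < δ → dist (H a).1 (H z).1 < ε
    by_cases hz : z ∈ J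
    · obtain ⟨δ, hδ, h1⟩ := hz
      exact ⟨δ, hδ, fun a ha => by rw [h1 a ha, dist_self]; exact hε⟩
    · obtain ⟨δ, hδ, h1⟩ := (hS2 z hz ε hε).1
      refine ⟨min δ ε, by positivity, fun a ha => ?_⟩
      rw [H2 z hz]
      by_cases ha' : a ∈ J
      · rw [H1 a ha']
        rcases hR ⟨a, ha'⟩ with k | k
        · exact h1 a ha' _ k (ha.trans_le (min_le_left _ _))
        · rw [k]; exact ha.trans_le (min_le_right _ _)
      · rw [H2 a ha']; exact ha.trans_le (min_le_right _ _)
  · refine Metric.continuous_iff.2 fun x ε hε => ?_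
    obtain ⟨z, rfl⟩ := Hsur x
    suffices ∃ δ > 0, ∀ a, dist (H a).1 (H z).1 < δ → dist a z < ε by
      obtain ⟨δ, hδ, h1⟩ := this
      refine ⟨δ, hδ, fun y hy => ?_⟩
      obtain ⟨a, rfl⟩ := Hsur y
      have e : ∀ b, (Equiv.ofBijective H ⟨Hinj, Hsur⟩).invFun (H b) = b := fun b =>
        (Equiv.ofBijective H ⟨Hinj, Hsur⟩).left_inv b
      rw [e, e]
      exact h1 a hy
    by_cases hz : z ∈ J
    · obtain ⟨δ, hδ, h1⟩ := (h ⟨z, hz⟩).2.1
      refine ⟨δ, hδ, fun a ha => ?_⟩
      rw [H1 z hz] at ha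
      rw [Hinj (Subtype.ext ((h1 _ ha).trans (H1 z hz).symm)), dist_self]
      exact hε
    · obtain ⟨δ, hδ, h1⟩ := (hS2 z hz ε hε).2
      obtain ⟨δ', hδ', h2⟩ := away ((h1.inter_of_left J).image fun w => (H w).1) (z := z) (by
        rintro ⟨w, ⟨-, hw⟩, e⟩
        refine hz (e ▸ ?_)
        beta_reduce
        rw [H1 w hw]
        exact (h ⟨w, hw⟩).2.1)
      refine ⟨min (min δ δ') ε, by positivity, fun a ha => ?_⟩
      rw [H2 z hz] at ha
      simp only [lt_min_iff] at ha
      by_cases ha' : a ∈ J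
      · rcases hR ⟨a, ha'⟩ with k | k
        · by_contra hlt
          exact h2 _ ha.1.2 ⟨a, ⟨⟨not_lt.1 hlt, _, k, by rw [← H1 a ha']; exact ha.1.1⟩, ha'⟩, rfl⟩
        · rw [H1 a ha', k] at ha; exact ha.2
      · rw [H2 a ha'] at ha; exact ha.2

end Pool.Agent.H83.Tcc
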