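import Mathlib
import Pool.Agent.H83.Tcc2
import Pool.Agent.H83.Tcc3

/-! The case of dense isolated points. -/

set_option autoImplicit false

namespace Pool.Agent.H83.Tcc

open Pool.Agent.H37 Filter Topology

noncomputable def tw (P : Pres) (e v : ℕ) : P.Y × ℝ :=
  (P.c (v.unpair.1 + e), min (1 / 2 ^ e) (v.unpair.2.unpair.1 / 2 ^ v.unpair.2.unpair.2))

theorem tw_fin (P : Pres) (T : ℕ → ℕ → Option ℕ)
    (hf : ∀ e n n' v v', T e n = some v → T e n' = some v' → v = v') (K : ℕ) :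
    {w | ∃ e ≤ K, ∃ n v, T e n = some v ∧ w = tw P e v}.Finite := by
  refine ((Set.finite_le_nat K).biUnion (t := fun e => {w | ∃ n v, T e n = some v ∧ w = tw P e v})
    fun e _ => Set.Subsingleton.finite ?_).subset ?_
  · rintro _ ⟨n, v, h, rfl⟩ _ ⟨n', v', h', rfl⟩
    rw [hf _ _ _ _ _ h h']
  · rintro w ⟨e, he, h⟩
    exact Set.mem_biUnion he h

theorem twin (P : Pres) (hi : Function.Injective P.c) [Infinite P.Y]
    (hden : ∀ (x : P.Y) (ε : ℝ), 0 < ε → ∃ i, dist i x < ε ∧ ∃ δ > 0, ∀ y, dist y i < δ → y = i)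
    (T : ℕ → ℕ → Option ℕ) (hT : CI ∅ fun p : ℕ × ℕ => T p.1 p.2)
    (hf : ∀ e n n' v v', T e n = some v → T e n' = some v' → v = v') :
    ∃ (Q : Pres) (j : Q.Y → P.Y × ℝ) (bs : ℕ → ℕ), Nonempty (Q.Y ≃ₜ P.Y) ∧ CI ∅ bs ∧
      (∀ x y, dist x y = dist (j x) (j y)) ∧ (∀ u, (j (Q.c u)).1 = P.c (bs u)) ∧
      (CR fun u => (j (Q.c u)).2) ∧
      (∀ y, (j y).2 = 0 ∨ ∃ e n v, T e n = some v ∧ j y = tw P e v) ∧
      ∀ e n v, T e n = some v → ∃ y, j y = tw P e v := by
  let Ys : Set (P.Y × ℝ) := {w | w.2 = 0 ∨ ∃ e n v, T e n = some v ∧ w = tw P e v}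
  have big : ∀ ε > 0, {w ∈ Ys | ε ≤ |w.2|}.Finite := by
    intro ε hε
    obtain ⟨K, hK⟩ := eventually_atTop.1 (ev_lt 1 hε)
    refine (tw_fin P T hf K).subset ?_
    rintro w ⟨h | ⟨e, n, v, h, rfl⟩, h2⟩
    · rw [h, abs_zero] at h2; linarith
    · refine ⟨e, by_contra fun he => ?_, n, v, h, rfl⟩
      have := hK e (by omega)
      rw [abs_of_nonneg (le_min (by positivity) (by positivity))] at h2
      have h3 : (tw P e v).2 ≤ 1 / 2 ^ e := min_le_left _ _
      linarith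
  have hcl : IsClosed Ys := by
    rw [← isOpen_compl_iff, Metric.isOpen_iff]
    intro w hw
    have h0 : 0 < |w.2| := abs_pos.2 fun h => hw (Or.inl h)
    obtain ⟨δ, hδ, h⟩ := away (big _ (half_pos h0)) (z := w) fun h => hw h.1
    refine ⟨min δ (|w.2| / 2), by positivity, fun y hy hy' => ?_⟩
    rw [Metric.mem_ball, lt_min_iff] at hy
    refine h y hy.1 ⟨hy', ?_⟩
    have k1 : dist y.2 w.2 ≤ dist y w := by rw [Prod.dist_eq]; exact le_max_right _ _
    have k2 := abs_sub_abs_le_abs_sub w.2 y.2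
    rw [Real.dist_eq, abs_sub_comm] at k1
    linarith [hy.2]
  haveI : CompleteSpace Ys := hcl.completeSpace_coe
  let fl : ℕ → Bool := fun u => decide (u % 2 = 1) && (T (u / 2).unpair.1 (u / 2).unpair.2).isSome
  let vv : ℕ → ℕ := fun u => (T (u / 2).unpair.1 (u / 2).unpair.2).getD 0
  have hT' : CI ∅ fun u : ℕ => T (u / 2).unpair.1 (u / 2).unpair.2 :=
    hT.comp (g := fun u : ℕ => (u / 2).unpair) (by fun_prop)
  have hfl : CI ∅ fl := by fun_prop
  have hvv : CI ∅ vv := by fun_prop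
  let bs : ℕ → ℕ := fun u => cond (fl u) ((vv u).unpair.1 + (u / 2).unpair.1) (u / 2)
  let ht : ℕ → ℝ := fun u => cond (fl u) (tw P (u / 2).unpair.1 (vv u)).2 0
  have hbs : CI ∅ bs := by fun_prop
  have hht : CR ht := CR.cond hfl ((CR.inv2 (by fun_prop)).min
    (((CR.nat (f := fun u => (vv u).unpair.2.unpair.1) (by fun_prop)).mul
      (CR.inv2 (f := fun u => (vv u).unpair.2.unpair.2) (by fun_prop))).of_eq
        fun u => by ring)) CR.zero
  have hmem : ∀ u, (P.c (bs u), ht u) ∈ Ys := by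
    intro u
    cases h : fl u
    · left; simp [ht, h]
    · right
      simp only [fl, Bool.and_eq_true] at h
      obtain ⟨v, hv⟩ := Option.isSome_iff_exists.1 h.2
      refine ⟨_, _, v, hv, ?_⟩
      simp only [bs, ht, fl, vv, h.1, hv, Option.isSome_some, Bool.and_self, cond_true,
        Option.getD_some, tw]
  let c' : ℕ → Ys := fun u => ⟨_, hmem u⟩
  have hd : DenseRange c' := by
    rintro ⟨w, hw⟩
    rw [Metric.mem_closure_iff]
    intro ε hε
    rcases hw with h | ⟨e, n, v, h, rfl⟩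
    · obtain ⟨i, hi⟩ := P.dense.exists_dist_lt w.1 hε
      refine ⟨_, ⟨2 * i, rfl⟩, ?_⟩
      have : fl (2 * i) = false := by simp [fl]
      simp [c', Subtype.dist_eq, Prod.dist_eq, bs, ht, this, h, hi, hε]
    · refine ⟨_, ⟨2 * Nat.pair e n + 1, rfl⟩, ?_⟩
      have e1 : (2 * Nat.pair e n + 1) / 2 = Nat.pair e n := by omega
      have e2 : fl (2 * Nat.pair e n + 1) = true := by simp [fl, e1, h]
      have e3 : vv (2 * Nat.pair e n + 1) = v := by simp [vv, e1, h]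
      simp [c', Subtype.dist_eq, bs, ht, e1, e2, e3, tw, hε]
  have hr : CR fun p : ℕ × ℕ => dist (c' p.1) (c' p.2) :=
    ((P.cr (f := fun p : ℕ × ℕ => bs p.1) (g := fun p => bs p.2) (by fun_prop) (by fun_prop)).max
      ((hht.comp (g := fun p : ℕ × ℕ => p.1) (by fun_prop)).sub
        (hht.comp (g := fun p : ℕ × ℕ => p.2) (by fun_prop))).abs).of_eq fun p => rfl
  haveI : TopologicalSpace.SeparableSpace Ys := ⟨⟨_, Set.countable_range c', hd⟩⟩
  obtain ⟨H⟩ := hotel (Y := Ys) {w | w.1.2 = 0} (fun w => ⟨(w.1.1, 0), Or.inl rfl⟩) (fun _ => rfl)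
    (isClosed_eq (by fun_prop) continuous_const) (fun x => by
      obtain ⟨K, hK⟩ : ∃ K, ∀ m, P.c m = x.1.1 → m ≤ K := by
        by_cases h : ∃ k, P.c k = x.1.1
        · obtain ⟨k, hk⟩ := h
          exact ⟨k, fun m hm => (hi (hm.trans hk.symm)).le⟩
        · exact ⟨0, fun m hm => absurd ⟨m, hm⟩ h⟩
      refine (((tw_fin P T hf K).insert (x.1.1, 0)).preimage Subtype.val_injective.injOn).subset ?_
      rintro ⟨w, hw⟩ h
      have h1 : w.1 = x.1.1 := congrArg (fun z : Ys => z.1.1) h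
      rcases hw with h2 | ⟨e, n, v, h2, rfl⟩
      · exact Or.inl (Prod.ext h1 h2)
      · exact Or.inr ⟨e, by have := hK _ h1; omega, n, v, h2, rfl⟩)
    (fun ε hε => ((big ε hε).preimage Subtype.val_injective.injOn).subset fun w hw =>
      ⟨w.2, by simpa [Subtype.dist_eq, Prod.dist_eq, Real.dist_eq] using hw⟩)
    (fun x hx ε hε => by
      obtain ⟨i, h1, δ, hδ, h2⟩ := hden x.1.1 ε hε
      have hx' : x.1.2 = 0 := hx
      refine ⟨⟨(i, 0), Or.inl rfl⟩, rfl, ?_, δ, hδ, fun y hy h3 => ?_⟩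
      · simp [Subtype.dist_eq, Prod.dist_eq, hx', h1, hε]
      · refine Subtype.ext (Prod.ext (h2 _ ?_) hy)
        exact (le_max_left _ _).trans_lt h3)
    (Set.infinite_of_injective_forall_mem (f := fun x : P.Y => (⟨(x, 0), Or.inl rfl⟩ : Ys))
      (fun a b e => congrArg (fun z : Ys => z.1.1) e) fun _ => rfl)
  refine ⟨Pres.mk' Ys c' hd hr, Subtype.val, bs, ⟨H.trans
    { toFun := fun w => w.1.1.1
      invFun := fun x => ⟨⟨(x, 0), Or.inl rfl⟩, rfl⟩
      left_inv := fun w => Subtype.ext (Subtype.ext (Prod.ext rfl (Eq.symm w.2)))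
      right_inv := fun _ => rfl
      continuous_toFun := by fun_prop
      continuous_invFun := by fun_prop }⟩, hbs, fun _ _ => rfl, fun _ => rfl, hht, fun y => y.2,
    fun e n v h => ⟨⟨_, Or.inr ⟨e, n, v, h, rfl⟩⟩, rfl⟩⟩

theorem caseA (P : Pres) (hi : Function.Injective P.c) [Infinite P.Y]
    (hden : ∀ (x : P.Y) (ε : ℝ), 0 < ε → ∃ i, dist i x < ε ∧ ∃ δ > 0, ∀ y, dist y i < δ → y = i) :
    ∃ M N : Pres, Nonempty (M.Y ≃ₜ P.Y) ∧ Nonempty (N.Y ≃ₜ P.Y) ∧
      ∀ g : M.Y → N.Y, Function.Bijective g → ¬ Commit M N g := by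
  have hf : ∀ e n n' v v', E e 0 n = some v → E e 0 n' = some v' → v = v' :=
    fun e n n' v v' h h' => Option.some.inj
      ((E_mono h (le_max_left n n')).symm.trans (E_mono h' (le_max_right n n')))
  obtain ⟨M, j, bs, hM, hbs, m1, m2, m3, m4, m5⟩ := twin P hi hden (fun e n => E e 0 n)
    (by fun_prop) hf
  obtain ⟨N, j', bs', hN, hbs', n1, n2, n3, n4, n5⟩ := twin P hi hden
    (fun e _ => some (Nat.pair 0 (Nat.pair 1 e))) (by fun_prop)
    (fun e n n' v v' h h' => Option.some.inj (h.symm.trans h'))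
  have etw : ∀ e, tw P e (Nat.pair 0 (Nat.pair 1 e)) = (P.c e, 1 / 2 ^ e) := fun e => by simp [tw]
  choose p hp using fun t => n5 t 0 _ rfl
  simp only [etw] at hp
  have jinj : Function.Injective j' := fun x y e => by
    rw [← dist_eq_zero, n1, e, dist_self]
  have jinj0 : Function.Injective j := fun x y e => by
    rw [← dist_eq_zero, m1, e, dist_self]
  have iso : ∀ t y, dist y (p t) < 1 / 2 ^ (t + 1) → y = p t := by
    intro t y hy
    have h1 : |(j' y).2 - 1 / 2 ^ t| < 1 / 2 ^ (t + 1) := by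
      rw [n1, hp, Prod.dist_eq] at hy
      exact (le_max_right _ _).trans_lt hy
    have e1 : (1 : ℝ) / 2 ^ t = 2 * (1 / 2 ^ (t + 1)) := by field_simp; ring
    have e0 : (0 : ℝ) < 1 / 2 ^ (t + 1) := by positivity
    rw [abs_lt] at h1
    rcases n4 y with h | ⟨e, n, v, h, h2⟩
    · rw [h] at h1; linarith [h1.1]
    · rw [← Option.some.inj h, etw] at h2
      rw [h2] at h1
      rcases lt_trichotomy e t with k | k | k
      · have := inv2_le (show e + 1 ≤ t from k)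
        have e2 : (1 : ℝ) / 2 ^ e = 2 * (1 / 2 ^ (e + 1)) := by field_simp; ring
        linarith [h1.2]
      · exact jinj (by rw [h2, hp, k])
      · have := inv2_le (show t + 1 ≤ e from k)
        linarith [h1.1]
  refine ⟨M, N, hM, hN, fun g hg ⟨ok, ci, ck, cj, cl, c1, c2, c3, c4, c5, c6, c7⟩ => ?_⟩
  have hr1 : CR fun q : ℕ × ℕ => dist (N.c (cj q.2)) (p q.1) :=
    ((P.cr (f := fun q : ℕ × ℕ => bs' (cj q.2)) (g := fun q => q.1) (by fun_prop)
      (by fun_prop)).max ((n3.comp (g := fun q : ℕ × ℕ => cj q.2) (by fun_prop)).sub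
        (CR.inv2 (f := fun q : ℕ × ℕ => q.1) (by fun_prop))).abs).of_eq fun q => by
      rw [n1, hp, Prod.dist_eq, n2, Real.dist_eq]
  obtain ⟨T1, hT1, a1, a2⟩ := hr1.test (k := fun q => q.1 + 4) (by fun_prop)
  obtain ⟨T2, hT2, b1, b2⟩ := (m3.comp (g := fun q : ℕ × ℕ => ci q.2) (by fun_prop)).test
    (k := fun q => q.1 + 3) (by fun_prop)
  have key : ∀ t n, ok n = true → cl n = t + 4 → T1 (t, n) = true → ∀ y,
      dist y (M.c (ci n)) ≤ 1 / 2 ^ ck n → g y = p t := by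
    intro t n h1 h2 h3 y hy
    have k1 := c6 n h1 y hy
    have k2 := a1 _ h3
    have k3 := dist_triangle (g y) (N.c (cj n)) (p t)
    have e1 : (1 : ℝ) / 2 ^ (t + 1) = 8 * (1 / 2 ^ (t + 4)) := by field_simp; ring
    have e2 : (3 : ℝ) / 2 ^ (t + 4) = 3 * (1 / 2 ^ (t + 4)) := by ring
    have e0 : (0 : ℝ) < 1 / 2 ^ (t + 4) := by positivity
    rw [h2] at k1
    simp only at k2
    exact iso t _ (by linarith)
  obtain ⟨ch, hch, hc⟩ := CI.exists_choice (O := ∅) (p := fun (e : ℕ) (q : ℕ × ℕ) =>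
      ok q.2 && decide (cl q.2 = q.1 + 4) && T1 q && decide (e ≤ bs (ci q.2)) && T2 (e, q.2))
      (by fun_prop) (fun e => by
    choose x hx using fun t => hg.2 (p t)
    choose nn h1 h2 h3 using fun t => c7 (x t) (t + 4)
    have h4 : ∀ t, T1 (t, nn t) = true := fun t => a2 _ (by
      have := c6 _ (h1 t) (x t) ((h3 t).le.trans (inv2_le (by omega)))
      rwa [hx, h2, dist_comm] at this)
    have h5 : ∀ t, g (M.c (ci (nn t))) = p t := fun t =>
      key t _ (h1 t) (h2 t) (h4 t) _ (by rw [dist_self]; positivity)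
    have h6 : Function.Injective fun t => j (M.c (ci (nn t))) := fun s t h => by
      have : p s = p t := by rw [← h5, ← h5, jinj0 h]
      have := congrArg (fun y => (j' y).1) this
      simp only [hp] at this
      exact hi this
    obtain ⟨_, ⟨t, rfl⟩, ht⟩ := (Set.infinite_range_of_injective h6).exists_notMem_finite
      ((tw_fin P (fun e n => E e 0 n) hf (e + 3)).union
        ((Set.finite_le_nat e).image fun i => (P.c i, (0 : ℝ))))
    refine ⟨(t, nn t), ?_⟩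
    simp only [h1, h2, h4, decide_true, Bool.and_self, Bool.true_and, Bool.and_eq_true,
      decide_eq_true_eq]
    rcases m4 (M.c (ci (nn t))) with h | ⟨e', n, v, h, h7⟩
    · refine ⟨by_contra fun hlt => ht (Or.inr ⟨bs (ci (nn t)), (not_le.1 hlt).le, ?_⟩),
        b2 _ (by simp only [h]; positivity)⟩
      exact Prod.ext (m2 _).symm h.symm
    · have he : e + 3 < e' := by_contra fun hlt => ht (Or.inl ⟨e', not_lt.1 hlt, n, v, h, h7⟩)
      have h8 := m2 (ci (nn t))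
      rw [h7] at h8
      have := hi h8
      refine ⟨by omega, b2 _ ?_⟩
      simp only [h7]
      exact (min_le_left _ _).trans (inv2_le he.le))
  obtain ⟨a, ha, ha'⟩ := m3.nn
  obtain ⟨e, he⟩ := diag (fun e _ _ => some (Nat.pair (bs (ci (ch e).2) - e)
    (Nat.pair (a (ci (ch e).2) (ck (ch e).2 + e + 4) + 3) (ck (ch e).2 + e + 4)))) (by
      have : CI ∅ fun q : ℕ × ℕ × ℕ => a (ci (ch q.1).2) (ck (ch q.1).2 + q.1 + 4) :=
        ci2 ha (by fun_prop) (by fun_prop)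
      fun_prop)
  obtain ⟨n, v, hv⟩ := (he 0).2 0 _ rfl
  obtain ⟨-, hv'⟩ := (he 0).1 n v hv
  obtain ⟨y, hy⟩ := m5 e n v hv
  have hc' := hc e
  simp only [Bool.and_eq_true, decide_eq_true_eq] at hc'
  obtain ⟨⟨⟨⟨d1, d2⟩, d3⟩, d4⟩, d5⟩ := hc'
  set t := (ch e).1
  set m := (ch e).2
  set L := ck m + e + 4 with hL
  have hh0 : 0 ≤ (j (M.c (ci m))).2 := by
    rcases m4 (M.c (ci m)) with h | ⟨e', n, v, h, h7⟩
    · exact h.ge
    · rw [h7]; exact le_min (by positivity) (by positivity)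
  have k1 := ha' (ci m) L
  rw [max_eq_left hh0, abs_le] at k1
  have k2 := b1 _ d5
  simp only at k2
  have e0 : (0 : ℝ) < 1 / 2 ^ L := by positivity
  have e1 : (1 : ℝ) / 2 ^ L ≤ 1 / 2 ^ (e + 4) := inv2_le (by omega)
  have e2 : (1 : ℝ) / 2 ^ L ≤ 1 / 2 ^ (ck m + 3) := inv2_le (by omega)
  have e3 : (1 : ℝ) / 2 ^ e = 16 * (1 / 2 ^ (e + 4)) := by field_simp; ring
  have e4 : (3 : ℝ) / 2 ^ (e + 3) = 6 * (1 / 2 ^ (e + 4)) := by field_simp; ring
  have e5 : (1 : ℝ) / 2 ^ ck m = 8 * (1 / 2 ^ (ck m + 3)) := by field_simp; ring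
  have e6 : (2 : ℝ) / 2 ^ L = 2 * (1 / 2 ^ L) := by ring
  have e7 : ((a (ci m) L + 3 : ℕ) : ℝ) / 2 ^ L = a (ci m) L / 2 ^ L + 3 * (1 / 2 ^ L) := by
    push_cast; ring
  have hy2 : j y = (P.c (bs (ci m)), (a (ci m) L : ℝ) / 2 ^ L + 3 * (1 / 2 ^ L)) := by
    rw [hy, ← Option.some.inj hv']
    simp only [tw, Nat.unpair_pair, Nat.sub_add_cancel d4, e7]
    rw [min_eq_right (by linarith [k1.1])]
  have k3 : g y = p t := key t m d1 d2 d3 y (by
    rw [m1, hy2, Prod.dist_eq, m2, dist_self, Real.dist_eq]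
    refine max_le (by positivity) (abs_le.2 ⟨?_, ?_⟩) <;> linarith [k1.1, k1.2])
  have k4 : g (M.c (ci m)) = p t := key t m d1 d2 d3 _ (by rw [dist_self]; positivity)
  have k5 := congrArg (fun z => (j z).2) (hg.1 (k3.trans k4.symm))
  simp only [hy2] at k5
  linarith [k1.2]

end Pool.Agent.H83.Tcc
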