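import Mathlib
import Pool.Agent.H83.Tcc2

/-! A closed embedding into `c₀` and the presentation with walls. -/

set_option autoImplicit false

namespace Pool.Agent.H83.Tcc

open Pool.Agent.H37 Filter Topology Metric BoundedContinuousFunction

noncomputable def dl (P : Pres) (t : ℕ) (x : P.Y) : ℝ := infDist x (P.c '' Set.Iic t)

theorem dl_nonneg (P : Pres) (t : ℕ) (x : P.Y) : 0 ≤ dl P t x := infDist_nonneg
theorem dl_le (P : Pres) {s t : ℕ} (h : s ≤ t) (x : P.Y) : dl P t x ≤ dist x (P.c s) :=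
  infDist_le_dist_of_mem ⟨s, h, rfl⟩
theorem dl_zero (P : Pres) {s t : ℕ} (h : s ≤ t) : dl P t (P.c s) = 0 :=
  infDist_zero_of_mem ⟨s, h, rfl⟩
theorem dl_eq (P : Pres) (t : ℕ) (x : P.Y) : ∃ s ≤ t, dl P t x = dist x (P.c s) := by
  obtain ⟨_, ⟨s, hs, rfl⟩, h⟩ := ((Set.finite_Iic t).image P.c).isCompact.exists_infDist_eq_dist
    ⟨_, 0, Nat.zero_le t, rfl⟩ x
  exact ⟨s, hs, h⟩
theorem dl_lip (P : Pres) (t : ℕ) (x y : P.Y) : dist (dl P t x) (dl P t y) ≤ dist x y := by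
  simpa [dl] using (lipschitz_infDist_pt (P.c '' Set.Iic t)).dist_le_mul x y
theorem dl_cont (P : Pres) (t : ℕ) : Continuous (dl P t) := continuous_infDist_pt _

theorem dl_cr (P : Pres) {α : Type} [Primcodable α] {f g : α → ℕ} (hf : CI ∅ f) (hg : CI ∅ g) :
    CR fun a => dl P (f a) (P.c (g a)) := by
  have h0 := P.cr hg (CI.const 0)
  refine (h0.sub (CR.sup (x := fun a m => dist (P.c (g a)) (P.c 0) - dist (P.c (g a)) (P.c m))
    ((P.cr (by fun_prop) (by fun_prop)).sub (P.cr (by fun_prop) (by fun_prop)))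
    (N := fun a => f a + 1) (by fun_prop)
    (y := fun a => dist (P.c (g a)) (P.c 0) - dl P (f a) (P.c (g a)))
    (fun a => sub_nonneg.2 (dl_le P (Nat.zero_le _) _))
    (fun a m hm => by linarith [dl_le P (Nat.lt_succ_iff.1 hm) (P.c (g a))])
    (fun a ε _ h => ?_))).of_eq fun a => by ring
  obtain ⟨s, hs, e⟩ := dl_eq P (f a) (P.c (g a))
  rw [e]
  exact h s (by omega)

noncomputable def bc (g : ℕ → ℝ) (C : ℝ) (h : ∀ t, |g t| ≤ C) : ℕ →ᵇ ℝ :=
  ofNormedAddCommGroupDiscrete g C h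

@[simp] theorem bc_apply (g : ℕ → ℝ) (C : ℝ) (h : ∀ t, |g t| ≤ C) (t : ℕ) : bc g C h t = g t := rfl

noncomputable def io (P : Pres) (x : P.Y) : ℕ →ᵇ ℝ :=
  bc (fun t => dl P t x) (dist x (P.c 0)) fun t => by
    rw [abs_of_nonneg (dl_nonneg P t x)]; exact dl_le P (Nat.zero_le _) x

@[simp] theorem io_apply (P : Pres) (x : P.Y) (t : ℕ) : io P x t = dl P t x := rfl

theorem io_lip (P : Pres) (x y : P.Y) : dist (io P x) (io P y) ≤ dist x y :=
  (dist_le dist_nonneg).2 fun t => dl_lip P t x y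

theorem io_cont (P : Pres) : Continuous (io P) :=
  (LipschitzWith.of_dist_le_mul (K := 1) fun x y => by simpa using io_lip P x y).continuous

theorem io_cauchy (P : Pres) (u : ℕ → P.Y) (h : CauchySeq fun n => io P (u n)) : CauchySeq u := by
  classical
  obtain ⟨ξ, hξ⟩ := cauchySeq_tendsto_of_complete h
  rw [Metric.tendsto_atTop] at hξ
  refine Metric.cauchySeq_iff.2 fun ε hε => ?_
  have hex : ∃ t, ξ t < ε / 2 := by
    obtain ⟨K, hK⟩ := hξ (ε / 4) (by positivity)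
    obtain ⟨t, ht⟩ := P.dense.exists_dist_lt (u K) (show 0 < ε / 4 by positivity)
    have h1 := (dist_coe_le_dist t).trans_lt (hK K le_rfl)
    have h2 := dl_le P le_rfl (t := t) (u K)
    rw [Real.dist_eq, abs_lt, io_apply] at h1
    exact ⟨t, by linarith [h1.1]⟩
  have h0 := Nat.find_spec hex
  obtain ⟨K, hK⟩ := hξ ((ε / 2 - ξ (Nat.find hex)) / 2) (by linarith)
  have key : ∀ n ≥ K, dist (u n) (P.c (Nat.find hex)) < ε / 2 := by
    intro n hn
    obtain ⟨s, hs, e⟩ := dl_eq P (Nat.find hex) (u n)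
    have h1 := (dist_coe_le_dist (Nat.find hex)).trans_lt (hK n hn)
    rw [Real.dist_eq, abs_lt, io_apply] at h1
    rcases hs.lt_or_eq with hs | rfl
    · have h2 := (dist_coe_le_dist s).trans_lt (hK n hn)
      rw [Real.dist_eq, abs_lt, io_apply] at h2
      have h3 := not_lt.1 (Nat.find_min hex hs)
      have h4 := dl_le P le_rfl (t := s) (u n)
      linarith [h1.2, h2.1]
    · linarith [h1.2]
  refine ⟨K, fun m hm n hn => ?_⟩
  linarith [key m hm, key n hn, dist_triangle_right (u m) (u n) (P.c (Nat.find hex))]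

theorem cr_bdist (F : ℕ → ℕ →ᵇ ℝ) (h0 : ∀ i t, (i + 1) ^ 2 ≤ t → F i t = 0)
    (h : CR fun p : ℕ × ℕ => F p.1 p.2) : CR fun p : ℕ × ℕ => dist (F p.1) (F p.2) := by
  refine CR.sup (x := fun (p : ℕ × ℕ) t => |F p.1 t - F p.2 t|)
    ((h.comp (g := fun q : (ℕ × ℕ) × ℕ => (q.1.1, q.2)) (by fun_prop)).sub
      (h.comp (g := fun q : (ℕ × ℕ) × ℕ => (q.1.2, q.2)) (by fun_prop))).abs
    (N := fun p => (p.1 + 1) ^ 2 + (p.2 + 1) ^ 2) (by fun_prop) (fun _ => dist_nonneg)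
    (fun p t _ => dist_coe_le_dist (f := F p.1) (g := F p.2) t) fun p ε hε h1 => (dist_le hε).2 fun t => ?_
  by_cases ht : t < (p.1 + 1) ^ 2 + (p.2 + 1) ^ 2
  · exact h1 t ht
  · rw [h0 _ _ (by omega), h0 _ _ (by omega), dist_self]; exact hε

noncomputable def xi {X : Type} (β : ℕ → X → ℝ) (h : ∀ a x, |β a x| ≤ 1 / 2 ^ a) (x : X) : ℕ →ᵇ ℝ :=
  bc (fun a => β a x) 1 fun a => (h a x).trans (by simpa using inv2_le (Nat.zero_le a))

@[simp] theorem xi_apply {X : Type} (β : ℕ → X → ℝ) (h : ∀ a x, |β a x| ≤ 1 / 2 ^ a) (x : X)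
    (a : ℕ) : xi β h x a = β a x := rfl

theorem xi_cont {X : Type} [TopologicalSpace X] (β : ℕ → X → ℝ) (h : ∀ a x, |β a x| ≤ 1 / 2 ^ a)
    (hc : ∀ a, Continuous (β a)) : Continuous (xi β h) := by
  refine continuous_iff_continuousAt.2 fun x => Metric.tendsto_nhds.2 fun ε hε => ?_
  obtain ⟨A, hA⟩ := eventually_atTop.1 (ev_lt 2 (half_pos hε))
  have : ∀ᶠ y in 𝓝 x, ∀ a ∈ Set.Iio A, dist (β a y) (β a x) < ε / 2 :=
    (eventually_all_finite (Set.finite_Iio A)).2 fun a _ =>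
      Metric.tendsto_nhds.1 ((hc a).tendsto x) _ (half_pos hε)
  refine this.mono fun y hy => ((dist_le (half_pos hε).le).2 fun a => ?_).trans_lt
    (half_lt_self hε)
  by_cases ha : a < A
  · exact (hy a ha).le
  · have h1 := hA a (not_lt.1 ha)
    have h2 := abs_sub (β a y) (β a x)
    have h3 : (2 : ℝ) / 2 ^ a = 1 / 2 ^ a + 1 / 2 ^ a := by ring
    rw [xi_apply, xi_apply, Real.dist_eq]
    linarith [h a x, h a y]

theorem walls (P : Pres) (hi : Function.Injective P.c) :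
    ∃ (N : Pres) (h : P.Y ≃ₜ N.Y) (Zo : ℕ → ℕ → Option ℕ), (∀ i, N.c i = h (P.c i)) ∧
      (∀ x y, dist x y ≤ dist (h x) (h y)) ∧ CI ∅ (fun p : ℕ × ℕ => Zo p.1 p.2) ∧
      ∀ e n v, E e 0 n = some v → ∃ Z, (∀ n' Z', Zo e n' = some Z' → Z' = Z) ∧ Zo e n = some Z ∧
        ∀ y : ℕ → P.Y, (∀ k, dist (h (y k)) (N.c v.unpair.1) < 1 / 2 ^ e) →
          (∀ k, dist (y k) (y (k + 1)) ≤ 2 / 2 ^ Z) →
          ∀ k, dist (y 0) (y k) ≤ 1 / 2 ^ v.unpair.2 := by
  classical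
  obtain ⟨Ω, hΩ, sep⟩ := P.exists_sep hi
  let W : ℕ → ℕ → Option ℕ := fun e n => (List.range (n + 1)).find? fun s => (E e 0 s).isSome
  have hW : CI ∅ fun p : ℕ × ℕ => W p.1 p.2 := by fun_prop
  let Lst : ℕ → ℕ → Prop := fun e s => (E e 0 s).isSome = true ∧ ∀ j < s, (E e 0 j).isSome = false
  have W1 : ∀ e n s, W e n = some s ↔ Lst e s ∧ s ≤ n := fun e n s => by
    simp only [W, Lst, List.find?_range_eq_some, List.mem_range, Nat.lt_succ_iff,
      Bool.not_eq_eq_eq_not, Bool.not_true]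
    tauto
  have L1 : ∀ e s s', Lst e s → Lst e s' → s = s' := fun e s s' h h' => by
    rcases lt_trichotomy s s' with k | k | k
    · simpa [h.1] using h'.2 s k
    · exact k
    · simpa [h'.1] using h.2 s' k
  let σ : ℕ → ℕ → ℕ := fun e s => s + e + ((E e 0 s).getD 0).unpair.1
  let Z : ℕ → ℕ → ℕ := fun e s => Ω (σ e s) + ((E e 0 s).getD 0).unpair.2 + 3
  have hσ : CI ∅ fun p : ℕ × ℕ => σ p.1 p.2 := by fun_prop
  have hZ : CI ∅ fun p : ℕ × ℕ => Z p.1 p.2 := by fun_prop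
  let b : ℕ → ℕ → P.Y → ℝ := fun e s x => 1 / 2 ^ e * min 1 (2 ^ Z e s * dl P (σ e s) x)
  have b0 : ∀ e s i, i ≤ σ e s → b e s (P.c i) = 0 := fun e s i h => by
    simp [b, dl_zero P h]
  let β : ℕ → P.Y → ℝ := fun e x => if h : ∃ s, Lst e s then b e h.choose x else 0
  have β1 : ∀ e s, Lst e s → ∀ x, β e x = b e s x := fun e s hs x => by
    have h : ∃ s, Lst e s := ⟨s, hs⟩
    simp only [β, dif_pos h]
    rw [L1 e _ _ h.choose_spec hs]
  have β2 : ∀ e, (¬ ∃ s, Lst e s) → ∀ x, β e x = 0 := fun e h x => by simp only [β, dif_neg h]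
  have βb : ∀ e x, |β e x| ≤ 1 / 2 ^ e := fun e x => by
    by_cases h : ∃ s, Lst e s
    · obtain ⟨s, hs⟩ := h
      have := dl_nonneg P (σ e s) x
      rw [β1 e s hs, abs_of_nonneg (mul_nonneg (by positivity) (le_min zero_le_one (by positivity)))]
      exact mul_le_of_le_one_right (by positivity) (min_le_left _ _)
    · rw [β2 e h, abs_zero]; positivity
  have βc : ∀ e, Continuous (β e) := fun e => by
    by_cases h : ∃ s, Lst e s
    · obtain ⟨s, hs⟩ := h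
      rw [funext (β1 e s hs)]
      have := dl_cont P (σ e s)
      fun_prop
    · rw [funext (β2 e h)]; fun_prop
  have βr : CR fun p : ℕ × ℕ => β p.2 (P.c p.1) := by
    have h1 : CI ∅ fun p : ℕ × ℕ => W p.2 p.1 := hW.comp (g := fun p : ℕ × ℕ => (p.2, p.1))
      (by fun_prop)
    have h2 : CI ∅ fun p : ℕ × ℕ => σ p.2 ((W p.2 p.1).getD 0) := ci2 hσ (by fun_prop) (by fun_prop)
    have h3 : CI ∅ fun p : ℕ × ℕ => Z p.2 ((W p.2 p.1).getD 0) := ci2 hZ (by fun_prop) (by fun_prop)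
    refine (CR.cond h1.isSome ((CR.inv2 (f := fun p : ℕ × ℕ => p.2) (by fun_prop)).mul
      (CR.one.min ((CR.pow2 h3).mul (dl_cr P h2 (g := fun p : ℕ × ℕ => p.1) (by fun_prop)))))
      CR.zero).of_eq fun p => ?_
    rcases hw : W p.2 p.1 with _ | s
    · by_cases h : ∃ s, Lst p.2 s
      · obtain ⟨s, hs⟩ := h
        have : p.1 < s := by
          by_contra hlt
          rw [(W1 _ _ _).2 ⟨hs, not_lt.1 hlt⟩] at hw
          cases hw
        rw [β1 _ s hs, b0 _ _ _ (by simp only [σ]; omega)]; rfl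
      · rw [β2 _ h]; rfl
    · rw [β1 _ s ((W1 _ _ _).1 hw).1]; rfl
  obtain ⟨N, h, h1, h2⟩ := P.induced (fun x => (x, xi β βb x))
    (continuous_id.prodMk (xi_cont β βb βc))
    (fun u hu => uniformContinuous_fst.comp_cauchySeq hu)
    ((P.cr (by fun_prop) (by fun_prop)).max (cr_bdist (fun i => xi β βb (P.c i)) (fun i t ht => by
      by_cases h : ∃ s, Lst t s
      · obtain ⟨s, hs⟩ := h
        rw [xi_apply, β1 _ s hs, b0 _ _ _ (by simp only [σ]; nlinarith)]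
      · exact β2 _ h _) βr))
  refine ⟨N, h, fun e n => (W e n).map (Z e), h1, fun x y => by rw [h2]; exact le_max_left _ _,
    CI.optMap (ci2 hZ (by fun_prop) (by fun_prop)) hW, fun e n v hv => ?_⟩
  have hex : ∃ s, (E e 0 s).isSome = true := ⟨n, by simp [hv]⟩
  have hs : Lst e (Nat.find hex) := ⟨Nat.find_spec hex, fun j hj => by simpa using Nat.find_min hex hj⟩
  have hn : Nat.find hex ≤ n := Nat.find_min' _ (by simp [hv])
  set s := Nat.find hex
  have hv' : (E e 0 s).getD 0 = v := by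
    obtain ⟨v', hv'⟩ := Option.isSome_iff_exists.1 hs.1
    rw [hv', Option.getD_some]
    exact Option.some.inj ((E_mono hv' hn).symm.trans hv)
  refine ⟨Z e s, fun n' Z' h' => ?_, by simp only [(W1 e n s).2 ⟨hs, hn⟩, Option.map_some],
    fun y hy hst => ?_⟩
  · obtain ⟨s', k1, rfl⟩ := Option.map_eq_some_iff.1 h'
    rw [L1 e _ _ ((W1 _ _ _).1 k1).1 hs]
  have e0 : (0 : ℝ) < 1 / 2 ^ Z e s := by positivity
  have nr : ∀ k, ∃ t ≤ σ e s, dist (y k) (P.c t) < 1 / 2 ^ Z e s := by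
    intro k
    have k1 := hy k
    rw [h1, h2] at k1
    have k2 := (dist_coe_le_dist e).trans_lt ((le_max_right _ _).trans_lt k1)
    rw [xi_apply, xi_apply, β1 e s hs, β1 e s hs, b0 _ _ _ (by simp only [σ, hv']; omega),
      Real.dist_eq, sub_zero] at k2
    have k3 := (le_abs_self _).trans_lt k2
    have k4 : min 1 (2 ^ Z e s * dl P (σ e s) (y k)) < 1 := by
      by_contra hlt
      have : (1 : ℝ) / 2 ^ e * 1 ≤ b e s (y k) :=
        mul_le_mul_of_nonneg_left (not_lt.1 hlt) (by positivity)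
      linarith
    obtain ⟨t, ht, e1⟩ := dl_eq P (σ e s) (y k)
    refine ⟨t, ht, ?_⟩
    rw [← e1, lt_div_iff₀ (by positivity), mul_comm]
    simpa using k4
  obtain ⟨t0, ht0, h0⟩ := nr 0
  have e1 : (1 : ℝ) / 2 ^ Z e s ≤ 1 / 2 ^ (Ω (σ e s) + 3) := inv2_le (by simp only [Z]; omega)
  have e2 : (1 : ℝ) / 2 ^ Z e s ≤ 1 / 2 ^ (v.unpair.2 + 1) := inv2_le (by simp only [Z, hv']; omega)
  have e3 : (1 : ℝ) / 2 ^ Ω (σ e s) = 8 * (1 / 2 ^ (Ω (σ e s) + 3)) := by field_simp; ring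
  have e4 : (1 : ℝ) / 2 ^ v.unpair.2 = 2 * (1 / 2 ^ (v.unpair.2 + 1)) := by field_simp; ring
  have e5 : (2 : ℝ) / 2 ^ Z e s = 2 * (1 / 2 ^ Z e s) := by ring
  have all : ∀ k, dist (y k) (P.c t0) < 1 / 2 ^ Z e s := by
    intro k
    induction k with
    | zero => exact h0
    | succ k ih =>
      obtain ⟨t, ht, k1⟩ := nr (k + 1)
      by_cases htt : t0 = t
      · rwa [htt]
      · have k2 := sep _ _ _ ht0 ht htt
        have k3 := dist_triangle4 (P.c t0) (y k) (y (k + 1)) (P.c t)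
        rw [dist_comm (P.c t0) (y k)] at k3
        linarith [hst k]
  intro k
  linarith [all 0, all k, dist_triangle_right (y 0) (y k) (P.c t0)]

end Pool.Agent.H83.Tcc
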