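import Mathlib
import Pool.Agent.H83.Tcc5

/-! The presentation with moving chains. -/

set_option autoImplicit false

namespace Pool.Agent.H83.Tcc

open Pool.Agent.H37 Filter Topology Metric BoundedContinuousFunction

theorem states (s ρ Ω : ℕ → ℕ) (q : ℕ → ℕ → ℕ) (T : ℕ × ℕ × ℕ → Bool) (hs : CI ∅ s) (hρ : CI ∅ ρ)
    (hΩ : CI ∅ Ω) (hq : CI ∅ fun p : ℕ × ℕ => q p.1 p.2) (hT : CI ∅ T) :
    ∃ (y r jj mm : ℕ → ℕ → ℕ) (R : ℕ → ℕ → ℝ) (ac : ℕ → ℕ → Bool),
      CI ∅ (fun p : ℕ × ℕ => r p.1 p.2) ∧ CI ∅ (fun p : ℕ × ℕ => jj p.1 p.2) ∧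
      CR (fun p : ℕ × ℕ => R p.1 p.2) ∧ CI ∅ (fun p : ℕ × ℕ => ac p.1 p.2) ∧
      (∀ e, y e 0 = s e ∧ r e 0 = ρ e ∧ R e 0 = 1) ∧
      (∀ e n v, E e (y e n + 1) n = some v → v = Nat.pair (jj e n) (mm e n)) ∧
      (∀ e n, ac e n = true ↔ (E e (y e n + 1) n).isSome = true ∧ y e n < n ∧ q e (jj e n) < n ∧
        e < n ∧ T (n, y e n, r e n + mm e n + 2) = true) ∧
      (∀ e n, ac e n = true → y e (n + 1) = n ∧ r e (n + 1) = r e n + mm e n + Ω n + 3 ∧
        R e (n + 1) = R e n - R e n / 2 ^ mm e n) ∧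
      ∀ e n, ac e n = false → y e (n + 1) = y e n ∧ r e (n + 1) = r e n ∧ R e (n + 1) = R e n := by
  let v : ℕ → ℕ → ℕ × ℕ × ℕ × ℕ → ℕ × ℕ := fun e n x => ((E e (x.1 + 1) n).getD 0).unpair
  have hv : CI ∅ fun p : ℕ × ℕ × (ℕ × ℕ × ℕ × ℕ) => v p.1 p.2.1 p.2.2 := by fun_prop
  let a : ℕ → ℕ → ℕ × ℕ × ℕ × ℕ → Bool := fun e n x => (E e (x.1 + 1) n).isSome &&
    decide (x.1 < n) && decide (q e (v e n x).1 < n) && decide (e < n) &&
    T (n, x.1, x.2.1 + (v e n x).2 + 2)
  have ha : CI ∅ fun p : ℕ × ℕ × (ℕ × ℕ × ℕ × ℕ) => a p.1 p.2.1 p.2.2 := by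
    have : CI ∅ fun p : ℕ × ℕ × (ℕ × ℕ × ℕ × ℕ) => q p.1 (v p.1 p.2.1 p.2.2).1 :=
      ci2 hq (by fun_prop) hv.fst
    fun_prop
  let step : ℕ → ℕ → ℕ × ℕ × ℕ × ℕ → ℕ × ℕ × ℕ × ℕ := fun e n x => cond (a e n x)
    (n, x.2.1 + (v e n x).2 + Ω n + 3, x.2.2.1 * (2 ^ (v e n x).2 - 1), x.2.2.2 + (v e n x).2) x
  have hstep : CI ∅ fun p : ℕ × ℕ × (ℕ × ℕ × ℕ × ℕ) => step p.1 p.2.1 p.2.2 :=
    CI.cond ha (by have := hv.snd; fun_prop) (by fun_prop)
  let st : ℕ → ℕ → ℕ × ℕ × ℕ × ℕ := fun e n => Nat.rec (s e, ρ e, 1, 0) (step e) n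
  have hst : CI ∅ fun p : ℕ × ℕ => st p.1 p.2 :=
    CI.of_rec (g := fun e => (s e, ρ e, 1, 0)) (h := step) (by fun_prop) hstep (fun _ => rfl)
      fun _ _ => rfl
  have hst' : CI ∅ fun p : ℕ × ℕ => (p.1, p.2, st p.1 p.2) := by fun_prop
  have e1 : ∀ e n, st e (n + 1) = step e n (st e n) := fun _ _ => rfl
  refine ⟨fun e n => (st e n).1, fun e n => (st e n).2.1, fun e n => (v e n (st e n)).1,
    fun e n => (v e n (st e n)).2, fun e n => ((st e n).2.2.1 : ℝ) / 2 ^ (st e n).2.2.2,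
    fun e n => a e n (st e n), hst.snd.fst, (hv.comp hst').fst,
    ((CR.nat hst.snd.snd.fst).mul (CR.inv2 hst.snd.snd.snd)).of_eq fun p => by ring,
    ha.comp hst', fun e => ⟨rfl, rfl, by simp [st]⟩, fun e n w h => by simp [v, h],
    fun e n => by simp [a, and_assoc], fun e n h => ?_, fun e n h => ?_⟩
  · simp only [e1, step, h, cond_true, true_and]
    rw [Nat.cast_mul, Nat.cast_sub Nat.one_le_two_pow]
    push_cast
    field_simp
    ring
  · simp only [e1, step, h, cond_false, and_self]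

theorem moves (P : Pres) (hi : Function.Injective P.c) (s ρ : ℕ → ℕ) (q : ℕ → ℕ → ℕ)
    (hs : CI ∅ s) (hρ : CI ∅ ρ) (hq : CI ∅ fun p : ℕ × ℕ => q p.1 p.2)
    (hdis : ∀ e e' x, dist x (P.c (s e)) ≤ 1 / 2 ^ ρ e → dist x (P.c (s e')) ≤ 1 / 2 ^ ρ e' → e = e')
    (hni : ∀ e x, dist x (P.c (s e)) ≤ 1 / 2 ^ ρ e → ∀ ε > 0, ∀ σ, ∃ n > σ, dist (P.c n) x < ε)
    (hq2 : ∀ e j, dist (P.c (q e j)) (P.c (s e)) ≤ 1 / 2 ^ (j + e + ρ e)) :
    ∃ (M : Pres) (h : P.Y ≃ₜ M.Y), (∀ i, M.c i = h (P.c i)) ∧ ∀ e j m0 (μ : ℕ → ℕ),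
      (∀ y n v, E e (y + 1) n = some v → v = Nat.pair j (μ y)) →
      (∀ y, ∃ n v, E e (y + 1) n = some v) → (∀ y, m0 ≤ μ y) →
      ∃ y : ℕ → ℕ, y 0 = s e ∧ (∀ n, dist (M.c (y n)) (M.c (y (n + 1))) ≤ 2 / 2 ^ μ (y n)) ∧
        (∀ n, dist (M.c (y n)) (M.c (s e)) ≤ 1 / 2 ^ m0 + 1 / 2 ^ j) ∧
        ∃ z, Tendsto (fun n => M.c (y n)) atTop (𝓝 z) ∧
          ((∃ m, ∀ᶠ n in atTop, μ (y n) ≤ m) → ∃ K, dist (M.c (y K)) (M.c (q e j)) ≤ 2 / 2 ^ m0) := by
  obtain ⟨Ω, hΩ, sep⟩ := P.exists_sep hi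
  obtain ⟨T, hT, T1, T2⟩ := (P.cr (f := fun p : ℕ × ℕ × ℕ => p.1)
    (g := fun p => p.2.1) (by fun_prop) (by fun_prop)).test (k := fun p => p.2.2) (by fun_prop)
  obtain ⟨y, r, jj, mm, R, ac, cr, cj, cR, cac, s0, sv, sa, s1, s2⟩ :=
    states s ρ Ω q T hs hρ hΩ hq hT
  have ymono : ∀ e, Monotone (y e) := fun e => monotone_nat_of_le_succ fun n => by
    cases h : ac e n
    · exact (s2 e n h).1.ge
    · rw [(s1 e n h).1]; exact ((sa e n).1 h).2.1.le
  have stp : ∀ e n, ac e n = true → dist (P.c n) (P.c (y e n)) ≤ 3 / 4 * (1 / 2 ^ r e n / 2 ^ mm e n) ∧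
      (1 : ℝ) / 2 ^ r e (n + 1) ≤ 1 / 8 * (1 / 2 ^ r e n / 2 ^ mm e n) := fun e n h => by
    have k1 := T1 _ ((sa e n).1 h).2.2.2.2
    have k2 : (1 : ℝ) / 2 ^ r e (n + 1) ≤ 1 / 2 ^ (r e n + mm e n + 3) :=
      inv2_le (by rw [(s1 e n h).2.1]; omega)
    refine ⟨k1.trans_eq ?_, k2.trans_eq ?_⟩
    · simp only; field_simp; ring
    · field_simp; ring
  have dv : ∀ (x : ℝ) (m : ℕ), 0 ≤ x → x / 2 ^ m ≤ x := fun x m hx =>
    div_le_self hx (one_le_pow₀ one_le_two)
  have nest : ∀ e n n', n ≤ n' →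
      dist (P.c (y e n')) (P.c (y e n)) + 1 / 2 ^ r e n' ≤ 1 / 2 ^ r e n := by
    intro e n n' h
    induction n', h using Nat.le_induction with
    | base => simp
    | succ n' h ih =>
      cases ha : ac e n'
      · rw [(s2 e n' ha).1, (s2 e n' ha).2.1]; exact ih
      · obtain ⟨k1, k2⟩ := stp e n' ha
        have k3 := dv (1 / 2 ^ r e n') (mm e n') (by positivity)
        have k4 : (0 : ℝ) ≤ 1 / 2 ^ r e n' / 2 ^ mm e n' := by positivity
        rw [(s1 e n' ha).1]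
        linarith [dist_triangle (P.c n') (P.c (y e n')) (P.c (y e n))]
  have inU : ∀ e n, dist (P.c (y e n)) (P.c (s e)) ≤ 1 / 2 ^ ρ e := fun e n => by
    have := nest e 0 n (Nat.zero_le _)
    rw [(s0 e).1, (s0 e).2.1] at this
    have : (0 : ℝ) ≤ 1 / 2 ^ r e n := by positivity
    linarith
  let τ : ℕ × ℕ → P.Y → ℝ := fun a x => cond (ac a.1 a.2)
    (min 1 (max (2 - 2 ^ r a.1 (a.2 + 1) * dist x (P.c a.2)) 0)) 0
  have τb : ∀ a x, 0 ≤ τ a x ∧ τ a x ≤ 1 := fun a x => by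
    simp only [τ]
    cases ac a.1 a.2
    · simp
    · exact ⟨le_min zero_le_one (le_max_right _ _), min_le_left _ _⟩
  have τc : ∀ a, Continuous (τ a) := fun a => by
    simp only [τ]
    cases ac a.1 a.2
    · exact continuous_const
    · simp only [cond_true]; fun_prop
  have τs : ∀ e n x, τ (e, n) x ≠ 0 → ac e n = true ∧ dist x (P.c n) < 2 * (1 / 2 ^ r e (n + 1)) := by
    intro e n x h
    simp only [τ] at h
    cases ha : ac e n
    · simp [ha] at h
    · refine ⟨rfl, by_contra fun hlt => h ?_⟩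
      have : (2 : ℝ) ≤ 2 ^ r e (n + 1) * dist x (P.c n) := by
        rw [not_lt, mul_one_div, div_le_iff₀ (by positivity)] at hlt
        linarith
      rw [ha, cond_true, max_eq_right (by linarith), min_eq_right zero_le_one]
  have τU : ∀ e n x, τ (e, n) x ≠ 0 → dist x (P.c (s e)) ≤ 1 / 2 ^ ρ e := by
    intro e n x h
    obtain ⟨ha, h1⟩ := τs e n x h
    obtain ⟨k1, k2⟩ := stp e n ha
    have k3 := dv (1 / 2 ^ r e n) (mm e n) (by positivity)
    have := nest e 0 n (Nat.zero_le _)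
    rw [(s0 e).1, (s0 e).2.1] at this
    linarith [dist_triangle4 x (P.c n) (P.c (y e n)) (P.c (s e))]
  have τ0 : ∀ e n t, t < n → τ (e, n) (P.c t) = 0 := by
    intro e n t ht
    by_contra h
    obtain ⟨ha, h1⟩ := τs e n _ h
    have k1 := sep n t n ht.le le_rfl ht.ne
    have k2 : (1 : ℝ) / 2 ^ r e (n + 1) ≤ 1 / 2 ^ (Ω n + 1) :=
      inv2_le (by rw [(s1 e n ha).2.1]; omega)
    have k3 : (1 : ℝ) / 2 ^ Ω n = 2 * (1 / 2 ^ (Ω n + 1)) := by field_simp; ring
    linarith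
  have τi : ∀ a i, τ a (P.c i) ≠ 0 → ac a.1 a.2 = true ∧ a.2 ≤ i := fun a i h =>
    ⟨(τs a.1 a.2 _ h).1, by_contra fun hlt => h (τ0 a.1 a.2 i (not_le.1 hlt))⟩
  have τ1 : ∀ e n N, ac e n = true → n < N → τ (e, n) (P.c (y e N)) = 1 := by
    intro e n N ha hn
    have k1 := nest e (n + 1) N hn
    rw [(s1 e n ha).1] at k1
    have k0 : (0 : ℝ) ≤ 1 / 2 ^ r e N := by positivity
    have k2 : 2 ^ r e (n + 1) * dist (P.c (y e N)) (P.c n) ≤ 1 := by
      rw [mul_comm, ← le_div_iff₀ (by positivity)]; linarith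
    simp only [τ, ha, cond_true]
    exact min_eq_left (le_max_of_le_left (by linarith))
  have τ2 : ∀ e n N, N ≤ n → τ (e, n) (P.c (y e N)) = 0 := by
    intro e n N hn
    by_contra h
    exact h (τ0 e n _ ((ymono e hn).trans_lt ((sa e n).1 (τs e n _ h).1).2.1))
  have Rb : ∀ e n, 0 ≤ R e n ∧ R e n ≤ 1 := by
    intro e n
    induction n with
    | zero => simp [(s0 e).2.2]
    | succ n ih =>
      cases ha : ac e n
      · rwa [(s2 e n ha).2.2]
      · rw [(s1 e n ha).2.2]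
        have := dv _ (mm e n) ih.1
        have : 0 ≤ R e n / 2 ^ mm e n := by have := ih.1; positivity
        constructor <;> linarith [ih.2]
  let H : ℕ × ℕ → ℝ := fun a => R a.1 a.2 - R a.1 (a.2 + 1)
  have H0 : ∀ a, 0 ≤ H a := fun a => by
    simp only [H]
    cases ha : ac a.1 a.2
    · rw [(s2 _ _ ha).2.2]; simp
    · rw [(s1 _ _ ha).2.2]
      have := (Rb a.1 a.2).1
      have : 0 ≤ R a.1 a.2 / 2 ^ mm a.1 a.2 := by positivity
      linarith
  have Hs : ∀ e N, ∑ n ∈ Finset.range N, H (e, n) = 1 - R e N := fun e N => by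
    rw [← (s0 e).2.2]; exact Finset.sum_range_sub' (R e) N
  have Hs' : ∀ e N, ∑ n ∈ Finset.range N, H (e, n) ≤ 1 := fun e N => by
    rw [Hs]; linarith [(Rb e N).1]
  let V : ℕ × ℕ → ℕ →ᵇ ℝ := fun a => H a • (io P (P.c (q a.1 (jj a.1 a.2))) - io P (P.c (s a.1)))
  have vb : ∀ e j, ‖io P (P.c (q e j)) - io P (P.c (s e))‖ ≤ 1 / 2 ^ (j + e + ρ e) := fun e j => by
    rw [← dist_eq_norm]; exact (io_lip P _ _).trans (hq2 e j)
  have Vb : ∀ a x, ‖τ a x • V a‖ ≤ H a * (1 / 2 ^ a.1) := fun a x => by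
    rw [norm_smul, norm_smul, Real.norm_of_nonneg (τb a x).1, Real.norm_of_nonneg (H0 a)]
    have h1 := (vb a.1 (jj a.1 a.2)).trans (inv2_le (show a.1 ≤ _ by omega))
    have := H0 a
    calc _ ≤ 1 * (H a * (1 / 2 ^ a.1)) := by gcongr; exact (τb a x).2
      _ = _ := one_mul _
  have Vs : Summable fun a : ℕ × ℕ => H a * (1 / 2 ^ a.1) := by
    refine (summable_prod_of_nonneg fun a => mul_nonneg (H0 a) (by positivity)).2
      ⟨fun e => (summable_of_sum_range_le (fun n => H0 _) (Hs' e)).mul_right (1 / 2 ^ e), ?_⟩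
    refine Summable.of_nonneg_of_le (fun e => tsum_nonneg fun n =>
      mul_nonneg (H0 _) (by positivity)) (fun e => ?_) summable_geometric_two
    simp only
    rw [tsum_mul_right, one_div_pow]
    exact mul_le_of_le_one_left (by positivity) (Real.tsum_le_of_sum_range_le (fun n => H0 _) (Hs' e))
  let β : ℕ → P.Y → ℝ := fun a x => 1 / 2 ^ (r a.unpair.1 (a.unpair.2 + 1) + a) * τ a.unpair x
  have βb0 : ∀ a x, |β a x| ≤ 1 / 2 ^ (r a.unpair.1 (a.unpair.2 + 1) + a) := fun a x => by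
    rw [abs_of_nonneg (mul_nonneg (by positivity) (τb _ x).1)]
    exact mul_le_of_le_one_right (by positivity) (τb _ x).2
  have βb : ∀ a x, |β a x| ≤ 1 / 2 ^ a := fun a x => (βb0 a x).trans (inv2_le (by omega))
  let Φ : P.Y → ℕ →ᵇ ℝ := fun x => io P x + ∑' a, τ a x • V a
  have Φi : ∀ i, Φ (P.c i) = io P (P.c i) + ∑ e ∈ Finset.range (i + 1),
      ∑ n ∈ Finset.range (i + 1), τ (e, n) (P.c i) • V (e, n) := fun i => by
    rw [← Finset.sum_product' (f := fun e n => τ (e, n) (P.c i) • V (e, n))]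
    simp only [Φ]
    rw [tsum_eq_sum (s := Finset.range (i + 1) ×ˢ Finset.range (i + 1))]
    intro a ha
    by_contra h
    obtain ⟨h1, h2⟩ := τi a i (left_ne_zero_of_smul h)
    have := ((sa _ _).1 h1).2.2.2.1
    exact ha (by simp only [Finset.mem_product, Finset.mem_range]; omega)
  have τr : CR fun p : (ℕ × ℕ) × ℕ => τ p.1 (P.c p.2) :=
    CR.cond (cac.comp (g := fun p : (ℕ × ℕ) × ℕ => p.1) (by fun_prop)) (CR.one.min (CR.two.sub
      ((CR.pow2 (ci2 cr (by fun_prop) (by fun_prop))).mul (P.cr (by fun_prop) (by fun_prop)))).pos)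
      CR.zero
  have Hr : CR H := cR.sub (cR.comp (g := fun a : ℕ × ℕ => (a.1, a.2 + 1)) (by fun_prop))
  obtain ⟨M, h, h1, h2⟩ := P.induced (fun x => (Φ x, xi β βb x))
    (((io_cont P).add (continuous_tsum (fun a => (τc a).smul continuous_const) Vs Vb)).prodMk
      (xi_cont β βb fun a => continuous_const.mul (τc _)))
    (fun u hu => by
      have k1 : CauchySeq fun n => Φ (u n) := uniformContinuous_fst.comp_cauchySeq hu
      obtain ⟨ξ, k2⟩ := cauchySeq_tendsto_of_complete (uniformContinuous_snd.comp_cauchySeq hu)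
      have k3 : ∀ a : ℕ × ℕ, ∃ l, Tendsto (fun n => τ a (u n)) atTop (𝓝 l) := fun a => by
        have k4 := ((continuous_eval_const (Nat.pair a.1 a.2)).tendsto ξ).comp k2
        refine ⟨_, (k4.const_mul (2 ^ (r a.1 (a.2 + 1) + Nat.pair a.1 a.2))).congr fun n => ?_⟩
        simp only [Function.comp, xi_apply, β, Nat.unpair_pair]
        field_simp
      choose l hl using k3
      have k5 := tendsto_tsum_of_dominated_convergence (f := fun n a => τ a (u n) • V a)
        (g := fun a => l a • V a) Vs (fun a => (hl a).smul_const _)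
        (Eventually.of_forall fun n a => Vb a _)
      refine io_cauchy P u ?_
      have k6 := k1.add k5.cauchySeq.neg
      have k7 : (fun n => io P (u n)) =
          ((fun n => Φ (u n)) + -fun x => ∑' a, τ a (u x) • V a) := by
        funext n; simp [Φ]
      rw [k7]; exact k6)
    ((cr_bdist (fun i => Φ (P.c i)) (fun i t ht => by
        have ht' : i ≤ t := by nlinarith
        rw [Φi, BoundedContinuousFunction.add_apply, io_apply, dl_zero P ht', zero_add,
          BoundedContinuousFunction.sum_apply]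
        refine Finset.sum_eq_zero fun e _ => ?_
        rw [BoundedContinuousFunction.sum_apply]
        refine Finset.sum_eq_zero fun n _ => ?_
        by_cases h0 : τ (e, n) (P.c i) = 0
        · simp [h0]
        obtain ⟨k1, k2⟩ := τi _ _ h0
        obtain ⟨-, k3, k4, -⟩ := (sa _ _).1 k1
        have k5 := ymono e (Nat.zero_le n)
        rw [(s0 e).1] at k5
        simp only at k2 k3 k4
        simp [V, dl_zero P (show q e (jj e n) ≤ t by omega), dl_zero P (show s e ≤ t by omega)])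
      (((dl_cr P (f := fun p : ℕ × ℕ => p.2) (g := fun p => p.1) (by fun_prop) (by fun_prop)).add
        (CR.sum (x := fun (p : ℕ × ℕ) e => ∑ n ∈ Finset.range (p.1 + 1), τ (e, n) (P.c p.1) *
          (H (e, n) * (dl P p.2 (P.c (q e (jj e n))) - dl P p.2 (P.c (s e)))))
          (CR.sum (x := fun (p : (ℕ × ℕ) × ℕ) n => τ (p.2, n) (P.c p.1.1) * (H (p.2, n) *
            (dl P p.1.2 (P.c (q p.2 (jj p.2 n))) - dl P p.1.2 (P.c (s p.2)))))
            ((τr.comp (g := fun p : ((ℕ × ℕ) × ℕ) × ℕ => ((p.1.2, p.2), p.1.1.1)) (by fun_prop)).mul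
              ((Hr.comp (g := fun p : ((ℕ × ℕ) × ℕ) × ℕ => (p.1.2, p.2)) (by fun_prop)).mul
              ((dl_cr P (by fun_prop) (ci2 hq (by fun_prop) (ci2 cj (by fun_prop)
                (by fun_prop)))).sub (dl_cr P (by fun_prop) (by fun_prop)))))
            (N := fun p => p.1.1 + 1) (by fun_prop))
          (N := fun p => p.1 + 1) (by fun_prop))).of_eq fun p => by
        simp [Φi, V, BoundedContinuousFunction.sum_apply])).max
      (cr_bdist (fun i => xi β βb (P.c i)) (fun i t ht => by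
        rw [xi_apply]
        by_contra h0
        obtain ⟨k1, k2⟩ := τi _ _ (right_ne_zero_of_mul h0)
        have k3 := ((sa _ _).1 k1).2.2.2.1
        have k4 := Nat.pair_lt_max_add_one_sq t.unpair.1 t.unpair.2
        rw [Nat.pair_unpair, max_eq_right k3.le] at k4
        have : (t.unpair.2 + 1) ^ 2 ≤ (i + 1) ^ 2 := by gcongr
        omega)
        ((CR.inv2 (CI.add (ci2 cr (by fun_prop) (by fun_prop)) (by fun_prop))).mul
          (τr.comp (g := fun p : ℕ × ℕ => (p.2.unpair, p.1)) (by fun_prop)))))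
  refine ⟨M, h, h1, fun e j m0 μ hμ hex hm0 => ?_⟩
  have aj : ∀ n, ac e n = true → jj e n = j ∧ mm e n = μ (y e n) := fun n ha => by
    obtain ⟨v, hv⟩ := Option.isSome_iff_exists.1 ((sa e n).1 ha).1
    exact Nat.pair_eq_pair.1 ((sv e n v hv).symm.trans (hμ _ _ _ hv))
  have τo : ∀ x, dist x (P.c (s e)) ≤ 1 / 2 ^ ρ e → ∀ a : ℕ × ℕ, τ a x ≠ 0 → a.1 = e :=
    fun x hx a h0 => hdis _ _ x (τU a.1 a.2 x h0) hx
  set w := io P (P.c (q e j)) - io P (P.c (s e)) with hw
  have wb : ‖w‖ ≤ 1 / 2 ^ j := (vb e j).trans (inv2_le (by omega))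
  have wb1 : ‖w‖ ≤ 1 := wb.trans (by simpa using inv2_le (Nat.zero_le j))
  have Φy : ∀ N, Φ (P.c (y e N)) = io P (P.c (y e N)) + (1 - R e N) • w := fun N => by
    simp only [Φ]
    rw [tsum_eq_sum (s := {e} ×ˢ Finset.range N), Finset.sum_product, Finset.sum_singleton, ← Hs,
      Finset.sum_smul]
    · congr 1
      refine Finset.sum_congr rfl fun n hn => ?_
      cases ha : ac e n
      · simp [V, H, (s2 e n ha).2.2]
      · rw [τ1 e n N ha (Finset.mem_range.1 hn), one_smul]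
        simp only [V, (aj n ha).1, hw]
    · rintro ⟨e', n⟩ ha
      by_contra h0
      have h0 := left_ne_zero_of_smul h0
      obtain rfl : e' = e := τo _ (inU e N) _ h0
      refine h0 (τ2 _ n N (by_contra fun hlt => ha ?_))
      simp only [Finset.mem_product, Finset.mem_singleton, Finset.mem_range, true_and]
      omega
  have τq : ∀ a, τ a (P.c (q e j)) = 0 := fun a => by
    by_contra h0
    have k0 := τo _ ((hq2 e j).trans (inv2_le (by omega))) _ h0
    obtain ⟨k1, k2⟩ := τi _ _ h0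
    have k3 := ((sa _ _).1 k1).2.2.1
    rw [k0] at k1 k3
    rw [(aj _ k1).1] at k3
    omega
  have Φq : Φ (P.c (q e j)) = io P (P.c (q e j)) := by simp [Φ, τq]
  have Ξb : ∀ N a, |β a (P.c (y e N))| ≤ 1 / 2 ^ m0 := fun N a => by
    by_cases h0 : τ a.unpair (P.c (y e N)) = 0
    · simp [β, h0]
    · have k0 := τo _ (inU e N) _ h0
      have k1 := (τi _ _ h0).1
      refine (βb0 a _).trans (inv2_le ?_)
      rw [(s1 _ _ k1).2.1]
      rw [k0] at k1 ⊢
      have := hm0 (y e a.unpair.2)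
      rw [(aj _ k1).2]
      omega
  have near : ∀ n, dist (P.c (y e n)) (P.c (s e)) + 1 / 2 ^ r e n / 2 ^ m0 ≤ 1 / 2 ^ m0 := by
    intro n
    induction n with
    | zero =>
      rw [(s0 e).1, dist_self, zero_add]
      gcongr
      simpa using inv2_le (Nat.zero_le (r e 0))
    | succ n ih =>
      cases ha : ac e n
      · rwa [(s2 e n ha).1, (s2 e n ha).2.1]
      · obtain ⟨k1, k2⟩ := stp e n ha
        have k3 : (1 : ℝ) / 2 ^ r e n / 2 ^ mm e n ≤ 1 / 2 ^ r e n / 2 ^ m0 := by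
          gcongr
          · exact one_le_two
          · rw [(aj n ha).2]; exact hm0 _
        have k4 := dv (1 / 2 ^ r e (n + 1)) m0 (by positivity)
        have k5 : (0 : ℝ) ≤ 1 / 2 ^ r e n / 2 ^ mm e n := by positivity
        rw [(s1 e n ha).1]
        linarith [dist_triangle (P.c n) (P.c (y e n)) (P.c (s e))]
  have near' : ∀ n, ‖io P (P.c (y e n)) - io P (P.c (s e))‖ ≤ 1 / 2 ^ m0 := fun n => by
    have : (0 : ℝ) ≤ 1 / 2 ^ r e n / 2 ^ m0 := by positivity
    rw [← dist_eq_norm]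
    linarith [io_lip P (P.c (y e n)) (P.c (s e)), near n]
  have inf : ∀ n, ∃ n' ≥ n, ac e n' = true := by
    intro n
    by_contra hn
    push Not at hn
    have cst : ∀ n', n ≤ n' → y e n' = y e n ∧ r e n' = r e n := by
      intro n' h'
      induction n', h' using Nat.le_induction with
      | base => exact ⟨rfl, rfl⟩
      | succ n' h' ih =>
        have := s2 e n' (by simpa using hn n' h')
        rw [this.1, this.2.1]; exact ih
    obtain ⟨n1, v, hv⟩ := hex (y e n)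
    obtain ⟨n', k1, k2⟩ := hni e _ (inU e n) (1 / 2 ^ (r e n + μ (y e n) + 2)) (by positivity)
      (n + n1 + y e n + q e j + e)
    obtain ⟨k3, k4⟩ := cst n' (by omega)
    have hv' : E e (y e n' + 1) n' = some v := by rw [k3]; exact E_mono hv (by omega)
    obtain ⟨k5, k6⟩ := Nat.pair_eq_pair.1 ((sv e n' v hv').symm.trans (hμ _ _ _ hv'))
    refine hn n' (by omega) ((sa e n').2 ⟨by simp [hv'], by omega, by rw [k5]; omega, by omega,
      T2 _ ?_⟩)
    simp only [k6, k3, k4]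
    exact k2.le
  have rinf : ∀ k, ∃ n, k ≤ r e n := by
    intro k
    induction k with
    | zero => exact ⟨0, Nat.zero_le _⟩
    | succ k ih =>
      obtain ⟨n, hn⟩ := ih
      obtain ⟨n', k1, k2⟩ := inf n
      have k3 : r e n ≤ r e n' := monotone_nat_of_le_succ (f := r e) (fun m => by
        cases ha : ac e m
        · exact (s2 e m ha).2.1.ge
        · rw [(s1 e m ha).2.1]; omega) k1
      exact ⟨n' + 1, by rw [(s1 e n' k2).2.1]; omega⟩
  obtain ⟨z, hz⟩ := cauchySeq_tendsto_of_complete (u := fun n => P.c (y e n))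
    (Metric.cauchySeq_iff'.2 fun ε hε => by
      obtain ⟨k, hk⟩ := (ev_lt 1 hε).exists
      obtain ⟨N, hN⟩ := rinf k
      refine ⟨N, fun n hn => ?_⟩
      have : (0 : ℝ) ≤ 1 / 2 ^ r e n := by positivity
      linarith [nest e N n hn, inv2_le hN])
  refine ⟨y e, (s0 e).1, fun n => ?_, fun n => ?_, h z, ?_, fun ⟨m, hm⟩ => ?_⟩
  · cases ha : ac e n
    · rw [(s2 e n ha).1, dist_self]; positivity
    obtain ⟨k1, k2⟩ := stp e n ha
    have k3 : (1 : ℝ) / 2 ^ r e n / 2 ^ mm e n ≤ 1 / 2 ^ μ (y e n) := by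
      rw [(aj n ha).2]
      gcongr
      simpa using inv2_le (Nat.zero_le (r e n))
    have e0 : (0 : ℝ) < 1 / 2 ^ μ (y e n) := by positivity
    have e2 : (2 : ℝ) / 2 ^ μ (y e n) = 2 * (1 / 2 ^ μ (y e n)) := by ring
    rw [h1, h1, h2, Prod.dist_eq]
    refine max_le ?_ ((dist_le (by positivity)).2 fun a => ?_)
    · simp only [Φy]
      refine (dist_add_add_le _ _ _ _).trans ?_
      have k4 := io_lip P (P.c (y e n)) (P.c (y e (n + 1)))
      have k5 : dist ((1 - R e n) • w) ((1 - R e (n + 1)) • w) ≤ 1 / 2 ^ μ (y e n) := by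
        have := Rb e n
        rw [dist_eq_norm, ← _root_.sub_smul (1 - R e n) (1 - R e (n + 1)) w, norm_smul, (s1 e n ha).2.2, (aj n ha).2,
          show 1 - R e n - (1 - (R e n - R e n / 2 ^ μ (y e n))) = -(R e n / 2 ^ μ (y e n)) by ring,
          norm_neg, Real.norm_of_nonneg (by have := this.1; positivity)]
        calc R e n / 2 ^ μ (y e n) * ‖w‖ ≤ 1 / 2 ^ μ (y e n) * 1 := by gcongr; exact this.2
          _ = _ := mul_one _
      rw [(s1 e n ha).1, dist_comm (P.c (y e n))] at k4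
      rw [(s1 e n ha).1]
      linarith
    · simp only [xi_apply]
      by_cases h0 : τ a.unpair (P.c (y e n)) = τ a.unpair (P.c (y e (n + 1)))
      · simp only [β, h0, dist_self]; positivity
      have k0 : a.unpair.1 = e ∧ ac a.unpair.1 a.unpair.2 = true := by
        by_cases h3 : τ a.unpair (P.c (y e n)) = 0
        · have h4 : τ a.unpair (P.c (y e (n + 1))) ≠ 0 := fun h4 => h0 (h3.trans h4.symm)
          exact ⟨τo _ (inU e _) _ h4, (τi _ _ h4).1⟩
        · exact ⟨τo _ (inU e _) _ h3, (τi _ _ h3).1⟩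
      have ea : a.unpair = (e, a.unpair.2) := Prod.ext k0.1 rfl
      have k6 : a.unpair.2 = n := by
        have k7 := k0.2
        rw [k0.1] at k7
        rw [ea] at h0
        rcases lt_trichotomy a.unpair.2 n with k | k | k
        · exact absurd ((τ1 e _ _ k7 k).trans (τ1 e _ _ k7 (by omega)).symm) h0
        · exact k
        · exact absurd ((τ2 e _ _ k.le).trans (τ2 e _ _ k).symm) h0
      have k8 : ∀ x, |β a x| ≤ 1 / 2 ^ μ (y e n) := fun x => (βb0 a x).trans (inv2_le (by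
        rw [k0.1, k6, (s1 e n ha).2.1, (aj n ha).2]; omega))
      rw [Real.dist_eq]
      linarith [abs_sub (β a (P.c (y e n))) (β a (P.c (y e (n + 1)))), k8 (P.c (y e n)),
        k8 (P.c (y e (n + 1)))]
  · have e0 : (0 : ℝ) < 1 / 2 ^ j := by positivity
    rw [h1, h1, h2, Prod.dist_eq]
    refine max_le ?_ ((dist_le (by positivity)).2 fun a => ?_)
    · have k1 := Φy 0
      rw [(s0 e).1, (s0 e).2.2, sub_self, zero_smul, add_zero] at k1
      simp only [Φy, k1]
      rw [dist_eq_norm, add_sub_right_comm]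
      refine (norm_add_le _ _).trans (add_le_add (near' n) ?_)
      have := Rb e n
      rw [norm_smul, Real.norm_of_nonneg (by linarith)]
      calc (1 - R e n) * ‖w‖ ≤ 1 * (1 / 2 ^ j) := by gcongr; linarith
        _ = _ := one_mul _
    · have k1 : β a (P.c (s e)) = 0 := by
        by_contra h0
        have h0 := right_ne_zero_of_mul h0
        rw [← (s0 e).1] at h0
        have k0 := τo _ (inU e _) _ h0
        exact h0 (by rw [show a.unpair = (e, a.unpair.2) from Prod.ext k0 rfl]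
                     exact τ2 e _ 0 (Nat.zero_le _))
      simp only [xi_apply, k1, Real.dist_eq, sub_zero]
      linarith [Ξb n a]
  · simpa only [h1, Function.comp_def] using (h.continuous.tendsto z).comp hz
  · obtain ⟨K, hK⟩ : ∃ K, R e K ≤ 1 / 2 ^ m0 := by
      by_contra hK
      push Not at hK
      have k1 := (summable_of_sum_range_le (fun n => H0 (e, n)) (Hs' e)).tendsto_atTop_zero
      obtain ⟨N, hN⟩ := eventually_atTop.1 (hm.and (k1.eventually
        (gt_mem_nhds (show (0 : ℝ) < 1 / 2 ^ m0 / 2 ^ m by positivity))))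
      obtain ⟨n, k2, ha⟩ := inf N
      obtain ⟨k3, k4⟩ := hN n k2
      simp only [H, (s1 e n ha).2.2, (aj n ha).2, sub_sub_cancel] at k4
      have : (1 : ℝ) / 2 ^ m0 / 2 ^ m ≤ R e n / 2 ^ μ (y e n) := by
        gcongr
        · exact (Rb e n).1
        · exact (hK n).le
        · exact one_le_two
      linarith
    have e0 : (0 : ℝ) < 1 / 2 ^ m0 := by positivity
    have e2 : (2 : ℝ) / 2 ^ m0 = 1 / 2 ^ m0 + 1 / 2 ^ m0 := by ring
    refine ⟨K, ?_⟩
    rw [h1, h1, h2, Prod.dist_eq]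
    refine max_le ?_ ((dist_le (by positivity)).2 fun a => ?_)
    · simp only [Φy, Φq]
      rw [dist_eq_norm, show io P (P.c (y e K)) + (1 - R e K) • w - io P (P.c (q e j)) =
        (io P (P.c (y e K)) - io P (P.c (s e))) - R e K • w by rw [hw]; module, e2]
      refine (norm_sub_le _ _).trans (add_le_add (near' K) ?_)
      have := (Rb e K).1
      rw [norm_smul, Real.norm_of_nonneg this]
      calc R e K * ‖w‖ ≤ 1 / 2 ^ m0 * 1 := by gcongr
        _ = _ := mul_one _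
    · simp only [xi_apply, β, τq, mul_zero, Real.dist_eq, sub_zero]
      linarith [Ξb K a]

end Pool.Agent.H83.Tcc
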