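import Mathlib
import Pool.Agent.H83.Tcc4
import Pool.Agent.H83.Tcc6

/-! The case of a ball without isolated points, and the conclusion. -/

set_option autoImplicit false

namespace Pool.Agent.H83.Tcc

open Pool.Agent.H37 Filter Topology

theorem regions (P : Pres) (hi : Function.Injective P.c) (i0 R0 : ℕ)
    (hni : ∀ x, dist x (P.c i0) ≤ 1 / 2 ^ R0 → ∀ ε > 0, ∀ σ, ∃ n > σ, dist (P.c n) x < ε) :
    ∃ (s ρ : ℕ → ℕ) (q : ℕ → ℕ → ℕ), CI ∅ s ∧ CI ∅ ρ ∧ CI ∅ (fun p : ℕ × ℕ => q p.1 p.2) ∧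
      (∀ e e' x, dist x (P.c (s e)) ≤ 1 / 2 ^ ρ e → dist x (P.c (s e')) ≤ 1 / 2 ^ ρ e' → e = e') ∧
      (∀ e x, dist x (P.c (s e)) ≤ 1 / 2 ^ ρ e → ∀ ε > 0, ∀ σ, ∃ n > σ, dist (P.c n) x < ε) ∧
      (∀ e j, dist (P.c (q e j)) (P.c (s e)) ≤ 1 / 2 ^ (j + e + ρ e)) ∧ ∀ e j, s e < q e j := by
  obtain ⟨Ω, hΩ, sep⟩ := P.exists_sep hi
  obtain ⟨T, hT, T1, T2⟩ := (P.cr (f := fun p : ℕ × ℕ × ℕ => p.1)
    (g := fun p => p.2.1) (by fun_prop) (by fun_prop)).test (k := fun p => p.2.2) (by fun_prop)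
  obtain ⟨n0, hn0, k0⟩ := CI.exists_choice (O := ∅)
    (p := fun j n : ℕ => decide (i0 < n) && T (n, i0, j)) (by fun_prop) fun j => by
      obtain ⟨n, h1, h2⟩ := hni (P.c i0) (by rw [dist_self]; positivity) (1 / 2 ^ j)
        (by positivity) i0
      exact ⟨n, by simp [h1, T2 (n, i0, j) h2.le]⟩
  simp only [Bool.and_eq_true, decide_eq_true_eq] at k0
  let g : ℕ → ℕ := fun e => Nat.rec (R0 + 3) (fun _ x => x + Ω (n0 x) + 5) e
  have hg : CI ∅ g := CI.of_rec1 (h := fun _ x => x + Ω (n0 x) + 5) (by fun_prop) fun _ => rfl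
  have gs : ∀ e, g (e + 1) = g e + Ω (n0 (g e)) + 5 := fun _ => rfl
  have gm : Monotone g := monotone_nat_of_le_succ fun e => by rw [gs]; omega
  have ann : ∀ e x, dist x (P.c (n0 (g e))) ≤ 1 / 2 ^ (Ω (n0 (g e)) + 1) →
      1 / 2 ^ (Ω (n0 (g e)) + 1) < dist x (P.c i0) ∧ dist x (P.c i0) ≤ 8 * (1 / 2 ^ g e) := by
    intro e x hx
    have k1 := sep (n0 (g e)) _ i0 le_rfl (k0 (g e)).1.le (k0 (g e)).1.ne'
    have k2 := T1 _ (k0 (g e)).2
    have k3 : (1 : ℝ) / 2 ^ Ω (n0 (g e)) = 2 * (1 / 2 ^ (Ω (n0 (g e)) + 1)) := by field_simp; ring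
    have k4 : (3 : ℝ) / 2 ^ g e = 3 * (1 / 2 ^ g e) := by ring
    have k5 : (0 : ℝ) < 1 / 2 ^ g e := by positivity
    simp only at k2
    constructor
    · linarith [dist_triangle_left (P.c (n0 (g e))) (P.c i0) x]
    · linarith [dist_triangle x (P.c (n0 (g e))) (P.c i0)]
  have lt : ∀ e e' x, e < e' → dist x (P.c (n0 (g e))) ≤ 1 / 2 ^ (Ω (n0 (g e)) + 1) →
      dist x (P.c (n0 (g e'))) ≤ 1 / 2 ^ (Ω (n0 (g e')) + 1) → False := by
    intro e e' x he h1 h2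
    have k1 := (ann e x h1).1
    have k2 := (ann e' x h2).2
    have k3 : (1 : ℝ) / 2 ^ g e' ≤ 1 / 2 ^ (Ω (n0 (g e)) + 4) :=
      inv2_le (by have := gm (show e + 1 ≤ e' from he); rw [gs] at this; omega)
    have k4 : (1 : ℝ) / 2 ^ (Ω (n0 (g e)) + 1) = 8 * (1 / 2 ^ (Ω (n0 (g e)) + 4)) := by
      field_simp; ring
    linarith
  have hni' : ∀ e x, dist x (P.c (n0 (g e))) ≤ 1 / 2 ^ (Ω (n0 (g e)) + 1) →
      ∀ ε > 0, ∀ σ, ∃ n > σ, dist (P.c n) x < ε := fun e x hx => hni x (by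
    have k2 := (ann e x hx).2
    have k3 : (1 : ℝ) / 2 ^ g e ≤ 1 / 2 ^ (R0 + 3) := inv2_le (gm (Nat.zero_le e))
    have k4 : (1 : ℝ) / 2 ^ R0 = 8 * (1 / 2 ^ (R0 + 3)) := by field_simp; ring
    linarith)
  obtain ⟨q, hq, k1⟩ := CI.exists_choice (O := ∅)
    (p := fun (a : ℕ × ℕ) (n : ℕ) => decide (n0 (g a.1) < n) &&
      T (n, n0 (g a.1), a.2 + a.1 + (Ω (n0 (g a.1)) + 1) + 2)) (by fun_prop) fun a => by
      obtain ⟨n, h1, h2⟩ := hni' a.1 _ (by rw [dist_self]; positivity)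
        (1 / 2 ^ (a.2 + a.1 + (Ω (n0 (g a.1)) + 1) + 2)) (by positivity) (n0 (g a.1))
      exact ⟨n, by simp [h1, T2 (n, _, _) h2.le]⟩
  simp only [Bool.and_eq_true, decide_eq_true_eq] at k1
  refine ⟨fun e => n0 (g e), fun e => Ω (n0 (g e)) + 1, fun e j => q (e, j), by fun_prop,
    by fun_prop, hq, fun e e' x h1 h2 => ?_, hni', fun e j => (T1 _ (k1 (e, j)).2).trans ?_,
    fun e j => (k1 (e, j)).1⟩
  · rcases lt_trichotomy e e' with h | h | h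
    · exact (lt _ _ x h h1 h2).elim
    · exact h
    · exact (lt _ _ x h h2 h1).elim
  · simp only
    rw [pow_add _ _ 2, div_le_div_iff₀ (by positivity) (by positivity)]
    have : (0 : ℝ) < 2 ^ (j + e + (Ω (n0 (g e)) + 1)) := by positivity
    linarith

theorem Commit.modulus {M N : Pres} {f : M.Y → N.Y} (h : Commit M N f) :
    ∃ μ ν : ℕ → ℕ → ℕ, CI ∅ (fun p : ℕ × ℕ => μ p.1 p.2) ∧ CI ∅ (fun p : ℕ × ℕ => ν p.1 p.2) ∧
      (∀ i l x, dist x (M.c i) ≤ 1 / 2 ^ μ i l → dist (f x) (N.c (ν i l)) ≤ 1 / 2 ^ l) ∧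
      ∀ (y : ℕ → ℕ) z l, Tendsto (fun n => M.c (y n)) atTop (𝓝 z) →
        ∃ m, ∀ᶠ n in atTop, μ (y n) l ≤ m := by
  obtain ⟨ok, ci, ck, cj, cl, c1, c2, c3, c4, c5, c6, c7⟩ := h
  obtain ⟨T, hT, T1, T2⟩ := (M.cr (f := fun p : ℕ × ℕ => p.1)
    (g := fun p => ci p.2) (by fun_prop) (by fun_prop)).test (k := fun p => ck p.2 + 2) (by fun_prop)
  have hex : ∀ a : ℕ × ℕ, ∃ n, (ok n && decide (cl n = a.2) && T (a.1, n)) = true := fun a => by
    obtain ⟨n, h1, h2, h3⟩ := c7 (M.c a.1) a.2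
    exact ⟨n, by simp [h1, h2, T2 (a.1, n) h3.le]⟩
  obtain ⟨F, hF, F1, F2⟩ : ∃ F : ℕ × ℕ → ℕ, CI ∅ F ∧
      (∀ a, (ok (F a) && decide (cl (F a) = a.2) && T (a.1, F a)) = true) ∧
      ∀ a n, (ok n && decide (cl n = a.2) && T (a.1, n)) = true → F a ≤ n :=
    ⟨_, CI.find (O := ∅) (p := fun (a : ℕ × ℕ) n => ok n && decide (cl n = a.2) && T (a.1, n))
      (by fun_prop) hex, fun a => Nat.find_spec (hex a), fun a n h => Nat.find_min' (hex a) h⟩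
  refine ⟨fun i l => ck (F (i, l)) + 2, fun i l => cj (F (i, l)),
    (c3.comp hF).add (by fun_prop), c4.comp hF, fun i l x hx => ?_, fun y z l hz => ?_⟩
  · have k := F1 (i, l)
    simp only [Bool.and_eq_true, decide_eq_true_eq] at k hx
    set n := F (i, l)
    have k1 := T1 _ k.2
    have k2 : (1 : ℝ) / 2 ^ ck n = 3 / 2 ^ (ck n + 2) + 1 / 2 ^ (ck n + 2) := by field_simp; ring
    have := c6 n k.1.1 x (by
      simp only at k1
      linarith [dist_triangle x (M.c i) (M.c (ci n))])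
    rwa [k.1.2] at this
  · obtain ⟨n, h1, h2, h3⟩ := c7 z l
    refine ⟨(Finset.range (n + 1)).sup ck + 2, ((hz.dist tendsto_const_nhds).eventually
      (gt_mem_nhds h3)).mono fun k hk => ?_⟩
    have : F (y k, l) ≤ n := F2 _ _ (by simp [h1, h2, T2 (y k, n) hk.le])
    exact Nat.add_le_add_right (Finset.le_sup (f := ck) (Finset.mem_range.2 (by omega))) 2

theorem caseB (P : Pres) (hi : Function.Injective P.c) (i0 R0 : ℕ)
    (hni : ∀ x, dist x (P.c i0) ≤ 1 / 2 ^ R0 → ∀ ε > 0, ∀ σ, ∃ n > σ, dist (P.c n) x < ε) :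
    ∃ M N : Pres, Nonempty (M.Y ≃ₜ P.Y) ∧ Nonempty (N.Y ≃ₜ P.Y) ∧
      ∀ f : M.Y → N.Y, Function.Injective f → ¬ Commit M N f := by
  obtain ⟨s, ρ, q, hs, hρ, hq, r1, r2, r3, r4⟩ := regions P hi i0 R0 hni
  obtain ⟨M, hM, m1, m2⟩ := moves P hi s ρ q hs hρ hq r1 r2 r3
  obtain ⟨N, hN, Zo, n1, n2, hZo, n3⟩ := walls P hi
  refine ⟨M, N, ⟨hM.symm⟩, ⟨hN.symm⟩, fun f hf hc => ?_⟩
  obtain ⟨μ, ν, hμ, hν, a1, a2⟩ := hc.modulus
  have a0 : ∀ i l, dist (hN.symm (f (M.c i))) (P.c (ν i l)) ≤ 1 / 2 ^ l := fun i l => by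
    refine (n2 _ _).trans ?_
    rw [Homeomorph.apply_symm_apply, ← n1]
    exact a1 i l _ (by rw [dist_self]; positivity)
  let k0 : ℕ → ℕ := fun e => μ (s e) (e + 2)
  have hk0 : CI ∅ k0 := ci2 hμ hs (by fun_prop)
  let qq : ℕ → ℕ := fun e => q e (k0 e + 1)
  have hqq : CI ∅ qq := ci2 hq (by fun_prop) (by fun_prop)
  obtain ⟨T, hT, T1, T2⟩ := (P.cr (f := fun p : ℕ × ℕ => ν (s p.1) (p.2 + 2))
    (g := fun p => ν (qq p.1) (p.2 + 2)) (ci2 hν (by fun_prop) (by fun_prop))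
    (ci2 hν (by fun_prop) (by fun_prop))).test (k := fun p => p.2) (by fun_prop)
  obtain ⟨w, hw, k1⟩ := CI.exists_choice (O := ∅) (p := fun e w : ℕ => !T (e, w)) (by fun_prop)
    fun e => by
      have hne : hN.symm (f (M.c (s e))) ≠ hN.symm (f (M.c (qq e))) := fun h => by
        have := hf (hN.symm.injective h)
        rw [m1, m1] at this
        exact (r4 e _).ne (hi (hM.injective this))
      obtain ⟨w, hw⟩ := (ev_lt 4 (dist_pos.2 hne)).exists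
      refine ⟨w, ?_⟩
      cases hT' : T (e, w)
      · rfl
      have b1 := T1 _ hT'
      have b2 := a0 (s e) (w + 2)
      have b3 := a0 (qq e) (w + 2)
      have b4 := dist_triangle4 (hN.symm (f (M.c (s e)))) (P.c (ν (s e) (w + 2)))
        (P.c (ν (qq e) (w + 2))) (hN.symm (f (M.c (qq e))))
      have b5 : (4 : ℝ) / 2 ^ w = 16 * (1 / 2 ^ (w + 2)) := by field_simp; ring
      have b6 : (3 : ℝ) / 2 ^ w = 12 * (1 / 2 ^ (w + 2)) := by field_simp; ring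
      have b7 : (0 : ℝ) < 1 / 2 ^ (w + 2) := by positivity
      rw [dist_comm (P.c (ν (qq e) (w + 2)))] at b4
      simp only at b1
      linarith
  let m0 : ℕ → ℕ := fun e => k0 e + μ (qq e) (w e + 2) + 1
  have hm0 : CI ∅ m0 := by
    have : CI ∅ fun e => μ (qq e) (w e + 2) := ci2 hμ hqq (by fun_prop)
    fun_prop
  obtain ⟨e, he⟩ := diag (fun e k n => cond (k == 0) (some (Nat.pair (ν (s e) (e + 2)) (w e + 2)))
    ((Zo e n).map fun Z => Nat.pair (k0 e + 1) (μ (k - 1) Z + 1 + m0 e)))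
    (CI.cond (by fun_prop) (CI.some (CI.pair (ci2 hν (by fun_prop) (by fun_prop)) (by fun_prop)))
      (CI.optMap (CI.pair (by fun_prop) (CI.add (CI.add (ci2 hμ (by fun_prop) (by fun_prop))
        (by fun_prop)) (by fun_prop)))
        (hZo.comp (g := fun p : ℕ × ℕ × ℕ => (p.1, p.2.2)) (by fun_prop))))
  obtain ⟨n, v, hv⟩ := (he 0).2 0 _ rfl
  obtain ⟨n', hv'⟩ := (he 0).1 n v hv
  obtain rfl : Nat.pair (ν (s e) (e + 2)) (w e + 2) = v := Option.some.inj hv'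
  obtain ⟨Z, z1, z2, z3⟩ := n3 e n _ hv
  simp only [Nat.unpair_pair] at z3
  obtain ⟨y, y0, y1, y2, z, y3, y4⟩ := m2 e (k0 e + 1) (m0 e) (fun y => μ y Z + 1 + m0 e)
    (fun y n v h => by
      obtain ⟨n', h'⟩ := (he (y + 1)).1 n v h
      obtain ⟨Z', h1, rfl⟩ := Option.map_eq_some_iff.1 h'
      rw [z1 _ _ h1]; rfl)
    (fun y => (he (y + 1)).2 n _ (by
      change (Zo e n).map _ = _
      rw [z2]; rfl)) (fun y => by omega)
  obtain ⟨m, hm⟩ := a2 y z Z y3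
  obtain ⟨K, hK⟩ := y4 ⟨m + 1 + m0 e, hm.mono fun n h => by omega⟩
  have b0 := z3 (fun k => hN.symm (f (M.c (y k)))) (fun k => by
    rw [Homeomorph.apply_symm_apply]
    refine (a1 (s e) (e + 2) _ ((y2 k).trans ?_)).trans_lt ?_
    · have b1 : (1 : ℝ) / 2 ^ m0 e ≤ 1 / 2 ^ (k0 e + 1) := inv2_le (by simp only [m0]; omega)
      have b2 : (1 : ℝ) / 2 ^ k0 e = 2 * (1 / 2 ^ (k0 e + 1)) := by field_simp; ring
      change _ ≤ (1 : ℝ) / 2 ^ k0 e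
      linarith
    · exact one_div_lt_one_div_of_lt (by positivity) (pow_lt_pow_right₀ one_lt_two (by omega)))
    (fun k => by
      refine (n2 _ _).trans ?_
      rw [Homeomorph.apply_symm_apply, Homeomorph.apply_symm_apply]
      have b1 := a1 (y k) Z (M.c (y k)) (by rw [dist_self]; positivity)
      have b2 := a1 (y k) Z (M.c (y (k + 1))) (by
        rw [dist_comm]
        refine (y1 k).trans ?_
        have b3 : (1 : ℝ) / 2 ^ (μ (y k) Z + 1 + m0 e) ≤ 1 / 2 ^ (μ (y k) Z + 1) := inv2_le (by omega)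
        have b4 : (1 : ℝ) / 2 ^ μ (y k) Z = 2 * (1 / 2 ^ (μ (y k) Z + 1)) := by field_simp; ring
        have b5 : (2 : ℝ) / 2 ^ (μ (y k) Z + 1 + m0 e) = 2 * (1 / 2 ^ (μ (y k) Z + 1 + m0 e)) := by
          ring
        linarith)
      have b3 : (2 : ℝ) / 2 ^ Z = 1 / 2 ^ Z + 1 / 2 ^ Z := by ring
      linarith [dist_triangle_right (f (M.c (y k))) (f (M.c (y (k + 1)))) (N.c (ν (y k) Z))]) K
  simp only [y0] at b0
  have b1 : dist (hN.symm (f (M.c (y K)))) (P.c (ν (qq e) (w e + 2))) ≤ 1 / 2 ^ (w e + 2) := by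
    refine (n2 _ _).trans ?_
    rw [Homeomorph.apply_symm_apply, ← n1]
    refine a1 _ _ _ (hK.trans ?_)
    have b3 : (1 : ℝ) / 2 ^ m0 e ≤ 1 / 2 ^ (μ (qq e) (w e + 2) + 1) :=
      inv2_le (by simp only [m0]; omega)
    have b4 : (1 : ℝ) / 2 ^ μ (qq e) (w e + 2) = 2 * (1 / 2 ^ (μ (qq e) (w e + 2) + 1)) := by
      field_simp; ring
    have b5 : (2 : ℝ) / 2 ^ m0 e = 2 * (1 / 2 ^ m0 e) := by ring
    linarith
  have b2 := a0 (s e) (w e + 2)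
  have b3 : ¬ dist (P.c (ν (s e) (w e + 2))) (P.c (ν (qq e) (w e + 2))) ≤ 1 / 2 ^ w e := fun h => by
    have := k1 e
    rw [T2 (e, w e) h] at this
    exact absurd this (by decide)
  have b4 := dist_triangle4 (P.c (ν (s e) (w e + 2))) (hN.symm (f (M.c (s e))))
    (hN.symm (f (M.c (y K)))) (P.c (ν (qq e) (w e + 2)))
  have b5 : (1 : ℝ) / 2 ^ w e = 4 * (1 / 2 ^ (w e + 2)) := by field_simp; ring
  have b7 : (0 : ℝ) < 1 / 2 ^ (w e + 2) := by positivity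
  rw [dist_comm (P.c (ν (s e) (w e + 2))) (hN.symm _)] at b4
  exact b3 (by linarith)

theorem main (P : Pres) [Infinite P.Y] :
    ∃ M N : Pres, Function.Injective M.c ∧ Function.Injective N.c ∧
      Nonempty (M.Y ≃ₜ P.Y) ∧ Nonempty (N.Y ≃ₜ P.Y) ∧
      ∀ f : M.Y → N.Y, Function.Bijective f → ¬ CompMap M N f := by
  obtain ⟨σ, hσ, hi, hd⟩ := P.exists_inj
  haveI : Infinite (P.sub σ hσ hd).Y := ‹Infinite P.Y›
  obtain ⟨M, N, ⟨hM⟩, ⟨hN⟩, h⟩ : ∃ M N : Pres, Nonempty (M.Y ≃ₜ P.Y) ∧ Nonempty (N.Y ≃ₜ P.Y) ∧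
      ∀ f : M.Y → N.Y, Function.Bijective f → ¬ Commit M N f := by
    by_cases hden : ∀ (x : P.Y) (ε : ℝ), 0 < ε → ∃ i, dist i x < ε ∧
        ∃ δ > 0, ∀ y, dist y i < δ → y = i
    · exact caseA (P.sub σ hσ hd) hi hden
    push Not at hden
    obtain ⟨x, ε, hε, hx⟩ := hden
    obtain ⟨i0, h0⟩ := hd.exists_dist_lt x (half_pos hε)
    obtain ⟨R0, hR⟩ := (ev_lt 1 (half_pos hε)).exists
    have key : ∀ z : P.Y, dist z (P.c (σ i0)) ≤ 1 / 2 ^ R0 → ∀ η > 0, ∀ K, ∃ n > K,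
        dist (P.c (σ n)) z < η := by
      intro z hz η hη K
      have hz' : dist z x < ε := by
        have : dist x (P.c (σ i0)) < ε / 2 := h0
        linarith [dist_triangle_right z x (P.c (σ i0))]
      have hf : ((P.c ∘ σ) '' Set.Iic K).Finite := (Set.finite_Iic K).image _
      obtain ⟨δ, hδ, h4⟩ := away (hf.subset Set.diff_subset :
        (((P.c ∘ σ) '' Set.Iic K) \ {z}).Finite) (z := z) (by simp)
      obtain ⟨u, h5, h6⟩ := hx z hz' (min η δ) (by positivity)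
      rw [lt_min_iff] at h5
      obtain ⟨n, h7, h8⟩ := hd.exists_mem_open (Metric.isOpen_ball.inter hf.isClosed.isOpen_compl)
        ⟨u, h5.1, fun h => h4 u h5.2 ⟨h, h6⟩⟩
      exact ⟨n, by_contra fun hn => h8 ⟨n, not_lt.1 hn, rfl⟩, h7⟩
    obtain ⟨M, N, h1, h2, h3⟩ := caseB (P.sub σ hσ hd) hi i0 R0 key
    exact ⟨M, N, h1, h2, fun f hf => h3 f hf.1⟩
  haveI : Infinite M.Y := hM.toEquiv.infinite_iff.2 ‹_›
  haveI : Infinite N.Y := hN.toEquiv.infinite_iff.2 ‹_›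
  obtain ⟨σ1, a1, a2, a3⟩ := M.exists_inj
  obtain ⟨σ2, b1, b2, b3⟩ := N.exists_inj
  exact ⟨M.sub σ1 a1 a3, N.sub σ2 b1 b3, a2, b2, ⟨hM⟩, ⟨hN⟩,
    fun f hf hc => h f hf hc.commit.of_sub⟩

end Pool.Agent.H83.Tcc
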