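import Mathlib
import Pool.Agent.H83.TccDefs

/-!
Degrees of topological categoricity (problem MP_55a818_lc). Turing degrees are represented by total
functions `A : ℕ → ℕ`, used as the oracle `fun n => Part.some (A n)`.
-/

set_option autoImplicit false

namespace Pool.Agent.H83.Tcc

/-- `f` is computable with oracle `A`: as `CompMap`, with `Φ` computable in `A`. -/
def CompMapIn (A : ℕ → ℕ) (P Q : Pres) (f : P.Y → Q.Y) : Prop :=
  ∃ Φ : List ℕ × ℕ → Option ℕ, ComputableIn {fun n => Part.some (A n)} Φ ∧
    ∀ x p, IsName P x p → ∀ l : ℕ, (∃ k j, Φ ((List.range k).map p, l) = some j) ∧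
      ∀ k j, Φ ((List.range k).map p, l) = some j → dist (Q.c j) (f x) ≤ 1 / 2 ^ l

/-- `X` is `A`-categorical: between any two computable presentations of `X` some homeomorphism is
`A`-computable. -/
def CatIn (A : ℕ → ℕ) (X : Type) [TopologicalSpace X] : Prop :=
  ∀ P Q : Pres, Nonempty (P.Y ≃ₜ X) → Nonempty (Q.Y ≃ₜ X) → ∃ f : P.Y ≃ₜ Q.Y, CompMapIn A P Q f

/-- The degree of `D` is the degree of topological categoricity of `X`. -/
def IsDegCat (D : ℕ → ℕ) (X : Type) [TopologicalSpace X] : Prop :=
  CatIn D X ∧ ∀ A : ℕ → ℕ, CatIn A X →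
    TuringReducible (fun n => Part.some (D n)) (fun n => Part.some (A n))

open Classical in
/-- characteristic function of a set of naturals -/
noncomputable def chi (S : ℕ → Prop) (n : ℕ) : ℕ := if S n then 1 else 0

end Pool.Agent.H83.Tcc
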