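import Mathlib
import Pool.Agent.H83.Tcc4
import Pool.Agent.H83.TcdDefs
import Pool.Agent.H37.NF
import Pool.Agent.H37.RE

/-! Relativised commitments; finite and discrete spaces. -/

set_option autoImplicit false

namespace Pool.Agent.H83.Tcc

open Pool.Agent.H37 Filter Topology

theorem Pres.tst (P : Pres) : ∃ T : ℕ × ℕ × ℕ → Bool, CI ∅ T ∧
    (∀ i j k, T (i, j, k) = true → dist (P.c i) (P.c j) ≤ 3 / 2 ^ k) ∧
    ∀ i j k, dist (P.c i) (P.c j) ≤ 1 / 2 ^ k → T (i, j, k) = true := by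
  obtain ⟨T, hT, T1, T2⟩ := (P.cr (f := fun p : ℕ × ℕ × ℕ => p.1)
    (g := fun p => p.2.1) (by fun_prop) (by fun_prop)).test (k := fun p => p.2.2) (by fun_prop)
  exact ⟨T, hT, fun i j k => T1 (i, j, k), fun i j k => T2 (i, j, k)⟩

def CommitIn (O : Set (ℕ →. ℕ)) (P Q : Pres) (f : P.Y → Q.Y) : Prop :=
  ∃ (ok : ℕ → Bool) (ci ck cj cl : ℕ → ℕ), CI O ok ∧ CI O ci ∧ CI O ck ∧ CI O cj ∧ CI O cl ∧
    (∀ n, ok n = true → ∀ x, dist x (P.c (ci n)) ≤ 1 / 2 ^ ck n →
      dist (f x) (Q.c (cj n)) ≤ 1 / 2 ^ cl n) ∧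
    ∀ x l, ∃ n, ok n = true ∧ cl n = l ∧ dist x (P.c (ci n)) < 1 / 2 ^ (ck n + 2)

theorem CompMapIn.commit {A : ℕ → ℕ} {P Q : Pres} {f : P.Y → Q.Y} (h : CompMapIn A P Q f) :
    CommitIn (orc A) P Q f := by
  obtain ⟨Φ, hΦ, h⟩ := h
  have hΦ : CI (orc A) Φ := CI.of_ri hΦ
  let D : ℕ → List ℕ × ℕ × ℕ := fun n => (Encodable.decode (α := List ℕ × ℕ × ℕ) n).getD ([], 0, 0)
  have hD : CI ∅ D := by fun_prop
  obtain ⟨T, hT, T1, T2⟩ := (P.cr (f := fun p : ℕ × ℕ => (D p.1).1.getD p.2 0)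
    (g := fun p => (D p.1).2.1) (by fun_prop) (by fun_prop)).test (k := fun p => p.2 + 2)
    (by fun_prop)
  have hD := hD.of_empty (O := orc A)
  have hT := hT.of_empty (O := orc A)
  refine ⟨fun n => (Φ ((D n).1, (D n).2.2)).isSome &&
      (List.range (D n).1.length).all fun t => T (n, t), fun n => (D n).2.1,
    fun n => (D n).1.length + 2, fun n => (Φ ((D n).1, (D n).2.2)).getD 0, fun n => (D n).2.2,
    by fun_prop, by fun_prop, by fun_prop, by fun_prop, by fun_prop, ?_, ?_⟩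
  · intro n hn x hx
    simp only [Bool.and_eq_true, List.all_eq_true, List.mem_range] at hn
    choose p0 hp0 using P.near x
    let p : ℕ → ℕ := fun t => if t < (D n).1.length then (D n).1.getD t 0 else p0 t
    have hp : IsName P x p := by
      intro t
      by_cases ht : t < (D n).1.length
      · have k1 := T1 (n, t) (hn.2 t ht)
        have k2 : (1 : ℝ) / 2 ^ ((D n).1.length + 2) ≤ 1 / 2 ^ (t + 2) := inv2_le (by omega)
        have k3 := dist_triangle_right (P.c ((D n).1.getD t 0)) x (P.c (D n).2.1)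
        have k4 : (1 : ℝ) / 2 ^ t = 3 / 2 ^ (t + 2) + 1 / 2 ^ (t + 2) := by field_simp; ring
        simp only [p, if_pos ht]
        simp only at k1 hx
        linarith
      · simp only [p, if_neg ht]
        rw [dist_comm]; exact (hp0 t).le
    have e : (List.range (D n).1.length).map p = (D n).1 := by
      refine List.ext_getElem (by simp) fun t h1 h2 => ?_
      simp [p, h2]
    obtain ⟨j, hj⟩ := Option.isSome_iff_exists.1 hn.1
    have := (h x p hp (D n).2.2).2 (D n).1.length j (by rw [e]; exact hj)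
    simp only [hj, Option.getD_some]
    rwa [dist_comm]
  · intro x l
    choose p0 hp0 using P.near x
    have hp : IsName P x fun t => p0 (t + 3) := fun t => by
      rw [dist_comm]; exact (hp0 _).le.trans (inv2_le (by omega))
    obtain ⟨k, j, hj⟩ := (h x _ hp l).1
    have e : D (Encodable.encode ((List.range k).map (fun t => p0 (t + 3)), p0 (k + 4), l)) =
        ((List.range k).map (fun t => p0 (t + 3)), p0 (k + 4), l) := by
      simp only [D, Encodable.encodek, Option.getD_some]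
    refine ⟨Encodable.encode ((List.range k).map (fun t => p0 (t + 3)), p0 (k + 4), l), ?_, ?_, ?_⟩
    · simp only [Bool.and_eq_true, List.all_eq_true, List.mem_range, e, hj, Option.isSome_some,
        true_and, List.length_map, List.length_range]
      intro t ht
      apply T2
      simp only [e]
      have e2 : ((List.range k).map (fun t => p0 (t + 3))).getD t 0 = p0 (t + 3) := by simp [ht]
      rw [e2]
      have k1 := hp0 (t + 3)
      have k2 := hp0 (k + 4)
      have k3 : (1 : ℝ) / 2 ^ (k + 4) ≤ 1 / 2 ^ (t + 3) := inv2_le (by omega)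
      have k4 := dist_triangle_left (P.c (p0 (t + 3))) (P.c (p0 (k + 4))) x
      have k5 : (1 : ℝ) / 2 ^ (t + 2) = 1 / 2 ^ (t + 3) + 1 / 2 ^ (t + 3) := by field_simp; ring
      linarith
    · simp only [e]
    · simp only [e, List.length_map, List.length_range]
      exact hp0 _

/-- In a discrete presentation, an oracle deciding isolation computes the canonical bijections. -/
theorem discrete_map (A : ℕ → ℕ) (P Q : Pres) (f : P.Y → Q.Y) (σ τ : ℕ → ℕ) (hσ : CI ∅ σ)
    (hτ : CI ∅ τ) (hs : Function.Surjective (P.c ∘ σ)) (hf : ∀ n, f (P.c (σ n)) = Q.c (τ n))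
    (I : ℕ × ℕ → Bool) (hI : CI (orc A) I)
    (I1 : ∀ n t, I (n, t) = true → ∀ y, dist y (P.c (σ n)) ≤ 1 / 2 ^ t → y = P.c (σ n))
    (I2 : ∀ x, ∃ n t, x = P.c (σ n) ∧ I (n, t) = true) : CompMapIn A P Q f := by
  obtain ⟨T, hT, T1, T2⟩ := P.tst
  have hT := hT.of_empty (O := orc A)
  have hσ := hσ.of_empty (O := orc A)
  have hτ := hτ.of_empty (O := orc A)
  let g : List ℕ → ℕ → Bool := fun L a => decide (a.unpair.2 + 2 < L.length) && I a.unpair &&
    T (L.getD (a.unpair.2 + 2) 0, σ a.unpair.1, a.unpair.2 + 2)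
  have hg : CI (orc A) fun q : (List ℕ × ℕ) × ℕ => g q.1.1 q.2 := by fun_prop
  refine ⟨fun q => ((List.range q.1.length).find? (g q.1)).map fun a => τ a.unpair.1,
    CI.ri (CI.optMap (by fun_prop) (CI.find? hg (by fun_prop))), fun x p hp l => ⟨?_, ?_⟩⟩
  · obtain ⟨n, t, rfl, h⟩ := I2 x
    refine ⟨Nat.pair n t + t + 3, ?_⟩
    have : (((List.range ((List.range (Nat.pair n t + t + 3)).map p).length).find?
        (g ((List.range (Nat.pair n t + t + 3)).map p)))).isSome = true := by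
      rw [List.find?_isSome]
      refine ⟨Nat.pair n t, by simp; omega, ?_⟩
      have e : ((List.range (Nat.pair n t + t + 3)).map p).getD (t + 2) 0 = p (t + 2) := by
        simp [show t + 2 < Nat.pair n t + t + 3 by omega]
      simp only [g, Nat.unpair_pair, e, h, T2 _ _ _ (hp (t + 2)), List.length_map,
        List.length_range, Bool.and_true, decide_eq_true_eq]
      omega
    obtain ⟨a, ha⟩ := Option.isSome_iff_exists.1 this
    exact ⟨_, by simp only [ha]; rfl⟩
  · intro k j hj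
    obtain ⟨a, ha, rfl⟩ := Option.map_eq_some_iff.1 hj
    have h := List.find?_some ha
    simp only [g, Bool.and_eq_true, decide_eq_true_eq, List.length_map, List.length_range] at h
    obtain ⟨⟨h1, h2⟩, h3⟩ := h
    have e : ((List.range k).map p).getD (a.unpair.2 + 2) 0 = p (a.unpair.2 + 2) := by simp [h1]
    rw [e] at h3
    have k1 := T1 _ _ _ h3
    have k2 := hp (a.unpair.2 + 2)
    have k3 : (1 : ℝ) / 2 ^ a.unpair.2 = 3 / 2 ^ (a.unpair.2 + 2) + 1 / 2 ^ (a.unpair.2 + 2) := by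
      field_simp; ring
    rw [I1 a.unpair.1 a.unpair.2 h2 x (by linarith [dist_triangle_left x (P.c (σ a.unpair.1)) (P.c (p (a.unpair.2 + 2)))]),
      hf, dist_self]
    positivity

theorem surj_of_discrete {Y : Type} [MetricSpace Y] [DiscreteTopology Y] {c : ℕ → Y}
    (h : DenseRange c) : Function.Surjective c := fun y => by
  simpa using h.exists_mem_open (isOpen_discrete {y}) ⟨y, rfl⟩

theorem finite_cat (X : Type) [TopologicalSpace X] [Finite X] : CatIn (fun _ => 0) X := by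
  rintro P Q ⟨e1⟩ ⟨e2⟩
  haveI : Finite P.Y := e1.toEquiv.finite_iff.2 ‹_›
  haveI : Finite Q.Y := e2.toEquiv.finite_iff.2 ‹_›
  let f := e1.trans e2.symm
  obtain ⟨N, ⟨en⟩⟩ := Finite.exists_equiv_fin P.Y
  choose a ha using surj_of_discrete P.dense
  choose b hb using surj_of_discrete Q.dense
  have hN : 0 < N := Fin.pos (en (P.c 0))
  obtain ⟨t, ht⟩ : ∃ t : ℕ, ∀ x y : P.Y, dist y x ≤ 1 / 2 ^ t → y = x := by
    have : ∀ᶠ t : ℕ in atTop, ∀ x y : P.Y, y ≠ x → 1 / 2 ^ t < dist y x := by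
      refine eventually_all.2 fun x => eventually_all.2 fun y => ?_
      by_cases h : y = x
      · simp [h]
      · exact (ev_lt 1 (dist_pos.2 h)).mono fun _ h _ => h
    obtain ⟨t, ht⟩ := this.exists
    exact ⟨t, fun x y h => by_contra fun hn => absurd (ht x y hn) (not_lt.2 h)⟩
  let La : List ℕ := List.ofFn fun i : Fin N => a (en.symm i)
  let Lb : List ℕ := List.ofFn fun i : Fin N => b (f (en.symm i))
  have e : ∀ n, ∃ y, P.c (La.getD (n % N) 0) = y ∧ Q.c (Lb.getD (n % N) 0) = f y ∧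
      (en y : ℕ) = n % N := fun n =>
    ⟨en.symm ⟨n % N, Nat.mod_lt _ hN⟩, by simp [La, Nat.mod_lt _ hN, ha],
      by simp [Lb, Nat.mod_lt _ hN, hb], by simp⟩
  have hs : ∀ y, ∃ n, P.c (La.getD (n % N) 0) = y := fun y => by
    obtain ⟨y', h1, -, h3⟩ := e (en y)
    rw [Nat.mod_eq_of_lt (en y).2] at h3
    exact ⟨en y, h1.trans (en.injective (Fin.ext h3))⟩
  refine ⟨f, discrete_map _ P Q f (fun n => La.getD (n % N) 0) (fun n => Lb.getD (n % N) 0)
    (by fun_prop) (by fun_prop) hs (fun n => ?_) (fun q => decide (q.2 = t)) (by fun_prop)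
    (fun n t' h y hy => ht _ _ (by rwa [show t' = t from of_decide_eq_true h] at hy)) fun x => ?_⟩
  · obtain ⟨y, h1, h2, -⟩ := e n
    rw [h1, h2]
  · obtain ⟨n, hn⟩ := hs x
    exact ⟨n, t, hn.symm, by simp⟩

theorem nat_cat : CatIn Kf ℕ := by
  rintro P Q ⟨e1⟩ ⟨e2⟩
  haveI : Infinite P.Y := e1.toEquiv.infinite_iff.2 inferInstance
  haveI : Infinite Q.Y := e2.toEquiv.infinite_iff.2 inferInstance
  haveI : DiscreteTopology P.Y := e1.symm.discreteTopology
  haveI : DiscreteTopology Q.Y := e2.symm.discreteTopology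
  obtain ⟨σ, hσ, a1, a2⟩ := P.exists_inj
  obtain ⟨τ, hτ, b1, b2⟩ := Q.exists_inj
  let u := Equiv.ofBijective _ ⟨a1, surj_of_discrete a2⟩
  let v := Equiv.ofBijective _ ⟨b1, surj_of_discrete b2⟩
  obtain ⟨T, hT, T1, T2⟩ := P.tst
  obtain ⟨b, hb, hb'⟩ := ci_K (re_of_nat (p := fun q : ℕ × ℕ => ∃ m, m ≠ q.1 ∧
    T (σ m, σ q.1, q.2) = true) (fun q m => (m != q.1) && T (σ m, σ q.1, q.2)) (by fun_prop)
    fun q => by simp)
  refine ⟨(u.symm.trans v).toHomeomorphOfDiscrete, discrete_map _ P Q _ σ τ hσ hτ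
    (surj_of_discrete a2) (fun n => ?_) (fun q => !b q) (by fun_prop) (fun n t h y hy => ?_)
    fun x => ?_⟩
  · change v (u.symm (u n)) = _
    rw [u.symm_apply_apply]; rfl
  · obtain ⟨m, rfl⟩ := surj_of_discrete a2 y
    by_contra hne
    have := (hb' (n, t)).1 ⟨m, fun e => hne (by rw [e]; rfl), T2 _ _ _ hy⟩
    simp [this] at h
  · obtain ⟨n, rfl⟩ := surj_of_discrete a2 x
    obtain ⟨ε, hε, h⟩ := Metric.isOpen_iff.1 (isOpen_discrete {P.c (σ n)}) _ rfl
    obtain ⟨t, ht⟩ := (ev_lt 3 hε).exists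
    refine ⟨n, t, rfl, ?_⟩
    cases hbb : b (n, t)
    · rfl
    obtain ⟨m, h1, h2⟩ := (hb' _).2 hbb
    exact absurd (a1 (h ((T1 _ _ _ h2).trans_lt ht))) h1

noncomputable def natPres : Pres :=
  Pres.mk' ℕ id Function.surjective_id.denseRange
    (((CR.nat (f := fun p : ℕ × ℕ => p.1) (by fun_prop)).sub
      (CR.nat (f := fun p : ℕ × ℕ => p.2) (by fun_prop))).abs.of_eq fun p => (Nat.dist_eq _ _).symm)

theorem nat_iso {x y : ℕ} (h : dist x y < 1) : x = y := by
  by_contra hne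
  exact absurd (Nat.pairwise_one_le_dist hne) (not_le.2 h)

theorem nat_lower (A : ℕ → ℕ) (h : CatIn A ℕ) : CI (orc A) (chi fun e => ∃ s, Kst e s = true) := by
  let W : ℕ → ℕ → Option ℕ := fun e n => (List.range (n + 1)).find? fun s => Kst e s
  have W1 : ∀ e n s, W e n = some s ↔ Kst e s = true ∧ s ≤ n ∧ ∀ j < s, Kst e j = false :=
    fun e n s => by
      simp only [W, List.find?_range_eq_some, List.mem_range, Nat.lt_succ_iff,
        Bool.not_eq_eq_eq_not, Bool.not_true]
  haveI : Infinite natPres.Y := (inferInstance : Infinite ℕ)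
  obtain ⟨M, j, bs, ⟨hM⟩, hbs, m1, m2, m3, m4, m5⟩ := twin natPres Function.injective_id
    (fun x ε hε => ⟨x, by simpa using hε, 1, one_pos, fun y hy => nat_iso hy⟩)
    (fun e n => cond (e % 2 == 0) (some 0) ((W (e / 2) n).map fun s => Nat.pair 1 (Nat.pair 1 s)))
    (by fun_prop) (fun e n n' v v' h h' => by
      cases he : e % 2 == 0
      · simp only [he, cond_false, Option.map_eq_some_iff, W1] at h h'
        obtain ⟨s, ⟨h1, -, h2⟩, rfl⟩ := h
        obtain ⟨s', ⟨h3, -, h4⟩, rfl⟩ := h'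
        rcases lt_trichotomy s s' with k | k | k
        · simp [h4 s k] at h1
        · rw [k]
        · simp [h2 s' k] at h3
      · simp only [he, cond_true] at h h'
        exact Option.some.inj (h.symm.trans h'))
  obtain ⟨f, hf⟩ := h M natPres ⟨hM⟩ ⟨Homeomorph.refl ℕ⟩
  obtain ⟨ok, ci, ck, cj, cl, c1, c2, c3, c4, c5, c6, c7⟩ := hf.commit
  choose p hp using fun e => m5 (2 * e + 2) 0 0 (by simp)
  have hp' : ∀ e, j (p e) = (natPres.c (2 * e + 2), 0) := fun e => by rw [hp]; simp [tw]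
  have hr : CR fun q : ℕ × ℕ × ℕ => dist (p q.1) (M.c q.2.1) :=
    ((natPres.cr (f := fun q : ℕ × ℕ × ℕ => 2 * q.1 + 2) (g := fun q => bs q.2.1) (by fun_prop)
      (by fun_prop)).max (CR.zero.sub (m3.comp (g := fun q : ℕ × ℕ × ℕ => q.2.1)
        (by fun_prop))).abs).of_eq fun q => by rw [m1, hp', Prod.dist_eq, m2, Real.dist_eq]
  obtain ⟨T, hT, T1, T2⟩ := hr.test (k := fun q => q.2.2) (by fun_prop)
  have hT := hT.of_empty (O := orc A)
  obtain ⟨ch, hch, hc⟩ := CI.exists_choice (O := orc A) (p := fun e n : ℕ =>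
    ok n && decide (cl n = 2) && T (e, ci n, ck n + 2)) (by fun_prop) fun e => by
      obtain ⟨n, h1, h2, h3⟩ := c7 (p e) 2
      exact ⟨n, by simp [h1, h2, T2 (e, ci n, ck n + 2) h3.le]⟩
  refine (CI.toNat (f := fun e => Kst e (ck (ch e) + 2)) (by fun_prop)).of_eq fun e => ?_
  by_cases hK : ∃ s, Kst e s = true
  · simp only [chi, if_pos hK]
    cases hk : Kst e (ck (ch e) + 2)
    swap
    · rfl
    exfalso
    have hs := Nat.find_spec hK
    have hs' : ck (ch e) + 2 < Nat.find hK := by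
      by_contra hlt
      rw [Kst_mono (not_lt.1 hlt) hs] at hk
      cases hk
    set s := Nat.find hK
    obtain ⟨y, hy⟩ := m5 (2 * e + 1) s (Nat.pair 1 (Nat.pair 1 s)) (by
      have e1 : (2 * e + 1) / 2 = e := by omega
      have e2 : W e s = some s := (W1 _ _ _).2 ⟨hs, le_rfl, fun j hj => by
        simpa using Nat.find_min hK hj⟩
      simp [e1, e2])
    have hy' : j y = (natPres.c (2 * e + 2), min (1 / 2 ^ (2 * e + 1)) (1 / 2 ^ s)) := by
      rw [hy]; simp [tw, show 1 + (2 * e + 1) = 2 * e + 2 by omega]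
    have hpos : (0 : ℝ) < min (1 / 2 ^ (2 * e + 1)) (1 / 2 ^ s) := by positivity
    have hc' := hc e
    simp only [Bool.and_eq_true, decide_eq_true_eq] at hc'
    have k1 := T1 _ hc'.2
    have k2 : dist y (p e) ≤ 1 / 2 ^ (ck (ch e) + 2) := by
      rw [m1, hy', hp', Prod.dist_eq, dist_self, Real.dist_eq, sub_zero, abs_of_pos hpos]
      exact max_le (by positivity) ((min_le_right _ _).trans (inv2_le hs'.le))
    have k3 : (1 : ℝ) / 2 ^ ck (ch e) = 3 / 2 ^ (ck (ch e) + 2) + 1 / 2 ^ (ck (ch e) + 2) := by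
      field_simp; ring
    have k0 : (0 : ℝ) < 1 / 2 ^ (ck (ch e) + 2) := by positivity
    simp only at k1
    have k4 := c6 _ hc'.1.1 y (by linarith [dist_triangle y (p e) (M.c (ci (ch e)))])
    have k5 := c6 _ hc'.1.1 (p e) (by linarith)
    rw [hc'.1.2] at k4 k5
    have k6 : f y = f (p e) := nat_iso (x := f y) (y := f (p e)) (by
      have := dist_triangle_right (f y) (f (p e)) (natPres.c (cj (ch e)))
      change @dist natPres.Y _ _ _ < 1
      norm_num at k4 k5
      linarith)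
    have k7 := congrArg (fun z => (j z).2) (f.injective k6)
    simp only [hy', hp'] at k7
    linarith
  · simp only [chi, if_neg hK]
    cases hk : Kst e (ck (ch e) + 2)
    · rfl
    · exact absurd ⟨_, hk⟩ hK

end Pool.Agent.H83.Tcc
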