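import Mathlib
import Pool.Agent.H83.Tcd1

/-! A c.e. set built by a cost function construction against stack players. -/

set_option autoImplicit false

namespace Pool.Agent.H83.Tcc

open Pool.Agent.H37 Filter Topology

abbrev Ent := ℕ × ℕ × ℕ

def rAB (L : List Ent) : Bool × ℕ × ℕ :=
  L.foldr (fun a s => cond s.1 (false, 1, 0)
    (false, s.2.1 * (2 ^ a.2.2.unpair.2.unpair.1 - 1), s.2.2 + a.2.2.unpair.2.unpair.1)) (true, 2, 0)

noncomputable def Rr (L : List Ent) : ℝ := (rAB L).2.1 / 2 ^ (rAB L).2.2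

theorem cr_Rr {α : Type} [Primcodable α] {f : α → List Ent} (hf : CI ∅ f) : CR fun a => Rr (f a) := by
  have h : CI ∅ rAB := by unfold rAB; fun_prop
  have h' := h.comp hf
  exact ((CR.nat h'.snd.fst).mul (CR.inv2 h'.snd.snd)).of_eq fun a => by simp only [Rr]; ring

theorem Rr_nil : Rr [] = 2 := by simp [Rr, rAB]
theorem Rr_one (a : Ent) : Rr [a] = 1 := by simp [Rr, rAB]
theorem Rr_cons (a b : Ent) (L : List Ent) :
    Rr (a :: b :: L) = Rr (b :: L) - Rr (b :: L) / 2 ^ a.2.2.unpair.2.unpair.1 := by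
  have h : (rAB (b :: L)).1 = false := by
    simp only [rAB, List.foldr_cons]
    cases (List.foldr _ _ L : Bool × ℕ × ℕ).1 <;> rfl
  have e : rAB (a :: b :: L) = (false, (rAB (b :: L)).2.1 * (2 ^ a.2.2.unpair.2.unpair.1 - 1),
      (rAB (b :: L)).2.2 + a.2.2.unpair.2.unpair.1) := by
    change cond (rAB (b :: L)).1 _ _ = _
    rw [h]; rfl
  simp only [Rr, e]
  rw [Nat.cast_mul, Nat.cast_sub Nat.one_le_two_pow]
  push_cast
  field_simp
  ring

theorem Rr_nonneg (L : List Ent) : 0 ≤ Rr L := by unfold Rr; positivity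

theorem Rr_cons_le (a : Ent) (L : List Ent) : Rr (a :: L) ≤ Rr L := by
  cases L with
  | nil => rw [Rr_one, Rr_nil]; norm_num
  | cons b L =>
    rw [Rr_cons]
    have := Rr_nonneg (b :: L)
    have : 0 ≤ Rr (b :: L) / 2 ^ a.2.2.unpair.2.unpair.1 := by positivity
    linarith

theorem Rr_mono {L L' : List Ent} (h : L <:+ L') : Rr L' ≤ Rr L := by
  obtain ⟨p, rfl⟩ := h
  induction p with
  | nil => exact le_rfl
  | cons a p ih => exact (Rr_cons_le a _).trans ih

theorem Rr_le (L : List Ent) : Rr L ≤ 2 := Rr_nil ▸ Rr_mono List.nil_suffix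

def pop (x : ℕ) (L : List Ent) : List Ent := L.filter fun a => decide (a.1 ≤ x)

theorem pop_suffix {x : ℕ} {L : List Ent} (h : L.Pairwise fun a b => b.1 ≤ a.1) : pop x L <:+ L := by
  induction L with
  | nil => exact List.nil_suffix
  | cons a L ih =>
    rw [List.pairwise_cons] at h
    by_cases ha : a.1 ≤ x
    · rw [pop, List.filter_eq_self.2]
      intro b hb
      rcases List.mem_cons.1 hb with rfl | hb
      · simpa using ha
      · simpa using (h.1 b hb).trans ha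
    · rw [pop, List.filter_cons_of_neg (by simpa using ha)]
      exact (ih h.2).trans (List.suffix_cons _ _)

theorem suffix_pop {x : ℕ} {L0 L : List Ent} (h : L0 <:+ L) (h0 : ∀ a ∈ L0, a.1 ≤ x) :
    L0 <:+ pop x L := by
  obtain ⟨p, rfl⟩ := h
  rw [pop, List.filter_append, (List.filter_eq_self (l := L0)).2 fun a ha => by simpa using h0 a ha]
  exact List.suffix_append _ _

def topU (L : List Ent) : ℕ := (L.headD (0, 0, 0)).1

def Valid (X : ℕ → Option ℕ) (κ s u : ℕ) : Prop := ∀ t x, κ ≤ t → t ≤ s → X t = some x → u ≤ x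

structure VP where
  X : ℕ → Option ℕ
  ky : ℕ → ℕ → ℕ
  sk : ℕ → ℕ → List Ent

def VP.Pushed (V : VP) (n s : ℕ) (a : Ent) (L : List Ent) : Prop :=
  V.sk n s = L ∧ V.sk n (s + 1) = a :: L ∧ V.ky n (s + 1) = s + 1 ∧ a.2.1 = s + 1 ∧
    E n (V.ky n s) s = some a.2.2 ∧ a.2.2.unpair.1 ≤ s ∧ a.1 = max a.2.2.unpair.1 (topU L) ∧
    Valid V.X (V.ky n s) s a.2.2.unpair.1

noncomputable def VP.cost (V : VP) (x s : ℕ) : ℝ :=
  ∑ n ∈ Finset.range (s + 1), 1 / 2 ^ n * (Rr (pop x (V.sk n s)) - Rr (V.sk n s))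

structure VP.Good (V : VP) : Prop where
  cX : CI ∅ V.X
  cky : CI ∅ fun p : ℕ × ℕ => V.ky p.1 p.2
  csk : CI ∅ fun p : ℕ × ℕ => V.sk p.1 p.2
  ky0 : ∀ n, V.ky n 0 = 0
  early : ∀ n s, s ≤ n → V.sk n s = []
  tr : ∀ n s, (∃ x, V.X s = some x ∧ V.ky n (s + 1) = s + 1 ∧ V.sk n (s + 1) = pop x (V.sk n s) ∧
      (V.sk n (s + 1)).length < (V.sk n s).length) ∨
    ((∀ x, V.X s = some x → ∀ a ∈ V.sk n s, a.1 ≤ x) ∧
      ((V.ky n (s + 1) = V.ky n s ∧ V.sk n (s + 1) = V.sk n s ∧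
        (n ≤ s → ∀ v, E n (V.ky n s) s = some v → s < v.unpair.1)) ∨
      (V.ky n (s + 1) = s + 1 ∧ V.sk n (s + 1) = V.sk n s ∧
        ∃ v, E n (V.ky n s) s = some v ∧ ¬ Valid V.X (V.ky n s) s v.unpair.1) ∨
      ∃ a, V.Pushed n s a (V.sk n s)))
  x1 : ∀ s x, V.X s = some x → ev x.unpair.1 x s = some 0 ∧ V.cost x s ≤ 3 / 2 ^ x.unpair.1 ∧
    ∀ t x', t < s → V.X t = some x' → x'.unpair.1 ≠ x.unpair.1
  x2 : ∀ s x, s.unpair.1 = x → ev x.unpair.1 x s = some 0 → V.cost x s ≤ 1 / 2 ^ x.unpair.1 →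
    (∀ t x', t < s → V.X t = some x' → x'.unpair.1 ≠ x.unpair.1) → V.X s = some x

def pstep (n s : ℕ) (xo : Option ℕ) (Dh : List (ℕ × ℕ)) (ps : ℕ × List Ent) : ℕ × List Ent :=
  cond (decide ((xo.elim ps.2 fun x => pop x ps.2).length < ps.2.length))
    (s + 1, xo.elim ps.2 fun x => pop x ps.2)
    ((E n ps.1 s).elim ps fun v => cond (decide (v.unpair.1 ≤ s))
      (cond (Dh.all fun q => decide (q.2 < ps.1) || decide (v.unpair.1 ≤ q.1))
        (s + 1, (max v.unpair.1 (topU ps.2), s + 1, v) :: ps.2) (s + 1, ps.2)) ps)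

theorem ci_pstep : CI ∅ fun p : (ℕ × ℕ) × Option ℕ × List (ℕ × ℕ) × (ℕ × List Ent) =>
    pstep p.1.1 p.1.2 p.2.1 p.2.2.1 p.2.2.2 := by
  unfold pstep pop topU
  have h1 : CI ∅ fun p : (ℕ × ℕ) × Option ℕ × List (ℕ × ℕ) × (ℕ × List Ent) =>
      p.2.1.elim p.2.2.2.2 fun x => p.2.2.2.2.filter fun a => decide (a.1 ≤ x) :=
    CI.elim (by fun_prop) (by fun_prop) (CI.filter (by fun_prop) (by fun_prop))
  refine CI.cond (CI.lt h1.length (by fun_prop)) (CI.mk (by fun_prop) h1)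
    (CI.elim (by fun_prop) (by fun_prop) (CI.cond (by fun_prop) (CI.cond (CI.all (by fun_prop)
      (by fun_prop)) (by fun_prop) (by fun_prop)) (by fun_prop)))

theorem pstep_spec (n s : ℕ) (xo : Option ℕ) (Dh : List (ℕ × ℕ)) (ps : ℕ × List Ent)
    (Vd : ℕ → ℕ → Prop)
    (hv : ∀ κ u, (Dh.all fun q => decide (q.2 < κ) || decide (u ≤ q.1)) = true ↔ Vd κ u) :
    (∃ x, xo = some x ∧ (pstep n s xo Dh ps).1 = s + 1 ∧ (pstep n s xo Dh ps).2 = pop x ps.2 ∧
      (pstep n s xo Dh ps).2.length < ps.2.length) ∨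
    ((∀ x, xo = some x → ∀ a ∈ ps.2, a.1 ≤ x) ∧
      (((pstep n s xo Dh ps).1 = ps.1 ∧ (pstep n s xo Dh ps).2 = ps.2 ∧
        (n ≤ s → ∀ v, E n ps.1 s = some v → s < v.unpair.1)) ∨
      ((pstep n s xo Dh ps).1 = s + 1 ∧ (pstep n s xo Dh ps).2 = ps.2 ∧
        ∃ v, E n ps.1 s = some v ∧ ¬ Vd ps.1 v.unpair.1) ∨
      ∃ a : Ent, True ∧ (pstep n s xo Dh ps).2 = a :: ps.2 ∧ (pstep n s xo Dh ps).1 = s + 1 ∧
        a.2.1 = s + 1 ∧ E n ps.1 s = some a.2.2 ∧ a.2.2.unpair.1 ≤ s ∧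
        a.1 = max a.2.2.unpair.1 (topU ps.2) ∧ Vd ps.1 a.2.2.unpair.1)) := by
  by_cases h1 : (xo.elim ps.2 fun x => pop x ps.2).length < ps.2.length
  · left
    have e : pstep n s xo Dh ps = (s + 1, xo.elim ps.2 fun x => pop x ps.2) := by
      simp only [pstep, h1, decide_true, cond_true]
    rw [e]
    rcases xo with _ | x
    · simp at h1
    · exact ⟨x, rfl, rfl, rfl, h1⟩
  refine Or.inr ⟨fun x hx => ?_, ?_⟩
  · rw [hx] at h1
    have := List.length_filter_le (fun a : Ent => decide (a.1 ≤ x)) ps.2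
    have h2 : (ps.2.filter fun a : Ent => decide (a.1 ≤ x)).length = ps.2.length := by
      simp only [Option.elim, pop] at h1
      omega
    simpa using List.length_filter_eq_length_iff.1 h2
  rcases hE : E n ps.1 s with _ | v
  · have e : pstep n s xo Dh ps = ps := by
      simp only [pstep, h1, decide_false, cond_false, hE, Option.elim_none]
    rw [e]
    exact Or.inl ⟨rfl, rfl, fun _ _ h => by cases h⟩
  by_cases h2 : v.unpair.1 ≤ s
  swap
  · have e : pstep n s xo Dh ps = ps := by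
      simp only [pstep, h1, decide_false, cond_false, hE, Option.elim_some, h2]
    rw [e]
    exact Or.inl ⟨rfl, rfl, fun _ w hw => by rw [← Option.some.inj hw]; omega⟩
  cases h3 : Dh.all fun q => decide (q.2 < ps.1) || decide (v.unpair.1 ≤ q.1)
  · have e : pstep n s xo Dh ps = (s + 1, ps.2) := by
      simp only [pstep, h1, decide_false, cond_false, hE, Option.elim_some, h2, decide_true,
        cond_true, h3]
    rw [e]
    exact Or.inr (Or.inl ⟨rfl, rfl, v, rfl, fun h => by simp [(hv _ _).2 h] at h3⟩)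
  · have e : pstep n s xo Dh ps = (s + 1, (max v.unpair.1 (topU ps.2), s + 1, v) :: ps.2) := by
      simp only [pstep, h1, decide_false, cond_false, hE, Option.elim_some, h2, decide_true,
        cond_true, h3]
    rw [e]
    exact Or.inr (Or.inr ⟨(max v.unpair.1 (topU ps.2), s + 1, v), trivial, rfl, rfl, rfl, rfl, h2, rfl,
      (hv _ _).1 h3⟩)

theorem exists_vp : ∃ V : VP, V.Good := by
  obtain ⟨T, hT, T1, T2⟩ := (CR.sum (x := fun (p : List (ℕ × List Ent) × ℕ × ℕ) n =>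
    1 / 2 ^ n * (Rr (pop p.2.1 (p.1.getD n (0, [])).2) - Rr (p.1.getD n (0, [])).2))
    ((CR.inv2 (by fun_prop)).mul ((cr_Rr (by unfold pop; exact CI.filter (by fun_prop) (by fun_prop))).sub
      (cr_Rr (by fun_prop)))) (N := fun p => p.2.2 + 1) (by fun_prop)).test
      (k := fun p => p.2.1.unpair.1) (by fun_prop)
  replace T1 : ∀ (S : List (ℕ × List Ent)) (x s : ℕ), T (S, x, s) = true →
      ∑ n ∈ Finset.range (s + 1), 1 / 2 ^ n * (Rr (pop x (S.getD n (0, [])).2) -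
        Rr (S.getD n (0, [])).2) ≤ 3 / 2 ^ x.unpair.1 := fun S x s => T1 (S, x, s)
  replace T2 : ∀ (S : List (ℕ × List Ent)) (x s : ℕ),
      ∑ n ∈ Finset.range (s + 1), 1 / 2 ^ n * (Rr (pop x (S.getD n (0, [])).2) -
        Rr (S.getD n (0, [])).2) ≤ 1 / 2 ^ x.unpair.1 → T (S, x, s) = true :=
    fun S x s => T2 (S, x, s)
  let xo : ℕ → List (ℕ × ℕ) × List (ℕ × List Ent) → Option ℕ := fun s G =>
    cond ((ev s.unpair.1.unpair.1 s.unpair.1 s == some 0) &&
      (G.1.all fun q => q.1.unpair.1 != s.unpair.1.unpair.1) && T (G.2, s.unpair.1, s))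
      (some s.unpair.1) none
  have hxo : CI ∅ fun p : ℕ × (List (ℕ × ℕ) × List (ℕ × List Ent)) => xo p.1 p.2 := by
    refine CI.cond (CI.and (CI.and (by fun_prop) (CI.all (by fun_prop) (by fun_prop)))
      (hT.comp (by fun_prop))) (by fun_prop) (by fun_prop)
  let dh : ℕ → List (ℕ × ℕ) × List (ℕ × List Ent) → List (ℕ × ℕ) := fun s G =>
    ((xo s G).map fun x => (x, s)).toList ++ G.1
  have hdh : CI ∅ fun p : ℕ × (List (ℕ × ℕ) × List (ℕ × List Ent)) => dh p.1 p.2 :=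
    CI.append (CI.toList (CI.optMap (by fun_prop) hxo)) (by fun_prop)
  let step : ℕ → List (ℕ × ℕ) × List (ℕ × List Ent) → List (ℕ × ℕ) × List (ℕ × List Ent) :=
    fun s G => (dh s G, (List.range (s + 1)).map fun n =>
      pstep n s (xo s G) (dh s G) (G.2.getD n (0, [])))
  have hstep : CI ∅ fun p : ℕ × (List (ℕ × ℕ) × List (ℕ × List Ent)) => step p.1 p.2 :=
    hdh.mk (CI.map (ci_pstep.comp (g := fun q : (ℕ × (List (ℕ × ℕ) × List (ℕ × List Ent))) × ℕ =>
      ((q.2, q.1.1), xo q.1.1 q.1.2, dh q.1.1 q.1.2, q.1.2.2.getD q.2 (0, [])))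
      (CI.mk (by fun_prop) ((hxo.comp (g := Prod.fst) (by fun_prop)).mk
        ((hdh.comp (g := Prod.fst) (by fun_prop)).mk (by fun_prop))))) (by fun_prop))
  let G : ℕ → List (ℕ × ℕ) × List (ℕ × List Ent) := fun s => Nat.rec ([], []) step s
  have hG : CI ∅ G := CI.of_rec1 hstep fun _ => rfl
  have Gs : ∀ s, G (s + 1) = step s (G s) := fun _ => rfl
  have mem : ∀ s q, q ∈ (G s).1 ↔ q.2 < s ∧ xo q.2 (G q.2) = some q.1 := by
    intro s
    induction s with
    | zero => simp [G]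
    | succ s ih =>
      rintro ⟨x, t⟩
      rw [Gs]
      simp only [step, dh, List.mem_append, ih, Option.mem_toList, Option.map_eq_some_iff,
        Prod.mk.injEq]
      constructor
      · rintro (⟨x', h, rfl, rfl⟩ | ⟨h1, h2⟩)
        · exact ⟨by omega, h⟩
        · exact ⟨by omega, h2⟩
      · rintro ⟨h1, h2⟩
        rcases Nat.lt_succ_iff_lt_or_eq.1 h1 with h | rfl
        · exact Or.inr ⟨h, h2⟩
        · exact Or.inl ⟨x, h2, rfl, rfl⟩
  have st1 : ∀ n s, n ≤ s → (G (s + 1)).2.getD n (0, []) =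
      pstep n s (xo s (G s)) (G (s + 1)).1 ((G s).2.getD n (0, [])) := fun n s h => by
    rw [Gs]
    simp [step, Nat.lt_succ_iff.2 h]
  have st2 : ∀ n s, s ≤ n → (G s).2.getD n (0, []) = (0, []) := fun n s h => by
    cases s with
    | zero => simp [G]
    | succ s => rw [Gs]; simp [step, show ¬ n < s + 1 by omega]
  have xs : ∀ s x, xo s (G s) = some x ↔ s.unpair.1 = x ∧ ev x.unpair.1 x s = some 0 ∧
      (∀ t x', t < s → xo t (G t) = some x' → x'.unpair.1 ≠ x.unpair.1) ∧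
      T ((G s).2, x, s) = true := fun s x => by
    have e : ((G s).1.all fun q => q.1.unpair.1 != s.unpair.1.unpair.1) = true ↔
        ∀ t x', t < s → xo t (G t) = some x' → x'.unpair.1 ≠ s.unpair.1.unpair.1 := by
      simp only [List.all_eq_true, mem, bne_iff_ne]
      exact ⟨fun h t x' h1 h2 => h (x', t) ⟨h1, h2⟩, fun h q hq => h _ _ hq.1 hq.2⟩
    constructor
    · intro h
      simp only [xo, Bool.cond_eq_ite, Option.ite_none_right_eq_some, Bool.and_eq_true,
        beq_iff_eq, Option.some.injEq] at h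
      obtain ⟨⟨⟨h1, h2⟩, h3⟩, rfl⟩ := h
      exact ⟨rfl, h1, e.1 h2, h3⟩
    · rintro ⟨rfl, h1, h2, h3⟩
      simp only [xo, h1, e.2 h2, h3, beq_self_eq_true, Bool.and_self, cond_true]
  refine ⟨⟨fun s => xo s (G s), fun n s => ((G s).2.getD n (0, [])).1,
    fun n s => ((G s).2.getD n (0, [])).2⟩, hxo.comp (g := fun s => (s, G s)) (by fun_prop),
    by fun_prop, by fun_prop, fun n => by simp [G], fun n s h => by simp only [st2 n s h],
    fun n s => ?_, fun s x h => ?_, fun s x h1 h2 h3 h4 => (xs s x).2 ⟨h1, h2, h4, T2 (G s).2 x s (by simpa only [VP.cost] using h3)⟩⟩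
  · simp only [VP.Pushed]
    by_cases hn : n ≤ s
    swap
    · rw [st2 n s (by omega), st2 n (s + 1) (by omega)]
      exact Or.inr ⟨by simp, Or.inl ⟨rfl, rfl, fun h => absurd h hn⟩⟩
    rw [st1 n s hn]
    have hv : ∀ κ u, ((G (s + 1)).1.all fun q => decide (q.2 < κ) || decide (u ≤ q.1)) = true ↔
        Valid (fun s => xo s (G s)) κ s u := fun κ u => by
      simp only [List.all_eq_true, mem, Bool.or_eq_true, decide_eq_true_eq, Valid]
      exact ⟨fun h t x h1 h2 h3 => (h (x, t) ⟨by omega, h3⟩).resolve_left (by omega),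
        fun h q hq => (lt_or_ge q.2 κ).imp_right fun h1 => h _ _ h1 (by omega) hq.2⟩
    exact pstep_spec n s _ _ _ (fun κ u => Valid (fun s => xo s (G s)) κ s u) hv
  · obtain ⟨-, h2, h3, h4⟩ := (xs s x).1 h
    exact ⟨h2, by simpa only [VP.cost] using T1 (G s).2 x s h4, h3⟩

end Pool.Agent.H83.Tcc
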