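import Mathlib
import Pool.Agent.H83.Tcd2

/-! Properties of the stack players and of the c.e. set. -/

set_option autoImplicit false

namespace Pool.Agent.H83.Tcc

open Pool.Agent.H37 Filter Topology

theorem le_topU {L : List Ent} (h : L.Pairwise fun a b => b.1 ≤ a.1) : ∀ b ∈ L, b.1 ≤ topU L := by
  cases L with
  | nil => simp
  | cons a L =>
    intro b hb
    rcases List.mem_cons.1 hb with rfl | hb
    · exact le_rfl
    · exact (List.pairwise_cons.1 h).1 b hb

def VP.D (V : VP) (x : ℕ) : Prop := ∃ s, V.X s = some x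
def VP.Dl (V : VP) (t x : ℕ) : ℕ := ((List.range t).any fun s => V.X s == some x).toNat
noncomputable def VP.pw (V : VP) (n s : ℕ) : ℝ := max (Rr (V.sk n s) - Rr (V.sk n (s + 1))) 0
def VP.Stable (V : VP) (n : ℕ) (L : List Ent) (s1 : ℕ) : Prop :=
  V.sk n s1 = L ∧ V.ky n s1 = s1 ∧ ∀ s, s1 ≤ s → L <:+ V.sk n s

namespace VP.Good

variable {V : VP} (hV : V.Good)
include hV

theorem sorted (n s : ℕ) : (V.sk n s).Pairwise fun a b => b.1 ≤ a.1 := by
  induction s with
  | zero => rw [hV.early n 0 (Nat.zero_le _)]; exact List.Pairwise.nil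
  | succ s ih =>
    rcases hV.tr n s with ⟨x, -, -, h, -⟩ | ⟨-, ⟨-, h, -⟩ | ⟨-, h, -⟩ | ⟨a, -, h, -, -, -, -, h2, -⟩⟩
    · rw [h]; exact ih.filter _
    · rwa [h]
    · rwa [h]
    · rw [h]
      exact List.pairwise_cons.2 ⟨fun b hb => h2 ▸ (le_topU ih b hb).trans (le_max_right _ _), ih⟩

theorem sfx (n s : ℕ) : V.sk n (s + 1) <:+ V.sk n s ∨ ∃ a, V.Pushed n s a (V.sk n s) := by
  rcases hV.tr n s with ⟨x, -, -, h, -⟩ | ⟨-, ⟨-, h, -⟩ | ⟨-, h, -⟩ | h⟩
  · exact Or.inl (h ▸ pop_suffix (hV.sorted n s))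
  · exact Or.inl (h ▸ List.suffix_rfl)
  · exact Or.inl (h ▸ List.suffix_rfl)
  · exact Or.inr h

theorem kstep (n s : ℕ) : V.ky n (s + 1) = s + 1 ∨
    (V.ky n (s + 1) = V.ky n s ∧ V.sk n (s + 1) = V.sk n s) := by
  rcases hV.tr n s with ⟨x, -, h, -⟩ | ⟨-, ⟨h, h', -⟩ | ⟨h, -⟩ | ⟨a, -, -, h, -⟩⟩
  exacts [Or.inl h, Or.inr ⟨h, h'⟩, Or.inl h, Or.inl h]

theorem key (n s : ℕ) : V.ky n s ≤ s ∧
    ∀ t, V.ky n s ≤ t → t ≤ s → V.ky n t = V.ky n s ∧ V.sk n t = V.sk n s := by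
  induction s with
  | zero => exact ⟨(hV.ky0 n).le, fun t _ h => by simp [Nat.le_zero.1 h]⟩
  | succ s ih =>
    rcases hV.kstep n s with h | ⟨h, h'⟩
    · exact ⟨h.le, fun t h1 h2 => by rw [show t = s + 1 by omega]; exact ⟨rfl, rfl⟩⟩
    · refine ⟨by omega, fun t h1 h2 => ?_⟩
      rcases h2.lt_or_eq with h2 | rfl
      · rw [h, h']; exact ih.2 t (by omega) (by omega)
      · exact ⟨rfl, rfl⟩

theorem hist (n s : ℕ) : ∀ a L, a :: L <:+ V.sk n s →
    ∃ s' < s, V.Pushed n s' a L ∧ ∀ t, s' < t → t ≤ s → a :: L <:+ V.sk n t := by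
  induction s with
  | zero => intro a L h; rw [hV.early n 0 (Nat.zero_le _)] at h; simp at h
  | succ s ih =>
    intro a L h
    have aux : a :: L <:+ V.sk n s →
        ∃ s' < s + 1, V.Pushed n s' a L ∧ ∀ t, s' < t → t ≤ s + 1 → a :: L <:+ V.sk n t := fun h1 => by
      obtain ⟨s', k1, k2, k3⟩ := ih a L h1
      refine ⟨s', by omega, k2, fun t h2 h3 => ?_⟩
      rcases h3.lt_or_eq with h3 | rfl
      · exact k3 t h2 (by omega)
      · exact h
    rcases hV.sfx n s with h1 | ⟨b, h1⟩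
    · exact aux (h.trans h1)
    · have h2 := h
      rw [h1.2.1, List.suffix_cons_iff] at h2
      rcases h2 with h2 | h2
      · obtain ⟨rfl, rfl⟩ := List.cons.inj h2
        exact ⟨s, by omega, h1, fun t h3 h4 => by rwa [show t = s + 1 by omega]⟩
      · exact aux h2

theorem xinj {s s' x x' : ℕ} (h : V.X s = some x) (h' : V.X s' = some x')
    (e : x.unpair.1 = x'.unpair.1) : s = s' := by
  rcases lt_trichotomy s s' with k | k | k
  · exact absurd e ((hV.x1 s' x' h').2.2 s x k h)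
  · exact k
  · exact absurd e.symm ((hV.x1 s x h).2.2 s' x' k h')

theorem cost_nonneg (x s n : ℕ) : 0 ≤ Rr (pop x (V.sk n s)) - Rr (V.sk n s) :=
  sub_nonneg.2 (Rr_mono (pop_suffix (hV.sorted n s)))

theorem pw_sum (n N : ℕ) : ∑ s ∈ Finset.range N, V.pw n s ≤ 2 + 2 ^ n * 6 := by
  classical
  let g : ℕ → ℝ := fun s => (V.X s).elim 0 fun x => 3 / 2 ^ x.unpair.1
  have g0 : ∀ s, 0 ≤ g s := fun s => by
    simp only [g]; cases V.X s
    · exact le_rfl
    · simp only [Option.elim]; positivity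
  have g1 : ∑ s ∈ Finset.range N, g s ≤ 6 := by
    let φ : ℕ → ℕ := fun s => ((V.X s).getD 0).unpair.1
    have hs : HasSum (fun e : ℕ => (3 : ℝ) / 2 ^ e) 6 := by
      have := hasSum_geometric_two.mul_left 3
      norm_num at this
      simpa [div_eq_mul_inv] using this
    calc ∑ s ∈ Finset.range N, g s
        = ∑ s ∈ (Finset.range N).filter fun s => (V.X s).isSome, (3 : ℝ) / 2 ^ φ s := by
          rw [Finset.sum_filter]
          refine Finset.sum_congr rfl fun s _ => ?_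
          simp only [g, φ]
          cases V.X s <;> simp
      _ = ∑ e ∈ ((Finset.range N).filter fun s => (V.X s).isSome).image φ, (3 : ℝ) / 2 ^ e := by
          refine (Finset.sum_image (f := fun e => (3 : ℝ) / 2 ^ e) fun s hs s' hs' e => ?_).symm
          obtain ⟨x, hx⟩ := Option.isSome_iff_exists.1 (Finset.mem_filter.1 hs).2
          obtain ⟨x', hx'⟩ := Option.isSome_iff_exists.1 (Finset.mem_filter.1 hs').2
          exact hV.xinj hx hx' (by simpa [φ, hx, hx'] using e)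
      _ ≤ 6 := sum_le_hasSum _ (fun _ _ => by positivity) hs
  have g2 : ∀ s, V.pw n s ≤ Rr (V.sk n s) - Rr (V.sk n (s + 1)) + 2 ^ n * g s := by
    intro s
    have h0 : 0 ≤ 2 ^ n * g s := mul_nonneg (by positivity) (g0 s)
    refine max_le (by linarith) ?_
    rcases hV.tr n s with ⟨x, hx, -, h, h'⟩ | ⟨-, ⟨-, h, -⟩ | ⟨-, h, -⟩ | ⟨a, -, h, -⟩⟩
    · have hn : n < s + 1 := by
        by_contra hn
        rw [hV.early n s (by omega)] at h'
        simp at h'
      have k1 := (Finset.single_le_sum (f := fun n => 1 / 2 ^ n *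
        (Rr (pop x (V.sk n s)) - Rr (V.sk n s))) (fun m _ => mul_nonneg (by positivity)
          (hV.cost_nonneg x s m)) (Finset.mem_range.2 hn)).trans (hV.x1 s x hx).2.1
      have e : g s = 3 / 2 ^ x.unpair.1 := by simp only [g, hx, Option.elim]
      rw [← e, one_div_mul_eq_div, div_le_iff₀ (by positivity)] at k1
      rw [h]; linarith
    · rw [h]; linarith
    · rw [h]; linarith
    · rw [h]; linarith [Rr_cons_le a (V.sk n s)]
  refine (Finset.sum_le_sum fun s _ => g2 s).trans ?_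
  rw [Finset.sum_add_distrib, Finset.sum_range_sub' (fun s => Rr (V.sk n s)), ← Finset.mul_sum]
  have := Rr_le (V.sk n 0)
  have := Rr_nonneg (V.sk n N)
  have : (2 : ℝ) ^ n * ∑ s ∈ Finset.range N, g s ≤ 2 ^ n * 6 := by gcongr
  linarith

theorem pw_summable (n : ℕ) : Summable (V.pw n) :=
  summable_of_sum_range_le (fun _ => le_max_right _ _) (hV.pw_sum n)

theorem lim1 (n : ℕ) : Tendsto (fun p : ℕ × ℕ => Rr (pop p.1 (V.sk n p.2)) - Rr (V.sk n p.2))
    atTop (𝓝 0) := by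
  refine Metric.tendsto_atTop.2 fun ε hε => ?_
  obtain ⟨s0, hs0⟩ := ((hV.pw_summable n).hasSum.tendsto_sum_nat.eventually
    (lt_mem_nhds (show ∑' s, V.pw n s - ε < ∑' s, V.pw n s by linarith))).exists
  have key : ∀ s, s0 ≤ s → ∃ L0, L0 <:+ V.sk n s ∧ (∀ a ∈ L0, a.1 ≤ topU (V.sk n s0)) ∧
      Rr L0 - Rr (V.sk n s) ≤ ∑ t ∈ Finset.range s, V.pw n t - ∑ t ∈ Finset.range s0, V.pw n t := by
    intro s hs
    induction s, hs using Nat.le_induction with
    | base => exact ⟨_, List.suffix_rfl, le_topU (hV.sorted n s0), by simp⟩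
    | succ s hs ih =>
      obtain ⟨L0, h1, h2, h3⟩ := ih
      have k1 : Rr (V.sk n s) - Rr (V.sk n (s + 1)) ≤ V.pw n s := le_max_left _ _
      have k2 : 0 ≤ V.pw n s := le_max_right _ _
      rw [Finset.sum_range_succ]
      rcases hV.sfx n s with h | ⟨a, -, h, -⟩
      · rcases List.suffix_or_suffix_of_suffix h1 h with h4 | h4
        · exact ⟨L0, h4, h2, by linarith⟩
        · exact ⟨_, List.suffix_rfl, fun a ha => h2 a (h4.subset ha), by linarith [Rr_mono h1]⟩
      · exact ⟨L0, h ▸ h1.trans (List.suffix_cons _ _), h2, by linarith⟩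
  refine ⟨(topU (V.sk n s0), s0), fun p hp => ?_⟩
  obtain ⟨L0, h1, h2, h3⟩ := key p.2 hp.2
  have k1 := Rr_mono (suffix_pop (x := p.1) h1 fun a ha => (h2 a ha).trans hp.1)
  have k2 : ∑ t ∈ Finset.range p.2, V.pw n t ≤ ∑' s, V.pw n s :=
    (hV.pw_summable n).sum_le_tsum (Finset.range p.2) fun _ _ => le_max_right _ _
  rw [Real.dist_eq, sub_zero, abs_of_nonneg (hV.cost_nonneg _ _ _)]
  linarith

theorem lim2 : Tendsto (fun p : ℕ × ℕ => V.cost p.1 p.2) atTop (𝓝 0) := by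
  have := tendsto_tsum_of_dominated_convergence (𝓕 := (atTop : Filter (ℕ × ℕ)))
    (f := fun p n => (1 : ℝ) / 2 ^ n * (Rr (pop p.1 (V.sk n p.2)) - Rr (V.sk n p.2)))
    (g := fun _ => 0) (bound := fun n => (1 / 2) ^ n * 2) (summable_geometric_two.mul_right 2)
    (fun n => by simpa only [mul_zero] using (hV.lim1 n).const_mul (1 / 2 ^ n))
    (Eventually.of_forall fun p n => by
      rw [Real.norm_of_nonneg (mul_nonneg (by positivity) (hV.cost_nonneg _ _ _)), one_div_pow]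
      gcongr
      linarith [Rr_le (pop p.1 (V.sk n p.2)), Rr_nonneg (V.sk n p.2)])
  rw [tsum_zero] at this
  refine this.congr fun p => tsum_eq_sum fun n hn => ?_
  rw [hV.early n p.2 (by simp at hn; omega)]
  simp [pop]

theorem re_D : REPred V.D := by
  have := hV.cX
  exact re_of_nat (fun x s => V.X s == some x) (by fun_prop) fun x => by simp [VP.D]

theorem not_ci : ¬ CI ∅ (chi V.D) := by
  intro h
  obtain ⟨e, he⟩ := exists_index h
  have h1 : ∀ t x, V.X t = some x → x.unpair.1 ≠ e := by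
    intro t x hx hxe
    obtain ⟨s, hs⟩ := he x
    have := ev_unique hs (hxe ▸ (hV.x1 t x hx).1)
    simp [chi, show V.D x from ⟨t, hx⟩] at this
  obtain ⟨⟨x0, s0⟩, h2⟩ := eventually_atTop.1 (hV.lim2.eventually
    (gt_mem_nhds (show (0 : ℝ) < 1 / 2 ^ e by positivity)))
  obtain ⟨s, hs⟩ := he (Nat.pair e x0)
  have hD : ¬ V.D (Nat.pair e x0) := fun ⟨t, ht⟩ => h1 t _ ht (by simp)
  simp only [chi, if_neg hD] at hs
  refine hD ⟨Nat.pair (Nat.pair e x0) (s + s0), hV.x2 _ _ (by simp) ?_ ?_ ?_⟩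
  · simpa using ev_mono ((Nat.le_add_right s s0).trans (Nat.right_le_pair _ _)) hs
  · simpa using (h2 (Nat.pair e x0, Nat.pair (Nat.pair e x0) (s + s0)) ⟨Nat.right_le_pair _ _,
      (Nat.le_add_left s0 s).trans (Nat.right_le_pair _ _)⟩).le
  · simpa using fun t x' _ hx => h1 t x' hx

theorem ci_Dl : CI ∅ fun p : ℕ × ℕ => V.Dl p.1 p.2 := by
  have := hV.cX
  unfold VP.Dl
  exact CI.toNat (CI.any (by fun_prop) (by fun_prop))

omit hV in
theorem Dl_eq {κ u : ℕ} (h : ∀ t x, κ ≤ t → V.X t = some x → u ≤ x) {t : ℕ} (ht : κ ≤ t) :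
    pre (V.Dl t) u = pre (chi V.D) u := pre_congr fun x hx => by
  by_cases hD : V.D x
  · obtain ⟨s, hs⟩ := id hD
    have : s < t := by
      by_contra hlt
      have := h s x (by omega) hs
      omega
    have e : ((List.range t).any fun s => V.X s == some x) = true :=
      List.any_eq_true.2 ⟨s, List.mem_range.2 this, by simp [hs]⟩
    simp [VP.Dl, chi, hD, e]
  · have e : ((List.range t).any fun s => V.X s == some x) = false :=
      List.any_eq_false.2 fun s _ hs => hD ⟨s, by simpa using hs⟩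
    simp [VP.Dl, chi, hD, e]

theorem settle (u : ℕ) : ∃ s, ∀ t x, s ≤ t → V.X t = some x → u ≤ x := by
  have : {t | ∃ x < u, V.X t = some x}.Finite := by
    refine ((Set.finite_lt_nat u).biUnion (t := fun x => {t | V.X t = some x}) fun x _ =>
      Set.Subsingleton.finite fun s hs s' hs' => hV.xinj hs hs' rfl).subset ?_
    rintro t ⟨x, h1, h2⟩
    exact Set.mem_biUnion h1 h2
  obtain ⟨s, hs⟩ := this.bddAbove
  exact ⟨s + 1, fun t x h1 h2 => by_contra fun hlt => by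
    have := hs ⟨x, not_le.1 hlt, h2⟩
    omega⟩

theorem idle {n s1 : ℕ} {L : List Ent} (h : V.Stable n L s1) (hE : ∀ s, E n s1 s = none) :
    ∀ s, s1 ≤ s → V.ky n s = s1 ∧ V.sk n s = L := by
  intro s hs
  induction s, hs using Nat.le_induction with
  | base => exact ⟨h.2.1, h.1⟩
  | succ s hs ih =>
    rcases hV.tr n s with ⟨x, -, -, -, h'⟩ | ⟨-, ⟨h1, h2, -⟩ | ⟨-, -, v, h', -⟩ | ⟨a, -, -, -, -, h', -⟩⟩
    · have := (h.2.2 (s + 1) (by omega)).length_le
      rw [ih.2] at h'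
      omega
    · rw [h1, h2]; exact ih
    · rw [ih.1, hE] at h'; cases h'
    · rw [ih.1, hE] at h'; cases h'

theorem first_change {n κ s v s2 : ℕ} (hs : V.ky n s = κ) (hE : E n κ s2 = some v) :
    ∃ t, s ≤ t ∧ V.ky n t = κ ∧ V.sk n t = V.sk n s ∧ V.ky n (t + 1) = t + 1 := by
  by_contra hn
  push Not at hn
  have k : ∀ t, s ≤ t → V.ky n t = κ ∧ V.sk n t = V.sk n s := by
    intro t ht
    induction t, ht using Nat.le_induction with
    | base => exact ⟨hs, rfl⟩
    | succ t ht ih =>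
      rcases hV.kstep n t with h | h
      · exact absurd h (hn t ht ih.1 ih.2)
      · rw [h.1, h.2]; exact ih
  obtain ⟨k1, k2⟩ := k (s + s2 + n + v.unpair.1) (by omega)
  have k3 := hn _ (by omega) k1 k2
  rcases hV.tr n (s + s2 + n + v.unpair.1) with
    ⟨x, -, h, -⟩ | ⟨-, ⟨-, -, h⟩ | ⟨h, -⟩ | ⟨a, -, -, h, -⟩⟩
  · exact k3 h
  · have := h (by omega) v (by rw [k1]; exact E_mono hE (by omega))
    omega
  · exact k3 h
  · exact k3 h

theorem persist {n s1 s : ℕ} {a : Ent} {L : List Ent} (h : V.Stable n L s1) (hs : s1 ≤ s)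
    (h1 : a :: L <:+ V.sk n s) (hn : ∀ κ, s < κ → V.ky n κ = κ → V.sk n κ ≠ L) :
    ∀ t, s ≤ t → a :: L <:+ V.sk n t := by
  intro t ht
  induction t, ht using Nat.le_induction with
  | base => exact h1
  | succ t ht ih =>
    rcases hV.tr n t with ⟨x, -, k1, k2, -⟩ | ⟨-, ⟨-, k, -⟩ | ⟨-, k, -⟩ | ⟨b, -, k, -⟩⟩
    · have k3 : V.sk n (t + 1) <:+ V.sk n t := k2 ▸ pop_suffix (hV.sorted n t)
      rcases List.suffix_or_suffix_of_suffix ih k3 with k4 | k4
      · exact k4
      · rcases List.suffix_cons_iff.1 k4 with k5 | k5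
        · rw [k5]
        · exact absurd (k5.eq_of_length_le (h.2.2 (t + 1) (by omega)).length_le)
            (hn _ (by omega) k1)
    · rwa [k]
    · rwa [k]
    · rw [k]; exact ih.trans (List.suffix_cons _ _)

theorem extend {n s1 : ℕ} {L : List Ent} (h : V.Stable n L s1)
    (live : ∀ κ, V.ky n κ = κ → V.sk n κ = L → ∃ s v, E n κ s = some v)
    (bd : ∃ u s0, ∀ κ, s0 ≤ κ → V.ky n κ = κ → V.sk n κ = L → ∀ s v, E n κ s = some v →
      v.unpair.1 ≤ u) :
    ∃ s a, s1 ≤ V.ky n s ∧ V.Pushed n s a L ∧ V.Stable n (a :: L) (s + 1) ∧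
      ∀ t x, V.ky n s ≤ t → V.X t = some x → a.2.2.unpair.1 ≤ x := by
  suffices ∃ s a, s1 ≤ s ∧ V.Pushed n s a L ∧ ∀ t, s + 1 ≤ t → a :: L <:+ V.sk n t by
    obtain ⟨s, a, h0, h1, h2⟩ := this
    refine ⟨s, a, ?_, h1, ⟨h1.2.1, h1.2.2.1, h2⟩, fun t x k1 k2 => ?_⟩
    · by_contra hlt
      have := ((hV.key n s).2 s1 (by omega) h0).1
      rw [h.2.1] at this
      omega
    by_cases ht : t ≤ s
    · exact h1.2.2.2.2.2.2.2 t x k1 ht k2
    have k3 : a.2.2.unpair.1 ≤ a.1 := h1.2.2.2.2.2.2.1 ▸ le_max_left _ _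
    refine k3.trans ?_
    rcases hV.tr n t with ⟨x', k4, -, k5, -⟩ | ⟨k4, -⟩
    · have := (h2 (t + 1) (by omega)).subset List.mem_cons_self
      rw [k5, Option.some.inj (k4.symm.trans k2)] at this
      simpa using (List.mem_filter.1 this).2
    · exact k4 x k2 a ((h2 t (by omega)).subset List.mem_cons_self)
  by_contra hc
  push Not at hc
  have A : ∀ s, s1 ≤ s → ∃ κ, s < κ ∧ V.ky n κ = κ ∧ V.sk n κ = L := by
    intro s hs
    by_contra hn
    push Not at hn
    by_cases hL : V.sk n s = L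
    · obtain ⟨k1, k2⟩ := (hV.key n s).2 _ le_rfl (hV.key n s).1
      obtain ⟨s2, v, hv⟩ := live _ k1 (k2.trans hL)
      obtain ⟨t, t1, t2, t3, t4⟩ := hV.first_change rfl hv
      rw [hL] at t3
      rcases hV.sfx n t with k | ⟨a, k⟩
      · rw [t3] at k
        exact hn (t + 1) (by omega) t4 (k.eq_of_length_le (h.2.2 (t + 1) (by omega)).length_le)
      · rw [t3] at k
        obtain ⟨t', k3, k4⟩ := hc t a (by omega) k
        exact k4 (hV.persist h (by omega) (k.2.1 ▸ List.suffix_rfl)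
          (fun κ hκ => hn κ (by omega)) t' k3)
    · obtain ⟨p, hp⟩ := h.2.2 s hs
      rcases List.eq_nil_or_concat p with rfl | ⟨p', a, rfl⟩
      · exact hL hp.symm
      have k0 : a :: L <:+ V.sk n s := ⟨p', by rw [← hp]; simp⟩
      obtain ⟨s', k1, k2, k3⟩ := hV.hist n s a L k0
      have k4 : s1 ≤ s' := by
        by_contra hlt
        have := (k3 s1 (by omega) hs).length_le
        rw [h.1] at this
        simp at this
      obtain ⟨t', k5, k6⟩ := hc s' a k4 k2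
      by_cases k7 : t' ≤ s
      · exact k6 (k3 t' (by omega) k7)
      · exact k6 (hV.persist h hs k0 hn t' (by omega))
  obtain ⟨u, s0, bd⟩ := bd
  obtain ⟨s2, hs2⟩ := hV.settle (max u (topU L))
  obtain ⟨κ, k1, k2, k3⟩ := A (s1 + s0 + s2) (by omega)
  obtain ⟨s3, v, hv⟩ := live κ k2 k3
  obtain ⟨t, t1, t2, t3, t4⟩ := hV.first_change k2 hv
  rw [k3] at t3
  rcases hV.tr n t with ⟨x, -, -, -, k⟩ | ⟨-, ⟨k, -⟩ | ⟨-, -, w, k, k'⟩ | ⟨a, k⟩⟩
  · have := (h.2.2 (t + 1) (by omega)).length_le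
    rw [t3] at k
    omega
  · omega
  · rw [t2] at k k'
    exact k' fun t' x h1 _ h3 => (bd κ (by omega) k2 k3 _ _ k).trans
      ((le_max_left _ _).trans (hs2 t' x (by omega) h3))
  · rw [t3] at k
    obtain ⟨t', k5, k6⟩ := hc t a (by omega) k
    have ha : a.1 ≤ max u (topU L) := by
      rw [k.2.2.2.2.2.2.1]
      exact max_le_max (bd κ (by omega) k2 k3 t _ (t2 ▸ k.2.2.2.2.1)) le_rfl
    have hs := hV.sorted n (t + 1)
    rw [k.2.1] at hs
    refine k6 ?_
    induction t', k5 using Nat.le_induction with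
    | base => exact k.2.1 ▸ List.suffix_rfl
    | succ t' k5 ih =>
      by_cases k7 : a :: L <:+ V.sk n t'
      swap
      · exact ih k7 |>.elim fun _ _ => absurd (ih k7) k7
      rcases hV.tr n t' with ⟨x, j0, -, j, -⟩ | ⟨-, ⟨-, j, -⟩ | ⟨-, j, -⟩ | ⟨b, -, j, -⟩⟩
      · rw [j]
        exact suffix_pop k7 fun b hb => (le_topU hs b hb).trans (ha.trans (hs2 t' x (by omega) j0))
      · rwa [j]
      · rwa [j]
      · rw [j]; exact k7.trans (List.suffix_cons _ _)

end VP.Good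

end Pool.Agent.H83.Tcc
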