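import Mathlib
import Pool.Agent.H83.Tcd3

/-! Answering oracle queries, bottom entries, and the case of dense isolated points. -/

set_option autoImplicit false

namespace Pool.Agent.H83.Tcc

open Pool.Agent.H37 Filter Topology

def VP.bp (V : VP) (n t : ℕ) : Bool := (V.sk n t).isEmpty && !(V.sk n (t + 1)).isEmpty
def VP.inc (V : VP) (n s : ℕ) : ℕ := (List.range s).countP (V.bp n)
def VP.Tb (V : VP) (e t : ℕ) : Option ℕ :=
  ((List.range t).find? fun s => V.bp e.unpair.1 s && V.inc e.unpair.1 s == e.unpair.2).map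
    fun s => ((V.sk e.unpair.1 (s + 1)).headD (0, 0, 0)).2.2.unpair.2.unpair.2

structure IsAns (V : VP) (Θ : ℕ → ℕ) (Ans : ℕ → ℕ → ℕ → Option (ℕ × ℕ)) : Prop where
  ci : CI ∅ fun p : ℕ × ℕ × ℕ => Ans p.1 p.2.1 p.2.2
  sound : ∀ κ z t k w, Ans κ z t = some (k, w) →
    (∀ t x, κ ≤ t → V.X t = some x → k ≤ x) → w = Θ z
  live : ∀ κ z, ∀ᶠ t in atTop, (Ans κ z t).isSome = true
  bd : ∀ z, ∃ u s0, ∀ κ, s0 ≤ κ → ∀ t k w, Ans κ z t = some (k, w) → k ≤ u

theorem inc_succ (V : VP) (n s : ℕ) : V.inc n (s + 1) = V.inc n s + (V.bp n s).toNat := by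
  simp only [VP.inc, List.range_succ, List.countP_append]
  cases h : V.bp n s <;> simp [h]

theorem inc_mono (V : VP) (n : ℕ) : Monotone (V.inc n) :=
  monotone_nat_of_le_succ fun s => by rw [inc_succ]; omega

theorem Tb_mono (V : VP) {e t t' v : ℕ} (h : V.Tb e t = some v) (ht : t ≤ t') :
    V.Tb e t' = some v := by
  simp only [VP.Tb, Option.map_eq_some_iff, List.find?_range_eq_some, List.mem_range] at h ⊢
  obtain ⟨s, ⟨h1, h2, h3⟩, h4⟩ := h
  exact ⟨s, ⟨h1, by omega, h3⟩, h4⟩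

namespace VP.Good

variable {V : VP} (hV : V.Good)
include hV

theorem ci_sk {α : Type} [Primcodable α] {f g : α → ℕ} (hf : CI ∅ f) (hg : CI ∅ g) :
    CI ∅ fun a => V.sk (f a) (g a) := hV.csk.comp (g := fun a => (f a, g a)) (hf.mk hg)

theorem ci_bp {α : Type} [Primcodable α] {f g : α → ℕ} (hf : CI ∅ f) (hg : CI ∅ g) :
    CI ∅ fun a => V.bp (f a) (g a) :=
  (hV.ci_sk hf hg).isEmpty.and (hV.ci_sk hf (by fun_prop)).isEmpty.not

theorem ci_inc {α : Type} [Primcodable α] {f g : α → ℕ} (hf : CI ∅ f) (hg : CI ∅ g) :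
    CI ∅ fun a => V.inc (f a) (g a) :=
  CI.countP (hV.ci_bp (by fun_prop) (by fun_prop)) hg.range

theorem ci_Tb : CI ∅ fun p : ℕ × ℕ => V.Tb p.1 p.2 := by
  unfold VP.Tb
  refine CI.optMap ?_ (CI.find? (CI.and (hV.ci_bp (by fun_prop) (by fun_prop))
    (CI.beq (hV.ci_inc (by fun_prop) (by fun_prop)) (by fun_prop))) (by fun_prop))
  have : CI ∅ fun p : (ℕ × ℕ) × ℕ => V.sk p.1.1.unpair.1 (p.2 + 1) :=
    hV.ci_sk (by fun_prop) (by fun_prop)
  fun_prop

theorem answer {Θ : ℕ → ℕ} (h : CI (orc (chi V.D)) Θ) : ∃ Ans, IsAns V Θ Ans := by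
  obtain ⟨Φ, h1, h2, h3⟩ := exists_rep (RecursiveIn.iff_nat.1 h.ri)
  have hD := hV.ci_Dl
  have hp : ∀ {α : Type} [Primcodable α] {f g z : α → ℕ}, CI ∅ f → CI ∅ g → CI ∅ z →
      CI ∅ fun a => Φ (pre (V.Dl (f a)) (g a)) (z a) := fun {α} _ {f g z} hf hg hz =>
    h1.comp (g := fun a => (pre (V.Dl (f a)) (g a), z a))
      ((CI.pre (x := fun a => V.Dl (f a)) (ci2 (f := fun q : α × ℕ => f q.1) (g := fun q => q.2) hD
        (by fun_prop) (by fun_prop)) hg).mk hz)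
  have tru : ∀ z, ∃ k s, ∀ t, s ≤ t → Φ (pre (V.Dl t) k) z = some (Θ z) := fun z => by
    obtain ⟨k, hk⟩ := ((h3 z (Θ z)).1 (by simp)).exists
    obtain ⟨s, hs⟩ := hV.settle k
    exact ⟨k, s, fun t ht => by rw [Dl_eq hs ht, hk]⟩
  refine ⟨fun κ z t => ((List.range (κ + t + 1)).find? fun k =>
    (Φ (pre (V.Dl (κ + t)) k) z).isSome).map fun k => (k, (Φ (pre (V.Dl (κ + t)) k) z).getD 0),
    CI.optMap (CI.mk (by fun_prop) (CI.optGetD (hp (by fun_prop) (by fun_prop) (by fun_prop))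
      (by fun_prop))) (CI.find? (hp (by fun_prop) (by fun_prop) (by fun_prop)).isSome (by fun_prop)),
    fun κ z t k w h4 h5 => ?_, fun κ z => ?_, fun z => ?_⟩
  · simp only [Option.map_eq_some_iff, List.find?_range_eq_some, Prod.mk.injEq] at h4
    obtain ⟨_, ⟨h6, -⟩, rfl, rfl⟩ := h4
    obtain ⟨w, hw⟩ := Option.isSome_iff_exists.1 h6
    rw [hw, Option.getD_some]
    rw [Dl_eq h5 (Nat.le_add_right _ _)] at hw
    simpa using (h3 z w).2 (h2.ev.1 ⟨_, hw⟩)
  · obtain ⟨k, s, hk⟩ := tru z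
    refine (eventually_ge_atTop (s + k)).mono fun t ht => ?_
    rw [Option.isSome_map, List.find?_isSome]
    exact ⟨k, List.mem_range.2 (by omega), by rw [hk _ (by omega)]; rfl⟩
  · obtain ⟨k, s, hk⟩ := tru z
    refine ⟨k, s, fun κ hκ t k' w h4 => by_contra fun hlt => ?_⟩
    simp only [Option.map_eq_some_iff, List.find?_range_eq_some, Prod.mk.injEq] at h4
    obtain ⟨_, ⟨-, -, h6⟩, rfl, -⟩ := h4
    have := h6 k (not_le.1 hlt)
    rw [hk _ (by omega)] at this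
    simp at this

theorem inc_const (n : ℕ) : ∃ s0, ∀ s, s0 ≤ s → V.inc n s = V.inc n s0 := by
  obtain ⟨s0, h⟩ := eventually_atTop.1 ((hV.pw_summable n).tendsto_atTop_zero.eventually
    (gt_mem_nhds one_pos))
  refine ⟨s0, fun s hs => ?_⟩
  induction s, hs using Nat.le_induction with
  | base => rfl
  | succ s hs ih =>
    rw [inc_succ, ih]
    cases hb : V.bp n s
    · rfl
    exfalso
    simp only [VP.bp, Bool.and_eq_true, List.isEmpty_iff, Bool.not_eq_eq_eq_not, Bool.not_true,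
      List.isEmpty_eq_false_iff] at hb
    rcases hV.sfx n s with k | ⟨a, k⟩
    · rw [hb.1] at k; exact hb.2 (List.suffix_nil.1 k)
    · have := h s hs
      rw [VP.pw, k.2.1, hb.1, Rr_nil, Rr_one] at this
      norm_num at this

theorem bottom {Θ : ℕ → ℕ} {Ans : ℕ → ℕ → ℕ → Option (ℕ × ℕ)} (hA : IsAns V Θ Ans) (n : ℕ)
    (h1 : ∀ κ s v, V.sk n κ = [] → E n κ s = some v → ∃ t k w,
      Ans κ (Nat.pair n (V.inc n κ)) t = some (k, w) ∧ v = Nat.pair k (Nat.pair 0 w))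
    (h2 : ∀ κ t, V.sk n κ = [] → (Ans κ (Nat.pair n (V.inc n κ)) t).isSome = true →
      ∃ s v, E n κ s = some v) :
    ∃ s a, V.Pushed n s a [] ∧ V.Stable n [a] (s + 1) ∧
      a.2.2.unpair.2.unpair.2 = Θ (Nat.pair n (V.inc n s)) ∧
      V.Tb (Nat.pair n (V.inc n s)) (s + 1) = some (Θ (Nat.pair n (V.inc n s))) := by
  obtain ⟨s, a, -, k1, k2, k3⟩ := hV.extend (n := n) (L := []) (s1 := 0)
    ⟨hV.early n 0 (Nat.zero_le _), hV.ky0 n, fun _ _ => List.nil_suffix⟩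
    (fun κ _ h => by
      obtain ⟨t, ht⟩ := (hA.live κ (Nat.pair n (V.inc n κ))).exists
      exact h2 κ t h ht) (by
      obtain ⟨s0, h0⟩ := hV.inc_const n
      obtain ⟨u, s1, h⟩ := hA.bd (Nat.pair n (V.inc n s0))
      refine ⟨u, s0 + s1, fun κ hκ _ h3 s v hv => ?_⟩
      obtain ⟨t, k, w, h4, rfl⟩ := h1 κ s v h3 hv
      rw [h0 κ (by omega)] at h4
      simpa using h κ (by omega) t k w h4)
  have hk := hV.key n s
  obtain ⟨t, k, w, h4, h5⟩ := h1 _ s _ ((hk.2 _ le_rfl hk.1).2.trans k1.1) k1.2.2.2.2.1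
  have e : ∀ t, V.ky n s ≤ t → t ≤ s → V.inc n t = V.inc n (V.ky n s) := by
    intro t ht
    induction t, ht using Nat.le_induction with
    | base => exact fun _ => rfl
    | succ t ht ih =>
      intro ht'
      rw [inc_succ, ih (by omega), VP.bp, (hk.2 (t + 1) (by omega) ht').2, k1.1]
      simp
  have e2 : a.2.2.unpair.2.unpair.2 = Θ (Nat.pair n (V.inc n s)) := by
    rw [e s hk.1 le_rfl, ← hA.sound _ _ _ _ _ h4 (by simpa [h5] using k3), h5]
    simp
  refine ⟨s, a, k1, k2, e2, ?_⟩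
  simp only [VP.Tb, Option.map_eq_some_iff, List.find?_range_eq_some, List.mem_range,
    Nat.unpair_pair]
  refine ⟨s, ⟨by simp [VP.bp, k1.1, k1.2.1], by omega, fun j hj => ?_⟩, by rw [k1.2.1]; exact e2⟩
  have := inc_mono V n (show j + 1 ≤ s from hj)
  rw [inc_succ] at this
  cases hb : V.bp n j
  · rfl
  · rw [hb] at this
    simp only [Bool.toNat_true] at this
    simp; omega

end VP.Good

theorem caseA_core (P : Pres) (hi : Function.Injective P.c) [Infinite P.Y]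
    (hden : ∀ (x : P.Y) (ε : ℝ), 0 < ε → ∃ i, dist i x < ε ∧ ∃ δ > 0, ∀ y, dist y i < δ → y = i)
    (T : ℕ → ℕ → Option ℕ) (hT : CI ∅ fun p : ℕ × ℕ => T p.1 p.2)
    (hf : ∀ e n n' v v', T e n = some v → T e n' = some v' → v = v') :
    ∃ M N : Pres, Nonempty (M.Y ≃ₜ P.Y) ∧ Nonempty (N.Y ≃ₜ P.Y) ∧
      ∀ O (g : M.Y → N.Y), Function.Bijective g → CommitIn O M N g →
        ∃ G : ℕ → ℕ, CI O G ∧ ∀ e n, T e n ≠ some (G e) := by
  obtain ⟨M, j, bs, hM, hbs, m1, m2, m3, m4, m5⟩ := twin P hi hden T hT hf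
  obtain ⟨N, j', bs', hN, hbs', n1, n2, n3, n4, n5⟩ := twin P hi hden
    (fun e _ => some (Nat.pair 0 (Nat.pair 1 e))) (by fun_prop)
    (fun e n n' v v' h h' => Option.some.inj (h.symm.trans h'))
  have etw : ∀ e, tw P e (Nat.pair 0 (Nat.pair 1 e)) = (P.c e, 1 / 2 ^ e) := fun e => by simp [tw]
  choose p hp using fun t => n5 t 0 _ rfl
  simp only [etw] at hp
  have jinj : Function.Injective j' := fun x y e => by
    rw [← dist_eq_zero, n1, e, dist_self]
  have jinj0 : Function.Injective j := fun x y e => by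
    rw [← dist_eq_zero, m1, e, dist_self]
  have iso : ∀ t y, dist y (p t) < 1 / 2 ^ (t + 1) → y = p t := by
    intro t y hy
    have h1 : |(j' y).2 - 1 / 2 ^ t| < 1 / 2 ^ (t + 1) := by
      rw [n1, hp, Prod.dist_eq] at hy
      exact (le_max_right _ _).trans_lt hy
    have e1 : (1 : ℝ) / 2 ^ t = 2 * (1 / 2 ^ (t + 1)) := by field_simp; ring
    have e0 : (0 : ℝ) < 1 / 2 ^ (t + 1) := by positivity
    rw [abs_lt] at h1
    rcases n4 y with h | ⟨e, n, v, h, h2⟩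
    · rw [h] at h1; linarith [h1.1]
    · rw [← Option.some.inj h, etw] at h2
      rw [h2] at h1
      rcases lt_trichotomy e t with k | k | k
      · have := inv2_le (show e + 1 ≤ t from k)
        have e2 : (1 : ℝ) / 2 ^ e = 2 * (1 / 2 ^ (e + 1)) := by field_simp; ring
        linarith [h1.2]
      · exact jinj (by rw [h2, hp, k])
      · have := inv2_le (show t + 1 ≤ e from k)
        linarith [h1.1]
  refine ⟨M, N, hM, hN, fun O g hg ⟨ok, ci, ck, cj, cl, c1, c2, c3, c4, c5, c6, c7⟩ => ?_⟩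
  have hr1 : CR fun q : ℕ × ℕ => dist (N.c q.2) (p q.1) :=
    ((P.cr (f := fun q : ℕ × ℕ => bs' q.2) (g := fun q => q.1) (by fun_prop)
      (by fun_prop)).max ((n3.comp (g := fun q : ℕ × ℕ => q.2) (by fun_prop)).sub
        (CR.inv2 (f := fun q : ℕ × ℕ => q.1) (by fun_prop))).abs).of_eq fun q => by
      rw [n1, hp, Prod.dist_eq, n2, Real.dist_eq]
  obtain ⟨T1, hT1, a1, a2⟩ := hr1.test (k := fun q => q.1 + 4) (by fun_prop)
  obtain ⟨T2, hT2, b1, b2⟩ := (m3.comp (g := fun q : ℕ × ℕ => q.2) (by fun_prop)).test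
    (k := fun q => q.1 + 3) (by fun_prop)
  have hT1 := hT1.of_empty (O := O)
  have hT2 := hT2.of_empty (O := O)
  have hbs := hbs.of_empty (O := O)
  have key : ∀ t n, ok n = true → cl n = t + 4 → T1 (t, cj n) = true → ∀ y,
      dist y (M.c (ci n)) ≤ 1 / 2 ^ ck n → g y = p t := by
    intro t n h1 h2 h3 y hy
    have k1 := c6 n h1 y hy
    have k2 := a1 _ h3
    have k3 := dist_triangle (g y) (N.c (cj n)) (p t)
    have e1 : (1 : ℝ) / 2 ^ (t + 1) = 8 * (1 / 2 ^ (t + 4)) := by field_simp; ring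
    have e2 : (3 : ℝ) / 2 ^ (t + 4) = 3 * (1 / 2 ^ (t + 4)) := by ring
    have e0 : (0 : ℝ) < 1 / 2 ^ (t + 4) := by positivity
    rw [h2] at k1
    simp only at k2
    exact iso t _ (by linarith)
  obtain ⟨ch, hch, hc⟩ := CI.exists_choice (O := O) (p := fun (e : ℕ) (q : ℕ × ℕ) =>
      ok q.2 && decide (cl q.2 = q.1 + 4) && T1 (q.1, cj q.2) && decide (e ≤ bs (ci q.2)) &&
        T2 (e, ci q.2)) (by fun_prop) (fun e => by
    choose x hx using fun t => hg.2 (p t)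
    choose nn h1 h2 h3 using fun t => c7 (x t) (t + 4)
    have h4 : ∀ t, T1 (t, cj (nn t)) = true := fun t => a2 _ (by
      have := c6 _ (h1 t) (x t) ((h3 t).le.trans (inv2_le (by omega)))
      rwa [hx, h2, dist_comm] at this)
    have h5 : ∀ t, g (M.c (ci (nn t))) = p t := fun t =>
      key t _ (h1 t) (h2 t) (h4 t) _ (by rw [dist_self]; positivity)
    have h6 : Function.Injective fun t => j (M.c (ci (nn t))) := fun s t h => by
      have : p s = p t := by rw [← h5, ← h5, jinj0 h]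
      have := congrArg (fun y => (j' y).1) this
      simp only [hp] at this
      exact hi this
    obtain ⟨_, ⟨t, rfl⟩, ht⟩ := (Set.infinite_range_of_injective h6).exists_notMem_finite
      ((tw_fin P T hf (e + 3)).union
        ((Set.finite_le_nat e).image fun i => (P.c i, (0 : ℝ))))
    refine ⟨(t, nn t), ?_⟩
    simp only [h1, h2, h4, decide_true, Bool.and_self, Bool.true_and, Bool.and_eq_true,
      decide_eq_true_eq]
    rcases m4 (M.c (ci (nn t))) with h | ⟨e', n, v, h, h7⟩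
    · refine ⟨by_contra fun hlt => ht (Or.inr ⟨bs (ci (nn t)), (not_le.1 hlt).le, ?_⟩),
        b2 _ (by simp only [h]; positivity)⟩
      exact Prod.ext (m2 _).symm h.symm
    · have he : e + 3 < e' := by_contra fun hlt => ht (Or.inl ⟨e', not_lt.1 hlt, n, v, h, h7⟩)
      have h8 := m2 (ci (nn t))
      rw [h7] at h8
      have := hi h8
      refine ⟨by omega, b2 _ ?_⟩
      simp only [h7]
      exact (min_le_left _ _).trans (inv2_le he.le))
  obtain ⟨a, ha, ha'⟩ := m3.nn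
  refine ⟨fun e => Nat.pair (bs (ci (ch e).2) - e)
    (Nat.pair (a (ci (ch e).2) (ck (ch e).2 + e + 4) + 3) (ck (ch e).2 + e + 4)), by
      have : CI O fun e : ℕ => a (ci (ch e).2) (ck (ch e).2 + e + 4) :=
        (ha.of_empty (O := O)).comp (g := fun e => (ci (ch e).2, ck (ch e).2 + e + 4)) (by fun_prop)
      exact CI.pair (by fun_prop) (CI.pair (this.add (by fun_prop)) (by fun_prop)),
    fun e n hv => ?_⟩
  obtain ⟨y, hy⟩ := m5 e n _ hv
  beta_reduce at hy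
  have hc' := hc e
  simp only [Bool.and_eq_true, decide_eq_true_eq] at hc'
  obtain ⟨⟨⟨⟨d1, d2⟩, d3⟩, d4⟩, d5⟩ := hc'
  set t := (ch e).1
  set m := (ch e).2
  set L := ck m + e + 4 with hL
  have hh0 : 0 ≤ (j (M.c (ci m))).2 := by
    rcases m4 (M.c (ci m)) with h | ⟨e', n, v, h, h7⟩
    · exact h.ge
    · rw [h7]; exact le_min (by positivity) (by positivity)
  have k1 := ha' (ci m) L
  rw [max_eq_left hh0, abs_le] at k1
  have k2 := b1 _ d5
  simp only at k2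
  have e0 : (0 : ℝ) < 1 / 2 ^ L := by positivity
  have e1 : (1 : ℝ) / 2 ^ L ≤ 1 / 2 ^ (e + 4) := inv2_le (by omega)
  have e2 : (1 : ℝ) / 2 ^ L ≤ 1 / 2 ^ (ck m + 3) := inv2_le (by omega)
  have e3 : (1 : ℝ) / 2 ^ e = 16 * (1 / 2 ^ (e + 4)) := by field_simp; ring
  have e4 : (3 : ℝ) / 2 ^ (e + 3) = 6 * (1 / 2 ^ (e + 4)) := by field_simp; ring
  have e5 : (1 : ℝ) / 2 ^ ck m = 8 * (1 / 2 ^ (ck m + 3)) := by field_simp; ring
  have e6 : (2 : ℝ) / 2 ^ L = 2 * (1 / 2 ^ L) := by ring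
  have e7 : ((a (ci m) L + 3 : ℕ) : ℝ) / 2 ^ L = a (ci m) L / 2 ^ L + 3 * (1 / 2 ^ L) := by
    push_cast; ring
  have hy2 : j y = (P.c (bs (ci m)), (a (ci m) L : ℝ) / 2 ^ L + 3 * (1 / 2 ^ L)) := by
    rw [hy]
    simp only [tw, Nat.unpair_pair, Nat.sub_add_cancel d4, e7]
    rw [min_eq_right (by linarith [k1.1])]
  have k3 : g y = p t := key t m d1 d2 d3 y (by
    rw [m1, hy2, Prod.dist_eq, m2, dist_self, Real.dist_eq]
    refine max_le (by positivity) (abs_le.2 ⟨?_, ?_⟩) <;> linarith [k1.1, k1.2])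
  have k4 : g (M.c (ci m)) = p t := key t m d1 d2 d3 _ (by rw [dist_self]; positivity)
  have k5 := congrArg (fun z => (j z).2) (hg.1 (k3.trans k4.symm))
  simp only [hy2] at k5
  linarith [k1.2]

theorem caseAD {V : VP} (hV : V.Good) (P : Pres) (hi : Function.Injective P.c) [Infinite P.Y]
    (hden : ∀ (x : P.Y) (ε : ℝ), 0 < ε → ∃ i, dist i x < ε ∧ ∃ δ > 0, ∀ y, dist y i < δ → y = i) :
    ∃ M N : Pres, Nonempty (M.Y ≃ₜ P.Y) ∧ Nonempty (N.Y ≃ₜ P.Y) ∧
      ∀ g : M.Y → N.Y, Function.Bijective g → ¬ CommitIn (orc (chi V.D)) M N g := by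
  obtain ⟨M, N, hM, hN, h⟩ := caseA_core P hi hden V.Tb hV.ci_Tb fun e n n' v v' h h' =>
    Option.some.inj ((Tb_mono V h (le_max_left n n')).symm.trans (Tb_mono V h' (le_max_right n n')))
  refine ⟨M, N, hM, hN, fun g hg hc => ?_⟩
  obtain ⟨G, hG, hG'⟩ := h _ g hg hc
  obtain ⟨Ans, hA⟩ := hV.answer hG
  obtain ⟨n, hn⟩ := diag (fun n κ t => (Ans κ (Nat.pair n (V.inc n κ)) t).map fun r =>
    Nat.pair r.1 (Nat.pair 0 r.2)) (CI.optMap (by fun_prop) (hA.ci.comp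
      (g := fun p : ℕ × ℕ × ℕ => (p.2.1, Nat.pair p.1 (V.inc p.1 p.2.1), p.2.2))
      (CI.mk (by fun_prop) (CI.mk (CI.pair (by fun_prop) (hV.ci_inc (by fun_prop) (by fun_prop)))
        (by fun_prop)))))
  obtain ⟨s, a, -, -, -, h3⟩ := hV.bottom hA n (fun κ s v _ hv => by
    obtain ⟨t, ht⟩ := (hn κ).1 s v hv
    obtain ⟨r, h1, rfl⟩ := Option.map_eq_some_iff.1 ht
    exact ⟨t, r.1, r.2, h1, rfl⟩) fun κ t _ ht => by
      obtain ⟨r, hr⟩ := Option.isSome_iff_exists.1 ht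
      exact (hn κ).2 t _ (by rw [hr]; rfl)
  exact hG' _ _ h3

end Pool.Agent.H83.Tcc
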