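import Mathlib
import Pool.Agent.H83.Tcc7
import Pool.Agent.H83.Tcd4

/-! Walls and moves driven by arbitrary computable data. -/

set_option autoImplicit false

namespace Pool.Agent.H83.Tcc

open Pool.Agent.H37 Filter Topology Metric BoundedContinuousFunction

theorem wallsG (P : Pres) (hi : Function.Injective P.c) (T : ℕ → ℕ → Option ℕ)
    (hT : CI ∅ fun p : ℕ × ℕ => T p.1 p.2)
    (Tm : ∀ {e n n' v}, T e n = some v → n ≤ n' → T e n' = some v) :
    ∃ (N : Pres) (h : P.Y ≃ₜ N.Y) (Zo : ℕ → ℕ → Option ℕ), (∀ i, N.c i = h (P.c i)) ∧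
      (∀ x y, dist x y ≤ dist (h x) (h y)) ∧ CI ∅ (fun p : ℕ × ℕ => Zo p.1 p.2) ∧
      ∀ e n v, T e n = some v → ∃ Z, (∀ n' Z', Zo e n' = some Z' → Z' = Z) ∧ Zo e n = some Z ∧
        ∀ y : ℕ → P.Y, (∀ k, dist (h (y k)) (N.c v.unpair.1) < 1 / 2 ^ e) →
          (∀ k, dist (y k) (y (k + 1)) ≤ 2 / 2 ^ Z) →
          ∀ k, dist (y 0) (y k) ≤ 1 / 2 ^ v.unpair.2 := by
  classical
  obtain ⟨Ω, hΩ, sep⟩ := P.exists_sep hi
  let W : ℕ → ℕ → Option ℕ := fun e n => (List.range (n + 1)).find? fun s => (T e s).isSome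
  have hT' : ∀ {α : Type} [Primcodable α] {f g : α → ℕ}, CI ∅ f → CI ∅ g →
      CI ∅ fun a => T (f a) (g a) := fun {α} _ {f g} hf hg =>
    hT.comp (g := fun a => (f a, g a)) (hf.mk hg)
  have hW : CI ∅ fun p : ℕ × ℕ => W p.1 p.2 :=
    CI.find? (hT' (by fun_prop) (by fun_prop)).isSome (by fun_prop)
  let Lst : ℕ → ℕ → Prop := fun e s => (T e s).isSome = true ∧ ∀ j < s, (T e j).isSome = false
  have W1 : ∀ e n s, W e n = some s ↔ Lst e s ∧ s ≤ n := fun e n s => by
    simp only [W, Lst, List.find?_range_eq_some, List.mem_range, Nat.lt_succ_iff,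
      Bool.not_eq_eq_eq_not, Bool.not_true]
    tauto
  have L1 : ∀ e s s', Lst e s → Lst e s' → s = s' := fun e s s' h h' => by
    rcases lt_trichotomy s s' with k | k | k
    · simpa [h.1] using h'.2 s k
    · exact k
    · simpa [h'.1] using h.2 s' k
  let σ : ℕ → ℕ → ℕ := fun e s => s + e + ((T e s).getD 0).unpair.1
  let Z : ℕ → ℕ → ℕ := fun e s => Ω (σ e s) + ((T e s).getD 0).unpair.2 + 3
  have hσ : CI ∅ fun p : ℕ × ℕ => σ p.1 p.2 := by fun_prop
  have hZ : CI ∅ fun p : ℕ × ℕ => Z p.1 p.2 := by fun_prop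
  let b : ℕ → ℕ → P.Y → ℝ := fun e s x => 1 / 2 ^ e * min 1 (2 ^ Z e s * dl P (σ e s) x)
  have b0 : ∀ e s i, i ≤ σ e s → b e s (P.c i) = 0 := fun e s i h => by
    simp [b, dl_zero P h]
  let β : ℕ → P.Y → ℝ := fun e x => if h : ∃ s, Lst e s then b e h.choose x else 0
  have β1 : ∀ e s, Lst e s → ∀ x, β e x = b e s x := fun e s hs x => by
    have h : ∃ s, Lst e s := ⟨s, hs⟩
    simp only [β, dif_pos h]
    rw [L1 e _ _ h.choose_spec hs]
  have β2 : ∀ e, (¬ ∃ s, Lst e s) → ∀ x, β e x = 0 := fun e h x => by simp only [β, dif_neg h]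
  have βb : ∀ e x, |β e x| ≤ 1 / 2 ^ e := fun e x => by
    by_cases h : ∃ s, Lst e s
    · obtain ⟨s, hs⟩ := h
      have := dl_nonneg P (σ e s) x
      rw [β1 e s hs, abs_of_nonneg (mul_nonneg (by positivity) (le_min zero_le_one (by positivity)))]
      exact mul_le_of_le_one_right (by positivity) (min_le_left _ _)
    · rw [β2 e h, abs_zero]; positivity
  have βc : ∀ e, Continuous (β e) := fun e => by
    by_cases h : ∃ s, Lst e s
    · obtain ⟨s, hs⟩ := h
      rw [funext (β1 e s hs)]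
      have := dl_cont P (σ e s)
      fun_prop
    · rw [funext (β2 e h)]; fun_prop
  have βr : CR fun p : ℕ × ℕ => β p.2 (P.c p.1) := by
    have h1 : CI ∅ fun p : ℕ × ℕ => W p.2 p.1 := hW.comp (g := fun p : ℕ × ℕ => (p.2, p.1))
      (by fun_prop)
    have h2 : CI ∅ fun p : ℕ × ℕ => σ p.2 ((W p.2 p.1).getD 0) := ci2 hσ (by fun_prop) (by fun_prop)
    have h3 : CI ∅ fun p : ℕ × ℕ => Z p.2 ((W p.2 p.1).getD 0) := ci2 hZ (by fun_prop) (by fun_prop)
    refine (CR.cond h1.isSome ((CR.inv2 (f := fun p : ℕ × ℕ => p.2) (by fun_prop)).mul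
      (CR.one.min ((CR.pow2 h3).mul (dl_cr P h2 (g := fun p : ℕ × ℕ => p.1) (by fun_prop)))))
      CR.zero).of_eq fun p => ?_
    rcases hw : W p.2 p.1 with _ | s
    · by_cases h : ∃ s, Lst p.2 s
      · obtain ⟨s, hs⟩ := h
        have : p.1 < s := by
          by_contra hlt
          rw [(W1 _ _ _).2 ⟨hs, not_lt.1 hlt⟩] at hw
          cases hw
        rw [β1 _ s hs, b0 _ _ _ (by simp only [σ]; omega)]; rfl
      · rw [β2 _ h]; rfl
    · rw [β1 _ s ((W1 _ _ _).1 hw).1]; rfl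
  obtain ⟨N, h, h1, h2⟩ := P.induced (fun x => (x, xi β βb x))
    (continuous_id.prodMk (xi_cont β βb βc))
    (fun u hu => uniformContinuous_fst.comp_cauchySeq hu)
    ((P.cr (by fun_prop) (by fun_prop)).max (cr_bdist (fun i => xi β βb (P.c i)) (fun i t ht => by
      by_cases h : ∃ s, Lst t s
      · obtain ⟨s, hs⟩ := h
        rw [xi_apply, β1 _ s hs, b0 _ _ _ (by simp only [σ]; nlinarith)]
      · exact β2 _ h _) βr))
  refine ⟨N, h, fun e n => (W e n).map (Z e), h1, fun x y => by rw [h2]; exact le_max_left _ _,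
    CI.optMap (ci2 hZ (by fun_prop) (by fun_prop)) hW, fun e n v hv => ?_⟩
  have hex : ∃ s, (T e s).isSome = true := ⟨n, by simp [hv]⟩
  have hs : Lst e (Nat.find hex) := ⟨Nat.find_spec hex, fun j hj => by simpa using Nat.find_min hex hj⟩
  have hn : Nat.find hex ≤ n := Nat.find_min' _ (by simp [hv])
  set s := Nat.find hex
  have hv' : (T e s).getD 0 = v := by
    obtain ⟨v', hv'⟩ := Option.isSome_iff_exists.1 hs.1
    rw [hv', Option.getD_some]
    exact Option.some.inj ((Tm hv' hn).symm.trans hv)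
  refine ⟨Z e s, fun n' Z' h' => ?_, by simp only [(W1 e n s).2 ⟨hs, hn⟩, Option.map_some],
    fun y hy hst => ?_⟩
  · obtain ⟨s', k1, rfl⟩ := Option.map_eq_some_iff.1 h'
    rw [L1 e _ _ ((W1 _ _ _).1 k1).1 hs]
  have e0 : (0 : ℝ) < 1 / 2 ^ Z e s := by positivity
  have nr : ∀ k, ∃ t ≤ σ e s, dist (y k) (P.c t) < 1 / 2 ^ Z e s := by
    intro k
    have k1 := hy k
    rw [h1, h2] at k1
    have k2 := (dist_coe_le_dist e).trans_lt ((le_max_right _ _).trans_lt k1)
    rw [xi_apply, xi_apply, β1 e s hs, β1 e s hs, b0 _ _ _ (by simp only [σ, hv']; omega),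
      Real.dist_eq, sub_zero] at k2
    have k3 := (le_abs_self _).trans_lt k2
    have k4 : min 1 (2 ^ Z e s * dl P (σ e s) (y k)) < 1 := by
      by_contra hlt
      have : (1 : ℝ) / 2 ^ e * 1 ≤ b e s (y k) :=
        mul_le_mul_of_nonneg_left (not_lt.1 hlt) (by positivity)
      linarith
    obtain ⟨t, ht, e1⟩ := dl_eq P (σ e s) (y k)
    refine ⟨t, ht, ?_⟩
    rw [← e1, lt_div_iff₀ (by positivity), mul_comm]
    simpa using k4
  obtain ⟨t0, ht0, h0⟩ := nr 0
  have e1 : (1 : ℝ) / 2 ^ Z e s ≤ 1 / 2 ^ (Ω (σ e s) + 3) := inv2_le (by simp only [Z]; omega)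
  have e2 : (1 : ℝ) / 2 ^ Z e s ≤ 1 / 2 ^ (v.unpair.2 + 1) := inv2_le (by simp only [Z, hv']; omega)
  have e3 : (1 : ℝ) / 2 ^ Ω (σ e s) = 8 * (1 / 2 ^ (Ω (σ e s) + 3)) := by field_simp; ring
  have e4 : (1 : ℝ) / 2 ^ v.unpair.2 = 2 * (1 / 2 ^ (v.unpair.2 + 1)) := by field_simp; ring
  have e5 : (2 : ℝ) / 2 ^ Z e s = 2 * (1 / 2 ^ Z e s) := by ring
  have all : ∀ k, dist (y k) (P.c t0) < 1 / 2 ^ Z e s := by
    intro k
    induction k with
    | zero => exact h0
    | succ k ih =>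
      obtain ⟨t, ht, k1⟩ := nr (k + 1)
      by_cases htt : t0 = t
      · rwa [htt]
      · have k2 := sep _ _ _ ht0 ht htt
        have k3 := dist_triangle4 (P.c t0) (y k) (y (k + 1)) (P.c t)
        rw [dist_comm (P.c t0) (y k)] at k3
        linarith [hst k]
  intro k
  linarith [all 0, all k, dist_triangle_right (y 0) (y k) (P.c t0)]

def Desc (P : Pres) (ac : ℕ × ℕ → Bool) (rr : ℕ × ℕ → ℕ) (i : ℕ) (F : Finset (ℕ × ℕ)) : Prop :=
  (∀ a ∈ F, ac a = true ∧ dist (P.c i) (P.c a.2) ≤ 1 / 2 ^ rr a) ∧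
    ∀ a, a ∉ F → ac a = true → 2 * (1 / 2 ^ rr a) ≤ dist (P.c i) (P.c a.2)

theorem movesG (P : Pres) (Ω : ℕ → ℕ)
    (sep : ∀ n t t', t ≤ n → t' ≤ n → t ≠ t' → 1 / 2 ^ Ω n < dist (P.c t) (P.c t'))
    (ac : ℕ × ℕ → Bool) (rr src tgt : ℕ × ℕ → ℕ) (H : ℕ × ℕ → ℝ) (cac : CI ∅ ac) (crr : CI ∅ rr)
    (csrc : CI ∅ src) (ctgt : CI ∅ tgt) (Hr : CR H) (H0 : ∀ a, 0 ≤ H a)
    (g1 : ∀ a, ac a = true → src a < a.2 ∧ tgt a < a.2 ∧ a.1 < a.2 ∧ Ω a.2 + 1 ≤ rr a)
    (Vs : Summable fun a => cond (ac a) (H a * dist (P.c (tgt a)) (P.c (src a))) 0) :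
    ∃ (M : Pres) (h : P.Y ≃ₜ M.Y), (∀ i, M.c i = h (P.c i)) ∧ ∀ i i' F F' (ε : ℝ), 0 ≤ ε →
      Desc P ac rr i F → Desc P ac rr i' F' →
      dist (io P (P.c i) + ∑ a ∈ F, H a • (io P (P.c (tgt a)) - io P (P.c (src a))))
        (io P (P.c i') + ∑ a ∈ F', H a • (io P (P.c (tgt a)) - io P (P.c (src a)))) ≤ ε →
      (∀ a, ¬ (a ∈ F ↔ a ∈ F') → 1 / 2 ^ rr a ≤ ε) → dist (M.c i) (M.c i') ≤ ε := by
  let τ : ℕ × ℕ → P.Y → ℝ := fun a x => cond (ac a)
    (min 1 (max (2 - 2 ^ rr a * dist x (P.c a.2)) 0)) 0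
  have τb : ∀ a x, 0 ≤ τ a x ∧ τ a x ≤ 1 := fun a x => by
    simp only [τ]
    cases ac a
    · simp
    · exact ⟨le_min zero_le_one (le_max_right _ _), min_le_left _ _⟩
  have τc : ∀ a, Continuous (τ a) := fun a => by
    simp only [τ]
    cases ac a
    · exact continuous_const
    · simp only [cond_true]; fun_prop
  have τs : ∀ a x, τ a x ≠ 0 → ac a = true ∧ dist x (P.c a.2) < 2 * (1 / 2 ^ rr a) := by
    intro a x h
    simp only [τ] at h
    cases ha : ac a
    · simp [ha] at h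
    · refine ⟨rfl, by_contra fun hlt => h ?_⟩
      have : (2 : ℝ) ≤ 2 ^ rr a * dist x (P.c a.2) := by
        rw [not_lt, mul_one_div, div_le_iff₀ (by positivity)] at hlt
        linarith
      rw [ha, cond_true, max_eq_right (by linarith), min_eq_right zero_le_one]
  have τi : ∀ a i, τ a (P.c i) ≠ 0 → ac a = true ∧ a.2 ≤ i := fun a i h => by
    obtain ⟨ha, h1⟩ := τs a _ h
    refine ⟨ha, by_contra fun hlt => ?_⟩
    have k1 := sep a.2 i a.2 (not_le.1 hlt).le le_rfl (not_le.1 hlt).ne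
    have k2 : (1 : ℝ) / 2 ^ rr a ≤ 1 / 2 ^ (Ω a.2 + 1) := inv2_le (g1 a ha).2.2.2
    have k3 : (1 : ℝ) / 2 ^ Ω a.2 = 2 * (1 / 2 ^ (Ω a.2 + 1)) := by field_simp; ring
    linarith
  have τD : ∀ i F, Desc P ac rr i F → ∀ a, τ a (P.c i) = if a ∈ F then 1 else 0 := by
    intro i F hF a
    split_ifs with ha
    · obtain ⟨k1, k2⟩ := hF.1 a ha
      have k3 : 2 ^ rr a * dist (P.c i) (P.c a.2) ≤ 1 := by
        rwa [mul_comm, ← le_div_iff₀ (by positivity)]
      simp only [τ, k1, cond_true]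
      exact min_eq_left (le_max_of_le_left (by linarith))
    · by_contra h
      obtain ⟨k1, k2⟩ := τs a _ h
      exact absurd (hF.2 a ha k1) (not_le.2 k2)
  let V : ℕ × ℕ → ℕ →ᵇ ℝ := fun a => H a • (io P (P.c (tgt a)) - io P (P.c (src a)))
  have Vb : ∀ a x, ‖τ a x • V a‖ ≤ cond (ac a) (H a * dist (P.c (tgt a)) (P.c (src a))) 0 :=
    fun a x => by
    cases ha : ac a
    · simp [τ, ha]
    rw [norm_smul, norm_smul, Real.norm_of_nonneg (τb a x).1, Real.norm_of_nonneg (H0 a),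
      ← dist_eq_norm, cond_true]
    have h1 := io_lip P (P.c (tgt a)) (P.c (src a))
    have := H0 a
    calc τ a x * (H a * dist (io P (P.c (tgt a))) (io P (P.c (src a))))
        ≤ 1 * (H a * dist (P.c (tgt a)) (P.c (src a))) := by gcongr; exact (τb a x).2
      _ = _ := one_mul _
  let β : ℕ → P.Y → ℝ := fun a x => 1 / 2 ^ (rr a.unpair + a) * τ a.unpair x
  have βb : ∀ a x, |β a x| ≤ 1 / 2 ^ a := fun a x => by
    rw [abs_of_nonneg (mul_nonneg (by positivity) (τb _ x).1)]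
    exact (mul_le_of_le_one_right (by positivity) (τb _ x).2).trans (inv2_le (by omega))
  let Φ : P.Y → ℕ →ᵇ ℝ := fun x => io P x + ∑' a, τ a x • V a
  have Φi : ∀ i, Φ (P.c i) = io P (P.c i) + ∑ e ∈ Finset.range (i + 1),
      ∑ n ∈ Finset.range (i + 1), τ (e, n) (P.c i) • V (e, n) := fun i => by
    rw [← Finset.sum_product' (f := fun e n => τ (e, n) (P.c i) • V (e, n))]
    simp only [Φ]
    rw [tsum_eq_sum (s := Finset.range (i + 1) ×ˢ Finset.range (i + 1))]
    intro a ha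
    by_contra h
    obtain ⟨h1, h2⟩ := τi a i (left_ne_zero_of_smul h)
    have := (g1 a h1).2.2.1
    exact ha (by simp only [Finset.mem_product, Finset.mem_range]; omega)
  have τr : CR fun p : (ℕ × ℕ) × ℕ => τ p.1 (P.c p.2) :=
    CR.cond (cac.comp (g := fun p : (ℕ × ℕ) × ℕ => p.1) (by fun_prop)) (CR.one.min (CR.two.sub
      ((CR.pow2 (by fun_prop)).mul (P.cr (by fun_prop) (by fun_prop)))).pos) CR.zero
  obtain ⟨M, h, h1, h2⟩ := P.induced (fun x => (Φ x, xi β βb x))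
    (((io_cont P).add (continuous_tsum (fun a => (τc a).smul continuous_const) Vs Vb)).prodMk
      (xi_cont β βb fun a => continuous_const.mul (τc _)))
    (fun u hu => by
      have k1 : CauchySeq fun n => Φ (u n) := uniformContinuous_fst.comp_cauchySeq hu
      obtain ⟨ξ, k2⟩ := cauchySeq_tendsto_of_complete (uniformContinuous_snd.comp_cauchySeq hu)
      have k3 : ∀ a : ℕ × ℕ, ∃ l, Tendsto (fun n => τ a (u n)) atTop (𝓝 l) := fun a => by
        have k4 := ((continuous_eval_const (Nat.pair a.1 a.2)).tendsto ξ).comp k2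
        refine ⟨_, (k4.const_mul (2 ^ (rr a + Nat.pair a.1 a.2))).congr fun n => ?_⟩
        simp only [Function.comp, xi_apply, β, Nat.unpair_pair]
        field_simp
      choose l hl using k3
      have k5 := tendsto_tsum_of_dominated_convergence (f := fun n a => τ a (u n) • V a)
        (g := fun a => l a • V a) Vs (fun a => (hl a).smul_const _)
        (Eventually.of_forall fun n a => Vb a _)
      refine io_cauchy P u ?_
      have k6 := k1.add k5.cauchySeq.neg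
      have k7 : (fun n => io P (u n)) =
          ((fun n => Φ (u n)) + -fun x => ∑' a, τ a (u x) • V a) := by
        funext n; simp [Φ]
      rw [k7]; exact k6)
    ((cr_bdist (fun i => Φ (P.c i)) (fun i t ht => by
        have ht' : i ≤ t := by nlinarith
        rw [Φi, BoundedContinuousFunction.add_apply, io_apply, dl_zero P ht', zero_add,
          BoundedContinuousFunction.sum_apply]
        refine Finset.sum_eq_zero fun e _ => ?_
        rw [BoundedContinuousFunction.sum_apply]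
        refine Finset.sum_eq_zero fun n _ => ?_
        by_cases h0 : τ (e, n) (P.c i) = 0
        · simp [h0]
        obtain ⟨k1, k2⟩ := τi _ _ h0
        obtain ⟨k3, k4, -⟩ := g1 _ k1
        simp [V, dl_zero P (show tgt (e, n) ≤ t by omega), dl_zero P (show src (e, n) ≤ t by omega)])
      (((dl_cr P (f := fun p : ℕ × ℕ => p.2) (g := fun p => p.1) (by fun_prop) (by fun_prop)).add
        (CR.sum (x := fun (p : ℕ × ℕ) e => ∑ n ∈ Finset.range (p.1 + 1), τ (e, n) (P.c p.1) *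
          (H (e, n) * (dl P p.2 (P.c (tgt (e, n))) - dl P p.2 (P.c (src (e, n))))))
          (CR.sum (x := fun (p : (ℕ × ℕ) × ℕ) n => τ (p.2, n) (P.c p.1.1) * (H (p.2, n) *
            (dl P p.1.2 (P.c (tgt (p.2, n))) - dl P p.1.2 (P.c (src (p.2, n))))))
            ((τr.comp (g := fun p : ((ℕ × ℕ) × ℕ) × ℕ => ((p.1.2, p.2), p.1.1.1)) (by fun_prop)).mul
              ((Hr.comp (g := fun p : ((ℕ × ℕ) × ℕ) × ℕ => (p.1.2, p.2)) (by fun_prop)).mul
              ((dl_cr P (by fun_prop) (by fun_prop)).sub (dl_cr P (by fun_prop) (by fun_prop)))))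
            (N := fun p => p.1.1 + 1) (by fun_prop))
          (N := fun p => p.1 + 1) (by fun_prop))).of_eq fun p => by
        simp [Φi, V, BoundedContinuousFunction.sum_apply])).max
      (cr_bdist (fun i => xi β βb (P.c i)) (fun i t ht => by
        rw [xi_apply]
        by_contra h0
        obtain ⟨k1, k2⟩ := τi _ _ (right_ne_zero_of_mul h0)
        have k3 := (g1 _ k1).2.2.1
        have k4 := Nat.pair_lt_max_add_one_sq t.unpair.1 t.unpair.2
        rw [Nat.pair_unpair, max_eq_right k3.le] at k4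
        have : (t.unpair.2 + 1) ^ 2 ≤ (i + 1) ^ 2 := by gcongr
        omega)
        ((CR.inv2 (by fun_prop)).mul
          (τr.comp (g := fun p : ℕ × ℕ => (p.2.unpair, p.1)) (by fun_prop)))))
  refine ⟨M, h, h1, fun i i' F F' ε hε hF hF' k1 k2 => ?_⟩
  have ΦD : ∀ i F, Desc P ac rr i F → Φ (P.c i) = io P (P.c i) + ∑ a ∈ F, V a := fun i F hF => by
    simp only [Φ]
    rw [tsum_eq_sum (s := F) fun a ha => by rw [τD i F hF, if_neg ha, zero_smul]]
    congr 1
    exact Finset.sum_congr rfl fun a ha => by rw [τD i F hF, if_pos ha, one_smul]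
  rw [h1, h1, h2, Prod.dist_eq]
  refine max_le (by simpa only [ΦD i F hF, ΦD i' F' hF'] using k1) ((dist_le hε).2 fun a => ?_)
  simp only [xi_apply, β, τD i F hF, τD i' F' hF', Real.dist_eq]
  have e1 : (1 : ℝ) / 2 ^ (rr a.unpair + a) ≤ 1 / 2 ^ rr a.unpair := inv2_le (by omega)
  have e0 : (0 : ℝ) < 1 / 2 ^ (rr a.unpair + a) := by positivity
  split_ifs with c1 c2 c2
  · simpa using hε
  · rw [mul_one, mul_zero, sub_zero, abs_of_pos e0]
    exact e1.trans (k2 _ fun h => c2 (h.1 c1))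
  · rw [mul_one, mul_zero, zero_sub, abs_neg, abs_of_pos e0]
    exact e1.trans (k2 _ fun h => c1 (h.2 c2))
  · simpa using hε

end Pool.Agent.H83.Tcc
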