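import Mathlib
import Pool.Agent.H83.Tcd5

/-! Actions read off the stack players. -/

set_option autoImplicit false

namespace Pool.Agent.H83.Tcc

open Pool.Agent.H37 Filter Topology

def dI (a : Ent) : ℕ := a.2.2.unpair.2.unpair.2.unpair.1
def dJ (a : Ent) : ℕ := a.2.2.unpair.2.unpair.2.unpair.2.unpair.1
def dY (a : Ent) : ℕ := a.2.2.unpair.2.unpair.2.unpair.2.unpair.2.unpair.1
def dL (a : Ent) : ℕ := a.2.2.unpair.2.unpair.2.unpair.2.unpair.2.unpair.2
def enc (u m ι j y l : ℕ) : ℕ := Nat.pair u (Nat.pair m (Nat.pair ι (Nat.pair j (Nat.pair y l))))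
def VP.top (V : VP) (a : ℕ × ℕ) : Ent := (V.sk a.1 a.2).headD (0, 0, 0)
def VP.rg (V : VP) (a : ℕ × ℕ) : ℕ := Nat.pair a.1 (dI (V.top a))

theorem VP.Good.pid {V : VP} (hV : V.Good) {n t t' : ℕ} {a a' : Ent} {L L' : List Ent}
    (h : a :: L <:+ V.sk n t) (h' : a' :: L' <:+ V.sk n t') (e : a.2.1 = a'.2.1) :
    a :: L = a' :: L' := by
  obtain ⟨s, -, k, -⟩ := hV.hist n t a L h
  obtain ⟨s', -, k', -⟩ := hV.hist n t' a' L' h'
  rw [← k.2.1, ← k'.2.1, ← k.2.2.2.1, ← k'.2.2.2.1, e]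

theorem actions {V : VP} (hV : V.Good) (P : Pres) (s ρ : ℕ → ℕ) (q : ℕ → ℕ → ℕ)
    (hs : CI ∅ s) (hρ : CI ∅ ρ) (hq : CI ∅ fun p : ℕ × ℕ => q p.1 p.2) :
    ∃ ac : ℕ × ℕ → Bool, CI ∅ ac ∧
      (∀ a, ac a = true → 2 ≤ (V.sk a.1 a.2).length ∧ dY (V.top a) < a.2 ∧
        q (V.rg a) (dJ (V.top a) + a.1) < a.2 ∧ a.1 < a.2 ∧
        dist (P.c a.2) (P.c (dY (V.top a))) ≤ 3 / 2 ^ dL (V.top a) ∧
        dist (P.c a.2) (P.c (s (V.rg a))) ≤ 3 / 2 ^ (ρ (V.rg a) + 2)) ∧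
      (∀ n t t', ac (n, t) = true → ac (n, t') = true →
        (V.top (n, t)).2.1 = (V.top (n, t')).2.1 → t = t') ∧
      (∀ a, 2 ≤ (V.sk a.1 a.2).length → dY (V.top a) < a.2 →
        q (V.rg a) (dJ (V.top a) + a.1) < a.2 → a.1 < a.2 →
        dist (P.c a.2) (P.c (dY (V.top a))) ≤ 1 / 2 ^ dL (V.top a) →
        dist (P.c a.2) (P.c (s (V.rg a))) ≤ 1 / 2 ^ (ρ (V.rg a) + 2) →
        ∃ t, ac (a.1, t) = true ∧ (V.top (a.1, t)).2.1 = (V.top a).2.1) ∧
      ∀ n N, ∑ t ∈ Finset.range N, cond (ac (n, t)) (Rr (V.sk n t).tail - Rr (V.sk n t)) 0 ≤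
        2 + 2 ^ n * 6 := by
  classical
  obtain ⟨T, hT, T1, T2⟩ := P.tst
  have h0 := hV.csk
  have ht : CI ∅ V.top := by unfold VP.top; fun_prop
  have hrg : CI ∅ V.rg := by unfold VP.rg dI; fun_prop
  have hY : CI ∅ fun a => dY (V.top a) := by unfold dY; fun_prop
  have hL : CI ∅ fun a => dL (V.top a) := by unfold dL; fun_prop
  have hJ : CI ∅ fun a => dJ (V.top a) := by unfold dJ; fun_prop
  obtain ⟨c0, hc0, c1⟩ : ∃ c0 : ℕ × ℕ → Bool, CI ∅ c0 ∧ ∀ a, c0 a = true ↔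
      2 ≤ (V.sk a.1 a.2).length ∧ dY (V.top a) < a.2 ∧ q (V.rg a) (dJ (V.top a) + a.1) < a.2 ∧
      a.1 < a.2 ∧ T (a.2, dY (V.top a), dL (V.top a)) = true ∧
      T (a.2, s (V.rg a), ρ (V.rg a) + 2) = true :=
    ⟨fun a => decide (2 ≤ (V.sk a.1 a.2).length) && (decide (dY (V.top a) < a.2) &&
      (decide (q (V.rg a) (dJ (V.top a) + a.1) < a.2) && (decide (a.1 < a.2) &&
      (T (a.2, dY (V.top a), dL (V.top a)) && T (a.2, s (V.rg a), ρ (V.rg a) + 2))))),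
      (CI.le (by fun_prop) h0.length).and ((CI.lt hY (by fun_prop)).and
        ((CI.lt (ci2 hq hrg (hJ.add (by fun_prop))) (by fun_prop)).and
        ((CI.lt (by fun_prop) (by fun_prop)).and
        ((hT.comp (CI.mk (by fun_prop) (hY.mk hL))).and
        (hT.comp (CI.mk (by fun_prop) ((hs.comp hrg).mk ((hρ.comp hrg).add (by fun_prop))))))))),
      fun a => by simp⟩
  obtain ⟨ac, hac, a1⟩ : ∃ ac : ℕ × ℕ → Bool, CI ∅ ac ∧ ∀ a, ac a = true ↔ c0 a = true ∧
      ∀ t < a.2, c0 (a.1, t) = true → (V.top (a.1, t)).2.1 ≠ (V.top a).2.1 :=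
    ⟨fun a => c0 a && (List.range a.2).all fun t =>
      !c0 (a.1, t) || (V.top (a.1, t)).2.1 != (V.top a).2.1, by fun_prop, fun a => by
        simp only [Bool.and_eq_true, List.all_eq_true, List.mem_range, Bool.or_eq_true,
          Bool.not_eq_eq_eq_not, Bool.not_true, bne_iff_ne]
        refine and_congr_right fun _ => forall₂_congr fun t _ => ?_
        cases c0 (a.1, t) <;> simp⟩
  have a2 : ∀ n t t', ac (n, t) = true → ac (n, t') = true →
      (V.top (n, t)).2.1 = (V.top (n, t')).2.1 → t = t' := fun n t t' h h' e => by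
    rcases lt_trichotomy t t' with k | k | k
    · exact absurd e (((a1 _).1 h').2 t k ((a1 _).1 h).1)
    · exact k
    · exact absurd e.symm (((a1 _).1 h).2 t' k ((a1 _).1 h').1)
  refine ⟨ac, hac, fun a h => ?_, a2, fun a h1 h2 h3 h4 h5 h6 => ?_, fun n N => ?_⟩
  · obtain ⟨h1, h2, h3, h4, h5, h6⟩ := (c1 a).1 ((a1 a).1 h).1
    exact ⟨h1, h2, h3, h4, T1 _ _ _ h5, T1 _ _ _ h6⟩
  · have hex : ∃ t, c0 (a.1, t) = true ∧ (V.top (a.1, t)).2.1 = (V.top a).2.1 :=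
      ⟨a.2, (c1 a).2 ⟨h1, h2, h3, h4, T2 _ _ _ h5, T2 _ _ _ h6⟩, rfl⟩
    refine ⟨Nat.find hex, (a1 _).2 ⟨(Nat.find_spec hex).1, fun t ht h e => ?_⟩,
      (Nat.find_spec hex).2⟩
    exact Nat.find_min hex ht ⟨h, e.trans (Nat.find_spec hex).2⟩
  · refine le_trans ?_ (hV.pw_sum n N)
    have k : ∀ t, ac (n, t) = true → ∃ s' < t, (V.top (n, t)).2.1 = s' + 1 ∧
        Rr (V.sk n t).tail - Rr (V.sk n t) ≤ V.pw n s' := fun t h => by
      have h1 := ((c1 _).1 ((a1 _).1 h).1).1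
      rcases hL : V.sk n t with _ | ⟨a, L⟩
      · simp [hL] at h1
      obtain ⟨s', k1, k2, -⟩ := hV.hist n t a L (hL ▸ List.suffix_rfl)
      refine ⟨s', k1, by simp only [VP.top, hL]; exact k2.2.2.2.1, ?_⟩
      rw [VP.pw, k2.1, k2.2.1]
      exact le_max_left _ _
    let φ : ℕ → ℕ := fun t => (V.top (n, t)).2.1 - 1
    calc ∑ t ∈ Finset.range N, cond (ac (n, t)) (Rr (V.sk n t).tail - Rr (V.sk n t)) 0
        ≤ ∑ t ∈ (Finset.range N).filter fun t => ac (n, t) = true, V.pw n (φ t) := by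
          rw [Finset.sum_filter]
          refine Finset.sum_le_sum fun t _ => ?_
          cases h : ac (n, t)
          · simp
          · obtain ⟨s', -, k2, k3⟩ := k t h
            simpa [φ, k2] using k3
      _ = ∑ s' ∈ ((Finset.range N).filter fun t => ac (n, t) = true).image φ, V.pw n s' := by
          refine (Finset.sum_image fun t ht t' ht' e => ?_).symm
          have h := (Finset.mem_filter.1 ht).2
          have h' := (Finset.mem_filter.1 ht').2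
          obtain ⟨s1, -, k1, -⟩ := k t h
          obtain ⟨s2, -, k2, -⟩ := k t' h'
          exact a2 n t t' h h' (by simp only [φ] at e; omega)
      _ ≤ _ := by
          refine Finset.sum_le_sum_of_subset_of_nonneg (fun s' hs' => ?_)
            fun _ _ _ => le_max_right _ _
          obtain ⟨t, ht, rfl⟩ := Finset.mem_image.1 hs'
          obtain ⟨s1, k0, k1, -⟩ := k t (Finset.mem_filter.1 ht).2
          have := Finset.mem_range.1 (Finset.mem_filter.1 ht).1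
          simp only [φ, Finset.mem_range]
          omega

end Pool.Agent.H83.Tcc
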