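import Mathlib
import Pool.Agent.H83.Tcd6

/-! The chain of an honest player. -/

set_option autoImplicit false

namespace Pool.Agent.H83.Tcc

open Pool.Agent.H37 Filter Topology

theorem gl_iff {L : List Ent} {b : Ent} : L.getLast? = some b ↔ [b] <:+ L := by
  rw [List.getLast?_eq_some_iff]
  exact ⟨fun ⟨p, h⟩ => ⟨p, h.symm⟩, fun ⟨p, h⟩ => ⟨p, h.symm⟩⟩

theorem VP.Good.inc_inj {V : VP} {n s s' : ℕ} {b b' : Ent} (h : V.Pushed n s b [])
    (h' : V.Pushed n s' b' []) (e : V.inc n s = V.inc n s') : b = b' := by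
  have k : ∀ {s s' : ℕ} {b : Ent}, V.Pushed n s b [] → s < s' → V.inc n s < V.inc n s' :=
    fun {s s' b} h hs => by
      have := inc_mono V n (show s + 1 ≤ s' from hs)
      rw [inc_succ, VP.bp, h.1, h.2.1] at this
      exact this
  rcases lt_trichotomy s s' with k1 | rfl | k1
  · exact absurd e (k h k1).ne
  · exact (List.cons.inj (h.2.1.symm.trans h'.2.1)).1
  · exact absurd e (k h' k1).ne'

theorem movesD {V : VP} (hV : V.Good) (P : Pres) (hi : Function.Injective P.c) (s ρ : ℕ → ℕ)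
    (q : ℕ → ℕ → ℕ) (hs : CI ∅ s) (hρ : CI ∅ ρ) (hq : CI ∅ fun p : ℕ × ℕ => q p.1 p.2)
    (hdis : ∀ e e' x, dist x (P.c (s e)) ≤ 1 / 2 ^ ρ e → dist x (P.c (s e')) ≤ 1 / 2 ^ ρ e' → e = e')
    (hni : ∀ e x, dist x (P.c (s e)) ≤ 1 / 2 ^ ρ e → ∀ ε > 0, ∀ σ, ∃ n > σ, dist (P.c n) x < ε)
    (hq2 : ∀ e j, dist (P.c (q e j)) (P.c (s e)) ≤ 1 / 2 ^ (j + e + ρ e))
    (r4 : ∀ e j, s e < q e j) :
    ∃ (M : Pres) (h : P.Y ≃ₜ M.Y) (Ω : ℕ → ℕ) (Ex : ℕ → List Ent → ℕ → Option (ℕ × ℕ)),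
      CI ∅ Ω ∧ CI ∅ (fun p : ℕ × List Ent × ℕ => Ex p.1 p.2.1 p.2.2) ∧ (∀ i, M.c i = h (P.c i)) ∧
      ∀ n s0 b0 e m0 (J : Ent → ℕ) (μ : ℕ → ℕ) (Gd : ℕ → ℕ → ℕ → ℕ → Prop),
      e = Nat.pair n (V.inc n s0) → V.Pushed n s0 b0 [] → V.Stable n [b0] (s0 + 1) → 2 ≤ m0 →
      (∀ y, m0 ≤ μ y) →
      (∀ κ t v, V.sk n κ ≠ [] → E n κ t = some v → ∃ b t' y r k m,
        (V.sk n κ).getLast? = some b ∧
        Ex (Nat.pair n (V.inc n (b.2.1 - 1))) (V.sk n κ) t' = some (y, r) ∧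
        v = enc (max k (y + 1)) m (V.inc n (b.2.1 - 1)) (J b) y (r + m + Ω κ + 4) ∧
        (b = b0 → Gd κ y k m)) →
      (∀ κ y k m, Gd κ y k m → (∀ t x, κ ≤ t → V.X t = some x → k ≤ x) → m = μ y) →
      (∀ y, ∃ u s1, ∀ κ, s1 ≤ κ → ∀ k m, Gd κ y k m → k ≤ u) →
      (∀ κ y r, (V.sk n κ).getLast? = some b0 →
        (∀ᶠ t in atTop, Ex e (V.sk n κ) t = some (y, r)) → ∃ t v, E n κ t = some v) →
      ∃ y : ℕ → ℕ, y 0 = s e ∧ (∀ k, dist (M.c (y k)) (M.c (y (k + 1))) ≤ 2 / 2 ^ μ (y k)) ∧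
        (∀ k, dist (M.c (y k)) (M.c (s e)) ≤ 1 / 2 ^ m0 + 1 / 2 ^ J b0) ∧
        ∃ z, Tendsto (fun k => M.c (y k)) atTop (𝓝 z) ∧ ((∃ m, ∀ᶠ k in atTop, μ (y k) ≤ m) →
          ∃ K, dist (M.c (y K)) (M.c (q e (J b0 + n))) ≤ 2 / 2 ^ m0) := by
  classical
  obtain ⟨Ω, hΩ, sep⟩ := P.exists_sep hi
  obtain ⟨ac, cac, A1, A2, A3, A4⟩ := actions hV P s ρ q hs hρ hq
  have h0 := hV.csk
  have ht : CI ∅ V.top := by unfold VP.top; fun_prop
  have hrg : CI ∅ V.rg := by unfold VP.rg dI; fun_prop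
  have hL : CI ∅ fun a => dL (V.top a) := by unfold dL; fun_prop
  have hJ : CI ∅ fun a => dJ (V.top a) := by unfold dJ; fun_prop
  obtain ⟨rr, crr, er⟩ : ∃ rr : ℕ × ℕ → ℕ, CI ∅ rr ∧
      ∀ a, rr a = dL (V.top a) + Ω a.2 + ρ (V.rg a) + 3 :=
    ⟨fun a => dL (V.top a) + Ω a.2 + ρ (V.rg a) + 3, by fun_prop, fun _ => rfl⟩
  have H0 : ∀ a : ℕ × ℕ, 0 ≤ Rr (V.sk a.1 a.2).tail - Rr (V.sk a.1 a.2) := fun a =>
    sub_nonneg.2 (Rr_mono (List.tail_suffix _))
  obtain ⟨M, h, h1, h2⟩ := movesG P Ω sep ac rr (fun a => s (V.rg a))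
    (fun a => q (V.rg a) (dJ (V.top a) + a.1))
    (fun a => Rr (V.sk a.1 a.2).tail - Rr (V.sk a.1 a.2)) cac crr (by fun_prop)
    (ci2 hq hrg (hJ.add (by fun_prop))) ((cr_Rr h0.tail).sub (cr_Rr h0)) H0
    (fun a ha => ⟨(r4 _ _).trans (A1 a ha).2.2.1, (A1 a ha).2.2.1, (A1 a ha).2.2.2.1,
      by rw [er]; omega⟩) (by
      let g : ℕ × ℕ → ℝ := fun a => cond (ac a) (Rr (V.sk a.1 a.2).tail - Rr (V.sk a.1 a.2)) 0
      have g0 : ∀ a, 0 ≤ g a := fun a => by
        simp only [g]; cases ac a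
        · exact le_rfl
        · exact H0 a
      refine Summable.of_nonneg_of_le (fun a => ?_) (fun a => ?_)
        (f := fun a : ℕ × ℕ => g a * (1 / 2 ^ (a.1 + a.1))) ?_
      · cases ac a
        · exact le_rfl
        · exact mul_nonneg (H0 a) dist_nonneg
      · simp only [g]
        cases ac a
        · simp
        · refine mul_le_mul_of_nonneg_left ((hq2 _ _).trans (inv2_le ?_)) (H0 a)
          have : a.1 ≤ V.rg a := Nat.left_le_pair _ _
          omega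
      refine (summable_prod_of_nonneg fun a => mul_nonneg (g0 a) (by positivity)).2
        ⟨fun n => (summable_of_sum_range_le (fun t => g0 (n, t)) (A4 n)).mul_right
          (1 / 2 ^ (n + n)), ?_⟩
      refine Summable.of_nonneg_of_le (fun n => tsum_nonneg fun t =>
        mul_nonneg (g0 _) (by positivity)) (fun n => ?_) (summable_geometric_two.mul_left 8)
      simp only
      rw [tsum_mul_right, one_div_pow]
      have k1 := Real.tsum_le_of_sum_range_le (fun t => g0 (n, t)) (A4 n)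
      have k2 : (1 : ℝ) ≤ 2 ^ n := one_le_pow₀ one_le_two
      calc (∑' t, g (n, t)) * (1 / 2 ^ (n + n)) ≤ (2 ^ n * 8) * (1 / 2 ^ (n + n)) := by
            gcongr; linarith
        _ = _ := by rw [pow_add]; field_simp)
  obtain ⟨Ex, cEx, E1, E2, E3⟩ : ∃ Ex : ℕ → List Ent → ℕ → Option (ℕ × ℕ),
      CI ∅ (fun p : ℕ × List Ent × ℕ => Ex p.1 p.2.1 p.2.2) ∧
      (∀ e b t, Ex e [b] t = some (s e, ρ e)) ∧
      (∀ n ι a L t y r, L ≠ [] → Ex (Nat.pair n ι) (a :: L) t = some (y, r) →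
        ac (n, y) = true ∧ (V.top (n, y)).2.1 = a.2.1 ∧ r = rr (n, y)) ∧
      ∀ n ι a L y, L ≠ [] → ac (n, y) = true → (V.top (n, y)).2.1 = a.2.1 →
        ∀ᶠ t in atTop, Ex (Nat.pair n ι) (a :: L) t = some (y, rr (n, y)) := by
    refine ⟨fun e L t => cond (L.length == 1) (some (s e, ρ e))
      (((List.range t).find? fun t' => ac (e.unpair.1, t') &&
        (V.top (e.unpair.1, t')).2.1 == (L.headD (0, 0, 0)).2.1).map
        fun t' => (t', rr (e.unpair.1, t'))), CI.cond (by fun_prop) (by fun_prop)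
        (CI.optMap (by fun_prop) (CI.find? (by fun_prop) (by fun_prop))), fun _ _ _ => rfl,
      fun n ι a L t y r hL hE => ?_, fun n ι a L y hL k1 k2 => ?_⟩
    · have : ((a :: L).length == 1) = false := by simpa using hL
      simp only [this, cond_false, Option.map_eq_some_iff, List.find?_range_eq_some,
        Nat.unpair_pair, Prod.mk.injEq, Bool.and_eq_true, beq_iff_eq] at hE
      obtain ⟨_, ⟨⟨k1, k2⟩, -⟩, rfl, rfl⟩ := hE
      exact ⟨k1, k2, rfl⟩
    · have : ((a :: L).length == 1) = false := by simpa using hL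
      refine (eventually_gt_atTop y).mono fun t hty => ?_
      simp only [this, cond_false, Option.map_eq_some_iff, List.find?_range_eq_some,
        Nat.unpair_pair, Prod.mk.injEq, Bool.and_eq_true, beq_iff_eq]
      refine ⟨y, ⟨⟨k1, k2⟩, List.mem_range.2 hty, fun t' ht' => ?_⟩, rfl, rfl⟩
      cases k3 : ac (n, t')
      · rfl
      · simp only [Bool.true_and, Bool.not_eq_eq_eq_not, Bool.not_true, beq_eq_false_iff_ne]
        exact fun e => ht'.ne (A2 n t' y k3 k1 (e.trans k2.symm))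
  refine ⟨M, h, Ω, Ex, hΩ, cEx, h1, fun n s0 b0 e m0 J μ Gd he p0 st0 hm2 hm0 hon G1 G2 live => ?_⟩
  have pb : b0.2.1 - 1 = s0 := by rw [p0.2.2.2.1]; rfl
  have hon' : ∀ κ t v, [b0] <:+ V.sk n κ → E n κ t = some v → ∃ t' y r k m,
      Ex e (V.sk n κ) t' = some (y, r) ∧
      v = enc (max k (y + 1)) m (V.inc n s0) (J b0) y (r + m + Ω κ + 4) ∧ Gd κ y k m := by
    intro κ t v k1 k2
    obtain ⟨b, t', y, r, k, m, k3, k4, k5, k6⟩ := hon κ t v (fun h => by simp [h] at k1) k2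
    obtain rfl : b = b0 := Option.some.inj (k3.symm.trans (gl_iff.2 k1))
    rw [pb] at k4 k5
    exact ⟨t', y, r, k, m, he ▸ k4, k5, k6 rfl⟩
  have skp : ∀ {S a L}, V.Pushed n S a L → V.sk n (V.ky n S) = L := fun {S a L} k =>
    ((hV.key n S).2 _ le_rfl (hV.key n S).1).2.trans k.1
  have topE : ∀ {t a L}, V.sk n t = a :: L → V.top (n, t) = a := fun {t a L} k => by
    simp only [VP.top, k, List.headD_cons]
  have dv : ∀ (x : ℝ) (m : ℕ), 0 ≤ x → x / 2 ^ m ≤ x := fun x m hx =>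
    div_le_self hx (one_le_pow₀ one_le_two)
  let Inv : List Ent × ℕ × ℕ × ℕ → Prop := fun x => V.Stable n x.1 x.2.1 ∧ [b0] <:+ x.1 ∧
    (∀ t y r, Ex e x.1 t = some (y, r) → y = x.2.2.1 ∧ r = x.2.2.2) ∧
    (∀ᶠ t in atTop, Ex e x.1 t = some x.2.2) ∧
    dist (P.c x.2.2.1) (P.c (s e)) + 1 / 2 ^ x.2.2.2 / 2 ^ m0 ≤ 1 / 2 ^ ρ e / 2 ^ m0
  have step : ∀ x, Inv x → ∃ x', Inv x' ∧ ∃ S a u, x.2.1 ≤ V.ky n S ∧ V.Pushed n S a x.1 ∧
      x'.1 = a :: x.1 ∧ x'.2.1 = S + 1 ∧ ac (n, x'.2.2.1) = true ∧ V.sk n x'.2.2.1 = a :: x.1 ∧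
      S < x'.2.2.1 ∧ x'.2.2.2 = rr (n, x'.2.2.1) ∧ a.2.2 = enc u (μ x.2.2.1) (V.inc n s0) (J b0)
        x.2.2.1 (x.2.2.2 + μ x.2.2.1 + Ω (V.ky n S) + 4) := by
    rintro ⟨L, s1, y, r⟩ ⟨i1, i2, i3, i4, i5⟩
    simp only at i1 i2 i3 i4 i5 ⊢
    have hLn : L ≠ [] := fun h => by simp [h] at i2
    obtain ⟨S, a, k1, k2, k3, k4⟩ := hV.extend i1
      (fun κ _ k => live κ y r (gl_iff.2 (k ▸ i2)) (k ▸ i4)) (by
        obtain ⟨u, s2, hu⟩ := G2 y
        refine ⟨max u (y + 1), s2, fun κ hκ _ k t v hv => ?_⟩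
        obtain ⟨t', y', r', k', m, j1, rfl, j3⟩ := hon' κ t v (k ▸ i2) hv
        obtain ⟨rfl, rfl⟩ := i3 _ _ _ (k ▸ j1)
        simp only [enc, Nat.unpair_pair]
        exact max_le_max (hu κ hκ _ _ j3) le_rfl)
    obtain ⟨t', y', r', k', m, j1, j2, j3⟩ := hon' _ S _ ((skp k2).symm ▸ i2) k2.2.2.2.2.1
    obtain ⟨rfl, rfl⟩ := i3 _ _ _ (skp k2 ▸ j1)
    obtain rfl : m = μ y' := G1 _ _ _ _ j3 fun t x h3 h4 => (le_max_left _ _).trans
      (by simpa only [j2, enc, Nat.unpair_pair] using k4 t x h3 h4)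
    have d1 : dI a = V.inc n s0 := by simp only [dI, j2, enc, Nat.unpair_pair]
    have d3 : dY a = y' := by simp only [dY, j2, enc, Nat.unpair_pair]
    have d4 : dL a = r' + μ y' + Ω (V.ky n S) + 4 := by simp only [dL, j2, enc, Nat.unpair_pair]
    have b1 : (1 : ℝ) / 2 ^ dL a ≤ 1 / 16 * (1 / 2 ^ r' / 2 ^ m0) := by
      refine (inv2_le (show r' + m0 + 4 ≤ dL a by have := hm0 y'; omega)).trans_eq ?_
      field_simp; ring
    have b0' : (0 : ℝ) < 1 / 2 ^ r' / 2 ^ m0 := by positivity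
    have b2 : (1 : ℝ) / 2 ^ ρ e / 2 ^ m0 ≤ 1 / 2 ^ (ρ e + 2) := by
      rw [← inv2_add]; exact inv2_le (by omega)
    obtain ⟨y2, j4, j5⟩ : ∃ t, ac (n, t) = true ∧ (V.top (n, t)).2.1 = a.2.1 := by
      by_contra hn
      have hE : ∀ t, E n (S + 1) t = none := fun t => by
        rcases hv : E n (S + 1) t with _ | v
        · rfl
        obtain ⟨t2, y2, r2, -, -, l1, -⟩ := hon' _ t v
          (k2.2.1 ▸ i2.trans (List.suffix_cons _ _)) hv
        rw [k2.2.1, he] at l1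
        exact absurd ⟨y2, (E2 _ _ _ _ _ _ _ hLn l1).1, (E2 _ _ _ _ _ _ _ hLn l1).2.1⟩ hn
      obtain ⟨t, l1, l2⟩ := hni e (P.c y') (by linarith [dv (1 / 2 ^ ρ e) m0 (by positivity)])
        (1 / 2 ^ dL a) (by positivity) (S + y' + q e (dJ a + n) + n)
      have l3 := (hV.idle k3 hE t (by omega)).2
      have l4 := topE l3
      have l5 : V.rg (n, t) = e := by simp only [VP.rg, l4, d1, he]
      obtain ⟨t2, l6⟩ := A3 (n, t) (by
          simp only [l3, List.length_cons]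
          have := List.length_pos_of_ne_nil hLn
          omega) (by simp only [l4, d3]; omega) (by simp only [l4, l5]; omega) (by simp only; omega)
        (by simp only [l4, d3]; exact l2.le) (by
          simp only [l5]
          linarith [dist_triangle (P.c t) (P.c y') (P.c (s e))])
      exact hn ⟨t2, l6.1, l6.2.trans (by rw [l4])⟩
    have j6 : V.sk n y2 = a :: L := by
      rcases hL2 : V.sk n y2 with _ | ⟨a2, L2⟩
      · have := (A1 _ j4).1
        simp [hL2] at this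
      · exact hV.pid (n := n) (t := y2) (t' := S + 1) (by rw [hL2]) (by rw [k2.2.1])
          (by rw [← topE hL2]; exact j5)
    have j7 : S < y2 := by
      obtain ⟨s', l1, l2, -⟩ := hV.hist n y2 a L (j6 ▸ List.suffix_rfl)
      have := l2.2.2.2.1.symm.trans k2.2.2.2.1
      omega
    refine ⟨(a :: L, S + 1, y2, rr (n, y2)), ⟨k3, i2.trans (List.suffix_cons _ _),
      fun t y r l => ?_, he ▸ E3 _ _ _ _ _ hLn j4 j5, ?_⟩, S, a, _, k1, k2, rfl, rfl, j4, j6, j7,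
      rfl, j2⟩
    · obtain ⟨l1, l2, rfl⟩ := E2 _ _ _ _ _ _ _ hLn (he ▸ l)
      obtain rfl := A2 _ _ _ l1 j4 (l2.trans j5.symm)
      exact ⟨rfl, rfl⟩
    · have l1 := (A1 _ j4).2.2.2.2.1
      simp only [topE j6, d3] at l1
      have l2 : (1 : ℝ) / 2 ^ rr (n, y2) ≤ 1 / 2 ^ dL a := inv2_le (by rw [er, topE j6]; omega)
      have l3 := dv (1 / 2 ^ rr (n, y2)) m0 (by positivity)
      have l4 : (3 : ℝ) / 2 ^ dL a = 3 * (1 / 2 ^ dL a) := by ring
      simp only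
      linarith [dist_triangle (P.c y2) (P.c y') (P.c (s e))]
  choose! nx hnx using step
  let x : ℕ → List Ent × ℕ × ℕ × ℕ := fun k => nx^[k] ([b0], s0 + 1, s e, ρ e)
  have xs : ∀ k, x (k + 1) = nx (x k) := fun k => Function.iterate_succ_apply' _ _ _
  have xi : ∀ k, Inv (x k) := fun k => by
    induction k with
    | zero =>
      refine ⟨st0, List.suffix_rfl, fun t y r l => ?_, Eventually.of_forall fun t => E1 _ _ _, ?_⟩
      · exact Prod.mk.inj (Option.some.inj (l.symm.trans (E1 e b0 t)))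
      · simp [x]
    | succ k ih => rw [xs]; exact (hnx _ ih).1
  choose S a u c1 c2 c3 c4 c5 c6 c7 c8 c9 using fun k => (hnx _ (xi k)).2
  simp only [← xs] at c3 c4 c5 c6 c7 c8
  obtain ⟨L, hLd⟩ : ∃ L : ℕ → List Ent, ∀ k, (x k).1 = L k := ⟨_, fun _ => rfl⟩
  obtain ⟨y, hyd⟩ : ∃ y : ℕ → ℕ, ∀ k, (x k).2.2.1 = y k := ⟨_, fun _ => rfl⟩
  obtain ⟨r, hrd⟩ : ∃ r : ℕ → ℕ, ∀ k, (x k).2.2.2 = r k := ⟨_, fun _ => rfl⟩
  have L0 : L 0 = [b0] := (hLd 0).symm
  have y0 : y 0 = s e := (hyd 0).symm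
  have st : ∀ k t, S k < t → L (k + 1) <:+ V.sk n t := fun k t ht => by
    rw [← hLd]; exact (xi (k + 1)).1.2.2 t (by rw [c4]; exact ht)
  have Lb : ∀ k, [b0] <:+ L k := fun k => hLd k ▸ (xi k).2.1
  have Exu : ∀ k t y' r', Ex e (L k) t = some (y', r') → y' = y k := fun k t y' r' l => by
    rw [← hyd]; exact ((xi k).2.2.1 t y' r' (by rwa [hLd])).1
  have near : ∀ k, dist (P.c (y k)) (P.c (s e)) ≤ 1 / 2 ^ ρ e / 2 ^ m0 := fun k => by
    have := (xi k).2.2.2.2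
    have : (0 : ℝ) ≤ 1 / 2 ^ (x k).2.2.2 / 2 ^ m0 := by positivity
    rw [← hyd]; linarith
  simp only [hLd, hyd, hrd] at c2 c3 c5 c6 c7 c8 c9
  clear_value x
  have tp : ∀ k, V.top (n, y (k + 1)) = a k := fun k => topE (c6 k)
  have d1 : ∀ k, V.rg (n, y (k + 1)) = e := fun k => by
    simp only [VP.rg, tp, dI, c9, enc, Nat.unpair_pair, he]
  have d2 : ∀ k, dJ (a k) = J b0 := fun k => by simp only [dJ, c9, enc, Nat.unpair_pair]
  have d3 : ∀ k, dY (a k) = y k := fun k => by simp only [dY, c9, enc, Nat.unpair_pair]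
  have d4 : ∀ k, dL (a k) = r k + μ (y k) + Ω (V.ky n (S k)) + 4 := fun k => by
    simp only [dL, c9, enc, Nat.unpair_pair]
  have d5 : ∀ k, dL (a k) ≤ r (k + 1) := fun k => by rw [c8, er, tp]; omega
  have d6 : ∀ k, dist (P.c (y (k + 1))) (P.c (y k)) ≤ 3 * (1 / 2 ^ dL (a k)) := fun k => by
    have := (A1 _ (c5 k)).2.2.2.2.1
    simp only [tp, d3] at this
    exact this.trans_eq (by ring)
  have ym : StrictMono y := strictMono_nat_of_lt_succ fun k => by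
    simpa only [tp, d3] using (A1 _ (c5 k)).2.1
  have nest : ∀ k K, k ≤ K → dist (P.c (y K)) (P.c (y k)) + 1 / 2 ^ r K ≤ 1 / 2 ^ r k := by
    intro k K hK
    induction K, hK using Nat.le_induction with
    | base => simp
    | succ K hK ih =>
      have k1 : (1 : ℝ) / 2 ^ dL (a K) ≤ 1 / 2 ^ (r K + 2) := inv2_le (by rw [d4]; omega)
      have k2 : (1 : ℝ) / 2 ^ r K = 4 * (1 / 2 ^ (r K + 2)) := by field_simp; ring
      linarith [d6 K, inv2_le (d5 K), dist_triangle (P.c (y (K + 1))) (P.c (y K)) (P.c (y k))]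
  have reg : ∀ i b, ac b = true → dist (P.c i) (P.c (s e)) ≤ 1 / 2 ^ ρ e →
      dist (P.c i) (P.c b.2) < 2 * (1 / 2 ^ rr b) → V.rg b = e := fun i b hb k1 k2 => by
    refine hdis _ _ (P.c i) ?_ k1
    have k3 := (A1 b hb).2.2.2.2.2
    have k4 : (1 : ℝ) / 2 ^ rr b ≤ 1 / 2 ^ (ρ (V.rg b) + 3) := inv2_le (by rw [er]; omega)
    have k5 : (1 : ℝ) / 2 ^ ρ (V.rg b) = 8 * (1 / 2 ^ (ρ (V.rg b) + 3)) := by field_simp; ring
    have k6 : (3 : ℝ) / 2 ^ (ρ (V.rg b) + 2) = 6 * (1 / 2 ^ (ρ (V.rg b) + 3)) := by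
      field_simp; ring
    linarith [dist_triangle (P.c i) (P.c b.2) (P.c (s (V.rg b)))]
  have far : ∀ i b, i < b.2 → 8 * (1 / 2 ^ rr b) < dist (P.c i) (P.c b.2) := fun i b hb => by
    have k1 := sep b.2 i b.2 hb.le le_rfl hb.ne
    have k2 : (1 : ℝ) / 2 ^ rr b ≤ 1 / 2 ^ (Ω b.2 + 3) := inv2_le (by rw [er]; omega)
    have k3 : (1 : ℝ) / 2 ^ Ω b.2 = 8 * (1 / 2 ^ (Ω b.2 + 3)) := by field_simp; ring
    linarith
  let F : ℕ → Finset (ℕ × ℕ) := fun K => (Finset.range K).image fun k => (n, y (k + 1))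
  have mF : ∀ K b, b ∈ F K ↔ ∃ k < K, (n, y (k + 1)) = b := fun K b => by simp [F]
  have DF : ∀ K, Desc P ac rr (y K) (F K) := by
    refine fun K => ⟨fun b hb => ?_, fun b hb hac => not_lt.1 fun hlt => ?_⟩
    · obtain ⟨k, hk, rfl⟩ := (mF K b).1 hb
      have : (0 : ℝ) ≤ 1 / 2 ^ r K := by positivity
      exact ⟨c5 k, by rw [← c8]; linarith [nest (k + 1) K hk]⟩
    have k0 := reg _ b hac ((near K).trans (dv _ _ (by positivity))) hlt
    obtain ⟨n', t⟩ := b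
    obtain rfl : n' = n := (Nat.pair_eq_pair.1 (k0.trans he)).1
    have e0 : (0 : ℝ) < 1 / 2 ^ rr (n', t) := by positivity
    have k1 : y 0 < t := by
      have := (r4 _ _).trans (A1 _ hac).2.2.1
      rwa [k0, ← y0] at this
    have k2 : t ≤ y K := by
      by_contra hlt'
      linarith [far (y K) (n', t) (not_le.1 hlt')]
    have nF : ∀ i, i ≤ K → y i ≠ t := fun i hi e1 => by
      cases i with
      | zero => omega
      | succ i => exact hb ((mF K _).2 ⟨i, hi, by rw [e1]⟩)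
    obtain ⟨i, i1, i2, i3⟩ : ∃ i < K, y i < t ∧ t < y (i + 1) := by
      by_contra hn
      push Not at hn
      have : ∀ i, i ≤ K → y i < t := fun i => by
        induction i with
        | zero => exact fun _ => k1
        | succ i ih => exact fun hi => lt_of_le_of_ne (hn i hi (ih (by omega))) (nF _ hi)
      exact absurd (this K le_rfl) (not_lt.2 k2)
    have k3 : t ≤ V.ky n' (S i) := by
      by_contra hlt'
      by_cases h3 : t ≤ S i
      · have k4 : V.sk n' t = L i := ((hV.key n' (S i)).2 t (by omega) h3).2.trans (c2 i).1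
        cases i with
        | zero =>
          have := (A1 _ hac).1
          simp [k4, L0] at this
        | succ i => exact i2.ne' (A2 _ _ _ hac (c5 i) (by rw [topE (k4.trans (c3 i)), tp]))
      obtain ⟨p, hp⟩ := st i t (by omega)
      rcases List.eq_nil_or_concat p with rfl | ⟨p', b, rfl⟩
      · exact i3.ne (A2 _ _ _ hac (c5 i) (by rw [topE (hp.symm.trans (c3 i)), tp]))
      obtain ⟨s', l1, l2, -⟩ := hV.hist n' t b (L (i + 1)) ⟨p', by rw [← hp]; simp⟩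
      obtain ⟨t', y', r', k', m, l3, l4, -⟩ := hon' _ s' _ ((skp l2).symm ▸ Lb _) l2.2.2.2.2.1
      obtain rfl := Exu _ _ _ _ (skp l2 ▸ l3)
      have := l2.2.2.2.2.2.1
      simp only [l4, enc, Nat.unpair_pair] at this
      omega
    have k4 := sep _ (y i) t (by omega) k3 i2.ne
    have k5 := far (y i) (n', t) i2
    have k6 := nest (i + 1) K i1
    have k7 : (1 : ℝ) / 2 ^ dL (a i) ≤ 1 / 2 ^ (Ω (V.ky n' (S i)) + 4) := inv2_le (by rw [d4]; omega)
    have k8 : (1 : ℝ) / 2 ^ Ω (V.ky n' (S i)) = 16 * (1 / 2 ^ (Ω (V.ky n' (S i)) + 4)) := by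
      field_simp; ring
    have k9 : (0 : ℝ) ≤ 1 / 2 ^ r K := by positivity
    simp only at k5 hlt
    linarith [d6 i, inv2_le (d5 i), dist_triangle4_right (P.c (y i)) (P.c t) (P.c (y (i + 1)))
      (P.c (y K)), dist_comm (P.c (y i)) (P.c (y (i + 1))), dist_comm (P.c t) (P.c (y K)),
      dist_comm (P.c (y (i + 1))) (P.c (y K))]
  have Dq : Desc P ac rr (q e (J b0 + n)) ∅ := by
    refine ⟨by simp, fun b _ hac => not_lt.1 fun hlt => ?_⟩
    have k0 := reg _ b hac ((hq2 _ _).trans (inv2_le (by omega))) hlt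
    obtain ⟨n', t⟩ := b
    obtain ⟨rfl, k1⟩ := Nat.pair_eq_pair.1 (k0.trans he)
    have e0 : (0 : ℝ) < 1 / 2 ^ rr (n', t) := by positivity
    obtain ⟨k2, -, k3, -⟩ := A1 _ hac
    rcases hL2 : V.sk n' t with _ | ⟨b, L2⟩
    · simp [hL2] at k2
    have hne : L2 ≠ [] := fun h => by simp [hL2, h] at k2
    obtain ⟨s', -, l2, -⟩ := hV.hist n' t b L2 (hL2 ▸ List.suffix_rfl)
    obtain ⟨b', t', y', r', k', m, l3, -, l4, -⟩ := hon _ s' _ ((skp l2).symm ▸ hne) l2.2.2.2.2.1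
    obtain ⟨s2, -, l5, -⟩ := hV.hist n' _ b' [] (gl_iff.1 l3)
    rw [topE hL2] at k1 k3
    simp only [dI, dJ, l4, enc, Nat.unpair_pair, l5.2.2.2.1, Nat.add_sub_cancel, k0] at k1 k3
    rw [VP.Good.inc_inj l5 p0 k1] at k3
    linarith [far _ (n', t) k3]
  set w := io P (P.c (q e (J b0 + n))) - io P (P.c (s e)) with hw
  have wb : ‖w‖ ≤ 1 / 2 ^ J b0 := by
    rw [← dist_eq_norm]; exact (io_lip P _ _).trans ((hq2 _ _).trans (inv2_le (by omega)))
  have wb1 : ‖w‖ ≤ 1 := wb.trans (by simpa using inv2_le (Nat.zero_le (J b0)))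
  have R1 : ∀ k, Rr (L (k + 1)) = Rr (L k) - Rr (L k) / 2 ^ μ (y k) := fun k => by
    rcases hL2 : L k with _ | ⟨b, L2⟩
    · simpa [hL2] using Lb k
    · rw [c3, hL2, Rr_cons]
      simp only [c9, enc, Nat.unpair_pair]
  have R2 : ∀ k, Rr (L k) ≤ 1 := fun k => Rr_one b0 ▸ Rr_mono (Lb k)
  have SF : ∀ K, ∑ b ∈ F K, (Rr (V.sk b.1 b.2).tail - Rr (V.sk b.1 b.2)) •
      (io P (P.c (q (V.rg b) (dJ (V.top b) + b.1))) - io P (P.c (s (V.rg b)))) =
      (1 - Rr (L K)) • w := fun K => by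
    rw [Finset.sum_image fun k _ k' _ e1 => by
      simpa using ym.injective (Prod.mk.inj e1).2]
    simp only [d1, tp, d2, c6, List.tail_cons]
    simp only [← c3]
    rw [← Finset.sum_smul, Finset.sum_range_sub' (fun k => Rr (L k)), L0, Rr_one]
  have rF : ∀ K b, b ∈ F K → (1 : ℝ) / 2 ^ rr b ≤ 1 / 2 ^ m0 := fun K b hb => by
    obtain ⟨k, -, rfl⟩ := (mF K b).1 hb
    refine inv2_le ?_
    have := d5 k
    have := hm0 (y k)
    rw [← c8]; rw [d4] at *; omega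
  have near' : ∀ k, ‖io P (P.c (y k)) - io P (P.c (s e))‖ ≤ 1 / 2 ^ m0 := fun k => by
    rw [← dist_eq_norm]
    refine (io_lip P _ _).trans ((near k).trans ?_)
    gcongr
    simpa using inv2_le (Nat.zero_le (ρ e))
  have rk : ∀ k, k ≤ r k := fun k => by
    induction k with
    | zero => exact Nat.zero_le _
    | succ k ih => have := d5 k; rw [d4] at this; omega
  obtain ⟨z, hz⟩ := cauchySeq_tendsto_of_complete (u := fun k => P.c (y k))
    (Metric.cauchySeq_iff'.2 fun ε hε => by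
      obtain ⟨N, hN⟩ := (ev_lt 1 hε).exists
      refine ⟨N, fun k hk => ?_⟩
      have : (0 : ℝ) ≤ 1 / 2 ^ r k := by positivity
      linarith [nest N k hk, inv2_le (rk N)])
  refine ⟨y, y0, fun k => ?_, fun k => ?_, h z, ?_, fun ⟨m, hm⟩ => ?_⟩
  · have e0 : (0 : ℝ) < 1 / 2 ^ μ (y k) := by positivity
    have e2 : (2 : ℝ) / 2 ^ μ (y k) = 2 * (1 / 2 ^ μ (y k)) := by ring
    refine h2 _ _ _ _ _ (by positivity) (DF k) (DF (k + 1)) ?_ fun b hb => ?_
    · rw [SF, SF]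
      refine (dist_add_add_le _ _ _ _).trans ?_
      have k4 := io_lip P (P.c (y k)) (P.c (y (k + 1)))
      have k5 : dist ((1 - Rr (L k)) • w) ((1 - Rr (L (k + 1))) • w) ≤ 1 / 2 ^ μ (y k) := by
        have := Rr_nonneg (L k)
        rw [dist_eq_norm, ← _root_.sub_smul (1 - Rr (L k)) (1 - Rr (L (k + 1))) w, norm_smul, R1,
          show 1 - Rr (L k) - (1 - (Rr (L k) - Rr (L k) / 2 ^ μ (y k))) =
            -(Rr (L k) / 2 ^ μ (y k)) by ring, norm_neg, Real.norm_of_nonneg (by positivity)]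
        calc Rr (L k) / 2 ^ μ (y k) * ‖w‖ ≤ 1 / 2 ^ μ (y k) * 1 := by gcongr; exact R2 k
          _ = _ := mul_one _
      have k6 : (1 : ℝ) / 2 ^ dL (a k) ≤ 1 / 2 ^ (μ (y k) + 2) := inv2_le (by rw [d4]; omega)
      have k7 : (1 : ℝ) / 2 ^ μ (y k) = 4 * (1 / 2 ^ (μ (y k) + 2)) := by field_simp; ring
      linarith [d6 k, dist_comm (P.c (y k)) (P.c (y (k + 1)))]
    · obtain rfl : (n, y (k + 1)) = b := by
        by_contra hne
        refine hb ?_
        simp only [mF]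
        refine ⟨fun ⟨i, h3, h4⟩ => ⟨i, by omega, h4⟩, fun ⟨i, h3, h4⟩ => ⟨i, ?_, h4⟩⟩
        exact lt_of_le_of_ne (by omega) fun e1 => hne (e1 ▸ h4)
      have : (1 : ℝ) / 2 ^ rr (n, y (k + 1)) ≤ 1 / 2 ^ μ (y k) := inv2_le (by
        have := d5 k
        rw [← c8]; rw [d4] at this; omega)
      linarith
  · have e0 : (0 : ℝ) < 1 / 2 ^ J b0 := by positivity
    rw [← y0]
    refine h2 _ _ _ _ _ (by positivity) (DF k) (DF 0) ?_ fun b hb => ?_
    · rw [SF, SF, L0, Rr_one, sub_self, zero_smul, add_zero, dist_eq_norm, add_sub_right_comm, y0]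
      refine (norm_add_le _ _).trans (add_le_add (near' k) ?_)
      have := Rr_nonneg (L k)
      have := R2 k
      rw [norm_smul, Real.norm_of_nonneg (by linarith)]
      calc (1 - Rr (L k)) * ‖w‖ ≤ 1 * (1 / 2 ^ J b0) := by gcongr; linarith
        _ = _ := one_mul _
    · have : b ∈ F k := by_contra fun h3 => hb (by simp [h3, F])
      linarith [rF k b this]
  · simpa only [h1, Function.comp_def] using (h.continuous.tendsto z).comp hz
  · obtain ⟨K, hK⟩ : ∃ K, Rr (L K) ≤ 1 / 2 ^ m0 := by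
      by_contra hK
      push Not at hK
      have k1 := (summable_of_sum_range_le (f := fun k => Rr (L k) - Rr (L (k + 1))) (c := 2)
        (fun k => sub_nonneg.2 (c3 k ▸ Rr_cons_le _ _)) fun N => by
          rw [Finset.sum_range_sub' (fun k => Rr (L k))]
          linarith [Rr_le (L 0), Rr_nonneg (L N)]).tendsto_atTop_zero
      obtain ⟨k, k3, k4⟩ := (hm.and (k1.eventually
        (gt_mem_nhds (show (0 : ℝ) < 1 / 2 ^ m0 / 2 ^ m by positivity)))).exists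
      simp only [R1, sub_sub_cancel] at k4
      have : (1 : ℝ) / 2 ^ m0 / 2 ^ m ≤ Rr (L k) / 2 ^ μ (y k) := by
        gcongr
        · exact Rr_nonneg _
        · exact (hK k).le
        · exact one_le_two
      linarith
    have e0 : (0 : ℝ) < 1 / 2 ^ m0 := by positivity
    have e2 : (2 : ℝ) / 2 ^ m0 = 1 / 2 ^ m0 + 1 / 2 ^ m0 := by ring
    refine ⟨K, h2 _ _ _ _ _ (by positivity) (DF K) Dq ?_ fun b hb => ?_⟩
    · rw [SF, Finset.sum_empty, add_zero, dist_eq_norm,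
        show io P (P.c (y K)) + (1 - Rr (L K)) • w - io P (P.c (q e (J b0 + n))) =
        (io P (P.c (y K)) - io P (P.c (s e))) - Rr (L K) • w by rw [hw]; module, e2]
      refine (norm_sub_le _ _).trans (add_le_add (near' K) ?_)
      have := Rr_nonneg (L K)
      rw [norm_smul, Real.norm_of_nonneg this]
      calc Rr (L K) * ‖w‖ ≤ 1 / 2 ^ m0 * 1 := by gcongr
        _ = _ := mul_one _
    · have : b ∈ F K := by_contra fun h3 => hb (by simp [h3])
      linarith [rF K b this]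

end Pool.Agent.H83.Tcc
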