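import Mathlib
import Pool.Agent.H83.Tcd7

/-! No infinite computable Polish space is categorical relative to the constructed c.e. set. -/

set_option autoImplicit false

namespace Pool.Agent.H83.Tcc

open Pool.Agent.H37 Filter Topology

theorem CommitIn.modulus {O : Set (ℕ →. ℕ)} {M N : Pres} {f : M.Y → N.Y} (h : CommitIn O M N f) :
    ∃ μ ν : ℕ → ℕ → ℕ, CI O (fun p : ℕ × ℕ => μ p.1 p.2) ∧ CI O (fun p : ℕ × ℕ => ν p.1 p.2) ∧
      (∀ i l x, dist x (M.c i) ≤ 1 / 2 ^ μ i l → dist (f x) (N.c (ν i l)) ≤ 1 / 2 ^ l) ∧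
      ∀ (y : ℕ → ℕ) z l, Tendsto (fun n => M.c (y n)) atTop (𝓝 z) →
        ∃ m, ∀ᶠ n in atTop, μ (y n) l ≤ m := by
  obtain ⟨ok, ci, ck, cj, cl, c1, c2, c3, c4, c5, c6, c7⟩ := h
  obtain ⟨T, hT, T1, T2⟩ := M.tst
  have hT := hT.of_empty (O := O)
  have hex : ∀ a : ℕ × ℕ, ∃ n, (ok n && decide (cl n = a.2) && T (a.1, ci n, ck n + 2)) = true :=
    fun a => by
    obtain ⟨n, h1, h2, h3⟩ := c7 (M.c a.1) a.2
    exact ⟨n, by simp [h1, h2, T2 _ _ _ h3.le]⟩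
  obtain ⟨F, hF, F1, F2⟩ : ∃ F : ℕ × ℕ → ℕ, CI O F ∧
      (∀ a, (ok (F a) && decide (cl (F a) = a.2) && T (a.1, ci (F a), ck (F a) + 2)) = true) ∧
      ∀ a n, (ok n && decide (cl n = a.2) && T (a.1, ci n, ck n + 2)) = true → F a ≤ n :=
    ⟨_, CI.find (O := O)
      (p := fun (a : ℕ × ℕ) n => ok n && decide (cl n = a.2) && T (a.1, ci n, ck n + 2))
      (by fun_prop) hex, fun a => Nat.find_spec (hex a), fun a n h => Nat.find_min' (hex a) h⟩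
  refine ⟨fun i l => ck (F (i, l)) + 2, fun i l => cj (F (i, l)),
    (c3.comp hF).add (by fun_prop), c4.comp hF, fun i l x hx => ?_, fun y z l hz => ?_⟩
  · have k := F1 (i, l)
    simp only [Bool.and_eq_true, decide_eq_true_eq] at k hx
    set n := F (i, l)
    have k1 := T1 _ _ _ k.2
    have k2 : (1 : ℝ) / 2 ^ ck n = 3 / 2 ^ (ck n + 2) + 1 / 2 ^ (ck n + 2) := by field_simp; ring
    have := c6 n k.1.1 x (by linarith [dist_triangle x (M.c i) (M.c (ci n))])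
    rwa [k.1.2] at this
  · obtain ⟨n, h1, h2, h3⟩ := c7 z l
    refine ⟨(Finset.range (n + 1)).sup ck + 2, ((hz.dist tendsto_const_nhds).eventually
      (gt_mem_nhds h3)).mono fun k hk => ?_⟩
    have : F (y k, l) ≤ n := F2 _ _ (by simp [h1, h2, T2 _ _ _ hk.le])
    exact Nat.add_le_add_right (Finset.le_sup (f := ck) (Finset.mem_range.2 (by omega))) 2

theorem cio2 {O : Set (ℕ →. ℕ)} {γ : Type} [Primcodable γ] {a : ℕ → ℕ → ℕ}
    (ha : CI O (fun p : ℕ × ℕ => a p.1 p.2)) {f g : γ → ℕ} (hf : CI O f) (hg : CI O g) :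
    CI O fun z => a (f z) (g z) := ha.comp (g := fun z => (f z, g z)) (hf.mk hg)

theorem caseBD {V : VP} (hV : V.Good) (P : Pres) (hi : Function.Injective P.c) (i0 R0 : ℕ)
    (hni : ∀ x, dist x (P.c i0) ≤ 1 / 2 ^ R0 → ∀ ε > 0, ∀ σ, ∃ n > σ, dist (P.c n) x < ε) :
    ∃ M N : Pres, Nonempty (M.Y ≃ₜ P.Y) ∧ Nonempty (N.Y ≃ₜ P.Y) ∧
      ∀ f : M.Y → N.Y, Function.Injective f → ¬ CommitIn (orc (chi V.D)) M N f := by
  obtain ⟨s, ρ, q, hs, hρ, hq, r1, r2, r3, r4⟩ := regions P hi i0 R0 hni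
  obtain ⟨M, hM, Ω, Ex, hΩ, hEx, m1, m2⟩ := movesD hV P hi s ρ q hs hρ hq r1 r2 r3 r4
  have Tm : ∀ {e n n' v : ℕ}, (V.Tb e n).map (fun g => g.unpair.1) = some v → n ≤ n' →
      (V.Tb e n').map (fun g => g.unpair.1) = some v := fun {e n n' v} h hn => by
    obtain ⟨g, h1, rfl⟩ := Option.map_eq_some_iff.1 h
    rw [Tb_mono V h1 hn]; rfl
  obtain ⟨N, hN, Zo, n1, n2, hZo, n3⟩ := wallsG P hi
    (fun e t => (V.Tb e t).map fun g => g.unpair.1) (CI.optMap (by fun_prop) hV.ci_Tb) Tm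
  refine ⟨M, N, ⟨hM.symm⟩, ⟨hN.symm⟩, fun f hf hc => ?_⟩
  obtain ⟨μ, ν, hμ, hν, a1, a2⟩ := hc.modulus
  have a0 : ∀ i l, dist (hN.symm (f (M.c i))) (P.c (ν i l)) ≤ 1 / 2 ^ l := fun i l => by
    refine (n2 _ _).trans ?_
    rw [Homeomorph.apply_symm_apply, ← n1]
    exact a1 i l _ (by rw [dist_self]; positivity)
  have hs' := hs.of_empty (O := orc (chi V.D))
  let k0 : ℕ → ℕ := fun e => μ (s e) (e + 2)
  have hk0 : CI (orc (chi V.D)) k0 := cio2 hμ hs' (by fun_prop)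
  let qq : ℕ → ℕ := fun e => q e (k0 e + 1 + e.unpair.1)
  have hqq : CI (orc (chi V.D)) qq := cio2 hq.of_empty (by fun_prop) (by fun_prop)
  obtain ⟨T, hT, T1, T2⟩ := P.tst
  obtain ⟨w, hw, k1⟩ := CI.exists_choice (O := orc (chi V.D))
    (p := fun e w : ℕ => !T (ν (s e) (w + 2), ν (qq e) (w + 2), w))
    (CI.not (hT.of_empty.comp ((cio2 hν (by fun_prop) (by fun_prop)).mk
      ((cio2 hν (by fun_prop) (by fun_prop)).mk (by fun_prop))))) fun e => by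
      have hne : hN.symm (f (M.c (s e))) ≠ hN.symm (f (M.c (qq e))) := fun h => by
        have := hf (hN.symm.injective h)
        rw [m1, m1] at this
        exact (r4 e _).ne (hi (hM.injective this))
      obtain ⟨w, hw⟩ := (ev_lt 4 (dist_pos.2 hne)).exists
      refine ⟨w, ?_⟩
      cases hT' : T (ν (s e) (w + 2), ν (qq e) (w + 2), w)
      · rfl
      have b1 := T1 _ _ _ hT'
      have b2 := a0 (s e) (w + 2)
      have b3 := a0 (qq e) (w + 2)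
      have b4 := dist_triangle4 (hN.symm (f (M.c (s e)))) (P.c (ν (s e) (w + 2)))
        (P.c (ν (qq e) (w + 2))) (hN.symm (f (M.c (qq e))))
      have b5 : (4 : ℝ) / 2 ^ w = 16 * (1 / 2 ^ (w + 2)) := by field_simp; ring
      have b6 : (3 : ℝ) / 2 ^ w = 12 * (1 / 2 ^ (w + 2)) := by field_simp; ring
      have b7 : (0 : ℝ) < 1 / 2 ^ (w + 2) := by positivity
      rw [dist_comm (P.c (ν (qq e) (w + 2)))] at b4
      linarith
  let m0 : ℕ → ℕ := fun e => k0 e + μ (qq e) (w e + 2) + 2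
  have hm0 : CI (orc (chi V.D)) m0 := by
    have : CI (orc (chi V.D)) fun e => μ (qq e) (w e + 2) := cio2 hμ hqq (by fun_prop)
    exact (hk0.add this).add (by fun_prop)
  obtain ⟨An1, hA1⟩ := hV.answer (Θ := fun e => Nat.pair (Nat.pair (ν (s e) (e + 2)) (w e + 2))
    (Nat.pair (k0 e + 1) (m0 e))) (CI.pair (CI.pair (cio2 hν hs' (by fun_prop)) (by fun_prop))
      (by fun_prop))
  obtain ⟨An2, hA2⟩ := hV.answer (Θ := fun z => μ z.unpair.1 z.unpair.2)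
    (cio2 hμ (by fun_prop) (by fun_prop))
  let J : Ent → ℕ := fun b => b.2.2.unpair.2.unpair.2.unpair.2.unpair.1
  let M0 : Ent → ℕ := fun b => b.2.2.unpair.2.unpair.2.unpair.2.unpair.2
  have hinc : CI ∅ fun p : ℕ × ℕ => V.inc p.1 p.2 := hV.ci_inc (by fun_prop) (by fun_prop)
  obtain ⟨Ψ, hΨ, Ψ1⟩ : ∃ Ψ : ℕ → ℕ → ℕ → Ent → Option ℕ,
      CI ∅ (fun p : (ℕ × ℕ × ℕ) × Ent => Ψ p.1.1 p.1.2.1 p.1.2.2 p.2) ∧ ∀ n κ t b v,
      Ψ n κ t b = some v ↔ ∃ y r Z k w', Ex (Nat.pair n (V.inc n (b.2.1 - 1))) (V.sk n κ) t =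
        some (y, r) ∧ Zo (Nat.pair n (V.inc n (b.2.1 - 1))) t = some Z ∧
        An2 κ (Nat.pair y Z) t = some (k, w') ∧ v = enc (max k (y + 1)) (w' + 1 + M0 b)
          (V.inc n (b.2.1 - 1)) (J b) y (r + (w' + 1 + M0 b) + Ω κ + 4) := by
    have h1 : CI ∅ fun p : (ℕ × ℕ × ℕ) × Ent => V.inc p.1.1 (p.2.2.1 - 1) :=
      ci2 hinc (by fun_prop) (by fun_prop)
    refine ⟨fun n κ t b => (Ex (Nat.pair n (V.inc n (b.2.1 - 1))) (V.sk n κ) t).bind fun yr =>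
      (Zo (Nat.pair n (V.inc n (b.2.1 - 1))) t).bind fun Z => (An2 κ (Nat.pair yr.1 Z) t).map
        fun a => enc (max a.1 (yr.1 + 1)) (a.2 + 1 + M0 b) (V.inc n (b.2.1 - 1)) (J b) yr.1
          (yr.2 + (a.2 + 1 + M0 b) + Ω κ + 4),
      CI.optBind (hEx.comp (g := fun p : (ℕ × ℕ × ℕ) × Ent =>
          (Nat.pair p.1.1 (V.inc p.1.1 (p.2.2.1 - 1)), V.sk p.1.1 p.1.2.1, p.1.2.2))
          ((CI.pair (by fun_prop) h1).mk ((hV.ci_sk (by fun_prop) (by fun_prop)).mk (by fun_prop))))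
        (CI.optBind (hZo.comp (g := fun p : ((ℕ × ℕ × ℕ) × Ent) × ℕ × ℕ =>
          (Nat.pair p.1.1.1 (V.inc p.1.1.1 (p.1.2.2.1 - 1)), p.1.1.2.2))
          ((CI.pair (by fun_prop) (ci2 hinc (by fun_prop) (by fun_prop))).mk (by fun_prop)))
        (CI.optMap ?_ (hA2.ci.comp (g := fun p : (((ℕ × ℕ × ℕ) × Ent) × ℕ × ℕ) × ℕ =>
          (p.1.1.1.2.1, Nat.pair p.1.2.1 p.2, p.1.1.1.2.2)) (by fun_prop)))),
      fun n κ t b v => ?_⟩
    · have h2 : CI ∅ fun p : ((((ℕ × ℕ × ℕ) × Ent) × ℕ × ℕ) × ℕ) × ℕ × ℕ =>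
          V.inc p.1.1.1.1.1 (p.1.1.1.2.2.1 - 1) := ci2 hinc (by fun_prop) (by fun_prop)
      unfold enc
      exact CI.pair (by fun_prop) (CI.pair (by fun_prop) (CI.pair h2 (by fun_prop)))
    · simp only [Option.bind_eq_some_iff, Option.map_eq_some_iff]
      constructor
      · rintro ⟨⟨y, r⟩, h1, Z, h2, ⟨k, w'⟩, h3, rfl⟩
        exact ⟨y, r, Z, k, w', h1, h2, h3, rfl⟩
      · rintro ⟨y, r, Z, k, w', h1, h2, h3, rfl⟩
        exact ⟨_, h1, Z, h2, _, h3, rfl⟩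
  obtain ⟨n, hn⟩ := diag (fun n κ t => cond (V.sk n κ).isEmpty
    ((An1 κ (Nat.pair n (V.inc n κ)) t).map fun r => Nat.pair r.1 (Nat.pair 0 r.2))
    ((V.sk n κ).getLast?.bind (Ψ n κ t)))
    (CI.cond (hV.ci_sk (by fun_prop) (by fun_prop)).isEmpty (CI.optMap (by fun_prop) (hA1.ci.comp
      (g := fun p : ℕ × ℕ × ℕ => (p.2.1, Nat.pair p.1 (V.inc p.1 p.2.1), p.2.2))
      (CI.mk (by fun_prop) (CI.mk (CI.pair (by fun_prop) (hV.ci_inc (by fun_prop) (by fun_prop)))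
        (by fun_prop))))) (CI.optBind (hV.ci_sk (by fun_prop) (by fun_prop)).getLast? hΨ))
  obtain ⟨s0, b0, p0, st0, d0, tb0⟩ := hV.bottom hA1 n (fun κ s v h0 hv => by
    obtain ⟨t, ht⟩ := (hn κ).1 s v hv
    simp only [h0, List.isEmpty_nil, cond_true] at ht
    obtain ⟨r, h1, rfl⟩ := Option.map_eq_some_iff.1 ht
    exact ⟨t, r.1, r.2, h1, rfl⟩) fun κ t h0 ht => by
      obtain ⟨r, hr⟩ := Option.isSome_iff_exists.1 ht
      exact (hn κ).2 t _ (by simp only [h0, List.isEmpty_nil, cond_true, hr]; rfl)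
  set e := Nat.pair n (V.inc n s0) with he
  have pb : b0.2.1 - 1 = s0 := by rw [p0.2.2.2.1]; rfl
  have dJ : J b0 = k0 e + 1 := by simp only [J, d0, Nat.unpair_pair]
  have dM : M0 b0 = m0 e := by simp only [M0, d0, Nat.unpair_pair]
  have hv : (V.Tb e (s0 + 1)).map (fun g => g.unpair.1) =
      some (Nat.pair (ν (s e) (e + 2)) (w e + 2)) := by rw [tb0]; simp
  obtain ⟨Z, z1, z2, z3⟩ := n3 e _ _ hv
  simp only [Nat.unpair_pair] at z3
  obtain ⟨y, y0, y1, y2, z, y3, y4⟩ := m2 n s0 b0 e (m0 e) J (fun y => μ y Z + 1 + m0 e)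
    (fun κ y k m => ∃ t w', An2 κ (Nat.pair y Z) t = some (k, w') ∧ m = w' + 1 + m0 e) he p0 st0
    (by simp only [m0]; omega) (fun y => by omega)
    (fun κ t v h0 h => by
      obtain ⟨t', h'⟩ := (hn κ).1 t v h
      rw [List.isEmpty_eq_false_iff.2 h0, cond_false] at h'
      obtain ⟨b, h1, h2⟩ := Option.bind_eq_some_iff.1 h'
      obtain ⟨y, r, Z', k, w', h3, h4, h5, rfl⟩ := (Ψ1 _ _ _ _ _).1 h2
      refine ⟨b, t', y, r, k, _, h1, h3, rfl, fun hb => ?_⟩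
      rw [hb, pb] at h4
      rw [z1 _ _ h4] at h5
      exact ⟨t', w', h5, by rw [hb, dM]⟩)
    (fun κ y k m ⟨t, w', h1, h2⟩ h3 => by
      rw [h2, hA2.sound _ _ _ _ _ h1 h3]; simp)
    (fun y => by
      obtain ⟨u, s1, h⟩ := hA2.bd (Nat.pair y Z)
      exact ⟨u, s1, fun κ hκ k m ⟨t, w', h1, _⟩ => h κ hκ t k w' h1⟩)
    (fun κ y r h1 h2 => by
      obtain ⟨t, ⟨h3, h4⟩, h5⟩ := ((h2.and (hA2.live κ (Nat.pair y Z))).and
        (eventually_ge_atTop (s0 + 1))).exists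
      obtain ⟨⟨k, w'⟩, h4⟩ := Option.isSome_iff_exists.1 h4
      obtain ⟨Z', -, h6, -⟩ := n3 e t _ (Tm hv h5)
      rw [z1 _ _ h6] at h6
      have h0 : V.sk n κ ≠ [] := fun h => by simp [h] at h1
      refine (hn κ).2 t _ (by
        rw [List.isEmpty_eq_false_iff.2 h0, cond_false, h1, Option.bind_some]
        exact (Ψ1 _ _ _ _ _).2 ⟨y, r, Z, k, w', by rwa [pb], by rwa [pb], h4, rfl⟩))
  have eq : q e (J b0 + n) = qq e := by simp only [qq, dJ, he, Nat.unpair_pair]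
  rw [eq] at y4
  rw [dJ] at y2
  obtain ⟨m, hm⟩ := a2 y z Z y3
  obtain ⟨K, hK⟩ := y4 ⟨m + 1 + m0 e, hm.mono fun n h => by omega⟩
  have b0 := z3 (fun k => hN.symm (f (M.c (y k)))) (fun k => by
    rw [Homeomorph.apply_symm_apply]
    refine (a1 (s e) (e + 2) _ ((y2 k).trans ?_)).trans_lt ?_
    · have b1 : (1 : ℝ) / 2 ^ m0 e ≤ 1 / 2 ^ (k0 e + 1) := inv2_le (by simp only [m0]; omega)
      have b2 : (1 : ℝ) / 2 ^ k0 e = 2 * (1 / 2 ^ (k0 e + 1)) := by field_simp; ring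
      change _ ≤ (1 : ℝ) / 2 ^ k0 e
      linarith
    · exact one_div_lt_one_div_of_lt (by positivity) (pow_lt_pow_right₀ one_lt_two (by omega)))
    (fun k => by
      refine (n2 _ _).trans ?_
      rw [Homeomorph.apply_symm_apply, Homeomorph.apply_symm_apply]
      have b1 := a1 (y k) Z (M.c (y k)) (by rw [dist_self]; positivity)
      have b2 := a1 (y k) Z (M.c (y (k + 1))) (by
        rw [dist_comm]
        refine (y1 k).trans ?_
        have b3 : (1 : ℝ) / 2 ^ (μ (y k) Z + 1 + m0 e) ≤ 1 / 2 ^ (μ (y k) Z + 1) := inv2_le (by omega)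
        have b4 : (1 : ℝ) / 2 ^ μ (y k) Z = 2 * (1 / 2 ^ (μ (y k) Z + 1)) := by field_simp; ring
        have b5 : (2 : ℝ) / 2 ^ (μ (y k) Z + 1 + m0 e) = 2 * (1 / 2 ^ (μ (y k) Z + 1 + m0 e)) := by
          ring
        linarith)
      have b3 : (2 : ℝ) / 2 ^ Z = 1 / 2 ^ Z + 1 / 2 ^ Z := by ring
      linarith [dist_triangle_right (f (M.c (y k))) (f (M.c (y (k + 1)))) (N.c (ν (y k) Z))]) K
  simp only [y0] at b0
  have b1 : dist (hN.symm (f (M.c (y K)))) (P.c (ν (qq e) (w e + 2))) ≤ 1 / 2 ^ (w e + 2) := by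
    refine (n2 _ _).trans ?_
    rw [Homeomorph.apply_symm_apply, ← n1]
    refine a1 _ _ _ (hK.trans ?_)
    have b3 : (1 : ℝ) / 2 ^ m0 e ≤ 1 / 2 ^ (μ (qq e) (w e + 2) + 1) :=
      inv2_le (by simp only [m0]; omega)
    have b4 : (1 : ℝ) / 2 ^ μ (qq e) (w e + 2) = 2 * (1 / 2 ^ (μ (qq e) (w e + 2) + 1)) := by
      field_simp; ring
    have b5 : (2 : ℝ) / 2 ^ m0 e = 2 * (1 / 2 ^ m0 e) := by ring
    linarith
  have b2 := a0 (s e) (w e + 2)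
  have b3 : ¬ dist (P.c (ν (s e) (w e + 2))) (P.c (ν (qq e) (w e + 2))) ≤ 1 / 2 ^ w e := fun h => by
    have := k1 e
    rw [T2 _ _ _ h] at this
    exact absurd this (by decide)
  have b4 := dist_triangle4 (P.c (ν (s e) (w e + 2))) (hN.symm (f (M.c (s e))))
    (hN.symm (f (M.c (y K)))) (P.c (ν (qq e) (w e + 2)))
  have b5 : (1 : ℝ) / 2 ^ w e = 4 * (1 / 2 ^ (w e + 2)) := by field_simp; ring
  have b7 : (0 : ℝ) < 1 / 2 ^ (w e + 2) := by positivity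
  rw [dist_comm (P.c (ν (s e) (w e + 2))) (hN.symm _)] at b4
  exact b3 (by linarith)

theorem mainD {V : VP} (hV : V.Good) (P : Pres) [Infinite P.Y] :
    ∃ M N : Pres, Nonempty (M.Y ≃ₜ P.Y) ∧ Nonempty (N.Y ≃ₜ P.Y) ∧
      ∀ f : M.Y → N.Y, Function.Bijective f → ¬ CompMapIn (chi V.D) M N f := by
  obtain ⟨σ, hσ, hi, hd⟩ := P.exists_inj
  haveI : Infinite (P.sub σ hσ hd).Y := ‹Infinite P.Y›
  by_cases hden : ∀ (x : P.Y) (ε : ℝ), 0 < ε → ∃ i, dist i x < ε ∧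
      ∃ δ > 0, ∀ y, dist y i < δ → y = i
  · obtain ⟨M, N, h1, h2, h3⟩ := caseAD hV (P.sub σ hσ hd) hi hden
    exact ⟨M, N, h1, h2, fun f hf hc => h3 f hf hc.commit⟩
  push Not at hden
  obtain ⟨x, ε, hε, hx⟩ := hden
  obtain ⟨i0, h0⟩ := hd.exists_dist_lt x (half_pos hε)
  obtain ⟨R0, hR⟩ := (ev_lt 1 (half_pos hε)).exists
  have key : ∀ z : P.Y, dist z (P.c (σ i0)) ≤ 1 / 2 ^ R0 → ∀ η > 0, ∀ K, ∃ n > K,
      dist (P.c (σ n)) z < η := by
    intro z hz η hη K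
    have hz' : dist z x < ε := by
      have : dist x (P.c (σ i0)) < ε / 2 := h0
      linarith [dist_triangle_right z x (P.c (σ i0))]
    have hf : ((P.c ∘ σ) '' Set.Iic K).Finite := (Set.finite_Iic K).image _
    obtain ⟨δ, hδ, h4⟩ := away (hf.subset Set.diff_subset :
      (((P.c ∘ σ) '' Set.Iic K) \ {z}).Finite) (z := z) (by simp)
    obtain ⟨u, h5, h6⟩ := hx z hz' (min η δ) (by positivity)
    rw [lt_min_iff] at h5
    obtain ⟨n, h7, h8⟩ := hd.exists_mem_open (Metric.isOpen_ball.inter hf.isClosed.isOpen_compl)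
      ⟨u, h5.1, fun h => h4 u h5.2 ⟨h, h6⟩⟩
    exact ⟨n, by_contra fun hn => h8 ⟨n, not_lt.1 hn, rfl⟩, h7⟩
  obtain ⟨M, N, h1, h2, h3⟩ := caseBD hV (P.sub σ hσ hd) hi i0 R0 key
  exact ⟨M, N, h1, h2, fun f hf hc => h3 f hf.1 hc.commit⟩

end Pool.Agent.H83.Tcc
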