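import Pool.Agent.H83.W1

/-! A ladder system space over a stationary, costationary subset of the first uncountable
ordinal, with the countable-support topology. -/

set_option autoImplicit false

namespace Pool.Agent.H83.Telg

open Set Pool.Agent.H83.W1

def Cl (h : W → W) (δ : W) : Prop := (∃ a, a < δ) ∧ ∀ a < δ, h a < δ

theorem cl_unb (h : W → W) (b : W) : ∃ δ, b < δ ∧ Cl h δ := by
  choose g hg using fun a : W =>
    exists_gt_of_countable (((countable_Iic a).image h).insert a)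
  let s : ℕ → W := fun n => g^[n] b
  have s1 : ∀ n, s (n + 1) = g (s n) := fun n => Function.iterate_succ_apply' _ _ _
  obtain ⟨δ, h1, h2⟩ := wellFounded_lt.has_min {d | ∀ n, s n < d} (exists_seq_bound s)
  refine ⟨δ, h1 0, ⟨_, h1 0⟩, fun a ha => ?_⟩
  obtain ⟨n, hn⟩ : ∃ n, a ≤ s n := by
    by_contra hc
    push Not at hc
    exact h2 a hc ha
  exact (hg (s n) _ (Or.inr ⟨a, hn, rfl⟩)).trans (s1 n ▸ h1 (n + 1))

theorem exists_S : ∃ S : Set W, (∀ h, ∃ δ ∈ S, Cl h δ) ∧ ∀ h, ∃ δ ∉ S, Cl h δ := by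
  by_contra hc
  push Not at hc
  obtain ⟨e⟩ : Nonempty (W ↪ Set ℕ) := by
    rw [← Cardinal.le_def, mk_W]
    simpa using Cardinal.aleph_one_le_continuum
  have : ∀ n, ∃ h, ∀ δ ε, Cl h δ → Cl h ε → n ∈ e δ → n ∈ e ε := by
    intro n
    by_cases h1 : ∀ h, ∃ δ ∈ {d | n ∈ e d}, Cl h δ
    · obtain ⟨h, hh⟩ := hc _ h1
      exact ⟨h, fun δ ε _ h2 _ => by_contra fun h3 => hh ε h3 h2⟩
    · push Not at h1
      obtain ⟨h, hh⟩ := h1
      exact ⟨h, fun δ ε h2 _ h3 => absurd h2 (hh δ h3)⟩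
  choose h hh using this
  choose g hg using fun a => exists_seq_bound fun n => h n a
  have m : ∀ n δ, Cl g δ → Cl (h n) δ := fun n δ hd =>
    ⟨hd.1, fun a ha => (hg a n).trans (hd.2 a ha)⟩
  obtain ⟨δ, -, h1⟩ := cl_unb g (Classical.arbitrary W)
  obtain ⟨ε, h2, h3⟩ := cl_unb g δ
  exact h2.ne (e.injective (Set.ext fun n =>
    ⟨hh n _ _ (m n _ h1) (m n _ h3), hh n _ _ (m n _ h3) (m n _ h1)⟩))

theorem exists_C (δ : W) : ∃ C : Set W, C ⊆ Iio δ ∧ (∀ b < δ, ∃ e ∈ C, b ≤ e) ∧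
    ∀ b < δ, (C ∩ Iio b).Finite := by
  by_cases h : (Iio δ).Nonempty
  · obtain ⟨a, ha⟩ := (countable_Iio δ).exists_eq_range h
    have h1 : ∀ n, a n < δ := fun n => show a n ∈ Iio δ from ha ▸ mem_range_self n
    refine ⟨range (partialSups a), ?_, fun b hb => ?_, fun b hb => ?_⟩
    · rintro _ ⟨n, rfl⟩
      induction n with
      | zero => simpa using h1 0
      | succ n ih => rw [partialSups_add_one]; exact max_lt ih (h1 _)
    · obtain ⟨n, rfl⟩ : b ∈ range a := ha ▸ hb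
      exact ⟨_, ⟨n, rfl⟩, le_partialSups a n⟩
    · obtain ⟨n, rfl⟩ : b ∈ range a := ha ▸ hb
      refine ((finite_Iio n).image (partialSups a)).subset ?_
      rintro _ ⟨⟨m, rfl⟩, hm⟩
      exact ⟨m, not_le.1 fun h => hm.not_ge (le_partialSups_of_le a h), rfl⟩
  · exact ⟨∅, empty_subset _, fun b hb => absurd ⟨b, hb⟩ h, by simp⟩

noncomputable def S : Set W := exists_S.choose

noncomputable def C (δ : W) : Set W := (exists_C δ).choose

/-- the points: finite sets and ladders -/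
def X : Type := {x : Set W // x.Finite ∨ ∃ δ ∈ S, x = C δ}

def N (x : X) (b : W) : Set X := {y | ∀ a < b, a ∈ y.1 ↔ a ∈ x.1}

theorem N_anti (x : X) {a b : W} (h : a ≤ b) : N x b ⊆ N x a :=
  fun _ hy c hc => hy c (hc.trans_le h)

theorem mem_N (x : X) (b : W) : x ∈ N x b := fun _ _ => Iff.rfl

instance : TopologicalSpace X where
  IsOpen U := ∀ x ∈ U, ∃ b, N x b ⊆ U
  isOpen_univ _ _ := ⟨Classical.arbitrary W, subset_univ _⟩
  isOpen_inter s t hs ht x hx := by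
    obtain ⟨a, ha⟩ := hs x hx.1
    obtain ⟨b, hb⟩ := ht x hx.2
    exact ⟨max a b, subset_inter ((N_anti x (le_max_left _ _)).trans ha)
      ((N_anti x (le_max_right _ _)).trans hb)⟩
  isOpen_sUnion s hs x := fun ⟨t, ht, hx⟩ =>
    (hs t ht x hx).imp fun _ h => h.trans (subset_sUnion_of_mem ht)

theorem isOpen_iff {U : Set X} : IsOpen U ↔ ∀ x ∈ U, ∃ b, N x b ⊆ U := Iff.rfl

theorem open_N (x : X) (b : W) : IsOpen (N x b) :=
  fun _ hy => ⟨b, fun _ hz a ha => (hz a ha).trans (hy a ha)⟩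

theorem closed_N (x : X) (b : W) : IsClosed (N x b) :=
  ⟨fun _ hy => ⟨b, fun _ hz h => hy fun a ha => (hz a ha).symm.trans (h a ha)⟩⟩

theorem sep {x y : X} (h : x ≠ y) : ∃ b, y ∉ N x b := by
  by_contra hc
  push Not at hc
  refine h (Subtype.ext (Set.ext fun a => ?_))
  obtain ⟨b, hb⟩ := exists_gt a
  exact (hc b a hb).symm

instance : T3Space X := by
  haveI : T0Space X := (t0Space_iff_inseparable X).2 fun x y h => by
    by_contra hc
    obtain ⟨b, hb⟩ := sep hc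
    exact hb ((h.mem_open_iff (open_N x b)).1 (mem_N x b))
  haveI : RegularSpace X := RegularSpace.of_exists_mem_nhds_isClosed_subset fun x s hs => by
    obtain ⟨t, h1, h2, h3⟩ := mem_nhds_iff.1 hs
    obtain ⟨b, hb⟩ := h2 x h3
    exact ⟨N x b, (open_N x b).mem_nhds (mem_N x b), closed_N x b, hb.trans h1⟩
  exact {}

/-- countably many neighbourhoods of a point contain a basic one -/
theorem nhd_iInter {ι : Type} [Countable ι] {U : ι → Set X} {x : X} (hU : ∀ i, IsOpen (U i))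
    (hx : ∀ i, x ∈ U i) : ∃ b, ∀ i, N x b ⊆ U i := by
  choose b hb using fun i => hU i x (hx i)
  obtain ⟨c, hc⟩ := exists_gt_of_countable (countable_range b)
  exact ⟨c, fun i => (N_anti x (hc _ ⟨i, rfl⟩).le).trans (hb i)⟩

theorem avoid {A : Set X} (hA : A.Countable) (x : X) : ∃ b, N x b ∩ A ⊆ {x} := by
  haveI := (hA.mono (diff_subset (t := {x}))).to_subtype
  obtain ⟨b, hb⟩ := nhd_iInter (x := x) (U := fun i : ↥(A \ {x}) => {i.1}ᶜ)
    (fun i => isOpen_compl_singleton) fun i h => i.2.2 (Eq.symm h)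
  exact ⟨b, fun y hy => by_contra fun h => hb ⟨y, hy.2, h⟩ hy.1 rfl⟩

theorem finite_of_compact {K : Set X} (hK : IsCompact K) : K.Finite := by
  by_contra h
  obtain ⟨A, h1, h3, h2⟩ := Set.Infinite.exists_subset_countable_infinite h
  choose b hb using avoid h3
  obtain ⟨t, -, ht⟩ := hK.elim_nhds_subcover (fun x => N x (b x))
    fun x _ => (open_N x _).mem_nhds (mem_N x _)
  refine h2 (t.finite_toSet.subset fun y hy => ?_)
  obtain ⟨x, hx, h4⟩ := mem_iUnion₂.1 (ht (h1 hy))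
  exact (show y = x from hb x ⟨h4, hy⟩) ▸ hx

theorem bdd (F : Finset X) : ∃ b, ∀ x ∈ F, x.1 ⊆ Iio b := by
  obtain ⟨b, hb⟩ := exists_gt_of_countable (S := ⋃ x ∈ (F : Set X), x.1)
    (F.countable_toSet.biUnion fun x _ => x.2.elim (·.countable) fun ⟨δ, _, h⟩ =>
      h ▸ (countable_Iio δ).mono (exists_C δ).choose_spec.1)
  exact ⟨b, fun x hx a ha => hb a (mem_biUnion hx ha)⟩

theorem countable_below (b : W) : {F : Finset X | ∀ x ∈ F, x.1 ⊆ Iio b}.Countable := by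
  have : {x : X | x.1 ⊆ Iio b}.Countable := by
    refine ((countable_setOf_finite_subset (countable_Iio b)).union
      ((countable_Iic b).image C)).preimage_of_injOn Subtype.val_injective.injOn |>.mono ?_
    rintro x hx
    rcases x.2 with h | ⟨δ, -, h⟩
    · exact Or.inl ⟨h, hx⟩
    · refine Or.inr ⟨δ, mem_Iic.2 (not_lt.1 fun hc => ?_), h.symm⟩
      obtain ⟨e, h1, h2⟩ := (exists_C δ).choose_spec.2.1 b hc
      exact (hx (h ▸ h1 : e ∈ x.1)).not_ge h2
  refine ((countable_setOf_finite_subset this).preimage_of_injOn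
    (f := fun F : Finset X => (F : Set X)) Finset.coe_injective.injOn).mono fun F hF => ?_
  exact ⟨F.finite_toSet, hF⟩

/-- restriction to an ordinal outside `S` -/
theorem restrict {δ : W} (h1 : δ ∉ S) (h2 : ∃ a, a < δ) (h3 : ∀ a < δ, ∃ b < δ, a < b)
    (E : Finset X) : ∃ b < δ, ∃ F : Finset X, (∀ y ∈ F, y.1 ⊆ Iio b) ∧
      ∀ x ∈ E, ∃ y ∈ F, x ∈ N y δ := by
  classical
  have fin : ∀ s : Set W, s.Finite → s ⊆ Iio δ → ∃ b < δ, s ⊆ Iio b := by
    intro s hs h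
    rcases s.eq_empty_or_nonempty with rfl | hne
    · exact h2.imp fun a ha => ⟨ha, empty_subset _⟩
    · obtain ⟨a, ha, h4⟩ := exists_max_image s id hs hne
      obtain ⟨b, h5, h6⟩ := h3 a (h ha)
      exact ⟨b, h5, fun c hc => (h4 c hc).trans_lt h6⟩
  have one : ∀ x : X, ∃ y : X, ∃ b < δ, y.1 ⊆ Iio b ∧ x ∈ N y δ := by
    intro x
    have f : (x.1 ∩ Iio δ).Finite → ∃ y : X, ∃ b < δ, y.1 ⊆ Iio b ∧ x ∈ N y δ := fun h => by
      obtain ⟨b, h4, h5⟩ := fin _ h inter_subset_right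
      exact ⟨⟨_, Or.inl h⟩, b, h4, h5, fun a ha => ⟨fun h => ⟨h, ha⟩, fun h => h.1⟩⟩
    rcases x.2 with h | ⟨ε, h4, h⟩
    · exact f (h.subset inter_subset_left)
    · rcases lt_trichotomy ε δ with h5 | rfl | h5
      · exact ⟨x, ε, h5, h ▸ (exists_C ε).choose_spec.1, mem_N _ _⟩
      · exact absurd h4 h1
      · exact f (h ▸ (exists_C ε).choose_spec.2.2 δ h5)
  choose y b q1 q2 q3 using one
  obtain ⟨c, h4, h5⟩ := fin (b '' E) (E.finite_toSet.image b) (by rintro _ ⟨x, -, rfl⟩; exact q1 x)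
  refine ⟨c, h4, E.image y, fun z hz => ?_, fun x hx => ⟨_, Finset.mem_image_of_mem y hx, q3 x⟩⟩
  obtain ⟨x, hx, rfl⟩ := Finset.mem_image.1 hz
  exact (q2 x).trans (Iio_subset_Iio (h5 ⟨x, hx, rfl⟩).le)

theorem exists_out (g : Finset X → W) : ∃ δ, ∀ E : Finset X, ∃ F : Finset X,
    (∀ y ∈ F, y.1 ⊆ Iio δ) ∧ g F < δ ∧ ∀ x ∈ E, ∃ y ∈ F, x ∈ N y δ := by
  choose h hh using fun b : W =>
    exists_gt_of_countable (((countable_below b).image g).insert b)
  obtain ⟨δ, h1, h2, h3⟩ := exists_S.choose_spec.2 h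
  refine ⟨δ, fun E => ?_⟩
  obtain ⟨b, h4, F, h5, h6⟩ := restrict h1 h2 (fun a ha => ⟨_, h3 a ha, hh a a (Or.inl rfl)⟩) E
  exact ⟨F, fun y hy => (h5 y hy).trans (Iio_subset_Iio h4.le),
    (hh b _ (Or.inr ⟨F, h5, rfl⟩)).trans (h3 b h4), h6⟩

/-- all finite powers are Lindelof -/
theorem lind (g : Finset X → W) : ∃ F : ℕ → Finset X, ∀ E : Finset X, ∃ n,
    ∀ x ∈ E, ∃ y ∈ F n, x ∈ N y (g (F n)) := by
  obtain ⟨δ, h⟩ := exists_out g
  obtain ⟨F, hF⟩ := (countable_below δ).exists_eq_range ⟨∅, by simp⟩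
  refine ⟨F, fun E => ?_⟩
  obtain ⟨G, h1, h2, h3⟩ := h E
  obtain ⟨n, rfl⟩ : G ∈ range F := hF ▸ h1
  exact ⟨n, fun x hx => (h3 x hx).imp fun y hy => ⟨hy.1, N_anti y h2.le hy.2⟩⟩

/-- the second player cannot cover the space -/
theorem escape (t : List W → W → Finset X) : ∃ (γ : ℕ → W) (c : X), ∀ n,
    ∀ y ∈ t (List.ofFn fun i : Fin n => γ i) (γ n), c ∉ N y (γ n) := by
  have h1 : ∀ p : List W, ∃ F : Finset X, ∀ b, ∃ d, b < d ∧
      ∀ x ∈ t p d, ∃ y ∈ F, x ∈ N y d := by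
    intro p
    by_contra hc
    push Not at hc
    choose g hg using hc
    obtain ⟨δ, h⟩ := exists_out g
    obtain ⟨F, -, h2, h3⟩ := h (t p δ)
    obtain ⟨x, hx, h4⟩ := hg F δ h2
    obtain ⟨y, hy, h5⟩ := h3 x hx
    exact h4 y hy h5
  choose F G g1 g2 using h1
  choose B hB using bdd
  have cl : ∀ b : W, {p : List W | ∀ a ∈ p, a ≤ b}.Countable := fun b => by
    haveI := (countable_Iic b).to_subtype
    refine (countable_range fun l : List (Iic b) => l.map Subtype.val).mono fun p hp => ?_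
    exact ⟨p.attach.map fun a => ⟨a.1, hp _ a.2⟩, by simp⟩
  choose h hh using fun b : W => exists_gt_of_countable
    (((cl b).image fun p => B (F p)).union ((cl b).image2 (countable_Iic b) G))
  obtain ⟨δ, d1, ⟨a0, d2⟩, d3⟩ := exists_S.choose_spec.1 h
  have step : ∀ p : List W, ∃ d, (∀ a ∈ p, a < δ) → d < δ ∧
      ∀ y ∈ t p d, (⟨C δ, Or.inr ⟨δ, d1, rfl⟩⟩ : X) ∉ N y d := by
    intro p
    by_cases hp : ∀ a ∈ p, a < δ
    swap
    · exact ⟨a0, fun h => absurd h hp⟩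
    obtain ⟨b, b1, b2⟩ : ∃ b < δ, ∀ a ∈ p, a ≤ b := by
      induction p with
      | nil => exact ⟨a0, d2, by simp⟩
      | cons x p ih =>
        obtain ⟨b, b1, b2⟩ := ih fun a ha => hp a (List.mem_cons_of_mem _ ha)
        exact ⟨max x b, max_lt (hp x List.mem_cons_self) b1, by
          simpa using fun a ha => Or.inr (b2 a ha)⟩
    obtain ⟨e, e1, e2⟩ := (exists_C δ).choose_spec.2.1 (max b (h b)) (max_lt b1 (d3 b b1))
    refine ⟨G p e, fun _ => ⟨(hh e _ (Or.inr ⟨p, fun a ha => (b2 a ha).trans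
      (le_of_max_le_left e2), e, mem_Iic.2 le_rfl, rfl⟩)).trans (d3 e ((exists_C δ).choose_spec.1 e1)),
      fun x hx hc => ?_⟩⟩
    obtain ⟨y, hy, h2⟩ := g2 p e x hx
    have := hB _ y hy ((h2 e (g1 p e)).1 ((hc e (g1 p e)).1 e1))
    exact (this.trans (hh b _ (Or.inl ⟨p, b2, rfl⟩))).not_ge (le_of_max_le_right e2)
  choose d hd using step
  let L : ℕ → List W := fun n => Nat.rec [] (fun _ l => l ++ [d l]) n
  have l1 : ∀ n, (List.ofFn fun i : Fin n => d (L i)) = L n := by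
    intro n
    induction n with
    | zero => rfl
    | succ n ih => rw [List.ofFn_succ', List.concat_eq_append]; simp only [Fin.val_castSucc, ih]; rfl
  have l2 : ∀ n, ∀ a ∈ L n, a < δ := by
    intro n
    induction n with
    | zero => simp [L]
    | succ n ih =>
      intro a ha
      rcases List.mem_append.1 ha with h | h
      · exact ih a h
      · exact List.mem_singleton.1 h ▸ (hd _ ih).1
  exact ⟨fun n => d (L n), _, fun n => by rw [l1]; exact (hd _ (l2 n)).2⟩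

end Pool.Agent.H83.Telg
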