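import Pool.Agent.H83.GaDefs

set_option autoImplicit false

namespace Pool.Agent.H83.Ga

def Graph (g : ℕ → ℕ) : Set ℕ := {k | ∃ n, k = Nat.pair n (g n)}

/-- Codes of the initial segments of `g`. -/
def CGraph (g : ℕ → ℕ) : Set ℕ := {k | ∃ n, k = Encodable.encode ((List.range n).map g)}

def TGraph (b : ℕ) (g : ℕ → ℕ) : Set ℕ := {k | ∃ n, k = Nat.pair n (g n) ∧ b ≤ g n}

def Telograph (A : Set ℕ) : Prop := ∃ g b, EEq A (join (Graph g)ᶜ (TGraph b g))

def Cylinder (A : Set ℕ) : Prop := ∃ g, EEq A (CGraph g)ᶜ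

/-- `CylJoin m A`: the degree of `A` is the join of `m + 1` cylinder-cototal degrees. -/
def CylJoin : ℕ → Set ℕ → Prop
  | 0, A => Cylinder A
  | m + 1, A => ∃ B C, CylJoin m B ∧ Cylinder C ∧ EEq A (join B C)

end Pool.Agent.H83.Ga
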