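import Pool.Agent.H83.Ga3
import Pool.Agent.H83.TlDefs

/-! A telograph-cototal degree outside the cylinder-cototal hierarchy. -/

set_option autoImplicit false

namespace Pool.Agent.H83.Ga

open Pool.Agent.H37 Nat.Partrec Encodable Filter Set

def J (k : ℕ) (f : ℕ → ℕ → ℕ) : Set ℕ := {z | z.unpair.1 < k ∧ z.unpair.2 ∉ CGraph (f z.unpair.1)}

theorem er_l (B C : Set ℕ) : ER (join B C) (· ∈ B) :=
  (er_mem (g := fun n : ℕ => 2 * n) (by fun_prop)).of_iff fun n => by simp [mem_join]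

theorem er_r (B C : Set ℕ) : ER (join B C) (· ∈ C) :=
  (er_mem (g := fun n : ℕ => 2 * n + 1) (by fun_prop)).of_iff fun n => by
    simp [mem_join, show (2 * n + 1) / 2 = n by omega]

theorem er_join {A B C : Set ℕ} (hB : ER A (· ∈ B)) (hC : ER A (· ∈ C)) : ER A (· ∈ join B C) :=
  (((er_bool (f := fun n : ℕ => n % 2 == 0) (by fun_prop)).and
    (hB.comp (g := fun n : ℕ => n / 2) (by fun_prop))).or
    ((er_bool (f := fun n : ℕ => n % 2 == 1) (by fun_prop)).and
      (hC.comp (g := fun n : ℕ => n / 2) (by fun_prop)))).of_iff fun n => by simp [mem_join]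

theorem norm (m : ℕ) : ∀ A, CylJoin m A →
    ∃ f, ER (J (m + 1) f) (· ∈ A) ∧ ER A (· ∈ J (m + 1) f) := by
  induction m with
  | zero =>
    rintro A ⟨g, h1, h2⟩
    rw [ele_iff] at h1 h2
    refine ⟨fun _ => g, ER.trans ((er_mem (g := fun n : ℕ => Nat.pair 0 n) (by fun_prop)).of_iff
      fun n => by simp [J]) h1, ((er_bool (f := fun z : ℕ => decide (z.unpair.1 < 1))
        (by fun_prop)).and (h2.comp (g := fun z : ℕ => z.unpair.2) (by fun_prop))).of_iff
      fun z => by simp [J]⟩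
  | succ m ih =>
    rintro A ⟨B, C, hB, ⟨g, c1, c2⟩, h1, h2⟩
    obtain ⟨f, f1, f2⟩ := ih B hB
    rw [ele_iff] at h1 h2 c1 c2
    refine ⟨Function.update f (m + 1) g, ER.trans (er_join (ER.trans ?_ f1) (ER.trans ?_ c1)) h1,
      h2.trans ?_⟩
    · refine ((er_bool (f := fun z : ℕ => decide (z.unpair.1 < m + 1)) (by fun_prop)).and
        (er_mem (g := fun z : ℕ => z) (by fun_prop))).of_iff fun z => ?_
      simp only [J, mem_setOf_eq, decide_eq_true_eq]
      refine and_congr_right fun h => ?_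
      rw [Function.update_of_ne h.ne, and_iff_right (by omega)]
    · exact (er_mem (g := fun n : ℕ => Nat.pair (m + 1) n) (by fun_prop)).of_iff
        fun n => by simp [J]
    · refine (((er_l B C).trans f2).or ((er_bool (f := fun z : ℕ => z.unpair.1 == m + 1)
        (by fun_prop)).and (((er_r B C).trans c2).comp (g := fun z : ℕ => z.unpair.2)
          (by fun_prop)))).of_iff fun z => ?_
      simp only [J, mem_setOf_eq, beq_iff_eq, mem_compl_iff]
      rcases lt_trichotomy z.unpair.1 (m + 1) with h | h | h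
      · rw [Function.update_of_ne h.ne]
        simp [h, h.ne, show z.unpair.1 < m + 1 + 1 by omega]
      · simp [h]
      · simp [h.ne', show ¬ z.unpair.1 < m + 1 + 1 by omega, show ¬ z.unpair.1 < m + 1 by omega]

def TG (g : ℕ → ℕ) : Set ℕ := join (Graph g)ᶜ (TGraph 2 g)

theorem mem_TG {g : ℕ → ℕ} {k : ℕ} : k ∈ TG g ↔
    (k % 2 = 0 ∧ g (k / 2).unpair.1 ≠ (k / 2).unpair.2) ∨
      (k % 2 = 1 ∧ g (k / 2).unpair.1 = (k / 2).unpair.2 ∧ 2 ≤ (k / 2).unpair.2) := by
  rw [TG, mem_join]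
  generalize k / 2 = j
  refine or_congr (and_congr_right fun _ => not_congr ⟨?_, fun h => ⟨j.unpair.1, ?_⟩⟩)
    (and_congr_right fun _ => ⟨?_, fun h => ⟨j.unpair.1, ?_, h.1 ▸ h.2⟩⟩)
  · rintro ⟨n, rfl⟩
    simp
  · rw [h, Nat.pair_unpair]
  · rintro ⟨n, rfl, h⟩
    simpa using h
  · rw [h.1, Nat.pair_unpair]

def Good (k : ℕ) (Z : Set ℕ) : Prop := (∀ z, z ∈ Z → z.unpair.1 < k) ∧
  (∀ (i : ℕ) (s t : List ℕ), i < k → Nat.pair i (encode s) ∉ Z → Nat.pair i (encode t) ∉ Z →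
    s <+: t ∨ t <+: s) ∧
  ∀ (i : ℕ) (s t : List ℕ), s <+: t → Nat.pair i (encode s) ∈ Z → Nat.pair i (encode t) ∈ Z

theorem cg_iff {g : ℕ → ℕ} {s : List ℕ} : encode s ∈ CGraph g ↔ s = (List.range s.length).map g :=
  ⟨fun ⟨n, h⟩ => by rw [encode_injective h]; simp, fun h => ⟨_, congrArg encode h⟩⟩

theorem rpre {m n : ℕ} (h : m ≤ n) : List.range m <+: List.range n := by
  obtain ⟨k, rfl⟩ := Nat.exists_eq_add_of_le h
  rw [List.range_add]
  exact List.prefix_append _ _

theorem good_J (k : ℕ) (f : ℕ → ℕ → ℕ) : Good k (J k f) := by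
  refine ⟨fun z h => h.1, fun i s t hi hs ht => ?_, fun i s t h hs => ?_⟩
  · simp only [J, mem_setOf_eq, Nat.unpair_pair, hi, true_and, not_not, cg_iff] at hs ht
    rw [hs, ht]
    exact (le_total s.length t.length).imp (fun h => (rpre h).map _)
      fun h => (rpre h).map _
  · simp only [J, mem_setOf_eq, Nat.unpair_pair, cg_iff] at hs ⊢
    refine ⟨hs.1, fun ht => hs.2 ?_⟩
    have := h.length_le
    rw [ht] at h
    exact List.IsPrefix.eq_of_length (List.prefix_of_prefix_length_le h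
      ((rpre this).map _) (by simp)) (by simp)

def S (k : ℕ) (a c : Code) : Set (ℕ → ℕ) :=
  {g | Good k (Ap a (TG g)) ∧ ∀ n, n ∈ Ap c (Ap a (TG g)) ↔ n ∈ TG g}

theorem meas_Ap {F : (ℕ → ℕ) → Set ℕ} (h : ∀ n, Measurable fun g => n ∈ F g) (c : Code) (n : ℕ) :
    Measurable fun g => n ∈ Ap c (F g) :=
  Measurable.exists fun _ => measurable_const.and
    (Measurable.forall fun i => measurable_const.imp (h i))

theorem meas_S (k : ℕ) (a c : Code) : MeasurableSet (S k a c) := by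
  have h0 : ∀ n, Measurable fun g => n ∈ TG g := fun n => by
    simp only [mem_TG]
    have : ∀ i j : ℕ, Measurable fun g : ℕ → ℕ => g i = j := fun i j =>
      (measurable_of_countable fun x : ℕ => x = j).comp (measurable_pi_apply i)
    exact (measurable_const.and (this _ _).not).or
      (measurable_const.and ((this _ _).and measurable_const))
  have h1 := meas_Ap h0 a
  exact Measurable.setOf (((Measurable.forall fun z => (h1 z).imp measurable_const).and
    ((Measurable.forall fun i => Measurable.forall fun s => Measurable.forall fun t =>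
      measurable_const.imp ((h1 _).not.imp ((h1 _).not.imp measurable_const))).and
    (Measurable.forall fun i => Measurable.forall fun s => Measurable.forall fun t =>
      measurable_const.imp ((h1 _).imp (h1 _))))).and
    (Measurable.forall fun n => (meas_Ap h1 c n).iff (h0 n)))

def mu (n k t u v : ℕ) : (ℕ → ℕ) → ℕ → ℕ :=
  Pi.map fun i x => if n ≤ i ∧ i ≤ n + k then (if i = n + t then u else v) else x

theorem cube (n k : ℕ) (a c : Code) (h : ℕ → ℕ) (H : ∀ t u v, mu n k t u v h ∈ S k a c) : False := by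
  have lim : ∀ t x : _, (∀ i, mu n k t 0 0 h i = x i ∨ (n ≤ i ∧ i ≤ n + k ∧ i ≠ n + t ∧ x i < 2)) →
      ∀ z ∈ Ap a (TG x), ∀ᶠ m in atTop, z ∈ Ap a (TG (mu n k t 0 m h)) := by
    rintro t x hx z ⟨l, l1, l2⟩
    refine ((l.finite_toSet.eventually_all).2 fun j hj => ?_).mono fun m hm => ⟨l, l1, hm⟩
    filter_upwards [eventually_gt_atTop (j / 2).unpair.2] with m hm
    have := l2 j hj
    have e := hx (j / 2).unpair.1
    rw [mem_TG] at this ⊢
    simp only [mu, Pi.map_apply] at e ⊢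
    split_ifs at e ⊢ <;> omega
  have key : ∀ t ≤ k, ∃ i < k, ∃ s : List ℕ, Nat.pair i (encode s) ∈ Ap a (TG (mu n k t 1 0 h)) ∧
      ∀ t' u, t' ≤ k → u < 2 → (t' = t → u = 0) →
        Nat.pair i (encode s) ∉ Ap a (TG (mu n k t' u 0 h)) := by
    intro t ht
    obtain ⟨l, l1, l2⟩ := ((H t 1 0).2 (2 * Nat.pair (n + t) 0)).2 (by simp [mem_TG, mu, ht])
    have fr : ∀ m, ∃ z ∈ {z | z ∈ l}, z ∉ Ap a (TG (mu n k t 0 m h)) := fun m => by
      by_contra k'
      push Not at k'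
      have := ((H t 0 m).2 _).1 ⟨l, l1, k'⟩
      simp [mem_TG, mu, ht] at this
    obtain ⟨z, z1, z2⟩ : ∃ z ∈ {z | z ∈ l}, ¬ ∀ᶠ m in atTop, z ∈ Ap a (TG (mu n k t 0 m h)) := by
      by_contra k'
      push Not at k'
      obtain ⟨m, hm⟩ := ((l.finite_toSet.eventually_all).2 k').exists
      obtain ⟨z, a1, a2⟩ := fr m
      exact a2 (hm z a1)
    refine ⟨z.unpair.1, (H t 1 0).1.1 z (l2 z z1), Denumerable.ofNat (List ℕ) z.unpair.2, ?_⟩
    rw [Denumerable.encode_ofNat, Nat.pair_unpair]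
    refine ⟨l2 z z1, fun t' u h1 h2 h3 k' => z2 (lim t _ (fun i => ?_) z k')⟩
    simp only [mu, Pi.map_apply]
    split_ifs <;> omega
  choose i hi s hs hs' using key
  obtain ⟨t, t', hne, e⟩ := Fintype.exists_ne_map_eq_of_card_lt
    (fun t : Fin (k + 1) => (⟨i t (Nat.lt_succ_iff.1 t.2), hi _ _⟩ : Fin k)) (by simp)
  have e' : i t (Nat.lt_succ_iff.1 t.2) = i t' (Nat.lt_succ_iff.1 t'.2) := congrArg Fin.val e
  have hne' : (t : ℕ) ≠ t' := fun k => hne (Fin.ext k)
  rcases (H 0 0 0).1.2.1 _ _ _ (hi _ _) (hs' t _ 0 0 k.zero_le two_pos fun _ => rfl)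
    (e' ▸ hs' t' _ 0 0 k.zero_le two_pos fun _ => rfl) with p | p
  · exact hs' t' _ t 1 (Nat.lt_succ_iff.1 t.2) one_lt_two (fun k => (hne' k).elim)
      (e' ▸ (H t 1 0).1.2.2 _ _ _ p (hs t _))
  · exact hs' t _ t' 1 (Nat.lt_succ_iff.1 t'.2) one_lt_two (fun k => (hne' k.symm).elim)
      (e' ▸ (H t' 1 0).1.2.2 _ _ _ p (hs t' _))

theorem meagre (k : ℕ) (a c : Code) : (S k a c)ᶜ ∈ residual (ℕ → ℕ) := by
  obtain ⟨U, hU, h⟩ := (meas_S k a c).residualEq_isOpen
  rcases U.eq_empty_or_nonempty with rfl | ⟨x, hx⟩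
  · exact h.mono fun g hg k => hg.le k
  obtain ⟨_, ⟨Y, n, rfl⟩, -, h2⟩ := (PiNat.isTopologicalBasis_cylinders fun _ : ℕ => ℕ
    ).exists_subset_of_mem_open hx hU
  have : ∀ᶠ g in residual (ℕ → ℕ), ∀ t u v, S k a c (mu n k t u v g) = U (mu n k t u v g) := by
    simp only [eventually_countable_forall]
    refine fun t u v => tendsto_residual_of_isOpenMap (Continuous.piMap fun _ =>
      continuous_of_discreteTopology) (IsOpenMap.piMap (fun _ _ _ => isOpen_discrete _) ?_) h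
    refine (finite_le_nat (n + k)).subset fun i hi => by_contra fun k' => hi fun x => ⟨x, ?_⟩
    exact if_neg fun w => k' w.2
  obtain ⟨g, g1, g2⟩ := (dense_of_mem_residual this).inter_open_nonempty _
    (PiNat.isOpen_cylinder (fun _ : ℕ => ℕ) Y n) ⟨Y, PiNat.self_mem_cylinder Y n⟩
  refine (cube n k a c g fun t u v => (g2 t u v).ge (h2 (PiNat.mem_cylinder_iff.2 fun i hi => ?_))).elim
  rw [← PiNat.mem_cylinder_iff.1 g1 i hi]
  exact if_neg (by omega)

theorem tl_main : ∃ A, Telograph A ∧ ∀ m, ¬ CylJoin m A := by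
  have : ∀ᶠ g in residual (ℕ → ℕ), ∀ k a c, g ∉ S k a c := by
    simp only [eventually_countable_forall]
    exact meagre
  obtain ⟨g, hg⟩ := (dense_of_mem_residual this).nonempty
  have r : ELe (TG g) (TG g) := ele_iff.2 (er_mem (g := fun n : ℕ => n) (by fun_prop))
  refine ⟨TG g, ⟨g, 2, r, r⟩, fun m hm => ?_⟩
  obtain ⟨f, f1, f2⟩ := norm m _ hm
  obtain ⟨a, ha⟩ := f2.code
  obtain ⟨c, hc⟩ := f1.code
  exact hg (m + 1) a c ⟨ha ▸ good_J _ f, fun n => by rw [ha, hc]⟩

end Pool.Agent.H83.Ga
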