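import Mathlib

set_option autoImplicit false

namespace Pool.Agent.H83.Tower
open Finset

section Alg
variable {Y : Type} [AddCommGroup Y] [Fintype Y] {B : Type*} [Ring B] [Algebra ℂ B]
  (u : Equiv.Perm Y →* B)

noncomputable def ee (χ : AddChar Y ℂ) : B := ∑ y, χ y • u (Equiv.addLeft y)

theorem tr_ee (h2 : ∀ y : Y, y + y = 0) (χ : AddChar Y ℂ) (a : Y) :
    u (Equiv.addLeft a) * ee u χ = χ a • ee u χ := by
  simp only [ee, mul_sum, smul_sum, mul_smul_comm, ← map_mul, ← Equiv.addLeft_add, smul_smul]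
  refine Fintype.sum_equiv (Equiv.addLeft a) _ _ fun y => ?_
  rw [Equiv.coe_addLeft, ← χ.map_add_eq_mul, ← add_assoc, h2, zero_add]

theorem ee_tr (h2 : ∀ y : Y, y + y = 0) (χ : AddChar Y ℂ) (a : Y) :
    ee u χ * u (Equiv.addLeft a) = χ a • ee u χ := by
  rw [← tr_ee u h2]
  simp only [ee, mul_sum, sum_mul, mul_smul_comm, smul_mul_assoc, ← map_mul, ← Equiv.addLeft_add,
    add_comm]

theorem ee_conj (L : Y ≃+ Y) (χ ψ : AddChar Y ℂ) (h : ∀ y, ψ (L y) = χ y) :
    u L.toEquiv * ee u χ = ee u ψ * u L.toEquiv := by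
  simp only [ee, mul_sum, sum_mul, mul_smul_comm, smul_mul_assoc, ← map_mul]
  refine Fintype.sum_equiv L.toEquiv _ _ fun y => ?_
  congr 1
  · exact (h y).symm
  · congr 1
    ext x
    simp

theorem ee_orth (h2 : ∀ y : Y, y + y = 0) {χ ψ : AddChar Y ℂ} (h : χ ≠ ψ) :
    ee u χ * ee u ψ = 0 := by
  obtain ⟨a, ha⟩ := DFunLike.ne_iff.1 h
  have h1 : (χ a - ψ a) • (ee u χ * ee u ψ) = 0 := by
    rw [sub_smul, ← smul_mul_assoc, ← ee_tr u h2, ← mul_smul_comm, ← tr_ee u h2, mul_assoc,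
      sub_self]
  exact (smul_eq_zero.1 h1).resolve_left (sub_ne_zero.2 ha)

theorem sgn (h2 : ∀ y : Y, y + y = 0) (χ : AddChar Y ℂ) (y : Y) : χ y = 1 ∨ χ y = -1 :=
  mul_self_eq_one_iff.1 (by rw [← χ.map_add_eq_mul, h2, χ.map_zero_eq_one])

theorem ee_sq (h2 : ∀ y : Y, y + y = 0) (χ : AddChar Y ℂ) :
    ee u χ * ee u χ = (Fintype.card Y : ℂ) • ee u χ := by
  nth_rw 1 [ee]
  simp only [sum_mul, smul_mul_assoc, tr_ee u h2, smul_smul, ← χ.map_add_eq_mul, h2,
    χ.map_zero_eq_one, ← sum_smul, sum_const, card_univ, nsmul_eq_mul, mul_one]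

theorem exists_equiv (h2 : ∀ y : Y, y + y = 0) {χ ψ : AddChar Y ℂ} (hχ : χ ≠ 0) (hψ : ψ ≠ 0) :
    ∃ L : Y ≃+ Y, ∀ y, ψ (L y) = χ y := by
  classical
  obtain ⟨v, h1, h3⟩ : ∃ v, χ v = -1 ∧ ψ v = -1 := by
    obtain ⟨a, ha⟩ := AddChar.ne_zero_iff.1 hχ
    obtain ⟨b, hb⟩ := AddChar.ne_zero_iff.1 hψ
    have ha' := (sgn h2 χ a).resolve_left ha
    have hb' := (sgn h2 ψ b).resolve_left hb
    rcases sgn h2 ψ a with h | h
    · rcases sgn h2 χ b with k | k
      · exact ⟨a + b, by simp [AddChar.map_add_eq_mul, *], by simp [AddChar.map_add_eq_mul, *]⟩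
      · exact ⟨b, k, hb'⟩
    · exact ⟨a, ha', h⟩
  have n1 : (1 : ℂ) ≠ -1 := by norm_num
  let f : Y → Y := fun y => if χ y = ψ y then y else y + v
  have hf : Function.Involutive f := fun y => by
    rcases sgn h2 χ y with a | a <;> rcases sgn h2 ψ y with b | b <;>
      simp [f, a, b, n1, n1.symm, AddChar.map_add_eq_mul, h1, h3, add_assoc, h2]
  refine ⟨{ hf.toPerm f with map_add' := fun x y => ?_ }, fun y => ?_⟩
  · change f (x + y) = f x + f y
    rcases sgn h2 χ y with a | a <;> rcases sgn h2 ψ y with b | b <;>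
      rcases sgn h2 χ x with c | c <;> rcases sgn h2 ψ x with d | d <;>
      simp [f, a, b, c, d, n1, n1.symm, AddChar.map_add_eq_mul, add_assoc, add_left_comm v, h2,
        add_comm v]
  · change ψ (f y) = χ y
    rcases sgn h2 χ y with a | a <;> rcases sgn h2 ψ y with b | b <;>
      simp [f, a, b, n1, n1.symm, AddChar.map_add_eq_mul, h3]

theorem tr_one (h2 : ∀ y : Y, y + y = 0) {χ : AddChar Y ℂ} (hχ : χ ≠ 0) (h : ee u χ = 0) (a : Y) :
    u (Equiv.addLeft a) = 1 := by
  classical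
  have h0 : ∀ ψ : AddChar Y ℂ, ψ ≠ 0 → ee u ψ = 0 := fun ψ hψ => by
    obtain ⟨L, hL⟩ := exists_equiv h2 hχ hψ
    have := ee_conj u L χ ψ hL
    rw [h, mul_zero] at this
    rw [← mul_one (ee u ψ), ← map_one u, ← mul_inv_cancel (L.toEquiv : Equiv.Perm Y), map_mul,
      ← mul_assoc, ← this, zero_mul]
  have h1 : ∑ ψ : AddChar Y ℂ, ee u ψ = (Fintype.card Y : ℂ) • (1 : B) := by
    simp only [ee]
    rw [sum_comm]
    simp only [← sum_smul, AddChar.sum_apply_eq_ite]
    rw [sum_eq_single 0 (fun y _ hy => by simp [hy]) (by simp)]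
    simp
  rw [sum_eq_single 0 (fun ψ _ => h0 ψ) (by simp)] at h1
  have h3 := tr_ee u h2 0 a
  rw [h1, AddChar.zero_apply, one_smul, mul_smul_comm, mul_one] at h3
  exact smul_right_injective B (Nat.cast_ne_zero.2 Fintype.card_ne_zero) h3

end Alg

abbrev Nx (X : Type) : Type := (Equiv.Perm X → ZMod 2) × ZMod 2

def dbl (Z : Type) : Equiv.Perm Z →* Equiv.Perm (Z × ZMod 2) where
  toFun g := Equiv.prodCongr g (Equiv.refl _)
  map_one' := by ext <;> rfl
  map_mul' _ _ := by ext <;> rfl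

def sh (X : Type) : Equiv.Perm X →* Equiv.Perm (Equiv.Perm X → ZMod 2) where
  toFun h := ⟨fun f k => f (k * h), fun f k => f (k * h⁻¹), fun f => by simp, fun f => by simp⟩
  map_one' := by ext; simp
  map_mul' _ _ := by ext; simp [mul_assoc]

def io (X : Type) : Equiv.Perm X →* Equiv.Perm (Nx X) := (dbl _).comp (sh X)

theorem io_inj (X : Type) : Function.Injective (io X) := by
  classical
  refine (injective_iff_map_eq_one _).2 fun h e => ?_
  have := congrFun (congrArg Prod.fst (DFunLike.congr_fun e (Pi.single h 1, 0))) 1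
  change Pi.single (M := fun _ => ZMod 2) h 1 (1 * h) = Pi.single (M := fun _ => ZMod 2) h 1 1
    at this
  by_contra hh
  simp [Ne.symm hh] at this

theorem key {X : Type} [Finite X] {B : Type*} [Ring B] [Algebra ℂ B]
    (u : Equiv.Perm (Nx X) →* B) [Fintype (Equiv.Perm X)] (h : ∑ k, u (io X k) = 0) :
    (1 : B) = 0 := by
  classical
  letI : Fintype (Nx X) := Fintype.ofFinite _
  have h2 : ∀ y : Nx X, y + y = 0 := fun y => by
    ext <;> exact CharTwo.add_self_eq_zero _
  have z2 : ∀ e : ZMod 2, e = 0 ∨ e = 1 := by decide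
  have z11 : (1 : ZMod 2) + 1 = 0 := rfl
  let χ : Equiv.Perm X → AddChar (Nx X) ℂ := fun k =>
    { toFun := fun y => if y.1 k = 0 then 1 else -1
      map_zero_eq_one' := by simp
      map_add_eq_mul' := fun a b => by
        simp only [Prod.fst_add, Pi.add_apply]
        rcases z2 (a.1 k) with p | p <;> rcases z2 (b.1 k) with q | q <;> simp [p, q, z11] }
  have hne : ∀ k, k ≠ 1 → χ 1 ≠ χ k := fun k hk e => by
    have := DFunLike.congr_fun e (Pi.single k 1, 0)
    change (if Pi.single (M := fun _ => ZMod 2) k 1 1 = 0 then (1 : ℂ) else -1) =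
      if Pi.single (M := fun _ => ZMod 2) k 1 k = 0 then 1 else -1 at this
    simp [hk.symm] at this
    norm_num at this
  have h0 : χ 1 ≠ 0 := AddChar.ne_zero_iff.2 ⟨(Pi.single 1 1, 0), by
    change (if Pi.single (M := fun _ => ZMod 2) 1 1 (1 : Equiv.Perm X) = 0 then (1 : ℂ)
      else -1) ≠ 1
    simp
    norm_num⟩
  have h3 : ∀ k, u (io X k) * ee u (χ 1) = ee u (χ k⁻¹) * u (io X k) := fun k =>
    ee_conj u { io X k with map_add' := fun _ _ => rfl } _ _ fun y => by
      change (if y.1 (k⁻¹ * k) = 0 then (1 : ℂ) else -1) = if y.1 1 = 0 then 1 else -1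
      rw [inv_mul_cancel]
  have h4 : ee u (χ 1) = 0 := by
    have : ee u (χ 1) * ((∑ k, u (io X k)) * ee u (χ 1)) = 0 := by rw [h]; simp
    simp only [sum_mul, mul_sum, h3, ← mul_assoc] at this
    rw [sum_eq_single 1 (fun k _ hk => by rw [ee_orth u h2 (hne _ (inv_ne_one.2 hk)), zero_mul])
      (by simp), inv_one, map_one, map_one, mul_one, ee_sq u h2] at this
    exact (smul_eq_zero.1 this).resolve_left (Nat.cast_ne_zero.2 Fintype.card_ne_zero)
  have h5 : ∀ g, u (dbl _ g) = 1 := fun g => by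
    induction g using Equiv.Perm.swap_induction_on with
    | one => simp
    | swap_mul f x y _ ih =>
      rw [map_mul, map_mul, ih, mul_one]
      have hc : Function.Involutive fun p : Nx X =>
          ((if p.2 = 0 then Equiv.swap x y p.1 else p.1, p.2) : Nx X) := fun p => by
        by_cases hp : p.2 = 0 <;> ext1 <;> simp [hp]
      have : dbl _ (Equiv.swap x y) = hc.toPerm _ * Equiv.addLeft (0, 1) * hc.toPerm _ *
          Equiv.addLeft (0, 1) := by
        refine Equiv.ext fun ⟨z, e⟩ => ?_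
        rcases z2 e with rfl | rfl <;> simp [dbl, z11]
      rw [this, map_mul, map_mul, map_mul, tr_one u h2 h0 h4, mul_one, mul_one, ← map_mul]
      rw [← map_one u]
      congr 1
      exact Equiv.ext hc
  have h6 : ∀ k, u (io X k) = 1 := fun k => h5 _
  simp only [h6, sum_const, card_univ, ← Nat.cast_smul_eq_nsmul ℂ] at h
  exact (smul_eq_zero.1 h).resolve_left (Nat.cast_ne_zero.2 Fintype.card_ne_zero)

def XX : ℕ → Type
  | 0 => Bool
  | n + 1 => Nx (XX n)

instance : ∀ n, Finite (XX n)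
  | 0 => inferInstanceAs (Finite Bool)
  | n + 1 => by
    haveI := instFiniteXX n
    exact inferInstanceAs (Finite (Nx (XX n)))

def ff (i j : ℕ) (h : i ≤ j) : Equiv.Perm (XX i) →* Equiv.Perm (XX j) :=
  Nat.leRec (motive := fun j _ => Equiv.Perm (XX i) →* Equiv.Perm (XX j)) (MonoidHom.id _)
    (fun k _ g => (io (XX k)).comp g) h

theorem ff_succ {i j : ℕ} (h : i ≤ j) (h' : i ≤ j + 1) :
    ff i (j + 1) h' = (io (XX j)).comp (ff i j h) := Nat.leRec_succ _ _ h

theorem ff_self (i : ℕ) : ff i i le_rfl = MonoidHom.id _ := Nat.leRec_self _ _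

instance : DirectedSystem (fun n => Equiv.Perm (XX n)) (ff · · ·) where
  map_self i x := by rw [ff_self]; rfl
  map_map k j i hij hjk x := by
    induction hjk with
    | refl => rw [ff_self]; rfl
    | step h ih => rw [ff_succ h, ff_succ (hij.trans h)]; exact congrArg (io _) ih

theorem ff_inj (i j : ℕ) (h : i ≤ j) : Function.Injective (ff i j h) := by
  induction h with
  | refl => rw [ff_self]; exact fun _ _ h => h
  | step h ih => rw [ff_succ h]; exact (io_inj _).comp ih

def GG : Type := DirectLimit (fun n => Equiv.Perm (XX n)) ff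

noncomputable instance : Group GG := inferInstanceAs (Group (DirectLimit _ ff))

def jj (n : ℕ) : Equiv.Perm (XX n) →* GG where
  toFun x := (⟦⟨n, x⟩⟧ : DirectLimit _ ff)
  map_one' := (DirectLimit.one_def n).symm
  map_mul' x y := (DirectLimit.mul_def (G := fun n => Equiv.Perm (XX n)) (f := ff) n x y).symm

theorem jj_ff {i j : ℕ} (h : i ≤ j) (x : Equiv.Perm (XX i)) : jj j (ff i j h x) = jj i x :=
  DirectLimit.mk_apply (F := fun n => Equiv.Perm (XX n)) (f := ff) i j x h

theorem exists_inv : ∃ s : GG, s ≠ 1 ∧ s * s = 1 := by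
  refine ⟨jj 0 (Equiv.swap true false : Equiv.Perm Bool), fun h => ?_, ?_⟩
  · rw [← map_one (jj 0)] at h
    obtain ⟨i, h1, h2, e⟩ := Quotient.exact h
    have : Equiv.swap true false true = true := DFunLike.congr_fun (ff_inj _ _ _ e) true
    simp at this
  · exact (map_mul (jj 0) _ _).symm.trans
      ((congrArg (jj 0) (Equiv.swap_mul_self (α := Bool) _ _)).trans (map_one _))

theorem good (F : Finset GG) : ∃ (H : Type) (_ : Group H) (_ : Fintype H) (j : H →* GG),
    (∀ g ∈ F, ∃ h, j h = g) ∧ ∀ (B : Type 1) [Ring B] [Algebra ℂ B] (u : GG →* B),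
      ∑ h, u (j h) = 0 → (1 : B) = 0 := by
  have h : ∀ g : GG, ∃ n x, g = jj n x := fun g => DirectLimit.exists_eq_mk ff g
  choose n x hx using h
  refine ⟨Equiv.Perm (XX (F.sup n)), inferInstance, Fintype.ofFinite _, jj _, fun g hg =>
    ⟨ff _ _ (le_sup hg) (x g), by rw [jj_ff, ← hx]⟩, fun B _ _ u hu => ?_⟩
  letI := Fintype.ofFinite (Equiv.Perm (XX (F.sup n)))
  refine key (X := XX (F.sup n)) (u.comp (jj (F.sup n + 1))) ?_
  rw [← hu]
  refine sum_congr rfl fun k _ => ?_
  rw [← jj_ff (Nat.le_succ _), ff_succ le_rfl, ff_self]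
  rfl

end Pool.Agent.H83.Tower
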