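import Mathlib

set_option autoImplicit false

namespace Pool.Agent.H83.Tower2

open Set Filter Cardinal

theorem pseudo {ι : Type} [Countable ι] (D : ι → Set ℕ) {Y : Set ℕ}
    (hY : ∀ G : Finset ι, (Y \ ⋃ i ∈ G, D i).Infinite) :
    ∃ Y' ⊆ Y, Y'.Infinite ∧ ∀ i, (Y' ∩ D i).Finite := by
  obtain ⟨e, he⟩ := exists_injective_nat ι
  have h : ∀ k, ∃ x, k < x ∧ x ∈ Y ∧ ∀ i, e i ≤ k → x ∉ D i := by
    intro k
    obtain ⟨x, hx, hk⟩ := (hY ((finite_Iic k).preimage he.injOn).toFinset).exists_gt k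
    exact ⟨x, hk, hx.1, fun i hi h => hx.2 (mem_biUnion (by simpa using hi) h)⟩
  choose x hx1 hx2 hx3 using h
  refine ⟨range x, range_subset_iff.2 hx2, infinite_of_not_bddAbove ?_, fun i => ?_⟩
  · rintro ⟨b, hb⟩
    exact absurd ((hx1 b).trans_le (hb ⟨_, rfl⟩)) (lt_irrefl _)
  · refine ((finite_Iio (e i)).image x).subset ?_
    rintro _ ⟨⟨k, rfl⟩, hk⟩
    exact ⟨k, not_le.1 fun h => hx3 k i h hk, rfl⟩

theorem inf_of_mem {W : Filter ℕ} [W.NeBot] (hW : W ≤ cofinite) {s : Set ℕ} (hs : s ∈ W) :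
    s.Infinite := fun h => by
  simpa using Filter.nonempty_of_mem (inter_mem hs (hW h.compl_mem_cofinite))

theorem unsplit {ι : Type} [Countable ι] (Z : ι → Set ℕ) {Y : Set ℕ} (hY : Y.Infinite) :
    ∃ Y' ⊆ Y, Y'.Infinite ∧ ∀ i, (Y' \ Z i).Finite ∨ (Y' ∩ Z i).Finite := by
  classical
  have : (cofinite ⊓ 𝓟 Y).NeBot := cofinite_inf_principal_neBot_iff.2 hY
  let W := Ultrafilter.of (cofinite ⊓ 𝓟 Y)
  have hW : (W : Filter ℕ) ≤ cofinite ⊓ 𝓟 Y := Ultrafilter.of_le _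
  obtain ⟨Y', h1, h2, h3⟩ := pseudo (fun i => if Z i ∈ W then (Z i)ᶜ else Z i) (Y := Y) fun G => by
    refine inf_of_mem (W := W) (hW.trans inf_le_left)
      (inter_mem (le_principal_iff.1 (hW.trans inf_le_right)) ?_)
    change (⋃ i ∈ G, _)ᶜ ∈ (W : Filter ℕ)
    rw [compl_iUnion₂]
    refine (biInter_finset_mem G).2 fun i _ => ?_
    split_ifs with h
    · simpa using h
    · exact Ultrafilter.compl_mem_iff_notMem.2 h
  refine ⟨Y', h1, h2, fun i => ?_⟩
  have := h3 i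
  split_ifs at this
  · exact Or.inl this
  · exact Or.inr this

theorem shrink {ι ι' : Type} [Countable ι] [Countable ι'] (Z : ι → Set ℕ) (S : ι' → Set ℕ)
    {Y : Set ℕ} (hY : Y.Infinite) : ∃ Y' ⊆ Y, Y'.Infinite ∧
      (∀ i, (Y' \ Z i).Finite ∨ (Y' ∩ Z i).Finite) ∧ ∀ i, (S i).Infinite → (S i \ Y').Infinite := by
  obtain ⟨Y1, h1, h2, h3⟩ := unsplit (Sum.elim Z S) hY
  let f := h2.natEmbedding
  let Y' := range fun k => (f (2 * k)).1
  have h4 : Y' ⊆ Y1 := range_subset_iff.2 fun k => (f _).2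
  have h5 : (Y1 \ Y').Infinite := by
    refine infinite_of_injective_forall_mem (f := fun k => (f (2 * k + 1)).1) (fun a b h => ?_) ?_
    · have := f.injective (Subtype.ext h); omega
    · refine fun k => ⟨(f _).2, fun ⟨j, hj⟩ => ?_⟩
      have := f.injective (Subtype.ext hj); omega
  refine ⟨Y', h4.trans h1, infinite_range_of_injective fun a b h => ?_, fun i =>
    (h3 (.inl i)).imp (fun h => h.subset (diff_subset_diff_left h4))
      (fun h => h.subset (inter_subset_inter_left _ h4)), fun i hi => ?_⟩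
  · have := f.injective (Subtype.ext h); omega
  · rcases h3 (.inr i) with h | h
    · refine (h5.diff h).mono fun x hx => ⟨?_, hx.1.2⟩
      by_contra hc
      exact hx.2 ⟨hx.1.1, hc⟩
    · exact (hi.diff h).mono fun x hx => ⟨hx.1, fun h' => hx.2 ⟨h4 h', hx.1⟩⟩

/-- the `n`-th column -/
def P (n : ℕ) : Set ℕ := {k | k.unpair.1 = n}

theorem P_inf (n : ℕ) : (P n).Infinite :=
  infinite_of_injective_forall_mem (f := fun m => n.pair m) (fun a b h => by simpa using h)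
    fun m => by simp [P]

section step

variable {J : Type} [LinearOrder J] (X : J → Set ℕ) (d : J → ℕ → ℕ)

/-- the requirements on a new member of the tower -/
def New (Y : Set ℕ) (e : ℕ → ℕ) : Prop :=
  (∀ j, ∃ n ≥ j, (Y ∩ P n).Infinite) ∧ (∀ j, ∀ᶠ n in atTop, (Y ∩ P n).Infinite → j ≤ e n) ∧
  (∀ β, ∀ᶠ n in atTop, ((Y ∩ P n) \ X β).Finite) ∧
  (∀ β n, (Y ∩ P n ∩ X β).Infinite → e n < d β n) ∧
  ∀ β n (G : Finset J), ((X β ∩ P n) \ ⋃ γ ∈ G, X γ).Infinite →
    (((X β ∩ P n) \ ⋃ γ ∈ G, X γ) \ Y).Infinite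

/-- the invariant -/
def Inv : Prop := ∀ α, New (fun β : Iio α => X β) (fun β => d β) (X α) (d α)

variable {X d}

theorem Inv.persist (h : Inv X d) {β : J} {n : ℕ} (hn : (X β ∩ P n).Infinite) (G : Finset J)
    (hG : ∀ γ ∈ G, β < γ) : ((X β ∩ P n) \ ⋃ γ ∈ G, X γ).Infinite := by
  classical
  induction G using Finset.induction_on_max with
  | empty => simpa using hn
  | insert α G hα ih =>
    have h1 := (h α).2.2.2.2 ⟨β, hG α (by simp)⟩ n (G.subtype (· ∈ Iio α))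
    have h2 : (⋃ γ ∈ G.subtype (· ∈ Iio α), X γ.1) = ⋃ γ ∈ G, X γ := by
      ext x
      simp only [mem_iUnion, Finset.mem_subtype]
      exact ⟨fun ⟨γ, h, h'⟩ => ⟨γ, h, h'⟩, fun ⟨γ, h, h'⟩ => ⟨⟨γ, hα γ h⟩, h, h'⟩⟩
    simp only [h2] at h1
    rw [Finset.set_biUnion_insert, union_comm, ← diff_diff]
    exact h1 (ih fun γ hγ => hG γ (by simp [hγ]))

theorem Inv.cell [Countable J] (h : Inv X d) (F : Finset J) (j : ℕ) :
    ∃ n ≥ j, ∃ Y ⊆ P n, Y.Infinite ∧ ∃ e ≥ j, (∀ β ∈ F, (Y \ X β).Finite) ∧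
      ∀ γ, (Y ∩ X γ).Infinite → e < d γ n := by
  classical
  rcases isEmpty_or_nonempty J with hJ | ⟨⟨β0⟩⟩
  · exact ⟨j, le_rfl, P j, subset_rfl, P_inf j, j, le_rfl, fun β => hJ.elim β, fun β => hJ.elim β⟩
  let β := (insert β0 F).max' (Finset.insert_nonempty _ _)
  have h1 : ∀ᶠ n in atTop, ∀ γ ∈ F, ((X β ∩ P n) \ X γ).Finite := by
    refine (eventually_all_finset F).2 fun γ hγ => ?_
    rcases ((insert β0 F).le_max' γ (by simp [hγ])).eq_or_lt with h' | h'
    · exact .of_forall fun n => by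
        rw [show X γ = X β from congrArg X h', diff_eq_empty.2 inter_subset_left]
        exact finite_empty
    · exact (h β).2.2.1 ⟨γ, h'⟩
  obtain ⟨m, hm⟩ := eventually_atTop.1 (h1.and ((h β).2.1 (j + 1)))
  obtain ⟨n, hn, hn'⟩ := (h β).1 (max m j)
  obtain ⟨h2, h3⟩ := hm n (le_of_max_le_left hn)
  obtain ⟨Y, h5, h6, h7⟩ := pseudo (fun γ : Ioi β => X γ) (Y := X β ∩ P n) fun G =>
    (h.persist hn' (G.map (Function.Embedding.subtype _)) fun γ hγ => by
      obtain ⟨γ, -, rfl⟩ := Finset.mem_map.1 hγ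
      exact γ.2).mono (diff_subset_diff_right (iUnion₂_subset fun γ hγ =>
        subset_biUnion_of_mem (u := X) (Finset.mem_map_of_mem _ hγ)))
  refine ⟨n, le_of_max_le_right hn, Y, h5.trans inter_subset_right, h6, d β n - 1,
    by have := h3 hn'; omega, fun γ hγ => (h2 γ hγ).subset (diff_subset_diff_left h5),
    fun γ hγ => ?_⟩
  have h8 := h3 hn'
  rcases lt_trichotomy γ β with h' | rfl | h'
  · have := (h β).2.2.2.1 ⟨γ, h'⟩ n (hγ.mono (inter_subset_inter_left _ h5))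
    simp only at this
    omega
  · omega
  · exact absurd (h7 ⟨γ, h'⟩) hγ

theorem Inv.step [Countable J] (h : Inv X d) (Z : ℕ → Set ℕ) : ∃ Y e, New X d Y e ∧
    (∀ m n, ((Y ∩ P n) \ Z m).Finite ∨ (Y ∩ P n ∩ Z m).Finite) ∧
    ∀ m, (∀ᶠ n in atTop, ((Y ∩ P n) \ Z m).Finite) ∨
      ∀ᶠ n in atTop, (Y ∩ P n ∩ Z m).Finite := by
  classical
  obtain ⟨c, hc⟩ := exists_injective_nat J
  choose n hn Y0 h1 h2 e he h3 h4 using fun j =>
    h.cell ((finite_Iic j).preimage hc.injOn).toFinset j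
  choose Y h5 h6 h7 h8 using fun j => shrink Z
    (fun p : J × ℕ × Finset J => (X p.1 ∩ P p.2.1) \ ⋃ γ ∈ p.2.2, X γ) (h2 j)
  let r := Function.invFun n
  have hr : ∀ k ∈ range n, n (r k) = k := fun k hk => Function.invFun_eq hk
  have hN0 : (range n).Infinite := infinite_of_not_bddAbove fun ⟨b, hb⟩ =>
    absurd ((hn (b + 1)).trans (hb ⟨_, rfl⟩)) (by omega)
  obtain ⟨N, hN1, hN2, hN3⟩ := unsplit (fun m => {k | (Y (r k) \ Z m).Finite}) hN0
  have hr' : ∀ j, ∀ᶠ k in atTop, k ∈ N → j ≤ r k := fun j => by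
    rw [← Nat.cofinite_eq_atTop]
    refine ((finite_Iio j).image n).subset fun k hk => ?_
    simp only [mem_compl_iff, mem_setOf_eq, Classical.not_imp, not_le] at hk
    exact ⟨r k, hk.2, hr k (hN1 hk.1)⟩
  let Y' : Set ℕ := ⋃ k ∈ N, Y (r k)
  have hY : ∀ k, Y' ∩ P k = if k ∈ N then Y (r k) else ∅ := by
    intro k
    have : ∀ l ∈ N, ∀ x ∈ Y (r l), x ∈ P l := fun l hl x hx => by
      have := h1 _ (h5 _ hx)
      rwa [hr l (hN1 hl)] at this
    ext x
    constructor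
    · rintro ⟨hx, hk⟩
      obtain ⟨l, hl, hx⟩ := mem_iUnion₂.1 hx
      obtain rfl : l = k := (this l hl x hx).symm.trans hk
      rwa [if_pos hl]
    · intro hx
      split_ifs at hx with hk
      · exact ⟨mem_biUnion hk hx, this k hk x hx⟩
      · exact hx.elim
  refine ⟨Y', fun k => e (r k), ⟨fun j => ?_, fun j => ?_, fun β => ?_, fun β k => ?_,
    fun β k G hG => ?_⟩, fun m k => ?_, fun m => ?_⟩
  · obtain ⟨k, hk, hj⟩ := hN2.exists_gt j
    exact ⟨k, hj.le, by rw [hY, if_pos hk]; exact h6 _⟩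
  · filter_upwards [hr' j] with k hk h'
    rw [hY] at h'
    split_ifs at h' with hk'
    · exact (hk hk').trans (he _)
    · exact absurd finite_empty h'
  · filter_upwards [hr' (c β)] with k hk
    rw [hY]
    split_ifs with hk'
    · exact (h3 _ β (by simpa using hk hk')).subset (diff_subset_diff_left (h5 _))
    · simp
  · rw [hY]
    split_ifs with hk'
    · intro h'
      have := h4 _ β (h'.mono (inter_subset_inter_left _ (h5 _)))
      rwa [hr k (hN1 hk')] at this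
    · simp
  · refine (h8 (r k) (β, k, G) hG).mono fun x hx => ⟨hx.1, fun h' => hx.2 ?_⟩
    have : x ∈ Y' ∩ P k := ⟨h', hx.1.1.2⟩
    rw [hY] at this
    split_ifs at this
    · exact this
    · exact this.elim
  · rw [hY]
    split_ifs
    · exact h7 _ m
    · simp
  · rw [← Nat.cofinite_eq_atTop]
    refine (hN3 m).imp (fun h' => h'.subset fun k hk => ?_) fun h' => h'.subset fun k hk => ?_
    · simp only [mem_compl_iff, mem_setOf_eq, hY] at hk
      split_ifs at hk with hk'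
      · exact ⟨hk', hk⟩
      · simp at hk
    · simp only [mem_compl_iff, mem_setOf_eq, hY] at hk
      split_ifs at hk with hk'
      · exact ⟨hk', (h7 _ m).resolve_right hk⟩
      · simp at hk

end step

theorem rec_choice {J X : Type} [LinearOrder J] [WellFoundedLT J]
    (P : ∀ i : J, (Iio i → X) → X → Prop) (step : ∀ i g, ∃ x, P i g x) :
    ∃ b : J → X, ∀ i, P i (fun j => b j.1) (b i) := by
  choose G hG using step
  let b : J → X := (wellFounded_lt (α := J)).fix fun i g => G i fun j => g j.1 j.2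
  refine ⟨b, fun i => ?_⟩
  have : b i = G i fun j => b j.1 := WellFounded.fix_eq _ _ _
  rw [this]
  exact hG i _

theorem New.congr {J J' : Type} [LinearOrder J] [LinearOrder J'] {X : J → Set ℕ}
    {d : J → ℕ → ℕ} {Y : Set ℕ} {e : ℕ → ℕ} (h : New X d Y e) (f : J' ↪ J) :
    New (fun β => X (f β)) (fun β => d (f β)) Y e :=
  ⟨h.1, h.2.1, fun β => h.2.2.1 _, fun β => h.2.2.2.1 _, fun β n G hG => by
    have := h.2.2.2.2 (f β) n (G.map f)
    simp only [Finset.mem_map, iUnion_exists, biUnion_and', iUnion_iUnion_eq_right] at this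
    exact this hG⟩

theorem tower {J : Type} [LinearOrder J] [WellFoundedLT J] (hJ : ∀ α : J, Countable (Iio α))
    (Z : J → ℕ → Set ℕ) : ∃ (X : J → Set ℕ) (d : J → ℕ → ℕ), Inv X d ∧ ∀ α,
    (∀ m n, ((X α ∩ P n) \ Z α m).Finite ∨ (X α ∩ P n ∩ Z α m).Finite) ∧
    ∀ m, (∀ᶠ n in atTop, ((X α ∩ P n) \ Z α m).Finite) ∨
      ∀ᶠ n in atTop, (X α ∩ P n ∩ Z α m).Finite := by
  obtain ⟨b, hb⟩ := rec_choice (J := J) (X := Set ℕ × (ℕ → ℕ)) (fun α g p =>
    Inv (fun β => (g β).1) (fun β => (g β).2) → New (fun β => (g β).1) (fun β => (g β).2) p.1 p.2 ∧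
    (∀ m n, ((p.1 ∩ P n) \ Z α m).Finite ∨ (p.1 ∩ P n ∩ Z α m).Finite) ∧
    ∀ m, (∀ᶠ n in atTop, ((p.1 ∩ P n) \ Z α m).Finite) ∨
      ∀ᶠ n in atTop, (p.1 ∩ P n ∩ Z α m).Finite) fun α g => by
    by_cases h : Inv (fun β => (g β).1) (fun β => (g β).2)
    · obtain ⟨Y, e, h'⟩ := h.step (Z α)
      exact ⟨(Y, e), fun _ => h'⟩
    · exact ⟨(∅, id), fun h' => absurd h' h⟩
  have h1 : ∀ α, Inv (fun β : Iio α => (b β.1).1) (fun β => (b β.1).2) := by
    intro α
    induction α using WellFoundedLT.induction with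
    | ind α ih =>
      exact fun β => (hb β (ih β β.2)).1.congr (J' := Iio β)
        ⟨fun γ => ⟨γ.1.1, γ.2⟩, fun a b h => Subtype.ext (Subtype.ext (congrArg Subtype.val h :))⟩
  exact ⟨fun α => (b α).1, fun α => (b α).2, fun α => (hb α (h1 α)).1, fun α => (hb α (h1 α)).2⟩

end Pool.Agent.H83.Tower2
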