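import Mathlib

set_option autoImplicit false

namespace Pool.Agent.H83.TreeD

open Set Filter Topology

/-- labels -/
abbrev L : Type := ℕ∞ × ℕ

/-- nodes: transfinite sequences of labels, normalised beyond their length -/
def T : Type 1 := {p : Ordinal.{0} × (Ordinal.{0} → L) // ∀ c, p.1 ≤ c → p.2 c = (0, 0)}

/-- end-extension -/
def le (s t : T) : Prop := s.1.1 ≤ t.1.1 ∧ ∀ c < s.1.1, s.1.2 c = t.1.2 c

theorem le_refl' (s : T) : le s s := ⟨le_rfl, fun _ _ => rfl⟩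

theorem le_trans' {s t u : T} (h1 : le s t) (h2 : le t u) : le s u :=
  ⟨h1.1.trans h2.1, fun c hc => (h1.2 c hc).trans (h2.2 c (hc.trans_le h1.1))⟩

open Classical in
/-- immediate successor -/
noncomputable def succ (t : T) (l : L) : T :=
  ⟨(t.1.1 + 1, Function.update t.1.2 t.1.1 l), fun c hc => by
    have h1 : t.1.1 < c := lt_of_lt_of_le (lt_add_one _) hc
    simp only [Function.update_of_ne h1.ne']
    exact t.2 c h1.le⟩

theorem le_succ (t : T) (l : L) : le t (succ t l) :=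
  ⟨(lt_add_one _).le, fun c hc => by simp only [succ, Function.update_of_ne hc.ne]⟩

theorem succ_le_val {t s : T} {l : L} (h : le (succ t l) s) : s.1.2 t.1.1 = l := by
  rw [← h.2 t.1.1 (lt_add_one _)]; simp [succ]

theorem succ_le_lt {t s : T} {l : L} (h : le (succ t l) s) : t.1.1 < s.1.1 :=
  lt_of_lt_of_le (lt_add_one _) h.1

theorem exists_ub (u : ℕ → T) (h : ∀ n, le (u n) (u (n + 1))) : ∃ w, ∀ n, le (u n) w := by
  classical
  have hm : ∀ n m, n ≤ m → le (u n) (u m) := by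
    intro n m hnm
    induction hnm with
    | refl => exact le_refl' _
    | step _ ih => exact le_trans' ih (h _)
  refine ⟨⟨(⨆ n, (u n).1.1, fun c => if hc : ∃ n, c < (u n).1.1 then (u hc.choose).1.2 c
    else (0, 0)), fun c hc => ?_⟩, fun n => ⟨Ordinal.le_iSup (fun n => (u n).1.1) n, ?_⟩⟩
  · have : ¬ ∃ n, c < (u n).1.1 := by
      rintro ⟨n, hn⟩
      exact absurd ((Ordinal.le_iSup (fun n => (u n).1.1) n).trans hc) (not_le.2 hn)
    simp only [dif_neg this]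
  · intro c hc
    have hc' : ∃ n, c < (u n).1.1 := ⟨n, hc⟩
    simp only [dif_pos hc']
    rcases le_total n hc'.choose with h1 | h1
    · exact (hm _ _ h1).2 c hc
    · exact ((hm _ _ h1).2 c hc'.choose_spec).symm

/-- the space -/
def X : Type 1 := T × ℕ∞

/-- basic neighbourhoods -/
def B (x : X) (m : ℕ) : Set X :=
  {y | y = x ∨ ∃ k, m ≤ k ∧ le (succ x.1 (x.2, k)) y.1 ∧ (m : ℕ∞) ≤ y.2}

theorem B_anti (x : X) {m n : ℕ} (h : m ≤ n) : B x n ⊆ B x m := by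
  rintro y (hy | ⟨k, h1, h2, h3⟩)
  · exact Or.inl hy
  · exact Or.inr ⟨k, h.trans h1, h2, le_trans (by exact_mod_cast h) h3⟩

theorem B_le {x y : X} {m : ℕ} (h : y ∈ B x m) : le x.1 y.1 := by
  rcases h with rfl | ⟨k, -, h2, -⟩
  · exact le_refl' _
  · exact le_trans' (le_succ _ _) h2

instance : TopologicalSpace X where
  IsOpen U := ∀ x ∈ U, ∃ m, B x m ⊆ U
  isOpen_univ := fun _ _ => ⟨0, subset_univ _⟩
  isOpen_inter := by
    intro U V hU hV x hx
    obtain ⟨m, hm⟩ := hU x hx.1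
    obtain ⟨n, hn⟩ := hV x hx.2
    exact ⟨max m n, subset_inter ((B_anti x (le_max_left _ _)).trans hm)
      ((B_anti x (le_max_right _ _)).trans hn)⟩
  isOpen_sUnion := by
    rintro S hS x ⟨U, hU, hx⟩
    obtain ⟨m, hm⟩ := hS U hU x hx
    exact ⟨m, hm.trans (subset_sUnion_of_mem hU)⟩

theorem isOpen_B (x : X) (m : ℕ) : IsOpen (B x m) := by
  rintro y (rfl | ⟨k, h1, h2, h3⟩)
  · exact ⟨m, Subset.rfl⟩
  · refine ⟨m, fun z hz => Or.inr ⟨k, h1, le_trans' h2 (B_le hz), ?_⟩⟩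
    rcases hz with rfl | ⟨_, -, -, h⟩
    · exact h3
    · exact h

theorem basis (x : X) : (𝓝 x).HasBasis (fun _ : ℕ => True) (B x) := by
  refine ⟨fun s => ⟨fun hs => ?_, ?_⟩⟩
  · obtain ⟨U, hU, ho, hx⟩ := mem_nhds_iff.1 hs
    obtain ⟨m, hm⟩ := ho x hx
    exact ⟨m, trivial, hm.trans hU⟩
  · rintro ⟨m, -, hm⟩
    exact mem_of_superset ((isOpen_B x m).mem_nhds (Or.inl rfl)) hm

instance : FirstCountableTopology X := ⟨fun x => (basis x).isCountablyGenerated⟩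

theorem sep (x y : X) (hne : x ≠ y) (h : x.1.1.1 ≤ y.1.1.1) : ∃ m, Disjoint (B x m) (B y 0) := by
  by_cases h1 : x.1 = y.1
  · refine ⟨0, disjoint_left.2 ?_⟩
    rintro z (rfl | ⟨k, -, h2, -⟩) (h3 | ⟨k', -, h3, -⟩)
    · exact hne h3
    · exact absurd (succ_le_lt h3) (by rw [h1]; exact lt_irrefl _)
    · exact absurd (succ_le_lt h2) (by rw [h3, h1]; exact lt_irrefl _)
    · have e1 := succ_le_val h2
      have e2 := succ_le_val h3
      rw [h1, e2] at e1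
      exact hne (Prod.ext h1 (congrArg Prod.fst e1).symm)
  by_cases h2 : le x.1 y.1
  · have hlt : x.1.1.1 < y.1.1.1 := by
      refine lt_of_le_of_ne h fun he => h1 (Subtype.ext (Prod.ext he (funext fun c => ?_)))
      rcases lt_or_ge c x.1.1.1 with hc | hc
      · exact h2.2 c hc
      · rw [x.1.2 c hc, y.1.2 c (he ▸ hc)]
    refine ⟨(y.1.1.2 x.1.1.1).2 + 1, disjoint_left.2 ?_⟩
    rintro z (rfl | ⟨k, hk, h3, -⟩) h4
    · exact absurd (B_le h4).1 (not_le.2 hlt)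
    · have e1 := succ_le_val h3
      rw [← (B_le h4).2 _ hlt] at e1
      rw [e1] at hk
      exact absurd hk (by simp)
  · refine ⟨0, disjoint_left.2 fun z hz hz' => h2 ⟨h, fun c hc => ?_⟩⟩
    rw [(B_le hz).2 c hc, (B_le hz').2 c (hc.trans_le h)]

instance : T2Space X := ⟨fun x y hne => by
  rcases le_total x.1.1.1 y.1.1.1 with h | h
  · obtain ⟨m, hm⟩ := sep x y hne h
    exact ⟨_, _, isOpen_B x m, isOpen_B y 0, Or.inl rfl, Or.inl rfl, hm⟩
  · obtain ⟨m, hm⟩ := sep y x hne.symm h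
    exact ⟨_, _, isOpen_B x 0, isOpen_B y m, Or.inl rfl, Or.inl rfl, hm.symm⟩⟩

/-- levels -/
def lev (i : ℕ∞) : Set X := {x | x.2 = i}

theorem lev_discrete (n : ℕ) : DiscreteTopology (lev n) := by
  rw [discreteTopology_iff_isOpen_singleton]
  intro x
  refine isOpen_induced_iff.2 ⟨B x.1 (n + 1), isOpen_B _ _, ?_⟩
  ext y
  simp only [mem_preimage, mem_singleton_iff]
  constructor
  · rintro (h | ⟨k, -, -, h⟩)
    · exact Subtype.ext h
    · rw [y.2] at h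
      exact absurd (by exact_mod_cast h : n + 1 ≤ n) (by simp)
  · rintro rfl; exact Or.inl rfl

theorem dense_levs : Dense (⋃ n : ℕ, lev n) := fun x =>
  (mem_closure_iff_nhds_basis' (basis x)).2 fun m _ =>
    ⟨(succ x.1 (x.2, m), m), Or.inr ⟨m, le_rfl, le_refl' _, le_rfl⟩, mem_iUnion.2 ⟨m, rfl⟩⟩

theorem dense_top : Dense (lev ⊤) := fun x =>
  (mem_closure_iff_nhds_basis' (basis x)).2 fun m _ =>
    ⟨(succ x.1 (x.2, m), ⊤), Or.inr ⟨m, le_rfl, le_refl' _, le_top⟩, rfl⟩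

theorem avoid {F : Set X} (hF : F ⊆ lev ⊤) (hd : DiscreteTopology F) (u : T) :
    ∃ u', le u u' ∧ ∀ y ∈ F, ¬ le u' y.1 := by
  by_cases h : ∃ y ∈ F, le u y.1
  · obtain ⟨x, hx, hux⟩ := h
    obtain ⟨U, hU, hU'⟩ := isOpen_induced_iff.1 (isOpen_discrete ({⟨x, hx⟩} : Set F))
    have hxU : x ∈ U := by
      have : (⟨x, hx⟩ : F) ∈ ((↑) : F → X) ⁻¹' U := by rw [hU']; rfl
      exact this
    obtain ⟨m, hm⟩ := hU x hxU
    refine ⟨succ x.1 (x.2, m), le_trans' hux (le_succ _ _), fun y hy h => ?_⟩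
    have h1 : (⟨y, hy⟩ : F) ∈ ((↑) : F → X) ⁻¹' U :=
      hm (Or.inr ⟨m, le_rfl, h, by rw [hF hy]; exact le_top⟩)
    rw [hU'] at h1
    have h2 : y = x := congrArg Subtype.val h1
    exact absurd (succ_le_lt h) (by rw [h2]; exact lt_irrefl _)
  · exact ⟨u, le_refl' _, fun y hy h' => h ⟨y, hy, h'⟩⟩

theorem not_dense (F : ℕ → Set X) (hF : ∀ n, F n ⊆ lev ⊤) (hd : ∀ n, DiscreteTopology (F n)) :
    ¬ Dense (⋃ n, F n) := by
  choose g hg1 hg2 using fun n => avoid (hF n) (hd n)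
  let u : ℕ → T := fun n => Nat.rec ⟨(0, fun _ => (0, 0)), fun _ _ => rfl⟩ (fun k t => g k t) n
  obtain ⟨w, hw⟩ := exists_ub u (fun n => hg1 n (u n))
  intro h
  obtain ⟨y, hy1, hy2⟩ := h.inter_open_nonempty _ (isOpen_B (w, 0) 0) ⟨_, Or.inl rfl⟩
  obtain ⟨n, hn⟩ := mem_iUnion.1 hy2
  exact hg2 n (u n) y hn (le_trans' (hw (n + 1)) (B_le hy1))

end Pool.Agent.H83.TreeD
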