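import Mathlib

set_option autoImplicit false

namespace Pool.Agent.H83.Tw

open Set Filter

/-- idempotent ultrafilter living on far away nonempty sets -/
def Good (U : Ultrafilter (Finset ℕ)) : Prop :=
  (∀ p : Finset ℕ → Prop, (∀ᶠ a in U, p a) ↔ ∀ᶠ a in U, ∀ᶠ b in U, p (a ∪ b)) ∧
    ∀ m, ∀ᶠ a : Finset ℕ in U, a.Nonempty ∧ ∀ i ∈ a, m ≤ i

attribute [local instance] Ultrafilter.mul Ultrafilter.semigroup

theorem exists_good : ∃ U, Good U := by
  letI : Semigroup (Finset ℕ) :=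
    { mul := fun a b => a ∪ b, mul_assoc := fun a b c => Finset.union_assoc a b c }
  let T : ℕ → Set (Finset ℕ) := fun m => {a : Finset ℕ | a.Nonempty ∧ ∀ i ∈ a, m ≤ i}
  let S : Set (Ultrafilter (Finset ℕ)) := ⋂ n, {U | T n ∈ U}
  have h := exists_idempotent_in_compact_subsemigroup (M := Ultrafilter (Finset ℕ)) ?_ S ?_ ?_ ?_
  · rcases h with ⟨U, hU, hid⟩
    refine ⟨U, fun p => ?_, fun m => Set.mem_iInter.mp hU m⟩
    have := Ultrafilter.eventually_mul (M := Finset ℕ) U U p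
    rw [hid] at this
    exact this
  · exact Ultrafilter.continuous_mul_left
  · apply IsCompact.nonempty_iInter_of_sequence_nonempty_isCompact_isClosed
    · intro n U hU
      have hU' : T (n + 1) ∈ U := hU
      refine mem_of_superset hU' ?_
      rintro a ⟨h1, h2⟩
      exact ⟨h1, fun i hi => (Nat.le_succ n).trans (h2 i hi)⟩
    · intro n
      refine ⟨pure ({n} : Finset ℕ), ?_⟩
      show T n ∈ (pure ({n} : Finset ℕ) : Ultrafilter (Finset ℕ))
      rw [Ultrafilter.mem_pure]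
      exact ⟨Finset.singleton_nonempty n, fun i hi => (Finset.mem_singleton.1 hi).ge⟩
    · exact (ultrafilter_isClosed_basic _).isCompact
    · intro n
      apply ultrafilter_isClosed_basic
  · exact IsClosed.isCompact (isClosed_iInter fun i => ultrafilter_isClosed_basic _)
  · intro U hU V hV
    rw [Set.mem_iInter] at *
    intro n
    have : ∀ᶠ m in (U * V : Ultrafilter (Finset ℕ)), m ∈ T n := by
      rw [Ultrafilter.eventually_mul]
      filter_upwards [hU n] with a ha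
      filter_upwards [hV n] with b hb
      show a ∪ b ∈ T n
      refine ⟨ha.1.mono Finset.subset_union_left, fun i hi => ?_⟩
      rcases Finset.mem_union.1 hi with h | h
      · exact ha.2 i h
      · exact hb.2 i h
    exact this

/-- block sequences -/
def Blk (b : ℕ → Finset ℕ) : Prop :=
  (∀ i, (b i).Nonempty) ∧ ∀ i j, i < j → ∀ x ∈ b i, ∀ y ∈ b j, x < y

theorem Blk.le {b : ℕ → Finset ℕ} (h : Blk b) : ∀ j, ∀ y ∈ b j, j ≤ y := by
  intro j
  induction j with
  | zero => intro y _; exact Nat.zero_le _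
  | succ j ih =>
    intro y hy
    obtain ⟨x, hx⟩ := h.1 j
    exact Nat.succ_le_of_lt ((ih x hx).trans_lt (h.2 j (j + 1) (Nat.lt_succ_self j) x hx y hy))

/-- above `n` the set `A` is a union of blocks -/
def Sat (b : ℕ → Finset ℕ) (n : ℕ) (A : Set ℕ) : Prop :=
  ∀ x ∈ A, n ≤ x → ∃ j, x ∈ b j ∧ (b j : Set ℕ) ⊆ A

theorem exists_good_blk {b : ℕ → Finset ℕ} (hb : Blk b) :
    ∃ U, Good U ∧ ∀ᶠ t : Finset ℕ in U, Sat b 0 (t : Set ℕ) := by
  obtain ⟨U, h1, h2⟩ := exists_good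
  refine ⟨U.map (fun a => a.biUnion b), ⟨fun p => ?_, fun m => ?_⟩, ?_⟩
  · simp only [Ultrafilter.coe_map, eventually_map]
    rw [h1]
    simp only [Finset.union_biUnion]
  · simp only [Ultrafilter.coe_map, eventually_map]
    filter_upwards [h2 m] with a ha
    obtain ⟨j, hj⟩ := ha.1
    obtain ⟨x, hx⟩ := hb.1 j
    refine ⟨⟨x, Finset.mem_biUnion.2 ⟨j, hj, hx⟩⟩, fun i hi => ?_⟩
    obtain ⟨k, hk, hik⟩ := Finset.mem_biUnion.1 hi
    exact (ha.2 k hk).trans (hb.le k i hik)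
  · simp only [Ultrafilter.coe_map, eventually_map]
    refine Eventually.of_forall fun a x hx _ => ?_
    obtain ⟨k, hk, hik⟩ := Finset.mem_biUnion.1 (Finset.mem_coe.1 hx)
    exact ⟨k, hik, fun y hy => Finset.mem_coe.2 (Finset.mem_biUnion.2 ⟨k, hk, hy⟩)⟩

/-- the limit of a colouring above a stem -/
def star (U : Ultrafilter (Finset ℕ)) (r : Finset ℕ → Prop) (s : Finset ℕ) : Prop :=
  ∀ᶠ t in U, r (s ∪ t)

theorem ev_iff {α : Type} (U : Ultrafilter α) (p : α → Prop) :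
    ∀ᶠ t in U, (p t ↔ ∀ᶠ u in U, p u) := by
  by_cases h : ∀ᶠ u in U, p u
  · filter_upwards [h] with t ht
    exact ⟨fun _ => h, fun _ => ht⟩
  · filter_upwards [Ultrafilter.eventually_not.2 h] with t ht
    exact ⟨fun h' => absurd h' ht, fun h' => absurd h' h⟩

/-- the two stability clauses -/
def Stab (U : Ultrafilter (Finset ℕ)) (r : Finset ℕ → Prop) (L : ℕ) (t : Finset ℕ) : Prop :=
  ∀ s ⊆ Finset.range L, (r (s ∪ t) ↔ star U r s) ∧ (star U r (s ∪ t) ↔ star U r s)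

theorem ev_stab {U : Ultrafilter (Finset ℕ)} (hU : Good U) (r : Finset ℕ → Prop) (L : ℕ) :
    ∀ᶠ t in U, Stab U r L t := by
  have : ∀ᶠ t in U, ∀ s ∈ (Finset.range L).powerset,
      (r (s ∪ t) ↔ star U r s) ∧ (star U r (s ∪ t) ↔ star U r s) := by
    rw [eventually_all_finset]
    intro s _
    refine (ev_iff U fun t => r (s ∪ t)).and ?_
    filter_upwards [ev_iff U fun t => star U r (s ∪ t)] with t ht
    rw [ht]
    unfold star
    rw [hU.1 fun t => r (s ∪ t)]
    simp only [Finset.union_assoc]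
  filter_upwards [this] with t ht s hs
  exact ht s (Finset.mem_powerset.2 hs)

/-- open subsets of the Cantor space of subsets of the naturals -/
def Op (V : Set (Set ℕ)) : Prop := ∀ A ∈ V, ∃ n, ∀ B : Set ℕ, (∀ i < n, i ∈ B ↔ i ∈ A) → B ∈ V

/-- the cylinder of a finite set lies in `V` -/
def R (V : Set (Set ℕ)) (v : Finset ℕ) : Prop :=
  ∀ B : Set ℕ, (∀ i ≤ v.sup id, i ∈ B ↔ i ∈ v) → B ∈ V

/-- marks separating the blocks -/
def Marks (t : ℕ → Finset ℕ) (L : ℕ → ℕ) : Prop :=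
  (∀ j, (t j).Nonempty ∧ ∀ x ∈ t j, L j ≤ x) ∧ ∀ i j, i < j → ∀ x ∈ t i, x < L j

theorem Marks.blk {t : ℕ → Finset ℕ} {L : ℕ → ℕ} (h : Marks t L) : Blk t :=
  ⟨fun j => (h.1 j).1, fun i j hij x hx y hy => (h.2 i j hij x hx).trans_le ((h.1 j).2 y hy)⟩

theorem Marks.mono {t : ℕ → Finset ℕ} {L : ℕ → ℕ} (h : Marks t L) : StrictMono L := by
  intro i j hij
  obtain ⟨x, hx⟩ := (h.1 i).1
  exact ((h.1 i).2 x hx).trans_lt (h.2 i j hij x hx)

open Classical in
/-- the stem of `A` below `n` -/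
noncomputable def stem (A : Set ℕ) (n : ℕ) : Finset ℕ := (Finset.range n).filter (· ∈ A)

theorem mem_stem {A : Set ℕ} {n x : ℕ} : x ∈ stem A n ↔ x < n ∧ x ∈ A := by
  simp [stem]

theorem stem_sub (A : Set ℕ) (n : ℕ) : stem A n ⊆ Finset.range n := fun x hx =>
  Finset.mem_range.2 (mem_stem.1 hx).1

section
variable {t : ℕ → Finset ℕ} {L : ℕ → ℕ} {A : Set ℕ} {n : ℕ}

theorem stem_step (h : Marks t L) (hA : Sat t n A) {j : ℕ} (hj : n ≤ L j) {x : ℕ}
    (hx : x ∈ stem A (L (j + 1))) : x ∈ stem A (L j) ∨ (x ∈ t j ∧ (t j : Set ℕ) ⊆ A) := by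
  obtain ⟨h1, h2⟩ := mem_stem.1 hx
  by_cases h3 : x < L j
  · exact Or.inl (mem_stem.2 ⟨h3, h2⟩)
  push Not at h3
  obtain ⟨i, hi, hiA⟩ := hA x h2 (hj.trans h3)
  rcases lt_trichotomy i j with h4 | h4 | h4
  · exact absurd (h.2 i j h4 x hi) (not_lt.2 h3)
  · subst h4; exact Or.inr ⟨hi, hiA⟩
  · exact absurd ((h.mono.monotone (Nat.succ_le_of_lt h4)).trans ((h.1 i).2 x hi)) (not_le.2 h1)

theorem stem_pos (h : Marks t L) (hA : Sat t n A) {j : ℕ} (hj : n ≤ L j)
    (ht : (t j : Set ℕ) ⊆ A) : stem A (L (j + 1)) = stem A (L j) ∪ t j := by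
  ext x
  rw [Finset.mem_union]
  constructor
  · intro hx
    exact (stem_step h hA hj hx).imp id And.left
  · rintro (hx | hx)
    · exact mem_stem.2 ⟨(mem_stem.1 hx).1.trans (h.mono (Nat.lt_succ_self j)), (mem_stem.1 hx).2⟩
    · exact mem_stem.2 ⟨h.2 j (j + 1) (Nat.lt_succ_self j) x hx, ht hx⟩

theorem stem_neg (h : Marks t L) (hA : Sat t n A) {j : ℕ} (hj : n ≤ L j)
    (ht : ¬ (t j : Set ℕ) ⊆ A) : stem A (L (j + 1)) = stem A (L j) := by
  ext x
  constructor
  · intro hx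
    exact (stem_step h hA hj hx).resolve_right fun h' => ht h'.2
  · intro hx
    exact mem_stem.2 ⟨(mem_stem.1 hx).1.trans (h.mono (Nat.lt_succ_self j)), (mem_stem.1 hx).2⟩

theorem star_const {U : Ultrafilter (Finset ℕ)} {r : Finset ℕ → Prop} (h : Marks t L)
    (hA : Sat t n A) {j : ℕ} (hj : n ≤ L j) (hr : ∀ i, j ≤ i → Stab U r (L i) (t i)) :
    ∀ i, j ≤ i → (star U r (stem A (L i)) ↔ star U r (stem A (L j))) := by
  intro i hi
  induction i, hi using Nat.le_induction with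
  | base => exact Iff.rfl
  | succ i hi ih =>
    have hn : n ≤ L i := hj.trans (h.mono.monotone hi)
    by_cases ht : (t i : Set ℕ) ⊆ A
    · rw [stem_pos h hA hn ht, (hr i hi _ (stem_sub _ _)).2, ih]
    · rw [stem_neg h hA hn ht, ih]

theorem exists_blk (h : Marks t L) (hA : Sat t n A) (hI : A.Infinite) (m : ℕ) :
    ∃ i, m ≤ i ∧ (t i : Set ℕ) ⊆ A := by
  obtain ⟨x, hx, hlt⟩ := hI.exists_gt (max n (L m))
  obtain ⟨i, hi, hiA⟩ := hA x hx ((le_max_left _ _).trans hlt.le)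
  refine ⟨i, ?_, hiA⟩
  by_contra hc
  exact absurd (h.2 i m (not_le.1 hc) x hi) (not_lt.2 ((le_max_right _ _).trans hlt.le))

theorem mem_of_R {V : Set (Set ℕ)} {m : ℕ} (hm : 0 < m) (hR : R V (stem A m)) : A ∈ V := by
  refine hR A fun i hi => ?_
  have : i < m := by
    refine hi.trans_lt ?_
    rw [Finset.sup_lt_iff hm]
    intro x hx
    exact (mem_stem.1 hx).1
  rw [mem_stem]
  exact ⟨fun h => ⟨this, h⟩, And.right⟩

theorem R_of_mem {V : Set (Set ℕ)} {m k : ℕ} (hk : ∀ B : Set ℕ, (∀ i < k, i ∈ B ↔ i ∈ A) → B ∈ V)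
    {x : ℕ} (hx : x ∈ stem A m) (hkx : k ≤ x) : R V (stem A m) := by
  intro B hB
  refine hk B fun i hi => ?_
  have h1 : i ≤ (stem A m).sup id := (hi.le.trans hkx).trans (Finset.le_sup (f := id) hx)
  rw [hB i h1, mem_stem]
  exact ⟨And.right, fun h => ⟨(hi.trans_le hkx).trans (mem_stem.1 hx).1, h⟩⟩

/-- membership in an open set is decided by the stem -/
theorem mem_iff_star {U : Ultrafilter (Finset ℕ)} {V : Set (Set ℕ)} (hV : Op V) (h : Marks t L)
    (hA : Sat t n A) (hI : A.Infinite) {j : ℕ} (hj : n ≤ L j)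
    (hr : ∀ i, j ≤ i → Stab U (R V) (L i) (t i)) : A ∈ V ↔ star U (R V) (stem A (L j)) := by
  constructor
  · intro hAV
    obtain ⟨k, hk⟩ := hV A hAV
    obtain ⟨i, hi, hiA⟩ := exists_blk h hA hI (max j k)
    have hji : j ≤ i := (le_max_left _ _).trans hi
    have hn : n ≤ L i := hj.trans (h.mono.monotone hji)
    rw [← star_const h hA hj hr i hji, ← (hr i hji _ (stem_sub _ _)).1, ← stem_pos h hA hn hiA]
    obtain ⟨x, hx⟩ := (h.1 i).1
    refine R_of_mem hk (x := x) ?_ (((le_max_right _ _).trans hi).trans (h.blk.le i x hx))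
    rw [stem_pos h hA hn hiA]
    exact Finset.mem_union_right _ hx
  · intro hs
    obtain ⟨i, hji, hiA⟩ := exists_blk h hA hI j
    have hn : n ≤ L i := hj.trans (h.mono.monotone hji)
    rw [← star_const h hA hj hr i hji, ← (hr i hji _ (stem_sub _ _)).1,
      ← stem_pos h hA hn hiA] at hs
    exact mem_of_R ((Nat.zero_le _).trans_lt (h.mono (Nat.lt_succ_self i))) hs

theorem col_const {U : Ultrafilter (Finset ℕ)} {c : Finset ℕ → Prop} (h : Marks t L)
    (hA : Sat t n A) (hI : A.Infinite) (hr : ∀ i, Stab U c (L i) (t i)) :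
    ∃ q : Prop, ∀ᶠ j in atTop, (c (stem A (L j)) ↔ q) := by
  obtain ⟨i, hi, hiA⟩ := exists_blk h hA hI n
  have hn : n ≤ L i := hi.trans (h.mono.id_le i)
  refine ⟨star U c (stem A (L i)), eventually_atTop.2 ⟨i + 1, fun j hj => ?_⟩⟩
  induction j, hj using Nat.le_induction with
  | base => rw [stem_pos h hA hn hiA]; exact (hr i _ (stem_sub _ _)).1
  | succ j hj ih =>
    have hij : i ≤ j := (Nat.le_succ i).trans hj
    have hn' : n ≤ L j := hn.trans (h.mono.monotone hij)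
    by_cases ht : (t j : Set ℕ) ⊆ A
    · rw [stem_pos h hA hn' ht, (hr j _ (stem_sub _ _)).1]
      exact star_const h hA hn (fun k _ => hr k) j hij
    · rw [stem_neg h hA hn' ht, ih]

end

end Pool.Agent.H83.Tw
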