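import Pool.Agent.H83.Tw1

set_option autoImplicit false

namespace Pool.Agent.H83.Tw

open Set Filter

theorem sat_iUnion (u : ℕ → Finset ℕ) : Sat u 0 (⋃ i, (u i : Set ℕ)) := by
  intro x hx _
  obtain ⟨i, hi⟩ := mem_iUnion.1 hx
  exact ⟨i, hi, subset_iUnion (fun i => (u i : Set ℕ)) i⟩

theorem bound_fin {α : Type} (s : Finset α) (f : α → Finset ℕ) :
    ∃ L, ∀ d ∈ s, ∀ x ∈ f d, x < L := by
  classical
  refine ⟨(s.biUnion f).sup id + 1, fun d hd x hx => Nat.lt_succ_of_le ?_⟩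
  exact Finset.le_sup (f := id) (Finset.mem_biUnion.2 ⟨d, hd, hx⟩)

theorem case_one {K : Type} {b : ℕ → Finset ℕ} {U : Ultrafilter (Finset ℕ)} (hU : Good U)
    (hb : ∀ᶠ t : Finset ℕ in U, Sat b 0 (t : Set ℕ)) (W : K → Set (Set ℕ)) (hW : ∀ k, Op (W k))
    (l : ℕ) (hZ : ∀ᶠ t in U, ∀ k, ¬ ∀ s ⊆ Finset.range l, R (W k) (s ∪ t)) :
    ∃ u, Blk u ∧ (∀ i, Sat b 0 (u i : Set ℕ)) ∧
      ∀ k, ¬ ∀ s ⊆ Finset.range l, ((s : Set ℕ) ∪ ⋃ i, (u i : Set ℕ)) ∈ W k := by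
  let Z : Finset ℕ → Prop := fun t => ∀ k, ¬ ∀ s ⊆ Finset.range l, R (W k) (s ∪ t)
  obtain ⟨f, hP, hr⟩ := exists_seq_of_forall_finset_exists (α := Finset ℕ × ℕ)
    (fun d => (d.1.Nonempty ∧ ∀ x ∈ d.1, d.2 ≤ x) ∧ Sat b 0 (d.1 : Set ℕ) ∧ Stab U Z d.2 d.1)
    (fun d d' => ∀ x ∈ d.1, x < d'.2) (by
      intro s _
      obtain ⟨L, hL⟩ := bound_fin s Prod.fst
      obtain ⟨t, ht⟩ := ((hU.2 L).and (hb.and (ev_stab hU Z L))).exists
      exact ⟨(t, L), ht, hL⟩)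
  have hM : Marks (fun i => (f i).1) (fun i => (f i).2) := ⟨fun j => (hP j).1, hr⟩
  refine ⟨fun i => (f i).1, hM.blk, fun i => (hP i).2.1, fun k hk => ?_⟩
  set B : Set ℕ := ⋃ i, ((f i).1 : Set ℕ) with hB
  have hS : Sat (fun i => (f i).1) 0 B := sat_iUnion _
  have h0 : stem B (f 0).2 = ∅ := by
    ext x
    simp only [Finset.notMem_empty, iff_false, mem_stem, not_and]
    intro hx hxB
    obtain ⟨i, hi⟩ := mem_iUnion.1 hxB
    exact absurd ((hM.mono.monotone (Nat.zero_le i)).trans ((hP i).1.2 x hi)) (not_le.2 hx)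
  have hsub : ∀ i, (((f i).1 : Finset ℕ) : Set ℕ) ⊆ B := fun i =>
    subset_iUnion (fun i => ((f i).1 : Set ℕ)) i
  have hz : ∀ i, Z (stem B (f (i + 1)).2) := by
    intro i
    rw [stem_pos hM hS (Nat.zero_le _) (hsub i), ((hP i).2.2 _ (stem_sub _ _)).1,
      star_const hM hS (j := 0) (Nat.zero_le _) (fun i _ => (hP i).2.2) i (Nat.zero_le i), h0]
    unfold star
    simp only [Finset.empty_union]
    exact hZ
  have hev : ∀ᶠ n in atTop, ∀ s ∈ (Finset.range l).powerset, ∀ C : Set ℕ,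
      (∀ i < n, i ∈ C ↔ i ∈ (s : Set ℕ) ∪ B) → C ∈ W k := by
    rw [eventually_all_finset]
    intro s hs
    obtain ⟨n, hn⟩ := hW k _ (hk s (Finset.mem_powerset.1 hs))
    filter_upwards [eventually_ge_atTop n] with m hm C hC
    exact hn C fun i hi => hC i (hi.trans_le hm)
  obtain ⟨n, hn⟩ := hev.exists
  refine hz n k fun s hs C hC => hn s (Finset.mem_powerset.2 hs) C fun i hi => ?_
  obtain ⟨x, hx⟩ := (hP n).1.1
  have h1 : x < (f (n + 1)).2 := hr n (n + 1) (Nat.lt_succ_self n) x hx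
  have h2 : n ≤ x := hM.blk.le n x hx
  have h3 : x ∈ s ∪ stem B (f (n + 1)).2 :=
    Finset.mem_union_right _ (mem_stem.2 ⟨h1, hsub n hx⟩)
  rw [hC i ((hi.le.trans h2).trans (Finset.le_sup (f := id) h3)), Finset.mem_union, mem_stem]
  simp only [mem_union, Finset.mem_coe]
  exact or_congr Iff.rfl ⟨And.right, fun h => ⟨(hi.trans_le h2).trans h1, h⟩⟩

theorem dich {K : Type} {b : ℕ → Finset ℕ} (hb : Blk b) (V : ℕ → K → Set (Set ℕ))
    (hV : ∀ n k, Op (V n k)) (p : ℕ → Set ℕ) (g : ℕ → K → ℕ) :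
    (∃ u, Blk u ∧ (∀ i, Sat b 0 (u i : Set ℕ)) ∧ ∃ l, ∀ k, ¬ ((∀ m < l, p m ∈ V l k) ∧
      ∀ s ⊆ Finset.range l, ((s : Set ℕ) ∪ ⋃ i, (u i : Set ℕ)) ∈ V l k)) ∨
    ∃ (t : ℕ → Finset ℕ) (l : ℕ → ℕ) (k : ℕ → K), Blk t ∧ (∀ i, Sat b 0 (t i : Set ℕ)) ∧
      StrictMono l ∧ (∀ i j, i < j → g (l i) (k i) < l j) ∧
      (∀ j, ∀ m < l j, p m ∈ V (l j) (k j)) ∧
      ∀ (A : Set ℕ) n, A.Infinite → Sat t n A → (∀ᶠ j in atTop, A ∈ V (l j) (k j)) ∨
        ∀ᶠ j in atTop, (A ∈ V (l j) (k j) ↔ (t j : Set ℕ) ⊆ A) := by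
  classical
  obtain ⟨U, hU, hbU⟩ := exists_good_blk hb
  let G : ℕ → Finset ℕ → K → Prop := fun l t k =>
    (∀ m < l, p m ∈ V l k) ∧ ∀ s ⊆ Finset.range l, R (V l k) (s ∪ t)
  by_cases H : ∀ l, ∀ᶠ t in U, ∃ k, G l t k
  swap
  · left
    push Not at H
    obtain ⟨l, hl⟩ := H
    have hl' : ∀ᶠ t in U, ¬ ∃ k, G l t k := by
      filter_upwards [hl] with t ht
      rintro ⟨k, hk⟩
      exact ht k hk
    obtain ⟨u, h1, h2, h3⟩ := case_one (K := {k // ∀ m < l, p m ∈ V l k}) hU hbU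
      (fun k => V l k.1) (fun k => hV l k.1) l (by
        filter_upwards [hl'] with t ht k hk
        exact ht ⟨k.1, k.2, hk⟩)
    exact ⟨u, h1, h2, l, fun k hk => h3 ⟨k, hk.1⟩ hk.2⟩
  right
  obtain ⟨t0, k0, -⟩ := (H 0).exists
  let kk : ℕ → Finset ℕ → K := fun l t => if h : ∃ k, G l t k then h.choose else k0
  have hkk : ∀ l, ∀ᶠ t in U, G l t (kk l t) := by
    intro l
    filter_upwards [H l] with t ht
    simp only [kk, dif_pos ht]
    exact ht.choose_spec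
  let c1 : ℕ → Finset ℕ → Prop := fun l s => ∀ᶠ t in U, star U (R (V l (kk l t))) s
  let c : Finset ℕ → Prop := fun s => ∀ᶠ l in hyperfilter ℕ, c1 l s
  obtain ⟨f, hP, hr⟩ := exists_seq_of_forall_finset_exists (α := Finset ℕ × ℕ × ℕ)
    (fun d => (d.1.Nonempty ∧ ∀ x ∈ d.1, d.2.1 ≤ x) ∧ d.2.1 ≤ d.2.2 ∧ Sat b 0 (d.1 : Set ℕ) ∧
      G d.2.2 d.1 (kk d.2.2 d.1) ∧
      (∀ s ⊆ Finset.range d.2.1, (star U (R (V d.2.2 (kk d.2.2 d.1))) s ↔ c s)) ∧
      Stab U c d.2.1 d.1)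
    (fun d d' => (∀ x ∈ d.1, x < d'.2.1) ∧ d.2.2 < d'.2.2 ∧ g d.2.2 (kk d.2.2 d.1) < d'.2.2 ∧
      Stab U (R (V d.2.2 (kk d.2.2 d.1))) d'.2.1 d'.1) (by
      intro s _
      obtain ⟨L, hL⟩ := bound_fin s Prod.fst
      have hy : (hyperfilter ℕ : Filter ℕ) ≤ atTop := by
        rw [← Nat.cofinite_eq_atTop]; exact hyperfilter_le_cofinite
      have e1 : ∀ᶠ l in hyperfilter ℕ, L ≤ l := hy (eventually_ge_atTop L)
      have e2 : ∀ᶠ l in hyperfilter ℕ, ∀ d ∈ s, d.2.2 < l ∧ g d.2.2 (kk d.2.2 d.1) < l := by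
        rw [eventually_all_finset]
        intro d _
        exact hy ((eventually_gt_atTop _).and (eventually_gt_atTop _))
      have e3 : ∀ᶠ l in hyperfilter ℕ, ∀ v ∈ (Finset.range L).powerset, (c1 l v ↔ c v) := by
        rw [eventually_all_finset]
        intro v _
        exact ev_iff (hyperfilter ℕ) fun l => c1 l v
      obtain ⟨l, h1, h2, h3⟩ := (e1.and (e2.and e3)).exists
      have e4 : ∀ᶠ t in U, ∀ v ∈ (Finset.range L).powerset,
          (star U (R (V l (kk l t))) v ↔ c1 l v) := by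
        rw [eventually_all_finset]
        intro v _
        exact ev_iff U fun t => star U (R (V l (kk l t))) v
      have e5 : ∀ᶠ t in U, ∀ d ∈ s, Stab U (R (V d.2.2 (kk d.2.2 d.1))) L t := by
        rw [eventually_all_finset]
        intro d _
        exact ev_stab hU _ L
      obtain ⟨t, a1, a2, a3, a4, a5, a6⟩ :=
        ((hU.2 L).and (hbU.and ((hkk l).and (e4.and (e5.and (ev_stab hU c L)))))).exists
      refine ⟨(t, L, l), ⟨a1, h1, a2, a3, fun v hv => ?_, a6⟩,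
        fun d hd => ⟨hL d hd, (h2 d hd).1, (h2 d hd).2, a5 d hd⟩⟩
      exact (a4 v (Finset.mem_powerset.2 hv)).trans (h3 v (Finset.mem_powerset.2 hv)))
  have hM : Marks (fun i => (f i).1) (fun i => (f i).2.1) :=
    ⟨fun j => (hP j).1, fun i j hij => (hr i j hij).1⟩
  refine ⟨fun i => (f i).1, fun i => (f i).2.2, fun i => kk (f i).2.2 (f i).1, hM.blk,
    fun i => (hP i).2.2.1, fun i j hij => (hr i j hij).2.1, fun i j hij => (hr i j hij).2.2.1,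
    fun j => (hP j).2.2.2.1.1, fun A n hI hA => ?_⟩
  obtain ⟨q, hq⟩ := col_const hM hA hI fun i => (hP i).2.2.2.2.2
  have key : ∀ᶠ j in atTop,
      ((((f j).1 : Finset ℕ) : Set ℕ) ⊆ A → A ∈ V (f j).2.2 (kk (f j).2.2 (f j).1)) ∧
      (¬ (((f j).1 : Finset ℕ) : Set ℕ) ⊆ A → (A ∈ V (f j).2.2 (kk (f j).2.2 (f j).1) ↔ q)) := by
    filter_upwards [hq, eventually_ge_atTop n] with j hj hnj
    have hn : n ≤ (f j).2.1 := hnj.trans (hM.mono.id_le j)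
    constructor
    · intro ht
      have h1 := (hP j).2.2.2.1.2 (stem A (f j).2.1)
        ((stem_sub _ _).trans (Finset.range_mono (hP j).2.1))
      rw [← stem_pos hM hA hn ht] at h1
      exact mem_of_R ((Nat.zero_le _).trans_lt (hM.mono (Nat.lt_succ_self j))) h1
    · intro ht
      rw [mem_iff_star (U := U) (hV _ _) hM hA hI (j := j + 1)
        (hn.trans (hM.mono.monotone (Nat.le_succ j)))
        (fun i hi => (hr j i (Nat.lt_of_succ_le hi)).2.2.2), stem_neg hM hA hn ht,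
        (hP j).2.2.2.2.1 _ (stem_sub _ _), hj]
  by_cases hq' : q
  · left
    filter_upwards [key] with j hj
    by_cases ht : (((f j).1 : Finset ℕ) : Set ℕ) ⊆ A
    · exact hj.1 ht
    · exact (hj.2 ht).2 hq'
  · right
    filter_upwards [key] with j hj
    refine ⟨fun h => ?_, hj.1⟩
    by_contra ht
    exact hq' ((hj.2 ht).1 h)

end Pool.Agent.H83.Tw
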