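import Pool.Agent.H83.Tw2

set_option autoImplicit false

namespace Pool.Agent.H83.Tw

open Set Filter Cardinal

/-- union of all blocks -/
def un (b : ℕ → Finset ℕ) : Set ℕ := ⋃ i, (b i : Set ℕ)

/-- almost condensation -/
def Le (b' b : ℕ → Finset ℕ) : Prop := ∀ᶠ i in atTop, Sat b 0 (b' i : Set ℕ)

/-- almost a union of blocks -/
def AU (b : ℕ → Finset ℕ) (A : Set ℕ) : Prop := ∃ n, Sat b n A

/-- almost equal -/
def Ae (A B : Set ℕ) : Prop := ∀ᶠ i in atTop, (i ∈ A ↔ i ∈ B)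

/-- almost contained -/
def Sub (A B : Set ℕ) : Prop := ∀ᶠ i in atTop, (i ∈ A → i ∈ B)

theorem le_refl' (b : ℕ → Finset ℕ) : Le b b :=
  Eventually.of_forall fun i x hx _ => ⟨i, hx, Subset.rfl⟩

theorem Le.far {b' b : ℕ → Finset ℕ} (h : Le b' b) :
    ∃ N, ∀ j, ∀ x ∈ b' j, N ≤ x → Sat b 0 (b' j : Set ℕ) := by
  obtain ⟨n, hn⟩ := eventually_atTop.1 h
  obtain ⟨L, hL⟩ := bound_fin (Finset.range n) b'
  refine ⟨L, fun j x hx hLx => hn j ?_⟩
  by_contra hc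
  exact absurd (hL j (Finset.mem_range.2 (not_le.1 hc)) x hx) (not_lt.2 hLx)

theorem AU.of_le {b' b : ℕ → Finset ℕ} {A : Set ℕ} (hA : AU b' A) (h : Le b' b) : AU b A := by
  obtain ⟨N, hN⟩ := h.far
  obtain ⟨n, hn⟩ := hA
  refine ⟨max n N, fun x hx hle => ?_⟩
  obtain ⟨j, hj, hjA⟩ := hn x hx ((le_max_left _ _).trans hle)
  obtain ⟨i, hi, hiA⟩ := hN j x hj ((le_max_right _ _).trans hle) x hj (Nat.zero_le _)
  exact ⟨i, hi, hiA.trans hjA⟩

theorem Le.trans' {c b' b : ℕ → Finset ℕ} (hc : Blk c) (h1 : Le c b') (h2 : Le b' b) : Le c b := by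
  obtain ⟨N, hN⟩ := h2.far
  filter_upwards [h1, eventually_ge_atTop N] with i hi hNi x hx _
  obtain ⟨j, hj, hjA⟩ := hi x hx (Nat.zero_le _)
  obtain ⟨k, hk, hkA⟩ := hN j x hj (hNi.trans (hc.le i x hx)) x hj (Nat.zero_le _)
  exact ⟨k, hk, hkA.trans hjA⟩

theorem AU.of_ae {b : ℕ → Finset ℕ} (hb : Blk b) {A B : Set ℕ} (hA : AU b A) (h : Ae B A) :
    AU b B := by
  obtain ⟨n, hn⟩ := hA
  obtain ⟨m, hm⟩ := eventually_atTop.1 h
  obtain ⟨L, hL⟩ := bound_fin (Finset.range m) b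
  refine ⟨max n (max m L), fun x hx hle => ?_⟩
  have h1 : m ≤ x := ((le_max_left _ _).trans (le_max_right _ _)).trans hle
  have h2 : L ≤ x := ((le_max_right _ _).trans (le_max_right _ _)).trans hle
  obtain ⟨j, hj, hjA⟩ := hn x ((hm x h1).1 hx) ((le_max_left _ _).trans hle)
  have hmj : m ≤ j := by
    by_contra hc
    exact absurd (hL j (Finset.mem_range.2 (not_le.1 hc)) x hj) (not_lt.2 h2)
  exact ⟨j, hj, fun y hy => (hm y (hmj.trans (hb.le j y hy))).2 (hjA hy)⟩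

theorem AU.sub {b : ℕ → Finset ℕ} {A : Set ℕ} (hA : AU b A) : Sub A (un b) := by
  obtain ⟨n, hn⟩ := hA
  filter_upwards [eventually_ge_atTop n] with x hx hxA
  obtain ⟨j, hj, -⟩ := hn x hxA hx
  exact mem_iUnion.2 ⟨j, hj⟩

theorem AU_un (b : ℕ → Finset ℕ) : AU b (un b) := ⟨0, sat_iUnion b⟩

theorem un_infinite {b : ℕ → Finset ℕ} (hb : Blk b) : (un b).Infinite := by
  refine infinite_of_forall_exists_gt fun n => ?_
  obtain ⟨x, hx⟩ := hb.1 (n + 1)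
  exact ⟨x, mem_iUnion.2 ⟨n + 1, hx⟩, hb.le _ x hx⟩

theorem Ae.infinite {A B : Set ℕ} (h : Ae A B) (hB : B.Infinite) : A.Infinite := by
  obtain ⟨m, hm⟩ := eventually_atTop.1 h
  refine infinite_of_forall_exists_gt fun n => ?_
  obtain ⟨x, hx, hlt⟩ := hB.exists_gt (max n m)
  exact ⟨x, (hm x ((le_max_right _ _).trans hlt.le)).2 hx, (le_max_left _ _).trans_lt hlt⟩

theorem diag (S : Set (ℕ → Finset ℕ)) (hS : S.Countable) (hb : ∀ b ∈ S, Blk b)
    (hch : ∀ a ∈ S, ∀ b ∈ S, Le a b ∨ Le b a) : ∃ d, Blk d ∧ ∀ b ∈ S, Le d b := by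
  rcases S.eq_empty_or_nonempty with rfl | hne
  · refine ⟨fun i => {i}, ⟨fun i => Finset.singleton_nonempty i, fun i j hij x hx y hy => ?_⟩,
      by simp⟩
    rw [Finset.mem_singleton.1 hx, Finset.mem_singleton.1 hy]; exact hij
  obtain ⟨b, rfl⟩ := hS.exists_eq_range hne
  have hfin : ∀ n, ∃ m, ∀ i ≤ n, Le (b m) (b i) := by
    intro n
    induction n with
    | zero => exact ⟨0, fun i hi => by rw [Nat.le_zero.1 hi]; exact le_refl' _⟩
    | succ n ih =>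
      obtain ⟨m, hm⟩ := ih
      rcases hch _ ⟨m, rfl⟩ _ ⟨n + 1, rfl⟩ with h | h
      · refine ⟨m, fun i hi => ?_⟩
        rcases Nat.of_le_succ hi with h' | h'
        · exact hm i h'
        · rw [h']; exact h
      · refine ⟨n + 1, fun i hi => ?_⟩
        rcases Nat.of_le_succ hi with h' | h'
        · exact Le.trans' (hb _ ⟨n + 1, rfl⟩) h (hm i h')
        · rw [h']; exact le_refl' _
  obtain ⟨f, hP, hr⟩ := exists_seq_of_forall_finset_exists (α := Finset ℕ × ℕ)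
    (fun d => d.1.Nonempty ∧ ∀ i ≤ d.2, Sat (b i) 0 (d.1 : Set ℕ))
    (fun d d' => (∀ x ∈ d.1, ∀ y ∈ d'.1, x < y) ∧ d.2 < d'.2) (by
      intro s _
      obtain ⟨L, hL⟩ := bound_fin s Prod.fst
      obtain ⟨n, hn⟩ := bound_fin s fun d => {d.2}
      obtain ⟨m, hm⟩ := hfin n
      have : ∀ᶠ j in atTop, ∀ i ∈ Finset.range (n + 1), Sat (b i) 0 (b m j : Set ℕ) := by
        rw [eventually_all_finset]
        intro i hi
        exact hm i (Nat.lt_succ_iff.1 (Finset.mem_range.1 hi))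
      obtain ⟨j, h1, h2⟩ := (this.and (eventually_ge_atTop L)).exists
      have hB := hb _ ⟨m, rfl⟩
      refine ⟨(b m j, n), ⟨hB.1 j, fun i hi => h1 i (Finset.mem_range.2 (Nat.lt_succ_of_le hi))⟩,
        fun d hd => ⟨fun x hx y hy => (hL d hd x hx).trans_le (h2.trans (hB.le j y hy)),
          hn d hd _ (Finset.mem_singleton_self _)⟩⟩)
  refine ⟨fun i => (f i).1, ⟨fun i => (hP i).1, fun i j hij => (hr i j hij).1⟩, ?_⟩
  rintro _ ⟨i, rfl⟩
  have hm : StrictMono fun i => (f i).2 := fun i j hij => (hr i j hij).2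
  filter_upwards [eventually_ge_atTop i] with j hj
  exact (hP j).2 i (hj.trans (hm.id_le j))

theorem kill {d : ℕ → Finset ℕ} (hd : Blk d) (h : ℕ → ℕ) :
    ∃ e, Blk e ∧ (∀ i, Sat d 0 (e i : Set ℕ)) ∧
      ∃ᶠ n in atTop, ∀ x, n ≤ x → x < h n → x ∉ un e := by
  obtain ⟨f, hP, hr⟩ := exists_seq_of_forall_finset_exists (α := Finset ℕ × ℕ)
    (fun a => (∃ j, a.1 = d j) ∧ ∀ x ∈ a.1, h a.2 ≤ x ∧ a.2 ≤ x)
    (fun a a' => ∀ x ∈ a.1, x < a'.2) (by
      intro s _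
      obtain ⟨L, hL⟩ := bound_fin s Prod.fst
      refine ⟨(d (max L (h L)), L), ⟨⟨_, rfl⟩, fun x hx => ?_⟩, hL⟩
      have := hd.le _ x hx
      exact ⟨(le_max_right _ _).trans this, (le_max_left _ _).trans this⟩)
  have hne : ∀ i, (f i).1.Nonempty := fun i => by
    obtain ⟨j, hj⟩ := (hP i).1
    rw [hj]; exact hd.1 j
  have hM : Marks (fun i => (f i).1) (fun i => (f i).2) :=
    ⟨fun j => ⟨hne j, fun x hx => ((hP j).2 x hx).2⟩, hr⟩
  refine ⟨fun i => (f i).1, hM.blk, fun i x hx _ => ?_, frequently_atTop.2 fun m => ?_⟩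
  · obtain ⟨j, hj⟩ := (hP i).1
    exact ⟨j, hj ▸ hx, hj ▸ Subset.rfl⟩
  · refine ⟨(f m).2, hM.mono.id_le m, fun x h1 h2 hx => ?_⟩
    obtain ⟨i, hi⟩ := mem_iUnion.1 hx
    rcases lt_trichotomy i m with h3 | h3 | h3
    · exact absurd (hr i m h3 x hi) (not_lt.2 h1)
    · subst h3; exact absurd ((hP i).2 x hi).1 (not_le.2 h2)
    · obtain ⟨y, hy⟩ := hne m
      exact absurd (((hP m).2 y hy).1.trans (hM.blk.2 m i h3 y hy x hi).le) (not_le.2 h2)

/-- consecutive blocks glued in pairs -/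
def pair (t : ℕ → Finset ℕ) (i : ℕ) : Finset ℕ := t (2 * i) ∪ t (2 * i + 1)

theorem pair_blk {t : ℕ → Finset ℕ} (h : Blk t) : Blk (pair t) := by
  refine ⟨fun i => (h.1 _).mono Finset.subset_union_left, fun i j hij x hx y hy => ?_⟩
  rcases Finset.mem_union.1 hx with hx | hx <;> rcases Finset.mem_union.1 hy with hy | hy <;>
    exact h.2 _ _ (by omega) x hx y hy

theorem pair_sat (t : ℕ → Finset ℕ) (i : ℕ) : Sat t 0 (pair t i : Set ℕ) := by
  intro x hx _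
  rcases Finset.mem_union.1 (Finset.mem_coe.1 hx) with h | h
  · exact ⟨_, h, Finset.coe_subset.2 Finset.subset_union_left⟩
  · exact ⟨_, h, Finset.coe_subset.2 Finset.subset_union_right⟩

theorem freq_blk {b : ℕ → Finset ℕ} {A : Set ℕ} (hA : AU b A) (hI : A.Infinite) :
    ∃ᶠ j in atTop, (b j : Set ℕ) ⊆ A := by
  obtain ⟨n, hn⟩ := hA
  refine frequently_atTop.2 fun m => ?_
  obtain ⟨L, hL⟩ := bound_fin (Finset.range m) b
  obtain ⟨x, hx, hlt⟩ := hI.exists_gt (max n L)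
  obtain ⟨j, hj, hjA⟩ := hn x hx ((le_max_left _ _).trans hlt.le)
  refine ⟨j, ?_, hjA⟩
  by_contra hc
  exact absurd (hL j (Finset.mem_range.2 (not_le.1 hc)) x hj)
    (not_lt.2 ((le_max_right _ _).trans hlt.le))

theorem un_sub {b e : ℕ → Finset ℕ} (h : ∀ i, Sat e 0 (b i : Set ℕ)) : un b ⊆ un e := by
  intro x hx
  obtain ⟨i, hi⟩ := mem_iUnion.1 hx
  obtain ⟨j, hj, -⟩ := h i x hi (Nat.zero_le _)
  exact mem_iUnion.2 ⟨j, hj⟩

/-- finite modifications of the unions of earlier block sequences -/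
def Past (S : Set (ℕ → Finset ℕ)) : Set (Set ℕ) := {A | ∃ c ∈ S, Ae A (un c)}

theorem ae_countable (B : Set ℕ) : {A | Ae A B}.Countable := by
  classical
  have : {A | Ae A B} ⊆ range fun d : ℕ × Finset ℕ => (d.2 : Set ℕ) ∪ {x ∈ B | d.1 ≤ x} := by
    intro A hA
    obtain ⟨m, hm⟩ := eventually_atTop.1 hA
    refine ⟨(m, stem A m), ?_⟩
    ext x
    simp only [mem_union, Finset.mem_coe, mem_stem, mem_setOf_eq]
    rcases lt_or_ge x m with h | h
    · exact ⟨fun h' => h'.elim And.right fun h'' => absurd h''.2 (not_le.2 h), fun h' => Or.inl ⟨h, h'⟩⟩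
    · exact ⟨fun h' => h'.elim And.right fun h'' => (hm x h).2 h''.1,
        fun h' => Or.inr ⟨(hm x h).1 h', h⟩⟩
  exact (countable_range _).mono this

theorem past_countable {S : Set (ℕ → Finset ℕ)} (hS : S.Countable) : (Past S).Countable := by
  have : Past S = ⋃ c ∈ S, {A | Ae A (un c)} := by ext A; simp [Past]
  rw [this]
  exact hS.biUnion fun c _ => ae_countable _

/-- the requirement met at one stage -/
def Req (V : ℕ → ℕ → Set (Set ℕ)) (h : ℕ → ℕ) (S : Set (ℕ → Finset ℕ)) (b : ℕ → Finset ℕ) : Prop :=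
  (∃ᶠ n in atTop, ∀ x, n ≤ x → x < h n → x ∉ un b) ∧
  ((∀ n k, ∃ A ∈ Past S, A ∉ V n k) →
    (∃ l, ∃ F : Set (Set ℕ), F.Finite ∧ (∀ A ∈ F, A ∈ Past S ∨ Ae A (un b)) ∧ ∀ k, ¬ F ⊆ V l k) ∨
    ∃ (t : ℕ → Finset ℕ) (l : ℕ → ℕ) (k : ℕ → ℕ), Blk t ∧ StrictMono l ∧
      (∀ i j, i < j → ∃ A ∈ Past S, A ∈ V (l j) (k j) ∧ A ∉ V (l i) (k i)) ∧
      (∀ A ∈ Past S, ∀ᶠ j in atTop, A ∈ V (l j) (k j)) ∧
      ∀ A : Set ℕ, A.Infinite → AU b A → ((∀ᶠ j in atTop, A ∈ V (l j) (k j)) ∨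
        ∀ᶠ j in atTop, (A ∈ V (l j) (k j) ↔ (t j : Set ℕ) ⊆ A)) ∧
        ∃ᶠ j in atTop, (t (2 * j) : Set ℕ) ⊆ A ∧ (t (2 * j + 1) : Set ℕ) ⊆ A)

theorem step (V : ℕ → ℕ → Set (Set ℕ)) (hV : ∀ n k, Op (V n k)) (h : ℕ → ℕ)
    (S : Set (ℕ → Finset ℕ)) (hS : S.Countable) (hb : ∀ b ∈ S, Blk b)
    (hch : ∀ a ∈ S, ∀ b ∈ S, Le a b ∨ Le b a) :
    ∃ b, Blk b ∧ (∀ c ∈ S, Le b c) ∧ Req V h S b := by
  obtain ⟨d, hd, hdS⟩ := diag S hS hb hch
  obtain ⟨e, he, hed, hk⟩ := kill hd h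
  have heS : ∀ c ∈ S, Le e c := fun c hc => Le.trans' he (Eventually.of_forall hed) (hdS c hc)
  have fin : ∀ b, Blk b → (∀ i, Sat e 0 (b i : Set ℕ)) → (∀ c ∈ S, Le b c) ∧
      ∃ᶠ n in atTop, ∀ x, n ≤ x → x < h n → x ∉ un b := fun b h1 h2 =>
    ⟨fun c hc => Le.trans' h1 (Eventually.of_forall h2) (heS c hc),
      hk.mono fun n hn x a1 a2 a3 => hn x a1 a2 (un_sub h2 a3)⟩
  by_cases hw : ∀ n k, ∃ A ∈ Past S, A ∉ V n k
  swap
  · exact ⟨e, he, heS, hk, fun h' => absurd h' hw⟩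
  obtain ⟨A0, hA0, -⟩ := hw 0 0
  obtain ⟨p, hp⟩ := (past_countable hS).exists_eq_range ⟨A0, hA0⟩
  have hg : ∀ n k, ∃ m, p m ∉ V n k := fun n k => by
    obtain ⟨A, hA, hA'⟩ := hw n k
    rw [hp] at hA
    obtain ⟨m, rfl⟩ := hA
    exact ⟨m, hA'⟩
  choose g hg using hg
  have hpm : ∀ m, p m ∈ Past S := fun m => hp ▸ mem_range_self m
  rcases dich he V hV p g with ⟨u, h1, h2, l, hl⟩ | ⟨t, l, k, h1, h2, h3, h4, h5, h6⟩
  · refine ⟨u, h1, (fin u h1 h2).1, (fin u h1 h2).2, fun _ => Or.inl ⟨l,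
      p '' Iio l ∪ (fun s : Finset ℕ => (s : Set ℕ) ∪ un u) '' {s | s ⊆ Finset.range l}, ?_, ?_,
      fun k hk => hl k ⟨fun m hm => hk (Or.inl ⟨m, hm, rfl⟩), fun s hs => hk (Or.inr ⟨s, hs, rfl⟩)⟩⟩⟩
    · refine ((finite_Iio l).image _).union (Finite.image _ ?_)
      exact (Finset.range l).powerset.finite_toSet.subset fun s hs =>
        Finset.mem_coe.2 (Finset.mem_powerset.2 hs)
    · rintro A (⟨m, -, rfl⟩ | ⟨s, hs, rfl⟩)
      · exact Or.inl (hpm m)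
      · right
        filter_upwards [eventually_ge_atTop l] with x hx
        refine ⟨fun h' => h'.resolve_left fun h'' => ?_, Or.inr⟩
        exact absurd (Finset.mem_range.1 (hs h'')) (not_lt.2 hx)
  · have hs : ∀ i, Sat e 0 (pair t i : Set ℕ) := by
      intro i x hx _
      obtain ⟨j, hj, hjs⟩ := pair_sat t i x hx (Nat.zero_le _)
      obtain ⟨m, hm, hms⟩ := h2 j x hj (Nat.zero_le _)
      exact ⟨m, hm, hms.trans hjs⟩
    refine ⟨pair t, pair_blk h1, (fin _ (pair_blk h1) hs).1, (fin _ (pair_blk h1) hs).2,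
      fun _ => Or.inr ⟨t, l, k, h1, h3, fun i j hij => ⟨p (g (l i) (k i)), hpm _,
        h5 j _ (h4 i j hij), hg _ _⟩, fun A hA => ?_, fun A hI hA => ⟨?_, ?_⟩⟩⟩
    · rw [hp] at hA
      obtain ⟨m, rfl⟩ := hA
      filter_upwards [eventually_gt_atTop m] with j hj
      exact h5 j m (hj.trans_le (h3.id_le j))
    · obtain ⟨n, hn⟩ := hA.of_le (Eventually.of_forall (pair_sat t))
      exact h6 A n hI hn
    · refine (freq_blk hA hI).mono fun j hj => ?_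
      exact ⟨(Finset.coe_subset.2 Finset.subset_union_left).trans hj,
        (Finset.coe_subset.2 Finset.subset_union_right).trans hj⟩

theorem rec_chain {ι β : Type} [LinearOrder ι] [WellFoundedLT ι] (G : β → Prop) (r : β → β → Prop)
    (Q : ι → Set β → β → Prop) (hc : ∀ i : ι, (Iio i).Countable) (b0 : β) (hrefl : ∀ a, r a a)
    (st : ∀ i (S : Set β), S.Countable → (∀ a ∈ S, G a) → (∀ a ∈ S, ∀ a' ∈ S, r a a' ∨ r a' a) →
      ∃ b, G b ∧ (∀ a ∈ S, r b a) ∧ Q i S b) :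
    ∃ f : ι → β, (∀ i, G (f i)) ∧ (∀ i j, j < i → r (f i) (f j)) ∧ ∀ i, Q i (f '' Iio i) (f i) := by
  classical
  let F : (i : ι) → ((j : ι) → j < i → β) → β := fun i g =>
    if h : ∃ b, G b ∧ (∀ a ∈ {b | ∃ j, ∃ hj : j < i, g j hj = b}, r b a) ∧
      Q i {b | ∃ j, ∃ hj : j < i, g j hj = b} b then h.choose else b0
  let f : ι → β := (wellFounded_lt (α := ι)).fix F
  have hf : ∀ i, f i = F i (fun j _ => f j) := fun i => WellFounded.fix_eq _ _ _
  have himg : ∀ i, {b | ∃ j, ∃ _ : j < i, f j = b} = f '' Iio i := by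
    intro i; ext b; simp
  have key : ∀ i, G (f i) ∧ (∀ a ∈ f '' Iio i, r (f i) a) ∧ Q i (f '' Iio i) (f i) := by
    intro i
    induction i using WellFoundedLT.induction with
    | ind i ih =>
      have h := st i (f '' Iio i) ((hc i).image f) (by rintro _ ⟨j, hj, rfl⟩; exact (ih j hj).1)
        (by
          rintro _ ⟨j, hj, rfl⟩ _ ⟨k, hk, rfl⟩
          rcases lt_trichotomy j k with h | h | h
          · exact Or.inr ((ih k hk).2.1 _ ⟨j, h, rfl⟩)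
          · subst h; exact Or.inl (hrefl _)
          · exact Or.inl ((ih j hj).2.1 _ ⟨k, h, rfl⟩))
      rw [← himg] at h ⊢
      rw [hf i]
      simp only [F, dif_pos h]
      exact h.choose_spec
  exact ⟨f, fun i => (key i).1, fun i j hij => (key i).2.1 _ ⟨j, hij, rfl⟩, fun i => (key i).2.2⟩

end Pool.Agent.H83.Tw
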