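import Pool.Agent.H83.Tw3

set_option autoImplicit false

namespace Pool.Agent.H83.Tw

open Set Filter Cardinal

/-- the open set coded by a family of cylinders -/
def dec (c : Set (ℕ × Finset ℕ)) : Set (Set ℕ) := {A | ∃ d ∈ c, ∀ i < d.1, (i ∈ A ↔ i ∈ d.2)}

theorem dec_op (c : Set (ℕ × Finset ℕ)) : Op (dec c) := by
  rintro A ⟨d, hd, hA⟩
  exact ⟨d.1, fun B hB => ⟨d, hd, fun i hi => (hB i hi).trans (hA i hi)⟩⟩

theorem exists_dec {V : Set (Set ℕ)} (hV : Op V) : ∃ c, dec c = V := by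
  refine ⟨{d | ∀ B : Set ℕ, (∀ i < d.1, (i ∈ B ↔ i ∈ d.2)) → B ∈ V}, ?_⟩
  ext A
  refine ⟨fun ⟨d, hd, hA⟩ => hd A hA, fun hA => ?_⟩
  obtain ⟨n, hn⟩ := hV A hA
  have h1 : ∀ i < n, (i ∈ A ↔ i ∈ stem A n) := fun i hi => by
    rw [mem_stem]; exact ⟨fun h => ⟨hi, h⟩, And.right⟩
  exact ⟨(n, stem A n), fun B hB => hn B fun i hi => (hB i hi).trans (h1 i hi).symm, h1⟩

/-- the properties of the tower space -/
structure Tower (Y : Set (Set ℕ)) : Prop where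
  ne : Y.Nonempty
  inf : ∀ A ∈ Y, A.Infinite
  ae : ∀ A ∈ Y, ∀ B, Ae B A → B ∈ Y
  chain : ∀ A ∈ Y, ∀ B ∈ Y, Sub A B ∨ Sub B A
  gap : ∀ h : ℕ → ℕ, ∃ A ∈ Y, ∃ᶠ n in atTop, ∀ x, n ≤ x → x < h n → x ∉ A
  sel : ∀ V : ℕ → ℕ → Set (Set ℕ), (∀ n k, Op (V n k)) →
    (∀ n, ∀ F : Set (Set ℕ), F.Finite → F ⊆ Y → ∃ k, F ⊆ V n k) →
    (∀ n k, ∃ A ∈ Y, A ∉ V n k) →
    ∃ l k : ℕ → ℕ, StrictMono l ∧
      (∀ i j, i < j → ∃ A ∈ Y, A ∈ V (l j) (k j) ∧ A ∉ V (l i) (k i)) ∧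
      (∀ A ∈ Y, ∃ᶠ j in atTop, A ∈ V (l (2 * j)) (k (2 * j)) ∧
        A ∈ V (l (2 * j + 1)) (k (2 * j + 1))) ∧
      ∀ A ∈ Y, ∀ B ∈ Y, (∀ᶠ j in atTop, A ∈ V (l j) (k j) → B ∈ V (l j) (k j)) ∨
        ∀ᶠ j in atTop, B ∈ V (l j) (k j) → A ∈ V (l j) (k j)

theorem Sub.blk {t : ℕ → Finset ℕ} (ht : Blk t) {A B : Set ℕ} (h : Sub A B) :
    ∀ᶠ j in atTop, (t j : Set ℕ) ⊆ A → (t j : Set ℕ) ⊆ B := by
  obtain ⟨m, hm⟩ := eventually_atTop.1 h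
  filter_upwards [eventually_ge_atTop m] with j hj hA x hx
  exact hm x (hj.trans (ht.le j x hx)) (hA hx)

theorem tend2 : Tendsto (fun j : ℕ => 2 * j) atTop atTop :=
  tendsto_atTop_mono (fun j => by simp only [id]; omega) tendsto_id

theorem tend3 : Tendsto (fun j : ℕ => 2 * j + 1) atTop atTop :=
  tendsto_atTop_mono (fun j => by simp only [id]; omega) tendsto_id

/-- the tasks of the construction -/
structure Task where
  c : ℕ → ℕ → Set (ℕ × Finset ℕ)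
  h : ℕ → ℕ
  x : ℝ

/-- tasks as triples -/
def taskEquiv : Task ≃ (ℕ → ℕ → Set (ℕ × Finset ℕ)) × (ℕ → ℕ) × ℝ where
  toFun a := (a.c, a.h, a.x)
  invFun a := ⟨a.1, a.2.1, a.2.2⟩
  left_inv _ := rfl
  right_inv _ := rfl

theorem exists_tower (hCH : (𝔠 : Cardinal.{0}) = ℵ₁) : ∃ Y, Tower Y := by
  let ι : Type := Task
  have hι : #ι = ℵ₁ := by
    rw [← hCH, mk_congr taskEquiv]
    simp [mk_real]
  obtain ⟨_, _, hord⟩ := exists_ord_eq_type_lt ι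
  have hc : ∀ i : ι, (Iio i).Countable := fun i => by
    rw [← countable_coe_iff, ← mk_le_aleph0_iff, ← lt_aleph_one_iff, ← hι]
    exact mk_Iio_lt i hord
  obtain ⟨f, hG, hr, hQ⟩ := rec_chain (ι := ι) Blk Le
    (fun i S b => Req (fun n k => dec (i.c n k)) i.h S b) hc (fun i => {i}) le_refl'
    (fun i S hS h1 h2 => step _ (fun n k => dec_op _) _ S hS h1 h2)
  have hcof : ∀ (c : ℕ → ℕ → Set (ℕ × Finset ℕ)) (h : ℕ → ℕ) (J : Set ι), J.Countable →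
      ∃ x : ℝ, ∀ j ∈ J, j < (⟨c, h, x⟩ : ι) := by
    intro c h J hJ
    by_contra hn
    push Not at hn
    have h1 : (⋃ j ∈ J, Iic j).Countable := hJ.biUnion fun j _ => by
      rw [← Iio_insert]; exact (hc j).insert j
    have h2 : (univ : Set ℝ) ⊆ (fun i : ι => i.x) '' ⋃ j ∈ J, Iic j := by
      intro x _
      obtain ⟨j, hj, hx⟩ := hn x
      exact ⟨⟨c, h, x⟩, mem_iUnion₂.2 ⟨j, hj, hx⟩, rfl⟩
    exact not_countable_real ((h1.image _).mono h2)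
  let Y : Set (Set ℕ) := {A | ∃ i, Ae A (un (f i))}
  have hself : ∀ i, un (f i) ∈ Y := fun i => ⟨i, Eventually.of_forall fun _ => Iff.rfl⟩
  have hinf : ∀ A ∈ Y, A.Infinite := by
    rintro A ⟨i, hi⟩; exact hi.infinite (un_infinite (hG i))
  have hau : ∀ i j A, j ≤ i → Ae A (un (f i)) → AU (f j) A := by
    intro i j A hji hA
    have h1 : AU (f i) A := (AU_un _).of_ae (hG i) hA
    rcases hji.eq_or_lt with h | h
    · rw [h]; exact h1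
    · exact h1.of_le (hr i j h)
  have hsub : ∀ i j A B, j ≤ i → Ae A (un (f i)) → Ae B (un (f j)) → Sub A B := by
    intro i j A B hji hA hB
    filter_upwards [(hau i j A hji hA).sub, hB] with x h1 h2 h3
    exact h2.2 (h1 h3)
  have hchain : ∀ A ∈ Y, ∀ B ∈ Y, Sub A B ∨ Sub B A := by
    rintro A ⟨i, hi⟩ B ⟨j, hj⟩
    rcases le_total j i with h | h
    · exact Or.inl (hsub i j A B h hi hj)
    · exact Or.inr (hsub j i B A h hj hi)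
  have hpast : ∀ i, Past (f '' Iio i) ⊆ Y := by
    rintro i A ⟨_, ⟨j, -, rfl⟩, hA⟩; exact ⟨j, hA⟩
  refine ⟨Y, ⟨_, hself ⟨fun _ _ => ∅, fun _ => 0, 0⟩⟩, hinf, ?_, hchain, fun h => ?_,
    fun V hV hom hw => ?_⟩
  · rintro A ⟨i, hi⟩ B hB
    refine ⟨i, ?_⟩
    filter_upwards [hi, hB] with x h1 h2
    exact h2.trans h1
  · exact ⟨_, hself ⟨fun _ _ => ∅, h, 0⟩, (hQ ⟨fun _ _ => ∅, h, 0⟩).1⟩
  choose c hc' using fun n k => exists_dec (hV n k)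
  choose w hwY hwV using hw
  choose a ha using hwY
  obtain ⟨x, hx⟩ := hcof c (fun _ => 0) (range fun d : ℕ × ℕ => a d.1 d.2) (countable_range _)
  set i : ι := ⟨c, fun _ => 0, x⟩ with hi
  have hq := (hQ i).2
  simp only [hc', hi] at hq
  rcases hq (fun n k => ⟨w n k, ⟨_, ⟨a n k, hx _ ⟨(n, k), rfl⟩, rfl⟩, ha n k⟩, hwV n k⟩) with
    ⟨l, F, hF, h1, h2⟩ | ⟨t, l, k, ht, hl, h1, h2, h3⟩
  · obtain ⟨k, hk⟩ := hom l F hF fun A hA => (h1 A hA).elim (fun h => hpast _ h) fun h => ⟨_, h⟩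
    exact absurd hk (h2 k)
  have hcase : ∀ A ∈ Y, (∀ᶠ j in atTop, A ∈ V (l j) (k j)) ∨
      ((∀ᶠ j in atTop, (A ∈ V (l j) (k j) ↔ (t j : Set ℕ) ⊆ A)) ∧
        ∃ᶠ j in atTop, (t (2 * j) : Set ℕ) ⊆ A ∧ (t (2 * j + 1) : Set ℕ) ⊆ A) := by
    rintro A ⟨j, hj⟩
    rcases lt_or_ge j i with h | h
    · exact Or.inl (h2 A ⟨_, ⟨j, h, rfl⟩, hj⟩)
    · obtain ⟨h4, h5⟩ := h3 A (hinf A ⟨j, hj⟩) (hau j i A h hj)
      exact h4.imp id fun h6 => ⟨h6, h5⟩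
  refine ⟨l, k, hl, fun i j hij => ?_, fun A hA => ?_, fun A hA B hB => ?_⟩
  · obtain ⟨A, hA, h⟩ := h1 i j hij
    exact ⟨A, hpast _ hA, h⟩
  · rcases hcase A hA with h | ⟨h4, h5⟩
    · exact ((tend2.eventually h).and (tend3.eventually h)).frequently
    · refine (h5.and_eventually ((tend2.eventually h4).and (tend3.eventually h4))).mono ?_
      rintro j ⟨⟨a1, a2⟩, a3, a4⟩
      exact ⟨a3.2 a1, a4.2 a2⟩
  · rcases hcase A hA with h | ⟨h4, -⟩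
    · exact Or.inr (h.mono fun j hj _ => hj)
    rcases hcase B hB with h | ⟨h5, -⟩
    · exact Or.inl (h.mono fun j hj _ => hj)
    rcases hchain A hA B hB with h | h
    · left
      filter_upwards [h4, h5, h.blk ht] with j a1 a2 a3 a4
      exact a2.2 (a3 (a1.1 a4))
    · right
      filter_upwards [h4, h5, h.blk ht] with j a1 a2 a3 a4
      exact a1.2 (a3 (a2.1 a4))

end Pool.Agent.H83.Tw
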