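import Mathlib

set_option autoImplicit false

namespace Pool.Agent.H83.TwDefs

open Set

variable {Y : Type}

/-- The selection principle `Sfin(A, B)`. -/
def Sfin (A B : Set (Set (Set Y))) : Prop :=
  ∀ C : ℕ → Set (Set Y), (∀ n, C n ∈ A) →
    ∃ F : ℕ → Set (Set Y), (∀ n, (F n).Finite ∧ F n ⊆ C n) ∧ (⋃ n, F n) ∈ B

/-- The selection principle `Ufin(A, B)`. -/
def Ufin (A B : Set (Set (Set Y))) : Prop :=
  ∀ C : ℕ → Set (Set Y), (∀ n, C n ∈ A) → (∀ n, ¬ ∃ F ⊆ C n, F.Finite ∧ ⋃₀ F = univ) →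
    ∃ F : ℕ → Set (Set Y), (∀ n, (F n).Finite ∧ F n ⊆ C n) ∧ range (fun n => ⋃₀ F n) ∈ B

/-- Every member of `A` has a subfamily in `B`. -/
def Choose (A B : Set (Set (Set Y))) : Prop := ∀ C ∈ A, ∃ D ⊆ C, D ∈ B

end Pool.Agent.H83.TwDefs
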