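import Pool.Agent.H83.Tw4
import Pool.Agent.H83.TwDefs
import Pool.Agent.H85.Tau
import Pool.Agent.H85.SplitDefs

set_option autoImplicit false

namespace Pool.Agent.H83.Tw

open Set Filter Cardinal Topology Pool.Agent.H85.TauDefs Pool.Agent.H85.SplitDefs
  Pool.Agent.H83.TwDefs

/-- `T` is a copy of `Y` -/
structure Emb {T : Type} [TopologicalSpace T] (φ : T → Set ℕ) (Y : Set (Set ℕ)) : Prop where
  rng : range φ = Y
  h1 : ∀ U, IsOpen U → ∀ x ∈ U, ∃ n, ∀ y, (∀ i < n, (i ∈ φ y ↔ i ∈ φ x)) → y ∈ U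
  h2 : ∀ i, IsClopen {x | i ∈ φ x}

theorem exists_real (Y : Set (Set ℕ)) : ∃ (X : Set ℝ) (φ : X → Set ℕ), Emb φ Y := by
  classical
  let h := cantorSetHomeomorphNatToBool
  let X : Set ℝ := {r | ∃ hr : r ∈ cantorSet, {i | h ⟨r, hr⟩ i = true} ∈ Y}
  have hX : X ⊆ cantorSet := fun r hr => hr.fst
  let ψ : X → ℕ → Bool := h ∘ inclusion hX
  have hψ : IsInducing ψ := h.isInducing.comp (IsEmbedding.inclusion hX).isInducing
  refine ⟨X, fun x => {i | ψ x i = true}, ?_, fun U hU x hx => ?_, fun i => ?_⟩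
  · ext A
    constructor
    · rintro ⟨x, rfl⟩; exact x.2.snd
    · intro hA
      let z := h.symm fun i => decide (i ∈ A)
      have hz : {i | h z i = true} = A := by ext i; simp [z]
      exact ⟨⟨z.1, z.2, hz.symm ▸ hA⟩, hz⟩
  · obtain ⟨W, hW, rfl⟩ := hψ.isOpen_iff.1 hU
    obtain ⟨I, u, h1, h2⟩ := isOpen_pi_iff.1 hW _ hx
    refine ⟨I.sup id + 1, fun y hy => h2 fun i hi => ?_⟩
    have h3 := hy i (Nat.lt_succ_of_le (Finset.le_sup (f := id) hi))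
    have h4 : ψ y i = ψ x i := Bool.eq_iff_iff.2 h3
    rw [h4]; exact (h1 i hi).2
  · exact (isClopen_discrete {true}).preimage ((continuous_apply i).comp hψ.continuous)

variable {T : Type} [TopologicalSpace T] {φ : T → Set ℕ} {Y : Set (Set ℕ)}

theorem Emb.mem (h : Emb φ Y) (x : T) : φ x ∈ Y := h.rng ▸ mem_range_self x

theorem Emb.surj (h : Emb φ Y) {A : Set ℕ} (hA : A ∈ Y) : ∃ x, φ x = A := by
  rw [← h.rng] at hA; exact hA

theorem Emb.seq (h : Emb φ Y) {C : Set (Set T)} (hC : C ∈ Omega T) :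
    ∃ u : ℕ → Set T, (∀ k, u k ∈ C) ∧ ∀ F : Set T, F.Finite → ∃ k, F ⊆ u k := by
  classical
  obtain ⟨U0, hU0, -⟩ := hC.2.2 ∅ finite_empty
  obtain ⟨e, he⟩ := exists_surjective_nat (ℕ × Finset (Finset ℕ))
  have : ∀ d : ℕ × Finset (Finset ℕ), ∃ U ∈ C,
      (∃ W ∈ C, ∀ x, stem (φ x) d.1 ∈ d.2 → x ∈ W) → ∀ x, stem (φ x) d.1 ∈ d.2 → x ∈ U := by
    intro d
    by_cases hd : ∃ W ∈ C, ∀ x, stem (φ x) d.1 ∈ d.2 → x ∈ W
    · obtain ⟨W, h1, h2⟩ := hd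
      exact ⟨W, h1, fun _ => h2⟩
    · exact ⟨U0, hU0, fun h' => absurd h' hd⟩
  choose g hg1 hg2 using this
  refine ⟨fun k => g (e k), fun k => hg1 _, fun F hF => ?_⟩
  obtain ⟨U, hU, hFU⟩ := hC.2.2 F hF
  have hev : ∀ᶠ n in atTop, ∀ x ∈ F, ∀ y, (∀ i < n, (i ∈ φ y ↔ i ∈ φ x)) → y ∈ U := by
    rw [eventually_all_finite hF]
    intro x hx
    obtain ⟨n, hn⟩ := h.h1 U (hC.1 U hU) x (hFU hx)
    filter_upwards [eventually_ge_atTop n] with m hm y hy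
    exact hn y fun i hi => hy i (hi.trans_le hm)
  obtain ⟨n, hn⟩ := hev.exists
  obtain ⟨k, hk⟩ := he (n, hF.toFinset.image fun x => stem (φ x) n)
  refine ⟨k, fun x hx => ?_⟩
  show x ∈ g (e k)
  rw [hk]
  refine hg2 _ ⟨U, hU, fun y hy => ?_⟩ x (Finset.mem_image_of_mem _ (hF.mem_toFinset.2 hx))
  obtain ⟨z, hz, hzy⟩ := Finset.mem_image.1 hy
  refine hn z (hF.mem_toFinset.1 hz) y fun i hi => ?_
  have := Finset.ext_iff.1 hzy i
  simp only [mem_stem, hi, true_and] at this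
  exact this.symm

theorem Emb.select (h : Emb φ Y) (hY : Tower Y) (C : ℕ → Set (Set T)) (hC : ∀ n, C n ∈ Omega T) :
    ∃ (W : ℕ → Set T) (l : ℕ → ℕ), StrictMono l ∧ (∀ j, W j ∈ C (l j)) ∧ Function.Injective W ∧
      (∀ x, ∃ᶠ j in atTop, x ∈ W (2 * j) ∧ x ∈ W (2 * j + 1)) ∧
      ∀ x y, (∀ᶠ j in atTop, x ∈ W j → y ∈ W j) ∨ ∀ᶠ j in atTop, y ∈ W j → x ∈ W j := by
  choose u hu1 hu2 using fun n => h.seq (hC n)
  let V : ℕ → ℕ → Set (Set ℕ) := fun n k =>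
    {A | ∃ m, ∀ x, (∀ i < m, (i ∈ φ x ↔ i ∈ A)) → x ∈ u n k}
  have hV : ∀ n k x, φ x ∈ V n k ↔ x ∈ u n k := fun n k x =>
    ⟨fun ⟨m, hm⟩ => hm x fun _ _ => Iff.rfl, fun hx => h.h1 _ ((hC n).1 _ (hu1 n k)) x hx⟩
  obtain ⟨l, k, hl, h1, h2, h3⟩ := hY.sel V (by
      rintro n k A ⟨m, hm⟩
      exact ⟨m, fun B hB => ⟨m, fun x hx => hm x fun i hi => (hx i hi).trans (hB i hi)⟩⟩)
    (by
      intro n F hF hFY
      rw [← h.rng, ← image_univ] at hFY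
      obtain ⟨G, -, hG, rfl⟩ := hF.exists_subset_finite_image_eq hFY
      obtain ⟨k, hk⟩ := hu2 n G hG
      refine ⟨k, ?_⟩
      rintro _ ⟨x, hx, rfl⟩
      exact (hV n k x).2 (hk hx))
    (by
      intro n k
      have : u n k ≠ Set.univ := fun he => (hC n).2.1.2 (he ▸ hu1 n k)
      obtain ⟨x, hx⟩ := (ne_univ_iff_exists_notMem _).1 this
      exact ⟨φ x, h.mem x, fun h' => hx ((hV n k x).1 h')⟩)
  refine ⟨fun j => u (l j) (k j), l, hl, fun j => hu1 _ _, ?_, fun x => ?_, fun x y => ?_⟩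
  · refine Function.Injective.of_lt_imp_ne fun i j hij he => ?_
    obtain ⟨A, hA, a1, a2⟩ := h1 i j hij
    obtain ⟨x, rfl⟩ := h.surj hA
    rw [hV] at a1 a2
    exact a2 (he ▸ a1)
  · simpa only [hV] using h2 _ (h.mem x)
  · simpa only [hV] using h3 _ (h.mem x) _ (h.mem y)

theorem tau_of {w : ℕ → Set T} (hi : Function.Injective w) (ho : ∀ j, IsOpen (w j))
    (hn : ∀ j, w j ≠ Set.univ) (hl : ∀ x, ∃ᶠ j in atTop, x ∈ w j)
    (hc : ∀ x y, (∀ᶠ j in atTop, x ∈ w j → y ∈ w j) ∨ ∀ᶠ j in atTop, y ∈ w j → x ∈ w j) :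
    range w ∈ Tau T := by
  have key : ∀ x y, (∀ᶠ j in atTop, x ∈ w j → y ∈ w j) →
      {U ∈ range w | x ∈ U ∧ y ∉ U}.Finite := by
    intro x y h
    rw [← Nat.cofinite_eq_atTop, eventually_cofinite] at h
    refine (h.image w).subset ?_
    rintro _ ⟨⟨j, rfl⟩, h1, h2⟩
    exact ⟨j, fun h' => h2 (h' h1), rfl⟩
  refine ⟨by rintro _ ⟨j, rfl⟩; exact ho j, ⟨eq_univ_of_forall fun x => ?_, ?_⟩, fun x => ?_,
    fun x y => (hc x y).imp (key x y) (key y x)⟩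
  · obtain ⟨j, hj⟩ := (hl x).exists
    exact ⟨_, ⟨j, rfl⟩, hj⟩
  · rintro ⟨j, hj⟩; exact hn j hj
  · have := Nat.frequently_atTop_iff_infinite.1 (hl x)
    refine (this.image hi.injOn).mono ?_
    rintro _ ⟨j, hj, rfl⟩
    exact ⟨⟨j, rfl⟩, hj⟩

theorem Emb.sfin (h : Emb φ Y) (hY : Tower Y) : Sfin (Omega T) (Tau T) := by
  intro C hC
  obtain ⟨W, l, hl, h1, h2, h3, h4⟩ := h.select hY C hC
  refine ⟨fun n => W '' {j | l j = n}, fun n => ⟨Finite.image _ ?_, ?_⟩, ?_⟩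
  · exact (finite_singleton n).preimage hl.injective.injOn
  · rintro _ ⟨j, rfl, rfl⟩; exact h1 j
  · have : (⋃ n, W '' {j | l j = n}) = range W := by ext U; simp
    rw [this]
    refine tau_of h2 (fun j => (hC _).1 _ (h1 j)) (fun j he => (hC _).2.1.2 (he ▸ h1 j))
      (fun x => tend2.frequently ((h3 x).mono fun j hj => hj.1)) h4

theorem Emb.split (h : Emb φ Y) (hY : Tower Y) : Split (Omega T) (Tau T) := by
  intro C hC
  obtain ⟨W, l, hl, h1, h2, h3, h4⟩ := h.select hY (fun _ => C) fun _ => hC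
  have ho : ∀ j, IsOpen (W j) := fun j => hC.1 _ (h1 j)
  have hn : ∀ j, W j ≠ Set.univ := fun j he => hC.2.1.2 (he ▸ h1 j)
  refine ⟨range fun j => W (2 * j), C \ range fun j => W (2 * j), ?_, disjoint_sdiff_right,
    ⟨_, ?_, Subset.rfl⟩, range fun j => W (2 * j + 1), ?_, ?_⟩
  · exact union_diff_cancel (by rintro _ ⟨j, rfl⟩; exact h1 _)
  · exact tau_of (fun i j hij => by have := h2 hij; omega) (fun j => ho _) (fun j => hn _)
      (fun x => (h3 x).mono fun j hj => hj.1)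
      fun x y => (h4 x y).imp tend2.eventually tend2.eventually
  · exact tau_of (fun i j hij => by have := h2 hij; omega) (fun j => ho _) (fun j => hn _)
      (fun x => (h3 x).mono fun j hj => hj.2)
      fun x y => (h4 x y).imp tend3.eventually tend3.eventually
  · rintro _ ⟨j, rfl⟩
    refine ⟨h1 _, ?_⟩
    rintro ⟨i, hi⟩
    have := h2 hi
    omega

/-- points meeting an interval -/
def O (φ : T → Set ℕ) (a b : ℕ) : Set T := {x | ∃ i, a ≤ i ∧ i < b ∧ i ∈ φ x}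

theorem Emb.clopen (h : Emb φ Y) (a b : ℕ) : IsClopen (O φ a b) := by
  have : O φ a b = ⋃ i ∈ Ico a b, {x | i ∈ φ x} := by ext x; simp [O, and_assoc]
  rw [this]
  exact (finite_Ico a b).isClopen_biUnion fun i _ => h.h2 i

theorem Emb.modify (h : Emb φ Y) (hY : Tower Y) (x : T) (s : Set ℕ) (n : ℕ) :
    ∃ y, ∀ i, i ∈ φ y ↔ (i < n ∧ i ∈ s) ∨ (n ≤ i ∧ i ∈ φ x) := by
  obtain ⟨y, hy⟩ := h.surj (hY.ae _ (h.mem x) {i | (i < n ∧ i ∈ s) ∨ (n ≤ i ∧ i ∈ φ x)} (by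
    filter_upwards [eventually_ge_atTop n] with i hi
    simp [hi, not_lt.2 hi]))
  exact ⟨y, fun i => by rw [hy]; rfl⟩

theorem Emb.pt (h : Emb φ Y) (hY : Tower Y) : Nonempty T := by
  obtain ⟨A, hA⟩ := hY.ne
  obtain ⟨x, -⟩ := h.surj hA
  exact ⟨x⟩

theorem Emb.out (h : Emb φ Y) (hY : Tower Y) (a b : ℕ) : ∃ x, x ∉ O φ a b := by
  obtain ⟨x⟩ := h.pt hY
  obtain ⟨y, hy⟩ := h.modify hY x ∅ b
  refine ⟨y, ?_⟩
  rintro ⟨i, -, h2, h3⟩
  rcases (hy i).1 h3 with h4 | h4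
  · exact h4.2
  · omega

theorem Emb.inj (h : Emb φ Y) (hY : Tower Y) {a b a' b' : ℕ} (hab : a < b) (hab' : a' < b')
    (he : O φ a b = O φ a' b') : a = a' ∧ b = b' := by
  obtain ⟨x⟩ := h.pt hY
  have key : ∀ i, (a ≤ i ∧ i < b) ↔ (a' ≤ i ∧ i < b') := by
    intro i
    obtain ⟨y, hy⟩ := h.modify hY x {i} (i + b + b' + 1)
    have k2 : ∀ c d, d ≤ i + b + b' + 1 → (y ∈ O φ c d ↔ c ≤ i ∧ i < d) := by
      intro c d hd
      constructor
      · rintro ⟨j, h1, h2, h3⟩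
        rcases (hy j).1 h3 with h4 | h4
        · have : j = i := h4.2
          omega
        · omega
      · rintro ⟨h1, h2⟩
        exact ⟨i, h1, h2, (hy i).2 (Or.inl ⟨by omega, rfl⟩)⟩
    rw [← k2 a b (by omega), ← k2 a' b' (by omega), he]
  have e1 := key a
  have e2 := key a'
  have e3 := key (b - 1)
  have e4 := key (b' - 1)
  omega

theorem Emb.ev (h : Emb φ Y) (hY : Tower Y) (x : T) (a : ℕ) : ∀ᶠ b in atTop, x ∈ O φ a b := by
  obtain ⟨i, hi, hlt⟩ := (hY.inf _ (h.mem x)).exists_gt a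
  filter_upwards [eventually_gt_atTop i] with b hb
  exact ⟨i, hlt.le, hb, hi⟩

theorem Emb.miss {α : Type} (h : Emb φ Y) (hY : Tower Y) {D : Set α} (hD : D.Infinite)
    (w : α → Set T) (hf : ∀ n, {U ∈ D | ¬ ∃ a b, n ≤ a ∧ w U ⊆ O φ a b}.Finite) :
    ∃ x, {U ∈ D | x ∉ w U}.Infinite := by
  let e := hD.natEmbedding
  have he : Function.Injective fun i => (e i : α) := Subtype.val_injective.comp e.injective
  have : ∀ n, ∃ i, n ≤ i ∧ ∃ a b, n ≤ a ∧ w (e i) ⊆ O φ a b := by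
    intro n
    have h1 := (hf n).preimage (f := fun i => (e i : α)) he.injOn
    obtain ⟨i, hi, hlt⟩ := h1.infinite_compl.exists_gt n
    refine ⟨i, hlt.le, ?_⟩
    by_contra hc
    exact hi ⟨(e i).2, hc⟩
  choose i hi a b ha hw using this
  obtain ⟨A, hA, hg⟩ := hY.gap b
  obtain ⟨x, rfl⟩ := h.surj hA
  refine ⟨x, ?_⟩
  have h2 : {j | x ∉ w (e j)}.Infinite := by
    refine infinite_of_forall_exists_gt fun m => ?_
    obtain ⟨n, hn, hx⟩ := frequently_atTop.1 hg (m + 1)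
    refine ⟨i n, fun hxw => ?_, (Nat.lt_of_succ_le hn).trans_le (hi n)⟩
    obtain ⟨j, h1, h2, h3⟩ := hw n hxw
    exact hx j ((ha n).trans h1) h2 h3
  refine (h2.image he.injOn).mono ?_
  rintro _ ⟨j, hj, rfl⟩
  exact ⟨(e j).2, hj⟩

theorem gamma_of {S : Type} [TopologicalSpace S] {w : ℕ → Set S} (hi : Function.Injective w)
    (ho : ∀ j, IsOpen (w j)) (hn : ∀ j, w j ≠ Set.univ) (hl : ∀ x, ∀ᶠ j in atTop, x ∈ w j) :
    range w ∈ Gamma S := by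
  refine ⟨by rintro _ ⟨j, rfl⟩; exact ho j, ⟨eq_univ_of_forall fun x => ?_, ?_⟩,
    infinite_range_of_injective hi, fun x => ?_⟩
  · obtain ⟨j, hj⟩ := (hl x).exists
    exact ⟨_, ⟨j, rfl⟩, hj⟩
  · rintro ⟨j, hj⟩; exact hn j hj
  · have h := hl x
    rw [← Nat.cofinite_eq_atTop, eventually_cofinite] at h
    refine (h.image w).subset ?_
    rintro _ ⟨⟨j, rfl⟩, h1⟩
    exact ⟨j, h1, rfl⟩

theorem tend4 (a : ℕ) : Tendsto (fun j : ℕ => a + 1 + j) atTop atTop :=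
  tendsto_atTop_mono (fun j => by simp only [id]; omega) tendsto_id

theorem Emb.not_ufin (h : Emb φ Y) (hY : Tower Y) : ¬ Ufin (Gamma T) (Gamma T) := by
  intro hU
  have hb : ∀ n (F : Set (Set T)), F.Finite → F ⊆ range (fun j => O φ n (n + 1 + j)) →
      ∃ b, ⋃₀ F ⊆ O φ n b := by
    intro n F hF hs
    rw [← image_univ] at hs
    obtain ⟨G, -, hG, rfl⟩ := hF.exists_subset_finite_image_eq hs
    obtain ⟨m, hm⟩ := hG.bddAbove
    refine ⟨n + 1 + m, ?_⟩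
    rintro x ⟨_, ⟨j, hj, rfl⟩, i, h1, h2, h3⟩
    have := hm hj
    exact ⟨i, h1, by omega, h3⟩
  obtain ⟨F, h1, h2⟩ := hU (fun n => range fun j => O φ n (n + 1 + j))
    (fun n => gamma_of (fun i j hij => by
        have := (h.inj hY (by omega) (by omega) hij).2; omega)
      (fun j => (h.clopen _ _).isOpen)
      (fun j => (ne_univ_iff_exists_notMem _).2 (h.out hY _ _))
      fun x => (tend4 n).eventually (h.ev hY x n))
    (by
      rintro n ⟨F, hs, hF, he⟩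
      obtain ⟨b, hb'⟩ := hb n F hF hs
      obtain ⟨x, hx⟩ := h.out hY n b
      exact hx (hb' (he ▸ mem_univ x)))
  obtain ⟨x, hx⟩ := h.miss hY h2.2.2.1 id (fun n => by
    refine ((finite_Iio n).image fun n => ⋃₀ F n).subset ?_
    rintro _ ⟨⟨m, rfl⟩, hm⟩
    refine ⟨m, ?_, rfl⟩
    by_contra hc
    obtain ⟨b, hb'⟩ := hb m _ (h1 m).1 (h1 m).2
    exact hm ⟨m, b, not_lt.1 hc, hb'⟩)
  exact hx (h2.2.2.2 x)

theorem Emb.not_choose (h : Emb φ Y) (hY : Tower Y) : ¬ Choose (Tau T) (Gamma T) := by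
  intro hU
  obtain ⟨D, h1, h2⟩ := hU (range fun j => O φ j (j + 1)) (tau_of
    (fun i j hij => (h.inj hY (by omega) (by omega) hij).1) (fun j => (h.clopen _ _).isOpen)
    (fun j => (ne_univ_iff_exists_notMem _).2 (h.out hY _ _))
    (fun x => by
      refine (Nat.frequently_atTop_iff_infinite.2 (hY.inf _ (h.mem x))).mono fun j hj => ?_
      exact ⟨j, le_rfl, by omega, hj⟩)
    (fun x y => by
      have key : ∀ x y, Sub (φ x) (φ y) →
          ∀ᶠ j in atTop, x ∈ O φ j (j + 1) → y ∈ O φ j (j + 1) := by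
        intro x y hs
        filter_upwards [hs] with j hj
        rintro ⟨i, a1, a2, a3⟩
        have : i = j := by omega
        subst this
        exact ⟨i, a1, a2, hj a3⟩
      exact (hY.chain _ (h.mem x) _ (h.mem y)).imp (key x y) (key y x)))
  obtain ⟨x, hx⟩ := h.miss hY h2.2.2.1 id (fun n => by
    refine ((finite_Iio n).image fun j => O φ j (j + 1)).subset ?_
    rintro U ⟨hU, hm⟩
    obtain ⟨m, rfl⟩ := h1 hU
    refine ⟨m, ?_, rfl⟩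
    by_contra hc
    exact hm ⟨m, m + 1, not_lt.1 hc, Subset.rfl⟩)
  exact hx (h2.2.2.2 x)

/-- the twisted sets in the square -/
def O2 (φ : T → Set ℕ) (a b : ℕ) : Set (Fin 2 → T) :=
  {z | (0 ∈ φ (z 0) ∧ z 1 ∈ O φ a b) ∨ (0 ∉ φ (z 0) ∧ (z 0 ∈ O φ a b ↔ z 1 ∈ O φ a b))}

theorem Emb.open2 (h : Emb φ Y) (a b : ℕ) : IsOpen (O2 φ a b) := by
  have c0 : IsClopen {z : Fin 2 → T | 0 ∈ φ (z 0)} := (h.h2 0).preimage (continuous_apply 0)
  have c1 : IsClopen {z : Fin 2 → T | z 0 ∈ O φ a b} := (h.clopen a b).preimage (continuous_apply 0)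
  have c2 : IsClopen {z : Fin 2 → T | z 1 ∈ O φ a b} := (h.clopen a b).preimage (continuous_apply 1)
  have := (c0.inter c2).union (c0.compl.inter ((c1.inter c2).union (c1.compl.inter c2.compl)))
  convert this.isOpen using 1
  ext z
  simp only [O2, mem_setOf_eq, mem_union, mem_inter_iff, mem_compl_iff]
  tauto

theorem Emb.sec (h : Emb φ Y) (hY : Tower Y) :
    ∃ p, ∀ a b y, ![p, y] ∈ O2 φ a b ↔ y ∈ O φ a b := by
  obtain ⟨x0⟩ := h.pt hY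
  obtain ⟨p, hp⟩ := h.modify hY x0 Set.univ 1
  have hp0 : 0 ∈ φ p := (hp 0).2 (Or.inl ⟨Nat.one_pos, trivial⟩)
  exact ⟨p, fun a b y => by simp [O2, hp0]⟩

theorem Emb.inj2 (h : Emb φ Y) (hY : Tower Y) {a b a' b' : ℕ} (h1 : a < b) (h2 : a' < b')
    (he : O2 φ a b = O2 φ a' b') : a = a' ∧ b = b' := by
  obtain ⟨p, hsec⟩ := h.sec hY
  refine h.inj hY h1 h2 ?_
  ext y
  rw [← hsec, ← hsec, he]

theorem Emb.ne2 (h : Emb φ Y) (hY : Tower Y) (a b : ℕ) : O2 φ a b ≠ Set.univ := by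
  obtain ⟨p, hsec⟩ := h.sec hY
  obtain ⟨y, hy⟩ := h.out hY a b
  exact (ne_univ_iff_exists_notMem _).2 ⟨_, fun h' => hy ((hsec _ _ y).1 h')⟩

theorem mem2 {z : Fin 2 → T} {a b : ℕ} (a1 : z 0 ∈ O φ a b) (a2 : z 1 ∈ O φ a b) :
    z ∈ O2 φ a b := by
  by_cases h0 : 0 ∈ φ (z 0)
  · exact Or.inl ⟨h0, a2⟩
  · exact Or.inr ⟨h0, fun _ => a2, fun _ => a1⟩

/-- the twisted sets indexed by pairs -/
def o2 (φ : T → Set ℕ) (d : ℕ × ℕ) : Set (Fin 2 → T) := O2 φ (d.1 + 1) (d.1 + 1 + 1 + d.2)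

theorem Emb.inj3 (h : Emb φ Y) (hY : Tower Y) : Function.Injective (o2 φ) := by
  rintro ⟨a, b⟩ ⟨c, d⟩ he
  have := h.inj2 hY (by omega) (by omega) he
  simp only [Prod.mk.injEq] at this ⊢
  omega

theorem Emb.core (h : Emb φ Y) (hY : Tower Y) (J : Set (ℕ × ℕ))
    (hfin : ∀ n, {d ∈ J | d.1 < n}.Finite) : o2 φ '' J ∉ Tau (Fin 2 → T) := by
  intro h2
  obtain ⟨x0⟩ := h.pt hY
  obtain ⟨p, hsec⟩ := h.sec hY
  let o : ℕ × ℕ → Set T := fun d => O φ (d.1 + 1) (d.1 + 1 + 1 + d.2)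
  have ho2 := h.inj3 hY
  have hlarge : ∀ y, {d ∈ J | y ∈ o d}.Infinite := by
    intro y hf
    refine h2.2.2.1 ![p, y] ((hf.image (o2 φ)).subset ?_)
    rintro _ ⟨⟨d, hd, rfl⟩, a1⟩
    exact ⟨d, ⟨hd, (hsec _ _ y).1 a1⟩, rfl⟩
  have hsub : ∀ x y, Sub (φ x) (φ y) → {d ∈ J | x ∈ o d ∧ y ∉ o d}.Finite := by
    intro x y hs
    obtain ⟨m, hm⟩ := eventually_atTop.1 hs
    refine (hfin m).subset ?_
    rintro d ⟨a1, ⟨i, b1, b2, b3⟩, a3⟩
    refine ⟨a1, ?_⟩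
    by_contra hc
    exact a3 ⟨i, b1, b2, hm i (by omega) b3⟩
  have hnext : ∀ y, ∃ y', 0 ∉ φ y' ∧ {d ∈ J | y ∈ o d ∧ y' ∉ o d}.Infinite ∧
      {d ∈ J | y' ∈ o d ∧ y ∉ o d}.Finite := by
    intro y
    obtain ⟨x, hx⟩ := h.miss hY (hlarge y) o (fun n => (hfin n).subset (by
      rintro d ⟨⟨a1, -⟩, a2⟩
      refine ⟨a1, ?_⟩
      by_contra hc
      exact a2 ⟨_, _, by omega, Subset.rfl⟩))
    obtain ⟨x', hx'⟩ := h.modify hY x ∅ 1
    have he : ∀ d, x' ∈ o d ↔ x ∈ o d := by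
      intro d
      refine exists_congr fun i => and_congr_right fun a1 => and_congr_right fun _ => ?_
      rw [hx']
      have : 1 ≤ i := by omega
      simp [this]
    have hx2 : {d ∈ J | y ∈ o d ∧ x' ∉ o d}.Infinite := by
      refine hx.mono ?_
      rintro d ⟨⟨a1, a2⟩, a3⟩
      exact ⟨a1, a2, fun h' => a3 ((he d).1 h')⟩
    refine ⟨x', by simp [hx'], hx2, ?_⟩
    rcases hY.chain _ (h.mem y) _ (h.mem x') with hs | hs
    · exact absurd (hsub _ _ hs) hx2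
    · exact hsub _ _ hs
  obtain ⟨y0, n0, -, -⟩ := hnext x0
  obtain ⟨y1, n1, a1, b1⟩ := hnext y0
  obtain ⟨y2, n2, a2, b2⟩ := hnext y1
  have m0 : ∀ d, ![y0, y1] ∈ o2 φ d ↔ (y0 ∈ o d ↔ y1 ∈ o d) := by
    intro d; simp [o2, O2, n0, o]
  have m1 : ∀ d, ![y1, y2] ∈ o2 φ d ↔ (y1 ∈ o d ↔ y2 ∈ o d) := by
    intro d; simp [o2, O2, n1, o]
  rcases h2.2.2.2 ![y0, y1] ![y1, y2] with hf | hf
  · refine (a2.diff b1) ((hf.preimage ho2.injOn).subset ?_)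
    rintro d ⟨⟨c1, c2, c3⟩, c4⟩
    refine ⟨⟨d, c1, rfl⟩, (m0 d).2 ?_, fun h' => c3 (((m1 d).1 h').1 c2)⟩
    refine ⟨fun _ => c2, fun _ => ?_⟩
    by_contra c5
    exact c4 ⟨c1, c2, c5⟩
  · refine (a1.diff b2) ((hf.preimage ho2.injOn).subset ?_)
    rintro d ⟨⟨c1, c2, c3⟩, c4⟩
    refine ⟨⟨d, c1, rfl⟩, (m1 d).2 ?_, fun h' => c3 (((m0 d).1 h').1 c2)⟩
    exact ⟨fun c5 => absurd c5 c3, fun c5 => absurd ⟨c1, c5, c3⟩ c4⟩

theorem Emb.not_sq (h : Emb φ Y) (hY : Tower Y) : ¬ Sfin (Gamma (Fin 2 → T)) (Tau (Fin 2 → T)) := by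
  intro hS
  obtain ⟨F, h1, h2⟩ := hS (fun n => range fun j => O2 φ (n + 1) (n + 1 + 1 + j))
    (fun n => gamma_of (fun i j hij => by
        have := (h.inj2 hY (by omega) (by omega) hij).2; omega)
      (fun j => h.open2 _ _) (fun j => h.ne2 hY _ _)
      fun z => by
        filter_upwards [(tend4 (n + 1)).eventually (h.ev hY (z 0) (n + 1)),
          (tend4 (n + 1)).eventually (h.ev hY (z 1) (n + 1))] with j a1 a2
        exact mem2 a1 a2)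
  let J : Set (ℕ × ℕ) := {d | o2 φ d ∈ F d.1}
  have hJ : (⋃ n, F n) = o2 φ '' J := by
    ext U
    constructor
    · intro hU
      obtain ⟨n, hn⟩ := mem_iUnion.1 hU
      obtain ⟨j, rfl⟩ := (h1 n).2 hn
      exact ⟨(n, j), hn, rfl⟩
    · rintro ⟨d, hd, rfl⟩
      exact mem_iUnion.2 ⟨d.1, hd⟩
  refine h.core hY J (fun n => ?_) (hJ ▸ h2)
  have : (⋃ m ∈ Iio n, F m).Finite := (finite_Iio n).biUnion fun m _ => (h1 m).1
  refine (this.preimage (h.inj3 hY).injOn).subset ?_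
  rintro d ⟨a1, a2⟩
  exact mem_iUnion₂.2 ⟨d.1, a2, a1⟩

theorem Emb.common (h : Emb φ Y) (hY : Tower Y) {F : Set T} (hF : F.Finite) :
    ∃ i, 1 ≤ i ∧ ∀ x ∈ F, i ∈ φ x := by
  have : ∃ y, ∀ x ∈ F, Sub (φ y) (φ x) := by
    induction F, hF using Set.Finite.induction_on with
    | empty => obtain ⟨x⟩ := h.pt hY; exact ⟨x, by simp⟩
    | @insert a s _ _ ih =>
      obtain ⟨y, hy⟩ := ih
      rcases hY.chain _ (h.mem y) _ (h.mem a) with hs | hs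
      · exact ⟨y, forall_mem_insert.2 ⟨hs, hy⟩⟩
      · refine ⟨a, forall_mem_insert.2 ⟨Eventually.of_forall fun _ => id, fun x hx => ?_⟩⟩
        filter_upwards [hs, hy x hx] with i a1 a2 a3
        exact a2 (a1 a3)
  obtain ⟨y, hy⟩ := this
  have h1 : ∀ᶠ i in atTop, ∀ x ∈ F, i ∈ φ y → i ∈ φ x := (eventually_all_finite hF).2 hy
  obtain ⟨i, a1, a2, a3⟩ := ((Nat.frequently_atTop_iff_infinite.2 (hY.inf _ (h.mem y))).and_eventually
    (h1.and (eventually_ge_atTop 1))).exists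
  exact ⟨i, a3, fun x hx => a2 x hx a1⟩

theorem Emb.not_sq2 (h : Emb φ Y) (hY : Tower Y) :
    ¬ Choose (Omega (Fin 2 → T)) (Tau (Fin 2 → T)) := by
  intro hS
  have hom : ∀ F : Set (Fin 2 → T), F.Finite → ∃ U ∈ range fun n => o2 φ (n, 0), F ⊆ U := by
    intro F hF
    obtain ⟨i, a1, a2⟩ := h.common hY ((hF.image fun z => z 0).union (hF.image fun z => z 1))
    refine ⟨_, ⟨i - 1, rfl⟩, fun z hz => mem2 ?_ ?_⟩
    · exact ⟨i, by omega, by omega, a2 _ (Or.inl ⟨z, hz, rfl⟩)⟩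
    · exact ⟨i, by omega, by omega, a2 _ (Or.inr ⟨z, hz, rfl⟩)⟩
  obtain ⟨D, h1, h2⟩ := hS (range fun n => o2 φ (n, 0)) ⟨by rintro _ ⟨n, rfl⟩; exact h.open2 _ _,
    ⟨eq_univ_of_forall fun z => by
      obtain ⟨U, a1, a2⟩ := hom {z} (finite_singleton z)
      exact ⟨U, a1, a2 rfl⟩, by rintro ⟨n, hn⟩; exact h.ne2 hY _ _ hn⟩, hom⟩
  have hJ : D = o2 φ '' {d | d.2 = 0 ∧ o2 φ d ∈ D} := by
    ext U
    constructor
    · intro hU
      obtain ⟨n, rfl⟩ := h1 hU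
      exact ⟨(n, 0), ⟨rfl, hU⟩, rfl⟩
    · rintro ⟨d, hd, rfl⟩; exact hd.2
  refine h.core hY _ (fun n => ?_) (hJ ▸ h2)
  refine ((finite_Iio n).prod (finite_singleton 0)).subset ?_
  rintro d ⟨⟨a1, -⟩, a2⟩
  exact ⟨a2, a1⟩

theorem choose_of_split {A B : Set (Set (Set T))} (h : Split A B) : Choose A B := by
  intro C hC
  obtain ⟨V, W, h1, -, ⟨V', h2, h3⟩, -⟩ := h C hC
  exact ⟨V', h3.trans (h1 ▸ subset_union_left), h2⟩

theorem sfin_mono {S : Type} {A A' B : Set (Set (Set S))} (h : Sfin A B) (hA : A' ⊆ A) :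
    Sfin A' B := fun C hC => h C fun n => hA (hC n)

theorem main (hCH : (𝔠 : Cardinal.{0}) = ℵ₁) : ∃ X : Set ℝ, Nonempty X ∧
    Sfin (Omega X) (Tau X) ∧ Split (Omega X) (Tau X) ∧ ¬ Ufin (Gamma X) (Gamma X) ∧
      ¬ Choose (Tau X) (Gamma X) ∧ ¬ Sfin (Gamma (Fin 2 → X)) (Tau (Fin 2 → X)) ∧
      ¬ Choose (Omega (Fin 2 → X)) (Tau (Fin 2 → X)) := by
  obtain ⟨Y, hY⟩ := exists_tower hCH
  obtain ⟨X, φ, h⟩ := exists_real Y
  exact ⟨X, h.pt hY, h.sfin hY, h.split hY, h.not_ufin hY, h.not_choose hY, h.not_sq hY,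
    h.not_sq2 hY⟩

end Pool.Agent.H83.Tw
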