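import Pool.Agent.H83.Closing

set_option autoImplicit false

namespace Pool.Agent.H83.Valdivia

open Set Filter Topology

/-- fixed points of `h` in an invariant dense Sigma-subset are dense in the fixed point set -/
theorem fix_dense {K Γ : Type*} [TopologicalSpace K] [CompactSpace K] [T2Space K]
    (φ : K → (Γ → ℝ)) (hφ : IsEmbedding φ)
    (hd : Dense (φ ⁻¹' {x : Γ → ℝ | {γ : Γ | x γ ≠ 0}.Countable}))
    (h : K → K) (hc : Continuous h)
    (hA : ∀ x, {γ : Γ | φ x γ ≠ 0}.Countable → {γ : Γ | φ (h x) γ ≠ 0}.Countable)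
    (z : K) (hz : h z = z) (U : Set K) (hU : IsClopen U) (hzU : z ∈ U) :
    ∃ a ∈ U, {γ : Γ | φ a γ ≠ 0}.Countable ∧ h a = a := by
  classical
  have key : ∀ (F : Finset Γ) (k : ℕ), ∃ a : K,
      ({γ : Γ | φ a γ ≠ 0} ∪ {γ : Γ | φ (h a) γ ≠ 0}).Countable ∧
      (a ∈ U ∧ {γ : Γ | φ a γ ≠ 0}.Countable ∧ ∀ γ ∈ F, dist (φ a γ) (φ z γ) < 1 / (k + 1 : ℝ) ∧
        dist (φ (h a) γ) (φ z γ) < 1 / (k + 1 : ℝ)) := by
    intro F k
    have hpos : (0 : ℝ) < 1 / (k + 1 : ℝ) := by positivity
    have ho : IsOpen (U ∩ ⋂ γ ∈ F, ({a | dist (φ a γ) (φ z γ) < 1 / (k + 1 : ℝ)} ∩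
        {a | dist (φ (h a) γ) (φ z γ) < 1 / (k + 1 : ℝ)})) := by
      refine hU.isOpen.inter (isOpen_biInter_finset fun γ _ => IsOpen.inter ?_ ?_)
      · exact isOpen_lt (((continuous_apply γ).comp hφ.continuous).dist continuous_const)
          continuous_const
      · exact isOpen_lt (((continuous_apply γ).comp (hφ.continuous.comp hc)).dist
          continuous_const) continuous_const
    obtain ⟨a, ⟨haU, ha⟩, haA⟩ := hd.inter_open_nonempty _ ho
      ⟨z, hzU, by simp only [mem_iInter]; intro γ _; constructor <;> simp [hz] <;> positivity⟩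
    refine ⟨a, Countable.union haA (hA a haA), haU, haA, ?_⟩
    simp only [mem_iInter] at ha
    exact fun γ hγ => ha γ hγ
  obtain ⟨a, F, hFm, -, hP, hex, -⟩ := Closing.closingOff
    (fun a : K => {γ : Γ | φ a γ ≠ 0} ∪ {γ : Γ | φ (h a) γ ≠ 0}) _ key
  let w : Γ → ℝ := fun γ => if ∃ k, γ ∈ F k then φ z γ else 0
  have lim : ∀ b : ℕ → K, (∀ k, ∀ γ ∈ F k, dist (φ (b k) γ) (φ z γ) < 1 / (k + 1 : ℝ)) →
      (∀ k γ, φ (b k) γ ≠ 0 → ∃ k, γ ∈ F k) → Tendsto (fun k => φ (b k)) atTop (𝓝 w) := by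
    intro b hb1 hb2
    rw [tendsto_pi_nhds]
    intro γ
    by_cases hγ : ∃ k, γ ∈ F k
    · simp only [w, if_pos hγ]
      obtain ⟨k0, hk0⟩ := hγ
      rw [tendsto_iff_dist_tendsto_zero]
      refine squeeze_zero' (Eventually.of_forall fun _ => dist_nonneg) ?_
        tendsto_one_div_add_atTop_nhds_zero_nat
      filter_upwards [eventually_ge_atTop k0] with k hk
      exact (hb1 k γ (hFm hk hk0)).le
    · simp only [w, if_neg hγ]
      have : (fun k => φ (b k) γ) = fun _ => 0 := by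
        funext k; by_contra hne; exact hγ (hb2 k γ hne)
      rw [this]; exact tendsto_const_nhds
  have l1 := lim a (fun k γ hγ => ((hP k).2.2 γ hγ).1) (fun k γ hγ => hex k γ (Or.inl hγ))
  have l2 := lim (fun k => h (a k)) (fun k γ hγ => ((hP k).2.2 γ hγ).2)
    (fun k γ hγ => hex k γ (Or.inr hγ))
  have hcl : IsClosed (range φ) := (isCompact_range hφ.continuous).isClosed
  obtain ⟨b, hb⟩ : w ∈ range φ :=
    hcl.mem_of_tendsto l1 (Eventually.of_forall fun k => mem_range_self _)
  rw [← hb] at l1 l2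
  have t1 : Tendsto a atTop (𝓝 b) := hφ.tendsto_nhds_iff.2 l1
  have t2 : Tendsto (fun k => h (a k)) atTop (𝓝 b) := hφ.tendsto_nhds_iff.2 l2
  refine ⟨b, hU.isClosed.mem_of_tendsto t1 (Eventually.of_forall fun k => (hP k).1), ?_,
    tendsto_nhds_unique ((hc.tendsto b).comp t1) t2⟩
  refine (countable_iUnion fun k => (F k).countable_toSet).mono ?_
  intro γ hγ
  simp only [mem_setOf_eq, hb, w] at hγ
  by_cases h' : ∃ k, γ ∈ F k
  · simpa using h'
  · simp [h'] at hγ

/-- a sequence in a Sigma-subset of a compact space has a convergent subsequence -/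
theorem subseq {K Γ : Type*} [TopologicalSpace K] [CompactSpace K]
    (φ : K → (Γ → ℝ)) (hφ : IsEmbedding φ) (a : ℕ → K)
    (ha : ∀ n, {γ : Γ | φ (a n) γ ≠ 0}.Countable) :
    ∃ (b : K) (s : ℕ → ℕ), StrictMono s ∧ Tendsto (a ∘ s) atTop (𝓝 b) := by
  classical
  let S : Set Γ := ⋃ n, {γ : Γ | φ (a n) γ ≠ 0}
  haveI : Countable S := (countable_iUnion ha).to_subtype
  let ψ : K → (S → ℝ) := fun x s => φ x s
  have hψ : Continuous ψ := continuous_pi fun s => (continuous_apply _).comp hφ.continuous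
  obtain ⟨v, -, s, hs, hv⟩ := (isCompact_range hψ).tendsto_subseq (x := fun n => ψ (a n))
    (fun n => mem_range_self _)
  let w : Γ → ℝ := fun γ => if hγ : γ ∈ S then v ⟨γ, hγ⟩ else 0
  have l1 : Tendsto (fun k => φ (a (s k))) atTop (𝓝 w) := by
    rw [tendsto_pi_nhds]
    intro γ
    by_cases hγ : γ ∈ S
    · simp only [w, dif_pos hγ]
      exact tendsto_pi_nhds.1 hv ⟨γ, hγ⟩
    · simp only [w, dif_neg hγ]
      have : (fun k => φ (a (s k)) γ) = fun _ => 0 := by
        funext k; by_contra hne; exact hγ (mem_iUnion.2 ⟨s k, hne⟩)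
      rw [this]; exact tendsto_const_nhds
  have hcl : IsClosed (range φ) := (isCompact_range hφ.continuous).isClosed
  obtain ⟨b, hb⟩ : w ∈ range φ :=
    hcl.mem_of_tendsto l1 (Eventually.of_forall fun k => mem_range_self _)
  rw [← hb] at l1
  exact ⟨b, s, hs, hφ.tendsto_nhds_iff.2 l1⟩

/-- index set of the cube -/
abbrev Idx : Type := Set ℕ ⊕ (ℕ × Set ℕ)

open Classical in
/-- the involution -/
noncomputable def inv (x : Idx → Bool) : Idx → Bool := fun i =>
  match i with
  | Sum.inl a => x (Sum.inl a)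
  | Sum.inr (n, a) => xor (x (Sum.inr (n, a)))
      (x (Sum.inl {n}) && (x (Sum.inl a) != decide (n ∈ a)))

theorem inv_cont : Continuous inv := by
  classical
  refine continuous_pi fun i => ?_
  rcases i with a | ⟨n, a⟩
  · exact continuous_apply _
  · have : Continuous (fun p : Bool × Bool × Bool => xor p.1 (p.2.1 && (p.2.2 != decide (n ∈ a)))) :=
      continuous_of_discreteTopology
    have h2 : Continuous (fun x : Idx → Bool =>
        (x (Sum.inr (n, a)), x (Sum.inl {n}), x (Sum.inl a))) := by fun_prop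
    exact this.comp h2

theorem inv_inv (x : Idx → Bool) : inv (inv x) = x := by
  funext i
  rcases i with a | ⟨n, a⟩
  · rfl
  · simp [inv]

theorem cube_valdivia (I : Type) : ∃ A : Set (I → Bool), Dense A ∧
    ∃ (Γ : Type) (φ : (I → Bool) → (Γ → ℝ)),
      IsEmbedding φ ∧ A = φ ⁻¹' {x : Γ → ℝ | {γ : Γ | x γ ≠ 0}.Countable} := by
  classical
  let φ : (I → Bool) → (I → ℝ) := fun x i => if x i then 1 else 0
  have hc : Continuous φ := continuous_pi fun i =>
    (continuous_of_discreteTopology (f := fun b : Bool => if b then (1 : ℝ) else 0)).comp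
      (continuous_apply i)
  have hi : Function.Injective φ := by
    intro x y hxy
    funext i
    have := congrFun hxy i
    simp only [φ] at this
    cases hx : x i <;> cases hy : y i <;> simp_all
  refine ⟨_, ?_, I, φ, (hc.isClosedEmbedding hi).isEmbedding, rfl⟩
  rw [dense_iff_inter_open]
  rintro U hU ⟨x, hx⟩
  obtain ⟨F, u, hu, hF⟩ := isOpen_pi_iff.1 hU x hx
  refine ⟨fun i => if i ∈ F then x i else false, hF ?_, ?_⟩
  · intro i hi
    simp only [Finset.mem_coe] at hi
    simpa [hi] using (hu i hi).2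
  · refine F.countable_toSet.mono ?_
    intro i hi
    by_contra h'
    simp only [Finset.mem_coe] at h'
    simp [φ, h'] at hi

theorem no_invariant {Γ : Type*} (φ : (Idx → Bool) → (Γ → ℝ)) (hφ : IsEmbedding φ)
    (hd : Dense (φ ⁻¹' {x : Γ → ℝ | {γ : Γ | x γ ≠ 0}.Countable}))
    (hA : ∀ x, {γ : Γ | φ x γ ≠ 0}.Countable → {γ : Γ | φ (inv x) γ ≠ 0}.Countable) : False := by
  classical
  have key : ∀ n : ℕ, ∃ a : Idx → Bool, {γ : Γ | φ a γ ≠ 0}.Countable ∧
      ∀ s : Set ℕ, a (Sum.inl s) = decide (n ∈ s) := by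
    intro n
    let z : Idx → Bool := fun i => match i with
      | Sum.inl s => decide (n ∈ s)
      | Sum.inr _ => false
    have hz : inv z = z := by
      funext i
      rcases i with a | ⟨m, a⟩
      · rfl
      · by_cases h : n = m
        · subst h; simp [inv, z]
        · simp [inv, z, h]
    have hU : IsClopen {x : Idx → Bool | x (Sum.inl {n}) = true} :=
      (isClopen_discrete ({true} : Set Bool)).preimage (continuous_apply (Sum.inl {n}))
    obtain ⟨a, haU, ha, hfix⟩ := fix_dense φ hφ hd inv inv_cont hA z hz _ hU (by simp [z])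
    refine ⟨a, ha, fun s => ?_⟩
    have := congrFun hfix (Sum.inr (n, s))
    simp only [mem_setOf_eq] at haU
    simp only [inv, haU] at this
    revert this
    cases a (Sum.inr (n, s)) <;> cases a (Sum.inl s) <;> simp
  choose a ha1 ha2 using key
  obtain ⟨b, s, hs, hb⟩ := subseq φ hφ a ha1
  let t : Set ℕ := range fun k => s (2 * k)
  have h1 := tendsto_pi_nhds.1 hb (Sum.inl t)
  rw [nhds_discrete, tendsto_pure, eventually_atTop] at h1
  obtain ⟨N, hN⟩ := h1
  have e1 := hN (2 * N) (by omega)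
  have e2 := hN (2 * N + 1) (by omega)
  simp only [Function.comp, ha2] at e1 e2
  have m1 : s (2 * N) ∈ t := ⟨N, rfl⟩
  have m2 : s (2 * N + 1) ∉ t := by
    rintro ⟨k, hk⟩
    have := hs.injective hk
    omega
  rw [← e1] at e2
  simp [m1, m2] at e2

end Pool.Agent.H83.Valdivia
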