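import Mathlib

set_option autoImplicit false

namespace Pool.Agent.H83.WDelta

open Set Cardinal

universe u

/-- the ordinals below the successor cardinal of `κ` -/
abbrev W (κ : Cardinal.{u}) : Type u := (Order.succ κ).ord.ToType

/-- the ordinals below `κ` -/
abbrev K (κ : Cardinal.{u}) : Type u := κ.ord.ToType

/-- injections from an ordinal below the successor of `κ` into `κ` -/
def I (κ : Cardinal.{u}) : Type u := Σ a : W κ, (Iio a ↪ K κ)

/-- the weak Delta-system principle -/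
def Delta (κ : Cardinal.{u}) : Prop :=
  ∀ D : ∀ f : I κ, Set (Iio f.1), (∀ f, #(D f) < κ) →
    ∃ F : W κ → I κ, (StrictMono fun α => (F α).1) ∧
      ∀ α β, ∀ x ∈ D (F α), ∀ y ∈ D (F β), x.1 = y.1 → (F α).2 x = (F β).2 y

theorem rec_choice {J X : Type u} [LinearOrder J] [WellFoundedLT J]
    (P : ∀ i : J, (Iio i → X) → X → Prop) (step : ∀ i g, ∃ x, P i g x) :
    ∃ b : J → X, ∀ i, P i (fun j => b j.1) (b i) := by
  choose G hG using step
  let b : J → X := (wellFounded_lt (α := J)).fix fun i g => G i fun j => g j.1 j.2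
  refine ⟨b, fun i => ?_⟩
  have : b i = G i fun j => b j.1 := WellFounded.fix_eq _ _ _
  rw [this]
  exact hG i _

theorem card_Iio {κ : Cardinal.{u}} (a : W κ) : #(Iio a) ≤ κ :=
  Order.lt_succ_iff.1 (mk_Iio_lt a (by simp) |>.trans_eq (mk_ord_toType _))

theorem bdd {κ : Cardinal.{u}} (hκ : ℵ₀ ≤ κ) {J : Type u} (hJ : #J ≤ κ) (t : J → W κ) :
    ∃ a, ∀ j, t j < a := by
  by_contra hc
  push Not at hc
  have h1 : Order.cof (W κ) ≤ #(range t) := Order.cof_le fun a => by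
    obtain ⟨j, hj⟩ := hc a
    exact ⟨_, ⟨j, rfl⟩, hj⟩
  rw [Ordinal.cof_toType, (isRegular_succ hκ).cof_ord] at h1
  exact absurd (h1.trans (mk_range_le.trans hJ)) (not_le.2 (Order.lt_succ κ))

theorem sup {κ : Cardinal.{u}} (hκ : ℵ₀ ≤ κ) {J : Type u} (hJ : #J ≤ κ) (t : J → W κ) :
    ∃ a, (∀ j, t j ≤ a) ∧ ∀ x < a, ∃ j, x < t j := by
  obtain ⟨a, ha⟩ := bdd hκ hJ t
  obtain ⟨b, hb, hb'⟩ := wellFounded_lt.has_min {a | ∀ j, t j ≤ a} ⟨a, fun j => (ha j).le⟩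
  refine ⟨b, hb, fun x hx => ?_⟩
  by_contra hc
  push Not at hc
  exact hb' x hc hx

theorem delta (κ : Cardinal.{u}) (hκ : ℵ₀ ≤ κ) : Delta κ := by
  classical
  intro D hD
  by_contra hcon
  have claim : ∀ (ξ : W κ) (g : W κ → K κ), ∃ η, ∀ f : I κ, η ≤ f.1 →
      (∀ x : Iio f.1, x.1 < ξ → f.2 x = g x) → ∃ x ∈ D f, ξ ≤ x.1 ∧ x.1 < η := by
    intro ξ g
    by_contra hc
    push Not at hc
    obtain ⟨F, hF⟩ := rec_choice (J := W κ) (X := I κ) (fun i b f => (∀ j, (b j).1 < f.1) ∧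
      (∀ x : Iio f.1, x.1 < ξ → f.2 x = g x) ∧ ∀ x ∈ D f, ξ ≤ x.1 → ∀ j, (b j).1 < x.1)
      (fun i b => by
        obtain ⟨η, hη⟩ := bdd hκ (card_Iio i) fun j => (b j).1
        obtain ⟨f, h1, h2, h3⟩ := hc η
        exact ⟨f, fun j => (hη j).trans_le h1, h2, fun x hx hx' j =>
          (hη j).trans_le (h3 x hx hx')⟩)
    refine hcon ⟨F, fun α β h => (hF β).1 ⟨α, h⟩, fun α β x hx y hy hxy => ?_⟩
    by_cases h : x.1 < ξ
    · rw [(hF α).2.1 x h, (hF β).2.1 y (hxy ▸ h), hxy]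
    · rcases lt_trichotomy α β with h' | rfl | h'
      · exact absurd (((hF β).2.2 y hy (hxy ▸ not_lt.1 h) ⟨α, h'⟩).trans_eq hxy.symm) x.2.not_gt
      · rw [Subtype.ext hxy]
      · exact absurd (((hF α).2.2 x hx (not_lt.1 h) ⟨β, h'⟩).trans_eq hxy) y.2.not_gt
  have hK : #(K κ) = κ := mk_ord_toType κ
  obtain ⟨p⟩ : Nonempty (K κ × K κ ↪ K κ) := by
    rw [← Cardinal.le_def, mk_prod, lift_id, hK, mul_eq_self hκ]
  have he : ∀ a : W κ, Nonempty (Iio a ↪ K κ) := fun a => by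
    rw [← Cardinal.le_def, hK]; exact card_Iio a
  let e : ∀ a : W κ, Iio a ↪ K κ := fun a => (he a).some
  obtain ⟨t, ht⟩ := rec_choice (J := K κ) (X := W κ) (fun i b η => ∀ f : I κ, η ≤ f.1 →
      (∀ (j : Iio i) (x : Iio f.1) (hx : x.1 < b j), (∀ j' < j, b j' ≤ x.1) →
        f.2 x = p (j.1, e (b j) ⟨x.1, hx⟩)) → ∃ x ∈ D f, x.1 < η ∧ ∀ j, b j ≤ x.1)
    (fun i b => by
      obtain ⟨ξ, h1, h2⟩ := sup hκ (J := Iio i) (mk_set_le _ |>.trans hK.le) b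
      have h3 : ∀ x : W κ, ∃ k : K κ, x < ξ → ∃ (j : Iio i) (hx : x < b j),
          (∀ j' < j, b j' ≤ x) ∧ k = p (j.1, e (b j) ⟨x, hx⟩) := by
        intro x
        by_cases hx : x < ξ
        · obtain ⟨j, hj, hj'⟩ := wellFounded_lt.has_min {j | x < b j} (h2 x hx)
          exact ⟨_, fun _ => ⟨j, hj, fun j' h => not_lt.1 fun h' => hj' j' h' h, rfl⟩⟩
        · exact ⟨i, fun h => absurd h hx⟩
      choose g hg using h3
      obtain ⟨η, hη⟩ := claim ξ g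
      refine ⟨η, fun f hf hs => ?_⟩
      obtain ⟨x, hx, h4, h5⟩ := hη f hf fun x hx => by
        obtain ⟨j, hj, h6, h7⟩ := hg x hx
        rw [h7, hs j x hj h6]
      exact ⟨x, hx, h5, fun j => (h1 j).trans h4⟩)
  obtain ⟨a, h1, h2⟩ := sup hκ hK.le t
  have h3 : ∀ x : Iio a, ∃ j, x.1 < t j ∧ ∀ j' < j, t j' ≤ x.1 := by
    intro x
    obtain ⟨j, hj, hj'⟩ := wellFounded_lt.has_min {j | x.1 < t j} (h2 x.1 x.2)
    exact ⟨j, hj, fun j' h => not_lt.1 fun h' => hj' j' h' h⟩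
  choose r hr1 hr2 using h3
  let f : I κ := ⟨a, ⟨fun x => p (r x, e (t (r x)) ⟨x.1, hr1 x⟩), fun x y h => by
    have h4 := Prod.ext_iff.1 (p.injective h)
    have h5 : ∀ j j' (hx : x.1 < t j) (hy : y.1 < t j'), j = j' →
        e (t j) ⟨x.1, hx⟩ = e (t j') ⟨y.1, hy⟩ → x = y := by
      rintro j _ hx hy rfl h
      exact Subtype.ext (Subtype.ext_iff.1 ((e (t j)).injective h) :)
    exact h5 _ _ _ _ h4.1 h4.2⟩⟩
  have h6 : ∀ i, ∃ x ∈ D f, x.1 < t i ∧ ∀ j : Iio i, t j ≤ x.1 := by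
    intro i
    refine ht i f (h1 i) fun j x hx hj => ?_
    have : r x = j.1 := by
      rcases lt_trichotomy (r x) j.1 with h | h | h
      · exact absurd (hj ⟨r x, h.trans j.2⟩ h) (hr1 x).not_ge
      · exact h
      · exact absurd (hr2 x _ h) hx.not_ge
    have h9 : ∀ k k' (h : x.1 < t k) (h' : x.1 < t k'), k = k' →
        p (k, e (t k) ⟨x.1, h⟩) = p (k', e (t k') ⟨x.1, h'⟩) := by
      rintro k _ h h' rfl
      rfl
    exact h9 _ _ (hr1 x) hx this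
  choose x hx1 hx2 hx3 using h6
  have h7 : StrictMono fun i => (x i).1 := fun j i h => (hx2 j).trans_le (hx3 i ⟨j, h⟩)
  have h8 := mk_le_of_injective (f := fun i => (⟨x i, hx1 i⟩ : D f)) fun i j h =>
    h7.injective (congrArg (fun y : D f => y.1.1) h)
  exact absurd (hK.ge.trans h8) (not_le.2 (hD f))

theorem both : (∀ κ : Cardinal.{u}, ℵ₀ ≤ κ → Delta κ) ∧
    ∃ κ : Cardinal.{u}, ℵ₀ ≤ κ ∧ Delta κ ∧ κ < κ ^< κ := by
  refine ⟨delta, ℵ_ Ordinal.omega0, aleph0_le_aleph _, delta _ (aleph0_le_aleph _), ?_⟩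
  exact (lt_power_cof_ord (aleph0_le_aleph _)).trans_le
    (le_powerlt _ isSingular_aleph_omega0.cof_ord_lt)

end Pool.Agent.H83.WDelta
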