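import Pool.Agent.H83.Closing

set_option autoImplicit false

namespace Pool.Agent.H83.WeakLind

open Set Filter Topology

theorem exists_agree {κ : Type*} {X : Set (κ → Bool)} (hX : Dense X) (t : κ → Bool)
    (H : Finset κ) : ∃ x ∈ X, ∀ i ∈ H, x i = t i := by
  have ho : IsOpen (⋂ i ∈ H, {x : κ → Bool | x i = t i}) :=
    isOpen_biInter_finset fun i _ =>
      (isOpen_discrete ({t i} : Set Bool)).preimage
        (continuous_apply (A := fun _ : κ => Bool) i)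
  obtain ⟨x, hx1, hx2⟩ := hX.inter_open_nonempty _ ho ⟨t, by simp⟩
  exact ⟨x, hx2, by simpa using hx1⟩

theorem exists_rect {κ Y : Type*} [TopologicalSpace Y] {X : Set (κ → Bool)} {O : Set (X × Y)}
    (hO : IsOpen O) {x : X} {y : Y} (h : (x, y) ∈ O) :
    ∃ (G : Finset κ) (V : Set Y), IsOpen V ∧ y ∈ V ∧
      ∀ (x' : X) (y' : Y), (∀ i ∈ G, x'.1 i = x.1 i) → y' ∈ V → (x', y') ∈ O := by
  obtain ⟨A, V, hA, hV, hxA, hyV, hAV⟩ := isOpen_prod_iff.1 hO x y h
  obtain ⟨A', hA', rfl⟩ := isOpen_induced_iff.1 hA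
  obtain ⟨G, u, hu, hG⟩ := isOpen_pi_iff.1 hA' _ hxA
  refine ⟨G, V, hV, hyV, fun x' y' hx' hy' => hAV ⟨hG fun i hi => ?_, hy'⟩⟩
  rw [hx' i hi]; exact (hu i hi).2

/-- dense subspaces of Cantor cubes are productively weakly Lindelof -/
theorem prod_weak {κ Y : Type*} [TopologicalSpace Y] {X : Set (κ → Bool)} (hX : Dense X)
    (hY : ∀ 𝒰 : Set (Set Y), (∀ U ∈ 𝒰, IsOpen U) → ⋃₀ 𝒰 = univ →
      ∃ 𝒱 ⊆ 𝒰, 𝒱.Countable ∧ Dense (⋃₀ 𝒱))
    (𝒰 : Set (Set (X × Y))) (ho : ∀ U ∈ 𝒰, IsOpen U) (hc : ⋃₀ 𝒰 = univ) :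
    ∃ 𝒱 ⊆ 𝒰, 𝒱.Countable ∧ Dense (⋃₀ 𝒱) := by
  classical
  have h1 : ∀ z : X, ∃ c : Set (Finset κ × Set Y × Set (X × Y)), c.Countable ∧
      (∀ r ∈ c, r.2.2 ∈ 𝒰 ∧ ∀ (x' : X) (y' : Y), (∀ i ∈ r.1, x'.1 i = z.1 i) → y' ∈ r.2.1 →
        (x', y') ∈ r.2.2) ∧ Dense (⋃ r ∈ c, r.2.1) := by
    intro z
    have h2 : ∀ y : Y, ∃ r : Finset κ × Set Y × Set (X × Y), IsOpen r.2.1 ∧ y ∈ r.2.1 ∧
        r.2.2 ∈ 𝒰 ∧ ∀ (x' : X) (y' : Y), (∀ i ∈ r.1, x'.1 i = z.1 i) → y' ∈ r.2.1 →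
        (x', y') ∈ r.2.2 := by
      intro y
      obtain ⟨U, hU, hzU⟩ : (z, y) ∈ ⋃₀ 𝒰 := hc ▸ mem_univ _
      obtain ⟨G, V, h1, h2, h3⟩ := exists_rect (ho U hU) hzU
      exact ⟨(G, V, U), h1, h2, hU, h3⟩
    choose r hr1 hr2 hr3 using h2
    obtain ⟨𝒱, h𝒱, hcount, hd⟩ := hY (range fun y => (r y).2.1) (by rintro _ ⟨y, rfl⟩; exact hr1 y)
      (eq_univ_of_forall fun y => ⟨_, mem_range_self y, hr2 y⟩)
    choose g hg using h𝒱
    rcases 𝒱.eq_empty_or_nonempty with rfl | hne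
    · exact ⟨∅, countable_empty, by simp, by simpa using hd⟩
    refine ⟨(fun V : 𝒱 => r (g V.2)) '' univ, ?_, ?_, ?_⟩
    · have := hcount.to_subtype
      exact countable_univ.image _
    · rintro _ ⟨V, -, rfl⟩; exact hr3 _
    · refine hd.mono ?_
      rintro y ⟨V, hV, hy⟩
      refine mem_biUnion (mem_image_of_mem _ (mem_univ ⟨V, hV⟩)) ?_
      have := hg hV
      simp only at this
      rw [this]; exact hy
  choose c hc1 hc2 hc3 using h1
  have h3 : ∀ (F : Finset κ) (k : ℕ), ∃ Z : Set X,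
      (⋃ z ∈ Z, ⋃ r ∈ c z, (r.1 : Set κ)).Countable ∧
      (Z.Countable ∧ ∀ x : X, ∃ z ∈ Z, ∀ i ∈ F, z.1 i = x.1 i) := by
    intro F k
    choose w hw1 hw2 using fun p : F → Bool =>
      exists_agree hX (fun i => if h : i ∈ F then p ⟨i, h⟩ else false) F
    have hZ : (range fun p : F → Bool => (⟨w p, hw1 p⟩ : X)).Countable := countable_range _
    refine ⟨_, hZ.biUnion fun z _ => (hc1 z).biUnion fun r _ => r.1.countable_toSet, hZ, ?_⟩
    intro x
    refine ⟨_, mem_range_self (fun i : F => x.1 i), fun i hi => ?_⟩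
    simp only
    rw [hw2 _ i hi, dif_pos hi]
  obtain ⟨Z, F, hFm, -, hP, hex, -⟩ := Closing.closingOff
    (fun Z : Set X => ⋃ z ∈ Z, ⋃ r ∈ c z, (r.1 : Set κ)) _ h3
  refine ⟨⋃ k, ⋃ z ∈ Z k, (fun r => r.2.2) '' c z, ?_, ?_, ?_⟩
  · intro U hU
    simp only [mem_iUnion] at hU
    obtain ⟨k, z, -, r, hr, rfl⟩ := hU
    exact (hc2 z r hr).1
  · exact countable_iUnion fun k => (hP k).1.biUnion fun z _ => (hc1 z).image _
  · rw [dense_iff_inter_open]
    rintro O hO ⟨⟨x, y⟩, hxy⟩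
    obtain ⟨H, W, hW, hyW, hHW⟩ := exists_rect hO hxy
    obtain ⟨k, hk⟩ : ∃ k, ((H.filter fun i => ∃ k, i ∈ F k : Finset κ) : Set κ) ⊆ F k := by
      refine Directed.exists_mem_subset_of_finset_subset_biUnion
        (f := fun k => (F k : Set κ)) (fun a b => ⟨max a b, ?_, ?_⟩) ?_
      · exact Finset.coe_subset.2 (hFm (le_max_left a b))
      · exact Finset.coe_subset.2 (hFm (le_max_right a b))
      · intro i hi
        simpa using (Finset.mem_filter.1 hi).2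
    obtain ⟨z, hz, hzx⟩ := (hP k).2 x
    obtain ⟨y', hy'W, hy'⟩ := (hc3 z).inter_open_nonempty W hW ⟨y, hyW⟩
    simp only [mem_iUnion] at hy'
    obtain ⟨r, hr, hy'r⟩ := hy'
    obtain ⟨x', hx', hx'a⟩ := exists_agree hX (fun i => if i ∈ r.1 then z.1 i else x.1 i) (r.1 ∪ H)
    refine ⟨(⟨x', hx'⟩, y'), hHW _ _ (fun i hi => ?_) hy'W, r.2.2, ?_, ?_⟩
    · simp only
      rw [hx'a i (Finset.mem_union_right _ hi)]
      split_ifs with h
      · refine hzx i (hk (Finset.mem_filter.2 ⟨hi, hex k i ?_⟩))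
        simp only [mem_iUnion]
        exact ⟨z, hz, r, hr, h⟩
      · rfl
    · simp only [mem_iUnion]
      exact ⟨k, z, hz, r, hr, rfl⟩
    · refine (hc2 z r hr).2 _ _ (fun i hi => ?_) hy'r
      simp only
      rw [hx'a i (Finset.mem_union_left _ hi), if_pos hi]

/-- index set -/
abbrev J : Type := ℕ → Bool

theorem exists_psi : ∃ ψ : (ℕ × ℕ → Bool) → Finset J, ∀ (A : Finset J) (t : ℕ × ℕ → Bool)
    (H : Finset (ℕ × ℕ)), ∃ y, ψ y = A ∧ ∀ i ∈ H, y i = t i := by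
  classical
  obtain ⟨e⟩ : Nonempty (J ≃ Finset J) := Cardinal.eq.1 (Cardinal.mk_finset_of_infinite J).symm
  refine ⟨fun y => e fun n => decide (∀ᶠ m in atTop, y (n, m) = true), fun A t H => ?_⟩
  refine ⟨fun i => if i ∈ H then t i else e.symm A i.1, ?_, fun i hi => if_pos hi⟩
  rw [← Equiv.eq_symm_apply]
  funext n
  have : ∀ᶠ m in atTop, (n, m) ∉ H := by
    filter_upwards [eventually_gt_atTop (H.sup fun i => i.2)] with m hm h
    exact absurd (Finset.le_sup (f := fun i : ℕ × ℕ => i.2) h) (not_le.2 hm)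
  cases h : e.symm A n
  · rw [decide_eq_false_iff_not]
    intro h'
    obtain ⟨m, h1, h2⟩ := (this.and h').exists
    simp [h1, h] at h2
  · rw [decide_eq_true_iff]
    filter_upwards [this] with m hm
    simp [hm, h]

open Classical in
/-- the graph space -/
def X (ψ : (ℕ × ℕ → Bool) → Finset J) : Set (J ⊕ ℕ × ℕ → Bool) :=
  {x | ∀ j, x (Sum.inl j) = decide (j ∈ ψ (x ∘ Sum.inr))}

variable {ψ : (ℕ × ℕ → Bool) → Finset J}

theorem dense_X (hψ : ∀ (A : Finset J) (t : ℕ × ℕ → Bool)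
    (H : Finset (ℕ × ℕ)), ∃ y, ψ y = A ∧ ∀ i ∈ H, y i = t i) : Dense (X ψ) := by
  classical
  rw [dense_iff_inter_open]
  rintro U hU ⟨t, ht⟩
  obtain ⟨G, u, hu, hG⟩ := isOpen_pi_iff.1 hU _ ht
  obtain ⟨y, hy1, hy2⟩ := hψ (G.toLeft.filter fun j => t (Sum.inl j) = true) (t ∘ Sum.inr) G.toRight
  refine ⟨Sum.elim (fun j => decide (j ∈ ψ y)) y, hG fun i hi => ?_, fun j => ?_⟩
  · have : Sum.elim (fun j => decide (j ∈ ψ y)) y i = t i := by
      rcases i with j | m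
      · have : j ∈ G.toLeft := Finset.mem_toLeft.2 hi
        simp only [Sum.elim_inl, hy1, Finset.mem_filter, this, true_and]
        simp
      · exact hy2 m (Finset.mem_toRight.2 hi)
    rw [this]; exact (hu i hi).2
  · simp only [Sum.elim_inl, Sum.elim_comp_inr]
    congr

/-- the projection -/
def pr (ψ : (ℕ × ℕ → Bool) → Finset J) (x : X ψ) : ℕ × ℕ → Bool := x.1 ∘ Sum.inr

theorem pr_cont : Continuous (pr ψ) :=
  continuous_pi fun i => (continuous_apply (Sum.inr i)).comp continuous_subtype_val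

theorem pr_inj : Function.Injective (pr ψ) := by
  intro x y h
  refine Subtype.ext (funext fun i => ?_)
  rcases i with j | m
  · rw [x.2 j, y.2 j]
    simp only [pr] at h
    rw [h]
  · exact congrFun h m

theorem compact_gdelta {C : Set (X ψ)} (hC : IsCompact C) : IsGδ C := by
  rw [← preimage_image_eq C pr_inj]
  exact (hC.image pr_cont).isClosed.isGδ.preimage pr_cont

theorem compact_supp {C : Set (X ψ)} (hC : IsCompact C) :
    {j : J | ∃ x ∈ C, x.1 (Sum.inl j) = true}.Countable := by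
  classical
  have : CompactSpace C := isCompact_iff_compactSpace.1 hC
  have he : IsEmbedding (pr ψ ∘ ((↑) : C → X ψ)) :=
    ((pr_cont.comp continuous_subtype_val).isClosedEmbedding
      (pr_inj.comp Subtype.val_injective)).isEmbedding
  have := he.secondCountableTopology
  obtain ⟨D, hD, hd⟩ := TopologicalSpace.exists_countable_dense C
  refine (hD.biUnion fun d _ => (ψ (pr ψ d.1)).countable_toSet).mono ?_
  rintro j ⟨x, hx, hj⟩
  have hcont : Continuous fun d : C => d.1.1 (Sum.inl j) :=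
    (continuous_apply (A := fun _ : J ⊕ ℕ × ℕ => Bool) (Sum.inl j)).comp
      (continuous_subtype_val.comp continuous_subtype_val)
  obtain ⟨d, hd1, hd2⟩ := hd.inter_open_nonempty _
    ((isOpen_discrete ({true} : Set Bool)).preimage hcont) ⟨⟨x, hx⟩, hj⟩
  refine mem_biUnion hd2 ?_
  have := d.1.2 j
  simp only [mem_preimage, mem_singleton_iff] at hd1
  rw [hd1] at this
  simpa [pr] using this

theorem not_dense (hX : Dense (X ψ)) {𝒱 : Set (Set (X ψ))} (h : ∀ C ∈ 𝒱, IsCompact C)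
    (hc : 𝒱.Countable) : ¬ Dense (⋃₀ 𝒱) := by
  intro hd
  have h1 := hc.biUnion fun C hC => compact_supp (h C hC)
  obtain ⟨j, hj⟩ : ∃ j, j ∉ ⋃ C ∈ 𝒱, {j : J | ∃ x ∈ C, x.1 (Sum.inl j) = true} := by
    by_contra h'
    push Not at h'
    rw [eq_univ_of_forall h'] at h1
    have : Uncountable J := by
      rw [← Cardinal.aleph0_lt_mk_iff]
      simp [Cardinal.aleph0_lt_continuum]
    exact not_countable_univ h1
  have hcont : Continuous fun d : X ψ => d.1 (Sum.inl j) :=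
    (continuous_apply (A := fun _ : J ⊕ ℕ × ℕ => Bool) (Sum.inl j)).comp continuous_subtype_val
  obtain ⟨x, hx, hx'⟩ := exists_agree hX (fun _ => true) {Sum.inl j}
  obtain ⟨d, hd1, C, hC, hd2⟩ := hd.inter_open_nonempty _
    ((isOpen_discrete ({true} : Set Bool)).preimage hcont) ⟨⟨x, hx⟩, hx' _ (by simp)⟩
  exact hj (mem_biUnion hC ⟨d, hd2, hd1⟩)

end Pool.Agent.H83.WeakLind
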