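import Pool.Agent.H83.WeiDefs
import Pool.Agent.H37.NF

/-! A uniform colouring of pairs without homogeneous set computable in the oracle. -/

set_option autoImplicit false

namespace Pool.Agent.H83.Wei

open Pool.Agent.H37

theorem compOn_first (a : List ℕ → ℕ → Option ℕ) (ha : CI ∅ fun q : List ℕ × ℕ => a q.1 q.2) :
    ∃ F : (ℕ → ℕ) → ℕ → ℕ, CompOn F {p | ∀ n, ∃ k, (a (ini p k) n).isSome} ∧
      ∀ p n, (∃ k, (a (ini p k) n).isSome) → ∃ k, a (ini p k) n = some (F p n) := by
  classical
  let φ : List ℕ → ℕ → Option ℕ := fun σ n =>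
    ((List.range (σ.length + 1)).filterMap fun k => a (σ.take k) n).head?
  have mon : ∀ σ τ n v, σ <+: τ → φ σ n = some v → φ τ n = some v := by
    rintro σ τ n v ⟨ρ, rfl⟩ h
    simp only [φ] at h ⊢
    rw [List.length_append, add_right_comm, List.range_add, List.filterMap_append,
      List.filterMap_congr (g := fun k => a (σ.take k) n) fun k hk => by
        rw [List.take_append_of_le_length]
        have := List.mem_range.1 hk
        omega]
    rw [List.head?_append, h]; rfl
  have h1 : ∀ p n, (∃ k, (a (ini p k) n).isSome) → ∃ v, (∃ k, φ (ini p k) n = some v) ∧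
      ∃ k, a (ini p k) n = some v := by
    rintro p n ⟨k, hk⟩
    obtain ⟨w, hw⟩ := Option.isSome_iff_exists.1 hk
    have h2 : w ∈ (List.range ((pre p k).length + 1)).filterMap fun j => a ((pre p k).take j) n :=
      List.mem_filterMap.2 ⟨k, by simp, by rw [take_pre p le_rfl]; exact hw⟩
    have h3 := List.head?_eq_some_head (List.ne_nil_of_mem h2)
    refine ⟨_, ⟨k, h3⟩, ?_⟩
    obtain ⟨j, hj, h4⟩ := List.mem_filterMap.1 (List.mem_of_mem_head? h3)
    rw [take_pre p (by simpa [Nat.lt_succ_iff] using hj)] at h4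
    exact ⟨j, h4⟩
  choose! F f1 f2 using h1
  refine ⟨F, ⟨φ, ?_, mon, fun p hp n => f1 p n (hp n)⟩, f2⟩
  refine CI.computable (f := fun q : List ℕ × ℕ => φ q.1 q.2) ?_
  simp only [φ]
  refine CI.head? (CI.filterMap ?_ (by fun_prop))
  exact ha.comp (g := fun q : (List ℕ × ℕ) × ℕ => (q.1.1.take q.2, q.1.2)) (by fun_prop)

def stp (σ : List ℕ) (s : List ℕ × List ℕ) (e : ℕ) : List ℕ × List ℕ :=
  ((((List.range σ.length).filter fun x =>
    U e σ x == some 1 && !s.1.contains x && !s.2.contains x).take 1) ++ s.1,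
  ((((List.range σ.length).filter fun x =>
    U e σ x == some 1 && !s.1.contains x && !s.2.contains x).drop 1).take 1) ++ s.2)

/-- colour of the pair `x`, `σ.length` -/
def spk (σ : List ℕ) (x : ℕ) : ℕ :=
  (((List.range σ.length).foldl (stp σ) ([], [])).2.contains x).toNat

@[fun_prop] theorem ci_spk {α : Type} [Primcodable α] {O : Set (ℕ →. ℕ)} {σ : α → List ℕ}
    {x : α → ℕ} (hσ : CI O σ) (hx : CI O x) : CI O fun a => spk (σ a) (x a) := by
  unfold spk stp; fun_prop

theorem spk_le (σ : List ℕ) (x : ℕ) : spk σ x ≤ 1 := Bool.toNat_le _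

theorem stp_inv (σ : List ℕ) (n : ℕ) :
    ((List.range n).foldl (stp σ) ([], [])).1.length ≤ n ∧
    ((List.range n).foldl (stp σ) ([], [])).2.length ≤ n ∧
    (∀ x ∈ ((List.range n).foldl (stp σ) ([], [])).1,
      x ∉ ((List.range n).foldl (stp σ) ([], [])).2) ∧
    ∀ e < n, ∀ T : Finset ℕ, 2 * e + 2 ≤ T.card → (∀ x ∈ T, x < σ.length ∧ U e σ x = some 1) →
      ∃ a ∈ ((List.range n).foldl (stp σ) ([], [])).1,
      ∃ b ∈ ((List.range n).foldl (stp σ) ([], [])).2,
        (a < σ.length ∧ U e σ a = some 1) ∧ b < σ.length ∧ U e σ b = some 1 := by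
  induction n with
  | zero => simp
  | succ n ih =>
    rw [List.range_succ, List.foldl_append, List.foldl_cons, List.foldl_nil]
    generalize (List.range n).foldl (stp σ) ([], []) = s at ih ⊢
    obtain ⟨h1, h2, h3, h4⟩ := ih
    unfold stp
    have hm : ∀ x, x ∈ ((List.range σ.length).filter fun x =>
        U n σ x == some 1 && !s.1.contains x && !s.2.contains x) ↔
        (x < σ.length ∧ U n σ x = some 1) ∧ x ∉ s.1 ∧ x ∉ s.2 := by
      intro x; simp [and_assoc]
    have hn : ((List.range σ.length).filter fun x =>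
        U n σ x == some 1 && !s.1.contains x && !s.2.contains x).Nodup :=
      List.nodup_range.filter _
    generalize ((List.range σ.length).filter fun x =>
        U n σ x == some 1 && !s.1.contains x && !s.2.contains x) = l at hm hn ⊢
    have old : ∀ e < n, ∀ T : Finset ℕ, 2 * e + 2 ≤ T.card →
        (∀ x ∈ T, x < σ.length ∧ U e σ x = some 1) →
        ∃ a ∈ l.take 1 ++ s.1, ∃ b ∈ (l.drop 1).take 1 ++ s.2,
          (a < σ.length ∧ U e σ a = some 1) ∧ b < σ.length ∧ U e σ b = some 1 := by
      intro e he T t1 t2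
      obtain ⟨a, a1, b, b1, h⟩ := h4 e he T t1 t2
      exact ⟨a, List.mem_append_right _ a1, b, List.mem_append_right _ b1, h⟩
    have card : ∀ T : Finset ℕ, (∀ x ∈ T, x < σ.length ∧ U n σ x = some 1) →
        T.card ≤ l.length + 2 * n := by
      intro T t2
      have : T ⊆ (l ++ (s.1 ++ s.2)).toFinset := by
        intro x hx
        have := hm x
        have := t2 x hx
        simp only [List.mem_toFinset, List.mem_append]
        tauto
      have := (Finset.card_le_card this).trans (List.toFinset_card_le _)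
      simp only [List.length_append] at this
      omega
    rcases l with _ | ⟨a, _ | ⟨b, l⟩⟩
    · refine ⟨by simp; omega, by simp; omega, by simpa using h3, fun e he T t1 t2 => ?_⟩
      rcases Nat.lt_succ_iff_lt_or_eq.1 he with he | rfl
      · exact old e he T t1 t2
      · have := card T t2
        simp at this; omega
    · have ha := (hm a).1 (by simp)
      refine ⟨by simp; omega, by simp; omega, ?_, fun e he T t1 t2 => ?_⟩
      · simpa using ⟨ha.2.2, h3⟩
      rcases Nat.lt_succ_iff_lt_or_eq.1 he with he | rfl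
      · exact old e he T t1 t2
      · have := card T t2
        simp at this; omega
    · have ha := (hm a).1 (by simp)
      have hb := (hm b).1 (by simp)
      have hab : a ≠ b := by
        intro h; rw [h] at hn; simp at hn
      refine ⟨by simp; omega, by simp; omega, ?_, fun e he T t1 t2 => ?_⟩
      · intro x hx hx'
        simp only [List.take_succ_cons, List.take_zero, List.drop_succ_cons, List.drop_zero,
          List.singleton_append, List.mem_cons] at hx hx'
        rcases hx with rfl | hx <;> rcases hx' with h | hx'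
        · exact hab h
        · exact ha.2.2 hx'
        · exact hb.2.1 (h ▸ hx)
        · exact h3 x hx hx'
      rcases Nat.lt_succ_iff_lt_or_eq.1 he with he | rfl
      · exact old e he T t1 t2
      · exact ⟨a, by simp, b, by simp, ha.1, hb.1⟩

theorem specker (p h : ℕ → ℕ) (hc : CI (orc p) h) (hi : {n | h n = 1}.Infinite) :
    ∃ a b y, h a = 1 ∧ h b = 1 ∧ h y = 1 ∧ a < y ∧ b < y ∧ spk (pre p y) a ≠ spk (pre p y) b := by
  obtain ⟨e, he⟩ := exists_app_tot hc
  obtain ⟨T, t1, t2⟩ := hi.exists_subset_card_eq (2 * e + 2)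
  have : ∀ᶠ y in Filter.atTop, ∀ x ∈ T, x < y ∧ U e (pre p y) x = some 1 :=
    (Finset.eventually_all T).2 fun x hx => (Filter.eventually_gt_atTop x).and (by
      have := mem_app'.1 (he x)
      rwa [show h x = 1 from t1 hx] at this)
  obtain ⟨N, hN⟩ := Filter.eventually_atTop.1 this
  obtain ⟨y, y1, y2⟩ := hi.exists_gt (max N e)
  obtain ⟨-, -, h3, h4⟩ := stp_inv (pre p y) (pre p y).length
  obtain ⟨a, a1, b, b1, ⟨a2, a3⟩, b2, b3⟩ := h4 e (by simp; omega) T t2.ge (by
    simpa using hN y (by omega))
  rw [length_pre] at a2 b2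
  refine ⟨a, b, y, Part.mem_unique (he a) (mem_app.2 ⟨y, a3⟩),
    Part.mem_unique (he b) (mem_app.2 ⟨y, b3⟩), y1, a2, b2, ?_⟩
  unfold spk
  rw [List.contains_iff_mem.2 b1, Bool.eq_false_iff.2 fun h => h3 a a1 (List.contains_iff_mem.1 h)]
  decide

end Pool.Agent.H83.Wei
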