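import Mathlib

/-! Computable maps on Baire space and problems in the sense of Weihrauch reducibility. -/

set_option autoImplicit false

namespace Pool.Agent.H83.Wei

/-- the initial segment of length `k` -/
def ini (p : ℕ → ℕ) (k : ℕ) : List ℕ := (List.range k).map p

/-- `F` restricted to `D` is a computable map: it is approximated by a computable monotone
function of finite words -/
def CompOn (F : (ℕ → ℕ) → ℕ → ℕ) (D : Set (ℕ → ℕ)) : Prop :=
  ∃ φ : List ℕ → ℕ → Option ℕ, Computable₂ φ ∧
    (∀ σ τ n v, σ <+: τ → φ σ n = some v → φ τ n = some v) ∧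
    ∀ p ∈ D, ∀ n, ∃ k, φ (ini p k) n = some (F p n)

/-- the standard pairing of two sequences -/
def join (p q : ℕ → ℕ) : ℕ → ℕ := fun n => if n % 2 = 0 then p (n / 2) else q (n / 2)

/-- a problem: a set of instances and, for each instance, a set of solutions -/
structure Problem where
  dom : Set (ℕ → ℕ)
  sol : (ℕ → ℕ) → Set (ℕ → ℕ)

end Pool.Agent.H83.Wei
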