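import Mathlib

set_option autoImplicit false

namespace Pool.Agent.H83.ZSet

open Set Filter Topology Metric

theorem seq_choice {α : Type*} (P : ℕ → α → Prop) (R : α → α → Prop)
    (h : ∀ n (s : Finset α), (∀ x ∈ s, ∃ k, P k x) → ∃ y, P n y ∧ ∀ x ∈ s, R x y) :
    ∃ f : ℕ → α, (∀ n, P n (f n)) ∧ ∀ m n, m < n → R (f m) (f n) := by
  classical
  have h' : ∀ n (s : Finset α), ∃ y, (∀ x ∈ s, ∃ k, P k x) → P n y ∧ ∀ x ∈ s, R x y := by
    intro n s
    by_cases hs : ∀ x ∈ s, ∃ k, P k x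
    · exact (h n s hs).imp fun y hy _ => hy
    · exact ⟨(h 0 ∅ (by simp)).choose, fun h' => (hs h').elim⟩
  choose g hg using h'
  let S : ℕ → Finset α := fun n => Nat.rec ∅ (fun n s => insert (g n s) s) n
  have hS : ∀ n, ∀ x ∈ S n, ∃ k, P k x := by
    intro n
    induction n with
    | zero => simp [S]
    | succ n ih =>
      intro x hx
      rcases Finset.mem_insert.1 hx with rfl | hx
      exacts [⟨n, (hg n _ ih).1⟩, ih x hx]
  have hmono : Monotone S := monotone_nat_of_le_succ fun n => Finset.subset_insert _ _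
  exact ⟨fun n => g n (S n), fun n => (hg n _ (hS n)).1, fun m n hmn =>
    (hg n _ (hS n)).2 _ (hmono hmn (Finset.mem_insert_self _ _))⟩

abbrev I : Type := Set.Icc (0 : ℝ) 1
abbrev S : Type := {f : C(I, I) // Function.Surjective ⇑f}

theorem sphere_finite (p : I) (r : ℝ) : {y : I | dist y p = r}.Finite := by
  refine ((toFinite ({p.1 + r, p.1 - r} : Set ℝ)).preimage Subtype.val_injective.injOn).subset
    fun y hy => ?_
  have : |y.1 - p.1| = r := hy
  rcases abs_cases (y.1 - p.1) with h | h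
  · left; linarith [h.1]
  · right; change y.1 = _; linarith [h.1]

theorem ball_infinite (x : I) {r : ℝ} (hr : 0 < r) : (ball x r).Infinite :=
  infinite_of_mem_nhds x (ball_mem_nhds x hr)

theorem patch (ε : S → ℝ) (hε : Continuous ε) (hpos : ∀ g, 0 < ε g) (f₀ : S) :
    ∃ (x a b : I) (r : ℝ), 0 < r ∧ ∀ᶠ f : S in 𝓝 f₀,
      (∀ y ∈ ball x r, ∀ z ∈ ball x r, |(z : ℝ) - f.1 y| ≤ ε f / 2) ∧
      (1 + ε f) * f.1 a - ε f / 2 < 0 ∧ 1 < (1 + ε f) * f.1 b - ε f / 2 := by
  obtain ⟨x, hx⟩ : ∃ x : I, (x : ℝ) = f₀.1 x := intermediate_value_univ₂ (a := 0) (b := 1)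
    continuous_subtype_val (continuous_subtype_val.comp f₀.1.continuous) (f₀.1 0).2.1 (f₀.1 1).2.2
  obtain ⟨a, ha⟩ := f₀.2 0
  obtain ⟨b, hb⟩ := f₀.2 1
  have he := hpos f₀
  obtain ⟨r, hr, hr'⟩ := Metric.continuousAt_iff.1 (f₀.1.continuous.continuousAt (x := x))
    (ε f₀ / 16) (by positivity)
  have hev : ∀ c : I, Continuous fun f : S => (f.1 c : ℝ) := fun c => by fun_prop
  refine ⟨x, a, b, min r (ε f₀ / 16), by positivity, ?_⟩
  have h1 : ∀ᶠ f : S in 𝓝 f₀, (1 + ε f) * f.1 a - ε f / 2 < 0 :=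
    ContinuousAt.eventually_lt (by fun_prop) continuousAt_const (by simp [ha, he])
  have h2 : ∀ᶠ f : S in 𝓝 f₀, 1 < (1 + ε f) * f.1 b - ε f / 2 :=
    ContinuousAt.eventually_lt continuousAt_const (by fun_prop) (by simp [hb]; linarith)
  have h3 : ∀ᶠ f : S in 𝓝 f₀, ε f₀ / 2 < ε f :=
    ContinuousAt.eventually_lt continuousAt_const hε.continuousAt (by linarith)
  filter_upwards [h1, h2, h3, ball_mem_nhds f₀ (show 0 < ε f₀ / 16 by positivity)]
    with f h1 h2 h3 h4
  refine ⟨fun y hy z hz => ?_, h1, h2⟩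
  have e1 : |(f.1 y : ℝ) - f₀.1 y| < ε f₀ / 16 :=
    (ContinuousMap.dist_apply_le_dist (f := f.1) (g := f₀.1) y).trans_lt h4
  have e2 : |(f₀.1 y : ℝ) - f₀.1 x| < ε f₀ / 16 := hr' (hy.trans_le (min_le_left _ _))
  have e3 : |(z : ℝ) - x| < ε f₀ / 16 := hz.trans_le (min_le_right _ _)
  rw [abs_lt] at e1 e2 e3
  rw [abs_le]
  constructor <;> linarith [e1.1, e1.2, e2.1, e2.2, e3.1, e3.2]

theorem spots (x a b : ℕ → I) (r : ℕ → ℝ) (hr : ∀ n, 0 < r n) :
    ∃ (p : ℕ → I) (η : ℕ → ℝ), (∀ n, 0 < η n) ∧ (∀ n, ball (p n) (η n) ⊆ ball (x n) (r n)) ∧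
      (∀ k n, k ≤ n → a k ∉ ball (p n) (η n) ∧ b k ∉ ball (p n) (η n)) ∧
      ∀ k n, k < n → ball (p n) (η n) ⊆ ball (p k) (η k / 2) ∨
        Disjoint (ball (p n) (η n)) (closedBall (p k) (η k / 2)) := by
  obtain ⟨f, h1, h2⟩ := seq_choice (α := I × ℝ)
    (fun n q => 0 < q.2 ∧ ball q.1 q.2 ⊆ ball (x n) (r n) ∧
      ∀ k ≤ n, a k ∉ ball q.1 q.2 ∧ b k ∉ ball q.1 q.2)
    (fun q q' => ball q'.1 q'.2 ⊆ ball q.1 (q.2 / 2) ∨
      Disjoint (ball q'.1 q'.2) (closedBall q.1 (q.2 / 2))) (fun n s _ => by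
    have hF : (a '' Iic n ∪ b '' Iic n).Finite :=
      ((finite_le_nat n).image a).union ((finite_le_nat n).image b)
    obtain ⟨p, hp, hp'⟩ := (ball_infinite (x n) (hr n)).exists_notMem_finite (hF.union
      (s.finite_toSet.biUnion fun q _ => sphere_finite q.1 (q.2 / 2)))
    have e1 : ∀ᶠ y in 𝓝 p, y ∈ ball (x n) (r n) ∧ y ∉ a '' Iic n ∪ b '' Iic n :=
      (isOpen_ball.eventually_mem hp).and
        (hF.isClosed.isOpen_compl.mem_nhds fun h => hp' (Or.inl h))
    have e2 : ∀ q ∈ s, ∀ᶠ y in 𝓝 p, (dist p q.1 < q.2 / 2 → dist y q.1 < q.2 / 2) ∧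
        (q.2 / 2 < dist p q.1 → q.2 / 2 < dist y q.1) := fun q _ => by
      refine (eventually_imp_distrib_left.2 fun h => ?_).and (eventually_imp_distrib_left.2 fun h => ?_)
      · exact ContinuousAt.eventually_lt (by fun_prop) continuousAt_const h
      · exact ContinuousAt.eventually_lt continuousAt_const (by fun_prop) h
    obtain ⟨η, hη, h⟩ := Metric.mem_nhds_iff.1 (e1.and ((eventually_all_finset s).2 e2))
    refine ⟨(p, η), ⟨hη, fun y hy => (h hy).1.1, fun k hk =>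
      ⟨fun hy => (h hy).1.2 (Or.inl ⟨k, hk, rfl⟩), fun hy => (h hy).1.2 (Or.inr ⟨k, hk, rfl⟩)⟩⟩,
      fun q hq => ?_⟩
    rcases lt_trichotomy (dist p q.1) (q.2 / 2) with h' | h' | h'
    · exact Or.inl fun y hy => ((h hy).2 q hq).1 h'
    · exact (hp' (Or.inr (mem_biUnion hq h'))).elim
    · exact Or.inr (disjoint_left.2 fun y hy hy' => (((h hy).2 q hq).2 h').not_ge hy'))
  exact ⟨fun n => (f n).1, fun n => (f n).2, fun n => (h1 n).1, fun n => (h1 n).2.1,
    fun k n h => (h1 n).2.2 k h, h2⟩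

noncomputable def clamp : C(ℝ, I) := ⟨projIcc 0 1 zero_le_one, continuous_projIcc⟩

def val : C(I, ℝ) := ⟨Subtype.val, continuous_subtype_val⟩

theorem main (ε : S → ℝ) (hε : Continuous ε) (hpos : ∀ g, 0 < ε g) :
    ∃ φ : S → S, Continuous φ ∧ ∀ g, dist (φ g) g < ε g ∧
      ∃ (p : I) (η : ℝ) (a : I), 0 < η ∧ a ∉ closedBall p η ∧
        MapsTo (φ g).1 (closedBall p η) (ball p η) := by
  classical
  choose x a b r hr hU using patch ε hε hpos
  obtain ⟨s, hs, hcov⟩ := TopologicalSpace.countable_cover_nhds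
    (f := fun f₀ => interior _) fun f₀ => interior_mem_nhds.2 (hU f₀)
  obtain ⟨c, rfl⟩ := hs.exists_eq_range (by
    obtain ⟨f, hf, -⟩ := mem_iUnion₂.1 (hcov.ge (mem_univ ⟨ContinuousMap.id _, fun y => ⟨y, rfl⟩⟩))
    exact ⟨f, hf⟩)
  rw [biUnion_range] at hcov
  obtain ⟨t, ht⟩ := BumpCovering.exists_isSubordinate isClosed_univ _
    (fun _ => isOpen_interior) hcov.ge
  have hact : ∀ i f, t i f ≠ 0 →
      (∀ y ∈ ball (x (c i)) (r (c i)), ∀ z ∈ ball (x (c i)) (r (c i)),
        |(z : ℝ) - f.1 y| ≤ ε f / 2) ∧ (1 + ε f) * f.1 (a (c i)) - ε f / 2 < 0 ∧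
        1 < (1 + ε f) * f.1 (b (c i)) - ε f / 2 :=
    fun i f h => by
      have := interior_subset (ht i (subset_tsupport _ h))
      exact this
  obtain ⟨p, η, hη, hpx, hab, hnest⟩ := spots (x ∘ c) (a ∘ c) (b ∘ c) (r ∘ c) fun n => hr _
  have : ∀ n, ∃ ψ : C(I, ℝ), EqOn ψ 0 (ball (p n) (η n))ᶜ ∧ EqOn ψ 1 (closedBall (p n) (η n / 2)) ∧
      ∀ y, ψ y ∈ Icc (0 : ℝ) 1 := fun n =>
    exists_continuous_zero_one_of_isClosed isOpen_ball.isClosed_compl isClosed_closedBall
      (disjoint_left.2 fun y h h' => h (closedBall_subset_ball (half_lt_self (hη n)) h'))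
  choose ψ hψ0 hψ1 hψ using this
  let G : ℕ → S → C(I, ℝ) := fun n => Nat.rec
    (fun f => (val.comp clamp).comp ((1 + ε f) • val.comp f.1 - ContinuousMap.const _ (ε f / 2)))
    (fun n g f => g f + t n f • (ψ n * (ContinuousMap.const _ (p n : ℝ) - g f))) n
  have hG0 : ∀ f y, G 0 f y = projIcc 0 1 zero_le_one ((1 + ε f) * f.1 y - ε f / 2) :=
    fun f y => rfl
  have hGs : ∀ n f y, G (n + 1) f y =
      (1 - t n f * ψ n y) * G n f y + (t n f * ψ n y) * p n := fun n f y => by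
    change G n f y + t n f * (ψ n y * (p n - G n f y)) = _
    ring
  have hGc : ∀ n, Continuous (G n) := by
    intro n
    induction n with
    | zero =>
      refine (ContinuousMap.continuous_postcomp _).comp (Continuous.sub (Continuous.smul (continuous_const.add hε)
        ((ContinuousMap.continuous_postcomp _).comp continuous_subtype_val)) ?_)
      exact ContinuousMap.continuous_const'.comp (by fun_prop)
    | succ n ih =>
      exact ih.add ((t n).continuous.smul (continuous_const.mul (continuous_const.sub ih)))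
  have hstep : ∀ {C : Set ℝ}, Convex ℝ C → ∀ n f y, G n f y ∈ C →
      (t n f ≠ 0 → y ∈ ball (p n) (η n) → (p n : ℝ) ∈ C) → G (n + 1) f y ∈ C := by
    intro C hC n f y h1 h2
    rw [hGs]
    by_cases h : t n f * ψ n y = 0
    · rw [h]; simpa using h1
    · have h3 := mul_ne_zero_iff.1 h
      have h4 : t n f * ψ n y ≤ 1 := mul_le_one₀ (t.le_one n f) (hψ n y).1 (hψ n y).2
      exact hC h1 (h2 h3.1 (by_contra fun h => h3.2 (hψ0 n h))) (by linarith)
        (mul_nonneg (t.nonneg n f) (hψ n y).1) (by ring)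
  have hI : ∀ n f y, G n f y ∈ Icc (0 : ℝ) 1 := by
    intro n f y
    induction n with
    | zero => exact Subtype.prop _
    | succ n ih => exact hstep (convex_Icc 0 1) n f y ih fun _ _ => (p n).2
  have hclose : ∀ n f y, G n f y ∈ closedBall (f.1 y : ℝ) (ε f / 2) := by
    intro n f y
    induction n with
    | zero =>
      rw [mem_closedBall, hG0, Real.dist_eq]
      have h1 := Set.abs_projIcc_sub_projIcc (h := zero_le_one (α := ℝ))
        (c := (1 + ε f) * f.1 y - ε f / 2) (d := f.1 y)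
      rw [projIcc_val] at h1
      refine h1.trans (abs_le.2 ⟨?_, ?_⟩) <;>
        nlinarith [(f.1 y).2.1, (f.1 y).2.2, hpos f]
    | succ n ih =>
      exact hstep (convex_closedBall _ _) n f y ih fun h hy =>
        (hact n f h).1 y (hpx n hy) _ (hpx n (mem_ball_self (hη n)))
  have hsurj : ∀ f, ∃ u v, ∀ n, G n f u = 0 ∧ G n f v = 1 := fun f => by
    have hex : ∃ i, t i f ≠ 0 := ⟨t.ind f trivial, by rw [t.ind_apply]; exact one_ne_zero⟩
    refine ⟨a (c (Nat.find hex)), b (c (Nat.find hex)), fun n => ?_⟩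
    induction n with
    | zero =>
      have := hact _ f (Nat.find_spec hex)
      rw [hG0, hG0, projIcc_of_le_left _ this.2.1.le, projIcc_of_right_le _ this.2.2.le]
      exact ⟨rfl, rfl⟩
    | succ n ih =>
      exact ⟨hstep (convex_singleton _) n f _ ih.1 fun h hy =>
        ((hab _ n (Nat.find_min' hex h)).1 hy).elim, hstep (convex_singleton _) n f _ ih.2
          fun h hy => ((hab _ n (Nat.find_min' hex h)).2 hy).elim⟩
  have htrap : ∀ f j, t j f = 1 → ∀ n, j < n → ∀ y ∈ closedBall (p j) (η j / 2),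
      G n f y ∈ ball (p j : ℝ) (η j / 2) := by
    intro f j hj n hn y hy
    induction hn with
    | refl =>
      rw [hGs, hj, hψ1 j hy]
      simpa using hη j
    | step hn ih =>
      refine hstep (convex_ball _ _) _ f y ih fun _ hy' => ?_
      rcases hnest j _ hn with h | h
      · exact h (mem_ball_self (hη _))
      · exact (disjoint_left.1 h hy' hy).elim
  obtain ⟨F, hF⟩ := LocallyFinite.exists_forall_eventually_atTop_eventuallyEq (f := G)
    (t.locallyFinite.subset fun n f hf h0 => hf (by ext y; rw [hGs, h0]; simp))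
  have hFc : Continuous F := continuous_iff_continuousAt.2 fun f => by
    obtain ⟨n, hn⟩ := (hF f).exists
    exact (hGc n).continuousAt.congr hn
  have hFn : ∀ f j, ∃ n, j < n ∧ F f = G n f := fun f j => by
    obtain ⟨n, h1, h2⟩ := ((eventually_gt_atTop j).and (hF f)).exists
    exact ⟨n, h1, h2.self_of_nhds.symm⟩
  have hval : ∀ f y, ((clamp.comp (F f)) y : ℝ) = F f y := fun f y => by
    obtain ⟨n, -, e⟩ := hFn f 0
    change (projIcc 0 1 zero_le_one (F f y) : ℝ) = _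
    rw [projIcc_of_mem _ (e ▸ hI n f y)]
  refine ⟨fun f => ⟨clamp.comp (F f), fun z => ?_⟩,
    ((ContinuousMap.continuous_postcomp _).comp hFc).subtype_mk _, fun f => ⟨?_, ?_⟩⟩
  · obtain ⟨u, v, h⟩ := hsurj f
    obtain ⟨n, -, e⟩ := hFn f 0
    obtain ⟨y, hy⟩ := intermediate_value_univ u v (F f).continuous
      (show z.1 ∈ _ by rw [e, (h n).1, (h n).2]; exact z.2)
    exact ⟨y, Subtype.ext ((hval f y).trans hy)⟩
  · obtain ⟨n, -, e⟩ := hFn f 0
    refine lt_of_le_of_lt ((ContinuousMap.dist_le (half_pos (hpos f)).le).2 fun y => ?_)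
      (half_lt_self (hpos f))
    rw [Subtype.dist_eq, hval, e]
    exact hclose n f y
  · obtain ⟨n, hn, e⟩ := hFn f (t.ind f trivial)
    refine ⟨p (t.ind f trivial), η _ / 2, a (c _), half_pos (hη _), fun h => (hab _ _ le_rfl).1
      (closedBall_subset_ball (half_lt_self (hη _)) h), fun y hy => ?_⟩
    rw [mem_ball, Subtype.dist_eq, hval, e]
    exact htrap f _ (t.ind_apply f trivial) n hn y hy

end Pool.Agent.H83.ZSet
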